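/-
SBR/Lang.lean : a small structured imperative language over machine words, with unit cost
operations (generic in a type of additional primitive operations), its big step cost semantics,
a weakest precondition calculus and a rule for loops.
-/
import Mathlib

namespace SBR

/-- expressions: constants, registers, sum, difference, halving, array cells, input cells -/
inductive Ex
  | c (n : ℕ)
  | r (i : ℕ)
  | add (a b : Ex)
  | sub (a b : Ex)
  | half (a : Ex)
  | ld (k : ℕ) (a : Ex)
  | inp (a : Ex)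

/-- conditions -/
inductive Co
  | lt (a b : Ex)
  | eq (a b : Ex)

/-- registers `< V` and arrays `< K` only -/
def Ex.wf (V K : ℕ) : Ex → Bool
  | .c _ => true
  | .r i => decide (i < V)
  | .add a b => a.wf V K && b.wf V K
  | .sub a b => a.wf V K && b.wf V K
  | .half a => a.wf V K
  | .ld k a => decide (k < K) && a.wf V K
  | .inp a => a.wf V K

def Co.wf (V K : ℕ) : Co → Bool
  | .lt a b => a.wf V K && b.wf V K
  | .eq a b => a.wf V K && b.wf V K

/-- statements; `Pr` is a type of additional primitive operations -/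
inductive Stm (Pr : Type)
  | skip
  | set (i : ℕ) (e : Ex)
  | sto (k : ℕ) (a e : Ex)
  | prt (e : Ex)
  | seq (p q : Stm Pr)
  | ite (c : Co) (p q : Stm Pr)
  | whl (c : Co) (p : Stm Pr)
  | prim (o : Pr)

/-- registers `< V` and arrays `< K` only; `pw` is the condition for the primitive operations -/
def Stm.wf {Pr : Type} (pw : Pr → Bool) (V K : ℕ) : Stm Pr → Bool
  | .skip => true
  | .set i e => decide (i < V) && e.wf V K
  | .sto k a e => decide (k < K) && a.wf V K && e.wf V K
  | .prt e => e.wf V K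
  | .seq p q => p.wf pw V K && q.wf pw V K
  | .ite c p q => c.wf V K && p.wf pw V K && q.wf pw V K
  | .whl c p => c.wf V K && p.wf pw V K
  | .prim o => pw o

/-- states: registers, arrays, and what has been printed so far -/
@[ext] structure St where
  reg : ℕ → ℕ
  arr : ℕ → ℕ → ℕ
  out : List ℕ

/-- write to a register -/
def St.setReg (s : St) (i v : ℕ) : St := { s with reg := fun j => if j = i then v else s.reg j }

/-- write to a cell of an array -/
def St.setArr (s : St) (k i v : ℕ) : St :=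
  { s with arr := fun k' i' => if k' = k ∧ i' = i then v else s.arr k' i' }

/-- the initial state -/
def St.zero : St := { reg := fun _ => 0, arr := fun _ _ => 0, out := [] }

/-- print a word -/
def St.print (s : St) (v : ℕ) : St := { s with out := s.out ++ [v] }

@[simp] theorem reg_setReg (s : St) (i v j : ℕ) :
    (s.setReg i v).reg j = if j = i then v else s.reg j := rfl
@[simp] theorem arr_setReg (s : St) (i v : ℕ) : (s.setReg i v).arr = s.arr := rfl
@[simp] theorem out_setReg (s : St) (i v : ℕ) : (s.setReg i v).out = s.out := rfl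
@[simp] theorem reg_setArr (s : St) (k i v : ℕ) : (s.setArr k i v).reg = s.reg := rfl
@[simp] theorem arr_setArr (s : St) (k i v k' i' : ℕ) :
    (s.setArr k i v).arr k' i' = if k' = k ∧ i' = i then v else s.arr k' i' := rfl
@[simp] theorem out_setArr (s : St) (k i v : ℕ) : (s.setArr k i v).out = s.out := rfl
@[simp] theorem reg_print (s : St) (v : ℕ) : (s.print v).reg = s.reg := rfl
@[simp] theorem arr_print (s : St) (v : ℕ) : (s.print v).arr = s.arr := rfl
@[simp] theorem out_print (s : St) (v : ℕ) : (s.print v).out = s.out ++ [v] := rfl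

/-- all words in the state are smaller than `M` -/
def Bdd (M : ℕ) (s : St) : Prop := (∀ i, s.reg i < M) ∧ ∀ k i, s.arr k i < M

/-- value of an expression; `inp` is the (read only) input -/
def Ex.eval (inp : ℕ → ℕ) (s : St) : Ex → ℕ
  | .c n => n
  | .r i => s.reg i
  | .add a b => a.eval inp s + b.eval inp s
  | .sub a b => a.eval inp s - b.eval inp s
  | .half a => a.eval inp s / 2
  | .ld k a => s.arr k (a.eval inp s)
  | .inp a => inp (a.eval inp s)

/-- no overflow and no underflow in the evaluation of the expression -/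
def Ex.Ok (M : ℕ) (inp : ℕ → ℕ) (s : St) : Ex → Prop
  | .c n => n < M
  | .r _ => True
  | .add a b => a.Ok M inp s ∧ b.Ok M inp s ∧ a.eval inp s + b.eval inp s < M
  | .sub a b => a.Ok M inp s ∧ b.Ok M inp s ∧ b.eval inp s ≤ a.eval inp s
  | .half a => a.Ok M inp s
  | .ld _ a => a.Ok M inp s
  | .inp a => a.Ok M inp s ∧ a.eval inp s ≤ inp 0 ∧ inp (a.eval inp s) < M

/-- number of operations in an expression -/
def Ex.sz : Ex → ℕ
  | .c _ => 1
  | .r _ => 1
  | .add a b => a.sz + b.sz + 1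
  | .sub a b => a.sz + b.sz + 1
  | .half a => a.sz + 1
  | .ld _ a => a.sz + 1
  | .inp a => a.sz + 1

def Co.Holds (inp : ℕ → ℕ) (s : St) : Co → Prop
  | .lt a b => a.eval inp s < b.eval inp s
  | .eq a b => a.eval inp s = b.eval inp s

def Co.Ok (M : ℕ) (inp : ℕ → ℕ) (s : St) : Co → Prop
  | .lt a b => a.Ok M inp s ∧ b.Ok M inp s
  | .eq a b => a.Ok M inp s ∧ b.Ok M inp s

def Co.sz : Co → ℕ
  | .lt a b => a.sz + b.sz + 1
  | .eq a b => a.sz + b.sz + 1

theorem Ex.eval_lt {M : ℕ} {inp : ℕ → ℕ} {s : St} (hs : Bdd M s) :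
    ∀ e : Ex, e.Ok M inp s → e.eval inp s < M := by
  intro e
  induction e with
  | c n => intro h; exact h
  | r i => intro _; exact hs.1 i
  | add a b _ _ => intro h; exact h.2.2
  | sub a b iha _ => intro h; exact lt_of_le_of_lt (Nat.sub_le _ _) (iha h.1)
  | half a ih => intro h; exact lt_of_le_of_lt (Nat.div_le_self _ _) (ih h)
  | ld k a _ => intro _; exact hs.2 k _
  | inp a _ => intro h; exact h.2.2

section semantics

variable {Pr Q : Type} (M : ℕ) (inp : ℕ → ℕ) (ps : Pr → St × Q → St × Q → ℕ → Prop)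

/-- big step semantics with cost -/
inductive Run : Stm Pr → St × Q → St × Q → ℕ → Prop
  | skip (s : St × Q) : Run .skip s s 1
  | set (s : St) (q : Q) (i : ℕ) (e : Ex) (h : e.Ok M inp s) :
      Run (.set i e) (s, q) (s.setReg i (e.eval inp s), q) (e.sz + 1)
  | sto (s : St) (q : Q) (k : ℕ) (a e : Ex) (ha : a.Ok M inp s) (he : e.Ok M inp s) :
      Run (.sto k a e) (s, q) (s.setArr k (a.eval inp s) (e.eval inp s), q) (a.sz + e.sz + 1)
  | prt (s : St) (q : Q) (e : Ex) (h : e.Ok M inp s) :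
      Run (.prt e) (s, q) (s.print (e.eval inp s), q) (e.sz + 1)
  | seq (p p' : Stm Pr) (s s' s'' : St × Q) (k k' : ℕ) (h : Run p s s' k) (h' : Run p' s' s'' k') :
      Run (.seq p p') s s'' (k + k')
  | ite_t (c : Co) (p p' : Stm Pr) (s s' : St × Q) (k : ℕ) (hc : c.Ok M inp s.1)
      (ht : c.Holds inp s.1) (h : Run p s s' k) : Run (.ite c p p') s s' (c.sz + 1 + k)
  | ite_f (c : Co) (p p' : Stm Pr) (s s' : St × Q) (k : ℕ) (hc : c.Ok M inp s.1)
      (ht : ¬ c.Holds inp s.1) (h : Run p' s s' k) : Run (.ite c p p') s s' (c.sz + 1 + k)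
  | whl_t (c : Co) (p : Stm Pr) (s s' s'' : St × Q) (k k' : ℕ) (hc : c.Ok M inp s.1)
      (ht : c.Holds inp s.1) (h : Run p s s' k) (h' : Run (.whl c p) s' s'' k') :
      Run (.whl c p) s s'' (c.sz + 1 + k + k')
  | whl_f (c : Co) (p : Stm Pr) (s : St × Q) (hc : c.Ok M inp s.1)
      (ht : ¬ c.Holds inp s.1) : Run (.whl c p) s s (c.sz + 1)
  | prim (o : Pr) (s s' : St × Q) (k : ℕ) (h : ps o s s' k) : Run (.prim o) s s' k

/-- weakest preconditions -/
def wp : Stm Pr → (St × Q → ℕ → Prop) → St × Q → Prop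
  | .skip, R, s => R s 1
  | .set i e, R, s => e.Ok M inp s.1 ∧ R (s.1.setReg i (e.eval inp s.1), s.2) (e.sz + 1)
  | .sto k a e, R, s => a.Ok M inp s.1 ∧ e.Ok M inp s.1 ∧
      R (s.1.setArr k (a.eval inp s.1) (e.eval inp s.1), s.2) (a.sz + e.sz + 1)
  | .prt e, R, s => e.Ok M inp s.1 ∧ R (s.1.print (e.eval inp s.1), s.2) (e.sz + 1)
  | .seq p p', R, s => wp p (fun s' k => wp p' (fun s'' k' => R s'' (k + k')) s') s
  | .ite c p p', R, s => c.Ok M inp s.1 ∧
      (c.Holds inp s.1 → wp p (fun s' k => R s' (c.sz + 1 + k)) s) ∧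
      (¬ c.Holds inp s.1 → wp p' (fun s' k => R s' (c.sz + 1 + k)) s)
  | .whl c p, R, s => ∃ s' k, Run M inp ps (.whl c p) s s' k ∧ R s' k
  | .prim o, R, s => ∃ s' k, ps o s s' k ∧ R s' k

theorem wp_run (p : Stm Pr) : ∀ (R : St × Q → ℕ → Prop) (s : St × Q), wp M inp ps p R s →
    ∃ s' k, Run M inp ps p s s' k ∧ R s' k := by
  induction p with
  | skip => intro R s h; exact ⟨_, _, .skip s, h⟩
  | set i e => intro R s h; exact ⟨_, _, .set s.1 s.2 i e h.1, h.2⟩
  | sto k a e => intro R s h; exact ⟨_, _, .sto s.1 s.2 k a e h.1 h.2.1, h.2.2⟩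
  | prt e => intro R s h; exact ⟨_, _, .prt s.1 s.2 e h.1, h.2⟩
  | seq p p' ih ih' =>
    intro R s h
    obtain ⟨s', k, h1, h2⟩ := ih _ s h
    obtain ⟨s'', k', h3, h4⟩ := ih' _ s' h2
    exact ⟨_, _, .seq p p' s s' s'' k k' h1 h3, h4⟩
  | ite c p p' ih ih' =>
    intro R s h
    by_cases hc : c.Holds inp s.1
    · obtain ⟨s', k, h1, h2⟩ := ih _ s (h.2.1 hc)
      exact ⟨_, _, .ite_t c p p' s s' k h.1 hc h1, h2⟩
    · obtain ⟨s', k, h1, h2⟩ := ih' _ s (h.2.2 hc)
      exact ⟨_, _, .ite_f c p p' s s' k h.1 hc h1, h2⟩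
  | whl c p _ => intro R s h; exact h
  | prim o =>
    intro R s h
    obtain ⟨s', k, h1, h2⟩ := h
    exact ⟨_, _, .prim o s s' k h1, h2⟩

theorem run_wp {p : Stm Pr} {s s' : St × Q} {k : ℕ} (h : Run M inp ps p s s' k) :
    ∀ (R : St × Q → ℕ → Prop), R s' k → wp M inp ps p R s := by
  induction h with
  | skip s => intro R hR; exact hR
  | set s q i e h => intro R hR; exact ⟨h, hR⟩
  | sto s q k a e ha he => intro R hR; exact ⟨ha, he, hR⟩
  | prt s q e h => intro R hR; exact ⟨h, hR⟩
  | seq p p' s s' s'' k k' h h' ih ih' =>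
    intro R hR
    exact ih _ (ih' _ hR)
  | ite_t c p p' s s' k hc ht h ih => intro R hR; exact ⟨hc, fun _ => ih _ hR, fun h' => absurd ht h'⟩
  | ite_f c p p' s s' k hc ht h ih => intro R hR; exact ⟨hc, fun h' => absurd h' ht, fun _ => ih _ hR⟩
  | whl_t c p s s' s'' k k' hc ht h h' ih ih' =>
    intro R hR; exact ⟨_, _, .whl_t c p s s' s'' k k' hc ht h h', hR⟩
  | whl_f c p s hc ht => intro R hR; exact ⟨_, _, .whl_f c p s hc ht, hR⟩
  | prim o s s' k h => intro R hR; exact ⟨_, _, h, hR⟩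

/-- to use a specification of `p` inside a `wp` goal -/
theorem wp_of_run {p : Stm Pr} {R R' : St × Q → ℕ → Prop} {s : St × Q}
    (h : ∃ s' k, Run M inp ps p s s' k ∧ R' s' k) (hR : ∀ s' k, R' s' k → R s' k) :
    wp M inp ps p R s := by
  obtain ⟨s', k, h1, h2⟩ := h
  exact run_wp M inp ps h1 R (hR _ _ h2)

theorem wp_mono {p : Stm Pr} {R R' : St × Q → ℕ → Prop} {s : St × Q}
    (h : wp M inp ps p R' s) (hR : ∀ s' k, R' s' k → R s' k) : wp M inp ps p R s :=
  wp_of_run M inp ps (wp_run M inp ps p R' s h) hR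

/-- loop rule. `I g s k` : invariant with ghost value `g`, state `s` and cost `k` spent so far -/
theorem run_whl {G : Type} {c : Co} {p : Stm Pr} (I : G → St × Q → ℕ → Prop) (μ : G → ℕ)
    (h : ∀ g s k, I g s k → c.Ok M inp s.1 ∧ (c.Holds inp s.1 →
      ∃ s' k', Run M inp ps p s s' k' ∧ ∃ g', I g' s' (k + (c.sz + 1) + k') ∧ μ g' < μ g)) :
    ∀ g s k, I g s k → ∃ s' k', Run M inp ps (.whl c p) s s' k' ∧
      ∃ g' kk, I g' s' kk ∧ ¬ c.Holds inp s'.1 ∧ kk + (c.sz + 1) = k + k' := by
  have key : ∀ n g s k, μ g ≤ n → I g s k → ∃ s' k', Run M inp ps (.whl c p) s s' k' ∧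
      ∃ g' kk, I g' s' kk ∧ ¬ c.Holds inp s'.1 ∧ kk + (c.sz + 1) = k + k' := by
    intro n
    induction n with
    | zero =>
      intro g s k hn hI
      obtain ⟨h1, h2⟩ := h g s k hI
      by_cases hc : c.Holds inp s.1
      · obtain ⟨s', k', _, g', _, hlt⟩ := h2 hc
        omega
      · exact ⟨s, _, .whl_f c p s h1 hc, g, k, hI, hc, rfl⟩
    | succ n ih =>
      intro g s k hn hI
      obtain ⟨h1, h2⟩ := h g s k hI
      by_cases hc : c.Holds inp s.1
      · obtain ⟨s', k', hr, g', hI', hlt⟩ := h2 hc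
        obtain ⟨s'', k'', hr', g'', kk, hI'', hc', hk⟩ := ih g' s' _ (by omega) hI'
        exact ⟨s'', _, .whl_t c p s s' s'' k' k'' h1 hc hr hr', g'', kk, hI'', hc', by omega⟩
      · exact ⟨s, _, .whl_f c p s h1 hc, g, k, hI, hc, rfl⟩
  intro g s k hI
  exact key (μ g) g s k le_rfl hI

/-- the semantics keeps all words below `M`, if the primitive operations do -/
theorem Run.bdd (hps : ∀ o s s' k, ps o s s' k → Bdd M s.1 → Bdd M s'.1) {p : Stm Pr}
    {s s' : St × Q} {k : ℕ} (h : Run M inp ps p s s' k) (hs : Bdd M s.1) : Bdd M s'.1 := by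
  induction h with
  | skip s => exact hs
  | set s q i e h =>
    refine ⟨fun j => ?_, fun k j => hs.2 k j⟩
    simp only [reg_setReg]
    split_ifs
    · exact Ex.eval_lt hs e h
    · exact hs.1 j
  | sto s q k a e ha he =>
    refine ⟨fun j => hs.1 j, fun k' j => ?_⟩
    simp only [arr_setArr]
    split_ifs
    · exact Ex.eval_lt hs e he
    · exact hs.2 k' j
  | prt s q e h => exact hs
  | seq p p' s s' s'' k k' h h' ih ih' => exact ih' (ih hs)
  | ite_t c p p' s s' k hc ht h ih => exact ih hs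
  | ite_f c p p' s s' k hc ht h ih => exact ih hs
  | whl_t c p s s' s'' k k' hc ht h h' ih ih' => exact ih' (ih hs)
  | whl_f c p s hc ht => exact hs
  | prim o s s' k h => exact hps o s s' k h hs

end semantics

/-- sequential composition of a list of statements -/
def blk {Pr : Type} : List (Stm Pr) → Stm Pr
  | [] => .skip
  | [p] => p
  | p :: l => .seq p (blk l)

/-- no primitive operations -/
abbrev noPrim : Empty → St × Unit → St × Unit → ℕ → Prop := fun o => nomatch o

end SBR
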