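/-
SBR/Machine.lean : the word RAM.
-/
import Pool.Agent.SBR.Lang

namespace SBR

/-- Instructions of the word RAM.  Registers and instructions are numbered by natural numbers;
a program is a finite list of instructions. -/
inductive Instr
  /-- `R[d] := c` -/
  | const (d c : ℕ)
  /-- `R[d] := R[a]` -/
  | move (d a : ℕ)
  /-- `R[d] := R[a] + R[b]` -/
  | add (d a b : ℕ)
  /-- `R[d] := R[a] - R[b]` -/
  | sub (d a b : ℕ)
  /-- `R[d] := R[a] * R[b]` -/
  | mul (d a b : ℕ)
  /-- `R[d] := R[a] >> 1` -/
  | half (d a : ℕ)
  /-- `R[d] := M[R[a]]` -/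
  | load (d a : ℕ)
  /-- `M[R[a]] := R[s]` -/
  | store (a s : ℕ)
  /-- continue with instruction number `l` -/
  | jump (l : ℕ)
  /-- if `R[a] < R[b]` continue with instruction number `l` -/
  | jlt (a b l : ℕ)
  /-- append `R[s]` to the output -/
  | print (s : ℕ)
  /-- stop -/
  | halt

/-- configurations: program counter, registers, memory, output so far -/
structure Cfg where
  pc : ℕ
  reg : ℕ → ℕ
  mem : ℕ → ℕ
  out : List ℕ

/-- write to register `d` -/
def Cfg.wr (c : Cfg) (d v : ℕ) : Cfg :=
  { c with pc := c.pc + 1, reg := fun i => if i = d then v else c.reg i }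

/-- One step of the word RAM with words of `w` bits: all arithmetic is modulo `2 ^ w`. -/
def step (w : ℕ) (P : List Instr) (c : Cfg) : Cfg :=
  match P[c.pc]? with
  | none => c
  | some .halt => c
  | some (.const d n) => c.wr d (n % 2 ^ w)
  | some (.move d a) => c.wr d (c.reg a)
  | some (.add d a b) => c.wr d ((c.reg a + c.reg b) % 2 ^ w)
  | some (.sub d a b) => c.wr d ((c.reg a + (2 ^ w - c.reg b)) % 2 ^ w)
  | some (.mul d a b) => c.wr d ((c.reg a * c.reg b) % 2 ^ w)
  | some (.half d a) => c.wr d (c.reg a / 2)
  | some (.load d a) => c.wr d (c.mem (c.reg a))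
  | some (.store a s) =>
      { c with pc := c.pc + 1, mem := fun i => if i = c.reg a then c.reg s else c.mem i }
  | some (.jump l) => { c with pc := l }
  | some (.jlt a b l) => { c with pc := if c.reg a < c.reg b then l else c.pc + 1 }
  | some (.print s) => { c with pc := c.pc + 1, out := c.out ++ [c.reg s] }

/-- the machine has stopped -/
def Halted (P : List Instr) (c : Cfg) : Prop := P[c.pc]? = none ∨ P[c.pc]? = some .halt

/-- The initial configuration for the input words `x`: cell `0` contains the length of `x`,
cells `1, …, x.length` contain the words of `x`, everything else is `0`. -/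
def initCfg (x : List ℕ) : Cfg where
  pc := 0
  reg := fun _ => 0
  mem := fun a => if a = 0 then x.length else x.getD (a - 1) 0
  out := []

/-- input function for the structured language -/
def inpOf (x : List ℕ) : ℕ → ℕ := (initCfg x).mem

end SBR
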