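/-
SBR/Compile.lean : compilation of the structured language to the word RAM.
-/
import Pool.Agent.SBR.Machine

namespace SBR

namespace Comp

/-! ### Code fragments inside a program, iterated steps -/

/-- the fragment `code` stands in the program `P` at position `off` -/
def CodeAt (P : List Instr) (off : ℕ) (code : List Instr) : Prop :=
  ∀ i, i < code.length → P[off + i]? = code[i]?

theorem codeAt_nil (P : List Instr) (off : ℕ) : CodeAt P off [] := by
  intro i hi
  simp at hi

theorem codeAt_append {P : List Instr} {off : ℕ} {a b : List Instr} :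
    CodeAt P off (a ++ b) ↔ CodeAt P off a ∧ CodeAt P (off + a.length) b := by
  constructor
  · intro h
    refine ⟨fun i hi => ?_, fun i hi => ?_⟩
    · rw [h i (by rw [List.length_append]; omega), List.getElem?_append_left hi]
    · have := h (a.length + i) (by rw [List.length_append]; omega)
      rw [← add_assoc] at this
      rw [this, List.getElem?_append_right (by omega), Nat.add_sub_cancel_left]
  · rintro ⟨h1, h2⟩ i hi
    rw [List.length_append] at hi
    by_cases h : i < a.length
    · rw [List.getElem?_append_left h]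
      exact h1 i h
    · have := h2 (i - a.length) (by omega)
      rw [List.getElem?_append_right (by omega), ← this]
      congr 1
      omega

theorem codeAt_cons {P : List Instr} {off : ℕ} {a : Instr} {b : List Instr} :
    CodeAt P off (a :: b) ↔ P[off]? = some a ∧ CodeAt P (off + 1) b := by
  have h := @codeAt_append P off [a] b
  rw [List.singleton_append] at h
  rw [h]
  constructor
  · rintro ⟨h1, h2⟩
    exact ⟨by simpa using h1 0 (by simp), by simpa using h2⟩
  · rintro ⟨h1, h2⟩
    refine ⟨fun i hi => ?_, by simpa using h2⟩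
    have : i = 0 := by simpa using hi
    subst this
    simpa using h1

/-- `T` steps lead from `c` to `c'` -/
def Steps (w : ℕ) (P : List Instr) (c : Cfg) (T : ℕ) (c' : Cfg) : Prop :=
  (step w P)^[T] c = c'

theorem Steps.refl (w : ℕ) (P : List Instr) (c : Cfg) : Steps w P c 0 c := rfl

theorem Steps.trans {w : ℕ} {P : List Instr} {c c' c'' : Cfg} {T T' : ℕ}
    (h : Steps w P c T c') (h' : Steps w P c' T' c'') : Steps w P c (T + T') c'' := by
  unfold Steps at *
  rw [add_comm, Function.iterate_add_apply, h, h']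

theorem Steps.one {w : ℕ} {P : List Instr} {c c' : Cfg} (h : step w P c = c') :
    Steps w P c 1 c' := h

/-! ### The compiler -/

/-- expressions: the value goes to register `d`; registers `≥ d` are changed -/
def cE (V K : ℕ) : Ex → ℕ → List Instr
  | .c n, d => [.const d n]
  | .r i, d => [.move d i]
  | .add a b, d => cE V K a d ++ (cE V K b (d + 1) ++ [.add d d (d + 1)])
  | .sub a b, d => cE V K a d ++ (cE V K b (d + 1) ++ [.sub d d (d + 1)])
  | .half a, d => cE V K a d ++ [.half d d]
  | .ld k a, d => cE V K a d ++ [.const (d + 1) K, .mul d d (d + 1), .add d d V,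
      .const (d + 1) k, .add d d (d + 1), .load d d]
  | .inp a, d => cE V K a d ++ [.load d d]

/-- length of the code of an expression -/
def lE : Ex → ℕ
  | .c _ => 1
  | .r _ => 1
  | .add a b => lE a + (lE b + 1)
  | .sub a b => lE a + (lE b + 1)
  | .half a => lE a + 1
  | .ld _ a => lE a + 6
  | .inp a => lE a + 1

theorem length_cE (V K : ℕ) (e : Ex) : ∀ d, (cE V K e d).length = lE e := by
  induction e with
  | c n => intro d; rfl
  | r i => intro d; rfl
  | add a b iha ihb => intro d; simp [cE, lE, iha, ihb]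
  | sub a b iha ihb => intro d; simp [cE, lE, iha, ihb]
  | half a ih => intro d; simp [cE, lE, ih]
  | ld k a ih => intro d; simp [cE, lE, ih]
  | inp a ih => intro d; simp [cE, lE, ih]

theorem lE_le (e : Ex) : lE e ≤ 6 * e.sz := by
  induction e with
  | c n => simp [lE, Ex.sz]
  | r i => simp [lE, Ex.sz]
  | add a b iha ihb => simp only [lE, Ex.sz]; omega
  | sub a b iha ihb => simp only [lE, Ex.sz]; omega
  | half a ih => simp only [lE, Ex.sz]; omega
  | ld k a ih => simp only [lE, Ex.sz]; omega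
  | inp a ih => simp only [lE, Ex.sz]; omega

/-- conditions: continue at `lt` if the condition holds and at `lf` otherwise -/
def cC (V K : ℕ) (lt lf : ℕ) : Co → List Instr
  | .lt a b => cE V K a (V + 1) ++ (cE V K b (V + 2) ++ [.jlt (V + 1) (V + 2) lt, .jump lf])
  | .eq a b => cE V K a (V + 1) ++ (cE V K b (V + 2) ++
      [.jlt (V + 1) (V + 2) lf, .jlt (V + 2) (V + 1) lf, .jump lt])

/-- length of the code of a condition -/
def lC : Co → ℕ
  | .lt a b => lE a + (lE b + 2)
  | .eq a b => lE a + (lE b + 3)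

theorem length_cC (V K lt lf : ℕ) (c : Co) : (cC V K lt lf c).length = lC c := by
  cases c <;> simp [cC, lC, length_cE]

/-- length of the code of a statement -/
def lS : Stm Empty → ℕ
  | .skip => 0
  | .set _ e => lE e + 1
  | .sto _ a e => lE a + (lE e + 6)
  | .prt e => lE e + 1
  | .seq p q => lS p + lS q
  | .ite c p q => lC c + (lS p + (1 + lS q))
  | .whl c p => lC c + (lS p + 1)
  | .prim _ => 0

/-- statements; `off` is the position of the code in the program -/
def cS (V K : ℕ) : Stm Empty → ℕ → List Instr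
  | .skip, _ => []
  | .set i e, _ => cE V K e (V + 1) ++ [.move i (V + 1)]
  | .sto k a e, _ => cE V K a (V + 1) ++ (cE V K e (V + 2) ++
      [.const (V + 3) K, .mul (V + 1) (V + 1) (V + 3), .add (V + 1) (V + 1) V,
        .const (V + 3) k, .add (V + 1) (V + 1) (V + 3), .store (V + 1) (V + 2)])
  | .prt e, _ => cE V K e (V + 1) ++ [.print (V + 1)]
  | .seq p q, off => cS V K p off ++ cS V K q (off + lS p)
  | .ite c p q, off => cC V K (off + lC c) (off + lC c + lS p + 1) c ++
      (cS V K p (off + lC c) ++ (.jump (off + lC c + lS p + 1 + lS q) ::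
        cS V K q (off + lC c + lS p + 1)))
  | .whl c p, off => cC V K (off + lC c) (off + lC c + lS p + 1) c ++
      (cS V K p (off + lC c) ++ [.jump off])
  | .prim _, _ => []

theorem length_cS (V K : ℕ) (p : Stm Empty) : ∀ off, (cS V K p off).length = lS p := by
  induction p with
  | skip => intro off; rfl
  | set i e => intro off; simp [cS, lS, length_cE]
  | sto k a e => intro off; simp [cS, lS, length_cE]
  | prt e => intro off; simp [cS, lS, length_cE]
  | seq p q ihp ihq => intro off; simp [cS, lS, ihp, ihq]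
  | ite c p q ihp ihq => intro off; simp [cS, lS, length_cC, ihp, ihq]; omega
  | whl c p ih => intro off; simp [cS, lS, length_cC, ih]
  | prim o => exact o.elim

/-! ### The representation of states -/

/-- the configuration `c` represents the state `s` -/
structure Rep (V K B : ℕ) (inp : ℕ → ℕ) (s : St) (c : Cfg) : Prop where
  reg : ∀ i, i < V → c.reg i = s.reg i
  base : c.reg V = B
  arr : ∀ k, k < K → ∀ i, c.mem (B + K * i + k) = s.arr k i
  inp : ∀ a, a < B → c.mem a = inp a
  out : c.out = s.out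

/-- the representation depends only on registers `≤ V`, memory and output -/
theorem Rep.congr {V K B : ℕ} {inp : ℕ → ℕ} {s : St} {c c' : Cfg} (h : Rep V K B inp s c)
    (hr : ∀ i, i ≤ V → c'.reg i = c.reg i) (hm : c'.mem = c.mem) (ho : c'.out = c.out) :
    Rep V K B inp s c' where
  reg i hi := by rw [hr i hi.le, h.reg i hi]
  base := by rw [hr V le_rfl, h.base]
  arr k hk i := by rw [hm, h.arr k hk i]
  inp a ha := by rw [hm, h.inp a ha]
  out := by rw [ho, h.out]

/-! ### Correctness -/

section correct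

variable {V K M w B : ℕ} {inp : ℕ → ℕ} {P : List Instr}

theorem step_of {c : Cfg} {pc : ℕ} {ins : Instr} (hpc : c.pc = pc) (h : P[pc]? = some ins) :
    P[c.pc]? = some ins := by rw [hpc]; exact h

/-- the effect of an expression -/
def EffE (c c' : Cfg) (d v len : ℕ) : Prop :=
  c'.pc = c.pc + len ∧ c'.reg d = v ∧ (∀ i, i < d → c'.reg i = c.reg i) ∧ c'.mem = c.mem ∧
    c'.out = c.out

theorem cE_correct (hB : B < M) (hinp0 : inp 0 < B) (hw : (K + 1) * M ≤ 2 ^ w) (e : Ex) :
    ∀ (s : St) (c : Cfg) (off d : ℕ), e.wf V K = true → V < d → CodeAt P off (cE V K e d) →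
      c.pc = off → Rep V K B inp s c → Bdd M s → e.Ok M inp s →
      ∃ c', Steps w P c (lE e) c' ∧ EffE c c' d (e.eval inp s) (lE e) := by
  have hM : M ≤ 2 ^ w := le_trans (by nlinarith) hw
  have hM0 : 0 < M := by omega
  have hK : K < 2 ^ w := by
    have : K < (K + 1) * M := by nlinarith
    omega
  induction e with
  | c n =>
    intro s c off d _ _ hcode hpc _ _ hok
    rw [cE, codeAt_cons] at hcode
    have hs := step_of hpc hcode.1
    have hn : n % 2 ^ w = n := Nat.mod_eq_of_lt (lt_of_lt_of_le hok hM)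
    refine ⟨c.wr d (n % 2 ^ w), Steps.one ?_, rfl, ?_, ?_, rfl, rfl⟩
    · simp only [step, hs]
    · simp [Cfg.wr, hn, Ex.eval]
    · intro i hi
      simp only [Cfg.wr]
      rw [if_neg (by omega)]
  | r i =>
    intro s c off d hwf hd hcode hpc hrep _ _
    rw [cE, codeAt_cons] at hcode
    have hs := step_of hpc hcode.1
    simp only [Ex.wf, decide_eq_true_eq] at hwf
    refine ⟨c.wr d (c.reg i), Steps.one ?_, rfl, ?_, ?_, rfl, rfl⟩
    · simp only [step, hs]
    · simp [Cfg.wr, Ex.eval, hrep.reg i hwf]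
    · intro j hj
      simp only [Cfg.wr]
      rw [if_neg (by omega)]
  | add a b iha ihb =>
    intro s c off d hwf hd hcode hpc hrep hbdd hok
    simp only [Ex.wf, Bool.and_eq_true] at hwf
    rw [cE, codeAt_append, codeAt_append, codeAt_cons, length_cE, length_cE] at hcode
    obtain ⟨hca, hcb, hci, -⟩ := hcode
    obtain ⟨c1, hs1, hp1, hv1, hr1, hm1, ho1⟩ := iha s c off d hwf.1 hd hca hpc hrep hbdd hok.1
    have hrep1 : Rep V K B inp s c1 := hrep.congr (fun i hi => hr1 i (by omega)) hm1 ho1
    obtain ⟨c2, hs2, hp2, hv2, hr2, hm2, ho2⟩ := ihb s c1 (off + lE a) (d + 1) hwf.2 (by omega) hcb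
      (by rw [hp1, hpc]) hrep1 hbdd hok.2.1
    have hpc2 : c2.pc = off + lE a + lE b := by rw [hp2, hp1, hpc]
    have hs := step_of hpc2 hci
    have hd2 : c2.reg d = a.eval inp s := by rw [hr2 d (by omega), hv1]
    have hlt : (a.eval inp s + b.eval inp s) % 2 ^ w = a.eval inp s + b.eval inp s :=
      Nat.mod_eq_of_lt (lt_of_lt_of_le hok.2.2 hM)
    refine ⟨c2.wr d ((c2.reg d + c2.reg (d + 1)) % 2 ^ w),
      hs1.trans (hs2.trans (Steps.one ?_)), ?_, ?_, ?_, ?_, ?_⟩
    · simp only [step, hs]
    · simp only [Cfg.wr, hpc2, hpc, lE]; omega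
    · simp [Cfg.wr, hd2, hv2, hlt, Ex.eval]
    · intro i hi
      simp only [Cfg.wr]
      rw [if_neg (by omega), hr2 i (by omega), hr1 i hi]
    · simp only [Cfg.wr]; rw [hm2, hm1]
    · simp only [Cfg.wr]; rw [ho2, ho1]
  | sub a b iha ihb =>
    intro s c off d hwf hd hcode hpc hrep hbdd hok
    simp only [Ex.wf, Bool.and_eq_true] at hwf
    rw [cE, codeAt_append, codeAt_append, codeAt_cons, length_cE, length_cE] at hcode
    obtain ⟨hca, hcb, hci, -⟩ := hcode
    obtain ⟨c1, hs1, hp1, hv1, hr1, hm1, ho1⟩ := iha s c off d hwf.1 hd hca hpc hrep hbdd hok.1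
    have hrep1 : Rep V K B inp s c1 := hrep.congr (fun i hi => hr1 i (by omega)) hm1 ho1
    obtain ⟨c2, hs2, hp2, hv2, hr2, hm2, ho2⟩ := ihb s c1 (off + lE a) (d + 1) hwf.2 (by omega) hcb
      (by rw [hp1, hpc]) hrep1 hbdd hok.2.1
    have hpc2 : c2.pc = off + lE a + lE b := by rw [hp2, hp1, hpc]
    have hs := step_of hpc2 hci
    have hd2 : c2.reg d = a.eval inp s := by rw [hr2 d (by omega), hv1]
    have ha : a.eval inp s < M := Ex.eval_lt hbdd a hok.1
    have hba : b.eval inp s ≤ a.eval inp s := hok.2.2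
    have hlt : (a.eval inp s + (2 ^ w - b.eval inp s)) % 2 ^ w = a.eval inp s - b.eval inp s := by
      have : a.eval inp s + (2 ^ w - b.eval inp s) = (a.eval inp s - b.eval inp s) + 2 ^ w := by
        omega
      rw [this, Nat.add_mod_right]
      exact Nat.mod_eq_of_lt (by omega)
    refine ⟨c2.wr d ((c2.reg d + (2 ^ w - c2.reg (d + 1))) % 2 ^ w),
      hs1.trans (hs2.trans (Steps.one ?_)), ?_, ?_, ?_, ?_, ?_⟩
    · simp only [step, hs]
    · simp only [Cfg.wr, hpc2, hpc, lE]; omega
    · simp [Cfg.wr, hd2, hv2, hlt, Ex.eval]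
    · intro i hi
      simp only [Cfg.wr]
      rw [if_neg (by omega), hr2 i (by omega), hr1 i hi]
    · simp only [Cfg.wr]; rw [hm2, hm1]
    · simp only [Cfg.wr]; rw [ho2, ho1]
  | half a ih =>
    intro s c off d hwf hd hcode hpc hrep hbdd hok
    rw [cE, codeAt_append, codeAt_cons, length_cE] at hcode
    obtain ⟨hca, hci, -⟩ := hcode
    obtain ⟨c1, hs1, hp1, hv1, hr1, hm1, ho1⟩ := ih s c off d hwf hd hca hpc hrep hbdd hok
    have hpc1 : c1.pc = off + lE a := by rw [hp1, hpc]
    have hs := step_of hpc1 hci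
    refine ⟨c1.wr d (c1.reg d / 2), hs1.trans (Steps.one ?_), ?_, ?_, ?_, ?_, ?_⟩
    · simp only [step, hs]
    · simp only [Cfg.wr, hpc1, hpc, lE]; omega
    · simp [Cfg.wr, hv1, Ex.eval]
    · intro i hi
      simp only [Cfg.wr]
      rw [if_neg (by omega), hr1 i hi]
    · simp only [Cfg.wr]; rw [hm1]
    · simp only [Cfg.wr]; rw [ho1]
  | ld k a ih =>
    intro s c off d hwf hd hcode hpc hrep hbdd hok
    simp only [Ex.wf, Bool.and_eq_true, decide_eq_true_eq] at hwf
    rw [cE, codeAt_append, length_cE] at hcode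
    obtain ⟨hca, hcr⟩ := hcode
    simp only [codeAt_cons] at hcr
    obtain ⟨hi1, hi2, hi3, hi4, hi5, hi6, -⟩ := hcr
    obtain ⟨c1, hs1, hp1, hv1, hr1, hm1, ho1⟩ := ih s c off d hwf.2 hd hca hpc hrep hbdd hok
    have hv : a.eval inp s < M := Ex.eval_lt hbdd a hok
    set v := a.eval inp s with hvdef
    have hvK : v * K + B + k < 2 ^ w := by
      have h1 : v * K + K ≤ M * K := by
        have : (v + 1) * K ≤ M * K := Nat.mul_le_mul_right _ hv
        rw [Nat.add_mul, one_mul] at this
        exact this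
      have h2 : (K + 1) * M = M * K + M := by ring
      have := hwf.1
      omega
    have hm1' : v * K % 2 ^ w = v * K := Nat.mod_eq_of_lt (by omega)
    have hm2' : (v * K + B) % 2 ^ w = v * K + B := Nat.mod_eq_of_lt (by omega)
    have hm3' : (v * K + B + k) % 2 ^ w = v * K + B + k := Nat.mod_eq_of_lt hvK
    have hK' : K % 2 ^ w = K := Nat.mod_eq_of_lt hK
    have hk' : k % 2 ^ w = k := Nat.mod_eq_of_lt (by omega)
    have hV1 : c1.reg V = B := by rw [hr1 V hd, hrep.base]
    have hpc1 : c1.pc = off + lE a := by rw [hp1, hpc]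
    -- the six instructions
    obtain ⟨c2, h2⟩ : ∃ c2, c2 = c1.wr (d + 1) K := ⟨_, rfl⟩
    obtain ⟨c3, h3⟩ : ∃ c3, c3 = c2.wr d (v * K) := ⟨_, rfl⟩
    obtain ⟨c4, h4⟩ : ∃ c4, c4 = c3.wr d (v * K + B) := ⟨_, rfl⟩
    obtain ⟨c5, h5⟩ : ∃ c5, c5 = c4.wr (d + 1) k := ⟨_, rfl⟩
    obtain ⟨c6, h6⟩ : ∃ c6, c6 = c5.wr d (v * K + B + k) := ⟨_, rfl⟩
    obtain ⟨c7, h7⟩ : ∃ c7, c7 = c6.wr d (c6.mem (v * K + B + k)) := ⟨_, rfl⟩
    have e2 : c2.reg d = v ∧ c2.reg (d + 1) = K ∧ c2.reg V = B ∧ c2.pc = off + lE a + 1 := by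
      rw [h2]
      refine ⟨?_, ?_, ?_, ?_⟩
      · simp [Cfg.wr, hv1]
      · simp [Cfg.wr]
      · simp only [Cfg.wr]; rw [if_neg (by omega), hV1]
      · simp only [Cfg.wr, hpc1]
    have e3 : c3.reg d = v * K ∧ c3.reg V = B ∧ c3.pc = off + lE a + 1 + 1 := by
      rw [h3]
      refine ⟨?_, ?_, ?_⟩
      · simp [Cfg.wr]
      · simp only [Cfg.wr]; rw [if_neg (by omega), e2.2.2.1]
      · simp only [Cfg.wr, e2.2.2.2]
    have e4 : c4.reg d = v * K + B ∧ c4.reg V = B ∧ c4.pc = off + lE a + 1 + 1 + 1 := by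
      rw [h4]
      refine ⟨?_, ?_, ?_⟩
      · simp [Cfg.wr]
      · simp only [Cfg.wr]; rw [if_neg (by omega), e3.2.1]
      · simp only [Cfg.wr, e3.2.2]
    have e5 : c5.reg d = v * K + B ∧ c5.reg (d + 1) = k ∧ c5.pc = off + lE a + 1 + 1 + 1 + 1 := by
      rw [h5]
      refine ⟨?_, ?_, ?_⟩
      · simp [Cfg.wr, e4.1]
      · simp [Cfg.wr]
      · simp only [Cfg.wr, e4.2.2]
    have e6 : c6.reg d = v * K + B + k ∧ c6.pc = off + lE a + 1 + 1 + 1 + 1 + 1 := by
      rw [h6]
      refine ⟨?_, ?_⟩
      · simp [Cfg.wr]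
      · simp only [Cfg.wr, e5.2.2]
    have s2 : step w P c1 = c2 := by
      have hs := step_of hpc1 hi1
      simp only [step, hs]
      rw [h2, hK']
    have s3 : step w P c2 = c3 := by
      have hs := step_of e2.2.2.2 hi2
      simp only [step, hs]
      rw [h3, e2.1, e2.2.1, hm1']
    have s4 : step w P c3 = c4 := by
      have hs := step_of e3.2.2 hi3
      simp only [step, hs]
      rw [h4, e3.1, e3.2.1, hm2']
    have s5 : step w P c4 = c5 := by
      have hs := step_of e4.2.2 hi4
      simp only [step, hs]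
      rw [h5, hk']
    have s6 : step w P c5 = c6 := by
      have hs := step_of e5.2.2 hi5
      simp only [step, hs]
      rw [h6, e5.1, e5.2.1, hm3']
    have s7 : step w P c6 = c7 := by
      have hs := step_of e6.2 hi6
      simp only [step, hs]
      rw [h7, e6.1]
    have hmem : c6.mem = c.mem := by
      rw [h6, h5, h4, h3, h2]
      simp only [Cfg.wr]
      exact hm1
    have hout : c6.out = c.out := by
      rw [h6, h5, h4, h3, h2]
      simp only [Cfg.wr]
      exact ho1
    refine ⟨c7, ?_, ?_, ?_, ?_, ?_, ?_⟩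
    · have := hs1.trans ((Steps.one s2).trans ((Steps.one s3).trans ((Steps.one s4).trans
        ((Steps.one s5).trans ((Steps.one s6).trans (Steps.one s7))))))
      exact this
    · rw [h7]
      simp only [Cfg.wr, e6.2, hpc, lE]
      omega
    · rw [h7]
      simp only [Cfg.wr, if_true, hmem]
      have hadr : v * K + B + k = B + K * v + k := by ring
      rw [hadr, hrep.arr k hwf.1 v]
      rfl
    · intro i hi
      rw [h7, h6, h5, h4, h3, h2]
      simp only [Cfg.wr]
      rw [if_neg (by omega), if_neg (by omega), if_neg (by omega), if_neg (by omega),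
        if_neg (by omega), if_neg (by omega), hr1 i hi]
    · rw [h7]
      simp only [Cfg.wr]
      exact hmem
    · rw [h7]
      simp only [Cfg.wr]
      exact hout
  | inp a ih =>
    intro s c off d hwf hd hcode hpc hrep hbdd hok
    rw [cE, codeAt_append, codeAt_cons, length_cE] at hcode
    obtain ⟨hca, hci, -⟩ := hcode
    obtain ⟨c1, hs1, hp1, hv1, hr1, hm1, ho1⟩ := ih s c off d hwf hd hca hpc hrep hbdd hok.1
    have hpc1 : c1.pc = off + lE a := by rw [hp1, hpc]
    have hs := step_of hpc1 hci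
    have hlt : a.eval inp s < B := lt_of_le_of_lt hok.2.1 hinp0
    refine ⟨c1.wr d (c1.mem (c1.reg d)), hs1.trans (Steps.one ?_), ?_, ?_, ?_, ?_, ?_⟩
    · simp only [step, hs]
    · simp only [Cfg.wr, hpc1, hpc, lE]; omega
    · simp only [Cfg.wr, if_true]
      rw [hv1, hm1, hrep.inp _ hlt]
      rfl
    · intro i hi
      simp only [Cfg.wr]
      rw [if_neg (by omega), hr1 i hi]
    · simp only [Cfg.wr]; rw [hm1]
    · simp only [Cfg.wr]; rw [ho1]

/-- correctness of the code of conditions -/
theorem cC_correct (hB : B < M) (hinp0 : inp 0 < B) (hw : (K + 1) * M ≤ 2 ^ w) (co : Co)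
    (s : St) (c : Cfg) (off lt lf : ℕ) (hwf : co.wf V K = true)
    (hcode : CodeAt P off (cC V K lt lf co)) (hpc : c.pc = off) (hrep : Rep V K B inp s c)
    (hbdd : Bdd M s) (hok : co.Ok M inp s) :
    ∃ T c', T ≤ 6 * co.sz ∧ Steps w P c T c' ∧ (co.Holds inp s → c'.pc = lt) ∧
      (¬ co.Holds inp s → c'.pc = lf) ∧ Rep V K B inp s c' := by
  cases co with
  | lt a b =>
    simp only [Co.wf, Bool.and_eq_true] at hwf
    rw [cC, codeAt_append, codeAt_append, codeAt_cons, codeAt_cons, length_cE, length_cE] at hcode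
    obtain ⟨hca, hcb, hi1, hi2, -⟩ := hcode
    obtain ⟨c1, hs1, hp1, hv1, hr1, hm1, ho1⟩ :=
      cE_correct hB hinp0 hw a s c off (V + 1) hwf.1 (by omega) hca hpc hrep hbdd hok.1
    have hrep1 : Rep V K B inp s c1 := hrep.congr (fun i hi => hr1 i (by omega)) hm1 ho1
    obtain ⟨c2, hs2, hp2, hv2, hr2, hm2, ho2⟩ := cE_correct hB hinp0 hw b s c1 (off + lE a) (V + 2)
      hwf.2 (by omega) hcb (by rw [hp1, hpc]) hrep1 hbdd hok.2
    have hrep2 : Rep V K B inp s c2 := hrep1.congr (fun i hi => hr2 i (by omega)) hm2 ho2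
    have hpc2 : c2.pc = off + lE a + lE b := by rw [hp2, hp1, hpc]
    have hd2 : c2.reg (V + 1) = a.eval inp s := by rw [hr2 (V + 1) (by omega), hv1]
    have hs := step_of hpc2 hi1
    have hla := lE_le a
    have hlb := lE_le b
    by_cases hh : a.eval inp s < b.eval inp s
    · refine ⟨lE a + (lE b + 1), { c2 with pc := lt }, ?_, hs1.trans (hs2.trans (Steps.one ?_)),
        fun _ => rfl, fun h => absurd hh h, hrep2.congr (fun i _ => rfl) rfl rfl⟩
      · simp only [Co.sz]; omega
      · simp only [step, hs]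
        rw [hd2, hv2, if_pos hh]
    · have e1 : step w P c2 = { c2 with pc := c2.pc + 1 } := by
        simp only [step, hs]
        rw [hd2, hv2, if_neg hh]
      have hs' : P[({ c2 with pc := c2.pc + 1 } : Cfg).pc]? = some (.jump lf) := by
        have : ({ c2 with pc := c2.pc + 1 } : Cfg).pc = off + lE a + lE b + 1 := by
          simp only [hpc2]
        rw [this]
        exact hi2
      refine ⟨lE a + (lE b + (1 + 1)), { c2 with pc := lf }, ?_,
        hs1.trans (hs2.trans ((Steps.one e1).trans (Steps.one ?_))),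
        fun h => absurd h hh, fun _ => rfl, hrep2.congr (fun i _ => rfl) rfl rfl⟩
      · simp only [Co.sz]; omega
      · simp only [step, hs']
  | eq a b =>
    simp only [Co.wf, Bool.and_eq_true] at hwf
    rw [cC, codeAt_append, codeAt_append, codeAt_cons, codeAt_cons, codeAt_cons, length_cE,
      length_cE] at hcode
    obtain ⟨hca, hcb, hi1, hi2, hi3, -⟩ := hcode
    obtain ⟨c1, hs1, hp1, hv1, hr1, hm1, ho1⟩ :=
      cE_correct hB hinp0 hw a s c off (V + 1) hwf.1 (by omega) hca hpc hrep hbdd hok.1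
    have hrep1 : Rep V K B inp s c1 := hrep.congr (fun i hi => hr1 i (by omega)) hm1 ho1
    obtain ⟨c2, hs2, hp2, hv2, hr2, hm2, ho2⟩ := cE_correct hB hinp0 hw b s c1 (off + lE a) (V + 2)
      hwf.2 (by omega) hcb (by rw [hp1, hpc]) hrep1 hbdd hok.2
    have hrep2 : Rep V K B inp s c2 := hrep1.congr (fun i hi => hr2 i (by omega)) hm2 ho2
    have hpc2 : c2.pc = off + lE a + lE b := by rw [hp2, hp1, hpc]
    have hd2 : c2.reg (V + 1) = a.eval inp s := by rw [hr2 (V + 1) (by omega), hv1]
    have hs := step_of hpc2 hi1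
    have hla := lE_le a
    have hlb := lE_le b
    by_cases hh : a.eval inp s < b.eval inp s
    · have hne : ¬ a.eval inp s = b.eval inp s := by omega
      refine ⟨lE a + (lE b + 1), { c2 with pc := lf }, ?_, hs1.trans (hs2.trans (Steps.one ?_)),
        fun h => absurd h hne, fun _ => rfl, hrep2.congr (fun i _ => rfl) rfl rfl⟩
      · simp only [Co.sz]; omega
      · simp only [step, hs]
        rw [hd2, hv2, if_pos hh]
    · have e1 : step w P c2 = { c2 with pc := c2.pc + 1 } := by
        simp only [step, hs]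
        rw [hd2, hv2, if_neg hh]
      have hs' : P[({ c2 with pc := c2.pc + 1 } : Cfg).pc]? = some (.jlt (V + 2) (V + 1) lf) := by
        have : ({ c2 with pc := c2.pc + 1 } : Cfg).pc = off + lE a + lE b + 1 := by
          simp only [hpc2]
        rw [this]
        exact hi2
      by_cases hh' : b.eval inp s < a.eval inp s
      · have hne : ¬ a.eval inp s = b.eval inp s := by omega
        refine ⟨lE a + (lE b + (1 + 1)), { c2 with pc := lf }, ?_,
          hs1.trans (hs2.trans ((Steps.one e1).trans (Steps.one ?_))),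
          fun h => absurd h hne, fun _ => rfl, hrep2.congr (fun i _ => rfl) rfl rfl⟩
        · simp only [Co.sz]; omega
        · simp only [step, hs']
          rw [hd2, hv2, if_pos hh']
      · have heq : a.eval inp s = b.eval inp s := by omega
        have e2 : step w P { c2 with pc := c2.pc + 1 } = { c2 with pc := c2.pc + 1 + 1 } := by
          simp only [step, hs']
          rw [hd2, hv2, if_neg hh']
        have hs'' : P[({ c2 with pc := c2.pc + 1 + 1 } : Cfg).pc]? = some (.jump lt) := by
          have : ({ c2 with pc := c2.pc + 1 + 1 } : Cfg).pc = off + lE a + lE b + 1 + 1 := by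
            simp only [hpc2]
          rw [this]
          exact hi3
        refine ⟨lE a + (lE b + (1 + (1 + 1))), { c2 with pc := lt }, ?_,
          hs1.trans (hs2.trans ((Steps.one e1).trans ((Steps.one e2).trans (Steps.one ?_)))),
          fun _ => rfl, fun h => absurd heq h, hrep2.congr (fun i _ => rfl) rfl rfl⟩
        · simp only [Co.sz]; omega
        · simp only [step, hs'']

theorem noPrim_bdd : ∀ (o : Empty) (s s' : St × Unit) (k : ℕ), noPrim o s s' k → Bdd M s.1 →
    Bdd M s'.1 := fun o => o.elim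

/-- correctness of the code of statements -/
theorem cS_correct (hB : B < M) (hinp0 : inp 0 < B) (hw : (K + 1) * M ≤ 2 ^ w)
    {p : Stm Empty} {s s' : St × Unit} {k : ℕ} (h : Run M inp noPrim p s s' k) :
    ∀ (c : Cfg) (off : ℕ), p.wf (fun _ => true) V K = true → CodeAt P off (cS V K p off) →
      c.pc = off → Rep V K B inp s.1 c → Bdd M s.1 →
      ∃ T c', T ≤ 6 * k ∧ Steps w P c T c' ∧ c'.pc = off + lS p ∧ Rep V K B inp s'.1 c' := by
  have hM : M ≤ 2 ^ w := le_trans (by nlinarith) hw
  have hM0 : 0 < M := by omega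
  have hK : K < 2 ^ w := by
    have : K < (K + 1) * M := by nlinarith
    omega
  induction h with
  | skip s =>
    intro c off _ _ hpc hrep _
    exact ⟨0, c, by omega, Steps.refl _ _ _, by simpa [lS] using hpc, hrep⟩
  | set s q i e h =>
    intro c off hwf hcode hpc hrep hbdd
    simp only [Stm.wf, Bool.and_eq_true, decide_eq_true_eq] at hwf
    rw [cS, codeAt_append, codeAt_cons, length_cE] at hcode
    obtain ⟨hca, hi1, -⟩ := hcode
    obtain ⟨c1, hs1, hp1, hv1, hr1, hm1, ho1⟩ :=
      cE_correct hB hinp0 hw e s c off (V + 1) hwf.2 (by omega) hca hpc hrep hbdd h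
    have hrep1 : Rep V K B inp s c1 := hrep.congr (fun i hi => hr1 i (by omega)) hm1 ho1
    have hpc1 : c1.pc = off + lE e := by rw [hp1, hpc]
    have hs := step_of hpc1 hi1
    have hl := lE_le e
    refine ⟨lE e + 1, c1.wr i (c1.reg (V + 1)), by omega, hs1.trans (Steps.one ?_), ?_, ?_⟩
    · simp only [step, hs]
    · simp only [Cfg.wr, hpc1, lS]; omega
    · refine ⟨fun j hj => ?_, ?_, fun k hk j => ?_, fun a ha => ?_, ?_⟩
      · simp only [Cfg.wr, reg_setReg]
        rw [hv1]
        split_ifs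
        · rfl
        · exact hrep1.reg j hj
      · simp only [Cfg.wr]
        rw [if_neg (by omega)]
        exact hrep1.base
      · exact hrep1.arr k hk j
      · exact hrep1.inp a ha
      · exact hrep1.out
  | sto s q k a e ha he =>
    intro c off hwf hcode hpc hrep hbdd
    simp only [Stm.wf, Bool.and_eq_true, decide_eq_true_eq] at hwf
    obtain ⟨⟨hkK, hwa⟩, hwe⟩ := hwf
    rw [cS, codeAt_append, codeAt_append, length_cE, length_cE] at hcode
    obtain ⟨hca, hcb, hcr⟩ := hcode
    simp only [codeAt_cons] at hcr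
    obtain ⟨hi1, hi2, hi3, hi4, hi5, hi6, -⟩ := hcr
    obtain ⟨c0, hs0, hp0, hv0, hr0, hm0, ho0⟩ :=
      cE_correct hB hinp0 hw a s c off (V + 1) hwa (by omega) hca hpc hrep hbdd ha
    have hrep0 : Rep V K B inp s c0 := hrep.congr (fun i hi => hr0 i (by omega)) hm0 ho0
    obtain ⟨c1, hs1, hp1, hv1, hr1, hm1, ho1⟩ := cE_correct hB hinp0 hw e s c0 (off + lE a) (V + 2)
      hwe (by omega) hcb (by rw [hp0, hpc]) hrep0 hbdd he
    have hrep1 : Rep V K B inp s c1 := hrep0.congr (fun i hi => hr1 i (by omega)) hm1 ho1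
    have hd1 : c1.reg (V + 1) = a.eval inp s := by rw [hr1 (V + 1) (by omega), hv0]
    have hv : a.eval inp s < M := Ex.eval_lt hbdd a ha
    set v := a.eval inp s with hvdef
    set u := e.eval inp s with hudef
    have hvK : v * K + B + k < 2 ^ w := by
      have h1 : v * K + K ≤ M * K := by
        have : (v + 1) * K ≤ M * K := Nat.mul_le_mul_right _ hv
        rw [Nat.add_mul, one_mul] at this
        exact this
      have h2 : (K + 1) * M = M * K + M := by ring
      omega
    have hm1' : v * K % 2 ^ w = v * K := Nat.mod_eq_of_lt (by omega)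
    have hm2' : (v * K + B) % 2 ^ w = v * K + B := Nat.mod_eq_of_lt (by omega)
    have hm3' : (v * K + B + k) % 2 ^ w = v * K + B + k := Nat.mod_eq_of_lt hvK
    have hK' : K % 2 ^ w = K := Nat.mod_eq_of_lt hK
    have hk' : k % 2 ^ w = k := Nat.mod_eq_of_lt (by omega)
    have hV1 : c1.reg V = B := hrep1.base
    have hpc1 : c1.pc = off + lE a + lE e := by rw [hp1, hp0, hpc]
    obtain ⟨c2, h2⟩ : ∃ c2, c2 = c1.wr (V + 3) K := ⟨_, rfl⟩
    obtain ⟨c3, h3⟩ : ∃ c3, c3 = c2.wr (V + 1) (v * K) := ⟨_, rfl⟩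
    obtain ⟨c4, h4⟩ : ∃ c4, c4 = c3.wr (V + 1) (v * K + B) := ⟨_, rfl⟩
    obtain ⟨c5, h5⟩ : ∃ c5, c5 = c4.wr (V + 3) k := ⟨_, rfl⟩
    obtain ⟨c6, h6⟩ : ∃ c6, c6 = c5.wr (V + 1) (v * K + B + k) := ⟨_, rfl⟩
    obtain ⟨c7, h7⟩ : ∃ c7 : Cfg, c7 = { c6 with
      pc := c6.pc + 1, mem := fun i => if i = v * K + B + k then u else c6.mem i } := ⟨_, rfl⟩
    have e2 : c2.reg (V + 1) = v ∧ c2.reg (V + 3) = K ∧ c2.reg V = B ∧
        c2.pc = off + lE a + lE e + 1 ∧ c2.reg (V + 2) = u := by
      rw [h2]
      refine ⟨?_, ?_, ?_, ?_, ?_⟩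
      · simp only [Cfg.wr]; rw [if_neg (by omega), hd1]
      · simp only [Cfg.wr, if_true]
      · simp only [Cfg.wr]; rw [if_neg (by omega), hV1]
      · simp only [Cfg.wr, hpc1]
      · simp only [Cfg.wr]; rw [if_neg (by omega), hv1]
    have e3 : c3.reg (V + 1) = v * K ∧ c3.reg V = B ∧ c3.pc = off + lE a + lE e + 1 + 1 ∧
        c3.reg (V + 2) = u := by
      rw [h3]
      refine ⟨?_, ?_, ?_, ?_⟩
      · simp only [Cfg.wr, if_true]
      · simp only [Cfg.wr]; rw [if_neg (by omega), e2.2.2.1]
      · simp only [Cfg.wr, e2.2.2.2.1]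
      · simp only [Cfg.wr]; rw [if_neg (by omega), e2.2.2.2.2]
    have e4 : c4.reg (V + 1) = v * K + B ∧ c4.reg V = B ∧
        c4.pc = off + lE a + lE e + 1 + 1 + 1 ∧ c4.reg (V + 2) = u := by
      rw [h4]
      refine ⟨?_, ?_, ?_, ?_⟩
      · simp only [Cfg.wr, if_true]
      · simp only [Cfg.wr]; rw [if_neg (by omega), e3.2.1]
      · simp only [Cfg.wr, e3.2.2.1]
      · simp only [Cfg.wr]; rw [if_neg (by omega), e3.2.2.2]
    have e5 : c5.reg (V + 1) = v * K + B ∧ c5.reg (V + 3) = k ∧
        c5.pc = off + lE a + lE e + 1 + 1 + 1 + 1 ∧ c5.reg (V + 2) = u := by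
      rw [h5]
      refine ⟨?_, ?_, ?_, ?_⟩
      · simp only [Cfg.wr]; rw [if_neg (by omega), e4.1]
      · simp only [Cfg.wr, if_true]
      · simp only [Cfg.wr, e4.2.2.1]
      · simp only [Cfg.wr]; rw [if_neg (by omega), e4.2.2.2]
    have e6 : c6.reg (V + 1) = v * K + B + k ∧ c6.pc = off + lE a + lE e + 1 + 1 + 1 + 1 + 1 ∧
        c6.reg (V + 2) = u := by
      rw [h6]
      refine ⟨?_, ?_, ?_⟩
      · simp only [Cfg.wr, if_true]
      · simp only [Cfg.wr, e5.2.2.1]
      · simp only [Cfg.wr]; rw [if_neg (by omega), e5.2.2.2]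
    have s2 : step w P c1 = c2 := by
      have hs := step_of hpc1 hi1
      simp only [step, hs]
      rw [h2, hK']
    have s3 : step w P c2 = c3 := by
      have hs := step_of e2.2.2.2.1 hi2
      simp only [step, hs]
      rw [h3, e2.1, e2.2.1, hm1']
    have s4 : step w P c3 = c4 := by
      have hs := step_of e3.2.2.1 hi3
      simp only [step, hs]
      rw [h4, e3.1, e3.2.1, hm2']
    have s5 : step w P c4 = c5 := by
      have hs := step_of e4.2.2.1 hi4
      simp only [step, hs]
      rw [h5, hk']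
    have s6 : step w P c5 = c6 := by
      have hs := step_of e5.2.2.1 hi5
      simp only [step, hs]
      rw [h6, e5.1, e5.2.1, hm3']
    have s7 : step w P c6 = c7 := by
      have hs := step_of e6.2.1 hi6
      simp only [step, hs]
      rw [h7, e6.1, e6.2.2]
    have hmem : c6.mem = c1.mem := by
      rw [h6, h5, h4, h3, h2]
      simp only [Cfg.wr]
    have hout : c6.out = c1.out := by
      rw [h6, h5, h4, h3, h2]
      simp only [Cfg.wr]
    have hreg : ∀ i, i ≤ V → c6.reg i = c1.reg i := by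
      intro i hi
      rw [h6, h5, h4, h3, h2]
      simp only [Cfg.wr]
      rw [if_neg (by omega), if_neg (by omega), if_neg (by omega), if_neg (by omega),
        if_neg (by omega)]
    have hla := lE_le a
    have hle := lE_le e
    refine ⟨lE a + (lE e + (1 + (1 + (1 + (1 + (1 + 1)))))), c7, by omega, ?_, ?_, ?_⟩
    · exact hs0.trans (hs1.trans ((Steps.one s2).trans ((Steps.one s3).trans ((Steps.one s4).trans
        ((Steps.one s5).trans ((Steps.one s6).trans (Steps.one s7)))))))
    · rw [h7]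
      simp only [e6.2.1, lS]
      omega
    · rw [h7]
      refine ⟨fun j hj => ?_, ?_, fun k' hk' j => ?_, fun b hb => ?_, ?_⟩
      · simp only [reg_setArr]
        rw [hreg j hj.le]
        exact hrep1.reg j hj
      · simp only
        rw [hreg V le_rfl, hV1]
      · simp only [arr_setArr]
        have hiff : B + K * j + k' = v * K + B + k ↔ k' = k ∧ j = v := by
          constructor
          · intro h
            have h1 : K * j + k' = K * v + k := by
              have : v * K = K * v := mul_comm _ _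
              omega
            have h2 : (K * j + k') % K = (K * v + k) % K := by rw [h1]
            rw [Nat.mul_add_mod, Nat.mul_add_mod, Nat.mod_eq_of_lt hk', Nat.mod_eq_of_lt hkK] at h2
            have h3 : K * j = K * v := by omega
            exact ⟨h2, Nat.eq_of_mul_eq_mul_left (by omega) h3⟩
          · rintro ⟨rfl, rfl⟩
            ring
        by_cases hh : k' = k ∧ j = v
        · rw [if_pos (hiff.2 hh), if_pos hh]
        · rw [if_neg (fun h => hh (hiff.1 h)), if_neg hh, hmem]
          exact hrep1.arr k' hk' j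
      · simp only
        rw [if_neg (by omega), hmem]
        exact hrep1.inp b hb
      · simp only [out_setArr]
        rw [hout]
        exact hrep1.out
  | prt s q e h =>
    intro c off hwf hcode hpc hrep hbdd
    simp only [Stm.wf] at hwf
    rw [cS, codeAt_append, codeAt_cons, length_cE] at hcode
    obtain ⟨hca, hi1, -⟩ := hcode
    obtain ⟨c1, hs1, hp1, hv1, hr1, hm1, ho1⟩ :=
      cE_correct hB hinp0 hw e s c off (V + 1) hwf (by omega) hca hpc hrep hbdd h
    have hrep1 : Rep V K B inp s c1 := hrep.congr (fun i hi => hr1 i (by omega)) hm1 ho1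
    have hpc1 : c1.pc = off + lE e := by rw [hp1, hpc]
    have hs := step_of hpc1 hi1
    have hl := lE_le e
    refine ⟨lE e + 1, { c1 with pc := c1.pc + 1, out := c1.out ++ [c1.reg (V + 1)] }, by omega,
      hs1.trans (Steps.one ?_), ?_, ?_⟩
    · simp only [step, hs]
    · simp only [hpc1, lS]; omega
    · refine ⟨fun j hj => hrep1.reg j hj, hrep1.base, fun k hk j => hrep1.arr k hk j,
        fun a ha => hrep1.inp a ha, ?_⟩
      simp only [out_print]
      rw [hv1, hrep1.out]
  | seq p p' s s' s'' k k' h h' ih ih' =>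
    intro c off hwf hcode hpc hrep hbdd
    simp only [Stm.wf, Bool.and_eq_true] at hwf
    rw [cS, codeAt_append, length_cS] at hcode
    obtain ⟨T1, c1, hT1, hs1, hp1, hrep1⟩ := ih c off hwf.1 hcode.1 hpc hrep hbdd
    have hbdd1 : Bdd M s'.1 := Run.bdd M inp noPrim noPrim_bdd h hbdd
    obtain ⟨T2, c2, hT2, hs2, hp2, hrep2⟩ := ih' c1 (off + lS p) hwf.2 hcode.2 hp1 hrep1 hbdd1
    refine ⟨T1 + T2, c2, by omega, hs1.trans hs2, ?_, hrep2⟩
    rw [hp2, lS]; omega
  | ite_t co p p' s s' k hc ht h ih =>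
    intro c off hwf hcode hpc hrep hbdd
    simp only [Stm.wf, Bool.and_eq_true] at hwf
    rw [cS, codeAt_append, codeAt_append, codeAt_cons, length_cC, length_cS] at hcode
    obtain ⟨hcc, hcp, hij, hcq⟩ := hcode
    obtain ⟨T1, c1, hT1, hs1, hpt, -, hrep1⟩ :=
      cC_correct hB hinp0 hw co s.1 c off _ _ hwf.1.1 hcc hpc hrep hbdd hc
    obtain ⟨T2, c2, hT2, hs2, hp2, hrep2⟩ := ih c1 (off + lC co) hwf.1.2 hcp (hpt ht) hrep1 hbdd
    have hs := step_of hp2 hij
    refine ⟨T1 + (T2 + 1), { c2 with pc := off + lC co + lS p + 1 + lS p' }, by omega,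
      hs1.trans (hs2.trans (Steps.one ?_)), ?_, hrep2.congr (fun i _ => rfl) rfl rfl⟩
    · simp only [step, hs]
    · simp only [lS]; omega
  | ite_f co p p' s s' k hc ht h ih =>
    intro c off hwf hcode hpc hrep hbdd
    simp only [Stm.wf, Bool.and_eq_true] at hwf
    rw [cS, codeAt_append, codeAt_append, codeAt_cons, length_cC, length_cS] at hcode
    obtain ⟨hcc, hcp, hij, hcq⟩ := hcode
    obtain ⟨T1, c1, hT1, hs1, -, hpf, hrep1⟩ :=
      cC_correct hB hinp0 hw co s.1 c off _ _ hwf.1.1 hcc hpc hrep hbdd hc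
    obtain ⟨T2, c2, hT2, hs2, hp2, hrep2⟩ :=
      ih c1 (off + lC co + lS p + 1) hwf.2 hcq (hpf ht) hrep1 hbdd
    refine ⟨T1 + T2, c2, by omega, hs1.trans hs2, ?_, hrep2⟩
    rw [hp2]
    simp only [lS]; omega
  | whl_t co p s s' s'' k k' hc ht h h' ih ih' =>
    intro c off hwf hcode hpc hrep hbdd
    have hwf' := hwf
    have hcode' := hcode
    simp only [Stm.wf, Bool.and_eq_true] at hwf
    rw [cS, codeAt_append, codeAt_append, codeAt_cons, length_cC, length_cS] at hcode
    obtain ⟨hcc, hcp, hij, -⟩ := hcode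
    obtain ⟨T1, c1, hT1, hs1, hpt, -, hrep1⟩ :=
      cC_correct hB hinp0 hw co s.1 c off _ _ hwf.1 hcc hpc hrep hbdd hc
    obtain ⟨T2, c2, hT2, hs2, hp2, hrep2⟩ := ih c1 (off + lC co) hwf.2 hcp (hpt ht) hrep1 hbdd
    have hbdd2 : Bdd M s'.1 := Run.bdd M inp noPrim noPrim_bdd h hbdd
    have hs := step_of hp2 hij
    have e1 : step w P c2 = { c2 with pc := off } := by simp only [step, hs]
    obtain ⟨T3, c3, hT3, hs3, hp3, hrep3⟩ := ih' { c2 with pc := off } off hwf' hcode' rfl
      (hrep2.congr (fun i _ => rfl) rfl rfl) hbdd2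
    refine ⟨T1 + (T2 + (1 + T3)), c3, by omega,
      hs1.trans (hs2.trans ((Steps.one e1).trans hs3)), hp3, hrep3⟩
  | whl_f co p s hc ht =>
    intro c off hwf hcode hpc hrep hbdd
    simp only [Stm.wf, Bool.and_eq_true] at hwf
    rw [cS, codeAt_append, codeAt_append, codeAt_cons, length_cC, length_cS] at hcode
    obtain ⟨hcc, hcp, hij, -⟩ := hcode
    obtain ⟨T1, c1, hT1, hs1, -, hpf, hrep1⟩ :=
      cC_correct hB hinp0 hw co s.1 c off _ _ hwf.1 hcc hpc hrep hbdd hc
    refine ⟨T1, c1, by omega, hs1, ?_, hrep1⟩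
    rw [hpf ht]
    simp only [lS]; omega
  | prim o s s' k h => exact o.elim

end correct

end Comp

open _root_.SBR.Comp in
/-- Compilation of the structured language to the word RAM. -/
theorem compile_correct (V K : ℕ) (p : Stm Empty) (hp : p.wf (fun _ => true) V K = true) :
    ∃ (P : List Instr) (c₀ : ℕ), ∀ (M w : ℕ) (x : List ℕ), x.length + 1 < M → c₀ * M ≤ 2 ^ w →
      (∀ v ∈ x, v < M) → ∀ (s' : St) (k : ℕ),
      Run M (inpOf x) noPrim p (St.zero, ()) (s', ()) k →
      ∃ T, T ≤ c₀ * (k + 1) ∧ Halted P ((step w P)^[T] (initCfg x)) ∧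
        ((step w P)^[T] (initCfg x)).out = s'.out := by
  refine ⟨[.load V V, .const (V + 1) 1, .add V V (V + 1)] ++ cS V K p 3, K + 6, ?_⟩
  intro M w x hx hw _ s' k hrun
  set P : List Instr := [.load V V, .const (V + 1) 1, .add V V (V + 1)] ++ cS V K p 3 with hP
  have hM0 : 0 < M := by omega
  have hw' : (K + 1) * M ≤ 2 ^ w := le_trans (Nat.mul_le_mul_right _ (by omega)) hw
  have hM : M ≤ 2 ^ w := le_trans (by nlinarith) hw'
  have h1w : 1 % 2 ^ w = 1 := Nat.mod_eq_of_lt (by omega)
  have hBw : (x.length + 1) % 2 ^ w = x.length + 1 := Nat.mod_eq_of_lt (by omega)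
  obtain ⟨c1, h1⟩ : ∃ c1, c1 = (initCfg x).wr V x.length := ⟨_, rfl⟩
  obtain ⟨c2, h2⟩ : ∃ c2, c2 = c1.wr (V + 1) 1 := ⟨_, rfl⟩
  obtain ⟨c3, h3⟩ : ∃ c3, c3 = c2.wr V (x.length + 1) := ⟨_, rfl⟩
  have p1 : c1.pc = 1 := by rw [h1]; rfl
  have p2 : c2.pc = 2 := by rw [h2]; simp only [Cfg.wr, p1]
  have p3 : c3.pc = 3 := by rw [h3]; simp only [Cfg.wr, p2]
  have s1 : step w P (initCfg x) = c1 := by
    have hs : P[(initCfg x).pc]? = some (.load V V) := by
      have : (initCfg x).pc = 0 := rfl
      rw [this, hP]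
      rfl
    simp only [step, hs]
    rw [h1]
    rfl
  have s2 : step w P c1 = c2 := by
    have hs : P[c1.pc]? = some (.const (V + 1) 1) := by
      rw [p1, hP]
      rfl
    simp only [step, hs]
    rw [h2, h1w]
  have s3 : step w P c2 = c3 := by
    have hs : P[c2.pc]? = some (.add V V (V + 1)) := by
      rw [p2, hP]
      rfl
    have r1 : c2.reg V = x.length := by
      rw [h2, h1]
      simp only [Cfg.wr]
      rw [if_neg (by omega), if_true]
    have r2 : c2.reg (V + 1) = 1 := by
      rw [h2]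
      simp only [Cfg.wr, if_true]
    simp only [step, hs]
    rw [h3, r1, r2, hBw]
  have hmem : c3.mem = (initCfg x).mem := by
    rw [h3, h2, h1]
    simp only [Cfg.wr]
  have hrep : Rep V K (x.length + 1) (inpOf x) St.zero c3 := by
    refine ⟨fun i hi => ?_, ?_, fun k hk i => ?_, fun a ha => ?_, ?_⟩
    · rw [h3, h2, h1]
      simp only [Cfg.wr]
      rw [if_neg (by omega), if_neg (by omega), if_neg (by omega)]
      rfl
    · rw [h3]
      simp only [Cfg.wr, if_true]
    · rw [hmem]
      simp only [initCfg, St.zero]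
      rw [if_neg (by omega)]
      rw [List.getD_eq_default]
      omega
    · rw [hmem]
      rfl
    · rw [h3, h2, h1]
      rfl
  have hbdd : Bdd M St.zero := ⟨fun _ => hM0, fun _ _ => hM0⟩
  have hcode : CodeAt P 3 (cS V K p 3) := by
    intro i hi
    rw [hP, List.getElem?_append_right (by simp)]
    congr 1
    simp
  have hinp0 : inpOf x 0 < x.length + 1 := by
    have : inpOf x 0 = x.length := rfl
    omega
  obtain ⟨T, c', hT, hs, hp', hrep'⟩ :=
    cS_correct (P := P) (w := w) hx hinp0 hw' hrun c3 3 hp hcode p3 hrep hbdd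
  have hall : Steps w P (initCfg x) (1 + (1 + (1 + T))) c' :=
    (Steps.one s1).trans ((Steps.one s2).trans ((Steps.one s3).trans hs))
  unfold Steps at hall
  refine ⟨1 + (1 + (1 + T)), ?_, ?_, ?_⟩
  · have : 6 * (k + 1) ≤ (K + 6) * (k + 1) := Nat.mul_le_mul_right _ (by omega)
    omega
  · rw [hall]
    left
    rw [hp', List.getElem?_eq_none_iff, hP, List.length_append, length_cS]
    simp
  · rw [hall]
    exact hrep'.out

end SBR
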