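/-
SBR/Pivot.lean : pivots on symmetric matrices over GF(2); insertion of a pair of pivots.
-/
import Mathlib

namespace SBR

/-- pivot at `v` -/
def piv (A : ℕ → ℕ → ZMod 2) (v : ℕ) : ℕ → ℕ → ZMod 2 := fun a b => A a b + A a v * A v b

/-- pivot at the pair `x`, `y` -/
def piv2 (A : ℕ → ℕ → ZMod 2) (x y : ℕ) : ℕ → ℕ → ZMod 2 :=
  fun a b => A a b + (A a x * A y b + A a y * A x b)

/-- successive pivots -/
def pivs (A : ℕ → ℕ → ZMod 2) (l : List ℕ) : ℕ → ℕ → ZMod 2 := l.foldl piv A

/-- all pivots of the list are admissible: the diagonal entry is 1 -/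
def Valid (A : ℕ → ℕ → ZMod 2) : List ℕ → Prop
  | [] => True
  | v :: l => A v v = 1 ∧ Valid (piv A v) l

def Symm (A : ℕ → ℕ → ZMod 2) : Prop := ∀ a b, A a b = A b a

theorem Symm.piv {A : ℕ → ℕ → ZMod 2} (h : Symm A) (v : ℕ) : Symm (piv A v) := by
  intro a b
  simp only [SBR.piv]
  rw [h a b, h a v, h v b]; ring

theorem Symm.piv2 {A : ℕ → ℕ → ZMod 2} (h : Symm A) (x y : ℕ) : Symm (piv2 A x y) := by
  intro a b
  simp only [SBR.piv2]
  rw [h a b, h a x, h y b, h a y, h x b]; ring

@[simp] theorem pivs_nil (A : ℕ → ℕ → ZMod 2) : pivs A [] = A := rfl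
@[simp] theorem pivs_cons (A : ℕ → ℕ → ZMod 2) (v : ℕ) (l : List ℕ) :
    pivs A (v :: l) = pivs (piv A v) l := rfl
theorem pivs_append (A : ℕ → ℕ → ZMod 2) (l l' : List ℕ) :
    pivs A (l ++ l') = pivs (pivs A l) l' := by simp [pivs]

theorem Symm.pivs {A : ℕ → ℕ → ZMod 2} (h : Symm A) (l : List ℕ) : Symm (pivs A l) := by
  induction l generalizing A with
  | nil => exact h
  | cons v l ih => exact ih (h.piv v)

theorem valid_append (A : ℕ → ℕ → ZMod 2) (l l' : List ℕ) :
    Valid A (l ++ l') ↔ Valid A l ∧ Valid (pivs A l) l' := by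
  induction l generalizing A with
  | nil => simp [Valid]
  | cons v l ih => simp [Valid, ih, and_assoc]

theorem z2_sq (a : ZMod 2) : a * a = a := by revert a; decide
theorem z2_a (a b : ZMod 2) (h : a + b = 1) : a = 1 + b := by revert a b; decide
theorem z2_b (a b : ZMod 2) (h : a + b = 0) : a = b := by revert a b; decide

theorem piv_row_self {A : ℕ → ℕ → ZMod 2} {v : ℕ} (h : A v v = 1) (b : ℕ) : piv A v v b = 0 := by
  simp only [piv, h, one_mul]; exact CharTwo.add_self_eq_zero _

theorem piv_zero_row {A : ℕ → ℕ → ZMod 2} {v x : ℕ} (h : ∀ b, A x b = 0) (b : ℕ) :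
    piv A v x b = 0 := by
  simp only [piv, h]; ring

theorem pivs_zero_row {A : ℕ → ℕ → ZMod 2} {x : ℕ} (h : ∀ b, A x b = 0) (l : List ℕ) (b : ℕ) :
    pivs A l x b = 0 := by
  induction l generalizing A with
  | nil => exact h b
  | cons v l ih => exact ih (fun b => piv_zero_row h b)

/-- rows of used pivots are zero -/
theorem pivs_row_mem {A : ℕ → ℕ → ZMod 2} {l : List ℕ} (hv : Valid A l) {x : ℕ} (hx : x ∈ l)
    (b : ℕ) : pivs A l x b = 0 := by
  induction l generalizing A with
  | nil => simp at hx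
  | cons v l ih =>
    rcases List.mem_cons.1 hx with rfl | hx
    · exact pivs_zero_row (fun b => piv_row_self hv.1 b) l b
    · exact ih hv.2 hx

/-- a valid list has no repetitions -/
theorem Valid.nodup {A : ℕ → ℕ → ZMod 2} {l : List ℕ} (hv : Valid A l) : l.Nodup := by
  induction l generalizing A with
  | nil => exact List.nodup_nil
  | cons v l ih =>
    refine List.nodup_cons.2 ⟨fun hm => ?_, ih hv.2⟩
    obtain ⟨p, q, rfl⟩ := List.append_of_mem hm
    have h1 := ((valid_append _ _ _).1 hv.2).2.1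
    rw [pivs_zero_row (fun b => piv_row_self hv.1 b) p v] at h1
    exact absurd h1 (by decide)

section three

variable {M : ℕ → ℕ → ZMod 2} {g x y : ℕ}

/-- the three pivot identity -/
theorem piv3 (hs : Symm M) (hg : M g g = 1) (hx : piv M g x x = 0) (hy : piv M g y y = 0)
    (hxy : piv M g x y = 1) (hgx : M g x = 1) :
    M x x = 1 ∧ piv M x y y = 1 ∧ piv (piv M x) y g g = 1 ∧
      piv (piv (piv M x) y) g = piv2 (piv M g) x y := by
  simp only [piv] at hx hy hxy
  have e1 : M x g = 1 := by rw [hs x g]; exact hgx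
  have e2 : M y g = M g y := hs y g
  have e3 : M y x = M x y := hs y x
  have a1 : M x x = 1 := by
    rw [e1, hgx] at hx
    exact z2_b _ _ (by rw [← hx]; ring)
  have a2 : M x y = 1 + M g y := by
    rw [e1, one_mul] at hxy
    exact z2_a _ _ hxy
  have a3 : M y y = M g y := by
    rw [e2, z2_sq] at hy
    exact z2_b _ _ hy
  have b1 : piv M x y y = 1 := by
    simp only [piv]; rw [e3, a2, a3]
    generalize M g y = b; revert b; decide
  have b2 : piv (piv M x) y g g = 1 := by
    simp only [piv]; rw [e3, e2, e1, hgx, hg, a2]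
    generalize M g y = b; revert b; decide
  refine ⟨a1, b1, b2, ?_⟩
  funext a b
  have f1 : M x a = M a x := hs x a
  have f2 : M y a = M a y := hs y a
  have f3 : M g a = M a g := hs g a
  simp only [piv, piv2]
  rw [e3, e2, e1, hgx, a2]
  generalize M g y = c
  generalize M a b = p0
  generalize M a x = p1
  generalize M a y = p2
  generalize M a g = p3
  generalize M x b = p4
  generalize M y b = p5
  generalize M g b = p6
  revert c p0 p1 p2 p3 p4 p5 p6
  decide

/-- rows of the three pivots in terms of the old data `b = M g`, `N = piv M g` -/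
theorem piv3_rows (hs : Symm M) (hg : M g g = 1) (hx : piv M g x x = 0) (hy : piv M g y y = 0)
    (hxy : piv M g x y = 1) (hgx : M g x = 1) (t : ℕ) :
    M x t = piv M g x t + M g t ∧
    piv (piv M x) y g t = M g t + (M g x * piv M g y t + M g y * piv M g x t) ∧
    piv M x y t = piv (piv M x) y g t + piv M g x t := by
  obtain ⟨a1, b1, b2, -⟩ := piv3 hs hg hx hy hxy hgx
  simp only [piv] at hx hy hxy
  have e1 : M x g = 1 := by rw [hs x g]; exact hgx
  have e2 : M y g = M g y := hs y g
  have e3 : M y x = M x y := hs y x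
  have a2 : M x y = 1 + M g y := by
    rw [e1, one_mul] at hxy
    exact z2_a _ _ hxy
  have a3 : M y y = M g y := by
    rw [e2, z2_sq] at hy
    exact z2_b _ _ hy
  simp only [piv]
  rw [e3, e2, e1, hgx, a2]
  generalize M g y = c
  generalize M x t = p4
  generalize M y t = p5
  generalize M g t = p6
  revert c p4 p5 p6
  decide

end three

/-- pivots commute if the second has no entries at the first two -/
theorem piv_piv2_comm {N : ℕ → ℕ → ZMod 2} (hs : Symm N) {x y h : ℕ} (h1 : N h x = 0)
    (h2 : N h y = 0) : piv (piv2 N x y) h = piv2 (piv N h) x y := by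
  have h1' : N x h = 0 := by rw [hs]; exact h1
  have h2' : N y h = 0 := by rw [hs]; exact h2
  funext a b
  simp only [piv, piv2, h1, h2, h1', h2']
  ring

/-- the condition that the pivots of `post` have no entries at `x`, `y` -/
def Untouched (N : ℕ → ℕ → ZMod 2) (x y : ℕ) : List ℕ → Prop
  | [] => True
  | h :: l => N h x = 0 ∧ N h y = 0 ∧ Untouched (piv N h) x y l

theorem untouched_iff {N : ℕ → ℕ → ZMod 2} {x y : ℕ} {l : List ℕ} :
    Untouched N x y l ↔ ∀ p h q, l = p ++ h :: q → pivs N p h x = 0 ∧ pivs N p h y = 0 := by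
  induction l generalizing N with
  | nil => simp [Untouched]
  | cons v l ih =>
    simp only [Untouched, ih]
    constructor
    · rintro ⟨h1, h2, h3⟩ p h q he
      cases p with
      | nil => simp only [List.nil_append, List.cons.injEq] at he; rw [← he.1]; exact ⟨h1, h2⟩
      | cons a p =>
        simp only [List.cons_append, List.cons.injEq] at he
        rw [← he.1]; exact h3 p h q he.2
    · intro H
      exact ⟨(H [] v l rfl).1, (H [] v l rfl).2, fun p h q he => H (v :: p) h q (by simp [he])⟩

theorem pivs_untouched {N : ℕ → ℕ → ZMod 2} (hs : Symm N) {x y : ℕ} {l : List ℕ}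
    (h : Untouched N x y l) : (∀ b, pivs N l x b = N x b) ∧ (∀ b, pivs N l y b = N y b) := by
  induction l generalizing N with
  | nil => exact ⟨fun _ => rfl, fun _ => rfl⟩
  | cons v l ih =>
    obtain ⟨h1, h2, h3⟩ := h
    obtain ⟨i1, i2⟩ := ih (hs.piv v) h3
    have h1' : N x v = 0 := by rw [hs]; exact h1
    have h2' : N y v = 0 := by rw [hs]; exact h2
    constructor
    · intro b; rw [pivs_cons, i1]; simp only [piv, h1']; ring
    · intro b; rw [pivs_cons, i2]; simp only [piv, h2']; ring

theorem pivs_piv2_comm {N : ℕ → ℕ → ZMod 2} (hs : Symm N) {x y : ℕ} {l : List ℕ}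
    (h : Untouched N x y l) (hv : Valid N l) :
    Valid (piv2 N x y) l ∧ pivs (piv2 N x y) l = piv2 (pivs N l) x y ∧
      ∀ p h' q, l = p ++ h' :: q → ∀ t, pivs (piv2 N x y) p h' t = pivs N p h' t := by
  induction l generalizing N with
  | nil => exact ⟨trivial, rfl, fun p h' q he => by simp at he⟩
  | cons v l ih =>
    obtain ⟨h1, h2, h3⟩ := h
    obtain ⟨i1, i2, i3⟩ := ih (hs.piv v) h3 hv.2
    have hc := piv_piv2_comm hs h1 h2
    refine ⟨⟨?_, ?_⟩, ?_, ?_⟩
    · simp only [piv2, h1, h2]; rw [hv.1]; ring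
    · rw [hc]; exact i1
    · rw [pivs_cons, hc, i2, pivs_cons]
    · intro p h' q he t
      cases p with
      | nil =>
        simp only [List.nil_append, List.cons.injEq] at he
        rw [← he.1]
        simp only [pivs_nil, piv2, h1, h2]; ring
      | cons a p =>
        simp only [List.cons_append, List.cons.injEq] at he
        rw [← he.1]
        simp only [pivs_cons]
        rw [hc]; exact i3 p h' q he.2 t

/-- Insertion of a pair of pivots `x, y` in front of the pivot `g`. `F` is the final matrix. -/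
theorem insert_pair {A : ℕ → ℕ → ZMod 2} (hs : Symm A) {pre post : List ℕ} {g x y : ℕ}
    (hv : Valid A (pre ++ g :: post)) (hgx : pivs A pre g x = 1)
    (hpost : ∀ p h q, post = p ++ h :: q →
      pivs A (pre ++ g :: p) h x = 0 ∧ pivs A (pre ++ g :: p) h y = 0)
    (hx : pivs A (pre ++ g :: post) x x = 0) (hy : pivs A (pre ++ g :: post) y y = 0)
    (hxy : pivs A (pre ++ g :: post) x y = 1) :
    Valid A (pre ++ x :: y :: g :: post) ∧
    pivs A (pre ++ x :: y :: g :: post) = piv2 (pivs A (pre ++ g :: post)) x y ∧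
    (∀ t, pivs A pre x t = pivs A (pre ++ g :: post) x t + pivs A pre g t) ∧
    (∀ t, pivs A (pre ++ [x, y]) g t = pivs A pre g t +
      (pivs A (pre ++ g :: post) y t + pivs A pre g y * pivs A (pre ++ g :: post) x t)) ∧
    (∀ t, pivs A (pre ++ [x]) y t = pivs A (pre ++ [x, y]) g t +
      pivs A (pre ++ g :: post) x t) ∧
    (∀ p h q, post = p ++ h :: q → ∀ t,
      pivs A (pre ++ x :: y :: g :: p) h t = pivs A (pre ++ g :: p) h t) := by
  set M := pivs A pre with hM
  have hsM : Symm M := hs.pivs pre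
  rw [valid_append] at hv
  obtain ⟨hv1, hg, hv2⟩ := hv
  have hF : pivs A (pre ++ g :: post) = pivs (piv M g) post := by
    rw [pivs_append, pivs_cons]
  rw [hF] at hx hy hxy ⊢
  have hU : Untouched (piv M g) x y post := by
    rw [untouched_iff]
    intro p h q he
    have := hpost p h q he
    rw [pivs_append, pivs_cons] at this
    exact this
  obtain ⟨rx, ry⟩ := pivs_untouched (hsM.piv g) hU
  rw [rx] at hx hxy
  rw [ry] at hy
  obtain ⟨a1, b1, b2, hc⟩ := piv3 hsM hg hx hy hxy hgx
  obtain ⟨c1, c2, c3⟩ := pivs_piv2_comm (hsM.piv g) hU hv2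
  have hrows := piv3_rows hsM hg hx hy hxy hgx
  refine ⟨?_, ?_, ?_, ?_, ?_, ?_⟩
  · rw [valid_append]
    refine ⟨hv1, a1, b1, b2, ?_⟩
    rw [hc]; exact c1
  · rw [pivs_append, pivs_cons, pivs_cons, pivs_cons, hc, c2]
  · intro t; rw [rx]; exact (hrows t).1
  · intro t
    rw [pivs_append, pivs_cons, pivs_cons, pivs_nil, rx, ry]
    have := (hrows t).2.1
    rw [hgx, one_mul] at this
    exact this
  · intro t
    rw [pivs_append, pivs_append, pivs_cons, pivs_cons, pivs_cons, pivs_nil, rx]
    exact (hrows t).2.2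
  · intro p h q he t
    rw [pivs_append, pivs_append, pivs_cons, pivs_cons, pivs_cons, hc, pivs_cons]
    exact c3 p h q he t

end SBR
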