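/-
SBR/Layout.lean : layouts of nodes on a line, interleaving over GF(2), effect of reversals,
rotations and block swaps.
-/
import Mathlib

namespace SBR

/-- a layout: position and sign of every node (only nodes `< L` matter, for some `L`) -/
structure Lay where
  pos : ℕ → ℕ
  sg : ℕ → Bool

/-- nodes `0,…,L-1` occupy the positions `0,…,L-1` -/
structure Lay.Good (w : Lay) (L : ℕ) : Prop where
  lt : ∀ x, x < L → w.pos x < L
  inj : ∀ x y, x < L → y < L → w.pos x = w.pos y → x = y

/-- `1` if `x` is left of `y` -/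
def Lay.l (w : Lay) (x y : ℕ) : ZMod 2 := if w.pos x < w.pos y then 1 else 0

/-- do the pairs `{a,b}` and `{c,d}` interleave -/
def Lay.cr (w : Lay) (a b c d : ℕ) : ZMod 2 := w.l a c + w.l a d + w.l b c + w.l b d

/-- sign as an element of GF(2) -/
def bz (b : Bool) : ZMod 2 := if b then 0 else 1

/-- overlap matrix: chord `t` has the nodes `2t` and `2t+1`; diagonal entry `1` iff the signs of the
two nodes differ -/
def Lay.mat (w : Lay) (t u : ℕ) : ZMod 2 :=
  if t = u then bz (w.sg (2 * t)) + bz (w.sg (2 * t + 1))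
  else w.cr (2 * t) (2 * t + 1) (2 * u) (2 * u + 1)

/-- vector of the virtual chord with ends `a`, `b` -/
def Lay.vec (w : Lay) (a b t : ℕ) : ZMod 2 := w.cr a b (2 * t) (2 * t + 1)

/-- vector of the virtual chord from the left end of the line to node `c` -/
def Lay.rvc (w : Lay) (c t : ℕ) : ZMod 2 := w.l c (2 * t) + w.l c (2 * t + 1)

/-- `x` lies strictly between `a` and `b` -/
def Lay.Btw (w : Lay) (a b x : ℕ) : Prop :=
  (w.pos a < w.pos x ∧ w.pos x < w.pos b) ∨ (w.pos b < w.pos x ∧ w.pos x < w.pos a)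

instance (w : Lay) (a b x : ℕ) : Decidable (w.Btw a b x) := by unfold Lay.Btw; infer_instance

/-- indicator of `Btw` -/
def Lay.bi (w : Lay) (a b x : ℕ) : ZMod 2 := if w.Btw a b x then 1 else 0

/-- reverse what is strictly between `a` and `b` -/
def Lay.rev (w : Lay) (a b : ℕ) : Lay where
  pos x := if w.Btw a b x then w.pos a + w.pos b - w.pos x else w.pos x
  sg x := if w.Btw a b x then !w.sg x else w.sg x

/-- rotate so that node `j` is first -/
def Lay.rot (w : Lay) (L j : ℕ) : Lay where
  pos x := if w.pos j ≤ w.pos x then w.pos x - w.pos j else w.pos x + L - w.pos j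
  sg := w.sg

/-- for nodes in the order `z1 < z2 < z3 < z4`: exchange the block between `z1` and `z2` with the
block between `z3` and `z4` (as four reversals; afterwards the order is `z1 < z3 < z2 < z4`) -/
def Lay.swp (w : Lay) (z1 z2 z3 z4 : ℕ) : Lay :=
  (((w.rev z1 z4).rev z1 z3).rev z3 z2).rev z2 z4

theorem two0 : (2 : ZMod 2) = 0 := rfl

theorem four0 : (4 : ZMod 2) = 0 := rfl

theorem zmod2_two_mul (a : ZMod 2) : a + a = 0 := CharTwo.add_self_eq_zero a

namespace Lay

variable {w : Lay} {L : ℕ}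

theorem Good.rev (h : w.Good L) {a b : ℕ} (ha : a < L) (hb : b < L) : (w.rev a b).Good L := by
  have h1 := h.lt a ha
  have h2 := h.lt b hb
  constructor
  · intro x hx
    have h3 := h.lt x hx
    simp only [Lay.rev, Lay.Btw]
    split_ifs <;> omega
  · intro x y hx hy hxy
    apply h.inj x y hx hy
    simp only [Lay.rev, Lay.Btw] at hxy
    split_ifs at hxy <;> omega

theorem l_flip (h : w.Good L) {x y : ℕ} (hx : x < L) (hy : y < L) (hxy : x ≠ y) :
    w.l y x = 1 + w.l x y := by
  have h1 : w.pos x ≠ w.pos y := fun h' => hxy (h.inj x y hx hy h')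
  simp only [Lay.l]
  split_ifs
  · omega
  · simp
  · decide
  · omega

theorem cr_comm (h : w.Good L) {a b c d : ℕ} (ha : a < L) (hb : b < L) (hc : c < L) (hd : d < L)
    (h1 : a ≠ c) (h2 : a ≠ d) (h3 : b ≠ c) (h4 : b ≠ d) : w.cr c d a b = w.cr a b c d := by
  simp only [Lay.cr]
  rw [l_flip h ha hc h1, l_flip h hb hc h3, l_flip h ha hd h2, l_flip h hb hd h4]
  linear_combination four0

theorem mat_comm (h : w.Good L) {t u : ℕ} (ht : 2 * t + 1 < L) (hu : 2 * u + 1 < L) :
    w.mat u t = w.mat t u := by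
  by_cases htu : t = u
  · subst htu; rfl
  · simp only [Lay.mat, if_neg htu, if_neg (Ne.symm htu)]
    exact cr_comm h (by omega) (by omega) (by omega) (by omega) (by omega) (by omega) (by omega)
      (by omega)

theorem l_rev (h : w.Good L) {a b x y : ℕ} (ha : a < L) (hb : b < L) (hx : x < L) (hy : y < L)
    (hxy : x ≠ y) : (w.rev a b).l x y = w.l x y + w.bi a b x * w.bi a b y := by
  have h1 : w.pos x ≠ w.pos y := fun h' => hxy (h.inj x y hx hy h')
  by_cases hx' : w.Btw a b x <;> by_cases hy' : w.Btw a b y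
  · simp only [Lay.l, Lay.bi, Lay.rev, if_pos hx', if_pos hy']
    simp only [Lay.Btw] at hx' hy'
    split_ifs
    · omega
    · decide
    · decide
    · omega
  all_goals
    simp only [Lay.l, Lay.bi, Lay.rev, if_pos, if_neg, hx', hy', not_false_eq_true]
    simp only [Lay.Btw] at hx' hy'
    split_ifs
    all_goals first | omega | simp

theorem bz_not (b : Bool) : bz (!b) = bz b + 1 := by cases b <;> decide

theorem sg_rev (a b x : ℕ) : bz ((w.rev a b).sg x) = bz (w.sg x) + w.bi a b x := by
  simp only [Lay.rev, Lay.bi]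
  split_ifs
  · rw [bz_not]
  · simp

/-- number of ends of chord `t` (mod 2) strictly between `a` and `b` -/
def bc (w : Lay) (a b t : ℕ) : ZMod 2 := w.bi a b (2 * t) + w.bi a b (2 * t + 1)

theorem bi_sq (a b x : ℕ) : w.bi a b x * w.bi a b x = w.bi a b x := by
  simp only [Lay.bi]; split_ifs <;> simp

theorem cr_rev (h : w.Good L) {a b x y z t : ℕ} (ha : a < L) (hb : b < L) (hx : x < L) (hy : y < L)
    (hz : z < L) (ht : t < L) (h1 : x ≠ z) (h2 : x ≠ t) (h3 : y ≠ z) (h4 : y ≠ t) :
    (w.rev a b).cr x y z t = w.cr x y z t +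
      (w.bi a b x + w.bi a b y) * (w.bi a b z + w.bi a b t) := by
  simp only [Lay.cr]
  rw [l_rev h ha hb hx hz h1, l_rev h ha hb hx ht h2, l_rev h ha hb hy hz h3,
    l_rev h ha hb hy ht h4]
  ring

/-- effect of a reversal on the overlap matrix -/
theorem mat_rev (h : w.Good L) {a b t u : ℕ} (ha : a < L) (hb : b < L) (ht : 2 * t + 1 < L)
    (hu : 2 * u + 1 < L) :
    (w.rev a b).mat t u = w.mat t u + w.bc a b t * w.bc a b u := by
  by_cases htu : t = u
  · subst htu
    simp only [Lay.mat, if_true, sg_rev, bc]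
    have h1 := bi_sq (w := w) a b (2 * t)
    have h2 := bi_sq (w := w) a b (2 * t + 1)
    linear_combination (-1 : ZMod 2) * h1 - h2 -
      (w.bi a b (2 * t) * w.bi a b (2 * t + 1)) * two0
  · simp only [Lay.mat, if_neg htu]
    rw [cr_rev h ha hb (by omega) (by omega) (by omega) (by omega) (by omega) (by omega)
      (by omega) (by omega)]
    rfl

/-- effect of a reversal on a virtual chord -/
theorem vec_rev (h : w.Good L) {a b c d t : ℕ} (ha : a < L) (hb : b < L) (hc : c < L) (hd : d < L)
    (ht : 2 * t + 1 < L) (h1 : c ≠ 2 * t) (h2 : c ≠ 2 * t + 1) (h3 : d ≠ 2 * t)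
    (h4 : d ≠ 2 * t + 1) :
    (w.rev a b).vec c d t = w.vec c d t + (w.bi a b c + w.bi a b d) * w.bc a b t := by
  simp only [Lay.vec]
  rw [cr_rev h ha hb hc hd (by omega) (by omega) h1 h2 h3 h4]
  rfl

/-- `Btw` in terms of the order relation -/
theorem bi_eq (h : w.Good L) {a b x : ℕ} (ha : a < L) (hb : b < L) (hx : x < L) (h1 : x ≠ a)
    (h2 : x ≠ b) : w.bi a b x = w.l a x + w.l b x := by
  have e1 : w.pos x ≠ w.pos a := fun h' => h1 (h.inj x a hx ha h')
  have e2 : w.pos x ≠ w.pos b := fun h' => h2 (h.inj x b hx hb h')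
  simp only [Lay.bi, Lay.l, Lay.Btw]
  split_ifs
  all_goals first | omega | rfl | simp | decide

theorem bi_self_left (a b : ℕ) : w.bi a b a = 0 := by
  simp only [Lay.bi, Lay.Btw]; rw [if_neg]; omega

theorem bi_self_right (a b : ℕ) : w.bi a b b = 0 := by
  simp only [Lay.bi, Lay.Btw]; rw [if_neg]; omega

theorem bi_comm (a b x : ℕ) : w.bi a b x = w.bi b a x := by
  simp only [Lay.bi, Lay.Btw]
  congr 1
  apply propext; constructor <;> rintro (h | h) <;> [right; left; right; left] <;> exact h

/-- between the two ends of chord `v` -/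
theorem bc_chord (h : w.Good L) {v t : ℕ} (hv : 2 * v + 1 < L) (ht : 2 * t + 1 < L) (hvt : t ≠ v) :
    w.bc (2 * v) (2 * v + 1) t = w.mat v t := by
  simp only [bc, Lay.mat, if_neg (Ne.symm hvt), Lay.cr]
  rw [bi_eq h (by omega) (by omega) (by omega) (by omega) (by omega),
    bi_eq h (by omega) (by omega) (by omega) (by omega) (by omega)]
  ring

/-- the reversal between the two ends of chord `v` is a pivot, away from `v` -/
theorem mat_rev_chord (h : w.Good L) {v t u : ℕ} (hv : 2 * v + 1 < L) (ht : 2 * t + 1 < L)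
    (hu : 2 * u + 1 < L) (h1 : t ≠ v) (h2 : u ≠ v) :
    (w.rev (2 * v) (2 * v + 1)).mat t u = w.mat t u + w.mat t v * w.mat v u := by
  rw [mat_rev h (by omega) hv ht hu, bc_chord h hv ht h1, bc_chord h hv hu h2, mat_comm h ht hv]

/-! ### rotations -/

theorem Good.rot (h : w.Good L) {j : ℕ} (hj : j < L) : (w.rot L j).Good L := by
  have h1 := h.lt j hj
  constructor
  · intro x hx
    have h3 := h.lt x hx
    simp only [Lay.rot]
    split_ifs <;> omega
  · intro x y hx hy hxy
    have h3 := h.lt x hx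
    have h4 := h.lt y hy
    apply h.inj x y hx hy
    simp only [Lay.rot] at hxy
    split_ifs at hxy <;> omega

theorem rot_pos_self (j : ℕ) : (w.rot L j).pos j = 0 := by
  simp [Lay.rot]

/-- indicator of `pos x < pos j` -/
def lj (w : Lay) (j x : ℕ) : ZMod 2 := if w.pos x < w.pos j then 1 else 0

theorem l_rot (h : w.Good L) {j x y : ℕ} (hj : j < L) (hx : x < L) (hy : y < L) :
    (w.rot L j).l x y = w.l x y + w.lj j x * (1 + w.lj j y) + (1 + w.lj j x) * w.lj j y := by
  have h1 := h.lt j hj
  have h3 := h.lt x hx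
  have h4 := h.lt y hy
  simp only [Lay.l, Lay.rot, lj]
  split_ifs
  all_goals first | omega | decide

theorem cr_rot (h : w.Good L) {j a b c d : ℕ} (hj : j < L) (ha : a < L) (hb : b < L) (hc : c < L)
    (hd : d < L) : (w.rot L j).cr a b c d = w.cr a b c d := by
  simp only [Lay.cr]
  rw [l_rot h hj ha hc, l_rot h hj ha hd, l_rot h hj hb hc, l_rot h hj hb hd]
  linear_combination (w.lj j a + w.lj j b + w.lj j c + w.lj j d + w.lj j a * w.lj j c +
    w.lj j a * w.lj j d + w.lj j b * w.lj j c + w.lj j b * w.lj j d) * two0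

theorem mat_rot (h : w.Good L) {j t u : ℕ} (hj : j < L) (ht : 2 * t + 1 < L) (hu : 2 * u + 1 < L) :
    (w.rot L j).mat t u = w.mat t u := by
  simp only [Lay.mat]
  split_ifs
  · rfl
  · exact cr_rot h hj (by omega) (by omega) (by omega) (by omega)

theorem vec_rot (h : w.Good L) {j a b t : ℕ} (hj : j < L) (ha : a < L) (hb : b < L)
    (ht : 2 * t + 1 < L) : (w.rot L j).vec a b t = w.vec a b t :=
  cr_rot h hj ha hb (by omega) (by omega)

/-- with node `j` at position `0`, virtual chords from `j` are given by `rvc` -/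
theorem vec_root (h : w.Good L) {j c t : ℕ} (hj : j < L) (hj0 : w.pos j = 0) (hc : c < L)
    (ht : 2 * t + 1 < L) (h1 : j ≠ 2 * t) (h2 : j ≠ 2 * t + 1) : w.vec j c t = w.rvc c t := by
  have e1 : w.pos (2 * t) ≠ 0 := fun h' => h1 (h.inj j _ hj (by omega) (by omega))
  have e2 : w.pos (2 * t + 1) ≠ 0 := fun h' => h2 (h.inj j _ hj (by omega) (by omega))
  simp only [Lay.vec, Lay.rvc, Lay.cr, Lay.l, hj0]
  rw [if_pos (by omega), if_pos (by omega)]
  linear_combination two0

theorem vec_eq_rvc (a b t : ℕ) : w.vec a b t = w.rvc a t + w.rvc b t := by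
  simp only [Lay.vec, Lay.rvc, Lay.cr]; ring

end Lay
end SBR
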