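/-
SBR/Swap.lean : effect of a block swap on positions, signs, overlap matrix and virtual chords.
-/
import Pool.Agent.SBR.Layout

namespace SBR
namespace Lay

variable {w : Lay} {L : ℕ}

theorem pos_rev (a b x : ℕ) : (w.rev a b).pos x =
    if w.Btw a b x then w.pos a + w.pos b - w.pos x else w.pos x := rfl

theorem rev_pos_left (a b : ℕ) : (w.rev a b).pos a = w.pos a := by
  rw [pos_rev, if_neg]; simp only [Lay.Btw]; omega

theorem rev_pos_right (a b : ℕ) : (w.rev a b).pos b = w.pos b := by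
  rw [pos_rev, if_neg]; simp only [Lay.Btw]; omega

/-- positions after a block swap -/
theorem swp_pos {z1 z2 z3 z4 : ℕ} (h12 : w.pos z1 < w.pos z2) (h23 : w.pos z2 < w.pos z3)
    (h34 : w.pos z3 < w.pos z4) (x : ℕ) :
    (w.swp z1 z2 z3 z4).pos x =
      if w.pos x ≤ w.pos z1 ∨ w.pos z4 ≤ w.pos x then w.pos x
      else if w.pos x < w.pos z2 then w.pos z4 - w.pos z2 + w.pos x
      else if w.pos x = w.pos z2 then w.pos z1 + w.pos z4 - w.pos z2
      else if w.pos x < w.pos z3 then w.pos z1 + w.pos z4 - w.pos z3 + (w.pos x - w.pos z2)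
      else if w.pos x = w.pos z3 then w.pos z1 + w.pos z4 - w.pos z3
      else w.pos z1 + (w.pos x - w.pos z3) := by
  have e1 : ∀ y, (w.rev z1 z4).pos y = if w.pos z1 < w.pos y ∧ w.pos y < w.pos z4 then
      w.pos z1 + w.pos z4 - w.pos y else w.pos y := by
    intro y; rw [pos_rev]; simp only [Lay.Btw]
    split_ifs <;> omega
  have a1 : (w.rev z1 z4).pos z1 = w.pos z1 := by rw [e1]; split_ifs <;> omega
  have a2 : (w.rev z1 z4).pos z2 = w.pos z1 + w.pos z4 - w.pos z2 := by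
    rw [e1]; split_ifs <;> omega
  have a3 : (w.rev z1 z4).pos z3 = w.pos z1 + w.pos z4 - w.pos z3 := by
    rw [e1]; split_ifs <;> omega
  have a4 : (w.rev z1 z4).pos z4 = w.pos z4 := by rw [e1]; split_ifs <;> omega
  generalize hw1 : w.rev z1 z4 = w1 at e1 a1 a2 a3 a4
  have e2 : ∀ y, (w1.rev z1 z3).pos y = if w1.pos z1 < w1.pos y ∧ w1.pos y < w1.pos z3 then
      w1.pos z1 + w1.pos z3 - w1.pos y else w1.pos y := by
    intro y; rw [pos_rev]; simp only [Lay.Btw]
    split_ifs <;> omega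
  have b1 : (w1.rev z1 z3).pos z1 = w.pos z1 := by rw [e2]; split_ifs <;> omega
  have b2 : (w1.rev z1 z3).pos z2 = w.pos z1 + w.pos z4 - w.pos z2 := by
    rw [e2]; split_ifs <;> omega
  have b3 : (w1.rev z1 z3).pos z3 = w.pos z1 + w.pos z4 - w.pos z3 := by
    rw [e2]; split_ifs <;> omega
  have b4 : (w1.rev z1 z3).pos z4 = w.pos z4 := by rw [e2]; split_ifs <;> omega
  generalize hw2 : w1.rev z1 z3 = w2 at e2 b1 b2 b3 b4
  have e3 : ∀ y, (w2.rev z3 z2).pos y = if w2.pos z3 < w2.pos y ∧ w2.pos y < w2.pos z2 then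
      w2.pos z3 + w2.pos z2 - w2.pos y else w2.pos y := by
    intro y; rw [pos_rev]; simp only [Lay.Btw]
    split_ifs <;> omega
  have c2 : (w2.rev z3 z2).pos z2 = w.pos z1 + w.pos z4 - w.pos z2 := by
    rw [e3]; split_ifs <;> omega
  have c4 : (w2.rev z3 z2).pos z4 = w.pos z4 := by rw [e3]; split_ifs <;> omega
  generalize hw3 : w2.rev z3 z2 = w3 at e3 c2 c4
  have e4 : ∀ y, (w3.rev z2 z4).pos y = if w3.pos z2 < w3.pos y ∧ w3.pos y < w3.pos z4 then
      w3.pos z2 + w3.pos z4 - w3.pos y else w3.pos y := by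
    intro y; rw [pos_rev]; simp only [Lay.Btw]
    split_ifs <;> omega
  have : (w.swp z1 z2 z3 z4).pos x = (w3.rev z2 z4).pos x := by
    simp only [Lay.swp, hw1, hw2, hw3]
  rw [this, e4 x, c2, c4, e3 x, b2, b3, e2 x, a1, a3, e1 x]
  split_ifs <;> omega

/-- signs after a block swap: only `z2`, `z3` change -/
theorem swp_sg {z1 z2 z3 z4 : ℕ} (h12 : w.pos z1 < w.pos z2) (h23 : w.pos z2 < w.pos z3)
    (h34 : w.pos z3 < w.pos z4) (x : ℕ) (h2 : w.pos x ≠ w.pos z2) (h3 : w.pos x ≠ w.pos z3) :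
    (w.swp z1 z2 z3 z4).sg x = w.sg x := by
  have e1 : ∀ y, (w.rev z1 z4).pos y = if w.pos z1 < w.pos y ∧ w.pos y < w.pos z4 then
      w.pos z1 + w.pos z4 - w.pos y else w.pos y := by
    intro y; rw [pos_rev]; simp only [Lay.Btw]
    split_ifs <;> omega
  have s1 : ∀ y, (w.rev z1 z4).sg y = if w.pos z1 < w.pos y ∧ w.pos y < w.pos z4 then
      !w.sg y else w.sg y := by
    intro y; simp only [Lay.rev, Lay.Btw]
    split_ifs
    all_goals first | omega | rfl
  have a1 : (w.rev z1 z4).pos z1 = w.pos z1 := by rw [e1]; split_ifs <;> omega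
  have a2 : (w.rev z1 z4).pos z2 = w.pos z1 + w.pos z4 - w.pos z2 := by
    rw [e1]; split_ifs <;> omega
  have a3 : (w.rev z1 z4).pos z3 = w.pos z1 + w.pos z4 - w.pos z3 := by
    rw [e1]; split_ifs <;> omega
  have a4 : (w.rev z1 z4).pos z4 = w.pos z4 := by rw [e1]; split_ifs <;> omega
  generalize hw1 : w.rev z1 z4 = w1 at e1 s1 a1 a2 a3 a4
  have e2 : ∀ y, (w1.rev z1 z3).pos y = if w1.pos z1 < w1.pos y ∧ w1.pos y < w1.pos z3 then
      w1.pos z1 + w1.pos z3 - w1.pos y else w1.pos y := by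
    intro y; rw [pos_rev]; simp only [Lay.Btw]
    split_ifs <;> omega
  have s2 : ∀ y, (w1.rev z1 z3).sg y = if w1.pos z1 < w1.pos y ∧ w1.pos y < w1.pos z3 then
      !w1.sg y else w1.sg y := by
    intro y; simp only [Lay.rev, Lay.Btw]
    split_ifs
    all_goals first | omega | rfl
  have b2 : (w1.rev z1 z3).pos z2 = w.pos z1 + w.pos z4 - w.pos z2 := by
    rw [e2]; split_ifs <;> omega
  have b3 : (w1.rev z1 z3).pos z3 = w.pos z1 + w.pos z4 - w.pos z3 := by
    rw [e2]; split_ifs <;> omega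
  have b4 : (w1.rev z1 z3).pos z4 = w.pos z4 := by rw [e2]; split_ifs <;> omega
  generalize hw2 : w1.rev z1 z3 = w2 at e2 s2 b2 b3 b4
  have e3 : ∀ y, (w2.rev z3 z2).pos y = if w2.pos z3 < w2.pos y ∧ w2.pos y < w2.pos z2 then
      w2.pos z3 + w2.pos z2 - w2.pos y else w2.pos y := by
    intro y; rw [pos_rev]; simp only [Lay.Btw]
    split_ifs <;> omega
  have s3 : ∀ y, (w2.rev z3 z2).sg y = if w2.pos z3 < w2.pos y ∧ w2.pos y < w2.pos z2 then
      !w2.sg y else w2.sg y := by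
    intro y; simp only [Lay.rev, Lay.Btw]
    split_ifs
    all_goals first | omega | rfl
  have c2 : (w2.rev z3 z2).pos z2 = w.pos z1 + w.pos z4 - w.pos z2 := by
    rw [e3]; split_ifs <;> omega
  have c4 : (w2.rev z3 z2).pos z4 = w.pos z4 := by rw [e3]; split_ifs <;> omega
  generalize hw3 : w2.rev z3 z2 = w3 at e3 s3 c2 c4
  have s4 : ∀ y, (w3.rev z2 z4).sg y = if w3.pos z2 < w3.pos y ∧ w3.pos y < w3.pos z4 then
      !w3.sg y else w3.sg y := by
    intro y; simp only [Lay.rev, Lay.Btw]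
    split_ifs
    all_goals first | omega | rfl
  have : (w.swp z1 z2 z3 z4).sg x = (w3.rev z2 z4).sg x := by
    simp only [Lay.swp, hw1, hw2, hw3]
  rw [this, s4 x, s3 x, s2 x, s1 x, c2, c4, e3 x, b2, b3, e2 x, a1, a3, e1 x]
  split_ifs
  all_goals first | omega | simp

theorem Good.swp (h : w.Good L) {z1 z2 z3 z4 : ℕ} (h1 : z1 < L) (h2 : z2 < L) (h3 : z3 < L)
    (h4 : z4 < L) : (w.swp z1 z2 z3 z4).Good L :=
  (((h.rev h1 h4).rev h1 h3).rev h3 h2).rev h2 h4

/-- in which of the three blocks is `x` (`0`: outside, or one of the `z`s) -/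
def blkNo (w : Lay) (z1 z2 z3 z4 x : ℕ) : ℕ :=
  if w.Btw z1 z2 x then 1 else if w.Btw z2 z3 x then 2 else if w.Btw z3 z4 x then 3 else 0

/-- the order of two nodes changes iff they are in different blocks -/
theorem l_swp (h : w.Good L) {z1 z2 z3 z4 x y : ℕ} (h12 : w.pos z1 < w.pos z2)
    (h23 : w.pos z2 < w.pos z3) (h34 : w.pos z3 < w.pos z4) (h1 : z1 < L) (h2 : z2 < L)
    (h3 : z3 < L) (h4 : z4 < L) (hx : x < L) (hy : y < L) (hxy : x ≠ y)
    (hx2 : x ≠ z2) (hx3 : x ≠ z3) (hy2 : y ≠ z2) (hy3 : y ≠ z3) :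
    (w.swp z1 z2 z3 z4).l x y = w.l x y +
      (if w.blkNo z1 z2 z3 z4 x ≠ w.blkNo z1 z2 z3 z4 y ∧ w.blkNo z1 z2 z3 z4 x ≠ 0 ∧
        w.blkNo z1 z2 z3 z4 y ≠ 0 then 1 else 0) := by
  have n1 : w.pos x ≠ w.pos y := fun h' => hxy (h.inj x y hx hy h')
  have n2 : w.pos x ≠ w.pos z2 := fun h' => hx2 (h.inj x z2 hx h2 h')
  have n3 : w.pos x ≠ w.pos z3 := fun h' => hx3 (h.inj x z3 hx h3 h')
  have n4 : w.pos y ≠ w.pos z2 := fun h' => hy2 (h.inj y z2 hy h2 h')
  have n5 : w.pos y ≠ w.pos z3 := fun h' => hy3 (h.inj y z3 hy h3 h')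
  have bx : w.blkNo z1 z2 z3 z4 x = if w.pos x ≤ w.pos z1 ∨ w.pos z4 ≤ w.pos x then 0
      else if w.pos x < w.pos z2 then 1 else if w.pos x < w.pos z3 then 2 else 3 := by
    simp only [blkNo, Lay.Btw]
    split_ifs <;> omega
  have bY : w.blkNo z1 z2 z3 z4 y = if w.pos y ≤ w.pos z1 ∨ w.pos z4 ≤ w.pos y then 0
      else if w.pos y < w.pos z2 then 1 else if w.pos y < w.pos z3 then 2 else 3 := by
    simp only [blkNo, Lay.Btw]
    split_ifs <;> omega
  have px := swp_pos h12 h23 h34 x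
  have py := swp_pos h12 h23 h34 y
  simp only [Lay.l]
  generalize w.blkNo z1 z2 z3 z4 x = kx at *
  generalize w.blkNo z1 z2 z3 z4 y = ky at *
  generalize (w.swp z1 z2 z3 z4).pos x = px' at *
  generalize (w.swp z1 z2 z3 z4).pos y = py' at *
  by_cases hc : w.pos x < w.pos y
  · rw [if_pos hc]
    by_cases hd : kx ≠ ky ∧ kx ≠ 0 ∧ ky ≠ 0
    · rw [if_pos hd, if_neg]
      · decide
      · split_ifs at bx bY px py <;> omega
    · rw [if_neg hd, if_pos]
      · decide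
      · split_ifs at bx bY px py <;> omega
  · rw [if_neg hc]
    by_cases hd : kx ≠ ky ∧ kx ≠ 0 ∧ ky ≠ 0
    · rw [if_pos hd, if_pos]
      · decide
      · split_ifs at bx bY px py <;> omega
    · rw [if_neg hd, if_neg]
      · decide
      · split_ifs at bx bY px py <;> omega

end Lay
end SBR
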