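/-
SBR/Swap2.lean : effect of a block swap on the overlap matrix and on virtual chords.
-/
import Pool.Agent.SBR.Swap

namespace SBR
namespace Lay

variable {w : Lay} {L : ℕ}

/-- the order after a block swap in terms of the two crossing pairs `{z1,z3}`, `{z2,z4}` -/
theorem l_swp' (h : w.Good L) {z1 z2 z3 z4 x y : ℕ} (h12 : w.pos z1 < w.pos z2)
    (h23 : w.pos z2 < w.pos z3) (h34 : w.pos z3 < w.pos z4) (h1 : z1 < L) (h2 : z2 < L)
    (h3 : z3 < L) (h4 : z4 < L) (hx : x < L) (hy : y < L) (hxy : x ≠ y)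
    (hx2 : x ≠ z2) (hx3 : x ≠ z3) (hy2 : y ≠ z2) (hy3 : y ≠ z3) :
    (w.swp z1 z2 z3 z4).l x y = w.l x y +
      (w.bi z1 z3 x * w.bi z2 z4 y + w.bi z2 z4 x * w.bi z1 z3 y) := by
  rw [l_swp h h12 h23 h34 h1 h2 h3 h4 hx hy hxy hx2 hx3 hy2 hy3]
  congr 1
  have n2 : w.pos x ≠ w.pos z2 := fun h' => hx2 (h.inj x z2 hx h2 h')
  have n3 : w.pos x ≠ w.pos z3 := fun h' => hx3 (h.inj x z3 hx h3 h')
  have n4 : w.pos y ≠ w.pos z2 := fun h' => hy2 (h.inj y z2 hy h2 h')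
  have n5 : w.pos y ≠ w.pos z3 := fun h' => hy3 (h.inj y z3 hy h3 h')
  have ax : ∀ v : ℕ, w.pos v ≠ w.pos z2 → w.pos v ≠ w.pos z3 →
      (w.blkNo z1 z2 z3 z4 v = 0 ∧ w.bi z1 z3 v = 0 ∧ w.bi z2 z4 v = 0) ∨
      (w.blkNo z1 z2 z3 z4 v = 1 ∧ w.bi z1 z3 v = 1 ∧ w.bi z2 z4 v = 0) ∨
      (w.blkNo z1 z2 z3 z4 v = 2 ∧ w.bi z1 z3 v = 1 ∧ w.bi z2 z4 v = 1) ∨
      (w.blkNo z1 z2 z3 z4 v = 3 ∧ w.bi z1 z3 v = 0 ∧ w.bi z2 z4 v = 1) := by
    intro v e2 e3
    by_cases c0 : w.pos v ≤ w.pos z1 ∨ w.pos z4 ≤ w.pos v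
    · left
      refine ⟨?_, ?_, ?_⟩
      · simp only [blkNo, Lay.Btw]; split_ifs <;> omega
      · simp only [bi, Lay.Btw]; rw [if_neg]; omega
      · simp only [bi, Lay.Btw]; rw [if_neg]; omega
    · by_cases c1 : w.pos v < w.pos z2
      · right; left
        refine ⟨?_, ?_, ?_⟩
        · simp only [blkNo, Lay.Btw]; split_ifs <;> omega
        · simp only [bi, Lay.Btw]; rw [if_pos]; omega
        · simp only [bi, Lay.Btw]; rw [if_neg]; omega
      · by_cases c2 : w.pos v < w.pos z3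
        · right; right; left
          refine ⟨?_, ?_, ?_⟩
          · simp only [blkNo, Lay.Btw]; split_ifs <;> omega
          · simp only [bi, Lay.Btw]; rw [if_pos]; omega
          · simp only [bi, Lay.Btw]; rw [if_pos]; omega
        · right; right; right
          refine ⟨?_, ?_, ?_⟩
          · simp only [blkNo, Lay.Btw]; split_ifs <;> omega
          · simp only [bi, Lay.Btw]; rw [if_neg]; omega
          · simp only [bi, Lay.Btw]; rw [if_pos]; omega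
  rcases ax x n2 n3 with ⟨a, b, c⟩ | ⟨a, b, c⟩ | ⟨a, b, c⟩ | ⟨a, b, c⟩ <;>
    rcases ax y n4 n5 with ⟨a', b', c'⟩ | ⟨a', b', c'⟩ | ⟨a', b', c'⟩ | ⟨a', b', c'⟩ <;>
    rw [a, b, c, a', b', c'] <;> decide

theorem cr_swp (h : w.Good L) {z1 z2 z3 z4 a b c d : ℕ} (h12 : w.pos z1 < w.pos z2)
    (h23 : w.pos z2 < w.pos z3) (h34 : w.pos z3 < w.pos z4) (h1 : z1 < L) (h2 : z2 < L)
    (h3 : z3 < L) (h4 : z4 < L) (ha : a < L) (hb : b < L) (hc : c < L) (hd : d < L)
    (hac : a ≠ c) (had : a ≠ d) (hbc : b ≠ c) (hbd : b ≠ d)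
    (ha2 : a ≠ z2) (ha3 : a ≠ z3) (hb2 : b ≠ z2) (hb3 : b ≠ z3)
    (hc2 : c ≠ z2) (hc3 : c ≠ z3) (hd2 : d ≠ z2) (hd3 : d ≠ z3) :
    (w.swp z1 z2 z3 z4).cr a b c d = w.cr a b c d +
      ((w.bi z1 z3 a + w.bi z1 z3 b) * (w.bi z2 z4 c + w.bi z2 z4 d) +
        (w.bi z2 z4 a + w.bi z2 z4 b) * (w.bi z1 z3 c + w.bi z1 z3 d)) := by
  simp only [Lay.cr]
  rw [l_swp' h h12 h23 h34 h1 h2 h3 h4 ha hc hac ha2 ha3 hc2 hc3,
    l_swp' h h12 h23 h34 h1 h2 h3 h4 ha hd had ha2 ha3 hd2 hd3,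
    l_swp' h h12 h23 h34 h1 h2 h3 h4 hb hc hbc hb2 hb3 hc2 hc3,
    l_swp' h h12 h23 h34 h1 h2 h3 h4 hb hd hbd hb2 hb3 hd2 hd3]
  ring

/-- effect of a block swap on the overlap matrix (chords not having an end at `z2` or `z3`) -/
theorem mat_swp (h : w.Good L) {z1 z2 z3 z4 t u : ℕ} (h12 : w.pos z1 < w.pos z2)
    (h23 : w.pos z2 < w.pos z3) (h34 : w.pos z3 < w.pos z4) (h1 : z1 < L) (h2 : z2 < L)
    (h3 : z3 < L) (h4 : z4 < L) (ht : 2 * t + 1 < L) (hu : 2 * u + 1 < L)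
    (ht2 : t ≠ z2 / 2) (ht3 : t ≠ z3 / 2) (hu2 : u ≠ z2 / 2) (hu3 : u ≠ z3 / 2) :
    (w.swp z1 z2 z3 z4).mat t u = w.mat t u +
      (w.bc z1 z3 t * w.bc z2 z4 u + w.bc z2 z4 t * w.bc z1 z3 u) := by
  by_cases htu : t = u
  · subst htu
    have n : ∀ v, v / 2 = t → v < L → w.pos v ≠ w.pos z2 ∧ w.pos v ≠ w.pos z3 := by
      intro v hv hvL
      refine ⟨fun e => ?_, fun e => ?_⟩
      · have := h.inj v z2 hvL h2 e; subst this; omega
      · have := h.inj v z3 hvL h3 e; subst this; omega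
    simp only [Lay.mat, if_true]
    rw [swp_sg h12 h23 h34 (2 * t) (n _ (by omega) (by omega)).1 (n _ (by omega) (by omega)).2,
      swp_sg h12 h23 h34 (2 * t + 1) (n _ (by omega) (by omega)).1 (n _ (by omega) (by omega)).2]
    linear_combination (-(w.bc z1 z3 t * w.bc z2 z4 t)) * two0
  · simp only [Lay.mat, if_neg htu]
    rw [cr_swp h h12 h23 h34 h1 h2 h3 h4 (by omega) ht (by omega) hu (by omega) (by omega)
      (by omega) (by omega) (by omega) (by omega) (by omega) (by omega) (by omega) (by omega)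
      (by omega) (by omega)]
    rfl

/-- effect of a block swap on a virtual chord -/
theorem vec_swp (h : w.Good L) {z1 z2 z3 z4 c d t : ℕ} (h12 : w.pos z1 < w.pos z2)
    (h23 : w.pos z2 < w.pos z3) (h34 : w.pos z3 < w.pos z4) (h1 : z1 < L) (h2 : z2 < L)
    (h3 : z3 < L) (h4 : z4 < L) (hc : c < L) (hd : d < L) (ht : 2 * t + 1 < L)
    (ht2 : t ≠ z2 / 2) (ht3 : t ≠ z3 / 2) (hct : c / 2 ≠ t) (hdt : d / 2 ≠ t)
    (hc2 : c ≠ z2) (hc3 : c ≠ z3) (hd2 : d ≠ z2) (hd3 : d ≠ z3) :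
    (w.swp z1 z2 z3 z4).vec c d t = w.vec c d t +
      ((w.bi z1 z3 c + w.bi z1 z3 d) * w.bc z2 z4 t +
        (w.bi z2 z4 c + w.bi z2 z4 d) * w.bc z1 z3 t) := by
  simp only [Lay.vec]
  rw [cr_swp h h12 h23 h34 h1 h2 h3 h4 hc hd (by omega) ht (by omega) (by omega)
      (by omega) (by omega) hc2 hc3 hd2 hd3 (by omega) (by omega) (by omega) (by omega)]
  rfl

/-- effect of a block swap on a virtual chord from the left end -/
theorem rvc_swp (h : w.Good L) {z1 z2 z3 z4 c t : ℕ} (h12 : w.pos z1 < w.pos z2)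
    (h23 : w.pos z2 < w.pos z3) (h34 : w.pos z3 < w.pos z4) (h1 : z1 < L) (h2 : z2 < L)
    (h3 : z3 < L) (h4 : z4 < L) (hc : c < L) (ht : 2 * t + 1 < L)
    (ht2 : t ≠ z2 / 2) (ht3 : t ≠ z3 / 2) (hct : c / 2 ≠ t)
    (hc2 : c ≠ z2) (hc3 : c ≠ z3) :
    (w.swp z1 z2 z3 z4).rvc c t = w.rvc c t +
      (w.bi z1 z3 c * w.bc z2 z4 t + w.bi z2 z4 c * w.bc z1 z3 t) := by
  simp only [Lay.rvc, Lay.bc]
  rw [l_swp' h h12 h23 h34 h1 h2 h3 h4 hc (by omega) (by omega) hc2 hc3 (by omega) (by omega),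
    l_swp' h h12 h23 h34 h1 h2 h3 h4 hc ht (by omega) hc2 hc3 (by omega) (by omega)]
  ring

/-- after the swap the pair `{z1,z2}` cuts exactly the chords which `{z2,z4}` cut before -/
theorem vec_swp_12 (h : w.Good L) {z1 z2 z3 z4 t : ℕ} (h12 : w.pos z1 < w.pos z2)
    (h23 : w.pos z2 < w.pos z3) (h34 : w.pos z3 < w.pos z4) (h1 : z1 < L) (h2 : z2 < L)
    (h3 : z3 < L) (h4 : z4 < L) (ht : 2 * t + 1 < L)
    (ht1 : t ≠ z1 / 2) (ht2 : t ≠ z2 / 2) (ht3 : t ≠ z3 / 2) (ht4 : t ≠ z4 / 2) :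
    (w.swp z1 z2 z3 z4).vec z1 z2 t = w.bc z2 z4 t := by
  have hg := h.swp h1 h2 h3 h4
  have key : ∀ v, v < L → v / 2 = t →
      (w.swp z1 z2 z3 z4).l z1 v + (w.swp z1 z2 z3 z4).l z2 v = w.bi z2 z4 v := by
    intro v hv hvt
    have n1 : w.pos v ≠ w.pos z1 := fun e => by
      have := h.inj v z1 hv h1 e; subst this; omega
    have n2 : w.pos v ≠ w.pos z2 := fun e => by
      have := h.inj v z2 hv h2 e; subst this; omega
    have n3 : w.pos v ≠ w.pos z3 := fun e => by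
      have := h.inj v z3 hv h3 e; subst this; omega
    have n4 : w.pos v ≠ w.pos z4 := fun e => by
      have := h.inj v z4 hv h4 e; subst this; omega
    have pv := swp_pos h12 h23 h34 v
    have p1 := swp_pos h12 h23 h34 z1
    have p2 := swp_pos h12 h23 h34 z2
    simp only [Lay.l, bi, Lay.Btw]
    generalize (w.swp z1 z2 z3 z4).pos v = a at *
    generalize (w.swp z1 z2 z3 z4).pos z1 = b at *
    generalize (w.swp z1 z2 z3 z4).pos z2 = c at *
    have q1 : b = w.pos z1 := by split_ifs at p1 <;> omega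
    have q2 : c = w.pos z1 + w.pos z4 - w.pos z2 := by split_ifs at p2 <;> omega
    by_cases hB : (w.pos z2 < w.pos v ∧ w.pos v < w.pos z4) ∨
        (w.pos z4 < w.pos v ∧ w.pos v < w.pos z2)
    · rw [if_pos hB, if_pos (show b < a by split_ifs at pv <;> omega),
        if_neg (show ¬ c < a by split_ifs at pv <;> omega)]
      simp
    · rw [if_neg hB]
      by_cases hC : a < w.pos z1
      · rw [if_neg (show ¬ b < a by omega), if_neg (show ¬ c < a by omega)]; simp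
      · rw [if_pos (show b < a by split_ifs at pv <;> omega),
          if_pos (show c < a by split_ifs at pv <;> omega)]; decide
  have k1 := key (2 * t) (by omega) (by omega)
  have k2 := key (2 * t + 1) ht (by omega)
  simp only [Lay.vec, Lay.cr, Lay.bc]
  rw [← k1, ← k2]; ring

/-- after the swap the pair `{z3,z4}` cuts exactly the chords which `{z1,z3}` cut before -/
theorem vec_swp_34 (h : w.Good L) {z1 z2 z3 z4 t : ℕ} (h12 : w.pos z1 < w.pos z2)
    (h23 : w.pos z2 < w.pos z3) (h34 : w.pos z3 < w.pos z4) (h1 : z1 < L) (h2 : z2 < L)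
    (h3 : z3 < L) (h4 : z4 < L) (ht : 2 * t + 1 < L)
    (ht1 : t ≠ z1 / 2) (ht2 : t ≠ z2 / 2) (ht3 : t ≠ z3 / 2) (ht4 : t ≠ z4 / 2) :
    (w.swp z1 z2 z3 z4).vec z3 z4 t = w.bc z1 z3 t := by
  have hg := h.swp h1 h2 h3 h4
  have key : ∀ v, v < L → v / 2 = t →
      (w.swp z1 z2 z3 z4).l z3 v + (w.swp z1 z2 z3 z4).l z4 v = w.bi z1 z3 v := by
    intro v hv hvt
    have n1 : w.pos v ≠ w.pos z1 := fun e => by
      have := h.inj v z1 hv h1 e; subst this; omega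
    have n2 : w.pos v ≠ w.pos z2 := fun e => by
      have := h.inj v z2 hv h2 e; subst this; omega
    have n3 : w.pos v ≠ w.pos z3 := fun e => by
      have := h.inj v z3 hv h3 e; subst this; omega
    have n4 : w.pos v ≠ w.pos z4 := fun e => by
      have := h.inj v z4 hv h4 e; subst this; omega
    have pv := swp_pos h12 h23 h34 v
    have p3 := swp_pos h12 h23 h34 z3
    have p4 := swp_pos h12 h23 h34 z4
    simp only [Lay.l, bi, Lay.Btw]
    generalize (w.swp z1 z2 z3 z4).pos v = a at *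
    generalize (w.swp z1 z2 z3 z4).pos z3 = b at *
    generalize (w.swp z1 z2 z3 z4).pos z4 = c at *
    have q1 : b = w.pos z1 + w.pos z4 - w.pos z3 := by split_ifs at p3 <;> omega
    have q2 : c = w.pos z4 := by split_ifs at p4 <;> omega
    by_cases hB : (w.pos z1 < w.pos v ∧ w.pos v < w.pos z3) ∨
        (w.pos z3 < w.pos v ∧ w.pos v < w.pos z1)
    · rw [if_pos hB, if_pos (show b < a by split_ifs at pv <;> omega),
        if_neg (show ¬ c < a by split_ifs at pv <;> omega)]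
      simp
    · rw [if_neg hB]
      by_cases hC : w.pos z4 < a
      · rw [if_pos (show b < a by omega), if_pos (show c < a by omega)]; decide
      · rw [if_neg (show ¬ b < a by split_ifs at pv <;> omega),
          if_neg (show ¬ c < a by split_ifs at pv <;> omega)]; simp
  have k1 := key (2 * t) (by omega) (by omega)
  have k2 := key (2 * t + 1) ht (by omega)
  simp only [Lay.vec, Lay.cr, Lay.bc]
  rw [← k1, ← k2]; ring

end Lay
end SBR
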