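/-
SBR/State.lean : invariants of the sorting algorithm (layout level).
-/
import Pool.Agent.SBR.Swap2
import Pool.Agent.SBR.Pivot

namespace SBR

/-- `t`, `u` are consecutive elements of `X` with respect to `κ` -/
def Cons (κ : ℕ → ℕ) (X : Finset ℕ) (t u : ℕ) : Prop :=
  t ∈ X ∧ u ∈ X ∧ κ t < κ u ∧ ∀ v ∈ X, ¬ (κ t < κ v ∧ κ v < κ u)

/-- For consecutive chords `t`, `u` of `X` the nodes `2t+1` and `2u` are the two ends of a block: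
they are neighbours among the nodes of `X`, have the same sign, and `2t+1` is left of `2u` iff the sign
is positive.  The first node of `X` is the plus end of the first chord, the last node of `X` is
the minus end of the last chord, and both are positive. -/
structure Mates (w : Lay) (κ : ℕ → ℕ) (X : Finset ℕ) : Prop where
  inj : ∀ t ∈ X, ∀ u ∈ X, κ t = κ u → t = u
  sg : ∀ t u, Cons κ X t u → w.sg (2 * t + 1) = w.sg (2 * u)
  ordt : ∀ t u, Cons κ X t u → w.sg (2 * u) = true → w.pos (2 * t + 1) < w.pos (2 * u)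
  ordf : ∀ t u, Cons κ X t u → w.sg (2 * u) = false → w.pos (2 * u) < w.pos (2 * t + 1)
  adj : ∀ t u, Cons κ X t u → ∀ v ∈ X,
    ¬ w.Btw (2 * t + 1) (2 * u) (2 * v) ∧ ¬ w.Btw (2 * t + 1) (2 * u) (2 * v + 1)
  first : ∀ t ∈ X, (∀ v ∈ X, κ t ≤ κ v) → w.sg (2 * t) = true ∧
    ∀ v ∈ X, w.pos (2 * t) ≤ w.pos (2 * v) ∧ w.pos (2 * t) ≤ w.pos (2 * v + 1)
  last : ∀ t ∈ X, (∀ v ∈ X, κ v ≤ κ t) → w.sg (2 * t + 1) = true ∧
    ∀ v ∈ X, w.pos (2 * v) ≤ w.pos (2 * t + 1) ∧ w.pos (2 * v + 1) ≤ w.pos (2 * t + 1)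

/-- node `j` lies inside a block (a junction) -/
def Jn (w : Lay) (X : Finset ℕ) (j : ℕ) : Prop :=
  (∀ v ∈ X, w.pos j < w.pos (2 * v) ∧ w.pos j < w.pos (2 * v + 1)) ∨
  (∀ v ∈ X, w.pos (2 * v) < w.pos j ∧ w.pos (2 * v + 1) < w.pos j) ∨
  ∃ t u, Cons id X t u ∧ w.Btw (2 * t + 1) (2 * u) j

/-- all nodes of `X` are positive -/
def AllPos (w : Lay) (X : Finset ℕ) : Prop :=
  ∀ t ∈ X, w.sg (2 * t) = true ∧ w.sg (2 * t + 1) = true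

/-- The algebraic invariant.  `S` : alive chords, `ord` : the list of pivots so far,
`m1 h`, `m2 h` : the two marks of the pivot `h`. -/
structure Alg (m : ℕ) (A0 : ℕ → ℕ → ZMod 2) (w : Lay) (S : Finset ℕ) (ord : List ℕ)
    (m1 m2 : ℕ → ℕ) : Prop where
  good : w.Good (2 * m)
  symm : Symm A0
  sub : ∀ t ∈ S, t < m
  valid : Valid A0 ord
  ordlt : ∀ h ∈ ord, h < m
  disj : ∀ h ∈ ord, h ∉ S
  mks : ∀ h ∈ ord, m1 h < 2 * m ∧ m2 h < 2 * m ∧ m1 h / 2 ∉ S ∧ m2 h / 2 ∉ S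
  mat : ∀ t ∈ S, ∀ u ∈ S, pivs A0 ord t u = w.mat t u
  rest : ∀ t, t ∉ S → ∀ u, pivs A0 ord t u = 0
  tri : ∀ pre h post, ord = pre ++ h :: post → ∃ c : ℕ → ZMod 2, ∀ t ∈ S,
    pivs A0 pre h t = w.vec (m1 h) (m2 h) t +
      (post.map (fun h' => c h' * w.vec (m1 h') (m2 h') t)).sum

/-- adjacency in `X` -/
def Adj (w : Lay) (X : Finset ℕ) (a b : ℕ) : Prop := a ∈ X ∧ b ∈ X ∧ a ≠ b ∧ w.mat a b ≠ 0

/-- connectedness in `X` -/
def Cn (w : Lay) (X : Finset ℕ) (a b : ℕ) : Prop := Relation.ReflTransGen (Adj w X) a b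

/-- node `c` separates the two ends of some chord in the component of `t` -/
def Tch (w : Lay) (X : Finset ℕ) (c t : ℕ) : Prop := ∃ u, Cn w X t u ∧ w.rvc c u ≠ 0

/-- invariant of phase 2 for a component; `X` : alive chords of the component, `κ` : keys,
`st` : stack (top first) -/
structure Ph2 (m : ℕ) (A0 : ℕ → ℕ → ZMod 2) (w : Lay) (S : Finset ℕ) (ord : List ℕ)
    (m1 m2 : ℕ → ℕ) (X : Finset ℕ) (κ : ℕ → ℕ) (st : List ℕ) : Prop where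
  alg : Alg m A0 w S ord m1 m2
  XS : X ⊆ S
  clo : ∀ t ∈ X, ∀ u ∈ S, u ∉ X → w.mat t u = 0
  apos : AllPos w X
  mates : Mates w κ X
  stk : ∀ h ∈ st, h ∈ ord
  nd : st.Nodup
  V : ∀ up h dn, st = up ++ h :: dn → ∀ pre post, ord = pre ++ h :: post → ∀ h' ∈ post,
    h' ∈ up ∨ ∀ t ∈ X, w.vec (m1 h') (m2 h') t = 0
  P : ∀ up h dn, st = up ++ h :: dn → ∀ t ∈ X,
    (∀ h' ∈ up, ¬ Tch w X (m1 h') t ∧ ¬ Tch w X (m2 h') t) →
      ¬ Tch w X (m1 h) t ∨ ¬ Tch w X (m2 h) t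
  T : ∀ t ∈ X, (∃ u ∈ X, u ≠ t ∧ w.mat t u ≠ 0) →
    ∃ h ∈ st, Tch w X (m1 h) t ∨ Tch w X (m2 h) t

/-- `z` is met strictly between `a` and `b` when going clockwise (to the right, cyclically) from `a` -/
def Lay.Cw (w : Lay) (a z b : ℕ) : Prop :=
  (w.pos a < w.pos z ∧ w.pos z < w.pos b) ∨ (w.pos z < w.pos b ∧ w.pos b < w.pos a) ∨
    (w.pos b < w.pos a ∧ w.pos a < w.pos z)

/-- `u` is the cyclic successor of `t` in `K` -/
def CycCons (K : Finset ℕ) (t u : ℕ) : Prop :=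
  Cons id K t u ∨ (t ∈ K ∧ u ∈ K ∧ (∀ v ∈ K, v ≤ t) ∧ ∀ v ∈ K, u ≤ v)

/-- A component `K` waiting to be processed; `g` : its latest catalyst, `tE` : the chord whose plus end
is the next node of `K` clockwise from the junction `m1 g`. -/
structure Pend (w : Lay) (S : Finset ℕ) (ord : List ℕ) (m1 m2 : ℕ → ℕ) (K : Finset ℕ)
    (g tE : ℕ) : Prop where
  KS : K ⊆ S
  clo : ∀ t ∈ K, ∀ u ∈ S, u ∉ K → w.mat t u = 0
  con : ∀ t ∈ K, ∀ u ∈ K, Cn w K t u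
  apos : AllPos w K
  circ : ∀ t u, CycCons K t u → ∀ v ∈ K,
    ¬ w.Cw (2 * t + 1) (2 * v) (2 * u) ∧ ¬ w.Cw (2 * t + 1) (2 * v + 1) (2 * u)
  tEK : tE ∈ K
  jun : ∀ v ∈ K, ¬ w.Cw (m1 g) (2 * v) (2 * tE) ∧ ¬ w.Cw (m1 g) (2 * v + 1) (2 * tE)
  gord : g ∈ ord
  late : ∀ pre post, ord = pre ++ g :: post → ∀ h ∈ post, ∀ t ∈ K, w.vec (m1 h) (m2 h) t = 0
  tch : ∃ t ∈ K, w.vec (m1 g) (m2 g) t ≠ 0

/-- keys of phase 2: rotated chord numbers -/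
def kap (m tE : ℕ) (t : ℕ) : ℕ := if tE ≤ t then t - tE else t + m - tE

/-- key of a node (`0` : no key) -/
def nk (κ : ℕ → ℕ) (X : Finset ℕ) (x : ℕ) : ℕ := if x / 2 ∈ X then 2 * κ (x / 2) + 1 + x % 2 else 0

/-- `mx` is the largest key among the nodes `x` with `C x` (0 if there is none) -/
def IsMx (κ : ℕ → ℕ) (X : Finset ℕ) (C : ℕ → Prop) (mx : ℕ) : Prop :=
  (∀ x, x / 2 ∈ X → C x → nk κ X x ≤ mx) ∧ (mx = 0 ∨ ∃ x, x / 2 ∈ X ∧ C x ∧ nk κ X x = mx)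

/-- `mn` is the smallest key among the nodes `x` with `C x` (0 if there is none) -/
def IsMn (κ : ℕ → ℕ) (X : Finset ℕ) (C : ℕ → Prop) (mn : ℕ) : Prop :=
  (∀ x, x / 2 ∈ X → C x → mn ≠ 0 ∧ mn ≤ nk κ X x) ∧
    (mn = 0 ∨ ∃ x, x / 2 ∈ X ∧ C x ∧ nk κ X x = mn)

end SBR
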