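/-
SBR/Elem.lean : node arrangements coming from signed permutations, reversals between gaps,
rank over GF(2), unoriented components, cost; definitions for the lower bound and for the
treatment of hurdles.
-/
import Pool.Agent.SBR.State

namespace SBR

/-- node arrangements coming from signed permutations of `1,…,n`: nodes `0` and `2n+1` are the first
and the last node and positive; the nodes `2v-1`, `2v` of the element `v` occupy the positions
`2k-1`, `2k` for some `k`, have the same sign, and `2v-1` is first iff this sign is positive -/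
structure EL (n : ℕ) (w : Lay) : Prop where
  good : w.Good (2 * (n + 1))
  p0 : w.pos 0 = 0
  s0 : w.sg 0 = true
  p1 : w.pos (2 * n + 1) = 2 * n + 1
  s1 : w.sg (2 * n + 1) = true
  elt : ∀ v, 1 ≤ v → v ≤ n → w.sg (2 * v - 1) = w.sg (2 * v) ∧ ∃ k, 1 ≤ k ∧ k ≤ n ∧
    ((w.sg (2 * v) = true ∧ w.pos (2 * v - 1) = 2 * k - 1 ∧ w.pos (2 * v) = 2 * k) ∨
      (w.sg (2 * v) = false ∧ w.pos (2 * v) = 2 * k - 1 ∧ w.pos (2 * v - 1) = 2 * k))

/-- reverse the positions `2g+1,…,2h` (the elements between the gaps `g < h`) -/
def Lay.grev (w : Lay) (g h : ℕ) : Lay where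
  pos x := if 2 * g < w.pos x ∧ w.pos x ≤ 2 * h then 2 * g + 1 + 2 * h - w.pos x else w.pos x
  sg x := if 2 * g < w.pos x ∧ w.pos x ≤ 2 * h then !w.sg x else w.sg x

/-- number (mod 2) of ends of chord `t` left of gap `g` -/
def Lay.gv (w : Lay) (g t : ℕ) : ZMod 2 :=
  (if w.pos (2 * t) ≤ 2 * g then 1 else 0) + (if w.pos (2 * t + 1) ≤ 2 * g then 1 else 0)

/-- vector of the pair of gaps `g`, `h` -/
def Lay.gb (w : Lay) (g h t : ℕ) : ZMod 2 := w.gv g t + w.gv h t

/-- the gap at node `x` -/
def Lay.gap (w : Lay) (x : ℕ) : ℕ := w.pos x / 2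

/-- reversal between the gaps at the nodes `x`, `y` -/
def Lay.cut (w : Lay) (c : ℕ × ℕ) : Lay :=
  w.grev (min (w.gap c.1) (w.gap c.2)) (max (w.gap c.1) (w.gap c.2))

/-- rank of the leading `m × m` part -/
noncomputable def mrk (m : ℕ) (A : ℕ → ℕ → ZMod 2) : ℕ :=
  (Matrix.of (fun (i j : Fin m) => A i j)).rank

/-- the overlap matrix, `0` outside the range -/
def Lay.amat (m : ℕ) (w : Lay) (t u : ℕ) : ZMod 2 := if t < m ∧ u < m then w.mat t u else 0

/-- unoriented component -/
structure UComp (m : ℕ) (w : Lay) (C : Finset ℕ) : Prop where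
  sub : ∀ t ∈ C, t < m
  two : 2 ≤ C.card
  clo : ∀ t ∈ C, ∀ u, u < m → u ∉ C → w.mat t u = 0
  con : ∀ t ∈ C, ∀ u ∈ C, Cn w C t u
  uno : ∀ t ∈ C, w.mat t t = 0

open Classical in
/-- cost of a list of pairs of gaps: twice its length plus the number of unoriented components that
are not cut by any of the pairs -/
noncomputable def gcost (m : ℕ) (w : Lay) (F : List (ℕ × ℕ)) : ℕ :=
  2 * F.length + ((Finset.range m).powerset.filter
    (fun C => UComp m w C ∧ ∀ f ∈ F, ∀ t ∈ C, w.gb f.1 f.2 t = 0)).card

/-- `lab` marks the gaps that belong to unoriented components: `0` if the component is not unoriented,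
otherwise an identification number of the component -/
structure GLab (m : ℕ) (w : Lay) (lab : ℕ → ℕ) : Prop where
  pos : ∀ x, x < 2 * m → (lab (w.gap x) ≠ 0 ↔ ∃ C, UComp m w C ∧ x / 2 ∈ C)
  eq : ∀ x y, x < 2 * m → y < 2 * m → lab (w.gap x) ≠ 0 →
    (lab (w.gap x) = lab (w.gap y) ↔ Cn w (Finset.range m) (x / 2) (y / 2))

/-- the labels do not cross -/
def NCL (m : ℕ) (lab : ℕ → ℕ) : Prop :=
  ∀ a b c d, a < b → b < c → c < d → d < m → lab a ≠ 0 → lab b ≠ 0 → lab a = lab c →
    lab b = lab d → lab a = lab b

/-- the pair of gaps `g`, `h` cuts the component with number `i` -/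
def CutG (m : ℕ) (lab : ℕ → ℕ) (i g h : ℕ) : Prop :=
  (∃ k, min g h ≤ k ∧ k ≤ max g h ∧ lab k = i) ∧
    ∃ k, k < m ∧ lab k = i ∧ ¬ (min g h < k ∧ k < max g h)

/-! ### words -/

/-- cyclically compressed non-crossing words -/
structure CW (R : List ℕ) : Prop where
  ne : ∀ j, j + 1 < R.length → R.getD j 0 ≠ R.getD (j + 1) 0
  cyc : 2 ≤ R.length → R.getD (R.length - 1) 0 ≠ R.getD 0 0
  nc : ∀ a b c d, a < b → b < c → c < d → d < R.length → R.getD a 0 = R.getD c 0 →
    R.getD b 0 = R.getD d 0 → R.getD a 0 = R.getD b 0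

/-- the pair of positions `j`, `j'` cuts the letter `i` -/
def CutW (R : List ℕ) (i j j' : ℕ) : Prop :=
  (∃ k, min j j' ≤ k ∧ k ≤ max j j' ∧ R.getD k 0 = i) ∧
    ∃ k, k < R.length ∧ R.getD k 0 = i ∧ ¬ (min j j' < k ∧ k < max j j')

/-- linear word of the labels: zeros removed, equal neighbours merged -/
def lword (m : ℕ) (lab : ℕ → ℕ) : List ℕ :=
  (((List.range m).map lab).filter (fun i => decide (i ≠ 0))).destutter (· ≠ ·)

/-- remove the last letter if it equals the first one -/
def trim (R : List ℕ) : List ℕ :=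
  if 2 ≤ R.length ∧ R.getD (R.length - 1) 0 = R.getD 0 0 then R.dropLast else R

/-- letter at position `j` occurs only once -/
def Once (R : List ℕ) (j : ℕ) : Bool := decide (R.count (R.getD j 0) = 1)

/-- cyclic predecessor and successor of a position -/
def prd (l j : ℕ) : ℕ := if j = 0 then l - 1 else j - 1
def scc (l j : ℕ) : ℕ := if j + 1 = l then 0 else j + 1

/-- the neighbours of position `j` carry the same letter and this letter occurs exactly twice -/
def Sup (R : List ℕ) (j : ℕ) : Bool :=
  decide (R.getD (prd R.length j) 0 = R.getD (scc R.length j) 0 ∧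
    R.count (R.getD (prd R.length j) 0) = 2)

/-- positions of the hurdles -/
def hurdles (R : List ℕ) : List ℕ := (List.range R.length).filter (Once R)

/-- pair the first half of a list with the second half -/
def halves (H : List ℕ) : List (ℕ × ℕ) :=
  (List.range (H.length / 2)).map (fun i => (H.getD i 0, H.getD (i + H.length / 2) 0))

/-- index of the hurdle that is treated alone (the first one which is not super), or the number of
hurdles if there is none -/
def sidx (R : List ℕ) : ℕ := (hurdles R).findIdx (fun j => !Sup R j)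

/-- pairs of positions used to destroy the hurdles, and the hurdle treated by a single reversal -/
def plan (R : List ℕ) : List (ℕ × ℕ) × Option ℕ :=
  if (hurdles R).length % 2 = 0 then (halves (hurdles R), none)
  else if sidx R < (hurdles R).length then
    (halves ((hurdles R).eraseIdx (sidx R)), some ((hurdles R).getD (sidx R) 0))
  else (halves ((hurdles R).eraseIdx 0) ++
    [((hurdles R).getD 0 0, (hurdles R).getD 1 0)], none)

/-- number of hurdles, plus one for a fortress -/
def pcost (R : List ℕ) : ℕ :=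
  2 * (plan R).1.length + (if (plan R).2.isSome then 1 else 0)

/-- the pairs of nodes at which the algorithm cuts; `nd j` is a node of the `j`-th letter -/
def planN (R : List ℕ) (nd : ℕ → ℕ) : List (ℕ × ℕ) :=
  (plan R).1.map (fun c => (nd c.1, nd c.2)) ++
    (match (plan R).2 with
      | none => []
      | some j => [(2 * (nd j / 2), 2 * (nd j / 2) + 1)])

end SBR
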