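/-
SBR/Perm.lean : signed permutations as lists of integers, reversals, and their node arrangements.
-/
import Pool.Agent.SBR.Elem

namespace SBR

/-- `p` is a signed permutation of `1, …, n`: its absolute values are a permutation of `1, …, n` -/
def IsSP (n : ℕ) (p : List ℤ) : Prop := (p.map Int.natAbs).Perm (List.range' 1 n)

/-- the reversal of the interval `i, …, j` of positions (counted from 1): the entries of the interval
are put in the opposite order and their signs are changed -/
def revP (p : List ℤ) (i j : ℕ) : List ℤ :=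
  p.take (i - 1) ++ ((p.take j).drop (i - 1)).reverse.map (fun v => -v) ++ p.drop j

/-- the identity permutation `1, 2, …, n` -/
def idP (n : ℕ) : List ℤ := (List.range n).map (fun k : ℕ => (k : ℤ) + 1)

/-- the reversals of the list `rs`, carried out one after the other, transform `p` into the
identity permutation -/
def Sorts (n : ℕ) (p : List ℤ) (rs : List (ℕ × ℕ)) : Prop :=
  (∀ r ∈ rs, 1 ≤ r.1 ∧ r.1 ≤ r.2 ∧ r.2 ≤ n) ∧ rs.foldl (fun q r => revP q r.1 r.2) p = idP n

/-- node arrangement of a signed permutation -/
def layOf (n : ℕ) (p : List ℤ) : Lay where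
  pos x := if x = 0 then 0 else if x = 2 * n + 1 then 2 * n + 1 else
    if (x % 2 = 0 ↔ 0 < p.getD ((p.map Int.natAbs).idxOf ((x + 1) / 2)) 0) then
      2 * ((p.map Int.natAbs).idxOf ((x + 1) / 2) + 1)
    else 2 * ((p.map Int.natAbs).idxOf ((x + 1) / 2) + 1) - 1
  sg x := if x = 0 ∨ x = 2 * n + 1 then true else
    decide (0 < p.getD ((p.map Int.natAbs).idxOf ((x + 1) / 2)) 0)

/-- the intervals reversed when cutting at the pairs of nodes of a list -/
def outs (w : Lay) : List (ℕ × ℕ) → List (ℕ × ℕ)
  | [] => []
  | c :: l => (min (w.gap c.1) (w.gap c.2) + 1, max (w.gap c.1) (w.gap c.2)) :: outs (w.cut c) l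

end SBR
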