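/-
SBR/E1.lean : rank of symmetric matrices over GF(2) under rank one changes.
-/
import Pool.Agent.SBR.Perm

namespace SBR

open Finset

private def ext {m : ℕ} (y : Fin m → ZMod 2) (n : ℕ) : ZMod 2 := if h : n < m then y ⟨n, h⟩ else 0

private theorem ext_fin {m : ℕ} (y : Fin m → ZMod 2) (j : Fin m) : ext y j = y j := by
  simp [ext]

private noncomputable def kr (m : ℕ) (A : ℕ → ℕ → ZMod 2) : Submodule (ZMod 2) (Fin m → ZMod 2) :=
  LinearMap.ker (Matrix.of (fun (i j : Fin m) => A i j)).mulVecLin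

private theorem mem_kr {m : ℕ} {A : ℕ → ℕ → ZMod 2} {y : Fin m → ZMod 2} :
    y ∈ kr m A ↔ ∀ i, i < m → ∑ j ∈ range m, A i j * ext y j = 0 := by
  unfold kr
  rw [LinearMap.mem_ker, Matrix.mulVecLin_apply]
  constructor
  · intro h i hi
    have h1 := congrFun h ⟨i, hi⟩
    rw [Finset.sum_range]
    simpa [Matrix.mulVec, dotProduct, ext_fin] using h1
  · intro h
    funext i
    have h1 := h i i.2
    rw [Finset.sum_range] at h1
    simpa [Matrix.mulVec, dotProduct, ext_fin] using h1

private theorem mrk_kr (m : ℕ) (A : ℕ → ℕ → ZMod 2) : mrk m A + Module.finrank (ZMod 2) (kr m A) = m := by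
  have h := LinearMap.finrank_range_add_finrank_ker
    (Matrix.of (fun (i j : Fin m) => A i j)).mulVecLin
  rw [Module.finrank_fin_fun] at h
  exact h

private theorem mrk_le_of_kr {m : ℕ} {A B : ℕ → ℕ → ZMod 2} (h : kr m A ≤ kr m B) :
    mrk m B ≤ mrk m A := by
  have h1 := mrk_kr m A
  have h2 := mrk_kr m B
  have h3 := Submodule.finrank_mono h
  omega

private theorem mrk_lt_of_kr {m : ℕ} {A B : ℕ → ℕ → ZMod 2} (h : kr m A ≤ kr m B)
    {y : Fin m → ZMod 2} (hy : y ∈ kr m B) (hy' : y ∉ kr m A) :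
    mrk m B + 1 ≤ mrk m A := by
  have h1 := mrk_kr m A
  have h2 := mrk_kr m B
  have h3 := Submodule.finrank_lt_finrank_of_lt
    (lt_of_le_of_ne h (fun e => hy' (by rw [e]; exact hy)))
  omega

theorem mrk_congr {m : ℕ} {A B : ℕ → ℕ → ZMod 2} (h : ∀ i, i < m → ∀ j, j < m → A i j = B i j) :
    mrk m A = mrk m B := by
  unfold mrk
  congr 1
  ext i j
  exact h i i.2 j j.2

theorem mrk_zero {m : ℕ} {A : ℕ → ℕ → ZMod 2} (h : ∀ i, i < m → ∀ j, j < m → A i j = 0) :
    mrk m A = 0 := by
  unfold mrk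
  have : (Matrix.of (fun (i j : Fin m) => A i j)) = 0 := by
    ext i j
    exact h i i.2 j j.2
  rw [this, Matrix.rank_zero]

private theorem z2_add_self (a : ZMod 2) : a + a = 0 := by revert a; decide

theorem mrk_piv {m : ℕ} {A : ℕ → ℕ → ZMod 2} (hs : ∀ i, i < m → ∀ j, j < m → A i j = A j i) {v : ℕ}
    (hv : v < m) (h1 : A v v = 1) : mrk m (piv A v) + 1 ≤ mrk m A := by
  have _hs := hs
  refine mrk_lt_of_kr (y := Pi.single ⟨v, hv⟩ 1) ?_ ?_ ?_
  · intro y hy
    rw [mem_kr] at hy ⊢
    intro i hi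
    have e : ∑ j ∈ range m, piv A v i j * ext y j =
        ∑ j ∈ range m, A i j * ext y j + A i v * ∑ j ∈ range m, A v j * ext y j := by
      rw [Finset.mul_sum, ← Finset.sum_add_distrib]
      refine Finset.sum_congr rfl fun j _ => ?_
      simp only [piv]
      ring
    rw [e, hy i hi, hy v hv, mul_zero, add_zero]
  · rw [mem_kr]
    intro i _
    rw [Finset.sum_eq_single v]
    · simp only [piv, h1, mul_one, z2_add_self, zero_mul]
    · intro j hj hjv
      have : ext (Pi.single (⟨v, hv⟩ : Fin m) (1 : ZMod 2)) j = 0 := by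
        unfold ext
        rw [dif_pos (Finset.mem_range.mp hj), Pi.single_eq_of_ne]
        intro hc
        exact hjv (congrArg Fin.val hc)
      rw [this, mul_zero]
    · intro h
      exact absurd (Finset.mem_range.mpr hv) h
  · rw [mem_kr]
    intro h
    have h2 := h v hv
    rw [Finset.sum_eq_single v] at h2
    · have : ext (Pi.single (⟨v, hv⟩ : Fin m) (1 : ZMod 2)) v = 1 := by
        unfold ext
        rw [dif_pos hv, Pi.single_eq_same]
      rw [this, h1, mul_one] at h2
      exact one_ne_zero h2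
    · intro j hj hjv
      have : ext (Pi.single (⟨v, hv⟩ : Fin m) (1 : ZMod 2)) j = 0 := by
        unfold ext
        rw [dif_pos (Finset.mem_range.mp hj), Pi.single_eq_of_ne]
        intro hc
        exact hjv (congrArg Fin.val hc)
      rw [this, mul_zero]
    · intro h
      exact absurd (Finset.mem_range.mpr hv) h

theorem mrk_valid {m : ℕ} {A : ℕ → ℕ → ZMod 2} (hs : ∀ i, i < m → ∀ j, j < m → A i j = A j i)
    {l : List ℕ} (hl : ∀ v ∈ l, v < m) (hv : Valid A l) : l.length ≤ mrk m A := by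
  induction l generalizing A with
  | nil => simp
  | cons v l ih =>
    obtain ⟨h1, h2⟩ := hv
    have hvm : v < m := hl v (by simp)
    have hs' : ∀ i, i < m → ∀ j, j < m → piv A v i j = piv A v j i := by
      intro i hi j hj
      simp only [piv]
      rw [hs i hi j hj, hs i hi v hvm, hs v hvm j hj]
      ring
    have h3 := ih hs' (fun u hu => hl u (by simp [hu])) h2
    have h4 := mrk_piv hs hvm h1
    rw [List.length_cons]
    omega

private theorem mrank_add_le {m : ℕ} (A B : Matrix (Fin m) (Fin m) (ZMod 2)) :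
    (A + B).rank ≤ A.rank + B.rank := by
  unfold Matrix.rank
  rw [Matrix.mulVecLin_add]
  refine (Submodule.finrank_mono (t := LinearMap.range A.mulVecLin ⊔
    LinearMap.range B.mulVecLin) ?_).trans (Submodule.finrank_add_le_finrank_add_finrank _ _)
  rintro _ ⟨x, rfl⟩
  exact Submodule.add_mem_sup ⟨x, rfl⟩ ⟨x, rfl⟩

private theorem mrk_add_le {m : ℕ} (A : ℕ → ℕ → ZMod 2) (b : ℕ → ZMod 2) :
    mrk m (fun t u => A t u + b t * b u) ≤ mrk m A + 1 := by
  unfold mrk
  have e : (Matrix.of (fun (i j : Fin m) => A i j + b i * b j)) =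
      Matrix.of (fun (i j : Fin m) => A i j) +
      Matrix.vecMulVec (fun i : Fin m => b i) (fun j : Fin m => b j) := by
    ext i j
    simp [Matrix.vecMulVec_apply]
  rw [e]
  refine (mrank_add_le _ _).trans ?_
  have := Matrix.rank_vecMulVec_le (fun i : Fin m => b i) (fun j : Fin m => b j)
  omega

theorem mrk_add {m : ℕ} (A : ℕ → ℕ → ZMod 2) (b : ℕ → ZMod 2) :
    mrk m (fun t u => A t u + b t * b u) ≤ mrk m A + 1 ∧
      mrk m A ≤ mrk m (fun t u => A t u + b t * b u) + 1 := by
  refine ⟨mrk_add_le A b, ?_⟩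
  have h := mrk_add_le (m := m) (fun t u => A t u + b t * b u) b
  have e : mrk m (fun t u => (fun t u => A t u + b t * b u) t u + b t * b u) = mrk m A := by
    refine mrk_congr fun i _ j _ => ?_
    show A i j + b i * b j + b i * b j = A i j
    rw [add_assoc, z2_add_self, add_zero]
  rw [e] at h
  exact h

private theorem sum_bb {m : ℕ} (A : ℕ → ℕ → ZMod 2) (b : ℕ → ZMod 2) (y : ℕ → ZMod 2) (i : ℕ) :
    ∑ j ∈ range m, (A i j + b i * b j) * y j =
      ∑ j ∈ range m, A i j * y j + b i * ∑ j ∈ range m, b j * y j := by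
  rw [Finset.mul_sum, ← Finset.sum_add_distrib]
  refine Finset.sum_congr rfl fun j _ => ?_
  ring

private theorem sum_symm {m : ℕ} {A : ℕ → ℕ → ZMod 2}
    (hs : ∀ i, i < m → ∀ j, j < m → A i j = A j i) (z y : ℕ → ZMod 2) :
    ∑ i ∈ range m, z i * ∑ j ∈ range m, A i j * y j =
      ∑ j ∈ range m, y j * ∑ i ∈ range m, A j i * z i := by
  simp only [Finset.mul_sum]
  rw [Finset.sum_comm]
  refine Finset.sum_congr rfl fun j hj => Finset.sum_congr rfl fun i hi => ?_
  rw [hs i (Finset.mem_range.mp hi) j (Finset.mem_range.mp hj)]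
  ring

theorem mrk_new {m : ℕ} {A : ℕ → ℕ → ZMod 2} (hs : ∀ i, i < m → ∀ j, j < m → A i j = A j i)
    {b z : ℕ → ZMod 2} (hz : ∀ i, i < m → ∑ j ∈ Finset.range m, A i j * z j = 0)
    (hb : ∑ j ∈ Finset.range m, b j * z j = 1) :
    mrk m A + 1 ≤ mrk m (fun t u => A t u + b t * b u) := by
  have hext : ∀ j, j < m → ext (fun i : Fin m => z i) j = z j := by
    intro j hj
    unfold ext
    rw [dif_pos hj]
  have hsum : ∀ c : ℕ → ZMod 2, ∑ j ∈ range m, c j * ext (fun i : Fin m => z i) j =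
      ∑ j ∈ range m, c j * z j := by
    intro c
    refine Finset.sum_congr rfl fun j hj => ?_
    rw [hext j (Finset.mem_range.mp hj)]
  refine mrk_lt_of_kr (y := fun i : Fin m => z i) ?_ ?_ ?_
  · intro y hy
    rw [mem_kr] at hy ⊢
    have h1 : ∀ i, i < m → ∑ j ∈ range m, A i j * ext y j +
        b i * ∑ j ∈ range m, b j * ext y j = 0 := by
      intro i hi
      rw [← sum_bb]
      exact hy i hi
    have h2 : ∑ i ∈ range m, z i * (∑ j ∈ range m, A i j * ext y j +
        b i * ∑ j ∈ range m, b j * ext y j) = 0 :=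
      Finset.sum_eq_zero fun i hi => by rw [h1 i (Finset.mem_range.mp hi), mul_zero]
    have h3 : ∑ i ∈ range m, z i * (∑ j ∈ range m, A i j * ext y j +
        b i * ∑ j ∈ range m, b j * ext y j) =
        ∑ i ∈ range m, z i * ∑ j ∈ range m, A i j * ext y j +
        (∑ i ∈ range m, b i * z i) * ∑ j ∈ range m, b j * ext y j := by
      rw [Finset.sum_mul, ← Finset.sum_add_distrib]
      refine Finset.sum_congr rfl fun i _ => ?_
      ring
    rw [h3, sum_symm hs, hb, one_mul] at h2
    have h4 : ∑ j ∈ range m, ext y j * ∑ i ∈ range m, A j i * z i = 0 :=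
      Finset.sum_eq_zero fun j hj => by rw [hz j (Finset.mem_range.mp hj), mul_zero]
    rw [h4, zero_add] at h2
    intro i hi
    have h5 := h1 i hi
    rw [h2, mul_zero, add_zero] at h5
    exact h5
  · rw [mem_kr]
    intro i hi
    rw [hsum]
    exact hz i hi
  · rw [mem_kr]
    intro h
    have h1 : ∀ i, i < m → b i = 0 := by
      intro i hi
      have h2 := h i hi
      rw [hsum, sum_bb, hz i hi, hb, zero_add, mul_one] at h2
      exact h2
    have h2 : ∑ j ∈ range m, b j * z j = 0 :=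
      Finset.sum_eq_zero fun j hj => by rw [h1 j (Finset.mem_range.mp hj), zero_mul]
    rw [h2] at hb
    exact zero_ne_one hb

theorem mrk_alt {m : ℕ} {A : ℕ → ℕ → ZMod 2} (hs : ∀ i, i < m → ∀ j, j < m → A i j = A j i)
    {b : ℕ → ZMod 2} {D : Finset ℕ} (hD : ∀ t ∈ D, t < m)
    (hclo : ∀ t ∈ D, ∀ u, u < m → u ∉ D → A t u = 0) (hd : ∀ t ∈ D, A t t = 0)
    (hb : ∀ t, t < m → t ∉ D → b t = 0) :
    mrk m A ≤ mrk m (fun t u => A t u + b t * b u) := by
  classical
  refine mrk_le_of_kr ?_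
  intro y hy
  rw [mem_kr] at hy ⊢
  have hDm : D ⊆ range m := fun t ht => Finset.mem_range.mpr (hD t ht)
  have h1 : ∀ i, i < m → ∑ j ∈ range m, A i j * ext y j +
      b i * ∑ j ∈ range m, b j * ext y j = 0 := by
    intro i hi
    rw [← sum_bb]
    exact hy i hi
  set β := ∑ j ∈ range m, b j * ext y j with hβ
  have hβD : β = ∑ j ∈ D, b j * ext y j := by
    rw [hβ]
    symm
    refine Finset.sum_subset hDm fun t ht htD => ?_
    rw [hb t (Finset.mem_range.mp ht) htD, zero_mul]
  have h2 : ∑ i ∈ D, ext y i * (∑ j ∈ range m, A i j * ext y j + b i * β) = 0 :=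
    Finset.sum_eq_zero fun i hi => by rw [h1 i (hD i hi), mul_zero]
  have h3 : ∑ i ∈ D, ext y i * (∑ j ∈ range m, A i j * ext y j + b i * β) =
      ∑ i ∈ D, ∑ j ∈ D, ext y i * (A i j * ext y j) + β * β := by
    have e : β * β = ∑ i ∈ D, ext y i * (b i * β) := by
      have e3 : ∑ i ∈ D, ext y i * (b i * β) = (∑ j ∈ D, b j * ext y j) * β := by
        rw [Finset.sum_mul]
        refine Finset.sum_congr rfl fun i _ => ?_
        ring
      rw [e3, ← hβD]
    rw [e, ← Finset.sum_add_distrib]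
    refine Finset.sum_congr rfl fun i hi => ?_
    have e2 : ∑ j ∈ D, A i j * ext y j = ∑ j ∈ range m, A i j * ext y j := by
      refine Finset.sum_subset hDm fun u hu huD => ?_
      rw [hclo i hi u (Finset.mem_range.mp hu) huD, zero_mul]
    rw [mul_add, ← Finset.mul_sum, e2]
  have h4 : ∑ i ∈ D, ∑ j ∈ D, ext y i * (A i j * ext y j) = 0 := by
    rw [← Finset.sum_product']
    refine Finset.sum_involution (fun p _ => (p.2, p.1)) ?_ ?_ ?_ ?_
    · rintro ⟨i, j⟩ hp
      rw [Finset.mem_product] at hp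
      show ext y i * (A i j * ext y j) + ext y j * (A j i * ext y i) = 0
      rw [hs i (hD i hp.1) j (hD j hp.2)]
      have : ext y i * (A j i * ext y j) = ext y j * (A j i * ext y i) := by ring
      rw [this, z2_add_self]
    · rintro ⟨i, j⟩ hp hne hc
      rw [Finset.mem_product] at hp
      have hij : j = i := congrArg Prod.fst hc
      subst hij
      apply hne
      show ext y j * (A j j * ext y j) = 0
      rw [hd j hp.1, zero_mul, mul_zero]
    · rintro ⟨i, j⟩ hp
      rw [Finset.mem_product] at hp ⊢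
      exact ⟨hp.2, hp.1⟩
    · rintro ⟨i, j⟩ _
      rfl
  rw [h3, h4, zero_add, z2_sq] at h2
  intro i hi
  have h5 := h1 i hi
  rw [h2, mul_zero, add_zero] at h5
  exact h5

theorem mrk_row {m : ℕ} {A : ℕ → ℕ → ZMod 2} (hs : ∀ i, i < m → ∀ j, j < m → A i j = A j i)
    {v : ℕ} (hv : v < m) : mrk m (fun t u => A t u + A v t * A v u) ≤ mrk m A := by
  have _hs := hs
  refine mrk_le_of_kr ?_
  intro y hy
  rw [mem_kr] at hy ⊢
  intro i hi
  rw [sum_bb, hy i hi, hy v hv, mul_zero, add_zero]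

end SBR
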