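/-
SBR/E2.lean : reversals between gaps.
-/
import Pool.Agent.SBR.Elem

set_option linter.unusedVariables false

namespace SBR

/-- indicator of the segment between the gaps `g`, `h` -/
def Lay.e2in (w : Lay) (g h x : ℕ) : ZMod 2 :=
  if 2 * g < w.pos x ∧ w.pos x ≤ 2 * h then 1 else 0

theorem e2in_sq (w : Lay) (g h x : ℕ) : w.e2in g h x * w.e2in g h x = w.e2in g h x := by
  simp only [Lay.e2in]; split_ifs <;> simp

theorem e2_gb (w : Lay) {g h : ℕ} (hgh : g < h) (t : ℕ) :
    w.gb g h t = w.e2in g h (2 * t) + w.e2in g h (2 * t + 1) := by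
  have key : ∀ x, (if w.pos x ≤ 2 * g then (1 : ZMod 2) else 0) + (if w.pos x ≤ 2 * h then 1 else 0) =
      w.e2in g h x := by
    intro x
    simp only [Lay.e2in]
    split_ifs
    all_goals first | omega | decide
  simp only [Lay.gb, Lay.gv]
  rw [← key, ← key]
  ring

theorem e2_l_grev {w : Lay} {L : ℕ} (hw : w.Good L) {g h x y : ℕ} (hx : x < L)
    (hy : y < L) (hxy : x ≠ y) :
    (w.grev g h).l x y = w.l x y + w.e2in g h x * w.e2in g h y := by
  have h1 : w.pos x ≠ w.pos y := fun h' => hxy (hw.inj x y hx hy h')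
  simp only [Lay.l, Lay.e2in, Lay.grev]
  split_ifs
  all_goals first | omega | decide

theorem EL.grev {n : ℕ} {w : Lay} (hw : EL n w) {g h : ℕ} (hgh : g < h) (hh : h ≤ n) :
    EL n (w.grev g h) := by

  have hp0 := hw.p0
  have hp1 := hw.p1
  constructor
  · constructor
    · intro x hx
      have h3 := hw.good.lt x hx
      simp only [Lay.grev]
      split_ifs <;> omega
    · intro x y hx hy hxy
      apply hw.good.inj x y hx hy
      simp only [Lay.grev] at hxy
      split_ifs at hxy <;> omega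
  · simp only [Lay.grev]
    split_ifs <;> omega
  · simp only [Lay.grev]
    rw [if_neg (by omega)]
    exact hw.s0
  · simp only [Lay.grev]
    split_ifs <;> omega
  · simp only [Lay.grev]
    rw [if_neg (by omega)]
    exact hw.s1
  · intro v hv1 hvn
    obtain ⟨hs, k, hk1, hkn, hk⟩ := hw.elt v hv1 hvn
    by_cases hin : g < k ∧ k ≤ h
    · have hI : (2 * g < w.pos (2 * v) ∧ w.pos (2 * v) ≤ 2 * h) ∧
          (2 * g < w.pos (2 * v - 1) ∧ w.pos (2 * v - 1) ≤ 2 * h) := by
        rcases hk with ⟨_, h1, h2⟩ | ⟨_, h1, h2⟩ <;> rw [h1, h2] <;> omega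
      simp only [Lay.grev, if_pos hI.1, if_pos hI.2]
      refine ⟨by rw [hs], g + h + 1 - k, by omega, by omega, ?_⟩
      rcases hk with ⟨h0, h1, h2⟩ | ⟨h0, h1, h2⟩
      · right
        rw [h0, h1, h2]
        exact ⟨rfl, by omega, by omega⟩
      · left
        rw [h0, h1, h2]
        exact ⟨rfl, by omega, by omega⟩
    · have hI : ¬ (2 * g < w.pos (2 * v) ∧ w.pos (2 * v) ≤ 2 * h) ∧
          ¬ (2 * g < w.pos (2 * v - 1) ∧ w.pos (2 * v - 1) ≤ 2 * h) := by
        rcases hk with ⟨_, h1, h2⟩ | ⟨_, h1, h2⟩ <;> rw [h1, h2] <;> omega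
      simp only [Lay.grev, if_neg hI.1, if_neg hI.2]
      exact ⟨hs, k, hk1, hkn, hk⟩

theorem e2_sg (w : Lay) (g h x : ℕ) : bz ((w.grev g h).sg x) = bz (w.sg x) + w.e2in g h x := by
  simp only [Lay.grev, Lay.e2in]
  split_ifs
  · cases w.sg x <;> decide
  · simp

theorem mat_grev {n : ℕ} {w : Lay} (hw : EL n w) {g h : ℕ} (hgh : g < h) (hh : h ≤ n) {t u : ℕ}
    (ht : t < n + 1) (hu : u < n + 1) :
    (w.grev g h).mat t u = w.mat t u + w.gb g h t * w.gb g h u := by
  rw [e2_gb w hgh, e2_gb w hgh]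
  by_cases htu : t = u
  · subst htu
    simp only [Lay.mat, if_true, e2_sg]
    have h1 := e2in_sq w g h (2 * t)
    have h2 := e2in_sq w g h (2 * t + 1)
    linear_combination (-1 : ZMod 2) * h1 - h2 -
      (w.e2in g h (2 * t) * w.e2in g h (2 * t + 1)) * two0
  · simp only [Lay.mat, if_neg htu, Lay.cr]
    rw [e2_l_grev hw.good (by omega) (by omega) (by omega),
      e2_l_grev hw.good (by omega) (by omega) (by omega),
      e2_l_grev hw.good (by omega) (by omega) (by omega),
      e2_l_grev hw.good (by omega) (by omega) (by omega)]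
    ring

theorem gv_grev {n : ℕ} {w : Lay} (hw : EL n w) {g h : ℕ} (hgh : g < h) (hh : h ≤ n) {k : ℕ}
    (hk : k ≤ n) {t : ℕ} (ht : t < n + 1) :
    (w.grev g h).gv k t =
      if g < k ∧ k < h then w.gv (g + h - k) t + w.gb g h t else w.gv k t := by
  split_ifs with hk'
  · have key : ∀ x, (if (w.grev g h).pos x ≤ 2 * k then (1 : ZMod 2) else 0) =
        (if w.pos x ≤ 2 * (g + h - k) then 1 else 0) + w.e2in g h x := by
      intro x
      simp only [Lay.grev, Lay.e2in]
      split_ifs
      all_goals first | omega | decide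
    rw [e2_gb w hgh]
    simp only [Lay.gv]
    rw [key, key]
    ring
  · have key : ∀ x, (if (w.grev g h).pos x ≤ 2 * k then (1 : ZMod 2) else 0) =
        (if w.pos x ≤ 2 * k then 1 else 0) := by
      intro x
      simp only [Lay.grev]
      split_ifs
      all_goals first | omega | rfl
    simp only [Lay.gv]
    rw [key, key]

/-- the vectors at nodes are not changed on the chords that are not cut -/
theorem gv_gap_grev {n : ℕ} {w : Lay} (hw : EL n w) {g h : ℕ} (hgh : g < h) (hh : h ≤ n) {x : ℕ}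
    (hx : x < 2 * (n + 1)) {t : ℕ} (ht : t < n + 1) (hb : w.gb g h t = 0) :
    (w.grev g h).gv ((w.grev g h).gap x) t = w.gv (w.gap x) t := by
  have h3 := hw.good.lt x hx
  have h4 := (hw.grev hgh hh).good.lt x hx
  have hb' : w.gv g t = w.gv h t := by
    have h5 : w.gv g t + w.gv h t = 0 := hb
    linear_combination h5 - w.gv h t * two0
  rw [gv_grev hw hgh hh (by simp only [Lay.gap]; omega) ht, hb, add_zero]
  by_cases hin : 2 * g < w.pos x ∧ w.pos x ≤ 2 * h
  · have h5 : (w.grev g h).gap x = g + h - w.gap x := by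
      simp only [Lay.gap, Lay.grev, if_pos hin]
      omega
    have h6 : g ≤ w.gap x ∧ w.gap x ≤ h := by
      simp only [Lay.gap]
      omega
    rw [h5]
    split_ifs with h7
    · congr 1
      omega
    · have h8 : w.gap x = g ∨ w.gap x = h := by omega
      rcases h8 with h8 | h8
      · rw [h8, show g + h - g = h by omega]
        exact hb'.symm
      · rw [h8, show g + h - h = g by omega]
        exact hb'
  · have h5 : (w.grev g h).gap x = w.gap x := by
      simp only [Lay.gap, Lay.grev, if_neg hin]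
    rw [h5, if_neg]
    simp only [Lay.gap]
    omega

theorem e2_le_gap {w : Lay} {L x y : ℕ} (hw : w.Good L) (hx : x < L) (hy : y < L) (hxy : x ≠ y) :
    (if w.pos y ≤ 2 * w.gap x then (1 : ZMod 2) else 0) = 1 + w.l x y := by
  have h1 : w.pos x ≠ w.pos y := fun h' => hxy (hw.inj x y hx hy h')
  have hg : w.gap x = w.pos x / 2 := rfl
  simp only [Lay.l]
  by_cases h2 : w.pos x < w.pos y
  · rw [if_pos h2, if_neg (by omega)]
    decide
  · rw [if_neg h2, if_pos (by omega)]
    decide

theorem e2_even {n : ℕ} {w : Lay} (hw : EL n w) {v : ℕ} (hv : v < n + 1) :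
    (if w.pos (2 * v) ≤ 2 * w.gap (2 * v) then (1 : ZMod 2) else 0) = 1 + bz (w.sg (2 * v)) := by
  rcases Nat.eq_zero_or_pos v with h0 | h0
  · subst h0
    simp [Lay.gap, hw.p0, hw.s0, bz]
  · obtain ⟨hs, k, hk1, hkn, ⟨h1, h2, h3⟩ | ⟨h1, h2, h3⟩⟩ := hw.elt v h0 (by omega)
    · simp only [Lay.gap, h1, h3]
      rw [if_pos (by omega)]
      decide
    · simp only [Lay.gap, h1, h2]
      rw [if_neg (by omega)]
      decide

theorem e2_odd {n : ℕ} {w : Lay} (hw : EL n w) {v : ℕ} (hv : v < n + 1) :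
    (if w.pos (2 * v + 1) ≤ 2 * w.gap (2 * v + 1) then (1 : ZMod 2) else 0) =
      bz (w.sg (2 * v + 1)) := by
  rcases Nat.lt_or_ge v n with h0 | h0
  · obtain ⟨hs, k, hk1, hkn, hk⟩ := hw.elt (v + 1) (by omega) (by omega)
    have e : 2 * (v + 1) - 1 = 2 * v + 1 := by omega
    rw [e] at hs hk
    rw [← hs] at hk
    rcases hk with ⟨h1, h2, h3⟩ | ⟨h1, h2, h3⟩
    · simp only [Lay.gap, h1, h2]
      rw [if_neg (by omega)]
      decide
    · simp only [Lay.gap, h1, h3]
      rw [if_pos (by omega)]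
      decide
  · have e : v = n := by omega
    subst e
    simp only [Lay.gap, hw.p1, hw.s1]
    rw [if_neg (by omega)]
    decide

/-- the reversal between the gaps at the two ends of a chord -/
theorem chord_vec {n : ℕ} {w : Lay} (hw : EL n w) {v : ℕ} (hv : v < n + 1) {t : ℕ}
    (ht : t < n + 1) : w.gb (w.gap (2 * v)) (w.gap (2 * v + 1)) t = w.mat v t := by
  by_cases hvt : v = t
  · subst hvt
    simp only [Lay.gb, Lay.gv, Lay.mat, if_true]
    rw [e2_even hw hv, e2_odd hw hv,
      e2_le_gap hw.good (by omega) (by omega) (by omega : 2 * v ≠ 2 * v + 1),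
      e2_le_gap hw.good (by omega) (by omega) (by omega : 2 * v + 1 ≠ 2 * v),
      Lay.l_flip hw.good (by omega) (by omega) (by omega : 2 * v ≠ 2 * v + 1)]
    linear_combination (2 + w.l (2 * v) (2 * v + 1)) * two0
  · simp only [Lay.gb, Lay.gv, Lay.mat, if_neg hvt, Lay.cr]
    rw [e2_le_gap hw.good (by omega) (by omega) (by omega : 2 * v ≠ 2 * t),
      e2_le_gap hw.good (by omega) (by omega) (by omega : 2 * v ≠ 2 * t + 1),
      e2_le_gap hw.good (by omega) (by omega) (by omega : 2 * v + 1 ≠ 2 * t),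
      e2_le_gap hw.good (by omega) (by omega) (by omega : 2 * v + 1 ≠ 2 * t + 1)]
    linear_combination (2 : ZMod 2) * two0

end SBR
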