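/-
SBR/E3.lean : closed sets of chords consist of gap pairs.
-/
import Pool.Agent.SBR.Elem

namespace SBR

/-- number (mod 2) of nodes of `D` before position `i` -/
private def e3S (w : Lay) (D : Finset ℕ) (i : ℕ) : ZMod 2 :=
  ∑ t ∈ D, ((if w.pos (2 * t) < i then (1 : ZMod 2) else 0) +
      (if w.pos (2 * t + 1) < i then 1 else 0))

private theorem e3_surj {w : Lay} {L : ℕ} (h : w.Good L) {i : ℕ} (hi : i < L) :
    ∃ x, x < L ∧ w.pos x = i := by
  have hinj : Function.Injective (fun x : Fin L => (⟨w.pos x, h.lt x x.2⟩ : Fin L)) := by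
    intro x y hxy
    have : w.pos x = w.pos y := by simpa using hxy
    exact Fin.ext (h.inj x y x.2 y.2 this)
  obtain ⟨x, hx⟩ := (Finite.injective_iff_surjective.1 hinj) ⟨i, hi⟩
  exact ⟨x, x.2, by simpa using hx⟩

private theorem e3S_succ {w : Lay} {m : ℕ} (h : w.Good (2 * m)) {D : Finset ℕ}
    (hD : ∀ t ∈ D, t < m) {x : ℕ} (hx : x < 2 * m) :
    e3S w D (w.pos x + 1) = e3S w D (w.pos x) + (if x / 2 ∈ D then 1 else 0) := by
  have h1 : e3S w D (w.pos x + 1) + e3S w D (w.pos x) = ∑ t ∈ D, if x / 2 = t then 1 else 0 := by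
    unfold e3S
    rw [← Finset.sum_add_distrib]
    apply Finset.sum_congr rfl
    intro t ht
    have ht' := hD t ht
    have e1 : w.pos (2 * t) = w.pos x ↔ 2 * t = x :=
      ⟨fun hh => h.inj _ _ (by omega) hx hh, fun hh => by rw [hh]⟩
    have e2 : w.pos (2 * t + 1) = w.pos x ↔ 2 * t + 1 = x :=
      ⟨fun hh => h.inj _ _ (by omega) hx hh, fun hh => by rw [hh]⟩
    by_cases c1 : 2 * t = x
    · have c2 : w.pos (2 * t) = w.pos x := e1.2 c1
      have c3 : ¬ w.pos (2 * t + 1) = w.pos x := by rw [e2]; omega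
      rw [if_pos (show x / 2 = t by omega), if_pos (show w.pos (2 * t) < w.pos x + 1 by omega),
        if_neg (show ¬ w.pos (2 * t) < w.pos x by omega)]
      by_cases c4 : w.pos (2 * t + 1) < w.pos x
      · rw [if_pos (show w.pos (2 * t + 1) < w.pos x + 1 by omega), if_pos c4]; decide
      · rw [if_neg (show ¬ w.pos (2 * t + 1) < w.pos x + 1 by omega), if_neg c4]; decide
    · have c2 : ¬ w.pos (2 * t) = w.pos x := by rw [e1]; exact c1
      by_cases c5 : 2 * t + 1 = x
      · have c6 : w.pos (2 * t + 1) = w.pos x := e2.2 c5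
        rw [if_pos (show x / 2 = t by omega),
          if_pos (show w.pos (2 * t + 1) < w.pos x + 1 by omega),
          if_neg (show ¬ w.pos (2 * t + 1) < w.pos x by omega)]
        by_cases c4 : w.pos (2 * t) < w.pos x
        · rw [if_pos (show w.pos (2 * t) < w.pos x + 1 by omega), if_pos c4]; decide
        · rw [if_neg (show ¬ w.pos (2 * t) < w.pos x + 1 by omega), if_neg c4]; decide
      · have c6 : ¬ w.pos (2 * t + 1) = w.pos x := by rw [e2]; exact c5
        rw [if_neg (show ¬ x / 2 = t by omega)]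
        have g1 : (w.pos (2 * t) < w.pos x + 1) = (w.pos (2 * t) < w.pos x) := by
          apply propext; omega
        have g2 : (w.pos (2 * t + 1) < w.pos x + 1) = (w.pos (2 * t + 1) < w.pos x) := by
          apply propext; omega
        simp only [g1, g2]
        exact zmod2_two_mul _
  rw [Finset.sum_ite_eq] at h1
  rw [← h1]
  linear_combination (-(e3S w D (w.pos x))) * two0

/-- interleaving sums -/
private theorem e3_sum_l {w : Lay} {D : Finset ℕ} (a : ℕ) :
    ∑ t ∈ D, (w.l a (2 * t) + w.l a (2 * t + 1)) = e3S w D (w.pos a + 1) := by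
  unfold e3S
  apply Finset.sum_congr rfl
  intro t _
  have key : ∀ x, w.l a x = 1 + (if w.pos x < w.pos a + 1 then (1 : ZMod 2) else 0) := by
    intro x
    unfold Lay.l
    by_cases c : w.pos a < w.pos x
    · rw [if_pos c, if_neg (by omega)]; decide
    · rw [if_neg c, if_pos (by omega)]; decide
  rw [key, key]
  linear_combination two0

private theorem e3S_all {w : Lay} {m : ℕ} (h : w.Good (2 * m)) {i : ℕ} (hi : i ≤ 2 * m) :
    e3S w (Finset.range m) i = (i : ZMod 2) := by
  induction i with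
  | zero => simp [e3S]
  | succ i ih =>
    obtain ⟨x, hx, hxi⟩ := e3_surj h (show i < 2 * m by omega)
    have := e3S_succ h (D := Finset.range m) (fun t ht => Finset.mem_range.1 ht) hx
    rw [hxi, ih (by omega), if_pos (Finset.mem_range.2 (by omega))] at this
    rw [this]; push_cast; rfl

private theorem e3_self {w : Lay} {L : ℕ} (h : w.Good L) {a b : ℕ} (ha : a < L) (hb : b < L)
    (hab : a ≠ b) : w.l a a + w.l a b + (w.l b a + w.l b b) = 1 := by
  have h1 : w.l b a = 1 + w.l a b := Lay.l_flip h ha hb hab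
  have h2 : w.l a a = 0 := by unfold Lay.l; rw [if_neg (by omega)]
  have h3 : w.l b b = 0 := by unfold Lay.l; rw [if_neg (by omega)]
  rw [h1, h2, h3]
  linear_combination (w.l a b) * two0

/-- sum of the off-diagonal entries of row `t` over a set -/
private theorem e3_row {w : Lay} {m : ℕ} (h : w.Good (2 * m)) {D : Finset ℕ} {t : ℕ}
    (ht : t < m) :
    ∑ u ∈ D, w.mat t u = e3S w D (w.pos (2 * t) + 1) + e3S w D (w.pos (2 * t + 1) + 1) +
      (if t ∈ D then 1 + w.mat t t else 0) := by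
  have e0 : ∀ u ∈ D, w.mat t u = (w.l (2 * t) (2 * u) + w.l (2 * t) (2 * u + 1)) +
      (w.l (2 * t + 1) (2 * u) + w.l (2 * t + 1) (2 * u + 1)) +
      (if t = u then 1 + w.mat t t else 0) := by
    intro u _
    by_cases c : t = u
    · subst c
      rw [if_pos rfl]
      have := e3_self h (a := 2 * t) (b := 2 * t + 1) (by omega) (by omega) (by omega)
      rw [this]
      linear_combination (-1 : ZMod 2) * two0
    · rw [if_neg c, Lay.mat, if_neg c, Lay.cr]
      ring
  rw [Finset.sum_congr rfl e0, Finset.sum_add_distrib, Finset.sum_add_distrib, e3_sum_l,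
    e3_sum_l, Finset.sum_ite_eq]

/-- parities of positions -/
private theorem e3_par0 {n : ℕ} {w : Lay} (hw : EL n w) {t : ℕ} (ht : t < n + 1) :
    ((w.pos (2 * t) : ℕ) : ZMod 2) = bz (w.sg (2 * t)) := by
  rcases Nat.eq_zero_or_pos t with rfl | h0
  · rw [Nat.mul_zero, hw.p0, hw.s0]; rfl
  · obtain ⟨_, k, hk1, hk2, h | h⟩ := hw.elt t h0 (by omega)
    · obtain ⟨h1, _, h3⟩ := h
      rw [h3, h1]
      simp [bz]
      left; rfl
    · obtain ⟨h1, h2, _⟩ := h
      rw [h2, h1]
      have : 2 * k - 1 = 2 * (k - 1) + 1 := by omega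
      rw [this]
      simp [bz]
      left; rfl

private theorem e3_par1 {n : ℕ} {w : Lay} (hw : EL n w) {t : ℕ} (ht : t < n + 1) :
    ((w.pos (2 * t + 1) : ℕ) : ZMod 2) = 1 + bz (w.sg (2 * t + 1)) := by
  rcases Nat.lt_or_ge t n with h0 | h0
  · obtain ⟨hs, k, hk1, hk2, h | h⟩ := hw.elt (t + 1) (by omega) (by omega)
    · obtain ⟨h1, h2, _⟩ := h
      have e : 2 * (t + 1) - 1 = 2 * t + 1 := by omega
      rw [e] at h2 hs
      rw [h2, hs, h1]
      have : 2 * k - 1 = 2 * (k - 1) + 1 := by omega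
      rw [this]
      simp [bz]
      left; rfl
    · obtain ⟨h1, _, h3⟩ := h
      have e : 2 * (t + 1) - 1 = 2 * t + 1 := by omega
      rw [e] at h3 hs
      rw [h3, hs, h1]
      push_cast
      have hb : bz false = 1 := rfl
      rw [hb]
      linear_combination ((k : ZMod 2) - 1) * two0
  · have : t = n := by omega
    subst this
    rw [hw.p1, hw.s1]
    simp [bz]
    left; rfl

private theorem e3_diag {n : ℕ} {w : Lay} (hw : EL n w) {t : ℕ} (ht : t < n + 1) :
    w.mat t t = ((w.pos (2 * t) : ℕ) : ZMod 2) + ((w.pos (2 * t + 1) : ℕ) : ZMod 2) + 1 := by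
  rw [e3_par0 hw ht, e3_par1 hw ht, Lay.mat, if_pos rfl]
  linear_combination (-1 : ZMod 2) * two0

theorem rowsum {n : ℕ} {w : Lay} (hw : EL n w) {t : ℕ} (ht : t < n + 1) :
    ∑ u ∈ Finset.range (n + 1), w.mat t u = 0 := by
  have hg := hw.good
  have h1 := hg.lt (2 * t) (by omega)
  have h2 := hg.lt (2 * t + 1) (by omega)
  rw [e3_row hg ht, if_pos (Finset.mem_range.2 ht), e3S_all hg (by omega), e3S_all hg (by omega),
    e3_diag hw ht]
  push_cast
  linear_combination (((w.pos (2 * t) : ℕ) : ZMod 2) + ((w.pos (2 * t + 1) : ℕ) : ZMod 2) + 2) *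
    two0

/-- value in the middle of the element at node `x` -/
private def e3E (w : Lay) (D : Finset ℕ) (x : ℕ) : ZMod 2 := e3S w D (2 * ((w.pos x + 1) / 2))

private theorem e3E_eq {w : Lay} {m : ℕ} (h : w.Good (2 * m)) {D : Finset ℕ}
    (hD : ∀ t ∈ D, t < m) {x : ℕ} (hx : x < 2 * m) :
    e3E w D x = e3S w D (w.pos x + 1) +
      (if x / 2 ∈ D then 1 else 0) * (1 + ((w.pos x : ℕ) : ZMod 2)) := by
  have h1 := e3S_succ h hD hx
  unfold e3E
  rcases Nat.even_or_odd' (w.pos x) with ⟨k, hk | hk⟩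
  · have e1 : 2 * ((w.pos x + 1) / 2) = w.pos x := by omega
    have e2 : ((w.pos x : ℕ) : ZMod 2) = 0 := by
      rw [hk]; push_cast; rw [two0, zero_mul]
    rw [e1, h1, e2]
    linear_combination (-(if x / 2 ∈ D then (1 : ZMod 2) else 0)) * two0
  · have e1 : 2 * ((w.pos x + 1) / 2) = w.pos x + 1 := by omega
    have e2 : ((w.pos x : ℕ) : ZMod 2) = 1 := by
      rw [hk]; push_cast; rw [two0, zero_mul, zero_add]
    rw [e1, e2]
    linear_combination (-(if x / 2 ∈ D then (1 : ZMod 2) else 0)) * two0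

private theorem e3_chord {n : ℕ} {w : Lay} (hw : EL n w) {D : Finset ℕ} (hD : ∀ t ∈ D, t < n + 1)
    (hclo : ∀ t ∈ D, ∀ u, u < n + 1 → u ∉ D → w.mat t u = 0) {t : ℕ} (ht : t < n + 1) :
    e3E w D (2 * t + 1) = e3E w D (2 * t) := by
  have hg := hw.good
  rw [e3E_eq hg hD (show 2 * t < 2 * (n + 1) by omega),
    e3E_eq hg hD (show 2 * t + 1 < 2 * (n + 1) by omega)]
  have d1 : 2 * t / 2 = t := by omega
  have d2 : (2 * t + 1) / 2 = t := by omega
  rw [d1, d2]
  have hr := e3_row hg (D := D) ht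
  by_cases c : t ∈ D
  · -- all nonzero entries of the row lie in `D`
    have h1 : ∑ u ∈ D, w.mat t u = 0 := by
      rw [← rowsum hw ht]
      apply Finset.sum_subset
      · intro u hu; exact Finset.mem_range.2 (hD u hu)
      · intro u hu hu'; exact hclo t c u (Finset.mem_range.1 hu) hu'
    rw [h1, if_pos c, e3_diag hw ht] at hr
    simp only [if_pos c]
    linear_combination -hr - (e3S w D (w.pos (2 * t) + 1) + 1 +
      ((w.pos (2 * t) : ℕ) : ZMod 2)) * two0
  · have h1 : ∑ u ∈ D, w.mat t u = 0 := by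
      apply Finset.sum_eq_zero
      intro u hu
      rw [Lay.mat_comm hg (by have := hD u hu; omega) (by omega)]
      exact hclo u hu t ht c
    rw [h1, if_neg c] at hr
    simp only [if_neg c]
    linear_combination -hr - (e3S w D (w.pos (2 * t) + 1)) * two0

private theorem e3_zero {n : ℕ} {w : Lay} (hw : EL n w) {D : Finset ℕ} (hD : ∀ t ∈ D, t < n + 1)
    (hclo : ∀ t ∈ D, ∀ u, u < n + 1 → u ∉ D → w.mat t u = 0) {t : ℕ} (ht : t < n + 1) :
    e3E w D (2 * t) = 0 := by
  induction t with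
  | zero =>
    unfold e3E
    rw [Nat.mul_zero, hw.p0]
    simp [e3S]
  | succ t ih =>
    have h1 := ih (by omega)
    have h2 := e3_chord hw hD hclo (t := t) (by omega)
    rw [← h1, ← h2]
    obtain ⟨_, k, hk1, hk2, h | h⟩ := hw.elt (t + 1) (by omega) (by omega)
    · obtain ⟨_, h3, h4⟩ := h
      have e : 2 * (t + 1) - 1 = 2 * t + 1 := by omega
      rw [e] at h3
      unfold e3E
      rw [h3, h4]
      congr 1
      omega
    · obtain ⟨_, h3, h4⟩ := h
      have e : 2 * (t + 1) - 1 = 2 * t + 1 := by omega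
      rw [e] at h4
      unfold e3E
      rw [h3, h4]
      congr 1
      omega

/-- a closed set of chords has an even number of nodes before every element -/
theorem gap_pair {n : ℕ} {w : Lay} (hw : EL n w) {D : Finset ℕ} (hD : ∀ t ∈ D, t < n + 1)
    (hclo : ∀ t ∈ D, ∀ u, u < n + 1 → u ∉ D → w.mat t u = 0) {k : ℕ} (hk : k ≤ n + 1) :
    ∑ t ∈ D, ((if w.pos (2 * t) < 2 * k then (1 : ZMod 2) else 0) +
      (if w.pos (2 * t + 1) < 2 * k then 1 else 0)) = 0 := by
  have hg := hw.good
  change e3S w D (2 * k) = 0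
  -- a node at position `2k - 1`
  rcases Nat.eq_zero_or_pos k with rfl | h0
  · simp [e3S]
  · obtain ⟨x, hx, hxk⟩ := e3_surj hg (show 2 * k - 1 < 2 * (n + 1) by omega)
    have h1 : e3E w D x = e3S w D (2 * k) := by
      unfold e3E
      rw [hxk]
      congr 1
      omega
    rw [← h1]
    rcases Nat.even_or_odd' x with ⟨t, ht | ht⟩
    · rw [ht]; exact e3_zero hw hD hclo (by omega)
    · rw [ht, e3_chord hw hD hclo (by omega)]; exact e3_zero hw hD hclo (by omega)

theorem gap_mem {n : ℕ} {w : Lay} (hw : EL n w) {D : Finset ℕ} (hD : ∀ t ∈ D, t < n + 1)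
    (hclo : ∀ t ∈ D, ∀ u, u < n + 1 → u ∉ D → w.mat t u = 0) {x y : ℕ} (hx : x < 2 * (n + 1))
    (hy : y < 2 * (n + 1)) (hxy : w.gap x = w.gap y) : x / 2 ∈ D ↔ y / 2 ∈ D := by
  have hg := hw.good
  have hpx := hg.lt x hx
  have hpy := hg.lt y hy
  unfold Lay.gap at hxy
  -- the key statement for positions `2k`, `2k+1`
  have key : ∀ a b, a < 2 * (n + 1) → b < 2 * (n + 1) → w.pos a % 2 = 0 →
      w.pos b = w.pos a + 1 → (a / 2 ∈ D ↔ b / 2 ∈ D) := by
    intro a b ha hb ha2 hab
    have hpb := hg.lt b hb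
    have h1 := e3S_succ hg hD ha
    have h2 := e3S_succ hg hD hb
    have g1 : e3S w D (w.pos a) = 0 := by
      have := gap_pair hw hD hclo (k := w.pos a / 2) (by omega)
      have e : 2 * (w.pos a / 2) = w.pos a := by omega
      rw [e] at this
      exact this
    have g2 : e3S w D (w.pos b + 1) = 0 := by
      have := gap_pair hw hD hclo (k := (w.pos b + 1) / 2) (by omega)
      have e : 2 * ((w.pos b + 1) / 2) = w.pos b + 1 := by omega
      rw [e] at this
      exact this
    rw [g2, hab, h1, g1] at h2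
    by_cases c1 : a / 2 ∈ D <;> by_cases c2 : b / 2 ∈ D
    · simp [c1, c2]
    · rw [if_pos c1, if_neg c2] at h2; exact absurd h2 (by decide)
    · rw [if_neg c1, if_pos c2] at h2; exact absurd h2 (by decide)
    · simp [c1, c2]
  rcases Nat.lt_trichotomy (w.pos x) (w.pos y) with c | c | c
  · exact key x y hx hy (by omega) (by omega)
  · rw [hg.inj x y hx hy c]
  · exact (key y x hy hx (by omega) (by omega)).symm

private theorem e3_gv {n : ℕ} {w : Lay} (hw : EL n w) {D : Finset ℕ} (hD : ∀ t ∈ D, t < n + 1)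
    (hclo : ∀ t ∈ D, ∀ u, u < n + 1 → u ∉ D → w.mat t u = 0) {x : ℕ} (hx : x < 2 * (n + 1)) :
    ∑ t ∈ D, w.gv (w.gap x) t = if x / 2 ∈ D then 1 else 0 := by
  have hg := hw.good
  have hpx := hg.lt x hx
  have h1 : ∑ t ∈ D, w.gv (w.gap x) t = e3S w D (2 * w.gap x + 1) := by
    unfold e3S Lay.gv
    apply Finset.sum_congr rfl
    intro t _
    have g1 : (w.pos (2 * t) ≤ 2 * w.gap x) = (w.pos (2 * t) < 2 * w.gap x + 1) := by
      apply propext; omega
    have g2 : (w.pos (2 * t + 1) ≤ 2 * w.gap x) = (w.pos (2 * t + 1) < 2 * w.gap x + 1) := by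
      apply propext; omega
    simp only [g1, g2]
  rw [h1]
  have hgx : w.gap x = w.pos x / 2 := rfl
  obtain ⟨a, ha, hax⟩ := e3_surj hg (show 2 * w.gap x < 2 * (n + 1) by omega)
  have h2 := e3S_succ hg hD ha
  rw [hax] at h2
  have g1 : e3S w D (2 * w.gap x) = 0 := gap_pair hw hD hclo (k := w.gap x) (by omega)
  rw [h2, g1, zero_add]
  have h3 : a / 2 ∈ D ↔ x / 2 ∈ D := by
    apply gap_mem hw hD hclo ha hx
    unfold Lay.gap
    rw [hax]
    omega
  by_cases c : a / 2 ∈ D
  · rw [if_pos c, if_pos (h3.1 c)]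
  · rw [if_neg c, if_neg (fun h => c (h3.2 h))]

/-- scalar product of the vector of a pair of gaps with a closed set -/
theorem gb_closed {n : ℕ} {w : Lay} (hw : EL n w) {D : Finset ℕ} (hD : ∀ t ∈ D, t < n + 1)
    (hclo : ∀ t ∈ D, ∀ u, u < n + 1 → u ∉ D → w.mat t u = 0) {x y : ℕ} (hx : x < 2 * (n + 1))
    (hy : y < 2 * (n + 1)) :
    ∑ t ∈ D, w.gb (w.gap x) (w.gap y) t =
      (if x / 2 ∈ D then 1 else 0) + (if y / 2 ∈ D then 1 else 0) := by
  simp only [Lay.gb]
  rw [Finset.sum_add_distrib, e3_gv hw hD hclo hx, e3_gv hw hD hclo hy]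

end SBR
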