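/-
SBR/E4.lean : the lower bound for the number of reversals.
-/
import Pool.Agent.SBR.E1
import Pool.Agent.SBR.E2
import Pool.Agent.SBR.E3

namespace SBR

/-- the uncut unoriented components -/
private theorem e4_card_le {m : ℕ} {w w' : Lay} {F F' : List (ℕ × ℕ)}
    (h : ∀ C, UComp m w C → (∀ f ∈ F, ∀ t ∈ C, w.gb f.1 f.2 t = 0) →
      UComp m w' C ∧ ∀ f ∈ F', ∀ t ∈ C, w'.gb f.1 f.2 t = 0) (hl : F.length ≤ F'.length) :
    gcost m w F ≤ gcost m w' F' := by
  classical
  unfold gcost
  refine Nat.add_le_add (by omega) (Finset.card_le_card ?_)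
  intro C hC
  rw [Finset.mem_filter] at hC ⊢
  exact ⟨hC.1, h C hC.2.1 hC.2.2⟩

private theorem e4_card_le2 {m : ℕ} {w w' : Lay} {F F' : List (ℕ × ℕ)}
    (h : ∀ C, UComp m w C → (∀ f ∈ F, ∀ t ∈ C, w.gb f.1 f.2 t = 0) →
      UComp m w' C ∧ ∀ f ∈ F', ∀ t ∈ C, w'.gb f.1 f.2 t = 0) (hl : F.length ≤ F'.length + 1) :
    gcost m w F ≤ gcost m w' F' + 2 := by
  classical
  unfold gcost
  have h1 : ((Finset.range m).powerset.filter
      (fun C => UComp m w C ∧ ∀ f ∈ F, ∀ t ∈ C, w.gb f.1 f.2 t = 0)).card ≤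
      ((Finset.range m).powerset.filter
        (fun C => UComp m w' C ∧ ∀ f ∈ F', ∀ t ∈ C, w'.gb f.1 f.2 t = 0)).card := by
    refine Finset.card_le_card ?_
    intro C hC
    rw [Finset.mem_filter] at hC ⊢
    exact ⟨hC.1, h C hC.2.1 hC.2.2⟩
  omega

private theorem e4_card_le1 {m : ℕ} {w w' : Lay} {F F' : List (ℕ × ℕ)} (D : Finset ℕ)
    (h : ∀ C, C ≠ D → UComp m w C → (∀ f ∈ F, ∀ t ∈ C, w.gb f.1 f.2 t = 0) →
      UComp m w' C ∧ ∀ f ∈ F', ∀ t ∈ C, w'.gb f.1 f.2 t = 0) (hl : F.length ≤ F'.length) :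
    gcost m w F ≤ gcost m w' F' + 1 := by
  classical
  unfold gcost
  have h1 : ((Finset.range m).powerset.filter
      (fun C => UComp m w C ∧ ∀ f ∈ F, ∀ t ∈ C, w.gb f.1 f.2 t = 0)).card ≤
      ((Finset.range m).powerset.filter
        (fun C => UComp m w' C ∧ ∀ f ∈ F', ∀ t ∈ C, w'.gb f.1 f.2 t = 0)).card + 1 := by
    refine le_trans (Finset.card_le_card (t := insert D ((Finset.range m).powerset.filter
        (fun C => UComp m w' C ∧ ∀ f ∈ F', ∀ t ∈ C, w'.gb f.1 f.2 t = 0))) ?_)
      (Finset.card_insert_le _ _)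
    intro C hC
    rw [Finset.mem_insert]
    by_cases hCD : C = D
    · exact Or.inl hCD
    · right
      rw [Finset.mem_filter] at hC ⊢
      exact ⟨hC.1, h C hCD hC.2.1 hC.2.2⟩
  omega

/-- a component on which `b` vanishes remains -/
private theorem e4_ucomp {m : ℕ} {w w' : Lay} {b : ℕ → ZMod 2}
    (hm : ∀ t, t < m → ∀ u, u < m → w'.mat t u = w.mat t u + b t * b u) {C : Finset ℕ}
    (h : UComp m w C) (hb : ∀ t ∈ C, b t = 0) : UComp m w' C := by
  refine ⟨h.sub, h.two, ?_, ?_, ?_⟩
  · intro t ht u hu huC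
    rw [hm t (h.sub t ht) u hu, h.clo t ht u hu huC, hb t ht]; ring
  · intro t ht u hu
    have h1 := h.con t ht u hu
    have h2 : Adj w C ≤ Adj w' C := by
      rintro a c ⟨ha, hc, hac, hne⟩
      refine ⟨ha, hc, hac, ?_⟩
      rw [hm a (h.sub a ha) c (h.sub c hc), hb a ha]
      simpa using hne
    exact Relation.ReflTransGen.mono h2 _ _ h1
  · intro t ht
    rw [hm t (h.sub t ht) t (h.sub t ht), h.uno t ht, hb t ht]; ring

/-- transport of gaps -/
private def e4_tau (g h k : ℕ) : ℕ := if g < k ∧ k < h then g + h - k else k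

private theorem e4_tau_le {n g h k : ℕ} (hh : h ≤ n) (hk : k ≤ n) : e4_tau g h k ≤ n := by
  unfold e4_tau; split_ifs <;> omega

private theorem e4_gv {n : ℕ} {w : Lay} (hw : EL n w) {g h : ℕ} (hgh : g < h) (hh : h ≤ n) {k : ℕ}
    (hk : k ≤ n) {t : ℕ} (ht : t < n + 1) (hb : w.gb g h t = 0) :
    (w.grev g h).gv k t = w.gv (e4_tau g h k) t := by
  rw [gv_grev hw hgh hh hk ht, hb]
  unfold e4_tau
  split_ifs <;> simp

private theorem e4_node {L : ℕ} {w : Lay} (hg : w.Good L) {k : ℕ} (hk : k < L) :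
    ∃ x, x < L ∧ w.pos x = k := by
  have h1 : (Finset.range L).image w.pos = Finset.range L := by
    apply Finset.eq_of_subset_of_card_le
    · intro y hy
      rw [Finset.mem_image] at hy
      obtain ⟨x, hx, rfl⟩ := hy
      rw [Finset.mem_range] at hx ⊢
      exact hg.lt x hx
    · rw [Finset.card_image_of_injOn]
      intro x hx y hy hxy
      rw [Finset.coe_range, Set.mem_Iio] at hx hy
      exact hg.inj x y hx hy hxy
  have h2 : k ∈ (Finset.range L).image w.pos := by rw [h1]; exact Finset.mem_range.2 hk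
  rw [Finset.mem_image] at h2
  obtain ⟨x, hx, h3⟩ := h2
  exact ⟨x, Finset.mem_range.1 hx, h3⟩

/-- side of a position with respect to the chord `t` -/
private def e4_s (w : Lay) (t x : ℕ) : ZMod 2 := w.l (2 * t) x + w.l (2 * t + 1) x

private theorem e4_s_mat {w : Lay} {t u : ℕ} (htu : t ≠ u) :
    w.mat t u = e4_s w t (2 * u) + e4_s w t (2 * u + 1) := by
  simp only [Lay.mat, if_neg htu, Lay.cr, e4_s]; ring

/-- the chord `t` does not separate crossing chords -/
private theorem e4_cross {m : ℕ} {w : Lay} (hg : w.Good (2 * m)) {t u v : ℕ} (ht : t < m)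
    (hu : u < m) (hv : v < m) (htu : t ≠ u) (htv : t ≠ v) (huv : u ≠ v) (h : w.mat u v ≠ 0)
    (h1 : w.mat t u = 0) (h2 : w.mat t v = 0) : e4_s w t (2 * u) = e4_s w t (2 * v) := by
  have ne : ∀ x y, x < 2 * m → y < 2 * m → x ≠ y → w.pos x ≠ w.pos y :=
    fun x y hx hy hxy h' => hxy (hg.inj x y hx hy h')
  have n1 := ne (2 * t) (2 * u) (by omega) (by omega) (by omega)
  have n2 := ne (2 * t) (2 * u + 1) (by omega) (by omega) (by omega)
  have n3 := ne (2 * t + 1) (2 * u) (by omega) (by omega) (by omega)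
  have n4 := ne (2 * t + 1) (2 * u + 1) (by omega) (by omega) (by omega)
  have n5 := ne (2 * t) (2 * v) (by omega) (by omega) (by omega)
  have n6 := ne (2 * t) (2 * v + 1) (by omega) (by omega) (by omega)
  have n7 := ne (2 * t + 1) (2 * v) (by omega) (by omega) (by omega)
  have n8 := ne (2 * t + 1) (2 * v + 1) (by omega) (by omega) (by omega)
  rw [e4_s_mat htu] at h1
  rw [e4_s_mat htv] at h2
  rw [e4_s_mat huv] at h
  have k1 := z2_b _ _ h1
  have k2 := z2_b _ _ h2
  by_contra hcon
  apply h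
  -- one of the two chords is inside, the other one outside
  have two1 : (1 : ZMod 2) + 1 = 0 := by decide
  have in_iff : ∀ x, e4_s w t x = 1 ↔ ((w.pos (2 * t) < w.pos x ∧ ¬ w.pos (2 * t + 1) < w.pos x) ∨
      (¬ w.pos (2 * t) < w.pos x ∧ w.pos (2 * t + 1) < w.pos x)) := by
    intro x
    simp only [e4_s, Lay.l]
    by_cases c1 : w.pos (2 * t) < w.pos x <;> by_cases c2 : w.pos (2 * t + 1) < w.pos x <;>
      simp [c1, c2, two1]
  have out_iff : ∀ x, e4_s w t x = 0 ↔ ((w.pos (2 * t) < w.pos x ∧ w.pos (2 * t + 1) < w.pos x) ∨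
      (¬ w.pos (2 * t) < w.pos x ∧ ¬ w.pos (2 * t + 1) < w.pos x)) := by
    intro x
    simp only [e4_s, Lay.l]
    by_cases c1 : w.pos (2 * t) < w.pos x <;> by_cases c2 : w.pos (2 * t + 1) < w.pos x <;>
      simp [c1, c2, two1]
  have z01 : ∀ a : ZMod 2, a = 0 ∨ a = 1 := by decide
  have l_eq : ∀ x y z, (w.pos x < w.pos z ↔ w.pos y < w.pos z) → w.l x z = w.l y z := by
    intro x y z hxyz
    simp only [Lay.l, hxyz]
  rcases z01 (e4_s w t (2 * u)) with a | a <;> rcases z01 (e4_s w t (2 * v)) with c | c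
  · exact absurd (a.trans c.symm) hcon
  · -- `u` outside, `v` inside
    have a' : e4_s w t (2 * u + 1) = 0 := by rw [← k1]; exact a
    have c' : e4_s w t (2 * v + 1) = 1 := by rw [← k2]; exact c
    rw [out_iff] at a a'
    rw [in_iff] at c c'
    have e1 : w.l (2 * u) (2 * v) = w.l (2 * u) (2 * v + 1) := by
      simp only [Lay.l]
      congr 1
      apply propext
      omega
    have e2 : w.l (2 * u + 1) (2 * v) = w.l (2 * u + 1) (2 * v + 1) := by
      simp only [Lay.l]
      congr 1
      apply propext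
      omega
    simp only [e4_s]
    rw [e1, e2]
    exact zmod2_two_mul _
  · -- `u` inside, `v` outside
    have a' : e4_s w t (2 * u + 1) = 1 := by rw [← k1]; exact a
    have c' : e4_s w t (2 * v + 1) = 0 := by rw [← k2]; exact c
    rw [in_iff] at a a'
    rw [out_iff] at c c'
    have e1 : w.l (2 * u) (2 * v) = w.l (2 * u + 1) (2 * v) := by
      simp only [Lay.l]
      congr 1
      apply propext
      omega
    have e2 : w.l (2 * u) (2 * v + 1) = w.l (2 * u + 1) (2 * v + 1) := by
      simp only [Lay.l]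
      congr 1
      apply propext
      omega
    simp only [e4_s]
    rw [e1, e2]
    rw [zmod2_two_mul, zmod2_two_mul, add_zero]
  · exact absurd (a.trans c.symm) hcon

private theorem e4_adj_symm {m : ℕ} {w : Lay} (hg : w.Good (2 * m)) {X : Finset ℕ}
    (hX : ∀ t ∈ X, t < m) {a b : ℕ} (h : Adj w X a b) : Adj w X b a := by
  refine ⟨h.2.1, h.1, Ne.symm h.2.2.1, ?_⟩
  rw [Lay.mat_comm hg (t := a) (u := b) (by have := hX a h.1; omega) (by have := hX b h.2.1; omega)]
  exact h.2.2.2

/-- the component of `x` -/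
private noncomputable def e4_D (m : ℕ) (w : Lay) (x : ℕ) : Finset ℕ := by
  classical
  exact (Finset.range m).filter (fun t => Cn w (Finset.range m) x t)

private theorem e4_D_mem {m : ℕ} {w : Lay} {x t : ℕ} :
    t ∈ e4_D m w x ↔ t < m ∧ Cn w (Finset.range m) x t := by
  classical
  unfold e4_D
  rw [Finset.mem_filter, Finset.mem_range]

private theorem e4_D_clo {m : ℕ} {w : Lay} {x : ℕ} :
    ∀ t ∈ e4_D m w x, ∀ u, u < m → u ∉ e4_D m w x → w.mat t u = 0 := by
  intro t ht u hu huD
  by_contra hne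
  rw [e4_D_mem] at ht
  apply huD
  rw [e4_D_mem]
  refine ⟨hu, Relation.ReflTransGen.tail ht.2 ⟨Finset.mem_range.2 ht.1, Finset.mem_range.2 hu, ?_,
    hne⟩⟩
  rintro rfl
  exact huD (e4_D_mem.2 ht)

/-- other components are disjoint from `D` -/
private theorem e4_D_disj {m : ℕ} {w : Lay} (hg : w.Good (2 * m)) {x : ℕ} {C : Finset ℕ}
    (hC : UComp m w C) (hne : C ≠ e4_D m w x) : ∀ t ∈ C, t ∉ e4_D m w x := by
  intro t ht htD
  apply hne
  have htD' := e4_D_mem.1 htD
  have fwd : ∀ a b, Cn w (Finset.range m) a b → a ∈ C → b ∈ C := by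
    intro a b hab haC
    induction hab with
    | refl => exact haC
    | tail _ h2 ih =>
      by_contra hcon
      exact h2.2.2.2 (hC.clo _ ih _ (Finset.mem_range.1 h2.2.1) hcon)
  have bwd : ∀ a b, Cn w (Finset.range m) a b → b ∈ C → a ∈ C := by
    intro a b hab hbC
    induction hab with
    | refl => exact hbC
    | tail _ h2 ih =>
      apply ih
      have h3 := e4_adj_symm hg (fun t ht => Finset.mem_range.1 ht) h2
      by_contra hcon
      exact h3.2.2.2 (hC.clo _ hbC _ (Finset.mem_range.1 h3.2.1) hcon)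
  ext u
  constructor
  · intro huC
    rw [e4_D_mem]
    refine ⟨hC.sub u huC, Relation.ReflTransGen.trans htD'.2 ?_⟩
    have h2 : Adj w C ≤ Adj w (Finset.range m) := by
      rintro a c ⟨ha, hc, hac, hne'⟩
      exact ⟨Finset.mem_range.2 (hC.sub a ha), Finset.mem_range.2 (hC.sub c hc), hac, hne'⟩
    exact Relation.ReflTransGen.mono h2 _ _ (hC.con t ht u huC)
  · intro huD
    exact fwd x u (e4_D_mem.1 huD).2 (bwd x t htD'.2 ht)

/-- if both gaps are in `D` the vector vanishes outside `D` -/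
private theorem e4_caseB {m : ℕ} {w : Lay} (hg : w.Good (2 * m)) {x y : ℕ} (hx : x < 2 * m)
    (hy : y < 2 * m) (hyD : y / 2 ∈ e4_D m w (x / 2)) {g h : ℕ} (hxg : w.pos x = 2 * g)
    (hyh : w.pos y = 2 * h) : ∀ t, t < m → t ∉ e4_D m w (x / 2) → w.gb g h t = 0 := by
  intro t ht htD
  -- all nodes of `D` are on the same side
  have hz : ∀ u ∈ e4_D m w (x / 2), w.mat t u = 0 := by
    intro u hu
    rw [Lay.mat_comm hg (t := u) (u := t) (by have := (e4_D_mem.1 hu).1; omega) (by omega)]
    exact e4_D_clo u hu t ht htD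
  have htu : ∀ u ∈ e4_D m w (x / 2), t ≠ u := by
    rintro u hu rfl; exact htD hu
  have side : ∀ u, Cn w (Finset.range m) (x / 2) u →
      e4_s w t (2 * (x / 2)) = e4_s w t (2 * u) := by
    intro u hu
    induction hu with
    | refl => rfl
    | @tail a b h1 h2 ih =>
      have haD : a ∈ e4_D m w (x / 2) := e4_D_mem.2 ⟨Finset.mem_range.1 h2.1, h1⟩
      have hbD : b ∈ e4_D m w (x / 2) := e4_D_mem.2 ⟨Finset.mem_range.1 h2.2.1, h1.tail h2⟩
      rw [ih]
      exact e4_cross hg ht (Finset.mem_range.1 h2.1) (Finset.mem_range.1 h2.2.1) (htu a haD)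
        (htu b hbD) h2.2.2.1 h2.2.2.2 (hz a haD) (hz b hbD)
  have hxD : x / 2 ∈ e4_D m w (x / 2) :=
    e4_D_mem.2 ⟨by omega, Relation.ReflTransGen.refl⟩
  -- both ends of a chord are on the same side
  have ends : ∀ z, z / 2 ∈ e4_D m w (x / 2) → e4_s w t z = e4_s w t (2 * (z / 2)) := by
    intro z hzD
    have h1 := hz _ hzD
    rw [e4_s_mat (htu _ hzD)] at h1
    have h2 := z2_b _ _ h1
    rcases Nat.even_or_odd z with hev | hodd
    · have : 2 * (z / 2) = z := by obtain ⟨k, hk⟩ := hev; omega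
      rw [this]
    · have : z = 2 * (z / 2) + 1 := by obtain ⟨k, hk⟩ := hodd; omega
      rw [h2, ← this]
  have key : e4_s w t x = e4_s w t y := by
    rw [ends x hxD, ends y hyD]
    exact side _ (e4_D_mem.1 hyD).2
  have gve : ∀ z k, z < 2 * m → w.pos z = 2 * k → z / 2 ∈ e4_D m w (x / 2) →
      w.gv k t = e4_s w t z := by
    intro z k hz2 hzk hzD
    have hne := htu _ hzD
    have p1 : w.pos (2 * t) ≠ w.pos z := fun h' => by
      have := hg.inj _ _ (by omega) hz2 h'; omega
    have p2 : w.pos (2 * t + 1) ≠ w.pos z := fun h' => by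
      have := hg.inj _ _ (by omega) hz2 h'; omega
    simp only [Lay.gv, e4_s, Lay.l]
    rw [hzk] at p1 p2 ⊢
    congr 1
    · congr 1
      apply propext; omega
    · congr 1
      apply propext; omega
  simp only [Lay.gb]
  rw [gve x g hx hxg hxD, gve y h hy hyh hyD, key]
  exact zmod2_two_mul _

/-- rank plus cost is a lower bound for the number of reversals -/
theorem lower_bound {n : ℕ} {w : Lay} (hw : EL n w) (rs : List (ℕ × ℕ))
    (hrs : ∀ r ∈ rs, r.1 < r.2 ∧ r.2 ≤ n)
    (hfin : ∀ t, t < n + 1 → ∀ u, u < n + 1 →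
      (rs.foldl (fun w r => w.grev r.1 r.2) w).mat t u = 0) :
    ∃ F : List (ℕ × ℕ), (∀ f ∈ F, f.1 ≤ n ∧ f.2 ≤ n) ∧
      mrk (n + 1) w.mat + gcost (n + 1) w F ≤ rs.length := by
  classical
  induction rs generalizing w with
  | nil =>
    simp only [List.foldl_nil] at hfin
    refine ⟨[], by simp, ?_⟩
    rw [mrk_zero hfin]
    have h0 : (Finset.range (n + 1)).powerset.filter
        (fun C => UComp (n + 1) w C ∧ ∀ f ∈ ([] : List (ℕ × ℕ)), ∀ t ∈ C, w.gb f.1 f.2 t = 0) =
        ∅ := by
      rw [Finset.filter_eq_empty_iff]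
      rintro C - ⟨hC, -⟩
      obtain ⟨a, ha, b, hb, hab⟩ := Finset.one_lt_card.1 hC.two
      have h1 := hC.con a ha b hb
      rcases Relation.ReflTransGen.cases_head h1 with h2 | ⟨c, h2, -⟩
      · exact hab h2
      · exact h2.2.2.2 (hfin a (hC.sub a ha) c (hC.sub c h2.2.1))
    simp only [gcost]
    rw [h0]
    simp
  | cons r rs ih =>
    obtain ⟨g, h⟩ := r
    obtain ⟨hgh, hh⟩ := hrs (g, h) (by simp)
    simp only at hgh hh
    have hw' : EL n (w.grev g h) := EL.grev hw hgh hh
    obtain ⟨F', hF', hle⟩ := ih hw' (fun r hr => hrs r (List.mem_cons_of_mem _ hr)) hfin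
    have hg := hw.good
    have hm : ∀ t, t < n + 1 → ∀ u, u < n + 1 →
        (w.grev g h).mat t u = w.mat t u + w.gb g h t * w.gb g h u :=
      fun t ht u hu => mat_grev hw hgh hh ht hu
    have hs : ∀ i, i < n + 1 → ∀ j, j < n + 1 → w.mat i j = w.mat j i := fun i hi j hj =>
      Lay.mat_comm hg (t := j) (u := i) (by omega) (by omega)
    have hrk : mrk (n + 1) (w.grev g h).mat =
        mrk (n + 1) (fun t u => w.mat t u + w.gb g h t * w.gb g h u) :=
      mrk_congr (fun i hi j hj => hm i hi j hj)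
    -- transported pairs of gaps
    set F0 : List (ℕ × ℕ) := F'.map (fun f => (e4_tau g h f.1, e4_tau g h f.2)) with hF0
    have hF0l : F0.length = F'.length := by rw [hF0, List.length_map]
    have hF0n : ∀ f ∈ F0, f.1 ≤ n ∧ f.2 ≤ n := by
      intro f hf
      rw [hF0, List.mem_map] at hf
      obtain ⟨f', hf', rfl⟩ := hf
      exact ⟨e4_tau_le hh (hF' f' hf').1, e4_tau_le hh (hF' f' hf').2⟩
    have trans : ∀ C, UComp (n + 1) w C → (∀ t ∈ C, w.gb g h t = 0) →
        (∀ f ∈ F0, ∀ t ∈ C, w.gb f.1 f.2 t = 0) → UComp (n + 1) (w.grev g h) C ∧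
          ∀ f ∈ F', ∀ t ∈ C, (w.grev g h).gb f.1 f.2 t = 0 := by
      intro C hC hb hF
      refine ⟨e4_ucomp hm hC hb, ?_⟩
      intro f hf t ht
      have h1 := hF (e4_tau g h f.1, e4_tau g h f.2)
        (by rw [hF0, List.mem_map]; exact ⟨f, hf, rfl⟩) t ht
      simp only [Lay.gb] at h1 ⊢
      rw [e4_gv hw hgh hh (hF' f hf).1 (hC.sub t ht) (hb t ht),
        e4_gv hw hgh hh (hF' f hf).2 (hC.sub t ht) (hb t ht)]
      exact h1
    obtain ⟨x, hx, hxg⟩ := e4_node hg (k := 2 * g) (by omega)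
    obtain ⟨y, hy, hyh⟩ := e4_node hg (k := 2 * h) (by omega)
    have hgapx : w.gap x = g := by simp only [Lay.gap, hxg]; omega
    have hgapy : w.gap y = h := by simp only [Lay.gap, hyh]; omega
    have hDlt : ∀ t ∈ e4_D (n + 1) w (x / 2), t < n + 1 := fun t ht => (e4_D_mem.1 ht).1
    have hxD : x / 2 ∈ e4_D (n + 1) w (x / 2) :=
      e4_D_mem.2 ⟨by omega, Relation.ReflTransGen.refl⟩
    by_cases hyD : y / 2 ∈ e4_D (n + 1) w (x / 2)
    · -- case B
      have hb0 := e4_caseB hg hx hy hyD hxg hyh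
      by_cases hun : ∀ t ∈ e4_D (n + 1) w (x / 2), w.mat t t = 0
      · refine ⟨F0, hF0n, ?_⟩
        have h1 := mrk_alt hs (b := fun t => w.gb g h t) hDlt e4_D_clo hun hb0
        have h2 := e4_card_le1 (m := n + 1) (w := w) (w' := w.grev g h) (F := F0) (F' := F')
          (e4_D (n + 1) w (x / 2)) (fun C hCD hC hF => trans C hC (fun t ht =>
            hb0 t (hC.sub t ht) (e4_D_disj hg hC hCD t ht)) hF) hF0l.le
        simp only [List.length_cons]
        rw [← hrk] at h1
        omega
      · refine ⟨F0, hF0n, ?_⟩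
        have h1 := (mrk_add (m := n + 1) w.mat (fun t => w.gb g h t)).2
        have h2 := e4_card_le (m := n + 1) (w := w) (w' := w.grev g h) (F := F0) (F' := F')
          (fun C hC hF => trans C hC (fun t ht =>
            hb0 t (hC.sub t ht) (e4_D_disj hg hC (fun h' => hun (h' ▸ hC.uno)) t ht)) hF) hF0l.le
        simp only [List.length_cons]
        rw [← hrk] at h1
        omega
    · -- case A
      refine ⟨(g, h) :: F0, ?_, ?_⟩
      · intro f hf
        rcases List.mem_cons.1 hf with rfl | hf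
        · exact ⟨by simp only; omega, hh⟩
        · exact hF0n f hf
      · have h1 : mrk (n + 1) w.mat + 1 ≤
            mrk (n + 1) (fun t u => w.mat t u + w.gb g h t * w.gb g h u) := by
          refine mrk_new hs (b := fun t => w.gb g h t)
            (z := fun j => if j ∈ e4_D (n + 1) w (x / 2) then 1 else 0) ?_ ?_
          · intro i hi
            by_cases hiD : i ∈ e4_D (n + 1) w (x / 2)
            · rw [← rowsum hw hi]
              refine Finset.sum_congr rfl ?_
              intro j hj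
              by_cases hjD : j ∈ e4_D (n + 1) w (x / 2)
              · simp [hjD]
              · rw [e4_D_clo i hiD j (Finset.mem_range.1 hj) hjD]; simp
            · refine Finset.sum_eq_zero ?_
              intro j hj
              by_cases hjD : j ∈ e4_D (n + 1) w (x / 2)
              · rw [hs i hi j (Finset.mem_range.1 hj), e4_D_clo j hjD i hi hiD]; simp
              · simp [hjD]
          · have h2 := gb_closed hw hDlt e4_D_clo hx hy
            rw [hgapx, hgapy, if_pos hxD, if_neg hyD, add_zero] at h2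
            have h3 : e4_D (n + 1) w (x / 2) ⊆ Finset.range (n + 1) := fun t ht =>
              Finset.mem_range.2 (hDlt t ht)
            rw [← Finset.sum_subset h3]
            · refine Eq.trans (Finset.sum_congr rfl ?_) h2
              intro j hj
              rw [if_pos hj, mul_one]
            · intro j _ hj
              rw [if_neg hj, mul_zero]
        have h2 := e4_card_le2 (m := n + 1) (w := w) (w' := w.grev g h) (F := (g, h) :: F0)
          (F' := F') (fun C hC hF => trans C hC (fun t ht => hF (g, h) (by simp) t ht)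
            (fun f hf => hF f (List.mem_cons_of_mem _ hf)))
          (by simp only [List.length_cons]; omega)
        simp only [List.length_cons]
        rw [← hrk] at h1
        omega

end SBR
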