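/-
SBR/E5.lean : a sequence of cuts destroys unoriented components.
-/
import Pool.Agent.SBR.E1
import Pool.Agent.SBR.E2

namespace SBR

private theorem e5_one {a : ZMod 2} (h : a ≠ 0) : a = 1 := by revert a; decide

private theorem e5_cn {w w' : Lay} {C : Finset ℕ}
    (h : ∀ t ∈ C, ∀ u ∈ C, w'.mat t u = w.mat t u) {t u : ℕ} (hc : Cn w C t u) : Cn w' C t u := by
  have h1 : ∀ a b, Adj w C a b → Adj w' C a b := by
    rintro a b ⟨ha, hb, hab, hm⟩
    exact ⟨ha, hb, hab, by rw [h a ha b hb]; exact hm⟩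
  exact Relation.ReflTransGen.mono h1 _ _ hc

private theorem e5_ucomp {m : ℕ} {w w' : Lay} {C : Finset ℕ}
    (h : ∀ t ∈ C, ∀ u, u < m → w'.mat t u = w.mat t u) (hC : UComp m w C) : UComp m w' C where
  sub := hC.sub
  two := hC.two
  clo t ht u hu hn := by rw [h t ht u hu]; exact hC.clo t ht u hu hn
  con t ht u hu := e5_cn (fun a ha b hb => h a ha b (hC.sub b hb)) (hC.con t ht u hu)
  uno t ht := by rw [h t ht t (hC.sub t ht)]; exact hC.uno t ht

theorem ucomp_step {m : ℕ} {w w' : Lay} {b : ℕ → ZMod 2} (hg : w.Good (2 * m))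
    (hm : ∀ t, t < m → ∀ u, u < m → w'.mat t u = w.mat t u + b t * b u) {C0 : Finset ℕ}
    (h0 : UComp m w C0) (hb0 : ∃ t ∈ C0, b t ≠ 0) (C : Finset ℕ) :
    UComp m w' C ↔ UComp m w C ∧ ∀ t ∈ C, b t = 0 := by
  constructor
  · intro hC
    have hb : ∀ t ∈ C, b t = 0 := by
      intro s hs
      by_contra hbs
      have hs1 := e5_one hbs
      have hsm := hC.sub s hs
      have h1 : w'.mat s s = w.mat s s + b s * b s := hm s hsm s hsm
      rw [hC.uno s hs, hs1] at h1
      have h2 : w.mat s s ≠ 0 := by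
        intro h3
        rw [h3] at h1
        revert h1
        decide
      obtain ⟨c, hc, hbc⟩ := hb0
      have hc1 := e5_one hbc
      have hcm := h0.sub c hc
      have h3 : w'.mat c c = w.mat c c + b c * b c := hm c hcm c hcm
      rw [h0.uno c hc, hc1] at h3
      have hcC : c ∉ C := by
        intro h4
        rw [hC.uno c h4] at h3
        revert h3
        decide
      have hsC : s ∉ C0 := fun h4 => h2 (h0.uno s h4)
      have h4 : w.mat c s = 0 := h0.clo c hc s hsm hsC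
      have h5 : w.mat s c = 0 := by
        rw [← h4]
        exact Lay.mat_comm hg (by omega) (by omega)
      have h6 := hC.clo s hs c hcm hcC
      rw [hm s hsm c hcm, h5, hs1, hc1] at h6
      revert h6
      decide
    refine ⟨e5_ucomp (w := w') (w' := w) ?_ hC, hb⟩
    intro t ht u hu
    rw [hm t (hC.sub t ht) u hu, hb t ht, zero_mul, add_zero]
  · rintro ⟨hC, hb⟩
    refine e5_ucomp ?_ hC
    intro t ht u hu
    rw [hm t (hC.sub t ht) u hu, hb t ht, zero_mul, add_zero]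

private theorem e5_gb_comm (w : Lay) (g h t : ℕ) : w.gb g h t = w.gb h g t := by
  unfold Lay.gb
  exact add_comm _ _

private theorem e5_gb_mm (w : Lay) (g h t : ℕ) : w.gb (min g h) (max g h) t = w.gb g h t := by
  rcases le_total g h with hgh | hgh
  · rw [min_eq_left hgh, max_eq_right hgh]
  · rw [min_eq_right hgh, max_eq_left hgh, e5_gb_comm]

private theorem e5_gap_le {n : ℕ} {w : Lay} (hw : EL n w) {x : ℕ} (hx : x < 2 * (n + 1)) :
    w.gap x ≤ n := by
  have := hw.good.lt x hx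
  unfold Lay.gap
  omega

private theorem e5_aux {n : ℕ} {w : Lay} (hw : EL n w) (NP : List (ℕ × ℕ)) :
    (∀ c ∈ NP, c.1 < 2 * (n + 1) ∧ c.2 < 2 * (n + 1)) →
    (∀ pre c post, NP = pre ++ c :: post → ∃ C, UComp (n + 1) w C ∧
      (∃ t ∈ C, w.gb (w.gap c.1) (w.gap c.2) t ≠ 0) ∧
      ∀ d ∈ pre, ∀ t ∈ C, w.gb (w.gap d.1) (w.gap d.2) t = 0) →
    (∀ pre c post, NP = pre ++ c :: post →
      (pre.foldl Lay.cut w).gap c.1 ≠ (pre.foldl Lay.cut w).gap c.2) ∧
    EL n (NP.foldl Lay.cut w) ∧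
    mrk (n + 1) (NP.foldl Lay.cut w).mat ≤ mrk (n + 1) w.mat + NP.length ∧
    (∀ C, UComp (n + 1) (NP.foldl Lay.cut w) C ↔
      UComp (n + 1) w C ∧ ∀ c ∈ NP, ∀ t ∈ C, w.gb (w.gap c.1) (w.gap c.2) t = 0) ∧
    ∀ t, t < n + 1 → (∀ c ∈ NP, w.gb (w.gap c.1) (w.gap c.2) t = 0) → ∀ x, x < 2 * (n + 1) →
      (NP.foldl Lay.cut w).gv ((NP.foldl Lay.cut w).gap x) t = w.gv (w.gap x) t := by
  induction NP using List.reverseRecOn with
  | nil =>
    intro _ _
    refine ⟨?_, hw, le_rfl, ?_, ?_⟩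
    · intro pre c post h
      simp at h
    · intro C
      simp
    · intro t _ _ x _
      rfl
  | append_singleton NP c ih =>
    intro hN hT
    have hN1 : ∀ d ∈ NP, d.1 < 2 * (n + 1) ∧ d.2 < 2 * (n + 1) :=
      fun d hd => hN d (List.mem_append_left _ hd)
    have hc12 := hN c (by simp)
    obtain ⟨i1, i2, i3, i4, i5⟩ := ih hN1 (by
      intro pre d post h
      exact hT pre d (post ++ [c]) (by rw [h]; simp))
    obtain ⟨C0, hC0, ⟨t0, ht0, hb0⟩, hd0⟩ := hT NP c [] rfl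
    rw [List.foldl_append, List.foldl_cons, List.foldl_nil]
    set w1 := NP.foldl Lay.cut w with hw1
    have inv : ∀ t, t < n + 1 → (∀ d ∈ NP, w.gb (w.gap d.1) (w.gap d.2) t = 0) →
        w1.gb (w1.gap c.1) (w1.gap c.2) t = w.gb (w.gap c.1) (w.gap c.2) t := by
      intro t ht hd
      unfold Lay.gb
      rw [i5 t ht hd c.1 hc12.1, i5 t ht hd c.2 hc12.2]
    have hb1 : w1.gb (w1.gap c.1) (w1.gap c.2) t0 ≠ 0 := by
      rw [inv t0 (hC0.sub t0 ht0) (fun d hd => hd0 d hd t0 ht0)]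
      exact hb0
    have hne : w1.gap c.1 ≠ w1.gap c.2 := by
      intro h
      apply hb1
      rw [h]
      unfold Lay.gb
      exact zmod2_two_mul _
    have hlt : min (w1.gap c.1) (w1.gap c.2) < max (w1.gap c.1) (w1.gap c.2) := by
      rcases lt_or_gt_of_ne hne with h | h
      · rw [min_eq_left h.le, max_eq_right h.le]; exact h
      · rw [min_eq_right h.le, max_eq_left h.le]; exact h
    have hle : max (w1.gap c.1) (w1.gap c.2) ≤ n :=
      max_le (e5_gap_le i2 hc12.1) (e5_gap_le i2 hc12.2)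
    have hcut : w1.cut c = w1.grev (min (w1.gap c.1) (w1.gap c.2))
      (max (w1.gap c.1) (w1.gap c.2)) := rfl
    have hmat : ∀ t, t < n + 1 → ∀ u, u < n + 1 → (w1.cut c).mat t u = w1.mat t u +
        w1.gb (w1.gap c.1) (w1.gap c.2) t * w1.gb (w1.gap c.1) (w1.gap c.2) u := by
      intro t ht u hu
      rw [hcut, mat_grev i2 hlt hle ht hu, e5_gb_mm, e5_gb_mm]
    have hstep := fun C => ucomp_step (m := n + 1) (w := w1) (w' := w1.cut c)
      (b := w1.gb (w1.gap c.1) (w1.gap c.2)) i2.good hmat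
      ((i4 C0).2 ⟨hC0, hd0⟩) ⟨t0, ht0, hb1⟩ C
    refine ⟨?_, ?_, ?_, ?_, ?_⟩
    · intro pre d post h
      rcases List.eq_nil_or_concat post with rfl | ⟨post', e, rfl⟩
      · have h' : NP ++ [c] = pre ++ [d] := h
        obtain ⟨e1, e2⟩ := List.append_inj' h' rfl
        simp only [List.cons.injEq, and_true] at e2
        subst e1 e2
        exact hne
      · rw [List.concat_eq_append] at h
        have h' : NP ++ [c] = (pre ++ d :: post') ++ [e] := by
          rw [h]; simp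
        obtain ⟨e1, e2⟩ := List.append_inj' h' rfl
        exact i1 pre d post' e1
    · rw [hcut]
      exact EL.grev i2 hlt hle
    · rw [mrk_congr hmat, List.length_append, List.length_singleton]
      have := (mrk_add (m := n + 1) w1.mat (w1.gb (w1.gap c.1) (w1.gap c.2))).1
      omega
    · intro C
      rw [hstep C, i4 C]
      constructor
      · rintro ⟨⟨h1, h2⟩, h3⟩
        refine ⟨h1, ?_⟩
        intro d hd t ht
        rcases List.mem_append.1 hd with hd | hd
        · exact h2 d hd t ht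
        · rw [List.mem_singleton] at hd
          subst hd
          rw [← inv t (h1.sub t ht) (fun d hd => h2 d hd t ht)]
          exact h3 t ht
      · rintro ⟨h1, h2⟩
        have h3 : ∀ d ∈ NP, ∀ t ∈ C, w.gb (w.gap d.1) (w.gap d.2) t = 0 :=
          fun d hd => h2 d (List.mem_append_left _ hd)
        refine ⟨⟨h1, h3⟩, ?_⟩
        intro t ht
        rw [inv t (h1.sub t ht) (fun d hd => h3 d hd t ht)]
        exact h2 c (by simp) t ht
    · intro t ht hd x hx
      have hd' : ∀ d ∈ NP, w.gb (w.gap d.1) (w.gap d.2) t = 0 :=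
        fun d hd' => hd d (List.mem_append_left _ hd')
      rw [← i5 t ht hd' x hx, hcut]
      apply gv_gap_grev i2 hlt hle hx ht
      rw [e5_gb_mm, inv t ht hd']
      exact hd c (by simp)

theorem cuts_main {n : ℕ} {w : Lay} (hw : EL n w) (NP : List (ℕ × ℕ))
    (hN : ∀ c ∈ NP, c.1 < 2 * (n + 1) ∧ c.2 < 2 * (n + 1))
    (hT : ∀ pre c post, NP = pre ++ c :: post → ∃ C, UComp (n + 1) w C ∧
      (∃ t ∈ C, w.gb (w.gap c.1) (w.gap c.2) t ≠ 0) ∧
      ∀ d ∈ pre, ∀ t ∈ C, w.gb (w.gap d.1) (w.gap d.2) t = 0) :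
    (∀ pre c post, NP = pre ++ c :: post →
      (pre.foldl Lay.cut w).gap c.1 ≠ (pre.foldl Lay.cut w).gap c.2) ∧
    EL n (NP.foldl Lay.cut w) ∧
    mrk (n + 1) (NP.foldl Lay.cut w).mat ≤ mrk (n + 1) w.mat + NP.length ∧
    ∀ C, UComp (n + 1) (NP.foldl Lay.cut w) C ↔
      UComp (n + 1) w C ∧ ∀ c ∈ NP, ∀ t ∈ C, w.gb (w.gap c.1) (w.gap c.2) t = 0 := by
  obtain ⟨h1, h2, h3, h4, _⟩ := e5_aux hw NP hN hT
  exact ⟨h1, h2, h3, h4⟩

end SBR
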