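/-
SBR/W3.lean : from gap labels to words.
-/
import Pool.Agent.SBR.Elem

namespace SBR

/-! ### recursion for `lword` -/

private theorem w3_dst_concat (l : List ℕ) (b a : ℕ) :
    (l ++ [a]).destutter' (· ≠ ·) b =
      if (l.destutter' (· ≠ ·) b).getLast? = some a then l.destutter' (· ≠ ·) b
      else l.destutter' (· ≠ ·) b ++ [a] := by
  induction l generalizing b with
  | nil =>
    by_cases h : b = a
    · subst h
      simp
    · simp [h]
  | cons c t ih =>
    by_cases h : b = c
    · subst h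
      have e1 : ((b :: t) ++ [a]).destutter' (· ≠ ·) b = (t ++ [a]).destutter' (· ≠ ·) b := by
        rw [List.cons_append, List.destutter'_cons_neg]
        simp
      have e2 : (b :: t).destutter' (· ≠ ·) b = t.destutter' (· ≠ ·) b := by
        rw [List.destutter'_cons_neg]
        simp
      rw [e1, e2, ih b]
    · have e1 : ((c :: t) ++ [a]).destutter' (· ≠ ·) b =
          b :: (t ++ [a]).destutter' (· ≠ ·) c := by
        rw [List.cons_append, List.destutter'_cons_pos]
        exact h
      have e2 : (c :: t).destutter' (· ≠ ·) b = b :: t.destutter' (· ≠ ·) c := by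
        rw [List.destutter'_cons_pos]
        exact h
      rw [e1, e2, ih c]
      have hne : t.destutter' (· ≠ ·) c ≠ [] := List.destutter'_ne_nil _ _
      have hl : (b :: t.destutter' (· ≠ ·) c).getLast? = (t.destutter' (· ≠ ·) c).getLast? := by
        rw [List.getLast?_cons]
        rcases hx : (t.destutter' (· ≠ ·) c).getLast? with _ | x
        · exact absurd (List.getLast?_eq_none_iff.mp hx) hne
        · rfl
      rw [hl]
      by_cases h2 : (t.destutter' (· ≠ ·) c).getLast? = some a
      · rw [if_pos h2, if_pos h2]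
      · rw [if_neg h2, if_neg h2]
        rfl

private theorem w3_dst_concat0 (l : List ℕ) (a : ℕ) :
    (l ++ [a]).destutter (· ≠ ·) =
      if (l.destutter (· ≠ ·)).getLast? = some a then l.destutter (· ≠ ·)
      else l.destutter (· ≠ ·) ++ [a] := by
  cases l with
  | nil => simp
  | cons b t =>
    rw [List.cons_append, List.destutter_cons', List.destutter_cons', w3_dst_concat]

private theorem w3_succ_zero {m : ℕ} {lab : ℕ → ℕ} (h : lab m = 0) :
    lword (m + 1) lab = lword m lab := by
  unfold lword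
  rw [List.range_succ, List.map_append, List.filter_append]
  simp [h]

private theorem w3_succ {m : ℕ} {lab : ℕ → ℕ} (h : lab m ≠ 0) :
    lword (m + 1) lab = if (lword m lab).getLast? = some (lab m) then lword m lab
      else lword m lab ++ [lab m] := by
  unfold lword
  rw [List.range_succ, List.map_append, List.filter_append]
  have : ((List.map lab [m]).filter (fun i => decide (i ≠ 0))) = [lab m] := by
    simp [h]
  rw [this, w3_dst_concat0]

private theorem w3_last {m : ℕ} {lab : ℕ → ℕ} (h : lab m ≠ 0) :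
    (lword (m + 1) lab).getLast? = some (lab m) := by
  rw [w3_succ h]
  split_ifs with h1
  · exact h1
  · simp

private theorem w3_prefix_succ (m : ℕ) (lab : ℕ → ℕ) : lword m lab <+: lword (m + 1) lab := by
  by_cases h : lab m = 0
  · rw [w3_succ_zero h]
  · rw [w3_succ h]
    split_ifs with h1
    · exact List.prefix_refl _
    · exact List.prefix_append _ _

private theorem w3_prefix {k m : ℕ} (lab : ℕ → ℕ) (h : k ≤ m) :
    lword k lab <+: lword m lab := by
  induction m, h using Nat.le_induction with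
  | base => exact List.prefix_refl _
  | succ m _ ih => exact ih.trans (w3_prefix_succ m lab)

private theorem w3_getD_prefix {A B : List ℕ} (h : A <+: B) {j : ℕ} (hj : j < A.length) :
    B.getD j 0 = A.getD j 0 := by
  obtain ⟨C, rfl⟩ := h
  rw [List.getD_append _ _ _ _ hj]

/-- index of the run of the gap `k` -/
private def w3psi (lab : ℕ → ℕ) (k : ℕ) : ℕ := (lword (k + 1) lab).length - 1

private theorem w3_len_pos {lab : ℕ → ℕ} {k : ℕ} (h : lab k ≠ 0) :
    0 < (lword (k + 1) lab).length := by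
  have := w3_last h
  rcases hL : lword (k + 1) lab with _ | ⟨a, t⟩
  · rw [hL] at this
    simp at this
  · simp

private theorem w3_psi_lt {m : ℕ} {lab : ℕ → ℕ} {k : ℕ} (hk : k < m) (h : lab k ≠ 0) :
    w3psi lab k < (lword m lab).length := by
  have h1 := (w3_prefix lab (Nat.succ_le_of_lt hk)).length_le
  have h2 := w3_len_pos h
  unfold w3psi
  simp only [Nat.succ_eq_add_one] at h1
  omega

private theorem w3_psi_get {m : ℕ} {lab : ℕ → ℕ} {k : ℕ} (hk : k < m) (h : lab k ≠ 0) :
    (lword m lab).getD (w3psi lab k) 0 = lab k := by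
  have h2 := w3_len_pos h
  rw [w3_getD_prefix (w3_prefix lab (Nat.succ_le_of_lt hk)) (j := w3psi lab k)
    (by unfold w3psi; simp only [Nat.succ_eq_add_one]; omega)]
  have h3 := w3_last h
  rw [List.getLast?_eq_getElem?] at h3
  unfold w3psi
  rw [List.getD_eq_getElem?_getD]
  simp only [Nat.succ_eq_add_one]
  rw [h3]
  rfl

private theorem w3_psi_mono {lab : ℕ → ℕ} {k k' : ℕ} (h : k ≤ k') :
    w3psi lab k ≤ w3psi lab k' := by
  have h1 := (w3_prefix lab (Nat.succ_le_succ h)).length_le
  unfold w3psi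
  simp only [Nat.succ_eq_add_one] at h1
  omega

private theorem w3_psi_surj {lab : ℕ → ℕ} (m : ℕ) {j : ℕ} (hj : j < (lword m lab).length) :
    ∃ k, k < m ∧ lab k ≠ 0 ∧ w3psi lab k = j := by
  induction m with
  | zero => simp [lword] at hj
  | succ m ih =>
    by_cases h : lab m = 0
    · rw [w3_succ_zero h] at hj
      obtain ⟨k, hk, h1, h2⟩ := ih hj
      exact ⟨k, by omega, h1, h2⟩
    · by_cases hj2 : j < (lword m lab).length
      · obtain ⟨k, hk, h1, h2⟩ := ih hj2
        exact ⟨k, by omega, h1, h2⟩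
      · refine ⟨m, by omega, h, ?_⟩
        unfold w3psi
        have h3 : (lword (m + 1) lab).length ≤ (lword m lab).length + 1 := by
          rw [w3_succ h]
          split_ifs
          · omega
          · simp
        omega

private theorem w3_ne {lab : ℕ → ℕ} (m : ℕ) {j : ℕ} (hj : j + 1 < (lword m lab).length) :
    (lword m lab).getD j 0 ≠ (lword m lab).getD (j + 1) 0 := by
  induction m with
  | zero => simp [lword] at hj
  | succ m ih =>
    by_cases h : lab m = 0
    · rw [w3_succ_zero h] at hj ⊢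
      exact ih hj
    · rw [w3_succ h] at hj ⊢
      split_ifs at hj ⊢ with h1
      · exact ih hj
      · rw [List.length_append, List.length_singleton] at hj
        by_cases hj2 : j + 1 < (lword m lab).length
        · rw [List.getD_append _ _ _ _ hj2, List.getD_append _ _ _ _ (by omega)]
          exact ih hj2
        · have hj3 : j + 1 = (lword m lab).length := by omega
          rw [List.getD_append _ _ _ _ (by omega), List.getD_append_right _ _ _ _ (by omega)]
          intro h4
          apply h1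
          rw [List.getLast?_eq_getElem?]
          have h5 : (lword m lab).length - 1 = j := by omega
          rw [h5]
          rw [List.getD_eq_getElem _ _ (by omega)] at h4
          rw [List.getElem?_eq_getElem (by omega), h4]
          simp [hj3]

private theorem w3_mem {m : ℕ} {lab : ℕ → ℕ} {j : ℕ} (hj : j < (lword m lab).length) :
    ∃ k, k < m ∧ lab k ≠ 0 ∧ w3psi lab k = j ∧ (lword m lab).getD j 0 = lab k := by
  obtain ⟨k, hk, h1, h2⟩ := w3_psi_surj m hj
  exact ⟨k, hk, h1, h2, by rw [← h2]; exact w3_psi_get hk h1⟩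

private theorem w3_get_ne_zero {m : ℕ} {lab : ℕ → ℕ} {j : ℕ} (hj : j < (lword m lab).length) :
    (lword m lab).getD j 0 ≠ 0 := by
  obtain ⟨k, _, h1, _, h3⟩ := w3_mem hj
  rw [h3]
  exact h1

/-! ### trimming -/

private theorem w3_trim_pos {L : List ℕ} (h : 2 ≤ L.length ∧ L.getD (L.length - 1) 0 = L.getD 0 0) :
    trim L = L.dropLast := by
  unfold trim
  rw [if_pos h]

private theorem w3_trim_neg {L : List ℕ}
    (h : ¬ (2 ≤ L.length ∧ L.getD (L.length - 1) 0 = L.getD 0 0)) : trim L = L := by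
  unfold trim
  rw [if_neg h]

private theorem w3_trim_getD {L : List ℕ} {j : ℕ} (hj : j < (trim L).length) :
    (trim L).getD j 0 = L.getD j 0 := by
  by_cases h : 2 ≤ L.length ∧ L.getD (L.length - 1) 0 = L.getD 0 0
  · rw [w3_trim_pos h] at hj ⊢
    exact (w3_getD_prefix (List.dropLast_prefix L) hj).symm
  · rw [w3_trim_neg h]

private theorem w3_trim_len {L : List ℕ} : (trim L).length ≤ L.length := by
  by_cases h : 2 ≤ L.length ∧ L.getD (L.length - 1) 0 = L.getD 0 0
  · rw [w3_trim_pos h, List.length_dropLast]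
    omega
  · rw [w3_trim_neg h]

theorem trim_cw {m : ℕ} {lab : ℕ → ℕ} (h : NCL m lab) : CW (trim (lword m lab)) := by
  set L := lword m lab with hL
  refine ⟨?_, ?_, ?_⟩
  · intro j hj
    rw [w3_trim_getD hj, w3_trim_getD (by omega : j < (trim L).length)]
    exact w3_ne m (lt_of_lt_of_le hj w3_trim_len)
  · intro h2
    by_cases ht : 2 ≤ L.length ∧ L.getD (L.length - 1) 0 = L.getD 0 0
    · have hlen : (trim L).length = L.length - 1 := by
        rw [w3_trim_pos ht, List.length_dropLast]
      rw [w3_trim_getD (by omega), w3_trim_getD (by omega), ← ht.2, hlen]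
      have := w3_ne (lab := lab) m (j := L.length - 1 - 1) (by rw [← hL]; omega)
      rw [← hL] at this
      have e : L.length - 1 - 1 + 1 = L.length - 1 := by omega
      rw [e] at this
      exact this
    · rw [w3_trim_neg ht] at h2 ⊢
      intro h3
      exact ht ⟨h2, h3⟩
  · intro a b c d hab hbc hcd hd h1 h2
    have hlen := w3_trim_len (L := L)
    rw [w3_trim_getD (by omega), w3_trim_getD (by omega)] at h1 h2
    rw [w3_trim_getD (by omega), w3_trim_getD (by omega)]
    obtain ⟨ka, hka, ha0, hpa, hga⟩ := w3_mem (m := m) (lab := lab) (j := a) (by rw [← hL]; omega)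
    obtain ⟨kb, hkb, hb0, hpb, hgb⟩ := w3_mem (m := m) (lab := lab) (j := b) (by rw [← hL]; omega)
    obtain ⟨kc, hkc, hc0, hpc, hgc⟩ := w3_mem (m := m) (lab := lab) (j := c) (by rw [← hL]; omega)
    obtain ⟨kd, hkd, hd0, hpd, hgd⟩ := w3_mem (m := m) (lab := lab) (j := d) (by rw [← hL]; omega)
    rw [← hL] at hga hgb hgc hgd
    rw [hga, hgc] at h1
    rw [hgb, hgd] at h2
    rw [hga, hgb]
    have l1 : ka < kb := by
      by_contra hc
      have := w3_psi_mono (lab := lab) (not_lt.mp hc)
      omega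
    have l2 : kb < kc := by
      by_contra hc
      have := w3_psi_mono (lab := lab) (not_lt.mp hc)
      omega
    have l3 : kc < kd := by
      by_contra hc
      have := w3_psi_mono (lab := lab) (not_lt.mp hc)
      omega
    exact h ka kb kc kd l1 l2 l3 hkd ha0 hb0 h1 h2

private theorem w3_mem_iff {R : List ℕ} {i : ℕ} :
    i ∈ R ↔ ∃ j, j < R.length ∧ R.getD j 0 = i := by
  rw [List.mem_iff_getElem]
  constructor
  · rintro ⟨j, hj, h⟩
    exact ⟨j, hj, by rw [List.getD_eq_getElem _ _ hj, h]⟩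
  · rintro ⟨j, hj, h⟩
    exact ⟨j, hj, by rw [← h, List.getD_eq_getElem _ _ hj]⟩

private theorem w3_mem_trim {L : List ℕ} {i : ℕ} : i ∈ trim L ↔ i ∈ L := by
  rw [w3_mem_iff, w3_mem_iff]
  constructor
  · rintro ⟨j, hj, h⟩
    exact ⟨j, lt_of_lt_of_le hj w3_trim_len, by rw [← h, w3_trim_getD hj]⟩
  · rintro ⟨j, hj, h⟩
    by_cases ht : 2 ≤ L.length ∧ L.getD (L.length - 1) 0 = L.getD 0 0
    · have hlen : (trim L).length = L.length - 1 := by
        rw [w3_trim_pos ht, List.length_dropLast]
      by_cases hj2 : j < L.length - 1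
      · exact ⟨j, by omega, by rw [w3_trim_getD (by omega), h]⟩
      · have : j = L.length - 1 := by omega
        subst this
        refine ⟨0, by omega, ?_⟩
        rw [w3_trim_getD (by omega), ← ht.2, h]
    · rw [w3_trim_neg ht]
      exact ⟨j, hj, h⟩

theorem mem_trim {m : ℕ} {lab : ℕ → ℕ} {i : ℕ} :
    i ∈ trim (lword m lab) ↔ i ≠ 0 ∧ ∃ k, k < m ∧ lab k = i := by
  rw [w3_mem_trim, w3_mem_iff]
  constructor
  · rintro ⟨j, hj, h⟩
    obtain ⟨k, hk, h0, _, hg⟩ := w3_mem hj
    rw [h] at hg
    exact ⟨by rw [hg]; exact h0, k, hk, hg.symm⟩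
  · rintro ⟨h0, k, hk, h1⟩
    rw [← h1] at h0
    exact ⟨w3psi lab k, w3_psi_lt hk h0, by rw [w3_psi_get hk h0, h1]⟩

/-! ### cuts -/

private theorem w3_cutG_symm {m : ℕ} {lab : ℕ → ℕ} {i g h : ℕ} :
    CutG m lab i g h ↔ CutG m lab i h g := by
  unfold CutG
  rw [min_comm g h, max_comm g h]

private theorem w3_cutW_symm {R : List ℕ} {i j j' : ℕ} :
    CutW R i j j' ↔ CutW R i j' j := by
  unfold CutW
  rw [min_comm j j', max_comm j j']

private theorem w3_cutG_le {m : ℕ} {lab : ℕ → ℕ} {i g h : ℕ} (hgh : g ≤ h) :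
    CutG m lab i g h ↔ (∃ k, g ≤ k ∧ k ≤ h ∧ lab k = i) ∧
      ∃ k, k < m ∧ lab k = i ∧ (k ≤ g ∨ h ≤ k) := by
  unfold CutG
  rw [min_eq_left hgh, max_eq_right hgh]
  refine and_congr Iff.rfl (exists_congr fun k => and_congr Iff.rfl (and_congr Iff.rfl ?_))
  omega

private theorem w3_cutW_le {R : List ℕ} {i j j' : ℕ} (hj : j ≤ j') :
    CutW R i j j' ↔ (∃ k, j ≤ k ∧ k ≤ j' ∧ R.getD k 0 = i) ∧
      ∃ k, k < R.length ∧ R.getD k 0 = i ∧ (k ≤ j ∨ j' ≤ k) := by
  unfold CutW
  rw [min_eq_left hj, max_eq_right hj]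
  refine and_congr Iff.rfl (exists_congr fun k => and_congr Iff.rfl (and_congr Iff.rfl ?_))
  omega

/-- labelled gaps -/
private theorem w3_cut_lab {m : ℕ} {lab : ℕ → ℕ} {i g h : ℕ} (hi : i ≠ 0) (hgh : g ≤ h)
    (hh : h < m) (hg0 : lab g ≠ 0) (hh0 : lab h ≠ 0) :
    CutG m lab i g h ↔ CutW (lword m lab) i (w3psi lab g) (w3psi lab h) := by
  rw [w3_cutG_le hgh, w3_cutW_le (w3_psi_mono hgh)]
  constructor
  · rintro ⟨⟨k, h1, h2, h3⟩, k', h4, h5, h6⟩
    refine ⟨⟨w3psi lab k, w3_psi_mono h1, w3_psi_mono h2, ?_⟩, w3psi lab k', ?_, ?_, ?_⟩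
    · rw [w3_psi_get (lt_of_le_of_lt h2 hh) (by rw [h3]; exact hi), h3]
    · exact w3_psi_lt h4 (by rw [h5]; exact hi)
    · rw [w3_psi_get h4 (by rw [h5]; exact hi), h5]
    · rcases h6 with h6 | h6
      · exact Or.inl (w3_psi_mono h6)
      · exact Or.inr (w3_psi_mono h6)
  · rintro ⟨⟨x, h1, h2, h3⟩, x', h4, h5, h6⟩
    constructor
    · rcases Nat.lt_or_ge (w3psi lab g) x with hx | hx
      · rcases Nat.lt_or_ge x (w3psi lab h) with hx2 | hx2
        · obtain ⟨k, hk, hk0, hkx, hkg⟩ := w3_mem (m := m) (lab := lab) (j := x)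
            (lt_trans hx2 (w3_psi_lt hh hh0))
          refine ⟨k, ?_, ?_, ?_⟩
          · by_contra hc
            have := w3_psi_mono (lab := lab) (not_le.mp hc).le
            omega
          · by_contra hc
            have := w3_psi_mono (lab := lab) (not_le.mp hc).le
            omega
          · rw [← hkg, h3]
        · refine ⟨h, hgh, le_refl _, ?_⟩
          have : x = w3psi lab h := by omega
          rw [← h3, this, w3_psi_get hh hh0]
      · refine ⟨g, le_refl _, hgh, ?_⟩
        have : x = w3psi lab g := by omega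
        rw [← h3, this, w3_psi_get (by omega) hg0]
    · rcases h6 with h6 | h6
      · rcases Nat.eq_or_lt_of_le h6 with h7 | h7
        · refine ⟨g, by omega, ?_, Or.inl (le_refl _)⟩
          rw [← h5, h7, w3_psi_get (by omega) hg0]
        · obtain ⟨k, hk, hk0, hkx, hkg⟩ := w3_mem (m := m) (lab := lab) (j := x') h4
          refine ⟨k, hk, by rw [← hkg, h5], Or.inl ?_⟩
          by_contra hc
          have := w3_psi_mono (lab := lab) (not_le.mp hc).le
          omega
      · rcases Nat.eq_or_lt_of_le h6 with h7 | h7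
        · refine ⟨h, hh, ?_, Or.inr (le_refl _)⟩
          rw [← h5, ← h7, w3_psi_get hh hh0]
        · obtain ⟨k, hk, hk0, hkx, hkg⟩ := w3_mem (m := m) (lab := lab) (j := x') h4
          refine ⟨k, hk, by rw [← hkg, h5], Or.inr ?_⟩
          by_contra hc
          have := w3_psi_mono (lab := lab) (not_le.mp hc).le
          omega

/-- positions before the last one are not affected by trimming -/
private theorem w3_cut_trim {L : List ℕ} {i j j' : ℕ} (hjj : j ≤ j') (hj' : j' < (trim L).length) :
    CutW L i j j' ↔ CutW (trim L) i j j' := by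
  rw [w3_cutW_le hjj, w3_cutW_le hjj]
  constructor
  · rintro ⟨⟨k, h1, h2, h3⟩, k', h4, h5, h6⟩
    refine ⟨⟨k, h1, h2, by rw [w3_trim_getD (by omega), h3]⟩, ?_⟩
    by_cases hk' : k' < (trim L).length
    · exact ⟨k', hk', by rw [w3_trim_getD hk', h5], h6⟩
    · by_cases ht : 2 ≤ L.length ∧ L.getD (L.length - 1) 0 = L.getD 0 0
      · have hlen : (trim L).length = L.length - 1 := by
          rw [w3_trim_pos ht, List.length_dropLast]
        have hk2 : k' = L.length - 1 := by omega
        refine ⟨0, by omega, ?_, Or.inl (by omega)⟩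
        rw [w3_trim_getD (by omega), ← ht.2, ← hk2, h5]
      · rw [w3_trim_neg ht] at hk'
        exact absurd h4 hk'
  · rintro ⟨⟨k, h1, h2, h3⟩, k', h4, h5, h6⟩
    refine ⟨⟨k, h1, h2, by rw [← h3, w3_trim_getD (by omega)]⟩, k',
      lt_of_lt_of_le h4 w3_trim_len, by rw [← h5, w3_trim_getD h4], h6⟩

/-- the last position is replaced by the first one -/
private theorem w3_cut_trim_last {L : List ℕ} {i j : ℕ}
    (ht : 2 ≤ L.length ∧ L.getD (L.length - 1) 0 = L.getD 0 0) (hj : j < (trim L).length) :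
    CutW L i j (L.length - 1) ↔ CutW (trim L) i 0 j := by
  have hlen : (trim L).length = L.length - 1 := by
    rw [w3_trim_pos ht, List.length_dropLast]
  rw [w3_cutW_le (by omega), w3_cutW_le (by omega)]
  constructor
  · rintro ⟨⟨k, h1, h2, h3⟩, k', h4, h5, h6⟩
    constructor
    · rcases Nat.lt_or_ge j k' with hk | hk
      · have hk2 : k' = L.length - 1 := by omega
        refine ⟨0, le_refl _, by omega, ?_⟩
        rw [w3_trim_getD (by omega), ← ht.2, ← hk2, h5]
      · exact ⟨k', by omega, hk, by rw [w3_trim_getD (by omega), h5]⟩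
    · rcases Nat.lt_or_ge k (L.length - 1) with hk | hk
      · exact ⟨k, by omega, by rw [w3_trim_getD (by omega), h3], Or.inr h1⟩
      · have hk2 : k = L.length - 1 := by omega
        refine ⟨0, by omega, ?_, Or.inl (le_refl _)⟩
        rw [w3_trim_getD (by omega), ← ht.2, ← hk2, h3]
  · rintro ⟨⟨k, h1, h2, h3⟩, k', h4, h5, h6⟩
    rw [w3_trim_getD (by omega)] at h3
    rw [w3_trim_getD (by omega)] at h5
    constructor
    · rcases h6 with h6 | h6
      · refine ⟨L.length - 1, by omega, le_refl _, ?_⟩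
        have hk0 : k' = 0 := by omega
        rw [hk0] at h5
        rw [ht.2, h5]
      · exact ⟨k', h6, by omega, h5⟩
    · exact ⟨k, by omega, h3, Or.inl h2⟩

private theorem w3_cut_trim_ll {L : List ℕ} {i : ℕ}
    (ht : 2 ≤ L.length ∧ L.getD (L.length - 1) 0 = L.getD 0 0)
    (h : CutW L i (L.length - 1) (L.length - 1)) : CutW (trim L) i 0 0 := by
  have hlen : (trim L).length = L.length - 1 := by
    rw [w3_trim_pos ht, List.length_dropLast]
  rw [w3_cutW_le (le_refl _)] at h ⊢
  obtain ⟨⟨k, h1, h2, h3⟩, _⟩ := h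
  have hk : k = L.length - 1 := by omega
  have h0 : (trim L).getD 0 0 = i := by
    rw [w3_trim_getD (by omega), ← ht.2, ← hk, h3]
  exact ⟨⟨0, le_refl _, le_refl _, h0⟩, 0, by omega, h0, Or.inl (le_refl _)⟩

private theorem w3_word_trim {L : List ℕ} {j j' : ℕ} (hjj : j ≤ j') (hj' : j' < L.length) :
    ∃ p q, p < (trim L).length ∧ q < (trim L).length ∧
      ∀ i, CutW L i j j' → CutW (trim L) i p q := by
  by_cases h1 : j' < (trim L).length
  · exact ⟨j, j', by omega, h1, fun i => (w3_cut_trim hjj h1).mp⟩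
  · by_cases ht : 2 ≤ L.length ∧ L.getD (L.length - 1) 0 = L.getD 0 0
    · have hlen : (trim L).length = L.length - 1 := by
        rw [w3_trim_pos ht, List.length_dropLast]
      have hj2 : j' = L.length - 1 := by omega
      subst hj2
      by_cases h2 : j < (trim L).length
      · exact ⟨0, j, by omega, h2, fun i => (w3_cut_trim_last ht h2).mp⟩
      · have hj3 : j = L.length - 1 := by omega
        subst hj3
        exact ⟨0, 0, by omega, by omega, fun i => w3_cut_trim_ll ht⟩
    · rw [w3_trim_neg ht] at h1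
      exact absurd hj' h1

private theorem w3_cutG_word_le {m : ℕ} {lab : ℕ → ℕ} {g h : ℕ} (hgh : g ≤ h) (hh : h < m)
    (hne : trim (lword m lab) ≠ []) :
    ∃ j j', j < (trim (lword m lab)).length ∧ j' < (trim (lword m lab)).length ∧
      ∀ i, i ≠ 0 → CutG m lab i g h → CutW (trim (lword m lab)) i j j' := by
  classical
  by_cases hex : ∃ k, g ≤ k ∧ k ≤ h ∧ lab k ≠ 0
  · -- smallest and largest labelled gaps between `g` and `h`
    set S : Finset ℕ := (Finset.Icc g h).filter (fun k => lab k ≠ 0) with hS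
    have hSne : S.Nonempty := by
      obtain ⟨k, h1, h2, h3⟩ := hex
      exact ⟨k, by rw [hS, Finset.mem_filter, Finset.mem_Icc]; exact ⟨⟨h1, h2⟩, h3⟩⟩
    set a := S.min' hSne with ha
    set b := S.max' hSne with hb
    have ha1 : a ∈ S := Finset.min'_mem _ _
    have hb1 : b ∈ S := Finset.max'_mem _ _
    have ha2 := ha1
    have hb2 := hb1
    rw [hS, Finset.mem_filter, Finset.mem_Icc] at ha2 hb2
    have hab : a ≤ b := Finset.min'_le _ _ hb1
    obtain ⟨p, q, hp, hq, hpq⟩ := w3_word_trim (L := lword m lab) (w3_psi_mono (lab := lab) hab)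
      (w3_psi_lt (lt_of_le_of_lt hb2.1.2 hh) hb2.2)
    refine ⟨p, q, hp, hq, fun i hi hc => hpq i ?_⟩
    rw [← w3_cut_lab hi hab (lt_of_le_of_lt hb2.1.2 hh) ha2.2 hb2.2, w3_cutG_le hab]
    rw [w3_cutG_le hgh] at hc
    obtain ⟨⟨k, h1, h2, h3⟩, k', h4, h5, h6⟩ := hc
    have hkS : k ∈ S := by
      rw [hS, Finset.mem_filter, Finset.mem_Icc]
      exact ⟨⟨h1, h2⟩, by rw [h3]; exact hi⟩
    refine ⟨⟨k, Finset.min'_le _ _ hkS, Finset.le_max' _ _ hkS, h3⟩, k', h4, h5, ?_⟩
    rcases h6 with h6 | h6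
    · exact Or.inl (le_trans h6 ha2.1.1)
    · exact Or.inr (le_trans hb2.1.2 h6)
  · have hpos : 0 < (trim (lword m lab)).length := List.length_pos_of_ne_nil hne
    refine ⟨0, 0, hpos, hpos, fun i hi hc => ?_⟩
    rw [w3_cutG_le hgh] at hc
    obtain ⟨⟨k, h1, h2, h3⟩, _⟩ := hc
    exact absurd ⟨k, h1, h2, by rw [h3]; exact hi⟩ hex

theorem cutG_word {m : ℕ} {lab : ℕ → ℕ} {g h : ℕ} (hg : g < m) (hh : h < m)
    (hne : trim (lword m lab) ≠ []) :
    ∃ j j', j < (trim (lword m lab)).length ∧ j' < (trim (lword m lab)).length ∧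
      ∀ i, i ≠ 0 → CutG m lab i g h → CutW (trim (lword m lab)) i j j' := by
  rcases le_total g h with hgh | hgh
  · exact w3_cutG_word_le hgh hh hne
  · obtain ⟨j, j', h1, h2, h3⟩ := w3_cutG_word_le hgh hg hne
    exact ⟨j, j', h1, h2, fun i hi hc => h3 i hi (w3_cutG_symm.mp hc)⟩

/-! ### letters that occur once -/

private theorem w3_once {R : List ℕ} {j : ℕ} (ho : Once R j = true) (hj : j < R.length) {k : ℕ}
    (hk : k < R.length) (h : R.getD k 0 = R.getD j 0) : k = j := by
  unfold Once at ho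
  rw [decide_eq_true_eq] at ho
  by_contra hne
  rw [List.getD_eq_getElem _ _ hj] at ho h
  rw [List.getD_eq_getElem _ _ hk] at h
  have h2 : 2 ≤ R.count R[j] := by
    rw [← List.duplicate_iff_two_le_count, List.duplicate_iff_exists_distinct_get]
    rcases Nat.lt_or_gt_of_ne hne with hlt | hlt
    · exact ⟨⟨k, hk⟩, ⟨j, hj⟩, hlt, by simp [h], by simp⟩
    · exact ⟨⟨j, hj⟩, ⟨k, hk⟩, hlt, by simp, by simp [h]⟩
  omega

private theorem w3_pos {m : ℕ} {lab : ℕ → ℕ} {j : ℕ} (hj : j < (trim (lword m lab)).length)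
    (ho : Once (trim (lword m lab)) j = true) {g : ℕ} (hg : g < m)
    (h1 : lab g = (trim (lword m lab)).getD j 0) :
    lab g ≠ 0 ∧ (w3psi lab g = j ∨ (j = 0 ∧ w3psi lab g = (lword m lab).length - 1 ∧
      (2 ≤ (lword m lab).length ∧
        (lword m lab).getD ((lword m lab).length - 1) 0 = (lword m lab).getD 0 0))) := by
  have h0 : lab g ≠ 0 := by
    rw [h1, w3_trim_getD hj]
    exact w3_get_ne_zero (lt_of_lt_of_le hj w3_trim_len)
  refine ⟨h0, ?_⟩
  have hlt := w3_psi_lt hg h0
  have hget := w3_psi_get hg h0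
  by_cases h2 : w3psi lab g < (trim (lword m lab)).length
  · left
    apply w3_once ho hj h2
    rw [w3_trim_getD h2, hget, h1]
  · right
    by_cases ht : 2 ≤ (lword m lab).length ∧
        (lword m lab).getD ((lword m lab).length - 1) 0 = (lword m lab).getD 0 0
    · have hlen : (trim (lword m lab)).length = (lword m lab).length - 1 := by
        rw [w3_trim_pos ht, List.length_dropLast]
      have h3 : w3psi lab g = (lword m lab).length - 1 := by omega
      refine ⟨?_, h3, ht⟩
      symm
      apply w3_once ho hj (by omega : 0 < (trim (lword m lab)).length)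
      rw [w3_trim_getD (by omega), ← ht.2, ← h3, hget, h1]
    · rw [w3_trim_neg ht] at h2
      exact absurd hlt h2

private theorem w3_cut_lab' {m : ℕ} {lab : ℕ → ℕ} {i g h : ℕ} (hi : i ≠ 0)
    (hg : g < m) (hh : h < m) (hg0 : lab g ≠ 0) (hh0 : lab h ≠ 0) :
    CutG m lab i g h ↔ CutW (lword m lab) i (w3psi lab g) (w3psi lab h) := by
  rcases le_total g h with hgh | hgh
  · exact w3_cut_lab hi hgh hh hg0 hh0
  · rw [w3_cutG_symm, w3_cutW_symm]
    exact w3_cut_lab hi hgh hg hh0 hg0

private theorem w3_cut_trim' {L : List ℕ} {i j j' : ℕ} (hj : j < (trim L).length)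
    (hj' : j' < (trim L).length) : CutW L i j j' ↔ CutW (trim L) i j j' := by
  rcases le_total j j' with h | h
  · exact w3_cut_trim h hj'
  · rw [w3_cutW_symm, w3_cutW_symm (R := trim L)]
    exact w3_cut_trim h hj

theorem cutG_once {m : ℕ} {lab : ℕ → ℕ} {R : List ℕ} (hR : R = trim (lword m lab)) {j j' : ℕ}
    (hj : j < R.length) (hj' : j' < R.length) (hne : j ≠ j') (ho : Once R j = true)
    (ho' : Once R j' = true) {g g' : ℕ} (hg : g < m) (hg' : g' < m) (h1 : lab g = R.getD j 0)
    (h2 : lab g' = R.getD j' 0) {i : ℕ} (hi : i ≠ 0) :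
    CutG m lab i g g' ↔ CutW R i j j' := by
  subst hR
  obtain ⟨h0, hp⟩ := w3_pos hj ho hg h1
  obtain ⟨h0', hp'⟩ := w3_pos hj' ho' hg' h2
  rw [w3_cut_lab' hi hg hg' h0 h0']
  rcases hp with hp | ⟨hz, hp, ht⟩
  · rcases hp' with hp' | ⟨hz', hp', ht'⟩
    · rw [hp, hp']
      exact w3_cut_trim' hj hj'
    · rw [hp, hp', hz', w3_cutW_symm (R := trim (lword m lab))]
      exact w3_cut_trim_last ht' hj
  · rcases hp' with hp' | ⟨hz', hp', ht'⟩
    · rw [hp, hp', hz, w3_cutW_symm]
      exact w3_cut_trim_last ht hj'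
    · omega

end SBR
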