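/-
SBR/E6.lean : gap labels of unoriented components.
-/
import Pool.Agent.SBR.W3

namespace SBR

/-- every position carries a node -/
private theorem e6_node {L : ℕ} {w : Lay} (hg : w.Good L) {p : ℕ} (hp : p < L) :
    ∃ x, x < L ∧ w.pos x = p := by
  have hinj : Function.Injective (fun x : Fin L => (⟨w.pos x, hg.lt x x.2⟩ : Fin L)) := by
    intro x y h
    have h1 : w.pos x = w.pos y := by simpa using h
    exact Fin.ext (hg.inj x y x.2 y.2 h1)
  obtain ⟨x, hx⟩ := (Finite.injective_iff_surjective.1 hinj) ⟨p, hp⟩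
  refine ⟨x, x.2, ?_⟩
  have := congrArg Fin.val hx
  simpa using this

private theorem e6_cn_range {m : ℕ} {w : Lay} {C : Finset ℕ} (hs : ∀ t ∈ C, t < m) {t u : ℕ}
    (h : Cn w C t u) : Cn w (Finset.range m) t u := by
  refine Relation.ReflTransGen.mono ?_ _ _ h
  intro a b hab
  exact ⟨Finset.mem_range.2 (hs a hab.1), Finset.mem_range.2 (hs b hab.2.1), hab.2.2⟩

private theorem e6_cn_closed {m : ℕ} {w : Lay} {C : Finset ℕ} (hC : UComp m w C) {t u : ℕ}
    (h : Cn w (Finset.range m) t u) (ht : t ∈ C) : u ∈ C := by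
  induction h with
  | refl => exact ht
  | tail _ hab ih =>
    by_contra hn
    exact hab.2.2.2 (hC.clo _ ih _ (Finset.mem_range.1 hab.2.1) hn)

/-- the nodes of an unoriented component are the nodes at the gaps with its label -/
private theorem e6_lab_iff {m : ℕ} {w : Lay} {lab : ℕ → ℕ} (hl : GLab m w lab) {C : Finset ℕ}
    (hC : UComp m w C) {x y : ℕ} (hx : x < 2 * m) (hxC : x / 2 ∈ C) (hy : y < 2 * m) :
    lab (w.gap x) = lab (w.gap y) ↔ y / 2 ∈ C := by
  have h0 : lab (w.gap x) ≠ 0 := (hl.pos x hx).2 ⟨C, hC, hxC⟩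
  constructor
  · intro h
    exact e6_cn_closed hC ((hl.eq x y hx hy h0).1 h) hxC
  · intro h
    exact (hl.eq x y hx hy h0).2 (e6_cn_range hC.sub (hC.con _ hxC _ h))

/-- two crossing chords which do not leave an interval are on the same side -/
private theorem e6_same {w : Lay} {lo hi a b c d : ℕ}
    (h1 : (lo < w.pos a ∧ w.pos a ≤ hi) ↔ (lo < w.pos b ∧ w.pos b ≤ hi))
    (h2 : (lo < w.pos c ∧ w.pos c ≤ hi) ↔ (lo < w.pos d ∧ w.pos d ≤ hi))
    (hcr : w.cr a b c d ≠ 0) :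
    (lo < w.pos a ∧ w.pos a ≤ hi) ↔ (lo < w.pos c ∧ w.pos c ≤ hi) := by
  by_contra hne
  apply hcr
  have key : ∀ s : Prop, ∀ _ : Decidable s, (if s then (1 : ZMod 2) else 0) +
      (if s then 1 else 0) = 0 := by
    intro s _
    exact zmod2_two_mul _
  by_cases ha : lo < w.pos a ∧ w.pos a ≤ hi
  · have hb := h1.1 ha
    have hc : ¬ (lo < w.pos c ∧ w.pos c ≤ hi) := fun h => hne ⟨fun _ => h, fun _ => ha⟩
    have hd : ¬ (lo < w.pos d ∧ w.pos d ≤ hi) := fun h => hc (h2.2 h)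
    have e1 : w.l b c = w.l a c := by
      simp only [Lay.l]
      congr 1
      apply propext
      omega
    have e2 : w.l b d = w.l a d := by
      simp only [Lay.l]
      congr 1
      apply propext
      omega
    simp only [Lay.cr, e1, e2]
    linear_combination (w.l a c + w.l a d) * two0
  · have hb : ¬ (lo < w.pos b ∧ w.pos b ≤ hi) := fun h => ha (h1.2 h)
    have hc : lo < w.pos c ∧ w.pos c ≤ hi := by
      by_contra h
      exact hne ⟨fun h' => absurd h' ha, fun h' => absurd h' h⟩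
    have hd := h2.1 hc
    have e1 : w.l a d = w.l a c := by
      simp only [Lay.l]
      congr 1
      apply propext
      omega
    have e2 : w.l b d = w.l b c := by
      simp only [Lay.l]
      congr 1
      apply propext
      omega
    simp only [Lay.cr, e1, e2]
    linear_combination (w.l a c + w.l b c) * two0

/-- the nodes of a connected set of chords which do not leave an interval are on the same side -/
private theorem e6_side {w : Lay} {C : Finset ℕ} (hcon : ∀ t ∈ C, ∀ u ∈ C, Cn w C t u) {lo hi : ℕ}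
    (h : ∀ t ∈ C, (lo < w.pos (2 * t) ∧ w.pos (2 * t) ≤ hi) ↔
      (lo < w.pos (2 * t + 1) ∧ w.pos (2 * t + 1) ≤ hi)) {x y : ℕ} (hx : x / 2 ∈ C)
    (hy : y / 2 ∈ C) :
    (lo < w.pos x ∧ w.pos x ≤ hi) ↔ (lo < w.pos y ∧ w.pos y ≤ hi) := by
  have h1 : ∀ t u, Cn w C t u → ((lo < w.pos (2 * t) ∧ w.pos (2 * t) ≤ hi) ↔
      (lo < w.pos (2 * u) ∧ w.pos (2 * u) ≤ hi)) := by
    intro t u htu
    induction htu with
    | refl => exact Iff.rfl
    | tail _ hab ih =>
      obtain ⟨ha, hb, hne, hm⟩ := hab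
      refine ih.trans (e6_same (h _ ha) (h _ hb) ?_)
      simpa only [Lay.mat, if_neg hne] using hm
  have h2 : ∀ x, x / 2 ∈ C → ((lo < w.pos x ∧ w.pos x ≤ hi) ↔
      (lo < w.pos (2 * (x / 2)) ∧ w.pos (2 * (x / 2)) ≤ hi)) := by
    intro x hx
    rcases Nat.even_or_odd' x with ⟨k, hk | hk⟩
    · have h3 : x / 2 = k := by omega
      rw [h3, ← hk]
    · have h3 : x / 2 = k := by omega
      rw [h3] at hx
      rw [h3, h k hx, ← hk]
  exact (h2 x hx).trans ((h1 _ _ (hcon _ hx _ hy)).trans (h2 y hy).symm)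

private theorem e6_gb {w : Lay} {g h t : ℕ} (hgh : g < h) :
    w.gb g h t = 0 ↔ ((2 * g < w.pos (2 * t) ∧ w.pos (2 * t) ≤ 2 * h) ↔
      (2 * g < w.pos (2 * t + 1) ∧ w.pos (2 * t + 1) ≤ 2 * h)) := by
  have hz : ∀ a b c d : Prop, ∀ (_ : Decidable a) (_ : Decidable b) (_ : Decidable c)
      (_ : Decidable d), (a → c) → (b → d) → (((if a then (1 : ZMod 2) else 0) +
        (if b then 1 else 0) + ((if c then 1 else 0) + (if d then 1 else 0)) = 0) ↔
        ((¬ a ∧ c) ↔ (¬ b ∧ d))) := by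
    intro a b c d _ _ _ _ hac hbd
    by_cases a <;> by_cases b <;> by_cases c <;> by_cases d <;> simp_all <;> decide
  simp only [Lay.gb, Lay.gv]
  rw [hz _ _ _ _ _ _ _ _ (fun h' => by omega) (fun h' => by omega)]
  simp only [not_le]

private theorem e6_gb_comm {w : Lay} (g h t : ℕ) : w.gb h g t = w.gb g h t := by
  simp only [Lay.gb]; ring

private theorem e6_cutG_comm {m : ℕ} {lab : ℕ → ℕ} (i g h : ℕ) :
    CutG m lab i h g ↔ CutG m lab i g h := by
  simp only [CutG, min_comm h g, max_comm h g]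

private theorem e6_cutG_lt {n : ℕ} {w : Lay} (hw : EL n w) {lab : ℕ → ℕ}
    (hl : GLab (n + 1) w lab) {C : Finset ℕ} (hC : UComp (n + 1) w C) {x : ℕ}
    (hx : x < 2 * (n + 1)) (hxC : x / 2 ∈ C) {g h : ℕ} (_hg : g ≤ n) (hh : h ≤ n) (hgh : g < h) :
    (∃ t ∈ C, w.gb g h t ≠ 0) ↔ CutG (n + 1) lab (lab (w.gap x)) g h := by
  have hmin : min g h = g := min_eq_left hgh.le
  have hmax : max g h = h := max_eq_right hgh.le
  constructor
  · rintro ⟨t, ht, htb⟩
    have htm := hC.sub t ht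
    rw [ne_eq, e6_gb hgh] at htb
    have hl1 : lab (w.gap (2 * t)) = lab (w.gap x) := by
      have := (e6_lab_iff hl hC hx hxC (y := 2 * t) (by omega)).2
        (by rw [show 2 * t / 2 = t by omega]; exact ht)
      exact this.symm
    have hl2 : lab (w.gap (2 * t + 1)) = lab (w.gap x) := by
      have := (e6_lab_iff hl hC hx hxC (y := 2 * t + 1) (by omega)).2
        (by rw [show (2 * t + 1) / 2 = t by omega]; exact ht)
      exact this.symm
    have hp1 := hw.good.lt (2 * t) (by omega)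
    have hp2 := hw.good.lt (2 * t + 1) (by omega)
    simp only [CutG, hmin, hmax]
    simp only [Lay.gap] at hl1 hl2 ⊢
    by_cases hin : 2 * g < w.pos (2 * t) ∧ w.pos (2 * t) ≤ 2 * h
    · have hout : ¬ (2 * g < w.pos (2 * t + 1) ∧ w.pos (2 * t + 1) ≤ 2 * h) :=
        fun h' => htb ⟨fun _ => h', fun _ => hin⟩
      exact ⟨⟨w.pos (2 * t) / 2, by omega, by omega, hl1⟩,
        ⟨w.pos (2 * t + 1) / 2, by omega, hl2, by omega⟩⟩
    · have hout : 2 * g < w.pos (2 * t + 1) ∧ w.pos (2 * t + 1) ≤ 2 * h := by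
        by_contra h'
        exact htb ⟨fun h'' => absurd h'' hin, fun h'' => absurd h'' h'⟩
      exact ⟨⟨w.pos (2 * t + 1) / 2, by omega, by omega, hl2⟩,
        ⟨w.pos (2 * t) / 2, by omega, hl1, by omega⟩⟩
  · rintro ⟨⟨k, hk1, hk2, hk3⟩, ⟨k', hk4, hk5, hk6⟩⟩
    rw [hmin] at hk1 hk6
    rw [hmax] at hk2 hk6
    by_contra hno
    have hno' : ∀ t ∈ C, (2 * g < w.pos (2 * t) ∧ w.pos (2 * t) ≤ 2 * h) ↔
        (2 * g < w.pos (2 * t + 1) ∧ w.pos (2 * t + 1) ≤ 2 * h) := by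
      intro t ht
      rw [← e6_gb hgh]
      by_contra hh
      exact hno ⟨t, ht, hh⟩
    have hnode : ∀ p, p < 2 * (n + 1) → lab (p / 2) = lab (w.gap x) →
        ∃ y, y / 2 ∈ C ∧ w.pos y = p := by
      intro p hp hlp
      obtain ⟨y, hy, hyp⟩ := e6_node hw.good hp
      refine ⟨y, ?_, hyp⟩
      refine (e6_lab_iff hl hC hx hxC hy).1 ?_
      simp only [Lay.gap] at hlp ⊢
      rw [hyp, hlp]
    obtain ⟨y1, hy1, hp1⟩ := hnode (2 * k) (by omega) (by
      rw [show 2 * k / 2 = k by omega]; exact hk3)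
    obtain ⟨y2, hy2, hp2⟩ := hnode (2 * k + 1) (by omega) (by
      rw [show (2 * k + 1) / 2 = k by omega]; exact hk3)
    obtain ⟨y3, hy3, hp3⟩ := hnode (2 * k') (by omega) (by
      rw [show 2 * k' / 2 = k' by omega]; exact hk5)
    obtain ⟨y4, hy4, hp4⟩ := hnode (2 * k' + 1) (by omega) (by
      rw [show (2 * k' + 1) / 2 = k' by omega]; exact hk5)
    have s1 := e6_side hC.con hno' hy1 hy2
    have s2 := e6_side hC.con hno' hy1 hy3
    have s3 := e6_side hC.con hno' hy1 hy4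
    rw [hp1] at s1 s2 s3
    rw [hp2] at s1
    rw [hp3] at s2
    rw [hp4] at s3
    omega

theorem cutG_iff {n : ℕ} {w : Lay} (hw : EL n w) {lab : ℕ → ℕ} (hl : GLab (n + 1) w lab)
    {C : Finset ℕ} (hC : UComp (n + 1) w C) {x : ℕ} (hx : x < 2 * (n + 1)) (hxC : x / 2 ∈ C)
    {g h : ℕ} (hg : g ≤ n) (hh : h ≤ n) (hgh : g ≠ h) :
    (∃ t ∈ C, w.gb g h t ≠ 0) ↔ CutG (n + 1) lab (lab (w.gap x)) g h := by
  rcases Nat.lt_or_gt_of_ne hgh with h1 | h1
  · exact e6_cutG_lt hw hl hC hx hxC hg hh h1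
  · rw [← e6_cutG_comm]
    simp only [e6_gb_comm h g]
    exact e6_cutG_lt hw hl hC hx hxC hh hg h1

theorem lab_ncl {n : ℕ} {w : Lay} (hw : EL n w) {lab : ℕ → ℕ} (hl : GLab (n + 1) w lab) :
    NCL (n + 1) lab := by
  intro a b c d hab hbc hcd hd ha0 hb0 hac hbd
  by_contra hne
  obtain ⟨xa, hxa, hpa⟩ := e6_node hw.good (p := 2 * a) (by omega)
  obtain ⟨xb, hxb, hpb⟩ := e6_node hw.good (p := 2 * b) (by omega)
  have hga : w.gap xa = a := by simp only [Lay.gap, hpa]; omega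
  have hgb : w.gap xb = b := by simp only [Lay.gap, hpb]; omega
  obtain ⟨C, hC, hxaC⟩ := (hl.pos xa hxa).1 (by rw [hga]; exact ha0)
  obtain ⟨D, hD, hxbD⟩ := (hl.pos xb hxb).1 (by rw [hgb]; exact hb0)
  have hnodeC : ∀ p, p < 2 * (n + 1) → lab (p / 2) = lab a → ∃ y, y < 2 * (n + 1) ∧
      y / 2 ∈ C ∧ w.pos y = p := by
    intro p hp hlp
    obtain ⟨y, hy, hyp⟩ := e6_node hw.good hp
    refine ⟨y, hy, ?_, hyp⟩
    refine (e6_lab_iff hl hC hxa hxaC hy).1 ?_
    rw [hga, Lay.gap, hyp, hlp]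
  have hnodeD : ∀ p, p < 2 * (n + 1) → lab (p / 2) = lab b → ∃ y, y < 2 * (n + 1) ∧
      y / 2 ∈ D ∧ w.pos y = p := by
    intro p hp hlp
    obtain ⟨y, hy, hyp⟩ := e6_node hw.good hp
    refine ⟨y, hy, ?_, hyp⟩
    refine (e6_lab_iff hl hD hxb hxbD hy).1 ?_
    rw [hgb, Lay.gap, hyp, hlp]
  -- the two components are disjoint
  have hdisj : ∀ t ∈ C, t ∉ D := by
    intro t htC htD
    apply hne
    have h1 := (e6_lab_iff hl hC hxa hxaC (y := 2 * t) (by have := hC.sub t htC; omega)).2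
      (by rw [show 2 * t / 2 = t by omega]; exact htC)
    have h2 := (e6_lab_iff hl hD hxb hxbD (y := 2 * t) (by have := hC.sub t htC; omega)).2
      (by rw [show 2 * t / 2 = t by omega]; exact htD)
    rw [hga] at h1
    rw [hgb] at h2
    rw [h1, h2]
  obtain ⟨y1, hy1, hy1C, hp1⟩ := hnodeC (2 * a) (by omega) (by
    rw [show 2 * a / 2 = a by omega])
  obtain ⟨y2, hy2, hy2C, hp2⟩ := hnodeC (2 * a + 1) (by omega) (by
    rw [show (2 * a + 1) / 2 = a by omega])
  obtain ⟨y3, hy3, hy3C, hp3⟩ := hnodeC (2 * c) (by omega) (by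
    rw [show 2 * c / 2 = c by omega]; exact hac.symm)
  obtain ⟨y4, hy4, hy4C, hp4⟩ := hnodeC (2 * c + 1) (by omega) (by
    rw [show (2 * c + 1) / 2 = c by omega]; exact hac.symm)
  obtain ⟨z1, hz1, hz1D, hq1⟩ := hnodeD (2 * b) (by omega) (by
    rw [show 2 * b / 2 = b by omega])
  obtain ⟨z2, hz2, hz2D, hq2⟩ := hnodeD (2 * d) (by omega) (by
    rw [show 2 * d / 2 = d by omega]; exact hbd.symm)
  -- nodes of C and D have different positions
  have hpos : ∀ y z, y < 2 * (n + 1) → y / 2 ∈ C → z < 2 * (n + 1) → z / 2 ∈ D →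
      w.pos y ≠ w.pos z := by
    intro y z hy hyC hz hzD h
    have := hw.good.inj y z hy hz h
    rw [this] at hyC
    exact hdisj _ hyC hzD
  -- no chord of C crosses a chord of D
  have hside : ∀ lo hi u, u ∈ D → ((lo = w.pos (2 * u) ∧ hi = w.pos (2 * u + 1)) ∨
      (lo = w.pos (2 * u + 1) ∧ hi = w.pos (2 * u))) → lo < hi →
      ∀ t ∈ C, (lo < w.pos (2 * t) ∧ w.pos (2 * t) ≤ hi) ↔
        (lo < w.pos (2 * t + 1) ∧ w.pos (2 * t + 1) ≤ hi) := by
    intro lo hi u hu hlh hlt t ht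
    have htm := hC.sub t ht
    have hum := hD.sub u hu
    have htu : t ≠ u := by
      rintro rfl
      exact hdisj _ ht hu
    have e1 : (2 * t) / 2 = t := by omega
    have e2 : (2 * t + 1) / 2 = t := by omega
    have e3 : (2 * u) / 2 = u := by omega
    have e4 : (2 * u + 1) / 2 = u := by omega
    have d1 := hpos (2 * t) (2 * u) (by omega) (by rw [e1]; exact ht) (by omega)
      (by rw [e3]; exact hu)
    have d2 := hpos (2 * t) (2 * u + 1) (by omega) (by rw [e1]; exact ht) (by omega)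
      (by rw [e4]; exact hu)
    have d3 := hpos (2 * t + 1) (2 * u) (by omega) (by rw [e2]; exact ht) (by omega)
      (by rw [e3]; exact hu)
    have d4 := hpos (2 * t + 1) (2 * u + 1) (by omega) (by rw [e2]; exact ht) (by omega)
      (by rw [e4]; exact hu)
    have hm : w.mat t u = 0 := hC.clo t ht u hum (fun h => hdisj _ h hu)
    simp only [Lay.mat, if_neg htu, Lay.cr, Lay.l] at hm
    have hd2 : (1 : ZMod 2) + 1 = 0 := by decide
    by_contra hcon
    revert hm
    by_cases f1 : w.pos (2 * t) < w.pos (2 * u) <;>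
      by_cases f2 : w.pos (2 * t) < w.pos (2 * u + 1) <;>
      by_cases f3 : w.pos (2 * t + 1) < w.pos (2 * u) <;>
      by_cases f4 : w.pos (2 * t + 1) < w.pos (2 * u + 1) <;>
      simp only [f1, f2, f3, f4, if_true, if_false, add_zero, zero_add, hd2, one_ne_zero,
        imp_false, not_true, not_false_iff] <;> omega
  -- the pair of gaps a, c does not cut D
  have hcut : ∀ u ∈ D, (2 * a < w.pos (2 * u) ∧ w.pos (2 * u) ≤ 2 * c) ↔
      (2 * a < w.pos (2 * u + 1) ∧ w.pos (2 * u + 1) ≤ 2 * c) := by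
    intro u hu
    have hum := hD.sub u hu
    have e3 : (2 * u) / 2 = u := by omega
    have e4 : (2 * u + 1) / 2 = u := by omega
    have a1 := hpos y1 (2 * u) hy1 hy1C (by omega) (by rw [e3]; exact hu)
    have a2 := hpos y2 (2 * u) hy2 hy2C (by omega) (by rw [e3]; exact hu)
    have a3 := hpos y3 (2 * u) hy3 hy3C (by omega) (by rw [e3]; exact hu)
    have a4 := hpos y4 (2 * u) hy4 hy4C (by omega) (by rw [e3]; exact hu)
    have b1 := hpos y1 (2 * u + 1) hy1 hy1C (by omega) (by rw [e4]; exact hu)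
    have b2 := hpos y2 (2 * u + 1) hy2 hy2C (by omega) (by rw [e4]; exact hu)
    have b3 := hpos y3 (2 * u + 1) hy3 hy3C (by omega) (by rw [e4]; exact hu)
    have b4 := hpos y4 (2 * u + 1) hy4 hy4C (by omega) (by rw [e4]; exact hu)
    rw [hp1] at a1 b1
    rw [hp2] at a2 b2
    rw [hp3] at a3 b3
    rw [hp4] at a4 b4
    have huu : w.pos (2 * u) ≠ w.pos (2 * u + 1) := by
      intro h
      have := hw.good.inj _ _ (by omega) (by omega) h
      omega
    rcases Nat.lt_or_gt_of_ne huu with h1 | h1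
    · have s := e6_side hC.con (hside _ _ u hu (Or.inl ⟨rfl, rfl⟩) h1) hy1C hy3C
      rw [hp1, hp3] at s
      omega
    · have s := e6_side hC.con (hside _ _ u hu (Or.inr ⟨rfl, rfl⟩) h1) hy1C hy3C
      rw [hp1, hp3] at s
      omega
  have s := e6_side hD.con hcut hz1D hz2D
  rw [hq1, hq2] at s
  omega

open Classical in
theorem gcost_lab {n : ℕ} {w : Lay} (hw : EL n w) {lab : ℕ → ℕ} (hl : GLab (n + 1) w lab)
    {F : List (ℕ × ℕ)} (hF : ∀ f ∈ F, f.1 ≤ n ∧ f.2 ≤ n) :
    2 * F.length + (((trim (lword (n + 1) lab)).toFinset).filter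
      (fun i => ∀ f ∈ F, ¬ CutG (n + 1) lab i f.1 f.2)).card ≤ gcost (n + 1) w F := by
  rw [gcost]
  refine Nat.add_le_add_left ?_ _
  let φ : Finset ℕ → ℕ := fun C => if h : C.Nonempty then lab (w.gap (2 * C.min' h)) else 0
  refine Finset.card_le_card_of_surjOn φ ?_
  intro i hi
  have hi' := Finset.mem_filter.1 (Finset.mem_coe.1 hi)
  obtain ⟨hi1, hi2⟩ := hi'
  rw [List.mem_toFinset, mem_trim] at hi1
  obtain ⟨hi0, k, hk, hki⟩ := hi1
  obtain ⟨x, hx, hxp⟩ := e6_node hw.good (p := 2 * k) (by omega)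
  have hgx : w.gap x = k := by simp only [Lay.gap, hxp]; omega
  obtain ⟨C, hC, hxC⟩ := (hl.pos x hx).1 (by rw [hgx, hki]; exact hi0)
  refine ⟨C, ?_, ?_⟩
  · rw [Finset.mem_coe, Finset.mem_filter, Finset.mem_powerset]
    refine ⟨fun t ht => Finset.mem_range.2 (hC.sub t ht), hC, ?_⟩
    intro f hf t ht
    obtain ⟨hf1, hf2⟩ := hF f hf
    by_cases hff : f.1 = f.2
    · rw [Lay.gb, hff]
      exact zmod2_two_mul _
    · by_contra hne
      have := (cutG_iff hw hl hC hx hxC hf1 hf2 hff).1 ⟨t, ht, hne⟩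
      rw [hgx, hki] at this
      exact hi2 f hf this
  · have hne : C.Nonempty := ⟨_, hxC⟩
    have hmin := C.min'_mem hne
    have h1 := (e6_lab_iff hl hC hx hxC (y := 2 * C.min' hne)
      (by have := hC.sub _ hmin; omega)).2
      (by rw [show 2 * C.min' hne / 2 = C.min' hne by omega]; exact hmin)
    simp only [φ, dif_pos hne]
    rw [← h1, hgx, hki]

end SBR
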