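/-
SBR/W1.lean : the lower bound for words (package W1).
-/
import Pool.Agent.SBR.Elem

namespace SBR

/-- number of occurrences as the number of positions -/
private theorem w1_count_card (a : ℕ) : ∀ R : List ℕ,
    R.count a = ((Finset.range R.length).filter (fun k => R.getD k 0 = a)).card := by
  intro R
  induction R with
  | nil => simp
  | cons b R ih =>
    rw [Finset.card_filter, List.length_cons, Finset.sum_range_succ', List.count_cons, ih,
      Finset.card_filter]
    simp

/-- positions of the letters occurring once, as a finset -/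
private def w1H (R : List ℕ) : Finset ℕ := (Finset.range R.length).filter (fun j => Once R j = true)

private theorem w1_len_hurdles (R : List ℕ) : (hurdles R).length = (w1H R).card := by
  unfold hurdles w1H
  rw [← List.toFinset_card_of_nodup ((List.nodup_range).filter _)]
  congr 1
  ext j
  simp

private theorem w1_mem {R : List ℕ} {j : ℕ} : j ∈ w1H R ↔ j < R.length ∧ Once R j = true := by
  simp [w1H]

private theorem w1_uniq {R : List ℕ} {j k : ℕ} (hj : j ∈ w1H R) (hk : k < R.length)
    (h : R.getD k 0 = R.getD j 0) : k = j := by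
  rw [w1_mem] at hj
  obtain ⟨hj1, hj2⟩ := hj
  unfold Once at hj2
  simp only [decide_eq_true_eq] at hj2
  rw [w1_count_card, Finset.card_eq_one] at hj2
  obtain ⟨x, hx⟩ := hj2
  have h1 : k ∈ ((Finset.range R.length).filter (fun i => R.getD i 0 = R.getD j 0)) := by
    rw [Finset.mem_filter, Finset.mem_range]; exact ⟨hk, h⟩
  have h2 : j ∈ ((Finset.range R.length).filter (fun i => R.getD i 0 = R.getD j 0)) := by
    rw [Finset.mem_filter, Finset.mem_range]; exact ⟨hj1, rfl⟩
  rw [hx, Finset.mem_singleton] at h1 h2
  rw [h1, h2]

/-- a pair which cuts a letter occurring once at `k` contains `k` -/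
private theorem w1_cut {R : List ℕ} {j u v : ℕ} (hj : j ∈ w1H R) (hu : u < R.length)
    (hv : v < R.length) (h : CutW R (R.getD j 0) u v) : j = u ∨ j = v := by
  obtain ⟨⟨k, hk1, hk2, hk3⟩, k', hk', hk4, hk5⟩ := h
  have e1 : k = j := w1_uniq hj (by omega) hk3
  have e2 : k' = j := w1_uniq hj hk' hk4
  subst e1
  subst e2
  omega

private theorem w1_halves_length (H : List ℕ) : (halves H).length = H.length / 2 := by
  simp [halves]

/-- the set of positions used -/
private def w1P (F : List (ℕ × ℕ)) : Finset ℕ :=
  (F.map Prod.fst).toFinset ∪ (F.map Prod.snd).toFinset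

private theorem w1_P_card (F : List (ℕ × ℕ)) : (w1P F).card ≤ 2 * F.length := by
  unfold w1P
  have h1 := Finset.card_union_le (F.map Prod.fst).toFinset (F.map Prod.snd).toFinset
  have h2 := List.toFinset_card_le (F.map Prod.fst)
  have h3 := List.toFinset_card_le (F.map Prod.snd)
  simp only [List.length_map] at h2 h3
  omega

private theorem w1_P_mem {F : List (ℕ × ℕ)} {f : ℕ × ℕ} (hf : f ∈ F) : f.1 ∈ w1P F ∧ f.2 ∈ w1P F := by
  unfold w1P
  constructor
  · refine Finset.mem_union_left _ ?_
    rw [List.mem_toFinset]
    exact List.mem_map_of_mem hf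
  · refine Finset.mem_union_right _ ?_
    rw [List.mem_toFinset]
    exact List.mem_map_of_mem hf

open Classical in
private noncomputable def w1U (R : List ℕ) (F : List (ℕ × ℕ)) : Finset ℕ :=
  R.toFinset.filter (fun i => ∀ f ∈ F, ¬ CutW R i f.1 f.2)

open Classical in
private theorem w1_mem_U {R : List ℕ} {F : List (ℕ × ℕ)} {i : ℕ} :
    i ∈ w1U R F ↔ i ∈ R ∧ ∀ f ∈ F, ¬ CutW R i f.1 f.2 := by
  unfold w1U
  rw [Finset.mem_filter, List.mem_toFinset]

private theorem w1_img {R : List ℕ} {F : List (ℕ × ℕ)}
    (hF : ∀ f ∈ F, f.1 < R.length ∧ f.2 < R.length) :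
    (w1H R \ w1P F).image (fun k => R.getD k 0) ⊆ w1U R F := by
  intro i hi
  rw [Finset.mem_image] at hi
  obtain ⟨k, hk, rfl⟩ := hi
  rw [Finset.mem_sdiff] at hk
  rw [w1_mem_U]
  refine ⟨?_, ?_⟩
  · have := (w1_mem.1 hk.1).1
    rw [List.getD_eq_getElem _ _ this]
    exact List.getElem_mem this
  · intro f hf hc
    have := w1_P_mem hf
    rcases w1_cut hk.1 (hF f hf).1 (hF f hf).2 hc with h | h
    · exact hk.2 (h ▸ this.1)
    · exact hk.2 (h ▸ this.2)

private theorem w1_img_card (R : List ℕ) (F : List (ℕ × ℕ)) :
    ((w1H R \ w1P F).image (fun k => R.getD k 0)).card = (w1H R \ w1P F).card := by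
  refine Finset.card_image_of_injOn ?_
  intro a ha b hb hab
  rw [Finset.mem_coe, Finset.mem_sdiff] at ha hb
  exact w1_uniq hb.1 (w1_mem.1 ha.1).1 hab

/-- the first bound: the number of hurdles -/
private theorem w1_bound1 {R : List ℕ} {F : List (ℕ × ℕ)}
    (hF : ∀ f ∈ F, f.1 < R.length ∧ f.2 < R.length) :
    (w1H R).card ≤ 2 * F.length + (w1U R F).card := by
  have h1 := Finset.card_le_card (w1_img hF)
  rw [w1_img_card] at h1
  have h2 := w1_P_card F
  have h3 := Finset.card_sdiff_add_card_inter (w1H R) (w1P F)
  have h4 := Finset.card_le_card (Finset.inter_subset_right : w1H R ∩ w1P F ⊆ w1P F)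
  omega

/-- the second bound: one more if the number of hurdles is odd and all are super -/
private theorem w1_bound2 {R : List ℕ} {F : List (ℕ × ℕ)}
    (hF : ∀ f ∈ F, f.1 < R.length ∧ f.2 < R.length) (hodd : (w1H R).card % 2 = 1)
    (hS : ∀ j ∈ w1H R, Sup R j = true) :
    (w1H R).card + 1 ≤ 2 * F.length + (w1U R F).card := by
  by_contra hcon
  have h1 := Finset.card_le_card (w1_img hF)
  rw [w1_img_card] at h1
  have h2 := w1_P_card F
  have h3 := Finset.card_sdiff_add_card_inter (w1H R) (w1P F)
  have h4 := Finset.card_le_card (Finset.inter_subset_right : w1H R ∩ w1P F ⊆ w1P F)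
  -- all positions used are hurdles
  have hPsub : w1P F ⊆ w1H R := by
    have : w1H R ∩ w1P F = w1P F :=
      Finset.eq_of_subset_of_card_le Finset.inter_subset_right (by omega)
    rw [← this]
    exact Finset.inter_subset_left
  have hU : (w1H R \ w1P F).image (fun k => R.getD k 0) = w1U R F :=
    Finset.eq_of_subset_of_card_le (w1_img hF) (by rw [w1_img_card]; omega)
  have hpos : 0 < (w1H R \ w1P F).card := by omega
  obtain ⟨c, hc⟩ := Finset.card_pos.1 hpos
  rw [Finset.mem_sdiff] at hc
  obtain ⟨hcH, hcP⟩ := hc
  have hcl := (w1_mem.1 hcH).1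
  have hsup := hS c hcH
  unfold Sup at hsup
  simp only [decide_eq_true_eq] at hsup
  obtain ⟨hs1, hs2⟩ := hsup
  set p := prd R.length c with hp
  set s := scc R.length c with hs
  have hpl : p < R.length := by rw [hp]; unfold prd; split_ifs <;> omega
  have hsl : s < R.length := by rw [hs]; unfold scc; split_ifs <;> omega
  -- the positions of the letter
  have key : ∀ k, k < R.length → R.getD k 0 = R.getD p 0 → k = p ∨ k = s := by
    have hcard := hs2
    rw [w1_count_card, Finset.card_eq_two] at hcard
    obtain ⟨x, y, hxy, hx⟩ := hcard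
    have hps : p ≠ s := by
      intro hps
      -- then the length is at most two
      have hlen : R.length ≤ 2 := by
        have e1 : p = if c = 0 then R.length - 1 else c - 1 := hp
        have e2 : s = if c + 1 = R.length then 0 else c + 1 := hs
        split_ifs at e1 e2 <;> omega
      have hlt : R.count (R.getD p 0) ≤ 1 := by
        by_contra hlt
        push Not at hlt
        have hge2 : R.count (R.getD p 0) = R.length := by
          have := List.count_le_length (a := R.getD p 0) (l := R)
          omega
        have hall : ∀ b ∈ R, R.getD p 0 = b := List.count_eq_length.1 hge2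
        have hcc : R.getD p 0 = R.getD c 0 := by
          refine hall _ ?_
          rw [List.getD_eq_getElem _ _ hcl]
          exact List.getElem_mem hcl
        have := (w1_mem.1 hcH).2
        unfold Once at this
        simp only [decide_eq_true_eq] at this
        rw [← hcc] at this
        omega
      omega
    intro k hk hkp
    have m1 : k ∈ ((Finset.range R.length).filter (fun i => R.getD i 0 = R.getD p 0)) := by
      simp only [Finset.mem_filter, Finset.mem_range]; exact ⟨hk, hkp⟩
    have m2 : p ∈ ((Finset.range R.length).filter (fun i => R.getD i 0 = R.getD p 0)) := by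
      simp only [Finset.mem_filter, Finset.mem_range]; exact ⟨hpl, trivial⟩
    have m3 : s ∈ ((Finset.range R.length).filter (fun i => R.getD i 0 = R.getD p 0)) := by
      simp only [Finset.mem_filter, Finset.mem_range]; exact ⟨hsl, hs1.symm⟩
    rw [hx] at m1 m2 m3
    simp only [Finset.mem_insert, Finset.mem_singleton] at m1 m2 m3
    omega
  -- the letter is not a hurdle letter
  have hpH : p ∉ w1H R := by
    intro h
    have := (w1_mem.1 h).2
    unfold Once at this
    simp only [decide_eq_true_eq] at this
    omega
  have hsH : s ∉ w1H R := by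
    intro h
    have := (w1_mem.1 h).2
    unfold Once at this
    simp only [decide_eq_true_eq] at this
    rw [← hs1] at this
    omega
  have hnot : R.getD p 0 ∉ w1U R F := by
    rw [← hU, Finset.mem_image]
    rintro ⟨k, hk, hk2⟩
    rw [Finset.mem_sdiff] at hk
    have := w1_uniq hk.1 hpl hk2.symm
    exact hpH (this ▸ hk.1)
  have hcut : ∃ f ∈ F, CutW R (R.getD p 0) f.1 f.2 := by
    by_contra hno
    push Not at hno
    apply hnot
    rw [w1_mem_U]
    refine ⟨?_, hno⟩
    rw [List.getD_eq_getElem _ _ hpl]
    exact List.getElem_mem hpl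
  obtain ⟨f, hf, ⟨k, hk1, hk2, hk3⟩, k', hk', hk4, hk5⟩ := hcut
  have hfP := w1_P_mem hf
  have hfF := hF f hf
  have hkl : k < R.length := by omega
  have a1 := key k hkl hk3
  have a2 := key k' hk' hk4
  have b1 : f.1 ≠ p := fun h => hpH (h ▸ hPsub hfP.1)
  have b2 : f.1 ≠ s := fun h => hsH (h ▸ hPsub hfP.1)
  have b3 : f.2 ≠ p := fun h => hpH (h ▸ hPsub hfP.2)
  have b4 : f.2 ≠ s := fun h => hsH (h ▸ hPsub hfP.2)
  have b5 : f.1 ≠ c := fun h => hcP (h ▸ hfP.1)
  have b6 : f.2 ≠ c := fun h => hcP (h ▸ hfP.2)
  have e1 : p = if c = 0 then R.length - 1 else c - 1 := hp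
  have e2 : s = if c + 1 = R.length then 0 else c + 1 := hs
  clear_value p s
  split_ifs at e1 e2 <;> omega

set_option linter.unusedVariables false in
open Classical in
theorem plan_lower {R : List ℕ} (hR : CW R) {F : List (ℕ × ℕ)}
    (hF : ∀ f ∈ F, f.1 < R.length ∧ f.2 < R.length) :
    pcost R ≤ 2 * F.length +
      (R.toFinset.filter (fun i => ∀ f ∈ F, ¬ CutW R i f.1 f.2)).card := by
  have hb1 := w1_bound1 hF
  have hU : (w1U R F).card =
      (R.toFinset.filter (fun i => ∀ f ∈ F, ¬ CutW R i f.1 f.2)).card := rfl
  rw [← hU]
  have hlen := w1_len_hurdles R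
  have hp : pcost R = 2 * (plan R).1.length + (if (plan R).2.isSome then 1 else 0) := rfl
  by_cases h1 : (hurdles R).length % 2 = 0
  · have e : plan R = (halves (hurdles R), none) := by
      unfold plan
      rw [if_pos h1]
    rw [hp, e]
    simp only [w1_halves_length, Option.isSome_none, Bool.false_eq_true, if_false]
    omega
  · by_cases h2 : sidx R < (hurdles R).length
    · have e : plan R = (halves ((hurdles R).eraseIdx (sidx R)),
          some ((hurdles R).getD (sidx R) 0)) := by
        unfold plan
        rw [if_neg h1, if_pos h2]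
      rw [hp, e]
      simp only [w1_halves_length, Option.isSome_some, if_true]
      have : ((hurdles R).eraseIdx (sidx R)).length = (hurdles R).length - 1 :=
        List.length_eraseIdx_of_lt h2
      omega
    · have e : plan R = (halves ((hurdles R).eraseIdx 0) ++
          [((hurdles R).getD 0 0, (hurdles R).getD 1 0)], none) := by
        unfold plan
        rw [if_neg h1, if_neg h2]
      rw [hp, e]
      simp only [List.length_append, w1_halves_length, Option.isSome_none, Bool.false_eq_true,
        if_false, List.length_singleton]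
      have hpos : 0 < (hurdles R).length := by omega
      have : ((hurdles R).eraseIdx 0).length = (hurdles R).length - 1 :=
        List.length_eraseIdx_of_lt hpos
      have hb2 := w1_bound2 hF (by omega) (by
        intro j hj
        unfold sidx at h2
        have h3 : (hurdles R).findIdx (fun j => !Sup R j) = (hurdles R).length := by
          have := List.findIdx_le_length (xs := hurdles R) (p := fun j => !Sup R j)
          omega
        rw [List.findIdx_eq_length] at h3
        have hjm : j ∈ hurdles R := by
          unfold hurdles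
          rw [List.mem_filter, List.mem_range]
          exact w1_mem.1 hj
        have := h3 j hjm
        simpa using this)
      omega

end SBR
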