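/-
SBR/W2.lean : words, the plan cuts every letter.
-/
import Pool.Agent.SBR.Elem

namespace SBR

/-! ### periodic form of a word -/

/-- periodic extension -/
private def per (R : List ℕ) (k : ℕ) : ℕ := R.getD (k % R.length) 0

private lemma per_lt {R : List ℕ} {k : ℕ} (h : k < R.length) : per R k = R.getD k 0 := by
  unfold per
  rw [Nat.mod_eq_of_lt h]

private lemma per_add {R : List ℕ} (k : ℕ) : per R (k + R.length) = per R k := by
  unfold per
  rw [Nat.add_mod_right]

private lemma per_ne {R : List ℕ} (hR : CW R) (hL : 2 ≤ R.length) (k : ℕ) :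
    per R k ≠ per R (k + 1) := by
  unfold per
  have h0 : k % R.length < R.length := Nat.mod_lt _ (by omega)
  by_cases h1 : k % R.length + 1 < R.length
  · rw [Nat.add_mod, Nat.mod_eq_of_lt (show 1 < R.length by omega), Nat.mod_eq_of_lt h1]
    exact hR.ne _ h1
  · have h2 : k % R.length + 1 = R.length := by omega
    rw [Nat.add_mod, Nat.mod_eq_of_lt (show 1 < R.length by omega), h2, Nat.mod_self]
    have h3 : k % R.length = R.length - 1 := by omega
    rw [h3]
    exact hR.cyc hL

private lemma per_nc {R : List ℕ} (hR : CW R) {a b c d : ℕ} (h1 : a < b) (h2 : b < c)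
    (h3 : c < d) (h4 : d < a + R.length) (hac : per R a = per R c) (hbd : per R b = per R d) :
    per R a = per R b := by
  -- reduce to `a < R.length`
  have key : ∀ a b c d : ℕ, a < R.length → a < b → b < c → c < d → d < a + R.length →
      per R a = per R c → per R b = per R d → per R a = per R b := by
    intro a b c d h0 h1 h2 h3 h4 hac hbd
    have hsub : ∀ k, R.length ≤ k → per R k = per R (k - R.length) := by
      intro k hk
      conv_lhs => rw [show k = (k - R.length) + R.length by omega]
      exact per_add _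
    by_cases hd : d < R.length
    · rw [per_lt (by omega), per_lt (by omega)] at hac hbd ⊢
      exact hR.nc a b c d h1 h2 h3 hd hac hbd
    · rw [hsub d (by omega)] at hbd
      by_cases hc : c < R.length
      · rw [per_lt (by omega), per_lt (by omega)] at hac hbd ⊢
        have := hR.nc (d - R.length) a b c (by omega) h1 h2 hc hbd.symm hac
        rw [← this, hbd]
      · rw [hsub c (by omega)] at hac
        by_cases hb : b < R.length
        · rw [per_lt (by omega), per_lt (by omega)] at hac hbd ⊢
          have := hR.nc (c - R.length) (d - R.length) a b (by omega) (by omega) h1 hb hac.symm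
            hbd.symm
          rw [hac, hbd, this]
        · rw [hsub b (by omega)] at hbd ⊢
          rw [per_lt (by omega), per_lt (by omega)] at hac hbd ⊢
          have := hR.nc (b - R.length) (c - R.length) (d - R.length) a (by omega) (by omega)
            (by omega) h0 hbd hac.symm
          rw [hac, this]
  by_cases hL : R.length = 0
  · omega
  · have h5 := Nat.mod_add_div a R.length
    set m := a / R.length with hm
    have hshift : ∀ k j, per R (k + R.length * j) = per R k := by
      intro k j
      unfold per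
      rw [Nat.add_mul_mod_self_left]
    have e : ∀ k, a ≤ k → per R k = per R (k - R.length * m) := by
      intro k hk
      conv_lhs => rw [show k = (k - R.length * m) + R.length * m by omega]
      exact hshift _ _
    rw [e a le_rfl, e c (by omega)] at hac
    rw [e b (by omega), e d (by omega)] at hbd
    rw [e a le_rfl, e b (by omega)]
    have h6 : a % R.length < R.length := Nat.mod_lt _ (by omega)
    exact key _ _ _ _ (by omega) (by omega) (by omega) (by omega) (by omega) hac hbd

/-- the letter at position `x` occurs only once -/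
private def Uq (R : List ℕ) (x : ℕ) : Prop :=
  ∀ y, x < y → y < x + R.length → per R y ≠ per R x

private lemma inner {R : List ℕ} (hR : CW R) (hL : 2 ≤ R.length) :
    ∀ (m p p' : ℕ), p' - p ≤ m → p < p' → p' < p + R.length → per R p = per R p' →
      ∃ x, p < x ∧ x < p' ∧ Uq R x := by
  intro m
  induction m with
  | zero => intro p p' h1 h2; omega
  | succ m ih =>
    intro p p' h1 h2 h3 he
    have hne := per_ne hR hL p
    have h4 : p + 1 < p' := by
      rcases Nat.lt_or_ge (p + 1) p' with h | h
      · exact h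
      · exfalso
        have : p' = p + 1 := by omega
        subst this
        exact hne he
    by_cases hu : Uq R (p + 1)
    · exact ⟨p + 1, by omega, h4, hu⟩
    · unfold Uq at hu
      push Not at hu
      obtain ⟨y, hy1, hy2, hy3⟩ := hu
      by_cases hy4 : y < p'
      · obtain ⟨x, hx1, hx2, hx3⟩ := ih (p + 1) y (by omega) hy1 (by omega) hy3.symm
        exact ⟨x, by omega, by omega, hx3⟩
      · exfalso
        by_cases hy5 : y = p'
        · subst hy5
          exact hne (he.trans hy3)
        · by_cases hy6 : y = p + R.length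
          · subst hy6
            rw [per_add] at hy3
            exact hne hy3
          · exact hne (per_nc hR (a := p) (b := p + 1) (c := p') (d := y) (by omega) h4 (by omega)
              (by omega) he hy3.symm)

/-- periodic form of super hurdles -/
private def Sp (R : List ℕ) (x : ℕ) : Prop :=
  3 ≤ R.length ∧ ∃ p, p + 1 = x ∧ per R p = per R (p + 2) ∧ ∀ y, p + 2 < y → y < p + R.length →
    per R y ≠ per R p

private lemma nest {R : List ℕ} (hR : CW R) (hL : 2 ≤ R.length) :
    ∀ (m p p' x : ℕ), p' - p ≤ m → p < p' → p' < p + R.length → per R p = per R p' →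
      (∀ y, p < y → y < p + R.length → y ≠ p' → per R y ≠ per R p) →
      (∀ z, p < z → z < p' → Uq R z → z = x) → p < x → x < p' → Sp R x := by
  intro m
  induction m with
  | zero => intro p p' x h1 h2; omega
  | succ m ih =>
    intro p p' x h1 h2 h3 he htw hon hx1 hx2
    have hne := per_ne hR hL p
    by_cases hxp : x = p + 1
    · subst hxp
      have hp' : p' = p + 2 := by
        by_contra hp'
        have hne2 := per_ne hR hL (p + 1)
        have hnu : ¬ Uq R (p + 1 + 1) := by
          intro hu
          have := hon (p + 1 + 1) (by omega) (by omega) hu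
          omega
        unfold Uq at hnu
        push Not at hnu
        obtain ⟨y, hy1, hy2, hy3⟩ := hnu
        have hbi : per R (p + 1 + 1) ≠ per R p := htw _ (by omega) (by omega) (by omega)
        by_cases hy4 : y < p'
        · obtain ⟨z, hz1, hz2, hz3⟩ := inner hR hL _ (p + 1 + 1) y le_rfl hy1 (by omega) hy3.symm
          have := hon z (by omega) (by omega) hz3
          omega
        · by_cases hy5 : y = p'
          · subst hy5
            exact hbi (hy3.symm.trans he.symm)
          · by_cases hy6 : y < p + R.length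
            · exact hbi.symm (per_nc hR (a := p) (b := p + 1 + 1) (c := p') (d := y) (by omega)
                (by omega) (by omega) (by omega) he hy3.symm)
            · by_cases hy7 : y = p + R.length
              · subst hy7
                rw [per_add] at hy3
                exact hbi hy3.symm
              · have : y = p + 1 + R.length := by omega
                subst this
                rw [per_add] at hy3
                exact hne2 hy3
      subst hp'
      exact ⟨by omega, p, rfl, he, fun y hy1 hy2 => htw y (by omega) hy2 (by omega)⟩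
    · have hnu : ¬ Uq R (p + 1) := by
        intro hu
        exact hxp (hon (p + 1) (by omega) (by omega) hu).symm
      unfold Uq at hnu
      push Not at hnu
      obtain ⟨r, hr1, hr2, hr3⟩ := hnu
      have hin : ∀ r, p + 1 < r → r < p + 1 + R.length → per R r = per R (p + 1) → r < p' := by
        intro r hr1 hr2 hr3
        by_contra hr4
        by_cases hr5 : r = p'
        · subst hr5
          exact hne (he.trans hr3)
        · by_cases hr6 : r = p + R.length
          · subst hr6
            rw [per_add] at hr3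
            exact hne hr3
          · exact hne (per_nc hR (a := p) (b := p + 1) (c := p') (d := r) (by omega) (by omega)
              (by omega) (by omega) he hr3.symm)
      have hr4 := hin r hr1 hr2 hr3
      have hxr : ∀ r, p + 1 < r → r < p + 1 + R.length → per R r = per R (p + 1) → x < r := by
        intro r hr1 hr2 hr3
        have hr4 := hin r hr1 hr2 hr3
        obtain ⟨z, hz1, hz2, hz3⟩ := inner hR hL _ (p + 1) r le_rfl hr1 (by omega) hr3.symm
        have := hon z (by omega) (by omega) hz3
        omega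
      have hxr1 := hxr r hr1 hr2 hr3
      apply ih (p + 1) r x (by omega) hr1 (by omega) hr3.symm
      · intro y hy1 hy2 hy3 hy4
        have hy5 := hin y hy1 hy2 hy4
        have hy6 := hxr y hy1 hy2 hy4
        rcases Nat.lt_or_ge y r with hlt | hge
        · obtain ⟨z, hz1, hz2, hz3⟩ := inner hR hL _ y r le_rfl hlt (by omega) (hy4.trans hr3.symm)
          have := hon z (by omega) (by omega) hz3
          omega
        · obtain ⟨z, hz1, hz2, hz3⟩ := inner hR hL _ r y le_rfl (by omega) (by omega)
            (hr3.trans hy4.symm)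
          have := hon z (by omega) (by omega) hz3
          omega
      · intro z hz1 hz2 hz3
        exact hon z (by omega) (by omega) hz3
      · omega
      · omega

/-! ### counting -/

private lemma count_eq_card (R : List ℕ) (a : ℕ) :
    R.count a = ((Finset.range R.length).filter (fun k => R.getD k 0 = a)).card := by
  have h1 : R = (List.range R.length).map (fun k => R.getD k 0) := by
    apply List.ext_getElem
    · simp
    · intro i h1 h2
      simp [List.getD_eq_getElem?_getD, List.getElem?_eq_getElem h1]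
  conv_lhs => rw [h1]
  rw [List.count, List.countP_map]
  rw [List.countP_eq_length_filter]
  have h2 : ((Finset.range R.length).filter (fun k => R.getD k 0 = a)).card =
      ((Finset.range R.length).filter (fun k => R.getD k 0 = a)).val.card := rfl
  rw [h2]
  rw [Finset.filter_val, Finset.range_val, Multiset.range, Multiset.filter_coe, Multiset.coe_card]
  congr 1

private lemma once_iff {R : List ℕ} {x : ℕ} (hx : x < R.length) :
    Once R x = true ↔ ∀ y, y < R.length → R.getD y 0 = R.getD x 0 → y = x := by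
  unfold Once
  rw [decide_eq_true_iff, count_eq_card]
  constructor
  · intro h y hy hyx
    rw [Finset.card_eq_one] at h
    obtain ⟨a, ha⟩ := h
    have h1 : y ∈ (Finset.range R.length).filter (fun k => R.getD k 0 = R.getD x 0) := by
      simp only [Finset.mem_filter, Finset.mem_range]; exact ⟨hy, hyx⟩
    have h2 : x ∈ (Finset.range R.length).filter (fun k => R.getD k 0 = R.getD x 0) := by
      simp only [Finset.mem_filter, Finset.mem_range]; exact ⟨hx, trivial⟩
    rw [ha, Finset.mem_singleton] at h1 h2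
    rw [h1, h2]
  · intro h
    rw [Finset.card_eq_one]
    refine ⟨x, ?_⟩
    ext y
    simp only [Finset.mem_filter, Finset.mem_range, Finset.mem_singleton]
    constructor
    · rintro ⟨h1, h2⟩
      exact h y h1 h2
    · rintro rfl
      exact ⟨hx, rfl⟩

private lemma uq_once {R : List ℕ} {x : ℕ} (hu : Uq R x) (hL : 0 < R.length) :
    Once R (x % R.length) = true := by
  have h0 : x % R.length < R.length := Nat.mod_lt _ hL
  rw [once_iff h0]
  intro y hy hyx
  by_contra hne
  have h5 := Nat.mod_add_div x R.length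
  have hshift : ∀ k j, per R (k + R.length * j) = per R k := by
    intro k j
    unfold per
    rw [Nat.add_mul_mod_self_left]
  have hx : per R x = R.getD (x % R.length) 0 := rfl
  have hlin : R.length * (x / R.length + 1) = R.length * (x / R.length) + R.length := by ring
  rcases Nat.lt_or_ge (x % R.length) y with h | h
  · apply hu (y + R.length * (x / R.length)) (by omega) (by omega)
    rw [hshift, hx, per_lt hy, hyx]
  · apply hu (y + R.length * (x / R.length + 1)) (by omega) (by omega)
    rw [hshift, hx, per_lt hy, hyx]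

private lemma once_uq {R : List ℕ} {x : ℕ} (hx : x < R.length) (h : Once R x = true) :
    Uq R x := by
  rw [once_iff hx] at h
  intro y hy1 hy2 hy3
  have h0 : y % R.length < R.length := Nat.mod_lt _ (by omega)
  have := h (y % R.length) h0 (by rw [← per_lt hx, ← hy3]; rfl)
  have h5 := Nat.mod_add_div y R.length
  rw [this] at h5
  rcases Nat.eq_zero_or_pos (y / R.length) with h6 | h6
  · rw [h6] at h5; omega
  · have : R.length ≤ R.length * (y / R.length) := Nat.le_mul_of_pos_right _ h6
    omega

private lemma uq_add {R : List ℕ} {x : ℕ} : Uq R (x + R.length) ↔ Uq R x := by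
  constructor
  · intro h y hy1 hy2 hy3
    apply h (y + R.length) (by omega) (by omega)
    rw [per_add, per_add, hy3]
  · intro h y hy1 hy2 hy3
    have h1 := per_add (R := R) (y - R.length)
    rw [Nat.sub_add_cancel (by omega)] at h1
    apply h (y - R.length) (by omega) (by omega)
    rw [← h1, hy3, per_add]

private lemma scc_mod {L : ℕ} (hL : 2 ≤ L) (x : ℕ) : scc L (x % L) = (x + 1) % L := by
  have h0 : x % L < L := Nat.mod_lt _ (by omega)
  unfold scc
  rw [Nat.add_mod, Nat.mod_eq_of_lt (show 1 < L by omega)]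
  split_ifs with h
  · rw [h, Nat.mod_self]
  · rw [Nat.mod_eq_of_lt (show x % L + 1 < L by omega)]

private lemma prd_mod {L : ℕ} (hL : 2 ≤ L) (x : ℕ) : prd L ((x + 1) % L) = x % L := by
  have h0 : x % L < L := Nat.mod_lt _ (by omega)
  unfold prd
  rw [Nat.add_mod, Nat.mod_eq_of_lt (show 1 < L by omega)]
  by_cases h : x % L + 1 = L
  · rw [h, Nat.mod_self, if_pos rfl]
    omega
  · rw [Nat.mod_eq_of_lt (show x % L + 1 < L by omega), if_neg (by omega)]
    omega

/-- representative in a window -/
private lemma window {L : ℕ} (hL : 0 < L) (p y : ℕ) (hy : y < L) :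
    ∃ z, p ≤ z ∧ z < p + L ∧ z % L = y := by
  have h5 := Nat.mod_add_div p L
  have h0 : p % L < L := Nat.mod_lt _ hL
  have hlin : L * (p / L + 1) = L * (p / L) + L := by ring
  rcases Nat.lt_or_ge y (p % L) with h | h
  · refine ⟨y + L * (p / L + 1), by omega, by omega, ?_⟩
    rw [Nat.add_mul_mod_self_left, Nat.mod_eq_of_lt hy]
  · refine ⟨y + L * (p / L), by omega, by omega, ?_⟩
    rw [Nat.add_mul_mod_self_left, Nat.mod_eq_of_lt hy]

private lemma sp_sup {R : List ℕ} {x : ℕ} (hR : CW R) (hs : Sp R x) :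
    Sup R (x % R.length) = true := by
  obtain ⟨hL, p, rfl, he, htw⟩ := hs
  have hne := per_ne hR (by omega) p
  unfold Sup
  rw [decide_eq_true_iff, prd_mod (by omega), scc_mod (by omega)]
  refine ⟨he, ?_⟩
  rw [count_eq_card, Finset.card_eq_two]
  refine ⟨p % R.length, (p + 2) % R.length, ?_, ?_⟩
  · intro h
    have h1 : R.length ∣ (p + 2) - p := (Nat.modEq_iff_dvd' (by omega)).1 h
    have h4 := Nat.le_of_dvd (by omega) h1
    omega
  · ext y
    simp only [Finset.mem_filter, Finset.mem_range, Finset.mem_insert, Finset.mem_singleton]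
    constructor
    · rintro ⟨hy, hye⟩
      obtain ⟨z, hz1, hz2, hz3⟩ := window (show 0 < R.length by omega) p y hy
      have hz4 : per R z = per R p := by
        unfold per
        rw [hz3, hye]
      by_cases hp0 : z = p
      · left; rw [← hz3, hp0]
      · by_cases hp1 : z = p + 1
        · subst hp1; exact absurd hz4.symm hne
        · by_cases hp2 : z = p + 2
          · right; rw [← hz3, hp2]
          · exact absurd hz4 (htw z (by omega) (by omega))
    · rintro (rfl | rfl)
      · exact ⟨Nat.mod_lt _ (by omega), rfl⟩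
      · exact ⟨Nat.mod_lt _ (by omega), he.symm⟩

/-! ### linear form -/

private lemma mem_hurdles {R : List ℕ} {x : ℕ} :
    x ∈ hurdles R ↔ x < R.length ∧ Once R x = true := by
  unfold hurdles
  simp

private lemma hurdles_sorted (R : List ℕ) : (hurdles R).Pairwise (· < ·) := by
  unfold hurdles
  exact List.Pairwise.filter _ List.pairwise_lt_range

/-- there is a hurdle between two occurrences -/
private lemma hin {R : List ℕ} (hR : CW R) {p p' : ℕ} (h1 : p < p') (h2 : p' < R.length)
    (he : R.getD p 0 = R.getD p' 0) : ∃ x ∈ hurdles R, p < x ∧ x < p' := by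
  obtain ⟨x, hx1, hx2, hx3⟩ := inner hR (by omega) _ p p' le_rfl h1 (by omega)
    (by rw [per_lt (by omega), per_lt h2]; exact he)
  refine ⟨x, ?_, hx1, hx2⟩
  rw [mem_hurdles]
  refine ⟨by omega, ?_⟩
  have := uq_once hx3 (by omega)
  rwa [Nat.mod_eq_of_lt (by omega)] at this

/-- there is a hurdle outside of two occurrences -/
private lemma hout {R : List ℕ} (hR : CW R) {p p' : ℕ} (h1 : p < p') (h2 : p' < R.length)
    (he : R.getD p 0 = R.getD p' 0) : ∃ x ∈ hurdles R, x < p ∨ p' < x := by
  obtain ⟨x, hx1, hx2, hx3⟩ := inner hR (by omega) _ p' (p + R.length) le_rfl (by omega) (by omega)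
    (by rw [per_add, per_lt h2, per_lt (k := p) (by omega)]; exact he.symm)
  have h3 := uq_once hx3 (by omega)
  by_cases h4 : x < R.length
  · rw [Nat.mod_eq_of_lt h4] at h3
    exact ⟨x, mem_hurdles.2 ⟨h4, h3⟩, Or.inr hx1⟩
  · rw [Nat.mod_eq_sub_mod (by omega), Nat.mod_eq_of_lt (by omega)] at h3
    exact ⟨x - R.length, mem_hurdles.2 ⟨by omega, h3⟩, Or.inl (by omega)⟩

/-- only one hurdle inside of a letter that occurs exactly twice -/
private lemma sup_in {R : List ℕ} (hR : CW R) {p p' x : ℕ} (h1 : p < p') (h2 : p' < R.length)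
    (he : R.getD p 0 = R.getD p' 0)
    (htw : ∀ y, y < R.length → R.getD y 0 = R.getD p 0 → y = p ∨ y = p')
    (hon : ∀ z ∈ hurdles R, p < z → z < p' → z = x) : Sup R x = true := by
  obtain ⟨x', hx0, hx1, hx2⟩ := hin hR h1 h2 he
  have := hon x' hx0 hx1 hx2
  subst this
  have h3 := nest hR (by omega) _ p p' x' le_rfl h1 (by omega)
    (by rw [per_lt (by omega), per_lt h2]; exact he) ?_ ?_ hx1 hx2
  · have := sp_sup hR h3
    rwa [Nat.mod_eq_of_lt (by omega)] at this
  · intro y hy1 hy2 hy3 hy4
    by_cases hy5 : y < R.length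
    · rw [per_lt hy5, per_lt (by omega)] at hy4
      rcases htw y hy5 hy4 with h | h <;> omega
    · have h6 := per_add (R := R) (y - R.length)
      rw [Nat.sub_add_cancel (by omega)] at h6
      rw [h6, per_lt (by omega), per_lt (by omega)] at hy4
      rcases htw _ (by omega) hy4 with h | h <;> omega
  · intro z hz1 hz2 hz3
    apply hon z _ hz1 hz2
    rw [mem_hurdles]
    have := uq_once hz3 (by omega)
    rw [Nat.mod_eq_of_lt (by omega)] at this
    exact ⟨by omega, this⟩

/-- only one hurdle outside of a letter that occurs exactly twice -/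
private lemma sup_out {R : List ℕ} (hR : CW R) {p p' x : ℕ} (h1 : p < p') (h2 : p' < R.length)
    (he : R.getD p 0 = R.getD p' 0)
    (htw : ∀ y, y < R.length → R.getD y 0 = R.getD p 0 → y = p ∨ y = p')
    (hon : ∀ z ∈ hurdles R, z < p ∨ p' < z → z = x) : Sup R x = true := by
  obtain ⟨x', hx0, hx1⟩ := hout hR h1 h2 he
  have := hon x' hx0 hx1
  subst this
  have hx4 := mem_hurdles.1 hx0
  have hu := once_uq hx4.1 hx4.2
  obtain ⟨X, hX1, hX2, hX3⟩ : ∃ X, p' < X ∧ X < p + R.length ∧ X % R.length = x' := by
    rcases hx1 with h | h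
    · refine ⟨x' + R.length, by omega, by omega, ?_⟩
      rw [Nat.add_mod_right, Nat.mod_eq_of_lt hx4.1]
    · refine ⟨x', by omega, by omega, ?_⟩
      rw [Nat.mod_eq_of_lt hx4.1]
  have h3 := nest hR (by omega) _ p' (p + R.length) X le_rfl (by omega) (by omega)
    (by rw [per_add, per_lt h2, per_lt (k := p) (by omega)]; exact he.symm) ?_ ?_ hX1 hX2
  · have := sp_sup hR h3
    rwa [hX3] at this
  · intro y hy1 hy2 hy3 hy4
    rw [per_lt h2, ← he] at hy4
    by_cases hy5 : y < R.length
    · rw [per_lt hy5] at hy4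
      rcases htw y hy5 hy4 with h | h <;> omega
    · have h6 := per_add (R := R) (y - R.length)
      rw [Nat.sub_add_cancel (by omega)] at h6
      rw [h6, per_lt (by omega)] at hy4
      rcases htw _ (by omega) hy4 with h | h <;> omega
  · intro z hz1 hz2 hz3
    have h4 := uq_once hz3 (by omega)
    by_cases h5 : z < R.length
    · rw [Nat.mod_eq_of_lt h5] at h4
      have h6 := hon z (mem_hurdles.2 ⟨h5, h4⟩) (Or.inr hz1)
      by_cases h7 : X < R.length
      · rw [Nat.mod_eq_of_lt h7] at hX3
        omega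
      · exfalso
        rw [Nat.mod_eq_sub_mod (by omega), Nat.mod_eq_of_lt (by omega)] at hX3
        omega
    · rw [Nat.mod_eq_sub_mod (by omega), Nat.mod_eq_of_lt (by omega)] at h4
      have h6 := hon (z - R.length) (mem_hurdles.2 ⟨by omega, h4⟩) (Or.inl (by omega))
      by_cases h7 : X < R.length
      · exfalso
        rw [Nat.mod_eq_of_lt h7] at hX3
        omega
      · rw [Nat.mod_eq_sub_mod (by omega), Nat.mod_eq_of_lt (by omega)] at hX3
        omega

/-! ### pairs of halves -/

private lemma mem_halves {H : List ℕ} {f : ℕ × ℕ} :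
    f ∈ halves H ↔ ∃ t, t < H.length / 2 ∧ f = (H.getD t 0, H.getD (t + H.length / 2) 0) := by
  unfold halves
  rw [List.mem_map]
  constructor
  · rintro ⟨t, h1, h2⟩
    exact ⟨t, by simpa using h1, h2.symm⟩
  · rintro ⟨t, h1, h2⟩
    exact ⟨t, by simpa using h1, h2.symm⟩

private lemma getD_lt {H : List ℕ} (hH : H.Pairwise (· < ·)) {s t : ℕ} (hst : s < t)
    (ht : t < H.length) : H.getD s 0 < H.getD t 0 := by
  rw [List.getD_eq_getElem _ _ (by omega), List.getD_eq_getElem _ _ ht]
  exact List.pairwise_iff_getElem.1 hH s t (by omega) ht hst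

private lemma getD_le {H : List ℕ} (hH : H.Pairwise (· < ·)) {s t : ℕ} (hst : s ≤ t)
    (ht : t < H.length) : H.getD s 0 ≤ H.getD t 0 := by
  rcases Nat.lt_or_ge s t with h | h
  · exact (getD_lt hH h ht).le
  · have : s = t := by omega
    rw [this]

private lemma mem_getD {H : List ℕ} {x : ℕ} : x ∈ H ↔ ∃ t, t < H.length ∧ H.getD t 0 = x := by
  rw [List.mem_iff_getElem]
  constructor
  · rintro ⟨t, h1, h2⟩
    exact ⟨t, h1, by rw [List.getD_eq_getElem _ _ h1]; exact h2⟩
  · rintro ⟨t, h1, h2⟩
    exact ⟨t, h1, by rw [List.getD_eq_getElem _ _ h1] at h2; exact h2⟩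

/-- one of the pairs is separated by an interval -/
private lemma halves_sep {H : List ℕ} (hH : H.Pairwise (· < ·)) (he : H.length % 2 = 0)
    {p p' x y : ℕ} (hx : x ∈ H) (hx1 : p < x ∧ x < p') (hy : y ∈ H) (hy1 : ¬ (p < y ∧ y < p')) :
    ∃ f ∈ halves H, ((p < f.1 ∧ f.1 < p') ∧ ¬ (p < f.2 ∧ f.2 < p')) ∨
      (¬ (p < f.1 ∧ f.1 < p') ∧ (p < f.2 ∧ f.2 < p')) := by
  by_contra hc
  have hq : ∀ t, t < H.length / 2 → ((p < H.getD t 0 ∧ H.getD t 0 < p') ↔
      (p < H.getD (t + H.length / 2) 0 ∧ H.getD (t + H.length / 2) 0 < p')) := by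
    intro t ht
    by_contra h0
    apply hc
    refine ⟨(H.getD t 0, H.getD (t + H.length / 2) 0), mem_halves.2 ⟨t, ht, rfl⟩, ?_⟩
    tauto
  obtain ⟨tx, htx, rfl⟩ := mem_getD.1 hx
  obtain ⟨ty, hty, rfl⟩ := mem_getD.1 hy
  obtain ⟨t0, ht0, h3, h4⟩ : ∃ t0, t0 < H.length / 2 ∧ (p < H.getD t0 0 ∧ H.getD t0 0 < p') ∧
      (p < H.getD (t0 + H.length / 2) 0 ∧ H.getD (t0 + H.length / 2) 0 < p') := by
    rcases Nat.lt_or_ge tx (H.length / 2) with h | h
    · exact ⟨tx, h, hx1, (hq tx h).1 hx1⟩
    · have h5 : tx - H.length / 2 < H.length / 2 := by omega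
      have h6 : tx - H.length / 2 + H.length / 2 = tx := by omega
      refine ⟨tx - H.length / 2, h5, ?_, ?_⟩
      · apply (hq _ h5).2
        rw [h6]; exact hx1
      · rw [h6]; exact hx1
  have h5 := getD_le hH (show t0 ≤ H.length / 2 - 1 by omega) (by omega)
  have h6 := getD_le hH (show H.length / 2 - 1 ≤ t0 + H.length / 2 by omega) (by omega)
  have h7 := getD_le hH (show t0 ≤ H.length / 2 by omega) (by omega)
  have h8 := getD_le hH (show H.length / 2 ≤ t0 + H.length / 2 by omega) (by omega)
  have h9 := (hq (H.length / 2 - 1) (by omega)).1 (by omega)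
  have h10 := (hq 0 (by omega)).2 (by rw [Nat.zero_add]; omega)
  have h11 := getD_le hH (show 0 ≤ ty by omega) (by omega)
  have h12 := getD_le hH (show ty ≤ H.length / 2 - 1 + H.length / 2 by omega) (by omega)
  exact hy1 (by omega)

private lemma cut_sep {R : List ℕ} {i p p' x y : ℕ} (h2 : p' < R.length)
    (hp : R.getD p 0 = i) (hp' : R.getD p' 0 = i) (hx : p < x ∧ x < p')
    (hy : y ≤ p ∨ p' ≤ y) : CutW R i x y ∧ CutW R i y x := by
  unfold CutW
  rcases hy with hy | hy
  · have hmin : min x y = y := by omega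
    have hmax : max x y = x := by omega
    rw [min_comm y x, max_comm y x, hmin, hmax]
    refine ⟨⟨⟨p, by omega, by omega, hp⟩, p', by omega, hp', by omega⟩,
      ⟨p, by omega, by omega, hp⟩, p', by omega, hp', by omega⟩
  · have hmin : min x y = x := by omega
    have hmax : max x y = y := by omega
    rw [min_comm y x, max_comm y x, hmin, hmax]
    refine ⟨⟨⟨p', by omega, by omega, hp'⟩, p, by omega, hp, by omega⟩,
      ⟨p', by omega, by omega, hp'⟩, p, by omega, hp, by omega⟩

/-- a pair separated by two occurrences of a letter cuts it, provided that its positions carry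
other letters -/
private lemma cut_of_sep {R : List ℕ} {p p' x y : ℕ} (h2 : p' < R.length)
    (he : R.getD p 0 = R.getD p' 0)
    (hx : R.getD x 0 ≠ R.getD p 0) (hy : R.getD y 0 ≠ R.getD p 0)
    (hs : ((p < x ∧ x < p') ∧ ¬ (p < y ∧ y < p')) ∨ (¬ (p < x ∧ x < p') ∧ (p < y ∧ y < p'))) :
    CutW R (R.getD p 0) x y := by
  rcases hs with ⟨h3, h4⟩ | ⟨h3, h4⟩
  · exact (cut_sep h2 rfl he.symm h3 (by omega)).1
  · exact (cut_sep h2 rfl he.symm h4 (by omega)).2

private lemma hurdle_ne {R : List ℕ} {x p p' : ℕ} (hx : x ∈ hurdles R) (h1 : p < p')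
    (h2 : p' < R.length) (he : R.getD p 0 = R.getD p' 0) : R.getD x 0 ≠ R.getD p 0 := by
  intro h
  have h3 := mem_hurdles.1 hx
  have h4 := (once_iff h3.1).1 h3.2
  have h5 := h4 p (by omega) h.symm
  have h6 := h4 p' h2 (by rw [← he, h])
  omega

/-- the main lemma, all hurdles -/
private lemma cover_even {R : List ℕ} (hR : CW R) (he : (hurdles R).length % 2 = 0) {p p' : ℕ}
    (h1 : p < p') (h2 : p' < R.length) (hpp : R.getD p 0 = R.getD p' 0) :
    ∃ f ∈ halves (hurdles R), CutW R (R.getD p 0) f.1 f.2 := by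
  obtain ⟨x, hx, hx1⟩ := hin hR h1 h2 hpp
  obtain ⟨y, hy, hy1⟩ := hout hR h1 h2 hpp
  obtain ⟨f, hf, hs⟩ := halves_sep (hurdles_sorted R) he hx hx1 hy (by omega)
  refine ⟨f, hf, ?_⟩
  obtain ⟨t, ht, rfl⟩ := mem_halves.1 hf
  exact cut_of_sep h2 hpp
    (hurdle_ne (mem_getD.2 ⟨t, by omega, rfl⟩) h1 h2 hpp)
    (hurdle_ne (mem_getD.2 ⟨_, by omega, rfl⟩) h1 h2 hpp) hs

private lemma mem_erase {H : List ℕ} (hH : H.Pairwise (· < ·)) {s : ℕ} (hs : s < H.length)
    {x : ℕ} : x ∈ H.eraseIdx s ↔ x ∈ H ∧ x ≠ H.getD s 0 := by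
  rw [List.mem_eraseIdx_iff_getElem]
  constructor
  · rintro ⟨i, hi, hne, rfl⟩
    refine ⟨List.getElem_mem _, ?_⟩
    rw [← List.getD_eq_getElem _ 0 hi]
    rcases Nat.lt_or_ge i s with h | h
    · exact (getD_lt hH h hs).ne
    · exact (getD_lt hH (show s < i by omega) hi).ne'
  · rintro ⟨hx, hne⟩
    obtain ⟨i, hi, rfl⟩ := mem_getD.1 hx
    exact ⟨i, hi, fun h => hne (by rw [h]), (List.getD_eq_getElem _ _ hi).symm⟩

/-- the main lemma, all hurdles but one -/
private lemma cover_odd {R : List ℕ} (hR : CW R) {s : ℕ} (hs : s < (hurdles R).length)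
    (he : (hurdles R).length % 2 = 1) {p p' : ℕ}
    (h1 : p < p') (h2 : p' < R.length) (hpp : R.getD p 0 = R.getD p' 0) :
    (∃ f ∈ halves ((hurdles R).eraseIdx s), CutW R (R.getD p 0) f.1 f.2) ∨
      (Sup R ((hurdles R).getD s 0) = true ∧ ∀ d ∈ hurdles R, d ≠ (hurdles R).getD s 0 →
        CutW R (R.getD p 0) ((hurdles R).getD s 0) d) := by
  set c := (hurdles R).getD s 0 with hc
  have hcm : c ∈ hurdles R := mem_getD.2 ⟨s, hs, rfl⟩
  set H := (hurdles R).eraseIdx s with hH
  have hHs : H.Pairwise (· < ·) := (hurdles_sorted R).sublist (List.eraseIdx_sublist _ _)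
  have hHl : H.length + 1 = (hurdles R).length := by
    rw [hH, List.length_eraseIdx_of_lt hs]
    omega
  have hHm : ∀ x, x ∈ H ↔ x ∈ hurdles R ∧ x ≠ c := fun x => mem_erase (hurdles_sorted R) hs
  -- a separated interval gives a cut
  have good : ∀ a b : ℕ, a < b → b < R.length → R.getD a 0 = R.getD p 0 →
      R.getD b 0 = R.getD p 0 → (∃ x ∈ H, a < x ∧ x < b) → (∃ y ∈ H, ¬ (a < y ∧ y < b)) →
      ∃ f ∈ halves H, CutW R (R.getD p 0) f.1 f.2 := by
    rintro a b hab hb ha hb' ⟨x, hx, hx1⟩ ⟨y, hy, hy1⟩
    have hab' : R.getD a 0 = R.getD b 0 := by rw [ha, hb']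
    obtain ⟨f, hf, hs⟩ := halves_sep hHs (by omega) hx hx1 hy hy1
    refine ⟨f, hf, ?_⟩
    obtain ⟨t, ht, rfl⟩ := mem_halves.1 hf
    rw [← ha]
    exact cut_of_sep hb hab'
      (hurdle_ne ((hHm _).1 (mem_getD.2 ⟨t, by omega, rfl⟩)).1 hab hb hab')
      (hurdle_ne ((hHm _).1 (mem_getD.2 ⟨_, by omega, rfl⟩)).1 hab hb hab') hs
  by_cases htw : ∀ y, y < R.length → R.getD y 0 = R.getD p 0 → y = p ∨ y = p'
  · by_cases hi : ∃ x ∈ H, p < x ∧ x < p'
    · by_cases ho : ∃ y ∈ H, ¬ (p < y ∧ y < p')
      · left
        exact good p p' h1 h2 rfl hpp.symm hi ho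
      · right
        push Not at ho
        have hon : ∀ z ∈ hurdles R, z < p ∨ p' < z → z = c := by
          intro z hz hz1
          by_contra hzc
          have := ho z ((hHm z).2 ⟨hz, hzc⟩)
          omega
        refine ⟨sup_out hR h1 h2 hpp htw hon, ?_⟩
        intro d hd hdc
        have hd1 := ho d ((hHm d).2 ⟨hd, hdc⟩)
        obtain ⟨y, hy, hy1⟩ := hout hR h1 h2 hpp
        have hy2 := hon y hy hy1
        exact (cut_sep h2 rfl hpp.symm hd1 (by omega)).2
    · right
      push Not at hi
      have hon : ∀ z ∈ hurdles R, p < z → z < p' → z = c := by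
        intro z hz hz1 hz2
        by_contra hzc
        have := hi z ((hHm z).2 ⟨hz, hzc⟩)
        omega
      refine ⟨sup_in hR h1 h2 hpp htw hon, ?_⟩
      intro d hd hdc
      have hd1 := hi d ((hHm d).2 ⟨hd, hdc⟩)
      obtain ⟨y, hy, hy1, hy2⟩ := hin hR h1 h2 hpp
      have hy3 := hon y hy hy1 hy2
      exact (cut_sep h2 rfl hpp.symm (show p < c ∧ c < p' by omega) (by omega)).1
  · -- at least three occurrences
    left
    push Not at htw
    obtain ⟨r, hr, hre, hrp, hrp'⟩ := htw
    -- sort the three occurrences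
    obtain ⟨a, b, d, hab, hbd, hd, ha', hb', hd'⟩ : ∃ a b d, a < b ∧ b < d ∧ d < R.length ∧
        R.getD a 0 = R.getD p 0 ∧ R.getD b 0 = R.getD p 0 ∧ R.getD d 0 = R.getD p 0 := by
      rcases Nat.lt_or_ge r p with h | h
      · exact ⟨r, p, p', h, h1, h2, hre, rfl, hpp.symm⟩
      · rcases Nat.lt_or_ge r p' with h' | h'
        · exact ⟨p, r, p', by omega, h', h2, rfl, hre, hpp.symm⟩
        · exact ⟨p, p', r, h1, by omega, hr, rfl, hpp.symm, hre⟩
    obtain ⟨x, hx, hx1, hx2⟩ := hin hR hab (by omega) (ha'.trans hb'.symm)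
    obtain ⟨y, hy, hy1, hy2⟩ := hin hR hbd (by omega) (hb'.trans hd'.symm)
    obtain ⟨z, hz, hz1⟩ := hout hR (hab.trans hbd) (by omega) (ha'.trans hd'.symm)
    by_cases hxc : x = c
    · apply good b d hbd hd hb' hd'
      · exact ⟨y, (hHm y).2 ⟨hy, by omega⟩, hy1, hy2⟩
      · exact ⟨z, (hHm z).2 ⟨hz, by omega⟩, by omega⟩
    · apply good a b hab (by omega) ha' hb'
      · exact ⟨x, (hHm x).2 ⟨hx, hxc⟩, hx1, hx2⟩
      · by_cases hyc : y = c
        · exact ⟨z, (hHm z).2 ⟨hz, by omega⟩, by omega⟩
        · exact ⟨y, (hHm y).2 ⟨hy, hyc⟩, by omega⟩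

/-- if all hurdles are super and their number is odd then there are at least three -/
private lemma fort {R : List ℕ} (hR : CW R) (he : (hurdles R).length % 2 = 1)
    (hs : ¬ sidx R < (hurdles R).length) : 3 ≤ (hurdles R).length := by
  have hall : ∀ j ∈ hurdles R, Sup R j = true := by
    intro j hj
    by_contra hh
    apply hs
    unfold sidx
    rw [List.findIdx_lt_length]
    exact ⟨j, hj, by simpa using hh⟩
  obtain ⟨j, hj⟩ : ∃ j, j ∈ hurdles R := by
    apply List.exists_mem_of_length_pos
    omega
  have h1 := hall j hj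
  have h2 := mem_hurdles.1 hj
  unfold Sup at h1
  rw [decide_eq_true_iff] at h1
  have h3 := h1.2
  rw [count_eq_card] at h3
  have h4 : 1 < ((Finset.range R.length).filter
    (fun k => R.getD k 0 = R.getD (prd R.length j) 0)).card := by omega
  rw [Finset.one_lt_card] at h4
  obtain ⟨a, ha, b, hb, hab⟩ := h4
  simp only [Finset.mem_filter, Finset.mem_range] at ha hb
  have h5 : ∃ a b, a < b ∧ b < R.length ∧ R.getD a 0 = R.getD b 0 := by
    rcases Nat.lt_or_ge a b with h | h
    · exact ⟨a, b, h, hb.1, ha.2.trans hb.2.symm⟩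
    · exact ⟨b, a, by omega, ha.1, hb.2.trans ha.2.symm⟩
  obtain ⟨a, b, hab, hb, he'⟩ := h5
  obtain ⟨x, hx, hx1, hx2⟩ := hin hR hab hb he'
  obtain ⟨y, hy, hy1⟩ := hout hR hab hb he'
  obtain ⟨s, hs, rfl⟩ := mem_getD.1 hx
  obtain ⟨t, ht, rfl⟩ := mem_getD.1 hy
  have : s ≠ t := by
    rintro rfl
    omega
  omega

/-! ### the results -/

theorem plan_cover {R : List ℕ} (hR : CW R) {i : ℕ} (hi : i ∈ R) :
    (∃ f ∈ (plan R).1, CutW R i f.1 f.2) ∨ ∃ j, (plan R).2 = some j ∧ R.getD j 0 = i := by
  obtain ⟨k, hk, rfl⟩ := mem_getD.1 hi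
  -- the letter of a position of a pair is cut by this pair
  have cutL : ∀ x y, x < R.length → CutW R (R.getD x 0) x y := by
    intro x y hx
    exact ⟨⟨x, by omega, by omega, rfl⟩, x, hx, rfl, by omega⟩
  have cutR : ∀ x y, y < R.length → CutW R (R.getD y 0) x y := by
    intro x y hy
    exact ⟨⟨y, by omega, by omega, rfl⟩, y, hy, rfl, by omega⟩
  have halvesCut : ∀ H : List ℕ, H.length % 2 = 0 → (∀ x ∈ H, x < R.length) → k ∈ H →
      ∃ f ∈ halves H, CutW R (R.getD k 0) f.1 f.2 := by
    intro H hH hlt hkH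
    obtain ⟨t, ht, rfl⟩ := mem_getD.1 hkH
    rcases Nat.lt_or_ge t (H.length / 2) with h | h
    · exact ⟨_, mem_halves.2 ⟨t, h, rfl⟩, cutL _ _ (hlt _ hkH)⟩
    · refine ⟨_, mem_halves.2 ⟨t - H.length / 2, by omega, rfl⟩, ?_⟩
      have h6 : t - H.length / 2 + H.length / 2 = t := by omega
      rw [h6]
      exact cutR _ _ (hlt _ hkH)
  by_cases hon : Once R k = true
  · have hkm : k ∈ hurdles R := mem_hurdles.2 ⟨hk, hon⟩
    unfold plan
    split_ifs with h1 h2
    · left
      exact halvesCut _ h1 (fun x hx => (mem_hurdles.1 hx).1) hkm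
    · by_cases hks : k = (hurdles R).getD (sidx R) 0
      · right
        exact ⟨_, rfl, by rw [hks]⟩
      · left
        apply halvesCut
        · rw [List.length_eraseIdx_of_lt h2]
          omega
        · intro x hx
          exact (mem_hurdles.1 ((mem_erase (hurdles_sorted R) h2).1 hx).1).1
        · exact (mem_erase (hurdles_sorted R) h2).2 ⟨hkm, hks⟩
    · left
      have h3 := fort hR (by omega) h2
      by_cases hks : k = (hurdles R).getD 0 0
      · refine ⟨_, List.mem_append_right _ (List.mem_singleton.2 rfl), ?_⟩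
        rw [← hks]
        exact cutL _ _ hk
      · obtain ⟨f, hf, hf2⟩ := halvesCut ((hurdles R).eraseIdx 0) (by
            rw [List.length_eraseIdx_of_lt (by omega)]; omega)
          (fun x hx => (mem_hurdles.1 ((mem_erase (hurdles_sorted R) (by omega)).1 hx).1).1)
          ((mem_erase (hurdles_sorted R) (by omega)).2 ⟨hkm, hks⟩)
        exact ⟨f, List.mem_append_left _ hf, hf2⟩
  · -- a letter with several occurrences
    rw [once_iff hk] at hon
    push Not at hon
    obtain ⟨k', hk', he, hne⟩ := hon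
    obtain ⟨p, p', h1, h2, hpp, hpi⟩ : ∃ p p', p < p' ∧ p' < R.length ∧
        R.getD p 0 = R.getD p' 0 ∧ R.getD p 0 = R.getD k 0 := by
      rcases Nat.lt_or_ge k k' with h | h
      · exact ⟨k, k', h, hk', he.symm, rfl⟩
      · exact ⟨k', k, by omega, hk, he, he⟩
    rw [← hpi]
    left
    unfold plan
    split_ifs with h3 h4
    · exact cover_even hR h3 h1 h2 hpp
    · rcases cover_odd hR h4 (by omega) h1 h2 hpp with h5 | ⟨h5, -⟩
      · exact h5
      · exfalso
        have h6 : (hurdles R).findIdx (fun j => !Sup R j) < (hurdles R).length := h4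
        have h7 := List.findIdx_getElem (w := h6)
        rw [← List.getD_eq_getElem _ 0 h6] at h7
        change (!Sup R ((hurdles R).getD (sidx R) 0)) = true at h7
        rw [h5] at h7
        simp at h7
    · have h5 := fort hR (by omega) h4
      rcases cover_odd hR (s := 0) (by omega) (by omega) h1 h2 hpp with ⟨f, hf, hf2⟩ | ⟨h6, h7⟩
      · exact ⟨f, List.mem_append_left _ hf, hf2⟩
      · refine ⟨_, List.mem_append_right _ (List.mem_singleton.2 rfl), ?_⟩
        apply h7
        · exact mem_getD.2 ⟨1, by omega, rfl⟩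
        · exact (getD_lt (hurdles_sorted R) (by omega) (by omega)).ne'

theorem plan_lt {R : List ℕ} (hR : CW R) : (∀ f ∈ (plan R).1, f.1 < R.length ∧ f.2 < R.length ∧
    f.1 ≠ f.2 ∧ Once R f.1 = true ∧ Once R f.2 = true) ∧
    ∀ j, (plan R).2 = some j → j < R.length ∧ Once R j = true := by
  have hal : ∀ H : List ℕ, H.Pairwise (· < ·) → (∀ x ∈ H, x ∈ hurdles R) →
      ∀ f ∈ halves H, f.1 < R.length ∧ f.2 < R.length ∧
        f.1 ≠ f.2 ∧ Once R f.1 = true ∧ Once R f.2 = true := by
    intro H hH hm f hf
    obtain ⟨t, ht, rfl⟩ := mem_halves.1 hf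
    have h1 := mem_hurdles.1 (hm _ (mem_getD.2 ⟨t, by omega, rfl⟩))
    have h2 := mem_hurdles.1 (hm _ (mem_getD.2 ⟨t + H.length / 2, by omega, rfl⟩))
    exact ⟨h1.1, h2.1, (getD_lt hH (by omega) (by omega)).ne, h1.2, h2.2⟩
  unfold plan
  split_ifs with h1 h2
  · refine ⟨hal _ (hurdles_sorted R) (fun x hx => hx), ?_⟩
    intro j hj
    simp at hj
  · refine ⟨hal _ ((hurdles_sorted R).sublist (List.eraseIdx_sublist _ _))
      (fun x hx => ((mem_erase (hurdles_sorted R) h2).1 hx).1), ?_⟩
    intro j hj
    simp only [Option.some.injEq] at hj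
    subst hj
    exact mem_hurdles.1 (mem_getD.2 ⟨_, h2, rfl⟩)
  · have h3 := fort hR (by omega) h2
    refine ⟨?_, ?_⟩
    · intro f hf
      rcases List.mem_append.1 hf with hf | hf
      · exact hal _ ((hurdles_sorted R).sublist (List.eraseIdx_sublist _ _))
          (fun x hx => ((mem_erase (hurdles_sorted R) (by omega)).1 hx).1) f hf
      · rw [List.mem_singleton] at hf
        subst hf
        have h4 := mem_hurdles.1 (mem_getD.2 ⟨0, by omega, rfl⟩ : (hurdles R).getD 0 0 ∈ hurdles R)
        have h5 := mem_hurdles.1 (mem_getD.2 ⟨1, by omega, rfl⟩ : (hurdles R).getD 1 0 ∈ hurdles R)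
        exact ⟨h4.1, h5.1, (getD_lt (hurdles_sorted R) (by omega) (by omega)).ne, h4.2, h5.2⟩
    · intro j hj
      simp at hj

/-- a letter that occurs once is cut only by the pairs that contain its position -/
private lemma once_cut {R : List ℕ} {x y z : ℕ} (hx : x ∈ hurdles R) (hy : y ≠ x) (hz : z ≠ x)
    (hy1 : y < R.length) (hz1 : z < R.length) : ¬ CutW R (R.getD x 0) y z := by
  rintro ⟨⟨k, hk1, hk2, hk3⟩, k', hk4, hk5, hk6⟩
  have h1 := mem_hurdles.1 hx
  have h2 := (once_iff h1.1).1 h1.2
  have h3 := h2 k' hk4 hk5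
  subst h3
  have h5 := h2 k (by omega) hk3
  subst h5
  omega

private lemma mem_R {R : List ℕ} {x : ℕ} (hx : x < R.length) : R.getD x 0 ∈ R :=
  mem_getD.2 ⟨x, hx, rfl⟩

private lemma halves_new {R H : List ℕ} (hH : H.Pairwise (· < ·)) (hm : ∀ x ∈ H, x ∈ hurdles R)
    {pre : List (ℕ × ℕ)} {f : ℕ × ℕ} {post : List (ℕ × ℕ)} (h : halves H = pre ++ f :: post) :
    ∃ i ∈ R, CutW R i f.1 f.2 ∧ ∀ d ∈ pre, ¬ CutW R i d.1 d.2 := by
  have hlen : (halves H).length = H.length / 2 := by
    unfold halves
    simp
  have hget : ∀ t, t < H.length / 2 → (halves H)[t]? =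
      some (H.getD t 0, H.getD (t + H.length / 2) 0) := by
    intro t ht
    unfold halves
    rw [List.getElem?_map, List.getElem?_range ht]
    rfl
  have ht : pre.length < H.length / 2 := by
    rw [← hlen, h]
    simp
  have h1 := hget _ ht
  rw [h] at h1
  simp only [List.getElem?_append_right le_rfl, Nat.sub_self, List.getElem?_cons_zero,
    Option.some.injEq] at h1
  subst h1
  have hxm := hm _ (mem_getD.2 ⟨pre.length, by omega, rfl⟩)
  have hx := mem_hurdles.1 hxm
  refine ⟨R.getD (H.getD pre.length 0) 0, mem_R hx.1, ?_, ?_⟩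
  · exact ⟨⟨_, by omega, by omega, rfl⟩, _, hx.1, rfl, by omega⟩
  · intro d hd
    obtain ⟨s, hs, hsd⟩ := List.mem_iff_getElem.1 hd
    have h2 := hget s (by omega)
    rw [h, List.getElem?_append_left hs, List.getElem?_eq_getElem hs, hsd,
      Option.some.injEq] at h2
    subst h2
    have h3 := mem_hurdles.1 (hm _ (mem_getD.2 ⟨s, by omega, rfl⟩))
    have h4 := mem_hurdles.1 (hm _ (mem_getD.2 ⟨s + H.length / 2, by omega, rfl⟩))
    exact once_cut hxm (getD_lt hH hs (by omega)).ne
      (getD_lt hH (show pre.length < s + H.length / 2 by omega) (by omega)).ne' h3.1 h4.1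

theorem plan_new {R : List ℕ} (hR : CW R) {pre : List (ℕ × ℕ)} {f : ℕ × ℕ} {post : List (ℕ × ℕ)}
    (h : (plan R).1 = pre ++ f :: post) :
    ∃ i ∈ R, CutW R i f.1 f.2 ∧ ∀ d ∈ pre, ¬ CutW R i d.1 d.2 := by
  revert h
  unfold plan
  split_ifs with h1 h2
  · intro h
    exact halves_new (hurdles_sorted R) (fun x hx => hx) h
  · intro h
    exact halves_new ((hurdles_sorted R).sublist (List.eraseIdx_sublist _ _))
      (fun x hx => ((mem_erase (hurdles_sorted R) h2).1 hx).1) h
  · intro h
    have h3 := fort hR (by omega) h2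
    rcases List.eq_nil_or_concat post with hp | ⟨post', g, hp⟩
    · subst hp
      have h4 := List.append_inj' h rfl
      obtain ⟨h5, h6⟩ := h4
      simp only [List.cons.injEq, and_true] at h6
      subst h6 h5
      have h7 : (hurdles R).getD 0 0 ∈ hurdles R := mem_getD.2 ⟨0, by omega, rfl⟩
      have h8 := mem_hurdles.1 h7
      refine ⟨R.getD ((hurdles R).getD 0 0) 0, mem_R h8.1, ?_, ?_⟩
      · exact ⟨⟨_, by omega, by omega, rfl⟩, _, h8.1, rfl, by omega⟩
      · intro d hd
        obtain ⟨t, ht, rfl⟩ := mem_halves.1 hd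
        have hl : ((hurdles R).eraseIdx 0).length + 1 = (hurdles R).length := by
          rw [List.length_eraseIdx_of_lt (by omega)]; omega
        have h9 := (mem_erase (hurdles_sorted R) (s := 0) (by omega)).1
          (mem_getD.2 ⟨t, by omega, rfl⟩ : ((hurdles R).eraseIdx 0).getD t 0 ∈ _)
        have h10 := (mem_erase (hurdles_sorted R) (s := 0) (by omega)).1
          (mem_getD.2 ⟨t + ((hurdles R).eraseIdx 0).length / 2, by omega, rfl⟩ :
            ((hurdles R).eraseIdx 0).getD (t + ((hurdles R).eraseIdx 0).length / 2) 0 ∈ _)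
        exact once_cut h7 h9.2 h10.2 (mem_hurdles.1 h9.1).1 (mem_hurdles.1 h10.1).1
    · subst hp
      have h4 : halves ((hurdles R).eraseIdx 0) ++ [((hurdles R).getD 0 0, (hurdles R).getD 1 0)] =
          (pre ++ f :: post') ++ [g] := by
        refine h.trans ?_
        simp
      have h5 := (List.append_inj' h4 rfl).1
      exact halves_new ((hurdles_sorted R).sublist (List.eraseIdx_sublist _ _))
        (fun x hx => ((mem_erase (hurdles_sorted R) (by omega)).1 hx).1) h5

theorem plan_single {R : List ℕ} (hR : CW R) {j : ℕ} (h : (plan R).2 = some j) {f : ℕ × ℕ}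
    (hf : f ∈ (plan R).1) : ¬ CutW R (R.getD j 0) f.1 f.2 := by
  have h0 := (plan_lt hR).1 f hf
  revert h hf
  unfold plan
  split_ifs with h1 h2
  · intro h
    simp at h
  · intro h hf
    simp only [Option.some.injEq] at h
    subst h
    obtain ⟨t, ht, rfl⟩ := mem_halves.1 hf
    have h9 := (mem_erase (hurdles_sorted R) h2).1
      (mem_getD.2 ⟨t, by omega, rfl⟩ : ((hurdles R).eraseIdx (sidx R)).getD t 0 ∈ _)
    have h10 := (mem_erase (hurdles_sorted R) h2).1
      (mem_getD.2 ⟨t + ((hurdles R).eraseIdx (sidx R)).length / 2, by omega, rfl⟩ :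
        ((hurdles R).eraseIdx (sidx R)).getD (t + ((hurdles R).eraseIdx (sidx R)).length / 2) 0 ∈ _)
    exact once_cut (mem_getD.2 ⟨_, h2, rfl⟩) h9.2 h10.2 (mem_hurdles.1 h9.1).1
      (mem_hurdles.1 h10.1).1
  · intro h
    simp at h

end SBR
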