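/-
SBR/E7.lean : the hurdle phase (assembly).
-/
import Pool.Agent.SBR.E1
import Pool.Agent.SBR.E2
import Pool.Agent.SBR.E5
import Pool.Agent.SBR.E6
import Pool.Agent.SBR.W1
import Pool.Agent.SBR.W2
import Pool.Agent.SBR.W3

namespace SBR

theorem e7_surj {w : Lay} {L : ℕ} (hg : w.Good L) {p : ℕ} (hp : p < L) : ∃ x, x < L ∧ w.pos x = p := by
  have h1 : Set.MapsTo w.pos (Finset.range L) (Finset.range L) := by
    intro x hx
    rw [Finset.mem_coe, Finset.mem_range] at hx ⊢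
    exact hg.lt x hx
  have h2 : Set.InjOn w.pos (Finset.range L) := by
    intro x hx y hy hxy
    rw [Finset.mem_coe, Finset.mem_range] at hx hy
    exact hg.inj x y hx hy hxy
  have h3 := Finset.surjOn_of_injOn_of_card_le w.pos h1 h2 le_rfl
  obtain ⟨x, hx, hxp⟩ := h3 (Finset.mem_coe.2 (Finset.mem_range.2 hp))
  exact ⟨x, Finset.mem_range.1 (Finset.mem_coe.1 hx), hxp⟩

theorem e7_gap_le {n : ℕ} {w : Lay} (hg : w.Good (2 * (n + 1))) {x : ℕ} (hx : x < 2 * (n + 1)) :
    w.gap x < n + 1 := by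
  have := hg.lt x hx
  unfold Lay.gap
  omega

/-- a node at a gap -/
theorem e7_node {n : ℕ} {w : Lay} (hg : w.Good (2 * (n + 1))) {k : ℕ} (hk : k < n + 1) :
    ∃ x, x < 2 * (n + 1) ∧ w.gap x = k := by
  obtain ⟨x, hx, hxp⟩ := e7_surj hg (show 2 * k < 2 * (n + 1) by omega)
  refine ⟨x, hx, ?_⟩
  unfold Lay.gap
  omega

theorem e7_split {α : Type*} {l pre post : List α} {a c : α} (h : l ++ [a] = pre ++ c :: post) :
    (pre = l ∧ c = a ∧ post = []) ∨ ∃ post', l = pre ++ c :: post' := by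
  rcases List.eq_nil_or_concat post with rfl | ⟨post', b, rfl⟩
  · left
    have h1 := List.append_inj' h rfl
    exact ⟨h1.1.symm, by simpa using h1.2.symm, rfl⟩
  · right
    refine ⟨post', ?_⟩
    have h1 : l ++ [a] = (pre ++ c :: post') ++ [b] := by
      rw [h]; simp [List.concat_eq_append]
    exact (List.append_inj' h1 rfl).1

/-- the cost of the plan is a lower bound -/
theorem e7_pcost {n : ℕ} {w : Lay} (hw : EL n w) {lab : ℕ → ℕ} (hl : GLab (n + 1) w lab)
    {R : List ℕ} (hR : R = trim (lword (n + 1) lab)) {F : List (ℕ × ℕ)}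
    (hF : ∀ f ∈ F, f.1 ≤ n ∧ f.2 ≤ n) : pcost R ≤ gcost (n + 1) w F := by
  classical
  by_cases hne : R = []
  · rw [hne]
    have : pcost [] = 0 := by
      simp [pcost, plan, hurdles, halves]
    omega
  have hcw : CW R := by rw [hR]; exact trim_cw (lab_ncl hw hl)
  have hex : ∀ f : ℕ × ℕ, ∃ q : ℕ × ℕ, f ∈ F → (q.1 < R.length ∧ q.2 < R.length ∧
      ∀ i, i ≠ 0 → CutG (n + 1) lab i f.1 f.2 → CutW R i q.1 q.2) := by
    intro f
    by_cases hf : f ∈ F
    · have h1 := hF f hf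
      obtain ⟨j, j', hj, hj', hi⟩ := cutG_word (lab := lab) (m := n + 1) (g := f.1) (h := f.2)
        (by omega) (by omega) (by rw [← hR]; exact hne)
      rw [← hR] at hj hj' hi
      exact ⟨(j, j'), fun _ => ⟨hj, hj', hi⟩⟩
    · exact ⟨(0, 0), fun h => absurd h hf⟩
  choose φ hφ using hex
  have h1 := plan_lower hcw (F := F.map φ) (by
    intro q hq
    obtain ⟨f, hf, rfl⟩ := List.mem_map.1 hq
    exact ⟨(hφ f hf).1, (hφ f hf).2.1⟩)
  have h2 := gcost_lab hw hl hF
  rw [← hR] at h2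
  rw [List.length_map] at h1
  refine h1.trans (le_trans (Nat.add_le_add_left (Finset.card_le_card ?_) _) h2)
  intro i hi
  rw [Finset.mem_filter] at hi ⊢
  refine ⟨hi.1, fun f hf hcut => ?_⟩
  have hi0 : i ≠ 0 := by
    have h3 := List.mem_toFinset.1 hi.1
    rw [hR] at h3
    exact (mem_trim.1 h3).1
  exact hi.2 (φ f) (List.mem_map.2 ⟨f, hf, rfl⟩) ((hφ f hf).2.2 i hi0 hcut)

theorem e7_cn_in {n : ℕ} {w : Lay} {C : Finset ℕ}
    (hC : UComp (n + 1) w C) {t u : ℕ} (ht : t ∈ C) (h : Cn w (Finset.range (n + 1)) t u) :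
    u ∈ C := by
  induction h with
  | refl => exact ht
  | tail _ h2 ih =>
    obtain ⟨_, h3, _, h5⟩ := h2
    by_contra hcon
    exact h5 (hC.clo _ ih _ (Finset.mem_range.1 h3) hcon)

theorem hurdles_main {n : ℕ} {w : Lay} (hw : EL n w) {lab : ℕ → ℕ} (hl : GLab (n + 1) w lab)
    {R : List ℕ} (hR : R = trim (lword (n + 1) lab)) {nd : ℕ → ℕ}
    (hnd : ∀ j, j < R.length → nd j < 2 * (n + 1) ∧ lab (w.gap (nd j)) = R.getD j 0) :
    (∀ pre c post, planN R nd = pre ++ c :: post →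
      (pre.foldl Lay.cut w).gap c.1 ≠ (pre.foldl Lay.cut w).gap c.2) ∧
    EL n ((planN R nd).foldl Lay.cut w) ∧
    (∀ C, ¬ UComp (n + 1) ((planN R nd).foldl Lay.cut w) C) ∧
    ∀ F : List (ℕ × ℕ), (∀ f ∈ F, f.1 ≤ n ∧ f.2 ≤ n) →
      mrk (n + 1) ((planN R nd).foldl Lay.cut w).mat + (planN R nd).length ≤
        mrk (n + 1) w.mat + gcost (n + 1) w F := by
  classical
  have hcw : CW R := by rw [hR]; exact trim_cw (lab_ncl hw hl)
  have hg : w.Good (2 * (n + 1)) := hw.good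
  have hgetD : ∀ j, j < R.length → R.getD j 0 ∈ R := by
    intro j hj
    rw [List.getD_eq_getElem _ _ hj]
    exact List.getElem_mem hj
  have hR0 : ∀ i ∈ R, i ≠ 0 ∧ ∃ k, k < n + 1 ∧ lab k = i := by
    intro i hi
    rw [hR] at hi
    exact mem_trim.1 hi
  -- a pair of the plan cuts a component iff it cuts the letter
  have hcut : ∀ f ∈ (plan R).1, ∀ C, UComp (n + 1) w C → ∀ x, x < 2 * (n + 1) → x / 2 ∈ C →
      ((∃ t ∈ C, w.gb (w.gap (nd f.1)) (w.gap (nd f.2)) t ≠ 0) ↔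
        CutW R (lab (w.gap x)) f.1 f.2) := by
    intro f hf C hC x hx hxC
    obtain ⟨h1, h2, h3, h4, h5⟩ := (plan_lt hcw).1 f hf
    have hx1 := hnd f.1 h1
    have hx2 := hnd f.2 h2
    have hg1 := e7_gap_le hg hx1.1
    have hg2 := e7_gap_le hg hx2.1
    have hne : w.gap (nd f.1) ≠ w.gap (nd f.2) := by
      intro hcon
      have h6 : R.getD f.1 0 = R.getD f.2 0 := by rw [← hx1.2, ← hx2.2, hcon]
      have h7 : R.count (R.getD f.1 0) = 1 := by
        unfold Once at h4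
        exact of_decide_eq_true h4
      have h8 := List.getD_eq_getElem R 0 h1
      have h9 := List.getD_eq_getElem R 0 h2
      have h10 : R[f.1] = R[f.2] := by rw [← h8, ← h9, h6]
      have h11 : 2 ≤ R.count (R.getD f.1 0) := by
        rw [h8]
        rw [← List.duplicate_iff_two_le_count, List.duplicate_iff_exists_distinct_get]
        rcases lt_or_gt_of_ne h3 with h | h
        · exact ⟨⟨f.1, h1⟩, ⟨f.2, h2⟩, h, rfl, h10⟩
        · exact ⟨⟨f.2, h2⟩, ⟨f.1, h1⟩, h, h10, rfl⟩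
      omega
    have hlx : lab (w.gap x) ≠ 0 := (hl.pos x hx).2 ⟨C, hC, hxC⟩
    rw [cutG_iff hw hl hC hx hxC (by omega) (by omega) hne,
      cutG_once hR h1 h2 h3 h4 h5 hg1 hg2 hx1.2 hx2.2 hlx]
  -- pairs
  obtain ⟨NP, hNP⟩ : ∃ NP, NP = (plan R).1.map (fun c => (nd c.1, nd c.2)) := ⟨_, rfl⟩
  have hmem : ∀ c ∈ NP, ∃ f ∈ (plan R).1, c = (nd f.1, nd f.2) := by
    intro c hc
    rw [hNP] at hc
    obtain ⟨f, hf, rfl⟩ := List.mem_map.1 hc
    exact ⟨f, hf, rfl⟩
  have hmem' : ∀ f ∈ (plan R).1, (nd f.1, nd f.2) ∈ NP := by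
    intro f hf
    rw [hNP]
    exact List.mem_map.2 ⟨f, hf, rfl⟩
  have hN : ∀ c ∈ NP, c.1 < 2 * (n + 1) ∧ c.2 < 2 * (n + 1) := by
    intro c hc
    obtain ⟨f, hf, rfl⟩ := hmem c hc
    obtain ⟨h1, h2, _⟩ := (plan_lt hcw).1 f hf
    exact ⟨(hnd f.1 h1).1, (hnd f.2 h2).1⟩
  have hT : ∀ pre c post, NP = pre ++ c :: post → ∃ C, UComp (n + 1) w C ∧
      (∃ t ∈ C, w.gb (w.gap c.1) (w.gap c.2) t ≠ 0) ∧
      ∀ d ∈ pre, ∀ t ∈ C, w.gb (w.gap d.1) (w.gap d.2) t = 0 := by
    intro pre c post h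
    rw [hNP] at h
    obtain ⟨l1, l2, h1, h2, h3⟩ := List.map_eq_append_iff.1 h
    obtain ⟨f, l3, h4, h5, h6⟩ := List.map_eq_cons_iff.1 h3
    rw [h4] at h1
    obtain ⟨i, hiR, hi1, hi2⟩ := plan_new hcw h1
    obtain ⟨hi0, k, hk, hki⟩ := hR0 i hiR
    obtain ⟨x, hx, hxk⟩ := e7_node hg hk
    have hlx : lab (w.gap x) = i := by rw [hxk, hki]
    obtain ⟨C, hC, hxC⟩ := (hl.pos x hx).1 (by rw [hlx]; exact hi0)
    refine ⟨C, hC, ?_, ?_⟩
    · rw [← h5]
      refine (hcut f (by rw [h1]; simp) C hC x hx hxC).2 ?_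
      rw [hlx]
      exact hi1
    · intro d hd t ht
      rw [← h2] at hd
      obtain ⟨e, he, rfl⟩ := List.mem_map.1 hd
      by_contra hcon
      have h7 := (hcut e (by rw [h1]; simp [he]) C hC x hx hxC).1 ⟨t, ht, hcon⟩
      rw [hlx] at h7
      exact hi2 e he h7
  obtain ⟨c1, c2, c3, c4⟩ := cuts_main hw NP hN hT
  obtain ⟨w1, hw1⟩ : ∃ w1, w1 = NP.foldl Lay.cut w := ⟨_, rfl⟩
  rw [← hw1] at c2 c3 c4
  -- an unoriented component that survives is the single one
  have hsurv : ∀ C, UComp (n + 1) w1 C → ∃ j, (plan R).2 = some j ∧ nd j / 2 ∈ C := by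
    intro C hC1
    obtain ⟨hC, hunc⟩ := (c4 C).1 hC1
    obtain ⟨t, ht⟩ : C.Nonempty := by
      rw [← Finset.card_pos]
      have := hC.two
      omega
    have ht' := hC.sub t ht
    have hx : 2 * t < 2 * (n + 1) := by omega
    have hx2 : 2 * t / 2 ∈ C := by
      rw [Nat.mul_div_cancel_left t (by norm_num)]
      exact ht
    have hlx : lab (w.gap (2 * t)) ≠ 0 := (hl.pos _ hx).2 ⟨C, hC, hx2⟩
    have hiR : lab (w.gap (2 * t)) ∈ R := by
      rw [hR]
      exact mem_trim.2 ⟨hlx, _, e7_gap_le hg hx, rfl⟩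
    rcases plan_cover hcw hiR with ⟨f, hf, hfc⟩ | ⟨j, hj, hji⟩
    · exfalso
      obtain ⟨u, hu, hu2⟩ := (hcut f hf C hC _ hx hx2).2 hfc
      exact hu2 (hunc _ (hmem' f hf) u hu)
    · refine ⟨j, hj, ?_⟩
      have hjl := ((plan_lt hcw).2 j hj).1
      have h1 := hnd j hjl
      have h2 : lab (w.gap (2 * t)) = lab (w.gap (nd j)) := by rw [h1.2, hji]
      exact e7_cn_in hC hx2 ((hl.eq _ _ hx h1.1 hlx).1 h2)
  have hcost : ∀ F : List (ℕ × ℕ), (∀ f ∈ F, f.1 ≤ n ∧ f.2 ≤ n) →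
      pcost R ≤ gcost (n + 1) w F := fun F hF => e7_pcost hw hl hR hF
  have hlen : NP.length = (plan R).1.length := by rw [hNP, List.length_map]
  rcases hopt : (plan R).2 with _ | j
  · have hpn : planN R nd = NP := by
      unfold planN
      rw [hopt, hNP]
      simp
    rw [hpn, ← hw1]
    refine ⟨c1, c2, ?_, ?_⟩
    · intro C hC
      obtain ⟨j, hj, _⟩ := hsurv C hC
      rw [hopt] at hj
      exact absurd hj (by simp)
    · intro F hF
      have h1 := hcost F hF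
      have h2 : pcost R = 2 * (plan R).1.length := by
        unfold pcost
        rw [hopt]
        simp
      omega
  · obtain ⟨v, hv⟩ : ∃ v, v = nd j / 2 := ⟨_, rfl⟩
    have hpn : planN R nd = NP ++ [(2 * v, 2 * v + 1)] := by
      unfold planN
      rw [hopt, hNP, hv]
    obtain ⟨hjl, hjo⟩ := (plan_lt hcw).2 j hopt
    have hndj := hnd j hjl
    have hi0R : lab (w.gap (nd j)) ∈ R := by rw [hndj.2]; exact hgetD j hjl
    have hvn : v < n + 1 := by
      have := hndj.1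
      omega
    obtain ⟨C0, hC0, hvC0⟩ := (hl.pos _ hndj.1).1 (hR0 _ hi0R).1
    have hC0unc : ∀ c ∈ NP, ∀ t ∈ C0, w.gb (w.gap c.1) (w.gap c.2) t = 0 := by
      intro c hc t ht
      obtain ⟨f, hf, rfl⟩ := hmem c hc
      by_contra hcon
      have h7 := (hcut f hf C0 hC0 _ hndj.1 hvC0).1 ⟨t, ht, hcon⟩
      rw [hndj.2] at h7
      exact plan_single hcw hopt hf h7
    have hC01 : UComp (n + 1) w1 C0 := (c4 C0).2 ⟨hC0, hC0unc⟩
    rw [← hv] at hvC0
    -- a neighbour of `v`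
    obtain ⟨t0, ht0, ht0v⟩ : ∃ t0 ∈ C0, w1.mat v t0 ≠ 0 := by
      obtain ⟨u, hu, huv⟩ : ∃ u ∈ C0, u ≠ v := by
        by_contra hcon
        push Not at hcon
        have h1 : C0 ⊆ {v} := by
          intro u hu
          rw [Finset.mem_singleton]
          exact hcon u hu
        have h2 := Finset.card_le_card h1
        rw [Finset.card_singleton] at h2
        have := hC0.two
        omega
      have h1 := hC01.con v hvC0 u hu
      rcases Relation.ReflTransGen.cases_head h1 with h2 | ⟨y, h2, _⟩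
      · exact absurd h2.symm huv
      · exact ⟨y, h2.2.1, h2.2.2.2⟩
    have hg1 : w1.Good (2 * (n + 1)) := c2.good
    have hcv : ∀ t, t < n + 1 → w1.gb (w1.gap (2 * v)) (w1.gap (2 * v + 1)) t = w1.mat v t :=
      fun t ht => chord_vec c2 hvn ht
    have hgne : w1.gap (2 * v) ≠ w1.gap (2 * v + 1) := by
      intro hcon
      have h1 := hcv t0 (hC0.sub t0 ht0)
      rw [hcon] at h1
      unfold Lay.gb at h1
      rw [zmod2_two_mul] at h1
      exact ht0v h1.symm
    have hga := e7_gap_le hg1 (show 2 * v < 2 * (n + 1) by omega)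
    have hgb := e7_gap_le hg1 (show 2 * v + 1 < 2 * (n + 1) by omega)
    obtain ⟨a, ha⟩ : ∃ a, a = min (w1.gap (2 * v)) (w1.gap (2 * v + 1)) := ⟨_, rfl⟩
    obtain ⟨b, hb⟩ : ∃ b, b = max (w1.gap (2 * v)) (w1.gap (2 * v + 1)) := ⟨_, rfl⟩
    have hab : a < b := by omega
    have hbn : b ≤ n := by omega
    have hw2 : w1.cut (2 * v, 2 * v + 1) = w1.grev a b := by
      unfold Lay.cut
      rw [ha, hb]
    have hgab : ∀ t, w1.gb a b t = w1.gb (w1.gap (2 * v)) (w1.gap (2 * v + 1)) t := by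
      intro t
      rcases le_total (w1.gap (2 * v)) (w1.gap (2 * v + 1)) with h | h
      · rw [ha, hb, min_eq_left h, max_eq_right h]
      · rw [ha, hb, min_eq_right h, max_eq_left h]
        unfold Lay.gb
        rw [add_comm]
    have hm2 : ∀ t, t < n + 1 → ∀ u, u < n + 1 →
        (w1.grev a b).mat t u = w1.mat t u + w1.mat v t * w1.mat v u := by
      intro t ht u hu
      rw [mat_grev c2 hab hbn ht hu, hgab, hgab, hcv t ht, hcv u hu]
    rw [hpn, List.foldl_append, ← hw1]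
    simp only [List.foldl_cons, List.foldl_nil]
    rw [hw2]
    refine ⟨?_, EL.grev c2 hab hbn, ?_, ?_⟩
    · intro pre c post h
      rcases e7_split h with ⟨rfl, rfl, rfl⟩ | ⟨post', h1⟩
      · rw [← hw1]
        exact hgne
      · exact c1 pre c post' h1
    · intro C hC
      obtain ⟨hC1, hC2⟩ := (ucomp_step hg1 hm2 hC01 ⟨t0, ht0, ht0v⟩ C).1 hC
      obtain ⟨j', hj', hj'C⟩ := hsurv C hC1
      rw [hopt] at hj'
      have hjj : j = j' := by simpa using hj'
      rw [← hjj, ← hv] at hj'C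
      have ht0C : t0 ∈ C := by
        by_contra hcon
        exact ht0v (hC1.clo v hj'C t0 (hC0.sub t0 ht0) hcon)
      exact ht0v (hC2 t0 ht0C)
    · intro F hF
      have h1 := hcost F hF
      have h2 : pcost R = 2 * (plan R).1.length + 1 := by
        unfold pcost
        rw [hopt]
        simp
      have hsym : ∀ i, i < n + 1 → ∀ j, j < n + 1 → w1.mat i j = w1.mat j i := by
        intro i hi j hj
        exact Lay.mat_comm hg1 (by omega) (by omega)
      have h3 := mrk_row hsym hvn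
      have h4 : mrk (n + 1) (w1.grev a b).mat =
          mrk (n + 1) (fun t u => w1.mat t u + w1.mat v t * w1.mat v u) :=
        mrk_congr hm2
      rw [List.length_append, List.length_singleton]
      omega

end SBR
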