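/-
SBR/E8.lean : replaying a valid list of pivots as cuts.
-/
import Pool.Agent.SBR.E2

namespace SBR

private theorem e8_gb_self (w : Lay) (g t : ℕ) : w.gb g g t = 0 := by
  simp only [Lay.gb]; exact CharTwo.add_self_eq_zero _

private theorem e8_gb_comm (w : Lay) (g h t : ℕ) : w.gb g h t = w.gb h g t := by
  simp only [Lay.gb]; exact add_comm _ _

private theorem e8_gap_le {n : ℕ} {w : Lay} (hw : EL n w) {x : ℕ} (hx : x < 2 * (n + 1)) :
    w.gap x ≤ n := by
  have := hw.good.lt x hx
  simp only [Lay.gap]; omega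

/-- a single cut at a chord with diagonal entry one -/
private theorem e8_step {n : ℕ} {w : Lay} (hw : EL n w) {v : ℕ} (hv : v < n + 1)
    (h1 : w.amat (n + 1) v v = 1) :
    w.gap (2 * v) ≠ w.gap (2 * v + 1) ∧ EL n (w.cut (2 * v, 2 * v + 1)) ∧
      (w.cut (2 * v, 2 * v + 1)).amat (n + 1) = piv (w.amat (n + 1)) v := by
  have h1' : w.mat v v = 1 := by simpa [Lay.amat, hv] using h1
  have hne : w.gap (2 * v) ≠ w.gap (2 * v + 1) := by
    intro he
    have h2 := chord_vec hw hv hv
    rw [← he, e8_gb_self, h1'] at h2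
    exact absurd h2 (by decide)
  have hgh : min (w.gap (2 * v)) (w.gap (2 * v + 1)) < max (w.gap (2 * v)) (w.gap (2 * v + 1)) := by
    rcases lt_or_gt_of_ne hne with h | h
    · rw [min_eq_left h.le, max_eq_right h.le]; exact h
    · rw [min_eq_right h.le, max_eq_left h.le]; exact h
  have hh : max (w.gap (2 * v)) (w.gap (2 * v + 1)) ≤ n :=
    max_le (e8_gap_le hw (by omega)) (e8_gap_le hw (by omega))
  have hgb : ∀ t, t < n + 1 →
      w.gb (min (w.gap (2 * v)) (w.gap (2 * v + 1))) (max (w.gap (2 * v)) (w.gap (2 * v + 1))) t =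
        w.mat v t := by
    intro t ht
    rw [← chord_vec hw hv ht]
    rcases le_total (w.gap (2 * v)) (w.gap (2 * v + 1)) with h | h
    · rw [min_eq_left h, max_eq_right h]
    · rw [min_eq_right h, max_eq_left h, e8_gb_comm]
  refine ⟨hne, hw.grev hgh hh, ?_⟩
  funext t u
  by_cases ht : t < n + 1
  · by_cases hu : u < n + 1
    · have hm : w.mat t v = w.mat v t := Lay.mat_comm hw.good (by omega) (by omega)
      simp only [Lay.amat, piv, ht, hu, hv, and_self, if_true, Lay.cut]
      rw [mat_grev hw hgh hh ht hu, hgb t ht, hgb u hu, hm]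
    · simp [Lay.amat, piv, hu]
  · simp [Lay.amat, piv, ht]

theorem replay {n : ℕ} {w : Lay} (hw : EL n w) {ord : List ℕ} (ho : ∀ v ∈ ord, v < n + 1)
    (hv : Valid (w.amat (n + 1)) ord) :
    (∀ pre v post, ord = pre ++ v :: post →
      ((pre.map (fun v => (2 * v, 2 * v + 1))).foldl Lay.cut w).gap (2 * v) ≠
        ((pre.map (fun v => (2 * v, 2 * v + 1))).foldl Lay.cut w).gap (2 * v + 1)) ∧
    EL n ((ord.map (fun v => (2 * v, 2 * v + 1))).foldl Lay.cut w) ∧
    ((ord.map (fun v => (2 * v, 2 * v + 1))).foldl Lay.cut w).amat (n + 1) =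
      pivs (w.amat (n + 1)) ord := by
  induction ord generalizing w with
  | nil =>
    refine ⟨?_, hw, rfl⟩
    intro pre v post h
    simp at h
  | cons a l ih =>
    obtain ⟨h1, h2⟩ := hv
    obtain ⟨s1, s2, s3⟩ := e8_step hw (ho a (by simp)) h1
    have h2' : Valid ((w.cut (2 * a, 2 * a + 1)).amat (n + 1)) l := by rw [s3]; exact h2
    obtain ⟨i1, i2, i3⟩ := ih s2 (fun v hv => ho v (by simp [hv])) h2'
    refine ⟨?_, ?_, ?_⟩
    · intro pre v post h
      cases pre with
      | nil =>
        simp only [List.nil_append, List.cons.injEq] at h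
        obtain ⟨rfl, -⟩ := h
        exact s1
      | cons b pre =>
        simp only [List.cons_append, List.cons.injEq] at h
        obtain ⟨rfl, h⟩ := h
        simpa using i1 pre v post h
    · simpa using i2
    · simp only [List.map_cons, List.foldl_cons, pivs_cons]
      rw [i3, s3]

end SBR
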