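/-
SBR/E9.lean : lists of integers versus node arrangements.
-/
import Pool.Agent.SBR.Perm
import Pool.Agent.SBR.E3

namespace SBR

/-! ### basic facts on signed permutations -/

theorem E9_len {n : ℕ} {p : List ℤ} (hp : IsSP n p) : p.length = n := by
  have h := hp.length_eq
  simpa using h

theorem E9_nodup {n : ℕ} {p : List ℤ} (hp : IsSP n p) : (p.map Int.natAbs).Nodup :=
  hp.nodup_iff.2 (List.nodup_range')

theorem E9_mem {n : ℕ} {p : List ℤ} (hp : IsSP n p) {v : ℕ} :
    v ∈ p.map Int.natAbs ↔ 1 ≤ v ∧ v ≤ n := by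
  rw [hp.mem_iff, List.mem_range'_1]
  omega

theorem E9_idx {n : ℕ} {p : List ℤ} (hp : IsSP n p) {v : ℕ} (h1 : 1 ≤ v) (h2 : v ≤ n) :
    (p.map Int.natAbs).idxOf v < n ∧
      (p.getD ((p.map Int.natAbs).idxOf v) 0).natAbs = v := by
  have hm : v ∈ p.map Int.natAbs := (E9_mem hp).2 ⟨h1, h2⟩
  have hl := List.idxOf_lt_length_of_mem hm
  have hl' : (p.map Int.natAbs).idxOf v < p.length := by simpa using hl
  refine ⟨by rw [← E9_len hp]; exact hl', ?_⟩
  have h3 := List.getElem_idxOf hl
  rw [List.getElem_map] at h3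
  rw [List.getD_eq_getElem _ _ hl']
  exact h3

theorem E9_idx_out {n : ℕ} {p : List ℤ} (hp : IsSP n p) {v : ℕ} (h : ¬ (1 ≤ v ∧ v ≤ n)) :
    (p.map Int.natAbs).idxOf v = n := by
  have hm : v ∉ p.map Int.natAbs := fun hm => h ((E9_mem hp).1 hm)
  rw [List.idxOf_eq_length hm, List.length_map, E9_len hp]

theorem E9_idx_of {n : ℕ} {p : List ℤ} (hp : IsSP n p) {k : ℕ} (hk : k < n) :
    (p.map Int.natAbs).idxOf ((p.getD k 0).natAbs) = k := by
  have hk' : k < p.length := by rw [E9_len hp]; exact hk
  have hk2 : k < (p.map Int.natAbs).length := by simpa using hk'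
  have := (E9_nodup hp).idxOf_getElem k hk2
  rw [List.getElem_map] at this
  rw [List.getD_eq_getElem _ _ hk']
  exact this

theorem layOf_EL {n : ℕ} {p : List ℤ} (hp : IsSP n p) : EL n (layOf n p) := by
  refine ⟨⟨?_, ?_⟩, ?_, ?_, ?_, ?_, ?_⟩
  · intro x hx
    simp only [layOf]
    by_cases h0 : x = 0
    · rw [if_pos h0]; omega
    rw [if_neg h0]
    by_cases h1 : x = 2 * n + 1
    · rw [if_pos h1]; omega
    rw [if_neg h1]
    obtain ⟨h2, -⟩ := E9_idx hp (v := (x + 1) / 2) (by omega) (by omega)
    split_ifs <;> omega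
  · intro x y hx hy hxy
    simp only [layOf] at hxy
    by_cases hx0 : x = 0
    · rw [if_pos hx0] at hxy
      by_cases hy0 : y = 0
      · rw [hx0, hy0]
      rw [if_neg hy0] at hxy
      by_cases hy1 : y = 2 * n + 1
      · rw [if_pos hy1] at hxy; omega
      rw [if_neg hy1] at hxy
      split_ifs at hxy <;> omega
    rw [if_neg hx0] at hxy
    by_cases hx1 : x = 2 * n + 1
    · rw [if_pos hx1] at hxy
      by_cases hy0 : y = 0
      · rw [if_pos hy0] at hxy; omega
      rw [if_neg hy0] at hxy
      by_cases hy1 : y = 2 * n + 1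
      · rw [hx1, hy1]
      rw [if_neg hy1] at hxy
      obtain ⟨h2, -⟩ := E9_idx hp (v := (y + 1) / 2) (by omega) (by omega)
      split_ifs at hxy <;> omega
    rw [if_neg hx1] at hxy
    obtain ⟨h2, h2'⟩ := E9_idx hp (v := (x + 1) / 2) (by omega) (by omega)
    by_cases hy0 : y = 0
    · rw [if_pos hy0] at hxy
      split_ifs at hxy <;> omega
    rw [if_neg hy0] at hxy
    by_cases hy1 : y = 2 * n + 1
    · rw [if_pos hy1] at hxy
      split_ifs at hxy <;> omega
    rw [if_neg hy1] at hxy
    obtain ⟨h3, h3'⟩ := E9_idx hp (v := (y + 1) / 2) (by omega) (by omega)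
    have hk : (p.map Int.natAbs).idxOf ((x + 1) / 2) = (p.map Int.natAbs).idxOf ((y + 1) / 2) := by
      split_ifs at hxy <;> omega
    have hv : (x + 1) / 2 = (y + 1) / 2 := by rw [← h2', ← h3', hk]
    rw [hv] at hxy
    by_cases hpar : x % 2 = y % 2
    · omega
    · exfalso
      by_cases hs : 0 < p.getD ((p.map Int.natAbs).idxOf ((y + 1) / 2)) 0
      · simp only [hs, iff_true] at hxy
        split_ifs at hxy <;> omega
      · simp only [hs, iff_false] at hxy
        split_ifs at hxy <;> omega
  · simp [layOf]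
  · simp [layOf]
  · simp only [layOf]
    rw [if_neg (by omega)]
    simp
  · simp [layOf]
  · intro v h1 h2
    obtain ⟨h3, -⟩ := E9_idx hp h1 h2
    have e1 : (2 * v - 1 + 1) / 2 = v := by omega
    have e2 : (2 * v + 1) / 2 = v := by omega
    have c1 : ¬ (2 * v - 1 = 0) := by omega
    have c2 : ¬ (2 * v - 1 = 2 * n + 1) := by omega
    have c3 : ¬ (2 * v = 0) := by omega
    have c4 : ¬ (2 * v = 2 * n + 1) := by omega
    have c5 : ¬ (2 * v - 1) % 2 = 0 := by omega
    have c6 : 2 * v % 2 = 0 := by omega
    simp only [layOf, e1, e2, c1, c2, c3, c4, c5, c6, or_self, if_false, true_iff, false_iff]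
    refine ⟨trivial, (p.map Int.natAbs).idxOf v + 1, by omega, by omega, ?_⟩
    by_cases hs : 0 < p.getD ((p.map Int.natAbs).idxOf v) 0
    · left
      simp only [hs, decide_true, if_true, not_true, if_false, true_and]
    · right
      simp only [hs, decide_false, if_true, not_false_eq_true, if_false, true_and]

theorem E9_natAbs_rev (p : List ℤ) (i j : ℕ) :
    (revP p i j).map Int.natAbs = (p.map Int.natAbs).take (i - 1) ++
      (((p.map Int.natAbs).take j).drop (i - 1)).reverse ++ (p.map Int.natAbs).drop j := by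
  have e : (Int.natAbs ∘ fun v : ℤ => -v) = Int.natAbs := by funext v; simp
  simp only [revP, List.map_append, List.map_take, List.map_drop, List.map_reverse, List.map_map, e]

theorem isSP_rev {n : ℕ} {p : List ℤ} (hp : IsSP n p) {i j : ℕ} (hi : 1 ≤ i) (hij : i ≤ j)
    (hj : j ≤ n) : IsSP n (revP p i j) := by
  unfold IsSP at *
  refine List.Perm.trans ?_ hp
  rw [E9_natAbs_rev]
  generalize p.map Int.natAbs = a
  have h1 : a.take (i - 1) ++ (a.take j).drop (i - 1) = a.take j := by
    have h2 : a.take (i - 1) = (a.take j).take (i - 1) := by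
      rw [List.take_take]
      congr 1
      omega
    rw [h2, List.take_append_drop]
  calc (a.take (i - 1) ++ ((a.take j).drop (i - 1)).reverse ++ a.drop j).Perm
        (a.take (i - 1) ++ (a.take j).drop (i - 1) ++ a.drop j) :=
        List.Perm.append_right _ (List.Perm.append_left _ (List.reverse_perm _))
    _ = a := by rw [h1, List.take_append_drop]

theorem E9_rev_get {n : ℕ} {p : List ℤ} (hl : p.length = n) {i j : ℕ} (hi : 1 ≤ i) (hij : i ≤ j)
    (hj : j ≤ n) (k : ℕ) : (revP p i j).getD k 0 =
      if i ≤ k + 1 ∧ k < j then - p.getD (i + j - 2 - k) 0 else p.getD k 0 := by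
  simp only [revP, List.getD_eq_getElem?_getD]
  by_cases h1 : k < i - 1
  · rw [List.append_assoc, List.getElem?_append_left (by simp; omega),
      List.getElem?_take_of_lt h1, if_neg (by omega)]
  · by_cases h2 : k < j
    · rw [if_pos (by omega), List.getElem?_append_left (by simp; omega),
        List.getElem?_append_right (by simp; omega), List.getElem?_map,
        List.getElem?_reverse (by simp; omega), List.getElem?_drop, List.getElem?_take_of_lt]
      · have e : i - 1 + ((List.drop (i - 1) (List.take j p)).length - 1 -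
          (k - (List.take (i - 1) p).length)) = i + j - 2 - k := by
          simp only [List.length_drop, List.length_take]
          omega
        rw [e]
        have hlt : i + j - 2 - k < p.length := by omega
        rw [List.getElem?_eq_getElem hlt]
        simp
      · simp only [List.length_drop, List.length_take]
        omega
    · rw [if_neg (by omega), List.getElem?_append_right (by simp; omega), List.getElem?_drop]
      congr 2
      simp only [List.length_append, List.length_map, List.length_reverse, List.length_drop,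
        List.length_take]
      omega

theorem E9_idx_rev {n : ℕ} {p : List ℤ} (hp : IsSP n p) {i j : ℕ} (hi : 1 ≤ i) (hij : i ≤ j)
    (hj : j ≤ n) {v : ℕ} (h1 : 1 ≤ v) (h2 : v ≤ n) :
    ((revP p i j).map Int.natAbs).idxOf v =
      if i ≤ (p.map Int.natAbs).idxOf v + 1 ∧ (p.map Int.natAbs).idxOf v < j then
        i + j - 2 - (p.map Int.natAbs).idxOf v else (p.map Int.natAbs).idxOf v := by
  obtain ⟨h3, h4⟩ := E9_idx hp h1 h2
  have hp' := isSP_rev hp hi hij hj
  have key : ∀ k, k < n → ((revP p i j).getD k 0).natAbs = v →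
      ((revP p i j).map Int.natAbs).idxOf v = k := by
    intro k hk hv
    rw [← hv]
    exact E9_idx_of hp' hk
  split_ifs with hc
  · apply key
    · omega
    · rw [E9_rev_get (E9_len hp) hi hij hj, if_pos (by omega)]
      have e : i + j - 2 - (i + j - 2 - (p.map Int.natAbs).idxOf v) =
        (p.map Int.natAbs).idxOf v := by omega
      rw [e, Int.natAbs_neg, h4]
  · apply key
    · omega
    · rw [E9_rev_get (E9_len hp) hi hij hj, if_neg hc, h4]

theorem E9_sgn_rev {n : ℕ} {p : List ℤ} (hp : IsSP n p) {i j : ℕ} (hi : 1 ≤ i) (hij : i ≤ j)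
    (hj : j ≤ n) {v : ℕ} (h1 : 1 ≤ v) (h2 : v ≤ n) :
    0 < (revP p i j).getD (((revP p i j).map Int.natAbs).idxOf v) 0 ↔
      if i ≤ (p.map Int.natAbs).idxOf v + 1 ∧ (p.map Int.natAbs).idxOf v < j then
        ¬ 0 < p.getD ((p.map Int.natAbs).idxOf v) 0 else
        0 < p.getD ((p.map Int.natAbs).idxOf v) 0 := by
  obtain ⟨h3, h4⟩ := E9_idx hp h1 h2
  rw [E9_idx_rev hp hi hij hj h1 h2]
  by_cases hc : i ≤ (p.map Int.natAbs).idxOf v + 1 ∧ (p.map Int.natAbs).idxOf v < j
  · rw [if_pos hc, if_pos hc, E9_rev_get (E9_len hp) hi hij hj, if_pos (by omega)]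
    have e : i + j - 2 - (i + j - 2 - (p.map Int.natAbs).idxOf v) =
        (p.map Int.natAbs).idxOf v := by omega
    rw [e]
    constructor
    · intro h; omega
    · intro h; omega
  · rw [if_neg hc, if_neg hc, E9_rev_get (E9_len hp) hi hij hj, if_neg hc]

theorem layOf_rev {n : ℕ} {p : List ℤ} (hp : IsSP n p) {i j : ℕ} (hi : 1 ≤ i) (hij : i ≤ j)
    (hj : j ≤ n) : layOf n (revP p i j) = (layOf n p).grev (i - 1) j := by
  have hp' := isSP_rev hp hi hij hj
  have main : ∀ x, (layOf n (revP p i j)).pos x = ((layOf n p).grev (i - 1) j).pos x ∧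
      (layOf n (revP p i j)).sg x = ((layOf n p).grev (i - 1) j).sg x := by
    intro x
    by_cases hx0 : x = 0
    · subst hx0
      simp [layOf, Lay.grev]
    by_cases hx1 : x = 2 * n + 1
    · subst hx1
      simp only [layOf, Lay.grev, if_neg hx0, if_true, or_true]
      rw [if_neg (by omega), if_neg (by omega)]
      exact ⟨rfl, rfl⟩
    by_cases hv : 1 ≤ (x + 1) / 2 ∧ (x + 1) / 2 ≤ n
    · obtain ⟨h3, h4⟩ := E9_idx hp hv.1 hv.2
      have e1 := E9_idx_rev hp hi hij hj hv.1 hv.2
      have e2 := E9_sgn_rev hp hi hij hj hv.1 hv.2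
      simp only [layOf, Lay.grev, hx0, hx1, or_self, if_false]
      generalize ((revP p i j).map Int.natAbs).idxOf ((x + 1) / 2) = k' at *
      generalize (p.map Int.natAbs).idxOf ((x + 1) / 2) = k at *
      by_cases hc : i ≤ k + 1 ∧ k < j
      · rw [if_pos hc] at e1 e2
        simp only [e2]
        by_cases hs : 0 < p.getD k 0
        · simp only [hs, iff_true, not_true, iff_false]
          by_cases hpar : x % 2 = 0
          · simp only [hpar, if_true, not_true, if_false]
            rw [if_pos (by omega), if_pos (by omega)]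
            exact ⟨by omega, by simp⟩
          · simp only [hpar, if_true, not_false_eq_true, if_false]
            rw [if_pos (by omega), if_pos (by omega)]
            exact ⟨by omega, by simp⟩
        · simp only [hs, iff_true, not_false_eq_true, iff_false]
          by_cases hpar : x % 2 = 0
          · simp only [hpar, if_true, not_true, if_false]
            rw [if_pos (by omega), if_pos (by omega)]
            exact ⟨by omega, by simp⟩
          · simp only [hpar, if_true, not_false_eq_true, if_false]
            rw [if_pos (by omega), if_pos (by omega)]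
            exact ⟨by omega, by simp⟩
      · rw [if_neg hc] at e1 e2
        subst e1
        simp only [e2]
        split_ifs <;> first | omega | exact ⟨rfl, rfl⟩
    · have e1 : ((revP p i j).map Int.natAbs).idxOf ((x + 1) / 2) = n := E9_idx_out hp' hv
      have e2 : (p.map Int.natAbs).idxOf ((x + 1) / 2) = n := E9_idx_out hp hv
      have e3 : (revP p i j).getD n 0 = 0 :=
        List.getD_eq_default _ _ (by rw [E9_len hp'])
      have e4 : p.getD n 0 = 0 := List.getD_eq_default _ _ (by rw [E9_len hp])
      simp only [layOf, Lay.grev, hx0, hx1, or_self, if_false, e1, e2, e3, e4]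
      split_ifs <;> first | omega | exact ⟨rfl, rfl⟩
  have h1 : (layOf n (revP p i j)).pos = ((layOf n p).grev (i - 1) j).pos :=
    funext fun x => (main x).1
  have h2 : (layOf n (revP p i j)).sg = ((layOf n p).grev (i - 1) j).sg :=
    funext fun x => (main x).2
  have ext : ∀ a b : Lay, a.pos = b.pos → a.sg = b.sg → a = b := by
    rintro ⟨a1, a2⟩ ⟨b1, b2⟩ h h'
    simp only at h h'
    subst h h'
    rfl
  exact ext _ _ h1 h2

theorem E9_idP_eq (n : ℕ) : idP n = (List.range n).map (fun k : ℕ => (k : ℤ) + 1) := rfl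

theorem E9_isSP_idP (n : ℕ) : IsSP n (idP n) := by
  unfold IsSP
  rw [E9_idP_eq, List.map_map, List.range'_eq_map_range]
  refine List.Perm.of_eq (List.map_congr_left ?_)
  intro k _
  simp only [Function.comp]
  omega

theorem E9_idP_get {n k : ℕ} (hk : k < n) : (idP n).getD k 0 = (k : ℤ) + 1 := by
  rw [E9_idP_eq, List.getD_eq_getElem _ _ (by simpa using hk)]
  simp

theorem E9_idP_lay {n x : ℕ} (hx : x < 2 * (n + 1)) :
    (layOf n (idP n)).pos x = x ∧ (layOf n (idP n)).sg x = true := by
  by_cases hx0 : x = 0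
  · subst hx0; simp [layOf]
  by_cases hx1 : x = 2 * n + 1
  · subst hx1; simp [layOf]
  have e : ((idP n).map Int.natAbs).idxOf ((x + 1) / 2) = (x + 1) / 2 - 1 := by
    have h := E9_idx_of (E9_isSP_idP n) (k := (x + 1) / 2 - 1) (by omega)
    rw [E9_idP_get (by omega)] at h
    have e2 : ((((x + 1) / 2 - 1 : ℕ) : ℤ) + 1).natAbs = (x + 1) / 2 := by omega
    rw [e2] at h
    exact h
  have hs : 0 < (idP n).getD ((x + 1) / 2 - 1) 0 := by
    rw [E9_idP_get (by omega)]
    omega
  simp only [layOf, hx0, hx1, or_self, if_false, e, hs, iff_true, decide_true, and_true]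
  split_ifs <;> omega

theorem mat_idP {n : ℕ} {t u : ℕ} (ht : t < n + 1) (hu : u < n + 1) :
    (layOf n (idP n)).mat t u = 0 := by
  have h1 := E9_idP_lay (n := n) (x := 2 * t) (by omega)
  have h2 := E9_idP_lay (n := n) (x := 2 * t + 1) (by omega)
  have h3 := E9_idP_lay (n := n) (x := 2 * u) (by omega)
  have h4 := E9_idP_lay (n := n) (x := 2 * u + 1) (by omega)
  simp only [Lay.mat]
  split_ifs with htu
  · rw [h1.2, h2.2]; rfl
  · simp only [Lay.cr, Lay.l, h1.1, h2.1, h3.1, h4.1]
    rcases lt_or_gt_of_ne htu with h | h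
    · rw [if_pos (by omega), if_pos (by omega), if_pos (by omega), if_pos (by omega)]
      decide
    · rw [if_neg (by omega), if_neg (by omega), if_neg (by omega), if_neg (by omega)]
      decide

theorem E9_bz {a b : Bool} (h : bz a + bz b = 0) : a = b := by
  revert a b; decide

theorem eq_idP {n : ℕ} {p : List ℤ} (hp : IsSP n p)
    (h : ∀ t, t < n + 1 → ∀ u, u < n + 1 → (layOf n p).mat t u = 0) : p = idP n := by
  have hw := layOf_EL hp
  -- the two nodes of a chord lie in the same pair of positions
  have hpair : ∀ t, t < n + 1 → (layOf n p).pos (2 * t) / 2 = (layOf n p).pos (2 * t + 1) / 2 := by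
    intro t ht
    have hg : ∀ k, k ≤ n + 1 → ((layOf n p).pos (2 * t) < 2 * k ↔
        (layOf n p).pos (2 * t + 1) < 2 * k) := by
      intro k hk
      have := gap_pair hw (D := {t}) (by simpa using ht)
        (by
          intro s hs u hu _
          rw [Finset.mem_singleton] at hs
          subst hs
          exact h s ht u hu) hk
      rw [Finset.sum_singleton] at this
      split_ifs at this with c1 c2 c2
      · exact ⟨fun _ => c2, fun _ => c1⟩
      · exact absurd this (by decide)
      · exact absurd this (by decide)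
      · exact ⟨fun h' => absurd h' c1, fun h' => absurd h' c2⟩
    have l1 := hw.good.lt (2 * t) (by omega)
    have l2 := hw.good.lt (2 * t + 1) (by omega)
    have g1 := hg ((layOf n p).pos (2 * t) / 2 + 1) (by omega)
    have g2 := hg ((layOf n p).pos (2 * t + 1) / 2 + 1) (by omega)
    omega
  have hsg : ∀ t, t < n + 1 → (layOf n p).sg (2 * t) = (layOf n p).sg (2 * t + 1) := by
    intro t ht
    have := h t ht t ht
    rw [Lay.mat, if_pos rfl] at this
    exact E9_bz this
  have main : ∀ t, t < n + 1 → (layOf n p).pos (2 * t) = 2 * t ∧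
      (layOf n p).sg (2 * t) = true := by
    intro t
    induction t with
    | zero => intro _; exact ⟨hw.p0, hw.s0⟩
    | succ t ih =>
      intro ht
      obtain ⟨i1, i2⟩ := ih (by omega)
      have j1 : (layOf n p).sg (2 * t + 1) = true := by rw [← hsg t (by omega), i2]
      have j2 : (layOf n p).pos (2 * t + 1) = 2 * t + 1 := by
        have e1 := hpair t (by omega)
        have e2 : (layOf n p).pos (2 * t + 1) ≠ (layOf n p).pos (2 * t) := fun e => by
          have := hw.good.inj _ _ (by omega) (by omega) e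
          omega
        omega
      obtain ⟨k1, k, k2, k3, k4⟩ := hw.elt (t + 1) (by omega) (by omega)
      have e : 2 * (t + 1) - 1 = 2 * t + 1 := by omega
      rw [e] at k1 k4
      have k5 : (layOf n p).sg (2 * (t + 1)) = true := by rw [← k1, j1]
      rcases k4 with ⟨-, k6, k7⟩ | ⟨k6, -⟩
      · exact ⟨by omega, k5⟩
      · rw [k5] at k6; exact absurd k6 (by decide)
  rw [E9_idP_eq]
  apply List.ext_getElem
  · rw [E9_len hp]; simp
  · intro k h1 h2
    have hk : k < n := by rw [← E9_len hp]; exact h1
    obtain ⟨m1, m2⟩ := main (k + 1) (by omega)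
    have e1 : (2 * (k + 1) + 1) / 2 = k + 1 := by omega
    have c1 : ¬ (2 * (k + 1) = 0) := by omega
    have c2 : ¬ (2 * (k + 1) = 2 * n + 1) := by omega
    have c3 : 2 * (k + 1) % 2 = 0 := by omega
    simp only [layOf, e1, c1, c2, c3, if_false, true_iff, or_self, decide_eq_true_eq] at m1 m2
    rw [if_pos m2] at m1
    have e2 : (p.map Int.natAbs).idxOf (k + 1) = k := by omega
    obtain ⟨-, h4⟩ := E9_idx hp (v := k + 1) (by omega) (by omega)
    rw [e2] at h4 m2
    have e3 : p.getD k 0 = (k : ℤ) + 1 := by omega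
    rw [List.getD_eq_getElem _ _ h1] at e3
    rw [e3]
    simp

end SBR
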