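/-
SBR/E10.lean : assembly of the optimality theorem.
-/
import Pool.Agent.SBR.E1
import Pool.Agent.SBR.E4
import Pool.Agent.SBR.E7
import Pool.Agent.SBR.E8
import Pool.Agent.SBR.E9

namespace SBR

private theorem e10_gap_le {n : ℕ} {w : Lay} (hw : EL n w) {x : ℕ} (hx : x < 2 * (n + 1)) :
    w.gap x ≤ n := by
  have := hw.good.lt x hx
  simp only [Lay.gap]; omega

private theorem e10_outs_length (w : Lay) (l : List (ℕ × ℕ)) : (outs w l).length = l.length := by
  induction l generalizing w with
  | nil => rfl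
  | cons c l ih => simp [outs, ih]

/-- the reversals of the list `outs` carry out the cuts -/
private theorem e10_run {n : ℕ} (l : List (ℕ × ℕ)) : ∀ {p : List ℤ}, IsSP n p →
    (∀ c ∈ l, c.1 < 2 * (n + 1) ∧ c.2 < 2 * (n + 1)) →
    (∀ pre c post, l = pre ++ c :: post →
      (pre.foldl Lay.cut (layOf n p)).gap c.1 ≠ (pre.foldl Lay.cut (layOf n p)).gap c.2) →
    (∀ r ∈ outs (layOf n p) l, 1 ≤ r.1 ∧ r.1 ≤ r.2 ∧ r.2 ≤ n) ∧
    IsSP n ((outs (layOf n p) l).foldl (fun q r => revP q r.1 r.2) p) ∧
    layOf n ((outs (layOf n p) l).foldl (fun q r => revP q r.1 r.2) p) =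
      l.foldl Lay.cut (layOf n p) := by
  induction l with
  | nil =>
    intro p hp _ _
    refine ⟨?_, hp, rfl⟩
    intro r hr
    simp [outs] at hr
  | cons c l ih =>
    intro p hp hl hne
    have h0 : (layOf n p).gap c.1 ≠ (layOf n p).gap c.2 := hne [] c l rfl
    obtain ⟨hc1, hc2⟩ := hl c (by simp)
    have g1 := e10_gap_le (layOf_EL hp) hc1
    have g2 := e10_gap_le (layOf_EL hp) hc2
    set a := (layOf n p).gap c.1 with ha
    set b := (layOf n p).gap c.2 with hb
    have e1 : 1 ≤ min a b + 1 := by omega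
    have e2 : min a b + 1 ≤ max a b := by omega
    have e3 : max a b ≤ n := by omega
    have hp' : IsSP n (revP p (min a b + 1) (max a b)) := isSP_rev hp e1 e2 e3
    have hlay : layOf n (revP p (min a b + 1) (max a b)) = (layOf n p).cut c := by
      rw [layOf_rev hp e1 e2 e3]; rfl
    have hne' : ∀ pre c' post, l = pre ++ c' :: post →
        (pre.foldl Lay.cut (layOf n (revP p (min a b + 1) (max a b)))).gap c'.1 ≠
          (pre.foldl Lay.cut (layOf n (revP p (min a b + 1) (max a b)))).gap c'.2 := by
      intro pre c' post h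
      rw [hlay]
      exact hne (c :: pre) c' post (by rw [h]; rfl)
    obtain ⟨i1, i2, i3⟩ := ih hp' (fun d hd => hl d (by simp [hd])) hne'
    have ho : outs (layOf n p) (c :: l) = (min a b + 1, max a b) ::
        outs (layOf n (revP p (min a b + 1) (max a b))) l := by
      rw [hlay]; rfl
    rw [ho]
    refine ⟨?_, ?_, ?_⟩
    · intro r hr
      rcases List.mem_cons.1 hr with rfl | hr
      · exact ⟨e1, e2, e3⟩
      · exact i1 r hr
    · simpa only [List.foldl_cons] using i2
    · simp only [List.foldl_cons]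
      rw [i3, hlay]

/-- a list of reversals acts on the arrangement as reversals between gaps -/
private theorem e10_fold {n : ℕ} (rs : List (ℕ × ℕ)) : ∀ {p : List ℤ}, IsSP n p →
    (∀ r ∈ rs, 1 ≤ r.1 ∧ r.1 ≤ r.2 ∧ r.2 ≤ n) →
    (rs.map (fun r => (r.1 - 1, r.2))).foldl (fun w r => w.grev r.1 r.2) (layOf n p) =
      layOf n (rs.foldl (fun q r => revP q r.1 r.2) p) := by
  induction rs with
  | nil => intro p _ _; rfl
  | cons r rs ih =>
    intro p hp h
    obtain ⟨h1, h2, h3⟩ := h r (by simp)
    simp only [List.map_cons, List.foldl_cons]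
    rw [← layOf_rev hp h1 h2 h3]
    exact ih (isSP_rev hp h1 h2 h3) (fun d hd => h d (by simp [hd]))

private theorem e10_hurdles {R : List ℕ} {j : ℕ} (h : j ∈ hurdles R) : j < R.length := by
  have := List.mem_of_mem_filter h
  simpa using this

private theorem e10_getD {R H : List ℕ} (hH : ∀ j ∈ H, j < R.length) {i : ℕ} (hi : i < H.length) :
    H.getD i 0 < R.length := by
  apply hH
  rw [List.getD_eq_getElem _ _ hi]
  exact List.getElem_mem hi

private theorem e10_halves {R H : List ℕ} (hH : ∀ j ∈ H, j < R.length) {f : ℕ × ℕ}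
    (hf : f ∈ halves H) : f.1 < R.length ∧ f.2 < R.length := by
  simp only [halves, List.mem_map, List.mem_range] at hf
  obtain ⟨i, hi, rfl⟩ := hf
  exact ⟨e10_getD hH (by omega), e10_getD hH (by omega)⟩

private theorem e10_erase {R : List ℕ} {k j : ℕ} (h : j ∈ (hurdles R).eraseIdx k) :
    j < R.length :=
  e10_hurdles ((List.eraseIdx_subset) h)

/-- the positions used by the plan are positions of the word -/
private theorem e10_plan (R : List ℕ) :
    (∀ f ∈ (plan R).1, f.1 < R.length ∧ f.2 < R.length) ∧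
      ∀ j, (plan R).2 = some j → j < R.length := by
  unfold plan
  split_ifs with h1 h2
  · exact ⟨fun f hf => e10_halves (fun j hj => e10_hurdles hj) hf, fun j hj => by simp at hj⟩
  · refine ⟨fun f hf => e10_halves (fun j hj => e10_erase hj) hf, fun j hj => ?_⟩
    simp only [Option.some.injEq] at hj
    rw [← hj]
    exact e10_getD (fun j hj => e10_hurdles hj) h2
  · refine ⟨fun f hf => ?_, fun j hj => by simp at hj⟩
    rcases List.mem_append.1 hf with hf | hf
    · exact e10_halves (fun j hj => e10_erase hj) hf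
    · simp only [List.mem_singleton] at hf
      subst hf
      have hlen : 0 < (hurdles R).length := by omega
      have hR : 0 < R.length := by
        have := e10_getD (R := R) (fun j hj => e10_hurdles hj) hlen
        omega
      refine ⟨e10_getD (fun j hj => e10_hurdles hj) hlen, ?_⟩
      by_cases h : 1 < (hurdles R).length
      · exact e10_getD (fun j hj => e10_hurdles hj) h
      · have : (hurdles R).getD 1 0 = 0 := by
          rw [List.getD_eq_default]; omega
        simp only [this]; exact hR

private theorem e10_planN {n : ℕ} {R : List ℕ} {nd : ℕ → ℕ}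
    (hnd : ∀ j, j < R.length → nd j < 2 * (n + 1)) {c : ℕ × ℕ} (hc : c ∈ planN R nd) :
    c.1 < 2 * (n + 1) ∧ c.2 < 2 * (n + 1) := by
  obtain ⟨h1, h2⟩ := e10_plan R
  unfold planN at hc
  rcases List.mem_append.1 hc with hc | hc
  · simp only [List.mem_map] at hc
    obtain ⟨f, hf, rfl⟩ := hc
    exact ⟨hnd _ (h1 f hf).1, hnd _ (h1 f hf).2⟩
  · cases h : (plan R).2 with
    | none => rw [h] at hc; simp at hc
    | some j =>
      rw [h] at hc
      simp only [List.mem_singleton] at hc
      have := hnd j (h2 j h)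
      subst hc
      constructor <;> simp only <;> omega

theorem opt_main {n : ℕ} {p : List ℤ} (hp : IsSP n p) {lab : ℕ → ℕ}
    (hl : GLab (n + 1) (layOf n p) lab) {R : List ℕ} (hR : R = trim (lword (n + 1) lab))
    {nd : ℕ → ℕ}
    (hnd : ∀ j, j < R.length → nd j < 2 * (n + 1) ∧ lab ((layOf n p).gap (nd j)) = R.getD j 0)
    {w' : Lay} (hw' : w' = (planN R nd).foldl Lay.cut (layOf n p)) {ord : List ℕ}
    (ho : ∀ v ∈ ord, v < n + 1) (hv : Valid (w'.amat (n + 1)) ord)
    (hz : ∀ t u, pivs (w'.amat (n + 1)) ord t u = 0) :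
    Sorts n p (outs (layOf n p) (planN R nd) ++
        outs w' (ord.map (fun v => (2 * v, 2 * v + 1)))) ∧
      ∀ rs, Sorts n p rs → (outs (layOf n p) (planN R nd) ++
        outs w' (ord.map (fun v => (2 * v, 2 * v + 1)))).length ≤ rs.length := by
  have hw := layOf_EL hp
  obtain ⟨m1, m2, -, m4⟩ := hurdles_main hw hl hR hnd
  rw [← hw'] at m2 m4
  have hN : ∀ c ∈ planN R nd, c.1 < 2 * (n + 1) ∧ c.2 < 2 * (n + 1) :=
    fun c hc => e10_planN (fun j hj => (hnd j hj).1) hc
  obtain ⟨a1, a2, a3⟩ := e10_run (planN R nd) hp hN m1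
  set q := (outs (layOf n p) (planN R nd)).foldl (fun q r => revP q r.1 r.2) p with hq
  rw [← hw'] at a3
  obtain ⟨r1, r2, r3⟩ := replay m2 ho hv
  have hO : ∀ c ∈ ord.map (fun v => (2 * v, 2 * v + 1)), c.1 < 2 * (n + 1) ∧ c.2 < 2 * (n + 1) := by
    intro c hc
    simp only [List.mem_map] at hc
    obtain ⟨v, hv', rfl⟩ := hc
    have := ho v hv'
    constructor <;> simp only <;> omega
  have hOne : ∀ pre c post, ord.map (fun v => (2 * v, 2 * v + 1)) = pre ++ c :: post →
      (pre.foldl Lay.cut (layOf n q)).gap c.1 ≠ (pre.foldl Lay.cut (layOf n q)).gap c.2 := by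
    intro pre c post h
    rw [a3]
    obtain ⟨l1, l2, rfl, h1, h2⟩ := List.map_eq_append_iff.1 h
    obtain ⟨v, l3, rfl, h3, h4⟩ := List.map_eq_cons_iff.1 h2
    rw [← h1, ← h3]
    exact r1 l1 v l3 rfl
  obtain ⟨b1, b2, b3⟩ := e10_run (ord.map (fun v => (2 * v, 2 * v + 1))) a2 hO hOne
  rw [a3] at b1 b2 b3
  constructor
  · constructor
    · intro r hr
      rcases List.mem_append.1 hr with hr | hr
      · exact a1 r hr
      · exact b1 r hr
    · rw [List.foldl_append, ← hq]
      apply eq_idP b2
      intro t ht u hu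
      rw [b3]
      have h1 : ((ord.map (fun v => (2 * v, 2 * v + 1))).foldl Lay.cut w').amat (n + 1) t u = 0 := by
        rw [r3]; exact hz t u
      simpa [Lay.amat, ht, hu] using h1
  · intro rs hrs
    have hlb := lower_bound hw (rs.map (fun r => (r.1 - 1, r.2))) (by
      intro r hr
      simp only [List.mem_map] at hr
      obtain ⟨r', hr', rfl⟩ := hr
      have := hrs.1 r' hr'
      constructor <;> simp only <;> omega) (by
      intro t ht u hu
      rw [e10_fold rs hp hrs.1, hrs.2]
      exact mat_idP ht hu)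
    obtain ⟨F, hF, hlb⟩ := hlb
    have h4 := m4 F hF
    have hsym : ∀ i, i < n + 1 → ∀ j, j < n + 1 → w'.amat (n + 1) i j = w'.amat (n + 1) j i := by
      intro i hi j hj
      simp only [Lay.amat, hi, hj, and_self, if_true]
      exact Lay.mat_comm m2.good (by omega) (by omega)
    have h5 := mrk_valid hsym ho hv
    have h6 : mrk (n + 1) (w'.amat (n + 1)) = mrk (n + 1) w'.mat := by
      apply mrk_congr
      intro i hi j hj
      simp only [Lay.amat, hi, hj, and_self, if_true]
    rw [List.length_append, e10_outs_length, e10_outs_length, List.length_map]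
    rw [List.length_map] at hlb
    omega

end SBR
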