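/-
SBR/Adt.lean : semantics of the sequence operations.
A sequence of distinct nodes, each with a sign, and a key for every node (key 0 = no key).
-/
import Pool.Agent.SBR.Lang

namespace SBR

/-- abstract state: the sequence of nodes with signs, and the keys -/
structure AQ where
  seq : List (ℕ × Bool)
  key : ℕ → ℕ

/-- reverse a list and change all signs -/
def rv (l : List (ℕ × Bool)) : List (ℕ × Bool) := (l.map (fun p => (p.1, !p.2))).reverse

/-- largest key in a list (0 if there is none) -/
def mxk (key : ℕ → ℕ) (l : List (ℕ × Bool)) : ℕ := l.foldr (fun p a => max (key p.1) a) 0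

/-- minimum where `0` means that there is nothing -/
def cmb (a b : ℕ) : ℕ := if a = 0 then b else if b = 0 then a else min a b

/-- smallest nonzero key among the entries with sign `b` (0 if there is none) -/
def mnk (key : ℕ → ℕ) (b : Bool) (l : List (ℕ × Bool)) : ℕ :=
  l.foldr (fun p a => cmb (if p.2 = b then key p.1 else 0) a) 0

/-- array identifiers used by the operation `init`: order of the nodes, their signs
(by position), their keys (by node) -/
abbrev aO : ℕ := 0
abbrev aS : ℕ := 1
abbrev aK : ℕ := 2

/-- sequence operations; the arguments are register numbers -/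
inductive Op
  /-- build the sequence `aO[0], …, aO[R n - 1]`, signs `aS[i] ≠ 0`, keys `aK[node]`;
  all nodes are `< R z` -/
  | init (n z : ℕ)
  /-- `R d :=` smallest nonzero key of a negative node -/
  | minneg (d : ℕ)
  /-- `R d :=` largest key before node `R x`, `R e :=` smallest nonzero key of a positive node
  behind node `R x` -/
  | side (x d e : ℕ)
  /-- `R d :=` largest key strictly between nodes `R a`, `R b` -/
  | btw (a b d : ℕ)
  /-- reverse what is strictly between nodes `R a`, `R b` -/
  | rev (a b : ℕ)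
  /-- key of node `R x` becomes `R k` -/
  | setk (x k : ℕ)
  /-- `R d :=` position of node `R x`, `R e :=` its sign (1 = positive) -/
  | rank (x d e : ℕ)
  /-- `R d :=` node at position `R k` -/
  | kth (k d : ℕ)
  /-- rotate the sequence so that node `R x` is first -/
  | rot (x : ℕ)

/-- sign as a word -/
def b2n (b : Bool) : ℕ := if b then 1 else 0

/-- semantics of the sequence operations; each costs `lam`, except `init` -/
inductive opS (lam : ℕ) : Op → St × AQ → St × AQ → ℕ → Prop
  | init (n z : ℕ) (s : St) (q : AQ) (hpos : 1 ≤ s.reg n) (hlam : s.reg n ≤ 2 ^ lam)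
      (hlt : ∀ i < s.reg n, s.arr aO i < s.reg z)
      (hinj : ∀ i < s.reg n, ∀ j < s.reg n, s.arr aO i = s.arr aO j → i = j) :
      opS lam (.init n z) (s, q)
        (s, { seq := (List.range (s.reg n)).map (fun i => (s.arr aO i, decide (s.arr aS i ≠ 0))),
              key := s.arr aK }) ((s.reg n + 1) * lam)
  | minneg (d : ℕ) (s : St) (q : AQ) (hne : q.seq ≠ []) :
      opS lam (.minneg d) (s, q) (s.setReg d (mnk q.key false q.seq), q) lam
  | side (x d e : ℕ) (s : St) (q : AQ) (b : Bool) (l₁ l₂ : List (ℕ × Bool)) (hde : d ≠ e)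
      (h : q.seq = l₁ ++ (s.reg x, b) :: l₂) :
      opS lam (.side x d e) (s, q)
        ((s.setReg d (mxk q.key l₁)).setReg e (mnk q.key true l₂), q) lam
  | btw (a b d : ℕ) (s : St) (q : AQ) (u v : ℕ × Bool) (l₁ l₂ l₃ : List (ℕ × Bool))
      (h : q.seq = l₁ ++ u :: (l₂ ++ v :: l₃))
      (huv : (u.1 = s.reg a ∧ v.1 = s.reg b) ∨ (u.1 = s.reg b ∧ v.1 = s.reg a)) :
      opS lam (.btw a b d) (s, q) (s.setReg d (mxk q.key l₂), q) lam
  | rev (a b : ℕ) (s : St) (q : AQ) (u v : ℕ × Bool) (l₁ l₂ l₃ : List (ℕ × Bool))
      (h : q.seq = l₁ ++ u :: (l₂ ++ v :: l₃))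
      (huv : (u.1 = s.reg a ∧ v.1 = s.reg b) ∨ (u.1 = s.reg b ∧ v.1 = s.reg a)) :
      opS lam (.rev a b) (s, q) (s, { q with seq := l₁ ++ u :: (rv l₂ ++ v :: l₃) }) lam
  | setk (x k : ℕ) (s : St) (q : AQ) (h : s.reg x ∈ q.seq.map Prod.fst) :
      opS lam (.setk x k) (s, q)
        (s, { q with key := fun y => if y = s.reg x then s.reg k else q.key y }) lam
  | rank (x d e : ℕ) (s : St) (q : AQ) (b : Bool) (l₁ l₂ : List (ℕ × Bool)) (hde : d ≠ e)
      (h : q.seq = l₁ ++ (s.reg x, b) :: l₂) :
      opS lam (.rank x d e) (s, q) ((s.setReg d l₁.length).setReg e (b2n b), q) lam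
  | kth (k d : ℕ) (s : St) (q : AQ) (u : ℕ × Bool) (h : q.seq[s.reg k]? = some u) :
      opS lam (.kth k d) (s, q) (s.setReg d u.1, q) lam
  | rot (x : ℕ) (s : St) (q : AQ) (b : Bool) (l₁ l₂ : List (ℕ × Bool))
      (h : q.seq = l₁ ++ (s.reg x, b) :: l₂) :
      opS lam (.rot x) (s, q) (s, { q with seq := (s.reg x, b) :: l₂ ++ l₁ }) lam

/-- register numbers of an operation are `< V` -/
def Op.wf (V : ℕ) : Op → Bool
  | .init n z => decide (n < V) && decide (z < V)
  | .minneg d => decide (d < V)
  | .side x d e => decide (x < V) && decide (d < V) && decide (e < V)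
  | .btw a b d => decide (a < V) && decide (b < V) && decide (d < V)
  | .rev a b => decide (a < V) && decide (b < V)
  | .setk x k => decide (x < V) && decide (k < V)
  | .rank x d e => decide (x < V) && decide (d < V) && decide (e < V)
  | .kth k d => decide (k < V) && decide (d < V)
  | .rot x => decide (x < V)

/-- programs with sequence operations -/
abbrev XStm := Stm Op

/-- execution of programs with sequence operations -/
abbrev XRun (M : ℕ) (inp : ℕ → ℕ) (lam : ℕ) : XStm → St × AQ → St × AQ → ℕ → Prop :=
  Run M inp (opS lam)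

/-- registers and arrays available to programs with sequence operations -/
abbrev XV : ℕ := 100
abbrev XK : ℕ := 60

end SBR
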