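/-
SBR/Prog.lean : the sorting program, written with sequence operations.

Registers: 0 = n, 1 = m = n+1 (number of chords), 2 = L = 2m (number of nodes).
Arrays: 0 = node at position (for `init`), 1 = sign at position (for `init`), 2 = key of node (for `init`),
3 = position of node, 4 = node at position, 5 = chord alive, 6 = representative of the component,
7 = parent, 8 = last end, 9 = stack, 28 = first end, 10 = component has an oriented chord,
11 = number of chords of the component, 12 = word, 13 = node for a letter, 14 = number of occurrences,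
15 = hurdles, 16, 17 = pairs of nodes at which the sequence is cut, 18, 19 = marks, 20 = order list
(predecessor + 1), 21 = label of a pivot, 22 = pivot with a given label, 23 = last label of a chord,
24 = last label of a component, 25 = entry chord + 1 of a component, 30 = its distance,
26 = first chord + 1 of a component, 27 = next chord + 1 in the component, 29 = collected order list.
-/
import Pool.Agent.SBR.Adt

namespace SBR

/-- `for R i := 0 to R n - 1 do body` -/
def forN {Pr : Type} (i n : ℕ) (body : Stm Pr) : Stm Pr :=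
  .seq (.set i (.c 0)) (.whl (.lt (.r i) (.r n)) (.seq body (.set i (.add (.r i) (.c 1)))))

/-- `2 * e` -/
def dbl (e : Ex) : Ex := .add e e

/-- `2 * e + 1` -/
def dbl1 (e : Ex) : Ex := .add (.add e e) (.c 1)

/-- the other end of the chord `v` with end `x` -/
def mt (v x : Ex) : Ex := .sub (.add (.add (.add v v) (.add v v)) (.c 1)) x

/-- read the input, build the node arrangement -/
def pRead : XStm := blk [
  .set 0 (.inp (.c 0)), .set 1 (.add (.r 0) (.c 1)), .set 2 (.add (.r 1) (.r 1)),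
  .sto 0 (.c 0) (.c 0), .sto 1 (.c 0) (.c 1),
  forN 3 0 (blk [
    .set 4 (.inp (.add (.r 3) (.c 1))),
    .set 5 (.half (.r 4)),
    .set 6 (dbl1 (.r 3)),
    .ite (.eq (.r 4) (dbl (.r 5)))
      (blk [.sto 0 (.r 6) (.sub (dbl (.r 5)) (.c 1)), .sto 0 (.add (.r 6) (.c 1)) (dbl (.r 5)),
        .sto 1 (.r 6) (.c 1), .sto 1 (.add (.r 6) (.c 1)) (.c 1)])
      (blk [.sto 0 (.r 6) (dbl (.r 5)), .sto 0 (.add (.r 6) (.c 1)) (.sub (dbl (.r 5)) (.c 1)),
        .sto 1 (.r 6) (.c 0), .sto 1 (.add (.r 6) (.c 1)) (.c 0)])]),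
  .sto 0 (.sub (.r 2) (.c 1)) (.sub (.r 2) (.c 1)), .sto 1 (.sub (.r 2) (.c 1)) (.c 1)]

/-- positions and node order, all chords alive -/
def pPos : XStm := blk [
  forN 3 2 (blk [.set 4 (.ld 0 (.r 3)), .sto 3 (.r 4) (.r 3), .sto 4 (.r 3) (.r 4)]),
  forN 3 1 (.sto 5 (.r 3) (.c 1))]

/-- components of the alive chords: first scan -/
def pScan : XStm := .seq (.set 17 (.c 0)) (forN 10 2 (blk [
  .set 11 (.ld 4 (.r 10)), .set 12 (.half (.r 11)),
  .ite (.eq (.ld 5 (.r 12)) (.c 1))
    (blk [.set 14 (.ld 3 (mt (.r 12) (.r 11))),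
      .ite (.lt (.r 10) (.r 14))
        (blk [.sto 9 (.r 17) (.r 12), .set 17 (.add (.r 17) (.c 1)), .sto 7 (.r 12) (.r 12),
          .sto 8 (.r 12) (.r 14), .sto 28 (.r 12) (.r 10)])
        (blk [.set 15 (.ld 9 (.sub (.r 17) (.c 1))),
          .whl (.lt (.r 14) (.ld 28 (.r 15))) (blk [
            .set 17 (.sub (.r 17) (.c 1)), .set 16 (.ld 9 (.sub (.r 17) (.c 1))),
            .sto 7 (.r 15) (.r 16),
            .ite (.lt (.ld 8 (.r 16)) (.ld 8 (.r 15))) (.sto 8 (.r 16) (.ld 8 (.r 15))) .skip,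
            .set 15 (.r 16)]),
          .ite (.lt (.r 10) (.ld 8 (.r 15))) .skip (.set 17 (.sub (.r 17) (.c 1)))])])
    .skip]))

/-- components of the alive chords: second scan, representatives -/
def pRep : XStm := forN 10 2 (blk [
  .set 11 (.ld 4 (.r 10)), .set 12 (.half (.r 11)),
  .ite (.eq (.ld 5 (.r 12)) (.c 1))
    (.ite (.lt (.r 10) (.ld 3 (mt (.r 12) (.r 11))))
      (.ite (.eq (.ld 7 (.r 12)) (.r 12)) (.sto 6 (.r 12) (.r 12))
        (.sto 6 (.r 12) (.ld 6 (.ld 7 (.r 12))))) .skip) .skip])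

/-- components of the alive chords -/
def pComps : XStm := .seq pScan pRep

/-- sizes and orientation of the components -/
def pOri : XStm := forN 10 1 (blk [
  .set 11 (.ld 6 (.r 10)), .sto 11 (.r 11) (.add (.ld 11 (.r 11)) (.c 1)),
  .ite (.eq (.ld 1 (.ld 3 (dbl (.r 10)))) (.ld 1 (.ld 3 (dbl1 (.r 10))))) .skip
    (.sto 10 (.r 11) (.c 1))])

/-- the word of the unoriented components along the gaps; register 40 = length -/
def pWord : XStm := blk [
  .set 40 (.c 0),
  forN 10 1 (blk [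
    .set 11 (.ld 4 (dbl (.r 10))), .set 12 (.ld 6 (.half (.r 11))),
    .ite (.eq (.ld 10 (.r 12)) (.c 0))
      (.ite (.lt (.c 1) (.ld 11 (.r 12)))
        (blk [.set 13 (.c 0),
          .ite (.lt (.c 0) (.r 40))
            (.ite (.eq (.ld 12 (.sub (.r 40) (.c 1))) (.add (.r 12) (.c 1))) (.set 13 (.c 1)) .skip)
            .skip,
          .ite (.eq (.r 13) (.c 0))
            (blk [.sto 12 (.r 40) (.add (.r 12) (.c 1)), .sto 13 (.r 40) (.r 11),
              .set 40 (.add (.r 40) (.c 1))]) .skip])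
        .skip)
      .skip]),
  .ite (.lt (.c 1) (.r 40))
    (.ite (.eq (.ld 12 (.sub (.r 40) (.c 1))) (.ld 12 (.c 0))) (.set 40 (.sub (.r 40) (.c 1))) .skip)
    .skip]

/-- occurrences of the letters and hurdles; register 41 = number of hurdles -/
def pHur : XStm := blk [
  forN 10 40 (blk [.set 11 (.ld 12 (.r 10)), .sto 14 (.r 11) (.add (.ld 14 (.r 11)) (.c 1))]),
  .set 41 (.c 0),
  forN 10 40 (.ite (.eq (.ld 14 (.ld 12 (.r 10))) (.c 1))
    (blk [.sto 15 (.r 41) (.r 10), .set 41 (.add (.r 41) (.c 1))]) .skip)]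

/-- register 45 := index of the first hurdle which is not super (register 41 if there is none) -/
def pSup : XStm := blk [
  .set 45 (.r 41),
  forN 10 41 (blk [
    .set 11 (.ld 15 (.r 10)),
    .ite (.eq (.r 11) (.c 0)) (.set 12 (.sub (.r 40) (.c 1))) (.set 12 (.sub (.r 11) (.c 1))),
    .ite (.eq (.add (.r 11) (.c 1)) (.r 40)) (.set 13 (.c 0)) (.set 13 (.add (.r 11) (.c 1))),
    .set 14 (.c 0),
    .ite (.eq (.ld 12 (.r 12)) (.ld 12 (.r 13)))
      (.ite (.eq (.ld 14 (.ld 12 (.r 12))) (.c 2)) (.set 14 (.c 1)) .skip) .skip,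
    .ite (.eq (.r 14) (.c 0)) (.ite (.eq (.r 45) (.r 41)) (.set 45 (.r 10)) .skip) .skip])]

/-- the pairs of nodes at which the sequence is cut; register 42 = their number -/
def pPlan : XStm := blk [
  .set 43 (.half (.r 41)),
  .set 44 (.c 0),
  .ite (.eq (.r 41) (dbl (.r 43))) (.set 45 (.r 41))
    (blk [pSup, .set 44 (.c 1),
      .ite (.eq (.r 45) (.r 41)) (blk [.set 44 (.c 2), .set 45 (.c 0)]) .skip]),
  forN 10 43 (blk [
    .set 11 (.r 10), .ite (.lt (.r 11) (.r 45)) .skip (.set 11 (.add (.r 11) (.c 1))),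
    .set 12 (.add (.r 10) (.r 43)), .ite (.lt (.r 12) (.r 45)) .skip (.set 12 (.add (.r 12) (.c 1))),
    .sto 16 (.r 10) (.ld 13 (.ld 15 (.r 11))), .sto 17 (.r 10) (.ld 13 (.ld 15 (.r 12)))]),
  .set 42 (.r 43),
  .ite (.eq (.r 44) (.c 0)) .skip
    (blk [
      .ite (.eq (.r 44) (.c 1))
        (blk [.set 11 (.half (.ld 13 (.ld 15 (.r 45)))), .sto 16 (.r 42) (dbl (.r 11)),
          .sto 17 (.r 42) (dbl1 (.r 11))])
        (blk [.sto 16 (.r 42) (.ld 13 (.ld 15 (.c 0))), .sto 17 (.r 42) (.ld 13 (.ld 15 (.c 1)))]),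
      .set 42 (.add (.r 42) (.c 1))])]

/-- cut at the nodes `R 30`, `R 31` -/
def pCut : XStm := blk [
  .prim (.rank 30 32 33), .prim (.rank 31 34 35),
  .set 32 (.half (.r 32)), .set 34 (.half (.r 34)),
  .ite (.lt (.r 34) (.r 32)) (blk [.set 36 (.r 32), .set 32 (.r 34), .set 34 (.r 36)]) .skip,
  .prt (.add (.r 32) (.c 1)), .prt (.r 34),
  .set 36 (dbl (.r 32)), .set 37 (dbl1 (.r 34)),
  .prim (.kth 36 38), .prim (.kth 37 39), .prim (.rev 38 39)]

/-- cut at all pairs of nodes -/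
def pCuts : XStm := forN 10 42 (blk [.set 30 (.ld 16 (.r 10)), .set 31 (.ld 17 (.r 10)), pCut])

/-- save the arrangement for the replay, prepare the keys of phase 1 -/
def pSave : XStm := forN 10 2 (blk [
  .prim (.rank 10 12 13), .sto 0 (.r 12) (.r 10), .sto 1 (.r 12) (.r 13),
  .sto 2 (.r 10) (.add (.r 10) (.c 1))])

/-- phase 1 -/
def pPh1 : XStm := blk [
  .set 50 (.c 0), .set 51 (.c 0), .prim (.minneg 52),
  .whl (.lt (.c 0) (.r 52)) (blk [
    .set 53 (.half (.sub (.r 52) (.c 1))), .set 54 (dbl (.r 53)), .set 55 (dbl1 (.r 53)),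
    .prim (.rank 54 56 57), .prim (.rank 55 58 59),
    .ite (.lt (.r 56) (.r 58)) (blk [.sto 18 (.r 53) (.r 54), .sto 19 (.r 53) (.r 55)])
      (blk [.sto 18 (.r 53) (.r 55), .sto 19 (.r 53) (.r 54)]),
    .prim (.rev 54 55), .set 57 (.c 0), .prim (.setk 54 57), .prim (.setk 55 57),
    .sto 5 (.r 53) (.c 0), .sto 20 (.r 53) (.r 50), .set 50 (.add (.r 53) (.c 1)),
    .set 51 (.add (.r 51) (.c 1)), .sto 21 (.r 53) (.r 51), .sto 22 (.r 51) (.r 53),
    .prim (.minneg 52)])]

/-- positions after phase 1, clear the keys -/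
def pPos2 : XStm := forN 10 2 (blk [
  .prim (.rank 10 11 12), .sto 3 (.r 10) (.r 11), .sto 4 (.r 11) (.r 10), .set 12 (.c 0),
  .prim (.setk 10 12)])

/-- labels of the pivots whose first mark is between the ends of a chord and whose second mark is
behind them -/
def pSweep : XStm := forN 10 2 (blk [
  .set 11 (.ld 4 (.r 10)), .set 12 (.half (.r 11)), .set 13 (mt (.r 12) (.r 11)),
  .ite (.eq (.ld 5 (.r 12)) (.c 1))
    (.ite (.lt (.r 10) (.ld 3 (.r 13))) .skip
      (blk [.prim (.btw 11 13 14),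
        .ite (.lt (.ld 23 (.r 12)) (.r 14)) (.sto 23 (.r 12) (.r 14)) .skip]))
    (.ite (.lt (.r 10) (.ld 3 (.r 13)))
      (blk [.set 14 (.ld 21 (.r 12)), .prim (.setk 11 14)])
      (blk [.set 14 (.c 0), .prim (.setk 13 14)]))])

/-- opposite order of the positions -/
def pFlip : XStm := forN 10 2 (blk [
  .set 11 (.sub (.sub (.r 2) (.c 1)) (.ld 3 (.r 10))), .sto 3 (.r 10) (.r 11),
  .sto 4 (.r 11) (.r 10)])

/-- last label of every alive chord -/
def pSweeps : XStm := blk [pSweep, pFlip, pSweep]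

/-- last labels of the components -/
def pWk : XStm := forN 10 1 (.ite (.eq (.ld 5 (.r 10)) (.c 1))
  (blk [.set 11 (.ld 6 (.r 10)),
    .ite (.lt (.ld 24 (.r 11)) (.ld 23 (.r 10))) (.sto 24 (.r 11) (.ld 23 (.r 10))) .skip]) .skip)

/-- entry chords and lists of the components that have a label -/
def pTe : XStm := forN 10 1 (.ite (.eq (.ld 5 (.r 10)) (.c 1))
  (blk [.set 11 (.ld 6 (.r 10)),
    .ite (.lt (.c 0) (.ld 24 (.r 11)))
      (blk [
        .set 12 (.sub (.add (.ld 3 (.ld 18 (.ld 22 (.ld 24 (.r 11))))) (.r 2))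
          (.ld 3 (dbl (.r 10)))),
        .ite (.lt (.r 12) (.r 2)) .skip (.set 12 (.sub (.r 12) (.r 2))),
        .ite (.eq (.ld 25 (.r 11)) (.c 0))
          (blk [.sto 25 (.r 11) (.add (.r 10) (.c 1)), .sto 30 (.r 11) (.r 12)])
          (.ite (.lt (.r 12) (.ld 30 (.r 11)))
            (blk [.sto 25 (.r 11) (.add (.r 10) (.c 1)), .sto 30 (.r 11) (.r 12)]) .skip),
        .sto 27 (.r 10) (.ld 26 (.r 11)), .sto 26 (.r 11) (.add (.r 10) (.c 1))])
      .skip]) .skip)

/-- find a chord separated by node `R 70`; register 71 := its key (0 if there is none) -/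
def pFind : XStm := blk [
  .prim (.side 70 72 73), .set 71 (.c 0),
  .ite (.eq (.r 72) (.c 0)) .skip
    (.ite (.eq (.r 72) (dbl (.half (.r 72))))
      (.ite (.eq (.r 73) (.c 0)) .skip
        (.ite (.eq (.r 73) (dbl (.half (.r 73)))) (.set 71 (.r 73)) .skip))
      (.set 71 (.r 72)))]

/-- chord with key number `(R k - 1) / 2`, into register `d` -/
def pChord (k d : ℕ) : XStm := blk [
  .set d (.add (.half (.sub (.r k) (.c 1))) (.r 62)),
  .ite (.lt (.r d) (.r 1)) .skip (.set d (.sub (.r d) (.r 1)))]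

/-- exchange two registers (using register 78) -/
def pXch (a b : ℕ) : XStm := blk [.set 78 (.r a), .set a (.r b), .set b (.r 78)]

/-- block swap for the crossing chords `R 74`, `R 79` with ends `R 75`, `R 76` and `R 80`, `R 81` -/
def pSwap : XStm := blk [
  .prim (.rank 75 82 78), .prim (.rank 76 83 78), .prim (.rank 80 84 78), .prim (.rank 81 85 78),
  .ite (.lt (.r 82) (.r 83)) .skip (blk [pXch 75 76, pXch 82 83]),
  .ite (.lt (.r 84) (.r 85)) .skip (blk [pXch 80 81, pXch 84 85]),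
  .ite (.lt (.r 82) (.r 84))
    (blk [.set 86 (.r 75), .set 87 (.r 80), .set 88 (.r 76), .set 89 (.r 81), .set 90 (.r 74),
      .set 91 (.r 79)])
    (blk [.set 86 (.r 80), .set 87 (.r 75), .set 88 (.r 81), .set 89 (.r 76), .set 90 (.r 79),
      .set 91 (.r 74)]),
  .prim (.rev 86 89), .prim (.rev 86 88), .prim (.rev 88 87), .prim (.rev 87 89),
  .set 78 (.c 0), .prim (.setk 86 78), .prim (.setk 87 78), .prim (.setk 88 78),
  .prim (.setk 89 78),
  .sto 18 (.r 90) (.r 86), .sto 19 (.r 90) (.r 87), .sto 18 (.r 91) (.r 88),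
  .sto 19 (.r 91) (.r 89)]

/-- one step of phase 2; register 68 = height of the stack, 69 = top -/
def pStep : XStm := blk [
  .set 69 (.ld 9 (.sub (.r 68) (.c 1))),
  .set 70 (.ld 18 (.r 69)), pFind,
  .ite (.eq (.r 71) (.c 0)) (blk [.set 70 (.ld 19 (.r 69)), pFind]) .skip,
  .ite (.eq (.r 71) (.c 0)) (.set 68 (.sub (.r 68) (.c 1)))
    (blk [pChord 71 74, .set 75 (dbl (.r 74)), .set 76 (dbl1 (.r 74)), .prim (.btw 75 76 77),
      .ite (.eq (.r 77) (.c 0))
        (blk [.set 78 (.c 0), .prim (.setk 75 78), .prim (.setk 76 78)])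
        (blk [pChord 77 79, .set 80 (dbl (.r 79)), .set 81 (dbl1 (.r 79)), pSwap,
          .sto 20 (.r 74) (.ld 20 (.r 69)), .sto 20 (.r 79) (.add (.r 74) (.c 1)),
          .sto 20 (.r 69) (.add (.r 79) (.c 1)),
          .sto 9 (.sub (.r 68) (.c 1)) (.r 74), .sto 9 (.r 68) (.r 79),
          .sto 9 (.add (.r 68) (.c 1)) (.r 69), .set 68 (.add (.r 68) (.c 2))])])]

/-- set the keys of the component with representative `R 60`, entry chord `R 62` -/
def pKeys : XStm := blk [
  .set 63 (.ld 26 (.r 60)),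
  .whl (.lt (.c 0) (.r 63)) (blk [
    .set 64 (.sub (.r 63) (.c 1)),
    .ite (.lt (.r 64) (.r 62)) (.set 65 (.sub (.add (.r 64) (.r 1)) (.r 62)))
      (.set 65 (.sub (.r 64) (.r 62))),
    .set 66 (dbl (.r 64)), .set 67 (dbl1 (.r 65)), .prim (.setk 66 67),
    .set 66 (.add (.r 66) (.c 1)), .set 67 (.add (.r 67) (.c 1)), .prim (.setk 66 67),
    .set 63 (.ld 27 (.r 64))])]

/-- clear the keys of the component with representative `R 60` -/
def pClear : XStm := blk [
  .set 63 (.ld 26 (.r 60)), .set 67 (.c 0),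
  .whl (.lt (.c 0) (.r 63)) (blk [
    .set 64 (.sub (.r 63) (.c 1)),
    .set 66 (dbl (.r 64)), .prim (.setk 66 67),
    .set 66 (.add (.r 66) (.c 1)), .prim (.setk 66 67),
    .set 63 (.ld 27 (.r 64))])]

/-- phase 2 for the component with representative `R 60` -/
def pComp : XStm := blk [
  .set 61 (.ld 22 (.ld 24 (.r 60))), .set 62 (.sub (.ld 25 (.r 60)) (.c 1)),
  pKeys,
  .set 66 (.ld 18 (.r 61)), .prim (.rot 66),
  .sto 9 (.c 0) (.r 61), .set 68 (.c 1),
  .whl (.lt (.c 0) (.r 68)) pStep,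
  pClear]

/-- phase 2 for all components -/
def pPh2 : XStm := forN 60 1 (.ite (.eq (.ld 26 (.r 60)) (.c 0)) .skip pComp)

/-- collect the order list -/
def pColl : XStm := blk [
  .set 10 (.c 0), .set 11 (.r 50),
  .whl (.lt (.c 0) (.r 11)) (blk [
    .set 12 (.sub (.r 11) (.c 1)), .sto 29 (.r 10) (.r 12), .set 10 (.add (.r 10) (.c 1)),
    .set 11 (.ld 20 (.r 12))]),
  .set 42 (.r 10),
  forN 10 42 (blk [
    .set 12 (.ld 29 (.sub (.sub (.r 42) (.c 1)) (.r 10))), .sto 16 (.r 10) (dbl (.r 12)),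
    .sto 17 (.r 10) (dbl1 (.r 12))])]

/-- the whole program -/
def sortProg : XStm := blk [
  pRead, pPos, pComps, pOri, pWord, pHur, pPlan,
  .prim (.init 2 2), pCuts, pSave,
  .prim (.init 2 2), pPh1, pPos2, pComps, pSweeps, pWk, pTe, pPh2, pColl,
  .prim (.init 2 2), pCuts]

theorem sortProg_wf : sortProg.wf (Op.wf XV) XV XK = true := by decide

end SBR
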