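/-
SBR/Rules.lean : rules for programs with sequence operations: counting loops and frame conditions
(what is not written does not change).
-/
import Pool.Agent.SBR.Prog

namespace SBR

/-- registers written by a sequence operation -/
def Op.wr : Op → List ℕ
  | .init _ _ => []
  | .minneg d => [d]
  | .side _ d e => [d, e]
  | .btw _ _ d => [d]
  | .rev _ _ => []
  | .setk _ _ => []
  | .rank _ d e => [d, e]
  | .kth _ d => [d]
  | .rot _ => []

/-- does the operation leave the sequence and the keys unchanged -/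
def Op.ro : Op → Bool
  | .init _ _ => false
  | .minneg _ => true
  | .side _ _ _ => true
  | .btw _ _ _ => true
  | .rev _ _ => false
  | .setk _ _ => false
  | .rank _ _ _ => true
  | .kth _ _ => true
  | .rot _ => false

/-- registers written -/
def Stm.wr : XStm → List ℕ
  | .skip => []
  | .set i _ => [i]
  | .sto _ _ _ => []
  | .prt _ => []
  | .seq p q => Stm.wr p ++ Stm.wr q
  | .ite _ p q => Stm.wr p ++ Stm.wr q
  | .whl _ p => Stm.wr p
  | .prim o => o.wr

/-- arrays written -/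
def Stm.wa : XStm → List ℕ
  | .skip => []
  | .set _ _ => []
  | .sto k _ _ => [k]
  | .prt _ => []
  | .seq p q => Stm.wa p ++ Stm.wa q
  | .ite _ p q => Stm.wa p ++ Stm.wa q
  | .whl _ p => Stm.wa p
  | .prim _ => []

/-- the sequence and the keys are only read -/
def Stm.ro : XStm → Bool
  | .skip => true
  | .set _ _ => true
  | .sto _ _ _ => true
  | .prt _ => true
  | .seq p q => Stm.ro p && Stm.ro q
  | .ite _ p q => Stm.ro p && Stm.ro q
  | .whl _ p => Stm.ro p
  | .prim o => o.ro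

/-- nothing is printed -/
def Stm.np : XStm → Bool
  | .skip => true
  | .set _ _ => true
  | .sto _ _ _ => true
  | .prt _ => false
  | .seq p q => Stm.np p && Stm.np q
  | .ite _ p q => Stm.np p && Stm.np q
  | .whl _ p => Stm.np p
  | .prim _ => true

theorem opS_frame {lam : ℕ} {o : Op} {s s' : St × AQ} {k : ℕ} (h : opS lam o s s' k) :
    s'.1.arr = s.1.arr ∧ s'.1.out = s.1.out ∧ (∀ r, r ∉ o.wr → s'.1.reg r = s.1.reg r) ∧
      (o.ro = true → s'.2 = s.2) := by
  cases h <;> simp_all [Op.wr, Op.ro]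

section

variable {M lam : ℕ} {inp : ℕ → ℕ}

/-- what is not written does not change -/
theorem run_frame {p : XStm} {s s' : St × AQ} {k : ℕ} (h : XRun M inp lam p s s' k) :
    (∀ a, a ∉ Stm.wa p → s'.1.arr a = s.1.arr a) ∧
    (∀ r, r ∉ Stm.wr p → s'.1.reg r = s.1.reg r) ∧
    (Stm.ro p = true → s'.2 = s.2) ∧ (Stm.np p = true → s'.1.out = s.1.out) := by
  induction h with
  | skip s => exact ⟨fun _ _ => rfl, fun _ _ => rfl, fun _ => rfl, fun _ => rfl⟩
  | set s q i e h =>
    refine ⟨fun _ _ => rfl, fun r hr => ?_, fun _ => rfl, fun _ => rfl⟩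
    simp only [Stm.wr, List.mem_singleton] at hr
    simp [hr]
  | sto s q k a e ha he =>
    refine ⟨fun b hb => ?_, fun _ _ => rfl, fun _ => rfl, fun _ => rfl⟩
    simp only [Stm.wa, List.mem_singleton] at hb
    funext i
    simp [hb]
  | prt s q e h => exact ⟨fun _ _ => rfl, fun _ _ => rfl, fun _ => rfl, fun h => by simp [Stm.np] at h⟩
  | seq p p' s s' s'' k k' h h' ih ih' =>
    refine ⟨fun a ha => ?_, fun r hr => ?_, fun hr => ?_, fun hr => ?_⟩
    · simp only [Stm.wa, List.mem_append, not_or] at ha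
      rw [ih'.1 a ha.2, ih.1 a ha.1]
    · simp only [Stm.wr, List.mem_append, not_or] at hr
      rw [ih'.2.1 r hr.2, ih.2.1 r hr.1]
    · simp only [Stm.ro, Bool.and_eq_true] at hr
      rw [ih'.2.2.1 hr.2, ih.2.2.1 hr.1]
    · simp only [Stm.np, Bool.and_eq_true] at hr
      rw [ih'.2.2.2 hr.2, ih.2.2.2 hr.1]
  | ite_t c p p' s s' k hc ht h ih =>
    refine ⟨fun a ha => ?_, fun r hr => ?_, fun hr => ?_, fun hr => ?_⟩
    · simp only [Stm.wa, List.mem_append, not_or] at ha
      exact ih.1 a ha.1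
    · simp only [Stm.wr, List.mem_append, not_or] at hr
      exact ih.2.1 r hr.1
    · simp only [Stm.ro, Bool.and_eq_true] at hr
      exact ih.2.2.1 hr.1
    · simp only [Stm.np, Bool.and_eq_true] at hr
      exact ih.2.2.2 hr.1
  | ite_f c p p' s s' k hc ht h ih =>
    refine ⟨fun a ha => ?_, fun r hr => ?_, fun hr => ?_, fun hr => ?_⟩
    · simp only [Stm.wa, List.mem_append, not_or] at ha
      exact ih.1 a ha.2
    · simp only [Stm.wr, List.mem_append, not_or] at hr
      exact ih.2.1 r hr.2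
    · simp only [Stm.ro, Bool.and_eq_true] at hr
      exact ih.2.2.1 hr.2
    · simp only [Stm.np, Bool.and_eq_true] at hr
      exact ih.2.2.2 hr.2
  | whl_t c p s s' s'' k k' hc ht h h' ih ih' =>
    refine ⟨fun a ha => ?_, fun r hr => ?_, fun hr => ?_, fun hr => ?_⟩
    · rw [ih'.1 a ha, ih.1 a ha]
    · rw [ih'.2.1 r hr, ih.2.1 r hr]
    · rw [ih'.2.2.1 hr, ih.2.2.1 hr]
    · rw [ih'.2.2.2 hr, ih.2.2.2 hr]
  | whl_f c p s hc ht => exact ⟨fun _ _ => rfl, fun _ _ => rfl, fun _ => rfl, fun _ => rfl⟩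
  | prim o s s' k h =>
    obtain ⟨h1, h2, h3, h4⟩ := opS_frame h
    exact ⟨fun _ _ => by rw [h1], fun r hr => h3 r hr, fun hr => h4 hr, fun _ => h2⟩

theorem run_seq {p p' : XStm} {s : St × AQ} {P Q : St × AQ → ℕ → Prop}
    (h : ∃ s' k, XRun M inp lam p s s' k ∧ P s' k)
    (h' : ∀ s' k, P s' k → ∃ s'' k', XRun M inp lam p' s' s'' k' ∧ Q s'' (k + k')) :
    ∃ s'' k, XRun M inp lam (.seq p p') s s'' k ∧ Q s'' k := by
  obtain ⟨s', k, h1, h2⟩ := h
  obtain ⟨s'', k', h3, h4⟩ := h' s' k h2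
  exact ⟨s'', k + k', .seq p p' s s' s'' k k' h1 h3, h4⟩

/-- rule for counting loops: `I j s q` holds before the execution of the body with `R i = j` -/
theorem forN_run {i n : ℕ} {body : XStm} {N c : ℕ} (I : ℕ → St → AQ → Prop) (hN : N + 1 < M)
    (hin : i ≠ n) (hb1 : i ∉ Stm.wr body) (hb2 : n ∉ Stm.wr body)
    (hI : ∀ j s q v, I j s q → I j (s.setReg i v) q)
    (hstep : ∀ j s q, j < N → I j s q → s.reg i = j → s.reg n = N →
      ∃ s' q' k, XRun M inp lam body (s, q) (s', q') k ∧ I (j + 1) s' q' ∧ k ≤ c)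
    {s : St} {q : AQ} (h0 : I 0 s q) (hn : s.reg n = N) :
    ∃ s' q' k, XRun M inp lam (forN i n body) (s, q) (s', q') k ∧ I N s' q' ∧ s'.reg i = N ∧
      s'.reg n = N ∧ k ≤ (c + 8) * N + 6 := by
  have hzero : (0 : ℕ) < M := by omega
  set s0 := s.setReg i 0 with hs0
  have r1 : XRun M inp lam (.set i (.c 0)) (s, q) (s0, q) 2 := .set s q i (.c 0) hzero
  -- the loop
  have key : ∀ g s k, (∃ j, g = N - j ∧ j ≤ N ∧ I j s.1 s.2 ∧ s.1.reg i = j ∧ s.1.reg n = N ∧
      k ≤ (c + 8) * j) →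
      ∃ s' k', XRun M inp lam (.whl (.lt (.r i) (.r n)) (.seq body (.set i (.add (.r i) (.c 1)))))
        s s' k' ∧ ∃ g' kk, (∃ j, g' = N - j ∧ j ≤ N ∧ I j s'.1 s'.2 ∧ s'.1.reg i = j ∧
          s'.1.reg n = N ∧ kk ≤ (c + 8) * j) ∧ ¬ (Co.lt (.r i) (.r n)).Holds inp s'.1 ∧
          kk + ((Co.lt (.r i) (.r n)).sz + 1) = k + k' := by
    apply run_whl M inp (opS lam)
      (I := fun (g : ℕ) s k => ∃ j, g = N - j ∧ j ≤ N ∧ I j s.1 s.2 ∧ s.1.reg i = j ∧
        s.1.reg n = N ∧ k ≤ (c + 8) * j) (μ := fun g => g)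
    rintro g ⟨s, q⟩ k ⟨j, hg, hj, hIj, hi, hn', hk⟩
    refine ⟨⟨trivial, trivial⟩, fun hlt => ?_⟩
    have hjN : j < N := by
      simp only [Co.Holds, Ex.eval] at hlt
      simp only at hi hn'
      omega
    obtain ⟨s', q', k', hr, hI', hc⟩ := hstep j s q hjN hIj hi hn'
    have fr := run_frame hr
    have e1 : s'.reg i = j := by rw [fr.2.1 i hb1]; exact hi
    have e2 : s'.reg n = N := by rw [fr.2.1 n hb2]; exact hn'
    have r2 : XRun M inp lam (.set i (.add (.r i) (.c 1))) (s', q')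
        (s'.setReg i (s'.reg i + 1), q') 4 := by
      have := Run.set (M := M) (inp := inp) (ps := opS lam) s' q' i (.add (.r i) (.c 1))
        ⟨trivial, by show 1 < M; omega, by simp only [Ex.eval]; omega⟩
      simpa [Ex.eval, Ex.sz] using this
    refine ⟨_, _, .seq _ _ _ _ _ _ _ hr r2, N - (j + 1), ⟨j + 1, rfl, by omega, hI _ _ _ _ hI', ?_,
      ?_, ?_⟩, by omega⟩
    · simp [e1]
    · simp [Ne.symm hin, e2]
    · simp only [Co.sz, Ex.sz]
      have : (c + 8) * (j + 1) = (c + 8) * j + (c + 8) := by ring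
      omega
  obtain ⟨⟨s', q'⟩, k', hr, g', kk, ⟨j, hg', hj, hIj, hi, hn', hkk⟩, hnot, hsum⟩ :=
    key N (s0, q) 0 ⟨0, by omega, by omega, hI _ _ _ _ h0, by simp [hs0],
      by simp [hs0, Ne.symm hin, hn], by omega⟩
  have hjN : j = N := by
    simp only [Co.Holds, Ex.eval] at hnot
    simp only at hi hn'
    omega
  subst hjN
  refine ⟨s', q', 2 + k', .seq _ _ _ _ _ _ _ r1 hr, hIj, hi, hn', ?_⟩
  simp only [Co.sz, Ex.sz] at hsum
  omega

end

end SBR
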