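/-
SBR/Rep.lean : how the program state represents the mathematical objects (definitions).
-/
import Pool.Agent.SBR.Rules
import Pool.Agent.SBR.Perm

namespace SBR

/-- the sequence represents the layout `w` on the nodes `0,…,L-1` -/
structure RepQ (L : ℕ) (q : AQ) (w : Lay) : Prop where
  len : q.seq.length = L
  get : ∀ x, x < L → q.seq[w.pos x]? = some (x, w.sg x)

/-- `v` is the maximum of `f` on `P` (0 if there is nothing) -/
def IsMax (P : ℕ → Prop) (f : ℕ → ℕ) (v : ℕ) : Prop :=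
  (∀ x, P x → f x ≤ v) ∧ (v = 0 ∨ ∃ x, P x ∧ f x = v)

/-- `v` is the minimum of the nonzero values of `f` on `P` (0 if there is nothing) -/
def IsMin (P : ℕ → Prop) (f : ℕ → ℕ) (v : ℕ) : Prop :=
  (∀ x, P x → f x ≠ 0 → v ≠ 0 ∧ v ≤ f x) ∧ (v = 0 ∨ ∃ x, P x ∧ f x = v)

/-- registers 0, 1, 2 contain `n`, `n+1`, `2(n+1)` -/
def Regs (n : ℕ) (s : St) : Prop :=
  s.reg 0 = n ∧ s.reg 1 = n + 1 ∧ s.reg 2 = 2 * (n + 1)

/-- arrays 0 and 1 describe the layout (nodes and signs by position) -/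
def ArrInit (L : ℕ) (s : St) (w : Lay) : Prop :=
  ∀ x, x < L → s.arr 0 (w.pos x) = x ∧ s.arr 1 (w.pos x) = b2n (w.sg x)

/-- arrays 3 and 4 contain the positions of the nodes and the nodes by position -/
def ArrPos (L : ℕ) (s : St) (w : Lay) : Prop :=
  ∀ x, x < L → s.arr 3 x = w.pos x ∧ s.arr 4 (w.pos x) = x

/-- linked list: `tl` is `v + 1` for the first entry `v` (0 for the empty list), `nx v` the same for
the rest of the list -/
def LL (nx : ℕ → ℕ) : ℕ → List ℕ → Prop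
  | tl, [] => tl = 0
  | tl, v :: l => tl = v + 1 ∧ LL nx (nx v) l

/-- concatenation of pairs -/
def flat (l : List (ℕ × ℕ)) : List ℕ := l.flatMap (fun c => [c.1, c.2])

/-- array 5 marks the alive chords -/
def Alive (m : ℕ) (s : St) (S : Finset ℕ) : Prop := ∀ t, t < m → (s.arr 5 t = 1 ↔ t ∈ S)

/-- representatives of the components of the alive chords -/
structure IsRep (w : Lay) (S : Finset ℕ) (rep : ℕ → ℕ) : Prop where
  mem : ∀ t ∈ S, rep t ∈ S
  con : ∀ t ∈ S, Cn w S t (rep t)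
  eq : ∀ t ∈ S, ∀ u ∈ S, Cn w S t u → rep t = rep u

/-- the opposite order of the positions -/
def Lay.flip (w : Lay) (L : ℕ) : Lay where
  pos x := L - 1 - w.pos x
  sg := w.sg

/-- state after phase 1 -/
structure Post1 (n : ℕ) (w0 : Lay) (s : St) (q : AQ) (w : Lay) (S : Finset ℕ) (ord : List ℕ)
    (m1 m2 : ℕ → ℕ) : Prop where
  rep : RepQ (2 * (n + 1)) q w
  alg : Alg (n + 1) (w0.amat (n + 1)) w S ord m1 m2
  apos : AllPos w S
  mates : Mates w id S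
  jn : ∀ h ∈ ord, Jn w S (m1 h)
  cov : ∀ t, t < n + 1 → t ∈ S ∨ t ∈ ord
  mks : ∀ h ∈ ord, (m1 h = 2 * h ∧ m2 h = 2 * h + 1) ∨ (m1 h = 2 * h + 1 ∧ m2 h = 2 * h)
  amk : ∀ h ∈ ord, s.arr 18 h = m1 h ∧ s.arr 19 h = m2 h
  alive : Alive (n + 1) s S
  ll : LL (s.arr 20) (s.reg 50) ord.reverse
  lab : ∀ i, i < ord.length → s.arr 21 (ord.getD i 0) = i + 1 ∧ s.arr 22 (i + 1) = ord.getD i 0

/-- code of an integer as a word: twice the absolute value, plus one if it is negative -/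
def codeW (v : ℤ) : ℕ := 2 * v.natAbs + (if v < 0 then 1 else 0)

/-- labels of the gaps computed by the program -/
def labOf (s : St) (k : ℕ) : ℕ :=
  if s.arr 10 (s.arr 6 (s.arr 4 (2 * k) / 2)) = 0 ∧ 1 < s.arr 11 (s.arr 6 (s.arr 4 (2 * k) / 2)) then
    s.arr 6 (s.arr 4 (2 * k) / 2) + 1
  else 0

/-- state during phase 2 for one component; `X` : its remaining chords, `tE` : entry chord,
`st` : stack (top first) -/
structure PS (n : ℕ) (s : St) (q : AQ) (w : Lay) (ord : List ℕ) (m1 m2 : ℕ → ℕ)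
    (X : Finset ℕ) (tE : ℕ) (st : List ℕ) : Prop where
  regs : Regs n s
  rep : RepQ (2 * (n + 1)) q w
  key : ∀ x, x < 2 * (n + 1) → q.key x = nk (kap (n + 1) tE) X x
  amk : ∀ h ∈ ord, s.arr 18 h = m1 h ∧ s.arr 19 h = m2 h
  ll : LL (s.arr 20) (s.reg 50) ord.reverse
  te : s.reg 62 = tE
  stl : s.reg 68 = st.length
  stk : ∀ i, i < st.length → s.arr 9 (st.length - 1 - i) = st.getD i 0

/-- what a step of phase 2 on the component `X` does to the rest -/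
structure Nx (w : Lay) (S : Finset ℕ) (ord : List ℕ) (m1 m2 : ℕ → ℕ) (X : Finset ℕ)
    (w' : Lay) (S' : Finset ℕ) (ord' : List ℕ) (m1' m2' : ℕ → ℕ) (X' : Finset ℕ) : Prop where
  sub : S' ⊆ S
  subX : X' ⊆ X
  oth : ∀ t ∈ S, t ∉ X → t ∈ S'
  inn : ∀ t ∈ S', t ∈ X → t ∈ X'
  pend : ∀ K g tE, Disjoint K X → Pend w S ord m1 m2 K g tE → Pend w' S' ord' m1' m2' K g tE
  zero : ∀ t ∈ S, t ∉ X → (∀ u ∈ S, w.mat t u = 0) → ∀ u ∈ S', w'.mat t u = 0

/-- state between the components of phase 2: the components with representative `≥ c` are waiting,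
`KK c'` is the set of chords of the component with representative `c'` -/
structure PO (n : ℕ) (A0 : ℕ → ℕ → ZMod 2) (s : St) (q : AQ) (w : Lay) (S : Finset ℕ)
    (ord : List ℕ) (m1 m2 : ℕ → ℕ) (KK : ℕ → Finset ℕ) (c : ℕ) : Prop where
  regs : Regs n s
  rep : RepQ (2 * (n + 1)) q w
  key : ∀ x, x < 2 * (n + 1) → q.key x = 0
  alg : Alg (n + 1) A0 w S ord m1 m2
  amk : ∀ h ∈ ord, s.arr 18 h = m1 h ∧ s.arr 19 h = m2 h
  ll : LL (s.arr 20) (s.reg 50) ord.reverse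
  lst : ∀ c', c' < n + 1 → s.arr 26 c' ≠ 0 → ∃ l, LL (s.arr 27) (s.arr 26 c') l ∧ l.Nodup ∧
    ∀ t, t ∈ l ↔ t ∈ KK c'
  dis : ∀ c' c'', c' ≠ c'' → Disjoint (KK c') (KK c'')
  ran : ∀ c', KK c' ⊆ Finset.range (n + 1)
  pend : ∀ c', c ≤ c' → c' < n + 1 → s.arr 26 c' ≠ 0 →
    Pend w S ord m1 m2 (KK c') (s.arr 22 (s.arr 24 c')) (s.arr 25 c' - 1) ∧ 1 ≤ s.arr 25 c'
  zero : ∀ t ∈ S, (∀ c', c ≤ c' → c' < n + 1 → s.arr 26 c' ≠ 0 → t ∉ KK c') →
    ∀ u ∈ S, w.mat t u = 0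

end SBR
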