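/-
SBR/Q2.lean : sequence operations rev, rot, side in terms of layouts.
-/
import Pool.Agent.SBR.Rep

namespace SBR

section
variable {L lam : ℕ} {q : AQ} {w : Lay} {s : St}

theorem q2_surj (hg : w.Good L) {p : ℕ} (hp : p < L) : ∃ x, x < L ∧ w.pos x = p := by
  have h1 : Set.MapsTo w.pos (Finset.range L) (Finset.range L) := by
    intro x hx
    rw [Finset.mem_coe, Finset.mem_range] at hx ⊢
    exact hg.lt x hx
  have h2 : Set.InjOn w.pos (Finset.range L) := by
    intro x hx y hy hxy
    rw [Finset.mem_coe, Finset.mem_range] at hx hy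
    exact hg.inj x y hx hy hxy
  have h3 := Finset.surjOn_of_injOn_of_card_le w.pos h1 h2 le_rfl
  obtain ⟨x, hx, hxp⟩ := h3 (Finset.mem_coe.2 (Finset.mem_range.2 hp))
  exact ⟨x, Finset.mem_range.1 (Finset.mem_coe.1 hx), hxp⟩

theorem q2_split1 {α : Type*} {l : List α} {i : ℕ} {u : α} (hu : l[i]? = some u) :
    l = l.take i ++ u :: l.drop (i + 1) := by
  obtain ⟨hi, h1⟩ := List.getElem?_eq_some_iff.1 hu
  have h2 := List.drop_eq_getElem_cons hi
  rw [h1] at h2
  rw [← h2, List.take_append_drop]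

theorem q2_split2 {α : Type*} {l : List α} {i j : ℕ} {u v : α} (hij : i < j)
    (hu : l[i]? = some u) (hv : l[j]? = some v) :
    l = l.take i ++ u :: ((l.drop (i + 1)).take (j - i - 1) ++ v :: l.drop (j + 1)) := by
  have h1 := q2_split1 hu
  have h2 : (l.drop (i + 1))[j - i - 1]? = some v := by
    rw [List.getElem?_drop, ← hv]
    congr 1
    omega
  have h3 := q2_split1 h2
  rw [List.drop_drop] at h3
  have h4 : i + 1 + (j - i - 1 + 1) = j + 1 := by omega
  rw [h4] at h3
  rw [← h3]
  exact h1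

/-- entries of the list after a reversal of the middle part -/
theorem q2_get_rev {l1 l2 l3 : List (ℕ × Bool)} {u v : ℕ × Bool} {i j : ℕ}
    (h1 : l1.length = i) (h2 : i + 1 + l2.length = j) (k : ℕ) :
    (l1 ++ u :: (rv l2 ++ v :: l3))[k]? =
      if i < k ∧ k < j then ((l1 ++ u :: (l2 ++ v :: l3))[i + j - k]?).map (fun p => (p.1, !p.2))
      else (l1 ++ u :: (l2 ++ v :: l3))[k]? := by
  have hlen : (rv l2).length = l2.length := by
    unfold rv
    rw [List.length_reverse, List.length_map]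
  rcases lt_trichotomy k i with hk | hk | hk
  · rw [if_neg (by omega), List.getElem?_append_left (by omega),
      List.getElem?_append_left (by omega)]
  · rw [if_neg (by omega), List.getElem?_append_right (by omega),
      List.getElem?_append_right (by omega)]
    have : k - l1.length = 0 := by omega
    rw [this]
    rfl
  · obtain ⟨c, hc⟩ : ∃ c, k - l1.length = c + 1 := ⟨k - l1.length - 1, by omega⟩
    rw [List.getElem?_append_right (by omega), hc, List.getElem?_cons_succ]
    by_cases hkj : k < j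
    · rw [if_pos ⟨hk, hkj⟩, List.getElem?_append_left (by omega)]
      obtain ⟨c', hc'⟩ : ∃ c', i + j - k - l1.length = c' + 1 :=
        ⟨i + j - k - l1.length - 1, by omega⟩
      rw [List.getElem?_append_right (by omega), hc', List.getElem?_cons_succ,
        List.getElem?_append_left (by omega)]
      unfold rv
      rw [List.getElem?_reverse (by rw [List.length_map]; omega), List.getElem?_map,
        List.length_map]
      congr 2
      omega
    · rw [if_neg (by omega), List.getElem?_append_right (by omega), hlen,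
        List.getElem?_append_right (by omega), hc, List.getElem?_cons_succ,
        List.getElem?_append_right (by omega)]

theorem q2_rep_rev_aux (hg : w.Good L) (hq : RepQ L q w) {a b : ℕ} (ha : a < L) (hb : b < L)
    (hab : w.pos a < w.pos b) {l1 l2 l3 : List (ℕ × Bool)} {u v : ℕ × Bool}
    (h1 : l1.length = w.pos a) (h2 : w.pos a + 1 + l2.length = w.pos b)
    (h : q.seq = l1 ++ u :: (l2 ++ v :: l3)) :
    RepQ L { q with seq := l1 ++ u :: (rv l2 ++ v :: l3) } (w.rev a b) ∧
    RepQ L { q with seq := l1 ++ u :: (rv l2 ++ v :: l3) } (w.rev b a) := by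
  have hpa := hg.lt a ha
  have hpb := hg.lt b hb
  have key : ∀ x, x < L → ∀ p s', ((w.pos a < w.pos x ∧ w.pos x < w.pos b) →
      p = w.pos a + w.pos b - w.pos x ∧ s' = !w.sg x) →
      (¬ (w.pos a < w.pos x ∧ w.pos x < w.pos b) → p = w.pos x ∧ s' = w.sg x) →
      (l1 ++ u :: (rv l2 ++ v :: l3))[p]? = some (x, s') := by
    intro x hx p s' hp1 hp2
    rw [q2_get_rev h1 h2, ← h]
    by_cases hbt : w.pos a < w.pos x ∧ w.pos x < w.pos b
    · obtain ⟨e1, e2⟩ := hp1 hbt
      rw [if_pos (by omega)]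
      have e3 : w.pos a + w.pos b - p = w.pos x := by omega
      rw [e3, hq.get x hx, e2]
      rfl
    · obtain ⟨e1, e2⟩ := hp2 hbt
      rw [if_neg (by omega), e1, hq.get x hx, e2]
  have hlen : (l1 ++ u :: (rv l2 ++ v :: l3)).length = L := by
    rw [← hq.len, h]
    simp [rv]
  refine ⟨⟨hlen, fun x hx => ?_⟩, ⟨hlen, fun x hx => ?_⟩⟩
  · refine key x hx _ _ (fun hbt => ?_) (fun hbt => ?_)
    · have h3 : w.Btw a b x := Or.inl hbt
      simp only [Lay.rev, if_pos h3, and_self]
    · have h3 : ¬ w.Btw a b x := by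
        unfold Lay.Btw
        omega
      simp only [Lay.rev, if_neg h3, and_self]
  · refine key x hx _ _ (fun hbt => ?_) (fun hbt => ?_)
    · have h3 : w.Btw b a x := Or.inr hbt
      simp only [Lay.rev, if_pos h3, and_true]
      omega
    · have h3 : ¬ w.Btw b a x := by
        unfold Lay.Btw
        omega
      simp only [Lay.rev, if_neg h3, and_self]

theorem rep_rev (hg : w.Good L) (hq : RepQ L q w) {a b : ℕ} (ha : s.reg a < L) (hb : s.reg b < L)
    (hab : s.reg a ≠ s.reg b) :
    ∃ q', opS lam (.rev a b) (s, q) (s, q') lam ∧ RepQ L q' (w.rev (s.reg a) (s.reg b)) ∧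
      q'.key = q.key := by
  have hpa := hg.lt _ ha
  have hpb := hg.lt _ hb
  have hne : w.pos (s.reg a) ≠ w.pos (s.reg b) := fun h => hab (hg.inj _ _ ha hb h)
  have hlen := hq.len
  rcases lt_or_gt_of_ne hne with hlt | hlt
  · have hsp := q2_split2 hlt (hq.get _ ha) (hq.get _ hb)
    refine ⟨_, opS.rev a b s q _ _ _ _ _ hsp (Or.inl ⟨rfl, rfl⟩), ?_, rfl⟩
    refine (q2_rep_rev_aux hg hq ha hb hlt ?_ ?_ hsp).1
    · rw [List.length_take]; omega
    · rw [List.length_take, List.length_drop]; omega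
  · have hsp := q2_split2 hlt (hq.get _ hb) (hq.get _ ha)
    refine ⟨_, opS.rev a b s q _ _ _ _ _ hsp (Or.inr ⟨rfl, rfl⟩), ?_, rfl⟩
    refine (q2_rep_rev_aux hg hq hb ha hlt ?_ ?_ hsp).2
    · rw [List.length_take]; omega
    · rw [List.length_take, List.length_drop]; omega

theorem rep_rot (hg : w.Good L) (hq : RepQ L q w) {x : ℕ} (hx : s.reg x < L) :
    ∃ q', opS lam (.rot x) (s, q) (s, q') lam ∧ RepQ L q' (w.rot L (s.reg x)) ∧
      q'.key = q.key := by
  have hpx := hg.lt _ hx
  have hlen := hq.len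
  have hsp := q2_split1 (hq.get _ hx)
  refine ⟨_, opS.rot x s q _ _ _ hsp, ?_, rfl⟩
  obtain ⟨l1, hl1⟩ : ∃ l1, l1 = q.seq.take (w.pos (s.reg x)) := ⟨_, rfl⟩
  obtain ⟨l2, hl2⟩ : ∃ l2, l2 = q.seq.drop (w.pos (s.reg x) + 1) := ⟨_, rfl⟩
  have h1 : l1.length = w.pos (s.reg x) := by rw [hl1, List.length_take]; omega
  rw [← hl1, ← hl2] at hsp ⊢
  have h2 : L = l1.length + (l2.length + 1) := by
    rw [← hlen, hsp, List.length_append, List.length_cons]
  constructor
  · change ((s.reg x, w.sg (s.reg x)) :: l2 ++ l1).length = L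
    rw [List.length_append, List.length_cons]
    omega
  · intro y hy
    have hget := hq.get y hy
    have hpy := hg.lt y hy
    rw [hsp] at hget
    change ((s.reg x, w.sg (s.reg x)) :: l2 ++ l1)[(w.rot L (s.reg x)).pos y]? = some (y, w.sg y)
    simp only [Lay.rot]
    by_cases hxy : w.pos (s.reg x) ≤ w.pos y
    · rw [if_pos hxy, List.getElem?_append_left (by rw [List.length_cons]; omega)]
      rw [List.getElem?_append_right (by omega), h1] at hget
      exact hget
    · rw [if_neg hxy, List.getElem?_append_right (by rw [List.length_cons]; omega)]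
      rw [List.getElem?_append_left (by omega)] at hget
      rw [← hget, List.length_cons]
      congr 1
      omega

theorem q2_mxk (key : ℕ → ℕ) (l : List (ℕ × Bool)) :
    (∀ p ∈ l, key p.1 ≤ mxk key l) ∧ (mxk key l = 0 ∨ ∃ p ∈ l, key p.1 = mxk key l) := by
  induction l with
  | nil => exact ⟨fun p hp => absurd hp (List.not_mem_nil), Or.inl rfl⟩
  | cons p l ih =>
    have hcons : mxk key (p :: l) = max (key p.1) (mxk key l) := rfl
    rw [hcons]
    refine ⟨fun r hr => ?_, ?_⟩
    · rcases List.mem_cons.1 hr with rfl | hr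
      · exact le_max_left _ _
      · exact (ih.1 r hr).trans (le_max_right _ _)
    · rcases le_total (key p.1) (mxk key l) with h | h
      · rw [max_eq_right h]
        rcases ih.2 with h1 | ⟨r, hr, hr2⟩
        · exact Or.inl h1
        · exact Or.inr ⟨r, List.mem_cons_of_mem _ hr, hr2⟩
      · rw [max_eq_left h]
        exact Or.inr ⟨p, List.mem_cons_self, rfl⟩

theorem q2_mnk (key : ℕ → ℕ) (b : Bool) (l : List (ℕ × Bool)) :
    (∀ p ∈ l, p.2 = b → key p.1 ≠ 0 → mnk key b l ≠ 0 ∧ mnk key b l ≤ key p.1) ∧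
      (mnk key b l = 0 ∨ ∃ p ∈ l, p.2 = b ∧ key p.1 = mnk key b l) := by
  induction l with
  | nil => exact ⟨fun p hp => absurd hp (List.not_mem_nil), Or.inl rfl⟩
  | cons p l ih =>
    have hcons : mnk key b (p :: l) = cmb (if p.2 = b then key p.1 else 0) (mnk key b l) := rfl
    obtain ⟨ih1, ih2⟩ := ih
    have hcmb : ∀ x y : ℕ, (x = 0 ∧ cmb x y = y) ∨ (x ≠ 0 ∧ y = 0 ∧ cmb x y = x) ∨
        (x ≠ 0 ∧ y ≠ 0 ∧ cmb x y = min x y) := by
      intro x y
      unfold cmb
      by_cases hx : x = 0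
      · exact Or.inl ⟨hx, if_pos hx⟩
      · by_cases hy : y = 0
        · exact Or.inr (Or.inl ⟨hx, hy, by rw [if_neg hx, if_pos hy]⟩)
        · exact Or.inr (Or.inr ⟨hx, hy, by rw [if_neg hx, if_neg hy]⟩)
    rw [hcons]
    by_cases hp : p.2 = b
    · rw [if_pos hp]
      constructor
      · intro r hr hrb hr0
        rcases List.mem_cons.1 hr with rfl | hr
        · rcases hcmb (key r.1) (mnk key b l) with ⟨h1, h2⟩ | ⟨h1, h2, h3⟩ | ⟨h1, h2, h3⟩
          · exact absurd h1 hr0
          · omega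
          · omega
        · obtain ⟨h4, h5⟩ := ih1 r hr hrb hr0
          rcases hcmb (key p.1) (mnk key b l) with ⟨h1, h2⟩ | ⟨h1, h2, h3⟩ | ⟨h1, h2, h3⟩
          · omega
          · omega
          · omega
      · rcases hcmb (key p.1) (mnk key b l) with ⟨h1, h2⟩ | ⟨h1, h2, h3⟩ | ⟨h1, h2, h3⟩
        · rw [h2]
          rcases ih2 with h4 | ⟨r, hr, hr2, hr3⟩
          · exact Or.inl h4
          · exact Or.inr ⟨r, List.mem_cons_of_mem _ hr, hr2, hr3⟩
        · rw [h3]
          exact Or.inr ⟨p, List.mem_cons_self, hp, rfl⟩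
        · rw [h3]
          rcases le_total (key p.1) (mnk key b l) with h | h
          · rw [min_eq_left h]
            exact Or.inr ⟨p, List.mem_cons_self, hp, rfl⟩
          · rw [min_eq_right h]
            rcases ih2 with h4 | ⟨r, hr, hr2, hr3⟩
            · exact Or.inl h4
            · exact Or.inr ⟨r, List.mem_cons_of_mem _ hr, hr2, hr3⟩
    · rw [if_neg hp]
      have h0 : cmb 0 (mnk key b l) = mnk key b l := by
        unfold cmb
        rw [if_pos rfl]
      rw [h0]
      constructor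
      · intro r hr hrb hr0
        rcases List.mem_cons.1 hr with rfl | hr
        · exact absurd hrb hp
        · exact ih1 r hr hrb hr0
      · rcases ih2 with h4 | ⟨r, hr, hr2, hr3⟩
        · exact Or.inl h4
        · exact Or.inr ⟨r, List.mem_cons_of_mem _ hr, hr2, hr3⟩

theorem rep_side (hg : w.Good L) (hq : RepQ L q w) {x d e : ℕ} (hx : s.reg x < L) (hde : d ≠ e) :
    ∃ v u, opS lam (.side x d e) (s, q) ((s.setReg d v).setReg e u, q) lam ∧
      IsMax (fun y => y < L ∧ w.pos y < w.pos (s.reg x)) q.key v ∧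
      IsMin (fun y => y < L ∧ w.pos (s.reg x) < w.pos y ∧ w.sg y = true) q.key u := by
  have hpx := hg.lt _ hx
  have hlen := hq.len
  have hsp := q2_split1 (hq.get _ hx)
  refine ⟨_, _, opS.side x d e s q _ _ _ hde hsp, ?_, ?_⟩
  · have hmem : ∀ p : ℕ × Bool, p ∈ q.seq.take (w.pos (s.reg x)) ↔
        ∃ y, (y < L ∧ w.pos y < w.pos (s.reg x)) ∧ p = (y, w.sg y) := by
      intro p
      rw [List.mem_iff_getElem?]
      constructor
      · rintro ⟨i, hi⟩
        rw [List.getElem?_take] at hi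
        by_cases hi2 : i < w.pos (s.reg x)
        · rw [if_pos hi2] at hi
          obtain ⟨y, hy, hyi⟩ := q2_surj hg (hi2.trans hpx)
          rw [← hyi, hq.get y hy] at hi
          exact ⟨y, ⟨hy, by omega⟩, (Option.some.inj hi).symm⟩
        · rw [if_neg hi2] at hi
          exact absurd hi (by simp)
      · rintro ⟨y, ⟨hy, hyx⟩, rfl⟩
        refine ⟨w.pos y, ?_⟩
        rw [List.getElem?_take, if_pos hyx, hq.get y hy]
    obtain ⟨h1, h2⟩ := q2_mxk q.key (q.seq.take (w.pos (s.reg x)))
    refine ⟨fun y hy => h1 (y, w.sg y) ((hmem _).2 ⟨y, hy, rfl⟩), ?_⟩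
    rcases h2 with h3 | ⟨p, hp, hp2⟩
    · exact Or.inl h3
    · obtain ⟨y, hy, rfl⟩ := (hmem p).1 hp
      exact Or.inr ⟨y, hy, hp2⟩
  · have hmem : ∀ p : ℕ × Bool, p ∈ q.seq.drop (w.pos (s.reg x) + 1) ↔
        ∃ y, (y < L ∧ w.pos (s.reg x) < w.pos y) ∧ p = (y, w.sg y) := by
      intro p
      rw [List.mem_iff_getElem?]
      constructor
      · rintro ⟨i, hi⟩
        rw [List.getElem?_drop] at hi
        have hi2 : w.pos (s.reg x) + 1 + i < L := by
          obtain ⟨h3, _⟩ := List.getElem?_eq_some_iff.1 hi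
          omega
        obtain ⟨y, hy, hyi⟩ := q2_surj hg hi2
        rw [← hyi, hq.get y hy] at hi
        exact ⟨y, ⟨hy, by omega⟩, (Option.some.inj hi).symm⟩
      · rintro ⟨y, ⟨hy, hyx⟩, rfl⟩
        refine ⟨w.pos y - (w.pos (s.reg x) + 1), ?_⟩
        rw [List.getElem?_drop, ← hq.get y hy]
        congr 1
        omega
    obtain ⟨h1, h2⟩ := q2_mnk q.key true (q.seq.drop (w.pos (s.reg x) + 1))
    refine ⟨fun y hy hy0 => h1 (y, w.sg y) ((hmem _).2 ⟨y, ⟨hy.1, hy.2.1⟩, rfl⟩) hy.2.2 hy0, ?_⟩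
    rcases h2 with h3 | ⟨p, hp, hp2, hp3⟩
    · exact Or.inl h3
    · obtain ⟨y, hy, rfl⟩ := (hmem p).1 hp
      exact Or.inr ⟨y, ⟨hy.1, hy.2, hp2⟩, hp3⟩

/-- reversal between two gaps in terms of the reversal strictly between two nodes -/
theorem grev_eq_rev {n : ℕ} (hw : EL n w) {g h a b : ℕ} (hgh : g < h) (hh : h ≤ n)
    (ha : a < 2 * (n + 1)) (hb : b < 2 * (n + 1)) (h1 : w.pos a = 2 * g)
    (h2 : w.pos b = 2 * h + 1) : w.rev a b = w.grev g h := by
  have hiff : ∀ x, w.Btw a b x ↔ (2 * g < w.pos x ∧ w.pos x ≤ 2 * h) := by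
    intro x
    unfold Lay.Btw
    omega
  unfold Lay.rev Lay.grev
  congr 1
  · funext x
    by_cases hx : w.Btw a b x
    · rw [if_pos hx, if_pos ((hiff x).1 hx), h1, h2]
      omega
    · rw [if_neg hx, if_neg (fun h => hx ((hiff x).2 h))]
  · funext x
    by_cases hx : w.Btw a b x
    · rw [if_pos hx, if_pos ((hiff x).1 hx)]
    · rw [if_neg hx, if_neg (fun h => hx ((hiff x).2 h))]

end

end SBR
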