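/-
SBR/Q1.lean : sequence operations init, rank, kth, setk, minneg, btw in terms of layouts.
-/
import Pool.Agent.SBR.Q2

namespace SBR

section
variable {L lam : ℕ} {q : AQ} {w : Lay} {s : St}

theorem rep_init {n z : ℕ} (hg : w.Good L) (hL : 1 ≤ L) (hlam : L ≤ 2 ^ lam) (hn : s.reg n = L)
    (hz : s.reg z = L) (ha : ArrInit L s w) (q : AQ) :
    ∃ q', opS lam (.init n z) (s, q) (s, q') ((L + 1) * lam) ∧ RepQ L q' w ∧
      q'.key = s.arr 2 := by
  have h := opS.init (lam := lam) n z s q (by omega) (by omega)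
    (by
      intro i hi
      rw [hn] at hi
      obtain ⟨x, hx, rfl⟩ := q2_surj hg hi
      rw [(ha x hx).1, hz]
      exact hx)
    (by
      intro i hi j hj hij
      rw [hn] at hi hj
      obtain ⟨x, hx, rfl⟩ := q2_surj hg hi
      obtain ⟨y, hy, rfl⟩ := q2_surj hg hj
      rw [(ha x hx).1, (ha y hy).1] at hij
      rw [hij])
  rw [hn] at h
  refine ⟨_, h, ⟨?_, ?_⟩, rfl⟩
  · simp
  · intro x hx
    have hp := hg.lt x hx
    obtain ⟨h1, h2⟩ := ha x hx
    rw [List.getElem?_map, List.getElem?_range hp]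
    simp only [Option.map_some]
    rw [h1, h2]
    congr 2
    cases w.sg x <;> simp [b2n]

theorem rep_rank (hq : RepQ L q w) {x d e : ℕ} (hx : s.reg x < L) (hde : d ≠ e) :
    opS lam (.rank x d e) (s, q)
      ((s.setReg d (w.pos (s.reg x))).setReg e (b2n (w.sg (s.reg x))), q) lam := by
  have hget := hq.get _ hx
  have hsp := q2_split1 hget
  have h := opS.rank (lam := lam) x d e s q _ _ _ hde hsp
  have hlt : w.pos (s.reg x) < q.seq.length := (List.getElem?_eq_some_iff.1 hget).1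
  have h1 : (q.seq.take (w.pos (s.reg x))).length = w.pos (s.reg x) := by
    rw [List.length_take]; omega
  rw [h1] at h
  exact h

theorem rep_kth (hg : w.Good L) (hq : RepQ L q w) {k d : ℕ} (hk : s.reg k < L) :
    ∃ u, u < L ∧ w.pos u = s.reg k ∧ opS lam (.kth k d) (s, q) (s.setReg d u, q) lam := by
  obtain ⟨u, hu, huk⟩ := q2_surj hg hk
  exact ⟨u, hu, huk, opS.kth (lam := lam) k d s q (u, w.sg u) (by rw [← huk]; exact hq.get u hu)⟩

theorem rep_setk (hq : RepQ L q w) {x k : ℕ} (hx : s.reg x < L) :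
    opS lam (.setk x k) (s, q)
      (s, { q with key := fun y => if y = s.reg x then s.reg k else q.key y }) lam ∧
    RepQ L { q with key := fun y => if y = s.reg x then s.reg k else q.key y } w := by
  refine ⟨opS.setk x k s q ?_, ⟨hq.len, hq.get⟩⟩
  have h := List.mem_of_getElem? (hq.get _ hx)
  exact List.mem_map.2 ⟨_, h, rfl⟩

/-- entries of the sequence -/
private theorem q1_mem (hg : w.Good L) (hq : RepQ L q w) (p : ℕ × Bool) :
    p ∈ q.seq ↔ ∃ y, y < L ∧ p = (y, w.sg y) := by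
  rw [List.mem_iff_getElem?]
  constructor
  · rintro ⟨i, hi⟩
    have hi2 : i < L := by
      obtain ⟨h3, _⟩ := List.getElem?_eq_some_iff.1 hi
      have := hq.len
      omega
    obtain ⟨y, hy, hyi⟩ := q2_surj hg hi2
    rw [← hyi, hq.get y hy] at hi
    exact ⟨y, hy, (Option.some.inj hi).symm⟩
  · rintro ⟨y, hy, rfl⟩
    exact ⟨w.pos y, hq.get y hy⟩

theorem rep_minneg (hg : w.Good L) (hq : RepQ L q w) (hL : 1 ≤ L) {d : ℕ} :
    ∃ v, opS lam (.minneg d) (s, q) (s.setReg d v, q) lam ∧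
      IsMin (fun x => x < L ∧ w.sg x = false) q.key v := by
  have hne : q.seq ≠ [] := by
    intro h
    have := hq.len
    rw [h] at this
    simp at this
    omega
  refine ⟨_, opS.minneg d s q hne, ?_⟩
  obtain ⟨h1, h2⟩ := q2_mnk q.key false q.seq
  refine ⟨fun y hy hy0 => h1 (y, w.sg y) ((q1_mem hg hq _).2 ⟨y, hy.1, rfl⟩) hy.2 hy0, ?_⟩
  rcases h2 with h3 | ⟨p, hp, hp2, hp3⟩
  · exact Or.inl h3
  · obtain ⟨y, hy, rfl⟩ := (q1_mem hg hq p).1 hp
    exact Or.inr ⟨y, ⟨hy, hp2⟩, hp3⟩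

/-- entries of the sequence between two positions -/
private theorem q1_mem_mid (hg : w.Good L) (hq : RepQ L q w) {i j : ℕ} (hij : i < j) (hj : j < L)
    (p : ℕ × Bool) : p ∈ (q.seq.drop (i + 1)).take (j - i - 1) ↔
      ∃ y, (y < L ∧ i < w.pos y ∧ w.pos y < j) ∧ p = (y, w.sg y) := by
  rw [List.mem_iff_getElem?]
  constructor
  · rintro ⟨k, hk⟩
    rw [List.getElem?_take] at hk
    by_cases hk2 : k < j - i - 1
    · rw [if_pos hk2, List.getElem?_drop] at hk
      obtain ⟨y, hy, hyi⟩ := q2_surj hg (p := i + 1 + k) (by omega)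
      rw [← hyi, hq.get y hy] at hk
      exact ⟨y, ⟨hy, by omega, by omega⟩, (Option.some.inj hk).symm⟩
    · rw [if_neg hk2] at hk
      exact absurd hk (by simp)
  · rintro ⟨y, ⟨hy, hyi, hyj⟩, rfl⟩
    refine ⟨w.pos y - (i + 1), ?_⟩
    rw [List.getElem?_take, if_pos (by omega), List.getElem?_drop, ← hq.get y hy]
    congr 1
    omega

private theorem q1_btw_aux (hg : w.Good L) (hq : RepQ L q w) {i j : ℕ} (hij : i < j) (hj : j < L)
    {P : ℕ → Prop} (hP : ∀ y, P y ↔ (y < L ∧ i < w.pos y ∧ w.pos y < j)) :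
    IsMax P q.key (mxk q.key ((q.seq.drop (i + 1)).take (j - i - 1))) := by
  obtain ⟨h1, h2⟩ := q2_mxk q.key ((q.seq.drop (i + 1)).take (j - i - 1))
  refine ⟨fun y hy => h1 (y, w.sg y) ((q1_mem_mid hg hq hij hj _).2 ⟨y, (hP y).1 hy, rfl⟩), ?_⟩
  rcases h2 with h3 | ⟨p, hp, hp2⟩
  · exact Or.inl h3
  · obtain ⟨y, hy, rfl⟩ := (q1_mem_mid hg hq hij hj p).1 hp
    exact Or.inr ⟨y, (hP y).2 hy, hp2⟩

theorem rep_btw (hg : w.Good L) (hq : RepQ L q w) {a b d : ℕ} (ha : s.reg a < L)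
    (hb : s.reg b < L) (hab : s.reg a ≠ s.reg b) :
    ∃ v, opS lam (.btw a b d) (s, q) (s.setReg d v, q) lam ∧
      IsMax (fun y => y < L ∧ w.Btw (s.reg a) (s.reg b) y) q.key v := by
  have hpa := hg.lt _ ha
  have hpb := hg.lt _ hb
  have hne : w.pos (s.reg a) ≠ w.pos (s.reg b) := fun h => hab (hg.inj _ _ ha hb h)
  rcases lt_or_gt_of_ne hne with hlt | hlt
  · have hsp := q2_split2 hlt (hq.get _ ha) (hq.get _ hb)
    refine ⟨_, opS.btw a b d s q _ _ _ _ _ hsp (Or.inl ⟨rfl, rfl⟩), ?_⟩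
    refine q1_btw_aux hg hq hlt hpb (fun y => ?_)
    unfold Lay.Btw
    omega
  · have hsp := q2_split2 hlt (hq.get _ hb) (hq.get _ ha)
    refine ⟨_, opS.btw a b d s q _ _ _ _ _ hsp (Or.inr ⟨rfl, rfl⟩), ?_⟩
    refine q1_btw_aux hg hq hlt hpa (fun y => ?_)
    unfold Lay.Btw
    omega

end

end SBR
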