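/-
SBR/R1.lean : reading the input and computing positions (program verification).
-/
import Pool.Agent.SBR.Rep
import Pool.Agent.SBR.Machine
import Pool.Agent.SBR.E9

set_option linter.unusedSimpArgs false

namespace SBR

section
variable {M lam n : ℕ} {inp : ℕ → ℕ} {s : St} {q : AQ} {w : Lay}

private theorem r1_surj {w : Lay} {L : ℕ} (h : w.Good L) {i : ℕ} (hi : i < L) :
    ∃ x, x < L ∧ w.pos x = i := by
  have hinj : Function.Injective (fun x : Fin L => (⟨w.pos x, h.lt x x.2⟩ : Fin L)) := by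
    intro x y hxy
    have h1 : w.pos x = w.pos y := congrArg Fin.val hxy
    exact Fin.ext (h.inj x y x.2 y.2 h1)
  obtain ⟨x, hx⟩ := (Finite.injective_iff_surjective.1 hinj) ⟨i, hi⟩
  exact ⟨x, x.2, congrArg Fin.val hx⟩

/-- the cells written for the first `j` elements -/
private def r1Cells (p : List ℤ) (s : St) (j : ℕ) : Prop :=
  ∀ k, k < j →
    s.arr 0 (2 * k + 1) =
      (if 0 < p.getD k 0 then 2 * (p.getD k 0).natAbs - 1 else 2 * (p.getD k 0).natAbs) ∧
    s.arr 0 (2 * k + 2) =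
      (if 0 < p.getD k 0 then 2 * (p.getD k 0).natAbs else 2 * (p.getD k 0).natAbs - 1) ∧
    s.arr 1 (2 * k + 1) = (if 0 < p.getD k 0 then 1 else 0) ∧
    s.arr 1 (2 * k + 2) = (if 0 < p.getD k 0 then 1 else 0)

private theorem r1_entry {p : List ℤ} (hp : IsSP n p) {k : ℕ} (hk : k < n) :
    1 ≤ (p.getD k 0).natAbs ∧ (p.getD k 0).natAbs ≤ n := by
  rw [← E9_mem hp]
  have hk' : k < p.length := by rw [E9_len hp]; exact hk
  rw [List.getD_eq_getElem _ _ hk']
  exact List.mem_map_of_mem (List.getElem_mem hk')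

private theorem r1_inp0 {p : List ℤ} (hp : IsSP n p) : inpOf (p.map codeW) 0 = n := by
  simp [inpOf, initCfg, E9_len hp]

private theorem r1_inpS {p : List ℤ} (hp : IsSP n p) {k : ℕ} (hk : k < n) :
    inpOf (p.map codeW) (k + 1) = codeW (p.getD k 0) := by
  have hk' : k < p.length := by rw [E9_len hp]; exact hk
  have hk2 : k < (p.map codeW).length := by simpa using hk'
  simp only [inpOf, initCfg]
  rw [if_neg (by omega), Nat.add_sub_cancel, List.getD_eq_getElem _ _ hk2,
    List.getD_eq_getElem _ _ hk', List.getElem_map]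

/-- one pass of the reading loop -/
private def r1Body : XStm := blk [
    .set 4 (.inp (.add (.r 3) (.c 1))),
    .set 5 (.half (.r 4)),
    .set 6 (dbl1 (.r 3)),
    .ite (.eq (.r 4) (dbl (.r 5)))
      (blk [.sto 0 (.r 6) (.sub (dbl (.r 5)) (.c 1)), .sto 0 (.add (.r 6) (.c 1)) (dbl (.r 5)),
        .sto 1 (.r 6) (.c 1), .sto 1 (.add (.r 6) (.c 1)) (.c 1)])
      (blk [.sto 0 (.r 6) (dbl (.r 5)), .sto 0 (.add (.r 6) (.c 1)) (.sub (dbl (.r 5)) (.c 1)),
        .sto 1 (.r 6) (.c 0), .sto 1 (.add (.r 6) (.c 1)) (.c 0)])]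

private theorem r1_step {p : List ℤ} (hp : IsSP n p) (hM : 16 * (n + 1) ≤ M) (hi0 : inp 0 = n)
    (hiS : ∀ k, k < n → inp (k + 1) = codeW (p.getD k 0)) {j : ℕ} (hj : j < n) {s : St} {q : AQ}
    (hR : Regs n s) (hc : r1Cells p s j) (h0 : s.arr 0 0 = 0) (h1 : s.arr 1 0 = 1)
    (h3 : s.reg 3 = j) :
    ∃ s' k, XRun M inp lam r1Body (s, q) s' k ∧ s'.2 = q ∧ Regs n s'.1 ∧ r1Cells p s'.1 (j + 1) ∧
      s'.1.arr 0 0 = 0 ∧ s'.1.arr 1 0 = 1 ∧ k ≤ 192 := by
  apply wp_run
  obtain ⟨ha1, ha2⟩ := r1_entry hp hj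
  have hjS := hiS j hj
  set v := p.getD j 0 with hv
  obtain ⟨hr0, hr1, hr2⟩ := hR
  have hcode : codeW v = 2 * v.natAbs + (if v < 0 then 1 else 0) := rfl
  simp only [r1Body, blk, wp, dbl, dbl1, Ex.Ok, Ex.eval, Ex.sz, Co.Ok, Co.Holds, Co.sz, reg_setReg,
    arr_setReg, reg_setArr, arr_setArr, hi0, h3, reduceIte, Nat.reduceEqDiff,
    hjS, true_and]
  have hhalf : codeW v / 2 = v.natAbs := by rw [hcode]; split_ifs <;> omega
  have hcM : codeW v < M := by rw [hcode]; split_ifs <;> omega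
  rw [hhalf]
  refine ⟨⟨⟨by omega, by omega⟩, by omega, hcM⟩, ⟨by omega, by omega, by omega⟩, by omega, ?_, ?_⟩
  · intro he
    have hpos : 0 < v := by
      rw [hcode] at he
      split_ifs at he <;> omega
    refine ⟨⟨by omega, by omega, by omega⟩, ⟨by omega, by omega⟩, by omega, by omega,
      ⟨by omega, by omega⟩, by omega, ⟨by simpa using hr0, by simpa using hr1, by simpa using hr2⟩,
      ?_, by simpa using h0, by simpa using h1, by omega⟩
    intro k hk
    rcases Nat.lt_succ_iff_lt_or_eq.1 hk with hk' | hk'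
    · obtain ⟨c1, c2, c3, c4⟩ := hc k hk'
      refine ⟨?_, ?_, ?_, ?_⟩
      · rw [← c1]; simp only [arr_setArr, arr_setReg, true_and, zero_ne_one, one_ne_zero, false_and, if_false]; split_ifs <;> omega
      · rw [← c2]; simp only [arr_setArr, arr_setReg, true_and, zero_ne_one, one_ne_zero, false_and, if_false]; split_ifs <;> omega
      · rw [← c3]; simp only [arr_setArr, arr_setReg, true_and, zero_ne_one, one_ne_zero, false_and, if_false]; split_ifs <;> omega
      · rw [← c4]; simp only [arr_setArr, arr_setReg, true_and, zero_ne_one, one_ne_zero, false_and, if_false]; split_ifs <;> omega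
    · subst hk'
      rw [← hv, if_pos hpos, if_pos hpos, if_pos hpos]
      simp only [arr_setArr, arr_setReg, true_and, zero_ne_one, one_ne_zero, false_and, if_false]
      refine ⟨?_, ?_, ?_, ?_⟩ <;> (split_ifs <;> omega)
  · intro he
    have hneg : ¬ 0 < v := by
      intro hpos
      rw [hcode, if_neg (by omega)] at he
      omega
    refine ⟨by omega, ⟨by omega, by omega⟩, ⟨by omega, by omega, by omega⟩, by omega,
      ⟨by omega, by omega⟩, by omega, ⟨by simpa using hr0, by simpa using hr1, by simpa using hr2⟩,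
      ?_, by simpa using h0, by simpa using h1, by omega⟩
    intro k hk
    rcases Nat.lt_succ_iff_lt_or_eq.1 hk with hk' | hk'
    · obtain ⟨c1, c2, c3, c4⟩ := hc k hk'
      refine ⟨?_, ?_, ?_, ?_⟩
      · rw [← c1]; simp only [arr_setArr, arr_setReg, true_and, zero_ne_one, one_ne_zero, false_and, if_false]; split_ifs <;> omega
      · rw [← c2]; simp only [arr_setArr, arr_setReg, true_and, zero_ne_one, one_ne_zero, false_and, if_false]; split_ifs <;> omega
      · rw [← c3]; simp only [arr_setArr, arr_setReg, true_and, zero_ne_one, one_ne_zero, false_and, if_false]; split_ifs <;> omega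
      · rw [← c4]; simp only [arr_setArr, arr_setReg, true_and, zero_ne_one, one_ne_zero, false_and, if_false]; split_ifs <;> omega
    · subst hk'
      rw [← hv, if_neg hneg, if_neg hneg, if_neg hneg]
      simp only [arr_setArr, arr_setReg, true_and, zero_ne_one, one_ne_zero, false_and, if_false]
      refine ⟨?_, ?_, ?_, ?_⟩ <;> (split_ifs <;> omega)

theorem read_run {p : List ℤ} (hp : IsSP n p) (hM : 16 * (n + 1) ≤ M)
    (hinp : inp = inpOf (p.map codeW)) (s : St) (q : AQ) :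
    ∃ s' k, XRun M inp lam pRead (s, q) (s', q) k ∧ Regs n s' ∧
      ArrInit (2 * (n + 1)) s' (layOf n p) ∧ k ≤ 1000 * (n + 1) := by
  have hi0 : inp 0 = n := by rw [hinp]; exact r1_inp0 hp
  have hiS : ∀ k, k < n → inp (k + 1) = codeW (p.getD k 0) := by
    intro k hk
    rw [hinp]
    exact r1_inpS hp hk
  -- the final state described by the cells
  have main : ∃ s' k, XRun M inp lam pRead (s, q) s' k ∧ s'.2 = q ∧ Regs n s'.1 ∧
      r1Cells p s'.1 n ∧ s'.1.arr 0 0 = 0 ∧ s'.1.arr 1 0 = 1 ∧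
      s'.1.arr 0 (2 * n + 1) = 2 * n + 1 ∧ s'.1.arr 1 (2 * n + 1) = 1 ∧ k ≤ 1000 * (n + 1) := by
    apply wp_run
    simp only [pRead, blk, wp, Ex.Ok, Ex.eval, Ex.sz, reg_setReg, reg_setArr,
      arr_setArr, hi0]
    refine ⟨⟨by omega, by omega, by omega⟩, ⟨trivial, by omega, by simp; omega⟩,
      ⟨trivial, trivial, by simp; omega⟩, by omega, by omega, by omega, by omega, ?_⟩
    have key := forN_run (M := M) (lam := lam) (inp := inp) (i := 3) (n := 0) (N := n) (c := 192)
      (body := r1Body)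
      (fun j s q' => q' = q ∧ Regs n s ∧ r1Cells p s j ∧ s.arr 0 0 = 0 ∧ s.arr 1 0 = 1)
      (by omega) (by decide) (by decide) (by decide)
      (by
        rintro j s q' v ⟨a1, a2, a3, a4, a5⟩
        refine ⟨a1, ?_, fun k hk => ?_, by simpa using a4, by simpa using a5⟩
        · obtain ⟨b1, b2, b3⟩ := a2
          exact ⟨by simpa using b1, by simpa using b2, by simpa using b3⟩
        · simpa using a3 k hk)
      (by
        rintro j s q' hj ⟨a1, a2, a3, a4, a5⟩ h3 -
        obtain ⟨⟨s', q''⟩, k, h1, h2, h3', h4, h5, h6, h7⟩ := r1_step (lam := lam) (q := q') hp hM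
          hi0 hiS hj a2 a3 a4 a5 h3
        exact ⟨s', q'', k, h1, ⟨by rw [← a1]; exact h2, h3', h4, h5, h6⟩, h7⟩)
      (s := (((((s.setReg 0 n).setReg 1 (n + 1)).setReg 2 (n + 1 + (n + 1))).setArr 0 0 0).setArr
        1 0 1)) (q := q)
      ⟨rfl, ⟨by simp, by simp, by simp; omega⟩, fun k hk => absurd hk (by omega), by simp, by simp⟩
      (by simp)
    obtain ⟨s1, q1, k1, hr, ⟨b1, b2, b3, b4, b5⟩, -, -, hk1⟩ := key
    refine run_wp M inp (opS lam) hr _ ?_
    obtain ⟨e0, e1, e2⟩ := b2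
    simp only [e2, reduceIte, true_and, zero_ne_one, one_ne_zero, false_and, if_false]
    refine ⟨by omega, by omega, by omega, by omega, b1, ⟨by simpa using e0, by simpa using e1,
      by simpa using e2⟩, fun k hk => ?_, ?_, ?_, ?_, ?_, by omega⟩
    · obtain ⟨c1, c2, c3, c4⟩ := b3 k hk
      refine ⟨?_, ?_, ?_, ?_⟩
      · rw [← c1]
        simp only [arr_setArr, arr_setReg, true_and, zero_ne_one, one_ne_zero, false_and, if_false]
        split_ifs <;> omega
      · rw [← c2]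
        simp only [arr_setArr, arr_setReg, true_and, zero_ne_one, one_ne_zero, false_and, if_false]
        split_ifs <;> omega
      · rw [← c3]
        simp only [arr_setArr, arr_setReg, true_and, zero_ne_one, one_ne_zero, false_and, if_false]
        split_ifs <;> omega
      · rw [← c4]
        simp only [arr_setArr, arr_setReg, true_and, zero_ne_one, one_ne_zero, false_and, if_false]
        split_ifs <;> omega
    · rw [if_neg (by omega)]; exact b4
    · rw [if_neg (by omega)]; exact b5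
    · rw [if_pos (by omega)]; omega
    · rw [if_pos (by omega)]
  obtain ⟨⟨s', q'⟩, k, hr, hq', hR, hc, h00, h10, h0L, h1L, hk⟩ := main
  simp only at hq' hR hc h00 h10 h0L h1L
  subst hq'
  refine ⟨s', k, hr, hR, ?_, hk⟩
  intro x hx
  simp only [layOf]
  by_cases hx0 : x = 0
  · subst hx0
    simp [h00, h10, b2n]
  by_cases hx1 : x = 2 * n + 1
  · subst hx1
    simp [h0L, h1L, b2n]
  have hor : ¬ (x = 0 ∨ x = 2 * n + 1) := by omega
  rw [if_neg hx0, if_neg hx1, if_neg hor]
  obtain ⟨h2, h3⟩ := E9_idx hp (v := (x + 1) / 2) (by omega) (by omega)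
  obtain ⟨c1, c2, c3, c4⟩ := hc _ h2
  rw [h3] at c1 c2
  generalize hK : (p.map Int.natAbs).idxOf ((x + 1) / 2) = K at *
  by_cases hpos : 0 < p.getD K 0
  · rw [if_pos hpos] at c1 c2 c3 c4
    rw [decide_eq_true hpos]
    by_cases hpar : x % 2 = 0
    · rw [if_pos (by tauto), show 2 * (K + 1) = 2 * K + 2 by ring, c2, c4]
      exact ⟨by omega, rfl⟩
    · rw [if_neg (by tauto), show 2 * (K + 1) - 1 = 2 * K + 1 by omega, c1, c3]
      exact ⟨by omega, rfl⟩
  · rw [if_neg hpos] at c1 c2 c3 c4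
    rw [decide_eq_false hpos]
    by_cases hpar : x % 2 = 0
    · rw [if_neg (by tauto), show 2 * (K + 1) - 1 = 2 * K + 1 by omega, c1, c3]
      exact ⟨by omega, rfl⟩
    · rw [if_pos (by tauto), show 2 * (K + 1) = 2 * K + 2 by ring, c2, c4]
      exact ⟨by omega, rfl⟩

/-- first loop of `pPos` -/
private theorem r1_pos1 (hg : w.Good (2 * (n + 1))) {j : ℕ}
    (hj : j < 2 * (n + 1)) {s : St} {q : AQ} (hR : Regs n s) (ha : ArrInit (2 * (n + 1)) s w)
    (hI : ∀ x, x < 2 * (n + 1) → w.pos x < j → s.arr 3 x = w.pos x ∧ s.arr 4 (w.pos x) = x)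
    (h3 : s.reg 3 = j) :
    ∃ s' k, XRun M inp lam (blk [.set 4 (.ld 0 (.r 3)), .sto 3 (.r 4) (.r 3),
      .sto 4 (.r 3) (.r 4)]) (s, q) s' k ∧ s'.2 = q ∧ Regs n s'.1 ∧
      ArrInit (2 * (n + 1)) s'.1 w ∧
      (∀ x, x < 2 * (n + 1) → w.pos x < j + 1 → s'.1.arr 3 x = w.pos x ∧
        s'.1.arr 4 (w.pos x) = x) ∧ k ≤ 20 := by
  apply wp_run
  obtain ⟨y, hy, hyj⟩ := r1_surj hg hj
  obtain ⟨ha0, ha1⟩ := ha y hy
  rw [hyj] at ha0 ha1
  simp only [blk, wp, Ex.Ok, Ex.eval, Ex.sz, reg_setReg, arr_setReg, reg_setArr,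
    arr_setArr, h3, ha0, reduceIte, true_and, Nat.reduceEqDiff]
  obtain ⟨hr0, hr1, hr2⟩ := hR
  refine ⟨⟨by simpa using hr0, by simpa using hr1, by simpa using hr2⟩, ?_, ?_, by omega⟩
  · intro x hx
    simpa using ha x hx
  · intro x hx hlt
    by_cases hxy : x = y
    · subst hxy
      simp [hyj]
    · have hne : w.pos x ≠ j := fun h => hxy (hg.inj x y hx hy (by omega))
      obtain ⟨g1, g2⟩ := hI x hx (by omega)
      simp [hxy, hne, g1, g2]

theorem pos_run (hM : 16 * (n + 1) ≤ M) (hg : w.Good (2 * (n + 1))) (hR : Regs n s)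
    (ha : ArrInit (2 * (n + 1)) s w) (q : AQ) :
    ∃ s' k, XRun M inp lam pPos (s, q) (s', q) k ∧ ArrPos (2 * (n + 1)) s' w ∧
      (∀ t, t < n + 1 → s'.arr 5 t = 1) ∧ k ≤ 1000 * (n + 1) := by
  have key1 := forN_run (M := M) (lam := lam) (inp := inp) (i := 3) (n := 2) (N := 2 * (n + 1))
    (c := 20) (body := blk [.set 4 (.ld 0 (.r 3)), .sto 3 (.r 4) (.r 3), .sto 4 (.r 3) (.r 4)])
    (fun j s q' => q' = q ∧ Regs n s ∧ ArrInit (2 * (n + 1)) s w ∧
      (∀ x, x < 2 * (n + 1) → w.pos x < j → s.arr 3 x = w.pos x ∧ s.arr 4 (w.pos x) = x))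
    (by omega) (by decide) (by decide) (by decide)
    (by
      rintro j s q' v ⟨a1, ⟨b1, b2, b3⟩, a3, a4⟩
      exact ⟨a1, ⟨by simpa using b1, by simpa using b2, by simpa using b3⟩,
        fun x hx => by simpa using a3 x hx, fun x hx hlt => by simpa using a4 x hx hlt⟩)
    (by
      rintro j s q' hj ⟨a1, a2, a3, a4⟩ h3 -
      obtain ⟨⟨s', q''⟩, k, h1, h2, h3', h4, h5, h6⟩ := r1_pos1 (inp := inp) (lam := lam)
        (q := q') hg hj a2 a3 a4 h3
      exact ⟨s', q'', k, h1, ⟨by rw [← a1]; exact h2, h3', h4, h5⟩, h6⟩)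
    (s := s) (q := q) ⟨rfl, hR, ha, fun x _ h => absurd h (by omega)⟩ hR.2.2
  obtain ⟨s1, q1, k1, hr1, ⟨hq1, hR1, -, hp1⟩, -, -, hk1⟩ := key1
  subst hq1
  have key2 := forN_run (M := M) (lam := lam) (inp := inp) (i := 3) (n := 1) (N := n + 1)
    (c := 20) (body := .sto 5 (.r 3) (.c 1))
    (fun j s q' => q' = q1 ∧ ArrPos (2 * (n + 1)) s w ∧ ∀ t, t < j → s.arr 5 t = 1)
    (by omega) (by decide) (by decide) (by decide)
    (by
      rintro j s q' v ⟨a1, a3, a4⟩
      exact ⟨a1, fun x hx => by simpa using a3 x hx, fun t ht => by simpa using a4 t ht⟩)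
    (by
      rintro j s q' hj ⟨a1, a3, a4⟩ h3 -
      have := Run.sto (M := M) (inp := inp) (ps := opS lam) s q' 5 (.r 3) (.c 1) trivial
        (by show 1 < M; omega)
      refine ⟨_, _, _, this, ⟨a1, fun x hx => ?_, fun t ht => ?_⟩, by simp [Ex.sz]⟩
      · simpa using a3 x hx
      · simp only [Ex.eval, h3, arr_setArr, true_and]
        split_ifs with h
        · rfl
        · exact a4 t (by omega))
    (s := s1) (q := q1) ⟨rfl, fun x hx => hp1 x hx (hg.lt x hx), fun t ht => absurd ht (by omega)⟩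
    hR1.2.1
  obtain ⟨s2, q2, k2, hr2, ⟨hq2, hA, h5⟩, -, -, hk2⟩ := key2
  subst hq2
  refine ⟨s2, k1 + k2, .seq _ _ _ _ _ _ _ hr1 hr2, hA, h5, by omega⟩

end

end SBR
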