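/-
SBR package R10 : last labels, entry chords and lists of the components.
-/
import Pool.Agent.SBR.Rep
import Pool.Agent.SBR.Machine

namespace SBR

section
variable {M lam n : ℕ} {inp : ℕ → ℕ} {s : St} {q : AQ} {w : Lay}

theorem wk_run (hM : 16 * (n + 1) ≤ M) (hR : Regs n s) {S : Finset ℕ}
    (hS : ∀ t ∈ S, t < n + 1) (hal : Alive (n + 1) s S) (hrep : ∀ t ∈ S, s.arr 6 t < n + 1)
    (h24 : ∀ c, s.arr 24 c = 0) (q : AQ) :
    ∃ s' k, XRun M inp lam pWk (s, q) (s', q) k ∧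
      (∀ c, IsMax (fun t => t ∈ S ∧ s.arr 6 t = c) (s.arr 23) (s'.arr 24 c)) ∧
      k ≤ 1000 * (n + 1) := by
  have hloop : ∃ s' q' k, XRun M inp lam pWk (s, q) (s', q') k ∧
      (s'.arr 5 = s.arr 5 ∧ s'.arr 6 = s.arr 6 ∧ s'.arr 23 = s.arr 23 ∧
      ∀ c, IsMax (fun t => (t ∈ S ∧ t < n + 1) ∧ s.arr 6 t = c) (s.arr 23) (s'.arr 24 c)) ∧
      s'.reg 10 = n + 1 ∧ s'.reg 1 = n + 1 ∧ k ≤ (100 + 8) * (n + 1) + 6 := by
    refine forN_run (M := M) (lam := lam) (inp := inp) (i := 10) (n := 1) (N := n + 1) (c := 100)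
      (fun j s' _ => s'.arr 5 = s.arr 5 ∧ s'.arr 6 = s.arr 6 ∧ s'.arr 23 = s.arr 23 ∧
      ∀ c, IsMax (fun t => (t ∈ S ∧ t < j) ∧ s.arr 6 t = c) (s.arr 23) (s'.arr 24 c))
      (by omega) (by decide) (by decide) (by decide)
      (fun j s q v h => h) ?_ ?_ hR.2.1
    · rintro j s1 q1 hj ⟨h5, h6, h23, hmax⟩ h10 h1
      have key := wp_run M inp (opS lam) (.ite (.eq (.ld 5 (.r 10)) (.c 1))
        (blk [.set 11 (.ld 6 (.r 10)),
          .ite (.lt (.ld 24 (.r 11)) (.ld 23 (.r 10))) (.sto 24 (.r 11) (.ld 23 (.r 10))) .skip]) .skip)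
        (fun s' k => (s'.1.arr 5 = s.arr 5 ∧ s'.1.arr 6 = s.arr 6 ∧ s'.1.arr 23 = s.arr 23 ∧
        ∀ c, IsMax (fun t => (t ∈ S ∧ t < j + 1) ∧ s.arr 6 t = c) (s.arr 23) (s'.1.arr 24 c)) ∧
          k ≤ 100) (s1, q1) ?_
      · obtain ⟨s', k, h1, h2, h3⟩ := key
        exact ⟨s'.1, s'.2, k, h1, h2, h3⟩
      simp only [blk, wp, Ex.Ok, Ex.eval, Co.Ok, Co.Holds, Ex.sz, Co.sz, reg_setReg, arr_setReg,
        h10, h5, h6, h23, Nat.reduceEqDiff, if_true, if_false]
      have hle : ∀ c x, ((x ∈ S ∧ x < j) ∧ s.arr 6 x = c) → ((x ∈ S ∧ x < j + 1) ∧ s.arr 6 x = c) :=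
        fun c x hx => ⟨⟨hx.1.1, by omega⟩, hx.2⟩
      refine ⟨⟨trivial, by omega⟩, fun h5j => ?_, fun h5j => ?_⟩
      · have hjS : j ∈ S := (hal j hj).1 h5j
        refine ⟨trivial, ⟨trivial, trivial⟩, fun hlt => ?_, fun hlt => ?_⟩
        · refine ⟨trivial, trivial, ⟨?_, ?_, ?_, fun c => ?_⟩, ?_⟩
          · funext x; simp [h5]
          · funext x; simp [h6]
          · funext x; simp [h23]
          · simp only [arr_setArr, arr_setReg, true_and]
            have hc := hmax c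
            by_cases hcj : c = s.arr 6 j
            · subst hcj
              simp only [if_true]
              refine ⟨fun x hx => ?_, Or.inr ⟨j, ⟨⟨hjS, by omega⟩, rfl⟩, rfl⟩⟩
              rcases Nat.lt_succ_iff_lt_or_eq.1 hx.1.2 with h | h
              · have := hc.1 x ⟨⟨hx.1.1, h⟩, hx.2⟩
                omega
              · rw [h]
            · rw [if_neg hcj]
              refine ⟨fun x hx => ?_, ?_⟩
              · rcases Nat.lt_succ_iff_lt_or_eq.1 hx.1.2 with h | h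
                · exact hc.1 x ⟨⟨hx.1.1, h⟩, hx.2⟩
                · subst h
                  exact absurd hx.2.symm hcj
              · rcases hc.2 with h | ⟨x, hx, h⟩
                · exact Or.inl h
                · exact Or.inr ⟨x, hle c x hx, h⟩
          · omega
        · refine ⟨⟨?_, ?_, ?_, fun c => ?_⟩, ?_⟩
          · exact trivial
          · exact trivial
          · exact trivial
          · have hc := hmax c
            refine ⟨fun x hx => ?_, ?_⟩
            · rcases Nat.lt_succ_iff_lt_or_eq.1 hx.1.2 with h | h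
              · exact hc.1 x ⟨⟨hx.1.1, h⟩, hx.2⟩
              · subst h
                have := hx.2
                subst this
                show s.arr 23 x ≤ s1.arr 24 _
                omega
            · rcases hc.2 with h | ⟨x, hx, h⟩
              · exact Or.inl h
              · exact Or.inr ⟨x, hle c x hx, h⟩
          · omega
      · have hjS : j ∉ S := fun h => h5j ((hal j hj).2 h)
        refine ⟨⟨trivial, trivial, trivial, fun c => ?_⟩, by omega⟩
        have hc := hmax c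
        refine ⟨fun x hx => ?_, ?_⟩
        · rcases Nat.lt_succ_iff_lt_or_eq.1 hx.1.2 with h | h
          · exact hc.1 x ⟨⟨hx.1.1, h⟩, hx.2⟩
          · subst h
            exact absurd hx.1.1 hjS
        · rcases hc.2 with h | ⟨x, hx, h⟩
          · exact Or.inl h
          · exact Or.inr ⟨x, hle c x hx, h⟩
    · refine ⟨rfl, rfl, rfl, fun c => ⟨fun x hx => absurd hx.1.2 (Nat.not_lt_zero x), Or.inl (h24 c)⟩⟩
  obtain ⟨s', q', k, hrun, hI, -, -, hk⟩ := hloop
  have hq : q' = q := (run_frame hrun).2.2.1 (by decide)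
  subst hq
  refine ⟨s', k, hrun, fun c => ?_, by omega⟩
  have := hI.2.2.2 c
  refine ⟨fun x hx => this.1 x ⟨⟨hx.1, hS x hx.1⟩, hx.2⟩, ?_⟩
  rcases this.2 with h | ⟨x, hx, h⟩
  · exact Or.inl h
  · exact Or.inr ⟨x, ⟨hx.1.1, hx.2⟩, h⟩

private theorem r10_ll_congr {nx nx' : ℕ → ℕ} : ∀ {l : List ℕ} {a : ℕ},
    (∀ v ∈ l, nx v = nx' v) → LL nx a l → LL nx' a l
  | [], _, _, h => h
  | v :: l, a, h, h' => by
    refine ⟨h'.1, ?_⟩
    rw [← h v (by simp)]
    exact r10_ll_congr (fun u hu => h u (by simp [hu])) h'.2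

/-- clockwise distance computed by the program -/
private def r10D (s : St) (L c t : ℕ) : ℕ :=
  if s.arr 3 (s.arr 18 (s.arr 22 (s.arr 24 c))) + L - s.arr 3 (2 * t) < L then
    s.arr 3 (s.arr 18 (s.arr 22 (s.arr 24 c))) + L - s.arr 3 (2 * t)
  else s.arr 3 (s.arr 18 (s.arr 22 (s.arr 24 c))) + L - s.arr 3 (2 * t) - L

private structure R10I (S : Finset ℕ) (s : St) (L j : ℕ) (s' : St) : Prop where
  h3 : s'.arr 3 = s.arr 3
  h5 : s'.arr 5 = s.arr 5
  h6 : s'.arr 6 = s.arr 6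
  h18 : s'.arr 18 = s.arr 18
  h22 : s'.arr 22 = s.arr 22
  h24 : s'.arr 24 = s.arr 24
  h2 : s'.reg 2 = L
  a26 : ∀ c, s'.arr 26 c ≠ 0 ↔ s.arr 24 c ≠ 0 ∧ ∃ t, t ∈ S ∧ t < j ∧ s.arr 6 t = c
  a25 : ∀ c, s'.arr 25 c = 0 ↔ s'.arr 26 c = 0
  lst : ∀ c, ∃ l, LL (s'.arr 27) (s'.arr 26 c) l ∧ l.Nodup ∧
    ∀ t, t ∈ l ↔ s.arr 24 c ≠ 0 ∧ t ∈ S ∧ t < j ∧ s.arr 6 t = c
  ent : ∀ c, s'.arr 26 c ≠ 0 → ∃ tE ∈ S, tE < j ∧ s.arr 6 tE = c ∧ s'.arr 25 c = tE + 1 ∧
    s'.arr 30 c = r10D s L c tE ∧ ∀ v ∈ S, v < j → s.arr 6 v = c → r10D s L c tE ≤ r10D s L c v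

private theorem r10_skip {S : Finset ℕ} {s s' : St} {L j : ℕ} (h : R10I S s L j s')
    (hj : j ∈ S → s.arr 24 (s.arr 6 j) = 0) : R10I S s L (j + 1) s' := by
  have hne : ∀ c, s.arr 24 c ≠ 0 → ∀ t, t ∈ S → t < j + 1 → s.arr 6 t = c → t < j := by
    intro c hc t ht htj htc
    rcases Nat.lt_succ_iff_lt_or_eq.1 htj with h' | h'
    · exact h'
    · subst h'
      rw [← htc] at hc
      exact absurd (hj ht) hc
  refine ⟨h.h3, h.h5, h.h6, h.h18, h.h22, h.h24, h.h2, fun c => ?_, h.a25, fun c => ?_,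
    fun c hc => ?_⟩
  · rw [h.a26 c]
    constructor
    · rintro ⟨h1, t, h2, h3, h4⟩
      exact ⟨h1, t, h2, by omega, h4⟩
    · rintro ⟨h1, t, h2, h3, h4⟩
      exact ⟨h1, t, h2, hne c h1 t h2 h3 h4, h4⟩
  · obtain ⟨l, h1, h2, h3⟩ := h.lst c
    refine ⟨l, h1, h2, fun t => ?_⟩
    rw [h3]
    constructor
    · rintro ⟨h1, h2, h3, h4⟩
      exact ⟨h1, h2, by omega, h4⟩
    · rintro ⟨h1, h2, h3, h4⟩
      exact ⟨h1, h2, hne c h1 t h2 h3 h4, h4⟩
  · obtain ⟨tE, h1, h2, h3, h4, h5, h6⟩ := h.ent c hc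
    exact ⟨tE, h1, by omega, h3, h4, h5, fun v hv hvj hvc =>
      h6 v hv (hne c ((h.a26 c).1 hc).1 v hv hvj hvc) hvc⟩

private theorem r10_fin {S : Finset ℕ} {s s1 s2 : St} {L j v25 v30 : ℕ} (h : R10I S s L j s1)
    (hj : j ∈ S) (h24 : s.arr 24 (s.arr 6 j) ≠ 0)
    (h3 : s2.arr 3 = s1.arr 3) (h5 : s2.arr 5 = s1.arr 5) (h6 : s2.arr 6 = s1.arr 6)
    (h18 : s2.arr 18 = s1.arr 18) (h22 : s2.arr 22 = s1.arr 22) (h24' : s2.arr 24 = s1.arr 24)
    (h2 : s2.reg 2 = s1.reg 2)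
    (h25 : ∀ c, s2.arr 25 c = if c = s.arr 6 j then v25 else s1.arr 25 c)
    (h26 : ∀ c, s2.arr 26 c = if c = s.arr 6 j then j + 1 else s1.arr 26 c)
    (h27 : ∀ t, s2.arr 27 t = if t = j then s1.arr 26 (s.arr 6 j) else s1.arr 27 t)
    (h30 : ∀ c, s2.arr 30 c = if c = s.arr 6 j then v30 else s1.arr 30 c)
    (hv : (v25 = j + 1 ∧ v30 = r10D s L (s.arr 6 j) j ∧
        (s1.arr 26 (s.arr 6 j) = 0 ∨ r10D s L (s.arr 6 j) j < s1.arr 30 (s.arr 6 j))) ∨
      (v25 = s1.arr 25 (s.arr 6 j) ∧ v30 = s1.arr 30 (s.arr 6 j) ∧ s1.arr 26 (s.arr 6 j) ≠ 0 ∧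
        s1.arr 30 (s.arr 6 j) ≤ r10D s L (s.arr 6 j) j)) :
    R10I S s L (j + 1) s2 := by
  have hne : ∀ c, c ≠ s.arr 6 j → ∀ t, t < j + 1 → s.arr 6 t = c → t < j := by
    intro c hc t htj htc
    rcases Nat.lt_succ_iff_lt_or_eq.1 htj with h' | h'
    · exact h'
    · subst h'
      exact absurd htc.symm hc
  refine ⟨h3.trans h.h3, h5.trans h.h5, h6.trans h.h6, h18.trans h.h18, h22.trans h.h22,
    h24'.trans h.h24, h2.trans h.h2, fun c => ?_, fun c => ?_, fun c => ?_, fun c hc => ?_⟩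
  · rw [h26]
    split_ifs with hc
    · subst hc
      refine ⟨fun _ => ⟨h24, j, hj, by omega, rfl⟩, fun _ => by omega⟩
    · rw [h.a26 c]
      constructor
      · rintro ⟨h1, t, h2, h3, h4⟩
        exact ⟨h1, t, h2, by omega, h4⟩
      · rintro ⟨h1, t, h2, h3, h4⟩
        exact ⟨h1, t, h2, hne c hc t h3 h4, h4⟩
  · rw [h26, h25]
    split_ifs with hc
    · subst hc
      rcases hv with ⟨h1, -, -⟩ | ⟨h1, -, h2, -⟩
      · exact ⟨fun h => absurd h (by omega), fun h => h.elim⟩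
      · have := h.a25 (s.arr 6 j)
        refine ⟨fun h3 => ?_, fun h3 => h3.elim⟩
        rw [h1] at h3
        exact absurd (this.1 h3) h2
    · exact h.a25 c
  · obtain ⟨l, h1, h2, h3⟩ := h.lst c
    have hjl : j ∉ l := by
      intro hjl
      have := (h3 j).1 hjl
      omega
    have hcong : ∀ v ∈ l, s1.arr 27 v = s2.arr 27 v := by
      intro v hv'
      rw [h27, if_neg]
      rintro rfl
      exact hjl hv'
    by_cases hc : c = s.arr 6 j
    · subst hc
      refine ⟨j :: l, ⟨?_, ?_⟩, List.nodup_cons.2 ⟨hjl, h2⟩, fun t => ?_⟩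
      · rw [h26, if_pos rfl]
      · rw [h27, if_pos rfl]
        exact r10_ll_congr hcong h1
      · rw [List.mem_cons, h3]
        constructor
        · rintro (rfl | ⟨h1, h2, h3, h4⟩)
          · exact ⟨h24, hj, by omega, rfl⟩
          · exact ⟨h1, h2, by omega, h4⟩
        · rintro ⟨h1, h2, h3, h4⟩
          rcases Nat.lt_succ_iff_lt_or_eq.1 h3 with h' | h'
          · exact Or.inr ⟨h1, h2, h', h4⟩
          · exact Or.inl h'
    · refine ⟨l, ?_, h2, fun t => ?_⟩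
      · rw [h26, if_neg hc]
        exact r10_ll_congr hcong h1
      · rw [h3]
        constructor
        · rintro ⟨h1, h2, h3, h4⟩
          exact ⟨h1, h2, by omega, h4⟩
        · rintro ⟨h1, h2, h3, h4⟩
          exact ⟨h1, h2, hne c hc t h3 h4, h4⟩
  · by_cases hcj : c = s.arr 6 j
    · subst hcj
      rw [h25, h30, if_pos rfl, if_pos rfl]
      rcases hv with ⟨h1, h2, h3⟩ | ⟨h1, h2, h3, h4⟩
      · refine ⟨j, hj, by omega, rfl, h1, h2, fun v hv hvj hvc => ?_⟩
        rcases Nat.lt_succ_iff_lt_or_eq.1 hvj with h' | h'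
        · have h5 : s1.arr 26 (s.arr 6 j) ≠ 0 := (h.a26 _).2 ⟨h24, v, hv, h', hvc⟩
          rcases h3 with h3 | h3
          · exact absurd h3 h5
          · obtain ⟨tE, e1, e2, e3, e4, e5, e6⟩ := h.ent _ h5
            have := e6 v hv h' hvc
            omega
        · rw [h']
      · obtain ⟨tE, e1, e2, e3, e4, e5, e6⟩ := h.ent _ h3
        refine ⟨tE, e1, by omega, e3, h1.trans e4, h2.trans e5, fun v hv hvj hvc => ?_⟩
        rcases Nat.lt_succ_iff_lt_or_eq.1 hvj with h' | h'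
        · exact e6 v hv h' hvc
        · rw [h']
          omega
    · rw [h26, if_neg hcj] at hc
      rw [h25, h30, if_neg hcj, if_neg hcj]
      obtain ⟨tE, e1, e2, e3, e4, e5, e6⟩ := h.ent _ hc
      exact ⟨tE, e1, by omega, e3, e4, e5, fun v hv hvj hvc => e6 v hv (hne c hcj v hvj hvc) hvc⟩

private theorem r10_wp_skip {R : St × AQ → ℕ → Prop} {s : St × AQ} (h : R s 1) :
    wp M inp (opS lam) .skip R s := h

private def r10Rest : XStm := blk [
        .ite (.eq (.ld 25 (.r 11)) (.c 0))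
          (blk [.sto 25 (.r 11) (.add (.r 10) (.c 1)), .sto 30 (.r 11) (.r 12)])
          (.ite (.lt (.r 12) (.ld 30 (.r 11)))
            (blk [.sto 25 (.r 11) (.add (.r 10) (.c 1)), .sto 30 (.r 11) (.r 12)]) .skip),
        .sto 27 (.r 10) (.ld 26 (.r 11)), .sto 26 (.r 11) (.add (.r 10) (.c 1))]

private theorem r10_rest (hM : 16 * (n + 1) ≤ M) {S : Finset ℕ} {s1 s2 : St} {j : ℕ}
    (h : R10I S s (2 * (n + 1)) j s1) (hjn : j < n + 1)
    (hj : j ∈ S) (h24 : s.arr 24 (s.arr 6 j) ≠ 0) (harr : s2.arr = s1.arr)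
    (h2 : s2.reg 2 = 2 * (n + 1)) (h10 : s2.reg 10 = j) (h11 : s2.reg 11 = s.arr 6 j)
    (h12 : s2.reg 12 = r10D s (2 * (n + 1)) (s.arr 6 j) j) :
    wp M inp (opS lam) r10Rest
      (fun s' k => R10I S s (2 * (n + 1)) (j + 1) s'.1 ∧ k ≤ 60) (s2, q) := by
  simp only [r10Rest, blk, wp, Ex.Ok, Ex.eval, Co.Ok, Co.Holds, Ex.sz, Co.sz,
    reg_setArr, h10, h11, harr, h12]
  refine ⟨⟨trivial, by omega⟩, fun hz => ?_, fun hz => ⟨⟨trivial, trivial⟩, fun hlt => ?_,
    fun hlt => ?_⟩⟩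
  · refine ⟨trivial, ⟨trivial, by omega, by omega⟩, trivial, trivial, trivial, trivial, trivial,
      ⟨trivial, by omega, by omega⟩, ?_, by omega⟩
    refine r10_fin (v25 := j + 1) (v30 := r10D s (2 * (n + 1)) (s.arr 6 j) j) h hj h24
      ?_ ?_ ?_ ?_ ?_ ?_ ?_ ?_ ?_ ?_ ?_ (Or.inl ⟨rfl, rfl, Or.inl ((h.a25 _).1 hz)⟩)
    · funext x; simp [harr]
    · funext x; simp [harr]
    · funext x; simp [harr]
    · funext x; simp [harr]
    · funext x; simp [harr]
    · funext x; simp [harr]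
    · simp [h2, h.h2]
    · intro c; simp [harr]
    · intro c; simp [harr]
    · intro c; simp [harr]
    · intro c; simp [harr]
  · refine ⟨trivial, ⟨trivial, by omega, by omega⟩, trivial, trivial, trivial, trivial, trivial,
      ⟨trivial, by omega, by omega⟩, ?_, by omega⟩
    refine r10_fin (v25 := j + 1) (v30 := r10D s (2 * (n + 1)) (s.arr 6 j) j) h hj h24
      ?_ ?_ ?_ ?_ ?_ ?_ ?_ ?_ ?_ ?_ ?_ (Or.inl ⟨rfl, rfl, Or.inr hlt⟩)
    · funext x; simp [harr]
    · funext x; simp [harr]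
    · funext x; simp [harr]
    · funext x; simp [harr]
    · funext x; simp [harr]
    · funext x; simp [harr]
    · simp [h2, h.h2]
    · intro c; simp [harr]
    · intro c; simp [harr]
    · intro c; simp [harr]
    · intro c; simp [harr]
  · refine ⟨trivial, trivial, trivial,
      ⟨trivial, by omega, by omega⟩, ?_, by omega⟩
    refine r10_fin (v25 := s1.arr 25 (s.arr 6 j)) (v30 := s1.arr 30 (s.arr 6 j)) h hj h24
      ?_ ?_ ?_ ?_ ?_ ?_ ?_ ?_ ?_ ?_ ?_
      (Or.inr ⟨rfl, rfl, fun h0 => hz ((h.a25 _).2 h0), by omega⟩)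
    · funext x; simp [harr]
    · funext x; simp [harr]
    · funext x; simp [harr]
    · funext x; simp [harr]
    · funext x; simp [harr]
    · funext x; simp [harr]
    · simp [h2, h.h2]
    · intro c
      simp only [arr_setArr, harr]
      split_ifs <;> simp_all
    · intro c; simp [harr]
    · intro c; simp [harr]
    · intro c
      simp only [arr_setArr, harr]
      split_ifs <;> simp_all

theorem te_run (hM : 16 * (n + 1) ≤ M) (hg : w.Good (2 * (n + 1))) (hR : Regs n s)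
    (ha : ArrPos (2 * (n + 1)) s (w.flip (2 * (n + 1)))) {S : Finset ℕ}
    (hS : ∀ t ∈ S, t < n + 1) (hal : Alive (n + 1) s S) (hrep : ∀ t ∈ S, s.arr 6 t < n + 1)
    (hj : ∀ t ∈ S, s.arr 24 (s.arr 6 t) ≠ 0 →
      s.arr 18 (s.arr 22 (s.arr 24 (s.arr 6 t))) < 2 * (n + 1))
    (h25 : ∀ c, s.arr 25 c = 0) (h26 : ∀ c, s.arr 26 c = 0) (q : AQ) :
    ∃ s' k, XRun M inp lam pTe (s, q) (s', q) k ∧
      (∀ c, s'.arr 26 c ≠ 0 ↔ s.arr 24 c ≠ 0 ∧ ∃ t ∈ S, s.arr 6 t = c) ∧
      (∀ c, s'.arr 26 c ≠ 0 →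
        (∃ l, LL (s'.arr 27) (s'.arr 26 c) l ∧ l.Nodup ∧ ∀ t, t ∈ l ↔ t ∈ S ∧ s.arr 6 t = c) ∧
        ∃ tE ∈ S, s.arr 6 tE = c ∧ s'.arr 25 c = tE + 1 ∧ ∀ v ∈ S, s.arr 6 v = c →
          ¬ w.Cw (s.arr 18 (s.arr 22 (s.arr 24 c))) (2 * v) (2 * tE)) ∧
      k ≤ 1000 * (n + 1) := by
  have hpos : ∀ x, x < 2 * (n + 1) → s.arr 3 x + w.pos x + 1 = 2 * (n + 1) := by
    intro x hx
    have h1 := (ha x hx).1
    have h2 := hg.lt x hx
    rw [h1]
    simp only [Lay.flip]
    omega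
  have hloop : ∃ s' q' k, XRun M inp lam pTe (s, q) (s', q') k ∧
      R10I S s (2 * (n + 1)) (n + 1) s' ∧
      s'.reg 10 = n + 1 ∧ s'.reg 1 = n + 1 ∧ k ≤ (200 + 8) * (n + 1) + 6 := by
    refine forN_run (M := M) (lam := lam) (inp := inp) (i := 10) (n := 1) (N := n + 1) (c := 200)
      (fun j s' _ => R10I S s (2 * (n + 1)) j s')
      (by omega) (by decide) (by decide) (by decide)
      (fun j s q v h => ⟨h.h3, h.h5, h.h6, h.h18, h.h22, h.h24, ?_, h.a26, h.a25, h.lst, h.ent⟩)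
      ?_ ?_ hR.2.1
    · simp [h.h2]
    · intro j s1 q1 hjn hI h10 h1
      suffices key : wp M inp (opS lam) (.ite (.eq (.ld 5 (.r 10)) (.c 1))
          (blk [.set 11 (.ld 6 (.r 10)),
            .ite (.lt (.c 0) (.ld 24 (.r 11)))
              (blk [
                .set 12 (.sub (.add (.ld 3 (.ld 18 (.ld 22 (.ld 24 (.r 11))))) (.r 2))
                  (.ld 3 (dbl (.r 10)))),
                .ite (.lt (.r 12) (.r 2)) .skip (.set 12 (.sub (.r 12) (.r 2))),
                .ite (.eq (.ld 25 (.r 11)) (.c 0))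
                  (blk [.sto 25 (.r 11) (.add (.r 10) (.c 1)), .sto 30 (.r 11) (.r 12)])
                  (.ite (.lt (.r 12) (.ld 30 (.r 11)))
                    (blk [.sto 25 (.r 11) (.add (.r 10) (.c 1)), .sto 30 (.r 11) (.r 12)]) .skip),
                .sto 27 (.r 10) (.ld 26 (.r 11)), .sto 26 (.r 11) (.add (.r 10) (.c 1))])
              .skip]) .skip)
          (fun s' k => R10I S s (2 * (n + 1)) (j + 1) s'.1 ∧ k ≤ 200) (s1, q1) by
        obtain ⟨s', k, h1, h2, h3⟩ := wp_run M inp (opS lam) _ _ _ key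
        exact ⟨s'.1, s'.2, k, h1, h2, h3⟩
      refine ⟨⟨trivial, by show 1 < M; omega⟩, fun h5j => ?_, fun h5j => ?_⟩
      · replace h5j : s.arr 5 j = 1 := by
          simpa only [Co.Holds, Ex.eval, h10, hI.h5] using h5j
        have hjS : j ∈ S := (hal j hjn).1 h5j
        refine ⟨trivial, ⟨by show 0 < M; omega, trivial⟩, fun hlt => ?_, fun hlt => ?_⟩
        · replace hlt : 0 < s.arr 24 (s.arr 6 j) := by
            simpa only [Co.Holds, Ex.eval, reg_setReg, arr_setReg, h10, hI.h6, hI.h24,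
              if_true] using hlt
          have hne : s.arr 24 (s.arr 6 j) ≠ 0 := by omega
          have hJ := hj j hjS hne
          have e1 := hpos _ hJ
          have e2 := hpos (2 * j) (by omega)
          have e3 : s.arr 3 (j + j) = s.arr 3 (2 * j) := by rw [two_mul]
          refine ⟨?_, ⟨trivial, trivial⟩, fun hc => ?_, fun hc => ?_⟩
          · simp only [Ex.Ok, Ex.eval, reg_setReg, arr_setReg, dbl, h10, hI.h6, hI.h24, hI.h3,
              hI.h18, hI.h22, hI.h2, Nat.reduceEqDiff, if_true, if_false, e3]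
            refine ⟨⟨trivial, trivial, by omega⟩, ⟨trivial, trivial, by omega⟩, by omega⟩
          · have hc' : s.arr 3 (s.arr 18 (s.arr 22 (s.arr 24 (s.arr 6 j)))) + 2 * (n + 1) -
                s.arr 3 (2 * j) < 2 * (n + 1) := by
              simpa only [Co.Holds, Ex.eval, reg_setReg, arr_setReg, dbl, h10, hI.h6, hI.h24,
                hI.h3, hI.h18, hI.h22, hI.h2, Nat.reduceEqDiff, if_true, if_false, e3] using hc
            apply r10_wp_skip
            show wp M inp (opS lam) r10Rest _ _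
            refine wp_mono M inp (opS lam) (r10_rest hM hI hjn hjS hne rfl ?_ ?_ ?_ ?_) ?_
            · simp [hI.h2]
            · simp [h10]
            · simp [Ex.eval, h10, hI.h6]
            · simp only [Ex.eval, reg_setReg, arr_setReg, dbl, h10, hI.h6, hI.h24,
                hI.h3, hI.h18, hI.h22, hI.h2, Nat.reduceEqDiff, if_true, if_false, e3]
              rw [r10D, if_pos hc']
            · rintro s' k ⟨h1, h2⟩
              refine ⟨h1, ?_⟩
              simp only [Ex.sz, Co.sz, dbl]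
              omega
          · have hc' : ¬ s.arr 3 (s.arr 18 (s.arr 22 (s.arr 24 (s.arr 6 j)))) + 2 * (n + 1) -
                s.arr 3 (2 * j) < 2 * (n + 1) := by
              simpa only [Co.Holds, Ex.eval, reg_setReg, arr_setReg, dbl, h10, hI.h6, hI.h24,
                hI.h3, hI.h18, hI.h22, hI.h2, Nat.reduceEqDiff, if_true, if_false, e3] using hc
            refine ⟨?_, ?_⟩
            · simp only [Ex.Ok, Ex.eval, reg_setReg, arr_setReg, dbl, h10, hI.h6, hI.h24, hI.h3,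
                hI.h18, hI.h22, hI.h2, Nat.reduceEqDiff, if_true, if_false, e3]
              exact ⟨trivial, trivial, by omega⟩
            show wp M inp (opS lam) r10Rest _ _
            refine wp_mono M inp (opS lam) (r10_rest hM hI hjn hjS hne rfl ?_ ?_ ?_ ?_) ?_
            · simp [hI.h2]
            · simp [h10]
            · simp [Ex.eval, h10, hI.h6]
            · simp only [Ex.eval, reg_setReg, arr_setReg, dbl, h10, hI.h6, hI.h24,
                hI.h3, hI.h18, hI.h22, hI.h2, Nat.reduceEqDiff, if_true, if_false, e3]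
              rw [r10D, if_neg hc']
            · rintro s' k ⟨h1, h2⟩
              refine ⟨h1, ?_⟩
              simp only [Ex.sz, Co.sz, dbl]
              omega
        · have h0 : ¬ 0 < s.arr 24 (s.arr 6 j) := by
            simpa only [Co.Holds, Ex.eval, reg_setReg, arr_setReg, h10, hI.h6, hI.h24,
              if_true] using hlt
          refine ⟨r10_skip ⟨hI.h3, hI.h5, hI.h6, hI.h18, hI.h22, hI.h24, ?_, hI.a26, hI.a25,
            hI.lst, hI.ent⟩ (fun _ => by omega), ?_⟩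
          · simp [hI.h2]
          · simp only [Ex.sz, Co.sz]
            omega
      · refine ⟨r10_skip hI (fun h => absurd ((hal j hjn).2 h) ?_), ?_⟩
        · simpa only [Co.Holds, Ex.eval, h10, hI.h5] using h5j
        · simp only [Ex.sz, Co.sz]
          omega
    · refine ⟨rfl, rfl, rfl, rfl, rfl, rfl, hR.2.2, fun c => ?_, fun c => ?_, fun c => ?_,
        fun c hc => absurd (h26 c) hc⟩
      · rw [h26]
        simp
      · rw [h25, h26]
      · refine ⟨[], h26 c, List.nodup_nil, fun t => ?_⟩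
        simp
  obtain ⟨s', q', k, hrun, hI, -, -, hk⟩ := hloop
  have hq : q' = q := (run_frame hrun).2.2.1 (by decide)
  subst hq
  refine ⟨s', k, hrun, fun c => ?_, fun c hc => ⟨?_, ?_⟩, by omega⟩
  · rw [hI.a26 c]
    constructor
    · rintro ⟨h1, t, h2, h3, h4⟩
      exact ⟨h1, t, h2, h4⟩
    · rintro ⟨h1, t, h2, h4⟩
      exact ⟨h1, t, h2, hS t h2, h4⟩
  · obtain ⟨l, h1, h2, h3⟩ := hI.lst c
    refine ⟨l, h1, h2, fun t => ?_⟩
    rw [h3]
    constructor
    · rintro ⟨h1, h2, h3, h4⟩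
      exact ⟨h2, h4⟩
    · rintro ⟨h1, h2⟩
      exact ⟨((hI.a26 c).1 hc).1, h1, hS t h1, h2⟩
  · obtain ⟨tE, h1, h2, h3, h4, h5, h6⟩ := hI.ent c hc
    refine ⟨tE, h1, h3, h4, fun v hv hvc hcw => ?_⟩
    have hmin := h6 v hv (hS v hv) hvc
    have h24c := ((hI.a26 c).1 hc).1
    have hJ : s.arr 18 (s.arr 22 (s.arr 24 c)) < 2 * (n + 1) := by
      have := hj v hv
      rw [hvc] at this
      exact this h24c
    have e1 := hpos _ hJ
    have e2 := hpos (2 * v) (by have := hS v hv; omega)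
    have e3 := hpos (2 * tE) (by omega)
    simp only [r10D] at hmin
    simp only [Lay.Cw] at hcw
    generalize s.arr 3 (s.arr 18 (s.arr 22 (s.arr 24 c))) = A at *
    generalize s.arr 3 (2 * v) = B at *
    generalize s.arr 3 (2 * tE) = C at *
    split_ifs at hmin <;> omega

end

end SBR
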