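/-
SBR/T2a.lean : the algebraic invariant (package T2a).
-/
import Pool.Agent.SBR.State

namespace SBR

private theorem t2a_vec_comm (w : Lay) (a b t : ℕ) : w.vec a b t = w.vec b a t := by
  simp only [Lay.vec, Lay.cr]
  ring

private theorem t2a_sum {α : Type*} (l : List α) (c f g : α → ZMod 2) (V : ZMod 2) :
    (l.map (fun h => c h * (f h + g h * V))).sum =
      (l.map (fun h => c h * f h)).sum + (l.map (fun h => c h * g h)).sum * V := by
  induction l with
  | nil => simp
  | cons a l ih =>
    simp only [List.map_cons, List.sum_cons, ih]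
    ring

theorem alg_step {m : ℕ} {A0 : ℕ → ℕ → ZMod 2} {w : Lay} {S : Finset ℕ} {ord : List ℕ}
    {m1 m2 : ℕ → ℕ} (hA : Alg m A0 w S ord m1 m2) {v : ℕ} (hv : v ∈ S) (hvv : w.mat v v = 1)
    {m1' m2' : ℕ → ℕ} (e1 : ∀ h, h ≠ v → m1' h = m1 h ∧ m2' h = m2 h)
    (e2 : (m1' v = 2 * v ∧ m2' v = 2 * v + 1) ∨ (m1' v = 2 * v + 1 ∧ m2' v = 2 * v)) :
    Alg m A0 (w.rev (2 * v) (2 * v + 1)) (S.erase v) (ord ++ [v]) m1' m2' := by
  have hvm := hA.sub v hv
  have hvord : v ∉ ord := fun h => hA.disj v h hv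
  have hpv : pivs A0 ord v v = 1 := by rw [hA.mat v hv v hv, hvv]
  -- the virtual chord of the new pivot
  have hV : ∀ t ∈ S, t ≠ v → (w.rev (2 * v) (2 * v + 1)).vec (m1' v) (m2' v) t = w.mat v t := by
    intro t ht htv
    have htm := hA.sub t ht
    have h1 : (w.rev (2 * v) (2 * v + 1)).vec (2 * v) (2 * v + 1) t = w.mat v t := by
      rw [Lay.vec_rev hA.good (by omega) (by omega) (by omega) (by omega) (by omega) (by omega)
        (by omega) (by omega) (by omega), Lay.bi_self_left, Lay.bi_self_right]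
      simp only [Lay.vec, Lay.mat, if_neg (Ne.symm htv)]
      ring
    rcases e2 with ⟨a, b⟩ | ⟨a, b⟩
    · rw [a, b]; exact h1
    · rw [a, b, t2a_vec_comm]; exact h1
  -- the old virtual chords
  have hold : ∀ h ∈ ord, ∀ t ∈ S, t ≠ v → w.vec (m1 h) (m2 h) t =
      (w.rev (2 * v) (2 * v + 1)).vec (m1' h) (m2' h) t +
        (w.bi (2 * v) (2 * v + 1) (m1 h) + w.bi (2 * v) (2 * v + 1) (m2 h)) *
          (w.rev (2 * v) (2 * v + 1)).vec (m1' v) (m2' v) t := by
    intro h hh t ht htv
    have htm := hA.sub t ht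
    obtain ⟨k1, k2, k3, k4⟩ := hA.mks h hh
    have hne : h ≠ v := fun e => hvord (e ▸ hh)
    obtain ⟨f1, f2⟩ := e1 h hne
    have g1 : m1 h ≠ 2 * t := fun e => k3 (by rw [e]; rwa [show 2 * t / 2 = t by omega])
    have g2 : m1 h ≠ 2 * t + 1 := fun e => k3 (by rw [e]; rwa [show (2 * t + 1) / 2 = t by omega])
    have g3 : m2 h ≠ 2 * t := fun e => k4 (by rw [e]; rwa [show 2 * t / 2 = t by omega])
    have g4 : m2 h ≠ 2 * t + 1 := fun e => k4 (by rw [e]; rwa [show (2 * t + 1) / 2 = t by omega])
    rw [hV t ht htv, f1, f2, Lay.vec_rev hA.good (by omega) (by omega) k1 k2 (by omega) g1 g2 g3 g4,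
      Lay.bc_chord hA.good (by omega) (by omega) htv, add_assoc, zmod2_two_mul, add_zero]
  refine ⟨hA.good.rev (by omega) (by omega), hA.symm, ?_, ?_, ?_, ?_, ?_, ?_, ?_, ?_⟩
  · intro t ht
    exact hA.sub t (Finset.mem_of_mem_erase ht)
  · rw [valid_append]
    exact ⟨hA.valid, hpv, trivial⟩
  · intro h hh
    rcases List.mem_append.1 hh with hh | hh
    · exact hA.ordlt h hh
    · rw [List.mem_singleton] at hh
      rw [hh]; exact hvm
  · intro h hh hS
    rcases List.mem_append.1 hh with hh | hh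
    · exact hA.disj h hh (Finset.mem_of_mem_erase hS)
    · rw [List.mem_singleton] at hh
      rw [hh] at hS
      exact Finset.notMem_erase v S hS
  · intro h hh
    by_cases hhv : h = v
    · subst hhv
      have h1 : 2 * h / 2 = h := by omega
      have h2 : (2 * h + 1) / 2 = h := by omega
      rcases e2 with ⟨a, b⟩ | ⟨a, b⟩
      · rw [a, b, h1, h2]
        exact ⟨by omega, by omega, Finset.notMem_erase h S, Finset.notMem_erase h S⟩
      · rw [a, b, h1, h2]
        exact ⟨by omega, by omega, Finset.notMem_erase h S, Finset.notMem_erase h S⟩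
    · have hh' : h ∈ ord := by
        rcases List.mem_append.1 hh with hh | hh
        · exact hh
        · rw [List.mem_singleton] at hh
          exact absurd hh hhv
      obtain ⟨k1, k2, k3, k4⟩ := hA.mks h hh'
      obtain ⟨f1, f2⟩ := e1 h hhv
      rw [f1, f2]
      exact ⟨k1, k2, fun e => k3 (Finset.mem_of_mem_erase e),
        fun e => k4 (Finset.mem_of_mem_erase e)⟩
  · intro t ht u hu
    rw [Finset.mem_erase] at ht hu
    have htm := hA.sub t ht.2
    have hum := hA.sub u hu.2
    rw [pivs_append, pivs_cons, pivs_nil,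
      Lay.mat_rev_chord hA.good (by omega) (by omega) (by omega) ht.1 hu.1]
    simp only [piv]
    rw [hA.mat t ht.2 u hu.2, hA.mat t ht.2 v hv, hA.mat v hv u hu.2]
  · intro t ht u
    rw [pivs_append, pivs_cons, pivs_nil]
    by_cases htv : t = v
    · rw [htv]
      exact piv_row_self hpv u
    · have hts : t ∉ S := fun h => ht (Finset.mem_erase.2 ⟨htv, h⟩)
      exact piv_zero_row (hA.rest t hts) u
  · intro pre h post heq
    rcases List.eq_nil_or_concat post with hp | ⟨post0, z, hp⟩
    · subst hp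
      have h1 : ord = pre ∧ v = h := by
        have := List.append_inj' heq rfl
        exact ⟨this.1, by simpa using this.2⟩
      obtain ⟨rfl, rfl⟩ := h1
      refine ⟨fun _ => 0, fun t ht => ?_⟩
      rw [Finset.mem_erase] at ht
      rw [hA.mat v hv t ht.2, hV t ht.2 ht.1]
      simp
    · subst hp
      have h1 : ord = pre ++ h :: post0 ∧ v = z := by
        have h2 : ord ++ [v] = (pre ++ h :: post0) ++ [z] := by
          rw [heq, List.concat_eq_append]
          simp
        have := List.append_inj' h2 rfl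
        exact ⟨this.1, by simpa using this.2⟩
      obtain ⟨hord, rfl⟩ := h1
      obtain ⟨c0, hc0⟩ := hA.tri pre h post0 hord
      set β : ℕ → ZMod 2 := fun h =>
        w.bi (2 * v) (2 * v + 1) (m1 h) + w.bi (2 * v) (2 * v + 1) (m2 h) with hβ
      have hpost : ∀ h' ∈ post0, h' ∈ ord := by
        intro h' hh'
        rw [hord]
        simp [hh']
      have hhord : h ∈ ord := by rw [hord]; simp
      refine ⟨fun h' => if h' = v then β h + (post0.map (fun h'' => c0 h'' * β h'')).sum
        else c0 h', fun t ht => ?_⟩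
      rw [Finset.mem_erase] at ht
      rw [hc0 t ht.2, hold h hhord t ht.2 ht.1]
      have e3 : (post0.map (fun h' => c0 h' * w.vec (m1 h') (m2 h') t)) =
          post0.map (fun h' => c0 h' * ((w.rev (2 * v) (2 * v + 1)).vec (m1' h') (m2' h') t +
            β h' * (w.rev (2 * v) (2 * v + 1)).vec (m1' v) (m2' v) t)) := by
        apply List.map_congr_left
        intro h' hh'
        rw [hold h' (hpost h' hh') t ht.2 ht.1]
      have e4 : (post0.map (fun h' => (if h' = v then β h +
          (post0.map (fun h'' => c0 h'' * β h'')).sum else c0 h') *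
          (w.rev (2 * v) (2 * v + 1)).vec (m1' h') (m2' h') t)) =
          post0.map (fun h' => c0 h' * (w.rev (2 * v) (2 * v + 1)).vec (m1' h') (m2' h') t) := by
        apply List.map_congr_left
        intro h' hh'
        have : h' ≠ v := fun e => hvord (e ▸ hpost h' hh')
        rw [if_neg this]
      rw [e3, t2a_sum, List.concat_eq_append, List.map_append, List.sum_append, e4]
      simp only [List.map_cons, List.map_nil, List.sum_cons, List.sum_nil, if_true]
      simp only [hβ]
      ring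

theorem alg_rot {m : ℕ} {A0 : ℕ → ℕ → ZMod 2} {w : Lay} {S : Finset ℕ} {ord : List ℕ}
    {m1 m2 : ℕ → ℕ} (hA : Alg m A0 w S ord m1 m2) {j : ℕ} (hj : j < 2 * m) :
    Alg m A0 (w.rot (2 * m) j) S ord m1 m2 := by
  refine ⟨hA.good.rot hj, hA.symm, hA.sub, hA.valid, hA.ordlt, hA.disj, hA.mks, ?_, hA.rest, ?_⟩
  · intro t ht u hu
    have htm := hA.sub t ht
    have hum := hA.sub u hu
    rw [Lay.mat_rot hA.good hj (by omega) (by omega)]
    exact hA.mat t ht u hu
  · intro pre h post heq
    obtain ⟨c, hc⟩ := hA.tri pre h post heq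
    refine ⟨c, fun t ht => ?_⟩
    have htm := hA.sub t ht
    have hv : ∀ h' ∈ ord, (w.rot (2 * m) j).vec (m1 h') (m2 h') t = w.vec (m1 h') (m2 h') t := by
      intro h' hh'
      obtain ⟨k1, k2, -, -⟩ := hA.mks h' hh'
      exact Lay.vec_rot hA.good hj k1 k2 (by omega)
    have e1 : (post.map (fun h' => c h' * (w.rot (2 * m) j).vec (m1 h') (m2 h') t)) =
        post.map (fun h' => c h' * w.vec (m1 h') (m2 h') t) := by
      apply List.map_congr_left
      intro h' hh'
      rw [hv h' (by rw [heq]; simp [hh'])]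
    rw [hc t ht, hv h (by rw [heq]; simp), e1]

theorem alg_kill {m : ℕ} {A0 : ℕ → ℕ → ZMod 2} {w : Lay} {S : Finset ℕ} {ord : List ℕ}
    {m1 m2 : ℕ → ℕ} (hA : Alg m A0 w S ord m1 m2) {x : ℕ} (hx : x ∈ S)
    (hz : ∀ u ∈ S, w.mat x u = 0) :
    Alg m A0 w (S.erase x) ord m1 m2 := by
  refine ⟨hA.good, hA.symm, fun t ht => hA.sub t (Finset.mem_of_mem_erase ht), hA.valid, hA.ordlt,
    fun h hh hS => hA.disj h hh (Finset.mem_of_mem_erase hS), ?_, ?_, ?_, ?_⟩
  · intro h hh
    obtain ⟨k1, k2, k3, k4⟩ := hA.mks h hh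
    exact ⟨k1, k2, fun e => k3 (Finset.mem_of_mem_erase e),
      fun e => k4 (Finset.mem_of_mem_erase e)⟩
  · intro t ht u hu
    exact hA.mat t (Finset.mem_of_mem_erase ht) u (Finset.mem_of_mem_erase hu)
  · intro t ht u
    by_cases htx : t = x
    · subst htx
      by_cases hu : u ∈ S
      · rw [hA.mat t hx u hu]
        exact hz u hu
      · rw [hA.symm.pivs ord t u]
        exact hA.rest u hu t
    · exact hA.rest t (fun h => ht (Finset.mem_erase.2 ⟨htx, h⟩)) u
  · intro pre h post heq
    obtain ⟨c, hc⟩ := hA.tri pre h post heq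
    exact ⟨c, fun t ht => hc t (Finset.mem_of_mem_erase ht)⟩

end SBR
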