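/-
SBR/T6b.lean : start of phase 2 for a component; components which no pivot touches.
-/
import Pool.Agent.SBR.T2a

namespace SBR

/-- rotations do not change the cyclic order -/
theorem t6b_cw_rot {w : Lay} {L : ℕ} (hg : w.Good L) {j a z b : ℕ} (hj : j < L) (ha : a < L)
    (hz : z < L) (hb : b < L) : (w.rot L j).Cw a z b ↔ w.Cw a z b := by
  have h1 := hg.lt j hj
  have h2 := hg.lt a ha
  have h3 := hg.lt z hz
  have h4 := hg.lt b hb
  simp only [Lay.Cw, Lay.rot]
  split_ifs <;> omega

theorem t6b_cons {m : ℕ} {K : Finset ℕ} (hK : ∀ t ∈ K, t < m) {tE : ℕ} (htE : tE ∈ K) {t u : ℕ}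
    (h : Cons (kap m tE) K t u) : CycCons K t u := by
  obtain ⟨ht, hu, h1, h2⟩ := h
  have b1 := hK t ht
  have b2 := hK u hu
  have b3 := hK tE htE
  by_cases hc : tE ≤ u ∨ t < tE
  · left
    refine ⟨ht, hu, ?_, ?_⟩
    · simp only [kap] at h1
      simp only [id]
      split_ifs at h1 <;> omega
    · intro v hv hv'
      apply h2 v hv
      have b4 := hK v hv
      simp only [id] at hv'
      simp only [kap] at h1 ⊢
      split_ifs at h1 ⊢ <;> omega
  · right
    refine ⟨ht, hu, ?_, ?_⟩
    · intro v hv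
      by_contra hv'
      apply h2 v hv
      have b4 := hK v hv
      simp only [kap] at h1 ⊢
      split_ifs at h1 ⊢ <;> omega
    · intro v hv
      by_contra hv'
      apply h2 v hv
      have b4 := hK v hv
      simp only [kap] at h1 ⊢
      split_ifs at h1 ⊢ <;> omega

theorem t6b_last {m : ℕ} {K : Finset ℕ} (hK : ∀ t ∈ K, t < m) {tE : ℕ} (htE : tE ∈ K) {t : ℕ}
    (ht : t ∈ K) (h : ∀ v ∈ K, kap m tE v ≤ kap m tE t) : CycCons K t tE := by
  have b1 := hK t ht
  have b3 := hK tE htE
  by_cases hc : t < tE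
  · left
    refine ⟨ht, htE, hc, ?_⟩
    intro v hv hv'
    have b4 := hK v hv
    have h5 := h v hv
    simp only [id] at hv'
    simp only [kap] at h5
    split_ifs at h5 <;> omega
  · right
    refine ⟨ht, htE, ?_, ?_⟩
    · intro v hv
      have b4 := hK v hv
      have h5 := h v hv
      simp only [kap] at h5
      split_ifs at h5 <;> omega
    · intro v hv
      have b4 := hK v hv
      have h5 := h v hv
      simp only [kap] at h5
      split_ifs at h5 <;> omega

theorem t6b_cn_mem {w : Lay} {X : Finset ℕ} {a b : ℕ} (ha : a ∈ X) (h : Cn w X a b) : b ∈ X := by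
  induction h with
  | refl => exact ha
  | tail _ h _ => exact h.2.1

/-- start of phase 2 for a component -/
theorem pend_start {m : ℕ} {A0 : ℕ → ℕ → ZMod 2} {w : Lay} {S : Finset ℕ} {ord : List ℕ}
    {m1 m2 : ℕ → ℕ} (hA : Alg m A0 w S ord m1 m2) {K : Finset ℕ} {g tE : ℕ}
    (hK : Pend w S ord m1 m2 K g tE) :
    Ph2 m A0 (w.rot (2 * m) (m1 g)) S ord m1 m2 K (kap m tE) [g] := by
  obtain ⟨hj, hj2, hjS, -⟩ := hA.mks g hK.gord
  have hg := hA.good
  have hg' := hg.rot hj
  have hKm : ∀ t ∈ K, t < m := fun t ht => hA.sub t (hK.KS ht)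
  have hmat : ∀ t ∈ K, ∀ u ∈ S, (w.rot (2 * m) (m1 g)).mat t u = w.mat t u := fun t ht u hu =>
    Lay.mat_rot hg hj (by have := hKm t ht; omega) (by have := hA.sub u hu; omega)
  have hp0 : (w.rot (2 * m) (m1 g)).pos (m1 g) = 0 := Lay.rot_pos_self _
  -- positions of the nodes of `K` are positive
  have hpos : ∀ x, x / 2 ∈ K → 0 < (w.rot (2 * m) (m1 g)).pos x := by
    intro x hx
    have hxm := hKm _ hx
    rcases Nat.eq_zero_or_pos ((w.rot (2 * m) (m1 g)).pos x) with h | h
    · exfalso
      have := hg'.inj x (m1 g) (by omega) hj (by rw [h, hp0])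
      subst this
      exact hjS (hK.KS hx)
    · exact h
  have hfst : ∀ x, x / 2 ∈ K → (w.rot (2 * m) (m1 g)).pos (2 * tE) ≤
      (w.rot (2 * m) (m1 g)).pos x := by
    intro x hx
    have hxm := hKm _ hx
    have htm := hKm _ hK.tEK
    have h1 : ¬ (w.rot (2 * m) (m1 g)).Cw (m1 g) x (2 * tE) := by
      rw [t6b_cw_rot hg hj hj (by omega) (by omega)]
      rcases Nat.mod_two_eq_zero_or_one x with h | h
      · have h2 := (hK.jun _ hx).1
        rwa [show 2 * (x / 2) = x by omega] at h2
      · have h2 := (hK.jun _ hx).2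
        rwa [show 2 * (x / 2) + 1 = x by omega] at h2
    have h3 := hpos x hx
    by_contra h4
    apply h1
    left
    omega
  have hcirc : ∀ t u, CycCons K t u → t ∈ K → u ∈ K → ∀ x, x / 2 ∈ K →
      ¬ (w.rot (2 * m) (m1 g)).Cw (2 * t + 1) x (2 * u) := by
    intro t u h ht hu x hx
    have b1 := hKm t ht
    have b2 := hKm u hu
    have b3 := hKm _ hx
    rw [t6b_cw_rot hg hj (by omega) (by omega) (by omega)]
    rcases Nat.mod_two_eq_zero_or_one x with h' | h'
    · have h2 := (hK.circ t u h _ hx).1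
      rwa [show 2 * (x / 2) = x by omega] at h2
    · have h2 := (hK.circ t u h _ hx).2
      rwa [show 2 * (x / 2) + 1 = x by omega] at h2
  have hrvc : ∀ u ∈ K, (w.rot (2 * m) (m1 g)).rvc (m1 g) u = 0 := by
    intro u hu
    have h1 := hpos (2 * u) (by rw [show 2 * u / 2 = u by omega]; exact hu)
    have h2 := hpos (2 * u + 1) (by rw [show (2 * u + 1) / 2 = u by omega]; exact hu)
    simp only [Lay.rvc, Lay.l, hp0]
    rw [if_pos h1, if_pos h2]
    decide
  have hord : ∀ t u, Cons (kap m tE) K t u →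
      (w.rot (2 * m) (m1 g)).pos (2 * t + 1) < (w.rot (2 * m) (m1 g)).pos (2 * u) := by
    intro t u h
    have hc := t6b_cons hKm hK.tEK h
    obtain ⟨ht, hu, h1, h2⟩ := h
    have b1 := hKm t ht
    have b2 := hKm u hu
    have b3 := hKm _ hK.tEK
    have hne : (w.rot (2 * m) (m1 g)).pos (2 * t + 1) ≠ (w.rot (2 * m) (m1 g)).pos (2 * u) := by
      intro e
      have := hg'.inj _ _ (by omega) (by omega) e
      omega
    have hutE : u ≠ tE := by
      rintro rfl
      simp only [kap] at h1
      split_ifs at h1 <;> omega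
    have hne2 : (w.rot (2 * m) (m1 g)).pos (2 * tE) ≠ (w.rot (2 * m) (m1 g)).pos (2 * u) := by
      intro e
      have := hg'.inj _ _ (by omega) (by omega) e
      omega
    have h3 := hfst (2 * u) (by rw [show 2 * u / 2 = u by omega]; exact hu)
    have h4 := hcirc t u hc ht hu (2 * tE) (by rw [show 2 * tE / 2 = tE by omega]; exact hK.tEK)
    by_contra h5
    apply h4
    right; left
    omega
  refine ⟨alg_rot hA hj, hK.KS, ?_, ?_, ⟨?_, ?_, ?_, ?_, ?_, ?_, ?_⟩, ?_, ?_, ?_, ?_, ?_⟩
  · intro t ht u hu huK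
    rw [hmat t ht u hu]
    exact hK.clo t ht u hu huK
  · exact hK.apos
  · intro t ht u hu h
    have b1 := hKm t ht
    have b2 := hKm u hu
    have b3 := hKm _ hK.tEK
    simp only [kap] at h
    split_ifs at h <;> omega
  · intro t u h
    exact ((hK.apos t h.1).2).trans (hK.apos u h.2.1).1.symm
  · intro t u h _
    exact hord t u h
  · intro t u h hs
    have := (hK.apos u h.2.1).1
    exact absurd (this.symm.trans hs) (by decide)
  · intro t u h v hv
    have h1 := hord t u h
    have hc := t6b_cons hKm hK.tEK h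
    have h2 := hcirc t u hc h.1 h.2.1 (2 * v) (by rw [show 2 * v / 2 = v by omega]; exact hv)
    have h3 := hcirc t u hc h.1 h.2.1 (2 * v + 1)
      (by rw [show (2 * v + 1) / 2 = v by omega]; exact hv)
    simp only [Lay.Cw] at h2 h3
    simp only [Lay.Btw]
    omega
  · intro t ht h
    have b1 := hKm t ht
    have b3 := hKm _ hK.tEK
    have e : t = tE := by
      have := h tE hK.tEK
      simp only [kap] at this
      split_ifs at this <;> omega
    subst e
    refine ⟨(hK.apos t ht).1, fun v hv => ⟨hfst _ ?_, hfst _ ?_⟩⟩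
    · rw [show 2 * v / 2 = v by omega]; exact hv
    · rw [show (2 * v + 1) / 2 = v by omega]; exact hv
  · intro t ht h
    have hc := t6b_last hKm hK.tEK ht h
    have b1 := hKm t ht
    have b3 := hKm _ hK.tEK
    have h0 := hfst (2 * t + 1) (by rw [show (2 * t + 1) / 2 = t by omega]; exact ht)
    have hne : (w.rot (2 * m) (m1 g)).pos (2 * tE) ≠ (w.rot (2 * m) (m1 g)).pos (2 * t + 1) := by
      intro e
      have := hg'.inj _ _ (by omega) (by omega) e
      omega
    refine ⟨(hK.apos t ht).2, fun v hv => ?_⟩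
    have h2 := hcirc t tE hc ht hK.tEK (2 * v) (by rw [show 2 * v / 2 = v by omega]; exact hv)
    have h3 := hcirc t tE hc ht hK.tEK (2 * v + 1)
      (by rw [show (2 * v + 1) / 2 = v by omega]; exact hv)
    simp only [Lay.Cw] at h2 h3
    omega
  · intro h hh
    simp only [List.mem_singleton] at hh
    rw [hh]; exact hK.gord
  · simp
  · intro up h dn he pre post ho h' hh'
    right
    have hg2 : h = g := by
      rcases up with _ | ⟨a, up⟩
      · simp only [List.nil_append, List.cons.injEq] at he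
        exact he.1.symm
      · simp at he
    subst hg2
    intro t ht
    have b1 := hKm t ht
    have hm := hA.mks h' (by rw [ho]; simp [hh'])
    rw [Lay.vec_rot hg hj hm.1 hm.2.1 (by omega)]
    exact hK.late pre post ho h' hh' t ht
  · intro up h dn he t ht _
    left
    have hg2 : h = g := by
      rcases up with _ | ⟨a, up⟩
      · simp only [List.nil_append, List.cons.injEq] at he
        exact he.1.symm
      · simp at he
    subst hg2
    rintro ⟨u, hu, hu'⟩
    exact hu' (hrvc u (t6b_cn_mem ht hu))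
  · intro t ht _
    obtain ⟨t0, ht0, h0⟩ := hK.tch
    refine ⟨g, by simp, Or.inr ⟨t0, ?_, ?_⟩⟩
    · have hcn : ∀ b, Cn w K t b → Cn (w.rot (2 * m) (m1 g)) K t b := by
        intro b hb
        induction hb with
        | refl => exact Relation.ReflTransGen.refl
        | tail _ h ih =>
          obtain ⟨ha, hb, hab, hm⟩ := h
          exact ih.tail ⟨ha, hb, hab, by rw [hmat _ ha _ (hK.KS hb)]; exact hm⟩
      exact hcn t0 (hK.con t ht t0 ht0)
    · have b1 := hKm t0 ht0
      rw [← Lay.vec_rot hg hj hj hj2 (show 2 * t0 + 1 < 2 * m by omega), Lay.vec_eq_rvc,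
        hrvc t0 ht0, zero_add] at h0
      exact h0

theorem t6b_pivs {A : ℕ → ℕ → ZMod 2} (hs : Symm A) {t : ℕ} {l : List ℕ}
    (h : ∀ pre v post, l = pre ++ v :: post → pivs A pre v t = 0) (u : ℕ) :
    pivs A l t u = A t u := by
  induction l generalizing A with
  | nil => rfl
  | cons v l ih =>
    have h0 := h [] v l rfl
    rw [pivs_nil] at h0
    rw [pivs_cons, ih (hs.piv v)]
    · simp only [piv]
      rw [hs t v, h0]; ring
    · intro pre v' post he
      have := h (v :: pre) v' post (by rw [he]; rfl)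
      exact this

/-- a component which no pivot touches consists of zero rows, or was unoriented at the beginning -/
theorem untouched_comp {m : ℕ} {A0 : ℕ → ℕ → ZMod 2} {w : Lay} {S : Finset ℕ} {ord : List ℕ}
    {m1 m2 : ℕ → ℕ} (hA : Alg m A0 w S ord m1 m2) (hpos : AllPos w S)
    {K : Finset ℕ} (hKS : K ⊆ S) (hclo : ∀ t ∈ K, ∀ u ∈ S, u ∉ K → w.mat t u = 0)
    (hno : ∀ h ∈ ord, ∀ t ∈ K, w.vec (m1 h) (m2 h) t = 0) :
    (∀ t ∈ K, ∀ u ∈ K, A0 t u = w.mat t u) ∧ (∀ t ∈ K, ∀ u, u ∉ K → A0 t u = 0) := by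
  have key : ∀ t ∈ K, ∀ u, A0 t u = pivs A0 ord t u := by
    intro t ht u
    refine (t6b_pivs hA.symm ?_ u).symm
    intro pre v post he
    obtain ⟨c, hc⟩ := hA.tri pre v post he
    rw [hc t (hKS ht), hno v (by rw [he]; simp) t ht, zero_add]
    apply List.sum_eq_zero
    intro x hx
    rw [List.mem_map] at hx
    obtain ⟨h', hh', rfl⟩ := hx
    rw [hno h' (by rw [he]; simp [hh']) t ht, mul_zero]
  refine ⟨fun t ht u hu => ?_, fun t ht u hu => ?_⟩
  · rw [key t ht u]
    exact hA.mat t (hKS ht) u (hKS hu)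
  · rw [key t ht u]
    by_cases huS : u ∈ S
    · rw [hA.mat t (hKS ht) u huS]
      exact hclo t ht u huS hu
    · rw [hA.symm.pivs ord t u]
      exact hA.rest u huS t

end SBR
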