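/-
SBR/T6c.lean : cyclic structure of a component after phase 1 (`pend_init`).
-/
import Pool.Agent.SBR.State

namespace SBR

/-- `Cw` for numbers -/
private def CwN (a z b : ℕ) : Prop :=
  (a < z ∧ z < b) ∨ (z < b ∧ b < a) ∨ (b < a ∧ a < z)

/-- `Btw` for numbers -/
private def BtN (a b x : ℕ) : Prop := (a < x ∧ x < b) ∨ (b < x ∧ x < a)

private theorem cw_iff (w : Lay) (a z b : ℕ) : w.Cw a z b ↔ CwN (w.pos a) (w.pos z) (w.pos b) :=
  Iff.rfl

private theorem bt_iff (w : Lay) (a b x : ℕ) : w.Btw a b x ↔ BtN (w.pos a) (w.pos b) (w.pos x) :=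
  Iff.rfl

/-- step of the forward induction, numbers -/
private theorem step_num1 {a z x y c : ℕ} (hax : a ≠ x) (hay : a ≠ y) (hzx : z ≠ x) (hzy : z ≠ y)
    (h1 : CwN a z c) (h2 : ¬ CwN y z c) (h3 : ¬ CwN a z x) (h4 : BtN x y a ↔ BtN x y z) : False := by
  unfold CwN at h1 h2 h3
  unfold BtN at h4
  omega

/-- step of the backward induction, numbers -/
private theorem step_num2 {b z x y : ℕ} (hbx : b ≠ x) (hby : b ≠ y) (hzx : z ≠ x) (hzy : z ≠ y)
    (h1 : CwN y z b) (h3 : ¬ CwN x z b) (h4 : BtN x y b ↔ BtN x y z) : False := by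
  unfold CwN at h1 h3
  unfold BtN at h4
  omega

private theorem cw_num3 {y b c : ℕ} (h1 : ¬ CwN y b c) (h2 : b ≠ y) (h3 : b ≠ c) (h4 : y ≠ c) :
    CwN y c b := by
  unfold CwN at *
  omega

private theorem cw_num4 {y c z b : ℕ} (h1 : CwN y c b) (h2 : CwN c z b) : CwN y z b := by
  unfold CwN at *
  omega

/-! ### cyclic induction -/

/-- the predecessor in a finite set -/
private theorem exists_pred {S : Finset ℕ} {s t : ℕ} (hs : s ∈ S) (ht : t ∈ S) (hts : t < s) :
    ∃ p, Cons id S p s ∧ t ≤ p := by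
  have hne : (S.filter (· < s)).Nonempty := ⟨t, by simp [ht, hts]⟩
  have h1 := Finset.max'_mem _ hne
  simp only [Finset.mem_filter] at h1
  refine ⟨(S.filter (· < s)).max' hne, ⟨h1.1, hs, h1.2, fun v hv h => ?_⟩,
    Finset.le_max' _ _ (by simp [ht, hts])⟩
  have h2 := Finset.le_max' (S.filter (· < s)) v (by simp only [Finset.mem_filter]; exact ⟨hv, h.2⟩)
  simp only [id] at h
  omega

/-- everything from `s₀` upwards -/
private theorem up_all {S : Finset ℕ} {R : ℕ → Prop} {s₀ : ℕ} (h0 : s₀ ∈ S) (hR : R s₀)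
    (h : ∀ s s', CycCons S s s' → R s → R s') : ∀ s ∈ S, s₀ ≤ s → R s := by
  intro s
  induction s using Nat.strong_induction_on with
  | _ s ih =>
    intro hs hle
    rcases hle.eq_or_lt with rfl | hlt
    · exact hR
    · obtain ⟨p, hp, hle'⟩ := exists_pred hs h0 hlt
      exact h p s (Or.inl hp) (ih p hp.2.2.1 hp.1 hle')

private theorem cyc_all {S : Finset ℕ} {R : ℕ → Prop} {s₀ : ℕ} (h0 : s₀ ∈ S) (hR : R s₀)
    (h : ∀ s s', CycCons S s s' → R s → R s') : ∀ s ∈ S, R s := by
  have hne : S.Nonempty := ⟨s₀, h0⟩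
  have h1 : R (S.max' hne) := up_all h0 hR h _ (Finset.max'_mem _ _) (Finset.le_max' _ _ h0)
  have h2 : R (S.min' hne) := h _ _ (Or.inr ⟨Finset.max'_mem _ _, Finset.min'_mem _ _,
    fun v hv => Finset.le_max' _ _ hv, fun v hv => Finset.min'_le _ _ hv⟩) h1
  exact fun s hs => up_all (Finset.min'_mem _ _) h2 h s hs (Finset.min'_le _ _ hs)

/-- from `t ∈ K` to its cyclic successor in `K` -/
private theorem cyc_ind {S K : Finset ℕ} (hKS : K ⊆ S) {P : ℕ → Prop} {t u : ℕ}
    (hc : CycCons K t u) (hb : ∀ s, CycCons S t s → P s)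
    (h : ∀ s s', CycCons S s s' → s ∉ K → P s → P s') : P u := by
  -- everything from `t` upwards, before the next element of `K`
  have up1 : ∀ s, s ∈ S → t < s → t ∈ K → (∀ v ∈ K, ¬ (t < v ∧ v < s)) → P s := by
    intro s
    induction s using Nat.strong_induction_on with
    | _ s ih =>
      intro hs hlt htK hno
      obtain ⟨p, hp, hle⟩ := exists_pred hs (hKS htK) hlt
      have hps : p < s := hp.2.2.1
      rcases hle.eq_or_lt with rfl | hlt'
      · exact hb s (Or.inl hp)
      · exact h p s (Or.inl hp) (fun hpK => hno p hpK ⟨hlt', hps⟩)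
          (ih p hps hp.1 hlt' htK fun v hv hv' => hno v hv ⟨hv'.1, hv'.2.trans hps⟩)
  rcases hc with ⟨htK, huK, hlt, hno⟩ | ⟨htK, huK, hmax, hmin⟩
  · exact up1 u (hKS huK) hlt htK fun v hv hv' => hno v hv hv'
  · have hne : S.Nonempty := ⟨t, hKS htK⟩
    have hcM : CycCons S (S.max' hne) (S.min' hne) := Or.inr ⟨Finset.max'_mem _ _,
      Finset.min'_mem _ _, fun v hv => Finset.le_max' _ _ hv, fun v hv => Finset.min'_le _ _ hv⟩
    have hPmin : P (S.min' hne) := by
      have hle : t ≤ S.max' hne := Finset.le_max' _ _ (hKS htK)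
      rcases hle.eq_or_lt with heq | hlt
      · rw [← heq] at hcM
        exact hb _ hcM
      · refine h _ _ hcM (fun hK => absurd (hmax _ hK) (by omega))
          (up1 _ (Finset.max'_mem _ _) hlt htK fun v hv hv' => absurd (hmax v hv) (by omega))
    have up2 : ∀ s, s ∈ S → s ≤ u → P s := by
      intro s
      induction s using Nat.strong_induction_on with
      | _ s ih =>
        intro hs hle
        have hle' : S.min' hne ≤ s := Finset.min'_le _ _ hs
        rcases hle'.eq_or_lt with heq | hlt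
        · rw [← heq]
          exact hPmin
        · obtain ⟨p, hp, -⟩ := exists_pred hs (Finset.min'_mem S hne) hlt
          have hps : p < s := hp.2.2.1
          exact h p s (Or.inl hp) (fun hpK => absurd (hmin p hpK) (by omega))
            (ih p hps hp.1 (by omega))
    exact up2 u (hKS huK) le_rfl

/-! ### blocks and sides -/

private theorem node_cases (z : ℕ) : z = 2 * (z / 2) ∨ z = 2 * (z / 2) + 1 := by omega

/-- no node of `S` on the clockwise arc from `2s+1` to the plus end of the next chord -/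
private theorem block_cw {w : Lay} {S : Finset ℕ} (hM : Mates w id S) (hpos : AllPos w S)
    {s s' : ℕ} (h : CycCons S s s') {z : ℕ} (hz : z / 2 ∈ S) :
    ¬ w.Cw (2 * s + 1) z (2 * s') := by
  rcases h with h | ⟨h1, h2, h3, h4⟩
  · have e1 := hM.ordt s s' h (hpos s' h.2.1).1
    have e2 := hM.adj s s' h (z / 2) hz
    have e3 : ¬ w.Btw (2 * s + 1) (2 * s') z := by
      rcases node_cases z with hz' | hz' <;> rw [hz']
      · exact e2.1
      · exact e2.2
    unfold Lay.Cw
    unfold Lay.Btw at e3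
    omega
  · have e1 := (hM.last s h1 h3).2 (z / 2) hz
    have e2 := (hM.first s' h2 h4).2 (z / 2) hz
    have e3 : w.pos z ≤ w.pos (2 * s + 1) := by
      rcases node_cases z with hz' | hz' <;> rw [hz']
      · exact e1.1
      · exact e1.2
    have e4 : w.pos (2 * s') ≤ w.pos z := by
      rcases node_cases z with hz' | hz' <;> rw [hz']
      · exact e2.1
      · exact e2.2
    unfold Lay.Cw
    omega

private theorem bi_iff {w : Lay} {a b x y : ℕ} (h : w.bi a b x + w.bi a b y = 0) :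
    w.Btw a b x ↔ w.Btw a b y := by
  unfold Lay.bi at h
  by_cases h1 : w.Btw a b x <;> by_cases h2 : w.Btw a b y <;> simp_all

/-- interleaving chords are on the same side of every chord which crosses neither of them -/
private theorem adj_side {w : Lay} {v t u : ℕ} (htu : t ≠ u) (hm : w.mat t u ≠ 0)
    (h1 : w.Btw (2 * v) (2 * v + 1) (2 * t) ↔ w.Btw (2 * v) (2 * v + 1) (2 * t + 1))
    (h2 : w.Btw (2 * v) (2 * v + 1) (2 * u) ↔ w.Btw (2 * v) (2 * v + 1) (2 * u + 1)) :
    w.Btw (2 * v) (2 * v + 1) (2 * t) ↔ w.Btw (2 * v) (2 * v + 1) (2 * u) := by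
  by_contra hcon
  apply hm
  simp only [Lay.mat, if_neg htu, Lay.cr, Lay.l]
  unfold Lay.Btw at h1 h2 hcon
  split_ifs
  all_goals first | rfl | decide | (exfalso; omega)

/-- a chord outside `K` has all nodes of `K` on one side -/
private theorem side {w : Lay} {L : ℕ} (hg : w.Good L) {S K : Finset ℕ}
    (hS : ∀ t ∈ S, 2 * t + 1 < L) (hKS : K ⊆ S)
    (hclo : ∀ t ∈ K, ∀ u ∈ S, u ∉ K → w.mat t u = 0) (hcon : ∀ t ∈ K, ∀ u ∈ K, Cn w K t u)
    {v : ℕ} (hv : v ∈ S) (hvK : v ∉ K) {y z : ℕ} (hy : y / 2 ∈ K) (hz : z / 2 ∈ K) :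
    w.Btw (2 * v) (2 * v + 1) y ↔ w.Btw (2 * v) (2 * v + 1) z := by
  have pair : ∀ t ∈ K, w.Btw (2 * v) (2 * v + 1) (2 * t) ↔
      w.Btw (2 * v) (2 * v + 1) (2 * t + 1) := by
    intro t ht
    apply bi_iff
    have h1 := Lay.bc_chord hg (hS v hv) (hS t (hKS ht)) (fun h => hvK (h ▸ ht))
    rw [Lay.mat_comm hg (hS t (hKS ht)) (hS v hv), hclo t ht v hv hvK] at h1
    exact h1
  have conn : ∀ t u, Cn w K t u → (w.Btw (2 * v) (2 * v + 1) (2 * t) ↔
      w.Btw (2 * v) (2 * v + 1) (2 * u)) := by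
    intro t u h
    induction h with
    | refl => exact Iff.rfl
    | tail _ hadj ih =>
      obtain ⟨h1, h2, h3, h4⟩ := hadj
      exact ih.trans (adj_side h3 h4 (pair _ h1) (pair _ h2))
  have main : ∀ y, y / 2 ∈ K → (w.Btw (2 * v) (2 * v + 1) y ↔
      w.Btw (2 * v) (2 * v + 1) (2 * (y / 2))) := by
    intro y hy
    rcases node_cases y with h | h
    · rw [← h]
    · rw [pair _ hy, ← h]
  rw [main y hy, main z hz]
  exact conn _ _ (hcon _ hy _ hz)

/-- the first node of `K` clockwise from `j` -/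
private theorem exists_next {w : Lay} {L : ℕ} (hg : w.Good L) {K : Finset ℕ}
    (hK : ∀ t ∈ K, 2 * t + 1 < L) (hne : K.Nonempty) {j : ℕ} (hj : j < L) (hjK : j / 2 ∉ K) :
    ∃ b, b / 2 ∈ K ∧ ∀ z, z / 2 ∈ K → ¬ w.Cw j z b := by
  classical
  let N : Finset ℕ := (Finset.range L).filter fun z => z / 2 ∈ K
  have hN : N.Nonempty := by
    obtain ⟨t, ht⟩ := hne
    refine ⟨2 * t, ?_⟩
    have := hK t ht
    simp only [N, Finset.mem_filter, Finset.mem_range]
    exact ⟨by omega, by rw [Nat.mul_div_cancel_left _ (by norm_num)]; exact ht⟩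
  obtain ⟨b, hb, hmin⟩ := Finset.exists_min_image N
    (fun z => if w.pos j < w.pos z then w.pos z - w.pos j else w.pos z + L - w.pos j) hN
  simp only [N, Finset.mem_filter, Finset.mem_range] at hb hmin
  refine ⟨b, hb.2, fun z hz hcw => ?_⟩
  have hzL : z < L := by
    have := hK _ hz
    omega
  have h1 := hmin z ⟨hzL, hz⟩
  have h2 := hg.lt j hj
  have h3 := hg.lt b hb.1
  have h4 := hg.lt z hzL
  have h5 : w.pos j ≠ w.pos z := fun h => hjK (by rw [hg.inj j z hj hzL h]; exact hz)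
  have h6 : w.pos j ≠ w.pos b := fun h => hjK (by rw [hg.inj j b hj hb.1 h]; exact hb.2)
  unfold Lay.Cw at hcw
  split_ifs at h1 <;> omega

/-- the next node of `S` after a junction is a plus end -/
private theorem junction_next {w : Lay} {S : Finset ℕ} (hM : Mates w id S) (hpos : AllPos w S)
    (hne : S.Nonempty) {j : ℕ} (hJ : Jn w S j) :
    ∃ s ∈ S, ∀ z, z / 2 ∈ S → ¬ w.Cw j z (2 * s) := by
  rcases hJ with h | h | ⟨t, u, hc, hb⟩
  · refine ⟨S.min' hne, Finset.min'_mem _ _, fun z hz => ?_⟩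
    have e1 := (hM.first _ (Finset.min'_mem S hne) fun v hv => Finset.min'_le _ _ hv).2 (z / 2) hz
    have e2 := h (z / 2) hz
    have e3 := h _ (Finset.min'_mem S hne)
    unfold Lay.Cw
    rcases node_cases z with hz' | hz' <;> rw [hz'] <;> omega
  · refine ⟨S.min' hne, Finset.min'_mem _ _, fun z hz => ?_⟩
    have e1 := (hM.first _ (Finset.min'_mem S hne) fun v hv => Finset.min'_le _ _ hv).2 (z / 2) hz
    have e2 := h (z / 2) hz
    have e3 := h _ (Finset.min'_mem S hne)
    unfold Lay.Cw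
    rcases node_cases z with hz' | hz' <;> rw [hz'] <;> omega
  · refine ⟨u, hc.2.1, fun z hz => ?_⟩
    have e1 := hM.ordt t u hc (hpos u hc.2.1).1
    have e2 := hM.adj t u hc (z / 2) hz
    unfold Lay.Cw
    unfold Lay.Btw at hb e2
    rcases node_cases z with hz' | hz' <;> rw [hz'] <;> omega

/-- after phase 1: a component becomes a waiting component -/
theorem pend_init {m : ℕ} {A0 : ℕ → ℕ → ZMod 2} {w : Lay} {S : Finset ℕ} {ord : List ℕ}
    {m1 m2 : ℕ → ℕ} (hA : Alg m A0 w S ord m1 m2) (hM : Mates w id S) (hpos : AllPos w S)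
    {K : Finset ℕ} (hKS : K ⊆ S) (hclo : ∀ t ∈ K, ∀ u ∈ S, u ∉ K → w.mat t u = 0)
    (hcon : ∀ t ∈ K, ∀ u ∈ K, Cn w K t u) {g tE : ℕ} (hJ : Jn w S (m1 g)) (htE : tE ∈ K)
    (hmin : ∀ v ∈ K, ¬ w.Cw (m1 g) (2 * v) (2 * tE)) (hg : g ∈ ord)
    (hlate : ∀ pre post, ord = pre ++ g :: post → ∀ h ∈ post, ∀ t ∈ K,
      w.vec (m1 h) (m2 h) t = 0)
    (htch : ∃ t ∈ K, w.vec (m1 g) (m2 g) t ≠ 0) : Pend w S ord m1 m2 K g tE := by
  have hgood := hA.good
  have hS : ∀ t ∈ S, 2 * t + 1 < 2 * m := fun t ht => by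
    have := hA.sub t ht
    omega
  obtain ⟨hj, -, hjS, -⟩ := hA.mks g hg
  have hd1 : ∀ t : ℕ, 2 * t / 2 = t := fun t => by omega
  have hd2 : ∀ t : ℕ, (2 * t + 1) / 2 = t := fun t => by omega
  -- distinct nodes have distinct positions
  have hne : ∀ x y, x / 2 ∈ S → y / 2 ∈ S → x ≠ y → w.pos x ≠ w.pos y := by
    intro x y hx hy hxy h
    have h1 := hS _ hx
    have h2 := hS _ hy
    exact hxy (hgood.inj x y (by omega) (by omega) h)
  have hdiff : ∀ s, s ∈ S → s ∉ K → ∀ z, z / 2 ∈ K →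
      w.pos z ≠ w.pos (2 * s) ∧ w.pos z ≠ w.pos (2 * s + 1) := by
    intro s hs hsK z hz
    refine ⟨hne _ _ (hKS hz) (by rw [hd1]; exact hs) ?_, hne _ _ (hKS hz) (by rw [hd2]; exact hs) ?_⟩
    · rintro rfl
      rw [hd1] at hz
      exact hsK hz
    · rintro rfl
      rw [hd2] at hz
      exact hsK hz
  have hcirc : ∀ t u, CycCons K t u → ∀ z, z / 2 ∈ K → ¬ w.Cw (2 * t + 1) z (2 * u) := by
    intro t u htu
    have htK : t ∈ K := by
      rcases htu with h | h
      · exact h.1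
      · exact h.1
    refine cyc_ind (S := S) (P := fun s => ∀ z, z / 2 ∈ K → ¬ w.Cw (2 * t + 1) z (2 * s)) hKS htu
      (fun s hs z hz => block_cw hM hpos hs (hKS hz)) ?_
    intro s s' hss' hsK hP z hz hcw
    have hs : s ∈ S := by
      rcases hss' with h | h
      · exact h.1
      · exact h.1
    have ha : (2 * t + 1) / 2 ∈ K := by rw [hd2]; exact htK
    obtain ⟨e1, e2⟩ := hdiff s hs hsK _ ha
    obtain ⟨e3, e4⟩ := hdiff s hs hsK z hz
    exact step_num1 e1 e2 e3 e4 hcw (block_cw hM hpos hss' (hKS hz)) (hP z hz)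
      (side hgood hS hKS hclo hcon hs hsK ha hz)
  have hjun : ∀ z, z / 2 ∈ K → ¬ w.Cw (m1 g) z (2 * tE) := by
    have hjK : m1 g / 2 ∉ K := fun h => hjS (hKS h)
    obtain ⟨b, hbK, hb⟩ := exists_next hgood (fun t ht => hS t (hKS ht)) ⟨tE, htE⟩ hj hjK
    have hjb : w.pos (m1 g) ≠ w.pos b := by
      intro h
      have h1 := hS _ (hKS hbK)
      rw [hgood.inj _ b hj (by omega) h] at hjK
      exact hjK hbK
    rcases node_cases b with hbe | hbo
    · -- the next node of `K` is a plus end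
      by_cases hbt : b = 2 * tE
      · rw [← hbt]
        exact hb
      · exfalso
        have h1 : w.pos b ≠ w.pos (2 * tE) := hne _ _ (hKS hbK) (by rw [hd1]; exact hKS htE) hbt
        have h2 : w.pos (m1 g) ≠ w.pos (2 * tE) := by
          intro h
          have h1 := hS _ (hKS htE)
          rw [hgood.inj _ (2 * tE) hj (by omega) h, hd1] at hjK
          exact hjK htE
        have h3 := hb (2 * tE) (by rw [hd1]; exact htE)
        have h4 := hmin (b / 2) hbK
        rw [← hbe] at h4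
        exact h4 (cw_num3 h3 (Ne.symm h2) (Ne.symm h1) hjb)
    · -- the next node of `K` is a minus end: impossible
      exfalso
      obtain ⟨s₀, hs₀, hj₀⟩ := junction_next hM hpos ⟨tE, hKS htE⟩ hJ
      have hpar : ∀ s, s ∈ S → w.pos b ≠ w.pos (2 * s) := fun s hs =>
        hne _ _ (hKS hbK) (by rw [hd1]; exact hs) (by omega)
      have hjs₀ : w.pos (m1 g) ≠ w.pos (2 * s₀) := by
        intro h
        have h1 := hS _ hs₀
        rw [hgood.inj _ (2 * s₀) hj (by omega) h, hd1] at hjS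
        exact hjS hs₀
      have hcw0 : w.Cw (m1 g) (2 * s₀) b :=
        cw_num3 (hj₀ b (hKS hbK)) (Ne.symm hjb) (hpar s₀ hs₀) hjs₀
      have hall : ∀ s ∈ S, s ∉ K ∧ ∀ z, z / 2 ∈ K → ¬ w.Cw (2 * s) z b := by
        refine cyc_all hs₀ ⟨fun h => hb _ (by rw [hd1]; exact h) hcw0, fun z hz hcw =>
          hb z hz (cw_num4 hcw0 hcw)⟩ ?_
        rintro s s' hss' ⟨hsK, hR⟩
        have hs : s ∈ S := by
          rcases hss' with h | h
          · exact h.1
          · exact h.1
        have hs' : s' ∈ S := by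
          rcases hss' with h | h
          · exact h.2.1
          · exact h.2.1
        obtain ⟨e1, e2⟩ := hdiff s hs hsK b hbK
        have hy : w.pos (2 * s + 1) ≠ w.pos (2 * s') :=
          hne _ _ (by rw [hd2]; exact hs) (by rw [hd1]; exact hs') (by omega)
        have hcw1 : w.Cw (2 * s + 1) (2 * s') b :=
          cw_num3 (block_cw hM hpos hss' (hKS hbK)) e2 (hpar s' hs') hy
        have key : ∀ z, z / 2 ∈ K → ¬ w.Cw (2 * s + 1) z b := by
          intro z hz hcw
          obtain ⟨e3, e4⟩ := hdiff s hs hsK z hz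
          exact step_num2 e1 e2 e3 e4 hcw (hR z hz) (side hgood hS hKS hclo hcon hs hsK hbK hz)
        exact ⟨fun h => key _ (by rw [hd1]; exact h) hcw1, fun z hz hcw =>
          key z hz (cw_num4 hcw1 hcw)⟩
      exact (hall tE (hKS htE)).1 htE
  exact
    { KS := hKS
      clo := hclo
      con := hcon
      apos := fun t ht => hpos t (hKS ht)
      circ := fun t u htu v hv => ⟨hcirc t u htu _ (by rw [hd1]; exact hv),
        hcirc t u htu _ (by rw [hd2]; exact hv)⟩
      tEK := htE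
      jun := fun v hv => ⟨hjun _ (by rw [hd1]; exact hv), hjun _ (by rw [hd2]; exact hv)⟩
      gord := hg
      late := hlate
      tch := htch }

end SBR
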