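/-
SBR/R11.lean : after phase 1 every component which is touched by a pivot waits for phase 2, the
others consist of isolated chords.
-/
import Pool.Agent.SBR.Rep
import Pool.Agent.SBR.T6b
import Pool.Agent.SBR.T6c

namespace SBR

private theorem r11_vec_comm (w : Lay) (a b t : ℕ) : w.vec a b t = w.vec b a t := by
  simp only [Lay.vec_eq_rvc]
  ring

private theorem r11_adj_symm {w : Lay} {X : Finset ℕ}
    (hs : ∀ t ∈ X, ∀ u ∈ X, w.mat t u = w.mat u t) {a b : ℕ} (h : Adj w X a b) : Adj w X b a :=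
  ⟨h.2.1, h.1, h.2.2.1.symm, by rw [hs b h.2.1 a h.1]; exact h.2.2.2⟩

private theorem r11_cn_symm {w : Lay} {X : Finset ℕ}
    (hs : ∀ t ∈ X, ∀ u ∈ X, w.mat t u = w.mat u t) {a b : ℕ} (h : Cn w X a b) : Cn w X b a := by
  induction h with
  | refl => exact Relation.ReflTransGen.refl
  | tail _ hadj ih => exact Relation.ReflTransGen.head (r11_adj_symm hs hadj) ih

/-- positions in a list -/
private theorem r11_getD {pre post : List ℕ} {g h : ℕ} (hh : h ∈ post) :
    ∃ k, k < post.length ∧ (pre ++ g :: post).getD (pre.length + 1 + k) 0 = h := by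
  obtain ⟨k, hk, hk2⟩ := List.getElem_of_mem hh
  refine ⟨k, hk, ?_⟩
  rw [List.getD_append_right _ _ _ _ (by omega)]
  rw [show pre.length + 1 + k - pre.length = k + 1 by omega]
  rw [List.getD_cons_succ, List.getD_eq_getElem _ _ hk]
  exact hk2

section
variable {n : ℕ} {s : St} {q : AQ} {w : Lay}

/-- after phase 1: components that are touched by a pivot wait for phase 2, the others consist of
isolated chords -/
theorem glue {w0 : Lay} (hw0 : EL n w0) (hno : ∀ C, ¬ UComp (n + 1) w0 C) {S : Finset ℕ}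
    {ord : List ℕ} {m1 m2 : ℕ → ℕ} (hP : Post1 n w0 s q w S ord m1 m2) {rep : ℕ → ℕ}
    (hrep : IsRep w S rep) {last wk : ℕ → ℕ}
    (h23 : ∀ z ∈ S, IsMax (fun h => h < n + 1 ∧ h ∉ S ∧ w.vec (2 * h) (2 * h + 1) z ≠ 0)
      (s.arr 21) (last z))
    (h24 : ∀ c, IsMax (fun t => t ∈ S ∧ rep t = c) last (wk c)) :
    (∀ c, wk c ≠ 0 → s.arr 22 (wk c) ∈ ord ∧ ∀ tE ∈ S, rep tE = c →
      (∀ v ∈ S, rep v = c → ¬ w.Cw (s.arr 18 (s.arr 22 (wk c))) (2 * v) (2 * tE)) →
      Pend w S ord m1 m2 (S.filter (fun t => rep t = c)) (s.arr 22 (wk c)) tE) ∧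
    (∀ t ∈ S, wk (rep t) = 0 → ∀ u ∈ S, w.mat t u = 0) := by
  have hA := hP.alg
  have hgood := hA.good
  have hsym : ∀ t ∈ S, ∀ u ∈ S, w.mat t u = w.mat u t := by
    intro t ht u hu
    have h1 := hA.sub t ht
    have h2 := hA.sub u hu
    exact (Lay.mat_comm hgood (by omega) (by omega)).symm
  -- the label of a pivot
  have hidx : ∀ h ∈ ord, ∃ i, i < ord.length ∧ ord.getD i 0 = h ∧ s.arr 21 h = i + 1 ∧
      s.arr 22 (i + 1) = h := by
    intro h hh
    obtain ⟨i, hi, hi2⟩ := List.getElem_of_mem hh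
    have h1 : ord.getD i 0 = h := by rw [List.getD_eq_getElem _ _ hi]; exact hi2
    obtain ⟨h2, h3⟩ := hP.lab i hi
    rw [h1] at h2 h3
    exact ⟨i, hi, h1, h2, h3⟩
  -- the marks of a pivot
  have hvec : ∀ h ∈ ord, ∀ t, w.vec (m1 h) (m2 h) t = w.vec (2 * h) (2 * h + 1) t := by
    intro h hh t
    rcases hP.mks h hh with ⟨e1, e2⟩ | ⟨e1, e2⟩
    · rw [e1, e2]
    · rw [e1, e2, r11_vec_comm]
  -- an entry of a pivot in a component bounds its label
  have hle : ∀ c, ∀ h ∈ ord, ∀ t ∈ S, rep t = c → w.vec (m1 h) (m2 h) t ≠ 0 →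
      s.arr 21 h ≤ wk c := by
    intro c h hh t ht htc hne
    rw [hvec h hh t] at hne
    exact ((h23 t ht).1 h ⟨hA.ordlt h hh, hA.disj h hh, hne⟩).trans ((h24 c).1 t ⟨ht, htc⟩)
  -- the components
  have hclo : ∀ c, ∀ t ∈ S.filter (fun t => rep t = c), ∀ u ∈ S,
      u ∉ S.filter (fun t => rep t = c) → w.mat t u = 0 := by
    intro c t ht u hu hun
    rw [Finset.mem_filter] at ht
    by_contra hne
    apply hun
    have htu : t ≠ u := by
      rintro rfl
      exact hun (Finset.mem_filter.2 ht)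
    have h1 : Cn w S t u := Relation.ReflTransGen.single ⟨ht.1, hu, htu, hne⟩
    exact Finset.mem_filter.2 ⟨hu, (hrep.eq t ht.1 u hu h1).symm.trans ht.2⟩
  have hstay : ∀ c, ∀ t ∈ S.filter (fun t => rep t = c), ∀ u, Cn w S t u →
      u ∈ S.filter (fun t => rep t = c) ∧ Cn w (S.filter (fun t => rep t = c)) t u := by
    intro c t ht u htu
    induction htu with
    | refl => exact ⟨ht, Relation.ReflTransGen.refl⟩
    | @tail b d _ hadj ih =>
      obtain ⟨ih1, ih2⟩ := ih
      have h1 : rep b = rep d :=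
        hrep.eq _ hadj.1 _ hadj.2.1 (Relation.ReflTransGen.single hadj)
      have h2 : rep b = c := (Finset.mem_filter.1 ih1).2
      have h3 : d ∈ S.filter (fun t => rep t = c) :=
        Finset.mem_filter.2 ⟨hadj.2.1, h1.symm.trans h2⟩
      exact ⟨h3, ih2.tail ⟨ih1, h3, hadj.2.2.1, hadj.2.2.2⟩⟩
  have hcon : ∀ c, ∀ t ∈ S.filter (fun t => rep t = c), ∀ u ∈ S.filter (fun t => rep t = c),
      Cn w (S.filter (fun t => rep t = c)) t u := by
    intro c t ht u hu
    have ht' := Finset.mem_filter.1 ht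
    have hu' := Finset.mem_filter.1 hu
    have h1 := hrep.con t ht'.1
    have h2 := hrep.con u hu'.1
    rw [ht'.2] at h1
    rw [hu'.2] at h2
    exact (hstay c t ht u (h1.trans (r11_cn_symm hsym h2))).2
  refine ⟨?_, ?_⟩
  · intro c hc
    obtain ⟨t0, ⟨ht0, ht0c⟩, ht0l⟩ := (h24 c).2.resolve_left hc
    obtain ⟨h0, ⟨hh0, hh0S, hh0v⟩, hh0l⟩ :=
      (h23 t0 ht0).2.resolve_left (by rw [ht0l]; exact hc)
    have hord : h0 ∈ ord := (hP.cov h0 hh0).resolve_left hh0S
    obtain ⟨i, hi, hi1, hi2, hi3⟩ := hidx h0 hord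
    have hwk : wk c = i + 1 := by rw [← ht0l, ← hh0l, hi2]
    rw [hwk, hi3]
    refine ⟨hord, ?_⟩
    intro tE htE htEc hmin
    rw [(hP.amk h0 hord).1] at hmin
    refine pend_init hA hP.mates hP.apos (Finset.filter_subset _ _) (hclo c) (hcon c)
      (hP.jn h0 hord) (Finset.mem_filter.2 ⟨htE, htEc⟩) ?_ hord ?_ ?_
    · intro v hv
      have hv' := Finset.mem_filter.1 hv
      exact hmin v hv'.1 hv'.2
    · intro pre post he h hh t ht
      have ht' := Finset.mem_filter.1 ht
      by_contra hne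
      have hhord : h ∈ ord := by rw [he]; simp [hh]
      have h1 := hle c h hhord t ht'.1 ht'.2 hne
      obtain ⟨k, hk, hk2⟩ := r11_getD (pre := pre) (g := h0) hh
      rw [← he] at hk2
      have hlen : ord.length = pre.length + (post.length + 1) := by rw [he]; simp
      have h2 := (hP.lab (pre.length + 1 + k) (by omega)).1
      rw [hk2] at h2
      have h3 := (hP.lab pre.length (by omega)).1
      have h4 : ord.getD pre.length 0 = h0 := by
        rw [he, List.getD_append_right _ _ _ _ le_rfl]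
        simp
      rw [h4] at h3
      omega
    · refine ⟨t0, Finset.mem_filter.2 ⟨ht0, ht0c⟩, ?_⟩
      rw [hvec h0 hord]
      exact hh0v
  · intro t ht hw u hu
    by_contra hne
    set K := S.filter (fun v => rep v = rep t) with hK
    have htK : t ∈ K := Finset.mem_filter.2 ⟨ht, rfl⟩
    have hdiag : ∀ v ∈ S, w.mat v v = 0 := by
      intro v hv
      obtain ⟨e1, e2⟩ := hP.apos v hv
      simp only [Lay.mat, if_true, e1, e2, bz]
      decide
    have huK : u ∈ K := by
      by_contra h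
      exact hne (hclo (rep t) t htK u hu h)
    have htu : t ≠ u := by
      rintro rfl
      exact hne (hdiag t ht)
    have hun := untouched_comp hA hP.apos (K := K) (Finset.filter_subset _ _) (hclo (rep t)) (by
      intro h hh v hv
      have hv' := Finset.mem_filter.1 hv
      by_contra hc
      have h1 := hle (rep t) h hh v hv'.1 hv'.2 hc
      obtain ⟨i, -, -, hi, -⟩ := hidx h hh
      omega)
    have hKm : ∀ v ∈ K, v < n + 1 := fun v hv => hA.sub v (Finset.mem_filter.1 hv).1
    have hamat : ∀ a b, a < n + 1 → b < n + 1 → w0.amat (n + 1) a b = w0.mat a b := by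
      intro a b ha hb
      simp only [Lay.amat]
      rw [if_pos ⟨ha, hb⟩]
    have hm0 : ∀ a ∈ K, ∀ b ∈ K, w0.mat a b = w.mat a b := by
      intro a ha b hb
      rw [← hamat a b (hKm a ha) (hKm b hb)]
      exact hun.1 a ha b hb
    apply hno K
    refine ⟨hKm, ?_, ?_, ?_, ?_⟩
    · exact Finset.one_lt_card.2 ⟨t, htK, u, huK, htu⟩
    · intro a ha b hb hbK
      rw [← hamat a b (hKm a ha) hb]
      exact hun.2 a ha b hbK
    · intro a ha b hb
      have h1 := hcon (rep t) a ha b hb
      have h2 : ∀ b, Cn w K a b → Cn w0 K a b := by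
        intro b hb
        induction hb with
        | refl => exact Relation.ReflTransGen.refl
        | tail _ hadj ih =>
          exact ih.tail ⟨hadj.1, hadj.2.1, hadj.2.2.1, by
            rw [hm0 _ hadj.1 _ hadj.2.1]; exact hadj.2.2.2⟩
      exact h2 b h1
    · intro a ha
      rw [hm0 a ha a ha]
      exact hdiag a (Finset.mem_filter.1 ha).1

end

end SBR
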