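/-
SBR/T4.lean : the two key queries (package T4).
-/
import Pool.Agent.SBR.State

namespace SBR

private theorem t4_succ {κ : ℕ → ℕ} {X : Finset ℕ} {t : ℕ} (ht : t ∈ X)
    (h : ¬ ∀ v ∈ X, κ v ≤ κ t) : ∃ u, Cons κ X t u := by
  push Not at h
  obtain ⟨v, hv, hvt⟩ := h
  obtain ⟨u, hu, hmin⟩ := Finset.exists_min_image (X.filter fun a => κ t < κ a) κ
    ⟨v, Finset.mem_filter.2 ⟨hv, hvt⟩⟩
  rw [Finset.mem_filter] at hu
  refine ⟨u, ht, hu.1, hu.2, ?_⟩
  rintro a ha ⟨h1, h2⟩
  have := hmin a (Finset.mem_filter.2 ⟨ha, h1⟩)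
  omega

private theorem t4_pred {κ : ℕ → ℕ} {X : Finset ℕ} {t : ℕ} (ht : t ∈ X)
    (h : ¬ ∀ v ∈ X, κ t ≤ κ v) : ∃ p, Cons κ X p t := by
  push Not at h
  obtain ⟨v, hv, hvt⟩ := h
  obtain ⟨u, hu, hmax⟩ := Finset.exists_max_image (X.filter fun a => κ a < κ t) κ
    ⟨v, Finset.mem_filter.2 ⟨hv, hvt⟩⟩
  rw [Finset.mem_filter] at hu
  refine ⟨u, hu.1, ht, hu.2, ?_⟩
  rintro a ha ⟨h1, h2⟩
  have := hmax a (Finset.mem_filter.2 ⟨ha, h2⟩)
  omega

private theorem t4_nk0 {κ : ℕ → ℕ} {X : Finset ℕ} {t : ℕ} (ht : t ∈ X) :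
    nk κ X (2 * t) = 2 * κ t + 1 := by
  have h1 : 2 * t / 2 = t := by omega
  have h2 : 2 * t % 2 = 0 := by omega
  simp only [nk, h1, h2, if_pos ht, Nat.add_zero]

private theorem t4_nk1 {κ : ℕ → ℕ} {X : Finset ℕ} {t : ℕ} (ht : t ∈ X) :
    nk κ X (2 * t + 1) = 2 * κ t + 2 := by
  have h1 : (2 * t + 1) / 2 = t := by omega
  have h2 : (2 * t + 1) % 2 = 1 := by omega
  simp only [nk, h1, h2, if_pos ht]

private theorem t4_d0 {X : Finset ℕ} {t : ℕ} (ht : t ∈ X) : 2 * t / 2 ∈ X := by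
  have h1 : 2 * t / 2 = t := by omega
  rwa [h1]

private theorem t4_d1 {X : Finset ℕ} {t : ℕ} (ht : t ∈ X) : (2 * t + 1) / 2 ∈ X := by
  have h1 : (2 * t + 1) / 2 = t := by omega
  rwa [h1]

/-- case distinction for a node of `X` -/
private theorem t4_cases {X : Finset ℕ} {x : ℕ} (hx : x / 2 ∈ X) :
    ∃ t ∈ X, x = 2 * t ∨ x = 2 * t + 1 :=
  ⟨x / 2, hx, by omega⟩

theorem query2 {w : Lay} {m : ℕ} (hg : w.Good (2 * m)) {X : Finset ℕ} (hX : ∀ t ∈ X, t < m)
    {κ : ℕ → ℕ} (hM : Mates w κ X) (hpos : AllPos w X) {c : ℕ} (hc : c < 2 * m) (hcX : c / 2 ∉ X)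
    {mx mn : ℕ} (hmx : IsMx κ X (fun x => w.pos x < w.pos c) mx)
    (hmn : IsMn κ X (fun x => w.pos c < w.pos x) mn) :
    (mx = 0 → ∀ t ∈ X, w.rvc c t = 0) ∧
    (mx % 2 = 1 → ∀ t ∈ X, 2 * κ t + 1 = mx → w.rvc c t = 1) ∧
    (mx ≠ 0 → mx % 2 = 0 → mn ≠ 0 → mn % 2 = 0 → ∀ t ∈ X, 2 * κ t + 2 = mn → w.rvc c t = 1) ∧
    (mx ≠ 0 → mx % 2 = 0 → (mn = 0 ∨ mn % 2 = 1) → ∀ t ∈ X, w.rvc c t = 0) := by
  have hne0 : ∀ t ∈ X, w.pos c ≠ w.pos (2 * t) := by
    intro t ht h
    have h1 := hX t ht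
    have h2 := hg.inj c (2 * t) hc (by omega) h
    apply hcX
    rw [h2]
    exact t4_d0 ht
  have hne1 : ∀ t ∈ X, w.pos c ≠ w.pos (2 * t + 1) := by
    intro t ht h
    have h1 := hX t ht
    have h2 := hg.inj c (2 * t + 1) hc (by omega) h
    apply hcX
    rw [h2]
    exact t4_d1 ht
  have hmx0 : ∀ t ∈ X, w.pos (2 * t) < w.pos c → 2 * κ t + 1 ≤ mx := by
    intro t ht h
    have := hmx.1 (2 * t) (t4_d0 ht) h
    rwa [t4_nk0 ht] at this
  have hmx1 : ∀ t ∈ X, w.pos (2 * t + 1) < w.pos c → 2 * κ t + 2 ≤ mx := by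
    intro t ht h
    have := hmx.1 (2 * t + 1) (t4_d1 ht) h
    rwa [t4_nk1 ht] at this
  have hmn0 : ∀ t ∈ X, w.pos c < w.pos (2 * t) → mn ≠ 0 ∧ mn ≤ 2 * κ t + 1 := by
    intro t ht h
    have := hmn.1 (2 * t) (t4_d0 ht) h
    rwa [t4_nk0 ht] at this
  have hmn1 : ∀ t ∈ X, w.pos c < w.pos (2 * t + 1) → mn ≠ 0 ∧ mn ≤ 2 * κ t + 2 := by
    intro t ht h
    have := hmn.1 (2 * t + 1) (t4_d1 ht) h
    rwa [t4_nk1 ht] at this
  -- both right, both left, split
  have rr : ∀ t, w.pos c < w.pos (2 * t) → w.pos c < w.pos (2 * t + 1) → w.rvc c t = 0 := by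
    intro t h1 h2
    simp only [Lay.rvc, Lay.l, if_pos h1, if_pos h2]
    decide
  have ll : ∀ t, ¬ w.pos c < w.pos (2 * t) → ¬ w.pos c < w.pos (2 * t + 1) → w.rvc c t = 0 := by
    intro t h1 h2
    simp only [Lay.rvc, Lay.l, if_neg h1, if_neg h2]
    decide
  have lr : ∀ t, ¬ w.pos c < w.pos (2 * t) → w.pos c < w.pos (2 * t + 1) → w.rvc c t = 1 := by
    intro t h1 h2
    simp only [Lay.rvc, Lay.l, if_neg h1, if_pos h2]
    decide
  refine ⟨?_, ?_, ?_, ?_⟩
  · intro h0 t ht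
    apply rr
    · rcases Nat.lt_or_ge (w.pos (2 * t)) (w.pos c) with h | h
      · have := hmx0 t ht h; omega
      · have := hne0 t ht; omega
    · rcases Nat.lt_or_ge (w.pos (2 * t + 1)) (w.pos c) with h | h
      · have := hmx1 t ht h; omega
      · have := hne1 t ht; omega
  · intro hodd t ht hk
    obtain ⟨y, hy, hyc, hyk⟩ : ∃ x, x / 2 ∈ X ∧ w.pos x < w.pos c ∧ nk κ X x = mx := by
      rcases hmx.2 with h | h
      · omega
      · exact h
    obtain ⟨s, hs, rfl | rfl⟩ := t4_cases hy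
    · rw [t4_nk0 hs] at hyk
      have hst : s = t := hM.inj s hs t ht (by omega)
      subst hst
      apply lr
      · omega
      · rcases Nat.lt_or_ge (w.pos (2 * s + 1)) (w.pos c) with h | h
        · have := hmx1 s ht h; omega
        · have := hne1 s ht; omega
    · rw [t4_nk1 hs] at hyk
      omega
  · intro _ _ hmn' heven t ht hk
    obtain ⟨y, hy, hyc, hyk⟩ : ∃ x, x / 2 ∈ X ∧ w.pos c < w.pos x ∧ nk κ X x = mn := by
      rcases hmn.2 with h | h
      · exact absurd h hmn'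
      · exact h
    obtain ⟨s, hs, rfl | rfl⟩ := t4_cases hy
    · rw [t4_nk0 hs] at hyk
      omega
    · rw [t4_nk1 hs] at hyk
      have hst : s = t := hM.inj s hs t ht (by omega)
      subst hst
      apply lr
      · intro h
        have := (hmn0 s ht h).2
        omega
      · exact hyc
  · intro hmxne heven hor t ht
    by_cases hmn' : mn = 0
    · apply ll
      · intro h; exact (hmn0 t ht h).1 hmn'
      · intro h; exact (hmn1 t ht h).1 hmn'
    have hodd : mn % 2 = 1 := by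
      rcases hor with h | h
      · exact absurd h hmn'
      · exact h
    -- the node with key `mx`
    obtain ⟨y, hy, hyc, hyk⟩ : ∃ x, x / 2 ∈ X ∧ w.pos x < w.pos c ∧ nk κ X x = mx := by
      rcases hmx.2 with h | h
      · exact absurd h hmxne
      · exact h
    obtain ⟨t0, ht0, ht0c, ht0k⟩ : ∃ t0 ∈ X, w.pos (2 * t0 + 1) < w.pos c ∧
        2 * κ t0 + 2 = mx := by
      obtain ⟨s, hs, rfl | rfl⟩ := t4_cases hy
      · rw [t4_nk0 hs] at hyk
        omega
      · rw [t4_nk1 hs] at hyk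
        exact ⟨s, hs, hyc, hyk⟩
    obtain ⟨z, hz, hzc, hzk⟩ : ∃ x, x / 2 ∈ X ∧ w.pos c < w.pos x ∧ nk κ X x = mn := by
      rcases hmn.2 with h | h
      · exact absurd h hmn'
      · exact h
    obtain ⟨s, hs, hsc, hsk⟩ : ∃ s ∈ X, w.pos c < w.pos (2 * s) ∧ 2 * κ s + 1 = mn := by
      obtain ⟨s, hs, rfl | rfl⟩ := t4_cases hz
      · rw [t4_nk0 hs] at hzk
        exact ⟨s, hs, hzc, hzk⟩
      · rw [t4_nk1 hs] at hzk
        omega
    -- `t0` is not last
    obtain ⟨u, hu⟩ : ∃ u, Cons κ X t0 u := by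
      apply t4_succ ht0
      intro hlast
      have := ((hM.last t0 ht0 hlast).2 s hs).1
      omega
    have huc : w.pos c < w.pos (2 * u) := by
      rcases Nat.lt_or_ge (w.pos (2 * u)) (w.pos c) with h | h
      · have h1 := hmx0 u hu.2.1 h
        have h2 := hu.2.2.1
        omega
      · have := hne0 u hu.2.1; omega
    have hsu : κ s ≤ κ u := by
      have := (hmn0 u hu.2.1 huc).2
      omega
    have hsu' : κ t0 < κ s := by
      by_contra hcon
      -- `s` is not first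
      obtain ⟨p, hp⟩ : ∃ p, Cons κ X p s := by
        apply t4_pred hs
        intro hfirst
        have := ((hM.first s hs hfirst).2 t0 ht0).2
        omega
      have hpc : w.pos (2 * p + 1) < w.pos c := by
        rcases Nat.lt_or_ge (w.pos c) (w.pos (2 * p + 1)) with h | h
        · have h1 := (hmn1 p hp.1 h).2
          have h2 := hp.2.2.1
          omega
        · have := hne1 p hp.1; omega
      have a1 := (hM.adj p s hp t0 ht0).2
      have a2 := (hM.adj t0 u hu p hp.1).2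
      simp only [Lay.Btw] at a1 a2
      have h1 := hX p hp.1
      have h2 := hX t0 ht0
      have heq : 2 * p + 1 = 2 * t0 + 1 := hg.inj _ _ (by omega) (by omega) (by omega)
      have h3 : p = t0 := by omega
      have h4 := hp.2.2.1
      rw [h3] at h4
      exact hcon h4
    have hsu2 : κ s = κ u := by
      rcases Nat.lt_or_ge (κ s) (κ u) with h | h
      · exact absurd ⟨hsu', h⟩ (hu.2.2.2 s hs)
      · omega
    rcases Nat.lt_or_ge (κ t0) (κ t) with h | h
    · apply rr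
      · rcases Nat.lt_or_ge (w.pos (2 * t)) (w.pos c) with h' | h'
        · have := hmx0 t ht h'; omega
        · have := hne0 t ht; omega
      · rcases Nat.lt_or_ge (w.pos (2 * t + 1)) (w.pos c) with h' | h'
        · have := hmx1 t ht h'; omega
        · have := hne1 t ht; omega
    · apply ll
      · intro h'
        have := (hmn0 t ht h').2
        omega
      · intro h'
        have := (hmn1 t ht h').2
        omega

theorem query1 {w : Lay} {m : ℕ} (hg : w.Good (2 * m)) {X : Finset ℕ} (hX : ∀ t ∈ X, t < m)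
    {κ : ℕ → ℕ} (hM : Mates w κ X) (hpos : AllPos w X) {x : ℕ} (hx : x ∈ X) {d : ℕ}
    (hd : IsMx κ X (fun y => w.Btw (2 * x) (2 * x + 1) y) d) :
    (d = 0 → ∀ u ∈ X, u ≠ x → w.mat x u = 0) ∧
    (d ≠ 0 → d % 2 = 1 ∧ ∀ y ∈ X, 2 * κ y + 1 = d → y ≠ x ∧ w.mat x y = 1 ∧
      w.Btw (2 * x) (2 * x + 1) (2 * y) ∧ ¬ w.Btw (2 * x) (2 * x + 1) (2 * y + 1)) := by
  have hxm := hX x hx
  have hd0 : ∀ t ∈ X, w.Btw (2 * x) (2 * x + 1) (2 * t) → 2 * κ t + 1 ≤ d := by
    intro t ht h
    have := hd.1 (2 * t) (t4_d0 ht) h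
    rwa [t4_nk0 ht] at this
  have hd1 : ∀ t ∈ X, w.Btw (2 * x) (2 * x + 1) (2 * t + 1) → 2 * κ t + 2 ≤ d := by
    intro t ht h
    have := hd.1 (2 * t + 1) (t4_d1 ht) h
    rwa [t4_nk1 ht] at this
  have hmat : ∀ u ∈ X, u ≠ x → w.mat x u =
      w.bi (2 * x) (2 * x + 1) (2 * u) + w.bi (2 * x) (2 * x + 1) (2 * u + 1) := by
    intro u hu hux
    have := hX u hu
    rw [← Lay.bc_chord hg (by omega) (by omega) hux]
    rfl
  constructor
  · intro h0 u hu hux
    rw [hmat u hu hux]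
    have e1 : ¬ w.Btw (2 * x) (2 * x + 1) (2 * u) := by
      intro h; have := hd0 u hu h; omega
    have e2 : ¬ w.Btw (2 * x) (2 * x + 1) (2 * u + 1) := by
      intro h; have := hd1 u hu h; omega
    simp only [Lay.bi, if_neg e1, if_neg e2]
    decide
  · intro hne
    obtain ⟨y0, hy0, hy0b, hy0k⟩ : ∃ y, y / 2 ∈ X ∧ w.Btw (2 * x) (2 * x + 1) y ∧
        nk κ X y = d := by
      rcases hd.2 with h | h
      · exact absurd h hne
      · exact h
    obtain ⟨t, ht, rfl | rfl⟩ := t4_cases hy0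
    · rw [t4_nk0 ht] at hy0k
      refine ⟨by omega, ?_⟩
      intro y hy hyk
      have hty : t = y := hM.inj t ht y hy (by omega)
      subst hty
      have hn : ¬ w.Btw (2 * x) (2 * x + 1) (2 * t + 1) := by
        intro h
        have := hd1 t ht h
        omega
      have hne' : t ≠ x := by
        rintro rfl
        simp only [Lay.Btw] at hy0b
        omega
      refine ⟨hne', ?_, hy0b, hn⟩
      rw [hmat t ht hne']
      simp only [Lay.bi, if_pos hy0b, if_neg hn]
      decide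
    · exfalso
      rw [t4_nk1 ht] at hy0k
      simp only [Lay.Btw] at hy0b hd0 hd1
      -- `t` is not last
      obtain ⟨u, hu⟩ : ∃ u, Cons κ X t u := by
        apply t4_succ ht
        intro hlast
        have := (hM.last t ht hlast).2 x hx
        omega
      have o1 := hM.ordt t u hu (hpos u hu.2.1).1
      have n1 : ¬ (w.pos (2 * x) < w.pos (2 * u) ∧ w.pos (2 * u) < w.pos (2 * x + 1) ∨
          w.pos (2 * x + 1) < w.pos (2 * u) ∧ w.pos (2 * u) < w.pos (2 * x)) := by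
        intro h
        have h1 := hd0 u hu.2.1 h
        have h2 := hu.2.2.1
        omega
      have a1 := hM.adj t u hu x hx
      simp only [Lay.Btw] at a1
      have hum := hX u hu.2.1
      have htm := hX t ht
      -- the right end of `x` is `2u`
      have hux : u = x ∧ w.pos (2 * x + 1) < w.pos (2 * x) := by
        rcases Nat.lt_or_ge (w.pos (2 * x)) (w.pos (2 * x + 1)) with h | h
        · exfalso
          have h1 : w.pos (2 * x + 1) = w.pos (2 * u) := by omega
          have h2 := hg.inj _ _ (by omega) (by omega) h1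
          omega
        · have h1 : w.pos (2 * x) = w.pos (2 * u) := by omega
          have h2 := hg.inj _ _ (by omega) (by omega) h1
          exact ⟨by omega, by omega⟩
      obtain ⟨rfl, hlt⟩ := hux
      obtain ⟨v, hv⟩ : ∃ v, Cons κ X u v := by
        apply t4_succ hx
        intro hlast
        have := (hM.last u hx hlast).2 u hx
        omega
      have o2 := hM.ordt u v hv (hpos v hv.2.1).1
      have hvm := hX v hv.2.1
      have n2 : ¬ (w.pos (2 * u) < w.pos (2 * v) ∧ w.pos (2 * v) < w.pos (2 * u + 1) ∨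
          w.pos (2 * u + 1) < w.pos (2 * v) ∧ w.pos (2 * v) < w.pos (2 * u)) := by
        intro h
        have h1 := hd0 v hv.2.1 h
        have h2 := hv.2.2.1
        have h3 := hu.2.2.1
        omega
      have a2 := (hM.adj u v hv u hx).1
      simp only [Lay.Btw] at a2
      have h1 : w.pos (2 * u) = w.pos (2 * v) := by omega
      have h2 := hg.inj _ _ (by omega) (by omega) h1
      have h3 : u = v := by omega
      have h4 := hv.2.2.1
      rw [h3] at h4
      omega

end SBR
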