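/-
SBR/T3.lean : the invariant Mates in phase 2 (deleting an isolated chord, block swap).
-/
import Pool.Agent.SBR.State

namespace SBR

/-! ### successors and predecessors -/

theorem T3_exists_succ {κ : ℕ → ℕ} {X : Finset ℕ} {t : ℕ} (ht : t ∈ X)
    (h : ∃ v ∈ X, κ t < κ v) : ∃ u, Cons κ X t u := by
  obtain ⟨v, hv, hv2⟩ := h
  obtain ⟨u, hu, hmin⟩ := Finset.exists_min_image (X.filter fun v => κ t < κ v) κ
    ⟨v, Finset.mem_filter.mpr ⟨hv, hv2⟩⟩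
  rw [Finset.mem_filter] at hu
  refine ⟨u, ht, hu.1, hu.2, fun a ha hab => ?_⟩
  have := hmin a (Finset.mem_filter.mpr ⟨ha, hab.1⟩)
  omega

theorem T3_exists_pred {κ : ℕ → ℕ} {X : Finset ℕ} {t : ℕ} (ht : t ∈ X)
    (h : ∃ v ∈ X, κ v < κ t) : ∃ u, Cons κ X u t := by
  obtain ⟨v, hv, hv2⟩ := h
  obtain ⟨u, hu, hmax⟩ := Finset.exists_max_image (X.filter fun v => κ v < κ t) κ
    ⟨v, Finset.mem_filter.mpr ⟨hv, hv2⟩⟩
  rw [Finset.mem_filter] at hu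
  refine ⟨u, hu.1, ht, hu.2, fun a ha hab => ?_⟩
  have := hmax a (Finset.mem_filter.mpr ⟨ha, hab.2⟩)
  omega

/-! ### next nodes -/

/-- no node of `X` has its position strictly between `α` and `β` -/
def T3_NX (w : Lay) (X : Finset ℕ) (α β : ℤ) : Prop :=
  α < β ∧ ∀ v, v / 2 ∈ X → ¬ (α < (w.pos v : ℤ) ∧ (w.pos v : ℤ) < β)

section fromMates

variable {w : Lay} {κ : ℕ → ℕ} {X : Finset ℕ}

theorem T3_node {v : ℕ} : v = 2 * (v / 2) ∨ v = 2 * (v / 2) + 1 := by omega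

theorem T3_nx_cons (hM : Mates w κ X) (hp : AllPos w X) {t u : ℕ} (h : Cons κ X t u) :
    T3_NX w X (w.pos (2 * t + 1)) (w.pos (2 * u)) := by
  have h1 := hM.ordt t u h (hp u h.2.1).1
  refine ⟨by exact_mod_cast h1, fun v hv hcon => ?_⟩
  have h2 := hM.adj t u h (v / 2) hv
  rcases T3_node (v := v) with e | e
  · rw [← e] at h2
    apply h2.1
    left
    omega
  · rw [← e] at h2
    apply h2.2
    left
    omega

theorem T3_nx_first (hM : Mates w κ X) {t : ℕ} (ht : t ∈ X) (h : ∀ v ∈ X, κ t ≤ κ v) :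
    T3_NX w X (-1) (w.pos (2 * t)) := by
  refine ⟨by omega, fun v hv hcon => ?_⟩
  have h2 := (hM.first t ht h).2 (v / 2) hv
  rcases T3_node (v := v) with e | e
  · rw [← e] at h2
    have := h2.1
    omega
  · rw [← e] at h2
    have := h2.2
    omega

theorem T3_nx_last (hM : Mates w κ X) {L : ℕ} (hL : ∀ t ∈ X, w.pos (2 * t + 1) < L) {t : ℕ}
    (ht : t ∈ X) (h : ∀ v ∈ X, κ v ≤ κ t) : T3_NX w X (w.pos (2 * t + 1)) L := by
  refine ⟨by exact_mod_cast hL t ht, fun v hv hcon => ?_⟩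
  have h2 := (hM.last t ht h).2 (v / 2) hv
  rcases T3_node (v := v) with e | e
  · rw [← e] at h2
    have := h2.1
    omega
  · rw [← e] at h2
    have := h2.2
    omega

theorem T3_mates_of_nx {L : ℕ} (hinj : ∀ t ∈ X, ∀ u ∈ X, κ t = κ u → t = u) (hp : AllPos w X)
    (hc : ∀ t u, Cons κ X t u → T3_NX w X (w.pos (2 * t + 1)) (w.pos (2 * u)))
    (hf : ∀ t ∈ X, (∀ v ∈ X, κ t ≤ κ v) → T3_NX w X (-1) (w.pos (2 * t)))
    (hl : ∀ t ∈ X, (∀ v ∈ X, κ v ≤ κ t) → T3_NX w X (w.pos (2 * t + 1)) L)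
    (hL : ∀ v, v / 2 ∈ X → w.pos v < L) : Mates w κ X where
  inj := hinj
  sg t u h := by rw [(hp t h.1).2, (hp u h.2.1).1]
  ordt t u h _ := by exact_mod_cast (hc t u h).1
  ordf t u h hs := by rw [(hp u h.2.1).1] at hs; exact absurd hs (by decide)
  adj t u h v hv := by
    have h1 := hc t u h
    have h2 := h1.1
    have h3 := h1.2 (2 * v) (by rwa [show 2 * v / 2 = v by omega])
    have h4 := h1.2 (2 * v + 1) (by rwa [show (2 * v + 1) / 2 = v by omega])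
    simp only [Lay.Btw]
    omega
  first t ht h := by
    refine ⟨(hp t ht).1, fun v hv => ?_⟩
    have h1 := hf t ht h
    have h3 := h1.2 (2 * v) (by rwa [show 2 * v / 2 = v by omega])
    have h4 := h1.2 (2 * v + 1) (by rwa [show (2 * v + 1) / 2 = v by omega])
    omega
  last t ht h := by
    refine ⟨(hp t ht).2, fun v hv => ?_⟩
    have h1 := hl t ht h
    have h3 := h1.2 (2 * v) (by rwa [show 2 * v / 2 = v by omega])
    have h4 := h1.2 (2 * v + 1) (by rwa [show (2 * v + 1) / 2 = v by omega])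
    have h5 := hL (2 * v) (by rwa [show 2 * v / 2 = v by omega])
    have h6 := hL (2 * v + 1) (by rwa [show (2 * v + 1) / 2 = v by omega])
    omega

end fromMates

/-! ### consecutive chords after deletions -/

section cases

variable {κ : ℕ → ℕ} {X : Finset ℕ}

theorem T3_cons_erase {x t u : ℕ} (h : Cons κ (X.erase x) t u) :
    Cons κ X t u ∨ (Cons κ X t x ∧ Cons κ X x u ∨ x ∉ X) := by
  obtain ⟨ht, hu, htu, hbt⟩ := h
  rw [Finset.mem_erase] at ht hu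
  by_cases hx : x ∈ X
  · by_cases hb : κ t < κ x ∧ κ x < κ u
    · right; left
      refine ⟨⟨ht.2, hx, hb.1, fun v hv hc => ?_⟩, ⟨hx, hu.2, hb.2, fun v hv hc => ?_⟩⟩
      · by_cases hvx : v = x
        · subst hvx; omega
        · exact hbt v (Finset.mem_erase.mpr ⟨hvx, hv⟩) ⟨hc.1, by omega⟩
      · by_cases hvx : v = x
        · subst hvx; omega
        · exact hbt v (Finset.mem_erase.mpr ⟨hvx, hv⟩) ⟨by omega, hc.2⟩
    · left
      refine ⟨ht.2, hu.2, htu, fun v hv hc => ?_⟩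
      by_cases hvx : v = x
      · subst hvx; exact hb hc
      · exact hbt v (Finset.mem_erase.mpr ⟨hvx, hv⟩) hc
  · right; right; exact hx

theorem T3_first_erase {x t : ℕ} (hx : x ∈ X) (ht : t ∈ X.erase x)
    (h : ∀ v ∈ X.erase x, κ t ≤ κ v) (_hinj : ∀ t ∈ X, ∀ u ∈ X, κ t = κ u → t = u) :
    (∀ v ∈ X, κ t ≤ κ v) ∨ ((∀ v ∈ X, κ x ≤ κ v) ∧ Cons κ X x t) := by
  have ht2 := Finset.mem_erase.mp ht
  by_cases hb : κ t ≤ κ x
  · left
    intro v hv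
    by_cases hvx : v = x
    · subst hvx; exact hb
    · exact h v (Finset.mem_erase.mpr ⟨hvx, hv⟩)
  · right
    refine ⟨fun v hv => ?_, hx, ht2.2, by omega, fun v hv hc => ?_⟩
    · by_cases hvx : v = x
      · subst hvx; exact le_refl _
      · have := h v (Finset.mem_erase.mpr ⟨hvx, hv⟩)
        omega
    · by_cases hvx : v = x
      · subst hvx; omega
      · have := h v (Finset.mem_erase.mpr ⟨hvx, hv⟩)
        omega

theorem T3_last_erase {x t : ℕ} (hx : x ∈ X) (ht : t ∈ X.erase x)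
    (h : ∀ v ∈ X.erase x, κ v ≤ κ t) (_hinj : ∀ t ∈ X, ∀ u ∈ X, κ t = κ u → t = u) :
    (∀ v ∈ X, κ v ≤ κ t) ∨ ((∀ v ∈ X, κ v ≤ κ x) ∧ Cons κ X t x) := by
  have ht2 := Finset.mem_erase.mp ht
  by_cases hb : κ x ≤ κ t
  · left
    intro v hv
    by_cases hvx : v = x
    · subst hvx; exact hb
    · exact h v (Finset.mem_erase.mpr ⟨hvx, hv⟩)
  · right
    refine ⟨fun v hv => ?_, ht2.2, hx, by omega, fun v hv hc => ?_⟩
    · by_cases hvx : v = x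
      · subst hvx; exact le_refl _
      · have := h v (Finset.mem_erase.mpr ⟨hvx, hv⟩)
        omega
    · by_cases hvx : v = x
      · subst hvx; omega
      · have := h v (Finset.mem_erase.mpr ⟨hvx, hv⟩)
        omega

end cases

/-! ### deleting an isolated chord -/

theorem T3_mat_btw {w : Lay} {L : ℕ} (hg : w.Good L) {x u : ℕ} (hx : 2 * x + 1 < L)
    (hu : 2 * u + 1 < L) (hxu : u ≠ x) (h : w.mat x u = 0) :
    (w.Btw (2 * x) (2 * x + 1) (2 * u) ↔ w.Btw (2 * x) (2 * x + 1) (2 * u + 1)) := by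
  have h1 := Lay.bc_chord hg hx hu hxu
  rw [h] at h1
  simp only [Lay.bc, Lay.bi] at h1
  by_cases a : w.Btw (2 * x) (2 * x + 1) (2 * u) <;>
    by_cases b : w.Btw (2 * x) (2 * x + 1) (2 * u + 1)
  · simp [a, b]
  · rw [if_pos a, if_neg b] at h1
    exact absurd h1 (by decide)
  · rw [if_neg a, if_pos b] at h1
    exact absurd h1 (by decide)
  · simp [a, b]

/-- an isolated chord consists of two neighbouring nodes in the right order -/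
theorem T3_isolated {w : Lay} {m : ℕ} (hg : w.Good (2 * m)) {X : Finset ℕ} (hX : ∀ t ∈ X, t < m)
    {κ : ℕ → ℕ} (hM : Mates w κ X) (hp : AllPos w X) {x : ℕ} (hx : x ∈ X)
    (hz : ∀ u ∈ X, u ≠ x → w.mat x u = 0) :
    T3_NX w X (w.pos (2 * x)) (w.pos (2 * x + 1)) := by
  have hxm := hX x hx
  have hne : ∀ a b : ℕ, a < 2 * m → b < 2 * m → a ≠ b → w.pos a ≠ w.pos b :=
    fun a b ha hb hab h => hab (hg.inj a b ha hb h)
  have hio : ∀ u ∈ X, u ≠ x → (w.Btw (2 * x) (2 * x + 1) (2 * u) ↔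
      w.Btw (2 * x) (2 * x + 1) (2 * u + 1)) := by
    intro u hu hux
    have := hX u hu
    exact T3_mat_btw hg (by omega) (by omega) hux (hz u hu hux)
  have hord : w.pos (2 * x) < w.pos (2 * x + 1) := by
    by_contra hcon
    have h0 := hne (2 * x) (2 * x + 1) (by omega) (by omega) (by omega)
    have hlt : w.pos (2 * x + 1) < w.pos (2 * x) := by omega
    -- x is not the first chord
    have hnf : ∃ v ∈ X, κ v < κ x := by
      by_contra hc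
      push Not at hc
      have := ((hM.first x hx hc).2 x hx).2
      omega
    obtain ⟨a, ha⟩ := T3_exists_pred hx hnf
    have haX := ha.1
    have hax : κ a < κ x := ha.2.2.1
    have hax' : a ≠ x := by rintro rfl; omega
    have ham := hX a haX
    have hna := T3_nx_cons hM hp ha
    have e1 := hna.2 (2 * x + 1) (by rwa [show (2 * x + 1) / 2 = x by omega])
    have e2 := hna.1
    have e3 := hne (2 * x + 1) (2 * a + 1) (by omega) (by omega) (by omega)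
    have hain : w.Btw (2 * x) (2 * x + 1) (2 * a + 1) := by
      simp only [Lay.Btw]; omega
    -- inside chord with the smallest key
    obtain ⟨t, ht, hmin⟩ := Finset.exists_min_image
      (X.filter fun u => u ≠ x ∧ w.Btw (2 * x) (2 * x + 1) (2 * u + 1)) κ
      ⟨a, Finset.mem_filter.mpr ⟨haX, hax', hain⟩⟩
    rw [Finset.mem_filter] at ht
    obtain ⟨htX, htx, htin⟩ := ht
    have hta := hmin a (Finset.mem_filter.mpr ⟨haX, hax', hain⟩)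
    have htin2 := (hio t htX htx).mpr htin
    have htm := hX t htX
    have hnf2 : ∃ v ∈ X, κ v < κ t := by
      by_contra hc
      push Not at hc
      have := ((hM.first t htX hc).2 x hx).2
      simp only [Lay.Btw] at htin2
      omega
    obtain ⟨b, hb⟩ := T3_exists_pred htX hnf2
    have hbX := hb.1
    have hbt : κ b < κ t := hb.2.2.1
    have hbx : b ≠ x := by rintro rfl; omega
    have hbm := hX b hbX
    have hnb := T3_nx_cons hM hp hb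
    have f1 := hnb.2 (2 * x + 1) (by rwa [show (2 * x + 1) / 2 = x by omega])
    have f2 := hnb.1
    have f3 := hne (2 * x + 1) (2 * b + 1) (by omega) (by omega) (by omega)
    have hbin : w.Btw (2 * x) (2 * x + 1) (2 * b + 1) := by
      simp only [Lay.Btw] at htin2 ⊢; omega
    have := hmin b (Finset.mem_filter.mpr ⟨hbX, hbx, hbin⟩)
    omega
  refine ⟨by exact_mod_cast hord, fun v hv hcon => ?_⟩
  have hvx : v / 2 ≠ x := by
    intro e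
    rcases T3_node (v := v) with h | h
    · rw [h, e] at hcon; omega
    · rw [h, e] at hcon; omega
  have hvin : w.Btw (2 * x) (2 * x + 1) (2 * (v / 2)) := by
    rcases T3_node (v := v) with h | h
    · rw [← h]; simp only [Lay.Btw]; omega
    · rw [hio (v / 2) hv hvx, ← h]; simp only [Lay.Btw]; omega
  obtain ⟨t, ht, hmax⟩ := Finset.exists_max_image
    (X.filter fun u => u ≠ x ∧ w.Btw (2 * x) (2 * x + 1) (2 * u)) κ
    ⟨v / 2, Finset.mem_filter.mpr ⟨hv, hvx, hvin⟩⟩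
  rw [Finset.mem_filter] at ht
  obtain ⟨htX, htx, htin⟩ := ht
  have htin2 := (hio t htX htx).mp htin
  have htm := hX t htX
  have hnl : ∃ v ∈ X, κ t < κ v := by
    by_contra hc
    push Not at hc
    have := ((hM.last t htX hc).2 x hx).2
    simp only [Lay.Btw] at htin2
    omega
  obtain ⟨b, hb⟩ := T3_exists_succ htX hnl
  have hbX := hb.2.1
  have hbt : κ t < κ b := hb.2.2.1
  have hbm := hX b hbX
  have hnb := T3_nx_cons hM hp hb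
  have f1 := hnb.2 (2 * x + 1) (by rwa [show (2 * x + 1) / 2 = x by omega])
  have f2 := hnb.1
  have f3 := hne (2 * x + 1) (2 * b) (by omega) (by omega) (by omega)
  have hbx : b ≠ x := by
    rintro rfl
    simp only [Lay.Btw] at htin2
    omega
  have hbin : w.Btw (2 * x) (2 * x + 1) (2 * b) := by
    simp only [Lay.Btw] at htin2 ⊢; omega
  have := hmax b (Finset.mem_filter.mpr ⟨hbX, hbx, hbin⟩)
  omega

/-- composition of two gaps over a removed chord -/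
theorem T3_nx_join {w : Lay} {X : Finset ℕ} {x : ℕ} {α β : ℤ} {z z' : ℤ}
    (hz : ∀ v, v / 2 ∈ X.erase x → (w.pos v : ℤ) ≠ z ∧ (w.pos v : ℤ) ≠ z')
    (h1 : T3_NX w X α z) (h2 : T3_NX w X z z') (h3 : T3_NX w X z' β) :
    T3_NX w (X.erase x) α β := by
  refine ⟨by have := h1.1; have := h2.1; have := h3.1; omega, fun v hv hc => ?_⟩
  have hv2 := (Finset.mem_erase.mp hv).2
  have a1 := h1.2 v hv2
  have a2 := h2.2 v hv2
  have a3 := h3.2 v hv2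
  have a4 := hz v hv
  omega

theorem T3_nx_erase {w : Lay} {X : Finset ℕ} {x : ℕ} {α β : ℤ} (h : T3_NX w X α β) :
    T3_NX w (X.erase x) α β :=
  ⟨h.1, fun v hv => h.2 v (Finset.mem_erase.mp hv).2⟩

theorem mates_kill {w : Lay} {m : ℕ} (hg : w.Good (2 * m)) {X : Finset ℕ} (hX : ∀ t ∈ X, t < m)
    {κ : ℕ → ℕ} (hM : Mates w κ X) (hp : AllPos w X) {x : ℕ} (hx : x ∈ X)
    (hz : ∀ u ∈ X, u ≠ x → w.mat x u = 0) : Mates w κ (X.erase x) := by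
  have hxm := hX x hx
  have hiso := T3_isolated hg hX hM hp hx hz
  have hne : ∀ v, v / 2 ∈ X.erase x → (w.pos v : ℤ) ≠ w.pos (2 * x) ∧
      (w.pos v : ℤ) ≠ w.pos (2 * x + 1) := by
    intro v hv
    rw [Finset.mem_erase] at hv
    have hvm := hX _ hv.2
    refine ⟨fun h => ?_, fun h => ?_⟩
    · have := hg.inj v (2 * x) (by omega) (by omega) (by exact_mod_cast h)
      apply hv.1; omega
    · have := hg.inj v (2 * x + 1) (by omega) (by omega) (by exact_mod_cast h)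
      apply hv.1; omega
  have hL : ∀ t ∈ X, w.pos (2 * t + 1) < 2 * m := fun t ht => hg.lt _ (by have := hX t ht; omega)
  refine T3_mates_of_nx (L := 2 * m) (fun t ht u hu => hM.inj t (Finset.mem_erase.mp ht).2 u
    (Finset.mem_erase.mp hu).2) (fun t ht => hp t (Finset.mem_erase.mp ht).2) ?_ ?_ ?_ ?_
  · intro t u h
    rcases T3_cons_erase h with h1 | ⟨h1, h2⟩ | h1
    · exact T3_nx_erase (T3_nx_cons hM hp h1)
    · exact T3_nx_join hne (T3_nx_cons hM hp h1) hiso (T3_nx_cons hM hp h2)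
    · exact absurd hx h1
  · intro t ht h
    rcases T3_first_erase hx ht h hM.inj with h1 | ⟨h1, h2⟩
    · exact T3_nx_erase (T3_nx_first hM (Finset.mem_erase.mp ht).2 h1)
    · exact T3_nx_join hne (T3_nx_first hM hx h1) hiso (T3_nx_cons hM hp h2)
  · intro t ht h
    rcases T3_last_erase hx ht h hM.inj with h1 | ⟨h1, h2⟩
    · exact T3_nx_erase (T3_nx_last hM hL (Finset.mem_erase.mp ht).2 h1)
    · exact T3_nx_join hne (T3_nx_cons hM hp h2) hiso (T3_nx_last hM hL hx h1)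
  · intro v hv
    exact hg.lt v (by have := hX _ (Finset.mem_erase.mp hv).2; omega)

/-! ### positions after a block swap, over the integers -/

/-- the map of positions given by a block swap -/
def T3_f (P1 P2 P3 P4 s : ℤ) : ℤ :=
  if s ≤ P1 ∨ P4 ≤ s then s
  else if s < P2 then P4 - P2 + s
  else if s = P2 then P1 + P4 - P2
  else if s < P3 then P1 + P4 - P3 + (s - P2)
  else if s = P3 then P1 + P4 - P3
  else P1 + (s - P3)

theorem T3_f_pos {w : Lay} {z1 z2 z3 z4 : ℕ} (h12 : w.pos z1 < w.pos z2)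
    (h23 : w.pos z2 < w.pos z3) (h34 : w.pos z3 < w.pos z4) (x : ℕ) :
    ((w.swp z1 z2 z3 z4).pos x : ℤ) =
      T3_f (w.pos z1) (w.pos z2) (w.pos z3) (w.pos z4) (w.pos x) := by
  rw [Lay.swp_pos h12 h23 h34 x]
  unfold T3_f
  split_ifs <;> omega

/-- in which region is `s`, and what is the new position -/
theorem T3_f_reg {P1 P2 P3 P4 s : ℤ} (h12 : P1 < P2) (h23 : P2 < P3) (h34 : P3 < P4)
    (h1 : s ≠ P1) (h2 : s ≠ P2) (h3 : s ≠ P3) (h4 : s ≠ P4) :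
    (s < P1 ∧ T3_f P1 P2 P3 P4 s = s) ∨
    (P1 < s ∧ s < P2 ∧ T3_f P1 P2 P3 P4 s = P4 - P2 + s) ∨
    (P2 < s ∧ s < P3 ∧ T3_f P1 P2 P3 P4 s = P1 + P4 - P3 + (s - P2)) ∨
    (P3 < s ∧ s < P4 ∧ T3_f P1 P2 P3 P4 s = P1 + (s - P3)) ∨
    (P4 < s ∧ T3_f P1 P2 P3 P4 s = s) := by
  unfold T3_f
  split_ifs <;> omega

/-- gap without removed nodes -/
theorem T3_f0 {P1 P2 P3 P4 α β s : ℤ} (h12 : P1 < P2) (h23 : P2 < P3) (h34 : P3 < P4)
    (a1 : α ≠ P1) (a2 : α ≠ P2) (a3 : α ≠ P3) (a4 : α ≠ P4)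
    (b1 : β ≠ P1) (b2 : β ≠ P2) (b3 : β ≠ P3) (b4 : β ≠ P4)
    (s1 : s ≠ P1) (s2 : s ≠ P2) (s3 : s ≠ P3) (s4 : s ≠ P4)
    (hαβ : α < β) (n1 : ¬ (α < P1 ∧ P1 < β)) (n2 : ¬ (α < P2 ∧ P2 < β))
    (n3 : ¬ (α < P3 ∧ P3 < β)) (n4 : ¬ (α < P4 ∧ P4 < β)) :
    T3_f P1 P2 P3 P4 α < T3_f P1 P2 P3 P4 β ∧
    (T3_f P1 P2 P3 P4 α < T3_f P1 P2 P3 P4 s ∧ T3_f P1 P2 P3 P4 s < T3_f P1 P2 P3 P4 β →
      α < s ∧ s < β) := by
  have ra := T3_f_reg h12 h23 h34 a1 a2 a3 a4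
  have rb := T3_f_reg h12 h23 h34 b1 b2 b3 b4
  have rs := T3_f_reg h12 h23 h34 s1 s2 s3 s4
  generalize T3_f P1 P2 P3 P4 α = fα at *
  generalize T3_f P1 P2 P3 P4 β = fβ at *
  generalize T3_f P1 P2 P3 P4 s = fs at *
  rcases ra with ra | ra | ra | ra | ra <;> rcases rb with rb | rb | rb | rb | rb
  all_goals first | (exfalso; omega) | (rcases rs with rs | rs | rs | rs | rs <;> omega)

/-- gap with one removed chord -/
theorem T3_f1 {P1 P2 P3 P4 α β s z z' : ℤ} (h12 : P1 < P2) (h23 : P2 < P3) (h34 : P3 < P4)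
    (a1 : α ≠ P1) (a2 : α ≠ P2) (a3 : α ≠ P3) (a4 : α ≠ P4)
    (b1 : β ≠ P1) (b2 : β ≠ P2) (b3 : β ≠ P3) (b4 : β ≠ P4)
    (s1 : s ≠ P1) (s2 : s ≠ P2) (s3 : s ≠ P3) (s4 : s ≠ P4)
    (hz : (z = P1 ∧ z' = P3) ∨ (z = P3 ∧ z' = P1) ∨ (z = P2 ∧ z' = P4) ∨ (z = P4 ∧ z' = P2))
    (hα : α < z) (n1 : ¬ (α < P1 ∧ P1 < z)) (n2 : ¬ (α < P2 ∧ P2 < z))
    (n3 : ¬ (α < P3 ∧ P3 < z)) (n4 : ¬ (α < P4 ∧ P4 < z))
    (hβ : z' < β) (m1 : ¬ (z' < P1 ∧ P1 < β)) (m2 : ¬ (z' < P2 ∧ P2 < β))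
    (m3 : ¬ (z' < P3 ∧ P3 < β)) (m4 : ¬ (z' < P4 ∧ P4 < β)) :
    T3_f P1 P2 P3 P4 α < T3_f P1 P2 P3 P4 β ∧
    (T3_f P1 P2 P3 P4 α < T3_f P1 P2 P3 P4 s ∧ T3_f P1 P2 P3 P4 s < T3_f P1 P2 P3 P4 β →
      (α < s ∧ s < z) ∨ (z' < s ∧ s < β)) := by
  have ra := T3_f_reg h12 h23 h34 a1 a2 a3 a4
  have rb := T3_f_reg h12 h23 h34 b1 b2 b3 b4
  have rs := T3_f_reg h12 h23 h34 s1 s2 s3 s4
  generalize T3_f P1 P2 P3 P4 α = fα at *
  generalize T3_f P1 P2 P3 P4 β = fβ at *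
  generalize T3_f P1 P2 P3 P4 s = fs at *
  rcases hz with ⟨rfl, rfl⟩ | ⟨rfl, rfl⟩ | ⟨rfl, rfl⟩ | ⟨rfl, rfl⟩
  all_goals rcases ra with ra | ra | ra | ra | ra
  all_goals first | (exfalso; omega) | (rcases rb with rb | rb | rb | rb | rb)
  all_goals first | (exfalso; omega) | (rcases rs with rs | rs | rs | rs | rs <;> omega)

/-- gap with two removed chords -/
theorem T3_f2 {P1 P2 P3 P4 α β s z z' y y' : ℤ} (h12 : P1 < P2) (h23 : P2 < P3) (h34 : P3 < P4)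
    (a1 : α ≠ P1) (a2 : α ≠ P2) (a3 : α ≠ P3) (a4 : α ≠ P4)
    (b1 : β ≠ P1) (b2 : β ≠ P2) (b3 : β ≠ P3) (b4 : β ≠ P4)
    (s1 : s ≠ P1) (s2 : s ≠ P2) (s3 : s ≠ P3) (s4 : s ≠ P4)
    (hz : (z = P1 ∧ z' = P3) ∨ (z = P3 ∧ z' = P1) ∨ (z = P2 ∧ z' = P4) ∨ (z = P4 ∧ z' = P2))
    (hy : (y = P1 ∧ y' = P3) ∨ (y = P3 ∧ y' = P1) ∨ (y = P2 ∧ y' = P4) ∨ (y = P4 ∧ y' = P2))
    (hzy : z ≠ y ∧ z ≠ y')
    (hα : α < z) (n1 : ¬ (α < P1 ∧ P1 < z)) (n2 : ¬ (α < P2 ∧ P2 < z))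
    (n3 : ¬ (α < P3 ∧ P3 < z)) (n4 : ¬ (α < P4 ∧ P4 < z))
    (hy' : z' < y) (k1 : ¬ (z' < P1 ∧ P1 < y)) (k2 : ¬ (z' < P2 ∧ P2 < y))
    (k3 : ¬ (z' < P3 ∧ P3 < y)) (k4 : ¬ (z' < P4 ∧ P4 < y))
    (hβ : y' < β) (m1 : ¬ (y' < P1 ∧ P1 < β)) (m2 : ¬ (y' < P2 ∧ P2 < β))
    (m3 : ¬ (y' < P3 ∧ P3 < β)) (m4 : ¬ (y' < P4 ∧ P4 < β)) :
    T3_f P1 P2 P3 P4 α < T3_f P1 P2 P3 P4 β ∧
    (T3_f P1 P2 P3 P4 α < T3_f P1 P2 P3 P4 s ∧ T3_f P1 P2 P3 P4 s < T3_f P1 P2 P3 P4 β →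
      (α < s ∧ s < z) ∨ (z' < s ∧ s < y) ∨ (y' < s ∧ s < β)) := by
  have ra := T3_f_reg h12 h23 h34 a1 a2 a3 a4
  have rb := T3_f_reg h12 h23 h34 b1 b2 b3 b4
  have rs := T3_f_reg h12 h23 h34 s1 s2 s3 s4
  generalize T3_f P1 P2 P3 P4 α = fα at *
  generalize T3_f P1 P2 P3 P4 β = fβ at *
  generalize T3_f P1 P2 P3 P4 s = fs at *
  rcases hz with ⟨rfl, rfl⟩ | ⟨rfl, rfl⟩ | ⟨rfl, rfl⟩ | ⟨rfl, rfl⟩
  all_goals rcases hy with ⟨rfl, rfl⟩ | ⟨rfl, rfl⟩ | ⟨rfl, rfl⟩ | ⟨rfl, rfl⟩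
  all_goals first | (exfalso; omega) | skip
  all_goals rcases ra with ra | ra | ra | ra | ra
  all_goals first | (exfalso; omega) | (rcases rb with rb | rb | rb | rb | rb)
  all_goals first | (exfalso; omega) | (rcases rs with rs | rs | rs | rs | rs <;> omega)


/-- configuration of a block swap of two crossing chords -/
structure T3_Cfg (w : Lay) (m : ℕ) (X : Finset ℕ) (z1 z2 z3 z4 p q : ℕ) : Prop where
  hg : w.Good (2 * m)
  hX : ∀ t ∈ X, t < m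
  hp : p ∈ X
  hq : q ∈ X
  hp13 : (z1 = 2 * p ∧ z3 = 2 * p + 1) ∨ (z1 = 2 * p + 1 ∧ z3 = 2 * p)
  hq24 : (z2 = 2 * q ∧ z4 = 2 * q + 1) ∨ (z2 = 2 * q + 1 ∧ z4 = 2 * q)
  h12 : w.pos z1 < w.pos z2
  h23 : w.pos z2 < w.pos z3
  h34 : w.pos z3 < w.pos z4

/-- `α` is not the position of one of the four ends -/
def T3_Np (w : Lay) (z1 z2 z3 z4 : ℕ) (α : ℤ) : Prop :=
  α ≠ w.pos z1 ∧ α ≠ w.pos z2 ∧ α ≠ w.pos z3 ∧ α ≠ w.pos z4

section swap

variable {w : Lay} {m : ℕ} {X : Finset ℕ} {z1 z2 z3 z4 p q : ℕ}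

theorem T3_Cfg.zX (C : T3_Cfg w m X z1 z2 z3 z4 p q) :
    z1 / 2 ∈ X ∧ z2 / 2 ∈ X ∧ z3 / 2 ∈ X ∧ z4 / 2 ∈ X := by
  have hp := C.hp
  have hq := C.hq
  have e1 : z1 / 2 = p := by have := C.hp13; omega
  have e2 : z2 / 2 = q := by have := C.hq24; omega
  have e3 : z3 / 2 = p := by have := C.hp13; omega
  have e4 : z4 / 2 = q := by have := C.hq24; omega
  rw [e1, e2, e3, e4]
  exact ⟨hp, hq, hp, hq⟩

theorem T3_Cfg.np (C : T3_Cfg w m X z1 z2 z3 z4 p q) {v : ℕ} (hv : v / 2 ∈ (X.erase p).erase q) :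
    T3_Np w z1 z2 z3 z4 (w.pos v) := by
  have hv1 := Finset.mem_erase.mp hv
  have hv2 := Finset.mem_erase.mp hv1.2
  have hvm := C.hX _ hv2.2
  have hpm := C.hX _ C.hp
  have hqm := C.hX _ C.hq
  have hp13 := C.hp13
  have hq24 := C.hq24
  have key : ∀ z, z < 2 * m → (z / 2 = p ∨ z / 2 = q) → (w.pos v : ℤ) ≠ w.pos z := by
    intro z hz hz2 h
    have := C.hg.inj v z (by omega) hz (by exact_mod_cast h)
    subst this
    rcases hz2 with h | h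
    · exact hv2.1 h
    · exact hv1.1 h
  exact ⟨key z1 (by omega) (by omega), key z2 (by omega) (by omega), key z3 (by omega) (by omega),
    key z4 (by omega) (by omega)⟩

theorem T3_Cfg.pz (C : T3_Cfg w m X z1 z2 z3 z4 p q) :
    (w.pos z1 : ℤ) < w.pos z2 ∧ (w.pos z2 : ℤ) < w.pos z3 ∧ (w.pos z3 : ℤ) < w.pos z4 :=
  ⟨by exact_mod_cast C.h12, by exact_mod_cast C.h23, by exact_mod_cast C.h34⟩

theorem T3_Cfg.posn (C : T3_Cfg w m X z1 z2 z3 z4 p q) (x : ℕ) :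
    ((w.swp z1 z2 z3 z4).pos x : ℤ) =
      T3_f (w.pos z1) (w.pos z2) (w.pos z3) (w.pos z4) (w.pos x) :=
  T3_f_pos C.h12 C.h23 C.h34 x

theorem T3_swp_nx0 (C : T3_Cfg w m X z1 z2 z3 z4 p q) {α β : ℤ} (ha : T3_Np w z1 z2 z3 z4 α)
    (hb : T3_Np w z1 z2 z3 z4 β) (h : T3_NX w X α β) :
    T3_NX (w.swp z1 z2 z3 z4) ((X.erase p).erase q)
      (T3_f (w.pos z1) (w.pos z2) (w.pos z3) (w.pos z4) α)
      (T3_f (w.pos z1) (w.pos z2) (w.pos z3) (w.pos z4) β) := by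
  obtain ⟨c1, c2, c3⟩ := C.pz
  obtain ⟨x1, x2, x3, x4⟩ := C.zX
  obtain ⟨a1, a2, a3, a4⟩ := ha
  obtain ⟨b1, b2, b3, b4⟩ := hb
  have key := fun (s : ℤ) (s1 : s ≠ w.pos z1) (s2 : s ≠ w.pos z2) (s3 : s ≠ w.pos z3)
      (s4 : s ≠ w.pos z4) => T3_f0 c1 c2 c3 a1 a2 a3 a4 b1 b2 b3 b4 s1 s2 s3 s4 h.1
      (h.2 z1 x1) (h.2 z2 x2) (h.2 z3 x3) (h.2 z4 x4)
  refine ⟨(key α a1 a2 a3 a4).1, fun v hv hc => ?_⟩
  rw [C.posn] at hc
  obtain ⟨v1, v2, v3, v4⟩ := C.np hv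
  have := (key _ v1 v2 v3 v4).2 hc
  exact h.2 v (Finset.mem_erase.mp (Finset.mem_erase.mp hv).2).2 this

theorem T3_Cfg.ends (C : T3_Cfg w m X z1 z2 z3 z4 p q) {x : ℕ} (hx : x = p ∨ x = q) :
    ((w.pos (2 * x) : ℤ) = w.pos z1 ∧ (w.pos (2 * x + 1) : ℤ) = w.pos z3) ∨
    ((w.pos (2 * x) : ℤ) = w.pos z3 ∧ (w.pos (2 * x + 1) : ℤ) = w.pos z1) ∨
    ((w.pos (2 * x) : ℤ) = w.pos z2 ∧ (w.pos (2 * x + 1) : ℤ) = w.pos z4) ∨
    ((w.pos (2 * x) : ℤ) = w.pos z4 ∧ (w.pos (2 * x + 1) : ℤ) = w.pos z2) := by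
  rcases hx with rfl | rfl
  · rcases C.hp13 with ⟨h1, h2⟩ | ⟨h1, h2⟩
    · left; rw [h1, h2]; exact ⟨rfl, rfl⟩
    · right; left; rw [h1, h2]; exact ⟨rfl, rfl⟩
  · rcases C.hq24 with ⟨h1, h2⟩ | ⟨h1, h2⟩
    · right; right; left; rw [h1, h2]; exact ⟨rfl, rfl⟩
    · right; right; right; rw [h1, h2]; exact ⟨rfl, rfl⟩

theorem T3_swp_nx1 (C : T3_Cfg w m X z1 z2 z3 z4 p q) {α β : ℤ} (ha : T3_Np w z1 z2 z3 z4 α)
    (hb : T3_Np w z1 z2 z3 z4 β) {x : ℕ} (hx : x = p ∨ x = q)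
    (h : T3_NX w X α (w.pos (2 * x))) (h' : T3_NX w X (w.pos (2 * x + 1)) β) :
    T3_NX (w.swp z1 z2 z3 z4) ((X.erase p).erase q)
      (T3_f (w.pos z1) (w.pos z2) (w.pos z3) (w.pos z4) α)
      (T3_f (w.pos z1) (w.pos z2) (w.pos z3) (w.pos z4) β) := by
  obtain ⟨c1, c2, c3⟩ := C.pz
  obtain ⟨x1, x2, x3, x4⟩ := C.zX
  obtain ⟨a1, a2, a3, a4⟩ := ha
  obtain ⟨b1, b2, b3, b4⟩ := hb
  have key := fun (s : ℤ) (s1 : s ≠ w.pos z1) (s2 : s ≠ w.pos z2) (s3 : s ≠ w.pos z3)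
      (s4 : s ≠ w.pos z4) => T3_f1 c1 c2 c3 a1 a2 a3 a4 b1 b2 b3 b4 s1 s2 s3 s4 (C.ends hx) h.1
      (h.2 z1 x1) (h.2 z2 x2) (h.2 z3 x3) (h.2 z4 x4) h'.1
      (h'.2 z1 x1) (h'.2 z2 x2) (h'.2 z3 x3) (h'.2 z4 x4)
  refine ⟨(key α a1 a2 a3 a4).1, fun v hv hc => ?_⟩
  rw [C.posn] at hc
  obtain ⟨v1, v2, v3, v4⟩ := C.np hv
  have hvX := (Finset.mem_erase.mp (Finset.mem_erase.mp hv).2).2
  rcases (key _ v1 v2 v3 v4).2 hc with this | this
  · exact h.2 v hvX this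
  · exact h'.2 v hvX this

theorem T3_swp_nx2 (C : T3_Cfg w m X z1 z2 z3 z4 p q) {α β : ℤ} (ha : T3_Np w z1 z2 z3 z4 α)
    (hb : T3_Np w z1 z2 z3 z4 β) {x y : ℕ} (hxy : (x = p ∧ y = q) ∨ (x = q ∧ y = p))
    (h : T3_NX w X α (w.pos (2 * x))) (h' : T3_NX w X (w.pos (2 * x + 1)) (w.pos (2 * y)))
    (h'' : T3_NX w X (w.pos (2 * y + 1)) β) :
    T3_NX (w.swp z1 z2 z3 z4) ((X.erase p).erase q)
      (T3_f (w.pos z1) (w.pos z2) (w.pos z3) (w.pos z4) α)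
      (T3_f (w.pos z1) (w.pos z2) (w.pos z3) (w.pos z4) β) := by
  obtain ⟨c1, c2, c3⟩ := C.pz
  obtain ⟨x1, x2, x3, x4⟩ := C.zX
  obtain ⟨a1, a2, a3, a4⟩ := ha
  obtain ⟨b1, b2, b3, b4⟩ := hb
  have hx : x = p ∨ x = q := by tauto
  have hy : y = p ∨ y = q := by tauto
  have hne : (w.pos (2 * x) : ℤ) ≠ w.pos (2 * y) ∧ (w.pos (2 * x) : ℤ) ≠ w.pos (2 * y + 1) := by
    have hpq : p ≠ q := by
      intro e
      have i1 := C.hp13
      have i2 := C.hq24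
      have i3 := C.h12
      have i4 := C.h23
      have i5 := C.h34
      rcases i1 with ⟨rfl, rfl⟩ | ⟨rfl, rfl⟩ <;> rcases i2 with ⟨rfl, rfl⟩ | ⟨rfl, rfl⟩ <;>
        subst e <;> omega
    have hpm := C.hX _ C.hp
    have hqm := C.hX _ C.hq
    refine ⟨fun e => ?_, fun e => ?_⟩
    · have := C.hg.inj (2 * x) (2 * y) (by omega) (by omega) (by exact_mod_cast e)
      omega
    · have := C.hg.inj (2 * x) (2 * y + 1) (by omega) (by omega) (by exact_mod_cast e)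
      omega
  have key := fun (s : ℤ) (s1 : s ≠ w.pos z1) (s2 : s ≠ w.pos z2) (s3 : s ≠ w.pos z3)
      (s4 : s ≠ w.pos z4) => T3_f2 c1 c2 c3 a1 a2 a3 a4 b1 b2 b3 b4 s1 s2 s3 s4
      (C.ends hx) (C.ends hy) hne h.1
      (h.2 z1 x1) (h.2 z2 x2) (h.2 z3 x3) (h.2 z4 x4) h'.1
      (h'.2 z1 x1) (h'.2 z2 x2) (h'.2 z3 x3) (h'.2 z4 x4) h''.1
      (h''.2 z1 x1) (h''.2 z2 x2) (h''.2 z3 x3) (h''.2 z4 x4)
  refine ⟨(key α a1 a2 a3 a4).1, fun v hv hc => ?_⟩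
  rw [C.posn] at hc
  obtain ⟨v1, v2, v3, v4⟩ := C.np hv
  have hvX := (Finset.mem_erase.mp (Finset.mem_erase.mp hv).2).2
  rcases (key _ v1 v2 v3 v4).2 hc with this | this | this
  · exact h.2 v hvX this
  · exact h'.2 v hvX this
  · exact h''.2 v hvX this

end swap

section cases2

variable {κ : ℕ → ℕ} {X : Finset ℕ} {p q : ℕ}

theorem T3_cons_erase2 (hp : p ∈ X) (hq : q ∈ X) (hpq : q ≠ p) {t u : ℕ}
    (h : Cons κ ((X.erase p).erase q) t u) :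
    Cons κ X t u ∨ (∃ x, (x = p ∨ x = q) ∧ Cons κ X t x ∧ Cons κ X x u) ∨
    ∃ x y, ((x = p ∧ y = q) ∨ (x = q ∧ y = p)) ∧ Cons κ X t x ∧ Cons κ X x y ∧ Cons κ X y u := by
  rcases T3_cons_erase h with h1 | ⟨h1, h2⟩ | h1
  · rcases T3_cons_erase h1 with g1 | ⟨g1, g2⟩ | g1
    · exact Or.inl g1
    · exact Or.inr (Or.inl ⟨p, Or.inl rfl, g1, g2⟩)
    · exact absurd hp g1
  · rcases T3_cons_erase h1 with g1 | ⟨g1, g2⟩ | g1
    · rcases T3_cons_erase h2 with k1 | ⟨k1, k2⟩ | k1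
      · exact Or.inr (Or.inl ⟨q, Or.inr rfl, g1, k1⟩)
      · exact Or.inr (Or.inr ⟨q, p, Or.inr ⟨rfl, rfl⟩, g1, k1, k2⟩)
      · exact absurd hp k1
    · rcases T3_cons_erase h2 with k1 | ⟨k1, k2⟩ | k1
      · exact Or.inr (Or.inr ⟨p, q, Or.inl ⟨rfl, rfl⟩, g1, g2, k1⟩)
      · have a := g2.2.2.1
        have b := k1.2.2.1
        omega
      · exact absurd hp k1
    · exact absurd hp g1
  · exact absurd (Finset.mem_erase.mpr ⟨hpq, hq⟩) h1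

theorem T3_first_erase2 (hinj : ∀ t ∈ X, ∀ u ∈ X, κ t = κ u → t = u) (hp : p ∈ X) (hq : q ∈ X)
    (hpq : q ≠ p) {t : ℕ} (ht : t ∈ (X.erase p).erase q)
    (h : ∀ v ∈ (X.erase p).erase q, κ t ≤ κ v) :
    (∀ v ∈ X, κ t ≤ κ v) ∨ (∃ x, (x = p ∨ x = q) ∧ (∀ v ∈ X, κ x ≤ κ v) ∧ Cons κ X x t) ∨
    ∃ x y, ((x = p ∧ y = q) ∨ (x = q ∧ y = p)) ∧ (∀ v ∈ X, κ x ≤ κ v) ∧ Cons κ X x y ∧
      Cons κ X y t := by
  have hinj' : ∀ t ∈ X.erase p, ∀ u ∈ X.erase p, κ t = κ u → t = u := fun t ht u hu =>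
    hinj t (Finset.mem_erase.mp ht).2 u (Finset.mem_erase.mp hu).2
  have hq' : q ∈ X.erase p := Finset.mem_erase.mpr ⟨hpq, hq⟩
  rcases T3_first_erase hq' ht h hinj' with h1 | ⟨h1, h2⟩
  · rcases T3_first_erase hp (Finset.mem_erase.mp ht).2 h1 hinj with g1 | ⟨g1, g2⟩
    · exact Or.inl g1
    · exact Or.inr (Or.inl ⟨p, Or.inl rfl, g1, g2⟩)
  · rcases T3_first_erase hp hq' h1 hinj with g1 | ⟨g1, g2⟩
    · rcases T3_cons_erase h2 with k1 | ⟨k1, k2⟩ | k1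
      · exact Or.inr (Or.inl ⟨q, Or.inr rfl, g1, k1⟩)
      · exact Or.inr (Or.inr ⟨q, p, Or.inr ⟨rfl, rfl⟩, g1, k1, k2⟩)
      · exact absurd hp k1
    · rcases T3_cons_erase h2 with k1 | ⟨k1, k2⟩ | k1
      · exact Or.inr (Or.inr ⟨p, q, Or.inl ⟨rfl, rfl⟩, g1, g2, k1⟩)
      · have a := g2.2.2.1
        have b := k1.2.2.1
        omega
      · exact absurd hp k1

theorem T3_last_erase2 (hinj : ∀ t ∈ X, ∀ u ∈ X, κ t = κ u → t = u) (hp : p ∈ X) (hq : q ∈ X)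
    (hpq : q ≠ p) {t : ℕ} (ht : t ∈ (X.erase p).erase q)
    (h : ∀ v ∈ (X.erase p).erase q, κ v ≤ κ t) :
    (∀ v ∈ X, κ v ≤ κ t) ∨ (∃ x, (x = p ∨ x = q) ∧ (∀ v ∈ X, κ v ≤ κ x) ∧ Cons κ X t x) ∨
    ∃ x y, ((x = p ∧ y = q) ∨ (x = q ∧ y = p)) ∧ (∀ v ∈ X, κ v ≤ κ y) ∧ Cons κ X t x ∧
      Cons κ X x y := by
  have hinj' : ∀ t ∈ X.erase p, ∀ u ∈ X.erase p, κ t = κ u → t = u := fun t ht u hu =>
    hinj t (Finset.mem_erase.mp ht).2 u (Finset.mem_erase.mp hu).2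
  have hq' : q ∈ X.erase p := Finset.mem_erase.mpr ⟨hpq, hq⟩
  rcases T3_last_erase hq' ht h hinj' with h1 | ⟨h1, h2⟩
  · rcases T3_last_erase hp (Finset.mem_erase.mp ht).2 h1 hinj with g1 | ⟨g1, g2⟩
    · exact Or.inl g1
    · exact Or.inr (Or.inl ⟨p, Or.inl rfl, g1, g2⟩)
  · rcases T3_last_erase hp hq' h1 hinj with g1 | ⟨g1, g2⟩
    · rcases T3_cons_erase h2 with k1 | ⟨k1, k2⟩ | k1
      · exact Or.inr (Or.inl ⟨q, Or.inr rfl, g1, k1⟩)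
      · exact Or.inr (Or.inr ⟨p, q, Or.inl ⟨rfl, rfl⟩, g1, k1, k2⟩)
      · exact absurd hp k1
    · rcases T3_cons_erase h2 with k1 | ⟨k1, k2⟩ | k1
      · exact Or.inr (Or.inr ⟨q, p, Or.inr ⟨rfl, rfl⟩, g1, k1, g2⟩)
      · have a := g2.2.2.1
        have b := k2.2.2.1
        omega
      · exact absurd hp k1

end cases2

theorem mates_swp {w : Lay} {m : ℕ} (hg : w.Good (2 * m)) {X : Finset ℕ} (hX : ∀ t ∈ X, t < m)
    {κ : ℕ → ℕ} (hM : Mates w κ X) (hpos : AllPos w X) {z1 z2 z3 z4 p q : ℕ} (hp : p ∈ X)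
    (hq : q ∈ X) (hp13 : (z1 = 2 * p ∧ z3 = 2 * p + 1) ∨ (z1 = 2 * p + 1 ∧ z3 = 2 * p))
    (hq24 : (z2 = 2 * q ∧ z4 = 2 * q + 1) ∨ (z2 = 2 * q + 1 ∧ z4 = 2 * q))
    (h12 : w.pos z1 < w.pos z2) (h23 : w.pos z2 < w.pos z3) (h34 : w.pos z3 < w.pos z4) :
    Mates (w.swp z1 z2 z3 z4) κ ((X.erase p).erase q) ∧
      AllPos (w.swp z1 z2 z3 z4) ((X.erase p).erase q) := by
  have C : T3_Cfg w m X z1 z2 z3 z4 p q := ⟨hg, hX, hp, hq, hp13, hq24, h12, h23, h34⟩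
  have hpm := hX _ hp
  have hqm := hX _ hq
  have hqp : q ≠ p := by
    intro e
    subst e
    rcases hp13 with ⟨rfl, rfl⟩ | ⟨rfl, rfl⟩ <;> rcases hq24 with ⟨rfl, rfl⟩ | ⟨rfl, rfl⟩ <;> omega
  have hmem : ∀ t ∈ (X.erase p).erase q, t ∈ X := fun t ht =>
    (Finset.mem_erase.mp (Finset.mem_erase.mp ht).2).2
  have hAP : AllPos (w.swp z1 z2 z3 z4) ((X.erase p).erase q) := by
    intro t ht
    have key : ∀ v, v / 2 = t → (w.swp z1 z2 z3 z4).sg v = w.sg v := by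
      intro v hv
      obtain ⟨v1, v2, v3, v4⟩ := C.np (v := v) (by rw [hv]; exact ht)
      exact Lay.swp_sg h12 h23 h34 v (by exact_mod_cast v2) (by exact_mod_cast v3)
    rw [key (2 * t) (by omega), key (2 * t + 1) (by omega)]
    exact hpos t (hmem t ht)
  refine ⟨?_, hAP⟩
  have hL : ∀ t ∈ X, w.pos (2 * t + 1) < 2 * m := fun t ht => hg.lt _ (by have := hX t ht; omega)
  have i1 := hg.lt z1 (by omega)
  have i2 := hg.lt z2 (by omega)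
  have i3 := hg.lt z3 (by omega)
  have i4 := hg.lt z4 (by omega)
  have npa : T3_Np w z1 z2 z3 z4 (-1) := by
    refine ⟨?_, ?_, ?_, ?_⟩ <;> omega
  have npb : T3_Np w z1 z2 z3 z4 ((2 * m : ℕ) : ℤ) := by
    refine ⟨?_, ?_, ?_, ?_⟩ <;> omega
  have fa : T3_f (w.pos z1) (w.pos z2) (w.pos z3) (w.pos z4) (-1) = -1 := by
    unfold T3_f; rw [if_pos]; omega
  have fb : T3_f (w.pos z1) (w.pos z2) (w.pos z3) (w.pos z4) ((2 * m : ℕ) : ℤ) =
      ((2 * m : ℕ) : ℤ) := by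
    unfold T3_f; rw [if_pos]; omega
  have np0 : ∀ t ∈ (X.erase p).erase q, T3_Np w z1 z2 z3 z4 (w.pos (2 * t)) := fun t ht =>
    C.np (by rwa [show 2 * t / 2 = t by omega])
  have np1 : ∀ t ∈ (X.erase p).erase q, T3_Np w z1 z2 z3 z4 (w.pos (2 * t + 1)) := fun t ht =>
    C.np (by rwa [show (2 * t + 1) / 2 = t by omega])
  have nc : ∀ t u, Cons κ X t u → T3_NX w X (w.pos (2 * t + 1)) (w.pos (2 * u)) :=
    fun t u h => T3_nx_cons hM hpos h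
  refine T3_mates_of_nx (L := 2 * m) (fun t ht u hu => hM.inj t (hmem t ht) u (hmem u hu))
    hAP ?_ ?_ ?_ ?_
  · intro t u h
    rw [C.posn, C.posn]
    have ht := h.1
    have hu := h.2.1
    rcases T3_cons_erase2 hp hq hqp h with h1 | ⟨x, hx, h1, h2⟩ | ⟨x, y, hxy, h1, h2, h3⟩
    · exact T3_swp_nx0 C (np1 t ht) (np0 u hu) (nc _ _ h1)
    · exact T3_swp_nx1 C (np1 t ht) (np0 u hu) hx (nc _ _ h1) (nc _ _ h2)
    · exact T3_swp_nx2 C (np1 t ht) (np0 u hu) hxy (nc _ _ h1) (nc _ _ h2) (nc _ _ h3)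
  · intro t ht h
    rw [C.posn, ← fa]
    rcases T3_first_erase2 hM.inj hp hq hqp ht h with h1 | ⟨x, hx, h1, h2⟩ |
      ⟨x, y, hxy, h1, h2, h3⟩
    · exact T3_swp_nx0 C npa (np0 t ht) (T3_nx_first hM (hmem t ht) h1)
    · exact T3_swp_nx1 C npa (np0 t ht) hx (T3_nx_first hM h2.1 h1) (nc _ _ h2)
    · exact T3_swp_nx2 C npa (np0 t ht) hxy (T3_nx_first hM h2.1 h1) (nc _ _ h2) (nc _ _ h3)
  · intro t ht h
    rw [C.posn, ← fb]
    rcases T3_last_erase2 hM.inj hp hq hqp ht h with h1 | ⟨x, hx, h1, h2⟩ |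
      ⟨x, y, hxy, h1, h2, h3⟩
    · exact T3_swp_nx0 C (np1 t ht) npb (T3_nx_last hM hL (hmem t ht) h1)
    · exact T3_swp_nx1 C (np1 t ht) npb hx (nc _ _ h2) (T3_nx_last hM hL h2.2.1 h1)
    · exact T3_swp_nx2 C (np1 t ht) npb hxy (nc _ _ h2) (nc _ _ h3)
        (T3_nx_last hM hL h3.2.1 h1)
  · intro v hv
    have := hX _ (hmem _ hv)
    exact (Lay.Good.swp hg (by omega) (by omega) (by omega) (by omega)).lt v (by omega)

end SBR
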