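/-
SBR/T5a.lean : phase 2, pop, kill and end.
-/
import Pool.Agent.SBR.T2a
import Pool.Agent.SBR.T3

namespace SBR

private theorem T5a_cn_mem {w : Lay} {X : Finset ℕ} {t u : ℕ} (ht : t ∈ X) (h : Cn w X t u) :
    u ∈ X := by
  induction h with
  | refl => exact ht
  | tail _ h2 _ => exact h2.2.1

private theorem T5a_apos {w : Lay} {X : Finset ℕ} (hp : AllPos w X) {t : ℕ} (ht : t ∈ X) :
    w.mat t t = 0 := by
  have := hp t ht
  simp only [Lay.mat, if_true, this.1, this.2]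
  decide

private theorem T5a_ntch {w : Lay} {X : Finset ℕ} {c t : ℕ} (ht : t ∈ X)
    (h : ∀ u ∈ X, w.rvc c u = 0) : ¬ Tch w X c t := by
  rintro ⟨u, hu, hne⟩
  exact hne (h u (T5a_cn_mem ht hu))

theorem ph2_pop {m : ℕ} {A0 : ℕ → ℕ → ZMod 2} {w : Lay} {S : Finset ℕ} {ord : List ℕ}
    {m1 m2 : ℕ → ℕ} {X : Finset ℕ} {κ : ℕ → ℕ} {gg : ℕ} {st : List ℕ}
    (h : Ph2 m A0 w S ord m1 m2 X κ (gg :: st)) (h1 : ∀ t ∈ X, w.rvc (m1 gg) t = 0)
    (h2 : ∀ t ∈ X, w.rvc (m2 gg) t = 0) : Ph2 m A0 w S ord m1 m2 X κ st := by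
  refine ⟨h.alg, h.XS, h.clo, h.apos, h.mates, fun a ha => h.stk a (List.mem_cons_of_mem _ ha),
    (List.nodup_cons.1 h.nd).2, ?_, ?_, ?_⟩
  · intro up a dn hst pre post hord h' hh'
    rcases h.V (gg :: up) a dn (by rw [hst]; rfl) pre post hord h' hh' with h3 | h3
    · rcases List.mem_cons.1 h3 with h4 | h4
      · right
        intro t ht
        rw [h4, Lay.vec_eq_rvc, h1 t ht, h2 t ht, add_zero]
      · exact Or.inl h4
    · exact Or.inr h3
  · intro up a dn hst t ht hup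
    refine h.P (gg :: up) a dn (by rw [hst]; rfl) t ht ?_
    intro h' hh'
    rcases List.mem_cons.1 hh' with h4 | h4
    · rw [h4]; exact ⟨T5a_ntch ht h1, T5a_ntch ht h2⟩
    · exact hup h' h4
  · intro t ht hu
    obtain ⟨a, ha, hT⟩ := h.T t ht hu
    rcases List.mem_cons.1 ha with h4 | h4
    · rw [h4] at hT
      rcases hT with hT | hT
      · exact absurd hT (T5a_ntch ht h1)
      · exact absurd hT (T5a_ntch ht h2)
    · exact ⟨a, h4, hT⟩

theorem ph2_kill {m : ℕ} {A0 : ℕ → ℕ → ZMod 2} {w : Lay} {S : Finset ℕ} {ord : List ℕ}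
    {m1 m2 : ℕ → ℕ} {X : Finset ℕ} {κ : ℕ → ℕ} {st : List ℕ}
    (h : Ph2 m A0 w S ord m1 m2 X κ st) {x : ℕ} (hx : x ∈ X)
    (hz : ∀ u ∈ X, u ≠ x → w.mat x u = 0) :
    Ph2 m A0 w (S.erase x) ord m1 m2 (X.erase x) κ st := by
  have hXm : ∀ t ∈ X, t < m := fun t ht => h.alg.sub t (h.XS ht)
  have hadj : ∀ a b, Adj w (X.erase x) a b ↔ Adj w X a b := by
    intro a b
    constructor
    · rintro ⟨ha, hb, hab, hne⟩
      exact ⟨Finset.mem_of_mem_erase ha, Finset.mem_of_mem_erase hb, hab, hne⟩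
    · rintro ⟨ha, hb, hab, hne⟩
      refine ⟨Finset.mem_erase.2 ⟨?_, ha⟩, Finset.mem_erase.2 ⟨?_, hb⟩, hab, hne⟩
      · rintro rfl
        exact hne (hz b hb (Ne.symm hab))
      · rintro rfl
        apply hne
        rw [Lay.mat_comm h.alg.good (by have := hXm b hx; omega) (by have := hXm a ha; omega)]
        exact hz a ha hab
  have hcn : ∀ a b, Cn w (X.erase x) a b ↔ Cn w X a b := by
    intro a b
    have : Adj w (X.erase x) = Adj w X := by
      funext a b; exact propext (hadj a b)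
    unfold Cn; rw [this]
  have htch : ∀ c t, Tch w (X.erase x) c t ↔ Tch w X c t := by
    intro c t
    simp only [Tch, hcn]
  refine ⟨?_, ?_, ?_, ?_, ?_, h.stk, h.nd, ?_, ?_, ?_⟩
  · refine alg_kill h.alg (h.XS hx) ?_
    intro u hu
    by_cases hux : u ∈ X
    · by_cases e : u = x
      · rw [e]; exact T5a_apos h.apos hx
      · exact hz u hux e
    · exact h.clo x hx u hu hux
  · intro t ht
    rw [Finset.mem_erase] at ht ⊢
    exact ⟨ht.1, h.XS ht.2⟩
  · intro t ht u hu hux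
    rw [Finset.mem_erase] at ht hu
    exact h.clo t ht.2 u hu.2 (fun h' => hux (Finset.mem_erase.2 ⟨hu.1, h'⟩))
  · intro t ht
    exact h.apos t (Finset.mem_of_mem_erase ht)
  · exact mates_kill h.alg.good hXm h.mates h.apos hx hz
  · intro up a dn hst pre post hord h' hh'
    rcases h.V up a dn hst pre post hord h' hh' with h3 | h3
    · exact Or.inl h3
    · exact Or.inr fun t ht => h3 t (Finset.mem_of_mem_erase ht)
  · intro up a dn hst t ht hup
    simp only [htch] at hup ⊢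
    exact h.P up a dn hst t (Finset.mem_of_mem_erase ht) hup
  · intro t ht hu
    simp only [htch]
    obtain ⟨u, hu1, hu2, hu3⟩ := hu
    exact h.T t (Finset.mem_of_mem_erase ht) ⟨u, Finset.mem_of_mem_erase hu1, hu2, hu3⟩

theorem ph2_end {m : ℕ} {A0 : ℕ → ℕ → ZMod 2} {w : Lay} {S : Finset ℕ} {ord : List ℕ}
    {m1 m2 : ℕ → ℕ} {X : Finset ℕ} {κ : ℕ → ℕ} (h : Ph2 m A0 w S ord m1 m2 X κ []) :
    ∀ t ∈ X, ∀ u ∈ S, w.mat t u = 0 := by
  intro t ht u hu
  by_cases hux : u ∈ X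
  · by_cases e : u = t
    · rw [e]; exact T5a_apos h.apos ht
    · by_contra hne
      obtain ⟨a, ha, -⟩ := h.T t ht ⟨u, hux, e, hne⟩
      simp at ha
  · exact h.clo t ht u hu hux

end SBR
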