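/-
SBR/T2b.lean : the algebraic invariant under a block swap (package T2b).
-/
import Pool.Agent.SBR.State

namespace SBR

private theorem t2b_split {pre post pre' post' : List ℕ} {x y g h : ℕ}
    (he : pre ++ x :: y :: g :: post = pre' ++ h :: post') :
    (∃ r, pre = pre' ++ h :: r ∧ post' = r ++ x :: y :: g :: post) ∨
    (pre' = pre ∧ h = x ∧ post' = y :: g :: post) ∨
    (pre' = pre ++ [x] ∧ h = y ∧ post' = g :: post) ∨
    (pre' = pre ++ [x, y] ∧ h = g ∧ post' = post) ∨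
    (∃ r, pre' = pre ++ x :: y :: g :: r ∧ post = r ++ h :: post') := by
  rcases List.append_eq_append_iff.1 he with ⟨a, h1, h2⟩ | ⟨c, h1, h2⟩
  · rcases a with _ | ⟨a1, _ | ⟨a2, _ | ⟨a3, a⟩⟩⟩
    · simp only [List.nil_append, List.cons.injEq] at h2
      right; left
      exact ⟨by simpa using h1, h2.1.symm, h2.2.symm⟩
    · simp only [List.cons_append, List.nil_append, List.cons.injEq] at h2
      right; right; left
      exact ⟨by rw [h1, h2.1], h2.2.1.symm, h2.2.2.symm⟩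
    · simp only [List.cons_append, List.nil_append, List.cons.injEq] at h2
      right; right; right; left
      exact ⟨by rw [h1, h2.1, h2.2.1], h2.2.2.1.symm, h2.2.2.2.symm⟩
    · simp only [List.cons_append, List.cons.injEq] at h2
      right; right; right; right
      exact ⟨a, by rw [h1, h2.1, h2.2.1, h2.2.2.1], h2.2.2.2⟩
  · rcases c with _ | ⟨c1, c⟩
    · simp only [List.nil_append, List.cons.injEq] at h2
      right; left
      exact ⟨by simpa using h1.symm, h2.1, h2.2⟩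
    · simp only [List.cons_append, List.cons.injEq] at h2
      left
      exact ⟨c, by rw [h1, h2.1], h2.2⟩

/-- number of ends of a chord between two nodes, both orders -/
private theorem t2b_bc {w : Lay} {L : ℕ} (hg : w.Good L) {a b p t : ℕ} (hp : 2 * p + 1 < L)
    (ht : 2 * t + 1 < L) (htp : t ≠ p)
    (hab : (a = 2 * p ∧ b = 2 * p + 1) ∨ (a = 2 * p + 1 ∧ b = 2 * p)) :
    w.bc a b t = w.mat p t := by
  rcases hab with ⟨rfl, rfl⟩ | ⟨rfl, rfl⟩
  · exact Lay.bc_chord hg hp ht htp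
  · rw [← Lay.bc_chord hg hp ht htp]
    simp only [Lay.bc]
    rw [Lay.bi_comm (w := w) (2 * p + 1) (2 * p) (2 * t),
      Lay.bi_comm (w := w) (2 * p + 1) (2 * p) (2 * t + 1)]

/-- marks between the ends of chord `p` -/
private theorem t2b_bi {w : Lay} {L : ℕ} (hg : w.Good L) {a b p c d : ℕ} (hp : 2 * p + 1 < L)
    (hc : c < L) (hd : d < L) (hcp : c / 2 ≠ p) (hdp : d / 2 ≠ p)
    (hab : (a = 2 * p ∧ b = 2 * p + 1) ∨ (a = 2 * p + 1 ∧ b = 2 * p)) :
    w.bi a b c + w.bi a b d = w.vec c d p := by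
  have key : ∀ v, v < L → v / 2 ≠ p → w.bi a b v = w.l v (2 * p) + w.l v (2 * p + 1) := by
    intro v hv hvp
    have h1 : w.bi a b v = w.bi (2 * p) (2 * p + 1) v := by
      rcases hab with ⟨rfl, rfl⟩ | ⟨rfl, rfl⟩
      · rfl
      · exact Lay.bi_comm _ _ _
    rw [h1, Lay.bi_eq hg (by omega) (by omega) hv (by omega) (by omega),
      Lay.l_flip hg hv (by omega) (show v ≠ 2 * p by omega),
      Lay.l_flip hg hv (by omega) (show v ≠ 2 * p + 1 by omega)]
    linear_combination two0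
  rw [key c hc hcp, key d hd hdp]
  simp only [Lay.vec, Lay.cr]
  ring

private theorem t2b_sum_congr {l : List ℕ} {f g : ℕ → ZMod 2} (h : ∀ a ∈ l, f a = g a) :
    (l.map f).sum = (l.map g).sum := by
  rw [List.map_congr_left h]

private theorem t2b_sum3 (l : List ℕ) (c u a b : ℕ → ZMod 2) (A B : ZMod 2) :
    (l.map (fun h => c h * (u h + (a h * A + b h * B)))).sum =
      (l.map (fun h => c h * u h)).sum +
        ((l.map (fun h => c h * a h)).sum * A + (l.map (fun h => c h * b h)).sum * B) := by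
  induction l with
  | nil => simp
  | cons h l ih => simp only [List.map_cons, List.sum_cons, ih]; ring

/-- block swap; the chord `p` has the ends `z1`, `z3`, the chord `q` has the ends `z2`, `z4` -/
theorem alg_swp {m : ℕ} {A0 : ℕ → ℕ → ZMod 2} {w : Lay} {S : Finset ℕ} {ord : List ℕ}
    {m1 m2 : ℕ → ℕ} (hA : Alg m A0 w S ord m1 m2) {z1 z2 z3 z4 p q x y : ℕ}
    (hp : p ∈ S) (hq : q ∈ S) (hp13 : (z1 = 2 * p ∧ z3 = 2 * p + 1) ∨ (z1 = 2 * p + 1 ∧ z3 = 2 * p))
    (hq24 : (z2 = 2 * q ∧ z4 = 2 * q + 1) ∨ (z2 = 2 * q + 1 ∧ z4 = 2 * q))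
    (h12 : w.pos z1 < w.pos z2) (h23 : w.pos z2 < w.pos z3) (h34 : w.pos z3 < w.pos z4)
    (hp0 : w.mat p p = 0) (hq0 : w.mat q q = 0)
    (hxy : (x = p ∧ y = q) ∨ (x = q ∧ y = p)) {pre post : List ℕ} {g : ℕ}
    (hord : ord = pre ++ g :: post) (hgx : w.vec (m1 g) (m2 g) x = 1)
    (hpost : ∀ h ∈ post, w.vec (m1 h) (m2 h) x = 0 ∧ w.vec (m1 h) (m2 h) y = 0)
    {m1' m2' : ℕ → ℕ} (e1 : ∀ h, h ≠ p → h ≠ q → m1' h = m1 h ∧ m2' h = m2 h)
    (ep : m1' p = z1 ∧ m2' p = z2) (eq : m1' q = z3 ∧ m2' q = z4) :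
    Alg m A0 (w.swp z1 z2 z3 z4) ((S.erase p).erase q) (pre ++ x :: y :: g :: post) m1' m2' ∧
    (∀ t ∈ (S.erase p).erase q, ∀ u ∈ (S.erase p).erase q, (w.swp z1 z2 z3 z4).mat t u =
      w.mat t u + (w.mat t p * w.mat q u + w.mat t q * w.mat p u)) ∧
    (∀ t ∈ (S.erase p).erase q, (w.swp z1 z2 z3 z4).vec z1 z2 t = w.mat q t ∧
      (w.swp z1 z2 z3 z4).vec z3 z4 t = w.mat p t) := by
  have hg := hA.good
  have hpm := hA.sub p hp
  have hqm := hA.sub q hq
  have hz1 : z1 < 2 * m := by omega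
  have hz2 : z2 < 2 * m := by omega
  have hz3 : z3 < 2 * m := by omega
  have hz4 : z4 < 2 * m := by omega
  have hd1 : z1 / 2 = p := by omega
  have hd2 : z2 / 2 = q := by omega
  have hd3 : z3 / 2 = p := by omega
  have hd4 : z4 / 2 = q := by omega
  have hlt : ∀ v, v < m → 2 * v + 1 < 2 * m := fun v hv => by clear * - hv; omega
  have hpq : p ≠ q := by
    rintro rfl
    rcases hp13 with ⟨rfl, rfl⟩ | ⟨rfl, rfl⟩ <;> rcases hq24 with ⟨rfl, rfl⟩ | ⟨rfl, rfl⟩ <;> omega
  have hxyne : x ≠ y := by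
    rcases hxy with ⟨rfl, rfl⟩ | ⟨rfl, rfl⟩
    · exact hpq
    · exact hpq.symm
  have hxS : x ∈ S := by rcases hxy with ⟨rfl, -⟩ | ⟨rfl, -⟩ <;> assumption
  have hyS : y ∈ S := by rcases hxy with ⟨-, rfl⟩ | ⟨-, rfl⟩ <;> assumption
  -- membership in the new set
  have hmem : ∀ t, t ∈ (S.erase p).erase q ↔ t ≠ p ∧ t ≠ q ∧ t ∈ S := by
    intro t
    simp only [Finset.mem_erase]
    tauto
  have hmemxy : ∀ t, t ∈ (S.erase p).erase q ↔ t ≠ x ∧ t ≠ y ∧ t ∈ S := by
    intro t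
    rw [hmem]
    rcases hxy with ⟨rfl, rfl⟩ | ⟨rfl, rfl⟩ <;> tauto
  -- `bc`
  have bc13 : ∀ t, t ∈ (S.erase p).erase q → w.bc z1 z3 t = w.mat p t := by
    intro t ht
    obtain ⟨n1, n2, n3⟩ := (hmem t).1 ht
    exact t2b_bc hg (hlt p hpm) (hlt t (hA.sub t n3)) n1 hp13
  have bc24 : ∀ t, t ∈ (S.erase p).erase q → w.bc z2 z4 t = w.mat q t := by
    intro t ht
    obtain ⟨n1, n2, n3⟩ := (hmem t).1 ht
    exact t2b_bc hg (hlt q hqm) (hlt t (hA.sub t n3)) n2 hq24
  have hmc : ∀ t ∈ S, ∀ u ∈ S, w.mat u t = w.mat t u := by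
    intro t ht u hu
    exact Lay.mat_comm hg (hlt t (hA.sub t ht)) (hlt u (hA.sub u hu))
  have hmpq : w.mat p q = 1 := by
    have e12 : w.l z1 z2 = 1 := by simp only [Lay.l]; rw [if_pos h12]
    have e14 : w.l z1 z4 = 1 := by simp only [Lay.l]; rw [if_pos (by omega)]
    have e32 : w.l z3 z2 = 0 := by simp only [Lay.l]; rw [if_neg (by omega)]
    have e34 : w.l z3 z4 = 1 := by simp only [Lay.l]; rw [if_pos h34]
    have : w.mat p q = w.l z1 z2 + w.l z1 z4 + (w.l z3 z2 + w.l z3 z4) := by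
      simp only [Lay.mat, if_neg hpq, Lay.cr]
      rcases hp13 with ⟨rfl, rfl⟩ | ⟨rfl, rfl⟩ <;> rcases hq24 with ⟨rfl, rfl⟩ | ⟨rfl, rfl⟩ <;> ring
    rw [this, e12, e14, e32, e34]
    decide
  -- second conclusion
  have C2 : ∀ t ∈ (S.erase p).erase q, ∀ u ∈ (S.erase p).erase q, (w.swp z1 z2 z3 z4).mat t u =
      w.mat t u + (w.mat t p * w.mat q u + w.mat t q * w.mat p u) := by
    intro t ht u hu
    obtain ⟨n1, n2, n3⟩ := (hmem t).1 ht
    obtain ⟨k1, k2, k3⟩ := (hmem u).1 hu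
    rw [Lay.mat_swp hg h12 h23 h34 hz1 hz2 hz3 hz4 (hlt t (hA.sub t n3)) (hlt u (hA.sub u k3))
      (by rw [hd2]; exact n2) (by rw [hd3]; exact n1)
      (by rw [hd2]; exact k2) (by rw [hd3]; exact k1), bc13 t ht, bc24 t ht, bc13 u hu, bc24 u hu,
      hmc p hp t n3, hmc q hq t n3]
  -- third conclusion
  have C3 : ∀ t ∈ (S.erase p).erase q, (w.swp z1 z2 z3 z4).vec z1 z2 t = w.mat q t ∧
      (w.swp z1 z2 z3 z4).vec z3 z4 t = w.mat p t := by
    intro t ht
    obtain ⟨n1, n2, n3⟩ := (hmem t).1 ht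
    have h1 := hlt t (hA.sub t n3)
    have q1 : t ≠ z1 / 2 := by rw [hd1]; exact n1
    have q2 : t ≠ z2 / 2 := by rw [hd2]; exact n2
    have q3 : t ≠ z3 / 2 := by rw [hd3]; exact n1
    have q4 : t ≠ z4 / 2 := by rw [hd4]; exact n2
    constructor
    · rw [Lay.vec_swp_12 hg h12 h23 h34 hz1 hz2 hz3 hz4 h1 q1 q2 q3 q4, bc24 t ht]
    · rw [Lay.vec_swp_34 hg h12 h23 h34 hz1 hz2 hz3 hz4 h1 q1 q2 q3 q4, bc13 t ht]
  refine ⟨?_, C2, C3⟩
  -- the final matrix
  have hFS : ∀ t ∈ S, ∀ u ∈ S, pivs A0 ord t u = w.mat t u := hA.mat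
  have hF0 : ∀ t, t ∉ S → ∀ u, pivs A0 ord t u = 0 := hA.rest
  have hord_notS : ∀ h ∈ ord, h ∉ S := hA.disj
  have hgord : g ∈ ord := by rw [hord]; simp
  have hpostord : ∀ h ∈ post, h ∈ ord := by
    intro h hh; rw [hord]; simp [hh]
  have hpreord : ∀ h ∈ pre, h ∈ ord := by
    intro h hh; rw [hord]; simp [hh]
  have hxm := hA.sub x hxS
  have hym := hA.sub y hyS
  obtain ⟨cg, hcg⟩ := hA.tri pre g post hord
  have hsum0 : ∀ (c : ℕ → ZMod 2) (t : ℕ), (t = x ∨ t = y) → ∀ l : List ℕ, (∀ h ∈ l, h ∈ post) →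
      (l.map (fun h' => c h' * w.vec (m1 h') (m2 h') t)).sum = 0 := by
    intro c t ht l hl
    apply List.sum_eq_zero
    intro a ha
    obtain ⟨b, hb, rfl⟩ := List.mem_map.1 ha
    have := hpost b (hl b hb)
    rcases ht with rfl | rfl
    · rw [this.1, mul_zero]
    · rw [this.2, mul_zero]
  have hgx' : pivs A0 pre g x = 1 := by
    rw [hcg x hxS, hsum0 cg x (Or.inl rfl) post (fun h hh => hh), hgx, add_zero]
  have hgy' : pivs A0 pre g y = w.vec (m1 g) (m2 g) y := by
    rw [hcg y hyS, hsum0 cg y (Or.inr rfl) post (fun h hh => hh), add_zero]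
  have hpost' : ∀ p' h q', post = p' ++ h :: q' →
      pivs A0 (pre ++ g :: p') h x = 0 ∧ pivs A0 (pre ++ g :: p') h y = 0 := by
    intro p' h q' he
    obtain ⟨c, hc⟩ := hA.tri (pre ++ g :: p') h q' (by rw [hord, he]; simp)
    have hh : h ∈ post := by rw [he]; simp
    have hl : ∀ k ∈ q', k ∈ post := by intro k hk; rw [he]; simp [hk]
    have := hpost h hh
    constructor
    · rw [hc x hxS, hsum0 c x (Or.inl rfl) q' hl, this.1, add_zero]
    · rw [hc y hyS, hsum0 c y (Or.inr rfl) q' hl, this.2, add_zero]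
  have hxx0 : w.mat x x = 0 := by rcases hxy with ⟨rfl, -⟩ | ⟨rfl, -⟩ <;> assumption
  have hyy0 : w.mat y y = 0 := by rcases hxy with ⟨-, rfl⟩ | ⟨-, rfl⟩ <;> assumption
  have hxy1 : w.mat x y = 1 := by
    rcases hxy with ⟨rfl, rfl⟩ | ⟨rfl, rfl⟩
    · exact hmpq
    · rw [hmc y hp x hq]; exact hmpq
  have hyx1 : w.mat y x = 1 := by rw [hmc x hxS y hyS]; exact hxy1
  have hFxx : pivs A0 ord x x = 0 := by rw [hFS x hxS x hxS, hxx0]
  have hFyy : pivs A0 ord y y = 0 := by rw [hFS y hyS y hyS, hyy0]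
  have hFxy : pivs A0 ord x y = 1 := by rw [hFS x hxS y hyS, hxy1]
  have hFyx : pivs A0 ord y x = 1 := by rw [hFS y hyS x hxS, hyx1]
  have hv0 : Valid A0 (pre ++ g :: post) := by rw [← hord]; exact hA.valid
  have hI := insert_pair hA.symm hv0 hgx' hpost' (by rw [← hord]; exact hFxx)
    (by rw [← hord]; exact hFyy) (by rw [← hord]; exact hFxy)
  rw [← hord] at hI
  obtain ⟨I1, I2, I3, I4, I5, I6⟩ := hI
  -- virtual chords of old pivots
  have hV1 : ∀ h ∈ ord, ∀ t ∈ (S.erase p).erase q,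
      (w.swp z1 z2 z3 z4).vec (m1' h) (m2' h) t = w.vec (m1 h) (m2 h) t +
        (w.vec (m1 h) (m2 h) x * w.mat y t + w.vec (m1 h) (m2 h) y * w.mat x t) := by
    intro h hh t ht
    obtain ⟨n1, n2, n3⟩ := (hmem t).1 ht
    have h1 := hlt t (hA.sub t n3)
    have hhp : h ≠ p := fun e => hord_notS h hh (e ▸ hp)
    have hhq : h ≠ q := fun e => hord_notS h hh (e ▸ hq)
    obtain ⟨k1, k2⟩ := e1 h hhp hhq
    obtain ⟨j1, j2, j3, j4⟩ := hA.mks h hh
    have a1 : m1 h / 2 ≠ p := fun e => j3 (e ▸ hp)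
    have a2 : m1 h / 2 ≠ q := fun e => j3 (e ▸ hq)
    have a3 : m2 h / 2 ≠ p := fun e => j4 (e ▸ hp)
    have a4 : m2 h / 2 ≠ q := fun e => j4 (e ▸ hq)
    have a5 : m1 h / 2 ≠ t := fun e => j3 (e ▸ n3)
    have a6 : m2 h / 2 ≠ t := fun e => j4 (e ▸ n3)
    have q2 : t ≠ z2 / 2 := by rw [hd2]; exact n2
    have q3 : t ≠ z3 / 2 := by rw [hd3]; exact n1
    rw [k1, k2, Lay.vec_swp hg h12 h23 h34 hz1 hz2 hz3 hz4 j1 j2 h1 q2 q3 a5 a6
      (fun e => a2 (by rw [e, hd2])) (fun e => a1 (by rw [e, hd3]))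
      (fun e => a4 (by rw [e, hd2])) (fun e => a3 (by rw [e, hd3])), bc13 t ht, bc24 t ht,
      t2b_bi hg (hlt p hpm) j1 j2 a1 a3 hp13, t2b_bi hg (hlt q hqm) j1 j2 a2 a4 hq24]
    rcases hxy with ⟨rfl, rfl⟩ | ⟨rfl, rfl⟩
    · rfl
    · ring
  have hVx : ∀ t ∈ (S.erase p).erase q, (w.swp z1 z2 z3 z4).vec (m1' x) (m2' x) t = w.mat y t := by
    intro t ht
    rcases hxy with ⟨rfl, rfl⟩ | ⟨rfl, rfl⟩
    · rw [ep.1, ep.2]; exact (C3 t ht).1
    · rw [eq.1, eq.2]; exact (C3 t ht).2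
  have hVy : ∀ t ∈ (S.erase p).erase q, (w.swp z1 z2 z3 z4).vec (m1' y) (m2' y) t = w.mat x t := by
    intro t ht
    rcases hxy with ⟨rfl, rfl⟩ | ⟨rfl, rfl⟩
    · rw [eq.1, eq.2]; exact (C3 t ht).2
    · rw [ep.1, ep.2]; exact (C3 t ht).1
  have hVpost : ∀ h ∈ post, ∀ t ∈ (S.erase p).erase q,
      (w.swp z1 z2 z3 z4).vec (m1' h) (m2' h) t = w.vec (m1 h) (m2 h) t := by
    intro h hh t ht
    rw [hV1 h (hpostord h hh) t ht, (hpost h hh).1, (hpost h hh).2]; ring
  have hmemord : ∀ h ∈ pre ++ x :: y :: g :: post, h ∈ ord ∨ h = x ∨ h = y := by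
    intro h hh
    rcases List.mem_append.1 hh with hh | hh
    · exact Or.inl (hpreord h hh)
    · simp only [List.mem_cons] at hh
      rcases hh with rfl | rfl | rfl | hh
      · exact Or.inr (Or.inl rfl)
      · exact Or.inr (Or.inr rfl)
      · exact Or.inl hgord
      · exact Or.inl (hpostord h hh)
  have hnd : ord.Nodup := hA.valid.nodup
  have hgpost : g ∉ post := by
    rw [hord] at hnd
    have := (List.nodup_append.1 hnd).2.1
    exact (List.nodup_cons.1 this).1
  have hxord : x ∉ ord := fun h => hord_notS x h hxS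
  have hyord : y ∉ ord := fun h => hord_notS y h hyS
  constructor
  · exact hg.swp hz1 hz2 hz3 hz4
  · exact hA.symm
  · intro t ht
    exact hA.sub t ((hmem t).1 ht).2.2
  · exact I1
  · intro h hh
    rcases hmemord h hh with hh | rfl | rfl
    · exact hA.ordlt h hh
    · exact hxm
    · exact hym
  · intro h hh hS'
    obtain ⟨n1, n2, n3⟩ := (hmemxy h).1 hS'
    rcases hmemord h hh with hh | hh | hh
    · exact hord_notS h hh n3
    · exact n1 hh
    · exact n2 hh
  · intro h hh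
    have base : ∀ v, (v = p ∨ v = q) → m1' v < 2 * m ∧ m2' v < 2 * m ∧
        m1' v / 2 ∉ (S.erase p).erase q ∧ m2' v / 2 ∉ (S.erase p).erase q := by
      intro v hv
      rcases hv with rfl | rfl
      · rw [ep.1, ep.2]
        refine ⟨hz1, hz2, ?_, ?_⟩
        · rw [hmem]; rintro ⟨h1, -⟩; exact h1 hd1
        · rw [hmem]; rintro ⟨-, h1, -⟩; exact h1 hd2
      · rw [eq.1, eq.2]
        refine ⟨hz3, hz4, ?_, ?_⟩
        · rw [hmem]; rintro ⟨h1, -⟩; exact h1 hd3
        · rw [hmem]; rintro ⟨-, h1, -⟩; exact h1 hd4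
    rcases hmemord h hh with hh | hh | hh
    · have hhp : h ≠ p := fun e => hord_notS h hh (e ▸ hp)
      have hhq : h ≠ q := fun e => hord_notS h hh (e ▸ hq)
      obtain ⟨k1, k2⟩ := e1 h hhp hhq
      obtain ⟨j1, j2, j3, j4⟩ := hA.mks h hh
      rw [k1, k2]
      exact ⟨j1, j2, fun e => j3 ((hmem _).1 e).2.2, fun e => j4 ((hmem _).1 e).2.2⟩
    · apply base
      rw [hh]
      rcases hxy with ⟨h1, -⟩ | ⟨h1, -⟩
      · exact Or.inl h1
      · exact Or.inr h1
    · apply base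
      rw [hh]
      rcases hxy with ⟨-, h1⟩ | ⟨-, h1⟩
      · exact Or.inr h1
      · exact Or.inl h1
  · intro t ht u hu
    obtain ⟨n1, n2, n3⟩ := (hmem t).1 ht
    obtain ⟨k1, k2, k3⟩ := (hmem u).1 hu
    rw [I2, C2 t ht u hu]
    simp only [piv2]
    rw [hFS t n3 u k3, hFS t n3 x hxS, hFS y hyS u k3, hFS t n3 y hyS, hFS x hxS u k3]
    rcases hxy with ⟨rfl, rfl⟩ | ⟨rfl, rfl⟩
    · rfl
    · ring
  · intro t ht u
    rw [I2]
    simp only [piv2]
    by_cases htS : t ∈ S
    · have : t = x ∨ t = y := by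
        by_contra hcon
        push Not at hcon
        exact ht ((hmemxy t).2 ⟨hcon.1, hcon.2, htS⟩)
      rcases this with rfl | rfl
      · rw [hFxx, hFxy]
        linear_combination (pivs A0 ord t u) * two0
      · rw [hFyy, hFyx]
        linear_combination (pivs A0 ord t u) * two0
    · rw [hF0 t htS, hF0 t htS, hF0 t htS]; ring
  · intro pre' h post' he
    rcases t2b_split he with ⟨r, hr1, hr2⟩ | ⟨hr1, hr2, hr3⟩ | ⟨hr1, hr2, hr3⟩ | ⟨hr1, hr2, hr3⟩ |
      ⟨r, hr1, hr2⟩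
    · -- `h` in `pre`
      obtain ⟨c, hc⟩ := hA.tri pre' h (r ++ g :: post) (by rw [hord, hr1]; simp)
      have hhord : h ∈ ord := by rw [hord, hr1]; simp
      set α : ZMod 2 := w.vec (m1 h) (m2 h) x +
        ((r ++ g :: post).map (fun h' => c h' * w.vec (m1 h') (m2 h') x)).sum with hα
      set β : ZMod 2 := w.vec (m1 h) (m2 h) y +
        ((r ++ g :: post).map (fun h' => c h' * w.vec (m1 h') (m2 h') y)).sum with hβ
      have hrord : ∀ h' ∈ r ++ g :: post, h' ∈ ord := by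
        intro h' hh'
        rw [hord, hr1]
        simp only [List.mem_append, List.mem_cons] at hh' ⊢
        tauto
      refine ⟨fun v => if v = x then α else if v = y then β else c v, ?_⟩
      intro t ht
      beta_reduce
      obtain ⟨n1, n2, n3⟩ := (hmem t).1 ht
      rw [hc t n3]
      have s1 : ((r ++ g :: post).map (fun h' => c h' * w.vec (m1 h') (m2 h') t)).sum =
          ((r ++ g :: post).map (fun h' => c h' *
            ((w.swp z1 z2 z3 z4).vec (m1' h') (m2' h') t +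
              (w.vec (m1 h') (m2 h') x * w.mat y t + w.vec (m1 h') (m2 h') y * w.mat x t)))).sum := by
        apply t2b_sum_congr
        intro a ha
        rw [hV1 a (hrord a ha) t ht]
        linear_combination (-(c a * (w.vec (m1 a) (m2 a) x * w.mat y t +
          w.vec (m1 a) (m2 a) y * w.mat x t))) * two0
      have s2 : ((r ++ g :: post).map (fun h' => (if h' = x then α else if h' = y then β else c h') *
          (w.swp z1 z2 z3 z4).vec (m1' h') (m2' h') t)).sum =
          ((r ++ g :: post).map (fun h' => c h' *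
            (w.swp z1 z2 z3 z4).vec (m1' h') (m2' h') t)).sum := by
        apply t2b_sum_congr
        intro a ha
        have a1 : a ≠ x := fun e => hxord (e ▸ hrord a ha)
        have a2 : a ≠ y := fun e => hyord (e ▸ hrord a ha)
        rw [if_neg a1, if_neg a2]
      have s3 : (post'.map (fun h' => (if h' = x then α else if h' = y then β else c h') *
          (w.swp z1 z2 z3 z4).vec (m1' h') (m2' h') t)).sum =
          ((r ++ g :: post).map (fun h' => (if h' = x then α else if h' = y then β else c h') *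
          (w.swp z1 z2 z3 z4).vec (m1' h') (m2' h') t)).sum + (α * w.mat y t + β * w.mat x t) := by
        rw [hr2]
        simp only [List.map_append, List.map_cons, List.sum_append, List.sum_cons, if_true,
          if_neg hxyne.symm]
        rw [hVx t ht, hVy t ht]
        ring
      rw [s3, s2, s1, t2b_sum3, hV1 h hhord t ht, hα, hβ]
      linear_combination (-(w.vec (m1 h) (m2 h) x * w.mat y t +
          w.vec (m1 h) (m2 h) y * w.mat x t)) * two0
    · -- `h = x`
      subst hr1 hr2 hr3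
      refine ⟨fun v => if v = y then 1 + w.vec (m1 g) (m2 g) y else if v = g then 1 else cg v, ?_⟩
      intro t ht
      beta_reduce
      obtain ⟨n1, n2, n3⟩ := (hmem t).1 ht
      have hgy : g ≠ y := fun e => hyord (e ▸ hgord)
      have s2 : (post.map (fun h' => (if h' = y then 1 + w.vec (m1 g) (m2 g) y else
          if h' = g then 1 else cg h') * (w.swp z1 z2 z3 z4).vec (m1' h') (m2' h') t)).sum =
          (post.map (fun h' => cg h' * w.vec (m1 h') (m2 h') t)).sum := by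
        apply t2b_sum_congr
        intro a ha
        have a1 : a ≠ y := fun e => hyord (e ▸ hpostord a ha)
        have a2 : a ≠ g := fun e => hgpost (e ▸ ha)
        rw [if_neg a1, if_neg a2, hVpost a ha t ht]
      rw [List.map_cons, List.map_cons, List.sum_cons, List.sum_cons, s2, if_pos rfl, if_neg hgy,
        if_pos rfl, hVx t ht, hVy t ht, hV1 g hgord t ht, hgx, I3 t, hcg t n3, hFS h hxS t n3]
      linear_combination (-(w.mat y t + w.vec (m1 g) (m2 g) y * w.mat h t)) * two0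
    · -- `h = y`
      subst hr1 hr2 hr3
      refine ⟨fun v => if v = g then 1 else cg v, ?_⟩
      intro t ht
      beta_reduce
      obtain ⟨n1, n2, n3⟩ := (hmem t).1 ht
      have s2 : (post.map (fun h' => (if h' = g then 1 else cg h') *
          (w.swp z1 z2 z3 z4).vec (m1' h') (m2' h') t)).sum =
          (post.map (fun h' => cg h' * w.vec (m1 h') (m2 h') t)).sum := by
        apply t2b_sum_congr
        intro a ha
        have a2 : a ≠ g := fun e => hgpost (e ▸ ha)
        rw [if_neg a2, hVpost a ha t ht]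
      rw [List.map_cons, List.sum_cons, s2, if_pos rfl, hVy t ht, hV1 g hgord t ht, hgx, I5 t, I4 t,
        hcg t n3, hgy', hFS h hyS t n3, hFS x hxS t n3]
      ring
    · -- `h = g`
      subst hr1 hr2 hr3
      refine ⟨fun v => cg v, ?_⟩
      intro t ht
      beta_reduce
      obtain ⟨n1, n2, n3⟩ := (hmem t).1 ht
      have s2 : (post'.map (fun h' => cg h' * (w.swp z1 z2 z3 z4).vec (m1' h') (m2' h') t)).sum =
          (post'.map (fun h' => cg h' * w.vec (m1 h') (m2 h') t)).sum := by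
        apply t2b_sum_congr
        intro a ha
        rw [hVpost a ha t ht]
      rw [s2, hV1 h hgord t ht, hgx, I4 t, hcg t n3, hgy', hFS y hyS t n3, hFS x hxS t n3]
      ring
    · -- `h` in `post`
      obtain ⟨c, hc⟩ := hA.tri (pre ++ g :: r) h post' (by rw [hord, hr2]; simp)
      refine ⟨c, ?_⟩
      intro t ht
      obtain ⟨n1, n2, n3⟩ := (hmem t).1 ht
      have hhpost : h ∈ post := by rw [hr2]; simp
      have hsub : ∀ a ∈ post', a ∈ post := by intro a ha; rw [hr2]; simp [ha]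
      have s2 : (post'.map (fun h' => c h' * (w.swp z1 z2 z3 z4).vec (m1' h') (m2' h') t)).sum =
          (post'.map (fun h' => c h' * w.vec (m1 h') (m2 h') t)).sum := by
        apply t2b_sum_congr
        intro a ha
        rw [hVpost a (hsub a ha) t ht]
      rw [s2, hVpost h hhpost t ht, hr1, I6 r h post' hr2 t, hc t n3]

end SBR
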