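/-
SBR/T5b.lean : the main step of phase 2.
-/
import Pool.Agent.SBR.T2b
import Pool.Agent.SBR.T3

namespace SBR

theorem t5b_z2 (a : ZMod 2) : a = 0 ∨ a = 1 := by revert a; decide

/-- indicator of lying between the two ends of a chord -/
theorem t5b_bi {w : Lay} {L a b c p : ℕ} (hg : w.Good L)
    (hab : (a = 2 * p ∧ b = 2 * p + 1) ∨ (a = 2 * p + 1 ∧ b = 2 * p)) (hp : 2 * p + 1 < L)
    (hc : c < L) (hcp : c / 2 ≠ p) : w.bi a b c = w.rvc c p := by
  have h1 : w.bi (2 * p) (2 * p + 1) c = w.rvc c p := by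
    rw [Lay.bi_eq hg (by omega) hp hc (by omega) (by omega), Lay.rvc,
      Lay.l_flip hg hc (show 2 * p < L by omega) (by omega), Lay.l_flip hg hc hp (by omega)]
    linear_combination two0
  rcases hab with ⟨rfl, rfl⟩ | ⟨rfl, rfl⟩
  · exact h1
  · rw [Lay.bi_comm]; exact h1

theorem t5b_bc {w : Lay} {L a b t p : ℕ} (hg : w.Good L)
    (hab : (a = 2 * p ∧ b = 2 * p + 1) ∨ (a = 2 * p + 1 ∧ b = 2 * p)) (hp : 2 * p + 1 < L)
    (ht : 2 * t + 1 < L) (htp : t ≠ p) : w.bc a b t = w.mat p t := by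
  rcases hab with ⟨rfl, rfl⟩ | ⟨rfl, rfl⟩
  · exact Lay.bc_chord hg hp ht htp
  · rw [← Lay.bc_chord hg hp ht htp]
    unfold Lay.bc
    rw [Lay.bi_comm (2 * p + 1) (2 * p), Lay.bi_comm (2 * p + 1) (2 * p)]

/-- a connected set of chords not touched by `c` lies on one side of `c` -/
theorem t5b_side {w : Lay} {X : Finset ℕ} {c t : ℕ} (h : ∀ u, Cn w X t u → w.rvc c u = 0) {u : ℕ}
    (hu : Cn w X t u) : w.l c (2 * u) = w.l c (2 * t) := by
  induction hu with
  | refl => rfl
  | tail huv hadj ih =>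
    rename_i u v
    have e1 := h u huv
    have e2 := h v (Relation.ReflTransGen.tail huv hadj)
    obtain ⟨-, -, hne, hm⟩ := hadj
    rw [← ih]
    simp only [Lay.mat, if_neg hne, Lay.cr] at hm
    simp only [Lay.rvc] at e1 e2
    simp only [Lay.l] at *
    by_cases a1 : w.pos c < w.pos (2 * u) <;> by_cases a2 : w.pos c < w.pos (2 * u + 1) <;>
      by_cases a3 : w.pos c < w.pos (2 * v) <;> by_cases a4 : w.pos c < w.pos (2 * v + 1) <;>
      simp only [a1, a2, a3, a4, if_true, if_false] at e1 e2 ⊢ <;>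
      first
      | exact absurd e1 (by decide)
      | exact absurd e2 (by decide)
      | (exfalso
         apply hm
         first
         | (rw [if_neg (by omega), if_neg (by omega), if_neg (by omega), if_neg (by omega)]
            decide)
         | (rw [if_pos (by omega), if_pos (by omega), if_pos (by omega), if_pos (by omega)]
            decide))

/-- a node `c` between `a` and `b` which does not touch a component separates `a`, `b` from it -/
theorem t5b_sep {w : Lay} {X : Finset ℕ} {a b c t : ℕ} (hac : w.pos a < w.pos c)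
    (hcb : w.pos c < w.pos b) (h : ¬ Tch w X c t) : ¬ Tch w X a t ∨ ¬ Tch w X b t := by
  have h' : ∀ u, Cn w X t u → w.rvc c u = 0 := by
    intro u hu
    by_contra hne
    exact h ⟨u, hu, hne⟩
  have hs := fun u (hu : Cn w X t u) => t5b_side h' hu
  by_cases hl : w.pos c < w.pos (2 * t)
  · left
    rintro ⟨u, hu, hne⟩
    apply hne
    have e1 := hs u hu
    have e2 := h' u hu
    simp only [Lay.rvc, Lay.l] at e1 e2 ⊢
    rw [if_pos hl] at e1
    have a1 : w.pos c < w.pos (2 * u) := by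
      by_contra hc
      rw [if_neg hc] at e1
      exact absurd e1 (by decide)
    have a2 : w.pos c < w.pos (2 * u + 1) := by
      by_contra hc
      rw [if_pos a1, if_neg hc] at e2
      exact absurd e2 (by decide)
    rw [if_pos (by omega), if_pos (by omega)]
    decide
  · right
    rintro ⟨u, hu, hne⟩
    apply hne
    have e1 := hs u hu
    have e2 := h' u hu
    simp only [Lay.rvc, Lay.l] at e1 e2 ⊢
    rw [if_neg hl] at e1
    have a1 : ¬ w.pos c < w.pos (2 * u) := by
      intro hc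
      rw [if_pos hc] at e1
      exact absurd e1 (by decide)
    have a2 : ¬ w.pos c < w.pos (2 * u + 1) := by
      intro hc
      rw [if_neg a1, if_pos hc] at e2
      exact absurd e2 (by decide)
    rw [if_neg (by omega), if_neg (by omega)]
    decide

/-- uniqueness of the decomposition of a list without repetitions -/
theorem t5b_split {l pre post pre2 post2 : List ℕ} {a : ℕ} (hn : l.Nodup)
    (h1 : l = pre ++ a :: post) (h2 : l = pre2 ++ a :: post2) : pre = pre2 ∧ post = post2 := by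
  induction pre generalizing l pre2 with
  | nil =>
    cases pre2 with
    | nil =>
      rw [h1] at h2
      simp only [List.nil_append, List.cons.injEq, true_and] at h2
      exact ⟨rfl, h2⟩
    | cons b pre2 =>
      exfalso
      rw [h1] at h2
      simp only [List.nil_append, List.cons_append, List.cons.injEq] at h2
      rw [h1] at hn
      simp only [List.nil_append, List.nodup_cons] at hn
      apply hn.1
      rw [h2.2]
      simp
  | cons b pre ih =>
    cases pre2 with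
    | nil =>
      exfalso
      rw [h1] at h2
      simp only [List.nil_append, List.cons_append, List.cons.injEq] at h2
      rw [h1, List.cons_append, List.nodup_cons] at hn
      apply hn.1
      rw [h2.1]
      simp
    | cons b2 pre2 =>
      rw [h1] at h2
      simp only [List.cons_append, List.cons.injEq] at h2
      rw [h1, List.cons_append, List.nodup_cons] at hn
      obtain ⟨i1, i2⟩ := ih hn.2 rfl h2.2
      exact ⟨by rw [h2.1, i1], i2⟩

/-- `b` is after `a` in the list -/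
def t5b_aft (l : List ℕ) (a b : ℕ) : Prop := ∃ pre post, l = pre ++ a :: post ∧ b ∈ post

theorem t5b_aft_iff (l : List ℕ) (a b : ℕ) : t5b_aft l a b ↔ List.Sublist [a, b] l := by
  constructor
  · rintro ⟨pre, post, rfl, hb⟩
    refine List.Sublist.trans ?_ (List.sublist_append_right pre (a :: post))
    exact List.Sublist.cons_cons a (List.singleton_sublist.2 hb)
  · intro h
    rw [List.cons_sublist_iff] at h
    obtain ⟨r1, r2, rfl, ha, hb⟩ := h
    obtain ⟨s, t, rfl⟩ := List.append_of_mem ha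
    refine ⟨s, t ++ r2, by simp, ?_⟩
    exact List.mem_append_right _ (List.singleton_sublist.1 hb)

theorem t5b_aft_insert {pre post : List ℕ} {x y g a b : ℕ} (hx : x ∉ pre ++ g :: post)
    (hy : y ∉ pre ++ g :: post) (ha : a ≠ x ∧ a ≠ y) (hb : b ≠ x ∧ b ≠ y)
    (h : t5b_aft (pre ++ x :: y :: g :: post) a b) : t5b_aft (pre ++ g :: post) a b := by
  rw [t5b_aft_iff] at *
  have h1 := h.filter (fun z => decide (z ≠ x ∧ z ≠ y))
  have e1 : [a, b].filter (fun z => decide (z ≠ x ∧ z ≠ y)) = [a, b] := by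
    rw [List.filter_eq_self]
    intro z hz
    simp only [List.mem_cons, List.not_mem_nil, or_false] at hz
    rcases hz with rfl | rfl
    · simpa using ha
    · simpa using hb
  have e2 : (pre ++ x :: y :: g :: post).filter (fun z => decide (z ≠ x ∧ z ≠ y)) =
      pre ++ g :: post := by
    have hf : (pre ++ g :: post).filter (fun z => decide (z ≠ x ∧ z ≠ y)) = pre ++ g :: post := by
      rw [List.filter_eq_self]
      intro z hz
      simp only [ne_eq, decide_eq_true_eq]
      exact ⟨fun e => hx (e ▸ hz), fun e => hy (e ▸ hz)⟩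
    rw [List.filter_append] at hf ⊢
    rw [List.filter_cons_of_neg (by simp), List.filter_cons_of_neg (by simp)]
    exact hf
  rw [e1, e2] at h1
  exact h1

theorem t5b_adj_symm {w : Lay} {X : Finset ℕ} (hs : ∀ t ∈ X, ∀ u ∈ X, w.mat t u = w.mat u t)
    {a b : ℕ} (h : Adj w X a b) : Adj w X b a :=
  ⟨h.2.1, h.1, h.2.2.1.symm, by rw [hs b h.2.1 a h.1]; exact h.2.2.2⟩

theorem t5b_cn_symm {w : Lay} {X : Finset ℕ} (hs : ∀ t ∈ X, ∀ u ∈ X, w.mat t u = w.mat u t)
    {a b : ℕ} (h : Cn w X a b) : Cn w X b a := by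
  induction h with
  | refl => exact Relation.ReflTransGen.refl
  | tail _ hadj ih => exact Relation.ReflTransGen.head (t5b_adj_symm hs hadj) ih

theorem t5b_cn_mem {w : Lay} {X : Finset ℕ} {a b : ℕ} (h : Cn w X a b) (ha : a ∈ X) : b ∈ X := by
  induction h with
  | refl => exact ha
  | tail _ hadj _ => exact hadj.2.1

/-- the situation: `w'` arises from `w` by a pivot at `p`, `q` -/
structure T5bSit (w w' : Lay) (X : Finset ℕ) (p q : ℕ) : Prop where
  hp : p ∈ X
  hq : q ∈ X
  hpq : p ≠ q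
  sym : ∀ t ∈ X, ∀ u ∈ X, w.mat t u = w.mat u t
  one : w.mat p q = 1
  mat : ∀ t ∈ (X.erase p).erase q, ∀ u ∈ (X.erase p).erase q, w'.mat t u =
    w.mat t u + (w.mat t p * w.mat q u + w.mat t q * w.mat p u)

namespace T5bSit

variable {w w' : Lay} {X : Finset ℕ} {p q : ℕ}

theorem memX (_h : T5bSit w w' X p q) {t : ℕ} (ht : t ∈ (X.erase p).erase q) :
    t ∈ X ∧ t ≠ p ∧ t ≠ q := by
  rw [Finset.mem_erase, Finset.mem_erase] at ht
  exact ⟨ht.2.2, ht.2.1, ht.1⟩

theorem cnpq (h : T5bSit w w' X p q) : Cn w X p q :=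
  Relation.ReflTransGen.single ⟨h.hp, h.hq, h.hpq, by rw [h.one]; decide⟩

/-- new components inside the component of `p` stay inside -/
theorem inside (h : T5bSit w w' X p q) {t u : ℕ} (ht : Cn w X p t)
    (hu : Cn w' ((X.erase p).erase q) t u) : Cn w X p u := by
  induction hu with
  | refl => exact ht
  | tail hu' hadj ih =>
    rename_i u v
    obtain ⟨hu1, hv1, hne, hm⟩ := hadj
    obtain ⟨hvX, hvp, hvq⟩ := h.memX hv1
    obtain ⟨huX, -, -⟩ := h.memX hu1
    by_cases c1 : w.mat u v = 0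
    · by_cases c2 : w.mat q v = 0
      · by_cases c3 : w.mat p v = 0
        · exfalso
          apply hm
          rw [h.mat u hu1 v hv1, c1, c2, c3]
          ring
        · exact Relation.ReflTransGen.single ⟨h.hp, hvX, hvp.symm, c3⟩
      · exact h.cnpq.tail ⟨h.hq, hvX, hvq.symm, c2⟩
    · exact ih.tail ⟨huX, hvX, hne, c1⟩

/-- a new component inside the component of `p` contains a chord adjacent to `p` or `q` -/
theorem claim (h : T5bSit w w' X p q) {t : ℕ} (ht : t ∈ (X.erase p).erase q) (hpt : Cn w X p t) :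
    ∃ u, Cn w' ((X.erase p).erase q) t u ∧ (w.mat p u ≠ 0 ∨ w.mat q u ≠ 0) := by
  by_contra hcon
  push Not at hcon
  have key : ∀ u, Cn w X t u → Cn w' ((X.erase p).erase q) t u := by
    intro u hu
    induction hu with
    | refl => exact Relation.ReflTransGen.refl
    | tail hu' hadj ih =>
      rename_i u v
      obtain ⟨huX, hvX, hne, hm⟩ := hadj
      obtain ⟨e1, e2⟩ := hcon u ih
      have hu1 : u ∈ (X.erase p).erase q := t5b_cn_mem ih ht
      have hvp : v ≠ p := by
        rintro rfl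
        apply hm
        rw [h.sym u huX v hvX, e1]
      have hvq : v ≠ q := by
        rintro rfl
        apply hm
        rw [h.sym u huX v hvX, e2]
      have hv1 : v ∈ (X.erase p).erase q := by
        rw [Finset.mem_erase, Finset.mem_erase]
        exact ⟨hvq, hvp, hvX⟩
      refine ih.tail ⟨hu1, hv1, hne, ?_⟩
      rw [h.mat u hu1 v hv1, h.sym u huX p h.hp, h.sym u huX q h.hq, e1, e2]
      simpa using hm
  have := t5b_cn_mem (key p (t5b_cn_symm h.sym hpt)) ht
  exact (h.memX this).2.1 rfl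

theorem out_zero (h : T5bSit w w' X p q) {t u : ℕ} (ht : t ∈ (X.erase p).erase q)
    (hpt : ¬ Cn w X p t) (hu : Cn w X t u) :
    u ∈ (X.erase p).erase q ∧ w.mat p u = 0 ∧ w.mat q u = 0 := by
  have htX := (h.memX ht).1
  have huX := t5b_cn_mem hu htX
  have hnp : ¬ Cn w X p u := fun hc => hpt (hc.trans (t5b_cn_symm h.sym hu))
  have hup : u ≠ p := by rintro rfl; exact hnp Relation.ReflTransGen.refl
  have huq : u ≠ q := by rintro rfl; exact hnp h.cnpq
  refine ⟨?_, ?_, ?_⟩
  · rw [Finset.mem_erase, Finset.mem_erase]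
    exact ⟨huq, hup, huX⟩
  · by_contra hc
    exact hnp (Relation.ReflTransGen.single ⟨h.hp, huX, hup.symm, hc⟩)
  · by_contra hc
    exact hnp (h.cnpq.tail ⟨h.hq, huX, huq.symm, hc⟩)

/-- components outside the component of `p` do not change -/
theorem out_iff (h : T5bSit w w' X p q) {t u : ℕ} (ht : t ∈ (X.erase p).erase q)
    (hpt : ¬ Cn w X p t) : Cn w' ((X.erase p).erase q) t u ↔ Cn w X t u := by
  constructor
  · intro hu
    induction hu with
    | refl => exact Relation.ReflTransGen.refl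
    | tail hu' hadj ih =>
      rename_i u v
      obtain ⟨hu1, hv1, hne, hm⟩ := hadj
      obtain ⟨-, e1, e2⟩ := h.out_zero ht hpt ih
      obtain ⟨huX, -, -⟩ := h.memX hu1
      obtain ⟨hvX, -, -⟩ := h.memX hv1
      refine ih.tail ⟨huX, hvX, hne, ?_⟩
      rw [h.mat u hu1 v hv1, h.sym u huX p h.hp, h.sym u huX q h.hq, e1, e2] at hm
      simpa using hm
  · intro hu
    induction hu with
    | refl => exact Relation.ReflTransGen.refl
    | tail hu' hadj ih =>
      rename_i u v
      obtain ⟨hu1, e1, e2⟩ := h.out_zero ht hpt hu'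
      obtain ⟨hv1, -, -⟩ := h.out_zero ht hpt (hu'.tail hadj)
      obtain ⟨huX, hvX, hne, hm⟩ := hadj
      refine ih.tail ⟨hu1, hv1, hne, ?_⟩
      rw [h.mat u hu1 v hv1, h.sym u huX p h.hp, h.sym u huX q h.hq, e1, e2]
      simpa using hm

/-- touching outside the component of `p` does not change -/
theorem out_tch (h : T5bSit w w' X p q) {c : ℕ}
    (hc : ∀ u ∈ (X.erase p).erase q, w'.rvc c u =
      w.rvc c u + (w.rvc c p * w.mat q u + w.rvc c q * w.mat p u))
    {t : ℕ} (ht : t ∈ (X.erase p).erase q) (hpt : ¬ Cn w X p t) :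
    Tch w' ((X.erase p).erase q) c t ↔ Tch w X c t := by
  constructor
  · rintro ⟨u, hu, hne⟩
    rw [h.out_iff ht hpt] at hu
    obtain ⟨hu1, e1, e2⟩ := h.out_zero ht hpt hu
    refine ⟨u, hu, ?_⟩
    rw [hc u hu1, e1, e2] at hne
    simpa using hne
  · rintro ⟨u, hu, hne⟩
    obtain ⟨hu1, e1, e2⟩ := h.out_zero ht hpt hu
    refine ⟨u, (h.out_iff ht hpt).2 hu, ?_⟩
    rw [hc u hu1, e1, e2]
    simpa using hne

end T5bSit

/-- effect of the block swap on `rvc` of a mark -/
theorem t5b_rvc {w : Lay} {m : ℕ} (hg : w.Good (2 * m)) {z1 z2 z3 z4 p q c t : ℕ} (hp : p < m)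
    (hq : q < m) (hp13 : (z1 = 2 * p ∧ z3 = 2 * p + 1) ∨ (z1 = 2 * p + 1 ∧ z3 = 2 * p))
    (hq24 : (z2 = 2 * q ∧ z4 = 2 * q + 1) ∨ (z2 = 2 * q + 1 ∧ z4 = 2 * q))
    (h12 : w.pos z1 < w.pos z2) (h23 : w.pos z2 < w.pos z3) (h34 : w.pos z3 < w.pos z4)
    (hc : c < 2 * m) (hcp : c / 2 ≠ p) (hcq : c / 2 ≠ q) (ht : t < m) (htp : t ≠ p) (htq : t ≠ q)
    (hct : c / 2 ≠ t) :
    (w.swp z1 z2 z3 z4).rvc c t =
      w.rvc c t + (w.rvc c p * w.mat q t + w.rvc c q * w.mat p t) := by
  have hz1 : z1 < 2 * m ∧ z3 < 2 * m ∧ z1 / 2 = p ∧ z3 / 2 = p := by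
    rcases hp13 with ⟨rfl, rfl⟩ | ⟨rfl, rfl⟩ <;> omega
  have hz2 : z2 < 2 * m ∧ z4 < 2 * m ∧ z2 / 2 = q ∧ z4 / 2 = q := by
    rcases hq24 with ⟨rfl, rfl⟩ | ⟨rfl, rfl⟩ <;> omega
  obtain ⟨a1, a3, b1, b3⟩ := hz1
  obtain ⟨a2, a4, b2, b4⟩ := hz2
  rw [Lay.rvc_swp hg h12 h23 h34 a1 a2 a3 a4 hc (by omega) (by omega) (by omega) hct
    (by rintro rfl; exact hcq b2) (by rintro rfl; exact hcp b3),
    t5b_bi hg hp13 (by omega) hc hcp, t5b_bi hg hq24 (by omega) hc hcq,
    t5b_bc hg hp13 (by omega) (by omega) htp, t5b_bc hg hq24 (by omega) (by omega) htq]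

/-- positions after the block swap of the four nodes and of a node `c` -/
theorem t5b_pos {w : Lay} {z1 z2 z3 z4 c : ℕ} (h12 : w.pos z1 < w.pos z2)
    (h23 : w.pos z2 < w.pos z3) (h34 : w.pos z3 < w.pos z4) (hc2 : w.pos c ≠ w.pos z2)
    (hc3 : w.pos c ≠ w.pos z3) :
    (w.swp z1 z2 z3 z4).pos z1 < (w.swp z1 z2 z3 z4).pos z3 ∧
    (w.swp z1 z2 z3 z4).pos z3 < (w.swp z1 z2 z3 z4).pos z2 ∧
    (w.swp z1 z2 z3 z4).pos z2 < (w.swp z1 z2 z3 z4).pos z4 ∧
    ((w.pos z1 < w.pos c ∧ w.pos c < w.pos z3) →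
      (w.swp z1 z2 z3 z4).pos z3 < (w.swp z1 z2 z3 z4).pos c ∧
      (w.swp z1 z2 z3 z4).pos c < (w.swp z1 z2 z3 z4).pos z4) ∧
    ((w.pos z2 < w.pos c ∧ w.pos c < w.pos z4) →
      (w.swp z1 z2 z3 z4).pos z1 < (w.swp z1 z2 z3 z4).pos c ∧
      (w.swp z1 z2 z3 z4).pos c < (w.swp z1 z2 z3 z4).pos z2) := by
  have p1 := Lay.swp_pos h12 h23 h34 z1
  have p2 := Lay.swp_pos h12 h23 h34 z2
  have p3 := Lay.swp_pos h12 h23 h34 z3
  have p4 := Lay.swp_pos h12 h23 h34 z4
  have pc := Lay.swp_pos h12 h23 h34 c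
  have q1 : (w.swp z1 z2 z3 z4).pos z1 = w.pos z1 := by
    rw [p1]; split_ifs <;> omega
  have q2 : (w.swp z1 z2 z3 z4).pos z2 = w.pos z1 + w.pos z4 - w.pos z2 := by
    rw [p2]; split_ifs <;> omega
  have q3 : (w.swp z1 z2 z3 z4).pos z3 = w.pos z1 + w.pos z4 - w.pos z3 := by
    rw [p3]; split_ifs <;> omega
  have q4 : (w.swp z1 z2 z3 z4).pos z4 = w.pos z4 := by
    rw [p4]; split_ifs <;> omega
  rw [q1, q2, q3, q4, pc]
  refine ⟨by omega, by omega, by omega, ?_, ?_⟩
  · intro h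
    split_ifs <;> omega
  · intro h
    split_ifs <;> omega

/-- the main step of phase 2 -/
theorem ph2_pivot {m : ℕ} {A0 : ℕ → ℕ → ZMod 2} {w : Lay} {S : Finset ℕ} {ord : List ℕ}
    {m1 m2 : ℕ → ℕ} {X : Finset ℕ} {κ : ℕ → ℕ} {gg : ℕ} {st : List ℕ}
    (h : Ph2 m A0 w S ord m1 m2 X κ (gg :: st)) {c x y z1 z2 z3 z4 p q : ℕ}
    (hc : c = m1 gg ∨ c = m2 gg) (hx : x ∈ X) (hy : y ∈ X) (hcx : w.rvc c x = 1)
    (hp13 : (z1 = 2 * p ∧ z3 = 2 * p + 1) ∨ (z1 = 2 * p + 1 ∧ z3 = 2 * p))
    (hq24 : (z2 = 2 * q ∧ z4 = 2 * q + 1) ∨ (z2 = 2 * q + 1 ∧ z4 = 2 * q))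
    (h12 : w.pos z1 < w.pos z2) (h23 : w.pos z2 < w.pos z3) (h34 : w.pos z3 < w.pos z4)
    (hxy : (x = p ∧ y = q) ∨ (x = q ∧ y = p)) {pre post : List ℕ}
    (hord : ord = pre ++ gg :: post)
    {m1' m2' : ℕ → ℕ} (e1 : ∀ h, h ≠ p → h ≠ q → m1' h = m1 h ∧ m2' h = m2 h)
    (ep : m1' p = z1 ∧ m2' p = z2) (eq : m1' q = z3 ∧ m2' q = z4) :
    Ph2 m A0 (w.swp z1 z2 z3 z4) ((S.erase p).erase q) (pre ++ x :: y :: gg :: post) m1' m2'
      ((X.erase p).erase q) κ (gg :: y :: x :: st) := by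
  have hg := h.alg.good
  have hpX : p ∈ X := by rcases hxy with ⟨rfl, rfl⟩ | ⟨rfl, rfl⟩ <;> assumption
  have hqX : q ∈ X := by rcases hxy with ⟨rfl, rfl⟩ | ⟨rfl, rfl⟩ <;> assumption
  have hpS := h.XS hpX
  have hqS := h.XS hqX
  have hpm : p < m := h.alg.sub p hpS
  have hqm : q < m := h.alg.sub q hqS
  have hXm : ∀ t ∈ X, t < m := fun t ht => h.alg.sub t (h.XS ht)
  have hpq : p ≠ q := by
    rintro rfl
    rcases hp13 with ⟨rfl, rfl⟩ | ⟨rfl, rfl⟩ <;> rcases hq24 with ⟨rfl, rfl⟩ | ⟨rfl, rfl⟩ <;> omega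
  have hsym : ∀ t ∈ X, ∀ u ∈ X, w.mat t u = w.mat u t := fun t ht u hu => by
    have := hXm t ht
    have := hXm u hu
    exact Lay.mat_comm hg (by omega) (by omega)
  have hone : w.mat p q = 1 := by
    have l12 : w.l z1 z2 = 1 := by simp only [Lay.l]; rw [if_pos (by omega)]
    have l14 : w.l z1 z4 = 1 := by simp only [Lay.l]; rw [if_pos (by omega)]
    have l32 : w.l z3 z2 = 0 := by simp only [Lay.l]; rw [if_neg (by omega)]
    have l34 : w.l z3 z4 = 1 := by simp only [Lay.l]; rw [if_pos (by omega)]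
    simp only [Lay.mat, if_neg hpq, Lay.cr]
    rcases hp13 with ⟨rfl, rfl⟩ | ⟨rfl, rfl⟩ <;> rcases hq24 with ⟨rfl, rfl⟩ | ⟨rfl, rfl⟩ <;>
      (rw [l12, l14, l32, l34]; decide)
  have hdiag : ∀ t ∈ X, w.mat t t = 0 := by
    intro t ht
    obtain ⟨a, b⟩ := h.apos t ht
    simp only [Lay.mat, if_true, a, b]
    decide
  have hgo : gg ∈ ord := h.stk gg (by simp)
  -- marks of old pivots
  have hne : ∀ h' ∈ ord, h' ≠ p ∧ h' ≠ q := by
    intro h' hh'
    exact ⟨fun e => h.alg.disj h' hh' (e ▸ hpS), fun e => h.alg.disj h' hh' (e ▸ hqS)⟩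
  have hm1 : ∀ h' ∈ ord, m1' h' = m1 h' := fun h' hh' => (e1 h' (hne h' hh').1 (hne h' hh').2).1
  have hm2 : ∀ h' ∈ ord, m2' h' = m2 h' := fun h' hh' => (e1 h' (hne h' hh').1 (hne h' hh').2).2
  have hP0 : ∀ t ∈ X, ¬ Tch w X (m1 gg) t ∨ ¬ Tch w X (m2 gg) t := fun t ht =>
    h.P [] gg st rfl t ht (by simp)
  -- the other mark
  have htc : Tch w X c x := ⟨x, Relation.ReflTransGen.refl, by rw [hcx]; decide⟩
  obtain ⟨c', hc', hnt, hcc⟩ : ∃ c', (c' = m1 gg ∨ c' = m2 gg) ∧ ¬ Tch w X c' x ∧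
      ((c = m1 gg ∧ c' = m2 gg) ∨ (c = m2 gg ∧ c' = m1 gg)) := by
    rcases hc with rfl | rfl
    · refine ⟨m2 gg, Or.inr rfl, ?_, Or.inl ⟨rfl, rfl⟩⟩
      rcases hP0 x hx with h' | h'
      · exact absurd htc h'
      · exact h'
    · refine ⟨m1 gg, Or.inl rfl, ?_, Or.inr ⟨rfl, rfl⟩⟩
      rcases hP0 x hx with h' | h'
      · exact h'
      · exact absurd htc h'
  have hz' : ∀ u, Cn w X x u → w.rvc c' u = 0 := by
    intro u hu
    by_contra hcon
    exact hnt ⟨u, hu, hcon⟩
  have hvecx : w.vec (m1 gg) (m2 gg) x = 1 := by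
    rw [Lay.vec_eq_rvc]
    have := hz' x Relation.ReflTransGen.refl
    rcases hcc with ⟨a, b⟩ | ⟨a, b⟩
    · rw [← a, ← b, hcx, this]; decide
    · rw [← a, ← b, hcx, this]; decide
  have hV0 : ∀ h' ∈ post, ∀ t ∈ X, w.vec (m1 h') (m2 h') t = 0 := by
    intro h' hh'
    rcases h.V [] gg st rfl pre post hord h' hh' with h'' | h''
    · simp at h''
    · exact h''
  obtain ⟨hAlg', hmat', hvec'⟩ := alg_swp h.alg hpS hqS hp13 hq24 h12 h23 h34 (hdiag p hpX)
    (hdiag q hqX) hxy hord hvecx (fun h' hh' => ⟨hV0 h' hh' x hx, hV0 h' hh' y hy⟩) e1 ep eq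
  obtain ⟨hM', hpos'⟩ := mates_swp hg hXm h.mates h.apos hpX hqX hp13 hq24 h12 h23 h34
  have hsub : (X.erase p).erase q ⊆ (S.erase p).erase q := by
    intro t ht
    rw [Finset.mem_erase, Finset.mem_erase] at *
    exact ⟨ht.1, ht.2.1, h.XS ht.2.2⟩
  have hSit : T5bSit w (w.swp z1 z2 z3 z4) X p q :=
    ⟨hpX, hqX, hpq, hsym, hone, fun t ht u hu => hmat' t (hsub ht) u (hsub hu)⟩
  have hxp : Cn w X x p := by
    rcases hxy with ⟨rfl, rfl⟩ | ⟨rfl, rfl⟩
    · exact Relation.ReflTransGen.refl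
    · exact t5b_cn_symm hsym hSit.cnpq
  have hrvc : ∀ d, d < 2 * m → d / 2 ∉ S → ∀ u ∈ (X.erase p).erase q,
      (w.swp z1 z2 z3 z4).rvc d u =
        w.rvc d u + (w.rvc d p * w.mat q u + w.rvc d q * w.mat p u) := by
    intro d hd hdS u hu
    obtain ⟨huX, hup, huq⟩ := hSit.memX hu
    exact t5b_rvc hg hpm hqm hp13 hq24 h12 h23 h34 hd (fun e => hdS (e ▸ hpS))
      (fun e => hdS (e ▸ hqS)) (hXm u huX) hup huq (fun e => hdS (e ▸ h.XS huX))
  have hmk := h.alg.mks
  have hr1 : ∀ h' ∈ ord, ∀ u ∈ (X.erase p).erase q, (w.swp z1 z2 z3 z4).rvc (m1 h') u =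
      w.rvc (m1 h') u + (w.rvc (m1 h') p * w.mat q u + w.rvc (m1 h') q * w.mat p u) :=
    fun h' hh' => hrvc _ (hmk h' hh').1 (hmk h' hh').2.2.1
  have hr2 : ∀ h' ∈ ord, ∀ u ∈ (X.erase p).erase q, (w.swp z1 z2 z3 z4).rvc (m2 h') u =
      w.rvc (m2 h') u + (w.rvc (m2 h') p * w.mat q u + w.rvc (m2 h') q * w.mat p u) :=
    fun h' hh' => hrvc _ (hmk h' hh').2.1 (hmk h' hh').2.2.2
  -- vectors which vanish on X stay zero
  have hvec0 : ∀ h' ∈ ord, (∀ t ∈ X, w.vec (m1 h') (m2 h') t = 0) →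
      ∀ t ∈ (X.erase p).erase q, (w.swp z1 z2 z3 z4).vec (m1' h') (m2' h') t = 0 := by
    intro h' hh' hz t ht
    have a1 := hz t (hSit.memX ht).1
    have a2 := hz p hpX
    have a3 := hz q hqX
    rw [Lay.vec_eq_rvc] at a1 a2 a3 ⊢
    rw [hm1 h' hh', hm2 h' hh', hr1 h' hh' t ht, hr2 h' hh' t ht]
    linear_combination a1 + w.mat q t * a2 + w.mat p t * a3
  have hcm : c < 2 * m ∧ c / 2 ∉ S := by
    rcases hc with rfl | rfl
    · exact ⟨(hmk gg hgo).1, (hmk gg hgo).2.2.1⟩
    · exact ⟨(hmk gg hgo).2.1, (hmk gg hgo).2.2.2⟩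
  have hc'm : c' < 2 * m ∧ c' / 2 ∉ S := by
    rcases hc' with rfl | rfl
    · exact ⟨(hmk gg hgo).1, (hmk gg hgo).2.2.1⟩
    · exact ⟨(hmk gg hgo).2.1, (hmk gg hgo).2.2.2⟩
  -- the top entry
  have hPtop : ∀ t ∈ (X.erase p).erase q,
      ¬ Tch (w.swp z1 z2 z3 z4) ((X.erase p).erase q) (m1 gg) t ∨
        ¬ Tch (w.swp z1 z2 z3 z4) ((X.erase p).erase q) (m2 gg) t := by
    intro t ht
    by_cases hpt : Cn w X p t
    · have hn : ¬ Tch (w.swp z1 z2 z3 z4) ((X.erase p).erase q) c' t := by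
        rintro ⟨u, hu, hne'⟩
        apply hne'
        have hu1 := t5b_cn_mem hu ht
        have hpu := hSit.inside hpt hu
        rw [hrvc c' hc'm.1 hc'm.2 u hu1, hz' u (hxp.trans hpu), hz' p hxp,
          hz' q (hxp.trans hSit.cnpq)]
        ring
      rcases hc' with rfl | rfl
      · exact Or.inl hn
      · exact Or.inr hn
    · rw [hSit.out_tch (hr1 gg hgo) ht hpt, hSit.out_tch (hr2 gg hgo) ht hpt]
      exact hP0 t (hSit.memX ht).1
  -- positions
  have hz1 : z1 < 2 * m ∧ z3 < 2 * m ∧ z1 / 2 = p ∧ z3 / 2 = p := by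
    rcases hp13 with ⟨rfl, rfl⟩ | ⟨rfl, rfl⟩ <;> omega
  have hz2 : z2 < 2 * m ∧ z4 < 2 * m ∧ z2 / 2 = q ∧ z4 / 2 = q := by
    rcases hq24 with ⟨rfl, rfl⟩ | ⟨rfl, rfl⟩ <;> omega
  have hcz : ∀ z, z < 2 * m → z / 2 ∈ S → w.pos c ≠ w.pos z := by
    intro z hz hzS e
    have := hg.inj c z hcm.1 hz e
    exact hcm.2 (this ▸ hzS)
  have c1 := hcz z1 hz1.1 (by rw [hz1.2.2.1]; exact hpS)
  have c3 := hcz z3 hz1.2.1 (by rw [hz1.2.2.2]; exact hpS)
  have c2 := hcz z2 hz2.1 (by rw [hz2.2.2.1]; exact hqS)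
  have c4 := hcz z4 hz2.2.1 (by rw [hz2.2.2.2]; exact hqS)
  obtain ⟨o1, o2, o3, o4, o5⟩ := t5b_pos (c := c) h12 h23 h34 c2 c3
  have hPy : ∀ t ∈ (X.erase p).erase q,
      (¬ Tch (w.swp z1 z2 z3 z4) ((X.erase p).erase q) (m1 gg) t ∧
        ¬ Tch (w.swp z1 z2 z3 z4) ((X.erase p).erase q) (m2 gg) t) →
      ¬ Tch (w.swp z1 z2 z3 z4) ((X.erase p).erase q) (m1' y) t ∨
        ¬ Tch (w.swp z1 z2 z3 z4) ((X.erase p).erase q) (m2' y) t := by
    intro t ht hnt'
    have hnc : ¬ Tch (w.swp z1 z2 z3 z4) ((X.erase p).erase q) c t := by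
      rcases hc with rfl | rfl
      · exact hnt'.1
      · exact hnt'.2
    rcases hxy with ⟨rfl, rfl⟩ | ⟨rfl, rfl⟩
    · -- x = p
      rw [eq.1, eq.2]
      have hb : w.pos z1 < w.pos c ∧ w.pos c < w.pos z3 := by
        have e : w.l c z1 + w.l c z3 = 1 := by
          rw [← hcx, Lay.rvc]
          rcases hp13 with ⟨rfl, rfl⟩ | ⟨rfl, rfl⟩
          · rfl
          · ring
        simp only [Lay.l] at e
        by_cases a1 : w.pos c < w.pos z1
        · rw [if_pos a1, if_pos (by omega)] at e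
          exact absurd e (by decide)
        · by_cases a2 : w.pos c < w.pos z3
          · omega
          · rw [if_neg a1, if_neg a2] at e
            exact absurd e (by decide)
      exact t5b_sep (o4 hb).1 (o4 hb).2 hnc
    · rw [ep.1, ep.2]
      have hb : w.pos z2 < w.pos c ∧ w.pos c < w.pos z4 := by
        have e : w.l c z2 + w.l c z4 = 1 := by
          rw [← hcx, Lay.rvc]
          rcases hq24 with ⟨rfl, rfl⟩ | ⟨rfl, rfl⟩
          · rfl
          · ring
        simp only [Lay.l] at e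
        by_cases a1 : w.pos c < w.pos z2
        · rw [if_pos a1, if_pos (by omega)] at e
          exact absurd e (by decide)
        · by_cases a2 : w.pos c < w.pos z4
          · omega
          · rw [if_neg a1, if_neg a2] at e
            exact absurd e (by decide)
      exact t5b_sep (o5 hb).1 (o5 hb).2 hnc
  have hPx : ∀ t ∈ (X.erase p).erase q,
      (¬ Tch (w.swp z1 z2 z3 z4) ((X.erase p).erase q) (m1' y) t ∧
        ¬ Tch (w.swp z1 z2 z3 z4) ((X.erase p).erase q) (m2' y) t) →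
      ¬ Tch (w.swp z1 z2 z3 z4) ((X.erase p).erase q) (m1' x) t ∨
        ¬ Tch (w.swp z1 z2 z3 z4) ((X.erase p).erase q) (m2' x) t := by
    intro t ht hnt'
    rcases hxy with ⟨rfl, rfl⟩ | ⟨rfl, rfl⟩
    · rw [eq.1, eq.2] at hnt'
      rw [ep.1, ep.2]
      exact t5b_sep o1 o2 hnt'.1
    · rw [ep.1, ep.2] at hnt'
      rw [eq.1, eq.2]
      exact t5b_sep o2 o3 hnt'.2
  have hTin : ∀ t ∈ (X.erase p).erase q, Cn w X p t →
      (Tch (w.swp z1 z2 z3 z4) ((X.erase p).erase q) (m1' x) t ∨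
        Tch (w.swp z1 z2 z3 z4) ((X.erase p).erase q) (m2' x) t) ∨
      (Tch (w.swp z1 z2 z3 z4) ((X.erase p).erase q) (m1' y) t ∨
        Tch (w.swp z1 z2 z3 z4) ((X.erase p).erase q) (m2' y) t) := by
    intro t ht hpt
    obtain ⟨u, hu, hne'⟩ := hSit.claim ht hpt
    have hu1 := t5b_cn_mem hu ht
    obtain ⟨v1, v2⟩ := hvec' u (hsub hu1)
    rw [Lay.vec_eq_rvc] at v1 v2
    have key : (Tch (w.swp z1 z2 z3 z4) ((X.erase p).erase q) (m1' p) t ∨
        Tch (w.swp z1 z2 z3 z4) ((X.erase p).erase q) (m2' p) t) ∨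
      (Tch (w.swp z1 z2 z3 z4) ((X.erase p).erase q) (m1' q) t ∨
        Tch (w.swp z1 z2 z3 z4) ((X.erase p).erase q) (m2' q) t) := by
      rw [ep.1, ep.2, eq.1, eq.2]
      rcases hne' with hne' | hne'
      · right
        by_cases a : (w.swp z1 z2 z3 z4).rvc z3 u = 0
        · right
          refine ⟨u, hu, fun b => hne' ?_⟩
          rw [← v2, a, b]; decide
        · left
          exact ⟨u, hu, a⟩
      · left
        by_cases a : (w.swp z1 z2 z3 z4).rvc z1 u = 0
        · right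
          refine ⟨u, hu, fun b => hne' ?_⟩
          rw [← v1, a, b]; decide
        · left
          exact ⟨u, hu, a⟩
    rcases hxy with ⟨rfl, rfl⟩ | ⟨rfl, rfl⟩
    · exact key
    · exact key.symm
  have hxS := h.XS hx
  have hyS := h.XS hy
  have hxo : x ∉ ord := fun hh => h.alg.disj x hh hxS
  have hyo : y ∉ ord := fun hh => h.alg.disj y hh hyS
  have hxney : x ≠ y := by
    rcases hxy with ⟨rfl, rfl⟩ | ⟨rfl, rfl⟩
    · exact hpq
    · exact hpq.symm
  have hmemo : ∀ a ∈ ord, a ∈ pre ++ x :: y :: gg :: post := by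
    intro a ha
    rw [hord] at ha
    simp only [List.mem_append, List.mem_cons] at ha ⊢
    rcases ha with ha | ha | ha
    · exact Or.inl ha
    · exact Or.inr (Or.inr (Or.inr (Or.inl ha)))
    · exact Or.inr (Or.inr (Or.inr (Or.inr ha)))
  have hnod' := hAlg'.valid.nodup
  refine ⟨hAlg', hsub, ?_, hpos', hM', ?_, ?_, ?_, ?_, ?_⟩
  · -- clo
    intro t ht u hu huX
    obtain ⟨htX, htp, htq⟩ := hSit.memX ht
    rw [hmat' t (hsub ht) u hu]
    rw [Finset.mem_erase, Finset.mem_erase] at hu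
    have huX' : u ∉ X := by
      intro h'
      apply huX
      rw [Finset.mem_erase, Finset.mem_erase]
      exact ⟨hu.1, hu.2.1, h'⟩
    rw [h.clo t htX u hu.2.2 huX', h.clo p hpX u hu.2.2 huX', h.clo q hqX u hu.2.2 huX']
    ring
  · -- stk
    intro a ha
    simp only [List.mem_cons] at ha
    rcases ha with rfl | rfl | rfl | ha
    · exact hmemo _ hgo
    · simp
    · simp
    · exact hmemo a (h.stk a (List.mem_cons_of_mem _ ha))
  · -- nd
    have hnd := h.nd
    rw [List.nodup_cons] at hnd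
    have hst : ∀ a ∈ st, a ∈ ord := fun a ha => h.stk a (List.mem_cons_of_mem _ ha)
    refine List.nodup_cons.2 ⟨?_, List.nodup_cons.2 ⟨?_, List.nodup_cons.2 ⟨?_, hnd.2⟩⟩⟩
    · simp only [List.mem_cons, not_or]
      exact ⟨fun e => hyo (e ▸ hgo), fun e => hxo (e ▸ hgo), hnd.1⟩
    · simp only [List.mem_cons, not_or]
      exact ⟨hxney.symm, fun hh => hyo (hst _ hh)⟩
    · exact fun hh => hxo (hst _ hh)
  · -- V
    intro up h₁ dn hst pre₂ post₂ hord₂ h' hh'
    cases up with
    | nil =>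
      simp only [List.nil_append, List.cons.injEq] at hst
      obtain ⟨rfl, -⟩ := hst
      have hd : pre ++ x :: y :: gg :: post = (pre ++ [x, y]) ++ gg :: post := by simp
      obtain ⟨-, i2⟩ := t5b_split hnod' hord₂ hd
      right
      rw [i2] at hh'
      exact hvec0 h' (by rw [hord]; simp [hh']) (hV0 h' hh')
    | cons a up =>
      simp only [List.cons_append, List.cons.injEq] at hst
      obtain ⟨rfl, hst⟩ := hst
      cases up with
      | nil =>
        simp only [List.nil_append, List.cons.injEq] at hst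
        obtain ⟨rfl, -⟩ := hst
        have hd : pre ++ x :: y :: gg :: post = (pre ++ [x]) ++ y :: gg :: post := by simp
        obtain ⟨-, i2⟩ := t5b_split hnod' hord₂ hd
        rw [i2, List.mem_cons] at hh'
        rcases hh' with rfl | hh'
        · left; simp
        · right
          exact hvec0 h' (by rw [hord]; simp [hh']) (hV0 h' hh')
      | cons b up =>
        simp only [List.cons_append, List.cons.injEq] at hst
        obtain ⟨rfl, hst⟩ := hst
        cases up with
        | nil =>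
          simp only [List.nil_append, List.cons.injEq] at hst
          obtain ⟨rfl, -⟩ := hst
          obtain ⟨-, i2⟩ := t5b_split hnod' hord₂ rfl
          rw [i2, List.mem_cons, List.mem_cons] at hh'
          rcases hh' with rfl | rfl | hh'
          · left; simp
          · left; simp
          · right
            exact hvec0 h' (by rw [hord]; simp [hh']) (hV0 h' hh')
        | cons b' up =>
          simp only [List.cons_append, List.cons.injEq] at hst
          obtain ⟨rfl, hst⟩ := hst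
          have h₁st : h₁ ∈ st := by rw [hst]; simp
          have h₁o : h₁ ∈ ord := h.stk h₁ (List.mem_cons_of_mem _ h₁st)
          by_cases hx' : h' = x
          · left; rw [hx']; simp
          by_cases hy' : h' = y
          · left; rw [hy']; simp
          have ha : t5b_aft (pre ++ x :: y :: gg :: post) h₁ h' := ⟨pre₂, post₂, hord₂, hh'⟩
          have n1 : h₁ ≠ x := by rintro rfl; exact hxo h₁o
          have n2 : h₁ ≠ y := by rintro rfl; exact hyo h₁o
          have hb := t5b_aft_insert (by rw [← hord]; exact hxo) (by rw [← hord]; exact hyo)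
            ⟨n1, n2⟩ ⟨hx', hy'⟩ ha
          rw [← hord] at hb
          obtain ⟨pre₃, post₃, hord₃, hh₃⟩ := hb
          have h'o : h' ∈ ord := by rw [hord₃]; simp [hh₃]
          rcases h.V (gg :: up) h₁ dn (by rw [hst]; simp) pre₃ post₃ hord₃ h' hh₃ with h4 | h4
          · left
            rw [List.mem_cons] at h4 ⊢
            rcases h4 with h4 | h4
            · exact Or.inl h4
            · right
              simp [h4]
          · right
            exact hvec0 h' h'o h4
  · -- P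
    intro up h₁ dn hst t ht habove
    cases up with
    | nil =>
      simp only [List.nil_append, List.cons.injEq] at hst
      obtain ⟨rfl, -⟩ := hst
      rw [hm1 gg hgo, hm2 gg hgo]
      exact hPtop t ht
    | cons a up =>
      simp only [List.cons_append, List.cons.injEq] at hst
      obtain ⟨rfl, hst⟩ := hst
      have hgg := habove gg (by simp)
      rw [hm1 gg hgo, hm2 gg hgo] at hgg
      cases up with
      | nil =>
        simp only [List.nil_append, List.cons.injEq] at hst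
        obtain ⟨rfl, -⟩ := hst
        exact hPy t ht hgg
      | cons b up =>
        simp only [List.cons_append, List.cons.injEq] at hst
        obtain ⟨rfl, hst⟩ := hst
        have hyy := habove y (by simp)
        cases up with
        | nil =>
          simp only [List.nil_append, List.cons.injEq] at hst
          obtain ⟨rfl, -⟩ := hst
          exact hPx t ht hyy
        | cons b' up =>
          simp only [List.cons_append, List.cons.injEq] at hst
          obtain ⟨rfl, hst⟩ := hst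
          have hxx := habove x (by simp)
          have hstm : ∀ a ∈ st, a ∈ ord := fun a ha => h.stk a (List.mem_cons_of_mem _ ha)
          have h₁st : h₁ ∈ st := by rw [hst]; simp
          have h₁o : h₁ ∈ ord := hstm _ h₁st
          by_cases hpt : Cn w X p t
          · exfalso
            rcases hTin t ht hpt with (h5 | h5) | (h5 | h5)
            · exact hxx.1 h5
            · exact hxx.2 h5
            · exact hyy.1 h5
            · exact hyy.2 h5
          · rw [hm1 h₁ h₁o, hm2 h₁ h₁o, hSit.out_tch (hr1 h₁ h₁o) ht hpt,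
              hSit.out_tch (hr2 h₁ h₁o) ht hpt]
            refine h.P (gg :: up) h₁ dn (by rw [hst]; simp) t (hSit.memX ht).1 ?_
            intro h' hh'
            have h'o : h' ∈ ord := by
              rw [List.mem_cons] at hh'
              rcases hh' with rfl | hh'
              · exact hgo
              · exact hstm h' (by rw [hst]; simp [hh'])
            have := habove h' (by
              rw [List.mem_cons] at hh' ⊢
              rcases hh' with rfl | hh'
              · exact Or.inl rfl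
              · right; simp [hh'])
            rw [hm1 h' h'o, hm2 h' h'o, hSit.out_tch (hr1 h' h'o) ht hpt,
              hSit.out_tch (hr2 h' h'o) ht hpt] at this
            exact this
  · -- T
    rintro t ht ⟨u, hu, hut, hmtu⟩
    by_cases hpt : Cn w X p t
    · rcases hTin t ht hpt with h5 | h5
      · exact ⟨x, by simp, h5⟩
      · exact ⟨y, by simp, h5⟩
    · obtain ⟨-, i1, i2⟩ := hSit.out_zero ht hpt Relation.ReflTransGen.refl
      have htX := (hSit.memX ht).1
      have huX := (hSit.memX hu).1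
      rw [hSit.mat t ht u hu, hsym t htX p hpX, hsym t htX q hqX, i1, i2] at hmtu
      have hmtu' : w.mat t u ≠ 0 := by simpa using hmtu
      obtain ⟨h₁, hh₁, h6⟩ := h.T t htX ⟨u, huX, hut, hmtu'⟩
      have h₁o := h.stk h₁ hh₁
      refine ⟨h₁, ?_, ?_⟩
      · rw [List.mem_cons] at hh₁ ⊢
        rcases hh₁ with hh₁ | hh₁
        · exact Or.inl hh₁
        · right; simp [hh₁]
      · rw [hm1 h₁ h₁o, hm2 h₁ h₁o, hSit.out_tch (hr1 h₁ h₁o) ht hpt,
          hSit.out_tch (hr2 h₁ h₁o) ht hpt]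
        exact h6

end SBR
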