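/-
SBR/T6a.lean : waiting components under rotation, removal of a chord and block swap.
-/
import Pool.Agent.SBR.State

namespace SBR

private theorem t6a_cw_rot {w : Lay} {L : ℕ} (h : w.Good L) {j a z b : ℕ} (hj : j < L) (ha : a < L)
    (hz : z < L) (hb : b < L) : (w.rot L j).Cw a z b ↔ w.Cw a z b := by
  have h0 := h.lt j hj
  have h1 := h.lt a ha
  have h2 := h.lt z hz
  have h3 := h.lt b hb
  simp only [Lay.Cw, Lay.rot]
  split_ifs <;> omega

private theorem t6a_cn_congr {w w' : Lay} {K : Finset ℕ}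
    (h : ∀ a ∈ K, ∀ b ∈ K, w'.mat a b = w.mat a b) {t u : ℕ} (hc : Cn w K t u) : Cn w' K t u := by
  induction hc with
  | refl => exact Relation.ReflTransGen.refl
  | tail _ hab ih =>
    obtain ⟨h1, h2, h3, h4⟩ := hab
    exact ih.tail ⟨h1, h2, h3, by rw [h _ h1 _ h2]; exact h4⟩

theorem pend_rot {m : ℕ} {A0 : ℕ → ℕ → ZMod 2} {w : Lay} {S : Finset ℕ} {ord : List ℕ}
    {m1 m2 : ℕ → ℕ} (hA : Alg m A0 w S ord m1 m2) {K : Finset ℕ} {g tE : ℕ}
    (hK : Pend w S ord m1 m2 K g tE) {j : ℕ} (hj : j < 2 * m) :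
    Pend (w.rot (2 * m) j) S ord m1 m2 K g tE := by
  have hg := hA.good
  have hKm : ∀ t ∈ K, 2 * t + 1 < 2 * m := fun t ht => by
    have := hA.sub t (hK.KS ht)
    omega
  have hSm : ∀ t ∈ S, 2 * t + 1 < 2 * m := fun t ht => by
    have := hA.sub t ht
    omega
  have hcyc : ∀ t u, CycCons K t u → t ∈ K ∧ u ∈ K := by
    intro t u h
    rcases h with h | h
    · exact ⟨h.1, h.2.1⟩
    · exact ⟨h.1, h.2.1⟩
  have hm := hA.mks g hK.gord
  constructor
  · exact hK.KS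
  · intro t ht u hu huK
    rw [Lay.mat_rot hg hj (hKm t ht) (hSm u hu)]
    exact hK.clo t ht u hu huK
  · intro t ht u hu
    exact t6a_cn_congr (fun a ha b hb => Lay.mat_rot hg hj (hKm a ha) (hKm b hb)) (hK.con t ht u hu)
  · exact hK.apos
  · intro t u htu v hv
    obtain ⟨h1, h2⟩ := hcyc t u htu
    have e1 := hKm t h1
    have e2 := hKm u h2
    have e3 := hKm v hv
    rw [t6a_cw_rot hg hj (by omega) (by omega) (by omega),
      t6a_cw_rot hg hj (by omega) (by omega) (by omega)]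
    exact hK.circ t u htu v hv
  · exact hK.tEK
  · intro v hv
    have e2 := hKm tE hK.tEK
    have e3 := hKm v hv
    rw [t6a_cw_rot hg hj hm.1 (by omega) (by omega), t6a_cw_rot hg hj hm.1 (by omega) (by omega)]
    exact hK.jun v hv
  · exact hK.gord
  · intro pre post hord h hh t ht
    have hh' : h ∈ ord := by rw [hord]; simp [hh]
    have hmh := hA.mks h hh'
    rw [Lay.vec_rot hg hj hmh.1 hmh.2.1 (hKm t ht)]
    exact hK.late pre post hord h hh t ht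
  · obtain ⟨t, ht, htv⟩ := hK.tch
    refine ⟨t, ht, ?_⟩
    rw [Lay.vec_rot hg hj hm.1 hm.2.1 (hKm t ht)]
    exact htv

theorem pend_kill {w : Lay} {S : Finset ℕ} {ord : List ℕ} {m1 m2 : ℕ → ℕ} {K : Finset ℕ}
    {g tE : ℕ} (hK : Pend w S ord m1 m2 K g tE) {x : ℕ} (hx : x ∉ K) :
    Pend w (S.erase x) ord m1 m2 K g tE := by
  constructor
  · intro t ht
    exact Finset.mem_erase.2 ⟨fun h => hx (h ▸ ht), hK.KS ht⟩
  · intro t ht u hu
    exact hK.clo t ht u (Finset.mem_of_mem_erase hu)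
  · exact hK.con
  · exact hK.apos
  · exact hK.circ
  · exact hK.tEK
  · exact hK.jun
  · exact hK.gord
  · exact hK.late
  · exact hK.tch

/-- region of a position: `0` outside, `1`, `2`, `3` the three blocks -/
private def t6aRg (p1 p2 p3 p4 a : ℕ) : ℕ :=
  if a < p1 ∨ p4 < a then 0 else if a < p2 then 1 else if a < p3 then 2 else 3

private theorem t6a_region {p1 p2 p3 p4 a b c d : ℕ} (h12 : p1 < p2) (h23 : p2 < p3) (h34 : p3 < p4)
    (hab : t6aRg p1 p2 p3 p4 a = t6aRg p1 p2 p3 p4 b)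
    (hcd : t6aRg p1 p2 p3 p4 c = t6aRg p1 p2 p3 p4 d)
    (hne : t6aRg p1 p2 p3 p4 a ≠ t6aRg p1 p2 p3 p4 c) :
    (((a < c ↔ a < d) ∧ (b < c ↔ b < d)) ∨ ((a < c ↔ b < c) ∧ (a < d ↔ b < d))) := by
  unfold t6aRg at hab hcd hne
  split_ifs at hab hcd hne <;> omega

private theorem t6a_rg_of {p1 p2 p3 p4 a b : ℕ} (h12 : p1 < p2) (h23 : p2 < p3) (h34 : p3 < p4)
    (ha : a ≠ p1 ∧ a ≠ p2 ∧ a ≠ p3 ∧ a ≠ p4) (hb : b ≠ p1 ∧ b ≠ p2 ∧ b ≠ p3 ∧ b ≠ p4)
    (h1 : (p1 < a ∧ a < p3) ↔ (p1 < b ∧ b < p3)) (h2 : (p2 < a ∧ a < p4) ↔ (p2 < b ∧ b < p4)) :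
    t6aRg p1 p2 p3 p4 a = t6aRg p1 p2 p3 p4 b := by
  unfold t6aRg
  split_ifs <;> omega

private theorem t6a_bi {w : Lay} {a b x y : ℕ} (hab : w.pos a < w.pos b)
    (h : w.bi a b x + w.bi a b y = 0) :
    (w.pos a < w.pos x ∧ w.pos x < w.pos b) ↔ (w.pos a < w.pos y ∧ w.pos y < w.pos b) := by
  simp only [Lay.bi, Lay.Btw] at h
  by_cases h1 : (w.pos a < w.pos x ∧ w.pos x < w.pos b) ∨ (w.pos b < w.pos x ∧ w.pos x < w.pos a)
  · by_cases h2 : (w.pos a < w.pos y ∧ w.pos y < w.pos b) ∨ (w.pos b < w.pos y ∧ w.pos y < w.pos a)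
    · omega
    · rw [if_pos h1, if_neg h2] at h
      exact absurd h (by decide)
  · by_cases h2 : (w.pos a < w.pos y ∧ w.pos y < w.pos b) ∨ (w.pos b < w.pos y ∧ w.pos y < w.pos a)
    · rw [if_neg h1, if_pos h2] at h
      exact absurd h (by decide)
    · omega

/-- position after the swap in terms of the region -/
private theorem t6a_pos {w : Lay} {z1 z2 z3 z4 : ℕ} (h12 : w.pos z1 < w.pos z2)
    (h23 : w.pos z2 < w.pos z3) (h34 : w.pos z3 < w.pos z4) (x : ℕ)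
    (hx : w.pos x ≠ w.pos z1 ∧ w.pos x ≠ w.pos z2 ∧ w.pos x ≠ w.pos z3 ∧ w.pos x ≠ w.pos z4) :
    (t6aRg (w.pos z1) (w.pos z2) (w.pos z3) (w.pos z4) (w.pos x) = 0 ∧
      (w.pos x < w.pos z1 ∨ w.pos z4 < w.pos x) ∧ (w.swp z1 z2 z3 z4).pos x = w.pos x) ∨
    (t6aRg (w.pos z1) (w.pos z2) (w.pos z3) (w.pos z4) (w.pos x) = 1 ∧
      w.pos z1 < w.pos x ∧ w.pos x < w.pos z2 ∧
      (w.swp z1 z2 z3 z4).pos x + w.pos z2 = w.pos x + w.pos z4) ∨
    (t6aRg (w.pos z1) (w.pos z2) (w.pos z3) (w.pos z4) (w.pos x) = 2 ∧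
      w.pos z2 < w.pos x ∧ w.pos x < w.pos z3 ∧
      (w.swp z1 z2 z3 z4).pos x + w.pos z2 + w.pos z3 = w.pos x + w.pos z1 + w.pos z4) ∨
    (t6aRg (w.pos z1) (w.pos z2) (w.pos z3) (w.pos z4) (w.pos x) = 3 ∧
      w.pos z3 < w.pos x ∧ w.pos x < w.pos z4 ∧
      (w.swp z1 z2 z3 z4).pos x + w.pos z3 = w.pos x + w.pos z1) := by
  rw [Lay.swp_pos h12 h23 h34 x]
  unfold t6aRg
  split_ifs <;> omega

private theorem t6a_cw_swp {w : Lay} {z1 z2 z3 z4 : ℕ} (h12 : w.pos z1 < w.pos z2)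
    (h23 : w.pos z2 < w.pos z3) (h34 : w.pos z3 < w.pos z4) {c v e : ℕ}
    (hc : w.pos c ≠ w.pos z1 ∧ w.pos c ≠ w.pos z2 ∧ w.pos c ≠ w.pos z3 ∧ w.pos c ≠ w.pos z4)
    (hv : w.pos v ≠ w.pos z1 ∧ w.pos v ≠ w.pos z2 ∧ w.pos v ≠ w.pos z3 ∧ w.pos v ≠ w.pos z4)
    (he : w.pos e ≠ w.pos z1 ∧ w.pos e ≠ w.pos z2 ∧ w.pos e ≠ w.pos z3 ∧ w.pos e ≠ w.pos z4)
    (hr : t6aRg (w.pos z1) (w.pos z2) (w.pos z3) (w.pos z4) (w.pos v) =
      t6aRg (w.pos z1) (w.pos z2) (w.pos z3) (w.pos z4) (w.pos e)) :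
    (w.swp z1 z2 z3 z4).Cw c v e ↔ w.Cw c v e := by
  have a1 := t6a_pos h12 h23 h34 c hc
  have a2 := t6a_pos h12 h23 h34 v hv
  have a3 := t6a_pos h12 h23 h34 e he
  simp only [Lay.Cw]
  generalize (w.swp z1 z2 z3 z4).pos c = c' at *
  generalize (w.swp z1 z2 z3 z4).pos v = v' at *
  generalize (w.swp z1 z2 z3 z4).pos e = e' at *
  rcases a1 with ⟨_, a1⟩ | ⟨_, a1⟩ | ⟨_, a1⟩ | ⟨_, a1⟩ <;>
    rcases a2 with ⟨r2, a2⟩ | ⟨r2, a2⟩ | ⟨r2, a2⟩ | ⟨r2, a2⟩ <;>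
    rcases a3 with ⟨r3, a3⟩ | ⟨r3, a3⟩ | ⟨r3, a3⟩ | ⟨r3, a3⟩ <;>
    first
      | (exfalso; omega)
      | omega

/-- an element behind `g` in a list -/
private theorem t6a_after {l : List ℕ} {g h : ℕ} :
    (∃ pre post, l = pre ++ g :: post ∧ h ∈ post) ↔ List.Sublist [g, h] l := by
  constructor
  · rintro ⟨pre, post, rfl, hh⟩
    refine List.Sublist.trans ?_ (List.sublist_append_right pre _)
    exact List.Sublist.cons_cons g (List.singleton_sublist.2 hh)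
  · intro hs
    obtain ⟨r1, r2, h1, h2, h3⟩ := List.cons_sublist_iff.1 hs
    obtain ⟨s, t, rfl⟩ := List.append_of_mem h2
    exact ⟨s, t ++ r2, by rw [h1]; simp, by
      have := List.singleton_sublist.1 h3
      simp [this]⟩

theorem pend_swp {m : ℕ} {A0 : ℕ → ℕ → ZMod 2} {w : Lay} {S : Finset ℕ} {ord : List ℕ}
    {m1 m2 : ℕ → ℕ} (hA : Alg m A0 w S ord m1 m2) {K : Finset ℕ} {g tE : ℕ}
    (hK : Pend w S ord m1 m2 K g tE) {z1 z2 z3 z4 p q x y : ℕ}
    (hp : p ∈ S) (hq : q ∈ S) (hpK : p ∉ K) (hqK : q ∉ K)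
    (hp13 : (z1 = 2 * p ∧ z3 = 2 * p + 1) ∨ (z1 = 2 * p + 1 ∧ z3 = 2 * p))
    (hq24 : (z2 = 2 * q ∧ z4 = 2 * q + 1) ∨ (z2 = 2 * q + 1 ∧ z4 = 2 * q))
    (h12 : w.pos z1 < w.pos z2) (h23 : w.pos z2 < w.pos z3) (h34 : w.pos z3 < w.pos z4)
    (hxy : (x = p ∧ y = q) ∨ (x = q ∧ y = p)) {pre post : List ℕ} {gg : ℕ}
    (hord : ord = pre ++ gg :: post)
    {m1' m2' : ℕ → ℕ} (e1 : ∀ h, h ≠ p → h ≠ q → m1' h = m1 h ∧ m2' h = m2 h)
    (ep : m1' p = z1 ∧ m2' p = z2) (eq : m1' q = z3 ∧ m2' q = z4) :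
    Pend (w.swp z1 z2 z3 z4) ((S.erase p).erase q) (pre ++ x :: y :: gg :: post) m1' m2'
      K g tE := by
  have hg := hA.good
  have hpm := hA.sub p hp
  have hqm := hA.sub q hq
  have hz1 : z1 < 2 * m := by omega
  have hz2 : z2 < 2 * m := by omega
  have hz3 : z3 < 2 * m := by omega
  have hz4 : z4 < 2 * m := by omega
  have hz1' : z1 / 2 = p := by omega
  have hz2' : z2 / 2 = q := by omega
  have hz3' : z3 / 2 = p := by omega
  have hz4' : z4 / 2 = q := by omega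
  have hKm : ∀ t ∈ K, 2 * t + 1 < 2 * m := fun t ht => by
    have := hA.sub t (hK.KS ht)
    omega
  have hSm : ∀ t ∈ S, 2 * t + 1 < 2 * m := fun t ht => by
    have := hA.sub t ht
    omega
  have hKp : ∀ t ∈ K, t ≠ p := fun t ht h => hpK (h ▸ ht)
  have hKq : ∀ t ∈ K, t ≠ q := fun t ht h => hqK (h ▸ ht)
  -- positions of nodes of other chords
  have hne : ∀ v, v < 2 * m → v / 2 ≠ p → v / 2 ≠ q →
      w.pos v ≠ w.pos z1 ∧ w.pos v ≠ w.pos z2 ∧ w.pos v ≠ w.pos z3 ∧ w.pos v ≠ w.pos z4 := by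
    intro v hv h1 h2
    refine ⟨fun h => ?_, fun h => ?_, fun h => ?_, fun h => ?_⟩
    · have := hg.inj v z1 hv hz1 h
      subst this
      omega
    · have := hg.inj v z2 hv hz2 h
      subst this
      omega
    · have := hg.inj v z3 hv hz3 h
      subst this
      omega
    · have := hg.inj v z4 hv hz4 h
      subst this
      omega
  have hneK : ∀ t ∈ K, ∀ v, v / 2 = t →
      w.pos v ≠ w.pos z1 ∧ w.pos v ≠ w.pos z2 ∧ w.pos v ≠ w.pos z3 ∧ w.pos v ≠ w.pos z4 := by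
    intro t ht v hvt
    have := hKm t ht
    have := hKp t ht
    have := hKq t ht
    exact hne v (by omega) (by omega) (by omega)
  -- no crossing with `p` and `q`
  have hbc13 : ∀ t ∈ K, w.bc z1 z3 t = 0 := by
    intro t ht
    have h1 : w.mat p t = 0 := by
      rw [Lay.mat_comm hg (hKm t ht) (hSm p hp)]
      exact hK.clo t ht p hp hpK
    have h2 := Lay.bc_chord hg (hSm p hp) (hKm t ht) (hKp t ht)
    rw [h1] at h2
    rcases hp13 with ⟨r1, r2⟩ | ⟨r1, r2⟩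
    · rw [r1, r2]
      exact h2
    · rw [r1, r2]
      simp only [Lay.bc] at h2 ⊢
      rw [Lay.bi_comm (2 * p + 1) (2 * p) (2 * t), Lay.bi_comm (2 * p + 1) (2 * p) (2 * t + 1)]
      exact h2
  have hbc24 : ∀ t ∈ K, w.bc z2 z4 t = 0 := by
    intro t ht
    have h1 : w.mat q t = 0 := by
      rw [Lay.mat_comm hg (hKm t ht) (hSm q hq)]
      exact hK.clo t ht q hq hqK
    have h2 := Lay.bc_chord hg (hSm q hq) (hKm t ht) (hKq t ht)
    rw [h1] at h2
    rcases hq24 with ⟨r1, r2⟩ | ⟨r1, r2⟩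
    · rw [r1, r2]
      exact h2
    · rw [r1, r2]
      simp only [Lay.bc] at h2 ⊢
      rw [Lay.bi_comm (2 * q + 1) (2 * q) (2 * t), Lay.bi_comm (2 * q + 1) (2 * q) (2 * t + 1)]
      exact h2
  -- the two ends of a chord of `K` are in the same region
  set R : ℕ → ℕ := fun v => t6aRg (w.pos z1) (w.pos z2) (w.pos z3) (w.pos z4) (w.pos v) with hR
  have hRt : ∀ t ∈ K, R (2 * t) = R (2 * t + 1) := by
    intro t ht
    refine t6a_rg_of h12 h23 h34 (hneK t ht _ (by omega)) (hneK t ht _ (by omega)) ?_ ?_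
    · exact t6a_bi (by omega) (hbc13 t ht)
    · exact t6a_bi (by omega) (hbc24 t ht)
  -- adjacent chords are in the same region
  have hRadj : ∀ a b, Adj w K a b → R (2 * a) = R (2 * b) := by
    intro a b hab
    obtain ⟨ha, hb, hne', hm⟩ := hab
    by_contra hcon
    apply hm
    have := t6a_region h12 h23 h34 (hRt a ha) (hRt b hb) hcon
    simp only [Lay.mat, if_neg hne', Lay.cr, Lay.l]
    rcases this with ⟨i1, i2⟩ | ⟨i1, i2⟩
    · rw [if_congr i1 rfl rfl, if_congr i2 rfl rfl]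
      rw [zmod2_two_mul, zero_add, zmod2_two_mul]
    · rw [if_congr i1 rfl rfl, if_congr i2 rfl rfl]
      have : ∀ u v : ZMod 2, u + v + u + v = 0 := by decide
      exact this _ _
  have hRcn : ∀ t, Cn w K tE t → R (2 * tE) = R (2 * t) := by
    intro t ht
    induction ht with
    | refl => rfl
    | tail _ h ih => exact ih.trans (hRadj _ _ h)
  have hRall : ∀ t ∈ K, R (2 * t) = R (2 * tE) ∧ R (2 * t + 1) = R (2 * tE) := by
    intro t ht
    have h1 := hRcn t (hK.con tE hK.tEK t ht)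
    exact ⟨h1.symm, (hRt t ht).symm.trans h1.symm⟩
  -- overlap matrix
  have hmatK : ∀ t ∈ K, ∀ u ∈ S, u ≠ p → u ≠ q → (w.swp z1 z2 z3 z4).mat t u = w.mat t u := by
    intro t ht u hu hup huq
    rw [Lay.mat_swp hg h12 h23 h34 hz1 hz2 hz3 hz4 (hKm t ht) (hSm u hu)
      (by rw [hz2']; exact hKq t ht) (by rw [hz3']; exact hKp t ht) (by rw [hz2']; exact huq)
      (by rw [hz3']; exact hup), hbc13 t ht, hbc24 t ht]
    ring
  -- virtual chords
  have hvec : ∀ h ∈ ord, ∀ t ∈ K, (w.swp z1 z2 z3 z4).vec (m1' h) (m2' h) t =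
      w.vec (m1 h) (m2 h) t := by
    intro h hh t ht
    have hhS := hA.disj h hh
    obtain ⟨f1, f2⟩ := e1 h (fun e => hhS (e ▸ hp)) (fun e => hhS (e ▸ hq))
    obtain ⟨k1, k2, k3, k4⟩ := hA.mks h hh
    rw [f1, f2]
    have htS := hK.KS ht
    rw [Lay.vec_swp hg h12 h23 h34 hz1 hz2 hz3 hz4 k1 k2 (hKm t ht)
      (by rw [hz2']; exact hKq t ht) (by rw [hz3']; exact hKp t ht)
      (fun e => k3 (e ▸ htS)) (fun e => k4 (e ▸ htS))
      (fun e => k3 (by rw [e, hz2']; exact hq)) (fun e => k3 (by rw [e, hz3']; exact hp))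
      (fun e => k4 (by rw [e, hz2']; exact hq)) (fun e => k4 (by rw [e, hz3']; exact hp)),
      hbc13 t ht, hbc24 t ht]
    ring
  have hcyc : ∀ t u, CycCons K t u → t ∈ K ∧ u ∈ K := by
    intro t u h
    rcases h with h | h
    · exact ⟨h.1, h.2.1⟩
    · exact ⟨h.1, h.2.1⟩
  have hgS := hA.disj g hK.gord
  have hgp : g ≠ p := fun e => hgS (e ▸ hp)
  have hgq : g ≠ q := fun e => hgS (e ▸ hq)
  obtain ⟨k1, k2, k3, k4⟩ := hA.mks g hK.gord
  constructor
  · intro t ht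
    exact Finset.mem_erase.2 ⟨hKq t ht, Finset.mem_erase.2 ⟨hKp t ht, hK.KS ht⟩⟩
  · intro t ht u hu huK
    have hu1 := Finset.mem_erase.1 hu
    have hu2 := Finset.mem_erase.1 hu1.2
    rw [hmatK t ht u hu2.2 hu2.1 hu1.1]
    exact hK.clo t ht u hu2.2 huK
  · intro t ht u hu
    exact t6a_cn_congr (fun a ha b hb => hmatK a ha b (hK.KS hb) (hKp b hb) (hKq b hb))
      (hK.con t ht u hu)
  · intro t ht
    have n1 := hneK t ht (2 * t) (by omega)
    have n2 := hneK t ht (2 * t + 1) (by omega)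
    rw [Lay.swp_sg h12 h23 h34 _ n1.2.1 n1.2.2.1, Lay.swp_sg h12 h23 h34 _ n2.2.1 n2.2.2.1]
    exact hK.apos t ht
  · intro t u htu v hv
    obtain ⟨h1, h2⟩ := hcyc t u htu
    have n1 := hneK t h1 (2 * t + 1) (by omega)
    have n2 := hneK v hv (2 * v) (by omega)
    have n3 := hneK v hv (2 * v + 1) (by omega)
    have n4 := hneK u h2 (2 * u) (by omega)
    rw [t6a_cw_swp h12 h23 h34 n1 n2 n4 ((hRall v hv).1.trans (hRall u h2).1.symm),
      t6a_cw_swp h12 h23 h34 n1 n3 n4 ((hRall v hv).2.trans (hRall u h2).1.symm)]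
    exact hK.circ t u htu v hv
  · exact hK.tEK
  · intro v hv
    have n1 : w.pos (m1 g) ≠ w.pos z1 ∧ w.pos (m1 g) ≠ w.pos z2 ∧ w.pos (m1 g) ≠ w.pos z3 ∧
        w.pos (m1 g) ≠ w.pos z4 :=
      hne (m1 g) k1 (fun e => k3 (e ▸ hp)) (fun e => k3 (e ▸ hq))
    have n2 := hneK v hv (2 * v) (by omega)
    have n3 := hneK v hv (2 * v + 1) (by omega)
    have n4 := hneK tE hK.tEK (2 * tE) (by omega)
    rw [(e1 g hgp hgq).1, t6a_cw_swp h12 h23 h34 n1 n2 n4 (hRall v hv).1,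
      t6a_cw_swp h12 h23 h34 n1 n3 n4 (hRall v hv).2]
    exact hK.jun v hv
  · have := hK.gord
    rw [hord] at this
    simp only [List.mem_append, List.mem_cons] at this ⊢
    tauto
  · intro pre' post' hord' h hh t ht
    have hsub : List.Sublist [g, h] (pre ++ x :: y :: gg :: post) :=
      t6a_after.1 ⟨pre', post', hord', hh⟩
    by_cases hhpq : h = p ∨ h = q
    · rcases hhpq with rfl | rfl
      · rw [ep.1, ep.2, Lay.vec_swp_12 hg h12 h23 h34 hz1 hz2 hz3 hz4 (hKm t ht)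
          (by rw [hz1']; exact hKp t ht) (by rw [hz2']; exact hKq t ht)
          (by rw [hz3']; exact hKp t ht) (by rw [hz4']; exact hKq t ht)]
        exact hbc24 t ht
      · rw [eq.1, eq.2, Lay.vec_swp_34 hg h12 h23 h34 hz1 hz2 hz3 hz4 (hKm t ht)
          (by rw [hz1']; exact hKp t ht) (by rw [hz2']; exact hKq t ht)
          (by rw [hz3']; exact hKp t ht) (by rw [hz4']; exact hKq t ht)]
        exact hbc13 t ht
    · push Not at hhpq
      have hpo : p ∉ ord := fun e => hA.disj p e hp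
      have hqo : q ∉ ord := fun e => hA.disj q e hq
      have hf := hsub.filter (fun a => decide (a ≠ p ∧ a ≠ q))
      have hf1 : [g, h].filter (fun a => decide (a ≠ p ∧ a ≠ q)) = [g, h] := by
        simp [hgp, hgq, hhpq.1, hhpq.2]
      have hf2 : (pre ++ x :: y :: gg :: post).filter (fun a => decide (a ≠ p ∧ a ≠ q)) = ord := by
        have hall : ord.filter (fun a => decide (a ≠ p ∧ a ≠ q)) = ord := by
          rw [List.filter_eq_self]
          intro a ha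
          simp only [ne_eq, decide_eq_true_eq]
          exact ⟨fun e => hpo (e ▸ ha), fun e => hqo (e ▸ ha)⟩
        have hxx : decide (x ≠ p ∧ x ≠ q) = false := by
          rcases hxy with ⟨r1, r2⟩ | ⟨r1, r2⟩ <;> simp [r1]
        have hyy : decide (y ≠ p ∧ y ≠ q) = false := by
          rcases hxy with ⟨r1, r2⟩ | ⟨r1, r2⟩ <;> simp [r2]
        rw [List.filter_append, List.filter_cons_of_neg (by simp [hxx]),
          List.filter_cons_of_neg (by simp [hyy]), ← List.filter_append, ← hord]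
        exact hall
      rw [hf1, hf2] at hf
      obtain ⟨pre2, post2, h3, h4⟩ := t6a_after.2 hf
      rw [hvec h (by rw [h3]; simp [h4]) t ht]
      exact hK.late pre2 post2 h3 h h4 t ht
  · obtain ⟨t, ht, htv⟩ := hK.tch
    exact ⟨t, ht, by rw [hvec g hK.gord t ht]; exact htv⟩

end SBR
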