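/-
SBR/R12.lean : one step of phase 2.
-/
import Pool.Agent.SBR.Q1
import Pool.Agent.SBR.Q2
import Pool.Agent.SBR.T4
import Pool.Agent.SBR.T5a
import Pool.Agent.SBR.T5b
import Pool.Agent.SBR.T6a

namespace SBR

set_option linter.unusedSimpArgs false

section
variable {M lam n : ℕ} {inp : ℕ → ℕ} {s : St} {q : AQ} {w : Lay}

theorem r12_nk {κ : ℕ → ℕ} {X : Finset ℕ} {x v : ℕ} (h : nk κ X x = v) (hv : v ≠ 0) :
    x / 2 ∈ X ∧ v = 2 * κ (x / 2) + 1 + x % 2 := by
  unfold nk at h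
  split_ifs at h with hx
  · exact ⟨hx, h.symm⟩
  · exact absurd h.symm hv

theorem r12_mx {m : ℕ} {X : Finset ℕ} {κ : ℕ → ℕ} {key : ℕ → ℕ} (hX : ∀ t ∈ X, t < m)
    (hkey : ∀ x, x < 2 * m → key x = nk κ X x) {C : ℕ → Prop} {v : ℕ}
    (h : IsMax (fun y => y < 2 * m ∧ C y) key v) : IsMx κ X C v := by
  refine ⟨fun x hx hC => ?_, ?_⟩
  · have h1 := hX _ hx
    have h2 : x < 2 * m := by omega
    rw [← hkey x h2]
    exact h.1 x ⟨h2, hC⟩
  · rcases h.2 with h1 | ⟨x, ⟨h1, h2⟩, h3⟩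
    · exact Or.inl h1
    · by_cases hv : v = 0
      · exact Or.inl hv
      · rw [hkey x h1] at h3
        exact Or.inr ⟨x, (r12_nk h3 hv).1, h2, h3⟩

theorem r12_mn {m : ℕ} {X : Finset ℕ} {κ : ℕ → ℕ} {key : ℕ → ℕ} (hX : ∀ t ∈ X, t < m)
    (hpos : AllPos w X) (hkey : ∀ x, x < 2 * m → key x = nk κ X x) {C : ℕ → Prop} {v : ℕ}
    (h : IsMin (fun y => y < 2 * m ∧ C y ∧ w.sg y = true) key v) : IsMn κ X C v := by
  refine ⟨fun x hx hC => ?_, ?_⟩
  · have h1 := hX _ hx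
    have h2 : x < 2 * m := by omega
    have h3 : w.sg x = true := by
      have h4 := hpos _ hx
      rcases Nat.even_or_odd' x with ⟨t, ht | ht⟩
      · have h5 : x / 2 = t := by omega
        rw [h5] at h4; rw [ht]; exact h4.1
      · have h5 : x / 2 = t := by omega
        rw [h5] at h4; rw [ht]; exact h4.2
    rw [← hkey x h2]
    refine h.1 x ⟨h2, hC, h3⟩ ?_
    rw [hkey x h2]
    unfold nk
    rw [if_pos hx]
    omega
  · rcases h.2 with h1 | ⟨x, ⟨h1, h2, -⟩, h3⟩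
    · exact Or.inl h1
    · by_cases hv : v = 0
      · exact Or.inl hv
      · rw [hkey x h1] at h3
        exact Or.inr ⟨x, (r12_nk h3 hv).1, h2, h3⟩

/-- the search for a chord separated by a node -/
theorem find_run (hM : 16 * (n + 1) ≤ M) (hg : w.Good (2 * (n + 1)))
    (hq : RepQ (2 * (n + 1)) q w) {X : Finset ℕ} (hX : ∀ t ∈ X, t < n + 1) {κ : ℕ → ℕ}
    (hκ : ∀ t ∈ X, κ t < n + 1)
    (hMt : Mates w κ X) (hpos : AllPos w X) (hkey : ∀ x, x < 2 * (n + 1) → q.key x = nk κ X x)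
    (hc : s.reg 70 < 2 * (n + 1)) (hcX : s.reg 70 / 2 ∉ X) :
    ∃ s' k, XRun M inp lam pFind (s, q) (s', q) k ∧
      (s'.reg 71 = 0 → ∀ t ∈ X, w.rvc (s.reg 70) t = 0) ∧
      (s'.reg 71 ≠ 0 → ∃ x ∈ X, (s'.reg 71 = 2 * κ x + 1 ∨ s'.reg 71 = 2 * κ x + 2) ∧
        w.rvc (s.reg 70) x = 1) ∧ k ≤ lam + 40 := by
  obtain ⟨v, u, hside, hv, hu⟩ := rep_side (lam := lam) (x := 70) (d := 72) (e := 73) hg hq hc
    (by decide)
  have hmx := r12_mx hX hkey hv
  have hmn := r12_mn hX hpos hkey hu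
  obtain ⟨q1, q2, q3, q4⟩ := query2 hg hX hMt hpos hc hcX hmx hmn
  have hvb : v < 2 * (n + 1) + 1 := by
    rcases hmx.2 with h | ⟨x, hx, -, h⟩
    · omega
    · have h1 := hκ _ hx
      unfold nk at h
      rw [if_pos hx] at h
      omega
  have hub : u < 2 * (n + 1) + 1 := by
    rcases hmn.2 with h | ⟨x, hx, -, h⟩
    · omega
    · have h1 := hκ _ hx
      unfold nk at h
      rw [if_pos hx] at h
      omega
  have hvx : v % 2 = 1 → ∃ x ∈ X, v = 2 * κ x + 1 := by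
    intro ho
    rcases hmx.2 with h | ⟨x, hx, -, h⟩
    · omega
    · have := (r12_nk h (by omega)).2
      exact ⟨x / 2, hx, by omega⟩
  have hux : u ≠ 0 → u % 2 = 0 → ∃ x ∈ X, u = 2 * κ x + 2 := by
    intro h0 ho
    rcases hmn.2 with h | ⟨x, hx, -, h⟩
    · omega
    · have := (r12_nk h (by omega)).2
      exact ⟨x / 2, hx, by omega⟩
  have key : wp M inp (opS lam) pFind (fun s' k => s'.2 = q ∧
      (s'.1.reg 71 = 0 → ∀ t ∈ X, w.rvc (s.reg 70) t = 0) ∧
      (s'.1.reg 71 ≠ 0 → ∃ x ∈ X, (s'.1.reg 71 = 2 * κ x + 1 ∨ s'.1.reg 71 = 2 * κ x + 2) ∧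
        w.rvc (s.reg 70) x = 1) ∧ k ≤ lam + 40) (s, q) := by
    unfold pFind
    simp only [blk, wp]
    refine ⟨_, _, hside, ?_⟩
    simp only [dbl, Ex.Ok, Ex.eval, Co.Ok, Co.Holds, Ex.sz, Co.sz, reg_setReg, true_and]
    norm_num
    refine ⟨by omega, q1, fun hv0 => ⟨by omega, fun hve => ⟨by omega, fun hu0 => ?_,
      fun hu0 => ⟨by omega, fun hue => ⟨fun h => absurd h hu0, fun _ => ?_⟩, fun huo => ?_⟩⟩,
      fun hvo => ⟨fun h => absurd h hv0, fun _ => ?_⟩⟩⟩
    · exact q4 hv0 (by omega) (Or.inl hu0)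
    · obtain ⟨x, hx, hux'⟩ := hux hu0 (by omega)
      exact ⟨x, hx, Or.inr hux', q3 hv0 (by omega) hu0 (by omega) x hx hux'.symm⟩
    · exact q4 hv0 (by omega) (Or.inr (by omega))
    · obtain ⟨x, hx, hvx'⟩ := hvx (by omega)
      exact ⟨x, hx, Or.inl hvx', q2 (by omega) x hx hvx'.symm⟩
  obtain ⟨⟨s', q'⟩, k, h1, h2, h3, h4, h5⟩ := wp_run M inp (opS lam) _ _ _ key
  simp only at h2
  subst h2
  exact ⟨s', k, h1, h3, h4, h5⟩

theorem r12_kap {m tE x : ℕ} (hx : x < m) (htE : tE < m) : kap m tE x < m := by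
  unfold kap
  split_ifs <;> omega

/-- the chord with a given key -/
theorem chord_run {k d : ℕ} (hM : 16 * (n + 1) ≤ M) (h1 : s.reg 1 = n + 1) {tE x : ℕ}
    (htE : tE < n + 1) (h62 : s.reg 62 = tE) (hx : x < n + 1)
    (hk : s.reg k = 2 * kap (n + 1) tE x + 1 ∨ s.reg k = 2 * kap (n + 1) tE x + 2)
    (hd1 : d ≠ 1) (hd62 : d ≠ 62) :
    ∃ s' c, XRun M inp lam (pChord k d) (s, q) (s', q) c ∧ s'.reg d = x ∧ c ≤ 30 := by
  have hkap := r12_kap hx htE
  have hke : (s.reg k - 1) / 2 = kap (n + 1) tE x := by omega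
  have key : wp M inp (opS lam) (pChord k d) (fun s' c => s'.2 = q ∧ s'.1.reg d = x ∧ c ≤ 30)
      (s, q) := by
    unfold pChord
    simp only [blk, wp]
    simp only [Ex.Ok, Ex.eval, Co.Ok, Co.Holds, Ex.sz, Co.sz, reg_setReg, true_and, if_true,
      Ne.symm hd1, Ne.symm hd62, if_false, hke, h62, h1]
    unfold kap at *
    split_ifs at * <;> omega
  obtain ⟨⟨s', q'⟩, c, h1, h2, h3, h4⟩ := wp_run M inp (opS lam) _ _ _ key
  simp only at h2
  subst h2
  exact ⟨s', c, h1, h3, h4⟩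

/-- concatenation of blocks -/
theorem blk_append {l l' : List XStm} (hl' : l' ≠ []) : ∀ {s s' s'' : St × AQ} {k k' : ℕ}, l ≠ [] →
    XRun M inp lam (blk l) s s' k → XRun M inp lam (blk l') s' s'' k' →
    XRun M inp lam (blk (l ++ l')) s s'' (k + k') := by
  induction l with
  | nil => intro s s' s'' k k' h; exact absurd rfl h
  | cons p l ih =>
    intro s s' s'' k k' _ h1 h2
    cases l with
    | nil =>
      cases l' with
      | nil => exact absurd rfl hl'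
      | cons p' l' => exact .seq _ _ _ _ _ _ _ h1 h2
    | cons p2 l =>
      cases h1 with
      | seq _ _ _ s1 _ k1 k2 ha hb =>
        have := ih (List.cons_ne_nil _ _) hb h2
        rw [Nat.add_assoc]
        exact .seq _ _ _ _ _ _ _ ha this

/-- first part of the block swap: ranks and order of the ends -/
theorem swapA_run
    (hq : RepQ (2 * (n + 1)) q w) {a b c d : ℕ} (h75 : s.reg 75 = a) (h76 : s.reg 76 = b)
    (h80 : s.reg 80 = c) (h81 : s.reg 81 = d) (ha : a < 2 * (n + 1)) (hb : b < 2 * (n + 1))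
    (hc : c < 2 * (n + 1)) (hd : d < 2 * (n + 1)) (hab : w.pos a ≠ w.pos b)
    (hcd : w.pos c ≠ w.pos d) :
    ∃ s' k, XRun M inp lam (blk [.prim (.rank 75 82 78), .prim (.rank 76 83 78),
      .prim (.rank 80 84 78), .prim (.rank 81 85 78),
      .ite (.lt (.r 82) (.r 83)) .skip (blk [pXch 75 76, pXch 82 83]),
      .ite (.lt (.r 84) (.r 85)) .skip (blk [pXch 80 81, pXch 84 85])]) (s, q) (s', q) k ∧
      (∃ a' b' c' d', ((a' = a ∧ b' = b) ∨ (a' = b ∧ b' = a)) ∧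
        ((c' = c ∧ d' = d) ∨ (c' = d ∧ d' = c)) ∧ w.pos a' < w.pos b' ∧ w.pos c' < w.pos d' ∧
        s'.reg 75 = a' ∧ s'.reg 76 = b' ∧ s'.reg 80 = c' ∧ s'.reg 81 = d' ∧
        s'.reg 82 = w.pos a' ∧ s'.reg 84 = w.pos c') ∧ k ≤ 4 * lam + 100 := by
  have key : wp M inp (opS lam) (blk [.prim (.rank 75 82 78), .prim (.rank 76 83 78),
      .prim (.rank 80 84 78), .prim (.rank 81 85 78),
      .ite (.lt (.r 82) (.r 83)) .skip (blk [pXch 75 76, pXch 82 83]),
      .ite (.lt (.r 84) (.r 85)) .skip (blk [pXch 80 81, pXch 84 85])]) (fun s' k => s'.2 = q ∧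
      (∃ a' b' c' d', ((a' = a ∧ b' = b) ∨ (a' = b ∧ b' = a)) ∧
        ((c' = c ∧ d' = d) ∨ (c' = d ∧ d' = c)) ∧ w.pos a' < w.pos b' ∧ w.pos c' < w.pos d' ∧
        s'.1.reg 75 = a' ∧ s'.1.reg 76 = b' ∧ s'.1.reg 80 = c' ∧ s'.1.reg 81 = d' ∧
        s'.1.reg 82 = w.pos a' ∧ s'.1.reg 84 = w.pos c') ∧ k ≤ 4 * lam + 100) (s, q) := by
    simp only [blk, wp, pXch]
    refine ⟨_, _, rep_rank hq (by rw [h75]; exact ha) (by decide), ?_⟩
    refine ⟨_, _, rep_rank hq (by simp [h76, hb]) (by decide), ?_⟩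
    refine ⟨_, _, rep_rank hq (by simp [h80, hc]) (by decide), ?_⟩
    refine ⟨_, _, rep_rank hq (by simp [h81, hd]) (by decide), ?_⟩
    simp only [Ex.Ok, Ex.eval, Co.Ok, Co.Holds, Ex.sz, Co.sz, reg_setReg, true_and,
      h75, h76, h80, h81]
    norm_num [h75, h76, h80, h81]
    refine ⟨fun h1 => ⟨fun h2 => ⟨⟨a, b, Or.inl ⟨rfl, rfl⟩, c, d, Or.inl ⟨rfl, rfl⟩, h1, h2, rfl,
      rfl, rfl, rfl, rfl, rfl⟩, by omega⟩, fun h2 => ⟨⟨a, b, Or.inl ⟨rfl, rfl⟩, d, c,
      Or.inr ⟨rfl, rfl⟩, h1, by omega, rfl, rfl, rfl, rfl, rfl, rfl⟩, by omega⟩⟩,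
      fun h1 => ⟨fun h2 => ⟨⟨b, a, Or.inr ⟨rfl, rfl⟩, c, d, Or.inl ⟨rfl, rfl⟩, by omega, h2, rfl,
      rfl, rfl, rfl, rfl, rfl⟩, by omega⟩, fun h2 => ⟨⟨b, a, Or.inr ⟨rfl, rfl⟩, d, c,
      Or.inr ⟨rfl, rfl⟩, by omega, by omega, rfl, rfl, rfl, rfl, rfl, rfl⟩, by omega⟩⟩⟩
  obtain ⟨⟨s', q'⟩, c, h1, h2, h3, h4⟩ := wp_run M inp (opS lam) _ _ _ key
  simp only at h2
  subst h2
  exact ⟨s', c, h1, h3, h4⟩

/-- second part of the block swap: names of the four ends in their order -/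
theorem swapB_run {a b c d x y : ℕ} (h75 : s.reg 75 = a) (h76 : s.reg 76 = b)
    (h80 : s.reg 80 = c) (h81 : s.reg 81 = d) (h82 : s.reg 82 = w.pos a)
    (h84 : s.reg 84 = w.pos c) (h74 : s.reg 74 = x) (h79 : s.reg 79 = y)
    (hcr : (w.pos a < w.pos c ∧ w.pos c < w.pos b ∧ w.pos b < w.pos d) ∨
      (w.pos c < w.pos a ∧ w.pos a < w.pos d ∧ w.pos d < w.pos b)) (q : AQ) :
    ∃ s' k, XRun M inp lam (blk [.ite (.lt (.r 82) (.r 84))
    (blk [.set 86 (.r 75), .set 87 (.r 80), .set 88 (.r 76), .set 89 (.r 81), .set 90 (.r 74),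
      .set 91 (.r 79)])
    (blk [.set 86 (.r 80), .set 87 (.r 75), .set 88 (.r 81), .set 89 (.r 76), .set 90 (.r 79),
      .set 91 (.r 74)])]) (s, q) (s', q) k ∧
      (∃ z1 z2 z3 z4 p q', s'.reg 86 = z1 ∧ s'.reg 87 = z2 ∧ s'.reg 88 = z3 ∧ s'.reg 89 = z4 ∧
        s'.reg 90 = p ∧ s'.reg 91 = q' ∧ w.pos z1 < w.pos z2 ∧ w.pos z2 < w.pos z3 ∧
        w.pos z3 < w.pos z4 ∧ ((z1 = a ∧ z3 = b ∧ z2 = c ∧ z4 = d ∧ p = x ∧ q' = y) ∨
          (z1 = c ∧ z3 = d ∧ z2 = a ∧ z4 = b ∧ p = y ∧ q' = x))) ∧ k ≤ 100 := by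
  have key : wp M inp (opS lam) (blk [.ite (.lt (.r 82) (.r 84))
    (blk [.set 86 (.r 75), .set 87 (.r 80), .set 88 (.r 76), .set 89 (.r 81), .set 90 (.r 74),
      .set 91 (.r 79)])
    (blk [.set 86 (.r 80), .set 87 (.r 75), .set 88 (.r 81), .set 89 (.r 76), .set 90 (.r 79),
      .set 91 (.r 74)])]) (fun s' k => s'.2 = q ∧
      (∃ z1 z2 z3 z4 p q', s'.1.reg 86 = z1 ∧ s'.1.reg 87 = z2 ∧ s'.1.reg 88 = z3 ∧
        s'.1.reg 89 = z4 ∧
        s'.1.reg 90 = p ∧ s'.1.reg 91 = q' ∧ w.pos z1 < w.pos z2 ∧ w.pos z2 < w.pos z3 ∧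
        w.pos z3 < w.pos z4 ∧ ((z1 = a ∧ z3 = b ∧ z2 = c ∧ z4 = d ∧ p = x ∧ q' = y) ∨
          (z1 = c ∧ z3 = d ∧ z2 = a ∧ z4 = b ∧ p = y ∧ q' = x))) ∧ k ≤ 100) (s, q) := by
    simp only [blk, wp]
    simp only [Ex.Ok, Ex.eval, Co.Ok, Co.Holds, Ex.sz, Co.sz, reg_setReg, true_and]
    norm_num [h74, h75, h76, h79, h80, h81, h82, h84]
    exact ⟨fun h => by omega, fun h => by omega⟩
  obtain ⟨⟨s', q'⟩, c, h1, h2, h3, h4⟩ := wp_run M inp (opS lam) _ _ _ key
  simp only at h2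
  subst h2
  exact ⟨s', c, h1, h3, h4⟩

/-- third part of the block swap: four reversals -/
theorem swapC_run (hg : w.Good (2 * (n + 1)))
    (hq : RepQ (2 * (n + 1)) q w) {z1 z2 z3 z4 : ℕ} (h86 : s.reg 86 = z1) (h87 : s.reg 87 = z2)
    (h88 : s.reg 88 = z3) (h89 : s.reg 89 = z4) (h1 : z1 < 2 * (n + 1)) (h2 : z2 < 2 * (n + 1))
    (h3 : z3 < 2 * (n + 1)) (h4 : z4 < 2 * (n + 1)) (h12 : w.pos z1 < w.pos z2)
    (h23 : w.pos z2 < w.pos z3) (h34 : w.pos z3 < w.pos z4) :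
    ∃ q', XRun M inp lam (blk [.prim (.rev 86 89), .prim (.rev 86 88), .prim (.rev 88 87),
      .prim (.rev 87 89)]) (s, q) (s, q') (lam + (lam + (lam + lam))) ∧
      RepQ (2 * (n + 1)) q' (w.swp z1 z2 z3 z4) ∧ q'.key = q.key := by
  have n14 : z1 ≠ z4 := by rintro rfl; omega
  have n13 : z1 ≠ z3 := by rintro rfl; omega
  have n32 : z3 ≠ z2 := by rintro rfl; omega
  have n24 : z2 ≠ z4 := by rintro rfl; omega
  obtain ⟨q1, r1, e1, k1⟩ := rep_rev (lam := lam) (a := 86) (b := 89) (s := s) hg hq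
    (by rw [h86]; exact h1) (by rw [h89]; exact h4) (by rw [h86, h89]; exact n14)
  rw [h86, h89] at e1
  have hg1 := hg.rev h1 h4
  obtain ⟨q2, r2, e2, k2⟩ := rep_rev (lam := lam) (a := 86) (b := 88) (s := s) hg1 e1
    (by rw [h86]; exact h1) (by rw [h88]; exact h3) (by rw [h86, h88]; exact n13)
  rw [h86, h88] at e2
  have hg2 := hg1.rev h1 h3
  obtain ⟨q3, r3, e3, k3⟩ := rep_rev (lam := lam) (a := 88) (b := 87) (s := s) hg2 e2
    (by rw [h88]; exact h3) (by rw [h87]; exact h2) (by rw [h87, h88]; exact n32)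
  rw [h88, h87] at e3
  have hg3 := hg2.rev h3 h2
  obtain ⟨q4, r4, e4, k4⟩ := rep_rev (lam := lam) (a := 87) (b := 89) (s := s) hg3 e3
    (by rw [h87]; exact h2) (by rw [h89]; exact h4) (by rw [h87, h89]; exact n24)
  rw [h87, h89] at e4
  refine ⟨q4, ?_, e4, by rw [k4, k3, k2, k1]⟩
  exact .seq _ _ _ _ _ _ _ (.prim _ _ _ _ r1) (.seq _ _ _ _ _ _ _ (.prim _ _ _ _ r2)
    (.seq _ _ _ _ _ _ _ (.prim _ _ _ _ r3) (.prim _ _ _ _ r4)))

theorem r12_if4 (p1 p2 p3 p4 : Prop) [Decidable p1] [Decidable p2] [Decidable p3] [Decidable p4]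
    (v : ℕ) : (if p4 then 0 else if p3 then 0 else if p2 then 0 else if p1 then 0 else v) =
      if p1 ∨ p2 ∨ p3 ∨ p4 then 0 else v := by
  by_cases a1 : p1 <;> by_cases a2 : p2 <;> by_cases a3 : p3 <;> by_cases a4 : p4 <;>
    simp [a1, a2, a3, a4]

/-- fourth part of the block swap: keys and marks -/
theorem swapD_run (hM : 16 * (n + 1) ≤ M)
    (hq : RepQ (2 * (n + 1)) q w) {z1 z2 z3 z4 p p' : ℕ} (h86 : s.reg 86 = z1)
    (h87 : s.reg 87 = z2) (h88 : s.reg 88 = z3) (h89 : s.reg 89 = z4) (h90 : s.reg 90 = p)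
    (h91 : s.reg 91 = p') (hpp : p ≠ p') (h1 : z1 < 2 * (n + 1)) (h2 : z2 < 2 * (n + 1))
    (h3 : z3 < 2 * (n + 1)) (h4 : z4 < 2 * (n + 1)) :
    ∃ s' q' k, XRun M inp lam (blk [.set 78 (.c 0), .prim (.setk 86 78), .prim (.setk 87 78),
      .prim (.setk 88 78), .prim (.setk 89 78), .sto 18 (.r 90) (.r 86), .sto 19 (.r 90) (.r 87),
      .sto 18 (.r 91) (.r 88), .sto 19 (.r 91) (.r 89)]) (s, q) (s', q') k ∧
      RepQ (2 * (n + 1)) q' w ∧
      (∀ y, q'.key y = if y = z1 ∨ y = z2 ∨ y = z3 ∨ y = z4 then 0 else q.key y) ∧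
      (s'.arr 18 p = z1 ∧ s'.arr 19 p = z2 ∧ s'.arr 18 p' = z3 ∧ s'.arr 19 p' = z4) ∧
      (∀ i, i ≠ p → i ≠ p' → s'.arr 18 i = s.arr 18 i ∧ s'.arr 19 i = s.arr 19 i) ∧
      k ≤ 4 * lam + 100 := by
  have key : wp M inp (opS lam) (blk [.set 78 (.c 0), .prim (.setk 86 78), .prim (.setk 87 78),
      .prim (.setk 88 78), .prim (.setk 89 78), .sto 18 (.r 90) (.r 86), .sto 19 (.r 90) (.r 87),
      .sto 18 (.r 91) (.r 88), .sto 19 (.r 91) (.r 89)]) (fun s' k =>
      RepQ (2 * (n + 1)) s'.2 w ∧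
      (∀ y, s'.2.key y = if y = z1 ∨ y = z2 ∨ y = z3 ∨ y = z4 then 0 else q.key y) ∧
      (s'.1.arr 18 p = z1 ∧ s'.1.arr 19 p = z2 ∧ s'.1.arr 18 p' = z3 ∧ s'.1.arr 19 p' = z4) ∧
      (∀ i, i ≠ p → i ≠ p' → s'.1.arr 18 i = s.arr 18 i ∧ s'.1.arr 19 i = s.arr 19 i) ∧
      k ≤ 4 * lam + 100) (s, q) := by
    simp only [blk, wp]
    refine ⟨by show 0 < M; omega, ?_⟩
    have e1 := rep_setk (lam := lam) (s := s.setReg 78 0) (x := 86) (k := 78) hq
      (by simpa [h86] using h1)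
    refine ⟨_, _, e1.1, ?_⟩
    have e2 := rep_setk (lam := lam) (s := s.setReg 78 0) (x := 87) (k := 78) e1.2
      (by simpa [h87] using h2)
    refine ⟨_, _, e2.1, ?_⟩
    have e3 := rep_setk (lam := lam) (s := s.setReg 78 0) (x := 88) (k := 78) e2.2
      (by simpa [h88] using h3)
    refine ⟨_, _, e3.1, ?_⟩
    have e4 := rep_setk (lam := lam) (s := s.setReg 78 0) (x := 89) (k := 78) e3.2
      (by simpa [h89] using h4)
    refine ⟨_, _, e4.1, ?_⟩
    have hR := e4.2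
    simp only [Ex.Ok, Ex.eval, Ex.sz, reg_setReg, arr_setReg, arr_setArr, reg_setArr,
      true_and] at hR ⊢
    refine ⟨hR, ?_, ?_, ?_, ?_⟩
    · intro y
      clear e1 e2 e3 e4 hR
      norm_num [h86, h87, h88, h89]
      exact r12_if4 _ _ _ _ _
    · norm_num [h86, h87, h88, h89, h90, h91, hpp]
    · intro i hi1 hi2
      norm_num [h86, h87, h88, h89, h90, h91, hi1, hi2]
    · omega
  obtain ⟨⟨s', q'⟩, c, h1, h2, h3, h4, h5, h6⟩ := wp_run M inp (opS lam) _ _ _ key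
  exact ⟨s', q', c, h1, h2, h3, h4, h5, h6⟩

/-- the block swap for two crossing chords -/
theorem swap_run (hM : 16 * (n + 1) ≤ M) (hg : w.Good (2 * (n + 1)))
    (hq : RepQ (2 * (n + 1)) q w) {x y : ℕ} (hx : x < n + 1) (hy : y < n + 1) (hxy : x ≠ y)
    (h74 : s.reg 74 = x) (h75 : s.reg 75 = 2 * x) (h76 : s.reg 76 = 2 * x + 1)
    (h79 : s.reg 79 = y) (h80 : s.reg 80 = 2 * y) (h81 : s.reg 81 = 2 * y + 1)
    (hb1 : w.Btw (2 * x) (2 * x + 1) (2 * y)) (hb2 : ¬ w.Btw (2 * x) (2 * x + 1) (2 * y + 1)) :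
    ∃ s' q' k z1 z2 z3 z4 p p', XRun M inp lam pSwap (s, q) (s', q') k ∧
      ((z1 = 2 * p ∧ z3 = 2 * p + 1) ∨ (z1 = 2 * p + 1 ∧ z3 = 2 * p)) ∧
      ((z2 = 2 * p' ∧ z4 = 2 * p' + 1) ∨ (z2 = 2 * p' + 1 ∧ z4 = 2 * p')) ∧
      w.pos z1 < w.pos z2 ∧ w.pos z2 < w.pos z3 ∧ w.pos z3 < w.pos z4 ∧
      ((x = p ∧ y = p') ∨ (x = p' ∧ y = p)) ∧
      RepQ (2 * (n + 1)) q' (w.swp z1 z2 z3 z4) ∧
      (∀ v, q'.key v = if v / 2 = x ∨ v / 2 = y then 0 else q.key v) ∧
      (s'.arr 18 p = z1 ∧ s'.arr 19 p = z2 ∧ s'.arr 18 p' = z3 ∧ s'.arr 19 p' = z4) ∧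
      (∀ i, i ≠ p → i ≠ p' → s'.arr 18 i = s.arr 18 i ∧ s'.arr 19 i = s.arr 19 i) ∧
      k ≤ 12 * lam + 300 := by
  have d1 : w.pos (2 * x) ≠ w.pos (2 * x + 1) := fun h => by
    have := hg.inj _ _ (by omega) (by omega) h
    omega
  have d2 : w.pos (2 * y) ≠ w.pos (2 * y + 1) := fun h => by
    have := hg.inj _ _ (by omega) (by omega) h
    omega
  have d3 : w.pos (2 * x) ≠ w.pos (2 * y + 1) := fun h => by
    have := hg.inj _ _ (by omega) (by omega) h
    omega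
  have d4 : w.pos (2 * x + 1) ≠ w.pos (2 * y + 1) := fun h => by
    have := hg.inj _ _ (by omega) (by omega) h
    omega
  obtain ⟨s1, k1, r1, ⟨a, b, c, d, hab, hcd, lab, lcd, e75, e76, e80, e81, e82, e84⟩, hk1⟩ :=
    swapA_run (M := M) (inp := inp) (lam := lam) hq h75 h76 h80 h81 (by omega) (by omega)
      (by omega) (by omega) d1 d2
  have f74 : s1.reg 74 = x := by rw [← h74]; exact (run_frame r1).2.1 74 (by decide)
  have f79 : s1.reg 79 = y := by rw [← h79]; exact (run_frame r1).2.1 79 (by decide)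
  have hcr : (w.pos a < w.pos c ∧ w.pos c < w.pos b ∧ w.pos b < w.pos d) ∨
      (w.pos c < w.pos a ∧ w.pos a < w.pos d ∧ w.pos d < w.pos b) := by
    unfold Lay.Btw at hb1 hb2
    rcases hab with ⟨rfl, rfl⟩ | ⟨rfl, rfl⟩ <;> rcases hcd with ⟨rfl, rfl⟩ | ⟨rfl, rfl⟩ <;> omega
  obtain ⟨s2, k2, r2, ⟨z1, z2, z3, z4, p, p', g86, g87, g88, g89, g90, g91, h12, h23, h34, hz⟩,
    hk2⟩ := swapB_run (M := M) (inp := inp) (lam := lam) e75 e76 e80 e81 e82 e84 f74 f79 hcr q
  have hz1 : z1 < 2 * (n + 1) ∧ z2 < 2 * (n + 1) ∧ z3 < 2 * (n + 1) ∧ z4 < 2 * (n + 1) := by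
    rcases hz with ⟨rfl, rfl, rfl, rfl, rfl, rfl⟩ | ⟨rfl, rfl, rfl, rfl, rfl, rfl⟩ <;>
      rcases hab with ⟨rfl, rfl⟩ | ⟨rfl, rfl⟩ <;> rcases hcd with ⟨rfl, rfl⟩ | ⟨rfl, rfl⟩ <;>
      refine ⟨?_, ?_, ?_, ?_⟩ <;> omega
  obtain ⟨l1, l2, l3, l4⟩ := hz1
  have hpp : p ≠ p' := by
    rcases hz with ⟨-, -, -, -, rfl, rfl⟩ | ⟨-, -, -, -, rfl, rfl⟩ <;> omega
  obtain ⟨q3, r3, hq3, kq3⟩ := swapC_run (M := M) (inp := inp) (lam := lam) hg hq g86 g87 g88 g89
    l1 l2 l3 l4 h12 h23 h34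
  obtain ⟨s4, q4, k4, r4, hq4, kq4, m1, m2, hk4⟩ := swapD_run (inp := inp) (lam := lam) hM hq3
    g86 g87 g88 g89 g90 g91 hpp l1 l2 l3 l4
  have run : XRun M inp lam pSwap (s, q) (s4, q4) (k1 + (k2 + (lam + (lam + (lam + lam)) + k4))) :=
    blk_append (List.cons_ne_nil _ _) (List.cons_ne_nil _ _) r1
      (blk_append (List.cons_ne_nil _ _) (List.cons_ne_nil _ _) r2
      (blk_append (List.cons_ne_nil _ _) (List.cons_ne_nil _ _) r3 r4))
  refine ⟨s4, q4, _, z1, z2, z3, z4, p, p', run, ?_, ?_, h12, h23, h34, ?_, hq4, ?_, m1, ?_, ?_⟩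
  · rcases hz with ⟨rfl, rfl, rfl, rfl, rfl, rfl⟩ | ⟨rfl, rfl, rfl, rfl, rfl, rfl⟩
    · rcases hab with ⟨rfl, rfl⟩ | ⟨rfl, rfl⟩
      · exact Or.inl ⟨rfl, rfl⟩
      · exact Or.inr ⟨rfl, rfl⟩
    · rcases hcd with ⟨rfl, rfl⟩ | ⟨rfl, rfl⟩
      · exact Or.inl ⟨rfl, rfl⟩
      · exact Or.inr ⟨rfl, rfl⟩
  · rcases hz with ⟨rfl, rfl, rfl, rfl, rfl, rfl⟩ | ⟨rfl, rfl, rfl, rfl, rfl, rfl⟩
    · rcases hcd with ⟨rfl, rfl⟩ | ⟨rfl, rfl⟩
      · exact Or.inl ⟨rfl, rfl⟩
      · exact Or.inr ⟨rfl, rfl⟩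
    · rcases hab with ⟨rfl, rfl⟩ | ⟨rfl, rfl⟩
      · exact Or.inl ⟨rfl, rfl⟩
      · exact Or.inr ⟨rfl, rfl⟩
  · rcases hz with ⟨-, -, -, -, rfl, rfl⟩ | ⟨-, -, -, -, rfl, rfl⟩
    · exact Or.inl ⟨rfl, rfl⟩
    · exact Or.inr ⟨rfl, rfl⟩
  · intro v
    rw [kq4, kq3]
    have hiff : (v = z1 ∨ v = z2 ∨ v = z3 ∨ v = z4) ↔ (v / 2 = x ∨ v / 2 = y) := by
      rcases hz with ⟨rfl, rfl, rfl, rfl, rfl, rfl⟩ | ⟨rfl, rfl, rfl, rfl, rfl, rfl⟩ <;>
        rcases hab with ⟨rfl, rfl⟩ | ⟨rfl, rfl⟩ <;> rcases hcd with ⟨rfl, rfl⟩ | ⟨rfl, rfl⟩ <;>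
        omega
    simp only [hiff]
  · intro i hi1 hi2
    have := m2 i hi1 hi2
    rw [(run_frame r2).1 18 (by decide), (run_frame r2).1 19 (by decide),
      (run_frame r1).1 18 (by decide), (run_frame r1).1 19 (by decide)] at this
    exact this
  · omega

/-- top of the stack and search for a chord separated by one of its marks -/
theorem head_run (hM : 16 * (n + 1) ≤ M) {A0 : ℕ → ℕ → ZMod 2} {S : Finset ℕ}
    {ord : List ℕ} {m1 m2 : ℕ → ℕ} {X : Finset ℕ} {tE gg : ℕ} {st : List ℕ} (htE : tE < n + 1)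
    (hP : Ph2 (n + 1) A0 w S ord m1 m2 X (kap (n + 1) tE) (gg :: st))
    (hs : PS n s q w ord m1 m2 X tE (gg :: st)) :
    ∃ s' k, XRun M inp lam (blk [.set 69 (.ld 9 (.sub (.r 68) (.c 1))),
      .set 70 (.ld 18 (.r 69)), pFind,
      .ite (.eq (.r 71) (.c 0)) (blk [.set 70 (.ld 19 (.r 69)), pFind]) .skip]) (s, q) (s', q) k ∧
      s'.reg 69 = gg ∧
      ((s'.reg 71 = 0 ∧ (∀ t ∈ X, w.rvc (m1 gg) t = 0) ∧ ∀ t ∈ X, w.rvc (m2 gg) t = 0) ∨
        (s'.reg 71 ≠ 0 ∧ ∃ x ∈ X, ∃ c, (c = m1 gg ∨ c = m2 gg) ∧ w.rvc c x = 1 ∧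
          (s'.reg 71 = 2 * kap (n + 1) tE x + 1 ∨ s'.reg 71 = 2 * kap (n + 1) tE x + 2))) ∧
      k ≤ 2 * lam + 200 := by
  have hXm : ∀ t ∈ X, t < n + 1 := fun t ht => hP.alg.sub t (hP.XS ht)
  have hgo : gg ∈ ord := hP.stk gg (List.mem_cons_self)
  obtain ⟨hm1, hm2, hm3, hm4⟩ := hP.alg.mks gg hgo
  obtain ⟨ha1, ha2⟩ := hs.amk gg hgo
  have h68 : s.reg 68 = st.length + 1 := hs.stl
  have h9 : s.arr 9 (s.reg 68 - 1) = gg := by
    have := hs.stk 0 (by simp)
    simpa [h68] using this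
  have hκ : ∀ t ∈ X, kap (n + 1) tE t < n + 1 := fun t ht => r12_kap (hXm t ht) htE
  obtain ⟨s1, k1, r1, z1, nz1, hk1⟩ := find_run (M := M) (lam := lam) (inp := inp)
    (s := (s.setReg 69 gg).setReg 70 (m1 gg)) hM hP.alg.good hs.rep hXm hκ hP.mates hP.apos hs.key
    (by simpa using hm1) (by simpa using fun h => hm3 (hP.XS h))
  have f69 : s1.reg 69 = gg := by
    have := (run_frame r1).2.1 69 (by decide)
    simpa using this
  have f19 : s1.arr 19 gg = m2 gg := by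
    have := (run_frame r1).1 19 (by decide)
    rw [this]; simpa using ha2
  have key : wp M inp (opS lam) (blk [.set 69 (.ld 9 (.sub (.r 68) (.c 1))),
      .set 70 (.ld 18 (.r 69)), pFind,
      .ite (.eq (.r 71) (.c 0)) (blk [.set 70 (.ld 19 (.r 69)), pFind]) .skip])
      (fun s' k => s'.2 = q ∧ s'.1.reg 69 = gg ∧
      ((s'.1.reg 71 = 0 ∧ (∀ t ∈ X, w.rvc (m1 gg) t = 0) ∧ ∀ t ∈ X, w.rvc (m2 gg) t = 0) ∨
        (s'.1.reg 71 ≠ 0 ∧ ∃ x ∈ X, ∃ c, (c = m1 gg ∨ c = m2 gg) ∧ w.rvc c x = 1 ∧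
          (s'.1.reg 71 = 2 * kap (n + 1) tE x + 1 ∨ s'.1.reg 71 = 2 * kap (n + 1) tE x + 2))) ∧
      k ≤ 2 * lam + 200) (s, q) := by
    simp only [blk, wp, Ex.Ok, Ex.eval, reg_setReg, arr_setReg, if_true, h9, ha1, Ex.sz, Co.Ok,
      Co.Holds, Co.sz, true_and]
    refine ⟨⟨by omega, by omega⟩, ?_⟩
    refine run_wp M inp (opS lam) r1 _ ?_
    refine ⟨by omega, fun h71 => ?_, fun h71 => ?_⟩
    · simp only [f69, f19]
      obtain ⟨s2, k2, r2, z2, nz2, hk2⟩ := find_run (M := M) (lam := lam) (inp := inp)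
        (s := s1.setReg 70 (m2 gg)) hM hP.alg.good hs.rep hXm hκ hP.mates hP.apos hs.key
        (by simpa using hm2) (by simpa using fun h => hm4 (hP.XS h))
      refine run_wp M inp (opS lam) r2 _ ?_
      have g69 : s2.reg 69 = gg := by
        have := (run_frame r2).2.1 69 (by decide)
        simpa [f69] using this
      refine ⟨rfl, g69, ?_, by omega⟩
      by_cases h0 : s2.reg 71 = 0
      · left
        exact ⟨h0, by simpa using z1 h71, by simpa using z2 h0⟩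
      · right
        obtain ⟨x, hx, hx1, hx2⟩ := nz2 h0
        exact ⟨h0, x, hx, m2 gg, Or.inr rfl, by simpa using hx2, hx1⟩
    · refine ⟨rfl, f69, ?_, by omega⟩
      right
      obtain ⟨x, hx, hx1, hx2⟩ := nz1 h71
      exact ⟨h71, x, hx, m1 gg, Or.inl rfl, by simpa using hx2, hx1⟩
  obtain ⟨⟨s', q'⟩, c, h1, h2, h3, h4, h5⟩ := wp_run M inp (opS lam) _ _ _ key
  simp only at h2
  subst h2
  exact ⟨s', c, h1, h3, h4, h5⟩

theorem r12_ps_pop {ord : List ℕ} {m1 m2 : ℕ → ℕ} {X : Finset ℕ} {tE gg : ℕ} {st : List ℕ}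
    {s' : St} (hs : PS n s q w ord m1 m2 X tE (gg :: st))
    (hr : ∀ r ∈ [0, 1, 2, 50, 62], s'.reg r = s.reg r) (h68 : s'.reg 68 = st.length)
    (ha : s'.arr = s.arr) : PS n s' q w ord m1 m2 X tE st := by
  refine ⟨?_, hs.rep, hs.key, ?_, ?_, ?_, h68, ?_⟩
  · unfold Regs
    rw [hr 0 (by simp), hr 1 (by simp), hr 2 (by simp)]
    exact hs.regs
  · intro h hh; rw [ha]; exact hs.amk h hh
  · rw [ha, hr 50 (by simp)]; exact hs.ll
  · rw [hr 62 (by simp)]; exact hs.te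
  · intro i hi
    have := hs.stk (i + 1) (by simpa using hi)
    rw [ha]
    have e : (gg :: st).length - 1 - (i + 1) = st.length - 1 - i := by
      simp only [List.length_cons]; omega
    rw [e] at this
    simpa using this

theorem r12_ps_kill {ord : List ℕ} {m1 m2 : ℕ → ℕ} {X : Finset ℕ} {tE x : ℕ} {st : List ℕ}
    {s' : St} {q' : AQ} (hs : PS n s q w ord m1 m2 X tE st)
    (hr : ∀ r ∈ [0, 1, 2, 50, 62], s'.reg r = s.reg r) (h68 : s'.reg 68 = s.reg 68)
    (ha : s'.arr = s.arr) (hq : RepQ (2 * (n + 1)) q' w)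
    (hk : ∀ v, q'.key v = if v / 2 = x then 0 else q.key v) :
    PS n s' q' w ord m1 m2 (X.erase x) tE st := by
  refine ⟨?_, hq, ?_, ?_, ?_, ?_, ?_, ?_⟩
  · unfold Regs
    rw [hr 0 (by simp), hr 1 (by simp), hr 2 (by simp)]
    exact hs.regs
  · intro v hv
    rw [hk v, hs.key v hv]
    unfold nk
    by_cases hvx : v / 2 = x
    · simp [hvx]
    · simp [hvx, Finset.mem_erase]
  · intro h hh; rw [ha]; exact hs.amk h hh
  · rw [ha, hr 50 (by simp)]; exact hs.ll
  · rw [hr 62 (by simp)]; exact hs.te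
  · rw [h68]; exact hs.stl
  · rw [ha]; exact hs.stk

theorem r12_ll_congr {nx nx' : ℕ → ℕ} {l : List ℕ} : ∀ {tl : ℕ}, (∀ v ∈ l, nx' v = nx v) →
    LL nx tl l → LL nx' tl l := by
  induction l with
  | nil => intro tl _ h; exact h
  | cons a l ih =>
    intro tl hv h
    refine ⟨h.1, ?_⟩
    rw [hv a List.mem_cons_self]
    exact ih (fun v hv' => hv v (List.mem_cons_of_mem _ hv')) h.2

theorem r12_ll_insert {nx nx' : ℕ → ℕ} {x y g : ℕ} {A B : List ℕ}
    (h1 : ∀ v, v ≠ x → v ≠ y → v ≠ g → nx' v = nx v) (hg : nx' g = y + 1) (hy : nx' y = x + 1)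
    (hx : nx' x = nx g) (hB : ∀ v ∈ B, v ≠ x ∧ v ≠ y ∧ v ≠ g) : ∀ {tl : ℕ},
    (∀ v ∈ A, v ≠ x ∧ v ≠ y ∧ v ≠ g) → LL nx tl (A ++ g :: B) →
    LL nx' tl (A ++ g :: y :: x :: B) := by
  induction A with
  | nil =>
    intro tl _ h
    refine ⟨h.1, hg, hy, ?_⟩
    rw [hx]
    exact r12_ll_congr (fun v hv => h1 v (hB v hv).1 (hB v hv).2.1 (hB v hv).2.2) h.2
  | cons a A ih =>
    intro tl hA h
    refine ⟨h.1, ?_⟩
    have ha := hA a List.mem_cons_self
    rw [h1 a ha.1 ha.2.1 ha.2.2]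
    exact ih (fun v hv => hA v (List.mem_cons_of_mem _ hv)) h.2

theorem r12_ps_swap {ord pre post : List ℕ} {m1 m2 m1' m2' : ℕ → ℕ} {X : Finset ℕ}
    {tE x y p p' gg : ℕ} {st : List ℕ} {s' : St} {q' : AQ} {w' : Lay}
    (hs : PS n s q w ord m1 m2 X tE (gg :: st)) (hord : ord = pre ++ gg :: post)
    (hnd : ord.Nodup) (hx : x ∉ ord) (hy : y ∉ ord)
    (hpp : (x = p ∧ y = p') ∨ (x = p' ∧ y = p))
    (hr : ∀ r ∈ [0, 1, 2, 50, 62], s'.reg r = s.reg r) (h68 : s'.reg 68 = s.reg 68 + 2)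
    (h18 : s'.arr 18 p = m1' p ∧ s'.arr 19 p = m2' p ∧ s'.arr 18 p' = m1' p' ∧
      s'.arr 19 p' = m2' p')
    (h18' : ∀ i, i ≠ p → i ≠ p' → s'.arr 18 i = s.arr 18 i ∧ s'.arr 19 i = s.arr 19 i)
    (e1 : ∀ h, h ≠ p → h ≠ p' → m1' h = m1 h ∧ m2' h = m2 h)
    (h20 : ∀ v, v ≠ x → v ≠ y → v ≠ gg → s'.arr 20 v = s.arr 20 v)
    (h20g : s'.arr 20 gg = y + 1) (h20y : s'.arr 20 y = x + 1)
    (h20x : s'.arr 20 x = s.arr 20 gg)
    (h9 : ∀ i, s'.arr 9 i = if i = s.reg 68 + 1 then gg else if i = s.reg 68 then y else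
      if i = s.reg 68 - 1 then x else s.arr 9 i)
    (hq : RepQ (2 * (n + 1)) q' w')
    (hk : ∀ v, q'.key v = if v / 2 = x ∨ v / 2 = y then 0 else q.key v) :
    PS n s' q' w' (pre ++ x :: y :: gg :: post) m1' m2' ((X.erase p).erase p') tE
      (gg :: y :: x :: st) := by
  have hst : s.reg 68 = st.length + 1 := hs.stl
  refine ⟨?_, hq, ?_, ?_, ?_, ?_, ?_, ?_⟩
  · unfold Regs
    rw [hr 0 (by simp), hr 1 (by simp), hr 2 (by simp)]
    exact hs.regs
  · intro v hv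
    rw [hk v, hs.key v hv]
    unfold nk
    have hiff : v / 2 ∈ (X.erase p).erase p' ↔ ¬ (v / 2 = x ∨ v / 2 = y) ∧ v / 2 ∈ X := by
      rw [Finset.mem_erase, Finset.mem_erase]
      rcases hpp with ⟨rfl, rfl⟩ | ⟨rfl, rfl⟩ <;> tauto
    by_cases hc : v / 2 = x ∨ v / 2 = y
    · rw [if_pos hc, if_neg (fun h => (hiff.1 h).1 hc)]
    · rw [if_neg hc]
      by_cases hX : v / 2 ∈ X
      · rw [if_pos hX, if_pos (hiff.2 ⟨hc, hX⟩)]
      · rw [if_neg hX, if_neg (fun h => hX (hiff.1 h).2)]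
  · intro h hh
    by_cases a1 : h = p
    · subst a1; exact ⟨h18.1, h18.2.1⟩
    · by_cases a2 : h = p'
      · subst a2; exact ⟨h18.2.2.1, h18.2.2.2⟩
      · have ho : h ∈ ord := by
          rw [hord]
          simp only [List.mem_append, List.mem_cons] at hh ⊢
          rcases hpp with ⟨rfl, rfl⟩ | ⟨rfl, rfl⟩ <;> tauto
        rw [(h18' h a1 a2).1, (h18' h a1 a2).2, (e1 h a1 a2).1, (e1 h a1 a2).2]
        exact hs.amk h ho
  · have hll := hs.ll
    rw [hord] at hll hnd hx hy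
    rw [hr 50 (by simp)]
    have er : (pre ++ x :: y :: gg :: post).reverse = post.reverse ++ gg :: y :: x :: pre.reverse := by
      simp
    have er' : (pre ++ gg :: post).reverse = post.reverse ++ gg :: pre.reverse := by simp
    rw [er]
    rw [er'] at hll
    have hnd' := List.nodup_append.1 hnd
    have hgp : gg ∉ post := (List.nodup_cons.1 hnd'.2.1).1
    have hgq : gg ∉ pre := fun h => hnd'.2.2 gg h gg List.mem_cons_self rfl
    simp only [List.mem_append, List.mem_cons, not_or] at hx hy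
    refine r12_ll_insert h20 h20g h20y h20x ?_ ?_ hll
    · intro v hv
      have hv' := List.mem_reverse.1 hv
      exact ⟨fun h => hx.1 (h ▸ hv'), fun h => hy.1 (h ▸ hv'), fun h => hgq (h ▸ hv')⟩
    · intro v hv
      have hv' := List.mem_reverse.1 hv
      exact ⟨fun h => hx.2.2 (h ▸ hv'), fun h => hy.2.2 (h ▸ hv'), fun h => hgp (h ▸ hv')⟩
  · rw [hr 62 (by simp)]; exact hs.te
  · rw [h68, hst]; rfl
  · intro i hi
    rw [h9, hst]
    simp only [List.length_cons] at hi ⊢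
    rcases i with _ | _ | _ | i
    · rw [if_pos (by omega)]; rfl
    · rw [if_neg (by omega), if_pos (by omega)]; rfl
    · rw [if_neg (by omega), if_neg (by omega), if_pos (by omega)]; rfl
    · rw [if_neg (by omega), if_neg (by omega), if_neg (by omega)]
      have := hs.stk (i + 1) (by simp only [List.length_cons]; omega)
      simp only [List.length_cons, List.getD_cons_succ] at this
      simp only [List.getD_cons_succ]
      rw [← this]
      congr 1
      omega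

theorem r12_nx_swap {m : ℕ} {A0 : ℕ → ℕ → ZMod 2} {S : Finset ℕ} {ord pre post : List ℕ}
    {m1 m2 m1' m2' : ℕ → ℕ} {X : Finset ℕ} {x y z1 z2 z3 z4 p q gg : ℕ}
    (hA : Alg m A0 w S ord m1 m2) (hXS : X ⊆ S) (hp : p ∈ X) (hq : q ∈ X)
    (hp13 : (z1 = 2 * p ∧ z3 = 2 * p + 1) ∨ (z1 = 2 * p + 1 ∧ z3 = 2 * p))
    (hq24 : (z2 = 2 * q ∧ z4 = 2 * q + 1) ∨ (z2 = 2 * q + 1 ∧ z4 = 2 * q))
    (h12 : w.pos z1 < w.pos z2) (h23 : w.pos z2 < w.pos z3) (h34 : w.pos z3 < w.pos z4)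
    (hxy : (x = p ∧ y = q) ∨ (x = q ∧ y = p)) (hord : ord = pre ++ gg :: post)
    (e1 : ∀ h, h ≠ p → h ≠ q → m1' h = m1 h ∧ m2' h = m2 h)
    (ep : m1' p = z1 ∧ m2' p = z2) (eq : m1' q = z3 ∧ m2' q = z4) :
    Nx w S ord m1 m2 X (w.swp z1 z2 z3 z4) ((S.erase p).erase q)
      (pre ++ x :: y :: gg :: post) m1' m2' ((X.erase p).erase q) := by
  have hpm := hA.sub p (hXS hp)
  have hqm := hA.sub q (hXS hq)
  refine ⟨?_, ?_, ?_, ?_, ?_, ?_⟩
  · exact (Finset.erase_subset _ _).trans (Finset.erase_subset _ _)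
  · exact (Finset.erase_subset _ _).trans (Finset.erase_subset _ _)
  · intro t ht htX
    rw [Finset.mem_erase, Finset.mem_erase]
    exact ⟨fun h => htX (h ▸ hq), fun h => htX (h ▸ hp), ht⟩
  · intro t ht htX
    rw [Finset.mem_erase, Finset.mem_erase] at ht ⊢
    exact ⟨ht.1, ht.2.1, htX⟩
  · intro K g tE hd hK
    exact pend_swp hA hK (hXS hp) (hXS hq) (fun h => Finset.disjoint_left.1 hd h hp)
      (fun h => Finset.disjoint_left.1 hd h hq) hp13 hq24 h12 h23 h34 hxy hord e1 ep eq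
  · intro t ht htX hrow u hu
    rw [Finset.mem_erase, Finset.mem_erase] at hu
    have htm := hA.sub t ht
    have hum := hA.sub u hu.2.2
    have htp : t ≠ p := fun h => htX (h ▸ hp)
    have htq : t ≠ q := fun h => htX (h ▸ hq)
    have hg := hA.good
    rw [Lay.mat_swp hg h12 h23 h34 (by omega) (by omega) (by omega) (by omega) (by omega)
      (by omega) (by omega) (by omega) (by omega) (by omega),
      t5b_bc hg hp13 (by omega) (by omega) htp, t5b_bc hg hq24 (by omega) (by omega) htq,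
      Lay.mat_comm hg (t := t) (u := p) (by omega) (by omega),
      Lay.mat_comm hg (t := t) (u := q) (by omega) (by omega),
      hrow u hu.2.2, hrow p (hXS hp), hrow q (hXS hq)]
    ring

theorem phStep_run (hM : 16 * (n + 1) ≤ M) (hl : 1 ≤ lam) {A0 : ℕ → ℕ → ZMod 2} {S : Finset ℕ}
    {ord : List ℕ} {m1 m2 : ℕ → ℕ} {X : Finset ℕ} {tE gg : ℕ} {st : List ℕ} (htE : tE < n + 1)
    (hP : Ph2 (n + 1) A0 w S ord m1 m2 X (kap (n + 1) tE) (gg :: st))
    (hs : PS n s q w ord m1 m2 X tE (gg :: st)) :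
    ∃ s' q' k w' S' ord' m1' m2' X' st', XRun M inp lam pStep (s, q) (s', q') k ∧
      Ph2 (n + 1) A0 w' S' ord' m1' m2' X' (kap (n + 1) tE) st' ∧
      PS n s' q' w' ord' m1' m2' X' tE st' ∧
      Nx w S ord m1 m2 X w' S' ord' m1' m2' X' ∧
      2 * X'.card + st'.length < 2 * X.card + (st.length + 1) ∧ k ≤ 1000 * lam := by
  have hXm : ∀ t ∈ X, t < n + 1 := fun t ht => hP.alg.sub t (hP.XS ht)
  have hg := hP.alg.good
  have hgo : gg ∈ ord := hP.stk gg (List.mem_cons_self)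
  have hlen : st.length + 1 ≤ n + 1 := by
    have h1 : (gg :: st).toFinset ⊆ Finset.range (n + 1) := by
      intro v hv
      rw [Finset.mem_range]
      exact hP.alg.ordlt v (hP.stk v (List.mem_toFinset.1 hv))
    have h2 := Finset.card_le_card h1
    rw [List.toFinset_card_of_nodup hP.nd, Finset.card_range] at h2
    simpa using h2
  obtain ⟨s1, k1, r1, f69, hcase, hk1⟩ := head_run (M := M) (inp := inp) (lam := lam) hM htE hP hs
  have fr := run_frame r1
  have f0 : ∀ r ∈ [0, 1, 2, 50, 62], s1.reg r = s.reg r := by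
    intro r hr
    apply fr.2.1 r
    revert r
    decide
  have f68 : s1.reg 68 = s.reg 68 := fr.2.1 68 (by decide)
  have farr : s1.arr = s.arr := by
    funext a
    apply fr.1 a
    have : ∀ l : List ℕ, l = [] → a ∉ l := by rintro l rfl; simp
    apply this
    decide
  have h68 : s.reg 68 = st.length + 1 := hs.stl
  have key : wp M inp (opS lam) (blk [.ite (.eq (.r 71) (.c 0)) (.set 68 (.sub (.r 68) (.c 1)))
    (blk [pChord 71 74, .set 75 (dbl (.r 74)), .set 76 (dbl1 (.r 74)), .prim (.btw 75 76 77),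
      .ite (.eq (.r 77) (.c 0))
        (blk [.set 78 (.c 0), .prim (.setk 75 78), .prim (.setk 76 78)])
        (blk [pChord 77 79, .set 80 (dbl (.r 79)), .set 81 (dbl1 (.r 79)), pSwap,
          .sto 20 (.r 74) (.ld 20 (.r 69)), .sto 20 (.r 79) (.add (.r 74) (.c 1)),
          .sto 20 (.r 69) (.add (.r 79) (.c 1)),
          .sto 9 (.sub (.r 68) (.c 1)) (.r 74), .sto 9 (.r 68) (.r 79),
          .sto 9 (.add (.r 68) (.c 1)) (.r 69), .set 68 (.add (.r 68) (.c 2))])])])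
      (fun s' k => ∃ w' S' ord' m1' m2' X' st',
      Ph2 (n + 1) A0 w' S' ord' m1' m2' X' (kap (n + 1) tE) st' ∧
      PS n s'.1 s'.2 w' ord' m1' m2' X' tE st' ∧
      Nx w S ord m1 m2 X w' S' ord' m1' m2' X' ∧
      2 * X'.card + st'.length < 2 * X.card + (st.length + 1) ∧ k ≤ 13 * lam + 700) (s1, q) := by
    rcases hcase with ⟨z71, hz1, hz2⟩ | ⟨n71, x, hx, c, hc, hcx, hkx⟩
    · simp only [blk, wp, Ex.Ok, Ex.eval, Ex.sz, Co.Ok, Co.Holds, Co.sz, z71, true_and, f68, h68]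
      refine ⟨by omega, fun _ => ⟨⟨by omega, by omega⟩, ?_⟩, fun h => absurd trivial h⟩
      refine ⟨w, S, ord, m1, m2, X, st, ph2_pop hP hz1 hz2, ?_, ?_, by omega, by omega⟩
      · refine r12_ps_pop hs (fun r hr => ?_) (by simp) (by simpa using farr)
        rw [← f0 r hr, reg_setReg, if_neg]
        revert r
        decide
      · exact ⟨fun t h => h, fun t h => h, fun t h _ => h, fun t _ h => h, fun K g tE _ h => h,
          fun t _ _ h u hu => h u hu⟩
    · obtain ⟨s2, k2, r2, g74, hk2⟩ := chord_run (M := M) (inp := inp) (lam := lam) (q := q)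
        (s := s1) (k := 71) (d := 74) hM (by rw [f0 1 (by simp)]; exact hs.regs.2.1) htE
        (by rw [f0 62 (by simp)]; exact hs.te) (hXm x hx) hkx (by decide) (by decide)
      have fr2 := run_frame r2
      have hxm := hXm x hx
      obtain ⟨d, rd, hd⟩ := rep_btw (lam := lam) (s := (s2.setReg 75 (2 * x)).setReg 76 (2 * x + 1))
        (a := 75) (b := 76) (d := 77) hg hs.rep (by simp; omega) (by simp; omega) (by simp)
      have hd' : IsMax (fun y => y < 2 * (n + 1) ∧ w.Btw (2 * x) (2 * x + 1) y) q.key d := by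
        simpa using hd
      obtain ⟨q1, q2⟩ := query1 hg hXm hP.mates hP.apos hx (r12_mx hXm hs.key hd')
      simp only [blk, wp]
      refine ⟨⟨trivial, by show 0 < M; omega⟩, fun h => absurd h n71, fun _ => ?_⟩
      refine run_wp M inp (opS lam) r2 _ ?_
      simp only [dbl, dbl1, Ex.Ok, Ex.eval, Ex.sz, Co.Ok, Co.Holds, Co.sz, g74, true_and,
        reg_setReg, if_false, ← two_mul, Nat.reduceEqDiff]
      refine ⟨by omega, ⟨by omega, by omega, by omega⟩, _, _, rd, ?_⟩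
      have hM0 : 0 < M := by omega
      have hr4 : ∀ r ∈ [0, 1, 2, 50, 62], s2.reg r = s.reg r := by
        intro r hr
        rw [← f0 r hr]
        apply fr2.2.1 r
        revert r
        decide
      have f2_68 : s2.reg 68 = s.reg 68 := by
        rw [← f68]; exact fr2.2.1 68 (by decide)
      have f2_69 : s2.reg 69 = gg := by
        rw [← f69]; exact fr2.2.1 69 (by decide)
      have f2arr : s2.arr = s.arr := by
        rw [← farr]
        funext a
        apply fr2.1 a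
        have : ∀ l : List ℕ, l = [] → a ∉ l := by rintro l rfl; simp
        apply this
        decide
      refine ⟨hM0, fun hd0 => ?_, fun hd0 => ?_⟩
      · have e1 := rep_setk (lam := lam) (s := (((s2.setReg 75 (2 * x)).setReg 76
          (2 * x + 1)).setReg 77 d).setReg 78 0) (x := 75) (k := 78) hs.rep (by simp; omega)
        have e2 := rep_setk (lam := lam) (s := (((s2.setReg 75 (2 * x)).setReg 76
          (2 * x + 1)).setReg 77 d).setReg 78 0) (x := 76) (k := 78) e1.2 (by simp; omega)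
        refine ⟨hM0, _, _, e1.1, _, _, e2.1, w, S.erase x, ord, m1, m2, X.erase x, gg :: st,
          ph2_kill hP hx (q1 hd0), r12_ps_kill hs ?_ ?_ ?_ e2.2 ?_, ?_, ?_, ?_⟩
        · intro r hr
          rw [← hr4 r hr]
          have h75 : r ≠ 75 ∧ r ≠ 76 ∧ r ≠ 77 ∧ r ≠ 78 := by revert r; decide
          simp [h75]
        · simpa using f2_68
        · simpa using f2arr
        · intro v
          simp only [reg_setReg, Nat.reduceEqDiff, if_false, if_true]
          by_cases h : v / 2 = x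
          · rw [if_pos h]
            split_ifs <;> first | rfl | (exfalso; omega)
          · rw [if_neg h, if_neg (by omega), if_neg (by omega)]
        · exact ⟨Finset.erase_subset _ _, Finset.erase_subset _ _,
            fun t ht htX => Finset.mem_erase.2 ⟨fun h => htX (h ▸ hx), ht⟩,
            fun t ht htX => Finset.mem_erase.2 ⟨(Finset.mem_erase.1 ht).1, htX⟩,
            fun K g tE hd hK => pend_kill hK (fun h => Finset.disjoint_left.1 hd h hx),
            fun t _ _ h u hu => h u (Finset.mem_of_mem_erase hu)⟩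
        · have := Finset.card_pos.2 ⟨x, hx⟩
          rw [Finset.card_erase_of_mem hx]
          simp only [List.length_cons]
          omega
        · omega
      · obtain ⟨hdo, hy2⟩ := q2 hd0
        obtain ⟨y, hy, hyd⟩ : ∃ y ∈ X, 2 * kap (n + 1) tE y + 1 = d := by
          rcases (r12_mx hXm hs.key hd').2 with h | ⟨v, hv, -, h⟩
          · exact absurd h hd0
          · have := (r12_nk h hd0).2
            exact ⟨v / 2, hv, by omega⟩
        obtain ⟨hyx, -, hb1, hb2⟩ := hy2 y hy hyd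
        have hym := hXm y hy
        obtain ⟨s5, k5, r5, g79, hk5⟩ := chord_run (M := M) (inp := inp) (lam := lam) (q := q)
          (s := ((s2.setReg 75 (2 * x)).setReg 76 (2 * x + 1)).setReg 77 d) (k := 77) (d := 79)
          hM (by simpa [hr4] using hs.regs.2.1) htE (by simpa [hr4] using hs.te) hym
          (Or.inl (by simp [hyd])) (by decide) (by decide)
        have fr5 := run_frame r5
        have g74' : s5.reg 74 = x := by
          have := fr5.2.1 74 (by decide)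
          simpa [g74] using this
        have g75' : s5.reg 75 = 2 * x := by
          have := fr5.2.1 75 (by decide)
          simpa using this
        have g76' : s5.reg 76 = 2 * x + 1 := by
          have := fr5.2.1 76 (by decide)
          simpa using this
        have g69' : s5.reg 69 = gg := by
          have := fr5.2.1 69 (by decide)
          simpa [f2_69] using this
        have g68' : s5.reg 68 = s.reg 68 := by
          have := fr5.2.1 68 (by decide)
          simpa [f2_68] using this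
        have hr5 : ∀ r ∈ [0, 1, 2, 50, 62], s5.reg r = s.reg r := by
          intro r hr
          rw [← hr4 r hr]
          have h75 : r ≠ 75 ∧ r ≠ 76 ∧ r ≠ 77 := by revert r; decide
          have h1 : r ∉ Stm.wr (pChord 77 79) := by revert r; decide
          have := fr5.2.1 r h1
          simpa [h75] using this
        have f5arr : s5.arr = s.arr := by
          rw [← f2arr]
          funext a
          have h1 : a ∉ Stm.wa (pChord 77 79) := by
            have : ∀ l : List ℕ, l = [] → a ∉ l := by rintro l rfl; simp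
            apply this
            decide
          simpa using fr5.1 a h1
        obtain ⟨s7, q7, k7, z1, z2, z3, z4, p, p', r7, hz13, hz24, h12, h23, h34, hxy, hq7, hk7,
          hmk, hmk', hc7⟩ := swap_run (M := M) (inp := inp) (lam := lam)
          (s := (s5.setReg 80 (2 * y)).setReg 81 (2 * y + 1)) hM hg hs.rep hxm hym (Ne.symm hyx)
          (by simpa using g74') (by simpa using g75') (by simpa using g76') (by simpa using g79)
          (by simp) (by simp) hb1 hb2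
        have fr7 := run_frame r7
        have j74 : s7.reg 74 = x := by
          have := fr7.2.1 74 (by decide)
          simpa [g74'] using this
        have j79 : s7.reg 79 = y := by
          have := fr7.2.1 79 (by decide)
          simpa [g79] using this
        have j69 : s7.reg 69 = gg := by
          have := fr7.2.1 69 (by decide)
          simpa [g69'] using this
        have j68 : s7.reg 68 = s.reg 68 := by
          have := fr7.2.1 68 (by decide)
          simpa [g68'] using this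
        have hr7 : ∀ r ∈ [0, 1, 2, 50, 62], s7.reg r = s.reg r := by
          intro r hr
          rw [← hr5 r hr]
          have h75 : r ≠ 80 ∧ r ≠ 81 := by revert r; decide
          have h1 : r ∉ Stm.wr pSwap := by revert r; decide
          have := fr7.2.1 r h1
          simpa [h75] using this
        have f7_20 : s7.arr 20 = s.arr 20 := by
          have := fr7.1 20 (by decide)
          simpa [f5arr] using this
        have f7_9 : s7.arr 9 = s.arr 9 := by
          have := fr7.1 9 (by decide)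
          simpa [f5arr] using this
        refine run_wp M inp (opS lam) r5 _ ?_
        simp only [dbl, dbl1, Ex.Ok, Ex.eval, Ex.sz, Co.Ok, Co.Holds, Co.sz, g79, true_and,
          reg_setReg, if_false, ← two_mul, Nat.reduceEqDiff]
        refine ⟨by omega, ⟨by omega, by omega, by omega⟩, ?_⟩
        refine run_wp M inp (opS lam) r7 _ ?_
        simp only [Ex.Ok, Ex.eval, Ex.sz, reg_setReg, reg_setArr, arr_setArr, arr_setReg, j74, j79,
          j69, j68, true_and]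
        refine ⟨⟨by omega, by omega⟩, ⟨by omega, by omega⟩, ⟨by omega, by omega⟩,
          ⟨by omega, by omega⟩, ⟨by omega, by omega⟩, ?_⟩
        obtain ⟨pre, post, hord⟩ := List.append_of_mem hgo
        have hpX : p ∈ X := by rcases hxy with ⟨rfl, rfl⟩ | ⟨rfl, rfl⟩ <;> assumption
        have hpX' : p' ∈ X := by rcases hxy with ⟨rfl, rfl⟩ | ⟨rfl, rfl⟩ <;> assumption
        have hpp : p ≠ p' := by
          rcases hxy with ⟨rfl, rfl⟩ | ⟨rfl, rfl⟩
          · exact Ne.symm hyx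
          · exact hyx
        have hxo : x ∉ ord := fun h => hP.alg.disj x h (hP.XS hx)
        have hyo : y ∉ ord := fun h => hP.alg.disj y h (hP.XS hy)
        have hgx : gg ≠ x := fun h => hxo (h ▸ hgo)
        have hgy : gg ≠ y := fun h => hyo (h ▸ hgo)
        have e1 : ∀ h, h ≠ p → h ≠ p' →
            (fun h => if h = p then z1 else if h = p' then z3 else m1 h) h = m1 h ∧
            (fun h => if h = p then z2 else if h = p' then z4 else m2 h) h = m2 h := by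
          intro h a1 a2
          simp only [a1, a2, if_false]
          exact ⟨trivial, trivial⟩
        have ep : (fun h => if h = p then z1 else if h = p' then z3 else m1 h) p = z1 ∧
            (fun h => if h = p then z2 else if h = p' then z4 else m2 h) p = z2 := by
          simp only [if_true]
          exact ⟨trivial, trivial⟩
        have eq : (fun h => if h = p then z1 else if h = p' then z3 else m1 h) p' = z3 ∧
            (fun h => if h = p then z2 else if h = p' then z4 else m2 h) p' = z4 := by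
          simp only [if_true, Ne.symm hpp, if_false]
          exact ⟨trivial, trivial⟩
        refine ⟨w.swp z1 z2 z3 z4, (S.erase p).erase p', pre ++ x :: y :: gg :: post,
          fun h => if h = p then z1 else if h = p' then z3 else m1 h,
          fun h => if h = p then z2 else if h = p' then z4 else m2 h, (X.erase p).erase p',
          gg :: y :: x :: st, ?_, ?_, ?_, ?_, ?_⟩
        · exact ph2_pivot hP hc hx hy hcx hz13 hz24 h12 h23 h34 hxy hord e1 ep eq
        · refine r12_ps_swap hs hord hP.alg.valid.nodup hxo hyo hxy ?_ ?_ ?_ ?_ e1 ?_ ?_ ?_ ?_ ?_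
            hq7 hk7
          · intro r hr
            rw [← hr7 r hr]
            have h1 : r ≠ 68 := by revert r; decide
            simp [h1]
          · simp
          · simp [hmk, Ne.symm hpp]
          · intro i hi1 hi2
            have := hmk' i hi1 hi2
            simp only [arr_setReg] at this
            rw [f5arr] at this
            simpa using this
          · intro v v1 v2 v3
            simp [v1, v2, v3, f7_20]
          · simp
          · simp [Ne.symm hgy]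
          · simp [Ne.symm hgx, Ne.symm hyx, f7_20]
          · intro i
            simp [f7_9]
        · exact r12_nx_swap hP.alg hP.XS hpX hpX' hz13 hz24 h12 h23 h34 hxy hord e1 ep eq
        · have h2 : p' ∈ X.erase p := Finset.mem_erase.2 ⟨Ne.symm hpp, hpX'⟩
          have c1 := Finset.card_erase_of_mem hpX
          have c2 := Finset.card_erase_of_mem h2
          have c3 := Finset.card_pos.2 ⟨p', h2⟩
          have c4 := Finset.card_pos.2 ⟨p, hpX⟩
          simp only [List.length_cons]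
          omega
        · omega
  obtain ⟨⟨s', q'⟩, k', r', w', S', ord', m1', m2', X', st', a1, a2, a3, a4, a5⟩ :=
    wp_run M inp (opS lam) _ _ _ key
  exact ⟨s', q', k1 + k', w', S', ord', m1', m2', X', st',
    blk_append (List.cons_ne_nil _ _) (List.cons_ne_nil _ _) r1 r', a1, a2, a3, a4, by omega⟩

end

end SBR
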