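/-
SBR/R13.lean : the loops of phase 2.
-/
import Pool.Agent.SBR.Q1
import Pool.Agent.SBR.Q2
import Pool.Agent.SBR.R12
import Pool.Agent.SBR.T2a
import Pool.Agent.SBR.T5a
import Pool.Agent.SBR.T6a
import Pool.Agent.SBR.T6b

namespace SBR

section
variable {M lam n : ℕ} {inp : ℕ → ℕ} {s : St} {q : AQ} {w : Lay}

/-- body of the loop of `pKeys` -/
private def r13_kb : XStm := blk [
    .set 64 (.sub (.r 63) (.c 1)),
    .ite (.lt (.r 64) (.r 62)) (.set 65 (.sub (.add (.r 64) (.r 1)) (.r 62)))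
      (.set 65 (.sub (.r 64) (.r 62))),
    .set 66 (dbl (.r 64)), .set 67 (dbl1 (.r 65)), .prim (.setk 66 67),
    .set 66 (.add (.r 66) (.c 1)), .set 67 (.add (.r 67) (.c 1)), .prim (.setk 66 67),
    .set 63 (.ld 27 (.r 64))]

/-- body of the loop of `pClear` -/
private def r13_cb : XStm := blk [
    .set 64 (.sub (.r 63) (.c 1)),
    .set 66 (dbl (.r 64)), .prim (.setk 66 67),
    .set 66 (.add (.r 66) (.c 1)), .prim (.setk 66 67),
    .set 63 (.ld 27 (.r 64))]

private theorem r13_kap_lt {m tE v : ℕ} (h : tE < m) (hv : v < m) : kap m tE v < m := by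
  unfold kap
  split_ifs <;> omega

private theorem r13_kb_run (hM : 16 * (n + 1) ≤ M) (hl : 1 ≤ lam) (hR : Regs n s)
    (hq : RepQ (2 * (n + 1)) q w) {tE v : ℕ} (htE : tE < n + 1) (h62 : s.reg 62 = tE)
    (hv : v < n + 1) (h63 : s.reg 63 = v + 1) :
    ∃ s' q' k, XRun M inp lam r13_kb (s, q) (s', q') k ∧ RepQ (2 * (n + 1)) q' w ∧
      s'.reg 63 = s.arr 27 v ∧
      (∀ y, q'.key y = if y / 2 = v then 2 * kap (n + 1) tE v + 1 + y % 2 else q.key y) ∧
      k ≤ 100 * lam := by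
  obtain ⟨h0, h1, h2⟩ := hR
  have hkb := r13_kap_lt htE hv
  have key : wp M inp (opS lam) r13_kb (fun s' k => RepQ (2 * (n + 1)) s'.2 w ∧
      s'.1.reg 63 = s.arr 27 v ∧
      (∀ y, s'.2.key y = if y / 2 = v then 2 * kap (n + 1) tE v + 1 + y % 2 else q.key y) ∧
      k ≤ 100 * lam) (s, q) := by
    by_cases hc : v < tE
    · have hk : v + (n + 1) - tE = kap (n + 1) tE v := by
        unfold kap
        split_ifs <;> omega
      simp only [r13_kb, blk, wp, Ex.Ok, Ex.eval, Co.Ok, Co.Holds, Ex.sz, Co.sz, reg_setReg,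
        dbl, dbl1]
      simp [h1, h62, h63, hc]
      rw [hk]
      refine ⟨by omega, ⟨by omega, by omega⟩, by omega, ⟨by omega, by omega, by omega⟩, _, _, _,
        (rep_setk hq (by simp; omega)).1, ⟨by omega, by simp; omega⟩, ⟨by omega, by simp; omega⟩,
        _, _, _, (rep_setk (rep_setk hq (s := (((s.setReg 64 v).setReg 65 (kap (n + 1) tE v)).setReg
          66 (v + v)).setReg 67 (kap (n + 1) tE v + kap (n + 1) tE v + 1))
          (x := 66) (k := 67) (lam := lam) (by simp; omega)).2 (by simp; omega)).1, ?_, ?_, ?_, ?_⟩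
      · exact (rep_setk (lam := lam) (rep_setk (lam := lam) hq (by simp; omega)).2
          (by simp; omega)).2
      · simp
      · intro y
        simp
        split_ifs <;> omega
      · omega
    · have hk : v - tE = kap (n + 1) tE v := by
        unfold kap
        split_ifs <;> omega
      simp only [r13_kb, blk, wp, Ex.Ok, Ex.eval, Co.Ok, Co.Holds, Ex.sz, Co.sz, reg_setReg,
        dbl, dbl1]
      simp [h1, h62, h63, hc]
      rw [hk]
      refine ⟨by omega, by omega, by omega, ⟨by omega, by omega, by omega⟩, _, _, _,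
        (rep_setk hq (by simp; omega)).1, ⟨by omega, by simp; omega⟩, ⟨by omega, by simp; omega⟩,
        _, _, _, (rep_setk (rep_setk hq (s := (((s.setReg 64 v).setReg 65 (kap (n + 1) tE v)).setReg
          66 (v + v)).setReg 67 (kap (n + 1) tE v + kap (n + 1) tE v + 1))
          (x := 66) (k := 67) (lam := lam) (by simp; omega)).2 (by simp; omega)).1, ?_, ?_, ?_, ?_⟩
      · exact (rep_setk (lam := lam) (rep_setk (lam := lam) hq (by simp; omega)).2
          (by simp; omega)).2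
      · simp
      · intro y
        simp
        split_ifs <;> omega
      · omega
  obtain ⟨s', k, hr, hh⟩ := wp_run M inp (opS lam) _ _ _ key
  exact ⟨s'.1, s'.2, k, hr, hh⟩

private theorem r13_cb_run (hM : 16 * (n + 1) ≤ M) (hl : 1 ≤ lam)
    (hq : RepQ (2 * (n + 1)) q w) {v : ℕ} (h67 : s.reg 67 = 0)
    (hv : v < n + 1) (h63 : s.reg 63 = v + 1) :
    ∃ s' q' k, XRun M inp lam r13_cb (s, q) (s', q') k ∧ RepQ (2 * (n + 1)) q' w ∧
      s'.reg 63 = s.arr 27 v ∧
      (∀ y, q'.key y = if y / 2 = v then 0 else q.key y) ∧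
      k ≤ 100 * lam := by
  have key : wp M inp (opS lam) r13_cb (fun s' k => RepQ (2 * (n + 1)) s'.2 w ∧
      s'.1.reg 63 = s.arr 27 v ∧
      (∀ y, s'.2.key y = if y / 2 = v then 0 else q.key y) ∧
      k ≤ 100 * lam) (s, q) := by
    simp only [r13_cb, blk, wp, Ex.Ok, Ex.eval, Ex.sz, reg_setReg, dbl]
    simp [h63]
    refine ⟨by omega, by omega, _, _, _,
      (rep_setk hq (by simp; omega)).1, ⟨by omega, by simp; omega⟩,
      _, _, _, (rep_setk (rep_setk hq (s := (s.setReg 64 v).setReg 66 (v + v))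
        (x := 66) (k := 67) (lam := lam) (by simp; omega)).2 (by simp; omega)).1, ?_, ?_, ?_, ?_⟩
    · exact (rep_setk (lam := lam) (rep_setk (lam := lam) hq (by simp; omega)).2
        (by simp; omega)).2
    · simp
    · intro y
      simp [h67]
      split_ifs <;> omega
    · omega
  obtain ⟨s', k, hr, hh⟩ := wp_run M inp (opS lam) _ _ _ key
  exact ⟨s'.1, s'.2, k, hr, hh⟩

theorem keys_run (hM : 16 * (n + 1) ≤ M) (hl : 1 ≤ lam) (hR : Regs n s)
    (hq : RepQ (2 * (n + 1)) q w) (hkey : ∀ x, x < 2 * (n + 1) → q.key x = 0) {tE : ℕ}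
    (htE : tE < n + 1) (h62 : s.reg 62 = tE) {l : List ℕ}
    (hll : LL (s.arr 27) (s.arr 26 (s.reg 60)) l) (hnd : l.Nodup) (hlt : ∀ t ∈ l, t < n + 1) :
    ∃ s' q' k, XRun M inp lam pKeys (s, q) (s', q') k ∧ RepQ (2 * (n + 1)) q' w ∧
      (∀ x, x < 2 * (n + 1) → q'.key x = nk (kap (n + 1) tE) l.toFinset x) ∧
      k ≤ 1000 * (l.length + 1) * lam := by
  have loop := run_whl M inp (opS lam) (c := .lt (.c 0) (.r 63)) (p := r13_kb)
    (I := fun (rest : List ℕ) s' k => Regs n s'.1 ∧ s'.1.reg 62 = tE ∧ s'.1.arr = s.arr ∧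
      LL (s.arr 27) (s'.1.reg 63) rest ∧ RepQ (2 * (n + 1)) s'.2 w ∧
      ∃ dn, l = dn ++ rest ∧
        (∀ x, x < 2 * (n + 1) → s'.2.key x = nk (kap (n + 1) tE) dn.toFinset x) ∧
        k ≤ 110 * lam * dn.length) (μ := List.length)
    (by
      rintro rest ⟨s1, q1⟩ k ⟨hR1, h62', harr, hl1, hq1, dn, hdn, hk1, hc⟩
      refine ⟨⟨show 0 < M by omega, trivial⟩, fun hlt1 => ?_⟩
      simp only at hR1 h62' harr hl1 hq1 hk1
      simp only [Co.Holds, Ex.eval] at hlt1
      cases rest with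
      | nil =>
        simp only [LL] at hl1
        omega
      | cons v rest =>
        simp only [LL] at hl1
        obtain ⟨e63, hl2⟩ := hl1
        have hv : v < n + 1 := hlt v (by rw [hdn]; simp)
        obtain ⟨s2, q2, k2, hr, hq2, h63, hk2, hc2⟩ := r13_kb_run (inp := inp) hM hl hR1 hq1 htE
          h62' hv e63
        have fr := run_frame hr
        have farr : s2.arr = s1.arr := by
          funext a
          exact fr.1 a (by simp [r13_kb, blk, Stm.wa])
        refine ⟨_, _, hr, rest, ⟨⟨?_, ?_, ?_⟩, ?_, ?_, ?_, hq2, dn ++ [v], ?_, ?_, ?_⟩, ?_⟩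
        · exact (fr.2.1 0 (by decide)).trans hR1.1
        · exact (fr.2.1 1 (by decide)).trans hR1.2.1
        · exact (fr.2.1 2 (by decide)).trans hR1.2.2
        · exact (fr.2.1 62 (by decide)).trans h62'
        · exact farr.trans harr
        · simp only [h63, harr]
          exact hl2
        · rw [hdn]; simp
        · intro x hx
          simp only [hk2, hk1 x hx, nk, List.toFinset_append, Finset.mem_union, List.mem_toFinset,
            List.mem_singleton]
          by_cases h1 : x / 2 = v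
          · rw [if_pos h1, if_pos (Or.inr h1), h1]
          · simp only [h1, or_false, if_false]
        · simp only [List.length_append, List.length_singleton, Co.sz, Ex.sz]
          have e1 : 110 * lam * (dn.length + 1) = 110 * lam * dn.length + 110 * lam := by ring
          omega
        · simp)
  have r1 : XRun M inp lam (.set 63 (.ld 26 (.r 60))) (s, q)
      (s.setReg 63 (s.arr 26 (s.reg 60)), q) 3 := .set s q 63 (.ld 26 (.r 60)) trivial
  obtain ⟨s', k', hr, rest, kk, ⟨-, -, -, hl1, hq1, dn, hdn, hk1, hc⟩, hnot, hsum⟩ :=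
    loop l (s.setReg 63 (s.arr 26 (s.reg 60)), q) 0
      ⟨⟨by simp [hR.1], by simp [hR.2.1], by simp [hR.2.2]⟩, by simp [h62], rfl, by simpa using hll,
        hq, [], rfl, by
          intro x hx
          simp only [hkey x hx, nk, List.toFinset_nil, Finset.notMem_empty, if_false], by simp⟩
  have hnil : rest = [] := by
    cases rest with
    | nil => rfl
    | cons v rest =>
      simp only [LL] at hl1
      simp only [Co.Holds, Ex.eval, hl1.1] at hnot
      omega
  rw [hnil, List.append_nil] at hdn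
  rw [← hdn] at hk1 hc
  refine ⟨s'.1, s'.2, 3 + k', .seq _ _ _ _ _ _ _ r1 hr, hq1, hk1, ?_⟩
  simp only [Co.sz, Ex.sz] at hsum
  have e1 : 1000 * (l.length + 1) * lam = 110 * lam * l.length + 890 * lam * l.length +
    1000 * lam := by ring
  omega

theorem clear_run (hM : 16 * (n + 1) ≤ M) (hl : 1 ≤ lam) (hR : Regs n s)
    (hq : RepQ (2 * (n + 1)) q w) {l : List ℕ}
    (hll : LL (s.arr 27) (s.arr 26 (s.reg 60)) l) (hnd : l.Nodup) (hlt : ∀ t ∈ l, t < n + 1)
    (hkey : ∀ x, x < 2 * (n + 1) → x / 2 ∉ l → q.key x = 0) :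
    ∃ s' q' k, XRun M inp lam pClear (s, q) (s', q') k ∧ RepQ (2 * (n + 1)) q' w ∧
      (∀ x, x < 2 * (n + 1) → q'.key x = 0) ∧ k ≤ 1000 * (l.length + 1) * lam := by
  have loop := run_whl M inp (opS lam) (c := .lt (.c 0) (.r 63)) (p := r13_cb)
    (I := fun (rest : List ℕ) s' k => s'.1.reg 67 = 0 ∧ s'.1.arr = s.arr ∧
      LL (s.arr 27) (s'.1.reg 63) rest ∧ RepQ (2 * (n + 1)) s'.2 w ∧
      ∃ dn, l = dn ++ rest ∧
        (∀ x, x < 2 * (n + 1) → x / 2 ∉ rest → s'.2.key x = 0) ∧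
        k ≤ 110 * lam * dn.length) (μ := List.length)
    (by
      rintro rest ⟨s1, q1⟩ k ⟨h67, harr, hl1, hq1, dn, hdn, hk1, hc⟩
      refine ⟨⟨show 0 < M by omega, trivial⟩, fun hlt1 => ?_⟩
      simp only at h67 harr hl1 hq1 hk1
      simp only [Co.Holds, Ex.eval] at hlt1
      cases rest with
      | nil =>
        simp only [LL] at hl1
        omega
      | cons v rest =>
        simp only [LL] at hl1
        obtain ⟨e63, hl2⟩ := hl1
        have hv : v < n + 1 := hlt v (by rw [hdn]; simp)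
        obtain ⟨s2, q2, k2, hr, hq2, h63, hk2, hc2⟩ := r13_cb_run (inp := inp) hM hl hq1 h67
          hv e63
        have fr := run_frame hr
        have farr : s2.arr = s1.arr := by
          funext a
          exact fr.1 a (by simp [r13_cb, blk, Stm.wa])
        refine ⟨_, _, hr, rest, ⟨?_, ?_, ?_, hq2, dn ++ [v], ?_, ?_, ?_⟩, ?_⟩
        · exact (fr.2.1 67 (by decide)).trans h67
        · exact farr.trans harr
        · simp only [h63, harr]
          exact hl2
        · rw [hdn]; simp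
        · intro x hx hxr
          simp only [hk2]
          by_cases h1 : x / 2 = v
          · rw [if_pos h1]
          · rw [if_neg h1]
            exact hk1 x hx (by simp [h1, hxr])
        · simp only [List.length_append, List.length_singleton, Co.sz, Ex.sz]
          have e1 : 110 * lam * (dn.length + 1) = 110 * lam * dn.length + 110 * lam := by ring
          omega
        · simp)
  have r1 : XRun M inp lam (.set 63 (.ld 26 (.r 60))) (s, q)
      (s.setReg 63 (s.arr 26 (s.reg 60)), q) 3 := .set s q 63 (.ld 26 (.r 60)) trivial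
  have r2 : XRun M inp lam (.set 67 (.c 0)) (s.setReg 63 (s.arr 26 (s.reg 60)), q)
      ((s.setReg 63 (s.arr 26 (s.reg 60))).setReg 67 0, q) 2 :=
    .set _ q 67 (.c 0) (show 0 < M by omega)
  obtain ⟨s', k', hr, rest, kk, ⟨-, -, hl1, hq1, dn, hdn, hk1, hc⟩, hnot, hsum⟩ :=
    loop l ((s.setReg 63 (s.arr 26 (s.reg 60))).setReg 67 0, q) 0
      ⟨by simp, rfl, by simpa using hll, hq, [], rfl, hkey, by simp⟩
  have hnil : rest = [] := by
    cases rest with
    | nil => rfl
    | cons v rest =>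
      simp only [LL] at hl1
      simp only [Co.Holds, Ex.eval, hl1.1] at hnot
      omega
  rw [hnil, List.append_nil] at hdn
  rw [← hdn] at hc
  refine ⟨s'.1, s'.2, 3 + (2 + k'), .seq _ _ _ _ _ _ _ r1 (.seq _ _ _ _ _ _ _ r2 hr), hq1,
    fun x hx => hk1 x hx (by rw [hnil]; simp), ?_⟩
  simp only [Co.sz, Ex.sz] at hsum
  have e1 : 1000 * (l.length + 1) * lam = 110 * lam * l.length + 890 * lam * l.length +
    1000 * lam := by ring
  omega

private theorem r13_nx_refl (w : Lay) (S : Finset ℕ) (ord : List ℕ) (m1 m2 : ℕ → ℕ)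
    (X : Finset ℕ) : Nx w S ord m1 m2 X w S ord m1 m2 X :=
  ⟨fun _ h => h, fun _ h => h, fun _ h _ => h, fun _ _ h => h, fun _ _ _ _ h => h,
    fun _ _ _ h => h⟩

private theorem r13_nx_trans {w w' w'' : Lay} {S S' S'' : Finset ℕ} {ord ord' ord'' : List ℕ}
    {m1 m2 m1' m2' m1'' m2'' : ℕ → ℕ} {X X' X'' : Finset ℕ}
    (h : Nx w S ord m1 m2 X w' S' ord' m1' m2' X')
    (h' : Nx w' S' ord' m1' m2' X' w'' S'' ord'' m1'' m2'' X'') :
    Nx w S ord m1 m2 X w'' S'' ord'' m1'' m2'' X'' := by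
  refine ⟨h'.sub.trans h.sub, h'.subX.trans h.subX, ?_, ?_, ?_, ?_⟩
  · intro t ht htX
    exact h'.oth t (h.oth t ht htX) (fun hx => htX (h.subX hx))
  · intro t ht htX
    exact h'.inn t ht (h.inn t (h'.sub ht) htX)
  · intro K g tE hd hP
    exact h'.pend K g tE (hd.mono_right h.subX) (h.pend K g tE hd hP)
  · intro t ht htX hz
    exact h'.zero t (h.oth t ht htX) (fun hx => htX (h.subX hx)) (h.zero t ht htX hz)

/-- the loop of `pComp` -/
private theorem r13_loop (hM : 16 * (n + 1) ≤ M) (hl : 1 ≤ lam) {A0 : ℕ → ℕ → ZMod 2}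
    {S : Finset ℕ} {ord : List ℕ} {m1 m2 : ℕ → ℕ} {X : Finset ℕ} {tE gg : ℕ}
    (htE : tE < n + 1) (hP : Ph2 (n + 1) A0 w S ord m1 m2 X (kap (n + 1) tE) [gg])
    (hs : PS n s q w ord m1 m2 X tE [gg]) :
    ∃ s' q' k w' S' ord' m1' m2' X',
      XRun M inp lam (.whl (.lt (.c 0) (.r 68)) pStep) (s, q) (s', q') k ∧
      Ph2 (n + 1) A0 w' S' ord' m1' m2' X' (kap (n + 1) tE) [] ∧
      PS n s' q' w' ord' m1' m2' X' tE [] ∧
      Nx w S ord m1 m2 X w' S' ord' m1' m2' X' ∧
      s'.arr 22 = s.arr 22 ∧ s'.arr 24 = s.arr 24 ∧ s'.arr 25 = s.arr 25 ∧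
      s'.arr 26 = s.arr 26 ∧ s'.arr 27 = s.arr 27 ∧ s'.reg 60 = s.reg 60 ∧
      k ≤ 1010 * lam * (2 * X.card + 1) + 4 := by
  have loop := run_whl M inp (opS lam) (c := .lt (.c 0) (.r 68)) (p := pStep)
    (I := fun (g : Lay × Finset ℕ × List ℕ × (ℕ → ℕ) × (ℕ → ℕ) × Finset ℕ × List ℕ) s' k =>
      Ph2 (n + 1) A0 g.1 g.2.1 g.2.2.1 g.2.2.2.1 g.2.2.2.2.1 g.2.2.2.2.2.1 (kap (n + 1) tE)
        g.2.2.2.2.2.2 ∧
      PS n s'.1 s'.2 g.1 g.2.2.1 g.2.2.2.1 g.2.2.2.2.1 g.2.2.2.2.2.1 tE g.2.2.2.2.2.2 ∧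
      Nx w S ord m1 m2 X g.1 g.2.1 g.2.2.1 g.2.2.2.1 g.2.2.2.2.1 g.2.2.2.2.2.1 ∧
      s'.1.arr 22 = s.arr 22 ∧ s'.1.arr 24 = s.arr 24 ∧ s'.1.arr 25 = s.arr 25 ∧
      s'.1.arr 26 = s.arr 26 ∧ s'.1.arr 27 = s.arr 27 ∧ s'.1.reg 60 = s.reg 60 ∧
      k + 1010 * lam * (2 * g.2.2.2.2.2.1.card + g.2.2.2.2.2.2.length) ≤
        1010 * lam * (2 * X.card + 1))
    (μ := fun g => 2 * g.2.2.2.2.2.1.card + g.2.2.2.2.2.2.length)
    (by
      rintro ⟨w1, S1, ord1, a1, a2, X1, st⟩ ⟨s1, q1⟩ k ⟨hP1, hs1, hN1, f22, f24, f25, f26, f27, f60,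
        hc⟩
      refine ⟨⟨show 0 < M by omega, trivial⟩, fun hlt1 => ?_⟩
      simp only at hP1 hs1 hN1 f22 f24 f25 f26 f27 f60 hc
      simp only [Co.Holds, Ex.eval, hs1.stl] at hlt1
      cases st with
      | nil => simp at hlt1
      | cons gg st =>
        obtain ⟨s2, q2, k2, w2, S2, ord2, b1, b2, X2, st2, hr, hP2, hs2, hN2, hmu, hk2⟩ :=
          phStep_run (inp := inp) hM hl htE hP1 hs1
        have fr := run_frame hr
        refine ⟨_, _, hr, (w2, S2, ord2, b1, b2, X2, st2), ⟨hP2, hs2, r13_nx_trans hN1 hN2,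
          (fr.1 22 (by decide)).trans f22, (fr.1 24 (by decide)).trans f24,
          (fr.1 25 (by decide)).trans f25, (fr.1 26 (by decide)).trans f26,
          (fr.1 27 (by decide)).trans f27, (fr.2.1 60 (by decide)).trans f60, ?_⟩, ?_⟩
        · simp only [Co.sz, Ex.sz, List.length_cons] at hc ⊢
          obtain ⟨d, hd⟩ : ∃ d, 2 * X1.card + (st.length + 1) = 2 * X2.card + st2.length + 1 + d :=
            ⟨_, (Nat.add_sub_cancel' hmu).symm⟩
          rw [hd] at hc
          have e1 : 1010 * lam * (2 * X2.card + st2.length + 1 + d) =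
            1010 * lam * (2 * X2.card + st2.length) + 1010 * lam + 1010 * lam * d := by ring
          omega
        · simpa using hmu)
  obtain ⟨s', k', hr, ⟨w1, S1, ord1, a1, a2, X1, st⟩, kk, ⟨hP1, hs1, hN1, f22, f24, f25, f26, f27,
    f60, hc⟩, hnot, hsum⟩ := loop (w, S, ord, m1, m2, X, [gg]) (s, q) 0
      ⟨hP, hs, r13_nx_refl _ _ _ _ _ _, rfl, rfl, rfl, rfl, rfl, rfl, by simp⟩
  simp only at hP1 hs1 hN1 hc
  simp only [Co.Holds, Ex.eval, hs1.stl] at hnot
  have hnil : st = [] := List.length_eq_zero_iff.1 (by omega)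
  subst hnil
  refine ⟨s'.1, s'.2, k', w1, S1, ord1, a1, a2, X1, hr, hP1, hs1, hN1, f22, f24, f25, f26, f27,
    f60, ?_⟩
  simp only [Co.sz, Ex.sz] at hsum
  omega

/-- phase 2 for one component -/
theorem comp_run (hM : 16 * (n + 1) ≤ M) (hl : 1 ≤ lam) {A0 : ℕ → ℕ → ZMod 2} {S : Finset ℕ}
    {ord : List ℕ} {m1 m2 : ℕ → ℕ} {KK : ℕ → Finset ℕ} {c : ℕ} (hc : c < n + 1)
    (hPO : PO n A0 s q w S ord m1 m2 KK c) (h60 : s.reg 60 = c) (h26 : s.arr 26 c ≠ 0) :
    ∃ s' q' k w' S' ord' m1' m2', XRun M inp lam pComp (s, q) (s', q') k ∧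
      PO n A0 s' q' w' S' ord' m1' m2' KK (c + 1) ∧ k ≤ 10000 * ((KK c).card + 1) * lam := by
  obtain ⟨hPd, h25⟩ := hPO.pend c le_rfl hc h26
  obtain ⟨l, hll, hnd, hmem⟩ := hPO.lst c hc h26
  obtain ⟨g, hg⟩ : ∃ g, g = s.arr 22 (s.arr 24 c) := ⟨_, rfl⟩
  obtain ⟨tE, htE⟩ : ∃ tE, tE = s.arr 25 c - 1 := ⟨_, rfl⟩
  rw [← hg, ← htE] at hPd
  have hlt : ∀ t ∈ l, t < n + 1 := fun t ht => Finset.mem_range.1 (hPO.ran c ((hmem t).1 ht))
  have htEn : tE < n + 1 := Finset.mem_range.1 (hPO.ran c hPd.tEK)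
  have hlK : l.toFinset = KK c := by
    ext t
    rw [List.mem_toFinset, hmem]
  have hlen : l.length = (KK c).card := by
    rw [← hlK, List.toFinset_card_of_nodup hnd]
  obtain ⟨hm1, -, -, -⟩ := hPO.alg.mks g hPd.gord
  -- registers 61, 62
  have r1 : XRun M inp lam (.set 61 (.ld 22 (.ld 24 (.r 60)))) (s, q) (s.setReg 61 g, q) 4 := by
    have := Run.set (M := M) (inp := inp) (ps := opS lam) s q 61 (.ld 22 (.ld 24 (.r 60))) trivial
    simpa [Ex.eval, Ex.sz, h60, ← hg] using this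
  have r2 : XRun M inp lam (.set 62 (.sub (.ld 25 (.r 60)) (.c 1))) (s.setReg 61 g, q)
      ((s.setReg 61 g).setReg 62 tE, q) 5 := by
    have := Run.set (M := M) (inp := inp) (ps := opS lam) (s.setReg 61 g) q 62
      (.sub (.ld 25 (.r 60)) (.c 1)) ⟨trivial, show 1 < M by omega, by simp [Ex.eval, h60, h25]⟩
    simpa [Ex.eval, Ex.sz, h60, ← htE] using this
  -- keys
  obtain ⟨s3, q3, k3, r3, hq3, hk3, hc3⟩ := keys_run (M := M) (lam := lam) (n := n) (inp := inp)
    (s := (s.setReg 61 g).setReg 62 tE) (q := q) (w := w) hM hl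
    ⟨by simp [hPO.regs.1], by simp [hPO.regs.2.1], by simp [hPO.regs.2.2]⟩ hPO.rep hPO.key htEn
    (by simp) (l := l) (by simpa [h60] using hll) hnd hlt
  have fr3 := run_frame r3
  have a3 : s3.arr = s.arr := by
    funext a
    exact fr3.1 a (by simp [pKeys, blk, Stm.wa])
  have e61 : s3.reg 61 = g := (fr3.2.1 61 (by decide)).trans (by simp)
  have e62 : s3.reg 62 = tE := (fr3.2.1 62 (by decide)).trans (by simp)
  have e60 : s3.reg 60 = c := (fr3.2.1 60 (by decide)).trans (by simp [h60])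
  have e0 : s3.reg 0 = n := (fr3.2.1 0 (by decide)).trans (by simp [hPO.regs.1])
  have e1 : s3.reg 1 = n + 1 := (fr3.2.1 1 (by decide)).trans (by simp [hPO.regs.2.1])
  have e2 : s3.reg 2 = 2 * (n + 1) := (fr3.2.1 2 (by decide)).trans (by simp [hPO.regs.2.2])
  have e50 : s3.reg 50 = s.reg 50 := (fr3.2.1 50 (by decide)).trans (by simp)
  -- rotation
  have r4 : XRun M inp lam (.set 66 (.ld 18 (.r 61))) (s3, q3) (s3.setReg 66 (m1 g), q3) 3 := by
    have := Run.set (M := M) (inp := inp) (ps := opS lam) s3 q3 66 (.ld 18 (.r 61)) trivial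
    simpa [Ex.eval, Ex.sz, e61, a3, (hPO.amk g hPd.gord).1] using this
  obtain ⟨q5, hop5, hq5, hk5⟩ := rep_rot (lam := lam) (s := s3.setReg 66 (m1 g)) hPO.alg.good hq3
    (x := 66) (by simpa using hm1)
  have e66 : (s3.setReg 66 (m1 g)).reg 66 = m1 g := by simp
  rw [e66] at hq5
  have r5 : XRun M inp lam (.prim (.rot 66)) (s3.setReg 66 (m1 g), q3)
      (s3.setReg 66 (m1 g), q5) lam := .prim _ _ _ _ hop5
  have r6 : XRun M inp lam (.sto 9 (.c 0) (.r 61)) (s3.setReg 66 (m1 g), q5)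
      ((s3.setReg 66 (m1 g)).setArr 9 0 g, q5) 3 := by
    have := Run.sto (M := M) (inp := inp) (ps := opS lam) (s3.setReg 66 (m1 g)) q5 9 (.c 0)
      (.r 61) (show 0 < M by omega) trivial
    simpa [Ex.eval, Ex.sz, e61] using this
  obtain ⟨s7, hs7⟩ : ∃ s7, s7 = ((s3.setReg 66 (m1 g)).setArr 9 0 g).setReg 68 1 := ⟨_, rfl⟩
  have r7 : XRun M inp lam (.set 68 (.c 1)) ((s3.setReg 66 (m1 g)).setArr 9 0 g, q5) (s7, q5) 2 := by
    rw [hs7]
    exact .set _ q5 68 (.c 1) (show 1 < M by omega)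
  have hPh := pend_start hPO.alg hPd
  have hPS : PS n s7 q5 (w.rot (2 * (n + 1)) (m1 g)) ord m1 m2 (KK c) tE [g] := by
    refine ⟨⟨by simp [hs7, e0], by simp [hs7, e1], by simp [hs7, e2]⟩, hq5, ?_, ?_, ?_,
      by simp [hs7, e62], by simp [hs7], ?_⟩
    · intro x hx
      rw [hk5, hk3 x hx, hlK]
    · intro h hh
      have := hPO.amk h hh
      simpa [hs7, a3] using this
    · have := hPO.ll
      have e20 : s7.arr 20 = s.arr 20 := by
        funext i
        simp [hs7, a3]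
      rw [e20]
      simpa [hs7, e50] using this
    · intro i hi
      simp only [List.length_singleton, Nat.lt_one_iff] at hi
      subst hi
      simp [hs7]
  have harr7 : ∀ a, a ≠ 9 → s7.arr a = s.arr a := by
    intro a ha
    funext i
    simp [hs7, a3, ha]
  obtain ⟨s8, q8, k8, w8, S8, ord8, b1, b2, X8, r8, hP8, hs8, hN8, f22, f24, f25, f26, f27, f60,
    hc8⟩ := r13_loop (inp := inp) hM hl htEn hPh hPS
  rw [harr7 22 (by decide)] at f22
  rw [harr7 24 (by decide)] at f24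
  rw [harr7 25 (by decide)] at f25
  rw [harr7 26 (by decide)] at f26
  rw [harr7 27 (by decide)] at f27
  have e60' : s8.reg 60 = c := by rw [f60, hs7]; simp [e60]
  obtain ⟨s9, q9, k9, r9, hq9, hk9, hc9⟩ := clear_run (M := M) (lam := lam) (n := n) (inp := inp)
    hM hl hs8.regs hs8.rep (l := l) (by rw [f27, f26, e60']; exact hll) hnd hlt (by
      intro x hx hxl
      rw [hs8.key x hx, nk, if_neg]
      intro hx8
      exact hxl ((hmem _).2 (hN8.subX hx8)))
  have fr9 := run_frame r9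
  have a9 : s9.arr = s8.arr := by
    funext a
    exact fr9.1 a (by simp [pClear, blk, Stm.wa])
  refine ⟨s9, q9, _, w8, S8, ord8, b1, b2, .seq _ _ _ _ _ _ _ r1 (.seq _ _ _ _ _ _ _ r2
    (.seq _ _ _ _ _ _ _ r3 (.seq _ _ _ _ _ _ _ r4 (.seq _ _ _ _ _ _ _ r5
    (.seq _ _ _ _ _ _ _ r6 (.seq _ _ _ _ _ _ _ r7 (.seq _ _ _ _ _ _ _ r8 r9))))))), ?_, ?_⟩
  · refine ⟨⟨?_, ?_, ?_⟩, hq9, hk9, hP8.alg, ?_, ?_, ?_, hPO.dis, hPO.ran, ?_, ?_⟩
    · exact (fr9.2.1 0 (by decide)).trans hs8.regs.1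
    · exact (fr9.2.1 1 (by decide)).trans hs8.regs.2.1
    · exact (fr9.2.1 2 (by decide)).trans hs8.regs.2.2
    · rw [a9]
      exact hs8.amk
    · rw [a9, fr9.2.1 50 (by decide)]
      exact hs8.ll
    · rw [a9, f26, f27]
      exact hPO.lst
    · intro c' hc' hcn h26'
      rw [a9, f26] at h26'
      rw [a9, f22, f24, f25]
      obtain ⟨h1, h2⟩ := hPO.pend c' (by omega) hcn h26'
      exact ⟨hN8.pend _ _ _ (hPO.dis c' c (by omega)) (pend_rot hPO.alg h1 hm1), h2⟩
    · intro t ht hw8 u hu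
      by_cases htK : t ∈ KK c
      · exact ph2_end hP8 t (hN8.inn t ht htK) u hu
      · refine hN8.zero t (hN8.sub ht) htK ?_ u hu
        intro v hv
        have htm := hPO.alg.sub t (hN8.sub ht)
        have hvm := hPO.alg.sub v hv
        rw [Lay.mat_rot hPO.alg.good hm1 (by omega) (by omega)]
        refine hPO.zero t (hN8.sub ht) ?_ v hv
        intro c' hc' hcn h26'
        rcases Nat.lt_or_ge c c' with h | h
        · exact hw8 c' h hcn (by rw [a9, f26]; exact h26')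
        · have : c' = c := by omega
          rw [this]
          exact htK
  · rw [hlen] at hc3 hc9
    have x1 : 1000 * ((KK c).card + 1) * lam = 1000 * lam * (KK c).card + 1000 * lam := by ring
    have x2 : 10000 * ((KK c).card + 1) * lam = 4020 * lam * (KK c).card +
      5980 * lam * (KK c).card + 10000 * lam := by ring
    have x3 : 1010 * lam * (2 * (KK c).card + 1) = 2020 * lam * (KK c).card + 1010 * lam := by ring
    have x4 : 4020 * lam * (KK c).card = 1000 * lam * (KK c).card + 1000 * lam * (KK c).card +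
      2020 * lam * (KK c).card := by ring
    omega

/-- rule for counting loops with costs depending on the iteration -/
private theorem r13_forN {i n : ℕ} {body : XStm} {N : ℕ} (f : ℕ → ℕ) (I : ℕ → St → AQ → Prop)
    (hN : N + 1 < M) (hin : i ≠ n) (hb1 : i ∉ Stm.wr body) (hb2 : n ∉ Stm.wr body)
    (hI : ∀ j s q v, I j s q → I j (s.setReg i v) q)
    (hstep : ∀ j s q, j < N → I j s q → s.reg i = j → s.reg n = N →
      ∃ s' q' k, XRun M inp lam body (s, q) (s', q') k ∧ I (j + 1) s' q' ∧ k ≤ f j)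
    {s : St} {q : AQ} (h0 : I 0 s q) (hn : s.reg n = N) :
    ∃ s' q' k, XRun M inp lam (forN i n body) (s, q) (s', q') k ∧ I N s' q' ∧
      k ≤ ∑ j ∈ Finset.range N, f j + 8 * N + 6 := by
  have hzero : (0 : ℕ) < M := by omega
  set s0 := s.setReg i 0 with hs0
  have r1 : XRun M inp lam (.set i (.c 0)) (s, q) (s0, q) 2 := .set s q i (.c 0) hzero
  have key : ∀ g s k, (∃ j, g = N - j ∧ j ≤ N ∧ I j s.1 s.2 ∧ s.1.reg i = j ∧ s.1.reg n = N ∧
      k ≤ ∑ j ∈ Finset.range j, f j + 8 * j) →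
      ∃ s' k', XRun M inp lam (.whl (.lt (.r i) (.r n)) (.seq body (.set i (.add (.r i) (.c 1)))))
        s s' k' ∧ ∃ g' kk, (∃ j, g' = N - j ∧ j ≤ N ∧ I j s'.1 s'.2 ∧ s'.1.reg i = j ∧
          s'.1.reg n = N ∧ kk ≤ ∑ j ∈ Finset.range j, f j + 8 * j) ∧
          ¬ (Co.lt (.r i) (.r n)).Holds inp s'.1 ∧
          kk + ((Co.lt (.r i) (.r n)).sz + 1) = k + k' := by
    apply run_whl M inp (opS lam)
      (I := fun (g : ℕ) s k => ∃ j, g = N - j ∧ j ≤ N ∧ I j s.1 s.2 ∧ s.1.reg i = j ∧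
        s.1.reg n = N ∧ k ≤ ∑ j ∈ Finset.range j, f j + 8 * j) (μ := fun g => g)
    rintro g ⟨s, q⟩ k ⟨j, hg, hj, hIj, hi, hn', hk⟩
    refine ⟨⟨trivial, trivial⟩, fun hlt => ?_⟩
    have hjN : j < N := by
      simp only [Co.Holds, Ex.eval] at hlt
      simp only at hi hn'
      omega
    obtain ⟨s', q', k', hr, hI', hc⟩ := hstep j s q hjN hIj hi hn'
    have fr := run_frame hr
    have e1 : s'.reg i = j := by rw [fr.2.1 i hb1]; exact hi
    have e2 : s'.reg n = N := by rw [fr.2.1 n hb2]; exact hn'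
    have r2 : XRun M inp lam (.set i (.add (.r i) (.c 1))) (s', q')
        (s'.setReg i (s'.reg i + 1), q') 4 := by
      have := Run.set (M := M) (inp := inp) (ps := opS lam) s' q' i (.add (.r i) (.c 1))
        ⟨trivial, by show 1 < M; omega, by simp only [Ex.eval]; omega⟩
      simpa [Ex.eval, Ex.sz] using this
    refine ⟨_, _, .seq _ _ _ _ _ _ _ hr r2, N - (j + 1), ⟨j + 1, rfl, by omega, hI _ _ _ _ hI', ?_,
      ?_, ?_⟩, by omega⟩
    · simp [e1]
    · simp [Ne.symm hin, e2]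
    · simp only [Co.sz, Ex.sz]
      rw [Finset.sum_range_succ]
      omega
  obtain ⟨⟨s', q'⟩, k', hr, g', kk, ⟨j, hg', hj, hIj, hi, hn', hkk⟩, hnot, hsum⟩ :=
    key N (s0, q) 0 ⟨0, by omega, by omega, hI _ _ _ _ h0, by simp [hs0],
      by simp [hs0, Ne.symm hin, hn], by omega⟩
  have hjN : j = N := by
    simp only [Co.Holds, Ex.eval] at hnot
    simp only at hi hn'
    omega
  subst hjN
  refine ⟨s', q', 2 + k', .seq _ _ _ _ _ _ _ r1 hr, hIj, ?_⟩
  simp only [Co.sz, Ex.sz] at hsum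
  omega

theorem ph2_run (hM : 16 * (n + 1) ≤ M) (hl : 1 ≤ lam) {A0 : ℕ → ℕ → ZMod 2} {S : Finset ℕ}
    {ord : List ℕ} {m1 m2 : ℕ → ℕ} {KK : ℕ → Finset ℕ}
    (hPO : PO n A0 s q w S ord m1 m2 KK 0) :
    ∃ s' q' k ord', XRun M inp lam pPh2 (s, q) (s', q') k ∧ Valid A0 ord' ∧
      (∀ v ∈ ord', v < n + 1) ∧ (∀ t u, pivs A0 ord' t u = 0) ∧
      LL (s'.arr 20) (s'.reg 50) ord'.reverse ∧ k ≤ 30000 * (n + 1) * lam := by
  obtain ⟨s', q', k, hr, ⟨w1, S1, ord1, b1, b2, hP⟩, hk⟩ := r13_forN (M := M) (lam := lam)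
    (inp := inp) (i := 60) (n := 1) (N := n + 1)
    (body := .ite (.eq (.ld 26 (.r 60)) (.c 0)) .skip pComp)
    (f := fun j => 10000 * ((KK j).card + 1) * lam + 10)
    (I := fun j s q => ∃ w' S' ord' m1' m2', PO n A0 s q w' S' ord' m1' m2' KK j)
    (by omega) (by decide) (by decide) (by decide)
    (by
      rintro j s q v ⟨w1, S1, ord1, b1, b2, hP⟩
      refine ⟨w1, S1, ord1, b1, b2, ⟨?_, ?_, ?_⟩, hP.rep, hP.key, hP.alg, hP.amk, ?_, hP.lst,
        hP.dis, hP.ran, hP.pend, hP.zero⟩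
      · simpa using hP.regs.1
      · simpa using hP.regs.2.1
      · simpa using hP.regs.2.2
      · simpa using hP.ll)
    (by
      rintro j s q hj ⟨w1, S1, ord1, b1, b2, hP⟩ h60 -
      by_cases h26 : s.arr 26 j = 0
      · refine ⟨s, q, _, .ite_t _ _ _ _ _ _ ⟨trivial, show 0 < M by omega⟩
          (by simpa [Co.Holds, Ex.eval, h60] using h26) (.skip _), ?_, ?_⟩
        · refine ⟨w1, S1, ord1, b1, b2, hP.regs, hP.rep, hP.key, hP.alg, hP.amk, hP.ll, hP.lst,
            hP.dis, hP.ran, fun c' hc' => hP.pend c' (by omega), fun t ht hw => ?_⟩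
          refine hP.zero t ht fun c' hc' hcn h26' => ?_
          rcases Nat.lt_or_ge j c' with h | h
          · exact hw c' h hcn h26'
          · have : c' = j := by omega
            rw [this] at h26'
            exact absurd h26 h26'
        · simp only [Co.sz, Ex.sz]
          omega
      · obtain ⟨s', q', k, w2, S2, ord2, c1, c2, hr, hP2, hk⟩ := comp_run (inp := inp) hM hl hj hP
          h60 h26
        refine ⟨s', q', _, .ite_f _ _ _ _ _ _ ⟨trivial, show 0 < M by omega⟩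
          (by simpa [Co.Holds, Ex.eval, h60] using h26) hr, ⟨w2, S2, ord2, c1, c2, hP2⟩, ?_⟩
        simp only [Co.sz, Ex.sz]
        omega)
    (s := s) (q := q) ⟨w, S, ord, m1, m2, hPO⟩ hPO.regs.2.1
  have hz : ∀ t ∈ S1, ∀ u ∈ S1, w1.mat t u = 0 := fun t ht =>
    hP.zero t ht fun c' h1 h2 => by omega
  refine ⟨s', q', k, ord1, hr, hP.alg.valid, hP.alg.ordlt, ?_, hP.ll, ?_⟩
  · intro t u
    by_cases ht : t ∈ S1
    · by_cases hu : u ∈ S1
      · rw [hP.alg.mat t ht u hu]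
        exact hz t ht u hu
      · rw [(hP.alg.symm.pivs ord1) t u]
        exact hP.alg.rest u hu t
    · exact hP.alg.rest t ht u
  · have hsum : ∑ j ∈ Finset.range (n + 1), (KK j).card ≤ n + 1 := by
      rw [← Finset.card_biUnion (fun a _ b _ hab => hPO.dis a b hab)]
      calc ((Finset.range (n + 1)).biUnion KK).card ≤ (Finset.range (n + 1)).card :=
            Finset.card_le_card (Finset.biUnion_subset.2 fun c _ => hPO.ran c)
        _ = n + 1 := Finset.card_range _
    have e1 : ∑ j ∈ Finset.range (n + 1), (10000 * ((KK j).card + 1) * lam + 10) =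
        10000 * lam * ∑ j ∈ Finset.range (n + 1), (KK j).card + 10000 * lam * (n + 1) +
          10 * (n + 1) := by
      rw [Finset.mul_sum, Finset.sum_add_distrib, Finset.sum_const, Finset.card_range,
        smul_eq_mul]
      have : ∀ j, 10000 * ((KK j).card + 1) * lam = 10000 * lam * (KK j).card + 10000 * lam :=
        fun j => by ring
      simp only [this]
      rw [Finset.sum_add_distrib, Finset.sum_const, Finset.card_range, smul_eq_mul]
      ring
    rw [e1] at hk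
    have e2 : 10000 * lam * ∑ j ∈ Finset.range (n + 1), (KK j).card ≤ 10000 * lam * (n + 1) :=
      Nat.mul_le_mul_left _ hsum
    have e3 : 30000 * (n + 1) * lam = 10000 * lam * (n + 1) + 10000 * lam * (n + 1) +
      10000 * lam * (n + 1) := by ring
    have e4 : n + 1 ≤ lam * (n + 1) := Nat.le_mul_of_pos_left _ hl
    have e5 : 10000 * lam * (n + 1) = 10000 * (lam * (n + 1)) := by ring
    omega

end

end SBR
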