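/-
SBR/R2.lean : linear time components of the alive chords by a stack.
-/
import Pool.Agent.SBR.Rep

namespace SBR

/-! ### abstract chords -/

/-- chords `t ∈ S` with begin `b t` and end `e t`; `R` : connectedness -/
private structure Chd (S : Finset ℕ) (b e : ℕ → ℕ) (R : ℕ → ℕ → Prop) : Prop where
  binj : ∀ t ∈ S, ∀ u ∈ S, b t = b u → t = u
  einj : ∀ t ∈ S, ∀ u ∈ S, e t = e u → t = u
  be : ∀ t ∈ S, ∀ u ∈ S, b t ≠ e u
  lt : ∀ t ∈ S, b t < e t
  refl : ∀ t, R t t
  symm : ∀ t u, R t u → R u t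
  trans : ∀ t u v, R t u → R u v → R t v
  cross : ∀ t ∈ S, ∀ u ∈ S, b t < b u → b u < e t → e t < e u → R t u

/-- state of the scan before position `i`; `st` : stack, top first; `ρ c` : root of the class of
`c`; `par` : forest; `mx` : last end of a class -/
private structure Sc (S : Finset ℕ) (b e : ℕ → ℕ) (R : ℕ → ℕ → Prop) (i : ℕ) (st : List ℕ)
    (ρ par mx : ℕ → ℕ) : Prop where
  stS : ∀ s ∈ st, s ∈ S ∧ b s < i ∧ ρ s = s
  srt : st.Pairwise (fun x y => b y < b x)
  mxl : ∀ s ∈ st, ∀ c ∈ S, b c < i → ρ c = s → e c ≤ mx s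
  mxe : ∀ s ∈ st, ∃ c ∈ S, b c < i ∧ ρ c = s ∧ e c = mx s
  opn : ∀ s ∈ st, i ≤ mx s
  rt : ∀ c ∈ S, b c < i → ρ c ∈ S ∧ b (ρ c) ≤ b c ∧ R c (ρ c)
  act : ∀ c ∈ S, b c < i → i ≤ e c → ρ c ∈ st
  itv : ∀ c ∈ S, b c < i → ρ c ∈ st → ∀ s ∈ st, b (ρ c) < b s → b c < b s
  pr : ∀ c ∈ S, b c < i → (par c = c ∧ ρ c = c) ∨ (par c ∈ S ∧ b (par c) < b c ∧ ρ (par c) = ρ c)
  cmp : ∀ c ∈ S, ∀ d ∈ S, b c < b d → b d < e c → e c < e d → e c < i → ρ c = ρ d

section
variable {S : Finset ℕ} {b e : ℕ → ℕ} {R : ℕ → ℕ → Prop} {i : ℕ} {st : List ℕ}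
  {ρ par mx : ℕ → ℕ}

private lemma sc_zero (par mx : ℕ → ℕ) : Sc S b e R 0 [] (fun x => x) par mx := by
  constructor <;> simp

/-- nothing happens at position `i` -/
private lemma sc_skip (h : Sc S b e R i st ρ par mx) (hb : ∀ t ∈ S, b t ≠ i)
    (he : ∀ t ∈ S, e t ≠ i) : Sc S b e R (i + 1) st ρ par mx := by
  have hb' : ∀ c ∈ S, b c < i + 1 → b c < i := fun c hc h1 => by
    have := hb c hc; omega
  refine ⟨fun s hs => ⟨(h.stS s hs).1, by have := (h.stS s hs).2.1; omega, (h.stS s hs).2.2⟩,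
    h.srt, fun s hs c hc h1 h2 => h.mxl s hs c hc (hb' c hc h1) h2, ?_, ?_,
    fun c hc h1 => h.rt c hc (hb' c hc h1), fun c hc h1 h2 => h.act c hc (hb' c hc h1) (by omega),
    fun c hc h1 => h.itv c hc (hb' c hc h1), fun c hc h1 => h.pr c hc (hb' c hc h1), ?_⟩
  · intro s hs
    obtain ⟨c, hc, h1, h2⟩ := h.mxe s hs
    exact ⟨c, hc, by omega, h2⟩
  · intro s hs
    obtain ⟨c, hc, h1, h2, h3⟩ := h.mxe s hs
    have h4 := h.opn s hs
    have := he c hc
    omega
  · intro c hc d hd h1 h2 h3 h4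
    exact h.cmp c hc d hd h1 h2 h3 (by have := he c hc; omega)

/-- first end of chord `t` -/
private lemma sc_push (H : Chd S b e R) (h : Sc S b e R i st ρ par mx) {t : ℕ} (ht : t ∈ S)
    (hi : b t = i) : Sc S b e R (i + 1) (t :: st) (Function.update ρ t t)
      (Function.update par t t) (Function.update mx t (e t)) := by
  have hb' : ∀ c ∈ S, b c < i + 1 → c ≠ t → b c < i := fun c hc h1 h2 => by
    have : b c ≠ b t := fun h3 => h2 (H.binj c hc t ht h3)
    omega
  have he' : ∀ c ∈ S, e c ≠ i := fun c hc h1 => H.be t ht c hc (by omega)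
  have hst : ∀ s ∈ st, s ≠ t := fun s hs h1 => by
    have := (h.stS s hs).2.1
    rw [h1] at this; omega
  have hρ : ∀ c ∈ S, b c < i → ρ c ≠ t := fun c hc h1 h2 => by
    have := (h.rt c hc h1).2.1
    rw [h2] at this; omega
  have up : ∀ (f : ℕ → ℕ) (v c : ℕ), c ≠ t → Function.update f t v c = f c :=
    fun f v c hc => Function.update_of_ne hc _ _
  have us : ∀ (f : ℕ → ℕ) (v : ℕ), Function.update f t v t = v := fun f v => Function.update_self _ _ _
  refine ⟨?_, ?_, ?_, ?_, ?_, ?_, ?_, ?_, ?_, ?_⟩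
  · intro s hs
    rcases List.mem_cons.1 hs with rfl | hs
    · exact ⟨ht, by omega, us _ _⟩
    · have := h.stS s hs
      exact ⟨this.1, by omega, by rw [up _ _ _ (hst s hs)]; exact this.2.2⟩
  · refine List.pairwise_cons.2 ⟨fun s hs => ?_, h.srt⟩
    have := (h.stS s hs).2.1
    omega
  · intro s hs c hc h1 h2
    by_cases hct : c = t
    · subst hct
      rw [us] at h2
      subst h2
      rw [us]
    · rw [up _ _ _ hct] at h2
      have h3 := hb' c hc h1 hct
      rcases List.mem_cons.1 hs with rfl | hs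
      · exact absurd h2 (hρ c hc h3)
      · rw [up _ _ _ (hst s hs)]
        exact h.mxl s hs c hc h3 h2
  · intro s hs
    rcases List.mem_cons.1 hs with rfl | hs
    · exact ⟨s, ht, by omega, us _ _, (us _ _).symm⟩
    · obtain ⟨c, hc, h1, h2, h3⟩ := h.mxe s hs
      have hct : c ≠ t := fun h4 => by rw [h4] at h1; omega
      exact ⟨c, hc, by omega, by rw [up _ _ _ hct]; exact h2, by rw [up _ _ _ (hst s hs)]; exact h3⟩
  · intro s hs
    rcases List.mem_cons.1 hs with rfl | hs
    · rw [us]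
      have := H.lt s ht
      omega
    · rw [up _ _ _ (hst s hs)]
      obtain ⟨c, hc, h1, h2, h3⟩ := h.mxe s hs
      have h4 := h.opn s hs
      have := he' c hc
      omega
  · intro c hc h1
    by_cases hct : c = t
    · subst hct
      rw [us]
      exact ⟨ht, le_rfl, H.refl c⟩
    · rw [up _ _ _ hct]
      exact h.rt c hc (hb' c hc h1 hct)
  · intro c hc h1 h2
    by_cases hct : c = t
    · subst hct
      rw [us]
      exact List.mem_cons_self
    · rw [up _ _ _ hct]
      exact List.mem_cons_of_mem _ (h.act c hc (hb' c hc h1 hct) (by omega))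
  · intro c hc h1 h2 s hs h3
    by_cases hct : c = t
    · subst hct
      rw [us] at h3
      exact h3
    · rw [up _ _ _ hct] at h2 h3
      have h4 := hb' c hc h1 hct
      rcases List.mem_cons.1 h2 with h5 | h5
      · exact absurd h5 (hρ c hc h4)
      · rcases List.mem_cons.1 hs with rfl | hs
        · omega
        · exact h.itv c hc h4 h5 s hs h3
  · intro c hc h1
    by_cases hct : c = t
    · subst hct
      left
      exact ⟨us _ _, us _ _⟩
    · have h4 := hb' c hc h1 hct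
      rw [up _ _ _ hct, up _ _ _ hct]
      rcases h.pr c hc h4 with h5 | ⟨h5, h6, h7⟩
      · left; exact h5
      · right
        have h8 : par c ≠ t := fun h9 => by rw [h9] at h6; omega
        rw [up _ _ _ h8]
        exact ⟨h5, h6, h7⟩
  · intro c hc d hd h1 h2 h3 h4
    have h5 := he' c hc
    have h6 : c ≠ t := fun h7 => by
      have := H.lt c hc
      rw [h7] at this h4; omega
    have h7 : d ≠ t := fun h8 => by rw [h8] at h2; omega
    rw [up _ _ _ h6, up _ _ _ h7]
    exact h.cmp c hc d hd h1 h2 h3 (by omega)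

/-- the root of the chord that ends at position `i`, when the top of the stack is not above it -/
private lemma sc_root (h : Sc S b e R i st ρ par mx) {t : ℕ} (ht : t ∈ S) (hbt : b t < i)
    (hi : e t = i) {a : ℕ} {l : List ℕ} (hst : st = a :: l) (ha : b a ≤ b t) : ρ t = a := by
  have h1 := h.act t ht hbt (by omega)
  by_contra hne
  have h2 := h.srt
  rw [hst] at h1 h2
  rcases List.mem_cons.1 h1 with h3 | h3
  · exact hne h3
  · have h4 := (List.pairwise_cons.1 h2).1 _ h3
    have h5 := h.itv t ht hbt (by rw [hst]; exact h1) a (by rw [hst]; exact List.mem_cons_self) h4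
    omega

private lemma sc_nonempty (h : Sc S b e R i st ρ par mx) {t : ℕ} (ht : t ∈ S) (hbt : b t < i)
    (hi : e t = i) : st ≠ [] := by
  intro h0
  have h1 := h.act t ht hbt (by omega)
  rw [h0] at h1
  simp at h1

private lemma sc_two (h : Sc S b e R i st ρ par mx) {t : ℕ} (ht : t ∈ S) (hbt : b t < i)
    (hi : e t = i) {a : ℕ} {l : List ℕ} (hst : st = a :: l) (ha : b t < b a) : l ≠ [] := by
  intro h0
  have h1 := h.act t ht hbt (by omega)
  rw [hst, h0, List.mem_singleton] at h1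
  have h2 := (h.rt t ht hbt).2.1
  rw [h1] at h2
  omega

/-- a class on the stack above the chord that ends at position `i` is connected to this chord -/
private lemma sc_conn (H : Chd S b e R) (h : Sc S b e R i st ρ par mx) {t : ℕ} (ht : t ∈ S)
    (hi : e t = i) {a : ℕ} (ha : a ∈ st) (hab : b t < b a) : R a t := by
  obtain ⟨c, hc, h1, h2, h3⟩ := h.mxe a ha
  have h4 := h.opn a ha
  have h5 := h.rt c hc h1
  rw [h2] at h5
  have h6 : c ≠ t := fun h7 => by
    rw [h7] at h5; omega
  have h7 : e c ≠ e t := fun h8 => h6 (H.einj c hc t ht h8)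
  have h8 := H.cross t ht c hc (by omega) (by omega) (by omega)
  exact H.trans _ _ _ (H.symm _ _ h5.2.2) (H.symm _ _ h8)

/-- merge the two top classes -/
private lemma sc_merge (H : Chd S b e R) {a a' : ℕ} {l : List ℕ}
    (h : Sc S b e R i (a :: a' :: l) ρ par mx) {t : ℕ} (ht : t ∈ S)
    (hbt : b t < i) (hi : e t = i) (hab : b t < b a) :
    Sc S b e R i (a' :: l) (fun c => if ρ c = a then a' else ρ c) (Function.update par a a')
      (Function.update mx a' (max (mx a') (mx a))) := by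
  have hsrt := List.pairwise_cons.1 h.srt
  have hsrt' := List.pairwise_cons.1 hsrt.2
  have hba : b a' < b a := hsrt.1 a' List.mem_cons_self
  have hne : ∀ s ∈ a' :: l, s ≠ a := fun s hs h1 => by
    have := hsrt.1 s hs
    rw [h1] at this; omega
  have haa' : a' ≠ a := hne a' List.mem_cons_self
  have hne' : ∀ s ∈ l, s ≠ a' := fun s hs h1 => by
    have := hsrt'.1 s hs
    rw [h1] at this; omega
  have hconn : R a a' := by
    have h1 := sc_conn H h ht hi List.mem_cons_self hab
    by_cases h2 : b t < b a'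
    · have h3 := sc_conn H h ht hi (List.mem_cons_of_mem _ List.mem_cons_self) h2
      exact H.trans _ _ _ h1 (H.symm _ _ h3)
    · -- `a'` is the root of `t`
      have h3 := h.act t ht hbt (by omega)
      have h4 : ρ t = a' := by
        have h5 := (h.rt t ht hbt).2.1
        rcases List.mem_cons.1 h3 with h6 | h6
        · rw [h6] at h5; omega
        · rcases List.mem_cons.1 h6 with h7 | h7
          · exact h7
          · have h8 := hsrt'.1 _ h7
            have h9 := h.itv t ht hbt h3 a' (List.mem_cons_of_mem _ List.mem_cons_self) h8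
            omega
      have h5 := (h.rt t ht hbt).2.2
      rw [h4] at h5
      exact H.trans _ _ _ h1 h5
  have haS := h.stS a List.mem_cons_self
  have haS' := h.stS a' (List.mem_cons_of_mem _ List.mem_cons_self)
  refine ⟨?_, hsrt.2, ?_, ?_, ?_, ?_, ?_, ?_, ?_, ?_⟩
  · intro s hs
    have h1 := h.stS s (List.mem_cons_of_mem _ hs)
    refine ⟨h1.1, h1.2.1, ?_⟩
    rw [h1.2.2, if_neg (hne s hs)]
  · intro s hs c hc h1 h2
    split_ifs at h2 with h3
    · subst h2
      rw [Function.update_self]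
      exact le_max_of_le_right (h.mxl a List.mem_cons_self c hc h1 h3)
    · rcases List.mem_cons.1 hs with h4 | h4
      · subst h4
        rw [Function.update_self]
        exact le_max_of_le_left (h.mxl _ (List.mem_cons_of_mem _ List.mem_cons_self) c hc h1 h2)
      · rw [Function.update_of_ne (hne' s h4)]
        exact h.mxl s (List.mem_cons_of_mem _ hs) c hc h1 h2
  · intro s hs
    rcases List.mem_cons.1 hs with h4 | h4
    · subst h4
      rw [Function.update_self]
      rcases le_total (mx s) (mx a) with h5 | h5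
      · rw [max_eq_right h5]
        obtain ⟨c, hc, h6, h7, h8⟩ := h.mxe a List.mem_cons_self
        exact ⟨c, hc, h6, by rw [if_pos h7], h8⟩
      · rw [max_eq_left h5]
        obtain ⟨c, hc, h6, h7, h8⟩ := h.mxe s (List.mem_cons_of_mem _ List.mem_cons_self)
        exact ⟨c, hc, h6, by rw [h7, if_neg haa'], h8⟩
    · rw [Function.update_of_ne (hne' s h4)]
      obtain ⟨c, hc, h6, h7, h8⟩ := h.mxe s (List.mem_cons_of_mem _ hs)
      exact ⟨c, hc, h6, by rw [h7, if_neg (hne s hs)], h8⟩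
  · intro s hs
    rcases List.mem_cons.1 hs with h4 | h4
    · subst h4
      rw [Function.update_self]
      exact le_max_of_le_left (h.opn _ (List.mem_cons_of_mem _ List.mem_cons_self))
    · rw [Function.update_of_ne (hne' s h4)]
      exact h.opn s (List.mem_cons_of_mem _ hs)
  · intro c hc h1
    have h2 := h.rt c hc h1
    split_ifs with h3
    · rw [h3] at h2
      exact ⟨haS'.1, by omega, H.trans _ _ _ h2.2.2 hconn⟩
    · exact h2
  · intro c hc h1 h2
    have h3 := h.act c hc h1 h2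
    split_ifs with h4
    · exact List.mem_cons_self
    · rcases List.mem_cons.1 h3 with h5 | h5
      · exact absurd h5 h4
      · exact h5
  · intro c hc h1 h2 s hs h3
    split_ifs at h2 h3 with h4
    · exfalso
      rcases List.mem_cons.1 hs with h5 | h5
      · rw [h5] at h3; omega
      · have := hsrt'.1 s h5
        omega
    · exact h.itv c hc h1 (List.mem_cons_of_mem _ h2) s (List.mem_cons_of_mem _ hs) h3
  · intro c hc h1
    by_cases hca : c = a
    · subst hca
      right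
      rw [Function.update_self]
      refine ⟨haS'.1, hba, ?_⟩
      rw [haS.2.2, haS'.2.2, if_neg haa', if_pos rfl]
    · rw [Function.update_of_ne hca]
      rcases h.pr c hc h1 with h5 | ⟨h5, h6, h7⟩
      · left
        rw [h5.2, if_neg hca]
        exact ⟨h5.1, rfl⟩
      · right
        rw [h7]
        exact ⟨h5, h6, rfl⟩
  · intro c hc d hd h1 h2 h3 h4
    have := h.cmp c hc d hd h1 h2 h3 h4
    rw [this]

/-- second end of chord `t`, after the merging -/
private lemma sc_end (H : Chd S b e R) {a : ℕ} {l : List ℕ}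
    (h : Sc S b e R i (a :: l) ρ par mx) {t : ℕ} (ht : t ∈ S)
    (hbt : b t < i) (hi : e t = i) (hab : b a ≤ b t) :
    Sc S b e R (i + 1) (if i < mx a then a :: l else l) ρ par mx := by
  have hb : ∀ c ∈ S, b c < i + 1 → b c < i := fun c hc h1 => by
    have := H.be c hc t ht
    omega
  have hsrt := List.pairwise_cons.1 h.srt
  have hroot := sc_root h ht hbt hi rfl hab
  have hsub : ∀ s ∈ (if i < mx a then a :: l else l), s ∈ a :: l := by
    intro s hs
    split_ifs at hs
    · exact hs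
    · exact List.mem_cons_of_mem _ hs
  have hopn : ∀ s ∈ l, i < mx s := by
    intro s hs
    obtain ⟨c, hc, h1, h2, h3⟩ := h.mxe s (List.mem_cons_of_mem _ hs)
    have h4 := h.opn s (List.mem_cons_of_mem _ hs)
    have h5 : mx s ≠ i := by
      intro h6
      have h7 : c = t := H.einj c hc t ht (by omega)
      rw [h7, hroot] at h2
      have := hsrt.1 s hs
      rw [h2] at this; omega
    omega
  refine ⟨?_, ?_, ?_, ?_, ?_, ?_, ?_, ?_, ?_, ?_⟩
  · intro s hs
    have := h.stS s (hsub s hs)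
    exact ⟨this.1, by omega, this.2.2⟩
  · split_ifs
    · exact h.srt
    · exact hsrt.2
  · intro s hs c hc h1 h2
    exact h.mxl s (hsub s hs) c hc (hb c hc h1) h2
  · intro s hs
    obtain ⟨c, hc, h1, h2⟩ := h.mxe s (hsub s hs)
    exact ⟨c, hc, by omega, h2⟩
  · intro s hs
    split_ifs at hs with h1
    · rcases List.mem_cons.1 hs with h2 | h2
      · rw [h2]; omega
      · exact hopn s h2
    · exact hopn s hs
  · intro c hc h1
    exact h.rt c hc (hb c hc h1)
  · intro c hc h1 h2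
    have h3 := h.act c hc (hb c hc h1) (by omega)
    split_ifs with h4
    · exact h3
    · rcases List.mem_cons.1 h3 with h5 | h5
      · have := h.mxl a List.mem_cons_self c hc (hb c hc h1) h5
        omega
      · exact h5
  · intro c hc h1 h2 s hs h3
    exact h.itv c hc (hb c hc h1) (hsub _ h2) s (hsub s hs) h3
  · intro c hc h1
    exact h.pr c hc (hb c hc h1)
  · intro c hc d hd h1 h2 h3 h4
    by_cases h5 : e c < i
    · exact h.cmp c hc d hd h1 h2 h3 h5
    · have h6 : c = t := H.einj c hc t ht (by omega)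
      subst h6
      have h7 := h.act d hd (by omega) (by omega)
      by_contra hne
      rw [hroot] at hne
      rcases List.mem_cons.1 h7 with h8 | h8
      · exact hne h8.symm
      · have h9 := hsrt.1 _ h8
        have h10 := h.itv d hd (by omega) h7 a List.mem_cons_self h9
        omega

/-- at the end of the scan -/
private lemma sc_fin (h : Sc S b e R i st ρ par mx) (he : ∀ t ∈ S, e t < i) :
    ∀ c ∈ S, ∀ d ∈ S, b c < b d → b d < e c → e c < e d → ρ c = ρ d :=
  fun c hc d hd h1 h2 h3 => h.cmp c hc d hd h1 h2 h3 (he c hc)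

end

/-! ### chords of a layout -/

private def bg (w : Lay) (t : ℕ) : ℕ := min (w.pos (2 * t)) (w.pos (2 * t + 1))
private def en (w : Lay) (t : ℕ) : ℕ := max (w.pos (2 * t)) (w.pos (2 * t + 1))

private lemma mat_ne {w : Lay} {L t u : ℕ} (hg : w.Good L) (ht : 2 * t + 1 < L)
    (hu : 2 * u + 1 < L) (htu : t ≠ u) : w.mat t u ≠ 0 ↔
      (bg w t < bg w u ∧ bg w u < en w t ∧ en w t < en w u) ∨
        (bg w u < bg w t ∧ bg w t < en w u ∧ en w u < en w t) := by
  have h1 : w.pos (2 * t) ≠ w.pos (2 * t + 1) := fun h => by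
    have := hg.inj _ _ (by omega) ht h; omega
  have h2 : w.pos (2 * u) ≠ w.pos (2 * u + 1) := fun h => by
    have := hg.inj _ _ (by omega) hu h; omega
  have h3 : w.pos (2 * t) ≠ w.pos (2 * u) := fun h => by
    have := hg.inj _ _ (by omega) (by omega) h; omega
  have h4 : w.pos (2 * t) ≠ w.pos (2 * u + 1) := fun h => by
    have := hg.inj _ _ (by omega) (by omega) h; omega
  have h5 : w.pos (2 * t + 1) ≠ w.pos (2 * u) := fun h => by
    have := hg.inj _ _ (by omega) (by omega) h; omega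
  have h6 : w.pos (2 * t + 1) ≠ w.pos (2 * u + 1) := fun h => by
    have := hg.inj _ _ (by omega) (by omega) h; omega
  simp only [Lay.mat, if_neg htu, Lay.cr, Lay.l, bg, en]
  split_ifs
  all_goals first | exact iff_of_true (by decide) (by omega) | exact iff_of_false (by decide) (by omega)

private lemma adj_symm {w : Lay} {L : ℕ} (hg : w.Good L) {S : Finset ℕ}
    (hS : ∀ t ∈ S, 2 * t + 1 < L) {a b : ℕ} : Adj w S a b → Adj w S b a := by
  rintro ⟨ha, hb, hab, h⟩
  refine ⟨hb, ha, hab.symm, ?_⟩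
  rwa [Lay.mat_comm hg (hS a ha) (hS b hb)]

private lemma chd {w : Lay} {L : ℕ} (hg : w.Good L) {S : Finset ℕ}
    (hS : ∀ t ∈ S, 2 * t + 1 < L) : Chd S (bg w) (en w) (Cn w S) := by
  have hne : ∀ t ∈ S, ∀ u ∈ S, t ≠ u → w.pos (2 * t) ≠ w.pos (2 * u) ∧
      w.pos (2 * t) ≠ w.pos (2 * u + 1) ∧ w.pos (2 * t + 1) ≠ w.pos (2 * u) ∧
      w.pos (2 * t + 1) ≠ w.pos (2 * u + 1) := by
    intro t ht u hu htu
    have h1 := hS t ht
    have h2 := hS u hu
    refine ⟨fun h => ?_, fun h => ?_, fun h => ?_, fun h => ?_⟩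
    all_goals
      have := hg.inj _ _ (by omega) (by omega) h
      omega
  have hne' : ∀ t ∈ S, w.pos (2 * t) ≠ w.pos (2 * t + 1) := by
    intro t ht h
    have h1 := hS t ht
    have := hg.inj _ _ (by omega) h1 h
    omega
  refine ⟨?_, ?_, ?_, ?_, fun t => Relation.ReflTransGen.refl,
    fun t u h => by
      induction h with
      | refl => exact Relation.ReflTransGen.refl
      | tail _ h1 ih => exact Relation.ReflTransGen.head (adj_symm hg hS h1) ih,
    fun t u v h h' => Relation.ReflTransGen.trans h h', ?_⟩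
  · intro t ht u hu h
    by_contra htu
    have h1 := hne t ht u hu htu
    simp only [bg] at h
    omega
  · intro t ht u hu h
    by_contra htu
    have h1 := hne t ht u hu htu
    simp only [en] at h
    omega
  · intro t ht u hu h
    simp only [bg, en] at h
    by_cases htu : t = u
    · subst htu
      have := hne' t ht
      omega
    · have h1 := hne t ht u hu htu
      omega
  · intro t ht
    have := hne' t ht
    simp only [bg, en]
    omega
  · intro t ht u hu h1 h2 h3
    have htu : t ≠ u := fun h => by rw [h] at h1; omega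
    exact Relation.ReflTransGen.single ⟨ht, hu, htu,
      (mat_ne hg (hS t ht) (hS u hu) htu).2 (Or.inl ⟨h1, h2, h3⟩)⟩

/-- functions that agree on crossing chords agree on components -/
private lemma eq_of_cn {w : Lay} {L : ℕ} (hg : w.Good L) {S : Finset ℕ}
    (hS : ∀ t ∈ S, 2 * t + 1 < L) {f : ℕ → ℕ}
    (hf : ∀ c ∈ S, ∀ d ∈ S, bg w c < bg w d → bg w d < en w c → en w c < en w d → f c = f d)
    {t u : ℕ} (h : Cn w S t u) : f t = f u := by
  induction h with
  | refl => rfl
  | tail _ h1 ih =>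
    rw [ih]
    obtain ⟨ha, hb, hab, hm⟩ := h1
    rcases (mat_ne hg (hS _ ha) (hS _ hb) hab).1 hm with h2 | h2
    · exact hf _ ha _ hb h2.1 h2.2.1 h2.2.2
    · exact (hf _ hb _ ha h2.1 h2.2.1 h2.2.2).symm

/-! ### stacks in arrays -/

private def Stk (a : ℕ → ℕ) : List ℕ → Prop
  | [] => True
  | v :: l => a l.length = v ∧ Stk a l

private lemma stk_congr {a a' : ℕ → ℕ} : ∀ {l : List ℕ}, (∀ j, j < l.length → a' j = a j) →
    Stk a l → Stk a' l
  | [], _, _ => trivial
  | v :: l, h, hs => ⟨by rw [h _ (by simp)]; exact hs.1,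
      stk_congr (fun j hj => h j (by simp only [List.length_cons]; omega)) hs.2⟩

private lemma arr_same (s : St) (k i v : ℕ) :
    (s.setArr k i v).arr k = Function.update (s.arr k) i v := by
  funext j
  by_cases h : j = i
  · subst h; simp
  · simp [h]

private lemma arr_other (s : St) {k k' : ℕ} (i v : ℕ) (h : k' ≠ k) :
    (s.setArr k i v).arr k' = s.arr k' := by
  funext j
  simp [h]

/-! ### counting loops with a potential -/

section
variable {M lam : ℕ} {inp : ℕ → ℕ}

private theorem forN_pot {i n : ℕ} {body : XStm} {N c : ℕ} (I : ℕ → St → AQ → ℕ → Prop)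
    (hN : N + 1 < M) (hin : i ≠ n) (hb1 : i ∉ Stm.wr body) (hb2 : n ∉ Stm.wr body)
    (hI : ∀ j s q v P, I j s q P → I j (s.setReg i v) q P)
    (hstep : ∀ j s q P, j < N → I j s q P → s.reg i = j → s.reg n = N →
      ∃ s' q' k P', XRun M inp lam body (s, q) (s', q') k ∧ I (j + 1) s' q' P' ∧ k + P' ≤ c + P)
    {s : St} {q : AQ} {P0 : ℕ} (h0 : I 0 s q P0) (hn : s.reg n = N) :
    ∃ s' q' k P', XRun M inp lam (forN i n body) (s, q) (s', q') k ∧ I N s' q' P' ∧
      k + P' ≤ (c + 8) * N + 6 + P0 := by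
  have hzero : (0 : ℕ) < M := by omega
  set s0 := s.setReg i 0 with hs0
  have r1 : XRun M inp lam (.set i (.c 0)) (s, q) (s0, q) 2 := .set s q i (.c 0) hzero
  have key : ∀ g s k, (∃ j P, g = N - j ∧ j ≤ N ∧ I j s.1 s.2 P ∧ s.1.reg i = j ∧ s.1.reg n = N ∧
      k + P ≤ (c + 8) * j + P0) →
      ∃ s' k', XRun M inp lam (.whl (.lt (.r i) (.r n)) (.seq body (.set i (.add (.r i) (.c 1)))))
        s s' k' ∧ ∃ g' kk, (∃ j P, g' = N - j ∧ j ≤ N ∧ I j s'.1 s'.2 P ∧ s'.1.reg i = j ∧
          s'.1.reg n = N ∧ kk + P ≤ (c + 8) * j + P0) ∧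
          ¬ (Co.lt (.r i) (.r n)).Holds inp s'.1 ∧
          kk + ((Co.lt (.r i) (.r n)).sz + 1) = k + k' := by
    apply run_whl M inp (opS lam)
      (I := fun (g : ℕ) s k => ∃ j P, g = N - j ∧ j ≤ N ∧ I j s.1 s.2 P ∧ s.1.reg i = j ∧
        s.1.reg n = N ∧ k + P ≤ (c + 8) * j + P0) (μ := fun g => g)
    rintro g ⟨s, q⟩ k ⟨j, P, hg, hj, hIj, hi, hn', hk⟩
    refine ⟨⟨trivial, trivial⟩, fun hlt => ?_⟩
    have hjN : j < N := by
      simp only [Co.Holds, Ex.eval] at hlt
      simp only at hi hn'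
      omega
    obtain ⟨s', q', k', P', hr, hI', hc⟩ := hstep j s q P hjN hIj hi hn'
    have fr := run_frame hr
    have e1 : s'.reg i = j := by rw [fr.2.1 i hb1]; exact hi
    have e2 : s'.reg n = N := by rw [fr.2.1 n hb2]; exact hn'
    have r2 : XRun M inp lam (.set i (.add (.r i) (.c 1))) (s', q')
        (s'.setReg i (s'.reg i + 1), q') 4 := by
      have := Run.set (M := M) (inp := inp) (ps := opS lam) s' q' i (.add (.r i) (.c 1))
        ⟨trivial, by show 1 < M; omega, by simp only [Ex.eval]; omega⟩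
      simpa [Ex.eval, Ex.sz] using this
    refine ⟨_, _, .seq _ _ _ _ _ _ _ hr r2, N - (j + 1), ⟨j + 1, P', rfl, by omega,
      hI _ _ _ _ _ hI', ?_, ?_, ?_⟩, by omega⟩
    · simp [e1]
    · simp [Ne.symm hin, e2]
    · simp only [Co.sz, Ex.sz]
      have : (c + 8) * (j + 1) = (c + 8) * j + (c + 8) := by ring
      omega
  obtain ⟨⟨s', q'⟩, k', hr, g', kk, ⟨j, P, hg', hj, hIj, hi, hn', hkk⟩, hnot, hsum⟩ :=
    key N (s0, q) 0 ⟨0, P0, by omega, by omega, hI _ _ _ _ _ h0, by simp [hs0],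
      by simp [hs0, Ne.symm hin, hn], by omega⟩
  have hjN : j = N := by
    simp only [Co.Holds, Ex.eval] at hnot
    simp only at hi hn'
    omega
  subst hjN
  refine ⟨s', q', 2 + k', P, .seq _ _ _ _ _ _ _ r1 hr, hIj, ?_⟩
  simp only [Co.sz, Ex.sz] at hsum
  omega

/-! ### the blocks of the scan -/

/-- merge the two top entries -/
private def wb : XStm := blk [
  .set 17 (.sub (.r 17) (.c 1)), .set 16 (.ld 9 (.sub (.r 17) (.c 1))),
  .sto 7 (.r 15) (.r 16),
  .ite (.lt (.ld 8 (.r 16)) (.ld 8 (.r 15))) (.sto 8 (.r 16) (.ld 8 (.r 15))) .skip,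
  .set 15 (.r 16)]

private lemma wb_run {a a' : ℕ} {l : List ℕ} (hM : 2 ≤ M) {s : St} (q : AQ) (h15 : s.reg 15 = a)
    (h17 : s.reg 17 = l.length + 2) (hstk : Stk (s.arr 9) (a :: a' :: l)) :
    ∃ s' k, XRun M inp lam wb (s, q) (s', q) k ∧ s'.reg 15 = a' ∧ s'.reg 17 = l.length + 1 ∧
      s'.arr 7 = Function.update (s.arr 7) a a' ∧
      s'.arr 8 = Function.update (s.arr 8) a' (max (s.arr 8 a') (s.arr 8 a)) ∧ k ≤ 40 := by
  have h9 : s.arr 9 l.length = a' := hstk.2.1
  have h := wp_run M inp (opS lam) wb (fun s' k => s'.2 = q ∧ s'.1.reg 15 = a' ∧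
    s'.1.reg 17 = l.length + 1 ∧ s'.1.arr 7 = Function.update (s.arr 7) a a' ∧
    s'.1.arr 8 = Function.update (s.arr 8) a' (max (s.arr 8 a') (s.arr 8 a)) ∧ k ≤ 40) (s, q) (by
    simp [wb, blk, wp, Ex.Ok, Ex.eval, Co.Ok, Co.Holds, Ex.sz, Co.sz, h15, h17, h9]
    refine ⟨by omega, fun h => ⟨?_, ?_⟩, fun h => ⟨?_, ?_⟩⟩
    · rw [arr_other _ _ _ (by decide), arr_same]
      rfl
    · rw [arr_same, max_eq_right h.le, arr_other _ _ _ (by decide)]
      rfl
    · rw [arr_same]
      rfl
    · rw [arr_other _ _ _ (by decide), max_eq_left h, Function.update_eq_self]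
      rfl)
  obtain ⟨⟨s', q'⟩, k, h1, h2, h3⟩ := h
  simp only at h2 h3
  subst h2
  exact ⟨s', k, h1, h3⟩

section
variable {S : Finset ℕ} {b e : ℕ → ℕ} {R : ℕ → ℕ → Prop} {i : ℕ}

private lemma merge_run (H : Chd S b e R) (hM : 2 ≤ M) {t : ℕ} (ht : t ∈ S) (hbt : b t < i)
    (hi : e t = i) {s : St} (q : AQ) {a : ℕ} {l : List ℕ} {ρ : ℕ → ℕ}
    (h : Sc S b e R i (a :: l) ρ (s.arr 7) (s.arr 8)) (h15 : s.reg 15 = a)
    (h17 : s.reg 17 = l.length + 1) (hstk : Stk (s.arr 9) (a :: l)) (h14 : s.reg 14 = b t)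
    (h28 : ∀ c ∈ S, b c < i → s.arr 28 c = b c) :
    ∃ s' k a' l' ρ', XRun M inp lam (.whl (.lt (.r 14) (.ld 28 (.r 15))) wb) (s, q) (s', q) k ∧
      Sc S b e R i (a' :: l') ρ' (s'.arr 7) (s'.arr 8) ∧ s'.reg 15 = a' ∧
      s'.reg 17 = l'.length + 1 ∧ Stk (s'.arr 9) (a' :: l') ∧ b a' ≤ b t ∧
      k + 50 * l'.length ≤ 10 + 50 * l.length := by
  have key := run_whl (M := M) (inp := inp) (ps := opS lam) (G := ℕ)
    (c := .lt (.r 14) (.ld 28 (.r 15))) (p := wb)
    (I := fun g s1 k => ∃ a1 l1 ρ1, g = l1.length ∧ s1.2 = q ∧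
      Sc S b e R i (a1 :: l1) ρ1 (s1.1.arr 7) (s1.1.arr 8) ∧ s1.1.reg 15 = a1 ∧
      s1.1.reg 17 = l1.length + 1 ∧ Stk (s1.1.arr 9) (a1 :: l1) ∧ s1.1.reg 14 = b t ∧
      (∀ c ∈ S, b c < i → s1.1.arr 28 c = b c) ∧ k + 50 * l1.length ≤ 50 * l.length)
    (μ := fun g => g) (by
    rintro g ⟨s1, q1⟩ k ⟨a1, l1, ρ1, hg, hq, hsc, e15, e17, estk, e14, e28, hk⟩
    simp only at hq hsc e15 e17 estk e14 e28
    subst hq
    refine ⟨⟨trivial, trivial⟩, fun hlt => ?_⟩
    simp only [Co.Holds, Ex.eval] at hlt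
    have ha1 := hsc.stS a1 List.mem_cons_self
    rw [e14, e15, e28 a1 ha1.1 ha1.2.1] at hlt
    have hl1 := sc_two hsc ht hbt hi rfl hlt
    obtain ⟨a2, l2, rfl⟩ := List.exists_cons_of_ne_nil hl1
    obtain ⟨s', k', hr, f15, f17, f7, f8, hk'⟩ := wb_run (inp := inp) (lam := lam) hM q1 e15
      (by rw [e17]; rfl) estk
    have fr := run_frame hr
    have f9 : s'.arr 9 = s1.arr 9 := fr.1 9 (by decide)
    have f28 : s'.arr 28 = s1.arr 28 := fr.1 28 (by decide)
    have f14 : s'.reg 14 = s1.reg 14 := fr.2.1 14 (by decide)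
    have hm := sc_merge H hsc ht hbt hi hlt
    refine ⟨(s', q1), k', hr, l2.length, ⟨a2, l2, fun c => if ρ1 c = a1 then a2 else ρ1 c, rfl, rfl,
      ?_, f15, f17, ?_, ?_, ?_, ?_⟩, ?_⟩
    · simp only
      rw [f7, f8]
      exact hm
    · simp only
      rw [f9]
      exact estk.2
    · simp only
      rw [f14, e14]
    · intro c hc h1
      simp only
      rw [f28]
      exact e28 c hc h1
    · simp only [Co.sz, Ex.sz]
      simp only [List.length_cons] at hk
      omega
    · rw [hg]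
      simp)
    l.length (s, q) 0 ⟨a, l, ρ, rfl, rfl, h, h15, h17, hstk, h14, h28, by omega⟩
  obtain ⟨⟨s', q'⟩, k', hr, g', kk, ⟨a1, l1, ρ1, hg, hq, hsc, e15, e17, estk, e14, e28, hk⟩, hnot,
    hsum⟩ := key
  simp only at hq hsc e15 e17 estk e14 e28
  subst hq
  refine ⟨s', k', a1, l1, ρ1, hr, hsc, e15, e17, estk, ?_, ?_⟩
  · simp only [Co.Holds, Ex.eval] at hnot
    have ha1 := hsc.stS a1 List.mem_cons_self
    rw [e14, e15, e28 a1 ha1.1 ha1.2.1] at hnot
    omega
  · simp only [Co.sz, Ex.sz] at hsum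
    omega

/-- second end of a chord -/
private def eb : XStm := blk [.set 15 (.ld 9 (.sub (.r 17) (.c 1))),
  .whl (.lt (.r 14) (.ld 28 (.r 15))) wb,
  .ite (.lt (.r 10) (.ld 8 (.r 15))) .skip (.set 17 (.sub (.r 17) (.c 1)))]

private lemma eb_run (H : Chd S b e R) (hM : 2 ≤ M) {t : ℕ} (ht : t ∈ S) (hbt : b t < i)
    (hi : e t = i) {s : St} (q : AQ) {st : List ℕ} {ρ : ℕ → ℕ}
    (h : Sc S b e R i st ρ (s.arr 7) (s.arr 8)) (h10 : s.reg 10 = i)
    (h17 : s.reg 17 = st.length) (hstk : Stk (s.arr 9) st) (h14 : s.reg 14 = b t)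
    (h28 : ∀ c ∈ S, b c < i → s.arr 28 c = b c) :
    ∃ s' k st' ρ', XRun M inp lam eb (s, q) (s', q) k ∧
      Sc S b e R (i + 1) st' ρ' (s'.arr 7) (s'.arr 8) ∧
      s'.reg 17 = st'.length ∧ Stk (s'.arr 9) st' ∧
      k + 50 * st'.length ≤ 40 + 50 * st.length := by
  obtain ⟨a, l, rfl⟩ := List.exists_cons_of_ne_nil (sc_nonempty h ht hbt hi)
  have h9 : s.arr 9 (s.reg 17 - 1) = a := by
    rw [h17]
    exact hstk.1
  obtain ⟨s2, k2, a', l', ρ', hr2, g1, g2, g3, g4, g5, g6⟩ :=
    merge_run (M := M) (lam := lam) (inp := inp) H hM ht hbt hi (s := s.setReg 15 a) q h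
      (by simp) (by simp [h17]) hstk (by simp [h14]) h28
  have hend := sc_end H g1 ht hbt hi g5
  have fr2 := run_frame hr2
  have f10 : s2.reg 10 = i := by
    have := fr2.2.1 10 (by decide)
    simpa [h10] using this
  have r1 : XRun M inp lam (.set 15 (.ld 9 (.sub (.r 17) (.c 1)))) (s, q) (s.setReg 15 a, q) 5 := by
    have := Run.set (M := M) (inp := inp) (ps := opS lam) s q 15 (.ld 9 (.sub (.r 17) (.c 1)))
      ⟨trivial, by show 1 < M; omega, by simp only [Ex.eval]; rw [h17]; simp⟩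
    simpa [Ex.eval, Ex.sz, h9] using this
  by_cases hlt : i < s2.arr 8 a'
  · rw [if_pos hlt] at hend
    have r3 : XRun M inp lam (.ite (.lt (.r 10) (.ld 8 (.r 15))) .skip
        (.set 17 (.sub (.r 17) (.c 1)))) (s2, q) (s2, q) 6 := by
      have := Run.ite_t (M := M) (inp := inp) (ps := opS lam) (.lt (.r 10) (.ld 8 (.r 15))) .skip
        (.set 17 (.sub (.r 17) (.c 1))) (s2, q) (s2, q) 1 ⟨trivial, trivial⟩
        (by simp only [Co.Holds, Ex.eval]; rw [f10, g2]; exact hlt) (.skip _)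
      simpa [Co.sz, Ex.sz] using this
    refine ⟨s2, _, a' :: l', ρ', .seq _ _ _ _ _ _ _ r1 (.seq _ _ _ _ _ _ _ hr2 r3), hend, ?_, g4,
      ?_⟩
    · rw [g3]; rfl
    · simp only [List.length_cons]
      omega
  · rw [if_neg hlt] at hend
    have r3 : XRun M inp lam (.ite (.lt (.r 10) (.ld 8 (.r 15))) .skip
        (.set 17 (.sub (.r 17) (.c 1)))) (s2, q) (s2.setReg 17 l'.length, q) 9 := by
      have := Run.ite_f (M := M) (inp := inp) (ps := opS lam) (.lt (.r 10) (.ld 8 (.r 15))) .skip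
        (.set 17 (.sub (.r 17) (.c 1))) (s2, q) (s2.setReg 17 l'.length, q) 4 ⟨trivial, trivial⟩
        (by simp only [Co.Holds, Ex.eval]; rw [f10, g2]; exact hlt) (by
          have := Run.set (M := M) (inp := inp) (ps := opS lam) s2 q 17 (.sub (.r 17) (.c 1))
            ⟨trivial, by show 1 < M; omega, by simp only [Ex.eval]; rw [g3]; omega⟩
          simpa [Ex.eval, Ex.sz, g3] using this)
      simpa [Co.sz, Ex.sz] using this
    refine ⟨s2.setReg 17 l'.length, _, l', ρ', .seq _ _ _ _ _ _ _ r1 (.seq _ _ _ _ _ _ _ hr2 r3),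
      hend, ?_, g4.2, ?_⟩
    · simp
    · simp only [List.length_cons]
      omega

/-- first end of a chord -/
private def pb : XStm := blk [.sto 9 (.r 17) (.r 12), .set 17 (.add (.r 17) (.c 1)),
  .sto 7 (.r 12) (.r 12), .sto 8 (.r 12) (.r 14), .sto 28 (.r 12) (.r 10)]

private lemma pb_run (H : Chd S b e R) {t : ℕ} (ht : t ∈ S)
    (hi : b t = i) {s : St} (q : AQ) {st : List ℕ} {ρ : ℕ → ℕ} (hM : st.length + 2 ≤ M)
    (h : Sc S b e R i st ρ (s.arr 7) (s.arr 8)) (h10 : s.reg 10 = i) (h12 : s.reg 12 = t)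
    (h17 : s.reg 17 = st.length) (hstk : Stk (s.arr 9) st) (h14 : s.reg 14 = e t)
    (h28 : ∀ c ∈ S, b c < i → s.arr 28 c = b c) :
    ∃ s' k st' ρ', XRun M inp lam pb (s, q) (s', q) k ∧
      Sc S b e R (i + 1) st' ρ' (s'.arr 7) (s'.arr 8) ∧
      s'.reg 17 = st'.length ∧ Stk (s'.arr 9) st' ∧ (∀ c ∈ S, b c < i + 1 → s'.arr 28 c = b c) ∧
      k + 50 * st'.length ≤ 80 + 50 * st.length := by
  have hw := wp_run M inp (opS lam) pb (fun s' k => s'.2 = q ∧
    s'.1.reg 17 = st.length + 1 ∧ s'.1.arr 7 = Function.update (s.arr 7) t t ∧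
    s'.1.arr 8 = Function.update (s.arr 8) t (e t) ∧
    s'.1.arr 9 = Function.update (s.arr 9) st.length t ∧
    s'.1.arr 28 = Function.update (s.arr 28) t i ∧ k ≤ 30) (s, q) (by
    simp [pb, blk, wp, Ex.Ok, Ex.eval, Ex.sz, h17, h12, h14, h10]
    refine ⟨⟨by omega, by omega⟩, ?_, ?_, ?_, ?_⟩
    · rw [arr_other _ _ _ (by decide), arr_other _ _ _ (by decide), arr_same]
      funext j; simp [Function.update_apply]
    · rw [arr_other _ _ _ (by decide), arr_same]
      funext j; simp [Function.update_apply]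
    · funext j; simp [Function.update_apply]
    · rw [arr_same]
      funext j; simp [Function.update_apply])
  obtain ⟨⟨s', q'⟩, k, hr, hq, e17, e7, e8, e9, e28, hk⟩ := hw
  simp only at hq e17 e7 e8 e9 e28
  subst hq
  have hsc := sc_push H h ht hi
  refine ⟨s', k, t :: st, Function.update ρ t t, hr, ?_, ?_, ?_, ?_, ?_⟩
  · rw [e7, e8]
    exact hsc
  · rw [e17]; rfl
  · refine ⟨?_, ?_⟩
    · rw [e9, Function.update_self]
    · apply stk_congr _ hstk
      intro j hj
      rw [e9, Function.update_of_ne (by omega)]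
  · intro c hc h1
    rw [e28]
    by_cases hct : c = t
    · subst hct
      rw [Function.update_self, hi]
    · rw [Function.update_of_ne hct]
      apply h28 c hc
      have : b c ≠ b t := fun h3 => hct (H.binj c hc t ht h3)
      omega
  · simp only [List.length_cons]
    omega

end

/-- state of the scan before position `j` -/
private structure SI (w : Lay) (n : ℕ) (S : Finset ℕ) (j : ℕ) (s : St) (st : List ℕ)
    (ρ : ℕ → ℕ) : Prop where
  sc : Sc S (bg w) (en w) (Cn w S) j st ρ (s.arr 7) (s.arr 8)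
  r17 : s.reg 17 = st.length
  stk : Stk (s.arr 9) st
  a28 : ∀ c ∈ S, bg w c < j → s.arr 28 c = bg w c
  pos : ArrPos (2 * (n + 1)) s w
  al : Alive (n + 1) s S

/-- body of the first scan -/
private def sb : XStm := blk [.set 11 (.ld 4 (.r 10)), .set 12 (.half (.r 11)),
  .ite (.eq (.ld 5 (.r 12)) (.c 1))
    (blk [.set 14 (.ld 3 (mt (.r 12) (.r 11))), .ite (.lt (.r 10) (.r 14)) pb eb]) .skip]

private lemma surj {w : Lay} {L : ℕ} (hg : w.Good L) {p : ℕ} (hp : p < L) :
    ∃ x, x < L ∧ w.pos x = p := by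
  have h1 : Set.MapsTo w.pos (Finset.range L : Set ℕ) (Finset.range L : Set ℕ) := by
    intro x hx
    simp only [Finset.coe_range, Set.mem_Iio] at hx ⊢
    exact hg.lt x hx
  have h2 : Set.InjOn w.pos (Finset.range L : Set ℕ) := by
    intro x hx y hy h
    simp only [Finset.coe_range, Set.mem_Iio] at hx hy
    exact hg.inj x y hx hy h
  have h3 := Finset.surjOn_of_injOn_of_card_le w.pos h1 h2 le_rfl
  have h4 : p ∈ (Finset.range L : Set ℕ) := by simpa using hp
  obtain ⟨x, hx, hxp⟩ := h3 h4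
  exact ⟨x, by simpa using hx, hxp⟩

/-- the chord at a position -/
private lemma node_cases {w : Lay} {n j : ℕ} (hg : w.Good (2 * (n + 1))) (hj : j < 2 * (n + 1)) :
    ∃ x y t, x < 2 * (n + 1) ∧ y < 2 * (n + 1) ∧ x / 2 = t ∧ t < n + 1 ∧ 4 * t + 1 - x = y ∧
      x ≤ 4 * t + 1 ∧ w.pos x = j ∧
      ((j < w.pos y ∧ bg w t = j ∧ en w t = w.pos y) ∨
        (¬ j < w.pos y ∧ bg w t = w.pos y ∧ w.pos y < j ∧ en w t = j)) ∧
      ∀ u, u < n + 1 → u ≠ t → bg w u ≠ j ∧ en w u ≠ j := by
  obtain ⟨x, hx, hxj⟩ := surj hg hj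
  have hy : 4 * (x / 2) + 1 - x < 2 * (n + 1) := by omega
  refine ⟨x, 4 * (x / 2) + 1 - x, x / 2, hx, hy, rfl, by omega, rfl, by omega, hxj, ?_, ?_⟩
  · have hne : w.pos (4 * (x / 2) + 1 - x) ≠ j := by
      intro h
      have := hg.inj _ _ hy hx (h.trans hxj.symm)
      omega
    have h0 : x = 2 * (x / 2) ∨ x = 2 * (x / 2) + 1 := by omega
    generalize hz : x / 2 = z at h0 hne ⊢
    rcases h0 with h0 | h0
    · subst h0
      have e1 : 4 * z + 1 - 2 * z = 2 * z + 1 := by omega
      rw [e1] at hne ⊢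
      simp only [bg, en, hxj]
      omega
    · subst h0
      have e1 : 4 * z + 1 - (2 * z + 1) = 2 * z := by omega
      rw [e1] at hne ⊢
      simp only [bg, en, hxj]
      omega
  · intro u hu hut
    have h1 : w.pos (2 * u) ≠ j := by
      intro h
      have := hg.inj _ _ (by omega) hx (h.trans hxj.symm)
      omega
    have h2 : w.pos (2 * u + 1) ≠ j := by
      intro h
      have := hg.inj _ _ (by omega) hx (h.trans hxj.symm)
      omega
    simp only [bg, en]
    omega

private lemma len_le {w : Lay} {n j : ℕ} {S : Finset ℕ} (hS : ∀ t ∈ S, t < n + 1) {st : List ℕ}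
    {ρ par mx : ℕ → ℕ} (h : Sc S (bg w) (en w) (Cn w S) j st ρ par mx) : st.length ≤ n + 1 := by
  have h1 : st.Nodup := by
    refine h.srt.imp ?_
    intro a b hab h2
    rw [h2] at hab
    omega
  have h2 : st.toFinset ⊆ Finset.range (n + 1) := by
    intro x hx
    rw [Finset.mem_range]
    exact hS x (h.stS x (List.mem_toFinset.1 hx)).1
  have h3 := Finset.card_le_card h2
  rwa [Finset.card_range, List.toFinset_card_of_nodup h1] at h3

private lemma sb_run {w : Lay} {n j : ℕ} {S : Finset ℕ} (hM : 16 * (n + 1) ≤ M)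
    (hg : w.Good (2 * (n + 1))) (hS : ∀ t ∈ S, t < n + 1) (hj : j < 2 * (n + 1)) {s : St} (q : AQ)
    {st : List ℕ} {ρ : ℕ → ℕ} (h : SI w n S j s st ρ) (h10 : s.reg 10 = j) :
    ∃ s' k st' ρ', XRun M inp lam sb (s, q) (s', q) k ∧ SI w n S (j + 1) s' st' ρ' ∧
      k + 50 * st'.length ≤ 130 + 50 * st.length := by
  have H : Chd S (bg w) (en w) (Cn w S) := chd hg (fun t ht => by have := hS t ht; omega)
  obtain ⟨x, y, t, hx, hy, hxt, ht, hxy, hxy', hxj, hcase, hne⟩ := node_cases hg hj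
  have a4 : s.arr 4 j = x := by
    have := (h.pos x hx).2
    rwa [hxj] at this
  have a3 : s.arr 3 y = w.pos y := (h.pos y hy).1
  have r1 : XRun M inp lam (.set 11 (.ld 4 (.r 10))) (s, q) (s.setReg 11 x, q) 3 := by
    have := Run.set (M := M) (inp := inp) (ps := opS lam) s q 11 (.ld 4 (.r 10)) trivial
    simpa [Ex.eval, Ex.sz, h10, a4] using this
  have r2 : XRun M inp lam (.set 12 (.half (.r 11))) (s.setReg 11 x, q)
      ((s.setReg 11 x).setReg 12 t, q) 3 := by
    have := Run.set (M := M) (inp := inp) (ps := opS lam) (s.setReg 11 x) q 12 (.half (.r 11))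
      trivial
    simpa [Ex.eval, Ex.sz, hxt] using this
  have fin : ∀ s' k st' ρ', XRun M inp lam sb (s, q) (s', q) k →
      Sc S (bg w) (en w) (Cn w S) (j + 1) st' ρ' (s'.arr 7) (s'.arr 8) →
      s'.reg 17 = st'.length → Stk (s'.arr 9) st' →
      (∀ c ∈ S, bg w c < j + 1 → s'.arr 28 c = bg w c) → SI w n S (j + 1) s' st' ρ' := by
    intro s' k st' ρ' hr h1 h2 h3 h4
    have fr := run_frame hr
    refine ⟨h1, h2, h3, h4, ?_, ?_⟩
    · intro z hz
      rw [fr.1 3 (by decide), fr.1 4 (by decide)]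
      exact h.pos z hz
    · intro z hz
      rw [fr.1 5 (by decide)]
      exact h.al z hz
  by_cases htS : t ∈ S
  · have a5 : s.arr 5 t = 1 := (h.al t ht).2 htS
    have r3 : XRun M inp lam (.set 14 (.ld 3 (mt (.r 12) (.r 11)))) ((s.setReg 11 x).setReg 12 t, q)
        (((s.setReg 11 x).setReg 12 t).setReg 14 (w.pos y), q) 13 := by
      have := Run.set (M := M) (inp := inp) (ps := opS lam) ((s.setReg 11 x).setReg 12 t) q 14
        (.ld 3 (mt (.r 12) (.r 11))) (by
          simp only [mt, Ex.Ok, Ex.eval, reg_setReg]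
          simp
          omega)
      have e1 : t + t + (t + t) + 1 - x = y := by omega
      simpa [Ex.eval, Ex.sz, mt, e1, a3] using this
    rcases hcase with ⟨h1, h2, h3⟩ | ⟨h1, h2, h3, h4⟩
    · obtain ⟨s', k, st', ρ', hr, g1, g2, g3, g4, g5⟩ := pb_run (M := M) (lam := lam) (inp := inp)
        H htS h2 (s := ((s.setReg 11 x).setReg 12 t).setReg 14 (w.pos y)) q
        (by have := len_le hS h.sc; omega) h.sc (by simp [h10]) (by simp)
        (by simp [h.r17]) h.stk (by simp [h3]) h.a28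
      have r4 : XRun M inp lam (.ite (.lt (.r 10) (.r 14)) pb eb)
          (((s.setReg 11 x).setReg 12 t).setReg 14 (w.pos y), q) (s', q) (4 + k) := by
        have := Run.ite_t (M := M) (inp := inp) (ps := opS lam) (.lt (.r 10) (.r 14)) pb eb
          (((s.setReg 11 x).setReg 12 t).setReg 14 (w.pos y), q) (s', q) k ⟨trivial, trivial⟩
          (by simpa [Co.Holds, Ex.eval, h10] using h1) hr
        simpa [Co.sz, Ex.sz] using this
      have r5 : XRun M inp lam (.ite (.eq (.ld 5 (.r 12)) (.c 1))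
          (blk [.set 14 (.ld 3 (mt (.r 12) (.r 11))), .ite (.lt (.r 10) (.r 14)) pb eb]) .skip)
          ((s.setReg 11 x).setReg 12 t, q) (s', q) (5 + (13 + (4 + k))) := by
        have := Run.ite_t (M := M) (inp := inp) (ps := opS lam) (.eq (.ld 5 (.r 12)) (.c 1))
          (blk [.set 14 (.ld 3 (mt (.r 12) (.r 11))), .ite (.lt (.r 10) (.r 14)) pb eb]) .skip
          ((s.setReg 11 x).setReg 12 t, q) (s', q) _
          ⟨trivial, by show 1 < M; omega⟩
          (by simpa [Co.Holds, Ex.eval] using a5) (.seq _ _ _ _ _ _ _ r3 r4)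
        simpa [Co.sz, Ex.sz] using this
      have r6 : XRun M inp lam sb (s, q) (s', q) (3 + (3 + (5 + (13 + (4 + k))))) :=
        .seq _ _ _ _ _ _ _ r1 (.seq _ _ _ _ _ _ _ r2 r5)
      exact ⟨s', _, st', ρ', r6, fin _ _ _ _ r6 g1 g2 g3 g4, by omega⟩
    · obtain ⟨s', k, st', ρ', hr, g1, g2, g3, g5⟩ := eb_run (M := M) (lam := lam) (inp := inp)
        H (by omega) htS (by omega) h4
        (s := ((s.setReg 11 x).setReg 12 t).setReg 14 (w.pos y)) q
        h.sc (by simp [h10]) (by simp [h.r17]) h.stk (by simp [h2]) h.a28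
      have r4 : XRun M inp lam (.ite (.lt (.r 10) (.r 14)) pb eb)
          (((s.setReg 11 x).setReg 12 t).setReg 14 (w.pos y), q) (s', q) (4 + k) := by
        have := Run.ite_f (M := M) (inp := inp) (ps := opS lam) (.lt (.r 10) (.r 14)) pb eb
          (((s.setReg 11 x).setReg 12 t).setReg 14 (w.pos y), q) (s', q) k ⟨trivial, trivial⟩
          (by simpa [Co.Holds, Ex.eval, h10] using h1) hr
        simpa [Co.sz, Ex.sz] using this
      have r5 : XRun M inp lam (.ite (.eq (.ld 5 (.r 12)) (.c 1))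
          (blk [.set 14 (.ld 3 (mt (.r 12) (.r 11))), .ite (.lt (.r 10) (.r 14)) pb eb]) .skip)
          ((s.setReg 11 x).setReg 12 t, q) (s', q) (5 + (13 + (4 + k))) := by
        have := Run.ite_t (M := M) (inp := inp) (ps := opS lam) (.eq (.ld 5 (.r 12)) (.c 1))
          (blk [.set 14 (.ld 3 (mt (.r 12) (.r 11))), .ite (.lt (.r 10) (.r 14)) pb eb]) .skip
          ((s.setReg 11 x).setReg 12 t, q) (s', q) _
          ⟨trivial, by show 1 < M; omega⟩
          (by simpa [Co.Holds, Ex.eval] using a5) (.seq _ _ _ _ _ _ _ r3 r4)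
        simpa [Co.sz, Ex.sz] using this
      have r6 : XRun M inp lam sb (s, q) (s', q) (3 + (3 + (5 + (13 + (4 + k))))) :=
        .seq _ _ _ _ _ _ _ r1 (.seq _ _ _ _ _ _ _ r2 r5)
      have fr := run_frame hr
      refine ⟨s', _, st', ρ', r6, fin _ _ _ _ r6 g1 g2 g3 ?_, by omega⟩
      intro c hc hcj
      have h5 : s'.arr 28 = s.arr 28 := fr.1 28 (by decide)
      rw [h5]
      apply h.a28 c hc
      have := H.be c hc t htS
      omega
  · have a5 : s.arr 5 t ≠ 1 := fun h1 => htS ((h.al t ht).1 h1)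
    have r5 : XRun M inp lam (.ite (.eq (.ld 5 (.r 12)) (.c 1))
        (blk [.set 14 (.ld 3 (mt (.r 12) (.r 11))), .ite (.lt (.r 10) (.r 14)) pb eb]) .skip)
        ((s.setReg 11 x).setReg 12 t, q) ((s.setReg 11 x).setReg 12 t, q) 6 := by
      have := Run.ite_f (M := M) (inp := inp) (ps := opS lam) (.eq (.ld 5 (.r 12)) (.c 1))
        (blk [.set 14 (.ld 3 (mt (.r 12) (.r 11))), .ite (.lt (.r 10) (.r 14)) pb eb]) .skip
        ((s.setReg 11 x).setReg 12 t, q) ((s.setReg 11 x).setReg 12 t, q) 1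
        ⟨trivial, by show 1 < M; omega⟩
        (by simpa [Co.Holds, Ex.eval] using a5) (.skip _)
      simpa [Co.sz, Ex.sz] using this
    have r6 : XRun M inp lam sb (s, q) ((s.setReg 11 x).setReg 12 t, q) (3 + (3 + 6)) :=
      .seq _ _ _ _ _ _ _ r1 (.seq _ _ _ _ _ _ _ r2 r5)
    have hb : ∀ u ∈ S, bg w u ≠ j := fun u hu =>
      (hne u (hS u hu) (fun h1 => htS (h1 ▸ hu))).1
    have he : ∀ u ∈ S, en w u ≠ j := fun u hu =>
      (hne u (hS u hu) (fun h1 => htS (h1 ▸ hu))).2
    refine ⟨_, _, st, ρ, r6, fin _ _ _ _ r6 (sc_skip h.sc hb he) (by simp [h.r17]) h.stk ?_,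
      by omega⟩
    intro c hc hcj
    apply h.a28 c hc
    have := hb c hc
    omega

private lemma scan_run {w : Lay} {n : ℕ} {S : Finset ℕ} (hM : 16 * (n + 1) ≤ M)
    (hg : w.Good (2 * (n + 1))) (hS : ∀ t ∈ S, t < n + 1) {s : St} (q : AQ)
    (h2 : s.reg 2 = 2 * (n + 1)) (ha : ArrPos (2 * (n + 1)) s w) (hal : Alive (n + 1) s S) :
    ∃ s' k st ρ, XRun M inp lam pScan (s, q) (s', q) k ∧ SI w n S (2 * (n + 1)) s' st ρ ∧
      k ≤ 276 * (n + 1) + 8 := by
  have r1 : XRun M inp lam (.set 17 (.c 0)) (s, q) (s.setReg 17 0, q) 2 := by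
    have := Run.set (M := M) (inp := inp) (ps := opS lam) s q 17 (.c 0)
      (by show 0 < M; omega)
    simpa [Ex.eval, Ex.sz] using this
  obtain ⟨s', q', k, P', hr, ⟨hq, st, ρ, hI, hP⟩, hk⟩ :=
    forN_pot (M := M) (lam := lam) (inp := inp) (i := 10) (n := 2) (body := sb)
      (N := 2 * (n + 1)) (c := 130)
      (fun j s' q' P => q' = q ∧ ∃ st ρ, SI w n S j s' st ρ ∧ P = 50 * st.length)
      (by omega) (by decide) (by decide) (by decide)
      (by
        rintro j s1 q1 v P ⟨hq, st, ρ, hI, hP⟩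
        exact ⟨hq, st, ρ, ⟨hI.sc, by simpa using hI.r17, hI.stk, hI.a28, hI.pos, hI.al⟩, hP⟩)
      (by
        rintro j s1 q1 P hj ⟨hq, st, ρ, hI, hP⟩ h10 _
        subst hq
        obtain ⟨s', k, st', ρ', hr, hI', hk⟩ := sb_run (M := M) (lam := lam) (inp := inp)
          hM hg hS hj q1 hI h10
        exact ⟨s', q1, k, 50 * st'.length, hr, ⟨rfl, st', ρ', hI', rfl⟩, by omega⟩)
      (s := s.setReg 17 0) (q := q) (P0 := 0)
      ⟨rfl, [], fun x => x, ⟨sc_zero _ _, by simp, trivial, fun c _ hc => absurd hc (by omega),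
        ha, hal⟩, rfl⟩
      (by simpa using h2)
  subst hq
  exact ⟨s', _, st, ρ, .seq _ _ _ _ _ _ _ r1 hr, hI, by omega⟩

/-- body of the second scan -/
private def rb : XStm := blk [
  .set 11 (.ld 4 (.r 10)), .set 12 (.half (.r 11)),
  .ite (.eq (.ld 5 (.r 12)) (.c 1))
    (.ite (.lt (.r 10) (.ld 3 (mt (.r 12) (.r 11))))
      (.ite (.eq (.ld 7 (.r 12)) (.r 12)) (.sto 6 (.r 12) (.r 12))
        (.sto 6 (.r 12) (.ld 6 (.ld 7 (.r 12))))) .skip) .skip]

private lemma rep_run {w : Lay} {n : ℕ} {S : Finset ℕ} (hM : 16 * (n + 1) ≤ M)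
    (hg : w.Good (2 * (n + 1))) (hS : ∀ t ∈ S, t < n + 1) {s : St} (q : AQ)
    (h2 : s.reg 2 = 2 * (n + 1)) (ha : ArrPos (2 * (n + 1)) s w) (hal : Alive (n + 1) s S)
    {ρ : ℕ → ℕ} (hpr : ∀ c ∈ S, (s.arr 7 c = c ∧ ρ c = c) ∨
      (s.arr 7 c ∈ S ∧ bg w (s.arr 7 c) < bg w c ∧ ρ (s.arr 7 c) = ρ c)) :
    ∃ s' k, XRun M inp lam pRep (s, q) (s', q) k ∧ (∀ c ∈ S, s'.arr 6 c = ρ c) ∧
      k ≤ 136 * (n + 1) + 6 := by
  have H : Chd S (bg w) (en w) (Cn w S) := chd hg (fun t ht => by have := hS t ht; omega)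
  obtain ⟨s', q', k, hr, ⟨hq, _, _, _, _, h6⟩, _, _, hk⟩ :=
    forN_run (M := M) (lam := lam) (inp := inp) (i := 10) (n := 2) (body := rb)
      (N := 2 * (n + 1)) (c := 60)
      (fun j s' q' => q' = q ∧ s'.arr 3 = s.arr 3 ∧ s'.arr 4 = s.arr 4 ∧ s'.arr 5 = s.arr 5 ∧
        s'.arr 7 = s.arr 7 ∧ ∀ c ∈ S, bg w c < j → s'.arr 6 c = ρ c)
      (by omega) (by decide) (by decide) (by decide)
      (by
        rintro j s1 q1 v h
        exact h)
      (by
        rintro j s1 q1 hj ⟨hq, b3, b4, b5, b7, b6⟩ h10 _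
        subst hq
        obtain ⟨x, y, t, hx, hy, hxt, ht, hxy, hxy', hxj, hcase, hne⟩ := node_cases hg hj
        have a4 : s1.arr 4 j = x := by
          have := (ha x hx).2
          rw [hxj] at this
          rw [b4, this]
        have a3 : s1.arr 3 y = w.pos y := by rw [b3]; exact (ha y hy).1
        have e1 : t + t + (t + t) + 1 - x = y := by omega
        have hw := wp_run M inp (opS lam) rb (fun s' k => s'.2 = q1 ∧
          (∀ c ∈ S, bg w c < j + 1 → s'.1.arr 6 c = ρ c) ∧ k ≤ 60) (s1, q1) (by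
          simp [rb, blk, mt, wp, Ex.Ok, Co.Ok, Co.Holds, Co.sz, Ex.eval, Ex.sz, h10, a4, hxt, e1,
            a3]
          refine ⟨by omega, fun h5 => ⟨by omega, fun h3 => ⟨fun h7 => ?_, fun h7 => ?_⟩,
            fun h3 => ?_⟩, fun h5 => ?_⟩
          all_goals intro c hc hcj
          · have htS : t ∈ S := by
              rw [b5] at h5
              exact (hal t ht).1 h5
            by_cases hct : c = t
            · rw [if_pos hct, hct]
              rw [b7] at h7
              rcases hpr t htS with h8 | h8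
              · exact h8.2.symm
              · rw [h7] at h8
                omega
            · rw [if_neg hct]
              apply b6 c hc
              have h8 := H.binj c hc t htS
              rcases hcase with h9 | h9
              · have : bg w c ≠ bg w t := fun h10 => hct (h8 h10)
                omega
              · omega
          · have htS : t ∈ S := by
              rw [b5] at h5
              exact (hal t ht).1 h5
            have hbt : bg w t = j := by
              rcases hcase with h9 | h9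
              · exact h9.2.1
              · omega
            by_cases hct : c = t
            · rw [if_pos hct, hct]
              rw [b7] at h7 ⊢
              rcases hpr t htS with h8 | h8
              · exact absurd h8.1 h7
              · rw [b6 _ h8.1 (by omega)]
                exact h8.2.2
            · rw [if_neg hct]
              apply b6 c hc
              have h8 := H.binj c hc t htS
              have : bg w c ≠ bg w t := fun h10 => hct (h8 h10)
              omega
          · have htS : t ∈ S := by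
              rw [b5] at h5
              exact (hal t ht).1 h5
            apply b6 c hc
            have h8 := H.be c hc t htS
            rcases hcase with h9 | h9
            · omega
            · omega
          · have htS : t ∉ S := by
              rw [b5] at h5
              exact fun h8 => h5 ((hal t ht).2 h8)
            apply b6 c hc
            have := (hne c (hS c hc) (fun h1 => htS (h1 ▸ hc))).1
            omega)
        obtain ⟨⟨s', q'⟩, k, hr, hq, c6, hk⟩ := hw
        simp only at hq c6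
        subst hq
        have fr := run_frame hr
        refine ⟨s', q', k, hr, ⟨rfl, ?_, ?_, ?_, ?_, c6⟩, hk⟩
        · rw [← b3]; exact fr.1 3 (by decide)
        · rw [← b4]; exact fr.1 4 (by decide)
        · rw [← b5]; exact fr.1 5 (by decide)
        · rw [← b7]; exact fr.1 7 (by decide))
      (s := s) (q := q)
      ⟨rfl, rfl, rfl, rfl, rfl, fun c _ hc => absurd hc (by omega)⟩
      h2
  subst hq
  refine ⟨s', k, hr, fun c hc => h6 c hc ?_, by omega⟩
  have h1 := hS c hc
  have h3 := hg.lt (2 * c) (by omega)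
  have h4 : bg w c ≤ w.pos (2 * c) := min_le_left _ _
  omega

theorem comps_run {n : ℕ} {s : St} {w : Lay} (hM : 16 * (n + 1) ≤ M)
    (hg : w.Good (2 * (n + 1))) (hR : Regs n s)
    (ha : ArrPos (2 * (n + 1)) s w) {S : Finset ℕ} (hS : ∀ t ∈ S, t < n + 1)
    (hal : Alive (n + 1) s S) (q : AQ) :
    ∃ s' k, XRun M inp lam pComps (s, q) (s', q) k ∧ IsRep w S (s'.arr 6) ∧
      k ≤ 1000 * (n + 1) := by
  obtain ⟨s1, k1, st, ρ, hr1, h1, hk1⟩ := scan_run (M := M) (lam := lam) (inp := inp) hM hg hS q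
    hR.2.2 ha hal
  have fr1 := run_frame hr1
  have hlt : ∀ c ∈ S, bg w c < 2 * (n + 1) := by
    intro c hc
    have h1 := hS c hc
    have h3 := hg.lt (2 * c) (by omega)
    have h4 : bg w c ≤ w.pos (2 * c) := min_le_left _ _
    omega
  have hlt' : ∀ c ∈ S, en w c < 2 * (n + 1) := by
    intro c hc
    have h1 := hS c hc
    have h3 := hg.lt (2 * c) (by omega)
    have h4 := hg.lt (2 * c + 1) (by omega)
    exact max_lt h3 h4
  obtain ⟨s2, k2, hr2, h2, hk2⟩ := rep_run (M := M) (lam := lam) (inp := inp) hM hg hS q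
    (s := s1) (by rw [fr1.2.1 2 (by decide)]; exact hR.2.2) h1.pos h1.al
    (fun c hc => h1.sc.pr c hc (hlt c hc))
  refine ⟨s2, k1 + k2, .seq _ _ _ _ _ _ _ hr1 hr2, ⟨?_, ?_, ?_⟩, by omega⟩
  · intro t ht
    rw [h2 t ht]
    exact (h1.sc.rt t ht (hlt t ht)).1
  · intro t ht
    rw [h2 t ht]
    exact (h1.sc.rt t ht (hlt t ht)).2.2
  · intro t ht u hu htu
    rw [h2 t ht, h2 u hu]
    exact eq_of_cn hg (fun t ht => by have := hS t ht; omega) (sc_fin h1.sc hlt') htu

end

end SBR
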