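/-
SBR/R3.lean : sizes and orientation of the components, labels of the gaps.
-/
import Pool.Agent.SBR.Rep
import Pool.Agent.SBR.E3

namespace SBR

section
variable {M lam n : ℕ} {inp : ℕ → ℕ} {s : St} {q : AQ} {w : Lay}

/-- the body of the loop -/
private def r3Body : XStm := blk [
  .set 11 (.ld 6 (.r 10)), .sto 11 (.r 11) (.add (.ld 11 (.r 11)) (.c 1)),
  .ite (.eq (.ld 1 (.ld 3 (dbl (.r 10)))) (.ld 1 (.ld 3 (dbl1 (.r 10))))) .skip
    (.sto 10 (.r 11) (.c 1))]

private structure R3I (s0 : St) (j : ℕ) (s : St) : Prop where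
  a1 : s.arr 1 = s0.arr 1
  a3 : s.arr 3 = s0.arr 3
  a6 : s.arr 6 = s0.arr 6
  a11 : ∀ c, s.arr 11 c = ((Finset.range j).filter (fun t => s0.arr 6 t = c)).card
  a10 : ∀ c, (s.arr 10 c = 0 ↔ ∀ t, t < j → s0.arr 6 t = c →
    s0.arr 1 (s0.arr 3 (2 * t)) = s0.arr 1 (s0.arr 3 (2 * t + 1)))

private theorem r3_card (f : ℕ → ℕ) (j c : ℕ) :
    ((Finset.range (j + 1)).filter (fun t => f t = c)).card =
      ((Finset.range j).filter (fun t => f t = c)).card + (if f j = c then 1 else 0) := by
  rw [Finset.range_add_one, Finset.filter_insert]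
  split_ifs with h
  · rw [Finset.card_insert_of_notMem (by simp)]
  · rfl

private theorem r3_step (hM : 16 * (n + 1) ≤ M) {s0 s : St} {j : ℕ} (hj : j < n + 1)
    (hI : R3I s0 j s) (h10 : s.reg 10 = j) (q : AQ) :
    ∃ s' q' k, XRun M inp lam r3Body (s, q) (s', q') k ∧ R3I s0 (j + 1) s' ∧ k ≤ 100 := by
  have hcard : s.arr 11 (s.arr 6 j) ≤ j := by
    rw [hI.a11]
    exact (Finset.card_filter_le _ _).trans (by simp)
  have hwp : wp M inp (opS lam) r3Body (fun s' k => R3I s0 (j + 1) s'.1 ∧ k ≤ 100) (s, q) := by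
    simp only [r3Body, blk, wp, Ex.Ok, Ex.eval, Co.Ok, Co.Holds, Ex.sz, Co.sz, reg_setReg,
      arr_setReg, reg_setArr, arr_setArr, dbl, dbl1, h10, if_true, true_and,
      (show ¬ ((10 : ℕ) = 11) by decide), (show ¬ ((1 : ℕ) = 11) by decide),
      (show ¬ ((3 : ℕ) = 11) by decide), if_false, false_and, ← two_mul]
    refine ⟨⟨by omega, by omega⟩, ?_⟩
    refine ⟨⟨by omega, by omega⟩, ?_, ?_⟩
    · intro heq
      refine ⟨⟨?_, ?_, ?_, ?_, ?_⟩, by omega⟩
      · rw [← hI.a1]; rfl
      · rw [← hI.a3]; rfl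
      · rw [← hI.a6]; rfl
      · intro c
        rw [r3_card, ← hI.a11, ← hI.a6]
        simp only [arr_setArr, arr_setReg, true_and]
        by_cases hc : c = s.arr 6 j
        · subst hc
          simp
        · rw [if_neg hc, if_neg (Ne.symm hc)]
          rfl
      · intro c
        have h := hI.a10 c
        simp only [arr_setArr, arr_setReg]
        constructor
        · intro h0 t ht htc
          have h0' : s.arr 10 c = 0 := by simpa using h0
          rcases Nat.lt_succ_iff_lt_or_eq.mp ht with h1 | h1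
          · exact h.1 h0' t h1 htc
          · subst h1
            simpa [hI.a1, hI.a3] using heq
        · intro h0
          have : s.arr 10 c = 0 := h.2 fun t ht => h0 t (by omega)
          simpa using this
    · intro hne
      refine ⟨by omega, ⟨?_, ?_, ?_, ?_, ?_⟩, by omega⟩
      · rw [← hI.a1]; rfl
      · rw [← hI.a3]; rfl
      · rw [← hI.a6]; rfl
      · intro c
        rw [r3_card, ← hI.a11, ← hI.a6]
        simp only [arr_setArr, arr_setReg, true_and]
        by_cases hc : c = s.arr 6 j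
        · subst hc
          simp
        · rw [if_neg (by simp), if_neg hc, if_neg (Ne.symm hc)]
          rfl
      · intro c
        have h := hI.a10 c
        simp only [arr_setArr, arr_setReg, true_and]
        by_cases hc : c = s.arr 6 j
        · subst hc
          rw [if_pos rfl]
          constructor
          · intro h0; exact absurd h0 (by omega)
          · intro h0
            have := h0 j (by omega) (by rw [hI.a6])
            exact absurd (by simpa [hI.a1, hI.a3] using this) hne
        · rw [if_neg hc]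
          have h2 : s.arr 10 c = 0 ↔ ∀ t, t < j + 1 → s0.arr 6 t = c →
              s0.arr 1 (s0.arr 3 (2 * t)) = s0.arr 1 (s0.arr 3 (2 * t + 1)) := by
            rw [h]
            constructor
            · intro h0 t ht htc
              rcases Nat.lt_succ_iff_lt_or_eq.mp ht with h1 | h1
              · exact h0 t h1 htc
              · subst h1
                exact absurd (by rw [hI.a6]; exact htc.symm) hc
            · intro h0 t ht
              exact h0 t (by omega)
          simpa using h2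
  obtain ⟨⟨s', q'⟩, k, h1, h2, h3⟩ := wp_run M inp (opS lam) _ _ _ hwp
  exact ⟨s', q', k, h1, h2, h3⟩

theorem ori_run (hM : 16 * (n + 1) ≤ M) (hg : w.Good (2 * (n + 1))) (hR : Regs n s)
    (ha : ArrPos (2 * (n + 1)) s w) (hi : ArrInit (2 * (n + 1)) s w)
    (hrep : IsRep w (Finset.range (n + 1)) (s.arr 6)) (h10 : ∀ c, s.arr 10 c = 0)
    (h11 : ∀ c, s.arr 11 c = 0) (q : AQ) :
    ∃ s' k, XRun M inp lam pOri (s, q) (s', q) k ∧
      (∀ c, c < n + 1 → s'.arr 11 c =
        ((Finset.range (n + 1)).filter (fun t => s.arr 6 t = c)).card) ∧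
      (∀ c, c < n + 1 → (s'.arr 10 c = 0 ↔ ∀ t, t < n + 1 → s.arr 6 t = c → w.mat t t = 0)) ∧
      k ≤ 1000 * (n + 1) := by
  have key := forN_run (M := M) (lam := lam) (inp := inp) (i := 10) (n := 1) (body := r3Body)
    (N := n + 1) (c := 100) (fun j s' _ => R3I s j s') (by omega) (by decide) (by decide)
    (by decide) (by
      intro j s' q' v h
      exact ⟨h.a1, h.a3, h.a6, h.a11, h.a10⟩) (by
      intro j s' q' hj hI hr _
      exact r3_step hM hj hI hr q') (s := s) (q := q) (by
      refine ⟨rfl, rfl, rfl, fun c => ?_, fun c => ?_⟩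
      · rw [h11]; simp
      · rw [h10]; simp) hR.2.1
  obtain ⟨s', q', k, hr, hI, _, _, hk⟩ := key
  have hr' : XRun M inp lam pOri (s, q) (s', q') k := hr
  have hq : q' = q := (run_frame hr').2.2.1 (by decide)
  subst hq
  refine ⟨s', k, hr', fun c _ => hI.a11 c, fun c _ => ?_, ?_⟩
  · rw [hI.a10]
    have hmat : ∀ t, t < n + 1 → (s.arr 1 (s.arr 3 (2 * t)) = s.arr 1 (s.arr 3 (2 * t + 1)) ↔
        w.mat t t = 0) := by
      intro t ht
      have h1 := (ha (2 * t) (by omega)).1
      have h2 := (ha (2 * t + 1) (by omega)).1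
      rw [h1, h2, (hi (2 * t) (by omega)).2, (hi (2 * t + 1) (by omega)).2, Lay.mat, if_pos rfl]
      cases w.sg (2 * t) <;> cases w.sg (2 * t + 1) <;> simp [b2n, bz] <;> decide
    constructor
    · intro h t ht htc
      exact (hmat t ht).1 (h t ht htc)
    · intro h t ht htc
      exact (hmat t ht).2 (h t ht htc)
  · have : (100 + 8) * (n + 1) + 6 ≤ 1000 * (n + 1) := by omega
    omega

/-- every position carries a node -/
private theorem r3_node {L : ℕ} {w : Lay} (hg : w.Good L) {p : ℕ} (hp : p < L) :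
    ∃ x, x < L ∧ w.pos x = p := by
  have hinj : Function.Injective (fun x : Fin L => (⟨w.pos x, hg.lt x x.2⟩ : Fin L)) := by
    intro x y h
    have h1 : w.pos x = w.pos y := by simpa using h
    exact Fin.ext (hg.inj x y x.2 y.2 h1)
  obtain ⟨x, hx⟩ := (Finite.injective_iff_surjective.1 hinj) ⟨p, hp⟩
  refine ⟨x, x.2, ?_⟩
  have := congrArg Fin.val hx
  simpa using this

private theorem r3_symm {w : Lay} (hg : w.Good (2 * (n + 1))) {a b : ℕ}
    (h : Cn w (Finset.range (n + 1)) a b) : Cn w (Finset.range (n + 1)) b a := by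
  have hs : ∀ a b, Adj w (Finset.range (n + 1)) a b → Adj w (Finset.range (n + 1)) b a := by
    rintro a b ⟨h1, h2, h3, h4⟩
    have h1' := Finset.mem_range.1 h1
    have h2' := Finset.mem_range.1 h2
    refine ⟨h2, h1, h3.symm, ?_⟩
    rw [Lay.mat_comm hg (t := a) (u := b) (by omega) (by omega)]
    exact h4
  induction h with
  | refl => exact .refl
  | tail _ hab ih => exact .head (hs _ _ hab) ih

theorem labOf_glab (hw : EL n w) (ha : ArrPos (2 * (n + 1)) s w)
    (hrep : IsRep w (Finset.range (n + 1)) (s.arr 6))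
    (h11 : ∀ c, c < n + 1 → s.arr 11 c =
      ((Finset.range (n + 1)).filter (fun t => s.arr 6 t = c)).card)
    (h10 : ∀ c, c < n + 1 → (s.arr 10 c = 0 ↔ ∀ t, t < n + 1 → s.arr 6 t = c → w.mat t t = 0)) :
    GLab (n + 1) w (labOf s) := by
  classical
  have hg := hw.good
  set m := n + 1 with hm
  set rep := s.arr 6 with hrp
  have hmem : ∀ t, t ∈ Finset.range m ↔ t < m := fun t => Finset.mem_range
  have hreplt : ∀ t, t < m → rep t < m := fun t ht =>
    (hmem _).1 (hrep.mem t ((hmem t).2 ht))
  -- same representative iff connected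
  have hrc : ∀ t u, t < m → u < m → (rep t = rep u ↔ Cn w (Finset.range m) t u) := by
    intro t u ht hu
    constructor
    · intro h
      have h1 := hrep.con t ((hmem t).2 ht)
      have h2 := hrep.con u ((hmem u).2 hu)
      rw [h] at h1
      exact h1.trans (r3_symm hg h2)
    · intro h
      exact hrep.eq t ((hmem t).2 ht) u ((hmem u).2 hu) h
  -- the component
  let D : ℕ → Finset ℕ := fun t => (Finset.range m).filter (fun u => Cn w (Finset.range m) t u)
  have hDmem : ∀ t u, u ∈ D t ↔ u < m ∧ Cn w (Finset.range m) t u := by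
    intro t u
    simp only [D, Finset.mem_filter, Finset.mem_range]
  have hDclo : ∀ t, ∀ a ∈ D t, ∀ u, u < m → u ∉ D t → w.mat a u = 0 := by
    intro t a ha' u hu hu'
    by_contra hne
    apply hu'
    obtain ⟨h1, h2⟩ := (hDmem t a).1 ha'
    have hau : a ≠ u := by
      rintro rfl
      exact hu' ha'
    exact (hDmem t u).2 ⟨hu, h2.tail ⟨(hmem a).2 h1, (hmem u).2 hu, hau, hne⟩⟩
  -- the node used by the program at the gap of `x`
  have hnode : ∀ x, x < 2 * m → ∃ y, y < 2 * m ∧ s.arr 4 (2 * w.gap x) = y ∧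
      rep (y / 2) = rep (x / 2) := by
    intro x hx
    have hpx := hg.lt x hx
    have hgx : w.gap x = w.pos x / 2 := rfl
    obtain ⟨y, hy, hyp⟩ := r3_node hg (p := 2 * w.gap x) (by omega)
    refine ⟨y, hy, ?_, ?_⟩
    · rw [← hyp]
      exact (ha y hy).2
    · have hgy : w.gap y = w.gap x := by
        show w.pos y / 2 = w.gap x
        rw [hyp]
        omega
      have h1 := gap_mem hw (D := D (x / 2)) (fun t ht => ((hDmem _ _).1 ht).1)
        (hDclo (x / 2)) hx hy hgy.symm
      have h2 : y / 2 ∈ D (x / 2) := h1.1 ((hDmem _ _).2 ⟨by omega, .refl⟩)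
      exact ((hrc (x / 2) (y / 2) (by omega) (by omega)).2 ((hDmem _ _).1 h2).2).symm
  -- value of the label
  have hlab : ∀ x, x < 2 * m → labOf s (w.gap x) =
      if s.arr 10 (rep (x / 2)) = 0 ∧ 1 < s.arr 11 (rep (x / 2)) then rep (x / 2) + 1 else 0 := by
    intro x hx
    obtain ⟨y, hy, h1, h2⟩ := hnode x hx
    unfold labOf
    rw [h1, ← hrp, h2]
  have hDrep : ∀ t, t < m → D t = (Finset.range m).filter (fun u => rep u = rep t) := by
    intro t ht
    ext u
    rw [hDmem, Finset.mem_filter, Finset.mem_range]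
    constructor
    · rintro ⟨h1, h2⟩
      exact ⟨h1, ((hrc t u ht h1).2 h2).symm⟩
    · rintro ⟨h1, h2⟩
      exact ⟨h1, (hrc t u ht h1).1 h2.symm⟩
  have hDcon : ∀ t, ∀ a ∈ D t, ∀ b, Cn w (Finset.range m) a b → Cn w (D t) a b := by
    intro t a ha' b hab
    induction hab with
    | refl => exact .refl
    | @tail b c h1 hbc ih =>
      obtain ⟨g1, g2⟩ := (hDmem t a).1 ha'
      refine ih.tail ⟨(hDmem t b).2 ⟨(hmem b).1 hbc.1, g2.trans h1⟩,
        (hDmem t c).2 ⟨(hmem c).1 hbc.2.1, (g2.trans h1).tail hbc⟩, hbc.2.2⟩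
  have hcond : ∀ t, t < m → ((s.arr 10 (rep t) = 0 ∧ 1 < s.arr 11 (rep t)) ↔
      ∃ C, UComp m w C ∧ t ∈ C) := by
    intro t ht
    rw [h10 _ (hreplt t ht), h11 _ (hreplt t ht), ← hDrep t ht]
    constructor
    · rintro ⟨h1, h2⟩
      refine ⟨D t, ⟨fun u hu => ((hDmem _ _).1 hu).1, h2, hDclo t, ?_, ?_⟩,
        (hDmem _ _).2 ⟨ht, .refl⟩⟩
      · intro a ha' b hb'
        obtain ⟨g1, g2⟩ := (hDmem _ _).1 ha'
        obtain ⟨g3, g4⟩ := (hDmem _ _).1 hb'
        exact hDcon t a ha' b ((r3_symm hg g2).trans g4)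
      · intro a ha'
        obtain ⟨g1, g2⟩ := (hDmem _ _).1 ha'
        exact h1 a g1 ((hrc t a ht g1).2 g2).symm
    · rintro ⟨C, hC, htC⟩
      have hCD : C = D t := by
        ext u
        constructor
        · intro hu
          have h1 : Cn w (Finset.range m) t u := by
            refine Relation.ReflTransGen.mono ?_ _ _ (hC.con t htC u hu)
            intro a b hab
            exact ⟨(hmem a).2 (hC.sub a hab.1), (hmem b).2 (hC.sub b hab.2.1), hab.2.2⟩
          exact (hDmem _ _).2 ⟨hC.sub u hu, h1⟩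
        · intro hu
          have g2 := ((hDmem _ _).1 hu).2
          clear hu
          induction g2 with
          | refl => exact htC
          | tail _ hab ih =>
            by_contra hn
            exact hab.2.2.2 (hC.clo _ ih _ ((hmem _).1 hab.2.1) hn)
      rw [← hCD]
      refine ⟨?_, hC.two⟩
      intro u hu hrep'
      apply hC.uno
      rw [hCD]
      exact (hDmem _ _).2 ⟨hu, (hrc t u ht hu).1 hrep'.symm⟩
  refine ⟨?_, ?_⟩
  · intro x hx
    rw [hlab x hx, ← hcond (x / 2) (by omega)]
    split_ifs with h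
    · exact ⟨fun _ => h, fun _ => by omega⟩
    · exact ⟨fun h' => absurd rfl h', fun h' => absurd h' h⟩
  · intro x y hx hy h0
    rw [← hrc (x / 2) (y / 2) (by omega) (by omega)]
    rw [hlab x hx] at h0 ⊢
    rw [hlab y hy]
    by_cases h1 : s.arr 10 (rep (x / 2)) = 0 ∧ 1 < s.arr 11 (rep (x / 2))
    · rw [if_pos h1]
      by_cases h2 : s.arr 10 (rep (y / 2)) = 0 ∧ 1 < s.arr 11 (rep (y / 2))
      · rw [if_pos h2]
        omega
      · rw [if_neg h2]
        constructor
        · intro h; omega
        · intro h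
          rw [h] at h1
          exact absurd h1 h2
    · rw [if_neg h1] at h0
      exact absurd rfl h0

end

end SBR
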