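/-
SBR/R4.lean : package R4, the word of the unoriented components (helper7).
-/
import Pool.Agent.SBR.Rep
import Pool.Agent.SBR.Machine

namespace SBR

/-! ### recursion for `lword` -/

private theorem r4_dst_concat (l : List ℕ) (b a : ℕ) :
    (l ++ [a]).destutter' (· ≠ ·) b =
      if (l.destutter' (· ≠ ·) b).getLast? = some a then l.destutter' (· ≠ ·) b
      else l.destutter' (· ≠ ·) b ++ [a] := by
  induction l generalizing b with
  | nil =>
    by_cases h : b = a
    · subst h
      simp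
    · simp [h]
  | cons c t ih =>
    by_cases h : b = c
    · subst h
      have e1 : ((b :: t) ++ [a]).destutter' (· ≠ ·) b = (t ++ [a]).destutter' (· ≠ ·) b := by
        rw [List.cons_append, List.destutter'_cons_neg]
        simp
      have e2 : (b :: t).destutter' (· ≠ ·) b = t.destutter' (· ≠ ·) b := by
        rw [List.destutter'_cons_neg]
        simp
      rw [e1, e2, ih b]
    · have e1 : ((c :: t) ++ [a]).destutter' (· ≠ ·) b =
          b :: (t ++ [a]).destutter' (· ≠ ·) c := by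
        rw [List.cons_append, List.destutter'_cons_pos]
        exact h
      have e2 : (c :: t).destutter' (· ≠ ·) b = b :: t.destutter' (· ≠ ·) c := by
        rw [List.destutter'_cons_pos]
        exact h
      rw [e1, e2, ih c]
      have hne : t.destutter' (· ≠ ·) c ≠ [] := List.destutter'_ne_nil _ _
      have hl : (b :: t.destutter' (· ≠ ·) c).getLast? = (t.destutter' (· ≠ ·) c).getLast? := by
        rw [List.getLast?_cons]
        rcases hx : (t.destutter' (· ≠ ·) c).getLast? with _ | x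
        · exact absurd (List.getLast?_eq_none_iff.mp hx) hne
        · rfl
      rw [hl]
      by_cases h2 : (t.destutter' (· ≠ ·) c).getLast? = some a
      · rw [if_pos h2, if_pos h2]
      · rw [if_neg h2, if_neg h2]
        rfl

private theorem r4_dst_concat0 (l : List ℕ) (a : ℕ) :
    (l ++ [a]).destutter (· ≠ ·) =
      if (l.destutter (· ≠ ·)).getLast? = some a then l.destutter (· ≠ ·)
      else l.destutter (· ≠ ·) ++ [a] := by
  cases l with
  | nil => simp
  | cons b t =>
    rw [List.cons_append, List.destutter_cons', List.destutter_cons', r4_dst_concat]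

private theorem r4_succ_zero {m : ℕ} {lab : ℕ → ℕ} (h : lab m = 0) :
    lword (m + 1) lab = lword m lab := by
  unfold lword
  rw [List.range_succ, List.map_append, List.filter_append]
  simp [h]

private theorem r4_succ {m : ℕ} {lab : ℕ → ℕ} (h : lab m ≠ 0) :
    lword (m + 1) lab = if (lword m lab).getLast? = some (lab m) then lword m lab
      else lword m lab ++ [lab m] := by
  unfold lword
  rw [List.range_succ, List.map_append, List.filter_append]
  have : ((List.map lab [m]).filter (fun i => decide (i ≠ 0))) = [lab m] := by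
    simp [h]
  rw [this, r4_dst_concat0]

private theorem r4_len (m : ℕ) (lab : ℕ → ℕ) : (lword m lab).length ≤ m := by
  induction m with
  | zero => simp [lword]
  | succ m ih =>
    by_cases h : lab m = 0
    · rw [r4_succ_zero h]; omega
    · rw [r4_succ h]
      split_ifs
      · omega
      · simp; omega

private theorem r4_getLast? (L : List ℕ) (a : ℕ) :
    L.getLast? = some a ↔ 0 < L.length ∧ L.getD (L.length - 1) 0 = a := by
  rw [List.getLast?_eq_getElem?]
  constructor
  · intro h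
    have h1 : L.length - 1 < L.length := by
      by_contra h2
      rw [List.getElem?_eq_none (by omega)] at h
      exact absurd h (by simp)
    refine ⟨by omega, ?_⟩
    rw [List.getD_eq_getElem?_getD, h]; rfl
  · rintro ⟨h1, h2⟩
    rw [List.getElem?_eq_getElem (by omega), ← h2, List.getD_eq_getElem _ _ (by omega)]

/-- there is a node at every position -/
private theorem r4_surj {w : Lay} {L : ℕ} (hg : w.Good L) {p : ℕ} (hp : p < L) :
    ∃ x, x < L ∧ w.pos x = p := by
  have hinj : Function.Injective (fun x : Fin L => (⟨w.pos x, hg.lt x x.2⟩ : Fin L)) := by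
    intro x y h
    have := hg.inj x y x.2 y.2 (by simpa using h)
    exact Fin.ext this
  obtain ⟨x, hx⟩ := Finite.surjective_of_injective hinj ⟨p, hp⟩
  exact ⟨x, x.2, by simpa using congrArg Fin.val hx⟩

/-- the invariant of the loop -/
private def R4I (n : ℕ) (w : Lay) (s0 : St) (j : ℕ) (s : St) : Prop :=
  s.arr 4 = s0.arr 4 ∧ s.arr 6 = s0.arr 6 ∧ s.arr 10 = s0.arr 10 ∧ s.arr 11 = s0.arr 11 ∧
  s.reg 40 = (lword j (labOf s0)).length ∧
  ∀ i, i < (lword j (labOf s0)).length → s.arr 12 i = (lword j (labOf s0)).getD i 0 ∧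
    s.arr 13 i < 2 * (n + 1) ∧ labOf s0 (w.gap (s.arr 13 i)) = (lword j (labOf s0)).getD i 0

section
variable {M lam n : ℕ} {inp : ℕ → ℕ} {s : St} {q : AQ} {w : Lay}

/-- the body of the loop -/
private def r4body : XStm := blk [
    .set 11 (.ld 4 (dbl (.r 10))), .set 12 (.ld 6 (.half (.r 11))),
    .ite (.eq (.ld 10 (.r 12)) (.c 0))
      (.ite (.lt (.c 1) (.ld 11 (.r 12)))
        (blk [.set 13 (.c 0),
          .ite (.lt (.c 0) (.r 40))
            (.ite (.eq (.ld 12 (.sub (.r 40) (.c 1))) (.add (.r 12) (.c 1))) (.set 13 (.c 1)) .skip)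
            .skip,
          .ite (.eq (.r 13) (.c 0))
            (blk [.sto 12 (.r 40) (.add (.r 12) (.c 1)), .sto 13 (.r 40) (.r 11),
              .set 40 (.add (.r 40) (.c 1))]) .skip])
        .skip)
      .skip]

private theorem r4_same {s0 s' : St} {j : ℕ} (h : R4I n w s0 j s) (h1 : s'.arr = s.arr)
    (h2 : s'.reg 40 = s.reg 40) (h3 : lword (j + 1) (labOf s0) = lword j (labOf s0)) :
    R4I n w s0 (j + 1) s' := by
  obtain ⟨i4, i6, i10, i11, i40, ii⟩ := h
  unfold R4I
  rw [h1, h2, h3]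
  exact ⟨i4, i6, i10, i11, i40, ii⟩

private theorem r4_app {s0 s' : St} {j x a : ℕ} (h : R4I n w s0 j s)
    (h1 : s'.arr = ((s.setArr 12 (s.reg 40) a).setArr 13 (s.reg 40) x).arr)
    (h2 : s'.reg 40 = s.reg 40 + 1)
    (h3 : lword (j + 1) (labOf s0) = lword j (labOf s0) ++ [a]) (hx : x < 2 * (n + 1))
    (hg : labOf s0 (w.gap x) = a) : R4I n w s0 (j + 1) s' := by
  obtain ⟨i4, i6, i10, i11, i40, ii⟩ := h
  unfold R4I
  rw [h2, h3]
  refine ⟨?_, ?_, ?_, ?_, by simp [i40], ?_⟩
  · funext i; simp [h1, i4]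
  · funext i; simp [h1, i6]
  · funext i; simp [h1, i10]
  · funext i; simp [h1, i11]
  · intro i hi
    rw [List.length_append, List.length_singleton] at hi
    by_cases hlt : i < (lword j (labOf s0)).length
    · obtain ⟨a1, a2, a3⟩ := ii i hlt
      have hne : i ≠ s.reg 40 := by omega
      rw [List.getD_append _ _ _ _ hlt]
      simp only [h1, arr_setArr]
      simp only [hne, and_false, if_false]
      exact ⟨by simpa using a1, a2, a3⟩
    · have hi' : i = (lword j (labOf s0)).length := by omega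
      have e : ((lword j (labOf s0)) ++ [a]).getD i 0 = a := by
        rw [hi']; simp [List.getD_eq_getElem?_getD]
      rw [e]
      have hi2 : i = s.reg 40 := by omega
      subst hi2
      simp only [h1, arr_setArr]
      simp
      exact ⟨hx, hg⟩

private theorem r4_body (hM : 16 * (n + 1) ≤ M) (hg : w.Good (2 * (n + 1)))
    {s0 : St} (ha : ArrPos (2 * (n + 1)) s0 w) (hb : ∀ t, t < n + 1 → s0.arr 6 t < n + 1)
    {j : ℕ} (hj : j < n + 1) (hI : R4I n w s0 j s) (h10 : s.reg 10 = j) :
    ∃ s' q' k, XRun M inp lam r4body (s, q) (s', q') k ∧ R4I n w s0 (j + 1) s' ∧ k ≤ 100 := by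
  obtain ⟨x, hx, hxp⟩ := r4_surj hg (p := 2 * j) (by omega)
  have hx4 : s0.arr 4 (2 * j) = x := by rw [← hxp]; exact (ha x hx).2
  have hI' := hI
  obtain ⟨i4, i6, i10, i11, i40, ii⟩ := hI
  have hgap : w.gap x = j := by simp [Lay.gap, hxp]
  have hr : s0.arr 6 (x / 2) < n + 1 := hb _ (by omega)
  set r := s0.arr 6 (x / 2) with hrdef
  have hlab : labOf s0 j = if s0.arr 10 r = 0 ∧ 1 < s0.arr 11 r then r + 1 else 0 := by
    simp only [labOf, hx4, ← hrdef]
  have hlen := r4_len j (labOf s0)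
  have jj : j + j = 2 * j := by ring
  suffices hw : wp M inp (opS lam) r4body
      (fun s' k => R4I n w s0 (j + 1) s'.1 ∧ k ≤ 100) (s, q) by
    obtain ⟨⟨s', q'⟩, k, h1, h2⟩ := wp_run M inp (opS lam) _ _ _ hw
    exact ⟨s', q', k, h1, h2⟩
  simp only [r4body, blk, wp, Ex.Ok, Ex.eval, Co.Ok, Co.Holds, Ex.sz, Co.sz, dbl, reg_setReg,
    arr_setReg, reg_setArr, h10, jj, i4, hx4, i6]
  have hM1 : 1 < M := by omega
  have hM0 : 0 < M := by omega
  simp only [reduceIte, Nat.reduceEqDiff, hM1, hM0, true_and, and_true, ← hrdef, i10, i11,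
    false_implies, not_false_eq_true, true_implies, not_true_eq_false]
  -- the letter is appended
  have happ : s0.arr 10 r = 0 → 1 < s0.arr 11 r →
      ¬ (0 < s.reg 40 ∧ s.arr 12 (s.reg 40 - 1) = r + 1) →
      lword (j + 1) (labOf s0) = lword j (labOf s0) ++ [r + 1] := by
    intro h1 h2 h3
    have hl : labOf s0 j = r + 1 := by rw [hlab, if_pos ⟨h1, h2⟩]
    rw [r4_succ (by omega), hl, if_neg]
    rw [r4_getLast?]
    rintro ⟨h4, h5⟩
    apply h3
    refine ⟨by omega, ?_⟩
    rw [(ii (s.reg 40 - 1) (by omega)).1, i40]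
    exact h5
  have hsame : s0.arr 10 r = 0 → 1 < s0.arr 11 r → 0 < s.reg 40 →
      s.arr 12 (s.reg 40 - 1) = r + 1 →
      lword (j + 1) (labOf s0) = lword j (labOf s0) := by
    intro h1 h2 h3 h4
    have hl : labOf s0 j = r + 1 := by rw [hlab, if_pos ⟨h1, h2⟩]
    rw [r4_succ (by omega), hl, if_pos]
    rw [r4_getLast?]
    refine ⟨by omega, ?_⟩
    rw [(ii (s.reg 40 - 1) (by omega)).1, i40] at h4
    exact h4
  have hzero : ¬ (s0.arr 10 r = 0 ∧ 1 < s0.arr 11 r) →
      lword (j + 1) (labOf s0) = lword j (labOf s0) := by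
    intro h
    exact r4_succ_zero (by rw [hlab, if_neg h])
  have hlj : s0.arr 10 r = 0 → 1 < s0.arr 11 r → labOf s0 (w.gap x) = r + 1 := by
    intro h1 h2
    rw [hgap, hlab, if_pos ⟨h1, h2⟩]
  refine ⟨by omega, fun h1 => ⟨fun h2 => ⟨fun h3 => ⟨⟨by omega, by omega⟩, fun h4 => ⟨?_, by norm_num⟩,
    fun h4 => ⟨by omega, by omega, ?_, by norm_num⟩⟩, fun h3 => ⟨by omega, by omega, ?_, by norm_num⟩⟩,
    fun h2 => ⟨?_, by norm_num⟩⟩, fun h1 => ⟨?_, by norm_num⟩⟩
  · exact r4_same hI' rfl rfl (hsame h1 h2 h3 h4)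
  · exact r4_app hI' rfl rfl (happ h1 h2 (by tauto)) hx (hlj h1 h2)
  · exact r4_app hI' rfl rfl (happ h1 h2 (by tauto)) hx (hlj h1 h2)
  · exact r4_same hI' rfl rfl (hzero (by tauto))
  · exact r4_same hI' rfl rfl (hzero (by tauto))

private theorem r4_trim (L : List ℕ) (h : 2 ≤ L.length ∧ L.getD (L.length - 1) 0 = L.getD 0 0) :
    (trim L).length = L.length - 1 ∧ ∀ j, j < L.length - 1 → (trim L).getD j 0 = L.getD j 0 := by
  rw [trim, if_pos h]
  refine ⟨by simp, fun j hj => ?_⟩
  rw [List.getD_eq_getElem _ _ (by simpa using hj), List.getD_eq_getElem _ _ (by omega),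
    List.getElem_dropLast]

theorem word_run (hM : 16 * (n + 1) ≤ M) (hg : w.Good (2 * (n + 1))) (hR : Regs n s)
    (ha : ArrPos (2 * (n + 1)) s w) (hb : ∀ t, t < n + 1 → s.arr 6 t < n + 1) (q : AQ)
    {R : List ℕ} (hRR : R = trim (lword (n + 1) (labOf s))) :
    ∃ s' k, XRun M inp lam pWord (s, q) (s', q) k ∧ s'.reg 40 = R.length ∧
      (∀ j, j < R.length → s'.arr 12 j = R.getD j 0 ∧ s'.arr 13 j < 2 * (n + 1) ∧
        labOf s (w.gap (s'.arr 13 j)) = R.getD j 0) ∧ k ≤ 1000 * (n + 1) := by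
  have hM1 : 1 < M := by omega
  have hM0 : 0 < M := by omega
  set s1 := s.setReg 40 0 with hs1
  have r1 : XRun M inp lam (.set 40 (.c 0)) (s, q) (s1, q) 2 := .set s q 40 (.c 0) hM0
  -- the loop
  obtain ⟨s2, q2, k2, r2, hI, -, -, hk2⟩ := forN_run (M := M) (inp := inp) (lam := lam)
    (i := 10) (n := 1) (body := r4body) (N := n + 1) (c := 100)
    (fun j s' _ => R4I n w s j s') (by omega) (by decide) (by decide) (by decide)
    (fun j s' q v h => by
      obtain ⟨i4, i6, i10, i11, i40, ii⟩ := h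
      exact ⟨i4, i6, i10, i11, by simpa using i40, ii⟩)
    (fun j s' q' hj hI h10 _ => r4_body hM hg ha hb hj hI h10)
    (s := s1) (q := q)
    ⟨rfl, rfl, rfl, rfl, by simp [hs1, lword], by simp [lword]⟩
    (by simp [hs1, hR.2.1])
  have hq2 : q2 = q := (run_frame r2).2.2.1 (by decide)
  subst hq2
  obtain ⟨-, -, -, -, i40, ii⟩ := hI
  set L := lword (n + 1) (labOf s) with hL
  have hlen : L.length ≤ n + 1 := r4_len _ _
  have r3 : ∃ s3 k3, XRun M inp lam (.ite (.lt (.c 1) (.r 40))
      (.ite (.eq (.ld 12 (.sub (.r 40) (.c 1))) (.ld 12 (.c 0))) (.set 40 (.sub (.r 40) (.c 1)))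
        .skip) .skip) (s2, q2) s3 k3 ∧ (s3.2 = q2 ∧ s3.1.arr = s2.arr ∧
          s3.1.reg 40 = R.length ∧ R.length ≤ L.length ∧
          (∀ j, j < R.length → R.getD j 0 = L.getD j 0) ∧ k3 ≤ 100) := by
    apply wp_run
    simp only [wp, Ex.Ok, Ex.eval, Co.Ok, Co.Holds, Ex.sz, Co.sz, reg_setReg, arr_setReg]
    simp only [reduceIte, hM1, hM0, true_and, and_true]
    refine ⟨fun h1 => ⟨by omega, fun h2 => ⟨by omega, ?_, ?_, ?_, by norm_num⟩,
      fun h2 => ⟨?_, ?_, ?_, by norm_num⟩⟩, fun h1 => ⟨?_, ?_, ?_, by norm_num⟩⟩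
    · rw [(ii _ (by omega)).1, (ii _ (by omega)).1, i40] at h2
      rw [hRR, (r4_trim L ⟨by omega, h2⟩).1, i40]
    · rw [(ii _ (by omega)).1, (ii _ (by omega)).1, i40] at h2
      rw [hRR, (r4_trim L ⟨by omega, h2⟩).1]; omega
    · rw [(ii _ (by omega)).1, (ii _ (by omega)).1, i40] at h2
      intro j hj
      have h3 := r4_trim L ⟨by omega, h2⟩
      rw [hRR] at hj ⊢
      exact h3.2 j (by omega)
    all_goals
      have hRL : R = L := by
        rw [hRR, trim, if_neg]
        rintro ⟨h3, h4⟩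
        first
          | omega
          | (apply h2
             rw [(ii _ (by omega)).1, (ii _ (by omega)).1, i40]
             exact h4)
      rw [hRL]
    · exact i40
    · exact fun j _ => rfl
    · exact i40
    · exact fun j _ => rfl
  obtain ⟨⟨s3, q3⟩, k3, r3, e1, e2, e3, e4, e5, hk3⟩ := r3
  simp only at e1 e2 e3
  subst e1
  refine ⟨s3, 2 + (k2 + k3), .seq _ _ _ _ _ _ _ r1 (.seq _ _ _ _ _ _ _ r2 r3), e3, ?_, by omega⟩
  intro j hj
  obtain ⟨a1, a2, a3⟩ := ii j (by omega)
  rw [e2, e5 j hj]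
  exact ⟨a1, a2, a3⟩

end

end SBR
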