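/-
SBR/R5.lean : verification of the parts pHur and pPlan of the program.
-/
import Pool.Agent.SBR.Rep
import Pool.Agent.SBR.W2

set_option linter.unusedSimpArgs false

namespace SBR

section
variable {M lam : ℕ} {inp : ℕ → ℕ}

private theorem r5_wp {p : XStm} {s : St} {q : AQ} {P : St → AQ → ℕ → Prop}
    (h : wp M inp (opS lam) p (fun s' k => P s'.1 s'.2 k) (s, q)) :
    ∃ s' q' k, XRun M inp lam p (s, q) (s', q') k ∧ P s' q' k := by
  obtain ⟨⟨s', q'⟩, k, h1, h2⟩ := wp_run M inp (opS lam) p _ _ h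
  exact ⟨s', q', k, h1, h2⟩

private theorem r5_take_succ (R : List ℕ) {j : ℕ} (hj : j < R.length) :
    R.take (j + 1) = R.take j ++ [R.getD j 0] := by
  rw [List.take_add_one, List.getElem?_eq_getElem hj, List.getD_eq_getElem _ _ hj]
  rfl

/-- counting the letters -/
private theorem r5_count {R : List ℕ} (hM : R.length + 10 ≤ M) {s : St}
    (h40 : s.reg 40 = R.length)
    (h12 : ∀ j, j < R.length → s.arr 12 j = R.getD j 0) (h14 : ∀ a, s.arr 14 a = 0) (q : AQ) :
    ∃ s' q' k, XRun M inp lam (forN 10 40 (blk [.set 11 (.ld 12 (.r 10)),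
        .sto 14 (.r 11) (.add (.ld 14 (.r 11)) (.c 1))])) (s, q) (s', q') k ∧
      (q' = q ∧ (∀ j, j < R.length → s'.arr 12 j = R.getD j 0) ∧
        ∀ a, s'.arr 14 a = (R.take R.length).count a) ∧ s'.reg 10 = R.length ∧
      s'.reg 40 = R.length ∧ k ≤ (20 + 8) * R.length + 6 := by
  refine forN_run (M := M) (inp := inp) (lam := lam) (N := R.length) (c := 20)
    (fun j s' q' => q' = q ∧ (∀ j, j < R.length → s'.arr 12 j = R.getD j 0) ∧
      ∀ a, s'.arr 14 a = (R.take j).count a) (by omega) (by decide) (by decide) (by decide)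
    (fun j s' q' v h => by simpa using h) ?_ ⟨rfl, h12, by simpa using h14⟩ h40
  rintro j s1 q1 hj ⟨rfl, h1, h2⟩ h10 -
  apply r5_wp (P := fun s' q' k => (q' = q1 ∧ (∀ j, j < R.length → s'.arr 12 j = R.getD j 0) ∧
      ∀ a, s'.arr 14 a = (R.take (j + 1)).count a) ∧ k ≤ 20)
  have hc : (R.take j).count (R.getD j 0) ≤ j := by
    refine (List.count_le_length ..).trans ?_
    simp
  have hx1 := h1 j hj
  rw [r5_take_succ R hj]
  obtain ⟨x, hx⟩ : ∃ x, x = R.getD j 0 := ⟨_, rfl⟩
  rw [← hx] at hc hx1 ⊢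
  simp only [blk, wp, Ex.Ok, Ex.eval, Co.Ok, Co.Holds, Ex.sz, Co.sz, reg_setReg, arr_setReg,
    reg_setArr, arr_setArr, h10, hx1, h2]
  refine ⟨trivial, trivial, ⟨trivial, by omega, by simp; omega⟩, ⟨⟨trivial, ?_, ?_⟩, by omega⟩⟩
  · intro i hi
    rw [if_neg (by omega), h1 i hi]
  · intro a
    rw [List.count_append]
    by_cases ha : a = x
    · subst ha
      simp
    · have : x ≠ a := fun h => ha h.symm
      simp [ha, this, h2, List.count_singleton]

theorem hur_run {s : St} {R : List ℕ} (hM : R.length + 10 ≤ M) (h40 : s.reg 40 = R.length)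
    (h12 : ∀ j, j < R.length → s.arr 12 j = R.getD j 0) (h14 : ∀ a, s.arr 14 a = 0) (q : AQ) :
    ∃ s' k, XRun M inp lam pHur (s, q) (s', q) k ∧ s'.reg 41 = (hurdles R).length ∧
      (∀ i, i < (hurdles R).length → s'.arr 15 i = (hurdles R).getD i 0) ∧
      (∀ a, s'.arr 14 a = R.count a) ∧ k ≤ 1000 * (R.length + 1) := by
  obtain ⟨s1, q1, k1, r1, ⟨hq1, h1, h2⟩, -, h401, hk1⟩ := r5_count (lam := lam) (inp := inp)
    hM h40 h12 h14 q
  rw [hq1] at r1
  rw [List.take_length] at h2
  have hlen : ∀ j, j ≤ R.length → (((List.range j).filter (Once R)).length) ≤ j := by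
    intro j hj
    refine (List.length_filter_le _ _).trans ?_
    simp
  obtain ⟨s2, q2, k2, r2, ⟨hq2, h3, h4, h5⟩, -, -, hk2⟩ := forN_run (M := M) (inp := inp)
    (lam := lam) (i := 10) (n := 40) (N := R.length) (c := 30)
    (body := (.ite (.eq (.ld 14 (.ld 12 (.r 10))) (.c 1))
      (blk [.sto 15 (.r 41) (.r 10), .set 41 (.add (.r 41) (.c 1))]) .skip))
    (fun j s' q' => q' = q ∧ ((∀ j, j < R.length → s'.arr 12 j = R.getD j 0) ∧
      ∀ a, s'.arr 14 a = R.count a) ∧ s'.reg 41 = ((List.range j).filter (Once R)).length ∧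
      ∀ i, i < ((List.range j).filter (Once R)).length →
        s'.arr 15 i = ((List.range j).filter (Once R)).getD i 0) (by omega) (by decide)
    (by decide) (by decide) (fun j s' q' v h => by simpa using h) (by
      rintro j s3 q3 hj ⟨rfl, ⟨h3, h4⟩, h5, h6⟩ h10 -
      apply r5_wp (P := fun s' q' k => (q' = q3 ∧ ((∀ j, j < R.length → s'.arr 12 j = R.getD j 0) ∧
        ∀ a, s'.arr 14 a = R.count a) ∧
        s'.reg 41 = ((List.range (j + 1)).filter (Once R)).length ∧
        ∀ i, i < ((List.range (j + 1)).filter (Once R)).length →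
        s'.arr 15 i = ((List.range (j + 1)).filter (Once R)).getD i 0) ∧ k ≤ 30)
      have hl := hlen j hj.le
      simp only [blk, wp, Ex.Ok, Ex.eval, Co.Ok, Co.Holds, Ex.sz, Co.sz, reg_setReg, arr_setReg,
        reg_setArr, arr_setArr, h10, h3 j hj, h4, h5, List.range_succ, List.filter_append]
      refine ⟨⟨trivial, by omega⟩, fun hc => ?_, fun hc => ?_⟩
      · have ho : Once R j = true := by simpa [Once] using hc
        rw [List.filter_cons_of_pos ho, List.filter_nil]
        refine ⟨trivial, trivial, ⟨trivial, by omega, by omega⟩, ⟨trivial, ⟨?_, ?_⟩, ?_, ?_⟩,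
          by omega⟩
        · intro i hi
          rw [if_neg (by omega), h3 i hi]
        · intro a
          rw [if_neg (by omega)]
        · simp
        · intro i hi
          rw [List.length_append, List.length_singleton] at hi
          rcases Nat.lt_or_ge i ((List.range j).filter (Once R)).length with h | h
          · rw [if_neg (by omega), h6 i h, List.getD_append _ _ _ _ h]
          · have : i = ((List.range j).filter (Once R)).length := by omega
            rw [if_pos ⟨trivial, this⟩, List.getD_append_right _ _ _ _ h, this, Nat.sub_self]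
            rfl
      · have ho : ¬ Once R j = true := by simpa [Once] using hc
        rw [List.filter_cons_of_neg ho, List.filter_nil, List.append_nil]
        exact ⟨⟨trivial, ⟨h3, fun _ => trivial⟩, rfl, h6⟩, by omega⟩)
    (s := s1.setReg 41 0) (q := q) ⟨rfl, ⟨h1, h2⟩, by simp, by simp⟩ (by simp [h401])
  rw [hq2] at r2
  have r3 : XRun M inp lam (.set 41 (.c 0)) (s1, q) (s1.setReg 41 0, q) 2 :=
    .set s1 q 41 (.c 0) (by show 0 < M; omega)
  refine ⟨s2, k1 + (2 + k2), .seq _ _ _ _ _ _ _ r1 (.seq _ _ _ _ _ _ _ r3 r2), h4, h5, h3.2,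
    by omega⟩

/-! ### the plan -/

private theorem r5_setReg_self (s : St) (i : ℕ) : s.setReg i (s.reg i) = s := by
  ext j <;> simp
  intro h
  rw [h]

private theorem r5_ite_set {c : Co} {i : ℕ} {e1 e2 : Ex} {v : ℕ} {R : St × AQ → ℕ → Prop}
    {s : St} {q : AQ} (hc : c.Ok M inp s)
    (h1 : c.Holds inp s → e1.Ok M inp s ∧ e1.eval inp s = v)
    (h2 : ¬ c.Holds inp s → e2.Ok M inp s ∧ e2.eval inp s = v)
    (hR : ∀ k, k ≤ c.sz + e1.sz + e2.sz + 3 → R (s.setReg i v, q) k) :
    wp M inp (opS lam) (.ite c (.set i e1) (.set i e2)) R (s, q) := by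
  simp only [wp]
  refine ⟨hc, fun h => ?_, fun h => ?_⟩
  · obtain ⟨h3, h4⟩ := h1 h
    rw [h4]
    exact ⟨h3, hR _ (by omega)⟩
  · obtain ⟨h3, h4⟩ := h2 h
    rw [h4]
    exact ⟨h3, hR _ (by omega)⟩

private theorem r5_hur_lt {R : List ℕ} {i : ℕ} (hi : i < (hurdles R).length) :
    (hurdles R).getD i 0 < R.length := by
  have h := List.getElem_mem hi
  rw [List.getD_eq_getElem _ _ hi]
  have h2 : (hurdles R)[i] ∈ (List.range R.length).filter (Once R) := h
  rw [List.mem_filter, List.mem_range] at h2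
  exact h2.1

/-- in a fortress there are two hurdles -/
private theorem r5_fort {R : List ℕ} (hR : CW R) (ho : (hurdles R).length % 2 = 1)
    (hs : ¬ sidx R < (hurdles R).length) : 2 ≤ (hurdles R).length := by
  by_contra hlt
  have h1 : (hurdles R).length = 1 := by omega
  have h2 := (plan_lt hR).1 ((hurdles R).getD 0 0, (hurdles R).getD 1 0) (by
    unfold plan
    rw [if_neg (by omega), if_neg hs]
    simp)
  simp only at h2
  have h3 : (hurdles R).getD 1 0 = 0 := by
    rw [List.getD_eq_default _ _ (by omega)]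
  rw [h3] at h2
  have h4 : 0 ∈ hurdles R := by
    have : 0 ∈ (List.range R.length).filter (Once R) := by
      rw [List.mem_filter, List.mem_range]
      exact ⟨h2.2.1, h2.2.2.2.2⟩
    exact this
  obtain ⟨a, ha⟩ := List.length_eq_one_iff.1 h1
  rw [ha] at h2 h4
  simp at h4
  subst h4
  simp at h2

/-- the hurdle which is not super -/
private theorem r5_sup {s : St} {R : List ℕ} (hM : R.length + 10 ≤ M)
    (h40 : s.reg 40 = R.length)
    (h41 : s.reg 41 = (hurdles R).length) (h12 : ∀ j, j < R.length → s.arr 12 j = R.getD j 0)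
    (h15 : ∀ i, i < (hurdles R).length → s.arr 15 i = (hurdles R).getD i 0)
    (h14 : ∀ a, s.arr 14 a = R.count a) (q : AQ) :
    ∃ s' k, XRun M inp lam pSup (s, q) (s', q) k ∧ s'.reg 45 = sidx R ∧
      k ≤ 200 * (R.length + 1) := by
  set H := hurdles R with hH
  have hHl : H.length ≤ R.length := by
    rw [hH]
    unfold hurdles
    refine (List.length_filter_le _ _).trans ?_
    simp
  have r1 : XRun M inp lam (.set 45 (.r 41)) (s, q) (s.setReg 45 (s.reg 41), q) 2 :=
    .set s q 45 (.r 41) trivial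
  obtain ⟨s2, q2, k2, r2, ⟨hq2, -, -, h5⟩, -, -, hk2⟩ := forN_run (M := M) (inp := inp)
    (lam := lam) (i := 10) (n := 41) (N := H.length) (c := 100)
    (body := (blk [
      .set 11 (.ld 15 (.r 10)),
      .ite (.eq (.r 11) (.c 0)) (.set 12 (.sub (.r 40) (.c 1))) (.set 12 (.sub (.r 11) (.c 1))),
      .ite (.eq (.add (.r 11) (.c 1)) (.r 40)) (.set 13 (.c 0)) (.set 13 (.add (.r 11) (.c 1))),
      .set 14 (.c 0),
      .ite (.eq (.ld 12 (.r 12)) (.ld 12 (.r 13)))
        (.ite (.eq (.ld 14 (.ld 12 (.r 12))) (.c 2)) (.set 14 (.c 1)) .skip) .skip,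
      .ite (.eq (.r 14) (.c 0)) (.ite (.eq (.r 45) (.r 41)) (.set 45 (.r 10)) .skip) .skip]))
    (fun j s' q' => q' = q ∧ s'.arr = s.arr ∧ s'.reg 40 = R.length ∧
      ((s'.reg 45 = H.length ∧ ∀ i, i < j → Sup R (H.getD i 0) = true) ∨
      (s'.reg 45 < j ∧ Sup R (H.getD (s'.reg 45) 0) = false ∧
        ∀ i, i < s'.reg 45 → Sup R (H.getD i 0) = true))) (by omega) (by decide)
    (by decide) (by decide) (fun j s' q' v h => by simpa using h) (by
      rintro j s3 q3 hj ⟨hq3, h3, h4, h5⟩ h10 h6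
      have hlt := r5_hur_lt (R := R) hj
      rw [← hH] at hlt
      obtain ⟨x, hx⟩ : ∃ x, x = H.getD j 0 := ⟨_, rfl⟩
      rw [← hx] at hlt
      have hp : prd R.length x < R.length := by unfold prd; split_ifs <;> omega
      have hs : scc R.length x < R.length := by unfold scc; split_ifs <;> omega
      have e1 : s.arr 15 j = x := by rw [h15 j hj, hx]
      have e2 := h12 _ hp
      have e3 := h12 _ hs
      apply r5_wp (P := fun s' q' k => (q' = q ∧ s'.arr = s.arr ∧ s'.reg 40 = R.length ∧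
      ((s'.reg 45 = H.length ∧ ∀ i, i < j + 1 → Sup R (H.getD i 0) = true) ∨
      (s'.reg 45 < j + 1 ∧ Sup R (H.getD (s'.reg 45) 0) = false ∧
        ∀ i, i < s'.reg 45 → Sup R (H.getD i 0) = true))) ∧ k ≤ 100)
      simp only [blk]
      unfold wp
      refine wp_mono M inp (opS lam) (R' := fun s' k => s' = (s3.setReg 11 x, q) ∧ k ≤ 5) ?_ ?_
      · simp only [wp, Ex.Ok, Ex.eval, Ex.sz, h10, h3, e1, hq3]
        refine ⟨trivial, trivial, by omega⟩
      rintro - k1 ⟨rfl, hk1⟩
      unfold wp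
      refine r5_ite_set (v := prd R.length x) ?_ ?_ ?_ ?_
      · simp [Co.Ok, Ex.Ok]; omega
      · intro hc
        simp only [Co.Holds, Ex.eval, reg_setReg, if_true] at hc
        simp [Ex.Ok, Ex.eval, h4, prd, hc]; omega
      · intro hc
        simp only [Co.Holds, Ex.eval, reg_setReg, if_true] at hc
        simp [Ex.Ok, Ex.eval, h4, prd, hc]; omega
      intro k2 hk2
      unfold wp
      refine r5_ite_set (v := scc R.length x) ?_ ?_ ?_ ?_
      · simp [Co.Ok, Ex.Ok, Ex.eval]; omega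
      · intro hc
        simp [Co.Holds, Ex.eval, h4] at hc
        simp [Ex.Ok, Ex.eval, h4, scc, hc]; omega
      · intro hc
        simp [Co.Holds, Ex.eval, h4] at hc
        simp [Ex.Ok, Ex.eval, h4, scc, hc]; omega
      intro k3 hk3
      simp only [Co.sz, Ex.sz] at hk2 hk3
      have P1 : Sup R x = true → ((s3.reg 45 = H.length ∧
          ∀ i, i < j + 1 → Sup R (H.getD i 0) = true) ∨
          (s3.reg 45 < j + 1 ∧ Sup R (H.getD (s3.reg 45) 0) = false ∧
          ∀ i, i < s3.reg 45 → Sup R (H.getD i 0) = true)) := by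
        intro hS
        rcases h5 with ⟨h7, h8⟩ | ⟨h7, h8⟩
        · left
          refine ⟨h7, fun i hi => ?_⟩
          rcases Nat.lt_or_ge i j with h | h
          · exact h8 i h
          · have : i = j := by omega
            rw [this, ← hx, hS]
        · right
          exact ⟨by omega, h8⟩
      have P2 : ¬ Sup R x = true → s3.reg 45 = H.length → ((j = H.length ∧
          ∀ i, i < j + 1 → Sup R (H.getD i 0) = true) ∨
          (j < j + 1 ∧ Sup R (H.getD j 0) = false ∧
          ∀ i, i < j → Sup R (H.getD i 0) = true)) := by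
        intro hS h7
        rcases h5 with ⟨-, h8⟩ | ⟨h7, h8⟩
        · right
          refine ⟨by omega, ?_, h8⟩
          rw [← hx]
          simpa using hS
        · omega
      have P3 : ¬ s3.reg 45 = H.length → ((s3.reg 45 = H.length ∧
          ∀ i, i < j + 1 → Sup R (H.getD i 0) = true) ∨
          (s3.reg 45 < j + 1 ∧ Sup R (H.getD (s3.reg 45) 0) = false ∧
          ∀ i, i < s3.reg 45 → Sup R (H.getD i 0) = true)) := by
        intro hS
        rcases h5 with ⟨h7, h8⟩ | ⟨h7, h8⟩
        · omega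
        · right
          exact ⟨by omega, h8⟩
      have hM2 : 2 < M := by omega
      have hM1 : 1 < M := by omega
      have hM0 : 0 < M := by omega
      have hSup : Sup R x = true ↔ (R.getD (prd R.length x) 0 = R.getD (scc R.length x) 0 ∧
          R.count (R.getD (prd R.length x) 0) = 2) := by
        unfold Sup
        exact decide_eq_true_iff
      simp only [wp, Ex.Ok, Ex.eval, Co.Ok, Co.Holds, Ex.sz, Co.sz, reg_setReg, arr_setReg, h3, h4,
        h10, h6, if_true, if_false, Nat.reduceEqDiff, e2, e3, h14]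
      refine ⟨hM0, ⟨trivial, trivial⟩, fun ha => ⟨⟨trivial, hM2⟩, fun hb => ⟨hM1, ⟨trivial, hM0⟩,
        fun h => h.elim, fun _ => ⟨⟨trivial, trivial, trivial, P1 (hSup.2 ⟨ha, hb⟩)⟩, by omega⟩⟩,
        fun hb => ⟨⟨trivial, hM0⟩, fun _ => ⟨⟨trivial, trivial⟩, fun h7 => ⟨trivial, ⟨trivial,
          trivial, trivial, P2 (fun h8 => hb (hSup.1 h8).2) h7⟩, by omega⟩,
          fun h7 => ⟨⟨trivial, trivial, trivial, P3 h7⟩, by omega⟩⟩, fun h => absurd trivial h⟩⟩,
        fun ha => ⟨⟨trivial, hM0⟩, fun _ => ⟨⟨trivial, trivial⟩, fun h7 => ⟨trivial, ⟨trivial,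
          trivial, trivial, P2 (fun h8 => ha (hSup.1 h8).1) h7⟩, by omega⟩,
          fun h7 => ⟨⟨trivial, trivial, trivial, P3 h7⟩, by omega⟩⟩, fun h => absurd trivial h⟩⟩)
    (s := s.setReg 45 (s.reg 41)) (q := q) ⟨rfl, rfl, h40, Or.inl ⟨by simp [h41], by simp⟩⟩
    (by simp [h41])
  rw [hq2] at r2
  refine ⟨s2, 2 + k2, .seq _ _ _ _ _ _ _ r1 r2, ?_, by
    have : (100 + 8) * H.length ≤ 108 * R.length := by omega
    omega⟩
  have hd : sidx R = H.findIdx (fun j => !Sup R j) := rfl
  rw [hd]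
  symm
  rcases h5 with ⟨h7, h8⟩ | ⟨h7, h8, h9⟩
  · rw [h7, List.findIdx_eq_length]
    intro y hy
    obtain ⟨i, hi, rfl⟩ := List.getElem_of_mem hy
    have := h8 i hi
    rw [List.getD_eq_getElem _ _ hi] at this
    simp [this]
  · rw [List.findIdx_eq h7]
    refine ⟨?_, fun i hi => ?_⟩
    · rw [List.getD_eq_getElem _ _ h7] at h8
      simp [h8]
    · have := h9 i hi
      rw [List.getD_eq_getElem _ _ (by omega)] at this
      simp [this]

/-- mode and index of the single hurdle -/
private theorem r5_mode {s : St} {R : List ℕ} (hM : R.length + 10 ≤ M)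
    (h40 : s.reg 40 = R.length)
    (h41 : s.reg 41 = (hurdles R).length) (h12 : ∀ j, j < R.length → s.arr 12 j = R.getD j 0)
    (h15 : ∀ i, i < (hurdles R).length → s.arr 15 i = (hurdles R).getD i 0)
    (h14 : ∀ a, s.arr 14 a = R.count a) (q : AQ) :
    ∃ s' k, XRun M inp lam (.seq (.set 43 (.half (.r 41))) (.seq (.set 44 (.c 0))
        (.ite (.eq (.r 41) (dbl (.r 43))) (.set 45 (.r 41))
        (blk [pSup, .set 44 (.c 1),
          .ite (.eq (.r 45) (.r 41)) (blk [.set 44 (.c 2), .set 45 (.c 0)]) .skip]))))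
        (s, q) (s', q) k ∧ s'.reg 43 = (hurdles R).length / 2 ∧
      ((s'.reg 44 = 0 ∧ (hurdles R).length % 2 = 0 ∧ s'.reg 45 = (hurdles R).length) ∨
       (s'.reg 44 = 1 ∧ (hurdles R).length % 2 = 1 ∧ s'.reg 45 = sidx R ∧
          sidx R < (hurdles R).length) ∨
       (s'.reg 44 = 2 ∧ (hurdles R).length % 2 = 1 ∧ s'.reg 45 = 0 ∧
          ¬ sidx R < (hurdles R).length)) ∧ k ≤ 200 * (R.length + 1) + 50 := by
  set H := hurdles R with hH
  have hHl : H.length ≤ R.length := by
    rw [hH]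
    unfold hurdles
    refine (List.length_filter_le _ _).trans ?_
    simp
  set s1 := (s.setReg 43 (H.length / 2)).setReg 44 0 with hs1
  obtain ⟨s2, k2, r2, h45, hk2⟩ := r5_sup (lam := lam) (inp := inp) hM (s := s1)
    (by simpa [hs1] using h40) (by simpa [hs1] using h41) (by simpa [hs1] using h12)
    (by simpa [hs1] using h15) (by simpa [hs1] using h14) q
  have fr := run_frame r2
  have e43 : s2.reg 43 = H.length / 2 := by
    have := fr.2.1 43 (by decide)
    simpa [hs1] using this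
  have e41 : s2.reg 41 = H.length := by
    have := fr.2.1 41 (by decide)
    simpa [hs1, h41] using this
  have hle : sidx R ≤ H.length := List.findIdx_le_length
  have hM2 : 2 < M := by omega
  have hM1 : 1 < M := by omega
  have hM0 : 0 < M := by omega
  have key : wp M inp (opS lam) (.seq (.set 43 (.half (.r 41))) (.seq (.set 44 (.c 0))
        (.ite (.eq (.r 41) (dbl (.r 43))) (.set 45 (.r 41))
        (blk [pSup, .set 44 (.c 1),
          .ite (.eq (.r 45) (.r 41)) (blk [.set 44 (.c 2), .set 45 (.c 0)]) .skip]))))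
      (fun s' k => (s'.2 = q ∧ s'.1.reg 43 = H.length / 2 ∧
      ((s'.1.reg 44 = 0 ∧ H.length % 2 = 0 ∧ s'.1.reg 45 = H.length) ∨
       (s'.1.reg 44 = 1 ∧ H.length % 2 = 1 ∧ s'.1.reg 45 = sidx R ∧ sidx R < H.length) ∨
       (s'.1.reg 44 = 2 ∧ H.length % 2 = 1 ∧ s'.1.reg 45 = 0 ∧ ¬ sidx R < H.length))) ∧
      k ≤ 200 * (R.length + 1) + 50) (s, q) := by
    simp only [wp, Ex.Ok, Ex.eval, Co.Ok, Co.Holds, Ex.sz, Co.sz, reg_setReg, arr_setReg,
      dbl, h41]
    rw [← hs1]
    refine ⟨trivial, hM0, ⟨trivial, trivial, trivial, ?_⟩, fun h => ?_, fun h => ?_⟩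
    · simp [hs1]; omega
    · have e : H.length % 2 = 0 := by
        simp [hs1, h41] at h
        omega
      refine ⟨trivial, ⟨trivial, by simp [hs1], Or.inl ⟨by simp [hs1], e, ?_⟩⟩, by omega⟩
      simp [hs1, h41]
    · have e : H.length % 2 = 1 := by
        simp [hs1, h41] at h
        omega
      simp only [blk]
      unfold wp
      refine run_wp M inp (opS lam) r2 _ ?_
      simp only [wp, Ex.Ok, Ex.eval, Co.Ok, Co.Holds, Ex.sz, Co.sz, reg_setReg, arr_setReg,
        h45, e43, e41, if_true, if_false, Nat.reduceEqDiff]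
      refine ⟨hM1, ⟨trivial, trivial⟩, fun h1 => ⟨hM2, hM0, ⟨trivial, trivial, Or.inr (Or.inr
        ⟨trivial, e, trivial, by omega⟩)⟩, by omega⟩, fun h1 => ⟨⟨trivial, trivial,
        Or.inr (Or.inl ⟨trivial, e, trivial, by omega⟩)⟩, by omega⟩⟩
  obtain ⟨⟨s', q'⟩, k, r, ⟨hq, h2⟩, hk⟩ := wp_run M inp (opS lam) _ _ _ key
  simp only at hq
  subst hq
  exact ⟨s', k, r, h2.1, h2.2, hk⟩

private theorem r5_erase {H : List ℕ} {t i : ℕ} (hi : i < (H.eraseIdx t).length) :
    (H.eraseIdx t).getD i 0 = if i < t then H.getD i 0 else H.getD (i + 1) 0 := by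
  rw [List.getD_eq_getElem _ _ hi, List.getElem_eraseIdx]
  have hl : (H.eraseIdx t).length ≤ H.length := List.length_eraseIdx_le ..
  by_cases h : i < t
  · rw [dif_pos h, if_pos h, List.getD_eq_getElem _ _ (by omega)]
  · rw [dif_neg h, if_neg h]
    have : i + 1 < H.length := by
      rcases Nat.lt_or_ge t H.length with h2 | h2
      · rw [List.length_eraseIdx_of_lt h2] at hi
        omega
      · rw [List.eraseIdx_of_length_le h2] at hi
        omega
    rw [List.getD_eq_getElem _ _ this]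

/-- the loop over the pairs -/
private theorem r5_pairs {s : St} {R : List ℕ} (hM : R.length + 10 ≤ M)
    (h15 : ∀ i, i < (hurdles R).length → s.arr 15 i = (hurdles R).getD i 0)
    (h43 : s.reg 43 = (hurdles R).length / 2) {t : ℕ} (h45 : s.reg 45 = t)
    (ht : ((hurdles R).eraseIdx t).length = 2 * ((hurdles R).length / 2)) (q : AQ) :
    ∃ s' k, XRun M inp lam (forN 10 43 (blk [
        .set 11 (.r 10), .ite (.lt (.r 11) (.r 45)) .skip (.set 11 (.add (.r 11) (.c 1))),
        .set 12 (.add (.r 10) (.r 43)),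
        .ite (.lt (.r 12) (.r 45)) .skip (.set 12 (.add (.r 12) (.c 1))),
        .sto 16 (.r 10) (.ld 13 (.ld 15 (.r 11))), .sto 17 (.r 10) (.ld 13 (.ld 15 (.r 12)))]))
        (s, q) (s', q) k ∧
      (∀ i, i < (halves ((hurdles R).eraseIdx t)).length →
        s'.arr 16 i = s.arr 13 ((halves ((hurdles R).eraseIdx t)).getD i (0, 0)).1 ∧
        s'.arr 17 i = s.arr 13 ((halves ((hurdles R).eraseIdx t)).getD i (0, 0)).2) ∧
      k ≤ 100 * (R.length + 1) := by
  set H := hurdles R with hH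
  set N := H.length / 2 with hN
  have hHl : H.length ≤ R.length := by
    rw [hH]
    unfold hurdles
    refine (List.length_filter_le _ _).trans ?_
    simp
  have hM1 : 1 < M := by omega
  have hle := List.length_eraseIdx_le H t
  obtain ⟨s2, q2, k2, r2, ⟨hq2, -, -, -, -, h5⟩, -, -, hk2⟩ := forN_run (M := M) (inp := inp)
    (lam := lam) (i := 10) (n := 43) (N := N) (c := 60)
    (body := (blk [
        .set 11 (.r 10), .ite (.lt (.r 11) (.r 45)) .skip (.set 11 (.add (.r 11) (.c 1))),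
        .set 12 (.add (.r 10) (.r 43)),
        .ite (.lt (.r 12) (.r 45)) .skip (.set 12 (.add (.r 12) (.c 1))),
        .sto 16 (.r 10) (.ld 13 (.ld 15 (.r 11))), .sto 17 (.r 10) (.ld 13 (.ld 15 (.r 12)))]))
    (fun j s' q' => q' = q ∧ (∀ a, s'.arr 13 a = s.arr 13 a) ∧
      (∀ a, s'.arr 15 a = s.arr 15 a) ∧ s'.reg 45 = t ∧ s'.reg 43 = N ∧
      ∀ i, i < j → s'.arr 16 i = s.arr 13 ((H.eraseIdx t).getD i 0) ∧
        s'.arr 17 i = s.arr 13 ((H.eraseIdx t).getD (i + N) 0)) (by omega) (by decide)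
    (by decide) (by decide) (fun j s' q' v h => by simpa using h) (by
      rintro j s3 q3 hj ⟨hq3, h3, h4, h5, h6, h7⟩ h10 -
      apply r5_wp (P := fun s' q' k => (q' = q ∧ (∀ a, s'.arr 13 a = s.arr 13 a) ∧
        (∀ a, s'.arr 15 a = s.arr 15 a) ∧ s'.reg 45 = t ∧ s'.reg 43 = N ∧
      ∀ i, i < j + 1 → s'.arr 16 i = s.arr 13 ((H.eraseIdx t).getD i 0) ∧
        s'.arr 17 i = s.arr 13 ((H.eraseIdx t).getD (i + N) 0)) ∧ k ≤ 60)
      have a1 := r5_erase (H := H) (t := t) (i := j) (by omega)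
      have a2 := r5_erase (H := H) (t := t) (i := j + N) (by omega)
      have b1 : j < H.length := by omega
      have b2 : j + N < H.length := by omega
      have b3 : ¬ j < t → j + 1 < H.length := by
        intro h
        have := ht
        rw [List.length_eraseIdx] at this
        split_ifs at this <;> omega
      have b4 : ¬ j + N < t → j + N + 1 < H.length := by
        intro h
        have := ht
        rw [List.length_eraseIdx] at this
        split_ifs at this <;> omega
      have fin : ∀ x y : ℕ, x = (H.eraseIdx t).getD j 0 → y = (H.eraseIdx t).getD (j + N) 0 →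
          ∀ i, i < j + 1 → (if i = j then s.arr 13 x else s3.arr 16 i) =
            s.arr 13 ((H.eraseIdx t).getD i 0) ∧
          (if i = j then s.arr 13 y else s3.arr 17 i) =
            s.arr 13 ((H.eraseIdx t).getD (i + N) 0) := by
        rintro x y rfl rfl i hi
        by_cases h : i = j
        · subst h
          simp
        · rw [if_neg h, if_neg h]
          exact h7 i (by omega)
      simp only [blk, wp, Ex.Ok, Ex.eval, Co.Ok, Co.Holds, Ex.sz, Co.sz, reg_setReg, arr_setReg,
        reg_setArr, arr_setArr, h3, h4, h5, h6, h10, if_true, if_false, Nat.reduceEqDiff,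
        true_and, false_and, and_true, implies_true, h15 j b1, h15 (j + N) b2]
      have b5 : j + N < M := by omega
      refine ⟨fun c1 => ⟨b5, fun c2 => ⟨⟨hq3, fin _ _ ?_ ?_⟩, by omega⟩,
        fun c2 => ⟨⟨hM1, by omega⟩, ⟨hq3, fin _ _ ?_ ?_⟩, by omega⟩⟩,
        fun c1 => ⟨⟨hM1, by omega⟩, b5, fun c2 => ⟨⟨hq3, fin _ _ ?_ ?_⟩, by omega⟩,
        fun c2 => ⟨⟨hM1, by omega⟩, ⟨hq3, fin _ _ ?_ ?_⟩, by omega⟩⟩⟩
      · rw [a1, if_pos c1]
      · rw [a2, if_pos c2]
      · rw [a1, if_pos c1]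
      · rw [a2, if_neg c2, h15 _ (b4 c2)]
      · rw [a1, if_neg c1, h15 _ (b3 c1)]
      · rw [a2, if_pos c2]
      · rw [a1, if_neg c1, h15 _ (b3 c1)]
      · rw [a2, if_neg c2, h15 _ (b4 c2)])
    (s := s) (q := q) ⟨rfl, fun _ => rfl, fun _ => rfl, h45, h43, by simp⟩ h43
  rw [hq2] at r2
  have hNR : 2 * N ≤ R.length := by omega
  refine ⟨s2, k2, r2, ?_, by omega⟩
  intro i hi
  have hlen : (H.eraseIdx t).length / 2 = N := by omega
  have hi' : i < N := by
    unfold halves at hi
    simp only [List.length_map, List.length_range, hlen] at hi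
    exact hi
  have e : (halves (H.eraseIdx t)).getD i (0, 0) =
      ((H.eraseIdx t).getD i 0, (H.eraseIdx t).getD (i + N) 0) := by
    unfold halves
    rw [hlen, List.getD_eq_getElem _ _ (by simpa using hi')]
    simp
  rw [e]
  exact h5 i hi'

theorem plan_run {s : St} {R : List ℕ} (hM : R.length + 10 ≤ M) (hR : CW R)
    (h40 : s.reg 40 = R.length)
    (h41 : s.reg 41 = (hurdles R).length) (h12 : ∀ j, j < R.length → s.arr 12 j = R.getD j 0)
    (h13 : ∀ j, j < R.length → s.arr 13 j + 10 ≤ M)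
    (h15 : ∀ i, i < (hurdles R).length → s.arr 15 i = (hurdles R).getD i 0)
    (h14 : ∀ a, s.arr 14 a = R.count a) (q : AQ) :
    ∃ s' k, XRun M inp lam pPlan (s, q) (s', q) k ∧ s'.reg 42 = (planN R (s.arr 13)).length ∧
      (∀ i, i < (planN R (s.arr 13)).length →
        s'.arr 16 i = ((planN R (s.arr 13)).getD i (0, 0)).1 ∧
        s'.arr 17 i = ((planN R (s.arr 13)).getD i (0, 0)).2) ∧ k ≤ 1000 * (R.length + 1) := by
  obtain ⟨s1, k1, r1, h43, hmode, hk1⟩ := r5_mode (lam := lam) (inp := inp) hM h40 h41 h12 h15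
    h14 q
  have f1 := run_frame r1
  have g13 : s1.arr 13 = s.arr 13 := f1.1 13 (by decide)
  have g15 : s1.arr 15 = s.arr 15 := f1.1 15 (by decide)
  set H := hurdles R with hH
  set N := H.length / 2 with hN
  have hHl : H.length ≤ R.length := by
    rw [hH]
    unfold hurdles
    refine (List.length_filter_le _ _).trans ?_
    simp
  have hM1 : 1 < M := by omega
  have hM0 : 0 < M := by omega
  have ht : (H.eraseIdx (s1.reg 45)).length = 2 * N := by
    rcases hmode with ⟨-, a, b⟩ | ⟨-, a, b, c⟩ | ⟨-, a, b, c⟩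
    · rw [b, List.eraseIdx_of_length_le le_rfl]
      omega
    · rw [b, List.length_eraseIdx_of_lt c]
      omega
    · rw [b, List.length_eraseIdx_of_lt (by omega)]
      omega
  obtain ⟨s2, k2, r2, hp, hk2⟩ := r5_pairs (lam := lam) (inp := inp) hM
    (s := s1) (t := s1.reg 45) (by rw [g15]; exact h15) h43 rfl ht q
  rw [← hH] at hp
  have f2 := run_frame r2
  have e44 : s2.reg 44 = s1.reg 44 := f2.2.1 44 (by decide)
  have e45 : s2.reg 45 = s1.reg 45 := f2.2.1 45 (by decide)
  have e43 : s2.reg 43 = N := by rw [← h43]; exact f2.2.1 43 (by decide)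
  have e13 : s2.arr 13 = s.arr 13 := by rw [← g13]; exact f2.1 13 (by decide)
  have e15 : s2.arr 15 = s.arr 15 := by rw [← g15]; exact f2.1 15 (by decide)
  rw [g13] at hp
  have hhl : (halves (H.eraseIdx (s1.reg 45))).length = N := by
    unfold halves
    simp only [List.length_map, List.length_range]
    omega
  set HV := halves (H.eraseIdx (s1.reg 45)) with hHV
  rw [hhl] at hp
  -- the plan
  obtain ⟨E, hE, hE2⟩ : ∃ E : List (ℕ × ℕ), planN R (s.arr 13) =
      HV.map (fun c => (s.arr 13 c.1, s.arr 13 c.2)) ++ E ∧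
      ((s1.reg 44 = 0 ∧ E = []) ∨
       (s1.reg 44 = 1 ∧ s1.reg 45 < H.length ∧ E = [(2 * (s.arr 13 (H.getD (s1.reg 45) 0) / 2),
          2 * (s.arr 13 (H.getD (s1.reg 45) 0) / 2) + 1)]) ∨
       (s1.reg 44 = 2 ∧ 2 ≤ H.length ∧
          E = [(s.arr 13 (H.getD 0 0), s.arr 13 (H.getD 1 0))])) := by
    rcases hmode with ⟨a, b, c⟩ | ⟨a, b, c, d⟩ | ⟨a, b, c, d⟩
    · refine ⟨[], ?_, Or.inl ⟨a, rfl⟩⟩
      unfold planN plan
      rw [← hH, if_pos b]
      simp only
      rw [hHV, c, List.eraseIdx_of_length_le le_rfl]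
    · refine ⟨_, ?_, Or.inr (Or.inl ⟨a, by omega, rfl⟩)⟩
      unfold planN plan
      rw [← hH, if_neg (by omega), if_pos d, ← c]
    · refine ⟨_, ?_, Or.inr (Or.inr ⟨a, r5_fort hR b d, rfl⟩)⟩
      unfold planN plan
      rw [← hH, if_neg (by omega), if_neg d, hHV, c]
      simp
  have hL1 : (HV.map (fun c => (s.arr 13 c.1, s.arr 13 c.2))).length = N := by
    rw [List.length_map, hhl]
  have hlow : ∀ i, i < N → s2.arr 16 i = ((planN R (s.arr 13)).getD i (0, 0)).1 ∧
      s2.arr 17 i = ((planN R (s.arr 13)).getD i (0, 0)).2 := by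
    intro i hi
    rw [hE, List.getD_append _ _ _ _ (by rw [hL1]; exact hi),
      List.getD_eq_getElem _ _ (by rw [hL1]; exact hi), List.getElem_map]
    have := hp i hi
    rw [List.getD_eq_getElem _ _ (by rw [hhl]; exact hi)] at this
    exact this
  -- the last part of the program
  have key : wp M inp (opS lam) (.seq (.set 42 (.r 43)) (.ite (.eq (.r 44) (.c 0)) .skip
    (blk [
      .ite (.eq (.r 44) (.c 1))
        (blk [.set 11 (.half (.ld 13 (.ld 15 (.r 45)))), .sto 16 (.r 42) (dbl (.r 11)),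
          .sto 17 (.r 42) (dbl1 (.r 11))])
        (blk [.sto 16 (.r 42) (.ld 13 (.ld 15 (.c 0))), .sto 17 (.r 42) (.ld 13 (.ld 15 (.c 1)))]),
      .set 42 (.add (.r 42) (.c 1))])))
      (fun s' k => (s'.2 = q ∧ s'.1.reg 42 = (planN R (s.arr 13)).length ∧
      (∀ i, i < (planN R (s.arr 13)).length →
        s'.1.arr 16 i = ((planN R (s.arr 13)).getD i (0, 0)).1 ∧
        s'.1.arr 17 i = ((planN R (s.arr 13)).getD i (0, 0)).2)) ∧ k ≤ 100) (s2, q) := by
    have d13 : ∀ a, s2.arr 13 a = s.arr 13 a := fun a => by rw [e13]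
    have d15 : ∀ a, s2.arr 15 a = s.arr 15 a := fun a => by rw [e15]
    have hlen : (planN R (s.arr 13)).length = N + E.length := by
      rw [hE, List.length_append, hL1]
    have hget : ∀ c, E = [c] → (planN R (s.arr 13)).getD N (0, 0) = c := by
      rintro c rfl
      rw [hE, List.getD_append_right _ _ _ _ (by rw [hL1]), hL1]
      simp
    simp only [blk, wp, Ex.Ok, Ex.eval, Co.Ok, Co.Holds, Ex.sz, Co.sz, reg_setReg, arr_setReg,
      reg_setArr, arr_setArr, dbl, dbl1, e43, e44, e45, d13, d15, if_true, if_false,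
      Nat.reduceEqDiff, true_and, false_and, and_true]
    rw [hlen]
    rcases hE2 with ⟨a, b⟩ | ⟨a, b, c⟩ | ⟨a, b, c⟩
    · refine ⟨hM0, fun _ => ⟨⟨by simp [b], fun i hi => ?_⟩, by omega⟩, fun h => absurd a h⟩
      rw [b, List.length_nil] at hi
      exact hlow i (by omega)
    · refine ⟨hM0, fun h => by omega, fun _ => ⟨hM1, fun _ => ?_, fun h => absurd a h⟩⟩
      have z1 : H.getD (s1.reg 45) 0 < R.length := r5_hur_lt (R := R) b
      have z2 := h13 _ z1
      rw [h15 _ b]
      refine ⟨by omega, ⟨by omega, hM1, by omega⟩, ⟨hM1, by omega⟩, ⟨by simp [c], fun i hi => ?_⟩,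
        by omega⟩
      rw [c, List.length_singleton] at hi
      rcases Nat.lt_or_ge i N with h | h
      · rw [if_neg (by omega), if_neg (by omega)]
        exact hlow i h
      · have : i = N := by omega
        subst this
        rw [if_pos rfl, if_pos rfl, hget _ c]
        exact ⟨by simp only; omega, by simp only; omega⟩
    · refine ⟨hM0, fun h => by omega, fun _ => ⟨hM1, fun h => by omega, fun _ => ?_⟩⟩
      rw [h15 0 (by omega), h15 1 (by omega)]
      refine ⟨hM0, hM1, ⟨hM1, by omega⟩, ⟨by simp [c], fun i hi => ?_⟩, by omega⟩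
      rw [c, List.length_singleton] at hi
      rcases Nat.lt_or_ge i N with h | h
      · rw [if_neg (by omega), if_neg (by omega)]
        exact hlow i h
      · have : i = N := by omega
        subst this
        rw [if_pos rfl, if_pos rfl, hget _ c]
        exact ⟨rfl, rfl⟩
  obtain ⟨⟨s3, q3⟩, k3, r3, ⟨hq3, h42, h16⟩, hk3⟩ := wp_run M inp (opS lam) _ _ _ key
  simp only at hq3 h42 h16
  rw [hq3] at r3
  cases r1 with
  | seq _ _ _ sa _ ka kb ra rb =>
    cases rb with
    | seq _ _ _ sb _ kc kd rc rd =>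
      refine ⟨s3, ka + (kc + (kd + (k2 + k3))), ?_, h42, h16, by omega⟩
      exact .seq _ _ _ _ _ _ _ ra (.seq _ _ _ _ _ _ _ rc (.seq _ _ _ _ _ _ _ rd
        (.seq _ _ _ _ _ _ _ r2 r3)))

end

end SBR
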