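/-
SBR/R6.lean : cutting at pairs of nodes, printing the reversals.
-/
import Pool.Agent.SBR.Rep
import Pool.Agent.SBR.E2
import Pool.Agent.SBR.Q1
import Pool.Agent.SBR.Q2

namespace SBR

section
variable {M lam n : ℕ} {inp : ℕ → ℕ} {s : St} {q : AQ} {w : Lay}

/-- second part of `pCut` -/
def r6Tail : XStm := blk [
  .prt (.add (.r 32) (.c 1)), .prt (.r 34),
  .set 36 (dbl (.r 32)), .set 37 (dbl1 (.r 34)),
  .prim (.kth 36 38), .prim (.kth 37 39), .prim (.rev 38 39)]

theorem r6_tail_run (hM : 16 * (n + 1) ≤ M) (hw : EL n w) (hq : RepQ (2 * (n + 1)) q w)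
    {g h : ℕ} (hgh : g < h) (hh : h ≤ n) (h32 : s.reg 32 = g) (h34 : s.reg 34 = h) :
    ∃ s' k, XRun M inp lam r6Tail (s, q) s' k ∧ (RepQ (2 * (n + 1)) s'.2 (w.grev g h) ∧
      s'.2.key = q.key ∧ s'.1.out = s.out ++ [g + 1, h] ∧ k ≤ 3 * lam + 40) := by
  apply wp_run
  simp only [r6Tail, blk, wp]
  refine ⟨?_, ?_, ?_, ?_, ?_⟩
  · simp only [Ex.Ok, Ex.eval, true_and]
    omega
  · simp only [Ex.Ok]
  · simp only [dbl, Ex.Ok, Ex.eval, reg_print, true_and]
    omega
  · simp only [dbl1, Ex.Ok, Ex.eval, reg_print, reg_setReg, true_and]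
    simp
    omega
  · obtain ⟨s1, hs1⟩ : ∃ s1 : St, s1 = (((((s.print ((Ex.add (.r 32) (.c 1)).eval inp s)).print
        ((Ex.r 34).eval inp (s.print ((Ex.add (.r 32) (.c 1)).eval inp s)))).setReg 36
        ((dbl (.r 32)).eval inp ((s.print ((Ex.add (.r 32) (.c 1)).eval inp s)).print
        ((Ex.r 34).eval inp (s.print ((Ex.add (.r 32) (.c 1)).eval inp s)))))))) := ⟨_, rfl⟩
    rw [← hs1]
    obtain ⟨s2, hs2⟩ : ∃ s2 : St, s2 = s1.setReg 37 ((dbl1 (.r 34)).eval inp s1) := ⟨_, rfl⟩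
    rw [← hs2]
    have e36 : s2.reg 36 = 2 * g := by
      rw [hs2, hs1]
      simp [dbl, Ex.eval, h32]
      omega
    have e37 : s2.reg 37 = 2 * h + 1 := by
      rw [hs2, hs1]
      simp [dbl1, Ex.eval, h34]
      omega
    have eout : s2.out = s.out ++ [g + 1, h] := by
      rw [hs2, hs1]
      simp [Ex.eval, h32, h34]
    obtain ⟨a, ha, hpa, hra⟩ := rep_kth (lam := lam) (s := s2) (k := 36) (d := 38) hw.good hq
      (by rw [e36]; omega)
    refine ⟨_, _, hra, ?_⟩
    obtain ⟨b, hb, hpb, hrb⟩ := rep_kth (lam := lam) (s := s2.setReg 38 a) (k := 37) (d := 39)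
      hw.good hq (by simp only [reg_setReg]; simp [e37]; omega)
    refine ⟨_, _, hrb, ?_⟩
    have f38 : ((s2.setReg 38 a).setReg 39 b).reg 38 = a := by simp
    have f39 : ((s2.setReg 38 a).setReg 39 b).reg 39 = b := by simp
    have hpb' : w.pos b = 2 * h + 1 := by
      rw [hpb]
      simp [e37]
    rw [e36] at hpa
    obtain ⟨q', hr, hq', hkey⟩ := rep_rev (lam := lam) (s := (s2.setReg 38 a).setReg 39 b)
      (a := 38) (b := 39) hw.good hq (by rw [f38]; exact ha) (by rw [f39]; exact hb)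
      (by rw [f38, f39]; intro hab; rw [hab] at hpa; omega)
    refine ⟨_, _, hr, ?_, hkey, ?_, ?_⟩
    · rw [f38, f39, grev_eq_rev hw hgh hh ha hb hpa hpb'] at hq'
      exact hq'
    · exact eout
    · simp only [dbl, dbl1, Ex.sz]
      omega

theorem r6_cut_run (hM : 16 * (n + 1) ≤ M) (hw : EL n w) (hq : RepQ (2 * (n + 1)) q w)
    (hx : s.reg 30 < 2 * (n + 1)) (hy : s.reg 31 < 2 * (n + 1))
    (hne : w.gap (s.reg 30) ≠ w.gap (s.reg 31)) :
    ∃ s' k, XRun M inp lam pCut (s, q) s' k ∧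
      (RepQ (2 * (n + 1)) s'.2 (w.cut (s.reg 30, s.reg 31)) ∧
      s'.2.key = q.key ∧ s'.1.out = s.out ++ [min (w.gap (s.reg 30)) (w.gap (s.reg 31)) + 1,
        max (w.gap (s.reg 30)) (w.gap (s.reg 31))] ∧ k ≤ 5 * lam + 100) := by
  have hpx := hw.good.lt _ hx
  have hpy := hw.good.lt _ hy
  have hgx : w.gap (s.reg 30) ≤ n := by
    unfold Lay.gap
    omega
  have hgy : w.gap (s.reg 31) ≤ n := by
    unfold Lay.gap
    omega
  apply wp_run
  have htail : pCut = blk [.prim (.rank 30 32 33), .prim (.rank 31 34 35),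
      .set 32 (.half (.r 32)), .set 34 (.half (.r 34)),
      .ite (.lt (.r 34) (.r 32)) (blk [.set 36 (.r 32), .set 32 (.r 34), .set 34 (.r 36)]) .skip,
      r6Tail] := rfl
  rw [htail]
  simp only [blk, wp]
  obtain ⟨s1, hs1⟩ : ∃ s1 : St, s1 = (s.setReg 32 (w.pos (s.reg 30))).setReg 33
      (b2n (w.sg (s.reg 30))) := ⟨_, rfl⟩
  have hr1 := rep_rank (lam := lam) (s := s) hq (x := 30) (d := 32) (e := 33) hx (by decide)
  rw [← hs1] at hr1
  have e31 : s1.reg 31 = s.reg 31 := by rw [hs1]; simp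
  have e32 : s1.reg 32 = w.pos (s.reg 30) := by rw [hs1]; simp
  have eout : s1.out = s.out := by rw [hs1]; simp
  refine ⟨_, _, hr1, ?_⟩
  obtain ⟨s2, hs2⟩ : ∃ s2 : St, s2 = (s1.setReg 34 (w.pos (s1.reg 31))).setReg 35
      (b2n (w.sg (s1.reg 31))) := ⟨_, rfl⟩
  have hr2 := rep_rank (lam := lam) (s := s1) hq (x := 31) (d := 34) (e := 35)
    (by rw [e31]; exact hy) (by decide)
  rw [← hs2] at hr2
  have f32 : s2.reg 32 = w.pos (s.reg 30) := by rw [hs2]; simp [e32]
  have f34 : s2.reg 34 = w.pos (s.reg 31) := by rw [hs2]; simp [e31]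
  have fout : s2.out = s.out := by rw [hs2]; simp [eout]
  refine ⟨_, _, hr2, ?_⟩
  refine ⟨?_, ?_, ?_⟩
  · simp only [Ex.Ok]
  · simp only [Ex.Ok]
  · obtain ⟨s3, hs3⟩ : ∃ s3 : St, s3 = (s2.setReg 32 ((Ex.half (.r 32)).eval inp s2)).setReg 34
      ((Ex.half (.r 34)).eval inp (s2.setReg 32 ((Ex.half (.r 32)).eval inp s2))) := ⟨_, rfl⟩
    rw [← hs3]
    have g32 : s3.reg 32 = w.gap (s.reg 30) := by
      rw [hs3]
      simp [Ex.eval, f32, Lay.gap]
    have g34 : s3.reg 34 = w.gap (s.reg 31) := by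
      rw [hs3]
      simp [Ex.eval, f34, Lay.gap]
    have gout : s3.out = s.out := by rw [hs3]; simp [fout]
    refine ⟨?_, ?_, ?_⟩
    · simp only [Co.Ok, Ex.Ok, and_self]
    · intro hlt
      simp only [Co.Holds, Ex.eval] at hlt
      rw [g32, g34] at hlt
      refine ⟨by simp only [Ex.Ok], by simp only [Ex.Ok], by simp only [Ex.Ok], ?_⟩
      simp only [Ex.eval]
      have ht := r6_tail_run (M := M) (lam := lam) (inp := inp) (s := ((s3.setReg 36 (s3.reg 32)).setReg 32
        ((s3.setReg 36 (s3.reg 32)).reg 34)).setReg 34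
        (((s3.setReg 36 (s3.reg 32)).setReg 32 ((s3.setReg 36 (s3.reg 32)).reg 34)).reg 36))
        hM hw hq hlt hgx (by simp [g34]) (by simp [g32])
      refine wp_of_run M inp (opS lam) ht ?_
      rintro s' k ⟨h1, h2, h3, h4⟩
      refine ⟨?_, h2, ?_, ?_⟩
      · unfold Lay.cut
        rw [min_eq_right hlt.le, max_eq_left hlt.le]
        exact h1
      · rw [min_eq_right hlt.le, max_eq_left hlt.le, h3]
        simp [gout]
      · simp only [Co.sz, Ex.sz]
        omega
    · intro hnlt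
      simp only [Co.Holds, Ex.eval] at hnlt
      rw [g32, g34] at hnlt
      have hlt : w.gap (s.reg 30) < w.gap (s.reg 31) := by omega
      have ht := r6_tail_run (M := M) (lam := lam) (inp := inp) (s := s3)
        hM hw hq hlt hgy g32 g34
      refine wp_of_run M inp (opS lam) ht ?_
      rintro s' k ⟨h1, h2, h3, h4⟩
      refine ⟨?_, h2, ?_, ?_⟩
      · unfold Lay.cut
        rw [min_eq_left hlt.le, max_eq_right hlt.le]
        exact h1
      · rw [min_eq_left hlt.le, max_eq_right hlt.le, h3, gout]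
      · simp only [Co.sz, Ex.sz]
        omega

theorem r6_outs_append (w : Lay) (l : List (ℕ × ℕ)) (c : ℕ × ℕ) :
    outs w (l ++ [c]) = outs w l ++ [(min ((l.foldl Lay.cut w).gap c.1)
      ((l.foldl Lay.cut w).gap c.2) + 1, max ((l.foldl Lay.cut w).gap c.1)
      ((l.foldl Lay.cut w).gap c.2))] := by
  induction l generalizing w with
  | nil => rfl
  | cons a l ih =>
    rw [List.cons_append]
    change _ :: outs (w.cut a) (l ++ [c]) = _ :: outs (w.cut a) l ++ _
    rw [ih, List.cons_append]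
    rfl

theorem r6_flat_append (l l' : List (ℕ × ℕ)) : flat (l ++ l') = flat l ++ flat l' := by
  unfold flat
  rw [List.flatMap_append]

theorem r6_el_fold (hw : EL n w) : ∀ (l : List (ℕ × ℕ)),
    (∀ c ∈ l, c.1 < 2 * (n + 1) ∧ c.2 < 2 * (n + 1)) →
    (∀ pre c post, l = pre ++ c :: post →
      (pre.foldl Lay.cut w).gap c.1 ≠ (pre.foldl Lay.cut w).gap c.2) →
    EL n (l.foldl Lay.cut w) := by
  intro l
  induction l generalizing w with
  | nil => intro _ _; exact hw
  | cons a l ih =>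
    intro h1 h2
    obtain ⟨ha1, ha2⟩ := h1 a (List.mem_cons_self)
    have h3 := h2 [] a l rfl
    have hp1 := hw.good.lt _ ha1
    have hp2 := hw.good.lt _ ha2
    have h4 : EL n (w.cut a) := by
      unfold Lay.cut
      simp only [List.foldl_nil] at h3
      refine hw.grev ?_ ?_
      · omega
      · unfold Lay.gap
        omega
    rw [List.foldl_cons]
    refine ih h4 (fun c hc => h1 c (List.mem_cons_of_mem _ hc)) (fun pre c post hpre => ?_)
    have h5 := h2 (a :: pre) c post (by rw [hpre]; rfl)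
    rw [List.foldl_cons] at h5
    exact h5

theorem cuts_run (hM : 16 * (n + 1) ≤ M) (hl : 1 ≤ lam) (hw : EL n w)
    (hq : RepQ (2 * (n + 1)) q w) {NP : List (ℕ × ℕ)} (hlen : NP.length + 2 ≤ M)
    (h42 : s.reg 42 = NP.length)
    (harr : ∀ i, i < NP.length → s.arr 16 i = (NP.getD i (0, 0)).1 ∧
      s.arr 17 i = (NP.getD i (0, 0)).2)
    (hlt : ∀ c ∈ NP, c.1 < 2 * (n + 1) ∧ c.2 < 2 * (n + 1))
    (hne : ∀ pre c post, NP = pre ++ c :: post →
      (pre.foldl Lay.cut w).gap c.1 ≠ (pre.foldl Lay.cut w).gap c.2) :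
    ∃ s' q' k, XRun M inp lam pCuts (s, q) (s', q') k ∧
      RepQ (2 * (n + 1)) q' (NP.foldl Lay.cut w) ∧ q'.key = q.key ∧
      s'.out = s.out ++ flat (outs w NP) ∧ k ≤ 1000 * (NP.length + 1) * lam := by
  obtain ⟨s', q', k, hr, hI, _, _, hk⟩ := forN_run (M := M) (lam := lam) (inp := inp)
    (i := 10) (n := 42) (body := blk [.set 30 (.ld 16 (.r 10)), .set 31 (.ld 17 (.r 10)), pCut])
    (N := NP.length) (c := 5 * lam + 120)
    (fun j s' q' => s'.arr = s.arr ∧ RepQ (2 * (n + 1)) q' ((NP.take j).foldl Lay.cut w) ∧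
      q'.key = q.key ∧ s'.out = s.out ++ flat (outs w (NP.take j)))
    (by omega) (by decide) (by decide) (by decide)
    (fun j s' q' v h => h)
    (by
      rintro j s' q' hj ⟨h1, h2, h3, h4⟩ h10 _
      have hsplit : NP = NP.take j ++ NP[j] :: NP.drop (j + 1) := by
        rw [← List.drop_eq_getElem_cons hj, List.take_append_drop]
      have hmem : NP[j] ∈ NP := List.getElem_mem hj
      have hgetD : NP.getD j (0, 0) = NP[j] := by
        rw [List.getD_eq_getElem?_getD, List.getElem?_eq_getElem hj, Option.getD_some]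
      obtain ⟨ha16, ha17⟩ := harr j hj
      rw [hgetD] at ha16 ha17
      have hELj : EL n ((NP.take j).foldl Lay.cut w) := by
        refine r6_el_fold hw _ (fun c hc => hlt c (List.mem_of_mem_take hc))
          (fun pre c post hpre => hne pre c (post ++ NP.drop j) ?_)
        rw [← List.cons_append, ← List.append_assoc, ← hpre, List.take_append_drop]
      obtain ⟨s1, hs1⟩ : ∃ s1 : St, s1 = (s'.setReg 30 ((Ex.ld 16 (.r 10)).eval inp s')).setReg 31
        ((Ex.ld 17 (.r 10)).eval inp (s'.setReg 30 ((Ex.ld 16 (.r 10)).eval inp s'))) := ⟨_, rfl⟩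
      have e30 : s1.reg 30 = NP[j].1 := by
        rw [hs1]
        simp [Ex.eval, h10, h1, ha16]
      have e31 : s1.reg 31 = NP[j].2 := by
        rw [hs1]
        simp [Ex.eval, h10, h1, ha17]
      have earr : s1.arr = s.arr := by
        rw [hs1]
        exact h1
      have eout : s1.out = s'.out := by
        rw [hs1]
        rfl
      have hcut := r6_cut_run (M := M) (lam := lam) (inp := inp) (s := s1) hM hELj h2
        (by rw [e30]; exact (hlt _ hmem).1) (by rw [e31]; exact (hlt _ hmem).2)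
        (by rw [e30, e31]; exact hne _ _ _ hsplit)
      obtain ⟨⟨s2, q2⟩, k2, hr2, hq2, hk2, ho2, hc2⟩ := hcut
      have fr := run_frame hr2
      have harr2 : s2.arr = s1.arr := by
        funext a
        exact fr.1 a (by decide +revert)
      have htake : NP.take (j + 1) = NP.take j ++ [NP[j]] := by
        rw [List.take_add_one, List.getElem?_eq_getElem hj]
        rfl
      refine ⟨s2, q2, 3 + (3 + k2), ?_, ⟨?_, ?_, ?_, ?_⟩, by omega⟩
      · refine .seq _ _ _ _ _ _ _ (.set s' q' 30 (.ld 16 (.r 10)) trivial)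
          (.seq _ _ _ _ _ _ _ (.set _ q' 31 (.ld 17 (.r 10)) trivial) ?_)
        rw [← hs1]
        exact hr2
      · rw [harr2, earr]
      · rw [htake, List.foldl_append]
        rw [e30, e31] at hq2
        exact hq2
      · exact hk2.trans h3
      · rw [ho2, eout, h4, htake, r6_outs_append, r6_flat_append, e30, e31, List.append_assoc]
        rfl)
    ⟨rfl, hq, rfl, by simp [outs, flat]⟩ h42
  obtain ⟨_, h2, h3, h4⟩ := hI
  rw [List.take_length] at h2 h4
  refine ⟨s', q', k, hr, h2, h3, h4, hk.trans ?_⟩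
  have h5 : (5 * lam + 120 + 8) * NP.length + 6 ≤ (1000 * lam) * NP.length + 1000 * lam := by
    have : 5 * lam + 120 + 8 ≤ 1000 * lam := by omega
    have h6 := Nat.mul_le_mul_right NP.length this
    omega
  refine h5.trans (le_of_eq ?_)
  ring

end

end SBR
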