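/-
SBR/R7.lean : save the arrangement, positions after phase 1, collect the order list.
-/
import Pool.Agent.SBR.Q1
import Pool.Agent.SBR.Q2

namespace SBR

section
variable {M lam n : ℕ} {inp : ℕ → ℕ} {s : St} {q : AQ} {w : Lay}

private theorem r7_cost (n lam c : ℕ) (hl : 1 ≤ lam) (hc : c ≤ 40) :
    (2 * lam + c + 8) * (2 * (n + 1)) + 6 ≤ 1000 * (n + 1) * lam := by
  have h1 : (2 * lam + c + 8) ≤ 50 * lam := by nlinarith
  have h2 : (2 * lam + c + 8) * (2 * (n + 1)) ≤ 50 * lam * (2 * (n + 1)) :=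
    Nat.mul_le_mul_right _ h1
  have h3 : 6 ≤ 6 * ((n + 1) * lam) := by nlinarith [Nat.mul_le_mul (Nat.succ_pos n) hl]
  nlinarith

theorem save_run (hM : 16 * (n + 1) ≤ M) (hl : 1 ≤ lam) (hg : w.Good (2 * (n + 1)))
    (hR : Regs n s) (hq : RepQ (2 * (n + 1)) q w) :
    ∃ s' k, XRun M inp lam pSave (s, q) (s', q) k ∧ ArrInit (2 * (n + 1)) s' w ∧
      (∀ x, x < 2 * (n + 1) → s'.arr 2 x = x + 1) ∧ k ≤ 1000 * (n + 1) * lam := by
  obtain ⟨s', q', k, h1, ⟨h2, h3⟩, -, -, h4⟩ := forN_run (M := M) (lam := lam) (inp := inp)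
    (i := 10) (n := 2) (N := 2 * (n + 1)) (c := 2 * lam + 20)
    (body := blk [
      .prim (.rank 10 12 13), .sto 0 (.r 12) (.r 10), .sto 1 (.r 12) (.r 13),
      .sto 2 (.r 10) (.add (.r 10) (.c 1))])
    (fun j s q' => q' = q ∧ ∀ x, x < j → s.arr 0 (w.pos x) = x ∧
      s.arr 1 (w.pos x) = b2n (w.sg x) ∧ s.arr 2 x = x + 1)
    (by omega) (by decide) (by decide) (by decide)
    (by
      rintro j s q v ⟨h1, h2⟩
      exact ⟨h1, h2⟩)
    (by
      rintro j s q' hj ⟨rfl, hI⟩ h10 h2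
      have hr : opS lam (.rank 10 12 13) (s, q')
          ((s.setReg 12 (w.pos (s.reg 10))).setReg 13 (b2n (w.sg (s.reg 10))), q') lam :=
        rep_rank hq (by rw [h10]; exact hj) (by decide)
      have hw : wp M inp (opS lam) (blk [
          .prim (.rank 10 12 13), .sto 0 (.r 12) (.r 10), .sto 1 (.r 12) (.r 13),
          .sto 2 (.r 10) (.add (.r 10) (.c 1))])
          (fun sq k => (sq.2 = q' ∧ ∀ x, x < j + 1 → sq.1.arr 0 (w.pos x) = x ∧
            sq.1.arr 1 (w.pos x) = b2n (w.sg x) ∧ sq.1.arr 2 x = x + 1) ∧ k ≤ 2 * lam + 20)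
          (s, q') := by
        simp only [blk, wp, Ex.Ok, Ex.eval, Ex.sz]
        refine ⟨_, _, hr, ?_⟩
        simp only [reg_setReg, arr_setReg, reg_setArr, arr_setArr, h10]
        simp
        refine ⟨⟨by omega, by omega⟩, ?_, by omega⟩
        · intro x hx
          rcases Nat.lt_or_eq_of_le hx with hx' | rfl
          · have hne : w.pos x ≠ w.pos j := fun h =>
              absurd (hg.inj x j (by omega) hj h) (by omega)
            obtain ⟨a1, a2, a3⟩ := hI x hx'
            have hxj : x ≠ j := by omega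
            simp [hne, hxj, a1, a2, a3]
          · simp
      obtain ⟨⟨s', q''⟩, k, hx, ⟨rfl, hy⟩, hk⟩ := wp_run _ _ _ _ _ _ hw
      exact ⟨s', q'', k, hx, ⟨rfl, hy⟩, hk⟩)
    (s := s) (q := q) ⟨rfl, by intro x hx; omega⟩ hR.2.2
  subst h2
  refine ⟨s', k, h1, fun x hx => ⟨(h3 x hx).1, (h3 x hx).2.1⟩, fun x hx => (h3 x hx).2.2, ?_⟩
  have := r7_cost n lam 20 hl (by omega)
  omega

theorem pos2_run (hM : 16 * (n + 1) ≤ M) (hl : 1 ≤ lam) (hg : w.Good (2 * (n + 1)))
    (hR : Regs n s) (hq : RepQ (2 * (n + 1)) q w) :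
    ∃ s' q' k, XRun M inp lam pPos2 (s, q) (s', q') k ∧ RepQ (2 * (n + 1)) q' w ∧
      (∀ x, x < 2 * (n + 1) → q'.key x = 0) ∧ ArrPos (2 * (n + 1)) s' w ∧
      k ≤ 1000 * (n + 1) * lam := by
  obtain ⟨s', q', k, h1, ⟨h2, h3, h4⟩, -, -, h5⟩ := forN_run (M := M) (lam := lam) (inp := inp)
    (i := 10) (n := 2) (N := 2 * (n + 1)) (c := 2 * lam + 20)
    (body := blk [
      .prim (.rank 10 11 12), .sto 3 (.r 10) (.r 11), .sto 4 (.r 11) (.r 10), .set 12 (.c 0),
      .prim (.setk 10 12)])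
    (fun j s q' => RepQ (2 * (n + 1)) q' w ∧ (∀ x, x < j → q'.key x = 0) ∧
      ∀ x, x < j → s.arr 3 x = w.pos x ∧ s.arr 4 (w.pos x) = x)
    (by omega) (by decide) (by decide) (by decide)
    (by
      rintro j s q v ⟨h1, h2, h3⟩
      exact ⟨h1, h2, h3⟩)
    (by
      rintro j s q' hj ⟨hq', hK, hI⟩ h10 h2
      have hr : opS lam (.rank 10 11 12) (s, q')
          ((s.setReg 11 (w.pos (s.reg 10))).setReg 12 (b2n (w.sg (s.reg 10))), q') lam :=
        rep_rank hq' (by rw [h10]; exact hj) (by decide)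
      have hw : wp M inp (opS lam) (blk [
          .prim (.rank 10 11 12), .sto 3 (.r 10) (.r 11), .sto 4 (.r 11) (.r 10), .set 12 (.c 0),
          .prim (.setk 10 12)])
          (fun sq k => (RepQ (2 * (n + 1)) sq.2 w ∧ (∀ x, x < j + 1 → sq.2.key x = 0) ∧
            ∀ x, x < j + 1 → sq.1.arr 3 x = w.pos x ∧ sq.1.arr 4 (w.pos x) = x) ∧
              k ≤ 2 * lam + 20)
          (s, q') := by
        simp only [blk, wp, Ex.Ok, Ex.eval, Ex.sz]
        refine ⟨_, _, hr, ?_⟩
        simp only [reg_setReg, reg_setArr, h10]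
        refine ⟨trivial, trivial, trivial, trivial, by omega, ?_⟩
        set s4 : St := (((((s.setReg 11 (w.pos j)).setReg 12 (b2n (w.sg j))).setArr 3
          (if 10 = 12 then b2n (w.sg j) else if 10 = 11 then w.pos j else j)
          (if 11 = 12 then b2n (w.sg j) else if 11 = 11 then w.pos j else s.reg 11)).setArr 4
          (if 11 = 12 then b2n (w.sg j) else if 11 = 11 then w.pos j else s.reg 11)
          (if 10 = 12 then b2n (w.sg j) else if 10 = 11 then w.pos j else j)).setReg 12 0) with hs4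
        have e10 : s4.reg 10 = j := by simp [hs4, h10]
        have e12 : s4.reg 12 = 0 := by simp [hs4]
        obtain ⟨g1, g2⟩ := rep_setk (lam := lam) (s := s4) (x := 10) (k := 12) hq'
          (by rw [e10]; exact hj)
        refine ⟨_, _, g1, ⟨g2, ?_, ?_⟩, by omega⟩
        · intro x hx
          simp only [e10, e12]
          rcases Nat.lt_succ_iff_lt_or_eq.1 hx with hx' | rfl
          · rw [if_neg (by omega)]; exact hK x hx'
          · rw [if_pos rfl]
        · intro x hx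
          rcases Nat.lt_succ_iff_lt_or_eq.1 hx with hx' | rfl
          · have hne : w.pos x ≠ w.pos j := fun h =>
              absurd (hg.inj x j (by omega) hj h) (by omega)
            obtain ⟨a1, a2⟩ := hI x hx'
            have hxj : x ≠ j := by omega
            simp [hs4, hne, hxj, a1, a2]
          · simp [hs4]
      obtain ⟨⟨s', q''⟩, k, hx, ⟨hy1, hy2, hy3⟩, hk⟩ := wp_run _ _ _ _ _ _ hw
      exact ⟨s', q'', k, hx, ⟨hy1, hy2, hy3⟩, hk⟩)
    (s := s) (q := q) ⟨hq, by intro x hx; omega, by intro x hx; omega⟩ hR.2.2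
  refine ⟨s', q', k, h1, h2, h3, h4, ?_⟩
  have := r7_cost n lam 20 hl (by omega)
  omega

/-- the loop which reads the linked list -/
private theorem r7_list (hM : 16 * (n + 1) ≤ M) (q : AQ) : ∀ (l d : List ℕ) (s : St),
    s.reg 10 = d.length → LL (s.arr 20) (s.reg 11) l →
    (∀ i, i < d.length → s.arr 29 i = d.getD i 0) → d.length + l.length ≤ n + 1 →
    (∀ v ∈ l, v < n + 1) →
    ∃ s' k, XRun M inp lam (.whl (.lt (.c 0) (.r 11)) (blk [
        .set 12 (.sub (.r 11) (.c 1)), .sto 29 (.r 10) (.r 12), .set 10 (.add (.r 10) (.c 1)),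
        .set 11 (.ld 20 (.r 12))])) (s, q) (s', q) k ∧ s'.reg 10 = (d ++ l).length ∧
      (∀ i, i < (d ++ l).length → s'.arr 29 i = (d ++ l).getD i 0) ∧
      k ≤ 40 * (l.length + 1) := by
  intro l
  induction l with
  | nil =>
    intro d s h10 hll h29 _ _
    have h0 : s.reg 11 = 0 := hll
    refine ⟨s, _, .whl_f _ _ _ ⟨by show 0 < M; omega, trivial⟩ ?_, by simpa using h10,
      by simpa using h29, ?_⟩
    · show ¬ (0 < s.reg 11)
      omega
    · simp [Co.sz, Ex.sz]
  | cons v l ih =>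
    intro d s h10 hll h29 hlen hlt
    obtain ⟨h11, hll'⟩ : s.reg 11 = v + 1 ∧ LL (s.arr 20) (s.arr 20 v) l := hll
    have hv : v < n + 1 := hlt v (by simp)
    simp only [List.length_cons] at hlen
    have hw : wp M inp (opS lam) (blk [
        .set 12 (.sub (.r 11) (.c 1)), .sto 29 (.r 10) (.r 12), .set 10 (.add (.r 10) (.c 1)),
        .set 11 (.ld 20 (.r 12))])
        (fun sq k => (sq.2 = q ∧ sq.1.reg 10 = (d ++ [v]).length ∧
          LL (sq.1.arr 20) (sq.1.reg 11) l ∧
          (∀ i, i < (d ++ [v]).length → sq.1.arr 29 i = (d ++ [v]).getD i 0)) ∧ k ≤ 30)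
        (s, q) := by
      simp only [blk, wp, Ex.Ok, Ex.eval, Ex.sz]
      simp [h10, h11]
      refine ⟨by omega, ⟨by omega, by omega⟩, ?_, ?_⟩
      · exact hll'
      · intro i hi
        rcases Nat.lt_or_eq_of_le hi with hi' | rfl
        · rw [if_neg (by omega), h29 i hi', List.getElem?_append_left hi',
            List.getD_eq_getElem?_getD]
        · simp
    obtain ⟨⟨s1, q1⟩, k1, hr1, ⟨rfl, e1, e2, e3⟩, hk1⟩ := wp_run _ _ _ _ _ _ hw
    obtain ⟨s2, k2, hr2, f1, f2, f3⟩ := ih (d ++ [v]) s1 e1 e2 e3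
      (by simp only [List.length_append, List.length_singleton]; omega)
      (fun u hu => hlt u (List.mem_cons_of_mem _ hu))
    refine ⟨s2, _, .whl_t _ _ _ _ _ _ _ ⟨by show 0 < M; omega, trivial⟩ ?_ hr1 hr2, ?_, ?_, ?_⟩
    · show 0 < s.reg 11
      omega
    · rw [f1, List.append_assoc]; rfl
    · intro i hi
      have := f2 i (by rw [List.append_assoc]; exact hi)
      rw [this, List.append_assoc]; rfl
    · simp only [Co.sz, Ex.sz, List.length_cons]
      omega

private theorem r7_getD (l : List ℕ) {i : ℕ} (h : i < l.length) :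
    l.reverse.getD (l.length - 1 - i) 0 = l.getD i 0 := by
  rw [List.getD_eq_getElem?_getD, List.getD_eq_getElem?_getD,
    List.getElem?_reverse (by omega)]
  congr 2
  omega

theorem coll_run (hM : 16 * (n + 1) ≤ M) {ord : List ℕ}
    (hll : LL (s.arr 20) (s.reg 50) ord.reverse) (hlt : ∀ v ∈ ord, v < n + 1)
    (hlen : ord.length ≤ n + 1) (q : AQ) :
    ∃ s' k, XRun M inp lam pColl (s, q) (s', q) k ∧ s'.reg 42 = ord.length ∧
      (∀ i, i < ord.length → s'.arr 16 i = 2 * ord.getD i 0 ∧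
        s'.arr 17 i = 2 * ord.getD i 0 + 1) ∧ k ≤ 1000 * (n + 1) := by
  -- the linked list
  obtain ⟨s1, k1, hr1, e1, e2, hk1⟩ := r7_list (M := M) (lam := lam) (inp := inp) hM q
    ord.reverse [] ((s.setReg 10 0).setReg 11 (s.reg 50)) (by simp) (by simpa using hll)
    (by intro i hi; simp at hi) (by simpa using hlen) (by simpa using hlt)
  simp only [List.nil_append, List.length_reverse] at e1 e2 hk1
  -- the final loop
  have hfor : ∃ s' q' k, XRun M inp lam (forN 10 42 (blk [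
      .set 12 (.ld 29 (.sub (.sub (.r 42) (.c 1)) (.r 10))), .sto 16 (.r 10) (dbl (.r 12)),
      .sto 17 (.r 10) (dbl1 (.r 12))])) (s1.setReg 42 ord.length, q) (s', q') k ∧
      (q' = q ∧ (∀ i, i < ord.length → s'.arr 29 i = ord.reverse.getD i 0) ∧
        ∀ i, i < ord.length → s'.arr 16 i = 2 * ord.getD i 0 ∧
          s'.arr 17 i = 2 * ord.getD i 0 + 1) ∧ s'.reg 10 = ord.length ∧
      s'.reg 42 = ord.length ∧ k ≤ (60 + 8) * ord.length + 6 := by
    refine forN_run (M := M) (lam := lam) (inp := inp) (i := 10) (n := 42) (N := ord.length)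
      (c := 60)
      (fun j s q' => q' = q ∧ (∀ i, i < ord.length → s.arr 29 i = ord.reverse.getD i 0) ∧
        ∀ i, i < j → s.arr 16 i = 2 * ord.getD i 0 ∧ s.arr 17 i = 2 * ord.getD i 0 + 1)
      (by omega) (by decide) (by decide) (by decide) ?_ ?_
      ⟨rfl, by simpa using e2, by intro i hi; omega⟩ (by simp)
    · rintro j s q v ⟨h1, h2, h3⟩
      exact ⟨h1, h2, h3⟩
    · rintro j s q' hj ⟨rfl, h29, hI⟩ h10 h42
      have hv : ord.getD j 0 < n + 1 := by
        rw [List.getD_eq_getElem _ _ hj]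
        exact hlt _ (List.getElem_mem hj)
      have h29j : s.arr 29 (ord.length - 1 - j) = ord.getD j 0 := by
        rw [h29 _ (by omega), r7_getD ord hj]
      have hw : wp M inp (opS lam) (blk [
          .set 12 (.ld 29 (.sub (.sub (.r 42) (.c 1)) (.r 10))), .sto 16 (.r 10) (dbl (.r 12)),
          .sto 17 (.r 10) (dbl1 (.r 12))])
          (fun sq k => (sq.2 = q' ∧
            (∀ i, i < ord.length → sq.1.arr 29 i = ord.reverse.getD i 0) ∧
            ∀ i, i < j + 1 → sq.1.arr 16 i = 2 * ord.getD i 0 ∧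
              sq.1.arr 17 i = 2 * ord.getD i 0 + 1) ∧ k ≤ 60) (s, q') := by
        simp only [blk, wp, Ex.Ok, Ex.eval, Ex.sz, dbl, dbl1]
        rw [List.getD_eq_getElem?_getD] at hv h29j
        simp [h10, h42, h29j]
        refine ⟨⟨⟨by omega, by omega⟩, by omega⟩, by omega, ⟨by omega, by omega, by omega⟩,
          ?_, ?_⟩
        · intro i hi
          rw [h29 i hi, List.getD_eq_getElem?_getD]
        · intro i hi
          rcases Nat.lt_or_eq_of_le hi with hi' | rfl
          · rw [if_neg (by omega), if_neg (by omega)]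
            have := hI i hi'
            rwa [List.getD_eq_getElem?_getD] at this
          · simp only [if_true]
            omega
      obtain ⟨⟨s', q''⟩, k, hx, ⟨rfl, hy⟩, hk⟩ := wp_run _ _ _ _ _ _ hw
      exact ⟨s', q'', k, hx, ⟨rfl, hy⟩, hk⟩
  obtain ⟨s2, q2, k2, hr2, ⟨rfl, -, g1⟩, -, g2, hk2⟩ := hfor
  have r3 : XRun M inp lam (.set 42 (.r 10)) (s1, q2) (s1.setReg 42 ord.length, q2) 2 := by
    have := Run.set (M := M) (inp := inp) (ps := opS lam) s1 q2 42 (.r 10) trivial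
    simpa [Ex.eval, Ex.sz, e1] using this
  have r1 : XRun M inp lam (.set 10 (.c 0)) (s, q2) (s.setReg 10 0, q2) 2 :=
    .set s q2 10 (.c 0) (by show 0 < M; omega)
  have r2 : XRun M inp lam (.set 11 (.r 50)) (s.setReg 10 0, q2)
      ((s.setReg 10 0).setReg 11 (s.reg 50), q2) 2 := by
    have := Run.set (M := M) (inp := inp) (ps := opS lam) (s.setReg 10 0) q2 11 (.r 50) trivial
    simpa [Ex.eval, Ex.sz] using this
  refine ⟨s2, 2 + (2 + (k1 + (2 + k2))), ?_, g2, g1, ?_⟩
  · exact .seq _ _ _ _ _ _ _ r1 (.seq _ _ _ _ _ _ _ r2 (.seq _ _ _ _ _ _ _ hr1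
      (.seq _ _ _ _ _ _ _ r3 hr2)))
  · omega

end

end SBR
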