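/-
SBR/T1a.lean : phase 1, MATES.
-/
import Pool.Agent.SBR.State

namespace SBR

/-- existence of the predecessor -/
private theorem exists_pred {X : Finset ℕ} {t : ℕ} (ht : t ∈ X) (hn : ∃ v ∈ X, v < t) :
    ∃ s, Cons id X s t := by
  obtain ⟨v, hv, hvt⟩ := hn
  have hne : (X.filter (fun x => x < t)).Nonempty := ⟨v, Finset.mem_filter.2 ⟨hv, hvt⟩⟩
  obtain ⟨s, hs, hmax⟩ := Finset.exists_max_image _ (fun x => x) hne
  obtain ⟨hs1, hs2⟩ := Finset.mem_filter.1 hs
  refine ⟨s, hs1, ht, hs2, ?_⟩
  intro x hx h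
  have := hmax x (Finset.mem_filter.2 ⟨hx, h.2⟩)
  have h1 : s < x := h.1
  omega

/-- the smallest negative node is a minus end and its chord is oriented -/
theorem neg_min {w : Lay} {X : Finset ℕ} (hM : Mates w id X) {k : ℕ} (hk : k / 2 ∈ X)
    (hneg : w.sg k = false) (hmin : ∀ x, x / 2 ∈ X → w.sg x = false → k ≤ x) :
    k = 2 * (k / 2) + 1 ∧ w.sg (2 * (k / 2)) = true := by
  have hodd : k = 2 * (k / 2) + 1 := by
    by_contra hne
    have hk2 : k = 2 * (k / 2) := by omega
    by_cases hn : ∃ v ∈ X, v < k / 2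
    · obtain ⟨s, hs⟩ := exists_pred hk hn
      have h1 := hM.sg s (k / 2) hs
      rw [← hk2, hneg] at h1
      have h2 : (2 * s + 1) / 2 = s := by omega
      have h3 := hmin (2 * s + 1) (by rw [h2]; exact hs.1) h1
      have h4 : s < k / 2 := hs.2.2.1
      omega
    · have h1 := (hM.first (k / 2) hk (by
        intro v hv
        by_contra h
        exact hn ⟨v, hv, by simpa using h⟩)).1
      rw [← hk2, hneg] at h1
      exact absurd h1 (by decide)
  refine ⟨hodd, ?_⟩
  by_contra h
  have h' : w.sg (2 * (k / 2)) = false := by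
    cases hh : w.sg (2 * (k / 2))
    · rfl
    · exact absurd hh h
  have h2 : (2 * (k / 2)) / 2 = k / 2 := by omega
  have := hmin (2 * (k / 2)) (by rw [h2]; exact hk) h'
  omega

private theorem btw_lt {w : Lay} {a b x : ℕ} (h : w.pos a < w.pos b) :
    w.Btw a b x ↔ w.pos a < w.pos x ∧ w.pos x < w.pos b := by
  simp only [Lay.Btw]; omega

private theorem btw_gt {w : Lay} {a b x : ℕ} (h : w.pos b < w.pos a) :
    w.Btw a b x ↔ w.pos b < w.pos x ∧ w.pos x < w.pos a := by
  simp only [Lay.Btw]; omega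

private theorem r_in {a b p q y : ℕ} (hp : a < p ∧ p < b) (hq : a < q ∧ q < b)
    (_ : a < y ∧ y < b) (h : (a + b - p < a + b - y ∧ a + b - y < a + b - q) ∨
      (a + b - q < a + b - y ∧ a + b - y < a + b - p)) : (p < y ∧ y < q) ∨ (q < y ∧ y < p) := by
  rcases h with h | h
  · right; omega
  · left; omega

private theorem r_out {a b p q y : ℕ} (hp : a < p ∧ p < b) (hq : a < q ∧ q < b)
    (hy : ¬ (a < y ∧ y < b)) (h : (a + b - p < y ∧ y < a + b - q) ∨
      (a + b - q < y ∧ y < a + b - p)) : False := by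
  rcases h with h | h
  · exact hy (by omega)
  · exact hy (by omega)

private theorem o_in {a b p q y : ℕ} (hp : ¬ (a < p ∧ p < b)) (hq : ¬ (a < q ∧ q < b))
    (hpa : p ≠ a) (hqa : q ≠ a)
    (hy : a < y ∧ y < b) (h : (p < a + b - y ∧ a + b - y < q) ∨ (q < a + b - y ∧ a + b - y < p)) :
    (p < a ∧ a < q) ∨ (q < a ∧ a < p) := by
  rcases h with h | h
  · left
    have h1 : p < b := by omega
    have h2 : a < q := by omega
    have h3 : p < a := by
      by_contra h4
      exact hp (by omega)
    exact ⟨h3, h2⟩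
  · right
    have h1 : q < b := by omega
    have h2 : a < p := by omega
    have h3 : q < a := by
      by_contra h4
      exact hq (by omega)
    exact ⟨h3, h2⟩

private theorem cons_erase {X : Finset ℕ} {v t u : ℕ} (hv : v ∈ X)
    (h : Cons id (X.erase v) t u) :
    Cons id X t u ∨ (Cons id X t v ∧ Cons id X v u) := by
  obtain ⟨ht, hu, htu, hc⟩ := h
  have ht' := Finset.mem_erase.1 ht
  have hu' := Finset.mem_erase.1 hu
  have htu' : t < u := htu
  by_cases h1 : t < v ∧ v < u
  · right
    refine ⟨⟨ht'.2, hv, h1.1, ?_⟩, ⟨hv, hu'.2, h1.2, ?_⟩⟩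
    · intro x hx h2
      have h3 : t < x ∧ x < v := h2
      refine hc x (Finset.mem_erase.2 ⟨by omega, hx⟩) ⟨h3.1, ?_⟩
      show x < u
      omega
    · intro x hx h2
      have h3 : v < x ∧ x < u := h2
      refine hc x (Finset.mem_erase.2 ⟨by omega, hx⟩) ⟨?_, h3.2⟩
      show t < x
      omega
  · left
    refine ⟨ht'.2, hu'.2, htu', ?_⟩
    intro x hx h2
    have h3 : t < x ∧ x < u := h2
    by_cases hxv : x = v
    · subst hxv; exact h1 h3
    · exact hc x (Finset.mem_erase.2 ⟨hxv, hx⟩) h2

theorem mates_step {w : Lay} {L : ℕ} (hg : w.Good L) {X : Finset ℕ} (hX : ∀ t ∈ X, 2 * t + 1 < L)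
    (hM : Mates w id X) {v : ℕ} (hv : v ∈ X) (h1 : w.sg (2 * v) = true)
    (h2 : w.sg (2 * v + 1) = false) :
    Mates (w.rev (2 * v) (2 * v + 1)) id (X.erase v) := by
  have hvL := hX v hv
  -- distinctness of positions
  have hd : ∀ z ∈ X, z ≠ v → w.pos (2 * z) ≠ w.pos (2 * v) ∧ w.pos (2 * z) ≠ w.pos (2 * v + 1) ∧
      w.pos (2 * z + 1) ≠ w.pos (2 * v) ∧ w.pos (2 * z + 1) ≠ w.pos (2 * v + 1) := by
    intro z hz hzv
    have hzL := hX z hz
    refine ⟨fun h => ?_, fun h => ?_, fun h => ?_, fun h => ?_⟩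
    · have := hg.inj _ _ (by omega) (by omega) h; omega
    · have := hg.inj _ _ (by omega) (by omega) h; omega
    · have := hg.inj _ _ (by omega) (by omega) h; omega
    · have := hg.inj _ _ (by omega) (by omega) h; omega
  have hvv : w.pos (2 * v) ≠ w.pos (2 * v + 1) := by
    intro h
    have := hg.inj _ _ (by omega) (by omega) h
    omega
  -- consecutive pairs away from v : both ends inside or both outside
  have key : ∀ t u, Cons id X t u → t ≠ v → u ≠ v →
      (w.Btw (2 * v) (2 * v + 1) (2 * t + 1) ↔ w.Btw (2 * v) (2 * v + 1) (2 * u)) := by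
    intro t u hc htv huv
    have ha := hM.adj t u hc v hv
    have d1 := hd t hc.1 htv
    have d2 := hd u hc.2.1 huv
    simp only [Lay.Btw] at ha ⊢
    omega
  have hsgn : ∀ x, w.Btw (2 * v) (2 * v + 1) x →
      (w.rev (2 * v) (2 * v + 1)).sg x = !w.sg x := by
    intro x hx; simp only [Lay.rev, if_pos hx]
  have hsgo : ∀ x, ¬ w.Btw (2 * v) (2 * v + 1) x →
      (w.rev (2 * v) (2 * v + 1)).sg x = w.sg x := by
    intro x hx; simp only [Lay.rev, if_neg hx]
  have hpi : ∀ x, w.Btw (2 * v) (2 * v + 1) x →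
      (w.rev (2 * v) (2 * v + 1)).pos x = w.pos (2 * v) + w.pos (2 * v + 1) - w.pos x := by
    intro x hx; simp only [Lay.rev, if_pos hx]
  have hpo : ∀ x, ¬ w.Btw (2 * v) (2 * v + 1) x →
      (w.rev (2 * v) (2 * v + 1)).pos x = w.pos x := by
    intro x hx; simp only [Lay.rev, if_neg hx]
  -- description of the block v
  have hBt : ∀ t, Cons id X t v → w.sg (2 * t + 1) = true ∧ w.pos (2 * t + 1) < w.pos (2 * v) := by
    intro t hc
    exact ⟨by rw [hM.sg t v hc, h1], hM.ordt t v hc h1⟩
  have hBu : ∀ u, Cons id X v u → w.sg (2 * u) = false ∧ w.pos (2 * u) < w.pos (2 * v + 1) := by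
    intro u hc
    have h3 := hM.sg v u hc
    rw [h2] at h3
    exact ⟨h3.symm, hM.ordf v u hc h3.symm⟩
  refine ⟨fun t _ u _ h => h, ?_, ?_, ?_, ?_, ?_, ?_⟩
  · -- sg
    intro t u hc
    have htv : t ≠ v := (Finset.mem_erase.1 hc.1).1
    have huv : u ≠ v := (Finset.mem_erase.1 hc.2.1).1
    rcases cons_erase hv hc with hc' | ⟨ct, cu⟩
    · have hk := key t u hc' htv huv
      by_cases hb : w.Btw (2 * v) (2 * v + 1) (2 * t + 1)
      · rw [hsgn _ hb, hsgn _ (hk.1 hb), hM.sg t u hc']
      · rw [hsgo _ hb, hsgo _ (fun h => hb (hk.2 h)), hM.sg t u hc']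
    · obtain ⟨s1, p1⟩ := hBt t ct
      obtain ⟨s2, p2⟩ := hBu u cu
      have a1 := (hM.adj t v ct v hv).2
      have a2 := (hM.adj v u cu v hv).1
      have d1 := hd t ct.1 htv
      have d2 := hd u cu.2.1 huv
      rcases Nat.lt_or_gt_of_ne hvv with hlt | hlt
      · have i1 : ¬ w.Btw (2 * v) (2 * v + 1) (2 * t + 1) := by
          simp only [Lay.Btw] at a1 a2 ⊢; omega
        have i2 : w.Btw (2 * v) (2 * v + 1) (2 * u) := by
          simp only [Lay.Btw] at a1 a2 ⊢; omega
        rw [hsgo _ i1, hsgn _ i2, s1, s2]; rfl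
      · have i1 : w.Btw (2 * v) (2 * v + 1) (2 * t + 1) := by
          simp only [Lay.Btw] at a1 a2 ⊢; omega
        have i2 : ¬ w.Btw (2 * v) (2 * v + 1) (2 * u) := by
          simp only [Lay.Btw] at a1 a2 ⊢; omega
        rw [hsgn _ i1, hsgo _ i2, s1, s2]; rfl
  · -- ordt
    intro t u hc hs
    have htv : t ≠ v := (Finset.mem_erase.1 hc.1).1
    have huv : u ≠ v := (Finset.mem_erase.1 hc.2.1).1
    rcases cons_erase hv hc with hc' | ⟨ct, cu⟩
    · have hk := key t u hc' htv huv
      by_cases hb : w.Btw (2 * v) (2 * v + 1) (2 * t + 1)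
      · have hb2 := hk.1 hb
        rw [hsgn _ hb2] at hs
        have hs' : w.sg (2 * u) = false := by simpa using hs
        have := hM.ordf t u hc' hs'
        rw [hpi _ hb, hpi _ hb2]
        simp only [Lay.Btw] at hb hb2
        omega
      · have hb2 : ¬ w.Btw (2 * v) (2 * v + 1) (2 * u) := fun h => hb (hk.2 h)
        rw [hsgo _ hb2] at hs
        rw [hpo _ hb, hpo _ hb2]
        exact hM.ordt t u hc' hs
    · obtain ⟨s1, p1⟩ := hBt t ct
      obtain ⟨s2, p2⟩ := hBu u cu
      have a1 := (hM.adj t v ct v hv).2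
      have a2 := (hM.adj v u cu v hv).1
      have d1 := hd t ct.1 htv
      have d2 := hd u cu.2.1 huv
      rcases Nat.lt_or_gt_of_ne hvv with hlt | hlt
      · have i1 : ¬ w.Btw (2 * v) (2 * v + 1) (2 * t + 1) := by
          simp only [Lay.Btw] at a1 a2 ⊢; omega
        have i2 : w.Btw (2 * v) (2 * v + 1) (2 * u) := by
          simp only [Lay.Btw] at a1 a2 ⊢; omega
        rw [hpo _ i1, hpi _ i2]
        simp only [Lay.Btw] at i1 i2
        omega
      · have i2 : ¬ w.Btw (2 * v) (2 * v + 1) (2 * u) := by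
          simp only [Lay.Btw] at a1 a2 ⊢; omega
        rw [hsgo _ i2, s2] at hs
        exact absurd hs (by decide)
  · -- ordf
    intro t u hc hs
    have htv : t ≠ v := (Finset.mem_erase.1 hc.1).1
    have huv : u ≠ v := (Finset.mem_erase.1 hc.2.1).1
    rcases cons_erase hv hc with hc' | ⟨ct, cu⟩
    · have hk := key t u hc' htv huv
      by_cases hb : w.Btw (2 * v) (2 * v + 1) (2 * t + 1)
      · have hb2 := hk.1 hb
        rw [hsgn _ hb2] at hs
        have hs' : w.sg (2 * u) = true := by simpa using hs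
        have := hM.ordt t u hc' hs'
        rw [hpi _ hb, hpi _ hb2]
        simp only [Lay.Btw] at hb hb2
        omega
      · have hb2 : ¬ w.Btw (2 * v) (2 * v + 1) (2 * u) := fun h => hb (hk.2 h)
        rw [hsgo _ hb2] at hs
        rw [hpo _ hb, hpo _ hb2]
        exact hM.ordf t u hc' hs
    · obtain ⟨s1, p1⟩ := hBt t ct
      obtain ⟨s2, p2⟩ := hBu u cu
      have a1 := (hM.adj t v ct v hv).2
      have a2 := (hM.adj v u cu v hv).1
      have d1 := hd t ct.1 htv
      have d2 := hd u cu.2.1 huv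
      rcases Nat.lt_or_gt_of_ne hvv with hlt | hlt
      · have i2 : w.Btw (2 * v) (2 * v + 1) (2 * u) := by
          simp only [Lay.Btw] at a1 a2 ⊢; omega
        rw [hsgn _ i2, s2] at hs
        exact absurd hs (by decide)
      · have i1 : w.Btw (2 * v) (2 * v + 1) (2 * t + 1) := by
          simp only [Lay.Btw] at a1 a2 ⊢; omega
        have i2 : ¬ w.Btw (2 * v) (2 * v + 1) (2 * u) := by
          simp only [Lay.Btw] at a1 a2 ⊢; omega
        rw [hpi _ i1, hpo _ i2]
        simp only [Lay.Btw] at i1 i2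
        omega
  · -- adj
    have gen : ∀ t u, Cons id (X.erase v) t u → ∀ z ∈ X, z ≠ v → ∀ y, (y = 2 * z ∨ y = 2 * z + 1) →
        ¬ (w.rev (2 * v) (2 * v + 1)).Btw (2 * t + 1) (2 * u) y := by
      intro t u hc z hz hzv y hy hB
      have htv : t ≠ v := (Finset.mem_erase.1 hc.1).1
      have huv : u ≠ v := (Finset.mem_erase.1 hc.2.1).1
      have dz := hd z hz hzv
      have dy : w.pos y ≠ w.pos (2 * v) ∧ w.pos y ≠ w.pos (2 * v + 1) := by
        rcases hy with rfl | rfl
        · exact ⟨dz.1, dz.2.1⟩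
        · exact ⟨dz.2.2.1, dz.2.2.2⟩
      have adj' : ∀ s r, Cons id X s r → ¬ w.Btw (2 * s + 1) (2 * r) y := by
        intro s r hsr
        have := hM.adj s r hsr z hz
        rcases hy with rfl | rfl
        · exact this.1
        · exact this.2
      rcases cons_erase hv hc with hc' | ⟨ct, cu⟩
      · have hk := key t u hc' htv huv
        have ha := adj' t u hc'
        have hav := hM.adj t u hc' v hv
        have d1 := hd t hc'.1 htv
        have d2 := hd u hc'.2.1 huv
        unfold Lay.Btw at hB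
        by_cases hb : w.Btw (2 * v) (2 * v + 1) (2 * t + 1)
        · have hb2 := hk.1 hb
          rw [hpi _ hb, hpi _ hb2] at hB
          by_cases hby : w.Btw (2 * v) (2 * v + 1) y
          · rw [hpi _ hby] at hB
            apply ha
            rcases Nat.lt_or_gt_of_ne hvv with hlt | hlt
            · rw [btw_lt hlt] at hb hb2 hby
              exact r_in hb hb2 hby hB
            · rw [btw_gt hlt] at hb hb2 hby
              rw [Nat.add_comm (w.pos (2 * v)) (w.pos (2 * v + 1))] at hB
              exact r_in hb hb2 hby hB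
          · rw [hpo _ hby] at hB
            rcases Nat.lt_or_gt_of_ne hvv with hlt | hlt
            · rw [btw_lt hlt] at hb hb2 hby
              exact r_out hb hb2 hby hB
            · rw [btw_gt hlt] at hb hb2 hby
              rw [Nat.add_comm (w.pos (2 * v)) (w.pos (2 * v + 1))] at hB
              exact r_out hb hb2 hby hB
        · have hb2 : ¬ w.Btw (2 * v) (2 * v + 1) (2 * u) := fun h => hb (hk.2 h)
          rw [hpo _ hb, hpo _ hb2] at hB
          by_cases hby : w.Btw (2 * v) (2 * v + 1) y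
          · rw [hpi _ hby] at hB
            rcases Nat.lt_or_gt_of_ne hvv with hlt | hlt
            · rw [btw_lt hlt] at hb hb2 hby
              exact hav.1 (o_in hb hb2 d1.2.2.1 d2.1 hby hB)
            · rw [btw_gt hlt] at hb hb2 hby
              rw [Nat.add_comm (w.pos (2 * v)) (w.pos (2 * v + 1))] at hB
              exact hav.2 (o_in hb hb2 d1.2.2.2 d2.2.1 hby hB)
          · rw [hpo _ hby] at hB
            exact ha hB
      · obtain ⟨s1, p1⟩ := hBt t ct
        obtain ⟨s2, p2⟩ := hBu u cu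
        have a1 := (hM.adj t v ct v hv).2
        have a2 := (hM.adj v u cu v hv).1
        have b1 := adj' t v ct
        have b2 := adj' v u cu
        have d1 := hd t ct.1 htv
        have d2 := hd u cu.2.1 huv
        unfold Lay.Btw at hB
        rcases Nat.lt_or_gt_of_ne hvv with hlt | hlt
        · have i1 : ¬ w.Btw (2 * v) (2 * v + 1) (2 * t + 1) := by
            rw [btw_lt hlt]; omega
          have i2 : w.Btw (2 * v) (2 * v + 1) (2 * u) := by
            rw [btw_gt p2] at a2
            rw [btw_lt hlt]; omega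
          rw [hpo _ i1, hpi _ i2] at hB
          rw [btw_lt hlt] at i1 i2
          rw [btw_lt p1] at b1
          rw [btw_gt p2] at b2
          by_cases hby : w.Btw (2 * v) (2 * v + 1) y
          · rw [hpi _ hby] at hB
            rw [btw_lt hlt] at hby
            clear a1 a2 b1 d1 d2 dz dy i1
            rcases hB with hB | hB <;> omega
          · rw [hpo _ hby] at hB
            rw [btw_lt hlt] at hby
            clear a1 a2 b2 d1 d2 dz i1
            rcases hB with hB | hB <;> omega
        · have i1 : w.Btw (2 * v) (2 * v + 1) (2 * t + 1) := by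
            rw [btw_lt p1] at a1
            rw [btw_gt hlt]; omega
          have i2 : ¬ w.Btw (2 * v) (2 * v + 1) (2 * u) := by
            rw [btw_gt hlt]; omega
          rw [hpi _ i1, hpo _ i2] at hB
          rw [btw_gt hlt] at i1 i2
          rw [btw_lt p1] at b1
          rw [btw_gt p2] at b2
          by_cases hby : w.Btw (2 * v) (2 * v + 1) y
          · rw [hpi _ hby] at hB
            rw [btw_gt hlt] at hby
            clear a1 a2 b2 d1 d2 dz dy i2
            rcases hB with hB | hB <;> omega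
          · rw [hpo _ hby] at hB
            rw [btw_gt hlt] at hby
            clear a1 a2 b1 d1 d2 dz i2
            rcases hB with hB | hB <;> omega
    intro t u hc z hz
    have hz' := Finset.mem_erase.1 hz
    exact ⟨gen t u hc z hz'.2 hz'.1 _ (Or.inl rfl), gen t u hc z hz'.2 hz'.1 _ (Or.inr rfl)⟩
  · -- first
    intro t ht hmin
    have ht' := Finset.mem_erase.1 ht
    by_cases htv : t < v
    · have hf := hM.first t ht'.2 (by
        intro z hz
        by_cases hzv : z = v
        · subst hzv; exact htv.le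
        · exact hmin z (Finset.mem_erase.2 ⟨hzv, hz⟩))
      have hfv := hf.2 v hv
      have i1 : ¬ w.Btw (2 * v) (2 * v + 1) (2 * t) := by
        simp only [Lay.Btw]; omega
      refine ⟨by rw [hsgo _ i1]; exact hf.1, ?_⟩
      have gen : ∀ y, w.pos (2 * t) ≤ w.pos y →
          w.pos (2 * t) ≤ (w.rev (2 * v) (2 * v + 1)).pos y := by
        intro y hy
        by_cases hby : w.Btw (2 * v) (2 * v + 1) y
        · rw [hpi _ hby]; simp only [Lay.Btw] at hby; omega
        · rw [hpo _ hby]; exact hy
      intro z hz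
      have hz' := Finset.mem_erase.1 hz
      rw [hpo _ i1]
      exact ⟨gen _ (hf.2 z hz'.2).1, gen _ (hf.2 z hz'.2).2⟩
    · have hvt : v < t := by omega
      have hvmin : ∀ z ∈ X, v ≤ z := by
        intro z hz
        by_cases hzv : z = v
        · omega
        · have h3 : t ≤ z := hmin z (Finset.mem_erase.2 ⟨hzv, hz⟩)
          omega
      have hf := hM.first v hv hvmin
      have hc : Cons id X v t := by
        refine ⟨hv, ht'.2, hvt, ?_⟩
        intro z hz h3
        have h4 : v < z ∧ z < t := h3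
        have h5 : t ≤ z := hmin z (Finset.mem_erase.2 ⟨by omega, hz⟩)
        omega
      obtain ⟨s2, p2⟩ := hBu t hc
      have a2 := (hM.adj v t hc v hv).1
      have d2 := hd t ht'.2 ht'.1
      have hft := hf.2 t ht'.2
      have hfv := hf.2 v hv
      have i2 : w.Btw (2 * v) (2 * v + 1) (2 * t) := by
        simp only [Lay.Btw] at a2 ⊢; omega
      refine ⟨by rw [hsgn _ i2, s2]; rfl, ?_⟩
      have gen : ∀ y, w.pos (2 * v) ≤ w.pos y → w.pos y ≠ w.pos (2 * v) →
          w.pos y ≠ w.pos (2 * v + 1) → ¬ w.Btw (2 * v + 1) (2 * t) y →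
          (w.rev (2 * v) (2 * v + 1)).pos (2 * t) ≤ (w.rev (2 * v) (2 * v + 1)).pos y := by
        intro y hy hy1 hy2 hy3
        rw [hpi _ i2]
        by_cases hby : w.Btw (2 * v) (2 * v + 1) y
        · rw [hpi _ hby]; simp only [Lay.Btw] at hby hy3 i2; omega
        · rw [hpo _ hby]; simp only [Lay.Btw] at hby hy3 i2; omega
      intro z hz
      have hz' := Finset.mem_erase.1 hz
      have dz := hd z hz'.2 hz'.1
      have az := hM.adj v t hc z hz'.2
      exact ⟨gen _ (hf.2 z hz'.2).1 dz.1 dz.2.1 az.1, gen _ (hf.2 z hz'.2).2 dz.2.2.1 dz.2.2.2 az.2⟩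
  · -- last
    intro t ht hmax
    have ht' := Finset.mem_erase.1 ht
    have hvt : v < t := by
      by_contra h
      have hl := (hM.last v hv (by
        intro z hz
        by_cases hzv : z = v
        · subst hzv; exact le_rfl
        · have h3 : z ≤ t := hmax z (Finset.mem_erase.2 ⟨hzv, hz⟩)
          show z ≤ v
          omega)).1
      rw [h2] at hl
      exact absurd hl (by decide)
    have hl := hM.last t ht'.2 (by
      intro z hz
      by_cases hzv : z = v
      · subst hzv; exact hvt.le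
      · exact hmax z (Finset.mem_erase.2 ⟨hzv, hz⟩))
    have hlv := hl.2 v hv
    have i1 : ¬ w.Btw (2 * v) (2 * v + 1) (2 * t + 1) := by
      simp only [Lay.Btw]; omega
    refine ⟨by rw [hsgo _ i1]; exact hl.1, ?_⟩
    have gen : ∀ y, w.pos y ≤ w.pos (2 * t + 1) →
        (w.rev (2 * v) (2 * v + 1)).pos y ≤ w.pos (2 * t + 1) := by
      intro y hy
      by_cases hby : w.Btw (2 * v) (2 * v + 1) y
      · rw [hpi _ hby]; simp only [Lay.Btw] at hby; omega
      · rw [hpo _ hby]; exact hy
    intro z hz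
    have hz' := Finset.mem_erase.1 hz
    rw [hpo _ i1]
    exact ⟨gen _ (hl.2 z hz'.2).1, gen _ (hl.2 z hz'.2).2⟩

end SBR
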