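/-
SBR/T1b.lean : junctions in phase 1.
-/
import Pool.Agent.SBR.State

namespace SBR

private theorem t1b_succ {w : Lay} {X : Finset ℕ} (hM : Mates w id X) {v : ℕ} (hv : v ∈ X)
    (h2 : w.sg (2 * v + 1) = false) : ∃ u, Cons id X v u := by
  by_cases h : ∀ x ∈ X, x ≤ v
  · have := (hM.last v hv h).1
    rw [h2] at this
    exact absurd this (by decide)
  · push Not at h
    obtain ⟨x, hx, hvx⟩ := h
    have hne : (X.filter (fun y => v < y)).Nonempty := ⟨x, Finset.mem_filter.2 ⟨hx, hvx⟩⟩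
    have hmem := Finset.min'_mem _ hne
    have hmem' := Finset.mem_filter.1 hmem
    refine ⟨_, hv, hmem'.1, hmem'.2, ?_⟩
    rintro y hy ⟨h1, h3⟩
    change v < y at h1
    have h4 := Finset.min'_le (X.filter (fun y => v < y)) y (Finset.mem_filter.2 ⟨hy, h1⟩)
    exact absurd h3 (not_lt.2 h4)

private theorem t1b_pred {X : Finset ℕ} {v : ℕ} (hv : v ∈ X) :
    (∀ x ∈ X, v ≤ x) ∨ ∃ t, Cons id X t v := by
  by_cases h : ∀ x ∈ X, v ≤ x
  · exact Or.inl h
  · right
    push Not at h
    obtain ⟨x, hx, hvx⟩ := h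
    have hne : (X.filter (fun y => y < v)).Nonempty := ⟨x, Finset.mem_filter.2 ⟨hx, hvx⟩⟩
    have hmem := Finset.max'_mem _ hne
    have hmem' := Finset.mem_filter.1 hmem
    refine ⟨_, hmem'.1, hv, hmem'.2, ?_⟩
    rintro y hy ⟨h1, h3⟩
    change y < v at h3
    have h4 := Finset.le_max' (X.filter (fun y => y < v)) y (Finset.mem_filter.2 ⟨hy, h3⟩)
    exact absurd h1 (not_lt.2 h4)

/-- consecutive elements after removal of an element different from both -/
private theorem t1b_cons_erase {X : Finset ℕ} {v t u : ℕ} (h : Cons id X t u) (ht : t ≠ v)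
    (hu : u ≠ v) : Cons id (X.erase v) t u :=
  ⟨Finset.mem_erase.2 ⟨ht, h.1⟩, Finset.mem_erase.2 ⟨hu, h.2.1⟩, h.2.2.1,
    fun y hy => h.2.2.2 y (Finset.mem_of_mem_erase hy)⟩

/-- consecutive elements after removal of the element between them -/
private theorem t1b_cons_join {X : Finset ℕ} {v t u : ℕ} (h : Cons id X t v) (h' : Cons id X v u) :
    Cons id (X.erase v) t u := by
  obtain ⟨a1, a2, a3, a4⟩ := h
  obtain ⟨b1, b2, b3, b4⟩ := h'
  simp only [id] at a3 a4 b3 b4
  refine ⟨Finset.mem_erase.2 ⟨by omega, a1⟩, Finset.mem_erase.2 ⟨by omega, b2⟩, ?_, ?_⟩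
  · simp only [id]
    omega
  · intro y hy
    have hy' := Finset.mem_erase.1 hy
    have c1 := a4 y hy'.2
    have c2 := b4 y hy'.2
    simp only [id]
    omega

/-- the facts about the neighbours of an oriented chord -/
private theorem t1b_facts {w : Lay} {L : ℕ} (hg : w.Good L) {X : Finset ℕ}
    (hX : ∀ t ∈ X, 2 * t + 1 < L) {v : ℕ} (hv : v ∈ X) :
    w.pos (2 * v) ≠ w.pos (2 * v + 1) ∧
    ∀ y, y < L → y / 2 ≠ v → w.pos y ≠ w.pos (2 * v) ∧ w.pos y ≠ w.pos (2 * v + 1) := by
  have hvL := hX v hv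
  refine ⟨fun h => ?_, fun y hy hyv => ⟨fun h => ?_, fun h => ?_⟩⟩
  · have := hg.inj _ _ (by omega) hvL h
    omega
  · have := hg.inj _ _ hy (by omega) h
    omega
  · have := hg.inj _ _ hy hvL h
    omega

/-- new position of the node `2u`, `u` the successor of `v` -/
private theorem t1b_succ_pos {w : Lay} {L : ℕ} (hg : w.Good L) {X : Finset ℕ}
    (hX : ∀ t ∈ X, 2 * t + 1 < L) (hM : Mates w id X) {v : ℕ} (hv : v ∈ X)
    (h2 : w.sg (2 * v + 1) = false) {u : ℕ} (hu : Cons id X v u) :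
    w.pos (2 * u) < w.pos (2 * v + 1) ∧
    (w.pos (2 * v) < w.pos (2 * v + 1) → w.pos (2 * v) < w.pos (2 * u)) ∧
    ∀ x ∈ X, (w.pos (2 * x) ≤ w.pos (2 * u) ∨ w.pos (2 * v + 1) ≤ w.pos (2 * x)) ∧
      (w.pos (2 * x + 1) ≤ w.pos (2 * u) ∨ w.pos (2 * v + 1) ≤ w.pos (2 * x + 1)) := by
  have hs : w.sg (2 * u) = false := (hM.sg v u hu).symm.trans h2
  have h1 := hM.ordf v u hu hs
  have hadj := hM.adj v u hu
  have hne := hu.2.2.1
  simp only [id] at hne
  have h3 := (t1b_facts hg hX hv).2 (2 * u) (by have := hX u hu.2.1; omega) (by omega)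
  have h4 := (hadj v hv).1
  simp only [Lay.Btw] at h4 hadj
  refine ⟨h1, fun h => by omega, fun x hx => ?_⟩
  have := hadj x hx
  omega

/-- the node `2t+1`, `t` the predecessor of `v` -/
private theorem t1b_pred_pos {w : Lay} {L : ℕ} (hg : w.Good L) {X : Finset ℕ}
    (hX : ∀ t ∈ X, 2 * t + 1 < L) (hM : Mates w id X) {v : ℕ} (hv : v ∈ X)
    (h1 : w.sg (2 * v) = true) {t : ℕ} (ht : Cons id X t v) :
    w.pos (2 * t + 1) < w.pos (2 * v) ∧
    (w.pos (2 * v + 1) < w.pos (2 * v) → w.pos (2 * v + 1) < w.pos (2 * t + 1)) := by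
  have h3 := hM.ordt t v ht h1
  have hadj := hM.adj t v ht
  have hne := ht.2.2.1
  simp only [id] at hne
  have h5 := (t1b_facts hg hX hv).2 (2 * t + 1) (by have := hX t ht.1; omega) (by omega)
  have h4 := (hadj v hv).2
  simp only [Lay.Btw] at h4
  exact ⟨h3, fun h => by omega⟩

theorem jn_step {w : Lay} {L : ℕ} (hg : w.Good L) {X : Finset ℕ} (hX : ∀ t ∈ X, 2 * t + 1 < L)
    (hM : Mates w id X) {v : ℕ} (hv : v ∈ X) (h1 : w.sg (2 * v) = true)
    (h2 : w.sg (2 * v + 1) = false) {j : ℕ} (hj : j < L) (hjX : j / 2 ∉ X) (hJ : Jn w X j) :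
    Jn (w.rev (2 * v) (2 * v + 1)) (X.erase v) j := by
  obtain ⟨hAB, hne⟩ := t1b_facts hg hX hv
  obtain ⟨u, hu⟩ := t1b_succ hM hv h2
  obtain ⟨s1, s2, s3⟩ := t1b_succ_pos hg hX hM hv h2 hu
  have hjv : j / 2 ≠ v := fun h => hjX (h ▸ hv)
  obtain ⟨j1, j2⟩ := hne j hj hjv
  rcases hJ with hJ | hJ | ⟨t, u', htu, hJ⟩
  · left
    intro x hx
    have hx' := Finset.mem_erase.1 hx
    have a1 := hJ x hx'.2
    have a2 := hJ v hv
    simp only [Lay.rev, Lay.Btw]
    split_ifs <;> omega
  · right; left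
    intro x hx
    have hx' := Finset.mem_erase.1 hx
    have a1 := hJ x hx'.2
    have a2 := hJ v hv
    simp only [Lay.rev, Lay.Btw]
    split_ifs <;> omega
  · by_cases htv : t = v
    · -- `j` is between `2v+1` and `2u`
      subst htv
      have huu : u' = u := by
        obtain ⟨a1, a2, a3, a4⟩ := htu
        obtain ⟨b1, b2, b3, b4⟩ := hu
        have c1 := a4 u b2
        have c2 := b4 u' a2
        simp only [id] at *
        omega
      subst huu
      simp only [Lay.Btw] at hJ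
      rcases t1b_pred hv with hmin | ⟨t', ht'⟩
      · left
        have hfirst := (hM.first t hv hmin).2
        intro x hx
        have hx' := Finset.mem_erase.1 hx
        have a1 := hfirst x hx'.2
        have a2 := hfirst t hv
        have a3 := s3 x hx'.2
        have a4 := hne (2 * x) (by have := hX x hx'.2; omega) (by omega)
        have a5 := hne (2 * x + 1) (hX x hx'.2) (by omega)
        simp only [Lay.rev, Lay.Btw]
        split_ifs <;> omega
      · right; right
        obtain ⟨p1, p2⟩ := t1b_pred_pos hg hX hM hv h1 ht'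
        refine ⟨t', u', t1b_cons_join ht' hu, ?_⟩
        simp only [Lay.rev, Lay.Btw]
        split_ifs <;> omega
    · by_cases huv : u' = v
      · subst huv
        obtain ⟨p1, p2⟩ := t1b_pred_pos hg hX hM hv h1 htu
        simp only [Lay.Btw] at hJ
        right; right
        refine ⟨t, u, t1b_cons_join htu hu, ?_⟩
        simp only [Lay.rev, Lay.Btw]
        split_ifs <;> omega
      · right; right
        refine ⟨t, u', t1b_cons_erase htu htv huv, ?_⟩
        have hadj := hM.adj t u' htu v hv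
        have a4 := hne (2 * t + 1) (hX t htu.1) (by omega)
        have a5 := hne (2 * u') (by have := hX u' htu.2.1; omega) (by omega)
        simp only [Lay.Btw] at hadj hJ
        simp only [Lay.rev, Lay.Btw]
        split_ifs <;> omega

/-- the left one of the two marks of a new pivot is a junction -/
theorem jn_new {w : Lay} {L : ℕ} (hg : w.Good L) {X : Finset ℕ} (hX : ∀ t ∈ X, 2 * t + 1 < L)
    (hM : Mates w id X) {v : ℕ} (hv : v ∈ X) (h1 : w.sg (2 * v) = true)
    (h2 : w.sg (2 * v + 1) = false) :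
    Jn (w.rev (2 * v) (2 * v + 1)) (X.erase v)
      (if w.pos (2 * v) < w.pos (2 * v + 1) then 2 * v else 2 * v + 1) := by
  obtain ⟨hAB, hne⟩ := t1b_facts hg hX hv
  obtain ⟨u, hu⟩ := t1b_succ hM hv h2
  obtain ⟨s1, s2, s3⟩ := t1b_succ_pos hg hX hM hv h2 hu
  have hr1 : (w.rev (2 * v) (2 * v + 1)).pos (2 * v) = w.pos (2 * v) := Lay.rev_pos_left _ _
  have hr2 : (w.rev (2 * v) (2 * v + 1)).pos (2 * v + 1) = w.pos (2 * v + 1) :=
    Lay.rev_pos_right _ _
  rcases t1b_pred hv with hmin | ⟨t', ht'⟩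
  · have hfirst := (hM.first v hv hmin).2
    have a2 := hfirst v hv
    have hlt : w.pos (2 * v) < w.pos (2 * v + 1) := by omega
    rw [if_pos hlt]
    left
    intro x hx
    have hx' := Finset.mem_erase.1 hx
    have a1 := hfirst x hx'.2
    have a4 := hne (2 * x) (by have := hX x hx'.2; omega) (by omega)
    have a5 := hne (2 * x + 1) (hX x hx'.2) (by omega)
    rw [hr1]
    simp only [Lay.rev, Lay.Btw]
    split_ifs <;> omega
  · obtain ⟨p1, p2⟩ := t1b_pred_pos hg hX hM hv h1 ht'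
    right; right
    refine ⟨t', u, t1b_cons_join ht' hu, ?_⟩
    by_cases hlt : w.pos (2 * v) < w.pos (2 * v + 1)
    · rw [if_pos hlt]
      left
      rw [hr1]
      simp only [Lay.rev, Lay.Btw]
      split_ifs <;> omega
    · rw [if_neg hlt]
      right
      rw [hr2]
      simp only [Lay.rev, Lay.Btw]
      split_ifs <;> omega

end SBR
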