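/-
SBR/R8.lean : phase 1 of the program (package R8).
-/
import Pool.Agent.SBR.Q1
import Pool.Agent.SBR.Q2
import Pool.Agent.SBR.T1a
import Pool.Agent.SBR.T1b
import Pool.Agent.SBR.T2a

namespace SBR

section
variable {M lam n : ℕ} {inp : ℕ → ℕ} {s : St} {q : AQ} {w : Lay}

private theorem r8_cons {m t u : ℕ} (h : Cons id (Finset.range m) t u) : u = t + 1 ∧ u < m := by
  obtain ⟨h1, h2, h3, h4⟩ := h
  simp only [id] at h3
  have h2' := Finset.mem_range.1 h2
  by_contra hne
  have h5 : t + 1 < u := by omega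
  exact h4 (t + 1) (Finset.mem_range.2 (by omega)) ⟨by simp only [id]; omega, by simp only [id]; omega⟩

theorem mates_init (hw : EL n w) : Mates w id (Finset.range (n + 1)) := by
  have helt : ∀ t u, Cons id (Finset.range (n + 1)) t u →
      w.sg (2 * t + 1) = w.sg (2 * u) ∧ ∃ k, 1 ≤ k ∧
        ((w.sg (2 * u) = true ∧ w.pos (2 * t + 1) = 2 * k - 1 ∧ w.pos (2 * u) = 2 * k) ∨
        (w.sg (2 * u) = false ∧ w.pos (2 * u) = 2 * k - 1 ∧ w.pos (2 * t + 1) = 2 * k)) := by
    intro t u h
    obtain ⟨h1, h2⟩ := r8_cons h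
    obtain ⟨e1, k, hk1, -, hk⟩ := hw.elt u (by omega) (by omega)
    have e : 2 * u - 1 = 2 * t + 1 := by omega
    rw [e] at e1 hk
    exact ⟨e1, k, hk1, hk⟩
  refine ⟨fun t _ u _ h => h, fun t u h => (helt t u h).1, ?_, ?_, ?_, ?_, ?_⟩
  · intro t u h hs
    obtain ⟨-, k, hk, h1 | h1⟩ := helt t u h
    · omega
    · rw [h1.1] at hs; simp at hs
  · intro t u h hs
    obtain ⟨-, k, hk, h1 | h1⟩ := helt t u h
    · rw [h1.1] at hs; simp at hs
    · omega
  · intro t u h v _
    obtain ⟨-, k, hk, h1⟩ := helt t u h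
    simp only [Lay.Btw]
    omega
  · intro t ht hmin
    have h0 := hmin 0 (Finset.mem_range.2 (by omega))
    simp only [id] at h0
    have : t = 0 := by omega
    subst this
    simp only [Nat.mul_zero, hw.p0]
    exact ⟨hw.s0, fun v _ => ⟨by omega, by omega⟩⟩
  · intro t ht hmax
    have h0 := hmax n (Finset.mem_range.2 (by omega))
    have ht' := Finset.mem_range.1 ht
    simp only [id] at h0
    have : t = n := by omega
    subst this
    rw [hw.p1]
    refine ⟨hw.s1, fun v hv => ?_⟩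
    have hv' := Finset.mem_range.1 hv
    have h1 := hw.good.lt (2 * v) (by omega)
    have h2 := hw.good.lt (2 * v + 1) (by omega)
    omega

theorem alg_init (hw : EL n w) (m1 m2 : ℕ → ℕ) :
    Alg (n + 1) (w.amat (n + 1)) w (Finset.range (n + 1)) [] m1 m2 := by
  refine ⟨hw.good, ?_, ?_, trivial, ?_, ?_, ?_, ?_, ?_, ?_⟩
  · intro a b
    simp only [Lay.amat]
    by_cases h : a < n + 1 ∧ b < n + 1
    · rw [if_pos h, if_pos h.symm]
      exact Lay.mat_comm hw.good (by omega) (by omega)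
    · rw [if_neg h, if_neg (fun h' => h h'.symm)]
  · intro t ht; exact Finset.mem_range.1 ht
  · intro h hh; simp at hh
  · intro h hh; simp at hh
  · intro h hh; simp at hh
  · intro t ht u hu
    simp only [pivs_nil, Lay.amat]
    rw [if_pos ⟨Finset.mem_range.1 ht, Finset.mem_range.1 hu⟩]
  · intro t ht u
    simp only [pivs_nil, Lay.amat]
    rw [if_neg]
    intro h
    exact ht (Finset.mem_range.2 h.1)
  · intro pre h post he
    simp at he

/-- store the marks -/
private def r8I : XStm :=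
    .ite (.lt (.r 56) (.r 58)) (blk [.sto 18 (.r 53) (.r 54), .sto 19 (.r 53) (.r 55)])
      (blk [.sto 18 (.r 53) (.r 55), .sto 19 (.r 53) (.r 54)])

/-- the body of the loop of phase 1 -/
private def r8B : XStm := blk [
    .set 53 (.half (.sub (.r 52) (.c 1))), .set 54 (dbl (.r 53)), .set 55 (dbl1 (.r 53)),
    .prim (.rank 54 56 57), .prim (.rank 55 58 59), r8I,
    .prim (.rev 54 55), .set 57 (.c 0), .prim (.setk 54 57), .prim (.setk 55 57),
    .sto 5 (.r 53) (.c 0), .sto 20 (.r 53) (.r 50), .set 50 (.add (.r 53) (.c 1)),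
    .set 51 (.add (.r 51) (.c 1)), .sto 21 (.r 53) (.r 51), .sto 22 (.r 51) (.r 53),
    .prim (.minneg 52)]

private theorem r8_prog : pPh1 = blk [
    .set 50 (.c 0), .set 51 (.c 0), .prim (.minneg 52),
    .whl (.lt (.c 0) (.r 52)) r8B] := rfl

/-- what the body does -/
private structure R8P (n : ℕ) (lam : ℕ) (s : St) (q : AQ) (w : Lay) (v : ℕ) (s' : St) (q' : AQ)
    (k : ℕ) : Prop where
  rep : RepQ (2 * (n + 1)) q' (w.rev (2 * v) (2 * v + 1))
  key : ∀ y, q'.key y = if y = 2 * v + 1 then 0 else if y = 2 * v then 0 else q.key y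
  a18 : ∀ i, s'.arr 18 i = if i = v then
    (if w.pos (2 * v) < w.pos (2 * v + 1) then 2 * v else 2 * v + 1) else s.arr 18 i
  a19 : ∀ i, s'.arr 19 i = if i = v then
    (if w.pos (2 * v) < w.pos (2 * v + 1) then 2 * v + 1 else 2 * v) else s.arr 19 i
  a5 : ∀ i, s'.arr 5 i = if i = v then 0 else s.arr 5 i
  a20 : ∀ i, s'.arr 20 i = if i = v then s.reg 50 else s.arr 20 i
  a21 : ∀ i, s'.arr 21 i = if i = v then s.reg 51 + 1 else s.arr 21 i
  a22 : ∀ i, s'.arr 22 i = if i = s.reg 51 + 1 then v else s.arr 22 i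
  r50 : s'.reg 50 = v + 1
  r51 : s'.reg 51 = s.reg 51 + 1
  r52 : IsMin (fun x => x < 2 * (n + 1) ∧ (w.rev (2 * v) (2 * v + 1)).sg x = false) q'.key
    (s'.reg 52)
  cost : k ≤ 200 * lam

private theorem r8_ite (s : St) (q : AQ) : ∃ s' k, XRun M inp lam r8I (s, q) s' k ∧
    (s'.2 = q ∧ s'.1.reg = s.reg ∧ k ≤ 20 ∧
      (∀ a i, s'.1.arr a i = if a = 18 ∧ i = s.reg 53 then
          (if s.reg 56 < s.reg 58 then s.reg 54 else s.reg 55) else
        if a = 19 ∧ i = s.reg 53 then (if s.reg 56 < s.reg 58 then s.reg 55 else s.reg 54)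
        else s.arr a i)) := by
  apply wp_run M inp (opS lam) r8I _ _
  simp only [r8I, blk, wp, Ex.Ok, Ex.eval, Ex.sz, Co.Ok, Co.Holds, Co.sz,
    reg_setArr, arr_setArr]
  refine ⟨⟨trivial, trivial⟩, fun h => ⟨trivial, trivial, trivial, trivial, trivial, trivial, by omega, ?_⟩,
    fun h => ⟨trivial, trivial, trivial, trivial, trivial, trivial, by omega, ?_⟩⟩
  · intro a i
    simp only [h, if_true]
    by_cases h1 : a = 18
    · subst h1
      simp
    · simp [h1]
  · intro a i
    simp only [h, if_false]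
    by_cases h1 : a = 18
    · subst h1
      simp
    · simp [h1]

private theorem r8_body (hM : 16 * (n + 1) ≤ M) (hl : 1 ≤ lam) (hg : w.Good (2 * (n + 1)))
    (hq : RepQ (2 * (n + 1)) q w) {v : ℕ} (hv : v < n + 1) (h52 : s.reg 52 = 2 * v + 2)
    (h51 : s.reg 51 ≤ n) :
    ∃ s' q' k, XRun M inp lam r8B (s, q) (s', q') k ∧ R8P n lam s q w v s' q' k := by
  have e53 : (s.reg 52 - 1) / 2 = v := by omega
  suffices h : wp M inp (opS lam) r8B (fun s' k => R8P n lam s q w v s'.1 s'.2 k) (s, q) by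
    obtain ⟨⟨s', q'⟩, k, hr, hR⟩ := wp_run M inp (opS lam) r8B _ _ h
    exact ⟨s', q', k, hr, hR⟩
  have e2 : v + v = 2 * v := by omega
  simp only [r8B, blk, wp, dbl, dbl1, Ex.Ok, Ex.eval, Ex.sz, e53, reg_setReg, arr_setReg,
    Nat.reduceEqDiff, ↓reduceIte, e2]
  refine ⟨⟨trivial, by omega, by omega⟩, ⟨trivial, trivial, by omega⟩,
    ⟨⟨trivial, trivial, by omega⟩, by omega, by omega⟩, _, _, rep_rank hq (by simp; omega) (by decide),
    _, _, rep_rank hq (by simp; omega) (by decide), ?_⟩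
  simp only [reg_setReg, arr_setReg, Nat.reduceEqDiff, ↓reduceIte]
  refine wp_of_run M inp (opS lam) (r8_ite _ _) ?_
  rintro ⟨s1, q1⟩ k1 ⟨hq1, hr1, hk1, ha1⟩
  simp only at hq1 hr1 ha1
  subst hq1
  simp only [reg_setReg, arr_setReg, Nat.reduceEqDiff, ↓reduceIte] at ha1
  have h50 : s1.reg 50 = s.reg 50 := by rw [hr1]; simp
  have h51' : s1.reg 51 = s.reg 51 := by rw [hr1]; simp
  have h53 : s1.reg 53 = v := by rw [hr1]; simp
  have h54 : s1.reg 54 = 2 * v := by rw [hr1]; simp
  have h55 : s1.reg 55 = 2 * v + 1 := by rw [hr1]; simp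
  obtain ⟨q2, o2, hq2, hk2⟩ := rep_rev (lam := lam) (s := s1) hg hq (a := 54) (b := 55)
    (by omega) (by omega) (by omega)
  rw [h54, h55] at hq2
  have hg2 : (w.rev (2 * v) (2 * v + 1)).Good (2 * (n + 1)) := hg.rev (by omega) (by omega)
  refine ⟨_, _, o2, by omega, ?_⟩
  have r3 := rep_setk (lam := lam) (s := s1.setReg 57 0) hq2 (x := 54) (k := 57) (by simp; omega)
  simp only [reg_setReg, Nat.reduceEqDiff, ↓reduceIte, h54, h55] at r3
  refine ⟨_, _, r3.1, ?_⟩
  have r4 := rep_setk (lam := lam) (s := s1.setReg 57 0) r3.2 (x := 55) (k := 57) (by simp; omega)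
  simp only [reg_setReg, Nat.reduceEqDiff, ↓reduceIte, h54, h55] at r4
  refine ⟨_, _, r4.1, ?_⟩
  simp only [reg_setReg, arr_setReg, Nat.reduceEqDiff, ↓reduceIte, reg_setArr, h53, h54, h55, h50, h51']
  refine ⟨trivial, by omega, trivial, trivial, ⟨trivial, by omega, by omega⟩, ⟨trivial, by omega, by omega⟩,
    trivial, trivial, trivial, trivial, ?_⟩
  obtain ⟨m, o5, hm⟩ := rep_minneg (lam := lam) (s := ((((((s1.setReg 57 0).setArr 5 v 0).setArr 20 v (s.reg 50)).setReg 50 (v + 1)).setReg 51 (s.reg 51 + 1)).setArr 21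
    v (s.reg 51 + 1)).setArr 22 (s.reg 51 + 1) v) hg2 r4.2 (by omega) (d := 52)
  refine ⟨_, _, o5, ?_⟩
  constructor
  · exact r4.2
  · intro y
    simp only [hk2]
  · intro i; simp [ha1]
  · intro i; simp [ha1]
  · intro i; simp [ha1]
  · intro i; simp [ha1]
  · intro i; simp [ha1]
  · intro i; simp [ha1]
  · simp
  · simp
  · simpa using hm
  · nlinarith

/-- invariant of the loop of phase 1 -/
private structure R8I (n : ℕ) (w0 : Lay) (s : St) (q : AQ) (w : Lay) (S : Finset ℕ) (ord : List ℕ)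
    (m1 m2 : ℕ → ℕ) : Prop where
  rep : RepQ (2 * (n + 1)) q w
  alg : Alg (n + 1) (w0.amat (n + 1)) w S ord m1 m2
  mates : Mates w id S
  jn : ∀ h ∈ ord, Jn w S (m1 h)
  cov : ∀ t, t < n + 1 → t ∈ S ∨ t ∈ ord
  mks : ∀ h ∈ ord, (m1 h = 2 * h ∧ m2 h = 2 * h + 1) ∨ (m1 h = 2 * h + 1 ∧ m2 h = 2 * h)
  amk : ∀ h ∈ ord, s.arr 18 h = m1 h ∧ s.arr 19 h = m2 h
  alive : Alive (n + 1) s S
  ll : LL (s.arr 20) (s.reg 50) ord.reverse
  lab : ∀ i, i < ord.length → s.arr 21 (ord.getD i 0) = i + 1 ∧ s.arr 22 (i + 1) = ord.getD i 0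
  key : ∀ x, x < 2 * (n + 1) → q.key x = if x / 2 ∈ S then x + 1 else 0
  card : S.card + ord.length = n + 1
  r51 : s.reg 51 = ord.length
  r52 : IsMin (fun x => x < 2 * (n + 1) ∧ w.sg x = false) q.key (s.reg 52)

private theorem r8_ll {nx nx' : ℕ → ℕ} : ∀ {l : List ℕ} {tl : ℕ}, (∀ v ∈ l, nx' v = nx v) →
    LL nx tl l → LL nx' tl l := by
  intro l
  induction l with
  | nil => intro tl _ h; exact h
  | cons v l ih =>
    intro tl h1 h2
    refine ⟨h2.1, ?_⟩
    rw [h1 v (by simp)]
    exact ih (fun u hu => h1 u (by simp [hu])) h2.2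

/-- the chord found -/
private theorem r8_find {w0 : Lay} {S : Finset ℕ} {ord : List ℕ} {m1 m2 : ℕ → ℕ}
    (h : R8I n w0 s q w S ord m1 m2) (hne : s.reg 52 ≠ 0) : ∃ v ∈ S, v < n + 1 ∧
      s.reg 52 = 2 * v + 2 ∧ w.sg (2 * v) = true ∧ w.sg (2 * v + 1) = false := by
  obtain ⟨h1, h2 | ⟨k, ⟨hk1, hk2⟩, hk3⟩⟩ := h.r52
  · exact absurd h2 hne
  · have h3 := h.key k hk1
    have hkS : k / 2 ∈ S := by
      by_contra hkS
      rw [if_neg hkS] at h3
      omega
    rw [if_pos hkS] at h3
    have hmin := neg_min h.mates hkS hk2 (fun x hx hs => by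
      have hxL : x < 2 * (n + 1) := by
        have := h.alg.sub _ hx
        omega
      have h4 := h.key x hxL
      rw [if_pos hx] at h4
      have h5 := h1 x ⟨hxL, hs⟩ (by omega)
      omega)
    refine ⟨k / 2, hkS, by omega, by omega, hmin.2, ?_⟩
    rw [← hmin.1]
    exact hk2

private theorem r8_step {w0 : Lay} {S : Finset ℕ} {ord : List ℕ} {m1 m2 : ℕ → ℕ}
    (h : R8I n w0 s q w S ord m1 m2) {v : ℕ} (hv : v ∈ S) (h1 : w.sg (2 * v) = true)
    (h2 : w.sg (2 * v + 1) = false) {s' : St} {q' : AQ} {k : ℕ}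
    (hP : R8P n lam s q w v s' q' k) :
    R8I n w0 s' q' (w.rev (2 * v) (2 * v + 1)) (S.erase v) (ord ++ [v])
      (fun i => if i = v then (if w.pos (2 * v) < w.pos (2 * v + 1) then 2 * v else 2 * v + 1)
        else m1 i)
      (fun i => if i = v then (if w.pos (2 * v) < w.pos (2 * v + 1) then 2 * v + 1 else 2 * v)
        else m2 i) := by
  have hg := h.alg.good
  have hvm := h.alg.sub v hv
  have hX : ∀ t ∈ S, 2 * t + 1 < 2 * (n + 1) := fun t ht => by
    have := h.alg.sub t ht
    omega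
  have hvo : v ∉ ord := fun h' => h.alg.disj v h' hv
  have hne : ∀ h' ∈ ord, h' ≠ v := fun h' hh e => hvo (e ▸ hh)
  constructor
  · exact hP.rep
  · apply alg_step h.alg hv
    · simp only [Lay.mat, if_true, h1, h2, bz]
      decide
    · intro i hi
      simp [hi]
    · simp only [if_true]
      split_ifs <;> simp
  · exact mates_step hg hX h.mates hv h1 h2
  · intro j hj
    rw [List.mem_append, List.mem_singleton] at hj
    rcases hj with hj | rfl
    · simp only [if_neg (hne j hj)]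
      have h3 := h.alg.mks j hj
      exact jn_step hg hX h.mates hv h1 h2 h3.1 h3.2.2.1 (h.jn j hj)
    · simp only [if_true]
      exact jn_new hg hX h.mates hv h1 h2
  · intro t ht
    rw [List.mem_append, List.mem_singleton, Finset.mem_erase]
    by_cases htv : t = v
    · right; right; exact htv
    · rcases h.cov t ht with h3 | h3
      · left; exact ⟨htv, h3⟩
      · right; left; exact h3
  · intro j hj
    rw [List.mem_append, List.mem_singleton] at hj
    rcases hj with hj | rfl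
    · simp only [if_neg (hne j hj)]
      exact h.mks j hj
    · simp only [if_true]
      split_ifs <;> simp
  · intro j hj
    rw [List.mem_append, List.mem_singleton] at hj
    rw [hP.a18, hP.a19]
    rcases hj with hj | rfl
    · simp only [if_neg (hne j hj)]
      exact h.amk j hj
    · simp only [if_true]
      exact ⟨trivial, trivial⟩
  · intro t ht
    rw [hP.a5, Finset.mem_erase]
    by_cases htv : t = v
    · simp [htv]
    · simp only [if_neg htv]
      rw [h.alive t ht]
      simp [htv]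
  · rw [List.reverse_append, List.reverse_singleton, List.singleton_append, hP.r50]
    refine ⟨rfl, ?_⟩
    rw [hP.a20, if_pos rfl]
    refine r8_ll (fun u hu => ?_) h.ll
    rw [hP.a20, if_neg (hne u (by simpa using hu))]
  · intro i hi
    rw [List.length_append, List.length_singleton] at hi
    rw [hP.a21, hP.a22, h.r51]
    by_cases hi' : i < ord.length
    · rw [List.getD_append _ _ _ _ hi']
      have hm : ord.getD i 0 ∈ ord := by
        rw [List.getD_eq_getElem _ _ hi']
        exact List.getElem_mem _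
      rw [if_neg (hne _ hm), if_neg (by omega)]
      exact h.lab i hi'
    · have e : i = ord.length := by omega
      subst e
      simp
  · intro x hx
    rw [hP.key, h.key x hx]
    by_cases e1 : x = 2 * v + 1
    · rw [if_pos e1, if_neg]
      rw [Finset.mem_erase]
      rintro ⟨h3, -⟩
      omega
    · rw [if_neg e1]
      by_cases e2 : x = 2 * v
      · rw [if_pos e2, if_neg]
        rw [Finset.mem_erase]
        rintro ⟨h3, -⟩
        omega
      · rw [if_neg e2]
        have e3 : x / 2 ≠ v := by omega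
        simp [e3]
  · rw [Finset.card_erase_of_mem hv, List.length_append, List.length_singleton]
    have := h.card
    have := Finset.card_pos.2 ⟨v, hv⟩
    omega
  · rw [hP.r51, h.r51]
    simp
  · exact hP.r52

theorem ph1_run (hM : 16 * (n + 1) ≤ M) (hl : 1 ≤ lam) (hw : EL n w) (hR : Regs n s)
    (hq : RepQ (2 * (n + 1)) q w) (hkey : ∀ x, x < 2 * (n + 1) → q.key x = x + 1)
    (hal : ∀ t, t < n + 1 → s.arr 5 t = 1) :
    ∃ s' q' k w1 S ord m1 m2, XRun M inp lam pPh1 (s, q) (s', q') k ∧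
      Post1 n w s' q' w1 S ord m1 m2 ∧ k ≤ 1000 * (n + 1) * lam := by
  have hg := hw.good
  obtain ⟨m0, o0, hm0⟩ := rep_minneg (lam := lam) (s := (s.setReg 50 0).setReg 51 0) hg hq
    (by omega) (d := 52)
  have hI0 : R8I n w (((s.setReg 50 0).setReg 51 0).setReg 52 m0) q w (Finset.range (n + 1)) []
      id id := by
    constructor
    · exact hq
    · exact alg_init hw id id
    · exact mates_init hw
    · intro h hh; simp at hh
    · intro t ht; left; exact Finset.mem_range.2 ht
    · intro h hh; simp at hh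
    · intro h hh; simp at hh
    · intro t ht
      simp only [arr_setReg, hal t ht, Finset.mem_range, ht]
    · simp [LL]
    · intro i hi; simp at hi
    · intro x hx
      rw [hkey x hx, if_pos (Finset.mem_range.2 (by omega))]
    · simp
    · simp
    · simpa using hm0
  have hloop := run_whl M inp (opS lam) (c := .lt (.c 0) (.r 52)) (p := r8B)
    (I := fun (g : Lay × Finset ℕ × List ℕ × (ℕ → ℕ) × (ℕ → ℕ)) (s' : St × AQ) k =>
      R8I n w s'.1 s'.2 g.1 g.2.1 g.2.2.1 g.2.2.2.1 g.2.2.2.2 ∧ k ≤ 204 * lam * g.2.2.1.length)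
    (μ := fun g => g.2.1.card) (by
      rintro ⟨w1, S, ord, m1, m2⟩ ⟨s1, q1⟩ k ⟨hI, hk⟩
      simp only at hI hk
      refine ⟨⟨show 0 < M by omega, trivial⟩, fun hlt => ?_⟩
      have hne : s1.reg 52 ≠ 0 := by
        simp only [Co.Holds, Ex.eval] at hlt
        omega
      obtain ⟨v, hvS, hv, h52, h1, h2⟩ := r8_find hI hne
      have hcard := hI.card
      have hpos := Finset.card_pos.2 ⟨v, hvS⟩
      obtain ⟨s2, q2, k2, hr2, hP⟩ := r8_body (M := M) (inp := inp) hM hl hI.alg.good hI.rep hv h52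
        (by rw [hI.r51]; omega)
      refine ⟨(s2, q2), k2, hr2, (_, _, _, _, _), ⟨r8_step hI hvS h1 h2 hP, ?_⟩, ?_⟩
      · have h3 := hP.cost
        simp only [Co.sz, Ex.sz, List.length_append, List.length_singleton]
        have h4 : 204 * lam * (ord.length + 1) = 204 * lam * ord.length + 204 * lam := by ring
        omega
      · exact Finset.card_erase_lt_of_mem hvS)
  obtain ⟨⟨s', q'⟩, k', hr, ⟨w1, S, ord, m1, m2⟩, kk, ⟨hI, hkk⟩, hnot, hsum⟩ :=
    hloop (w, Finset.range (n + 1), [], id, id) (((s.setReg 50 0).setReg 51 0).setReg 52 m0, q) 0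
      ⟨hI0, by simp⟩
  simp only at hI hkk
  have h52 : s'.reg 52 = 0 := by
    simp only [Co.Holds, Ex.eval] at hnot
    omega
  have hrun : XRun M inp lam pPh1 (s, q) (s', q') (2 + (2 + (lam + k'))) := by
    rw [r8_prog]
    refine .seq _ _ _ _ _ _ _ (.set s q 50 (.c 0) (show 0 < M by omega)) ?_
    refine .seq _ _ _ _ _ _ _ (.set _ q 51 (.c 0) (show 0 < M by omega)) ?_
    exact .seq _ _ _ _ _ _ _ (.prim _ _ _ _ o0) hr
  refine ⟨s', q', _, w1, S, ord, m1, m2, hrun, ?_, ?_⟩
  · constructor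
    · exact hI.rep
    · exact hI.alg
    · have hmin := hI.r52
      rw [h52] at hmin
      have key : ∀ x, x / 2 ∈ S → w1.sg x = true := by
        intro x hx
        by_contra hc
        have hxL : x < 2 * (n + 1) := by
          have := hI.alg.sub _ hx
          omega
        have hkx := hI.key x hxL
        rw [if_pos hx] at hkx
        exact (hmin.1 x ⟨hxL, by simpa using hc⟩ (by omega)).1 rfl
      intro t ht
      refine ⟨key _ ?_, key _ ?_⟩
      · rw [show 2 * t / 2 = t by omega]; exact ht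
      · rw [show (2 * t + 1) / 2 = t by omega]; exact ht
    · exact hI.mates
    · exact hI.jn
    · exact hI.cov
    · exact hI.mks
    · exact hI.amk
    · exact hI.alive
    · exact hI.ll
    · exact hI.lab
  · have h1 := hI.card
    have h2 : ord.length ≤ n + 1 := by omega
    have h3 : 204 * lam * ord.length ≤ 204 * lam * (n + 1) := Nat.mul_le_mul_left _ h2
    simp only [Co.sz, Ex.sz] at hsum
    have h4 : lam ≤ (n + 1) * lam := Nat.le_mul_of_pos_left _ (by omega)
    have h5 : 204 * lam * (n + 1) = 204 * ((n + 1) * lam) := by ring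
    have h6 : 1000 * (n + 1) * lam = 1000 * ((n + 1) * lam) := by ring
    omega

end

end SBR
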