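/-
SBR/R9.lean : the sweeps (labels of the pivots crossing a chord).
-/
import Pool.Agent.SBR.Q1
import Pool.Agent.SBR.Q2
import Pool.Agent.SBR.Machine

namespace SBR

section
variable {M lam n : ℕ} {inp : ℕ → ℕ} {s : St} {q : AQ} {w : Lay}

/-- the other end of the chord with end `x` -/
def r9m (x : ℕ) : ℕ := 4 * (x / 2) + 1 - x

theorem r9m_div (x : ℕ) : r9m x / 2 = x / 2 := by unfold r9m; omega

theorem r9m_r9m (x : ℕ) : r9m (r9m x) = x := by unfold r9m; omega

theorem r9m_ne (x : ℕ) : r9m x ≠ x := by unfold r9m; omega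

theorem r9m_lt {x : ℕ} (hx : x < 2 * (n + 1)) : r9m x < 2 * (n + 1) := by unfold r9m; omega

/-- body of the loop `pSweep` -/
def r9body : XStm := blk [
  .set 11 (.ld 4 (.r 10)), .set 12 (.half (.r 11)), .set 13 (mt (.r 12) (.r 11)),
  .ite (.eq (.ld 5 (.r 12)) (.c 1))
    (.ite (.lt (.r 10) (.ld 3 (.r 13))) .skip
      (blk [.prim (.btw 11 13 14),
        .ite (.lt (.ld 23 (.r 12)) (.r 14)) (.sto 23 (.r 12) (.r 14)) .skip]))
    (.ite (.lt (.r 10) (.ld 3 (.r 13)))
      (blk [.set 14 (.ld 21 (.r 12)), .prim (.setk 11 14)])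
      (blk [.set 14 (.c 0), .prim (.setk 13 14)]))]

theorem r9_pSweep : pSweep = forN 10 2 r9body := rfl

/-- the keys before position `j` is visited -/
def r9key (S : Finset ℕ) (wo : Lay) (f : ℕ → ℕ) (j x : ℕ) : ℕ :=
  if x / 2 ∉ S ∧ wo.pos x < j ∧ j ≤ wo.pos (r9m x) then f (x / 2) else 0

/-- dead chord `h` with first mark between the ends of `z` and second mark behind -/
def r9P (n : ℕ) (S : Finset ℕ) (wo : Lay) (z h : ℕ) : Prop :=
  h < n + 1 ∧ h ∉ S ∧ ∃ u, u / 2 = h ∧ wo.Btw (2 * z) (2 * z + 1) u ∧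
    wo.pos (2 * z) < wo.pos (r9m u) ∧ wo.pos (2 * z + 1) < wo.pos (r9m u)

/-- `v` is the maximum of `a` and of the values of `f` on `P` -/
def r9Max (P : ℕ → Prop) (f : ℕ → ℕ) (a v : ℕ) : Prop :=
  (∀ x, P x → f x ≤ v) ∧ a ≤ v ∧ (v = a ∨ ∃ x, P x ∧ f x = v)

/-- loop invariant -/
structure r9I (n : ℕ) (S : Finset ℕ) (w wo : Lay) (s0 : St) (j : ℕ) (s : St) (q : AQ) : Prop where
  a3 : s.arr 3 = s0.arr 3
  a4 : s.arr 4 = s0.arr 4
  a5 : s.arr 5 = s0.arr 5
  a21 : s.arr 21 = s0.arr 21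
  rep : RepQ (2 * (n + 1)) q w
  key : ∀ x, x < 2 * (n + 1) → q.key x = r9key S wo (s0.arr 21) j x
  old : ∀ z ∈ S, j ≤ max (wo.pos (2 * z)) (wo.pos (2 * z + 1)) → s.arr 23 z = s0.arr 23 z
  new : ∀ z ∈ S, max (wo.pos (2 * z)) (wo.pos (2 * z + 1)) < j →
    r9Max (r9P n S wo z) (s0.arr 21) (s0.arr 23 z) (s.arr 23 z)

theorem r9key_succ {S : Finset ℕ} {wo : Lay} {f : ℕ → ℕ} {j u : ℕ} (h1 : wo.pos u ≠ j)
    (h2 : wo.pos (r9m u) ≠ j) : r9key S wo f (j + 1) u = r9key S wo f j u := by
  unfold r9key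
  apply if_congr _ rfl rfl
  constructor
  · rintro ⟨h3, h4, h5⟩
    exact ⟨h3, by omega, by omega⟩
  · rintro ⟨h3, h4, h5⟩
    exact ⟨h3, by omega, by omega⟩

theorem r9key_mem {S : Finset ℕ} {wo : Lay} {f : ℕ → ℕ} {j u : ℕ} (h : u / 2 ∈ S) :
    r9key S wo f j u = 0 := by
  unfold r9key
  rw [if_neg]
  rintro ⟨h1, _⟩
  exact h1 h

theorem r9_eq_or {x u : ℕ} (h : u / 2 = x / 2) : u = x ∨ u = r9m x := by
  unfold r9m
  omega

theorem r9_max {wo : Lay} (hgo : wo.Good (2 * (n + 1))) {j x z : ℕ} (hx : x < 2 * (n + 1))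
    (hxj : wo.pos x = j) (hz : z < n + 1)
    (h : max (wo.pos (2 * z)) (wo.pos (2 * z + 1)) = j) : z = x / 2 ∧ wo.pos (r9m x) ≤ j := by
  rcases Nat.le_total (wo.pos (2 * z)) (wo.pos (2 * z + 1)) with h1 | h1
  · rw [max_eq_right h1] at h
    have h2 : 2 * z + 1 = x := hgo.inj _ _ (by omega) hx (by rw [h, hxj])
    have h3 : r9m x = 2 * z := by unfold r9m; omega
    exact ⟨by omega, by rw [h3]; omega⟩
  · rw [max_eq_left h1] at h
    have h2 : 2 * z = x := hgo.inj _ _ (by omega) hx (by rw [h, hxj])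
    have h3 : r9m x = 2 * z + 1 := by unfold r9m; omega
    exact ⟨by omega, by rw [h3]; omega⟩

theorem r9_step (hM : 16 * (n + 1) ≤ M) (hg : w.Good (2 * (n + 1))) {wo : Lay}
    (hgo : wo.Good (2 * (n + 1)))
    (hb : ∀ a b x, a < 2 * (n + 1) → b < 2 * (n + 1) → x < 2 * (n + 1) →
      (wo.Btw a b x ↔ w.Btw a b x))
    {S : Finset ℕ} (hS : ∀ t ∈ S, t < n + 1) {s0 : St} (ha : ArrPos (2 * (n + 1)) s0 wo)
    (hal : Alive (n + 1) s0 S) {j : ℕ} (hj : j < 2 * (n + 1)) (hI : r9I n S w wo s0 j s q)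
    (h10 : s.reg 10 = j) :
    ∃ s' q' k, XRun M inp lam r9body (s, q) (s', q') k ∧ r9I n S w wo s0 (j + 1) s' q' ∧
      k ≤ 60 + lam := by
  obtain ⟨x, hx, hxj⟩ := q2_surj hgo hj
  have hy : r9m x < 2 * (n + 1) := r9m_lt hx
  have e4 : s.arr 4 j = x := by rw [hI.a4, ← hxj]; exact (ha x hx).2
  have e3 : s.arr 3 (r9m x) = wo.pos (r9m x) := by rw [hI.a3]; exact (ha _ hy).1
  have hne : wo.pos (r9m x) ≠ j := by
    intro h
    exact r9m_ne x (hgo.inj _ _ hy hx (by rw [h, hxj]))
  have hm : x / 2 + x / 2 + (x / 2 + x / 2) + 1 - x = r9m x := by unfold r9m; omega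
  have hx2 : x / 2 < n + 1 := by omega
  have e5 : s.arr 5 (x / 2) = 1 ↔ x / 2 ∈ S := by rw [hI.a5]; exact hal _ hx2
  -- keys of the other nodes
  have hoth : ∀ u, u < 2 * (n + 1) → u / 2 ≠ x / 2 →
      r9key S wo (s0.arr 21) (j + 1) u = r9key S wo (s0.arr 21) j u := by
    intro u hu hux
    apply r9key_succ
    · intro h
      exact hux (by rw [hgo.inj u x hu hx (by rw [h, hxj])])
    · intro h
      exact hux (by rw [← r9m_div u, hgo.inj (r9m u) x (r9m_lt hu) hx (by rw [h, hxj])])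
  -- nothing changes for the labels if this is not the second end of an alive chord
  have hstay : ∀ s' q', (s'.arr = s.arr) → RepQ (2 * (n + 1)) q' w →
      (∀ u, u < 2 * (n + 1) → q'.key u = r9key S wo (s0.arr 21) (j + 1) u) →
      (x / 2 ∈ S → j < wo.pos (r9m x)) → r9I n S w wo s0 (j + 1) s' q' := by
    intro s' q' h1 h2 h3 h4
    refine ⟨by rw [h1, hI.a3], by rw [h1, hI.a4], by rw [h1, hI.a5], by rw [h1, hI.a21], h2, h3,
      ?_, ?_⟩
    · intro z hz hzm
      rw [h1]
      exact hI.old z hz (by omega)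
    · intro z hz hzm
      rw [h1]
      rcases Nat.lt_or_ge (max (wo.pos (2 * z)) (wo.pos (2 * z + 1))) j with h5 | h5
      · exact hI.new z hz h5
      · exfalso
        obtain ⟨h6, h7⟩ := r9_max hgo hx hxj (hS z hz) (by omega)
        have := h4 (h6 ▸ hz)
        omega
  have key : wp M inp (opS lam) r9body
      (fun s' k => r9I n S w wo s0 (j + 1) s'.1 s'.2 ∧ k ≤ 60 + lam) (s, q) := by
    simp only [r9body, blk, wp, mt, Ex.Ok, Ex.eval, Co.Ok, Co.Holds, Ex.sz, Co.sz, reg_setReg,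
      arr_setReg, reduceIte, h10, e4, true_and, and_true]
    norm_num
    simp only [hm, e3, e5]
    refine ⟨by omega, by omega, fun hxS => ⟨fun hlt => ?_, fun hle => ?_⟩,
      fun hxS => ⟨fun hlt => ?_, fun hle => ?_⟩⟩
    · -- first end of an alive chord
      refine ⟨hstay _ _ rfl hI.rep (fun u hu => ?_) (fun _ => hlt), by omega⟩
      by_cases hux : u / 2 = x / 2
      · rw [hI.key u hu, r9key_mem (by rw [hux]; exact hxS), r9key_mem (by rw [hux]; exact hxS)]
      · rw [hI.key u hu, hoth u hu hux]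
    · -- second end of an alive chord
      have hlt : wo.pos (r9m x) < j := lt_of_le_of_ne hle hne
      obtain ⟨v, hv1, hv2⟩ := rep_btw (lam := lam)
        (s := ((s.setReg 11 x).setReg 12 (x / 2)).setReg 13 (r9m x)) hg hI.rep (a := 11) (b := 13)
        (d := 14) (by simpa using hx) (by simpa using hy) (by simpa using (r9m_ne x).symm)
      have hv2' : IsMax (fun y => y < 2 * (n + 1) ∧ w.Btw x (r9m x) y) q.key v := by
        simpa using hv2
      refine ⟨_, _, _, hv1, ?_⟩
      simp only [reg_setReg, arr_setReg, reduceIte]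
      norm_num
      have hkey : ∀ u, u < 2 * (n + 1) → q.key u = r9key S wo (s0.arr 21) (j + 1) u := by
        intro u hu
        by_cases hux : u / 2 = x / 2
        · rw [hI.key u hu, r9key_mem (by rw [hux]; exact hxS), r9key_mem (by rw [hux]; exact hxS)]
        · rw [hI.key u hu, hoth u hu hux]
      have hmx : max (wo.pos (2 * (x / 2))) (wo.pos (2 * (x / 2) + 1)) = j := by
        rcases Nat.mod_two_eq_zero_or_one x with h1 | h1
        · have h2 : 2 * (x / 2) = x := by omega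
          have h3 : 2 * (x / 2) + 1 = r9m x := by unfold r9m; omega
          rw [h3, h2, hxj]; omega
        · have h2 : 2 * (x / 2) = r9m x := by unfold r9m; omega
          have h3 : 2 * (x / 2) + 1 = x := by omega
          rw [h3, h2, hxj]; omega
      have hold : s.arr 23 (x / 2) = s0.arr 23 (x / 2) := hI.old _ hxS (by omega)
      have hbt : ∀ u, wo.Btw (2 * (x / 2)) (2 * (x / 2) + 1) u ↔
          (wo.pos (r9m x) < wo.pos u ∧ wo.pos u < j) := by
        intro u
        rcases Nat.mod_two_eq_zero_or_one x with h1 | h1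
        · have h2 : 2 * (x / 2) = x := by omega
          have h3 : 2 * (x / 2) + 1 = r9m x := by unfold r9m; omega
          rw [h3, h2]
          unfold Lay.Btw
          rw [hxj]; omega
        · have h2 : 2 * (x / 2) = r9m x := by unfold r9m; omega
          have h3 : 2 * (x / 2) + 1 = x := by omega
          rw [h3, h2]
          unfold Lay.Btw
          rw [hxj]; omega
      have hbx : ∀ u, u < 2 * (n + 1) →
          (w.Btw x (r9m x) u ↔ (wo.pos (r9m x) < wo.pos u ∧ wo.pos u < j)) := by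
        intro u hu
        rw [← hb _ _ _ hx hy hu]
        unfold Lay.Btw
        rw [hxj]; omega
      -- the new value
      have hnew : r9Max (r9P n S wo (x / 2)) (s0.arr 21) (s0.arr 23 (x / 2))
          (max (s0.arr 23 (x / 2)) v) := by
        refine ⟨?_, le_max_left _ _, ?_⟩
        · rintro h ⟨h1, h2, u, h3, h4, h5, h6⟩
          have hu : u < 2 * (n + 1) := by omega
          have h7 := (hbt u).1 h4
          have h8 : j ≤ wo.pos (r9m u) := by omega
          have h9 : q.key u = s0.arr 21 h := by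
            rw [hI.key u hu, r9key, if_pos ⟨by rw [h3]; exact h2, h7.2, h8⟩, h3]
          have h10' := hv2'.1 u ⟨hu, (hbx u hu).2 h7⟩
          rw [h9] at h10'
          exact le_trans h10' (le_max_right _ _)
        · rcases Nat.le_total v (s0.arr 23 (x / 2)) with h1 | h1
          · left; exact max_eq_left h1
          · rw [max_eq_right h1]
            by_cases hv0 : v = s0.arr 23 (x / 2)
            · left; exact hv0
            · right
              rcases hv2'.2 with h2 | ⟨u, ⟨hu, h3⟩, h4⟩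
              · omega
              · have h5 := (hbx u hu).1 h3
                rw [hI.key u hu, r9key] at h4
                split_ifs at h4 with h6
                · have h7 : wo.pos (r9m u) ≠ j := by
                    intro h
                    have h8 := hgo.inj (r9m u) x (r9m_lt hu) hx (by rw [h, hxj])
                    have h9 := r9m_div u
                    rw [h8] at h9
                    exact h6.1 (h9 ▸ hxS)
                  refine ⟨u / 2, ⟨by omega, h6.1, u, rfl, (hbt u).2 h5, by omega, by omega⟩, h4⟩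
                · omega
      constructor
      · intro hvl
        refine ⟨⟨?_, ?_, ?_, ?_, hI.rep, hkey, ?_, ?_⟩, by omega⟩
        · funext i; simp [hI.a3]
        · funext i; simp [hI.a4]
        · funext i; simp [hI.a5]
        · funext i; simp [hI.a21]
        · intro z hz hzm
          have hzx : z ≠ x / 2 := by rintro rfl; omega
          simp only [arr_setArr, arr_setReg, hzx, and_false, if_false]
          exact hI.old z hz (by omega)
        · intro z hz hzm
          by_cases hzx : z = x / 2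
          · subst hzx
            simp only [arr_setArr, arr_setReg, and_self, if_true]
            rw [max_eq_right (by omega)] at hnew
            exact hnew
          · simp only [arr_setArr, arr_setReg, hzx, and_false, if_false]
            refine hI.new z hz (lt_of_le_of_ne (by omega) fun h => hzx ?_)
            exact (r9_max hgo hx hxj (hS z hz) h).1
      · intro hvl
        refine ⟨⟨?_, ?_, ?_, ?_, hI.rep, hkey, ?_, ?_⟩, by omega⟩
        · simp [hI.a3]
        · simp [hI.a4]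
        · simp [hI.a5]
        · simp [hI.a21]
        · intro z hz hzm
          simp only [arr_setReg]
          exact hI.old z hz (by omega)
        · intro z hz hzm
          simp only [arr_setReg]
          by_cases hzx : z = x / 2
          · subst hzx
            rw [max_eq_left (by omega)] at hnew
            rw [hold]
            exact hnew
          · refine hI.new z hz (lt_of_le_of_ne (by omega) fun h => hzx ?_)
            exact (r9_max hgo hx hxj (hS z hz) h).1
    · -- first mark of a dead chord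
      obtain ⟨h1, h2⟩ := rep_setk (lam := lam)
        (s := (((s.setReg 11 x).setReg 12 (x / 2)).setReg 13 (r9m x)).setReg 14 (s.arr 21 (x / 2)))
        hI.rep (x := 11) (k := 14) (by simpa using hx)
      refine ⟨_, _, _, h1, hstay _ _ rfl h2 (fun u hu => ?_) (fun h => absurd h hxS), by omega⟩
      simp only [reg_setReg, reduceIte]
      norm_num
      by_cases hux : u / 2 = x / 2
      · rcases r9_eq_or hux with h3 | h3
        · subst h3
          rw [if_pos rfl, r9key, if_pos ⟨hxS, by omega, by omega⟩, hI.a21]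
        · have h4 : u ≠ x := by rw [h3]; exact r9m_ne x
          rw [if_neg h4, hI.key u hu, r9key, r9key, if_neg, if_neg]
          · rintro ⟨_, h5, _⟩; rw [h3] at h5; omega
          · rintro ⟨_, h5, _⟩; rw [h3] at h5; omega
      · have h4 : u ≠ x := by rintro rfl; exact hux rfl
        rw [if_neg h4, hI.key u hu, hoth u hu hux]
    · -- second mark of a dead chord
      have hlt : wo.pos (r9m x) < j := lt_of_le_of_ne hle hne
      obtain ⟨h1, h2⟩ := rep_setk (lam := lam)
        (s := (((s.setReg 11 x).setReg 12 (x / 2)).setReg 13 (r9m x)).setReg 14 0)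
        hI.rep (x := 13) (k := 14) (by simpa using hy)
      refine ⟨by omega, _, _, _, h1, hstay _ _ rfl h2 (fun u hu => ?_) (fun h => absurd h hxS),
        by omega⟩
      simp only [reg_setReg, reduceIte]
      norm_num
      by_cases hux : u / 2 = x / 2
      · rcases r9_eq_or hux with h3 | h3
        · have h4 : u ≠ r9m x := by rw [h3]; exact (r9m_ne x).symm
          rw [if_neg h4, hI.key u hu, r9key, r9key, if_neg, if_neg]
          · rintro ⟨_, _, h5⟩; rw [h3] at h5; omega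
          · rintro ⟨_, h5, _⟩; rw [h3] at h5; omega
        · rw [if_pos h3, r9key, if_neg]
          rintro ⟨_, _, h5⟩
          rw [h3, r9m_r9m] at h5
          omega
      · have h4 : u ≠ r9m x := by
          intro h; exact hux (by rw [h, r9m_div])
        rw [if_neg h4, hI.key u hu, hoth u hu hux]
  obtain ⟨⟨s', q'⟩, k, h1, h2, h3⟩ := wp_run M inp (opS lam) _ _ _ key
  exact ⟨s', q', k, h1, h2, h3⟩

theorem r9_sweep (hM : 16 * (n + 1) ≤ M) (hl : 1 ≤ lam) (hg : w.Good (2 * (n + 1))) {wo : Lay}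
    (hgo : wo.Good (2 * (n + 1)))
    (hb : ∀ a b x, a < 2 * (n + 1) → b < 2 * (n + 1) → x < 2 * (n + 1) →
      (wo.Btw a b x ↔ w.Btw a b x))
    (hR : s.reg 2 = 2 * (n + 1)) (hq : RepQ (2 * (n + 1)) q w)
    (hkey : ∀ x, x < 2 * (n + 1) → q.key x = 0) {S : Finset ℕ} (hS : ∀ t ∈ S, t < n + 1)
    (ha : ArrPos (2 * (n + 1)) s wo) (hal : Alive (n + 1) s S) :
    ∃ s' q' k, XRun M inp lam pSweep (s, q) (s', q') k ∧ RepQ (2 * (n + 1)) q' w ∧
      (∀ x, x < 2 * (n + 1) → q'.key x = 0) ∧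
      (∀ z ∈ S, r9Max (r9P n S wo z) (s.arr 21) (s.arr 23 z) (s'.arr 23 z)) ∧
      k ≤ 200 * (n + 1) * lam := by
  have h0 : r9I n S w wo s 0 s q := by
    refine ⟨rfl, rfl, rfl, rfl, hq, fun x hx => ?_, fun _ _ _ => rfl, fun z _ h => ?_⟩
    · rw [hkey x hx, r9key, if_neg]
      rintro ⟨_, h, _⟩
      omega
    · omega
  obtain ⟨s', q', k, h1, h2, _, _, h3⟩ := forN_run (M := M) (lam := lam) (inp := inp) (i := 10)
    (n := 2) (body := r9body) (N := 2 * (n + 1)) (c := 60 + lam)
    (fun j s' q' => r9I n S w wo s j s' q') (by omega) (by decide) (by decide) (by decide)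
    (fun j s' q' v h => ⟨h.a3, h.a4, h.a5, h.a21, h.rep, h.key, h.old, h.new⟩)
    (fun j s1 q1 hj hI h10 _ => r9_step hM hg hgo hb hS ha hal hj hI h10) h0 hR
  refine ⟨s', q', k, h1, h2.rep, fun x hx => ?_, fun z hz => ?_, ?_⟩
  · rw [h2.key x hx, r9key, if_neg]
    rintro ⟨_, _, h⟩
    have := hgo.lt _ (r9m_lt hx)
    omega
  · have h4 := hS z hz
    have h5 := hgo.lt (2 * z) (by omega)
    have h6 := hgo.lt (2 * z + 1) (by omega)
    exact h2.new z hz (by omega)
  · have h4 : (60 + lam + 8) * (2 * (n + 1)) + 6 ≤ 200 * (n + 1) * lam := by nlinarith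
    exact h3.trans h4

theorem r9_flip (hM : 16 * (n + 1) ≤ M) (hg : w.Good (2 * (n + 1)))
    (hR : s.reg 2 = 2 * (n + 1)) (ha : ArrPos (2 * (n + 1)) s w) (q : AQ) :
    ∃ s' k, XRun M inp lam pFlip (s, q) (s', q) k ∧
      ArrPos (2 * (n + 1)) s' (w.flip (2 * (n + 1))) ∧ k ≤ 100 * (n + 1) := by
  obtain ⟨s', q', k, h1, ⟨h2, h3, h5⟩, _, _, h4⟩ := forN_run (M := M) (lam := lam) (inp := inp)
    (i := 10) (n := 2)
    (body := blk [.set 11 (.sub (.sub (.r 2) (.c 1)) (.ld 3 (.r 10))), .sto 3 (.r 10) (.r 11),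
      .sto 4 (.r 11) (.r 10)]) (N := 2 * (n + 1)) (c := 20) (s := s) (q := q)
    (fun j s' q' => q' = q ∧ (∀ x, x < 2 * (n + 1) → s'.arr 3 x =
      if x < j then 2 * (n + 1) - 1 - w.pos x else w.pos x) ∧
      ∀ x, x < j → s'.arr 4 (2 * (n + 1) - 1 - w.pos x) = x)
    (by omega) (by decide) (by decide) (by decide)
    (fun j s' q' v h => h)
    (fun j s1 q1 hj hI h10 h2' => by
      obtain ⟨hq, h3, h4⟩ := hI
      subst hq
      have hjp := hg.lt j hj
      have e3 : s1.arr 3 j = w.pos j := by rw [h3 j hj, if_neg (by omega)]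
      have key : wp M inp (opS lam) (blk [.set 11 (.sub (.sub (.r 2) (.c 1)) (.ld 3 (.r 10))),
          .sto 3 (.r 10) (.r 11), .sto 4 (.r 11) (.r 10)])
          (fun s' k => (s'.2 = q1 ∧ (∀ x, x < 2 * (n + 1) → s'.1.arr 3 x =
            if x < j + 1 then 2 * (n + 1) - 1 - w.pos x else w.pos x) ∧
            ∀ x, x < j + 1 → s'.1.arr 4 (2 * (n + 1) - 1 - w.pos x) = x) ∧ k ≤ 20) (s1, q1) := by
        simp only [blk, wp, Ex.Ok, Ex.eval, Ex.sz, reg_setReg, arr_setReg, arr_setArr,
          reg_setArr, reduceIte, h10, h2', true_and, e3]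
        norm_num
        refine ⟨by omega, ?_, ?_⟩
        · intro x hx
          by_cases hxj : x = j
          · subst hxj
            rw [if_pos rfl, if_pos (by omega)]
          · rw [if_neg hxj, h3 x hx]
            by_cases hlt : x < j
            · rw [if_pos hlt, if_pos (by omega)]
            · rw [if_neg hlt, if_neg (by omega)]
        · intro x hx
          by_cases hxj : x = j
          · subst hxj
            rw [if_pos (by omega)]
          · have hxp := hg.lt x (by omega)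
            have hne : w.pos x ≠ w.pos j := fun h => hxj (hg.inj _ _ (by omega) hj h)
            rw [if_neg (by omega)]
            exact h4 x (by omega)
      obtain ⟨⟨s', q'⟩, k, h5, h6, h7⟩ := wp_run M inp (opS lam) _ _ _ key
      exact ⟨s', q', k, h5, h6, h7⟩)
    ⟨rfl, fun x hx => by rw [if_neg (by omega)]; exact (ha x hx).1, fun x hx => by omega⟩ hR
  subst h2
  refine ⟨s', k, h1, fun x hx => ⟨?_, ?_⟩, by omega⟩
  · rw [h3 x hx, if_pos hx]; rfl
  · exact h5 x hx

theorem r9_flip_good (hg : w.Good (2 * (n + 1))) :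
    (w.flip (2 * (n + 1))).Good (2 * (n + 1)) := by
  refine ⟨fun x hx => ?_, fun x y hx hy h => ?_⟩
  · show 2 * (n + 1) - 1 - w.pos x < 2 * (n + 1)
    omega
  · have h1 := hg.lt x hx
    have h2 := hg.lt y hy
    have h3 : 2 * (n + 1) - 1 - w.pos x = 2 * (n + 1) - 1 - w.pos y := h
    exact hg.inj x y hx hy (by omega)

theorem r9_flip_btw (hg : w.Good (2 * (n + 1))) (a b x : ℕ) (ha : a < 2 * (n + 1))
    (hb : b < 2 * (n + 1)) (hx : x < 2 * (n + 1)) :
    (w.flip (2 * (n + 1))).Btw a b x ↔ w.Btw a b x := by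
  have h1 := hg.lt a ha
  have h2 := hg.lt b hb
  have h3 := hg.lt x hx
  have e : ∀ y, (w.flip (2 * (n + 1))).pos y = 2 * (n + 1) - 1 - w.pos y := fun y => rfl
  unfold Lay.Btw
  rw [e, e, e]
  omega

theorem r9_comb {p p' a b : ℕ} (h1 : p ≠ a) (h2 : p ≠ b) (h3 : p' ≠ a) (h4 : p' ≠ b) :
    ((if p < a then (1 : ZMod 2) else 0) + (if p < b then 1 else 0) + (if p' < a then 1 else 0) +
      (if p' < b then 1 else 0) ≠ 0) ↔
    ((((a < p ∧ p < b) ∨ (b < p ∧ p < a)) ∧ ((a < p' ∧ b < p') ∨ (p' < a ∧ p' < b))) ∨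
     (((a < p' ∧ p' < b) ∨ (b < p' ∧ p' < a)) ∧ ((a < p ∧ b < p) ∨ (p < a ∧ p < b)))) := by
  split_ifs
  all_goals
    first
    | (rw [iff_true_left (by decide)]; omega)
    | (rw [iff_false_left (by decide)]; omega)

theorem r9_P_iff {wo : Lay} {S : Finset ℕ} {z h : ℕ} : r9P n S wo z h ↔ h < n + 1 ∧ h ∉ S ∧
    ((wo.Btw (2 * z) (2 * z + 1) (2 * h) ∧ wo.pos (2 * z) < wo.pos (2 * h + 1) ∧
      wo.pos (2 * z + 1) < wo.pos (2 * h + 1)) ∨
    (wo.Btw (2 * z) (2 * z + 1) (2 * h + 1) ∧ wo.pos (2 * z) < wo.pos (2 * h) ∧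
      wo.pos (2 * z + 1) < wo.pos (2 * h))) := by
  have e1 : r9m (2 * h) = 2 * h + 1 := by unfold r9m; omega
  have e2 : r9m (2 * h + 1) = 2 * h := by unfold r9m; omega
  constructor
  · rintro ⟨h1, h2, u, h3, h4⟩
    refine ⟨h1, h2, ?_⟩
    rcases Nat.mod_two_eq_zero_or_one u with h5 | h5
    · have h6 : u = 2 * h := by omega
      subst h6
      rw [e1] at h4
      exact Or.inl h4
    · have h6 : u = 2 * h + 1 := by omega
      subst h6
      rw [e2] at h4
      exact Or.inr h4
  · rintro ⟨h1, h2, h3 | h3⟩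
    · exact ⟨h1, h2, 2 * h, by omega, by rw [e1]; exact h3⟩
    · exact ⟨h1, h2, 2 * h + 1, by omega, by rw [e2]; exact h3⟩

theorem r9_vec (hg : w.Good (2 * (n + 1))) {S : Finset ℕ} (hS : ∀ t ∈ S, t < n + 1) {z : ℕ}
    (hz : z ∈ S) (h : ℕ) : (h < n + 1 ∧ h ∉ S ∧ w.vec (2 * h) (2 * h + 1) z ≠ 0) ↔
      (r9P n S w z h ∨ r9P n S (w.flip (2 * (n + 1))) z h) := by
  rw [r9_P_iff, r9_P_iff]
  by_cases h1 : h < n + 1
  · by_cases h2 : h ∈ S
    · simp [h2]
    · have hzn := hS z hz
      have hne : h ≠ z := by rintro rfl; exact h2 hz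
      have i1 : w.pos (2 * h) ≠ w.pos (2 * z) := fun e =>
        hne (by have := hg.inj _ _ (by omega) (by omega) e; omega)
      have i2 : w.pos (2 * h) ≠ w.pos (2 * z + 1) := fun e =>
        hne (by have := hg.inj _ _ (by omega) (by omega) e; omega)
      have i3 : w.pos (2 * h + 1) ≠ w.pos (2 * z) := fun e =>
        hne (by have := hg.inj _ _ (by omega) (by omega) e; omega)
      have i4 : w.pos (2 * h + 1) ≠ w.pos (2 * z + 1) := fun e =>
        hne (by have := hg.inj _ _ (by omega) (by omega) e; omega)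
      have j1 := hg.lt (2 * h) (by omega)
      have j2 := hg.lt (2 * h + 1) (by omega)
      have j3 := hg.lt (2 * z) (by omega)
      have j4 := hg.lt (2 * z + 1) (by omega)
      have hv : w.vec (2 * h) (2 * h + 1) z ≠ 0 ↔
          ((w.Btw (2 * z) (2 * z + 1) (2 * h) ∧
            ((w.pos (2 * z) < w.pos (2 * h + 1) ∧ w.pos (2 * z + 1) < w.pos (2 * h + 1)) ∨
             (w.pos (2 * h + 1) < w.pos (2 * z) ∧ w.pos (2 * h + 1) < w.pos (2 * z + 1)))) ∨
           (w.Btw (2 * z) (2 * z + 1) (2 * h + 1) ∧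
            ((w.pos (2 * z) < w.pos (2 * h) ∧ w.pos (2 * z + 1) < w.pos (2 * h)) ∨
             (w.pos (2 * h) < w.pos (2 * z) ∧ w.pos (2 * h) < w.pos (2 * z + 1))))) :=
        r9_comb i1 i2 i3 i4
      rw [hv]
      have fl : ∀ x y, x < 2 * (n + 1) → y < 2 * (n + 1) →
          ((w.flip (2 * (n + 1))).pos x < (w.flip (2 * (n + 1))).pos y ↔ w.pos y < w.pos x) := by
        intro x y hx hy
        have e1 := hg.lt x hx
        have e2 := hg.lt y hy
        show 2 * (n + 1) - 1 - w.pos x < 2 * (n + 1) - 1 - w.pos y ↔ w.pos y < w.pos x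
        omega
      rw [fl _ _ (by omega) (by omega), fl _ _ (by omega) (by omega), fl _ _ (by omega) (by omega),
        fl _ _ (by omega) (by omega), r9_flip_btw hg _ _ _ (by omega) (by omega) (by omega),
        r9_flip_btw hg _ _ _ (by omega) (by omega) (by omega)]
      simp only [h1, h2, not_false_eq_true, true_and]
      constructor
      · rintro (⟨b1, c1 | c1⟩ | ⟨b1, c1 | c1⟩)
        · exact Or.inl (Or.inl ⟨b1, c1⟩)
        · exact Or.inr (Or.inl ⟨b1, c1⟩)
        · exact Or.inl (Or.inr ⟨b1, c1⟩)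
        · exact Or.inr (Or.inr ⟨b1, c1⟩)
      · rintro ((⟨b1, c1⟩ | ⟨b1, c1⟩) | (⟨b1, c1⟩ | ⟨b1, c1⟩))
        · exact Or.inl ⟨b1, Or.inl c1⟩
        · exact Or.inr ⟨b1, Or.inl c1⟩
        · exact Or.inl ⟨b1, Or.inr c1⟩
        · exact Or.inr ⟨b1, Or.inr c1⟩
  · simp [h1]

theorem sweeps_run (hM : 16 * (n + 1) ≤ M) (hl : 1 ≤ lam) (hg : w.Good (2 * (n + 1)))
    (hR : Regs n s) (hq : RepQ (2 * (n + 1)) q w) (hkey : ∀ x, x < 2 * (n + 1) → q.key x = 0)
    (ha : ArrPos (2 * (n + 1)) s w) {S : Finset ℕ} (hS : ∀ t ∈ S, t < n + 1)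
    (hal : Alive (n + 1) s S) (h23 : ∀ z, s.arr 23 z = 0) :
    ∃ s' q' k, XRun M inp lam pSweeps (s, q) (s', q') k ∧ RepQ (2 * (n + 1)) q' w ∧
      (∀ x, x < 2 * (n + 1) → q'.key x = 0) ∧
      ArrPos (2 * (n + 1)) s' (w.flip (2 * (n + 1))) ∧
      (∀ z ∈ S, IsMax (fun h => h < n + 1 ∧ h ∉ S ∧ w.vec (2 * h) (2 * h + 1) z ≠ 0) (s.arr 21)
        (s'.arr 23 z)) ∧ k ≤ 1000 * (n + 1) * lam := by
  obtain ⟨s1, q1, k1, r1, hq1, hk1, hm1, c1⟩ := r9_sweep (inp := inp) hM hl hg hg
    (fun _ _ _ _ _ _ => Iff.rfl) hR.2.2 hq hkey hS ha hal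
  have f1 := run_frame r1
  have ha1 : ArrPos (2 * (n + 1)) s1 w := by
    intro x hx
    rw [show s1.arr 3 = s.arr 3 from f1.1 3 (by decide),
      show s1.arr 4 = s.arr 4 from f1.1 4 (by decide)]
    exact ha x hx
  have hR1 : s1.reg 2 = 2 * (n + 1) := (f1.2.1 2 (by decide)).trans hR.2.2
  obtain ⟨s2, k2, r2, ha2, c2⟩ := r9_flip (inp := inp) (lam := lam) hM hg hR1 ha1 q1
  have f2 := run_frame r2
  have hR2 : s2.reg 2 = 2 * (n + 1) := (f2.2.1 2 (by decide)).trans hR1
  have hal2 : Alive (n + 1) s2 S := by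
    intro t ht
    rw [show s2.arr 5 = s1.arr 5 from f2.1 5 (by decide),
      show s1.arr 5 = s.arr 5 from f1.1 5 (by decide)]
    exact hal t ht
  obtain ⟨s3, q3, k3, r3, hq3, hk3, hm3, c3⟩ := r9_sweep (inp := inp) hM hl hg
    (r9_flip_good hg) (r9_flip_btw hg) hR2 hq1 hk1 hS ha2 hal2
  have f3 := run_frame r3
  refine ⟨s3, q3, k1 + (k2 + k3), .seq _ _ _ _ _ _ _ r1 (.seq _ _ _ _ _ _ _ r2 r3), hq3, hk3, ?_, ?_,
    ?_⟩
  · intro x hx
    rw [show s3.arr 3 = s2.arr 3 from f3.1 3 (by decide),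
      show s3.arr 4 = s2.arr 4 from f3.1 4 (by decide)]
    exact ha2 x hx
  · intro z hz
    have g1 := hm1 z hz
    have g3 := hm3 z hz
    rw [show s2.arr 21 = s1.arr 21 from f2.1 21 (by decide),
      show s1.arr 21 = s.arr 21 from f1.1 21 (by decide),
      show s2.arr 23 = s1.arr 23 from f2.1 23 (by decide)] at g3
    rw [h23] at g1
    refine ⟨fun h hh => ?_, ?_⟩
    · rcases (r9_vec hg hS hz h).1 hh with h1 | h1
      · exact (g1.1 h h1).trans g3.2.1
      · exact g3.1 h h1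
    · rcases g3.2.2 with h1 | ⟨h, h1, h2⟩
      · rcases g1.2.2 with h2 | ⟨h, h2, h3⟩
        · left; rw [h1, h2]
        · right; exact ⟨h, (r9_vec hg hS hz h).2 (Or.inl h2), by rw [h3, h1]⟩
      · right; exact ⟨h, (r9_vec hg hS hz h).2 (Or.inr h1), h2⟩
  · have c4 : 200 * (n + 1) * lam + (100 * (n + 1) + 200 * (n + 1) * lam) ≤
        1000 * (n + 1) * lam := by nlinarith
    omega

end

end SBR
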