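/-
SBR/Main.lean : the sorting program is correct and fast.
-/
import Pool.Agent.SBR.R1
import Pool.Agent.SBR.R2
import Pool.Agent.SBR.R3
import Pool.Agent.SBR.R4
import Pool.Agent.SBR.R5
import Pool.Agent.SBR.R6
import Pool.Agent.SBR.R7
import Pool.Agent.SBR.R8
import Pool.Agent.SBR.R9
import Pool.Agent.SBR.R10
import Pool.Agent.SBR.R11
import Pool.Agent.SBR.R12
import Pool.Agent.SBR.R13
import Pool.Agent.SBR.E10
import Pool.Agent.SBR.Q1
import Pool.Agent.SBR.Q2
import Pool.Agent.SBR.SplaySim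
import Pool.Agent.SBR.Compile

namespace SBR

theorem EL.lt_gap {n : ℕ} {w : Lay} (hw : EL n w) {x : ℕ} (hx : x < 2 * (n + 1)) :
    w.gap x < n + 1 := by
  have := hw.good.lt x hx
  unfold Lay.gap; omega

theorem flat_append (a b : List (ℕ × ℕ)) : flat (a ++ b) = flat a ++ flat b := by
  simp [flat]

theorem length_trim_le (m : ℕ) (lab : ℕ → ℕ) : (trim (lword m lab)).length ≤ m := by
  have h1 : (lword m lab).length ≤ m := by
    unfold lword
    refine le_trans (List.Sublist.length_le (List.destutter_sublist _ _)) ?_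
    refine le_trans (List.length_filter_le _ _) ?_
    simp
  unfold trim
  split_ifs
  · simp only [List.length_dropLast]; omega
  · exact h1

theorem length_halves (H : List ℕ) : (halves H).length = H.length / 2 := by
  simp [halves]

theorem length_hurdles_le (R : List ℕ) : (hurdles R).length ≤ R.length := by
  unfold hurdles
  refine le_trans (List.length_filter_le _ _) ?_
  simp

theorem length_planN_le (R : List ℕ) (nd : ℕ → ℕ) : (planN R nd).length ≤ R.length + 1 := by
  have h1 := length_hurdles_le R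
  unfold planN plan
  split_ifs with ha hb
  · simp [length_halves]; omega
  · have : ((hurdles R).eraseIdx (sidx R)).length ≤ (hurdles R).length := List.length_eraseIdx_le _ _
    simp [length_halves]; omega
  · have : ((hurdles R).eraseIdx 0).length ≤ (hurdles R).length := List.length_eraseIdx_le _ _
    simp [length_halves]; omega

section

variable {M lam n : ℕ}

theorem regs_frame {inp : ℕ → ℕ} {p : XStm} {s s' : St} {q q' : AQ} {k : ℕ}
    (h : XRun M inp lam p (s, q) (s', q') k) (hR : Regs n s) (h0 : 0 ∉ Stm.wr p)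
    (h1 : 1 ∉ Stm.wr p) (h2 : 2 ∉ Stm.wr p) : Regs n s' := by
  have f := (run_frame h).2.1
  simp only at f
  exact ⟨by rw [f 0 h0]; exact hR.1, by rw [f 1 h1]; exact hR.2.1, by rw [f 2 h2]; exact hR.2.2⟩

theorem arr_frame {inp : ℕ → ℕ} {p : XStm} {s s' : St} {q q' : AQ} {k : ℕ}
    (h : XRun M inp lam p (s, q) (s', q') k) (a : ℕ) (ha : a ∉ Stm.wa p) :
    s'.arr a = s.arr a := (run_frame h).1 a ha

theorem out_frame {inp : ℕ → ℕ} {p : XStm} {s s' : St} {q q' : AQ} {k : ℕ}
    (h : XRun M inp lam p (s, q) (s', q') k) (hn : Stm.np p = true) :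
    s'.out = s.out := (run_frame h).2.2.2 hn

theorem reg_frame {inp : ℕ → ℕ} {p : XStm} {s s' : St} {q q' : AQ} {k : ℕ}
    (h : XRun M inp lam p (s, q) (s', q') k) (a : ℕ) (ha : a ∉ Stm.wr p) :
    s'.reg a = s.reg a := (run_frame h).2.1 a ha

theorem arrInit_congr {L : ℕ} {s s' : St} {w : Lay} (h : ArrInit L s w)
    (h0 : s'.arr 0 = s.arr 0) (h1 : s'.arr 1 = s.arr 1) : ArrInit L s' w := by
  intro x hx
  rw [h0, h1]; exact h x hx

theorem arrPos_congr {L : ℕ} {s s' : St} {w : Lay} (h : ArrPos L s w)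
    (h0 : s'.arr 3 = s.arr 3) (h1 : s'.arr 4 = s.arr 4) : ArrPos L s' w := by
  intro x hx
  rw [h0, h1]; exact h x hx

theorem getD_map_pair (l : List ℕ) (i : ℕ) (hi : i < l.length) :
    ((l.map (fun v => (2 * v, 2 * v + 1))).getD i (0, 0)) = (2 * l.getD i 0, 2 * l.getD i 0 + 1) := by
  simp [List.getD_eq_getElem?_getD, List.getElem?_map, List.getElem?_eq_getElem hi]

theorem valid_length {A : ℕ → ℕ → ZMod 2} {l : List ℕ} (hv : Valid A l)
    (hl : ∀ v ∈ l, v < n + 1) : l.length ≤ n + 1 := by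
  have hnd := hv.nodup
  have : l.toFinset ⊆ Finset.range (n + 1) := by
    intro v hv'
    simp only [List.mem_toFinset] at hv'
    simpa using hl v hv'
  have h := Finset.card_le_card this
  rw [List.toFinset_card_of_nodup hnd] at h
  simpa using h

theorem cost_arith {r l9 l21 k1 k2 k3 k4 k5 k6 k7 k9 k10 k12 k13 k14 k15 k16 k17 k18 k19 k21 : ℕ}
    (hl : 1 ≤ lam) (hr : r ≤ n + 1) (h9 : l9 ≤ n + 2) (h21 : l21 ≤ n + 1)
    (c1 : k1 ≤ 1000 * (n + 1)) (c2 : k2 ≤ 1000 * (n + 1)) (c3 : k3 ≤ 1000 * (n + 1))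
    (c4 : k4 ≤ 1000 * (n + 1)) (c5 : k5 ≤ 1000 * (n + 1)) (c6 : k6 ≤ 1000 * (r + 1))
    (c7 : k7 ≤ 1000 * (r + 1)) (c9 : k9 ≤ 1000 * (l9 + 1) * lam)
    (c10 : k10 ≤ 1000 * (n + 1) * lam) (c12 : k12 ≤ 1000 * (n + 1) * lam)
    (c13 : k13 ≤ 1000 * (n + 1) * lam) (c14 : k14 ≤ 1000 * (n + 1))
    (c15 : k15 ≤ 1000 * (n + 1) * lam) (c16 : k16 ≤ 1000 * (n + 1)) (c17 : k17 ≤ 1000 * (n + 1))
    (c18 : k18 ≤ 30000 * (n + 1) * lam) (c19 : k19 ≤ 1000 * (n + 1))
    (c21 : k21 ≤ 1000 * (l21 + 1) * lam) :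
    k1 + (k2 + (k3 + (k4 + (k5 + (k6 + (k7 + ((2 * (n + 1) + 1) * lam + (k9 + (k10 +
      ((2 * (n + 1) + 1) * lam + (k12 + (k13 + (k14 + (k15 + (k16 + (k17 + (k18 + (k19 +
      ((2 * (n + 1) + 1) * lam + k21))))))))))))))))))) ≤ 100000 * (n + 1) * lam := by
  have hN : n + 1 ≤ (n + 1) * lam := Nat.le_mul_of_pos_right _ hl
  have d9 : 1000 * (l9 + 1) * lam ≤ 1000 * (3 * ((n + 1) * lam)) := by
    rw [Nat.mul_assoc]
    refine Nat.mul_le_mul_left _ ?_
    calc (l9 + 1) * lam ≤ (3 * (n + 1)) * lam := Nat.mul_le_mul_right _ (by omega)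
      _ = 3 * ((n + 1) * lam) := by ring
  have d21 : 1000 * (l21 + 1) * lam ≤ 1000 * (2 * ((n + 1) * lam)) := by
    rw [Nat.mul_assoc]
    refine Nat.mul_le_mul_left _ ?_
    calc (l21 + 1) * lam ≤ (2 * (n + 1)) * lam := Nat.mul_le_mul_right _ (by omega)
      _ = 2 * ((n + 1) * lam) := by ring
  have d8 : (2 * (n + 1) + 1) * lam ≤ 3 * ((n + 1) * lam) := by
    calc (2 * (n + 1) + 1) * lam ≤ (3 * (n + 1)) * lam := Nat.mul_le_mul_right _ (by omega)
      _ = 3 * ((n + 1) * lam) := by ring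
  have e1 : ∀ c, c * (n + 1) * lam = c * ((n + 1) * lam) := fun c => by ring
  rw [e1] at c10 c12 c13 c15 c18 ⊢
  obtain ⟨N, hN'⟩ : ∃ N, (n + 1) * lam = N := ⟨_, rfl⟩
  obtain ⟨N2, hN2⟩ : ∃ N2, (2 * (n + 1) + 1) * lam = N2 := ⟨_, rfl⟩
  rw [hN'] at c10 c12 c13 c15 c18 d9 d21 d8 hN ⊢
  rw [hN2] at d8 ⊢
  clear hN' hN2 e1
  have g6 : k6 ≤ 1000 * (n + 2) := le_trans c6 (Nat.mul_le_mul_left _ (by omega))
  have g7 : k7 ≤ 1000 * (n + 2) := le_trans c7 (Nat.mul_le_mul_left _ (by omega))
  have h0 : 1 ≤ N := by omega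
  linarith

set_option maxHeartbeats 2000000 in
theorem prog_run {p : List ℤ} (hp : IsSP n p) (hM : 16 * (n + 1) ≤ M) (hl : 1 ≤ lam)
    (hlam : 2 * (n + 1) ≤ 2 ^ lam) :
    ∃ s' q' k rs, XRun M (inpOf (p.map codeW)) lam sortProg
        (St.zero, { seq := [], key := fun _ => 0 }) (s', q') k ∧
      s'.out = flat rs ∧ Sorts n p rs ∧ (∀ rs', Sorts n p rs' → rs.length ≤ rs'.length) ∧
      k ≤ 100000 * (n + 1) * lam := by
  set inp := inpOf (p.map codeW) with hinp
  set q0 : AQ := { seq := [], key := fun _ => 0 } with hq0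
  set w0 := layOf n p with hw0
  have hE0 : EL n w0 := layOf_EL hp
  -- 1 read
  obtain ⟨s1, k1, r1, R1, A1, c1⟩ := read_run (lam := lam) hp hM hinp St.zero q0
  have z1 : ∀ a, a ∉ Stm.wa pRead → ∀ i, s1.arr a i = 0 := by
    intro a ha i
    rw [arr_frame r1 a ha]; rfl
  -- 2 pos
  obtain ⟨s2, k2, r2, P2, L2, c2⟩ := pos_run (inp := inp) (lam := lam) hM hE0.good R1 A1 q0
  have R2 : Regs n s2 := regs_frame r2 R1 (by decide) (by decide) (by decide)
  have A2 : ArrInit (2 * (n + 1)) s2 w0 :=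
    arrInit_congr A1 (arr_frame r2 0 (by decide)) (arr_frame r2 1 (by decide))
  -- 3 components
  have al2 : Alive (n + 1) s2 (Finset.range (n + 1)) := by
    intro t ht
    simp [L2 t ht, ht]
  obtain ⟨s3, k3, r3, I3, c3⟩ := comps_run (inp := inp) (lam := lam) hM hE0.good R2 P2
    (fun t ht => Finset.mem_range.1 ht) al2 q0
  have R3 : Regs n s3 := regs_frame r3 R2 (by decide) (by decide) (by decide)
  have A3 : ArrInit (2 * (n + 1)) s3 w0 :=
    arrInit_congr A2 (arr_frame r3 0 (by decide)) (arr_frame r3 1 (by decide))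
  have P3 : ArrPos (2 * (n + 1)) s3 w0 :=
    arrPos_congr P2 (arr_frame r3 3 (by decide)) (arr_frame r3 4 (by decide))
  -- 4 orientation
  have z3 : ∀ a, a ∉ Stm.wa pRead → a ∉ Stm.wa pPos → a ∉ Stm.wa pComps → ∀ i, s3.arr a i = 0 := by
    intro a ha hb hc i
    rw [arr_frame r3 a hc, arr_frame r2 a hb]; exact z1 a ha i
  obtain ⟨s4, k4, r4, O4, O4', c4⟩ := ori_run (inp := inp) (lam := lam) hM hE0.good R3 P3 A3 I3
    (z3 10 (by decide) (by decide) (by decide)) (z3 11 (by decide) (by decide) (by decide)) q0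
  have R4 : Regs n s4 := regs_frame r4 R3 (by decide) (by decide) (by decide)
  have A4 : ArrInit (2 * (n + 1)) s4 w0 :=
    arrInit_congr A3 (arr_frame r4 0 (by decide)) (arr_frame r4 1 (by decide))
  have P4 : ArrPos (2 * (n + 1)) s4 w0 :=
    arrPos_congr P3 (arr_frame r4 3 (by decide)) (arr_frame r4 4 (by decide))
  have e46 : s4.arr 6 = s3.arr 6 := arr_frame r4 6 (by decide)
  have I4 : IsRep w0 (Finset.range (n + 1)) (s4.arr 6) := by rw [e46]; exact I3
  have G4 : GLab (n + 1) w0 (labOf s4) := by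
    refine labOf_glab hE0 P4 I4 ?_ ?_
    · intro c hc; rw [O4 c hc, e46]
    · intro c hc; rw [O4' c hc, e46]
  -- 5 word
  set R := trim (lword (n + 1) (labOf s4)) with hR
  have hRlen : R.length ≤ n + 1 := length_trim_le _ _
  obtain ⟨s5, k5, r5, w40, w12, c5⟩ := word_run (inp := inp) (lam := lam) hM hE0.good R4 P4
    (fun t ht => Finset.mem_range.1 (I4.mem t (Finset.mem_range.2 ht))) q0 hR
  have z5 : ∀ a, a ∉ Stm.wa pRead → a ∉ Stm.wa pPos → a ∉ Stm.wa pComps → a ∉ Stm.wa pOri →
      a ∉ Stm.wa pWord → ∀ i, s5.arr a i = 0 := by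
    intro a ha hb hc hd he i
    rw [arr_frame r5 a he, arr_frame r4 a hd]; exact z3 a ha hb hc i
  have R5 : Regs n s5 := regs_frame r5 R4 (by decide) (by decide) (by decide)
  have A5 : ArrInit (2 * (n + 1)) s5 w0 :=
    arrInit_congr A4 (arr_frame r5 0 (by decide)) (arr_frame r5 1 (by decide))
  -- 6 hurdles
  obtain ⟨s6, k6, r6, h41, h15, h14, c6⟩ := hur_run (M := M) (inp := inp) (lam := lam) (s := s5)
    (R := R) (by omega) w40 (fun j hj => (w12 j hj).1)
    (z5 14 (by decide) (by decide) (by decide) (by decide) (by decide)) q0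
  have R6 : Regs n s6 := regs_frame r6 R5 (by decide) (by decide) (by decide)
  have A6 : ArrInit (2 * (n + 1)) s6 w0 :=
    arrInit_congr A5 (arr_frame r6 0 (by decide)) (arr_frame r6 1 (by decide))
  have e613 : s6.arr 13 = s5.arr 13 := arr_frame r6 13 (by decide)
  have e612 : s6.arr 12 = s5.arr 12 := arr_frame r6 12 (by decide)
  -- 7 plan
  have hCW : CW R := trim_cw (lab_ncl hE0 G4)
  obtain ⟨s7, k7, r7, h42, h1617, c7⟩ := plan_run (M := M) (inp := inp) (lam := lam) (s := s6)
    (R := R) (by omega) hCW (by rw [reg_frame r6 40 (by decide)]; exact w40) h41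
    (fun j hj => by rw [e612]; exact (w12 j hj).1)
    (fun j hj => by rw [e613]; have := (w12 j hj).2.1; omega) h15 h14 q0
  have R7 : Regs n s7 := regs_frame r7 R6 (by decide) (by decide) (by decide)
  have A7 : ArrInit (2 * (n + 1)) s7 w0 :=
    arrInit_congr A6 (arr_frame r7 0 (by decide)) (arr_frame r7 1 (by decide))
  set nd := s6.arr 13 with hnd
  have hnd' : ∀ j, j < R.length → nd j < 2 * (n + 1) ∧ labOf s4 (w0.gap (nd j)) = R.getD j 0 := by
    intro j hj
    rw [e613]; exact (w12 j hj).2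
  -- 8 init
  obtain ⟨q8, o8, Q8, K8⟩ := rep_init (lam := lam) (n := 2) (z := 2) hE0.good (by omega) hlam
    R7.2.2 R7.2.2 A7 q0
  have r8 : XRun M inp lam (.prim (.init 2 2)) (s7, q0) (s7, q8) ((2 * (n + 1) + 1) * lam) :=
    .prim _ _ _ _ o8
  -- 9 cuts
  obtain ⟨hm1, hm2, hm3, hm4⟩ := hurdles_main hE0 G4 hR (nd := nd) hnd'
  set w' := (planN R nd).foldl Lay.cut w0 with hw'
  have hplan : (planN R nd).length ≤ n + 2 := le_trans (length_planN_le R nd) (by omega)
  have hlt9 : ∀ c ∈ planN R nd, c.1 < 2 * (n + 1) ∧ c.2 < 2 * (n + 1) := by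
    intro c hc
    have hpl := plan_lt hCW
    unfold planN at hc
    rcases List.mem_append.1 hc with hc | hc
    · obtain ⟨f, hf, rfl⟩ := List.mem_map.1 hc
      have := hpl.1 f hf
      exact ⟨(hnd' _ this.1).1, (hnd' _ this.2.1).1⟩
    · cases hpl2 : (plan R).2 with
      | none => rw [hpl2] at hc; simp at hc
      | some j =>
        rw [hpl2] at hc
        simp only [List.mem_singleton] at hc
        have hj := (hnd' j (hpl.2 j hpl2).1).1
        rw [hc]
        constructor <;> dsimp only <;> omega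
  obtain ⟨s9, q9, k9, r9, Q9, K9, out9, c9⟩ := cuts_run (inp := inp) hM hl hE0 Q8
    (NP := planN R nd) (by omega) h42 h1617 hlt9 hm1
  have R9 : Regs n s9 := regs_frame r9 R7 (by decide) (by decide) (by decide)
  -- 10 save
  obtain ⟨s10, k10, r10, A10, K10, c10⟩ := save_run (inp := inp) hM hl hm2.good R9 Q9
  have R10 : Regs n s10 := regs_frame r10 R9 (by decide) (by decide) (by decide)
  -- 11 init
  obtain ⟨q11, o11, Q11, K11⟩ := rep_init (lam := lam) (n := 2) (z := 2) hm2.good (by omega) hlam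
    R10.2.2 R10.2.2 A10 q9
  have r11 : XRun M inp lam (.prim (.init 2 2)) (s10, q9) (s10, q11) ((2 * (n + 1) + 1) * lam) :=
    .prim _ _ _ _ o11
  -- 12 phase 1
  have al10 : ∀ t, t < n + 1 → s10.arr 5 t = 1 := by
    intro t ht
    rw [arr_frame r10 5 (by decide), arr_frame r9 5 (by decide), arr_frame r7 5 (by decide),
      arr_frame r6 5 (by decide), arr_frame r5 5 (by decide), arr_frame r4 5 (by decide),
      arr_frame r3 5 (by decide)]
    exact L2 t ht
  obtain ⟨s12, q12, k12, w1, S, ord, m1, m2, r12, hP1, c12⟩ := ph1_run (inp := inp) hM hl hm2 R10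
    Q11 (by intro x hx; rw [K11]; exact K10 x hx) al10
  have R12 : Regs n s12 := regs_frame r12 R10 (by decide) (by decide) (by decide)
  have hSlt : ∀ t ∈ S, t < n + 1 := hP1.alg.sub
  -- 13 positions
  obtain ⟨s13, q13, k13, r13, Q13, K13, P13, c13⟩ := pos2_run (inp := inp) hM hl hP1.alg.good
    R12 hP1.rep
  have R13 : Regs n s13 := regs_frame r13 R12 (by decide) (by decide) (by decide)
  have al13 : Alive (n + 1) s13 S := by
    intro t ht
    rw [arr_frame r13 5 (by decide)]; exact hP1.alive t ht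
  -- 14 components
  obtain ⟨s14, k14, r14, I14, c14⟩ := comps_run (inp := inp) (lam := lam) hM hP1.alg.good R13 P13
    hSlt al13 q13
  have R14 : Regs n s14 := regs_frame r14 R13 (by decide) (by decide) (by decide)
  have P14 : ArrPos (2 * (n + 1)) s14 w1 :=
    arrPos_congr P13 (arr_frame r14 3 (by decide)) (arr_frame r14 4 (by decide))
  have al14 : Alive (n + 1) s14 S := by
    intro t ht
    rw [arr_frame r14 5 (by decide)]; exact al13 t ht
  -- zero arrays
  have z14 : ∀ a, a ∉ Stm.wa pRead → a ∉ Stm.wa pPos → a ∉ Stm.wa pComps → a ∉ Stm.wa pOri →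
      a ∉ Stm.wa pWord → a ∉ Stm.wa pHur → a ∉ Stm.wa pPlan → a ∉ Stm.wa pCuts →
      a ∉ Stm.wa pSave → a ∉ Stm.wa pPh1 → a ∉ Stm.wa pPos2 → ∀ i, s14.arr a i = 0 := by
    intro a ha hb hc hd he hf hg hh hi hj hk i
    rw [arr_frame r14 a hc, arr_frame r13 a hk, arr_frame r12 a hj, arr_frame r10 a hi,
      arr_frame r9 a hh, arr_frame r7 a hg, arr_frame r6 a hf]
    exact z5 a ha hb hc hd he i
  -- 15 sweeps
  obtain ⟨s15, q15, k15, r15, Q15, K15, P15, h23, c15⟩ := sweeps_run (inp := inp) hM hl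
    hP1.alg.good R14 Q13 K13 P14 hSlt al14
    (z14 23 (by decide) (by decide) (by decide) (by decide) (by decide) (by decide) (by decide)
      (by decide) (by decide) (by decide) (by decide))
  have R15 : Regs n s15 := regs_frame r15 R14 (by decide) (by decide) (by decide)
  have al15 : Alive (n + 1) s15 S := by
    intro t ht
    rw [arr_frame r15 5 (by decide)]; exact al14 t ht
  have e156 : s15.arr 6 = s14.arr 6 := arr_frame r15 6 (by decide)
  have hrep15 : ∀ t ∈ S, s15.arr 6 t < n + 1 := by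
    intro t ht
    rw [e156]; exact hSlt _ (I14.mem t ht)
  -- 16 wk
  obtain ⟨s16, k16, r16, h24, c16⟩ := wk_run (inp := inp) (lam := lam) hM R15 hSlt al15 hrep15
    (by
      intro c
      rw [arr_frame r15 24 (by decide)]
      exact z14 24 (by decide) (by decide) (by decide) (by decide) (by decide) (by decide)
        (by decide) (by decide) (by decide) (by decide) (by decide) c) q15
  have R16 : Regs n s16 := regs_frame r16 R15 (by decide) (by decide) (by decide)
  have al16 : Alive (n + 1) s16 S := by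
    intro t ht
    rw [arr_frame r16 5 (by decide)]; exact al15 t ht
  have P16 : ArrPos (2 * (n + 1)) s16 (w1.flip (2 * (n + 1))) :=
    arrPos_congr P15 (arr_frame r16 3 (by decide)) (arr_frame r16 4 (by decide))
  have e166 : s16.arr 6 = s14.arr 6 := by rw [arr_frame r16 6 (by decide), e156]
  -- glue
  have e21 : s14.arr 21 = s12.arr 21 := by
    rw [arr_frame r14 21 (by decide), arr_frame r13 21 (by decide)]
  have e22 : s16.arr 22 = s12.arr 22 := by
    rw [arr_frame r16 22 (by decide), arr_frame r15 22 (by decide), arr_frame r14 22 (by decide),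
      arr_frame r13 22 (by decide)]
  have e18 : s16.arr 18 = s12.arr 18 := by
    rw [arr_frame r16 18 (by decide), arr_frame r15 18 (by decide), arr_frame r14 18 (by decide),
      arr_frame r13 18 (by decide)]
  have e19 : s16.arr 19 = s12.arr 19 := by
    rw [arr_frame r16 19 (by decide), arr_frame r15 19 (by decide), arr_frame r14 19 (by decide),
      arr_frame r13 19 (by decide)]
  have e20 : s16.arr 20 = s12.arr 20 := by
    rw [arr_frame r16 20 (by decide), arr_frame r15 20 (by decide), arr_frame r14 20 (by decide),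
      arr_frame r13 20 (by decide)]
  have e50 : s16.reg 50 = s12.reg 50 := by
    rw [reg_frame r16 50 (by decide), reg_frame r15 50 (by decide), reg_frame r14 50 (by decide),
      reg_frame r13 50 (by decide)]
  rw [e21] at h23
  rw [e156] at h24
  obtain ⟨hg1, hg2⟩ := glue hm2 hm3 hP1 I14 h23 h24
  -- 17 te
  obtain ⟨s17, k17, r17, h26, h26', c17⟩ := te_run (inp := inp) (lam := lam) hM hP1.alg.good R16
    P16 hSlt al16 (by intro t ht; rw [e166]; exact hSlt _ (I14.mem t ht))
    (by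
      intro t ht hne
      rw [e166] at hne ⊢
      have hmem := (hg1 _ hne).1
      rw [e18, e22, (hP1.amk _ hmem).1]
      exact (hP1.alg.mks _ hmem).1)
    (by
      intro c
      rw [arr_frame r16 25 (by decide), arr_frame r15 25 (by decide)]
      exact z14 25 (by decide) (by decide) (by decide) (by decide) (by decide) (by decide)
        (by decide) (by decide) (by decide) (by decide) (by decide) c)
    (by
      intro c
      rw [arr_frame r16 26 (by decide), arr_frame r15 26 (by decide)]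
      exact z14 26 (by decide) (by decide) (by decide) (by decide) (by decide) (by decide)
        (by decide) (by decide) (by decide) (by decide) (by decide) c) q15
  have R17 : Regs n s17 := regs_frame r17 R16 (by decide) (by decide) (by decide)
  have e1722 : s17.arr 22 = s12.arr 22 := by rw [arr_frame r17 22 (by decide), e22]
  have e1724 : s17.arr 24 = s16.arr 24 := arr_frame r17 24 (by decide)
  -- 18 phase 2
  have hPO : PO n (w'.amat (n + 1)) s17 q15 w1 S ord m1 m2
      (fun c => S.filter (fun t => s14.arr 6 t = c)) 0 := by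
    refine ⟨R17, Q15, K15, hP1.alg, ?_, ?_, ?_, ?_, ?_, ?_, ?_⟩
    · intro h hh
      rw [arr_frame r17 18 (by decide), arr_frame r17 19 (by decide), e18, e19]
      exact hP1.amk h hh
    · rw [arr_frame r17 20 (by decide), reg_frame r17 50 (by decide), e20, e50]
      exact hP1.ll
    · intro c' _ hne
      obtain ⟨⟨l, hl1, hl2, hl3⟩, -⟩ := h26' c' hne
      refine ⟨l, hl1, hl2, fun t => ?_⟩
      rw [hl3 t, e166, Finset.mem_filter]
    · intro c' c'' hne
      rw [Finset.disjoint_left]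
      intro t ht ht'
      simp only [Finset.mem_filter] at ht ht'
      exact hne (ht.2.symm.trans ht'.2)
    · intro c' t ht
      simp only [Finset.mem_filter] at ht
      simpa using hSlt t ht.1
    · intro c' _ _ hne
      obtain ⟨-, tE, htE, htc, h25, hcw⟩ := h26' c' hne
      have hwk : s16.arr 24 c' ≠ 0 := ((h26 c').1 hne).1
      rw [e1722, e1724, h25]
      refine ⟨?_, by omega⟩
      rw [e166] at htc
      have := (hg1 c' hwk).2 tE htE htc (by
        intro v hv hvc
        rw [← e18, ← e22]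
        exact hcw v hv (by rw [e166]; exact hvc))
      simpa using this
    · intro t ht hno u hu
      refine hg2 t ht ?_ u hu
      by_contra hne
      have : s17.arr 26 (s14.arr 6 t) ≠ 0 := (h26 _).2 ⟨hne, t, ht, by rw [e166]⟩
      exact hno _ (Nat.zero_le _) (hSlt _ (I14.mem t ht)) this (by simp [ht])
  obtain ⟨s18, q18, k18, ord', r18, V18, lt18, Z18, L18, c18⟩ := ph2_run (inp := inp) hM hl hPO
  have R18 : Regs n s18 := regs_frame r18 R17 (by decide) (by decide) (by decide)
  have hordlen : ord'.length ≤ n + 1 := valid_length V18 lt18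
  -- 19 collect
  obtain ⟨s19, k19, r19, h42', h1617', c19⟩ := coll_run (inp := inp) (lam := lam) hM L18 lt18
    hordlen q18
  have R19 : Regs n s19 := regs_frame r19 R18 (by decide) (by decide) (by decide)
  have A19 : ArrInit (2 * (n + 1)) s19 w' := by
    refine arrInit_congr A10 ?_ ?_
    · rw [arr_frame r19 0 (by decide), arr_frame r18 0 (by decide), arr_frame r17 0 (by decide),
        arr_frame r16 0 (by decide), arr_frame r15 0 (by decide), arr_frame r14 0 (by decide),
        arr_frame r13 0 (by decide), arr_frame r12 0 (by decide)]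
    · rw [arr_frame r19 1 (by decide), arr_frame r18 1 (by decide), arr_frame r17 1 (by decide),
        arr_frame r16 1 (by decide), arr_frame r15 1 (by decide), arr_frame r14 1 (by decide),
        arr_frame r13 1 (by decide), arr_frame r12 1 (by decide)]
  -- 20 init
  obtain ⟨q20, o20, Q20, K20⟩ := rep_init (lam := lam) (n := 2) (z := 2) hm2.good (by omega) hlam
    R19.2.2 R19.2.2 A19 q18
  have r20 : XRun M inp lam (.prim (.init 2 2)) (s19, q18) (s19, q20) ((2 * (n + 1) + 1) * lam) :=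
    .prim _ _ _ _ o20
  -- 21 cuts
  obtain ⟨hr1, hr2, hr3⟩ := replay hm2 lt18 V18
  obtain ⟨s21, q21, k21, r21, Q21, K21, out21, c21⟩ := cuts_run (inp := inp) hM hl hm2 Q20
    (NP := ord'.map (fun v => (2 * v, 2 * v + 1))) (by simp only [List.length_map]; omega)
    (by simp only [List.length_map]; exact h42')
    (by
      intro i hi
      simp only [List.length_map] at hi
      rw [getD_map_pair _ _ hi]
      exact h1617' i hi)
    (by
      intro c hc
      obtain ⟨v, hv, rfl⟩ := List.mem_map.1 hc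
      have := lt18 v hv
      constructor <;> dsimp only <;> omega)
    (by
      intro pre c post hpc
      obtain ⟨l1, l2, h1, h2, h3⟩ := List.map_eq_append_iff.1 hpc
      obtain ⟨v, l3, h4, h5, h6⟩ := List.map_eq_cons_iff.1 h3
      have := hr1 l1 v l3 (by rw [h1, h4])
      rw [← h2, ← h5]
      exact this)
  -- conclusion
  obtain ⟨hs, hopt⟩ := opt_main hp G4 hR (nd := nd) hnd' hw' lt18 V18 Z18
  refine ⟨s21, q21, _, _, .seq _ _ _ _ _ _ _ r1 (.seq _ _ _ _ _ _ _ r2 (.seq _ _ _ _ _ _ _ r3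
    (.seq _ _ _ _ _ _ _ r4 (.seq _ _ _ _ _ _ _ r5 (.seq _ _ _ _ _ _ _ r6
    (.seq _ _ _ _ _ _ _ r7 (.seq _ _ _ _ _ _ _ r8 (.seq _ _ _ _ _ _ _ r9
    (.seq _ _ _ _ _ _ _ r10 (.seq _ _ _ _ _ _ _ r11 (.seq _ _ _ _ _ _ _ r12
    (.seq _ _ _ _ _ _ _ r13 (.seq _ _ _ _ _ _ _ r14 (.seq _ _ _ _ _ _ _ r15
    (.seq _ _ _ _ _ _ _ r16 (.seq _ _ _ _ _ _ _ r17 (.seq _ _ _ _ _ _ _ r18
    (.seq _ _ _ _ _ _ _ r19 (.seq _ _ _ _ _ _ _ r20 r21))))))))))))))))))), ?_, hs, hopt, ?_⟩
  · rw [out21, out_frame r19 (by decide), out_frame r18 (by decide), out_frame r17 (by decide),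
      out_frame r16 (by decide), out_frame r15 (by decide), out_frame r14 (by decide),
      out_frame r13 (by decide), out_frame r12 (by decide), out_frame r10 (by decide), out9,
      out_frame r7 (by decide), out_frame r6 (by decide), out_frame r5 (by decide),
      out_frame r4 (by decide), out_frame r3 (by decide), out_frame r2 (by decide),
      out_frame r1 (by decide), flat_append]
    rfl
  · exact cost_arith hl hRlen hplan (by simp only [List.length_map]; omega) c1 c2 c3 c4 c5 c6 c7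
      c9 c10 c12 c13 c14 c15 c16 c17 c18 c19 c21

end

theorem codeW_lt {n : ℕ} {p : List ℤ} (hp : IsSP n p) : ∀ v ∈ p.map codeW, v < 2 * (n + 1) := by
  intro v hv
  obtain ⟨a, ha, rfl⟩ := List.mem_map.1 hv
  have h1 : a.natAbs ∈ p.map Int.natAbs := List.mem_map.2 ⟨a, ha, rfl⟩
  have h2 := (List.Perm.mem_iff hp).1 h1
  rw [List.mem_range'_1] at h2
  unfold codeW
  split_ifs <;> omega

theorem isSP_length {n : ℕ} {p : List ℤ} (hp : IsSP n p) : p.length = n := by
  have := hp.length_eq
  simpa using this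

theorem main_thm : ∃ (P : List Instr) (C : ℕ), ∀ (n : ℕ) (p : List ℤ), IsSP n p →
    ∀ w : ℕ, C * (n + 2) ≤ 2 ^ w →
    ∃ (T : ℕ) (rs : List (ℕ × ℕ)), T ≤ C * (n + 1) * (Nat.log 2 (n + 1) + 1) ∧
      Halted P ((step w P)^[T] (initCfg (p.map codeW))) ∧
      ((step w P)^[T] (initCfg (p.map codeW))).out = flat rs ∧ Sorts n p rs ∧
      ∀ rs', Sorts n p rs' → rs.length ≤ rs'.length := by
  obtain ⟨p', V, K, C1, hwf, hsim⟩ := splay_sim sortProg sortProg_wf
  obtain ⟨P, c0, hcomp⟩ := compile_correct V K p' hwf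
  refine ⟨P, 16 * c0 + c0 * (C1 * 200002 + 1), ?_⟩
  intro n p hp w hw
  obtain ⟨s', q', k, rs, hrun, hout, hs, hopt, hk⟩ := prog_run (M := 16 * (n + 2))
    (lam := Nat.log 2 (n + 1) + 2) (n := n) hp (by omega) (by omega) (by
      have := Nat.lt_pow_succ_log_self (b := 2) (by norm_num) (n + 1)
      have e : 2 ^ (Nat.log 2 (n + 1) + 2) = 2 * 2 ^ (Nat.log 2 (n + 1) + 1) := by ring
      rw [e]
      have h2 : n + 1 < 2 ^ (Nat.log 2 (n + 1) + 1) := this
      omega)
  obtain ⟨s'', k', hrun', hout', hk'⟩ := hsim _ _ _ _ _ _ (by omega) (by omega) hrun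
  have hlen : (p.map codeW).length + 1 < 16 * (n + 2) := by
    rw [List.length_map, isSP_length hp]; omega
  obtain ⟨T, hT, hhalt, houtT⟩ := hcomp (16 * (n + 2)) w (p.map codeW) hlen
    (by
      refine le_trans ?_ hw
      calc c0 * (16 * (n + 2)) = (16 * c0) * (n + 2) := by ring
        _ ≤ _ := Nat.mul_le_mul_right _ (Nat.le_add_right _ _))
    (by
      intro v hv
      have := codeW_lt hp v hv
      omega) _ _ hrun'
  refine ⟨T, rs, ?_, hhalt, by rw [houtT, hout', hout], hs, hopt⟩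
  -- cost
  set l := Nat.log 2 (n + 1) with hldef
  have h1 : k ≤ 200000 * ((n + 1) * (l + 1)) := by
    refine le_trans hk ?_
    calc 100000 * (n + 1) * (l + 2) = 100000 * ((n + 1) * (l + 2)) := by ring
      _ ≤ 100000 * ((n + 1) * (2 * (l + 1))) :=
          Nat.mul_le_mul_left _ (Nat.mul_le_mul_left _ (by omega))
      _ = 200000 * ((n + 1) * (l + 1)) := by ring
  have h0 : 1 ≤ (n + 1) * (l + 1) := Nat.mul_pos (by omega) (by omega)
  have h2 : k' + 1 ≤ (C1 * 200001 + 1) * ((n + 1) * (l + 1)) := by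
    have : C1 * (k + 1) ≤ C1 * (200001 * ((n + 1) * (l + 1))) :=
      Nat.mul_le_mul_left _ (by linarith)
    calc k' + 1 ≤ C1 * (k + 1) + 1 := Nat.add_le_add_right hk' 1
      _ ≤ C1 * (200001 * ((n + 1) * (l + 1))) + 1 * ((n + 1) * (l + 1)) := by linarith
      _ = (C1 * 200001 + 1) * ((n + 1) * (l + 1)) := by ring
  calc T ≤ c0 * (k' + 1) := hT
    _ ≤ c0 * ((C1 * 200001 + 1) * ((n + 1) * (l + 1))) := Nat.mul_le_mul_left _ h2
    _ = (c0 * (C1 * 200001 + 1)) * ((n + 1) * (l + 1)) := by ring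
    _ ≤ (16 * c0 + c0 * (C1 * 200002 + 1)) * ((n + 1) * (l + 1)) := by
        refine Nat.mul_le_mul_right _ ?_
        refine le_trans (Nat.mul_le_mul_left c0 ?_) (Nat.le_add_left _ _)
        exact Nat.add_le_add_right (Nat.mul_le_mul_left _ (by norm_num)) 1
    _ = _ := by ring

end SBR
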