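/-
SBR/SplayC.lean : amortised inequalities for the splay steps (pure reals).
`rk n = logb 2 n` is the rank of a subtree of size `n`; `a b c d` are the sizes of the
outer subtrees.
-/
import Mathlib

namespace SBR

/-- rank of a subtree of size `n` -/
noncomputable def rk (n : ℕ) : ℝ := Real.logb 2 (n : ℝ)

@[simp] theorem rk_zero : rk 0 = 0 := by simp [rk]

@[simp] theorem rk_one : rk 1 = 0 := by simp [rk]

theorem rk_mono {m n : ℕ} (h : m ≤ n) : rk m ≤ rk n := by
  rcases Nat.eq_zero_or_pos m with rfl | hm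
  · rw [rk_zero]
    unfold rk
    rcases Nat.eq_zero_or_pos n with rfl | hn
    · simp
    · exact Real.logb_nonneg (by norm_num) (by exact_mod_cast hn)
  · unfold rk
    exact Real.logb_le_logb_of_le (by norm_num) (by exact_mod_cast hm) (by exact_mod_cast h)

theorem rk_nonneg (n : ℕ) : 0 ≤ rk n := by
  have := rk_mono (Nat.zero_le n)
  rwa [rk_zero] at this

theorem rk_two_pow (l : ℕ) : rk (2 ^ l) = l := by
  unfold rk
  push_cast
  rw [Real.logb_pow]
  simp

/-- sizes at most `2 ^ lam` have rank at most `lam` -/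
theorem rk_le_lam {n lam : ℕ} (h : n ≤ 2 ^ lam) : rk n ≤ lam := by
  rw [← rk_two_pow lam]
  exact rk_mono h

/-- concavity of the logarithm -/
theorem rk_concave {a b c : ℕ} (ha : 0 < a) (hb : 0 < b) (h : a + b ≤ c) :
    rk a + rk b + 2 ≤ 2 * rk c := by
  have ha' : (0 : ℝ) < a := by exact_mod_cast ha
  have hb' : (0 : ℝ) < b := by exact_mod_cast hb
  have hc' : (a : ℝ) + b ≤ c := by exact_mod_cast h
  have hc0 : (0 : ℝ) < c := by linarith
  have h4 : (2 : ℝ) = Real.logb 2 ((2 : ℝ) ^ 2) := by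
    rw [Real.logb_pow]; simp
  have e1 : rk a + rk b + 2 = Real.logb 2 ((a : ℝ) * b * 2 ^ 2) := by
    unfold rk
    rw [Real.logb_mul (by positivity) (by positivity), Real.logb_mul ha'.ne' hb'.ne', ← h4]
  have e2 : 2 * rk c = Real.logb 2 ((c : ℝ) ^ 2) := by
    unfold rk
    rw [Real.logb_pow]; push_cast; ring
  rw [e1, e2]
  apply Real.logb_le_logb_of_le (by norm_num) (by positivity)
  nlinarith [sq_nonneg ((a : ℝ) - b), mul_self_le_mul_self (by positivity : (0 : ℝ) ≤ (a : ℝ) + b) hc']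

/-- a subtree of size `a` inside a tree of size `c` with another disjoint subtree of size `b`:
the form used for zig-zig and zig-zag -/
theorem rk_concave' {a b c : ℕ} (ha : 0 < a) (hb : 0 < b) (h : a + b ≤ c) :
    rk b ≤ 2 * rk c - 2 - rk a := by
  linarith [rk_concave ha hb h]

/-! ### zig: `x = (A, B)` is a child of `p = (x, C)`; after the rotation `p' = (B, C)`,
`x' = (A, p')` -/

/-- `DeltaPhi <= r' x - r x` in a zig step; `x` has size `sx`, the whole tree has size `s`,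
the new `p` has size `sp' <= s` -/
theorem zig_step {sx sp' s : ℕ} (hp : sp' ≤ s) :
    (rk s + rk sp') - (rk sx + rk s) ≤ rk s - rk sx := by
  linarith [rk_mono hp]

/-- zig step, cost form: `1 + DeltaPhi <= 3 (r' x - r x) + 1` -/
theorem zig_step3 {sx sp' s : ℕ} (hx : sx ≤ s) (hp : sp' ≤ s) :
    1 + ((rk s + rk sp') - (rk sx + rk s)) ≤ 3 * (rk s - rk sx) + 1 := by
  linarith [rk_mono hp, rk_mono hx]

/-! ### zig-zig: before `x ⊂ p ⊂ g`, after `g' ⊂ p' ⊂ x'`; `x` and `g'` are disjoint -/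

/-- `DeltaPhi <= 3 (r' x - r x) - 2` in a zig-zig step. `sx, sp, s` are the old sizes of
`x, p, g` and `sg', sp', s` the new sizes of `g, p, x`. -/
theorem zigzig_step {sx sp s sp' sg' : ℕ} (h0 : 0 < sx) (h0' : 0 < sg') (h1 : sx ≤ sp)
    (h2 : sp' ≤ s) (h3 : sx + sg' ≤ s) :
    (rk s + rk sp' + rk sg') - (rk sx + rk sp + rk s) ≤ 3 * (rk s - rk sx) - 2 := by
  linarith [rk_mono h1, rk_mono h2, rk_concave h0 h0' h3]

/-- cost form: `1 + DeltaPhi <= 3 (r' x - r x)` (with one unit to spare) -/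
theorem zigzig_step' {sx sp s sp' sg' : ℕ} (h0 : 0 < sx) (h0' : 0 < sg') (h1 : sx ≤ sp)
    (h2 : sp' ≤ s) (h3 : sx + sg' ≤ s) :
    1 + ((rk s + rk sp' + rk sg') - (rk sx + rk sp + rk s)) ≤ 3 * (rk s - rk sx) := by
  linarith [zigzig_step h0 h0' h1 h2 h3]

/-- zig-zig with the sizes of the four outer subtrees: `x = (a, b)`, `p = (x, c)`, `g = (p, d)`,
afterwards `g' = (c, d)`, `p' = (b, g')`, `x' = (a, p')`. -/
theorem zigzig_sizes (a b c d : ℕ) :
    (rk (a + b + c + d + 3) + rk (b + c + d + 2) + rk (c + d + 1)) -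
      (rk (a + b + 1) + rk (a + b + c + 2) + rk (a + b + c + d + 3)) ≤
    3 * (rk (a + b + c + d + 3) - rk (a + b + 1)) - 2 :=
  zigzig_step (by omega) (by omega) (by omega) (by omega) (by omega)

/-! ### zig-zag: before `x ⊂ p ⊂ g`, after `p' , g' ⊂ x'` disjoint -/

/-- `DeltaPhi <= 2 (r' x - r x) - 2` in a zig-zag step -/
theorem zigzag_step2 {sx sp s sp' sg' : ℕ} (h0 : 0 < sp') (h0' : 0 < sg') (h1 : sx ≤ sp)
    (h3 : sp' + sg' ≤ s) :
    (rk s + rk sp' + rk sg') - (rk sx + rk sp + rk s) ≤ 2 * (rk s - rk sx) - 2 := by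
  linarith [rk_mono h1, rk_concave h0 h0' h3]

/-- `DeltaPhi <= 3 (r' x - r x) - 2` in a zig-zag step -/
theorem zigzag_step {sx sp s sp' sg' : ℕ} (h0 : 0 < sp') (h0' : 0 < sg') (h1 : sx ≤ sp)
    (h2 : sx ≤ s) (h3 : sp' + sg' ≤ s) :
    (rk s + rk sp' + rk sg') - (rk sx + rk sp + rk s) ≤ 3 * (rk s - rk sx) - 2 := by
  linarith [zigzag_step2 h0 h0' h1 h3, rk_mono h2]

/-- cost form: `1 + DeltaPhi <= 3 (r' x - r x)` -/
theorem zigzag_step' {sx sp s sp' sg' : ℕ} (h0 : 0 < sp') (h0' : 0 < sg') (h1 : sx ≤ sp)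
    (h2 : sx ≤ s) (h3 : sp' + sg' ≤ s) :
    1 + ((rk s + rk sp' + rk sg') - (rk sx + rk sp + rk s)) ≤ 3 * (rk s - rk sx) := by
  linarith [zigzag_step h0 h0' h1 h2 h3]

/-- zig-zag with the sizes of the four outer subtrees: `x = (b, c)`, `p = (a, x)`, `g = (p, d)`,
afterwards `p' = (a, b)`, `g' = (c, d)`, `x' = (p', g')`. -/
theorem zigzag_sizes (a b c d : ℕ) :
    (rk (a + b + c + d + 3) + rk (a + b + 1) + rk (c + d + 1)) -
      (rk (b + c + 1) + rk (a + b + c + 2) + rk (a + b + c + d + 3)) ≤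
    3 * (rk (a + b + c + d + 3) - rk (b + c + 1)) - 2 :=
  zigzag_step (by omega) (by omega) (by omega) (by omega) (by omega)

/-- zig with the sizes of the three outer subtrees: `x = (a, b)`, `p = (x, c)`, afterwards
`p' = (b, c)`, `x' = (a, p')`. -/
theorem zig_sizes (a b c : ℕ) :
    (rk (a + b + c + 2) + rk (b + c + 1)) - (rk (a + b + 1) + rk (a + b + c + 2)) ≤
    3 * (rk (a + b + c + 2) - rk (a + b + 1)) := by
  have h1 : rk (b + c + 1) ≤ rk (a + b + c + 2) := rk_mono (by omega)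
  have h2 : rk (a + b + 1) ≤ rk (a + b + c + 2) := rk_mono (by omega)
  linarith

/-! ### the whole splay: summation -/

/-- One step of the summation over the loop: if the double steps so far cost
`m + DeltaPhi <= 3 (r1 - r0)` and the next one costs `1 + DeltaPhi' <= 3 (r2 - r1)`. -/
theorem splay_add {m : ℕ} {P0 P1 P2 r0 r1 r2 : ℝ} (h : m + (P1 - P0) ≤ 3 * (r1 - r0))
    (h' : 1 + (P2 - P1) ≤ 3 * (r2 - r1)) : (m + 1 : ℕ) + (P2 - P0) ≤ 3 * (r2 - r0) := by
  push_cast
  linarith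

/-- the final estimate: `steps + DeltaPhi <= 3 rk N + 1 <= 4 lam` for `N <= 2 ^ lam`, `1 <= lam` -/
theorem splay_total {m N sx lam : ℕ} {P0 P1 : ℝ} (hl : 1 ≤ lam) (hN : N ≤ 2 ^ lam)
    (h : m + (P1 - P0) ≤ 3 * (rk N - rk sx) + 1) : m + (P1 - P0) ≤ 4 * (lam : ℝ) := by
  have h1 := rk_le_lam hN
  have h2 := rk_nonneg sx
  have h3 : (1 : ℝ) ≤ lam := by exact_mod_cast hl
  linarith

/-- attaching a tree below a node changes the rank of that node by at most `lam` -/
theorem rk_attach {m N lam : ℕ} (hN : N ≤ 2 ^ lam) : rk N - rk m ≤ lam := by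
  have h1 := rk_le_lam hN
  have h2 := rk_nonneg m
  linarith

/-- potential of a path of `N` nodes: `sum_{i < N} rk (i + 1) <= N * rk N` -/
theorem rk_path_le (N : ℕ) : ∑ i ∈ Finset.range N, rk (i + 1) ≤ N * rk N := by
  calc ∑ i ∈ Finset.range N, rk (i + 1) ≤ ∑ _i ∈ Finset.range N, rk N :=
        Finset.sum_le_sum fun i hi => rk_mono (by rw [Finset.mem_range] at hi; omega)
    _ = N * rk N := by simp

/-- potential of a path of `N <= 2 ^ lam` nodes: at most `N * lam` -/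
theorem rk_path_le_lam {N lam : ℕ} (hN : N ≤ 2 ^ lam) :
    ∑ i ∈ Finset.range N, rk (i + 1) ≤ N * (lam : ℝ) :=
  (rk_path_le N).trans (mul_le_mul_of_nonneg_left (rk_le_lam hN) (by positivity))

end SBR
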