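/-
SBR/SplayDefs.lean : splay trees in the structured language: memory layout, programs, physical
trees, contexts, and the predicates relating them to memory.
-/
import Pool.Agent.SBR.Adt

namespace SBR

/-! ### Memory layout and programs -/

abbrev LC : ℕ := 60
abbrev RC : ℕ := 61
abbrev PA : ℕ := 62
abbrev FL : ℕ := 63
abbrev SG : ℕ := 64
abbrev SZ : ℕ := 65
abbrev KY : ℕ := 66
abbrev MX : ℕ := 67
abbrev MP : ℕ := 68
abbrev MN : ℕ := 69

/-- register with the number which plays the role of the null pointer -/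
abbrev NUL : ℕ := 100
/-- register with the root -/
abbrev ROOT : ℕ := 101

abbrev Prog := Stm Empty

/-- `R t := max (R t) e` -/
def maxM (t : ℕ) (e : Ex) : Prog := .ite (.lt (.r t) e) (.set t e) .skip

/-- `R t := cmb (R t) e` -/
def cmbM (t : ℕ) (e : Ex) : Prog :=
  .ite (.eq e (.c 0)) .skip
    (.ite (.eq (.r t) (.c 0)) (.set t e) (.ite (.lt e (.r t)) (.set t e) .skip))

/-- recompute the aggregates of node `R i` from its children (uses register 110) -/
def pullM (i : ℕ) : Prog := blk [
  .sto SZ (.r i) (.add (.add (.ld SZ (.ld LC (.r i))) (.ld SZ (.ld RC (.r i)))) (.c 1)),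
  .set 110 (.ld MX (.ld LC (.r i))),
  maxM 110 (.ld MX (.ld RC (.r i))),
  maxM 110 (.ld KY (.r i)),
  .sto MX (.r i) (.r 110),
  .set 110 (.ld MP (.ld LC (.r i))),
  .ite (.eq (.ld SG (.r i)) (.c 0)) .skip (cmbM 110 (.ld KY (.r i))),
  cmbM 110 (.ld MP (.ld RC (.r i))),
  .sto MP (.r i) (.r 110),
  .set 110 (.ld MN (.ld LC (.r i))),
  .ite (.eq (.ld SG (.r i)) (.c 0)) (cmbM 110 (.ld KY (.r i))) .skip,
  cmbM 110 (.ld MN (.ld RC (.r i))),
  .sto MN (.r i) (.r 110)]

/-- flip the subtree at node `R i` (uses register 111) -/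
def flipM (i : ℕ) : Prog := .ite (.eq (.r i) (.r NUL)) .skip (blk [
  .sto FL (.r i) (.sub (.c 1) (.ld FL (.r i))),
  .sto SG (.r i) (.sub (.c 1) (.ld SG (.r i))),
  .set 111 (.ld LC (.r i)),
  .sto LC (.r i) (.ld RC (.r i)),
  .sto RC (.r i) (.r 111),
  .set 111 (.ld MP (.r i)),
  .sto MP (.r i) (.ld MN (.r i)),
  .sto MN (.r i) (.r 111)])

/-- push down a pending flip of the children of node `R i` (uses registers 111, 112) -/
def pushM (i : ℕ) : Prog := .ite (.eq (.ld FL (.r i)) (.c 0)) .skip (blk [
  .set 112 (.ld LC (.r i)),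
  flipM 112,
  .set 112 (.ld RC (.r i)),
  flipM 112,
  .sto FL (.r i) (.c 0)])

/-- rotate node `R 107` up (uses registers 106, 108, 109, 110) -/
def rotM : Prog := blk [
  .set 108 (.ld PA (.r 107)),
  .set 109 (.ld PA (.r 108)),
  .ite (.eq (.ld LC (.r 108)) (.r 107))
    (blk [.set 106 (.ld RC (.r 107)), .sto LC (.r 108) (.r 106), .sto RC (.r 107) (.r 108)])
    (blk [.set 106 (.ld LC (.r 107)), .sto RC (.r 108) (.r 106), .sto LC (.r 107) (.r 108)]),
  .ite (.eq (.r 106) (.r NUL)) .skip (.sto PA (.r 106) (.r 108)),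
  .sto PA (.r 108) (.r 107),
  .sto PA (.r 107) (.r 109),
  .ite (.eq (.r 109) (.r NUL)) .skip
    (.ite (.eq (.ld LC (.r 109)) (.r 108)) (.sto LC (.r 109) (.r 107))
      (.sto RC (.r 109) (.r 107))),
  pullM 108,
  pullM 107]

/-- one splay step for node `R 102` below node `R 103` (uses registers 104 - 112) -/
def stepM : Prog := blk [
  .set 104 (.ld PA (.r 102)),
  .set 105 (.ld PA (.r 104)),
  .ite (.eq (.r 105) (.r 103))
    (blk [pushM 104, pushM 102, .set 107 (.r 102), rotM])
    (blk [pushM 105, pushM 104, pushM 102,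
      .ite (.eq (.ld LC (.r 105)) (.r 104))
        (.ite (.eq (.ld LC (.r 104)) (.r 102)) (.set 107 (.r 104)) (.set 107 (.r 102)))
        (.ite (.eq (.ld LC (.r 104)) (.r 102)) (.set 107 (.r 102)) (.set 107 (.r 104))),
      rotM, .set 107 (.r 102), rotM])]

/-- `R 113 := 0` if the parent of `R 102` is `R 103`, otherwise `1` -/
def chkM : Prog := .ite (.eq (.ld PA (.r 102)) (.r 103)) (.set 113 (.c 0)) (.set 113 (.c 1))

/-- splay node `R 102` until its parent is `R 103`; if the latter is the null pointer, then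
`R 102` becomes the root (uses registers 104 - 113) -/
def splayM : Prog := blk [
  chkM,
  .whl (.lt (.c 0) (.r 113)) (.seq stepM chkM),
  pushM 102,
  .ite (.eq (.r 103) (.r NUL)) (.set ROOT (.r 102)) .skip]

/-- `R 113 := 0` if the size of the left subtree of `R 102` is `R 114`, otherwise `1` -/
def chk2M : Prog :=
  .ite (.eq (.ld SZ (.ld LC (.r 102))) (.r 114)) (.set 113 (.c 0)) (.set 113 (.c 1))

/-- one step of the descent in `kthM` -/
def descM : Prog := blk [
  .ite (.lt (.r 114) (.ld SZ (.ld LC (.r 102))))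
    (.set 102 (.ld LC (.r 102)))
    (blk [.set 114 (.sub (.sub (.r 114) (.ld SZ (.ld LC (.r 102)))) (.c 1)),
      .set 102 (.ld RC (.r 102))]),
  pushM 102,
  chk2M]

/-- splay the node at position `R 114` to the root and put it into `R 102`
(uses registers 102 - 114) -/
def kthM : Prog := blk [
  .set 102 (.r ROOT),
  pushM 102,
  chk2M,
  .whl (.lt (.c 0) (.r 113)) descM,
  .set 103 (.r NUL),
  splayM]

/-- splay `R a` to the root -/
def accM (a : ℕ) : Prog := blk [.set 102 (.r a), .set 103 (.r NUL), splayM]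

/-- splay `R a` to the root, `R b` below it, `R 112 :=` root of the part in between,
`R 103 := R a`, `R 102 := R b` -/
def acc2M (a b : ℕ) : Prog := blk [
  accM a,
  .set 103 (.r 102),
  .set 102 (.r b),
  splayM,
  .ite (.eq (.ld RC (.r 103)) (.r 102)) (.set 112 (.ld LC (.r 102)))
    (.set 112 (.ld RC (.r 102)))]

/-- body of the loop in `init` -/
def initStepM : Prog := blk [
  .set 114 (.sub (.r 114) (.c 1)),
  .set 104 (.ld aO (.r 114)),
  .sto LC (.r 104) (.r NUL),
  .sto RC (.r 104) (.r 102),
  .ite (.eq (.r 114) (.c 0)) (.set 105 (.r NUL)) (.set 105 (.ld aO (.sub (.r 114) (.c 1)))),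
  .sto PA (.r 104) (.r 105),
  .sto FL (.r 104) (.c 0),
  .ite (.eq (.ld aS (.r 114)) (.c 0)) (.sto SG (.r 104) (.c 0)) (.sto SG (.r 104) (.c 1)),
  .sto KY (.r 104) (.ld aK (.r 104)),
  pullM 104,
  .set 102 (.r 104)]

/-- translation of the sequence operations -/
def trOp : Op → Prog
  | .init n z => blk [
      .set NUL (.r z),
      .sto SZ (.r NUL) (.c 0), .sto MX (.r NUL) (.c 0), .sto MP (.r NUL) (.c 0),
      .sto MN (.r NUL) (.c 0),
      .set 102 (.r NUL),
      .set 114 (.r n),
      .whl (.lt (.c 0) (.r 114)) initStepM,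
      .set ROOT (.r 102)]
  | .minneg d => .set d (.ld MN (.r ROOT))
  | .side x d e => blk [accM x,
      .set d (.ld MX (.ld LC (.r 102))), .set e (.ld MP (.ld RC (.r 102)))]
  | .btw a b d => blk [acc2M a b, .set d (.ld MX (.r 112))]
  | .rev a b => blk [acc2M a b, flipM 112, pullM 102, pullM 103]
  | .setk x k => blk [accM x, .sto KY (.r 102) (.r k), pullM 102]
  | .rank x d e => blk [accM x,
      .set d (.ld SZ (.ld LC (.r 102))), .set e (.ld SG (.r 102))]
  | .kth k d => blk [.set 114 (.r k), kthM, .set d (.r 102)]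
  | .rot x => blk [
      .set 114 (.sub (.ld SZ (.r ROOT)) (.c 1)),
      kthM,
      .ite (.eq (.r 102) (.r x))
        (blk [.sto RC (.r 102) (.ld LC (.r 102)), .sto LC (.r 102) (.r NUL), pullM 102])
        (blk [.set 103 (.r 102), .set 102 (.r x), splayM,
          .set 112 (.ld LC (.r 102)), .sto LC (.r 102) (.r NUL), pullM 102,
          .sto RC (.r 103) (.r 112),
          .ite (.eq (.r 112) (.r NUL)) .skip (.sto PA (.r 112) (.r 103)),
          pullM 103])]

/-- translation of programs with sequence operations -/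
def trP : XStm → Prog
  | .skip => .skip
  | .set i e => .set i e
  | .sto k a e => .sto k a e
  | .prt e => .prt e
  | .seq p q => .seq (trP p) (trP q)
  | .ite c p q => .ite c (trP p) (trP q)
  | .whl c p => .whl c (trP p)
  | .prim o => trOp o

/-! ### Physical trees -/

/-- Physical trees: left subtree, node, pending flip of the children, sign, right subtree. -/
inductive PT
  | nil
  | node (l : PT) (x : ℕ) (f s : Bool) (r : PT)

/-- conditional flip of a list -/
def cf (f : Bool) (l : List (ℕ × Bool)) : List (ℕ × Bool) := if f then rv l else l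

/-- the represented sequence -/
def PT.toL : PT → List (ℕ × Bool)
  | .nil => []
  | .node l x f s r => cf f l.toL ++ (x, s) :: cf f r.toL

/-- the nodes -/
def PT.nodes : PT → List ℕ
  | .nil => []
  | .node l x _ _ r => x :: (l.nodes ++ r.nodes)

/-- number of nodes -/
def PT.size : PT → ℕ
  | .nil => 0
  | .node l _ _ _ r => l.size + r.size + 1

/-- root (null pointer `nul` for the empty tree) -/
def PT.rt (nul : ℕ) : PT → ℕ
  | .nil => nul
  | .node _ x _ _ _ => x

/-- flip -/
def PT.flip : PT → PT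
  | .nil => .nil
  | .node l x f s r => .node r x (!f) (!s) l

/-- conditional flip -/
def PT.cflip (f : Bool) (t : PT) : PT := if f then t.flip else t

/-- potential -/
noncomputable def PT.Phi : PT → ℝ
  | .nil => 0
  | .node l _ _ _ r => l.Phi + r.Phi + Real.logb 2 ((l.size + r.size + 1 : ℕ) : ℝ)

/-- One step of a context: `d = true` means that the hole is the left child of `y`; `o` is the
other subtree. -/
structure Fr where
  d : Bool
  y : ℕ
  f : Bool
  s : Bool
  o : PT

/-- fill the hole -/
def Fr.plug (fr : Fr) (t : PT) : PT :=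
  if fr.d then .node t fr.y fr.f fr.s fr.o else .node fr.o fr.y fr.f fr.s t

/-- fill the hole of a context (a list of steps, the innermost first) -/
def plug (t : PT) : List Fr → PT
  | [] => t
  | fr :: c => plug (fr.plug t) c

/-- the parent of the hole, `q` is the parent of the whole tree -/
def par (q : ℕ) : List Fr → ℕ
  | [] => q
  | fr :: _ => fr.y

/-- the nodes of a context -/
def nodesC : List Fr → List ℕ
  | [] => []
  | fr :: c => fr.y :: (fr.o.nodes ++ nodesC c)

/-- the sequence of `fr.plug t` in terms of the sequence of `t` -/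
def Fr.stepL (fr : Fr) (L : List (ℕ × Bool)) : List (ℕ × Bool) :=
  if fr.d then cf fr.f L ++ (fr.y, fr.s) :: cf fr.f fr.o.toL
  else cf fr.f fr.o.toL ++ (fr.y, fr.s) :: cf fr.f L

/-! ### Trees in memory -/

/-- the memory record of a node -/
@[ext] structure Nd where
  lc : ℕ
  rc : ℕ
  pa : ℕ
  fl : ℕ
  sg : ℕ
  sz : ℕ
  ky : ℕ
  mx : ℕ
  mp : ℕ
  mn : ℕ

/-- the memory records in a state -/
def nd (s : St) (y : ℕ) : Nd :=
  ⟨s.arr LC y, s.arr RC y, s.arr PA y, s.arr FL y, s.arr SG y, s.arr SZ y, s.arr KY y,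
    s.arr MX y, s.arr MP y, s.arr MN y⟩

/-- the correct record of node `x` with sequence `L` -/
def mkNd (key : ℕ → ℕ) (lc rc pa : ℕ) (f s : Bool) (x : ℕ) (L : List (ℕ × Bool)) : Nd :=
  ⟨lc, rc, pa, b2n f, b2n s, L.length, key x, mxk key L, mnk key true L, mnk key false L⟩

/-- the tree is stored in memory, the parent of its root is `p` -/
def Stored (nul : ℕ) (key : ℕ → ℕ) (m : ℕ → Nd) : PT → ℕ → Prop
  | .nil, _ => True
  | .node l x f s r, p => x < nul ∧
      m x = mkNd key (l.rt nul) (r.rt nul) p f s x (PT.node l x f s r).toL ∧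
      Stored nul key m l x ∧ Stored nul key m r x

/-- the context is stored in memory; the hole contains a tree with root `r` and sequence `L` -/
def StoredC (nul : ℕ) (key : ℕ → ℕ) (m : ℕ → Nd) : List Fr → ℕ → List (ℕ × Bool) → ℕ → Prop
  | [], _, _, _ => True
  | fr :: c, r, L, q => fr.y < nul ∧
      m fr.y = mkNd key (if fr.d then r else fr.o.rt nul) (if fr.d then fr.o.rt nul else r)
        (par q c) fr.f fr.s fr.y (fr.stepL L) ∧
      Stored nul key m fr.o fr.y ∧ StoredC nul key m c fr.y (fr.stepL L) q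

/-- the records at the null pointer -/
def NulOk (nul : ℕ) (m : ℕ → Nd) : Prop :=
  (m nul).sz = 0 ∧ (m nul).mx = 0 ∧ (m nul).mp = 0 ∧ (m nul).mn = 0

/-- effect of `pullM` -/
def pullN (x : ℕ) (m : ℕ → Nd) : ℕ → Nd :=
  Function.update m x
    { m x with
      sz := (m (m x).lc).sz + (m (m x).rc).sz + 1
      mx := max (max (m (m x).lc).mx (m (m x).rc).mx) (m x).ky
      mp := cmb (cmb (m (m x).lc).mp (if (m x).sg = 0 then 0 else (m x).ky)) (m (m x).rc).mp
      mn := cmb (cmb (m (m x).lc).mn (if (m x).sg = 0 then (m x).ky else 0)) (m (m x).rc).mn }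

/-- effect of `flipM` -/
def flipN (nul x : ℕ) (m : ℕ → Nd) : ℕ → Nd :=
  if x = nul then m else
  Function.update m x
    { m x with
      lc := (m x).rc
      rc := (m x).lc
      fl := 1 - (m x).fl
      sg := 1 - (m x).sg
      mp := (m x).mn
      mn := (m x).mp }

/-- registers outside `l`, arrays `< 60` and the output have not changed -/
def SameX (l : List ℕ) (s s' : St) : Prop :=
  (∀ i, i ∉ l → s'.reg i = s.reg i) ∧ (∀ k < 60, s'.arr k = s.arr k) ∧ s'.out = s.out

/-- `p` takes `s` to `s'` with cost at most `n` -/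
def Does (M : ℕ) (inp : ℕ → ℕ) (p : Prog) (s s' : St) (n : ℕ) : Prop :=
  ∃ k ≤ n, Run M inp noPrim p (s, ()) (s', ()) k

/-- The tree `T` is stored in the state `s` (the root register is not mentioned). -/
structure TInv (M nul : ℕ) (key : ℕ → ℕ) (s : St) (T : PT) : Prop where
  stored : Stored nul key (nd s) T nul
  nodup : T.nodes.Nodup
  nulok : NulOk nul (nd s)
  hnul : s.reg NUL = nul
  lt : nul < M

/-- The concrete state `st` with the tree `T` represents the abstract state `(s, q)`. -/
structure Rel (M lam : ℕ) (s : St) (q : AQ) (st : St) (T : PT) : Prop where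
  reg : ∀ i < 100, st.reg i = s.reg i
  arr : ∀ k < 60, st.arr k = s.arr k
  out : st.out = s.out
  toL : T.toL = q.seq
  inv : TInv M (st.reg NUL) q.key st T
  root : st.reg ROOT = T.rt (st.reg NUL)
  len : T.size ≤ 2 ^ lam
  bdd : Bdd M st

end SBR
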