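/-
SBR/SplayBasic.lean : basic lemmas on loop-free programs, sequences, physical trees and memory.
-/
import Pool.Agent.SBR.SplayDefs
import Pool.Agent.SBR.SplayC

namespace SBR

/-! ### loop-free programs -/

instance Co.decHolds (inp : ℕ → ℕ) (s : St) (c : Co) : Decidable (c.Holds inp s) := by
  cases c <;> (unfold Co.Holds; infer_instance)

/-- effect of a loop-free program -/
def Stm.ev (inp : ℕ → ℕ) : Prog → St → St
  | .skip, s => s
  | .set i e, s => s.setReg i (e.eval inp s)
  | .sto k a e, s => s.setArr k (a.eval inp s) (e.eval inp s)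
  | .prt e, s => s.print (e.eval inp s)
  | .seq p q, s => Stm.ev inp q (Stm.ev inp p s)
  | .ite c p q, s => if c.Holds inp s then Stm.ev inp p s else Stm.ev inp q s
  | .whl _ _, s => s
  | .prim _, s => s

/-- a loop-free program can be executed -/
def Stm.okk (M : ℕ) (inp : ℕ → ℕ) : Prog → St → Prop
  | .skip, _ => True
  | .set _ e, s => e.Ok M inp s
  | .sto _ a e, s => a.Ok M inp s ∧ e.Ok M inp s
  | .prt e, s => e.Ok M inp s
  | .seq p q, s => Stm.okk M inp p s ∧ Stm.okk M inp q (Stm.ev inp p s)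
  | .ite c p q, s => c.Ok M inp s ∧ (c.Holds inp s → Stm.okk M inp p s) ∧
      (¬ c.Holds inp s → Stm.okk M inp q s)
  | .whl _ _, _ => False
  | .prim _, _ => False

/-- maximal cost of a loop-free program -/
def Stm.mc : Prog → ℕ
  | .skip => 1
  | .set _ e => e.sz + 1
  | .sto _ a e => a.sz + e.sz + 1
  | .prt e => e.sz + 1
  | .seq p q => p.mc + q.mc
  | .ite c p q => c.sz + 1 + max p.mc q.mc
  | .whl _ _ => 0
  | .prim _ => 0

theorem Does.mono {M : ℕ} {inp : ℕ → ℕ} {p : Prog} {s s' : St} {n n' : ℕ}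
    (h : Does M inp p s s' n) (hn : n ≤ n') : Does M inp p s s' n' := by
  obtain ⟨k, hk, h⟩ := h
  exact ⟨k, hk.trans hn, h⟩

theorem Does.seq {M : ℕ} {inp : ℕ → ℕ} {p q : Prog} {s s' s'' : St} {n n' : ℕ}
    (h : Does M inp p s s' n) (h' : Does M inp q s' s'' n') :
    Does M inp (.seq p q) s s'' (n + n') := by
  obtain ⟨k, hk, h⟩ := h
  obtain ⟨k', hk', h'⟩ := h'
  exact ⟨k + k', by omega, .seq _ _ _ _ _ _ _ h h'⟩

theorem Does.ite {M : ℕ} {inp : ℕ → ℕ} {c : Co} {p q : Prog} {s s' : St} {n : ℕ}
    (hc : c.Ok M inp s) (h1 : c.Holds inp s → Does M inp p s s' n)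
    (h2 : ¬ c.Holds inp s → Does M inp q s s' n) :
    Does M inp (.ite c p q) s s' (c.sz + 1 + n) := by
  by_cases h : c.Holds inp s
  · obtain ⟨k, hk, h'⟩ := h1 h
    exact ⟨c.sz + 1 + k, by omega, .ite_t c p q _ _ k hc h h'⟩
  · obtain ⟨k, hk, h'⟩ := h2 h
    exact ⟨c.sz + 1 + k, by omega, .ite_f c p q _ _ k hc h h'⟩

theorem does_ev (M : ℕ) (inp : ℕ → ℕ) (p : Prog) (s : St) (h : p.okk M inp s) :
    Does M inp p s (p.ev inp s) p.mc := by
  induction p generalizing s with
  | skip => exact ⟨1, le_rfl, .skip _⟩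
  | set i e => exact ⟨_, le_rfl, .set s () i e h⟩
  | sto k a e => exact ⟨_, le_rfl, .sto s () k a e h.1 h.2⟩
  | prt e => exact ⟨_, le_rfl, .prt s () e h⟩
  | seq p q ihp ihq => exact (ihp s h.1).seq (ihq _ h.2)
  | ite c p q ihp ihq =>
    refine Does.ite h.1 (fun hc => ?_) (fun hc => ?_)
    · have : (Stm.ite c p q).ev inp s = p.ev inp s := by
        simp only [Stm.ev, if_pos hc]
      rw [this]
      exact (ihp s (h.2.1 hc)).mono (le_max_left _ _)
    · have : (Stm.ite c p q).ev inp s = q.ev inp s := by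
        simp only [Stm.ev, if_neg hc]
      rw [this]
      exact (ihq s (h.2.2 hc)).mono (le_max_right _ _)
  | whl c p _ => exact absurd h (by simp [Stm.okk])
  | prim o => exact o.elim

theorem Does.bdd {M : ℕ} {inp : ℕ → ℕ} {p : Prog} {s s' : St} {n : ℕ}
    (h : Does M inp p s s' n) (hs : Bdd M s) : Bdd M s' := by
  obtain ⟨k, hk, h⟩ := h
  exact Run.bdd M inp noPrim (fun o => o.elim) h hs

theorem SameX.refl (l : List ℕ) (s : St) : SameX l s s :=
  ⟨fun _ _ => rfl, fun _ _ => rfl, rfl⟩

theorem SameX.trans {l : List ℕ} {s s' s'' : St} (h : SameX l s s') (h' : SameX l s' s'') :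
    SameX l s s'' :=
  ⟨fun i hi => (h'.1 i hi).trans (h.1 i hi), fun k hk => (h'.2.1 k hk).trans (h.2.1 k hk),
    h'.2.2.trans h.2.2⟩

theorem SameX.mono {l l' : List ℕ} {s s' : St} (h : SameX l s s') (hl : l ⊆ l') :
    SameX l' s s' :=
  ⟨fun i hi => h.1 i (fun h' => hi (hl h')), h.2⟩

/-! ### lists -/

@[simp] theorem rv_nil : rv [] = [] := rfl
theorem rv_append (a b : List (ℕ × Bool)) : rv (a ++ b) = rv b ++ rv a := by
  simp [rv]
@[simp] theorem rv_rv (a : List (ℕ × Bool)) : rv (rv a) = a := by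
  unfold rv
  rw [List.map_reverse, List.reverse_reverse, List.map_map]
  conv_rhs => rw [← List.map_id a]
  refine List.map_congr_left fun x _ => ?_
  simp
theorem rv_cons (x : ℕ × Bool) (a : List (ℕ × Bool)) : rv (x :: a) = rv a ++ [(x.1, !x.2)] := by
  simp [rv]
@[simp] theorem length_rv (a : List (ℕ × Bool)) : (rv a).length = a.length := by
  simp [rv]
theorem map_fst_rv (a : List (ℕ × Bool)) : (rv a).map Prod.fst = (a.map Prod.fst).reverse := by
  unfold rv
  rw [List.map_reverse, List.map_map]
  rfl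
theorem rv_cf (f : Bool) (a : List (ℕ × Bool)) : rv (cf f a) = cf (!f) a := by
  cases f <;> simp [cf]
@[simp] theorem cf_false (a : List (ℕ × Bool)) : cf false a = a := rfl
@[simp] theorem cf_true (a : List (ℕ × Bool)) : cf true a = rv a := rfl
@[simp] theorem length_cf (f : Bool) (a : List (ℕ × Bool)) : (cf f a).length = a.length := by
  cases f <;> simp [cf]

theorem cmb_comm (a b : ℕ) : cmb a b = cmb b a := by
  unfold cmb
  split_ifs <;> omega
@[simp] theorem cmb_zero_left (a : ℕ) : cmb 0 a = a := by simp [cmb]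
@[simp] theorem cmb_zero_right (a : ℕ) : cmb a 0 = a := by
  unfold cmb; split_ifs <;> omega
theorem cmb_assoc (a b c : ℕ) : cmb (cmb a b) c = cmb a (cmb b c) := by
  rcases Nat.eq_zero_or_pos a with rfl | ha
  · simp
  rcases Nat.eq_zero_or_pos b with rfl | hb
  · simp
  rcases Nat.eq_zero_or_pos c with rfl | hc
  · simp
  have h : ∀ x y : ℕ, 0 < x → 0 < y → cmb x y = min x y := fun x y hx hy => by
    simp [cmb, hx.ne', hy.ne']
  rw [h a b ha hb, h b c hb hc, h _ c (lt_min ha hb) hc, h a _ ha (lt_min hb hc), min_assoc]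
@[simp] theorem mxk_nil (key : ℕ → ℕ) : mxk key [] = 0 := rfl
@[simp] theorem mnk_nil (key : ℕ → ℕ) (b : Bool) : mnk key b [] = 0 := rfl
theorem mxk_cons (key : ℕ → ℕ) (x : ℕ × Bool) (a : List (ℕ × Bool)) :
    mxk key (x :: a) = max (key x.1) (mxk key a) := rfl
theorem mnk_cons (key : ℕ → ℕ) (b : Bool) (x : ℕ × Bool) (a : List (ℕ × Bool)) :
    mnk key b (x :: a) = cmb (if x.2 = b then key x.1 else 0) (mnk key b a) := rfl
theorem mxk_append (key : ℕ → ℕ) (a b : List (ℕ × Bool)) :
    mxk key (a ++ b) = max (mxk key a) (mxk key b) := by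
  induction a with
  | nil => simp
  | cons x a ih => rw [List.cons_append, mxk_cons, mxk_cons, ih, max_assoc]
theorem mnk_append (key : ℕ → ℕ) (t : Bool) (a b : List (ℕ × Bool)) :
    mnk key t (a ++ b) = cmb (mnk key t a) (mnk key t b) := by
  induction a with
  | nil => simp
  | cons x a ih => rw [List.cons_append, mnk_cons, mnk_cons, ih, cmb_assoc]
@[simp] theorem mxk_rv (key : ℕ → ℕ) (a : List (ℕ × Bool)) : mxk key (rv a) = mxk key a := by
  induction a with
  | nil => simp
  | cons x a ih =>
    rw [rv_cons, mxk_append, ih, mxk_cons, mxk_cons, mxk_nil]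
    simp [max_comm]
@[simp] theorem mnk_rv (key : ℕ → ℕ) (t : Bool) (a : List (ℕ × Bool)) :
    mnk key t (rv a) = mnk key (!t) a := by
  induction a with
  | nil => simp
  | cons x a ih =>
    rw [rv_cons, mnk_append, ih, mnk_cons, mnk_cons, mnk_nil, cmb_zero_right, cmb_comm]
    congr 1
    rcases x with ⟨x, b⟩
    cases b <;> cases t <;> simp

/-! ### trees -/

@[simp] theorem PT.toL_flip (t : PT) : t.flip.toL = rv t.toL := by
  cases t with
  | nil => rfl
  | node l x f s r =>
    simp only [PT.flip, PT.toL]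
    rw [rv_append, rv_cons, rv_cf, rv_cf]
    simp
@[simp] theorem PT.toL_cflip (f : Bool) (t : PT) : (t.cflip f).toL = cf f t.toL := by
  cases f <;> simp [PT.cflip]
@[simp] theorem PT.rt_flip (nul : ℕ) (t : PT) : t.flip.rt nul = t.rt nul := by
  cases t <;> rfl
@[simp] theorem PT.rt_cflip (nul : ℕ) (f : Bool) (t : PT) : (t.cflip f).rt nul = t.rt nul := by
  cases f <;> simp [PT.cflip]
@[simp] theorem PT.size_flip (t : PT) : t.flip.size = t.size := by
  cases t with
  | nil => rfl
  | node l x f s r => simp only [PT.flip, PT.size]; omega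
@[simp] theorem PT.size_cflip (f : Bool) (t : PT) : (t.cflip f).size = t.size := by
  cases f <;> simp [PT.cflip]
@[simp] theorem PT.Phi_flip (t : PT) : t.flip.Phi = t.Phi := by
  cases t with
  | nil => rfl
  | node l x f s r =>
    simp only [PT.flip, PT.Phi]
    rw [add_comm l.size r.size, add_comm l.Phi r.Phi]
@[simp] theorem PT.Phi_cflip (f : Bool) (t : PT) : (t.cflip f).Phi = t.Phi := by
  cases f <;> simp [PT.cflip]
theorem PT.length_toL (t : PT) : t.toL.length = t.size := by
  induction t with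
  | nil => rfl
  | node l x f s r ihl ihr =>
    simp only [PT.toL, PT.size, List.length_append, List.length_cons, length_cf, ihl, ihr]
    omega
theorem PT.length_nodes (t : PT) : t.nodes.length = t.size := by
  induction t with
  | nil => rfl
  | node l x f s r ihl ihr =>
    simp only [PT.nodes, PT.size, List.length_append, List.length_cons, ihl, ihr]

theorem map_fst_cf_perm (f : Bool) (a : List (ℕ × Bool)) :
    ((cf f a).map Prod.fst).Perm (a.map Prod.fst) := by
  cases f
  · simp
  · rw [cf_true, map_fst_rv]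
    exact List.reverse_perm _

theorem PT.nodes_perm (t : PT) : t.nodes.Perm (t.toL.map Prod.fst) := by
  induction t with
  | nil => exact List.Perm.refl _
  | node l x f s r ihl ihr =>
    simp only [PT.nodes, PT.toL, List.map_append, List.map_cons]
    refine List.Perm.symm (List.perm_middle.trans ?_)
    refine List.Perm.cons _ ?_
    exact List.Perm.append ((map_fst_cf_perm f _).trans ihl.symm)
      ((map_fst_cf_perm f _).trans ihr.symm)
theorem PT.nodes_flip (t : PT) : t.flip.nodes.Perm t.nodes := by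
  cases t with
  | nil => exact List.Perm.refl _
  | node l x f s r =>
    simp only [PT.flip, PT.nodes]
    exact List.Perm.cons _ List.perm_append_comm
theorem PT.nodes_cflip (f : Bool) (t : PT) : (t.cflip f).nodes.Perm t.nodes := by
  cases f
  · exact List.Perm.refl _
  · exact PT.nodes_flip t
theorem PT.Phi_nonneg (t : PT) : 0 ≤ t.Phi := by
  induction t with
  | nil => exact le_rfl
  | node l x f s r ihl ihr =>
    simp only [PT.Phi]
    have : 0 ≤ rk (l.size + r.size + 1) := rk_nonneg _
    unfold rk at this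
    linarith
theorem PT.rt_mem (nul : ℕ) (t : PT) (h : t ≠ .nil) : t.rt nul ∈ t.nodes := by
  cases t with
  | nil => exact absurd rfl h
  | node l x f s r => simp [PT.rt, PT.nodes]

theorem plug_append (t : PT) (c c' : List Fr) : plug t (c ++ c') = plug (plug t c) c' := by
  induction c generalizing t with
  | nil => rfl
  | cons fr c ih => exact ih _
theorem toL_plug1 (t : PT) (fr : Fr) : (fr.plug t).toL = fr.stepL t.toL := by
  unfold Fr.plug Fr.stepL
  split_ifs <;> rfl
theorem toL_plug_congr {t t' : PT} (h : t.toL = t'.toL) (c : List Fr) :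
    (plug t c).toL = (plug t' c).toL := by
  induction c generalizing t t' with
  | nil => exact h
  | cons fr c ih => exact ih (by rw [toL_plug1, toL_plug1, h])

theorem plug1_ne_nil (t : PT) (fr : Fr) : fr.plug t ≠ .nil := by
  unfold Fr.plug
  split_ifs <;> exact fun h => PT.noConfusion h

theorem plug_ne_nil {t : PT} (h : t ≠ .nil) (c : List Fr) : plug t c ≠ .nil := by
  induction c generalizing t with
  | nil => exact h
  | cons fr c ih => exact ih (plug1_ne_nil t fr)

theorem nodes_plug1 (t : PT) (fr : Fr) :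
    (fr.plug t).nodes.Perm (t.nodes ++ (fr.y :: fr.o.nodes)) := by
  unfold Fr.plug
  split_ifs
  · simp only [PT.nodes]
    exact List.perm_middle.symm
  · simp only [PT.nodes]
    exact (List.Perm.cons _ List.perm_append_comm).trans List.perm_middle.symm

theorem nodes_plug (t : PT) (c : List Fr) : (plug t c).nodes.Perm (t.nodes ++ nodesC c) := by
  induction c generalizing t with
  | nil => simp [plug, nodesC]
  | cons fr c ih =>
    simp only [plug, nodesC]
    refine (ih _).trans ?_
    refine (List.Perm.append_right _ (nodes_plug1 t fr)).trans ?_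
    simp
theorem nodesC_append (c c' : List Fr) : nodesC (c ++ c') = nodesC c ++ nodesC c' := by
  induction c with
  | nil => rfl
  | cons fr c ih => simp [nodesC, ih]
theorem size_plug (t : PT) (c : List Fr) : (plug t c).size = t.size + (nodesC c).length := by
  rw [← PT.length_nodes, (nodes_plug t c).length_eq, List.length_append, PT.length_nodes]

theorem size_plug1 (t : PT) (fr : Fr) : (fr.plug t).size = t.size + fr.o.size + 1 := by
  unfold Fr.plug
  split_ifs <;> simp only [PT.size] <;> omega

theorem Phi_plug1 (t : PT) (fr : Fr) :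
    (fr.plug t).Phi = t.Phi + fr.o.Phi + rk (t.size + fr.o.size + 1) := by
  unfold Fr.plug rk
  split_ifs
  · rfl
  · simp only [PT.Phi]
    rw [add_comm fr.o.size t.size, add_comm fr.o.Phi t.Phi]

/-- the potential changes by the same amount in every context (for equal sizes) -/
theorem Phi_plug_sub {t t' : PT} (h : t.size = t'.size) (c : List Fr) :
    (plug t c).Phi - (plug t' c).Phi = t.Phi - t'.Phi := by
  induction c generalizing t t' with
  | nil => rfl
  | cons fr c ih =>
    simp only [plug]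
    rw [ih (by rw [size_plug1, size_plug1, h]), Phi_plug1, Phi_plug1, h]
    ring

/-- every node can be brought into focus -/
theorem exists_focus (nul : ℕ) (T : PT) (x : ℕ) (h : x ∈ T.nodes) :
    ∃ t c, t ≠ .nil ∧ t.rt nul = x ∧ plug t c = T := by
  induction T with
  | nil => simp [PT.nodes] at h
  | node l y f s r ihl ihr =>
    simp only [PT.nodes, List.mem_cons, List.mem_append] at h
    rcases h with rfl | h | h
    · exact ⟨.node l x f s r, [], fun h => PT.noConfusion h, rfl, rfl⟩
    · obtain ⟨t, c, h1, h2, h3⟩ := ihl h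
      refine ⟨t, c ++ [⟨true, y, f, s, r⟩], h1, h2, ?_⟩
      rw [plug_append, h3]
      rfl
    · obtain ⟨t, c, h1, h2, h3⟩ := ihr h
      refine ⟨t, c ++ [⟨false, y, f, s, l⟩], h1, h2, ?_⟩
      rw [plug_append, h3]
      rfl

/-! ### memory -/

theorem Stored.congr {nul : ℕ} {key : ℕ → ℕ} {m m' : ℕ → Nd} {t : PT} {p : ℕ}
    (h : Stored nul key m t p) (hm : ∀ y ∈ t.nodes, m' y = m y) : Stored nul key m' t p := by
  induction t generalizing p with
  | nil => trivial
  | node l x f s r ihl ihr =>
    obtain ⟨h1, h2, h3, h4⟩ := h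
    simp only [PT.nodes, List.mem_cons, List.mem_append] at hm
    exact ⟨h1, by rw [hm x (Or.inl rfl), h2], ihl h3 fun y hy => hm y (Or.inr (Or.inl hy)),
      ihr h4 fun y hy => hm y (Or.inr (Or.inr hy))⟩

theorem mxk_congr {key key' : ℕ → ℕ} {L : List (ℕ × Bool)}
    (h : ∀ y ∈ L.map Prod.fst, key' y = key y) : mxk key' L = mxk key L := by
  induction L with
  | nil => rfl
  | cons x L ih =>
    simp only [List.map_cons, List.mem_cons] at h
    rw [mxk_cons, mxk_cons, h x.1 (Or.inl rfl), ih fun y hy => h y (Or.inr hy)]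

theorem mnk_congr {key key' : ℕ → ℕ} {b : Bool} {L : List (ℕ × Bool)}
    (h : ∀ y ∈ L.map Prod.fst, key' y = key y) : mnk key' b L = mnk key b L := by
  induction L with
  | nil => rfl
  | cons x L ih =>
    simp only [List.map_cons, List.mem_cons] at h
    rw [mnk_cons, mnk_cons, h x.1 (Or.inl rfl), ih fun y hy => h y (Or.inr hy)]

theorem Stored.key_congr {nul : ℕ} {key key' : ℕ → ℕ} {m : ℕ → Nd} {t : PT} {p : ℕ}
    (h : Stored nul key m t p) (hk : ∀ y ∈ t.nodes, key' y = key y) :
    Stored nul key' m t p := by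
  induction t generalizing p with
  | nil => trivial
  | node l x f s r ihl ihr =>
    obtain ⟨h1, h2, h3, h4⟩ := h
    have hk' : ∀ y ∈ (PT.node l x f s r).toL.map Prod.fst, key' y = key y := fun y hy =>
      hk y ((PT.nodes_perm _).mem_iff.mpr hy)
    refine ⟨h1, ?_, ihl h3 fun y hy => hk y ?_, ihr h4 fun y hy => hk y ?_⟩
    · rw [h2]
      unfold mkNd
      rw [mxk_congr hk', mnk_congr hk', mnk_congr hk', hk x (by simp [PT.nodes])]
    · simp [PT.nodes, hy]
    · simp [PT.nodes, hy]

theorem StoredC.congr {nul : ℕ} {key : ℕ → ℕ} {m m' : ℕ → Nd} {c : List Fr} {r q : ℕ}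
    {L : List (ℕ × Bool)} (h : StoredC nul key m c r L q) (hm : ∀ y ∈ nodesC c, m' y = m y) :
    StoredC nul key m' c r L q := by
  induction c generalizing r L with
  | nil => trivial
  | cons fr c ih =>
    obtain ⟨h1, h2, h3, h4⟩ := h
    simp only [nodesC, List.mem_cons, List.mem_append] at hm
    exact ⟨h1, by rw [hm _ (Or.inl rfl), h2], h3.congr fun y hy => hm y (Or.inr (Or.inl hy)),
      ih h4 fun y hy => hm y (Or.inr (Or.inr hy))⟩

theorem stored_plug1 {nul : ℕ} {key : ℕ → ℕ} {m : ℕ → Nd} {t : PT} {fr : Fr} {p : ℕ} :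
    Stored nul key m (fr.plug t) p ↔
      (fr.y < nul ∧
      m fr.y = mkNd key (if fr.d then t.rt nul else fr.o.rt nul)
        (if fr.d then fr.o.rt nul else t.rt nul)
        p fr.f fr.s fr.y (fr.stepL t.toL) ∧
      Stored nul key m fr.o fr.y) ∧ Stored nul key m t fr.y := by
  rcases fr with ⟨d, y, f, s, o⟩
  cases d
  · simp only [Fr.plug, Fr.stepL, Stored, PT.toL, Bool.false_eq_true, if_false]
    tauto
  · simp only [Fr.plug, Fr.stepL, Stored, PT.toL, if_true]
    tauto

theorem PT.rt_plug1 (nul : ℕ) (t : PT) (fr : Fr) : (fr.plug t).rt nul = fr.y := by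
  unfold Fr.plug
  split_ifs <;> rfl

theorem stored_plug {nul : ℕ} {key : ℕ → ℕ} {m : ℕ → Nd} {t : PT} {c : List Fr} {q : ℕ} :
    Stored nul key m (plug t c) q ↔
      StoredC nul key m c (t.rt nul) t.toL q ∧ Stored nul key m t (par q c) := by
  induction c generalizing t with
  | nil => simp [plug, StoredC, par]
  | cons fr c ih =>
    simp only [plug, StoredC, par]
    rw [ih, PT.rt_plug1, toL_plug1, stored_plug1]
    tauto

theorem Stored.lt {nul : ℕ} {key : ℕ → ℕ} {m : ℕ → Nd} {t : PT} {p : ℕ}
    (h : Stored nul key m t p) : ∀ y ∈ t.nodes, y < nul := by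
  induction t generalizing p with
  | nil => simp [PT.nodes]
  | node l x f s r ihl ihr =>
    obtain ⟨h1, h2, h3, h4⟩ := h
    intro y hy
    simp only [PT.nodes, List.mem_cons, List.mem_append] at hy
    rcases hy with rfl | hy | hy
    · exact h1
    · exact ihl h3 y hy
    · exact ihr h4 y hy

/-- aggregates at the root (also if the tree is empty) -/
theorem Stored.root {nul : ℕ} {key : ℕ → ℕ} {m : ℕ → Nd} {t : PT} {p : ℕ}
    (h : Stored nul key m t p) (h0 : NulOk nul m) :
    (m (t.rt nul)).sz = t.size ∧ (m (t.rt nul)).mx = mxk key t.toL ∧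
    (m (t.rt nul)).mp = mnk key true t.toL ∧ (m (t.rt nul)).mn = mnk key false t.toL := by
  cases t with
  | nil => exact h0
  | node l x f s r =>
    obtain ⟨h1, h2, h3, h4⟩ := h
    simp only [PT.rt]
    rw [h2, ← PT.length_toL]
    exact ⟨rfl, rfl, rfl, rfl⟩

/-- the size of a stored tree is at most `nul` -/
theorem TInv.size_le {M nul : ℕ} {key : ℕ → ℕ} {s : St} {T : PT} (h : TInv M nul key s T) :
    T.size ≤ nul := by
  rw [← PT.length_nodes]
  have h1 : T.nodes ⊆ List.range nul := fun y hy => List.mem_range.mpr (h.stored.lt y hy)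
  have h2 := (List.Nodup.subperm h.nodup h1).length_le
  simpa using h2

/-- the size of a stored tree is smaller than the word bound -/
theorem TInv.size_lt {M nul : ℕ} {key : ℕ → ℕ} {s : St} {T : PT} (h : TInv M nul key s T) :
    T.size < M :=
  lt_of_le_of_lt h.size_le h.lt

/-- `TInv` only depends on the records and the register `NUL` -/
theorem TInv.of_nd {M nul : ℕ} {key : ℕ → ℕ} {s s' : St} {T : PT} (h : TInv M nul key s T)
    (h1 : nd s' = nd s) (h2 : s'.reg NUL = s.reg NUL) : TInv M nul key s' T :=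
  ⟨by rw [h1]; exact h.stored, h.nodup, by rw [h1]; exact h.nulok, by rw [h2]; exact h.hnul, h.lt⟩

/-- local change of the focus: records change only at the nodes of the focus, the root, the
sequence and the nodes of the focus are the same -/
theorem TInv.focus {M nul : ℕ} {key : ℕ → ℕ} {s s' : St} {t t' : PT} {c : List Fr}
    (h : TInv M nul key s (plug t c)) (h1 : ∀ y, y ∉ t.nodes → nd s' y = nd s y)
    (h2 : s'.reg NUL = s.reg NUL) (h3 : Stored nul key (nd s') t' (par nul c))
    (h4 : t'.toL = t.toL) (h5 : t'.rt nul = t.rt nul) (h6 : t'.nodes.Perm t.nodes) :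
    TInv M nul key s' (plug t' c) := by
  obtain ⟨hC, hS⟩ := stored_plug.mp h.stored
  have hnd := (nodes_plug t c).nodup_iff.mp h.nodup
  refine ⟨stored_plug.mpr ⟨?_, h3⟩, ?_, ?_, by rw [h2]; exact h.hnul, h.lt⟩
  · rw [h4, h5]
    refine hC.congr fun y hy => h1 y fun hy' => ?_
    exact (List.disjoint_of_nodup_append hnd) hy' hy
  · exact (nodes_plug t' c).nodup_iff.mpr
      ((List.Perm.append_right _ h6).nodup_iff.mpr hnd)
  · have h0 : nd s' nul = nd s nul := h1 nul fun hy => lt_irrefl _ (hS.lt nul hy)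
    have := h.nulok
    unfold NulOk at this ⊢
    rw [h0]
    exact this

/-! ### Simulation of the operations -/

/-- constant -/
abbrev CC : ℕ := 10000

/-- the translation of `o` simulates `o` -/
def OpSim (o : Op) : Prop :=
  ∀ (M : ℕ) (inp : ℕ → ℕ) (lam : ℕ) (s : St) (q : AQ) (s2 : St) (q2 : AQ) (k : ℕ), 10 ≤ M →
    1 ≤ lam → opS lam o (s, q) (s2, q2) k → ∀ (st : St) (T : PT), Rel M lam s q st T →
    ∃ (st2 : St) (T2 : PT) (k2 : ℕ), Run M inp noPrim (trOp o) (st, ()) (st2, ()) k2 ∧
      Rel M lam s2 q2 st2 T2 ∧ (k2 : ℝ) + CC * T2.Phi ≤ 20 * CC * k + CC * T.Phi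

end SBR
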