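/-
SBR/SplayPull.lean : the loop-free programs pullM and flipM and their effect on the node records.
-/
import Pool.Agent.SBR.SplayBasic

namespace SBR

private theorem setReg_self (s : St) (t : ℕ) : s.setReg t (s.reg t) = s := by
  ext i
  · simp only [reg_setReg]; split_ifs with h
    · rw [h]
    · rfl
  · rfl
  · rfl

private theorem setReg_of_eq (s : St) (t v : ℕ) (h : v = s.reg t) : s.setReg t v = s := by
  rw [h]; exact setReg_self s t

theorem pull_ev_maxM (inp : ℕ → ℕ) (t : ℕ) (e : Ex) (s : St) :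
    (maxM t e).ev inp s = s.setReg t (max (s.reg t) (e.eval inp s)) := by
  unfold maxM
  simp only [Stm.ev, Co.Holds, Ex.eval]
  split_ifs with h
  · rw [max_eq_right h.le]
  · rw [max_eq_left (not_lt.1 h), setReg_self]

theorem pull_ev_cmbM (inp : ℕ → ℕ) (t : ℕ) (e : Ex) (s : St) :
    (cmbM t e).ev inp s = s.setReg t (cmb (s.reg t) (e.eval inp s)) := by
  unfold cmbM
  simp only [Stm.ev, Co.Holds, Ex.eval, cmb]
  split_ifs with h1 h2 h3 <;>
    first
    | rfl
    | (symm; apply setReg_of_eq; omega)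
    | (congr 1; omega)

theorem pull_okk_maxM (M : ℕ) (inp : ℕ → ℕ) (t : ℕ) (e : Ex) (s : St) (h : e.Ok M inp s) :
    (maxM t e).okk M inp s := by
  unfold maxM
  simp [Stm.okk, Co.Ok, Ex.Ok, h]

theorem pull_okk_cmbM (M : ℕ) (hM : 0 < M) (inp : ℕ → ℕ) (t : ℕ) (e : Ex) (s : St)
    (h : e.Ok M inp s) : (cmbM t e).okk M inp s := by
  unfold cmbM
  simp [Stm.okk, Co.Ok, Ex.Ok, h, hM]

/-! ## S1 (SplayPull.lean) -/

theorem pull_run {M : ℕ} (hM : 10 ≤ M) (inp : ℕ → ℕ) (i : ℕ) (hi : i < 110) (s : St)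
    (hs : (nd s (nd s (s.reg i)).lc).sz + (nd s (nd s (s.reg i)).rc).sz + 1 < M) :
    ∃ s', Does M inp (pullM i) s s' 200 ∧ nd s' = pullN (s.reg i) (nd s) ∧
      SameX [110] s s' := by
  have hi' : i ≠ 110 := by omega
  have hM0 : 0 < M := by omega
  have hM1 : 1 < M := by omega
  simp only [nd] at hs
  have hs' : s.arr SZ (s.arr LC (s.reg i)) + s.arr SZ (s.arr RC (s.reg i)) < M := by omega
  have hok : (pullM i).okk M inp s := by
    unfold pullM
    simp [blk, Stm.okk, Stm.ev, pull_ev_maxM, pull_ev_cmbM, Co.Ok, Co.Holds, Ex.Ok, Ex.eval,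
      pull_okk_maxM, pull_okk_cmbM, hM0, hM1, hs, hs', hi']
  refine ⟨(pullM i).ev inp s, (does_ev M inp (pullM i) s hok).mono ?_, ?_, ?_⟩
  · simp [pullM, blk, Stm.mc, Ex.sz, Co.sz, maxM, cmbM]
  · funext y
    unfold pullM pullN
    by_cases hy : y = s.reg i
    · subst hy
      by_cases hsg : s.arr SG (s.reg i) = 0
      · simp [blk, Stm.ev, pull_ev_maxM, pull_ev_cmbM, Co.Holds, Ex.eval, hi', nd, hsg]
      · simp [blk, Stm.ev, pull_ev_maxM, pull_ev_cmbM, Co.Holds, Ex.eval, hi', nd, hsg]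
    · by_cases hsg : s.arr SG (s.reg i) = 0
      · simp [blk, Stm.ev, pull_ev_maxM, pull_ev_cmbM, Co.Holds, Ex.eval, hi', nd, hsg, hy]
      · simp [blk, Stm.ev, pull_ev_maxM, pull_ev_cmbM, Co.Holds, Ex.eval, hi', nd, hsg, hy]
  · refine ⟨fun j hj => ?_, fun k hk => ?_, ?_⟩
    · have hj' : j ≠ 110 := by simpa using hj
      by_cases hsg : s.arr SG (s.reg i) = 0 <;>
      simp [pullM, blk, Stm.ev, pull_ev_maxM, pull_ev_cmbM, Co.Holds, Ex.eval, hi', hj', hsg]
    · funext y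
      have h1 : k ≠ 65 := by omega
      have h2 : k ≠ 67 := by omega
      have h3 : k ≠ 68 := by omega
      have h4 : k ≠ 69 := by omega
      by_cases hsg : s.arr SG (s.reg i) = 0 <;>
      simp [pullM, blk, Stm.ev, pull_ev_maxM, pull_ev_cmbM, Co.Holds, Ex.eval, hi', hsg, h1, h2,
        h3, h4]
    · by_cases hsg : s.arr SG (s.reg i) = 0 <;>
      simp [pullM, blk, Stm.ev, pull_ev_maxM, pull_ev_cmbM, Co.Holds, Ex.eval, hi', hsg]

theorem flip_run {M : ℕ} (hM : 10 ≤ M) (inp : ℕ → ℕ) (i : ℕ) (hi : i < 110 ∨ i = 112) (s : St)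
    (h : s.reg i ≠ s.reg NUL → (nd s (s.reg i)).fl ≤ 1 ∧ (nd s (s.reg i)).sg ≤ 1) :
    ∃ s', Does M inp (flipM i) s s' 60 ∧ nd s' = flipN (s.reg NUL) (s.reg i) (nd s) ∧
      SameX [111] s s' := by
  have hi' : i ≠ 111 := by omega
  have hM0 : 0 < M := by omega
  have hM1 : 1 < M := by omega
  by_cases hn : s.reg i = s.reg NUL
  · have hok : (flipM i).okk M inp s := by
      unfold flipM
      simp [blk, Stm.okk, Co.Ok, Co.Holds, Ex.Ok, Ex.eval, hn]
    have hev : (flipM i).ev inp s = s := by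
      unfold flipM
      simp [Stm.ev, Co.Holds, Ex.eval, hn]
    refine ⟨(flipM i).ev inp s, (does_ev M inp (flipM i) s hok).mono ?_, ?_, ?_⟩
    · simp [flipM, blk, Stm.mc, Ex.sz, Co.sz]
    · rw [hev]; simp [flipN, hn]
    · rw [hev]; exact SameX.refl _ _
  · obtain ⟨hf, hg⟩ := h hn
    simp only [nd] at hf hg
    have hok : (flipM i).okk M inp s := by
      unfold flipM
      simp [blk, Stm.okk, Stm.ev, Co.Ok, Co.Holds, Ex.Ok, Ex.eval, hn, hi', hf, hg, hM0, hM1]
    have hn' : ¬ s.reg i = s.reg 100 := hn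
    refine ⟨(flipM i).ev inp s, (does_ev M inp (flipM i) s hok).mono ?_, ?_, ?_⟩
    · simp [flipM, blk, Stm.mc, Ex.sz, Co.sz]
    · funext y
      unfold flipN
      rw [if_neg hn]
      by_cases hy : y = s.reg i
      · subst hy
        simp [flipM, blk, Stm.ev, Co.Holds, Ex.eval, hn', hi', nd]
      · simp [flipM, blk, Stm.ev, Co.Holds, Ex.eval, hn', hi', nd, hy]
    · refine ⟨fun j hj => ?_, fun k hk => ?_, ?_⟩
      · have hj' : j ≠ 111 := by simpa using hj
        simp [flipM, blk, Stm.ev, Co.Holds, Ex.eval, hn', hi', hj']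
      · funext y
        have h1 : k ≠ 60 := by omega
        have h2 : k ≠ 61 := by omega
        have h3 : k ≠ 63 := by omega
        have h4 : k ≠ 64 := by omega
        have h5 : k ≠ 68 := by omega
        have h6 : k ≠ 69 := by omega
        simp [flipM, blk, Stm.ev, Co.Holds, Ex.eval, hn', hi', h1, h2, h3, h4, h5, h6]
      · simp [flipM, blk, Stm.ev, Co.Holds, Ex.eval, hn', hi']

end SBR
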