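/-
SBR/SplayRot.lean : rotations.
-/
import Pool.Agent.SBR.SplayBasic
import Pool.Agent.SBR.SplayPull

namespace SBR

/-- `pullN` makes a record correct if everything else is -/
theorem stored_pull {nul : ℕ} {key : ℕ → ℕ} {m : ℕ → Nd} {l r : PT} {x p : ℕ} {b : Bool}
    (hn : (PT.node l x false b r).nodes.Nodup) (h0 : NulOk nul m) (hx : x < nul)
    (hl : Stored nul key m l x) (hr : Stored nul key m r x)
    (h1 : (m x).lc = l.rt nul) (h2 : (m x).rc = r.rt nul) (h3 : (m x).pa = p)
    (h4 : (m x).fl = 0) (h5 : (m x).sg = b2n b) (h6 : (m x).ky = key x) :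
    Stored nul key (pullN x m) (.node l x false b r) p := by
  have hn' : x ∉ l.nodes ++ r.nodes := by
    have : (x :: (l.nodes ++ r.nodes)).Nodup := hn
    exact (List.nodup_cons.1 this).1
  have hnl : ∀ y ∈ l.nodes, pullN x m y = m y := by
    intro y hy
    refine Function.update_of_ne ?_ _ _
    rintro rfl
    exact hn' (List.mem_append_left _ hy)
  have hnr : ∀ y ∈ r.nodes, pullN x m y = m y := by
    intro y hy
    refine Function.update_of_ne ?_ _ _
    rintro rfl
    exact hn' (List.mem_append_right _ hy)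
  refine ⟨hx, ?_, hl.congr hnl, hr.congr hnr⟩
  obtain ⟨a1, a2, a3, a4⟩ := hl.root h0
  obtain ⟨b1, b2, b3, b4⟩ := hr.root h0
  have htl : (PT.node l x false b r).toL = l.toL ++ (x, b) :: r.toL := by
    simp [PT.toL]
  unfold pullN
  rw [Function.update_self, htl]
  unfold mkNd
  ext
  · exact h1
  · exact h2
  · exact h3
  · rw [h4]; rfl
  · exact h5
  · show (m (m x).lc).sz + (m (m x).rc).sz + 1 = (l.toL ++ (x, b) :: r.toL).length
    rw [h1, h2, a1, b1, List.length_append, List.length_cons, PT.length_toL, PT.length_toL]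
    omega
  · exact h6
  · show max (max (m (m x).lc).mx (m (m x).rc).mx) (m x).ky = mxk key (l.toL ++ (x, b) :: r.toL)
    rw [h1, h2, h6, a2, b2, mxk_append, mxk_cons]
    show max (max _ _) (key x) = max _ (max (key x) _)
    omega
  · show cmb (cmb (m (m x).lc).mp (if (m x).sg = 0 then 0 else (m x).ky)) (m (m x).rc).mp =
      mnk key true (l.toL ++ (x, b) :: r.toL)
    rw [h1, h2, h6, a3, b3, mnk_append, mnk_cons, h5, cmb_assoc]
    cases b <;> simp [b2n]
  · show cmb (cmb (m (m x).lc).mn (if (m x).sg = 0 then (m x).ky else 0)) (m (m x).rc).mn =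
      mnk key false (l.toL ++ (x, b) :: r.toL)
    rw [h1, h2, h6, a4, b4, mnk_append, mnk_cons, h5, cmb_assoc]
    cases b <;> simp [b2n]

/-- change of the parent of a stored tree -/
theorem h11_reparent {nul : ℕ} {key : ℕ → ℕ} {m m' : ℕ → Nd} {t : PT} {p p' : ℕ}
    (h : Stored nul key m t p) (hn : t.nodes.Nodup)
    (h1 : ∀ y ∈ t.nodes, y ≠ t.rt nul → m' y = m y)
    (h2 : t ≠ .nil → m' (t.rt nul) = { m (t.rt nul) with pa := p' }) :
    Stored nul key m' t p' := by
  cases t with
  | nil => trivial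
  | node l x f s r =>
    obtain ⟨hx, hm, hl, hr⟩ := h
    have hn' : x ∉ l.nodes ++ r.nodes := by
      have : (x :: (l.nodes ++ r.nodes)).Nodup := hn
      exact (List.nodup_cons.1 this).1
    refine ⟨hx, ?_, hl.congr ?_, hr.congr ?_⟩
    · have := h2 (by simp)
      rw [show (PT.node l x f s r).rt nul = x from rfl] at this
      rw [this, hm]
      rfl
    · intro y hy
      refine h1 y ?_ ?_
      · exact List.mem_cons_of_mem _ (List.mem_append_left _ hy)
      · rintro rfl; exact hn' (List.mem_append_left _ hy)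
    · intro y hy
      refine h1 y ?_ ?_
      · exact List.mem_cons_of_mem _ (List.mem_append_right _ hy)
      · rintro rfl; exact hn' (List.mem_append_right _ hy)

/-- effect of the pointer part of a rotation on the records -/
structure H11Ptr (d : Bool) (nul : ℕ) (m m1 : ℕ → Nd) (x p g bb : ℕ) : Prop where
  hx : m1 x = if d then { m x with rc := p, pa := g } else { m x with lc := p, pa := g }
  hp : m1 p = if d then { m p with lc := bb, pa := x } else { m p with rc := bb, pa := x }
  hb : bb ≠ nul → m1 bb = { m bb with pa := p }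
  hg : g ≠ nul → m1 g = { m g with
    lc := if (m g).lc = p then x else (m g).lc
    rc := if (m g).lc = p then (m g).rc else x }
  ho : ∀ y, y ≠ x → y ≠ p → (y ≠ g ∨ y = nul) → (y ≠ bb ∨ y = nul) → m1 y = m y

/-- rotated tree -/
def h11Rot (d : Bool) (l : PT) (x : ℕ) (b : Bool) (r : PT) (p : ℕ) (bp : Bool) (o : PT) : PT :=
  if d then .node l x false b (.node r p false bp o) else .node (.node o p false bp l) x false b r

theorem h11_rot_toL (d : Bool) (l : PT) (x : ℕ) (b : Bool) (r : PT) (p : ℕ) (bp : Bool) (o : PT) :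
    (h11Rot d l x b r p bp o).toL = ((Fr.mk d p false bp o).plug (.node l x false b r)).toL := by
  cases d <;> simp [h11Rot, Fr.plug, PT.toL]

theorem h11_rot_nodes (d : Bool) (l : PT) (x : ℕ) (b : Bool) (r : PT) (p : ℕ) (bp : Bool)
    (o : PT) : (h11Rot d l x b r p bp o).nodes.Perm
      ((Fr.mk d p false bp o).plug (.node l x false b r)).nodes := by
  cases d
  · simp only [h11Rot, Fr.plug, PT.nodes, Bool.false_eq_true, if_false]
    rw [List.perm_iff_count]
    intro a
    simp only [List.count_cons, List.count_append]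
    omega
  · simp only [h11Rot, Fr.plug, PT.nodes, if_true]
    rw [List.perm_iff_count]
    intro a
    simp only [List.count_cons, List.count_append]
    omega

theorem h11_rot_rt (d : Bool) (l : PT) (x : ℕ) (b : Bool) (r : PT) (p : ℕ) (bp : Bool)
    (o : PT) (nul : ℕ) : (h11Rot d l x b r p bp o).rt nul = x := by
  cases d <;> rfl

theorem h11_rt_ne {t : PT} {nul y : ℕ} (hy : y < nul) (h : y ∉ t.nodes) : t.rt nul ≠ y := by
  cases t with
  | nil => exact fun h' => by rw [show PT.nil.rt nul = nul from rfl] at h'; omega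
  | node l x f s r =>
    rintro rfl
    exact h (List.mem_cons_self ..)

/-- change of the root in a context -/
theorem h11_reroot {nul : ℕ} {key : ℕ → ℕ} {m m' : ℕ → Nd} {c : List Fr} {p x : ℕ}
    {L : List (ℕ × Bool)} (h : StoredC nul key m c p L nul) (hp : p < nul)
    (hpc : p ∉ nodesC c) (hn : (nodesC c).Nodup)
    (h1 : ∀ y ∈ nodesC c, y ≠ par nul c → m' y = m y)
    (h2 : par nul c ≠ nul → m' (par nul c) = { m (par nul c) with
      lc := if (m (par nul c)).lc = p then x else (m (par nul c)).lc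
      rc := if (m (par nul c)).lc = p then (m (par nul c)).rc else x }) :
    StoredC nul key m' c x L nul := by
  cases c with
  | nil => trivial
  | cons fr c =>
    obtain ⟨hy, hm, ho, hc⟩ := h
    have hn' : fr.y ∉ fr.o.nodes ++ nodesC c := (List.nodup_cons.1 hn).1
    have hpo : p ∉ fr.o.nodes := fun h => hpc (List.mem_cons_of_mem _ (List.mem_append_left _ h))
    refine ⟨hy, ?_, ho.congr ?_, hc.congr ?_⟩
    · have := h2 (by show fr.y ≠ nul; omega)
      rw [show par nul (fr :: c) = fr.y from rfl] at this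
      rw [this, hm]
      have hne := h11_rt_ne hp hpo
      unfold mkNd
      cases hd : fr.d
      · simp [hne]
      · simp
    · intro y hy'
      refine h1 y (List.mem_cons_of_mem _ (List.mem_append_left _ hy')) ?_
      rintro rfl; exact hn' (List.mem_append_left _ hy')
    · intro y hy'
      refine h1 y (List.mem_cons_of_mem _ (List.mem_append_right _ hy')) ?_
      rintro rfl; exact hn' (List.mem_append_right _ hy')

theorem h11_par_mem (nul : ℕ) (c : List Fr) : par nul c = nul ∨ par nul c ∈ nodesC c := by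
  cases c with
  | nil => exact Or.inl rfl
  | cons fr c => exact Or.inr (List.mem_cons_self ..)

theorem h11_rt_mem (nul : ℕ) (t : PT) : t.rt nul = nul ∨ t.rt nul ∈ t.nodes := by
  cases t with
  | nil => exact Or.inl rfl
  | node l x f s r => exact Or.inr (List.mem_cons_self ..)

theorem h11_rt_node (nul : ℕ) (l : PT) (x : ℕ) (f s : Bool) (r : PT) :
    (PT.node l x f s r).rt nul = x := rfl

/-- the rotation, as a statement about records -/
theorem h11_rot_pure (d : Bool) {nul : ℕ} {key : ℕ → ℕ} {m m1 : ℕ → Nd} {l r o : PT} {x p : ℕ}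
    {b bp : Bool} {c : List Fr}
    (h : Stored nul key m (plug (.node l x false b r) (⟨d, p, false, bp, o⟩ :: c)) nul)
    (hn : (plug (.node l x false b r) (⟨d, p, false, bp, o⟩ :: c)).nodes.Nodup)
    (h0 : NulOk nul m)
    (hP : H11Ptr d nul m m1 x p (par nul c) (if d then r.rt nul else l.rt nul)) :
    Stored nul key (pullN x (pullN p m1)) (plug (h11Rot d l x b r p bp o) c) nul ∧
    NulOk nul (pullN x (pullN p m1)) ∧
    (m1 (m1 p).lc).sz + (m1 (m1 p).rc).sz ≤ l.size + r.size + o.size ∧
    (pullN p m1 (pullN p m1 x).lc).sz + (pullN p m1 (pullN p m1 x).rc).sz ≤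
      l.size + r.size + o.size + 1 := by
  have hn1 : (((Fr.mk d p false bp o).plug (.node l x false b r)).nodes ++ nodesC c).Nodup :=
    (nodes_plug _ c).nodup_iff.1 hn
  obtain ⟨hC, hF⟩ := stored_plug.1 (show Stored nul key m
    (plug ((Fr.mk d p false bp o).plug (.node l x false b r)) c) nul from h)
  have hpar := h11_par_mem nul c
  cases d
  · -- `x` is the right child of `p`
    simp only [Fr.plug, PT.nodes, Bool.false_eq_true, if_false, h11_rt_node] at hn1 hC hF hP
    obtain ⟨hp, hmp, ho, hx, hmx, hl, hr⟩ := hF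
    have hrt := h11_rt_mem nul l
    simp only [List.cons_append, List.nodup_cons, List.nodup_append, List.mem_append,
      List.mem_cons, not_or] at hn1
    obtain ⟨⟨⟨hpo, hpx, hpl, hpr⟩, hpc⟩, ⟨hno, ⟨⟨hxl, hxr⟩, hnl, hnr, hlr⟩, hox⟩, hnc, hall⟩ := hn1
    have hxc : x ∉ nodesC c := fun h' => hall x (Or.inr (Or.inl rfl)) x h' rfl
    have hlc : ∀ y ∈ l.nodes, y ∉ nodesC c := fun y hy h' =>
      hall y (Or.inr (Or.inr (Or.inl hy))) y h' rfl
    have hrc : ∀ y ∈ r.nodes, y ∉ nodesC c := fun y hy h' =>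
      hall y (Or.inr (Or.inr (Or.inr hy))) y h' rfl
    have hoc : ∀ y ∈ o.nodes, y ∉ nodesC c := fun y hy h' => hall y (Or.inl hy) y h' rfl
    have hol : ∀ y ∈ o.nodes, y ∉ l.nodes := fun y hy h' => hox y hy y (Or.inr (Or.inl h')) rfl
    have hor : ∀ y ∈ o.nodes, y ∉ r.nodes := fun y hy h' => hox y hy y (Or.inr (Or.inr h')) rfl
    have hoxx : x ∉ o.nodes := fun h' => hox x h' x (Or.inl rfl) rfl
    have hlr' : ∀ y ∈ r.nodes, y ∉ l.nodes := fun y hy h' => hlr y h' y hy rfl
    -- the records which do not change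
    have hA : ∀ y, y ∉ nodesC c → y ∉ l.nodes → y ≠ x → y ≠ p → m1 y = m y := by
      intro y h1 h2 h3 h4
      refine hP.ho y h3 h4 ?_ ?_
      · rcases hpar with h5 | h5
        · by_cases h6 : y = par nul c
          · exact Or.inr (h6.trans h5)
          · exact Or.inl h6
        · exact Or.inl (fun h6 => h1 (h6 ▸ h5))
      · rcases hrt with h5 | h5
        · by_cases h6 : y = l.rt nul
          · exact Or.inr (h6.trans h5)
          · exact Or.inl h6
        · exact Or.inl (fun h6 => h2 (h6 ▸ h5))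
    have hB : ∀ y ∈ l.nodes, y ≠ l.rt nul → m1 y = m y := by
      intro y h1 h2
      refine hP.ho y (fun h' => hxl (h' ▸ h1)) (fun h' => hpl (h' ▸ h1)) ?_ (Or.inl h2)
      rcases hpar with h5 | h5
      · by_cases h6 : y = par nul c
        · exact Or.inr (h6.trans h5)
        · exact Or.inl h6
      · exact Or.inl (fun h6 => hlc y h1 (h6 ▸ h5))
    have hD : ∀ y ∈ nodesC c, y ≠ par nul c → m1 y = m y := by
      intro y h1 h2
      refine hP.ho y (fun h' => hxc (h' ▸ h1)) (fun h' => hpc (h' ▸ h1)) (Or.inl h2) ?_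
      rcases hrt with h5 | h5
      · by_cases h6 : y = l.rt nul
        · exact Or.inr (h6.trans h5)
        · exact Or.inl h6
      · exact Or.inl (fun h6 => hlc _ h5 (h6 ▸ h1))
    have h01 : NulOk nul m1 := by
      unfold NulOk
      rw [hP.ho nul (by omega) (by omega) (Or.inr rfl) (Or.inr rfl)]
      exact h0
    have hm1p := hP.hp
    have hm1x := hP.hx
    simp only [Bool.false_eq_true, if_false] at hm1p hm1x
    have sl : Stored nul key m1 l p := h11_reparent hl hnl hB (fun hne => hP.hb (by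
      have := hl.lt _ (PT.rt_mem nul l hne)
      omega))
    have so : Stored nul key m1 o p := ho.congr (fun y hy =>
      hA y (hoc y hy) (hol y hy) (fun h' => hoxx (h' ▸ hy)) (fun h' => hpo (h' ▸ hy)))
    have sp : Stored nul key (pullN p m1) (.node o p false bp l) x := by
      refine stored_pull ?_ h01 hp so sl ?_ ?_ ?_ ?_ ?_ ?_
      · simp only [PT.nodes, List.nodup_cons, List.mem_append, not_or, List.nodup_append]
        exact ⟨⟨hpo, hpl⟩, hno, hnl, fun a ha b hb hab => hol a ha (hab ▸ hb)⟩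
      · rw [hm1p]; show (m p).lc = _; rw [hmp]; rfl
      · rw [hm1p]
      · rw [hm1p]
      · rw [hm1p]; show (m p).fl = _; rw [hmp]; rfl
      · rw [hm1p]; show (m p).sg = _; rw [hmp]; rfl
      · rw [hm1p]; show (m p).ky = _; rw [hmp]; rfl
    have hne : ∀ y, y ≠ p → pullN p m1 y = m1 y := fun y hy => Function.update_of_ne hy _ _
    have hne' : ∀ y, y ≠ x → pullN x (pullN p m1) y = pullN p m1 y :=
      fun y hy => Function.update_of_ne hy _ _
    have hxp : x ≠ p := fun h' => hpx h'.symm
    have h02 : NulOk nul (pullN p m1) := by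
      unfold NulOk
      rw [hne nul (by omega)]
      exact h01
    have sr : Stored nul key (pullN p m1) r x := hr.congr (fun y hy => by
      rw [hne y (fun h' => hpr (h' ▸ hy)), hA y (hrc y hy) (hlr' y hy) (fun h' => hxr (h' ▸ hy))
        (fun h' => hpr (h' ▸ hy))])
    have hn3 : (PT.node (.node o p false bp l) x false b r).nodes.Nodup := by
      simp only [PT.nodes, List.cons_append, List.nodup_cons, List.nodup_append, List.mem_append,
        List.mem_cons, not_or]
      refine ⟨⟨hxp, ⟨hoxx, hxl⟩, hxr⟩, ⟨⟨hpo, hpl⟩, hpr⟩, ⟨hno, hnl, ?_⟩, hnr, ?_⟩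
      · exact fun a ha b hb hab => hol a ha (hab ▸ hb)
      · rintro a (ha | ha) b hb hab
        · exact hor a ha (hab ▸ hb)
        · exact hlr a ha b hb hab
    have sx : Stored nul key (pullN x (pullN p m1)) (.node (.node o p false bp l) x false b r)
        (par nul c) := by
      refine stored_pull hn3 h02 hx sp sr ?_ ?_ ?_ ?_ ?_ ?_
      · rw [hne x hxp, hm1x]; rfl
      · rw [hne x hxp, hm1x]; show (m x).rc = _; rw [hmx]; rfl
      · rw [hne x hxp, hm1x]
      · rw [hne x hxp, hm1x]; show (m x).fl = _; rw [hmx]; rfl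
      · rw [hne x hxp, hm1x]; show (m x).sg = _; rw [hmx]; rfl
      · rw [hne x hxp, hm1x]; show (m x).ky = _; rw [hmx]; rfl
    have hL := h11_rot_toL false l x b r p bp o
    simp only [h11Rot, Fr.plug, Bool.false_eq_true, if_false] at hL ⊢
    refine ⟨stored_plug.2 ⟨?_, sx⟩, ?_, ?_, ?_⟩
    · show StoredC nul key _ c x _ nul
      rw [hL]
      refine h11_reroot hC hp hpc hnc ?_ ?_
      · intro y hy hy'
        rw [hne' y (fun h' => hxc (h' ▸ hy)), hne y (fun h' => hpc (h' ▸ hy)), hD y hy hy']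
      · intro hg
        have hgm : par nul c ∈ nodesC c := hpar.resolve_left hg
        rw [hne' _ (fun h' => hxc (h' ▸ hgm)), hne _ (fun h' => hpc (h' ▸ hgm)), hP.hg hg]
    · unfold NulOk
      rw [hne' nul (by omega)]
      exact h02
    · rw [hm1p]
      show (m1 (m p).lc).sz + (m1 (l.rt nul)).sz ≤ _
      rw [hmp]
      show (m1 (o.rt nul)).sz + _ ≤ _
      rw [(so.root h01).1, (sl.root h01).1]
      omega
    · rw [hne x hxp, hm1x]
      show (pullN p m1 p).sz + (pullN p m1 (m x).rc).sz ≤ _
      rw [hmx]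
      show _ + (pullN p m1 (r.rt nul)).sz ≤ _
      have := (sp.root h02).1
      rw [show (PT.node o p false bp l).rt nul = p from rfl] at this
      rw [this, (sr.root h02).1]
      simp only [PT.size]
      omega
  · -- `x` is the left child of `p`
    simp only [Fr.plug, PT.nodes, if_true, h11_rt_node] at hn1 hC hF hP
    obtain ⟨hp, hmp, ⟨hx, hmx, hl, hr⟩, ho⟩ := hF
    have hrt := h11_rt_mem nul r
    simp only [List.cons_append, List.nodup_cons, List.nodup_append, List.mem_append,
      List.mem_cons, not_or] at hn1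
    obtain ⟨⟨hpx, ⟨⟨hpl, hpr⟩, hpo⟩, hpc⟩, ⟨⟨⟨hxl, hxr⟩, hoxx⟩, hxc⟩,
      ⟨⟨hnl, hnr, hlr⟩, hno, hox⟩, hnc, hall⟩ := hn1
    have hlc : ∀ y ∈ l.nodes, y ∉ nodesC c := fun y hy h' =>
      hall y (Or.inl (Or.inl hy)) y h' rfl
    have hrc : ∀ y ∈ r.nodes, y ∉ nodesC c := fun y hy h' =>
      hall y (Or.inl (Or.inr hy)) y h' rfl
    have hoc : ∀ y ∈ o.nodes, y ∉ nodesC c := fun y hy h' => hall y (Or.inr hy) y h' rfl
    have hol : ∀ y ∈ o.nodes, y ∉ l.nodes := fun y hy h' => hox y (Or.inl h') y hy rfl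
    have hor : ∀ y ∈ o.nodes, y ∉ r.nodes := fun y hy h' => hox y (Or.inr h') y hy rfl
    have hlr' : ∀ y ∈ l.nodes, y ∉ r.nodes := fun y hy h' => hlr y hy y h' rfl
    -- the records which do not change
    have hA : ∀ y, y ∉ nodesC c → y ∉ r.nodes → y ≠ x → y ≠ p → m1 y = m y := by
      intro y h1 h2 h3 h4
      refine hP.ho y h3 h4 ?_ ?_
      · rcases hpar with h5 | h5
        · by_cases h6 : y = par nul c
          · exact Or.inr (h6.trans h5)
          · exact Or.inl h6
        · exact Or.inl (fun h6 => h1 (h6 ▸ h5))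
      · rcases hrt with h5 | h5
        · by_cases h6 : y = r.rt nul
          · exact Or.inr (h6.trans h5)
          · exact Or.inl h6
        · exact Or.inl (fun h6 => h2 (h6 ▸ h5))
    have hB : ∀ y ∈ r.nodes, y ≠ r.rt nul → m1 y = m y := by
      intro y h1 h2
      refine hP.ho y (fun h' => hxr (h' ▸ h1)) (fun h' => hpr (h' ▸ h1)) ?_ (Or.inl h2)
      rcases hpar with h5 | h5
      · by_cases h6 : y = par nul c
        · exact Or.inr (h6.trans h5)
        · exact Or.inl h6
      · exact Or.inl (fun h6 => hrc y h1 (h6 ▸ h5))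
    have hD : ∀ y ∈ nodesC c, y ≠ par nul c → m1 y = m y := by
      intro y h1 h2
      refine hP.ho y (fun h' => hxc (h' ▸ h1)) (fun h' => hpc (h' ▸ h1)) (Or.inl h2) ?_
      rcases hrt with h5 | h5
      · by_cases h6 : y = r.rt nul
        · exact Or.inr (h6.trans h5)
        · exact Or.inl h6
      · exact Or.inl (fun h6 => hrc _ h5 (h6 ▸ h1))
    have h01 : NulOk nul m1 := by
      unfold NulOk
      rw [hP.ho nul (by omega) (by omega) (Or.inr rfl) (Or.inr rfl)]
      exact h0
    have hm1p := hP.hp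
    have hm1x := hP.hx
    simp only [if_true] at hm1p hm1x
    have sr : Stored nul key m1 r p := h11_reparent hr hnr hB (fun hne => hP.hb (by
      have := hr.lt _ (PT.rt_mem nul r hne)
      omega))
    have so : Stored nul key m1 o p := ho.congr (fun y hy =>
      hA y (hoc y hy) (hor y hy) (fun h' => hoxx (h' ▸ hy)) (fun h' => hpo (h' ▸ hy)))
    have sp : Stored nul key (pullN p m1) (.node r p false bp o) x := by
      refine stored_pull ?_ h01 hp sr so ?_ ?_ ?_ ?_ ?_ ?_
      · simp only [PT.nodes, List.nodup_cons, List.mem_append, not_or, List.nodup_append]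
        exact ⟨⟨hpr, hpo⟩, hnr, hno, fun a ha b hb hab => hor b hb (hab ▸ ha)⟩
      · rw [hm1p]
      · rw [hm1p]; show (m p).rc = _; rw [hmp]; rfl
      · rw [hm1p]
      · rw [hm1p]; show (m p).fl = _; rw [hmp]; rfl
      · rw [hm1p]; show (m p).sg = _; rw [hmp]; rfl
      · rw [hm1p]; show (m p).ky = _; rw [hmp]; rfl
    have hne : ∀ y, y ≠ p → pullN p m1 y = m1 y := fun y hy => Function.update_of_ne hy _ _
    have hne' : ∀ y, y ≠ x → pullN x (pullN p m1) y = pullN p m1 y :=
      fun y hy => Function.update_of_ne hy _ _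
    have hxp : x ≠ p := fun h' => hpx h'.symm
    have h02 : NulOk nul (pullN p m1) := by
      unfold NulOk
      rw [hne nul (by omega)]
      exact h01
    have sl : Stored nul key (pullN p m1) l x := hl.congr (fun y hy => by
      rw [hne y (fun h' => hpl (h' ▸ hy)), hA y (hlc y hy) (hlr' y hy) (fun h' => hxl (h' ▸ hy))
        (fun h' => hpl (h' ▸ hy))])
    have hn3 : (PT.node l x false b (.node r p false bp o)).nodes.Nodup := by
      simp only [PT.nodes, List.nodup_cons, List.nodup_append, List.mem_append,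
        List.mem_cons, not_or]
      refine ⟨⟨hxl, hxp, hxr, hoxx⟩, hnl, ⟨⟨hpr, hpo⟩, hnr, hno, ?_⟩, ?_⟩
      · exact fun a ha b hb hab => hor b hb (hab ▸ ha)
      · rintro a ha b (hb | hb | hb) hab
        · exact hpl (by rw [← hb, ← hab]; exact ha)
        · exact hlr a ha b hb hab
        · exact hol b hb (hab ▸ ha)
    have sx : Stored nul key (pullN x (pullN p m1)) (.node l x false b (.node r p false bp o))
        (par nul c) := by
      refine stored_pull hn3 h02 hx sl sp ?_ ?_ ?_ ?_ ?_ ?_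
      · rw [hne x hxp, hm1x]; show (m x).lc = _; rw [hmx]; rfl
      · rw [hne x hxp, hm1x]; rfl
      · rw [hne x hxp, hm1x]
      · rw [hne x hxp, hm1x]; show (m x).fl = _; rw [hmx]; rfl
      · rw [hne x hxp, hm1x]; show (m x).sg = _; rw [hmx]; rfl
      · rw [hne x hxp, hm1x]; show (m x).ky = _; rw [hmx]; rfl
    have hL := h11_rot_toL true l x b r p bp o
    simp only [h11Rot, Fr.plug, if_true] at hL ⊢
    refine ⟨stored_plug.2 ⟨?_, sx⟩, ?_, ?_, ?_⟩
    · show StoredC nul key _ c x _ nul
      rw [hL]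
      refine h11_reroot hC hp hpc hnc ?_ ?_
      · intro y hy hy'
        rw [hne' y (fun h' => hxc (h' ▸ hy)), hne y (fun h' => hpc (h' ▸ hy)), hD y hy hy']
      · intro hg
        have hgm : par nul c ∈ nodesC c := hpar.resolve_left hg
        rw [hne' _ (fun h' => hxc (h' ▸ hgm)), hne _ (fun h' => hpc (h' ▸ hgm)), hP.hg hg]
    · unfold NulOk
      rw [hne' nul (by omega)]
      exact h02
    · rw [hm1p]
      show (m1 (r.rt nul)).sz + (m1 (m p).rc).sz ≤ _
      rw [hmp]
      show _ + (m1 (o.rt nul)).sz ≤ _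
      rw [(so.root h01).1, (sr.root h01).1]
      omega
    · rw [hne x hxp, hm1x]
      show (pullN p m1 (m x).lc).sz + (pullN p m1 p).sz ≤ _
      rw [hmx]
      show (pullN p m1 (l.rt nul)).sz + _ ≤ _
      have := (sp.root h02).1
      rw [h11_rt_node] at this
      rw [this, (sl.root h02).1]
      simp only [PT.size]
      omega

/-- the pointer part of a rotation -/
def h11ptrL : List Prog := [
  .set 108 (.ld PA (.r 107)),
  .set 109 (.ld PA (.r 108)),
  .ite (.eq (.ld LC (.r 108)) (.r 107))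
    (blk [.set 106 (.ld RC (.r 107)), .sto LC (.r 108) (.r 106), .sto RC (.r 107) (.r 108)])
    (blk [.set 106 (.ld LC (.r 107)), .sto RC (.r 108) (.r 106), .sto LC (.r 107) (.r 108)]),
  .ite (.eq (.r 106) (.r NUL)) .skip (.sto PA (.r 106) (.r 108)),
  .sto PA (.r 108) (.r 107),
  .sto PA (.r 107) (.r 109),
  .ite (.eq (.r 109) (.r NUL)) .skip
    (.ite (.eq (.ld LC (.r 109)) (.r 108)) (.sto LC (.r 109) (.r 107))
      (.sto RC (.r 109) (.r 107)))]

theorem h11_rotM : rotM = blk (h11ptrL ++ [pullM 108, pullM 107]) := rfl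

theorem h11_blk_append {M : ℕ} {inp : ℕ → ℕ} : ∀ (L L' : List Prog) (s s' s'' : St) (n n' : ℕ),
    L ≠ [] → L' ≠ [] → Does M inp (blk L) s s' n → Does M inp (blk L') s' s'' n' →
    Does M inp (blk (L ++ L')) s s'' (n + n') := by
  intro L
  induction L with
  | nil => intro L' s s' s'' n n' h; exact absurd rfl h
  | cons a L ih =>
    intro L' s s' s'' n n' _ hL' h h'
    cases L with
    | nil =>
      cases L' with
      | nil => exact absurd rfl hL'
      | cons b L' => exact Does.seq (p := a) (q := blk (b :: L')) h h'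
    | cons b L =>
      obtain ⟨k, hk, hr⟩ := h
      change Run M inp noPrim (.seq a (blk (b :: L))) (s, ()) (s', ()) k at hr
      cases hr with
      | seq _ _ _ s1 _ k1 k2 h1 h2 =>
        obtain ⟨s1, u⟩ := s1
        have h3 := ih L' s1 s' s'' k2 n' (by simp) hL' ⟨k2, le_rfl, h2⟩ h'
        have h4 : Does M inp (.seq a (blk (b :: L ++ L'))) s s'' (k1 + (k2 + n')) :=
          Does.seq ⟨k1, le_rfl, h1⟩ h3
        exact h4.mono (by omega)

theorem h11_ptr_ev (inp : ℕ → ℕ) (s : St) (d : Bool) {x p g bb nul : ℕ} (hx : s.reg 107 = x)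
    (hnul : s.reg 100 = nul) (hp : s.arr PA x = p) (hg : s.arr PA p = g)
    (hd : if d then s.arr LC p = x ∧ s.arr RC x = bb else s.arr LC p ≠ x ∧ s.arr LC x = bb)
    (hxp : x ≠ p) (hgx : g ≠ x) (hgp : g ≠ p) (hbx : bb ≠ x) (hbp : bb ≠ p)
    (hbg : bb = g → g = nul) (hxn : x ≠ nul) (hpn : p ≠ nul) :
    H11Ptr d nul (nd s) (nd ((blk h11ptrL).ev inp s)) x p g bb ∧
    ((blk h11ptrL).ev inp s).reg 108 = p ∧ SameX [106, 108, 109] s ((blk h11ptrL).ev inp s) := by
  have hbg' : g ≠ nul → g ≠ bb := fun h h' => h (hbg h'.symm)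
  have hbg'' : g ≠ nul → bb ≠ g := fun h h' => h (hbg h')
  have hb' : bb ≠ nul → nul ≠ bb := fun h h' => h h'.symm
  have hg' : g ≠ nul → nul ≠ g := fun h h' => h h'.symm
  have hpx := hxp.symm
  have hxg := hgx.symm
  have hpg := hgp.symm
  have hxb := hbx.symm
  have hpb := hbp.symm
  have hnx := hxn.symm
  have hnp := hpn.symm
  cases d
  · obtain ⟨h1, h2⟩ := hd
    by_cases hb : bb = nul <;> by_cases hgn : g = nul <;> by_cases hL : s.arr LC g = p
    all_goals
      have e : (blk h11ptrL).ev inp s = (blk h11ptrL).ev inp s := rfl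
      conv_rhs at e =>
        simp [h11ptrL, blk, Stm.ev, Ex.eval, Co.Holds, hx, hp, hg, h1, h2, hb, hgn, hL, hnul, hxn,
          hpn, hxp, hgx, hgp, hbx, hbp]
      rw [e]
      refine ⟨⟨?_, ?_, ?_, ?_, ?_⟩, ?_, ?_, ?_, ?_⟩
      · ext <;> simp [nd, *]
      · ext <;> simp [nd, *]
      · intro h9
        first
        | exact absurd hb h9
        | (ext <;> simp [nd, *])
      · intro h9
        first
        | exact absurd hgn h9
        | (ext <;> simp [nd, *])
      · intro y h3 h4 h5 h6
        have h7 : g ≠ nul → y ≠ g := fun h' => h5.elim id (fun h8 h9 => h' (h9 ▸ h8))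
        have h8 : bb ≠ nul → y ≠ bb := fun h' => h6.elim id (fun h8 h9 => h' (h9 ▸ h8))
        ext <;> simp [nd, *]
      · simp
      · intro i hi
        simp only [List.mem_cons, List.not_mem_nil, or_false, not_or] at hi
        simp [hi]
      · intro k hk
        have h3 : k ≠ 60 := by omega
        have h4 : k ≠ 61 := by omega
        have h5 : k ≠ 62 := by omega
        funext y
        simp [h3, h4, h5]
      · simp
  · obtain ⟨h1, h2⟩ := hd
    by_cases hb : bb = nul <;> by_cases hgn : g = nul <;> by_cases hL : s.arr LC g = p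
    all_goals
      have e : (blk h11ptrL).ev inp s = (blk h11ptrL).ev inp s := rfl
      conv_rhs at e =>
        simp [h11ptrL, blk, Stm.ev, Ex.eval, Co.Holds, hx, hp, hg, h1, h2, hb, hgn, hL, hnul, hxn,
          hpn, hxp, hgx, hgp, hbx, hbp]
      rw [e]
      refine ⟨⟨?_, ?_, ?_, ?_, ?_⟩, ?_, ?_, ?_, ?_⟩
      · ext <;> simp [nd, *]
      · ext <;> simp [nd, *]
      · intro h9
        first
        | exact absurd hb h9
        | (ext <;> simp [nd, *])
      · intro h9
        first
        | exact absurd hgn h9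
        | (ext <;> simp [nd, *])
      · intro y h3 h4 h5 h6
        have h7 : g ≠ nul → y ≠ g := fun h' => h5.elim id (fun h8 h9 => h' (h9 ▸ h8))
        have h8 : bb ≠ nul → y ≠ bb := fun h' => h6.elim id (fun h8 h9 => h' (h9 ▸ h8))
        ext <;> simp [nd, *]
      · simp
      · intro i hi
        simp only [List.mem_cons, List.not_mem_nil, or_false, not_or] at hi
        simp [hi]
      · intro k hk
        have h3 : k ≠ 60 := by omega
        have h4 : k ≠ 61 := by omega
        have h5 : k ≠ 62 := by omega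
        funext y
        simp [h3, h4, h5]
      · simp

/-- distinctness of the nodes involved in a rotation -/
theorem h11_distinct {nul : ℕ} {key : ℕ → ℕ} {m : ℕ → Nd} {c : List Fr} {d : Bool} {p : ℕ}
    {bp : Bool} {o l : PT} {x : ℕ} {b : Bool} {r : PT}
    (h : Stored nul key m (plug (.node l x false b r) (⟨d, p, false, bp, o⟩ :: c)) nul)
    (hn : (plug (.node l x false b r) (⟨d, p, false, bp, o⟩ :: c)).nodes.Nodup) :
    (m x).pa = p ∧ (m p).pa = par nul c ∧
    (if d then (m p).lc = x ∧ (m x).rc = r.rt nul else (m p).lc ≠ x ∧ (m x).lc = l.rt nul) ∧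
    x ≠ p ∧ par nul c ≠ x ∧ par nul c ≠ p ∧ (if d then r.rt nul else l.rt nul) ≠ x ∧
    (if d then r.rt nul else l.rt nul) ≠ p ∧
    ((if d then r.rt nul else l.rt nul) = par nul c → par nul c = nul) ∧ x ≠ nul ∧ p ≠ nul := by
  have hn1 : (((Fr.mk d p false bp o).plug (.node l x false b r)).nodes ++ nodesC c).Nodup :=
    (nodes_plug _ c).nodup_iff.1 hn
  obtain ⟨hC, hF⟩ := stored_plug.1 (show Stored nul key m
    (plug ((Fr.mk d p false bp o).plug (.node l x false b r)) c) nul from h)
  have hpar := h11_par_mem nul c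
  cases d
  · simp only [Fr.plug, PT.nodes, Bool.false_eq_true, if_false, h11_rt_node] at hn1 hC hF ⊢
    obtain ⟨hp, hmp, ho, hx, hmx, hl, hr⟩ := hF
    have hrt := h11_rt_mem nul l
    simp only [List.cons_append, List.nodup_cons, List.nodup_append, List.mem_append,
      List.mem_cons, not_or] at hn1
    obtain ⟨⟨⟨hpo, hpx, hpl, hpr⟩, hpc⟩, ⟨hno, ⟨⟨hxl, hxr⟩, hnl, hnr, hlr⟩, hox⟩, hnc, hall⟩ := hn1
    have hxc : x ∉ nodesC c := fun h' => hall x (Or.inr (Or.inl rfl)) x h' rfl
    have hoxx : x ∉ o.nodes := fun h' => hox x h' x (Or.inl rfl) rfl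
    refine ⟨by rw [hmx]; rfl, by rw [hmp]; rfl, ⟨?_, by rw [hmx]; rfl⟩, fun h' => hpx h'.symm,
      ?_, ?_, ?_, ?_, ?_, by omega, by omega⟩
    · rw [hmp]; exact h11_rt_ne hx hoxx
    · rcases hpar with h1 | h1
      · omega
      · exact fun h' => hxc (h' ▸ h1)
    · rcases hpar with h1 | h1
      · omega
      · exact fun h' => hpc (h' ▸ h1)
    · exact h11_rt_ne hx hxl
    · exact h11_rt_ne hp hpl
    · intro h'
      rcases hpar with h1 | h1
      · exact h1
      · rcases hrt with h2 | h2
        · rw [← h', h2]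
        · exact absurd rfl (hall _ (Or.inr (Or.inr (Or.inl h2))) _ (h' ▸ h1))
  · simp only [Fr.plug, PT.nodes, if_true, h11_rt_node] at hn1 hC hF ⊢
    obtain ⟨hp, hmp, ⟨hx, hmx, hl, hr⟩, ho⟩ := hF
    have hrt := h11_rt_mem nul r
    simp only [List.cons_append, List.nodup_cons, List.nodup_append, List.mem_append,
      List.mem_cons, not_or] at hn1
    obtain ⟨⟨hpx, ⟨⟨hpl, hpr⟩, hpo⟩, hpc⟩, ⟨⟨⟨hxl, hxr⟩, hoxx⟩, hxc⟩,
      ⟨⟨hnl, hnr, hlr⟩, hno, hox⟩, hnc, hall⟩ := hn1
    refine ⟨by rw [hmx]; rfl, by rw [hmp]; rfl, ⟨by rw [hmp]; rfl, by rw [hmx]; rfl⟩,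
      fun h' => hpx h'.symm, ?_, ?_, ?_, ?_, ?_, by omega, by omega⟩
    · rcases hpar with h1 | h1
      · omega
      · exact fun h' => hxc (h' ▸ h1)
    · rcases hpar with h1 | h1
      · omega
      · exact fun h' => hpc (h' ▸ h1)
    · exact h11_rt_ne hx hxr
    · exact h11_rt_ne hp hpr
    · intro h'
      rcases hpar with h1 | h1
      · exact h1
      · rcases hrt with h2 | h2
        · rw [← h', h2]
        · exact absurd rfl (hall _ (Or.inl (Or.inr h2)) _ (h' ▸ h1))

theorem rot_run {M nul : ℕ} {key : ℕ → ℕ} (hM : 10 ≤ M) (inp : ℕ → ℕ) (s : St) (c : List Fr)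
    (d : Bool) (p : ℕ) (bp : Bool) (o l : PT) (x : ℕ) (b : Bool) (r : PT)
    (h : TInv M nul key s (plug (.node l x false b r) (⟨d, p, false, bp, o⟩ :: c)))
    (hx : s.reg 107 = x) :
    ∃ s', Does M inp rotM s s' 500 ∧
      TInv M nul key s' (plug (if d then .node l x false b (.node r p false bp o)
        else .node (.node o p false bp l) x false b r) c) ∧
      SameX [106, 108, 109, 110] s s' := by
  obtain ⟨q1, q2, q3, q4, q5, q6, q7, q8, q9, q10, q11⟩ := h11_distinct h.stored h.nodup
  have q3' : if d then s.arr LC p = x ∧ s.arr RC x = (if d then r.rt nul else l.rt nul)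
      else s.arr LC p ≠ x ∧ s.arr LC x = (if d then r.rt nul else l.rt nul) := by
    cases d
    · exact q3
    · exact q3
  obtain ⟨hP, h108, hS⟩ := h11_ptr_ev inp s d hx h.hnul q1 q2 q3' q4 q5 q6 q7 q8 q9 q10 q11
  have hD : Does M inp (blk h11ptrL) s ((blk h11ptrL).ev inp s) (blk h11ptrL).mc := by
    apply does_ev
    simp [h11ptrL, blk, Stm.okk, Ex.Ok, Co.Ok]
  have hmc : (blk h11ptrL).mc ≤ 100 := by
    simp [h11ptrL, blk, Stm.mc, Ex.sz, Co.sz]
  generalize (blk h11ptrL).ev inp s = sA at hP h108 hS hD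
  obtain ⟨p1, p2, p3, p4⟩ := h11_rot_pure d h.stored h.nodup h.nulok hP
  have hsz : l.size + r.size + o.size + 2 < M := by
    have h1 := h.size_lt
    have h2 := size_plug ((Fr.mk d p false bp o).plug (.node l x false b r)) c
    have h3 : ((Fr.mk d p false bp o).plug (.node l x false b r)).size =
        l.size + r.size + o.size + 2 := by
      cases d <;> simp [Fr.plug, PT.size] <;> omega
    have h4 : plug (.node l x false b r) (⟨d, p, false, bp, o⟩ :: c) =
      plug ((Fr.mk d p false bp o).plug (.node l x false b r)) c := rfl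
    rw [h4] at h1
    omega
  have hA107 : sA.reg 107 = x := by rw [hS.1 107 (by decide), hx]
  obtain ⟨s1, d1, n1, e1⟩ := pull_run hM inp 108 (by norm_num) sA (by rw [h108]; omega)
  rw [h108] at n1
  have h1107 : s1.reg 107 = x := by rw [e1.1 107 (by decide), hA107]
  obtain ⟨s2, d2, n2, e2⟩ := pull_run hM inp 107 (by norm_num) s1 (by rw [h1107, n1]; omega)
  rw [h1107, n1] at n2
  refine ⟨s2, ?_, ?_, ?_⟩
  · rw [h11_rotM]
    have d3 : Does M inp (blk [pullM 108, pullM 107]) sA s2 (200 + 200) :=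
      Does.seq (p := pullM 108) (q := pullM 107) d1 d2
    have hne : h11ptrL ≠ [] := List.cons_ne_nil _ _
    have hne' : [pullM 108, pullM 107] ≠ [] := List.cons_ne_nil _ _
    have d4 := h11_blk_append h11ptrL [pullM 108, pullM 107] s sA s2 _ _ hne hne' hD d3
    exact Does.mono d4 ((Nat.add_le_add_right hmc (200 + 200)).trans (by norm_num))
  · have hT : (if d then PT.node l x false b (.node r p false bp o)
        else .node (.node o p false bp l) x false b r) = h11Rot d l x b r p bp o := rfl
    rw [hT]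
    refine ⟨by rw [n2]; exact p1, ?_, by rw [n2]; exact p2, ?_, h.lt⟩
    · have a1 := (nodes_plug (h11Rot d l x b r p bp o) c).nodup_iff
      have a2 := (nodes_plug ((Fr.mk d p false bp o).plug (.node l x false b r)) c).nodup_iff
      have a3 := ((h11_rot_nodes d l x b r p bp o).append_right (nodesC c)).nodup_iff
      exact a1.2 (a3.2 (a2.1 h.nodup))
    · rw [e2.1 NUL (by decide), e1.1 NUL (by decide), hS.1 NUL (by decide)]
      exact h.hnul
  · have f0 : SameX [106, 108, 109, 110] s sA := hS.mono (by decide)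
    have f1 : SameX [106, 108, 109, 110] sA s1 := e1.mono (by decide)
    have f2 : SameX [106, 108, 109, 110] s1 s2 := e2.mono (by decide)
    exact (f0.trans f1).trans f2

end SBR
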