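/-
SBR/SplayInit.lean : the operation `init` builds a splay tree which is a path.
-/
import Pool.Agent.SBR.SplayBasic
import Pool.Agent.SBR.SplayPull
import Pool.Agent.SBR.SplayRot

namespace SBR

/-! ### auxiliary facts -/

/-- sequential composition of blocks -/
private theorem init_does_blk {M : ℕ} {inp : ℕ → ℕ} {s' s'' : St} {n n' : ℕ} {l2 : List Prog}
    (h2 : l2 ≠ []) (h' : Does M inp (blk l2) s' s'' n') :
    ∀ (l1 : List Prog) (s : St), l1 ≠ [] → Does M inp (blk l1) s s' n →
      Does M inp (blk (l1 ++ l2)) s s'' (n + n') := by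
  intro l1
  induction l1 generalizing n with
  | nil => intro s h1; exact absurd rfl h1
  | cons p l1 ih =>
    intro s _ h
    rcases l1 with _ | ⟨p', l1⟩
    · obtain ⟨u, l2', rfl⟩ := List.exists_cons_of_ne_nil h2
      exact Does.seq h h'
    · obtain ⟨k, hk, hr⟩ := h
      cases hr with
      | seq _ _ _ t _ k1 k2 h3 h4 =>
        have h5 := ih t.1 (by simp) ⟨k2, le_rfl, h4⟩
        exact Does.mono (Does.seq ⟨k1, le_rfl, h3⟩ h5) (by omega)

/-- the chain of nodes with a given sequence -/
private def chT : List (ℕ × Bool) → PT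
  | [] => .nil
  | u :: l => .node .nil u.1 false u.2 (chT l)

private theorem toL_chT (L : List (ℕ × Bool)) : (chT L).toL = L := by
  induction L with
  | nil => rfl
  | cons u l ih => simp [chT, PT.toL, ih]

private theorem nodes_chT (L : List (ℕ × Bool)) : (chT L).nodes = L.map Prod.fst := by
  induction L with
  | nil => rfl
  | cons u l ih => simp [chT, PT.nodes, ih]

private theorem size_chT (L : List (ℕ × Bool)) : (chT L).size = L.length := by
  induction L with
  | nil => rfl
  | cons u l ih => simp [chT, PT.size, ih]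

private theorem Phi_chT (L : List (ℕ × Bool)) :
    (chT L).Phi = ∑ i ∈ Finset.range L.length, rk (i + 1) := by
  induction L with
  | nil => simp [chT, PT.Phi]
  | cons u l ih =>
    rw [List.length_cons, Finset.sum_range_succ, ← ih]
    simp [chT, PT.Phi, size_chT, PT.size, rk]

/-- the state of the loop in `init` -/
private structure IInv (nul : ℕ) (key : ℕ → ℕ) (L : List (ℕ × Bool)) (st s : St) (i : ℕ) :
    Prop where
  r114 : s.reg 114 = i
  r102 : s.reg 102 = (chT (L.drop i)).rt nul
  rn : s.reg NUL = nul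
  same : SameX [100, 101, 102, 104, 105, 110, 114] st s
  nulok : NulOk nul (nd s)
  stored : Stored nul key (nd s) (chT (L.drop i)) (if i = 0 then nul else st.arr aO (i - 1))

private theorem init_step {M : ℕ} (hM : 10 ≤ M) (inp : ℕ → ℕ) {nul : ℕ} (hnul : nul < M)
    {L : List (ℕ × Bool)} {st s : St} (hnd : (L.map Prod.fst).Nodup)
    (hlen : L.length ≤ nul)
    (hL : ∀ (j : ℕ) (hj : j < L.length), L[j] = (st.arr aO j, decide (st.arr aS j ≠ 0)))
    (hlt : ∀ j < L.length, st.arr aO j < nul) {i : ℕ} (hi : i < L.length)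
    (h : IInv nul (st.arr aK) L st s (i + 1)) :
    ∃ s', Does M inp initStepM s s' 350 ∧ IInv nul (st.arr aK) L st s' i := by
  have hdrop : L.drop i = L[i] :: L.drop (i + 1) := List.drop_eq_getElem_cons hi
  have hLi := hL i hi
  set T := chT (L.drop (i + 1)) with hT
  set O := st.arr aO i with hO
  have hOn : O < nul := hlt i hi
  have harr : ∀ k < 60, s.arr k = st.arr k := h.same.2.1
  have hOT : O ∉ T.nodes := by
    rw [hT, nodes_chT]
    have h1 : ((L.drop i).map Prod.fst).Nodup := by
      rw [List.map_drop]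
      exact hnd.sublist (List.drop_sublist _ _)
    rw [hdrop, List.map_cons, List.nodup_cons, hLi] at h1
    exact h1.1
  have hTs : T.size < M - 1 := by
    rw [hT, size_chT, List.length_drop]
    omega
  -- the first nine statements
  obtain ⟨s9, hd, hr104, hr114, hrn, hsame, hnds⟩ : ∃ s9, Does M inp (blk [
      .set 114 (.sub (.r 114) (.c 1)),
      .set 104 (.ld aO (.r 114)),
      .sto LC (.r 104) (.r NUL),
      .sto RC (.r 104) (.r 102),
      .ite (.eq (.r 114) (.c 0)) (.set 105 (.r NUL)) (.set 105 (.ld aO (.sub (.r 114) (.c 1)))),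
      .sto PA (.r 104) (.r 105),
      .sto FL (.r 104) (.c 0),
      .ite (.eq (.ld aS (.r 114)) (.c 0)) (.sto SG (.r 104) (.c 0)) (.sto SG (.r 104) (.c 1)),
      .sto KY (.r 104) (.ld aK (.r 104))]) s s9 100 ∧
      s9.reg 104 = O ∧ s9.reg 114 = i ∧ s9.reg NUL = nul ∧
      SameX [104, 105, 114] s s9 ∧
      nd s9 = Function.update (nd s) O
        { nd s O with
          lc := nul
          rc := T.rt nul
          pa := if i = 0 then nul else st.arr aO (i - 1)
          fl := 0
          sg := b2n (decide (st.arr aS i ≠ 0))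
          ky := st.arr aK O } := by
    have h0 : s.arr 0 = st.arr 0 := harr 0 (by norm_num)
    have h1 : s.arr 1 = st.arr 1 := harr 1 (by norm_num)
    have h2 : s.arr 2 = st.arr 2 := harr 2 (by norm_num)
    have h114 := h.r114
    have h102 := h.r102
    have hrn := h.rn
    refine ⟨_, Does.mono (does_ev M inp _ s ?_) ?_, ?_, ?_, ?_, ⟨?_, ?_, ?_⟩, ?_⟩
    · obtain rfl | hi0 := eq_or_ne i 0
      · by_cases hS : st.arr 1 0 = 0 <;>
        simp [blk, Stm.okk, Ex.Ok, Co.Ok, Co.Holds, Stm.ev, Ex.eval, h114, h1, hS] <;> omega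
      · by_cases hS : st.arr 1 i = 0 <;>
        simp [blk, Stm.okk, Ex.Ok, Co.Ok, Co.Holds, Stm.ev, Ex.eval, h114, h1, hS, hi0] <;> omega
    · decide
    · obtain rfl | hi0 := eq_or_ne i 0
      · by_cases hS : st.arr 1 0 = 0 <;>
        simp [blk, Co.Holds, Stm.ev, Ex.eval, h114, h0, h1, hS, hO]
      · by_cases hS : st.arr 1 i = 0 <;>
        simp [blk, Co.Holds, Stm.ev, Ex.eval, h114, h0, h1, hS, hO, hi0]
    · obtain rfl | hi0 := eq_or_ne i 0
      · by_cases hS : st.arr 1 0 = 0 <;>
        simp [blk, Co.Holds, Stm.ev, Ex.eval, h114, h0, h1, hS]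
      · by_cases hS : st.arr 1 i = 0 <;>
        simp [blk, Co.Holds, Stm.ev, Ex.eval, h114, h0, h1, hS, hi0]
    · obtain rfl | hi0 := eq_or_ne i 0
      · by_cases hS : st.arr 1 0 = 0 <;>
        simp [blk, Co.Holds, Stm.ev, Ex.eval, h114, h0, h1, hS, hrn]
      · by_cases hS : st.arr 1 i = 0 <;>
        simp [blk, Co.Holds, Stm.ev, Ex.eval, h114, h0, h1, hS, hi0, hrn]
    · intro j hj
      simp only [List.mem_cons, List.not_mem_nil, or_false, not_or] at hj
      obtain rfl | hi0 := eq_or_ne i 0
      · by_cases hS : st.arr 1 0 = 0 <;>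
        simp [blk, Co.Holds, Stm.ev, Ex.eval, h114, h0, h1, hS, hj]
      · by_cases hS : st.arr 1 i = 0 <;>
        simp [blk, Co.Holds, Stm.ev, Ex.eval, h114, h0, h1, hS, hi0, hj]
    · intro k hk
      have e1 : k ≠ 60 := by omega
      have e2 : k ≠ 61 := by omega
      have e3 : k ≠ 62 := by omega
      have e4 : k ≠ 63 := by omega
      have e5 : k ≠ 64 := by omega
      have e6 : k ≠ 66 := by omega
      funext y
      obtain rfl | hi0 := eq_or_ne i 0
      · by_cases hS : st.arr 1 0 = 0 <;>
        simp [blk, Co.Holds, Stm.ev, Ex.eval, h114, h0, h1, hS, e1, e2, e3, e4, e5, e6]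
      · by_cases hS : st.arr 1 i = 0 <;>
        simp [blk, Co.Holds, Stm.ev, Ex.eval, h114, h0, h1, hS, hi0, e1, e2, e3, e4, e5, e6]
    · obtain rfl | hi0 := eq_or_ne i 0
      · by_cases hS : st.arr 1 0 = 0 <;>
        simp [blk, Co.Holds, Stm.ev, Ex.eval, h114, h0, h1, hS]
      · by_cases hS : st.arr 1 i = 0 <;>
        simp [blk, Co.Holds, Stm.ev, Ex.eval, h114, h0, h1, hS, hi0]
    · funext y
      by_cases hy : y = O
      · rw [hy, Function.update_self]
        obtain rfl | hi0 := eq_or_ne i 0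
        · by_cases hS : st.arr 1 0 = 0 <;>
          simp [blk, Co.Holds, Stm.ev, Ex.eval, h114, h0, h1, h2, hS, hO, hT, hrn, h102, nd, b2n]
        · by_cases hS : st.arr 1 i = 0 <;>
          simp [blk, Co.Holds, Stm.ev, Ex.eval, h114, h0, h1, h2, hS, hi0, hO, hT, hrn, h102, nd,
            b2n]
      · rw [Function.update_of_ne hy]
        have hy' : y ≠ st.arr 0 i := hy
        obtain rfl | hi0 := eq_or_ne i 0
        · by_cases hS : st.arr 1 0 = 0 <;>
          simp [blk, Co.Holds, Stm.ev, Ex.eval, h114, h0, h1, h2, hS, hrn, h102, nd, hy']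
        · by_cases hS : st.arr 1 i = 0 <;>
          simp [blk, Co.Holds, Stm.ev, Ex.eval, h114, h0, h1, h2, hS, hi0, hrn, h102, nd, hy']
  have hT0 : Stored nul (st.arr aK) (nd s) T O := by
    have h1 := h.stored
    rw [if_neg (by omega : ¬ i + 1 = 0)] at h1
    exact h1
  have hT9 : Stored nul (st.arr aK) (nd s9) T O := by
    refine hT0.congr fun y hy => ?_
    rw [hnds, Function.update_of_ne]
    rintro rfl
    exact hOT hy
  have hnul9 : NulOk nul (nd s9) := by
    have h1 : nd s9 nul = nd s nul := by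
      rw [hnds, Function.update_of_ne hOn.ne']
    unfold NulOk
    rw [h1]
    exact h.nulok
  have hO9 : nd s9 O = { nd s O with
          lc := nul
          rc := T.rt nul
          pa := if i = 0 then nul else st.arr aO (i - 1)
          fl := 0
          sg := b2n (decide (st.arr aS i ≠ 0))
          ky := st.arr aK O } := by
    rw [hnds, Function.update_self]
  -- the aggregates
  obtain ⟨s10, hd2, hnd10, hsame10⟩ := pull_run hM inp 104 (by norm_num) s9 (by
    rw [hr104, hO9]
    show (nd s9 nul).sz + (nd s9 (T.rt nul)).sz + 1 < M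
    rw [hnul9.1, (hT9.root hnul9).1]
    omega)
  rw [hr104] at hnd10
  have hst : Stored nul (st.arr aK) (nd s10)
      (.node .nil O false (decide (st.arr aS i ≠ 0)) T)
      (if i = 0 then nul else st.arr aO (i - 1)) := by
    rw [hnd10]
    apply stored_pull (l := .nil) (r := T) _ hnul9 hOn
    · trivial
    · exact hT9
    · rw [hO9]; rfl
    · rw [hO9]
    · rw [hO9]
    · rw [hO9]
    · rw [hO9]
    · rw [hO9]
    · simp only [PT.nodes, List.nil_append, List.nodup_cons]
      refine ⟨hOT, ?_⟩
      rw [hT, nodes_chT, List.map_drop]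
      exact hnd.sublist (List.drop_sublist _ _)
  have e1 : s10.reg 104 = O := by
    rw [hsame10.1 104 (by norm_num)]; exact hr104
  refine ⟨s10.setReg 102 (s10.reg 104), ?_, ?_⟩
  · have hd3 : Does M inp (blk [pullM 104, .set 102 (.r 104)]) s9
        (s10.setReg 102 (s10.reg 104)) 202 := by
      refine Does.mono (Does.seq hd2 (does_ev M inp (.set 102 (.r 104)) s10 trivial)) ?_
      decide
    exact Does.mono (init_does_blk (by simp) hd3 _ s (by simp) hd) (by norm_num)
  · refine ⟨?_, ?_, ?_, ?_, ?_, ?_⟩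
    · simp only [reg_setReg]
      rw [if_neg (by norm_num), hsame10.1 114 (by norm_num)]
      exact hr114
    · rw [reg_setReg, if_pos rfl, e1, hdrop, hLi]
      rfl
    · simp only [reg_setReg]
      rw [if_neg (by norm_num), hsame10.1 NUL (by norm_num)]
      exact hrn
    · refine h.same.trans ((hsame.mono ?_).trans ((hsame10.mono ?_).trans ⟨?_, ?_, ?_⟩))
      · simp
      · simp
      · intro j hj
        rw [reg_setReg, if_neg]
        rintro rfl
        simp at hj
      · intro k hk
        rfl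
      · rfl
    · have h1 : nd (s10.setReg 102 (s10.reg 104)) = nd s10 := rfl
      have h2 : nd s10 nul = nd s9 nul := by
        rw [hnd10]
        exact Function.update_of_ne hOn.ne' _ _
      unfold NulOk
      rw [h1, h2]
      exact hnul9
    · have h1 : nd (s10.setReg 102 (s10.reg 104)) = nd s10 := rfl
      rw [h1, hdrop, hLi]
      exact hst

private theorem init_loop {M : ℕ} (hM : 10 ≤ M) (inp : ℕ → ℕ) {nul : ℕ} (hnul : nul < M)
    {L : List (ℕ × Bool)} {st : St} (hnd : (L.map Prod.fst).Nodup)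
    (hlen : L.length ≤ nul)
    (hL : ∀ (j : ℕ) (hj : j < L.length), L[j] = (st.arr aO j, decide (st.arr aS j ≠ 0)))
    (hlt : ∀ j < L.length, st.arr aO j < nul) : ∀ (i : ℕ) (_ : i ≤ L.length) (s : St),
    IInv nul (st.arr aK) L st s i →
    ∃ s', Does M inp (.whl (.lt (.c 0) (.r 114)) initStepM) s s' (360 * i + 4) ∧
      IInv nul (st.arr aK) L st s' 0 := by
  intro i
  induction i with
  | zero =>
    intro _ s h
    refine ⟨s, ⟨_, ?_, Run.whl_f _ _ (s, ()) ?_ ?_⟩, h⟩
    · simp [Co.sz, Ex.sz]
    · exact ⟨by show 0 < M; omega, trivial⟩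
    · simp [Co.Holds, Ex.eval, h.r114]
  | succ i ih =>
    intro hi s h
    obtain ⟨s', ⟨k, hk, hr⟩, h'⟩ := init_step hM inp hnul hnd hlen hL hlt (by omega) h
    obtain ⟨s'', ⟨k', hk', hr'⟩, h''⟩ := ih (by omega) s' h'
    refine ⟨s'', ⟨_, ?_, Run.whl_t _ _ (s, ()) (s', ()) (s'', ()) k k' ?_ ?_ hr hr'⟩, h''⟩
    · simp only [Co.sz, Ex.sz]
      omega
    · exact ⟨by show 0 < M; omega, trivial⟩
    · simp [Co.Holds, Ex.eval, h.r114]

/-! ### S10 -/

theorem sim_init (n z : ℕ) (h : Op.wf XV (.init n z) = true) : OpSim (.init n z) := by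
  intro M inp lam s q s2 q2 k hM hlam hop st T hR
  simp only [Op.wf, Bool.and_eq_true, decide_eq_true_eq] at h
  obtain ⟨hn, hz⟩ := h
  have hn : n < 100 := hn
  have hz : z < 100 := hz
  cases hop with
  | init _ _ _ _ hpos hlam' hlt hinj =>
  have hrz : st.reg z = s.reg z := hR.reg z hz
  have hrn : st.reg n = s.reg n := hR.reg n hn
  have ha0 : st.arr aO = s.arr aO := hR.arr aO (by norm_num)
  have ha1 : st.arr aS = s.arr aS := hR.arr aS (by norm_num)
  have ha2 : st.arr aK = s.arr aK := hR.arr aK (by norm_num)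
  have hnulM : s.reg z < M := by rw [← hrz]; exact hR.bdd.1 z
  set nul := s.reg z with hnul
  set N := s.reg n with hN
  set L : List (ℕ × Bool) :=
    (List.range N).map (fun i => (s.arr aO i, decide (s.arr aS i ≠ 0))) with hL
  have hLlen : L.length = N := by simp [hL]
  have hLnd : (L.map Prod.fst).Nodup := by
    rw [hL, List.map_map]
    refine List.Nodup.map_on ?_ List.nodup_range
    intro x hx y hy hxy
    exact hinj x (List.mem_range.1 hx) y (List.mem_range.1 hy) hxy
  have hLlt : ∀ x ∈ L.map Prod.fst, x < nul := by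
    intro x hx
    rw [hL, List.map_map, List.mem_map] at hx
    obtain ⟨i, hi, rfl⟩ := hx
    exact hlt i (List.mem_range.1 hi)
  have hNnul : L.length ≤ nul := by
    have h1 : (L.map Prod.fst).toFinset ⊆ Finset.range nul := by
      intro x hx
      rw [List.mem_toFinset] at hx
      exact Finset.mem_range.2 (hLlt x hx)
    have h2 := Finset.card_le_card h1
    rw [List.toFinset_card_of_nodup hLnd, Finset.card_range, List.length_map] at h2
    exact h2
  have hLj : ∀ (j : ℕ) (hj : j < L.length), L[j] = (st.arr aO j, decide (st.arr aS j ≠ 0)) := by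
    intro j hj
    simp [hL, ha0, ha1]
  have hlt' : ∀ j < L.length, st.arr aO j < nul := by
    intro j hj
    rw [ha0]
    exact hlt j (by omega)
  -- the first statements
  obtain ⟨s7, hd7, hI7⟩ : ∃ s7, Does M inp (blk [
      .set NUL (.r z),
      .sto SZ (.r NUL) (.c 0), .sto MX (.r NUL) (.c 0), .sto MP (.r NUL) (.c 0),
      .sto MN (.r NUL) (.c 0),
      .set 102 (.r NUL),
      .set 114 (.r n)]) st s7 100 ∧ IInv nul (st.arr aK) L st s7 N := by
    have hn1 : n ≠ 100 := by omega
    have hn2 : n ≠ 102 := by omega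
    refine ⟨_, Does.mono (does_ev M inp _ st ?_) ?_, ⟨?_, ?_, ?_, ⟨?_, ?_, ?_⟩, ?_, ?_⟩⟩
    · simp [blk, Stm.okk, Ex.Ok]
      omega
    · simp only [blk, Stm.mc, Ex.sz]
      norm_num
    · simp [blk, Stm.ev, Ex.eval, hn1, hn2, hrn]
    · rw [List.drop_of_length_le hLlen.le]
      simp [blk, Stm.ev, Ex.eval, hrz, chT, PT.rt]
    · simp [blk, Stm.ev, Ex.eval, hrz]
    · intro j hj
      simp only [List.mem_cons, List.not_mem_nil, or_false, not_or] at hj
      simp [blk, Stm.ev, Ex.eval, hj]
    · intro k hk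
      have e1 : k ≠ 65 := by omega
      have e2 : k ≠ 67 := by omega
      have e3 : k ≠ 68 := by omega
      have e4 : k ≠ 69 := by omega
      funext y
      simp [blk, Stm.ev, Ex.eval, e1, e2, e3, e4]
    · simp [blk, Stm.ev, Ex.eval]
    · simp [blk, Stm.ev, Ex.eval, hrz, NulOk, nd]
    · rw [List.drop_of_length_le hLlen.le]
      trivial
  obtain ⟨s8, hd8, hI8⟩ := init_loop hM inp hnulM hLnd hNnul hLj hlt' N hLlen.ge s7 hI7
  have hd9 : Does M inp (blk [.whl (.lt (.c 0) (.r 114)) initStepM, .set ROOT (.r 102)]) s7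
      (s8.setReg ROOT (s8.reg 102)) (360 * N + 6) := by
    refine Does.mono (Does.seq hd8 (does_ev M inp (.set ROOT (.r 102)) s8 trivial)) ?_
    simp [Stm.mc, Ex.sz]
  obtain ⟨k2, hk2, hrun⟩ := init_does_blk (by simp) hd9 _ st (by simp) hd7
  have hst8 := hI8.stored
  rw [if_pos rfl, List.drop_zero] at hst8
  refine ⟨s8.setReg ROOT (s8.reg 102), chT L, k2, hrun, ?_, ?_⟩
  · have hnul8 : (s8.setReg ROOT (s8.reg 102)).reg NUL = nul := by
      rw [reg_setReg, if_neg (by norm_num)]
      exact hI8.rn
    refine ⟨?_, ?_, ?_, ?_, ?_, ?_, ?_, ?_⟩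
    · intro i hi
      have hi' : i ≠ ROOT := by
        show i ≠ 101
        omega
      rw [reg_setReg, if_neg hi', hI8.same.1 i ?_]
      · exact hR.reg i hi
      · simp only [List.mem_cons, List.not_mem_nil, or_false, not_or]
        omega
    · intro k hk
      rw [arr_setReg, hI8.same.2.1 k hk]
      exact hR.arr k hk
    · rw [out_setReg, hI8.same.2.2]
      exact hR.out
    · exact toL_chT L
    · rw [hnul8]
      refine ⟨?_, ?_, hI8.nulok, hnul8, hnulM⟩
      · rw [← ha2]
        exact hst8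
      · rw [nodes_chT]
        exact hLnd
    · rw [hnul8, reg_setReg, if_pos rfl]
      exact hI8.r102
    · rw [size_chT, hLlen]
      exact hlam'
    · exact Does.bdd ⟨k2, le_rfl, hrun⟩ hR.bdd
  · have hphi : (chT L).Phi ≤ N * (lam : ℝ) := by
      rw [Phi_chT, hLlen]
      exact rk_path_le_lam hlam'
    have h0 := T.Phi_nonneg
    have hk3 : (k2 : ℝ) ≤ 360 * N + 106 := by
      have : k2 ≤ 360 * N + 106 := by omega
      exact_mod_cast this
    have hl1 : (1 : ℝ) ≤ lam := by exact_mod_cast hlam
    have hN0 : (0 : ℝ) ≤ N := by positivity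
    have hmul : (N : ℝ) ≤ N * lam := by nlinarith
    push_cast
    nlinarith

end SBR
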