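/-
SBR/SplayPush.lean : flipping a stored subtree and pushing down pending flips.
-/
import Pool.Agent.SBR.SplayBasic
import Pool.Agent.SBR.SplayPull

namespace SBR

private theorem flipN_other {nul x y : ℕ} {m : ℕ → Nd} (h : y ≠ x) : flipN nul x m y = m y := by
  unfold flipN
  split_ifs
  · rfl
  · exact Function.update_of_ne h _ _

private theorem flipN_out {nul y : ℕ} {m : ℕ → Nd} {t : PT} (h : y ∉ t.nodes) :
    flipN nul (t.rt nul) m y = m y := by
  cases t with
  | nil =>
    show flipN nul nul m y = m y
    unfold flipN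
    rw [if_pos rfl]
  | node l x f s r =>
    apply flipN_other
    rintro rfl
    exact h (by simp [PT.nodes])

private theorem rt_not_mem {nul : ℕ} {key : ℕ → ℕ} {m : ℕ → Nd} {t u : PT} {p : ℕ}
    (hu : Stored nul key m u p) (hd : ∀ y ∈ u.nodes, y ∉ t.nodes) :
    ∀ y ∈ u.nodes, y ≠ t.rt nul := by
  intro y hy hyt
  cases t with
  | nil =>
    have := hu.lt y hy
    simp only [PT.rt] at hyt
    omega
  | node l x f s r =>
    exact hd y hy (by rw [hyt]; simp [PT.rt, PT.nodes])

/-- `flipN` flips a stored tree -/
theorem stored_flip {nul : ℕ} {key : ℕ → ℕ} {m : ℕ → Nd} {t : PT} {p : ℕ}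
    (h : Stored nul key m t p) (hn : t.nodes.Nodup) :
    Stored nul key (flipN nul (t.rt nul) m) t.flip p := by
  cases t with
  | nil => trivial
  | node l x f s r =>
    obtain ⟨hx, hm, hl, hr⟩ := h
    have hnd : x ∉ l.nodes ∧ x ∉ r.nodes := by
      simp only [PT.nodes, List.nodup_cons, List.mem_append, not_or] at hn
      exact hn.1
    have hxn : x ≠ nul := by omega
    refine ⟨hx, ?_, ?_, ?_⟩
    · show flipN nul x m x = _
      unfold flipN
      rw [if_neg hxn, Function.update_self, hm]
      have hL : (PT.node r x (!f) (!s) l).toL = rv (PT.node l x f s r).toL :=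
        PT.toL_flip (.node l x f s r)
      simp only [mkNd, hL, length_rv, mxk_rv, mnk_rv, Bool.not_true, Bool.not_false]
      cases f <;> cases s <;> simp [b2n]
    · exact hr.congr fun y hy => flipN_other (fun e => hnd.2 (by rw [← show y = x from e]; exact hy))
    · exact hl.congr fun y hy => flipN_other (fun e => hnd.1 (by rw [← show y = x from e]; exact hy))

private theorem flags_rt {nul : ℕ} {key : ℕ → ℕ} {m : ℕ → Nd} {t : PT} {p : ℕ}
    (h : Stored nul key m t p) (hne : t.rt nul ≠ nul) :
    (m (t.rt nul)).fl ≤ 1 ∧ (m (t.rt nul)).sg ≤ 1 := by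
  cases t with
  | nil => exact absurd rfl hne
  | node l x f s r =>
    obtain ⟨hx, hm, _, _⟩ := h
    simp only [PT.rt]
    rw [hm]
    cases f <;> cases s <;> simp [mkNd, b2n]

private theorem nd_setReg (s : St) (i v : ℕ) : nd (s.setReg i v) = nd s := rfl

private theorem nd_setFL (s : St) (x v : ℕ) :
    nd (s.setArr FL x v) = Function.update (nd s) x { nd s x with fl := v } := by
  funext y
  by_cases hy : y = x
  · subst hy
    rw [Function.update_self]
    simp [nd]
  · rw [Function.update_of_ne hy]
    simp [nd, hy]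

private theorem sameX_setReg (s : St) (i v : ℕ) : SameX [i] s (s.setReg i v) := by
  refine ⟨fun j hj => ?_, fun _ _ => rfl, rfl⟩
  simp only [List.mem_singleton] at hj
  simp [hj]

private theorem sameX_setArr (l : List ℕ) (s : St) (k a v : ℕ) (hk : 60 ≤ k) :
    SameX l s (s.setArr k a v) := by
  refine ⟨fun j _ => rfl, fun k' hk' => ?_, rfl⟩
  funext a'
  have : k' ≠ k := by omega
  simp [this]

theorem push_run {M nul : ℕ} {key : ℕ → ℕ} (hM : 10 ≤ M) (inp : ℕ → ℕ) (i : ℕ) (hi : i < 110)
    (s : St) (c : List Fr) (l : PT) (x : ℕ) (f b : Bool) (r : PT)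
    (h : TInv M nul key s (plug (.node l x f b r) c)) (hx : s.reg i = x) :
    ∃ s', Does M inp (pushM i) s s' 150 ∧
      TInv M nul key s' (plug (.node (l.cflip f) x false b (r.cflip f)) c) ∧
      SameX [111, 112] s s' := by
  obtain ⟨hsc, hst⟩ := stored_plug.1 h.stored
  have hst0 := hst
  obtain ⟨hxn, hm, hl, hr⟩ := hst
  have hfl : s.arr FL x = b2n f := by
    have := congrArg Nd.fl hm
    simpa [nd, mkNd] using this
  have hlc : s.arr LC x = l.rt nul := by
    have := congrArg Nd.lc hm
    simpa [nd, mkNd] using this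
  have hrc : s.arr RC x = r.rt nul := by
    have := congrArg Nd.rc hm
    simpa [nd, mkNd] using this
  have hok : (Co.eq (.ld FL (.r i)) (.c 0)).Ok M inp s := by
    refine ⟨trivial, ?_⟩
    show 0 < M
    omega
  cases f with
  | false =>
    have hc : (Co.eq (.ld FL (.r i)) (.c 0)).Holds inp s := by
      show s.arr FL (s.reg i) = 0
      rw [hx, hfl]
      rfl
    refine ⟨s, ?_, h, SameX.refl _ _⟩
    refine ⟨_, ?_, Run.ite_t _ _ _ _ _ _ hok hc (Run.skip _)⟩
    simp [Co.sz, Ex.sz]
  | true =>
    have hc : ¬ (Co.eq (.ld FL (.r i)) (.c 0)).Holds inp s := by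
      show ¬ s.arr FL (s.reg i) = 0
      rw [hx, hfl]
      simp [b2n]
    -- nodes
    have hnodes : (PT.node l x true b r).nodes.Nodup := by
      have h1 := (nodes_plug (.node l x true b r) c).nodup_iff.1 h.nodup
      exact (List.nodup_append.1 h1).1
    have hnd : (x ∉ l.nodes ∧ x ∉ r.nodes) ∧ (l.nodes.Nodup ∧ r.nodes.Nodup ∧
        ∀ y ∈ l.nodes, y ∉ r.nodes) := by
      simp only [PT.nodes, List.nodup_cons, List.mem_append, not_or, List.nodup_append] at hnodes
      refine ⟨hnodes.1, hnodes.2.1, hnodes.2.2.1, fun y hy hy' => hnodes.2.2.2 y hy y hy' rfl⟩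
    have hxl : x ≠ l.rt nul := by
      intro e
      cases l with
      | nil => simp only [PT.rt] at e; omega
      | node l1 y f1 s1 r1 => exact hnd.1.1 (by rw [e]; simp [PT.rt, PT.nodes])
    have hxr : x ≠ r.rt nul := by
      intro e
      cases r with
      | nil => simp only [PT.rt] at e; omega
      | node l1 y f1 s1 r1 => exact hnd.1.2 (by rw [e]; simp [PT.rt, PT.nodes])
    have hlr := rt_not_mem hl hnd.2.2.2
    have hrl := rt_not_mem hr (t := l) (fun y hy hy' => hnd.2.2.2 y hy' hy)
    have hi1 : i ≠ 112 := by omega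
    have hi2 : i ≠ 111 := by omega
    -- first half
    set s1 := s.setReg 112 (l.rt nul) with hs1
    have hs1n : s1.reg NUL = nul := by
      rw [hs1]
      simp [h.hnul]
    obtain ⟨s2, hd2, hn2, hx2⟩ := flip_run hM inp 112 (Or.inr rfl) s1 (by
      intro hne
      have e : s1.reg 112 = l.rt nul := by simp [hs1]
      rw [e] at hne ⊢
      rw [hs1n] at hne
      exact flags_rt hl hne)
    have hn2' : nd s2 = flipN nul (l.rt nul) (nd s) := by
      rw [hn2, hs1n]
      simp [hs1, nd_setReg]
    have hs2n : s2.reg NUL = nul := by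
      rw [hx2.1 NUL (by decide), hs1n]
    have hs2i : s2.reg i = x := by
      rw [hx2.1 i (by simpa using hi2), hs1]
      simp [hi1, hx]
    have hrc2 : s2.arr RC x = r.rt nul := by
      have h1 : nd s2 x = nd s x := by
        rw [hn2']
        exact flipN_other hxl
      have h2 := congrArg Nd.rc h1
      simp only [nd] at h2
      rw [h2, hrc]
    -- second half
    set s3 := s2.setReg 112 (r.rt nul) with hs3
    have hs3n : s3.reg NUL = nul := by
      rw [hs3]
      simp [hs2n]
    have hr2 : Stored nul key (nd s2) r x := by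
      rw [hn2']
      exact hr.congr fun y hy => flipN_other (hrl y hy)
    obtain ⟨s4, hd4, hn4, hx4⟩ := flip_run hM inp 112 (Or.inr rfl) s3 (by
      intro hne
      have e : s3.reg 112 = r.rt nul := by simp [hs3]
      rw [e] at hne ⊢
      rw [hs3n] at hne
      exact flags_rt hr2 hne)
    have hn4' : nd s4 = flipN nul (r.rt nul) (nd s2) := by
      rw [hn4, hs3n]
      simp [hs3, nd_setReg]
    have hs4n : s4.reg NUL = nul := by
      rw [hx4.1 NUL (by decide), hs3n]
    have hs4i : s4.reg i = x := by
      rw [hx4.1 i (by simpa using hi2), hs3]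
      simp [hi1, hs2i]
    set s5 := s4.setArr FL x 0 with hs5
    have hn5 : nd s5 = Function.update (nd s4) x { nd s4 x with fl := 0 } := nd_setFL s4 x 0
    refine ⟨s5, ?_, ?_, ?_⟩
    · -- the run
      obtain ⟨k2, hk2, hr2'⟩ := hd2
      obtain ⟨k4, hk4, hr4'⟩ := hd4
      have e1 : Run M inp noPrim (.set 112 (.ld LC (.r i))) (s, ()) (s1, ()) 3 := by
        have := Run.set (M := M) (inp := inp) (ps := noPrim) s () 112 (.ld LC (.r i)) trivial
        simp only [Ex.eval, hx, hlc, Ex.sz] at this
        exact this
      have e3 : Run M inp noPrim (.set 112 (.ld RC (.r i))) (s2, ()) (s3, ()) 3 := by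
        have := Run.set (M := M) (inp := inp) (ps := noPrim) s2 () 112 (.ld RC (.r i)) trivial
        simp only [Ex.eval, hs2i, hrc2, Ex.sz] at this
        exact this
      have e5 : Run M inp noPrim (.sto FL (.r i) (.c 0)) (s4, ()) (s5, ()) 3 := by
        have := Run.sto (M := M) (inp := inp) (ps := noPrim) s4 () FL (.r i) (.c 0) trivial
          (show 0 < M by omega)
        simp only [Ex.eval, hs4i, Ex.sz] at this
        exact this
      refine ⟨_, ?_, Run.ite_f _ _ _ _ _ _ hok hc
        (Run.seq _ _ _ _ _ _ _ e1 (Run.seq _ _ _ _ _ _ _ hr2' (Run.seq _ _ _ _ _ _ _ e3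
          (Run.seq _ _ _ _ _ _ _ hr4' e5))))⟩
      simp only [Co.sz, Ex.sz]
      omega
    · -- the invariant
      have hmx : nd s4 x = nd s x := by
        rw [hn4', flipN_other hxr, hn2', flipN_other hxl]
      have hl4 : Stored nul key (nd s4) l.flip x := by
        have h1 := stored_flip hl hnd.2.1
        rw [← hn2'] at h1
        rw [hn4']
        refine h1.congr fun y hy => flipN_other (hlr y ?_)
        exact (PT.nodes_flip l).subset hy
      have hr4 : Stored nul key (nd s4) r.flip x := by
        have h1 := stored_flip hr2 hnd.2.2.1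
        rw [← hn4'] at h1
        exact h1
      have htoL : (PT.node l.flip x false b r.flip).toL = (PT.node l x true b r).toL := by
        simp [PT.toL]
      refine TInv.focus h ?_ ?_ ?_ ?_ ?_ ?_
      · intro y hy
        have hyx : y ≠ x := by
          rintro rfl
          exact hy (by simp [PT.nodes])
        have hyl : y ∉ l.nodes := fun h' => hy (by simp [PT.nodes, h'])
        have hyr : y ∉ r.nodes := fun h' => hy (by simp [PT.nodes, h'])
        rw [hn5, Function.update_of_ne hyx, hn4', flipN_out hyr, hn2', flipN_out hyl]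
      · rw [hs5]
        simp only [reg_setArr]
        rw [hs4n, h.hnul]
      · refine ⟨hxn, ?_, ?_, ?_⟩
        · rw [hn5, Function.update_self, hmx, hm]
          simp only [mkNd, PT.cflip, if_true, PT.rt_flip, htoL]
          rfl
        · rw [hn5]
          refine hl4.congr fun y hy => Function.update_of_ne ?_ _ _
          rintro rfl
          exact hnd.1.1 ((PT.nodes_flip l).subset hy)
        · rw [hn5]
          refine hr4.congr fun y hy => Function.update_of_ne ?_ _ _
          rintro rfl
          exact hnd.1.2 ((PT.nodes_flip r).subset hy)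
      · exact htoL
      · rfl
      · show (x :: (l.flip.nodes ++ r.flip.nodes)).Perm (x :: (l.nodes ++ r.nodes))
        exact List.Perm.cons _ ((PT.nodes_flip l).append (PT.nodes_flip r))
    · -- what is unchanged
      have hA : SameX [111, 112] s s1 := (sameX_setReg s 112 _).mono (by simp)
      have hB : SameX [111, 112] s1 s2 := hx2.mono (by simp)
      have hC : SameX [111, 112] s2 s3 := (sameX_setReg s2 112 _).mono (by simp)
      have hD : SameX [111, 112] s3 s4 := hx4.mono (by simp)
      have hE : SameX [111, 112] s4 s5 := sameX_setArr _ s4 FL x 0 (by norm_num)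
      exact hA.trans (hB.trans (hC.trans (hD.trans hE)))

end SBR
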