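/-
SBR/SplayStep.lean : one splay step (package S4).
-/
import Pool.Agent.SBR.SplayBasic
import Pool.Agent.SBR.SplayPush
import Pool.Agent.SBR.SplayRot
import Pool.Agent.SBR.SplayC

set_option autoImplicit false

namespace SBR

/-! ### pure trees -/

/-- same sequence, size, potential -/
private def StepEqv (t t' : PT) : Prop := t.toL = t'.toL ∧ t.size = t'.size ∧ t.Phi = t'.Phi

private theorem StepEqv.trans {a b c : PT} (h : StepEqv a b) (h' : StepEqv b c) : StepEqv a c :=
  ⟨h.1.trans h'.1, h.2.1.trans h'.2.1, h.2.2.trans h'.2.2⟩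

private theorem StepEqv.plug {a b : PT} (h : StepEqv a b) (c : List Fr) :
    StepEqv (plug a c) (plug b c) := by
  refine ⟨toL_plug_congr h.1 c, ?_, ?_⟩
  · rw [size_plug, size_plug, h.2.1]
  · have := Phi_plug_sub h.2.1 c
    rw [h.2.2, sub_self, sub_eq_zero] at this
    exact this

private theorem step_Phi_node (l : PT) (x : ℕ) (f s : Bool) (r : PT) :
    (PT.node l x f s r).Phi = l.Phi + r.Phi + rk (l.size + r.size + 1) := rfl

private theorem step_size_node (l : PT) (x : ℕ) (f s : Bool) (r : PT) :
    (PT.node l x f s r).size = l.size + r.size + 1 := rfl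

private theorem step_toL_node (l : PT) (x : ℕ) (s : Bool) (r : PT) :
    (PT.node l x false s r).toL = l.toL ++ (x, s) :: r.toL := by
  simp [PT.toL]

private theorem eqv_push (l : PT) (x : ℕ) (f s : Bool) (r : PT) :
    StepEqv (.node (l.cflip f) x false s (r.cflip f)) (.node l x f s r) := by
  refine ⟨by simp [PT.toL], by simp [PT.size], by simp [PT.Phi]⟩

private theorem eqv_push_frame (d : Bool) (y : ℕ) (f s : Bool) (o t : PT) :
    StepEqv (Fr.plug ⟨d, y, false, s, o.cflip f⟩ (t.cflip f)) (Fr.plug ⟨d, y, f, s, o⟩ t) := by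
  cases d
  · exact eqv_push o y f s t
  · exact eqv_push t y f s o

/-- conditional flip of a context step -/
private def stepCfl (f : Bool) (fr : Fr) : Fr :=
  if f then ⟨!fr.d, fr.y, !fr.f, !fr.s, fr.o⟩ else fr

private theorem stepCfl_y (f : Bool) (fr : Fr) : (stepCfl f fr).y = fr.y := by
  cases f <;> rfl

private theorem cflip_frplug (f : Bool) (fr : Fr) (t : PT) :
    (fr.plug t).cflip f = (stepCfl f fr).plug t := by
  obtain ⟨d, y, g, s, o⟩ := fr
  cases f
  · rfl
  · cases d <;> rfl

private theorem cflip_node (g : Bool) (l : PT) (x : ℕ) (f s : Bool) (r : PT) :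
    ∃ l' f' s' r', (PT.node l x f s r).cflip g = .node l' x f' s' r' := by
  cases g
  · exact ⟨l, f, s, r, rfl⟩
  · exact ⟨r, !f, !s, l, rfl⟩

/-! ### reading -/

private theorem step_rec {M nul : ℕ} {key : ℕ → ℕ} {s : St} {l : PT} {x : ℕ} {f b : Bool}
    {r : PT} {c : List Fr} (h : TInv M nul key s (plug (.node l x f b r) c)) :
    x < nul ∧ s.arr PA x = par nul c ∧ s.arr LC x = l.rt nul := by
  obtain ⟨h1, h2, _⟩ := (stored_plug.mp h.stored).2
  exact ⟨h1, congrArg Nd.pa h2, congrArg Nd.lc h2⟩

private theorem step_recf {M nul : ℕ} {key : ℕ → ℕ} {s : St} {t : PT} {fr : Fr}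
    {c : List Fr} (h : TInv M nul key s (plug t (fr :: c))) :
    fr.y < nul ∧ s.arr PA fr.y = par nul c ∧
      s.arr LC fr.y = if fr.d then t.rt nul else fr.o.rt nul := by
  obtain ⟨d, y, f, b, o⟩ := fr
  cases d
  · exact step_rec (l := o) (x := y) (f := f) (b := b) (r := t) h
  · exact step_rec (l := t) (x := y) (f := f) (b := b) (r := o) h

/-! ### running -/

private theorem step_set {M : ℕ} {inp : ℕ → ℕ} {s : St} (i : ℕ) (e : Ex) (h : e.Ok M inp s) :
    Does M inp (.set i e) s (s.setReg i (e.eval inp s)) (e.sz + 1) :=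
  ⟨_, le_rfl, Run.set s () i e h⟩

private theorem step_sameX_set (s : St) (i v : ℕ) : SameX [i] s (s.setReg i v) := by
  refine ⟨fun j hj => ?_, fun k _ => rfl, rfl⟩
  rw [reg_setReg, if_neg]
  intro he
  exact hj (by simp [he])

private theorem step_tinv_set {M nul : ℕ} {key : ℕ → ℕ} {s : St} {T : PT}
    (h : TInv M nul key s T) (i v : ℕ) (hi : i ≠ NUL) : TInv M nul key (s.setReg i v) T :=
  h.of_nd rfl (by rw [reg_setReg, if_neg (Ne.symm hi)])

private theorem push_frame {M nul : ℕ} {key : ℕ → ℕ} (hM : 10 ≤ M) (inp : ℕ → ℕ) (i : ℕ)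
    (hi : i < 110) (s : St) (c : List Fr) (t : PT) (d : Bool) (y : ℕ) (f b : Bool) (o : PT)
    (h : TInv M nul key s (plug t (⟨d, y, f, b, o⟩ :: c))) (hx : s.reg i = y) :
    ∃ s', Does M inp (pushM i) s s' 150 ∧
      TInv M nul key s' (plug (t.cflip f) (⟨d, y, false, b, o.cflip f⟩ :: c)) ∧
      SameX [111, 112] s s' := by
  cases d
  · exact push_run hM inp i hi s c o y f b t h hx
  · exact push_run hM inp i hi s c t y f b o h hx

/-- the two rotations: the focus is a node `x`, first `y1` then `x` is rotated up -/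
private theorem two_rot {M nul : ℕ} {key : ℕ → ℕ} (hM : 10 ≤ M) (inp : ℕ → ℕ) (s : St)
    (c : List Fr) (l : PT) (x : ℕ) (b : Bool) (r : PT) (d1 : Bool) (p : ℕ) (bp : Bool) (o1 : PT)
    (d2 : Bool) (g : ℕ) (bg : Bool) (o2 : PT)
    (h : TInv M nul key s (plug (.node l x false b r)
      (⟨d1, p, false, bp, o1⟩ :: ⟨d2, g, false, bg, o2⟩ :: c)))
    (h102 : s.reg 102 = x) (h104 : s.reg 104 = p) (h105 : s.reg 105 = g) :
    ∃ s' l' b' r', Does M inp (.seq (.ite (.eq (.ld LC (.r 105)) (.r 104))
        (.ite (.eq (.ld LC (.r 104)) (.r 102)) (.set 107 (.r 104)) (.set 107 (.r 102)))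
        (.ite (.eq (.ld LC (.r 104)) (.r 102)) (.set 107 (.r 102)) (.set 107 (.r 104))))
        (.seq rotM (.seq (.set 107 (.r 102)) rotM))) s s' 1030 ∧
      TInv M nul key s' (plug (.node l' x false b' r') c) ∧
      (PT.node l' x false b' r').toL = (plug (.node l x false b r)
        [⟨d1, p, false, bp, o1⟩, ⟨d2, g, false, bg, o2⟩]).toL ∧
      (PT.node l' x false b' r').size = (plug (.node l x false b r)
        [⟨d1, p, false, bp, o1⟩, ⟨d2, g, false, bg, o2⟩]).size ∧
      (PT.node l' x false b' r').Phi - (plug (.node l x false b r)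
        [⟨d1, p, false, bp, o1⟩, ⟨d2, g, false, bg, o2⟩]).Phi ≤
        3 * (rk (PT.node l' x false b' r').size - rk (PT.node l x false b r).size) - 2 ∧
      SameX [106, 107, 108, 109, 110] s s' := by
  have hnd := h.nodup
  have hperm : (plug (PT.node l x false b r)
      (⟨d1, p, false, bp, o1⟩ :: ⟨d2, g, false, bg, o2⟩ :: c)).nodes.Perm
      ((PT.node l x false b r).nodes ++ nodesC
        (⟨d1, p, false, bp, o1⟩ :: ⟨d2, g, false, bg, o2⟩ :: c)) := nodes_plug _ _
  have hnd2 := hperm.nodup_iff.mp hnd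
  simp only [PT.nodes, nodesC, List.cons_append, List.append_assoc] at hnd2
  -- distinctness
  obtain ⟨hxl, hpa1, hlc1⟩ := step_rec h
  obtain ⟨hpl, hpa2, hlc2⟩ := step_recf h
  have h' : TInv M nul key s (plug (Fr.plug ⟨d1, p, false, bp, o1⟩ (.node l x false b r))
    (⟨d2, g, false, bg, o2⟩ :: c)) := h
  obtain ⟨hgl, hpa3, hlc3⟩ := step_recf h'
  simp only at hpl hpa2 hlc2 hgl hpa3 hlc3
  have hrt : (Fr.plug ⟨d1, p, false, bp, o1⟩ (PT.node l x false b r)).rt nul = p := by
    cases d1 <;> rfl
  rw [hrt] at hlc3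
  have hrtx : (PT.node l x false b r).rt nul = x := rfl
  rw [hrtx] at hlc2
  have ho1 : o1.rt nul ≠ x := by
    by_cases ho : o1 = .nil
    · subst ho
      exact (ne_of_gt hxl : nul ≠ x)
    · have hm := PT.rt_mem nul o1 ho
      intro he
      rw [he] at hm
      have := List.nodup_cons.mp hnd2
      exact this.1 (by simp [hm])
  have ho2 : o2.rt nul ≠ p := by
    by_cases ho : o2 = .nil
    · subst ho
      exact (ne_of_gt hpl : nul ≠ p)
    · have hm := PT.rt_mem nul o2 ho
      intro he
      rw [he] at hm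
      have h1 : (p :: (o1.nodes ++ g :: (o2.nodes ++ nodesC c))).Nodup := by
        refine hnd2.sublist ?_
        refine List.Sublist.cons _ ?_
        rw [← List.append_assoc]
        exact List.sublist_append_right _ _
      exact (List.nodup_cons.mp h1).1 (by simp [hm])
  -- the choice
  have hC1 : s.arr LC (s.reg 105) = s.reg 104 ↔ d2 = true := by
    rw [h105, h104, hlc3]
    cases d2 <;> simp [ho2]
  have hC2 : s.arr LC (s.reg 104) = s.reg 102 ↔ d1 = true := by
    rw [h104, h102, hlc2]
    cases d1 <;> simp [ho1]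
  obtain ⟨s1, hs1, hs1r, hs1T, hs1X⟩ : ∃ s1, Does M inp (.ite (.eq (.ld LC (.r 105)) (.r 104))
        (.ite (.eq (.ld LC (.r 104)) (.r 102)) (.set 107 (.r 104)) (.set 107 (.r 102)))
        (.ite (.eq (.ld LC (.r 104)) (.r 102)) (.set 107 (.r 102)) (.set 107 (.r 104)))) s s1
        (5 + (5 + 2)) ∧ s1.reg 107 = (if d1 = d2 then p else x) ∧
      TInv M nul key s1 (plug (.node l x false b r)
      (⟨d1, p, false, bp, o1⟩ :: ⟨d2, g, false, bg, o2⟩ :: c)) ∧ SameX [107] s s1 := by
    refine ⟨s.setReg 107 (if d1 = d2 then p else x), ?_, by simp, step_tinv_set h _ _ (by decide),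
      step_sameX_set _ _ _⟩
    refine Does.ite (c := .eq (.ld LC (.r 105)) (.r 104)) ⟨trivial, trivial⟩ (fun hc => ?_)
      fun hc => ?_
    · have hd2 : d2 = true := hC1.mp hc
      refine Does.ite (c := .eq (.ld LC (.r 104)) (.r 102)) ⟨trivial, trivial⟩ (fun hc' => ?_)
        fun hc' => ?_
      · have hd1 : d1 = true := hC2.mp hc'
        have := step_set (M := M) (inp := inp) (s := s) 107 (.r 104) trivial
        rw [if_pos (hd1.trans hd2.symm), ← h104]
        exact this
      · have hd1 : ¬ d1 = true := fun h => hc' (hC2.mpr h)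
        have := step_set (M := M) (inp := inp) (s := s) 107 (.r 102) trivial
        rw [if_neg (by rw [hd2]; exact hd1), ← h102]
        exact this
    · have hd2 : ¬ d2 = true := fun h => hc (hC1.mpr h)
      refine Does.ite (c := .eq (.ld LC (.r 104)) (.r 102)) ⟨trivial, trivial⟩ (fun hc' => ?_)
        fun hc' => ?_
      · have hd1 : d1 = true := hC2.mp hc'
        have := step_set (M := M) (inp := inp) (s := s) 107 (.r 102) trivial
        rw [if_neg (by rw [hd1]; exact fun h => hd2 h.symm), ← h102]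
        exact this
      · have hd1 : ¬ d1 = true := fun h => hc' (hC2.mpr h)
        have := step_set (M := M) (inp := inp) (s := s) 107 (.r 104) trivial
        rw [if_pos (by rw [Bool.eq_false_of_not_eq_true hd1, Bool.eq_false_of_not_eq_true hd2]),
          ← h104]
        exact this
  have h102' : s1.reg 102 = x := (hs1X.1 102 (by decide)).trans h102
  -- everything after the choice, given the effect of the first rotation
  have main : ∀ (s2 : St) (d3 : Bool) (q : ℕ) (bq : Bool) (o3 : PT) (l3 : PT) (b3 : Bool)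
      (r3 : PT), Does M inp rotM s1 s2 500 →
      TInv M nul key s2 (plug (.node l3 x false b3 r3) (⟨d3, q, false, bq, o3⟩ :: c)) →
      SameX [106, 108, 109, 110] s1 s2 →
      ∃ s', Does M inp (.seq (.ite (.eq (.ld LC (.r 105)) (.r 104))
        (.ite (.eq (.ld LC (.r 104)) (.r 102)) (.set 107 (.r 104)) (.set 107 (.r 102)))
        (.ite (.eq (.ld LC (.r 104)) (.r 102)) (.set 107 (.r 102)) (.set 107 (.r 104))))
        (.seq rotM (.seq (.set 107 (.r 102)) rotM))) s s' 1030 ∧
      TInv M nul key s' (plug (if d3 then .node l3 x false b3 (.node r3 q false bq o3)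
        else .node (.node o3 q false bq l3) x false b3 r3) c) ∧
      SameX [106, 107, 108, 109, 110] s s' := by
    intro s2 d3 q bq o3 l3 b3 r3 hrun hT hX
    have h102'' : s2.reg 102 = x := (hX.1 102 (by decide)).trans h102'
    have hset := step_set (M := M) (inp := inp) (s := s2) 107 (.r 102) trivial
    have hT3 := step_tinv_set hT 107 x (by decide)
    obtain ⟨s4, hrun4, hT4, hX4⟩ := rot_run hM inp (s2.setReg 107 x) c d3 q bq o3 l3 x b3 r3 hT3
      (by simp)
    refine ⟨s4, ?_, hT4, ?_⟩
    · have e : (Ex.r 102).eval inp s2 = x := h102''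
      rw [e] at hset
      exact (hs1.seq (hrun.seq (hset.seq hrun4))).mono (by decide)
    · have a1 := hs1X.mono (l' := [106, 107, 108, 109, 110]) (by simp)
      have a2 := hX.mono (l' := [106, 107, 108, 109, 110]) (by simp)
      have a3 := (step_sameX_set s2 107 x).mono (l' := [106, 107, 108, 109, 110]) (by simp)
      have a4 := hX4.mono (l' := [106, 107, 108, 109, 110]) (by simp)
      exact ((a1.trans a2).trans a3).trans a4
  by_cases hd : d1 = d2
  · -- zig-zig
    rw [if_pos hd] at hs1r
    subst hd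
    cases d1
    · obtain ⟨s2, hrun, hT, hX⟩ := rot_run hM inp s1 c false g bg o2 o1 p bp
        (.node l x false b r) hs1T hs1r
      obtain ⟨s', h1, h2, h3⟩ := main s2 false p bp (.node o2 g false bg o1) l b r hrun hT hX
      refine ⟨s', _, _, _, h1, h2, ?_, ?_, ?_, h3⟩
      · simp [plug, Fr.plug, step_toL_node]
      · simp only [plug, Fr.plug, step_size_node, if_false, Bool.false_eq_true]; omega
      · simp only [plug, Fr.plug, step_size_node, step_Phi_node, if_false, Bool.false_eq_true]
        have e1 : rk (o2.size + (o1.size + (l.size + r.size + 1) + 1) + 1) =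
            rk (o2.size + o1.size + 1 + l.size + 1 + r.size + 1) := by congr 1; omega
        have := zigzig_step (sx := l.size + r.size + 1) (sp := o1.size + (l.size + r.size + 1) + 1)
          (s := o2.size + o1.size + 1 + l.size + 1 + r.size + 1)
          (sp' := o2.size + o1.size + 1 + l.size + 1) (sg' := o2.size + o1.size + 1)
          (by omega) (by omega) (by omega) (by omega) (by omega)
        rw [e1]
        linarith
    · obtain ⟨s2, hrun, hT, hX⟩ := rot_run hM inp s1 c true g bg o2 (.node l x false b r) p bp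
        o1 hs1T hs1r
      obtain ⟨s', h1, h2, h3⟩ := main s2 true p bp (.node o1 g false bg o2) l b r hrun hT hX
      refine ⟨s', _, _, _, h1, h2, ?_, ?_, ?_, h3⟩
      · simp [plug, Fr.plug, step_toL_node]
      · simp only [plug, Fr.plug, step_size_node, if_true]; omega
      · simp only [plug, Fr.plug, step_size_node, step_Phi_node, if_true]
        have e1 : rk ((l.size + r.size + 1 + o1.size + 1) + o2.size + 1) =
            rk (l.size + (r.size + (o1.size + o2.size + 1) + 1) + 1) := by congr 1; omega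
        have := zigzig_step (sx := l.size + r.size + 1) (sp := l.size + r.size + 1 + o1.size + 1)
          (s := l.size + (r.size + (o1.size + o2.size + 1) + 1) + 1)
          (sp' := r.size + (o1.size + o2.size + 1) + 1) (sg' := o1.size + o2.size + 1)
          (by omega) (by omega) (by omega) (by omega) (by omega)
        rw [e1]
        linarith
  · -- zig-zag
    rw [if_neg hd] at hs1r
    obtain ⟨s2, hrun, hT, hX⟩ := rot_run hM inp s1 (⟨d2, g, false, bg, o2⟩ :: c) d1 p bp o1 l x b r
      hs1T hs1r
    cases d1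
    · have hd2 : d2 = true := by
        cases d2
        · exact absurd rfl hd
        · rfl
      subst hd2
      obtain ⟨s', h1, h2, h3⟩ := main s2 true g bg o2 (.node o1 p false bp l) b r hrun hT hX
      refine ⟨s', _, _, _, h1, h2, ?_, ?_, ?_, h3⟩
      · simp [plug, Fr.plug, step_toL_node]
      · simp only [plug, Fr.plug, step_size_node, if_true, if_false, Bool.false_eq_true]; omega
      · simp only [plug, Fr.plug, step_size_node, step_Phi_node, if_true, if_false,
          Bool.false_eq_true]
        have e1 : rk ((o1.size + (l.size + r.size + 1) + 1) + o2.size + 1) =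
            rk (o1.size + l.size + 1 + (r.size + o2.size + 1) + 1) := by congr 1; omega
        have := zigzag_step (sx := l.size + r.size + 1) (sp := o1.size + (l.size + r.size + 1) + 1)
          (s := o1.size + l.size + 1 + (r.size + o2.size + 1) + 1)
          (sp' := o1.size + l.size + 1) (sg' := r.size + o2.size + 1)
          (by omega) (by omega) (by omega) (by omega) (by omega)
        rw [e1]
        linarith
    · have hd2 : d2 = false := by
        cases d2
        · rfl
        · exact absurd rfl hd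
      subst hd2
      obtain ⟨s', h1, h2, h3⟩ := main s2 false g bg o2 l b (.node r p false bp o1) hrun hT hX
      refine ⟨s', _, _, _, h1, h2, ?_, ?_, ?_, h3⟩
      · simp [plug, Fr.plug, step_toL_node]
      · simp only [plug, Fr.plug, step_size_node, if_true, if_false, Bool.false_eq_true]; omega
      · simp only [plug, Fr.plug, step_size_node, step_Phi_node, if_true, if_false,
          Bool.false_eq_true]
        have e1 : rk (o2.size + ((l.size + r.size + 1) + o1.size + 1) + 1) =
            rk (o2.size + l.size + 1 + (r.size + o1.size + 1) + 1) := by congr 1; omega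
        have := zigzag_step (sx := l.size + r.size + 1) (sp := l.size + r.size + 1 + o1.size + 1)
          (s := o2.size + l.size + 1 + (r.size + o1.size + 1) + 1)
          (sp' := r.size + o1.size + 1) (sg' := o2.size + l.size + 1)
          (by omega) (by omega) (by omega) (by omega) (by omega)
        rw [e1]
        linarith

/-- one rotation (zig) -/
private theorem one_rot {M nul : ℕ} {key : ℕ → ℕ} (hM : 10 ≤ M) (inp : ℕ → ℕ) (s : St)
    (c : List Fr) (l : PT) (x : ℕ) (b : Bool) (r : PT) (d1 : Bool) (p : ℕ) (bp : Bool) (o1 : PT)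
    (h : TInv M nul key s (plug (.node l x false b r) (⟨d1, p, false, bp, o1⟩ :: c)))
    (h102 : s.reg 102 = x) :
    ∃ s' l' b' r', Does M inp (.seq (.set 107 (.r 102)) rotM) s s' 502 ∧
      TInv M nul key s' (plug (.node l' x false b' r') c) ∧
      (PT.node l' x false b' r').toL = (plug (.node l x false b r)
        [⟨d1, p, false, bp, o1⟩]).toL ∧
      (PT.node l' x false b' r').size = (plug (.node l x false b r)
        [⟨d1, p, false, bp, o1⟩]).size ∧
      (PT.node l' x false b' r').Phi - (plug (.node l x false b r)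
        [⟨d1, p, false, bp, o1⟩]).Phi ≤
        3 * (rk (PT.node l' x false b' r').size - rk (PT.node l x false b r).size) ∧
      SameX [106, 107, 108, 109, 110] s s' := by
  have hset := step_set (M := M) (inp := inp) (s := s) 107 (.r 102) trivial
  have e : (Ex.r 102).eval inp s = x := h102
  rw [e] at hset
  obtain ⟨s4, hrun4, hT4, hX4⟩ := rot_run hM inp (s.setReg 107 x) c d1 p bp o1 l x b r
    (step_tinv_set h 107 x (by decide)) (by simp)
  have hrun := hset.seq hrun4
  have hX : SameX [106, 107, 108, 109, 110] s s4 := by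
    have a3 := (step_sameX_set s 107 x).mono (l' := [106, 107, 108, 109, 110]) (by simp)
    have a4 := hX4.mono (l' := [106, 107, 108, 109, 110]) (by simp)
    exact a3.trans a4
  cases d1
  · refine ⟨s4, _, _, _, hrun, hT4, ?_, ?_, ?_, hX⟩
    · simp [plug, Fr.plug, step_toL_node]
    · simp only [plug, Fr.plug, step_size_node, if_false, Bool.false_eq_true]; omega
    · simp only [plug, Fr.plug, step_size_node, step_Phi_node, if_false, Bool.false_eq_true]
      have e1 : rk (o1.size + (l.size + r.size + 1) + 1) =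
          rk (o1.size + l.size + 1 + r.size + 1) := by congr 1; omega
      have := zig_step3 (sx := l.size + r.size + 1) (sp' := o1.size + l.size + 1)
        (s := o1.size + l.size + 1 + r.size + 1) (by omega) (by omega)
      rw [e1]
      linarith
  · refine ⟨s4, _, _, _, hrun, hT4, ?_, ?_, ?_, hX⟩
    · simp [plug, Fr.plug, step_toL_node]
    · simp only [plug, Fr.plug, step_size_node, if_true]; omega
    · simp only [plug, Fr.plug, step_size_node, step_Phi_node, if_true]
      have e1 : rk ((l.size + r.size + 1) + o1.size + 1) =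
          rk (l.size + (r.size + o1.size + 1) + 1) := by congr 1; omega
      have := zig_step3 (sx := l.size + r.size + 1) (sp' := r.size + o1.size + 1)
        (s := l.size + (r.size + o1.size + 1) + 1) (by omega) (by omega)
      rw [e1]
      linarith

theorem step_run {M nul : ℕ} {key : ℕ → ℕ} (hM : 10 ≤ M) (inp : ℕ → ℕ) (s : St) (t : PT)
    (ht : t ≠ .nil) (c1 c2 : List Fr) (hc1 : c1 ≠ [])
    (h : TInv M nul key s (plug t (c1 ++ c2))) (hx : s.reg 102 = t.rt nul)
    (htop : s.reg 103 = par nul c2) :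
    ∃ s' t' c1', Does M inp stepM s s' 2000 ∧ TInv M nul key s' (plug t' (c1' ++ c2)) ∧
      t' ≠ .nil ∧ t'.rt nul = t.rt nul ∧
      (plug t' c1').toL = (plug t c1).toL ∧
      SameX [104, 105, 106, 107, 108, 109, 110, 111, 112] s s' ∧
      c1'.length < c1.length ∧ c1.length ≤ c1'.length + 2 ∧
      1 + (plug t' (c1' ++ c2)).Phi - (plug t (c1 ++ c2)).Phi ≤
        3 * (rk t'.size - rk t.size) +
          (if c1' = [] then 1 else 0) := by
  obtain ⟨fr1, c, rfl⟩ : ∃ fr c, c1 = fr :: c := by
    cases c1 with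
    | nil => exact absurd rfl hc1
    | cons fr c => exact ⟨fr, c, rfl⟩
  obtain ⟨l, x, f, b, r, rfl⟩ : ∃ l x f b r, t = .node l x f b r := by
    cases t with
    | nil => exact absurd rfl ht
    | node l x f b r => exact ⟨l, x, f, b, r, rfl⟩
  change s.reg 102 = x at hx
  obtain ⟨d1, p, fp, bp, o1⟩ := fr1
  obtain ⟨hxl, hpa1, -⟩ := step_rec h
  obtain ⟨hpl, hpa2, -⟩ := step_recf (fr := ⟨d1, p, fp, bp, o1⟩) (c := c ++ c2) h
  change s.arr PA x = p at hpa1
  simp only at hpl hpa2
  -- the first two assignments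
  have hs1 := step_set (M := M) (inp := inp) (s := s) 104 (.ld PA (.r 102)) trivial
  have e1 : (Ex.ld PA (.r 102)).eval inp s = p := by
    change s.arr PA (s.reg 102) = p
    rw [hx, hpa1]
  rw [e1] at hs1
  have hs2 := step_set (M := M) (inp := inp) (s := s.setReg 104 p) 105 (.ld PA (.r 104)) trivial
  have e2 : (Ex.ld PA (.r 104)).eval inp (s.setReg 104 p) = par nul (c ++ c2) := by
    change s.arr PA ((s.setReg 104 p).reg 104) = _
    rw [reg_setReg, if_pos rfl, hpa2]
  rw [e2] at hs2
  set s2 := (s.setReg 104 p).setReg 105 (par nul (c ++ c2)) with hs2def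
  have hT2 : TInv M nul key s2 (plug (.node l x f b r) (⟨d1, p, fp, bp, o1⟩ :: c ++ c2)) :=
    step_tinv_set (step_tinv_set h 104 _ (by decide)) 105 _ (by decide)
  have r102 : s2.reg 102 = x := by simp [hs2def, hx]
  have r103 : s2.reg 103 = par nul c2 := by simp [hs2def, htop]
  have r104 : s2.reg 104 = p := by simp [hs2def]
  have r105 : s2.reg 105 = par nul (c ++ c2) := by simp [hs2def]
  have hX2 : SameX [104, 105, 106, 107, 108, 109, 110, 111, 112] s s2 :=
    ((step_sameX_set s 104 p).mono (by simp)).trans ((step_sameX_set _ 105 _).mono (by simp))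
  have X1 : ([111, 112] : List ℕ) ⊆ [104, 105, 106, 107, 108, 109, 110, 111, 112] := by simp
  have X2 : ([106, 107, 108, 109, 110] : List ℕ) ⊆
      [104, 105, 106, 107, 108, 109, 110, 111, 112] := by simp
  cases c with
  | nil =>
    rw [List.nil_append] at r105
    -- push p
    obtain ⟨s3, hs3, hT3, hX3⟩ := push_frame hM inp 104 (by decide) s2 c2 (.node l x f b r)
      d1 p fp bp o1 hT2 r104
    have hE1 := eqv_push_frame d1 p fp bp o1 (.node l x f b r)
    obtain ⟨l1, f1, b1, r1, hcf⟩ := cflip_node fp l x f b r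
    have hsz1 : (PT.node l1 x f1 b1 r1).size = (PT.node l x f b r).size := by
      rw [← hcf, PT.size_cflip]
    rw [hcf] at hT3 hE1
    -- push x
    obtain ⟨s4, hs4, hT4, hX4⟩ := push_run hM inp 102 (by decide) s3
      (⟨d1, p, false, bp, o1.cflip fp⟩ :: c2) l1 x f1 b1 r1 hT3
      ((hX3.1 102 (by decide)).trans r102)
    have hE2 := (eqv_push l1 x f1 b1 r1).plug [⟨d1, p, false, bp, o1.cflip fp⟩]
    have hE3 := eqv_push l1 x f1 b1 r1
    -- rotate
    obtain ⟨s5, l5, b5, r5, hs5, hT5, hL5, hS5, hP5, hX5⟩ := one_rot hM inp s4 c2 _ x b1 _ d1 p bp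
      (o1.cflip fp) hT4 ((hX4.1 102 (by decide)).trans ((hX3.1 102 (by decide)).trans r102))
    have hE := hE2.trans hE1
    refine ⟨s5, .node l5 x false b5 r5, [], ?_, hT5, PT.noConfusion, rfl, ?_, ?_, by simp,
      by simp, ?_⟩
    · refine Does.mono (hs1.seq (hs2.seq (Does.ite (c := .eq (.r 105) (.r 103))
        ⟨trivial, trivial⟩ (fun _ => ((hs3.seq (hs4.seq hs5)).mono
        (le_refl (150 + (150 + 502))))) fun hc => ?_))) (by decide)
      exact absurd (show s2.reg 105 = s2.reg 103 by rw [r105, r103]) hc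
    · exact hL5.trans hE.1
    · exact ((hX2.trans (hX3.mono X1)).trans (hX4.mono X1)).trans (hX5.mono X2)
    · have hsz : (PT.node l5 x false b5 r5).size =
          (plug (.node l x f b r) [⟨d1, p, fp, bp, o1⟩]).size := hS5.trans hE.2.1
      have hPhi := Phi_plug_sub hsz c2
      have e3 : plug (plug (.node l x f b r) [⟨d1, p, fp, bp, o1⟩]) c2 =
        plug (.node l x f b r) ([⟨d1, p, fp, bp, o1⟩] ++ c2) := (plug_append _ _ _).symm
      rw [e3] at hPhi
      rw [hE3.2.1, hsz1] at hP5
      have e4 := hE.2.2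
      rw [if_pos rfl, List.nil_append]
      have e5 : (plug (.node l x f b r) [⟨d1, p, fp, bp, o1⟩]).Phi =
        (Fr.plug ⟨d1, p, fp, bp, o1⟩ (.node l x f b r)).Phi := rfl
      linarith
  | cons fr2 c =>
    obtain ⟨d2, g, fg, bg, o2⟩ := fr2
    change s2.reg 105 = g at r105
    -- `g` is not the top
    have hgl : g < nul := (step_recf (s := s) (nul := nul) (M := M) (key := key)
      (t := Fr.plug ⟨d1, p, fp, bp, o1⟩ (.node l x f b r))
      (fr := ⟨d2, g, fg, bg, o2⟩) (c := c ++ c2) h).1
    have hne : s2.reg 105 ≠ s2.reg 103 := by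
      rw [r105, r103]
      cases c2 with
      | nil => exact ne_of_lt hgl
      | cons fr3 c3 =>
        change g ≠ fr3.y
        intro he
        have hperm := nodes_plug (.node l x f b r)
          (⟨d1, p, fp, bp, o1⟩ :: ⟨d2, g, fg, bg, o2⟩ :: c ++ fr3 :: c3)
        have hnd := hperm.nodup_iff.mp h.nodup
        have h1 : (nodesC (⟨d2, g, fg, bg, o2⟩ :: c ++ fr3 :: c3)).Nodup := by
          refine hnd.sublist ?_
          refine List.Sublist.trans ?_ (List.sublist_append_right _ _)
          change List.Sublist _ (p :: (o1.nodes ++ nodesC (⟨d2, g, fg, bg, o2⟩ :: c ++ fr3 :: c3)))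
          exact List.Sublist.cons _ (List.sublist_append_right _ _)
        change (g :: (o2.nodes ++ nodesC (c ++ fr3 :: c3))).Nodup at h1
        rw [nodesC_append] at h1
        refine (List.nodup_cons.mp h1).1 ?_
        rw [he]
        simp [nodesC]
    -- push g
    obtain ⟨s3, hs3, hT3, hX3⟩ := push_frame hM inp 105 (by decide) s2 (c ++ c2)
      (Fr.plug ⟨d1, p, fp, bp, o1⟩ (.node l x f b r)) d2 g fg bg o2 hT2 r105
    have hE1 := eqv_push_frame d2 g fg bg o2 (Fr.plug ⟨d1, p, fp, bp, o1⟩ (.node l x f b r))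
    rw [cflip_frplug] at hT3 hE1
    have hy := stepCfl_y fg ⟨d1, p, fp, bp, o1⟩
    generalize stepCfl fg ⟨d1, p, fp, bp, o1⟩ = frx at hT3 hE1 hy
    obtain ⟨dd, q, fq, bq, oq⟩ := frx
    change q = p at hy
    subst hy
    -- push p
    obtain ⟨s4, hs4, hT4, hX4⟩ := push_frame hM inp 104 (by decide) s3
      (⟨d2, g, false, bg, o2.cflip fg⟩ :: (c ++ c2)) (.node l x f b r) dd q fq bq oq hT3
      ((hX3.1 104 (by decide)).trans r104)
    have hE2 : StepEqv (plug ((PT.node l x f b r).cflip fq)
        [⟨dd, q, false, bq, oq.cflip fq⟩, ⟨d2, g, false, bg, o2.cflip fg⟩])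
        (Fr.plug ⟨d2, g, false, bg, o2.cflip fg⟩ (Fr.plug ⟨dd, q, fq, bq, oq⟩
          (.node l x f b r))) :=
      (eqv_push_frame dd q fq bq oq (.node l x f b r)).plug [⟨d2, g, false, bg, o2.cflip fg⟩]
    obtain ⟨l1, f1, b1, r1, hcf⟩ := cflip_node fq l x f b r
    have hsz1 : (PT.node l1 x f1 b1 r1).size = (PT.node l x f b r).size := by
      rw [← hcf, PT.size_cflip]
    rw [hcf] at hT4 hE2
    -- push x
    obtain ⟨s5, hs5, hT5, hX5⟩ := push_run hM inp 102 (by decide) s4
      (⟨dd, q, false, bq, oq.cflip fq⟩ :: ⟨d2, g, false, bg, o2.cflip fg⟩ :: (c ++ c2))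
      l1 x f1 b1 r1 hT4
      ((hX4.1 102 (by decide)).trans ((hX3.1 102 (by decide)).trans r102))
    have hE3 := (eqv_push l1 x f1 b1 r1).plug
      [⟨dd, q, false, bq, oq.cflip fq⟩, ⟨d2, g, false, bg, o2.cflip fg⟩]
    have hE4 := eqv_push l1 x f1 b1 r1
    have hE := (hE3.trans hE2).trans hE1
    -- rotate twice
    obtain ⟨s6, l6, b6, r6, hs6, hT6, hL6, hS6, hP6, hX6⟩ := two_rot hM inp s5 (c ++ c2) _ x b1 _
      dd q bq (oq.cflip fq) d2 g bg (o2.cflip fg) hT5
      ((hX5.1 102 (by decide)).trans ((hX4.1 102 (by decide)).trans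
        ((hX3.1 102 (by decide)).trans r102)))
      ((hX5.1 104 (by decide)).trans ((hX4.1 104 (by decide)).trans
        ((hX3.1 104 (by decide)).trans r104)))
      ((hX5.1 105 (by decide)).trans ((hX4.1 105 (by decide)).trans
        ((hX3.1 105 (by decide)).trans r105)))
    refine ⟨s6, .node l6 x false b6 r6, c, ?_, hT6, PT.noConfusion, rfl, ?_, ?_, ?_, ?_, ?_⟩
    · refine Does.mono (hs1.seq (hs2.seq (Does.ite (c := .eq (.r 105) (.r 103))
        ⟨trivial, trivial⟩ (fun hc => ?_) fun _ => ((hs3.seq (hs4.seq (hs5.seq hs6))).mono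
        (le_refl (150 + (150 + (150 + 1030)))))))) (by decide)
      exact absurd hc hne
    · exact toL_plug_congr (hL6.trans hE.1) c
    · exact ((((hX2.trans (hX3.mono X1)).trans (hX4.mono X1)).trans (hX5.mono X1)).trans
        (hX6.mono X2))
    · simp only [List.length_cons]; omega
    · simp only [List.length_cons]; omega
    · have hsz : (PT.node l6 x false b6 r6).size =
          (plug (.node l x f b r) [⟨d1, q, fp, bp, o1⟩, ⟨d2, g, fg, bg, o2⟩]).size :=
        hS6.trans hE.2.1
      have hPhi := Phi_plug_sub hsz (c ++ c2)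
      have e3 : plug (plug (.node l x f b r) [⟨d1, q, fp, bp, o1⟩, ⟨d2, g, fg, bg, o2⟩])
          (c ++ c2) = plug (.node l x f b r)
          ((⟨d1, q, fp, bp, o1⟩ :: ⟨d2, g, fg, bg, o2⟩ :: c) ++ c2) :=
        (plug_append _ [⟨d1, q, fp, bp, o1⟩, ⟨d2, g, fg, bg, o2⟩] _).symm
      rw [e3] at hPhi
      rw [hE4.2.1, hsz1] at hP6
      have e4 := hE.2.2
      have e5 : (plug (.node l x f b r) [⟨d1, q, fp, bp, o1⟩, ⟨d2, g, fg, bg, o2⟩]).Phi =
        (Fr.plug ⟨d2, g, fg, bg, o2⟩ (Fr.plug ⟨d1, q, fp, bp, o1⟩ (.node l x f b r))).Phi := rfl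
      have e6 : (0 : ℝ) ≤ if c = [] then 1 else 0 := by split_ifs <;> norm_num
      linarith

end SBR
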