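/-
SBR/SplayLoop.lean : the splay loop, access of one and of two nodes.
-/
import Pool.Agent.SBR.SplayBasic
import Pool.Agent.SBR.SplayPush
import Pool.Agent.SBR.SplayStep

namespace SBR

/-! ### small facts -/

theorem sl_skip {M : ℕ} {inp : ℕ → ℕ} (s : St) : Does M inp .skip s s 1 := ⟨1, le_rfl, .skip _⟩

theorem sl_set {M : ℕ} {inp : ℕ → ℕ} (s : St) (i : ℕ) (e : Ex) (h : e.Ok M inp s) :
    Does M inp (.set i e) s (s.setReg i (e.eval inp s)) (e.sz + 1) := ⟨_, le_rfl, .set _ _ _ _ h⟩

theorem sl_nd_setReg (s : St) (i v : ℕ) : nd (s.setReg i v) = nd s := rfl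

theorem sl_TInv_setReg {M nul : ℕ} {key : ℕ → ℕ} {s : St} {T : PT} (h : TInv M nul key s T)
    (i v : ℕ) (hi : i ≠ 100) : TInv M nul key (s.setReg i v) T :=
  h.of_nd rfl (by rw [reg_setReg, if_neg (fun e => hi e.symm)])

theorem sl_SameX_setReg (s : St) (i v : ℕ) (l : List ℕ) (hi : i ∈ l) :
    SameX l s (s.setReg i v) := by
  refine ⟨fun j hj => ?_, fun _ _ => rfl, rfl⟩
  rw [reg_setReg, if_neg]
  rintro rfl
  exact hj hi

/-- the record of the root of the focus -/
theorem sl_root {M nul : ℕ} {key : ℕ → ℕ} {s : St} {l : PT} {x : ℕ} {f b : Bool} {r : PT}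
    {c : List Fr} (h : TInv M nul key s (plug (.node l x f b r) c)) :
    s.arr PA x = par nul c ∧ s.arr LC x = l.rt nul ∧ s.arr RC x = r.rt nul ∧ x < nul := by
  have h1 := (stored_plug.1 h.stored).2
  obtain ⟨hx, hm, _, _⟩ := h1
  refine ⟨?_, ?_, ?_, hx⟩
  · have := congrArg Nd.pa hm
    exact this
  · have := congrArg Nd.lc hm
    exact this
  · have := congrArg Nd.rc hm
    exact this

/-- the parent of the focus in a longer context is different -/
theorem sl_par {M nul : ℕ} {key : ℕ → ℕ} {s : St} {t : PT} {c1 c2 : List Fr}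
    (h : TInv M nul key s (plug t (c1 ++ c2))) :
    par nul (c1 ++ c2) = par nul c2 ↔ c1 = [] := by
  constructor
  · intro he
    rcases c1 with _ | ⟨fr, c⟩
    · rfl
    exfalso
    have h1 := (stored_plug.1 h.stored).1
    have hlt : fr.y < nul := h1.1
    rcases c2 with _ | ⟨fr2, c'⟩
    · simp only [par, List.append_nil] at he
      omega
    · simp only [par, List.cons_append] at he
      have hn := (nodes_plug t (fr :: c ++ fr2 :: c')).nodup_iff.1 h.nodup
      have hn2 : (nodesC (fr :: c ++ fr2 :: c')).Nodup := (List.nodup_append.1 hn).2.1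
      rw [List.cons_append, nodesC, nodesC_append, nodesC, he] at hn2
      have := (List.nodup_cons.1 hn2).1
      exact this (by simp)
  · rintro rfl
    rfl

theorem sl_chk {M : ℕ} {inp : ℕ → ℕ} (hM : 10 ≤ M) (s : St) :
    Does M inp chkM s (s.setReg 113 (if s.arr PA (s.reg 102) = s.reg 103 then 0 else 1)) 10 := by
  have h : Does M inp chkM s (s.setReg 113 (if s.arr PA (s.reg 102) = s.reg 103 then 0 else 1))
      ((Co.eq (.ld PA (.r 102)) (.r 103)).sz + 1 + 2) := by
    refine Does.ite ?_ ?_ ?_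
    · exact ⟨trivial, trivial⟩
    · intro hc
      have hc' : s.arr PA (s.reg 102) = s.reg 103 := hc
      rw [if_pos hc']
      exact sl_set s 113 (.c 0) (show 0 < M by omega)
    · intro hc
      have hc' : ¬ s.arr PA (s.reg 102) = s.reg 103 := hc
      rw [if_neg hc']
      exact sl_set s 113 (.c 1) (show 1 < M by omega)
  exact h.mono (by simp [Co.sz, Ex.sz])

/-- the loop -/
theorem sl_loop {M nul : ℕ} {key : ℕ → ℕ} (hM : 10 ≤ M) (inp : ℕ → ℕ) (c2 : List Fr) :
    ∀ (N : ℕ) (s : St) (t : PT) (c1 : List Fr), c1.length ≤ N → t ≠ .nil →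
      TInv M nul key s (plug t (c1 ++ c2)) → s.reg 102 = t.rt nul → s.reg 103 = par nul c2 →
      s.reg 113 = (if c1 = [] then 0 else 1) →
      ∃ s' t', ∃ n : ℕ,
        Does M inp (.whl (.lt (.c 0) (.r 113)) (.seq stepM chkM)) s s' (2100 * n + 4) ∧
        TInv M nul key s' (plug t' c2) ∧ t' ≠ .nil ∧ t'.rt nul = t.rt nul ∧
        t'.toL = (plug t c1).toL ∧
        SameX [104, 105, 106, 107, 108, 109, 110, 111, 112, 113] s s' ∧
        c1.length ≤ 2 * n ∧
        (n : ℝ) + (plug t' c2).Phi - (plug t (c1 ++ c2)).Phi ≤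
          3 * (rk t'.size - rk t.size) + (if c1 = [] then 0 else 1) := by
  intro N
  induction N with
  | zero =>
    intro s t c1 hN ht h hx htop h113
    have hc1 : c1 = [] := List.length_eq_zero_iff.1 (by omega)
    subst hc1
    refine ⟨s, t, 0, ⟨_, le_rfl, ?_⟩, h, ht, rfl, rfl, SameX.refl _ _, by simp, by simp⟩
    refine .whl_f _ _ _ ⟨show 0 < M by omega, trivial⟩ ?_
    rw [if_pos rfl] at h113
    show ¬ (0 < s.reg 113)
    omega
  | succ N ih =>
    intro s t c1 hN ht h hx htop h113
    by_cases hc1 : c1 = []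
    · subst hc1
      refine ⟨s, t, 0, ⟨_, le_rfl, ?_⟩, h, ht, rfl, rfl, SameX.refl _ _, by simp, by simp⟩
      refine .whl_f _ _ _ ⟨show 0 < M by omega, trivial⟩ ?_
      rw [if_pos rfl] at h113
      show ¬ (0 < s.reg 113)
      omega
    · rw [if_neg hc1] at h113
      obtain ⟨s1, t1, c1', hr1, hT1, ht1, hrt1, htoL1, hS1, hl1, hl2, hPhi1⟩ :=
        step_run hM inp s t ht c1 c2 hc1 h hx htop
      obtain ⟨l, x, f, b, r, rfl⟩ : ∃ l x f b r, t1 = .node l x f b r := by
        cases t1 with
        | nil => exact absurd rfl ht1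
        | node l x f b r => exact ⟨l, x, f, b, r, rfl⟩
      have hrec := sl_root hT1
      have h102 : s1.reg 102 = x := by
        rw [hS1.1 102 (by decide), hx, ← hrt1]
        rfl
      have h103 : s1.reg 103 = par nul c2 := by rw [hS1.1 103 (by decide), htop]
      set v : ℕ := if s1.arr PA (s1.reg 102) = s1.reg 103 then 0 else 1 with hv
      have hv2 : v = if c1' = [] then 0 else 1 := by
        rw [hv, h102, hrec.1, h103]
        simp only [sl_par hT1]
      obtain ⟨s2, t2, n, hr2, hT2, ht2, hrt2, htoL2, hS2, hl3, hPhi2⟩ :=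
        ih (s1.setReg 113 v) (.node l x f b r) c1' (by omega) ht1 (sl_TInv_setReg hT1 _ _ (by decide))
          (by rw [reg_setReg, if_neg (by decide)]; exact h102)
          (by rw [reg_setReg, if_neg (by decide)]; exact h103)
          (by rw [reg_setReg, if_pos rfl]; exact hv2)
      obtain ⟨k1, hk1, hrun1⟩ := hr1
      obtain ⟨k2, hk2, hrun2⟩ := hr2
      obtain ⟨k3, hk3, hrun3⟩ := sl_chk (inp := inp) hM s1
      refine ⟨s2, t2, n + 1, ⟨_, ?_, Run.whl_t _ _ _ _ _ _ _ ⟨show 0 < M by omega, trivial⟩ ?_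
        (Run.seq _ _ _ _ _ _ _ hrun1 hrun3) hrun2⟩, hT2, ht2, ?_, ?_, ?_, by omega, ?_⟩
      · simp only [Co.sz, Ex.sz]
        omega
      · show 0 < s.reg 113
        omega
      · rw [hrt2, hrt1]
      · rw [htoL2, htoL1]
      · refine SameX.trans (hS1.mono ?_) ((sl_SameX_setReg s1 113 v _ (by decide)).trans hS2)
        intro i hi
        simp only [List.mem_cons, List.not_mem_nil, or_false] at hi ⊢
        omega
      · rw [if_neg hc1]
        push_cast
        have e1 : (if c1' = [] then (0 : ℝ) else 1) + (if c1' = [] then 1 else 0) = 1 := by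
          split_ifs <;> norm_num
        linarith

theorem sl_phi {l r : PT} {x : ℕ} {f b : Bool} (c : List Fr) :
    (plug (.node (l.cflip f) x false b (r.cflip f)) c).Phi = (plug (.node l x f b r) c).Phi := by
  have h1 := Phi_plug_sub (t := .node (l.cflip f) x false b (r.cflip f)) (t' := .node l x f b r)
    (by simp [PT.size]) c
  have h2 : (PT.node (l.cflip f) x false b (r.cflip f)).Phi = (PT.node l x f b r).Phi := by
    simp [PT.Phi]
  linarith

theorem sl_toL {l r : PT} {x : ℕ} {f b : Bool} :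
    (PT.node (l.cflip f) x false b (r.cflip f)).toL = (PT.node l x f b r).toL := by
  simp [PT.toL]

theorem splay_run {M nul : ℕ} {key : ℕ → ℕ} (hM : 10 ≤ M) (inp : ℕ → ℕ) (s : St) (t : PT)
    (ht : t ≠ .nil) (c1 c2 : List Fr) (h : TInv M nul key s (plug t (c1 ++ c2)))
    (hx : s.reg 102 = t.rt nul) (htop : s.reg 103 = par nul c2) :
    ∃ s' l b r, ∃ n : ℕ, Does M inp splayM s s' (2200 * (n + 1)) ∧
      TInv M nul key s' (plug (.node l (t.rt nul) false b r) c2) ∧
      (PT.node l (t.rt nul) false b r).toL = (plug t c1).toL ∧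
      SameX [101, 104, 105, 106, 107, 108, 109, 110, 111, 112, 113] s s' ∧
      s'.reg ROOT = (if c2 = [] then t.rt nul else s.reg ROOT) ∧
      c1.length ≤ 2 * n ∧
      (n : ℝ) + (plug (.node l (t.rt nul) false b r) c2).Phi ≤
        (plug t (c1 ++ c2)).Phi +
          3 * rk (plug t (c1 ++ c2)).size + 1 := by
  -- first check
  obtain ⟨l0, x, f0, b0, r0, rfl⟩ : ∃ l x f b r, t = .node l x f b r := by
    cases t with
    | nil => exact absurd rfl ht
    | node l x f b r => exact ⟨l, x, f, b, r, rfl⟩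
  have hrec := sl_root h
  have h102 : s.reg 102 = x := hx
  set v : ℕ := if s.arr PA (s.reg 102) = s.reg 103 then 0 else 1 with hv
  have hv2 : v = if c1 = [] then 0 else 1 := by
    rw [hv, h102, hrec.1, htop]
    simp only [sl_par h]
  obtain ⟨s1, t1, n, hr1, hT1, ht1, hrt1, htoL1, hS1, hl1, hPhi1⟩ :=
    sl_loop hM inp c2 c1.length (s.setReg 113 v) (.node l0 x f0 b0 r0) c1 le_rfl ht
      (sl_TInv_setReg h _ _ (by decide))
      (by rw [reg_setReg, if_neg (by decide)]; exact h102)
      (by rw [reg_setReg, if_neg (by decide)]; exact htop)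
      (by rw [reg_setReg, if_pos rfl]; exact hv2)
  obtain ⟨l1, x1, f1, b1, r1, rfl⟩ : ∃ l x f b r, t1 = .node l x f b r := by
    cases t1 with
    | nil => exact absurd rfl ht1
    | node l x f b r => exact ⟨l, x, f, b, r, rfl⟩
  have hx1 : x1 = x := hrt1
  subst hx1
  have h102' : s1.reg 102 = x1 := by
    rw [hS1.1 102 (by decide), reg_setReg, if_neg (by decide)]
    exact h102
  have h103' : s1.reg 103 = par nul c2 := by
    rw [hS1.1 103 (by decide), reg_setReg, if_neg (by decide)]
    exact htop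
  obtain ⟨s2, hr2, hT2, hS2⟩ := push_run hM inp 102 (by decide) s1 c2 l1 x1 f1 b1 r1 hT1 h102'
  have h102'' : s2.reg 102 = x1 := by rw [hS2.1 102 (by decide)]; exact h102'
  have h103'' : s2.reg 103 = par nul c2 := by rw [hS2.1 103 (by decide)]; exact h103'
  have hnul2 : s2.reg NUL = nul := hT2.hnul
  -- the last instruction
  have hpar : par nul c2 = nul ↔ c2 = [] := by
    constructor
    · intro he
      rcases c2 with _ | ⟨fr, c⟩
      · rfl
      exfalso
      have h1 := (stored_plug.1 hT2.stored).1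
      have hlt : fr.y < nul := h1.1
      simp only [par] at he
      omega
    · rintro rfl
      rfl
  obtain ⟨s3, hr3, hT3, hS3, hroot3⟩ : ∃ s3, Does M inp
      (.ite (.eq (.r 103) (.r NUL)) (.set ROOT (.r 102)) .skip) s2 s3 6 ∧
      TInv M nul key s3 (plug (.node (l1.cflip f1) x1 false b1 (r1.cflip f1)) c2) ∧
      SameX [101] s2 s3 ∧ s3.reg ROOT = (if c2 = [] then x1 else s2.reg ROOT) := by
    by_cases hc2 : c2 = []
    · refine ⟨s2.setReg ROOT (s2.reg 102), ?_, sl_TInv_setReg hT2 _ _ (by decide),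
        sl_SameX_setReg _ _ _ _ (by decide), ?_⟩
      · have hd : Does M inp (.ite (.eq (.r 103) (.r NUL)) (.set ROOT (.r 102)) .skip) s2
            (s2.setReg ROOT (s2.reg 102)) ((Co.eq (.r 103) (.r NUL)).sz + 1 + 2) := by
          refine Does.ite ⟨trivial, trivial⟩ (fun _ => sl_set s2 ROOT (.r 102) trivial) ?_
          intro hn
          exact absurd (show s2.reg 103 = s2.reg NUL by
            rw [h103'', hnul2]; exact hpar.2 hc2) hn
        exact hd.mono (by simp [Co.sz, Ex.sz])
      · rw [if_pos hc2, reg_setReg, if_pos rfl]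
        exact h102''
    · refine ⟨s2, ?_, hT2, SameX.refl _ _, by rw [if_neg hc2]⟩
      have hd : Does M inp (.ite (.eq (.r 103) (.r NUL)) (.set ROOT (.r 102)) .skip) s2
            s2 ((Co.eq (.r 103) (.r NUL)).sz + 1 + 1) := by
        refine Does.ite ⟨trivial, trivial⟩ ?_ (fun _ => sl_skip s2)
        intro hn
        have hn' : s2.reg 103 = s2.reg NUL := hn
        rw [h103'', hnul2] at hn'
        exact absurd (hpar.1 hn') hc2
      exact hd.mono (by simp [Co.sz, Ex.sz])
  refine ⟨s3, l1.cflip f1, b1, r1.cflip f1, n, ?_, hT3, ?_, ?_, ?_, hl1, ?_⟩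
  · have hd := (sl_chk (inp := inp) hM s).seq (hr1.seq (hr2.seq hr3))
    exact hd.mono (by omega)
  · show (PT.node (l1.cflip f1) x1 false b1 (r1.cflip f1)).toL = _
    rw [sl_toL, htoL1]
  · have e1 : SameX [101, 104, 105, 106, 107, 108, 109, 110, 111, 112, 113] s (s.setReg 113 v) :=
      sl_SameX_setReg _ _ _ _ (by decide)
    refine e1.trans ((hS1.mono ?_).trans ((hS2.mono ?_).trans (hS3.mono ?_)))
    · intro i hi
      simp only [List.mem_cons, List.not_mem_nil, or_false] at hi ⊢
      omega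
    · intro i hi
      simp only [List.mem_cons, List.not_mem_nil, or_false] at hi ⊢
      omega
    · intro i hi
      simp only [List.mem_cons, List.not_mem_nil, or_false] at hi ⊢
      omega
  · rw [hroot3]
    show (if c2 = [] then x1 else s2.reg ROOT) = (if c2 = [] then x1 else s.reg ROOT)
    have e : s2.reg ROOT = s.reg ROOT := by
      rw [hS2.1 ROOT (by decide), hS1.1 ROOT (by decide), reg_setReg]
      exact if_neg (by decide)
    rw [e]
  · show (n : ℝ) + (plug (.node (l1.cflip f1) x1 false b1 (r1.cflip f1)) c2).Phi ≤ _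
    rw [sl_phi]
    have e1 : rk (PT.node l1 x1 f1 b1 r1).size ≤
        rk (plug (PT.node l0 x1 f0 b0 r0) (c1 ++ c2)).size := by
      apply rk_mono
      have e2 : (PT.node l1 x1 f1 b1 r1).size = (plug (PT.node l0 x1 f0 b0 r0) c1).size := by
        rw [← PT.length_toL, ← PT.length_toL, htoL1]
      rw [e2, plug_append, size_plug (plug (PT.node l0 x1 f0 b0 r0) c1) c2]
      omega
    have e3 := rk_nonneg (PT.node l0 x1 f0 b0 r0).size
    have e4 : (if c1 = [] then (0 : ℝ) else 1) ≤ 1 := by split_ifs <;> norm_num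
    linarith

theorem acc_run {M nul : ℕ} {key : ℕ → ℕ} (hM : 10 ≤ M) (inp : ℕ → ℕ) (s : St) (T : PT)
    (a : ℕ) (ha : a < 100) (h : TInv M nul key s T) (hx : s.reg a ∈ T.nodes) :
    ∃ s' l b r, ∃ n : ℕ, Does M inp (accM a) s s' (2300 * (n + 1)) ∧
      TInv M nul key s' (.node l (s.reg a) false b r) ∧
      (PT.node l (s.reg a) false b r).toL = T.toL ∧
      SameX [101, 102, 103, 104, 105, 106, 107, 108, 109, 110, 111, 112, 113] s s' ∧
      s'.reg 102 = s.reg a ∧ s'.reg 103 = nul ∧ s'.reg ROOT = s.reg a ∧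
      (n : ℝ) + (PT.node l (s.reg a) false b r).Phi ≤
        T.Phi + 3 * rk T.size + 1 := by
  obtain ⟨t, c, ht, hrt, rfl⟩ := exists_focus nul T (s.reg a) hx
  set s0 : St := (s.setReg 102 (s.reg a)).setReg 103 ((s.setReg 102 (s.reg a)).reg NUL) with hs0
  have hnul : (s.setReg 102 (s.reg a)).reg NUL = nul := by
    rw [reg_setReg, if_neg (by decide)]
    exact h.hnul
  have hT0 : TInv M nul key s0 (plug t (c ++ [])) := by
    rw [List.append_nil]
    exact sl_TInv_setReg (sl_TInv_setReg h _ _ (by decide)) _ _ (by decide)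
  have h102 : s0.reg 102 = s.reg a := by
    rw [hs0, reg_setReg, if_neg (by decide), reg_setReg, if_pos rfl]
  have h103 : s0.reg 103 = nul := by
    rw [hs0, reg_setReg, if_pos rfl, hnul]
  obtain ⟨s1, l, b, r, n, hr1, hT1, htoL1, hS1, hroot1, _, hPhi1⟩ :=
    splay_run hM inp s0 t ht c [] hT0 (by rw [h102, hrt]) h103
  rw [hrt] at hT1 htoL1 hroot1 hPhi1
  rw [List.append_nil] at hPhi1
  have hS0 : SameX [101, 102, 103, 104, 105, 106, 107, 108, 109, 110, 111, 112, 113] s s0 :=
    (sl_SameX_setReg _ _ _ _ (by decide)).trans (sl_SameX_setReg _ _ _ _ (by decide))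
  refine ⟨s1, l, b, r, n, ?_, hT1, htoL1, ?_, ?_, ?_, ?_, hPhi1⟩
  · have hd := (sl_set (M := M) (inp := inp) s 102 (.r a) trivial).seq
      ((sl_set (M := M) (inp := inp) (s.setReg 102 (s.reg a)) 103 (.r NUL) trivial).seq hr1)
    refine hd.mono ?_
    simp only [Ex.sz]
    omega
  · refine hS0.trans (hS1.mono ?_)
    intro i hi
    simp only [List.mem_cons, List.not_mem_nil, or_false] at hi ⊢
    omega
  · rw [hS1.1 102 (by decide), h102]
  · rw [hS1.1 103 (by decide), h103]
  · rw [hroot1, if_pos rfl]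

/-- `b` is in the left subtree of `a` (first case) or in the right subtree (second case) -/
theorem acc2_run {M nul : ℕ} {key : ℕ → ℕ} (hM : 10 ≤ M) (inp : ℕ → ℕ) (s : St) (T : PT)
    (a b : ℕ) (ha : a < 100) (hb : b < 100) (h : TInv M nul key s T)
    (hxa : s.reg a ∈ T.nodes) (hxb : s.reg b ∈ T.nodes) (hab : s.reg a ≠ s.reg b) :
    ∃ s' l m r sa sb, ∃ n : ℕ, ∃ T' : PT, Does M inp (acc2M a b) s s' (2400 * (n + 2)) ∧
      (T' = .node (.node l (s.reg b) false sb m) (s.reg a) false sa r ∨
       T' = .node l (s.reg a) false sa (.node m (s.reg b) false sb r)) ∧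
      TInv M nul key s' T' ∧ T'.toL = T.toL ∧
      SameX [101, 102, 103, 104, 105, 106, 107, 108, 109, 110, 111, 112, 113] s s' ∧
      s'.reg 102 = s.reg b ∧ s'.reg 103 = s.reg a ∧ s'.reg ROOT = s.reg a ∧
      s'.reg 112 = m.rt nul ∧
      (n : ℝ) + T'.Phi ≤ T.Phi + 6 * rk T.size + 2 := by
  obtain ⟨s1, l1, sa, r1, n1, hr1, hT1, htoL1, hS1, h102, h103, hroot1, hPhi1⟩ :=
    acc_run hM inp s T a ha h hxa
  set A := s.reg a with hA
  set B := s.reg b with hB
  have hsize1 : (PT.node l1 A false sa r1).size = T.size := by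
    rw [← PT.length_toL, ← PT.length_toL, htoL1]
  have hB1 : B ∈ (PT.node l1 A false sa r1).nodes := by
    rw [(PT.nodes_perm _).mem_iff, htoL1, ← (PT.nodes_perm _).mem_iff]
    exact hxb
  have hb1 : s1.reg b = B := hS1.1 b (by
    simp only [List.mem_cons, List.not_mem_nil, or_false]
    omega)
  -- the state before the second splay
  set s2 : St := (s1.setReg 103 (s1.reg 102)).setReg 102 ((s1.setReg 103 (s1.reg 102)).reg b)
    with hs2
  have hb2 : (s1.setReg 103 (s1.reg 102)).reg b = B := by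
    rw [reg_setReg, if_neg (by omega), hb1]
  have h102_2 : s2.reg 102 = B := by rw [hs2, reg_setReg, if_pos rfl, hb2]
  have h103_2 : s2.reg 103 = A := by
    rw [hs2, reg_setReg, if_neg (by decide), reg_setReg, if_pos rfl, h102]
  have hroot2 : s2.reg ROOT = A := by
    rw [hs2, reg_setReg, if_neg (by decide), reg_setReg, if_neg (by decide), hroot1]
  have hT2 : TInv M nul key s2 (.node l1 A false sa r1) :=
    sl_TInv_setReg (sl_TInv_setReg hT1 _ _ (by decide)) _ _ (by decide)
  have hS2 : SameX [101, 102, 103, 104, 105, 106, 107, 108, 109, 110, 111, 112, 113] s1 s2 :=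
    (sl_SameX_setReg _ _ _ _ (by decide)).trans (sl_SameX_setReg _ _ _ _ (by decide))
  have hrec2 := sl_root (c := []) hT2
  have hpre : Does M inp (.seq (accM a) (.seq (.set 103 (.r 102)) (.set 102 (.r b)))) s s2
      (2300 * (n1 + 1) + (2 + 2)) :=
    hr1.seq ((sl_set (M := M) (inp := inp) s1 103 (.r 102) trivial).seq
      (sl_set (M := M) (inp := inp) (s1.setReg 103 (s1.reg 102)) 102 (.r b) trivial))
  have hnod := hT2.nodup
  rw [PT.nodes, List.nodup_cons, List.nodup_append] at hnod
  obtain ⟨hA_not, hnl, hnr, hdisj⟩ := hnod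
  rw [PT.nodes, List.mem_cons, List.mem_append] at hB1
  have hBA : B ≠ A := fun e => hab e.symm
  -- assembling the program from its pieces
  have hasm : ∀ (s3 s4 : St) (n2 : ℕ), Does M inp splayM s2 s3 (2200 * (n2 + 1)) →
      Does M inp (.ite (.eq (.ld RC (.r 103)) (.r 102)) (.set 112 (.ld LC (.r 102)))
        (.set 112 (.ld RC (.r 102)))) s3 s4 8 →
      Does M inp (acc2M a b) s s4 (2400 * ((n1 + n2) + 2)) := by
    intro s3 s4 n2 h3 h4
    have hd := hr1.seq ((sl_set (M := M) (inp := inp) s1 103 (.r 102) trivial).seq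
      ((sl_set (M := M) (inp := inp) (s1.setReg 103 (s1.reg 102)) 102 (.r b) trivial).seq
        (h3.seq h4)))
    refine hd.mono ?_
    simp only [Ex.sz]
    omega
  rcases hB1 with hB1 | hB1 | hB1
  · exact absurd hB1 hBA
  · -- left subtree
    obtain ⟨t, c, ht, hrt, hc⟩ := exists_focus nul l1 B hB1
    subst hc
    have hT2' : TInv M nul key s2 (plug t (c ++ [⟨true, A, false, sa, r1⟩])) := by
      rw [plug_append]
      exact hT2
    obtain ⟨s3, l, sb, m, n2, hr3, hT3, htoL3, hS3, hroot3, _, hPhi3⟩ :=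
      splay_run hM inp s2 t ht c [⟨true, A, false, sa, r1⟩] hT2' (by rw [h102_2, hrt]) h103_2
    rw [hrt] at hT3 htoL3 hPhi3
    have hT3' : TInv M nul key s3 (.node (.node l B false sb m) A false sa r1) := hT3
    have hrec3 := sl_root (c := []) hT3'
    have hrec3b := sl_root (c := [⟨true, A, false, sa, r1⟩]) (l := l) (x := B) (f := false)
      (b := sb) (r := m) hT3'
    have h102_3 : s3.reg 102 = B := by rw [hS3.1 102 (by decide), h102_2]
    have h103_3 : s3.reg 103 = A := by rw [hS3.1 103 (by decide), h103_2]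
    have hne : ¬ s3.arr RC (s3.reg 103) = s3.reg 102 := by
      rw [h103_3, h102_3, hrec3.2.2.1]
      intro e
      by_cases hr1 : r1 = .nil
      · subst hr1
        have : B < nul := hrec3b.2.2.2
        simp only [PT.rt] at e
        omega
      · have h5 : B ∈ r1.nodes := by rw [← e]; exact PT.rt_mem nul r1 hr1
        exact hdisj B hB1 B h5 rfl
    refine ⟨s3.setReg 112 (s3.arr RC (s3.reg 102)), l, m, r1, sa, sb, n1 + n2,
      .node (.node l B false sb m) A false sa r1, ?_, Or.inl rfl,
      sl_TInv_setReg hT3' _ _ (by decide), ?_, ?_, ?_, ?_, ?_, ?_, ?_⟩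
    · refine hasm s3 _ n2 hr3 ?_
      have hd : Does M inp (.ite (.eq (.ld RC (.r 103)) (.r 102)) (.set 112 (.ld LC (.r 102)))
        (.set 112 (.ld RC (.r 102)))) s3 (s3.setReg 112 (s3.arr RC (s3.reg 102)))
        ((Co.eq (.ld RC (.r 103)) (.r 102)).sz + 1 + 3) := by
        refine Does.ite ⟨trivial, trivial⟩ ?_ ?_
        · intro hh
          exact absurd hh hne
        · intro _
          exact sl_set s3 112 (.ld RC (.r 102)) trivial
      exact hd.mono (by simp [Co.sz, Ex.sz])
    · rw [← htoL1]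
      simp only [PT.toL, cf_false] at htoL3 ⊢
      rw [htoL3]
    · refine hS1.trans (hS2.trans ((hS3.mono ?_).trans (sl_SameX_setReg _ _ _ _ (by decide))))
      intro i hi
      simp only [List.mem_cons, List.not_mem_nil, or_false] at hi ⊢
      omega
    · rw [reg_setReg, if_neg (by decide), h102_3]
    · rw [reg_setReg, if_neg (by decide), h103_3]
    · rw [reg_setReg, if_neg (by decide), hroot3, if_neg (by simp), hroot2]
    · rw [reg_setReg, if_pos rfl, h102_3, hrec3b.2.2.1]
    · have e1 : (plug (plug t c) [⟨true, A, false, sa, r1⟩]).Phi =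
          (PT.node (plug t c) A false sa r1).Phi := rfl
      have e2 : (plug (plug t c) [⟨true, A, false, sa, r1⟩]).size = T.size := hsize1
      rw [plug_append] at hPhi3
      rw [e1, e2] at hPhi3
      have e3 : (plug (.node l B false sb m) [⟨true, A, false, sa, r1⟩]).Phi =
        (PT.node (.node l B false sb m) A false sa r1).Phi := rfl
      rw [e3] at hPhi3
      push_cast
      linarith
  · -- right subtree
    obtain ⟨t, c, ht, hrt, hc⟩ := exists_focus nul r1 B hB1
    subst hc
    have hT2' : TInv M nul key s2 (plug t (c ++ [⟨false, A, false, sa, l1⟩])) := by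
      rw [plug_append]
      exact hT2
    obtain ⟨s3, m, sb, r, n2, hr3, hT3, htoL3, hS3, hroot3, _, hPhi3⟩ :=
      splay_run hM inp s2 t ht c [⟨false, A, false, sa, l1⟩] hT2' (by rw [h102_2, hrt]) h103_2
    rw [hrt] at hT3 htoL3 hPhi3
    have hT3' : TInv M nul key s3 (.node l1 A false sa (.node m B false sb r)) := hT3
    have hrec3 := sl_root (c := []) hT3'
    have hrec3b := sl_root (c := [⟨false, A, false, sa, l1⟩]) (l := m) (x := B) (f := false)
      (b := sb) (r := r) hT3'
    have h102_3 : s3.reg 102 = B := by rw [hS3.1 102 (by decide), h102_2]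
    have h103_3 : s3.reg 103 = A := by rw [hS3.1 103 (by decide), h103_2]
    have heq : s3.arr RC (s3.reg 103) = s3.reg 102 := by
      rw [h103_3, h102_3, hrec3.2.2.1]
      rfl
    refine ⟨s3.setReg 112 (s3.arr LC (s3.reg 102)), l1, m, r, sa, sb, n1 + n2,
      .node l1 A false sa (.node m B false sb r), ?_, Or.inr rfl,
      sl_TInv_setReg hT3' _ _ (by decide), ?_, ?_, ?_, ?_, ?_, ?_, ?_⟩
    · refine hasm s3 _ n2 hr3 ?_
      have hd : Does M inp (.ite (.eq (.ld RC (.r 103)) (.r 102)) (.set 112 (.ld LC (.r 102)))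
        (.set 112 (.ld RC (.r 102)))) s3 (s3.setReg 112 (s3.arr LC (s3.reg 102)))
        ((Co.eq (.ld RC (.r 103)) (.r 102)).sz + 1 + 3) := by
        refine Does.ite ⟨trivial, trivial⟩ ?_ ?_
        · intro _
          exact sl_set s3 112 (.ld LC (.r 102)) trivial
        · intro hh
          exact absurd heq hh
      exact hd.mono (by simp [Co.sz, Ex.sz])
    · rw [← htoL1]
      simp only [PT.toL, cf_false] at htoL3 ⊢
      rw [htoL3]
    · refine hS1.trans (hS2.trans ((hS3.mono ?_).trans (sl_SameX_setReg _ _ _ _ (by decide))))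
      intro i hi
      simp only [List.mem_cons, List.not_mem_nil, or_false] at hi ⊢
      omega
    · rw [reg_setReg, if_neg (by decide), h102_3]
    · rw [reg_setReg, if_neg (by decide), h103_3]
    · rw [reg_setReg, if_neg (by decide), hroot3, if_neg (by simp), hroot2]
    · rw [reg_setReg, if_pos rfl, h102_3, hrec3b.2.1]
    · have e1 : (plug (plug t c) [⟨false, A, false, sa, l1⟩]).Phi =
          (PT.node l1 A false sa (plug t c)).Phi := rfl
      have e2 : (plug (plug t c) [⟨false, A, false, sa, l1⟩]).size = T.size := hsize1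
      rw [plug_append] at hPhi3
      rw [e1, e2] at hPhi3
      have e3 : (plug (.node m B false sb r) [⟨false, A, false, sa, l1⟩]).Phi =
        (PT.node l1 A false sa (.node m B false sb r)).Phi := rfl
      rw [e3] at hPhi3
      push_cast
      linarith

end SBR
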