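/-
SBR/SplayKth.lean : splaying the node at a given position.
-/
import Pool.Agent.SBR.SplayBasic
import Pool.Agent.SBR.SplayPush
import Pool.Agent.SBR.SplayLoop

namespace SBR

private theorem kth_sameX_setReg (s : St) (i v : ℕ) : SameX [i] s (s.setReg i v) := by
  refine ⟨fun j hj => ?_, fun _ _ => rfl, rfl⟩
  simp only [List.mem_singleton] at hj
  simp [hj]

private theorem kth_inv_setReg {M nul : ℕ} {key : ℕ → ℕ} {s : St} {T : PT}
    (h : TInv M nul key s T) (i v : ℕ) (hi : i ≠ NUL) : TInv M nul key (s.setReg i v) T := by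
  refine h.of_nd rfl ?_
  simp [Ne.symm hi]

/-- `chk2M` -/
private theorem kth_chk_run {M nul : ℕ} {key : ℕ → ℕ} (hM : 10 ≤ M) (inp : ℕ → ℕ) (s : St)
    (c : List Fr) (l : PT) (x : ℕ) (b : Bool) (r : PT)
    (h : TInv M nul key s (plug (.node l x false b r) c)) (hx : s.reg 102 = x) :
    ∃ s', Does M inp chk2M s s' 20 ∧ TInv M nul key s' (plug (.node l x false b r) c) ∧
      SameX [113] s s' ∧ (s'.reg 113 = 0 ↔ l.size = s.reg 114) := by
  obtain ⟨_, hst⟩ := stored_plug.1 h.stored
  obtain ⟨hxn, hm, hl, hr⟩ := hst
  have hlc : s.arr LC x = l.rt nul := by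
    have := congrArg Nd.lc hm
    simpa [nd, mkNd] using this
  have hsz : s.arr SZ (l.rt nul) = l.size := (hl.root h.nulok).1
  have hok : (Co.eq (.ld SZ (.ld LC (.r 102))) (.r 114)).Ok M inp s := ⟨trivial, trivial⟩
  by_cases hc : l.size = s.reg 114
  · refine ⟨s.setReg 113 0, ?_, kth_inv_setReg h _ _ (by decide), kth_sameX_setReg _ _ _, ?_⟩
    · refine ⟨_, ?_, Run.ite_t _ _ _ _ _ _ hok ?_
        (Run.set s () 113 (.c 0) (show 0 < M by omega))⟩
      · simp [Co.sz, Ex.sz]
      · show s.arr SZ (s.arr LC (s.reg 102)) = s.reg 114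
        rw [hx, hlc, hsz, hc]
    · simp [hc]
  · refine ⟨s.setReg 113 1, ?_, kth_inv_setReg h _ _ (by decide), kth_sameX_setReg _ _ _, ?_⟩
    · refine ⟨_, ?_, Run.ite_f _ _ _ _ _ _ hok ?_
        (Run.set s () 113 (.c 1) (show 1 < M by omega))⟩
      · simp [Co.sz, Ex.sz]
      · show ¬ s.arr SZ (s.arr LC (s.reg 102)) = s.reg 114
        rw [hx, hlc, hsz]
        exact hc
    · simp [hc]

private theorem kth_plug_push (l : PT) (x : ℕ) (f b : Bool) (r : PT) (c : List Fr) :
    (plug (.node (l.cflip f) x false b (r.cflip f)) c).toL = (plug (.node l x f b r) c).toL ∧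
    (plug (.node (l.cflip f) x false b (r.cflip f)) c).Phi = (plug (.node l x f b r) c).Phi ∧
    (plug (.node (l.cflip f) x false b (r.cflip f)) c).size =
      (plug (.node l x f b r) c).size := by
  have h1 : (PT.node (l.cflip f) x false b (r.cflip f)).toL = (PT.node l x f b r).toL := by
    simp [PT.toL]
  have h2 : (PT.node (l.cflip f) x false b (r.cflip f)).size = (PT.node l x f b r).size := by
    simp [PT.size]
  have h3 : (PT.node (l.cflip f) x false b (r.cflip f)).Phi = (PT.node l x f b r).Phi := by
    simp [PT.Phi]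
  refine ⟨toL_plug_congr h1 c, ?_, ?_⟩
  · have := Phi_plug_sub h2 c
    linarith
  · rw [size_plug, size_plug, h2]

/-- push and check -/
private theorem kth_pc_run {M nul : ℕ} {key : ℕ → ℕ} (hM : 10 ≤ M) (inp : ℕ → ℕ) (s : St)
    (c : List Fr) (l : PT) (x : ℕ) (f b : Bool) (r : PT)
    (h : TInv M nul key s (plug (.node l x f b r) c)) (hx : s.reg 102 = x) :
    ∃ s1 s2 l' r', Does M inp (pushM 102) s s1 150 ∧ Does M inp chk2M s1 s2 20 ∧
      TInv M nul key s2 (plug (.node l' x false b r') c) ∧
      SameX [111, 112, 113] s s2 ∧ (s2.reg 113 = 0 ↔ l'.size = s2.reg 114) ∧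
      (plug (.node l' x false b r') c).toL = (plug (.node l x f b r) c).toL ∧
      (plug (.node l' x false b r') c).Phi = (plug (.node l x f b r) c).Phi ∧
      (plug (.node l' x false b r') c).size = (plug (.node l x f b r) c).size ∧
      (PT.node l' x false b r').toL = (PT.node l x f b r).toL ∧
      (PT.node l' x false b r').size = (PT.node l x f b r).size := by
  obtain ⟨s1, hd1, hi1, hx1⟩ := push_run hM inp 102 (by norm_num) s c l x f b r h hx
  obtain ⟨s2, hd2, hi2, hx2, h2⟩ := kth_chk_run hM inp s1 c _ x b _ hi1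
    (by rw [hx1.1 102 (by decide), hx])
  obtain ⟨e1, e2, e3⟩ := kth_plug_push l x f b r c
  refine ⟨s1, s2, _, _, hd1, hd2, hi2, ?_, ?_, e1, e2, e3, ?_, ?_⟩
  · exact (hx1.mono (by simp)).trans (hx2.mono (by simp))
  · rw [h2, hx2.1 114 (by decide)]
  · simp [PT.toL]
  · simp [PT.size]

private theorem kth_desc_run {M nul : ℕ} {key : ℕ → ℕ} (hM : 10 ≤ M) (inp : ℕ → ℕ)
    (u : ℕ × Bool) (n : ℕ) : ∀ (s : St) (c : List Fr) (l : PT) (x : ℕ) (b : Bool) (r : PT),
      (PT.node l x false b r).size ≤ n →
      TInv M nul key s (plug (.node l x false b r) c) → s.reg 102 = x →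
      (PT.node l x false b r).toL[s.reg 114]? = some u →
      (s.reg 113 = 0 ↔ l.size = s.reg 114) →
    ∃ s' l' b' r' c', c.length ≤ c'.length ∧
      Does M inp (.whl (.lt (.c 0) (.r 113)) descM) s s'
        (300 * (c'.length - c.length) + 10) ∧
      TInv M nul key s' (plug (.node l' u.1 false b' r') c') ∧
      (plug (.node l' u.1 false b' r') c').toL = (plug (.node l x false b r) c).toL ∧
      (plug (.node l' u.1 false b' r') c').Phi = (plug (.node l x false b r) c).Phi ∧
      (plug (.node l' u.1 false b' r') c').size = (plug (.node l x false b r) c).size ∧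
      SameX [102, 111, 112, 113, 114] s s' ∧ s'.reg 102 = u.1 := by
  induction n with
  | zero => intro s c l x b r hs; simp [PT.size] at hs
  | succ n ih =>
    intro s c l x b r hs h hx hu h113
    have hwok : (Co.lt (.c 0) (.r 113)).Ok M inp s := ⟨show 0 < M by omega, trivial⟩
    have htoL : (PT.node l x false b r).toL = l.toL ++ (x, b) :: r.toL := by
      simp [PT.toL]
    by_cases hc : l.size = s.reg 114
    · -- found
      have h0 : s.reg 113 = 0 := h113.2 hc
      have hux : (x, b) = u := by
        rw [htoL, ← hc, ← PT.length_toL] at hu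
        rw [List.getElem?_append_right le_rfl] at hu
        simpa using hu
      have hnot : ¬ (Co.lt (.c 0) (.r 113)).Holds inp s := by
        show ¬ 0 < s.reg 113
        omega
      refine ⟨s, l, b, r, c, le_rfl, ⟨_, ?_, Run.whl_f _ _ _ hwok hnot⟩, ?_, ?_, ?_, ?_,
        SameX.refl _ _, ?_⟩
      · simp [Co.sz, Ex.sz]
      · rw [← hux]; exact h
      · rw [← hux]
      · rw [← hux]
      · rw [← hux]
      · rw [← hux]; exact hx
    · have h1 : ¬ s.reg 113 = 0 := fun h' => hc (h113.1 h')
      have hyes : (Co.lt (.c 0) (.r 113)).Holds inp s := by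
        show 0 < s.reg 113
        omega
      obtain ⟨_, hst⟩ := stored_plug.1 h.stored
      obtain ⟨hxn, hm, hl, hr⟩ := hst
      have hlc : s.arr LC x = l.rt nul := by
        have := congrArg Nd.lc hm
        simpa [nd, mkNd] using this
      have hrc : s.arr RC x = r.rt nul := by
        have := congrArg Nd.rc hm
        simpa [nd, mkNd] using this
      have hsz : s.arr SZ (l.rt nul) = l.size := (hl.root h.nulok).1
      have hcok : (Co.lt (.r 114) (.ld SZ (.ld LC (.r 102)))).Ok M inp s := ⟨trivial, trivial⟩
      by_cases hlt : s.reg 114 < l.size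
      · -- descend to the left
        have hcy : (Co.lt (.r 114) (.ld SZ (.ld LC (.r 102)))).Holds inp s := by
          show s.reg 114 < s.arr SZ (s.arr LC (s.reg 102))
          rw [hx, hlc, hsz]
          exact hlt
        have hul : l.toL[s.reg 114]? = some u := by
          rw [htoL, List.getElem?_append_left (by rw [PT.length_toL]; exact hlt)] at hu
          exact hu
        cases l with
        | nil => simp [PT.size] at hlt
        | node l1 y f1 b1 r1 =>
          have hrt : (PT.node l1 y f1 b1 r1).rt nul = y := rfl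
          rw [hrt] at hlc
          set s1 := s.setReg 102 y with hs1
          have hi1 : TInv M nul key s1 (plug (.node l1 y f1 b1 r1) (⟨true, x, false, b, r⟩ :: c)) :=
            kth_inv_setReg h _ _ (by decide)
          obtain ⟨s2, s3, l2, r2, hd2, hd3, hi3, hx3, h3, e1, e2, e3, e4, e5⟩ :=
            kth_pc_run hM inp s1 _ l1 y f1 b1 r1 hi1 (by simp [hs1])
          have hs3 : s3.reg 114 = s.reg 114 := by
            rw [hx3.1 114 (by decide), hs1]
            simp
          obtain ⟨s', l', b', r', c', hlen, hD, hT, t1, t2, t3, hX, h102⟩ :=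
            ih s3 _ l2 y b1 r2 (by
              rw [e5]
              simp only [PT.size] at hs ⊢
              omega) hi3 (by rw [hx3.1 102 (by decide)]; simp [hs1]) (by
              rw [e4, hs3]; exact hul) h3
          simp only [List.length_cons] at hlen
          refine ⟨s', l', b', r', c', by omega, ?_, hT, ?_, ?_, ?_, ?_, h102⟩
          · obtain ⟨k2, hk2, hr2⟩ := hd2
            obtain ⟨k3, hk3, hr3⟩ := hd3
            obtain ⟨k4, hk4, hr4⟩ := hD
            have e1 : Run M inp noPrim (.set 102 (.ld LC (.r 102))) (s, ()) (s1, ()) 3 := by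
              have := Run.set (M := M) (inp := inp) (ps := noPrim) s () 102 (.ld LC (.r 102))
                trivial
              simp only [Ex.eval, hx, hlc, Ex.sz] at this
              exact this
            refine ⟨_, ?_, Run.whl_t _ _ _ _ _ _ _ hwok hyes
              (Run.seq _ _ _ _ _ _ _ (Run.ite_t _ _ _ _ _ _ hcok hcy e1)
                (Run.seq _ _ _ _ _ _ _ hr2 hr3)) hr4⟩
            simp only [Co.sz, Ex.sz]
            simp only [List.length_cons] at hk4
            omega
          · rw [t1, e1]; rfl
          · rw [t2, e2]; rfl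
          · rw [t3, e3]; rfl
          · have hA : SameX [102, 111, 112, 113, 114] s s1 :=
              (kth_sameX_setReg s 102 _).mono (by simp)
            have hB : SameX [102, 111, 112, 113, 114] s1 s3 := hx3.mono (by simp)
            exact hA.trans (hB.trans hX)
      · -- descend to the right
        have hgt : l.size < s.reg 114 := by omega
        have hcn : ¬ (Co.lt (.r 114) (.ld SZ (.ld LC (.r 102)))).Holds inp s := by
          show ¬ s.reg 114 < s.arr SZ (s.arr LC (s.reg 102))
          rw [hx, hlc, hsz]
          exact hlt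
        have hur : r.toL[s.reg 114 - l.size - 1]? = some u := by
          rw [htoL, List.getElem?_append_right (by rw [PT.length_toL]; omega),
            PT.length_toL] at hu
          obtain ⟨k, hk⟩ : ∃ k, s.reg 114 - l.size = k + 1 :=
            ⟨s.reg 114 - l.size - 1, by omega⟩
          rw [hk] at hu ⊢
          simpa using hu
        cases r with
        | nil => simp [PT.toL] at hur
        | node l1 y f1 b1 r1 =>
          have hrt : (PT.node l1 y f1 b1 r1).rt nul = y := rfl
          rw [hrt] at hrc
          set s0 := s.setReg 114 (s.reg 114 - l.size - 1) with hs0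
          set s1 := s0.setReg 102 y with hs1
          have hi1 : TInv M nul key s1 (plug (.node l1 y f1 b1 r1) (⟨false, x, false, b, l⟩ :: c)) :=
            kth_inv_setReg (kth_inv_setReg h _ _ (by decide)) _ _ (by decide)
          obtain ⟨s2, s3, l2, r2, hd2, hd3, hi3, hx3, h3, e1, e2, e3, e4, e5⟩ :=
            kth_pc_run hM inp s1 _ l1 y f1 b1 r1 hi1 (by simp [hs1])
          have hs3 : s3.reg 114 = s.reg 114 - l.size - 1 := by
            rw [hx3.1 114 (by decide), hs1, hs0]
            simp
          obtain ⟨s', l', b', r', c', hlen, hD, hT, t1, t2, t3, hX, h102⟩ :=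
            ih s3 _ l2 y b1 r2 (by
              rw [e5]
              simp only [PT.size] at hs ⊢
              omega) hi3 (by rw [hx3.1 102 (by decide)]; simp [hs1]) (by
              rw [e4, hs3]; exact hur) h3
          simp only [List.length_cons] at hlen
          refine ⟨s', l', b', r', c', by omega, ?_, hT, ?_, ?_, ?_, ?_, h102⟩
          · obtain ⟨k2, hk2, hr2⟩ := hd2
            obtain ⟨k3, hk3, hr3⟩ := hd3
            obtain ⟨k4, hk4, hr4⟩ := hD
            have e0 : Run M inp noPrim
                (.set 114 (.sub (.sub (.r 114) (.ld SZ (.ld LC (.r 102)))) (.c 1)))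
                (s, ()) (s0, ()) 8 := by
              have := Run.set (M := M) (inp := inp) (ps := noPrim) s () 114
                (.sub (.sub (.r 114) (.ld SZ (.ld LC (.r 102)))) (.c 1)) (by
                  refine ⟨⟨trivial, trivial, ?_⟩, ?_, ?_⟩
                  · show s.arr SZ (s.arr LC (s.reg 102)) ≤ s.reg 114
                    rw [hx, hlc, hsz]
                    omega
                  · show 1 < M
                    omega
                  · show 1 ≤ s.reg 114 - s.arr SZ (s.arr LC (s.reg 102))
                    rw [hx, hlc, hsz]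
                    omega)
              simp only [Ex.eval, hx, hlc, hsz, Ex.sz] at this
              exact this
            have e1 : Run M inp noPrim (.set 102 (.ld RC (.r 102))) (s0, ()) (s1, ()) 3 := by
              have := Run.set (M := M) (inp := inp) (ps := noPrim) s0 () 102 (.ld RC (.r 102))
                trivial
              have h102' : s0.reg 102 = x := by rw [hs0]; simp [hx]
              have harr : s0.arr RC x = y := by rw [hs0]; exact hrc
              simp only [Ex.eval, h102', harr, Ex.sz] at this
              exact this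
            refine ⟨_, ?_, Run.whl_t _ _ _ _ _ _ _ hwok hyes
              (Run.seq _ _ _ _ _ _ _ (Run.ite_f _ _ _ _ _ _ hcok hcn
                (Run.seq _ _ _ _ _ _ _ e0 e1))
                (Run.seq _ _ _ _ _ _ _ hr2 hr3)) hr4⟩
            simp only [Co.sz, Ex.sz]
            simp only [List.length_cons] at hk4
            omega
          · rw [t1, e1]; rfl
          · rw [t2, e2]; rfl
          · rw [t3, e3]; rfl
          · have hA0 : SameX [102, 111, 112, 113, 114] s s0 :=
              (kth_sameX_setReg s 114 _).mono (by simp)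
            have hA : SameX [102, 111, 112, 113, 114] s0 s1 :=
              (kth_sameX_setReg s0 102 _).mono (by simp)
            have hB : SameX [102, 111, 112, 113, 114] s1 s3 := hx3.mono (by simp)
            exact hA0.trans (hA.trans (hB.trans hX))

theorem kth_run {M nul : ℕ} {key : ℕ → ℕ} (hM : 10 ≤ M) (inp : ℕ → ℕ) (s : St) (T : PT)
    (h : TInv M nul key s T) (hroot : s.reg ROOT = T.rt nul) (u : ℕ × Bool)
    (hu : T.toL[s.reg 114]? = some u) :
    ∃ s' l r, ∃ n : ℕ, Does M inp kthM s s' (3000 * (n + 1)) ∧
      TInv M nul key s' (.node l u.1 false u.2 r) ∧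
      (PT.node l u.1 false u.2 r).toL = T.toL ∧ l.size = s.reg 114 ∧
      SameX [101, 102, 103, 104, 105, 106, 107, 108, 109, 110, 111, 112, 113, 114] s s' ∧
      s'.reg 102 = u.1 ∧ s'.reg 103 = nul ∧ s'.reg ROOT = u.1 ∧
      (n : ℝ) + (PT.node l u.1 false u.2 r).Phi ≤
        T.Phi + 3 * rk T.size + 1 := by
  cases T with
  | nil => simp [PT.toL] at hu
  | node l0 x0 f0 b0 r0 =>
    have hrt : (PT.node l0 x0 f0 b0 r0).rt nul = x0 := rfl
    rw [hrt] at hroot
    set s1 := s.setReg 102 x0 with hs1
    have hi1 : TInv M nul key s1 (plug (.node l0 x0 f0 b0 r0) []) :=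
      kth_inv_setReg h _ _ (by decide)
    obtain ⟨s2, s3, l2, r2, hd2, hd3, hi3, hx3, h3, e1, e2, e3, e4, e5⟩ :=
      kth_pc_run hM inp s1 [] l0 x0 f0 b0 r0 hi1 (by simp [hs1])
    have hs3 : s3.reg 114 = s.reg 114 := by
      rw [hx3.1 114 (by decide), hs1]
      simp
    obtain ⟨s4, l4, b4, r4, c4, hlen, hD4, hT4, t1, t2, t3, hX4, h102⟩ :=
      kth_desc_run hM inp u _ s3 [] l2 x0 b0 r2 le_rfl hi3
        (by rw [hx3.1 102 (by decide)]; simp [hs1]) (by rw [e4, hs3]; exact hu) h3
    simp only [List.length_nil, Nat.sub_zero] at hD4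
    set s5 := s4.setReg 103 nul with hs5
    have hnul4 : s4.reg NUL = nul := hT4.hnul
    have hi5 : TInv M nul key s5 (plug (.node l4 u.1 false b4 r4) (c4 ++ [])) := by
      rw [List.append_nil]
      exact kth_inv_setReg hT4 _ _ (by decide)
    have h5a : s5.reg 102 = (PT.node l4 u.1 false b4 r4).rt nul := by
      rw [hs5]
      simp only [reg_setReg]
      exact h102
    obtain ⟨s', l, b, r, n, hD', hT', hL', hX', hR', hc', hPhi⟩ :=
      splay_run hM inp s5 (.node l4 u.1 false b4 r4) (by simp) c4 [] hi5 h5a (by simp [hs5, par])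
    have hrt' : (PT.node l4 u.1 false b4 r4).rt nul = u.1 := rfl
    rw [hrt'] at hT' hL' hR' hPhi
    rw [List.append_nil] at hPhi
    have hTT : (PT.node l u.1 false b r).toL = (PT.node l0 x0 f0 b0 r0).toL := by
      rw [hL', t1, e1]
      rfl
    have hT'' : TInv M nul key s' (.node l u.1 false b r) := hT'
    have hdec : (PT.node l u.1 false b r).toL = l.toL ++ (u.1, b) :: r.toL := by
      simp [PT.toL]
    -- position and sign
    have hnd : ((PT.node l u.1 false b r).toL.map Prod.fst).Nodup :=
      (PT.nodes_perm _).nodup_iff.1 hT''.nodup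
    have hat : (PT.node l u.1 false b r).toL[l.size]? = some (u.1, b) := by
      rw [hdec, ← PT.length_toL, List.getElem?_append_right le_rfl]
      simp
    have hat' : (PT.node l u.1 false b r).toL[s.reg 114]? = some u := by
      rw [hTT]
      exact hu
    have hpos : l.size = s.reg 114 := by
      have g1 : ((PT.node l u.1 false b r).toL.map Prod.fst)[l.size]? = some u.1 := by
        rw [List.getElem?_map, hat]; rfl
      have g2 : ((PT.node l u.1 false b r).toL.map Prod.fst)[s.reg 114]? = some u.1 := by
        rw [List.getElem?_map, hat']; rfl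
      obtain ⟨i1, j1⟩ := List.getElem?_eq_some_iff.1 g1
      exact (List.getElem?_inj i1 hnd).1 (g1.trans g2.symm)
    have hb : b = u.2 := by
      rw [hpos, hat'] at hat
      have := Option.some.inj hat
      exact (congrArg Prod.snd this).symm
    subst hb
    refine ⟨s', l, r, n, ?_, hT'', hTT, hpos, ?_, ?_, ?_, ?_, ?_⟩
    · obtain ⟨k2, hk2, hr2⟩ := hd2
      obtain ⟨k3, hk3, hr3⟩ := hd3
      obtain ⟨k4, hk4, hr4⟩ := hD4
      obtain ⟨k5, hk5, hr5⟩ := hD'
      have g1 : Run M inp noPrim (.set 102 (.r ROOT)) (s, ()) (s1, ()) 2 := by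
        have := Run.set (M := M) (inp := inp) (ps := noPrim) s () 102 (.r ROOT) trivial
        simp only [Ex.eval, hroot, Ex.sz] at this
        exact this
      have g5 : Run M inp noPrim (.set 103 (.r NUL)) (s4, ()) (s5, ()) 2 := by
        have := Run.set (M := M) (inp := inp) (ps := noPrim) s4 () 103 (.r NUL) trivial
        simp only [Ex.eval, hnul4, Ex.sz] at this
        exact this
      refine ⟨_, ?_, Run.seq _ _ _ _ _ _ _ g1 (Run.seq _ _ _ _ _ _ _ hr2
        (Run.seq _ _ _ _ _ _ _ hr3 (Run.seq _ _ _ _ _ _ _ hr4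
          (Run.seq _ _ _ _ _ _ _ g5 hr5))))⟩
      omega
    · have hA : SameX [101, 102, 103, 104, 105, 106, 107, 108, 109, 110, 111, 112, 113, 114]
          s s1 := (kth_sameX_setReg s 102 _).mono (by simp)
      have hB : SameX [101, 102, 103, 104, 105, 106, 107, 108, 109, 110, 111, 112, 113, 114]
          s1 s3 := hx3.mono (by simp)
      have hC : SameX [101, 102, 103, 104, 105, 106, 107, 108, 109, 110, 111, 112, 113, 114]
          s3 s4 := hX4.mono (by simp)
      have hD : SameX [101, 102, 103, 104, 105, 106, 107, 108, 109, 110, 111, 112, 113, 114]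
          s4 s5 := (kth_sameX_setReg s4 103 _).mono (by simp)
      have hE : SameX [101, 102, 103, 104, 105, 106, 107, 108, 109, 110, 111, 112, 113, 114]
          s5 s' := hX'.mono (by simp)
      exact hA.trans (hB.trans (hC.trans (hD.trans hE)))
    · rw [hX'.1 102 (by decide), h5a, hrt']
    · rw [hX'.1 103 (by decide), hs5]
      simp
    · rw [hR', if_pos rfl]
    · have f1 : (plug (.node l4 u.1 false b4 r4) c4).Phi = (PT.node l0 x0 f0 b0 r0).Phi := by
        rw [t2, e2]; rfl
      have f2 : (plug (.node l4 u.1 false b4 r4) c4).size = (PT.node l0 x0 f0 b0 r0).size := by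
        rw [t3, e3]; rfl
      rw [f1, f2] at hPhi
      exact hPhi

end SBR
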