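/-
SBR/SplayList.lean : uniqueness of decompositions of sequences with distinct nodes.
-/
import Pool.Agent.SBR.SplayBasic

namespace SBR

theorem decomp_unique {l1 l2 l1' l2' : List (ℕ × Bool)} {x : ℕ} {b b' : Bool}
    (hnd : ((l1 ++ (x, b) :: l2).map Prod.fst).Nodup)
    (h : l1 ++ (x, b) :: l2 = l1' ++ (x, b') :: l2') : l1 = l1' ∧ b = b' ∧ l2 = l2' := by
  induction l1 generalizing l1' with
  | nil =>
    cases l1' with
    | nil =>
      simp only [List.nil_append, List.cons.injEq, Prod.mk.injEq, true_and] at h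
      exact ⟨rfl, h.1, h.2⟩
    | cons y l1' =>
      exfalso
      simp only [List.nil_append, List.cons_append, List.cons.injEq] at h
      simp only [List.nil_append, List.map_cons, List.nodup_cons] at hnd
      apply hnd.1
      rw [h.2]
      simp
  | cons y l1 ih =>
    cases l1' with
    | nil =>
      exfalso
      simp only [List.nil_append, List.cons_append, List.cons.injEq] at h
      simp only [List.cons_append, List.map_cons, List.nodup_cons] at hnd
      apply hnd.1
      rw [h.1]
      simp
    | cons y' l1' =>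
      simp only [List.cons_append, List.cons.injEq] at h
      simp only [List.cons_append, List.map_cons, List.nodup_cons] at hnd
      obtain ⟨h1, h2, h3⟩ := ih hnd.2 h.2
      exact ⟨by rw [h.1, h1], h2, h3⟩

theorem decomp_unique_of_mem {L l1 l2 : List (ℕ × Bool)} {u : ℕ × Bool}
    (hnd : (L.map Prod.fst).Nodup) (h : L = l1 ++ u :: l2) {i : ℕ} {v : ℕ × Bool}
    (hv : L[i]? = some v) (huv : v.1 = u.1) : i = l1.length ∧ v = u := by
  subst h
  have h1 : (l1 ++ u :: l2)[l1.length]? = some u := by simp
  obtain ⟨hi, hv'⟩ := List.getElem?_eq_some_iff.mp hv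
  obtain ⟨hj, hu'⟩ := List.getElem?_eq_some_iff.mp h1
  have h2 : ((l1 ++ u :: l2).map Prod.fst)[i]'(by simpa using hi) =
      ((l1 ++ u :: l2).map Prod.fst)[l1.length]'(by simp) := by
    rw [List.getElem_map, List.getElem_map, hv', hu', huv]
  have h3 : i = l1.length := (List.Nodup.getElem_inj_iff hnd).mp h2
  subst h3
  exact ⟨rfl, hv'.symm.trans hu'⟩

/-- the sequence of a stored tree has distinct nodes -/
theorem TInv.nodup_toL {M nul : ℕ} {key : ℕ → ℕ} {s : St} {T : PT} (h : TInv M nul key s T) :
    (T.toL.map Prod.fst).Nodup :=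
  (PT.nodes_perm T).nodup_iff.mp h.nodup

theorem TInv.mem_nodes_of {M nul : ℕ} {key : ℕ → ℕ} {s : St} {T : PT}
    (_ : TInv M nul key s T) {l1 l2 : List (ℕ × Bool)} {x : ℕ × Bool}
    (hx : T.toL = l1 ++ x :: l2) : x.1 ∈ T.nodes := by
  rw [(PT.nodes_perm T).mem_iff, hx]
  simp

end SBR
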