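/-
SBR/SplayOpSim.lean : `CC` and `OpSim` are defined in SplayBasic.lean.
-/
import Pool.Agent.SBR.SplayBasic
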