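/-
SBR/SplayOps.lean : simulation of minneg, side, rank, setk, kth.
-/
import Pool.Agent.SBR.SplayC
import Pool.Agent.SBR.SplayOpSim
import Pool.Agent.SBR.SplayList
import Pool.Agent.SBR.SplayPull
import Pool.Agent.SBR.SplayRot
import Pool.Agent.SBR.SplayLoop
import Pool.Agent.SBR.SplayKth

namespace SBR

/-- setting a register `< 100` on both sides -/
theorem Rel.opsSetReg {M lam : ℕ} {s : St} {q : AQ} {st : St} {T : PT}
    (h : Rel M lam s q st T) {d v w : ℕ} (hd : d < 100) (hvw : v = w) (hv : v < M) :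
    Rel M lam (s.setReg d w) q (st.setReg d v) T := by
  subst hvw
  have hN : NUL = 100 := rfl
  have hR : ROOT = 101 := rfl
  have h1 : (st.setReg d v).reg NUL = st.reg NUL := by
    simp only [reg_setReg]
    rw [if_neg (by omega)]
  have h2 : (st.setReg d v).reg ROOT = st.reg ROOT := by
    simp only [reg_setReg]
    rw [if_neg (by omega)]
  refine ⟨?_, h.arr, h.out, h.toL, ?_, ?_, h.len, ?_⟩
  · intro i hi
    simp only [reg_setReg]
    split_ifs
    · rfl
    · exact h.reg i hi
  · rw [h1]
    exact h.inv.of_nd rfl h1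
  · rw [h1, h2]
    exact h.root
  · refine ⟨fun i => ?_, h.bdd.2⟩
    simp only [reg_setReg]
    split_ifs
    · exact hv
    · exact h.bdd.1 i

/-- a program that reorganises the tree and changes only registers `> 100` -/
theorem Rel.opsReorg {M lam : ℕ} {s : St} {q : AQ} {st : St} {T : PT}
    (h : Rel M lam s q st T) {inp : ℕ → ℕ} {p : Prog} {st' : St} {n : ℕ} {T' : PT}
    (hd : Does M inp p st st' n) {l : List ℕ} (hl : ∀ i ∈ l, 100 < i) (hs : SameX l st st')
    (hT : T'.toL = T.toL) (hi : TInv M (st.reg NUL) q.key st' T')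
    (hr : st'.reg ROOT = T'.rt (st.reg NUL)) : Rel M lam s q st' T' := by
  have hN : NUL = 100 := rfl
  have hnul : st'.reg NUL = st.reg NUL := hs.1 _ fun h => by
    have := hl _ h
    omega
  refine ⟨fun i hi => ?_, fun k hk => ?_, ?_, ?_, ?_, ?_, ?_, ?_⟩
  · rw [hs.1 i fun h => by have := hl _ h; omega]
    exact h.reg i hi
  · rw [hs.2.1 k hk]
    exact h.arr k hk
  · rw [hs.2.2]
    exact h.out
  · rw [hT]
    exact h.toL
  · rw [hnul]
    exact hi
  · rw [hnul]
    exact hr
  · rw [← PT.length_toL, hT, PT.length_toL]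
    exact h.len
  · exact hd.bdd h.bdd

theorem ops_does_set (M : ℕ) (inp : ℕ → ℕ) (s : St) (i : ℕ) (e : Ex) (h : e.Ok M inp s) :
    Does M inp (.set i e) s (s.setReg i (e.eval inp s)) (e.sz + 1) :=
  ⟨_, le_rfl, .set s () i e h⟩

theorem sim_minneg (d : ℕ) (h : Op.wf XV (.minneg d) = true) : OpSim (.minneg d) := by
  intro M inp lam s q s2 q2 k hM hlam hop st T hrel
  have hd : d < 100 := by simpa [Op.wf] using h
  cases hop with
  | minneg _ _ _ hne =>
    have hval : st.arr MN (st.reg ROOT) = mnk q.key false q.seq := by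
      have := (hrel.inv.stored.root hrel.inv.nulok).2.2.2
      rw [hrel.root, ← hrel.toL]
      exact this
    refine ⟨_, T, _, .set st () d (.ld MN (.r ROOT)) trivial, ?_, ?_⟩
    · exact hrel.opsSetReg hd hval (hrel.bdd.2 _ _)
    · have h1 : (1 : ℝ) ≤ lam := by exact_mod_cast hlam
      simp only [Ex.sz, CC]
      push_cast
      linarith

/-- common part of `side` and `rank` -/
theorem ops_acc_rel {M : ℕ} (hM : 10 ≤ M) (inp : ℕ → ℕ) {lam : ℕ} {s : St} {q : AQ} {st : St} {T : PT}
    (hrel : Rel M lam s q st T) {x : ℕ} (hx : x < 100) {b : Bool} {l₁ l₂ : List (ℕ × Bool)}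
    (h : q.seq = l₁ ++ (s.reg x, b) :: l₂) :
    ∃ st' l r, ∃ n : ℕ, Does M inp (accM x) st st' (2300 * (n + 1)) ∧
      Rel M lam s q st' (.node l (s.reg x) false b r) ∧ st'.reg 102 = s.reg x ∧
      l.toL = l₁ ∧ r.toL = l₂ ∧
      (n : ℝ) + (PT.node l (s.reg x) false b r).Phi ≤ T.Phi + 3 * lam + 1 := by
  have hxr : st.reg x = s.reg x := hrel.reg x hx
  have hmem : st.reg x ∈ T.nodes := by
    rw [hxr]
    exact hrel.inv.mem_nodes_of (hrel.toL.trans h)
  obtain ⟨st', l, b', r, n, h1, h2, h3, h4, h5, h6, h7, h8⟩ :=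
    acc_run hM inp st T x hx hrel.inv hmem
  rw [hxr] at h2 h3 h5 h7 h8
  have hnd : ((l₁ ++ (s.reg x, b) :: l₂).map Prod.fst).Nodup := by
    rw [← h, ← hrel.toL]
    exact hrel.inv.nodup_toL
  have heq : l₁ ++ (s.reg x, b) :: l₂ = l.toL ++ (s.reg x, b') :: r.toL := by
    rw [← h, ← hrel.toL, ← h3]
    rfl
  obtain ⟨e1, e2, e3⟩ := decomp_unique hnd heq
  subst e2
  refine ⟨st', l, r, n, h1, ?_, h5, e1.symm, e3.symm, ?_⟩
  · refine hrel.opsReorg h1 ?_ h4 h3 h2 h7
    intro i hi
    simp only [List.mem_cons, List.not_mem_nil, or_false] at hi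
    omega
  · have := rk_le_lam hrel.len
    linarith

/-- registers read after `accM` -/
theorem Rel.opsFields {M lam : ℕ} {s : St} {q : AQ} {st : St} {l r : PT} {x : ℕ} {b : Bool}
    (h : Rel M lam s q st (.node l x false b r)) :
    st.arr MX (st.arr LC x) = mxk q.key l.toL ∧ st.arr MP (st.arr RC x) = mnk q.key true r.toL ∧
    st.arr SZ (st.arr LC x) = l.toL.length ∧ st.arr SG x = b2n b := by
  obtain ⟨_, h2, h3, h4⟩ := h.inv.stored
  have hl := h3.root h.inv.nulok
  have hr := h4.root h.inv.nulok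
  have e1 : st.arr LC x = l.rt (st.reg NUL) := congrArg Nd.lc h2
  have e2 : st.arr RC x = r.rt (st.reg NUL) := congrArg Nd.rc h2
  rw [e1, e2, PT.length_toL]
  exact ⟨hl.2.1, hr.2.2.1, hl.1, congrArg Nd.sg h2⟩

theorem sim_side (x d e : ℕ) (h : Op.wf XV (.side x d e) = true) : OpSim (.side x d e) := by
  intro M inp lam s q s2 q2 k hM hlam hop st T hrel
  have hxde : (x < 100 ∧ d < 100) ∧ e < 100 := by simpa [Op.wf] using h
  obtain ⟨⟨hx, hd⟩, he⟩ := hxde
  cases hop with
  | side _ _ _ _ _ b l₁ l₂ hde hq =>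
    obtain ⟨st', l, r, n, h1, h2, h3, h4, h5, h6⟩ := ops_acc_rel hM inp hrel hx hq
    obtain ⟨f1, f2, _, _⟩ := h2.opsFields
    have g1 : (Ex.ld MX (.ld LC (.r 102))).eval inp st' = mxk q.key l₁ := by
      simp only [Ex.eval]
      rw [h3, f1, h4]
    have r1 := h2.opsSetReg hd g1 (by simp only [Ex.eval]; exact h2.bdd.2 _ _)
    set st1 := st'.setReg d ((Ex.ld MX (.ld LC (.r 102))).eval inp st') with hst1
    have h102 : st1.reg 102 = s.reg x := by
      rw [hst1, reg_setReg, if_neg (by omega), h3]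
    have g2 : (Ex.ld MP (.ld RC (.r 102))).eval inp st1 = mnk q.key true l₂ := by
      simp only [Ex.eval]
      rw [h102]
      change st'.arr MP (st'.arr RC (s.reg x)) = _
      rw [f2, h5]
    have r2 := r1.opsSetReg he g2 (by simp only [Ex.eval]; exact r1.bdd.2 _ _)
    have d1 := ops_does_set M inp st' d (.ld MX (.ld LC (.r 102))) trivial
    have d2 := ops_does_set M inp st1 e (.ld MP (.ld RC (.r 102))) trivial
    obtain ⟨k2, hk2, hrun⟩ := h1.seq (d1.seq d2)
    refine ⟨_, _, k2, hrun, r2, ?_⟩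
    have hk2' : (k2 : ℝ) ≤ 2300 * (n + 1) + (4 + 4) := by
      have : k2 ≤ 2300 * (n + 1) + (4 + 4) := hk2
      exact_mod_cast this
    have hl : (1 : ℝ) ≤ lam := by exact_mod_cast hlam
    have hn : (0 : ℝ) ≤ n := by positivity
    simp only [CC]
    push_cast
    linarith

theorem sim_rank (x d e : ℕ) (h : Op.wf XV (.rank x d e) = true) : OpSim (.rank x d e) := by
  intro M inp lam s q s2 q2 k hM hlam hop st T hrel
  have hxde : (x < 100 ∧ d < 100) ∧ e < 100 := by simpa [Op.wf] using h
  obtain ⟨⟨hx, hd⟩, he⟩ := hxde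
  cases hop with
  | rank _ _ _ _ _ b l₁ l₂ hde hq =>
    obtain ⟨st', l, r, n, h1, h2, h3, h4, h5, h6⟩ := ops_acc_rel hM inp hrel hx hq
    obtain ⟨_, _, f3, f4⟩ := h2.opsFields
    have g1 : (Ex.ld SZ (.ld LC (.r 102))).eval inp st' = l₁.length := by
      simp only [Ex.eval]
      rw [h3, f3, h4]
    have r1 := h2.opsSetReg hd g1 (by simp only [Ex.eval]; exact h2.bdd.2 _ _)
    set st1 := st'.setReg d ((Ex.ld SZ (.ld LC (.r 102))).eval inp st') with hst1
    have h102 : st1.reg 102 = s.reg x := by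
      rw [hst1, reg_setReg, if_neg (by omega), h3]
    have g2 : (Ex.ld SG (.r 102)).eval inp st1 = b2n b := by
      simp only [Ex.eval]
      rw [h102]
      exact f4
    have r2 := r1.opsSetReg he g2 (by simp only [Ex.eval]; exact r1.bdd.2 _ _)
    have d1 := ops_does_set M inp st' d (.ld SZ (.ld LC (.r 102))) trivial
    have d2 := ops_does_set M inp st1 e (.ld SG (.r 102)) trivial
    obtain ⟨k2, hk2, hrun⟩ := h1.seq (d1.seq d2)
    refine ⟨_, _, k2, hrun, r2, ?_⟩
    have hk2' : (k2 : ℝ) ≤ 2300 * (n + 1) + (4 + 3) := by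
      have : k2 ≤ 2300 * (n + 1) + (4 + 3) := hk2
      exact_mod_cast this
    have hl : (1 : ℝ) ≤ lam := by exact_mod_cast hlam
    have hn : (0 : ℝ) ≤ n := by positivity
    simp only [CC]
    push_cast
    linarith

theorem sim_kth (k d : ℕ) (h : Op.wf XV (.kth k d) = true) : OpSim (.kth k d) := by
  intro M inp lam s q s2 q2 kk hM hlam hop st T hrel
  have hkd : k < 100 ∧ d < 100 := by simpa [Op.wf] using h
  obtain ⟨hk, hd⟩ := hkd
  cases hop with
  | kth _ _ _ _ u hu =>
    have hN : NUL = 100 := rfl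
    have hR : ROOT = 101 := rfl
    have d0 := ops_does_set M inp st 114 (.r k) trivial
    set st0 := st.setReg 114 ((Ex.r k).eval inp st) with hst0
    have hnul0 : st0.reg NUL = st.reg NUL := by
      rw [hst0, reg_setReg, if_neg (by omega)]
    have hroot0 : st0.reg ROOT = T.rt (st.reg NUL) := by
      rw [hst0, reg_setReg, if_neg (by omega)]
      exact hrel.root
    have h114 : st0.reg 114 = s.reg k := by
      rw [hst0, reg_setReg, if_pos rfl]
      exact hrel.reg k hk
    have hinv0 : TInv M (st.reg NUL) q.key st0 T := hrel.inv.of_nd rfl hnul0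
    have hu0 : T.toL[st0.reg 114]? = some u := by
      rw [h114, hrel.toL]
      exact hu
    obtain ⟨st', l, r, n, h1, h2, h3, h4, h5, h6, h7, h8, h9⟩ :=
      kth_run hM inp st0 T hinv0 hroot0 u hu0
    have hdoes := d0.seq h1
    have hsame : SameX [101, 102, 103, 104, 105, 106, 107, 108, 109, 110, 111, 112, 113, 114]
        st st' := by
      refine ⟨fun i hi => ?_, fun k hk => ?_, ?_⟩
      · rw [h5.1 i hi, hst0, reg_setReg, if_neg]
        intro h
        apply hi
        simp [h]
      · rw [h5.2.1 k hk]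
        rfl
      · rw [h5.2.2]
        rfl
    have hrel' : Rel M lam s q st' (.node l u.1 false u.2 r) := by
      refine hrel.opsReorg hdoes ?_ hsame h3 h2 h8
      intro i hi
      simp only [List.mem_cons, List.not_mem_nil, or_false] at hi
      omega
    have g1 : (Ex.r 102).eval inp st' = u.1 := h6
    have r1 := hrel'.opsSetReg hd g1 (by simp only [Ex.eval]; exact hrel'.bdd.1 _)
    have d1 := ops_does_set M inp st' d (.r 102) trivial
    obtain ⟨k2, hk2, hrun⟩ := d0.seq (h1.seq d1)
    refine ⟨_, _, k2, hrun, r1, ?_⟩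
    have hk2' : (k2 : ℝ) ≤ 2 + (3000 * (n + 1) + 2) := by
      have : k2 ≤ 2 + (3000 * (n + 1) + 2) := hk2
      exact_mod_cast this
    have hl : (1 : ℝ) ≤ lam := by exact_mod_cast hlam
    have hn : (0 : ℝ) ≤ n := by positivity
    have hrk := rk_le_lam hrel.len
    simp only [CC]
    push_cast
    linarith

theorem sim_setk (x k : ℕ) (h : Op.wf XV (.setk x k) = true) : OpSim (.setk x k) := by
  intro M inp lam s q s2 q2 kk hM hlam hop st T hrel
  have hxk : x < 100 ∧ k < 100 := by simpa [Op.wf] using h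
  obtain ⟨hx, hk⟩ := hxk
  cases hop with
  | setk _ _ _ _ hmem =>
    obtain ⟨⟨y, b⟩, hy, hyx⟩ := List.mem_map.mp hmem
    simp only at hyx
    subst hyx
    obtain ⟨l₁, l₂, hq⟩ := List.append_of_mem hy
    obtain ⟨st', l, r, n, h1, h2, h3, h4, h5, h6⟩ := ops_acc_rel hM inp hrel hx hq
    set key' : ℕ → ℕ := fun y => if y = s.reg x then s.reg k else q.key y with hkey'
    have dsto : Does M inp (.sto KY (.r 102) (.r k)) st'
        (st'.setArr KY ((Ex.r 102).eval inp st') ((Ex.r k).eval inp st')) 3 :=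
      ⟨_, le_rfl, .sto st' () KY (.r 102) (.r k) trivial trivial⟩
    set st1 := st'.setArr KY ((Ex.r 102).eval inp st') ((Ex.r k).eval inp st') with hst1
    have hX : (Ex.r 102).eval inp st' = s.reg x := h3
    have hK : (Ex.r k).eval inp st' = s.reg k := h2.reg k hk
    have hst1' : st1 = st'.setArr KY (s.reg x) (s.reg k) := by rw [hst1, hX, hK]
    have hnd1 : ∀ y, y ≠ s.reg x → nd st1 y = nd st' y := by
      intro y hy
      rw [hst1']
      simp only [nd, arr_setArr]
      simp [hy]
    have hndx : nd st1 (s.reg x) = { nd st' (s.reg x) with ky := s.reg k } := by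
      rw [hst1']
      simp only [nd, arr_setArr]
      simp
    have hnul1 : st1.reg NUL = st'.reg NUL := by rw [hst1']; rfl
    have hinv' := h2.inv
    obtain ⟨s1, s2', s3, s4⟩ := hinv'.stored
    have hnodup := hinv'.nodup
    have hxl : s.reg x ∉ l.nodes := by
      have := (List.nodup_cons.mp hnodup).1
      exact fun h => this (List.mem_append_left _ h)
    have hxr : s.reg x ∉ r.nodes := by
      have := (List.nodup_cons.mp hnodup).1
      exact fun h => this (List.mem_append_right _ h)
    have e1 : (nd st' (s.reg x)).lc = l.rt (st'.reg NUL) := congrArg Nd.lc s2'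
    have e2 : (nd st' (s.reg x)).rc = r.rt (st'.reg NUL) := congrArg Nd.rc s2'
    have e3 : (nd st' (s.reg x)).pa = st'.reg NUL := congrArg Nd.pa s2'
    have e4 : (nd st' (s.reg x)).fl = b2n false := congrArg Nd.fl s2'
    have e5 : (nd st' (s.reg x)).sg = b2n b := congrArg Nd.sg s2'
    have hnulx : st'.reg NUL ≠ s.reg x := by omega
    have hnulok1 : NulOk (st'.reg NUL) (nd st1) := by
      have := hinv'.nulok
      unfold NulOk at this ⊢
      rw [hnd1 _ hnulx]
      exact this
    have hl1 : Stored (st'.reg NUL) key' (nd st1) l (s.reg x) := by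
      refine (s3.congr (m' := nd st1) fun y hy => hnd1 y fun h => hxl (by rw [← h]; exact hy)).key_congr
        fun y hy => ?_
      rw [hkey']
      simp only
      rw [if_neg fun h => hxl (by rw [← h]; exact hy)]
    have hr1 : Stored (st'.reg NUL) key' (nd st1) r (s.reg x) := by
      refine (s4.congr (m' := nd st1) fun y hy => hnd1 y fun h => hxr (by rw [← h]; exact hy)).key_congr
        fun y hy => ?_
      rw [hkey']
      simp only
      rw [if_neg fun h => hxr (by rw [← h]; exact hy)]
    have h102 : st1.reg 102 = s.reg x := by rw [hst1']; exact h3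
    have hsz : (nd st1 (nd st1 (st1.reg 102)).lc).sz + (nd st1 (nd st1 (st1.reg 102)).rc).sz + 1
        < M := by
      rw [h102, hndx]
      simp only
      rw [e1, e2, (hl1.root hnulok1).1, (hr1.root hnulok1).1]
      exact hinv'.size_lt
    obtain ⟨st2, p1, p2, p3⟩ := pull_run hM inp 102 (by norm_num) st1 hsz
    rw [h102] at p2
    have hst := stored_pull (nul := st'.reg NUL) (key := key') (m := nd st1) (l := l) (r := r)
      (x := s.reg x) (p := st'.reg NUL) (b := b) hnodup hnulok1 s1 hl1 hr1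
      (by rw [hndx]; exact e1) (by rw [hndx]; exact e2) (by rw [hndx]; exact e3)
      (by rw [hndx]; exact e4) (by rw [hndx]; exact e5)
      (by rw [hndx, hkey']; simp)
    have hd := h1.seq (dsto.seq p1)
    have hnul2 : st2.reg NUL = st'.reg NUL := by
      rw [p3.1 NUL (by decide), hnul1]
    have hrelf : Rel M lam s { q with key := key' } st2 (.node l (s.reg x) false b r) := by
      refine ⟨fun i hi => ?_, fun j hj => ?_, ?_, ?_, ?_, ?_, ?_, ?_⟩
      · rw [p3.1 i (by simp; omega), hst1']
        exact h2.reg i hi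
      · rw [p3.2.1 j hj, ← h2.arr j hj, hst1']
        ext y
        rw [arr_setArr, if_neg]
        intro h
        have hKY : KY = 66 := rfl
        omega
      · rw [p3.2.2, hst1']
        exact h2.out
      · exact h2.toL
      · rw [hnul2]
        refine ⟨by rw [p2]; exact hst, hnodup, ?_, hnul2, hinv'.lt⟩
        rw [p2]
        unfold NulOk pullN
        rw [Function.update_of_ne hnulx]
        exact hnulok1
      · rw [hnul2, p3.1 ROOT (by decide), hst1']
        exact h2.root
      · exact h2.len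
      · exact hd.bdd hrel.bdd
    obtain ⟨k2, hk2, hrun⟩ := hd
    refine ⟨_, _, k2, hrun, hrelf, ?_⟩
    have hk2' : (k2 : ℝ) ≤ 2300 * (n + 1) + (3 + 200) := by
      have : k2 ≤ 2300 * (n + 1) + (3 + 200) := hk2
      exact_mod_cast this
    have hl : (1 : ℝ) ≤ lam := by exact_mod_cast hlam
    have hn : (0 : ℝ) ≤ n := by positivity
    simp only [CC]
    push_cast
    linarith

end SBR
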