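/-
SBR/SplayRev.lean : simulation of the operations `btw` and `rev` (package S8).
-/
import Pool.Agent.SBR.SplayOpSim
import Pool.Agent.SBR.SplayPull
import Pool.Agent.SBR.SplayPush
import Pool.Agent.SBR.SplayRot
import Pool.Agent.SBR.SplayLoop

namespace SBR

/-- uniqueness of the decomposition at a node -/
private theorem rv_uniq1 {α β : Type*} : ∀ {l₁ l₂ l₁' l₂' : List (α × β)} {u u' : α × β},
    ((l₁ ++ u :: l₂).map Prod.fst).Nodup → l₁ ++ u :: l₂ = l₁' ++ u' :: l₂' → u.1 = u'.1 →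
    l₁ = l₁' ∧ u = u' ∧ l₂ = l₂' := by
  intro l₁
  induction l₁ with
  | nil =>
    intro l₂ l₁' l₂' u u' hn h hu
    cases l₁' with
    | nil => simp at h; exact ⟨rfl, h.1, h.2⟩
    | cons x t =>
      exfalso
      simp only [List.nil_append, List.cons_append, List.cons.injEq] at h
      obtain ⟨h1, h2⟩ := h
      subst h1 h2
      simp [hu] at hn
  | cons x t ih =>
    intro l₂ l₁' l₂' u u' hn h hu
    cases l₁' with
    | nil =>
      exfalso
      simp only [List.nil_append, List.cons_append, List.cons.injEq] at h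
      obtain ⟨h1, h2⟩ := h
      subst h1
      simp [← hu] at hn
    | cons y t' =>
      simp only [List.cons_append, List.cons.injEq] at h
      obtain ⟨h1, h2⟩ := h
      subst h1
      have hn' : ((t ++ u :: l₂).map Prod.fst).Nodup := by
        simp only [List.cons_append, List.map_cons, List.nodup_cons] at hn
        exact hn.2
      obtain ⟨e1, e2, e3⟩ := ih hn' h2 hu
      exact ⟨by rw [e1], e2, e3⟩

/-- uniqueness of the decomposition at two nodes -/
private theorem rv_uniq2 {α β : Type*} {l₁ l₂ l₃ l₁' l₂' l₃' : List (α × β)} {u v u' v' : α × β}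
    (hn : ((l₁ ++ u :: (l₂ ++ v :: l₃)).map Prod.fst).Nodup)
    (h : l₁ ++ u :: (l₂ ++ v :: l₃) = l₁' ++ u' :: (l₂' ++ v' :: l₃'))
    (huv : (u.1 = u'.1 ∧ v.1 = v'.1) ∨ (u.1 = v'.1 ∧ v.1 = u'.1)) :
    l₁ = l₁' ∧ u = u' ∧ l₂ = l₂' ∧ v = v' ∧ l₃ = l₃' := by
  rcases huv with ⟨h1, h2⟩ | ⟨h1, h2⟩
  · obtain ⟨e1, e2, e3⟩ := rv_uniq1 hn h h1
    have hn' : ((l₂ ++ v :: l₃).map Prod.fst).Nodup := by
      rw [List.map_append, List.map_cons] at hn
      have := (List.nodup_append.mp hn).2.1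
      exact (List.nodup_cons.mp this).2
    obtain ⟨e4, e5, e6⟩ := rv_uniq1 hn' e3 h2
    exact ⟨e1, e2, e4, e5, e6⟩
  · exfalso
    have h' : l₁ ++ u :: (l₂ ++ v :: l₃) = (l₁' ++ u' :: l₂') ++ v' :: l₃' := by
      rw [h]; simp
    obtain ⟨e1, e2, e3⟩ := rv_uniq1 hn h' h1
    rw [e1, List.append_assoc, List.map_append, List.nodup_append] at hn
    have hn2 := hn.2.1
    rw [List.cons_append, List.map_cons, List.nodup_cons] at hn2
    apply hn2.1
    rw [← h2]
    simp

/-- state after `acc2M` -/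
private theorem rv_acc2 {M : ℕ} (hM : 10 ≤ M) (inp : ℕ → ℕ) {lam : ℕ} {s : St} {q : AQ} {st : St}
    {T : PT} (hr : Rel M lam s q st T) {a b : ℕ} (ha : a < 100) (hb : b < 100)
    {u v : ℕ × Bool} {l₁ l₂ l₃ : List (ℕ × Bool)} (h : q.seq = l₁ ++ u :: (l₂ ++ v :: l₃))
    (huv : (u.1 = s.reg a ∧ v.1 = s.reg b) ∨ (u.1 = s.reg b ∧ v.1 = s.reg a)) :
    ∃ (s' : St) (d : Bool) (m o o' : PT) (sa sb : Bool) (n : ℕ),
      Does M inp (acc2M a b) st s' (2400 * (n + 2)) ∧
      TInv M (st.reg NUL) q.key s'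
        (plug m [⟨d, st.reg b, false, sb, o⟩, ⟨!d, st.reg a, false, sa, o'⟩]) ∧
      m.toL = l₂ ∧
      (∀ t : PT, (plug t [⟨d, st.reg b, false, sb, o⟩, ⟨!d, st.reg a, false, sa, o'⟩]).toL =
        l₁ ++ u :: (t.toL ++ v :: l₃)) ∧
      SameX [101, 102, 103, 104, 105, 106, 107, 108, 109, 110, 111, 112, 113] st s' ∧
      s'.reg 102 = st.reg b ∧ s'.reg 103 = st.reg a ∧ s'.reg ROOT = st.reg a ∧
      s'.reg 112 = m.rt (st.reg NUL) ∧
      (n : ℝ) + (plug m [⟨d, st.reg b, false, sb, o⟩, ⟨!d, st.reg a, false, sa, o'⟩]).Phi ≤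
        T.Phi + 6 * lam + 2 := by
  have hnd : (q.seq.map Prod.fst).Nodup := by
    rw [← hr.toL]
    exact (PT.nodes_perm T).nodup_iff.mp hr.inv.nodup
  have hmem : ∀ x, x ∈ T.nodes ↔ x ∈ q.seq.map Prod.fst := by
    intro x
    rw [(PT.nodes_perm T).mem_iff, hr.toL]
  have hne : u.1 ≠ v.1 := by
    rw [h, List.map_append, List.map_cons] at hnd
    have := (List.nodup_append.mp hnd).2.1
    rw [List.nodup_cons] at this
    intro e
    apply this.1
    rw [e]
    simp
  have hra := hr.reg a ha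
  have hrb := hr.reg b hb
  have hua : u.1 ∈ T.nodes := by rw [hmem, h]; simp
  have hva : v.1 ∈ T.nodes := by rw [hmem, h]; simp
  have hxa : st.reg a ∈ T.nodes := by
    rcases huv with ⟨e1, e2⟩ | ⟨e1, e2⟩
    · rw [hra, ← e1]; exact hua
    · rw [hra, ← e2]; exact hva
  have hxb : st.reg b ∈ T.nodes := by
    rcases huv with ⟨e1, e2⟩ | ⟨e1, e2⟩
    · rw [hrb, ← e2]; exact hva
    · rw [hrb, ← e1]; exact hua
  have hab : st.reg a ≠ st.reg b := by
    rcases huv with ⟨e1, e2⟩ | ⟨e1, e2⟩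
    · rw [hra, hrb, ← e1, ← e2]; exact hne
    · rw [hra, hrb, ← e1, ← e2]; exact hne.symm
  obtain ⟨s', l, m, r, sa, sb, n, T', hdo, hT', hinv, htoL, hsame, h102, h103, hroot, h112,
    hphi⟩ := acc2_run hM inp st T a b ha hb hr.inv hxa hxb hab
  have hlam : rk T.size ≤ lam := rk_le_lam hr.len
  have hphi' : (n : ℝ) + T'.Phi ≤ T.Phi + 6 * lam + 2 := by linarith
  rcases hT' with hT' | hT'
  · refine ⟨s', false, m, l, r, sa, sb, n, hdo, ?_, ?_⟩
    · simpa [plug, Fr.plug] using hT' ▸ hinv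
    have htt : ∀ t : PT, (plug t [⟨false, st.reg b, false, sb, l⟩,
        ⟨!false, st.reg a, false, sa, r⟩]).toL =
        l.toL ++ (st.reg b, sb) :: (t.toL ++ (st.reg a, sa) :: r.toL) := by
      intro t
      simp [plug, Fr.plug, PT.toL]
    have hTe : plug m [⟨false, st.reg b, false, sb, l⟩, ⟨!false, st.reg a, false, sa, r⟩] = T' := by
      rw [hT']; simp [plug, Fr.plug]
    have hkey : l₁ ++ u :: (l₂ ++ v :: l₃) =
        l.toL ++ (st.reg b, sb) :: (m.toL ++ (st.reg a, sa) :: r.toL) := by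
      rw [← htt m, hTe, htoL, hr.toL, h]
    obtain ⟨e1, e2, e3, e4, e5⟩ := rv_uniq2 (by rw [← h]; exact hnd) hkey (by
      rw [hra, hrb]; rcases huv with ⟨e1, e2⟩ | ⟨e1, e2⟩
      · right; exact ⟨e1, e2⟩
      · left; exact ⟨e1, e2⟩)
    refine ⟨e3.symm, ?_, hsame, h102, h103, hroot, h112, ?_⟩
    · intro t
      rw [htt t, e1, e2, e4, e5]
    · rw [hTe]; exact hphi'
  · refine ⟨s', true, m, r, l, sa, sb, n, hdo, ?_, ?_⟩
    · simpa [plug, Fr.plug] using hT' ▸ hinv
    have htt : ∀ t : PT, (plug t [⟨true, st.reg b, false, sb, r⟩,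
        ⟨!true, st.reg a, false, sa, l⟩]).toL =
        l.toL ++ (st.reg a, sa) :: (t.toL ++ (st.reg b, sb) :: r.toL) := by
      intro t
      simp [plug, Fr.plug, PT.toL]
    have hTe : plug m [⟨true, st.reg b, false, sb, r⟩, ⟨!true, st.reg a, false, sa, l⟩] = T' := by
      rw [hT']; simp [plug, Fr.plug]
    have hkey : l₁ ++ u :: (l₂ ++ v :: l₃) =
        l.toL ++ (st.reg a, sa) :: (m.toL ++ (st.reg b, sb) :: r.toL) := by
      rw [← htt m, hTe, htoL, hr.toL, h]
    obtain ⟨e1, e2, e3, e4, e5⟩ := rv_uniq2 (by rw [← h]; exact hnd) hkey (by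
      rw [hra, hrb]; rcases huv with ⟨e1, e2⟩ | ⟨e1, e2⟩
      · left; exact ⟨e1, e2⟩
      · right; exact ⟨e1, e2⟩)
    refine ⟨e3.symm, ?_, hsame, h102, h103, hroot, h112, ?_⟩
    · intro t
      rw [htt t, e1, e2, e4, e5]
    · rw [hTe]; exact hphi'

theorem sim_btw (a b d : ℕ) (h : Op.wf XV (.btw a b d) = true) : OpSim (.btw a b d) := by
  intro M inp lam s q s2 q2 k hM hl ho st T hr
  simp only [Op.wf, Bool.and_eq_true, decide_eq_true_eq] at h
  obtain ⟨⟨ha, hb⟩, hd⟩ := h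
  have hd' : d < 100 := hd
  cases ho with
  | btw _ _ _ _ _ u v l₁ l₂ l₃ hs huv =>
    obtain ⟨s', dd, m, o, o', sa, sb, n, hdo, hinv, hm, htoL, hsame, h102, h103, hroot, h112,
      hphi⟩ := rv_acc2 hM inp hr ha hb hs huv
    set fr : List Fr := [⟨dd, st.reg b, false, sb, o⟩, ⟨!dd, st.reg a, false, sa, o'⟩] with hfr
    obtain ⟨k', hk', hrun⟩ := hdo
    have hst := (stored_plug.mp hinv.stored).2
    have hval : s'.arr MX (s'.reg 112) = mxk q.key l₂ := by
      rw [h112, ← hm]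
      exact (hst.root hinv.nulok).2.1
    have hrun2 : Run M inp noPrim (trOp (.btw a b d)) (st, ())
        (s'.setReg d (mxk q.key l₂), ()) (k' + 3) := by
      rw [← hval]
      exact Run.seq _ _ _ _ _ k' 3 hrun (Run.set s' () d (.ld MX (.r 112)) trivial)
    have hnul : (s'.setReg d (mxk q.key l₂)).reg NUL = st.reg NUL := by
      rw [reg_setReg, if_neg (by simp only [NUL]; omega)]
      exact hinv.hnul
    refine ⟨_, plug m fr, k' + 3, hrun2, ?_, ?_⟩
    · refine ⟨?_, ?_, ?_, ?_, ?_, ?_, ?_, ?_⟩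
      · intro i hi
        rw [reg_setReg, reg_setReg]
        split_ifs with hid
        · rfl
        · rw [hsame.1 i (by simp; omega), hr.reg i hi]
      · intro k hk
        rw [arr_setReg, arr_setReg, hsame.2.1 k hk, hr.arr k hk]
      · rw [out_setReg, out_setReg, hsame.2.2, hr.out]
      · rw [htoL, hm, hs]
      · rw [hnul]
        exact hinv.of_nd rfl (by rw [reg_setReg, if_neg (by simp only [NUL]; omega)])
      · rw [hnul, reg_setReg, if_neg (by simp only [ROOT]; omega), hroot]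
        simp only [hfr, plug, Fr.plug]
        cases dd <;> simp [PT.rt]
      · rw [← PT.length_toL, htoL, hm, ← hs, ← hr.toL, PT.length_toL]
        exact hr.len
      · exact Does.bdd ⟨_, le_refl _, hrun2⟩ hr.bdd
    · have h1 : (1 : ℝ) ≤ lam := by exact_mod_cast hl
      have h2 : ((k' + 3 : ℕ) : ℝ) ≤ 2400 * ((n : ℝ) + 2) + 3 := by
        have : ((k' + 3 : ℕ) : ℝ) ≤ ((2400 * (n + 2) + 3 : ℕ) : ℝ) := by exact_mod_cast by omega
        push_cast at this ⊢
        linarith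
      have h3 : (0 : ℝ) ≤ n := Nat.cast_nonneg n
      simp only [CC] at *
      push_cast at *
      linarith

private theorem rv_flipN {nul : ℕ} {mm : ℕ → Nd} {m : PT} {y : ℕ} (hy : y ∉ m.nodes) :
    flipN nul (m.rt nul) mm y = mm y := by
  cases m with
  | nil => simp [flipN, PT.rt]
  | node l x f s r =>
    unfold flipN
    split_ifs
    · rfl
    · rw [Function.update_of_ne]
      rintro rfl
      exact hy (PT.rt_mem nul _ (by simp))

private theorem rv_pull {nul : ℕ} {key : ℕ → ℕ} {mm : ℕ → Nd} {t o : PT} {x p : ℕ} {s : Bool}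
    (d : Bool) (hn : (Fr.plug ⟨d, x, false, s, o⟩ t).nodes.Nodup) (h0 : NulOk nul mm)
    (hx : x < nul) (ht : Stored nul key mm t x) (ho : Stored nul key mm o x)
    (h1 : (mm x).lc = if d then t.rt nul else o.rt nul)
    (h2 : (mm x).rc = if d then o.rt nul else t.rt nul) (h3 : (mm x).pa = p)
    (h4 : (mm x).fl = 0) (h5 : (mm x).sg = b2n s) (h6 : (mm x).ky = key x) :
    Stored nul key (pullN x mm) (Fr.plug ⟨d, x, false, s, o⟩ t) p := by
  cases d
  · simp only [Fr.plug, Bool.false_eq_true, if_false] at *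
    exact stored_pull hn h0 hx ho ht h1 h2 h3 h4 h5 h6
  · simp only [Fr.plug, if_true] at *
    exact stored_pull hn h0 hx ht ho h1 h2 h3 h4 h5 h6

private theorem rv_pullN_ne {x y : ℕ} {mm : ℕ → Nd} (h : y ≠ x) : pullN x mm y = mm y := by
  unfold pullN
  rw [Function.update_of_ne h]

/-- flip of the middle part -/
private theorem rv_mid {M : ℕ} (hM : 10 ≤ M) (inp : ℕ → ℕ) {nul : ℕ} {key : ℕ → ℕ} {s' : St}
    (d : Bool) {A B : ℕ} {m o o' : PT} {sa sb : Bool}
    (h : TInv M nul key s' (plug m [⟨d, B, false, sb, o⟩, ⟨!d, A, false, sa, o'⟩]))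
    (h102 : s'.reg 102 = B) (h103 : s'.reg 103 = A) (h112 : s'.reg 112 = m.rt nul) :
    ∃ s'', Does M inp (blk [flipM 112, pullM 102, pullM 103]) s' s'' 500 ∧
      TInv M nul key s'' (plug m.flip [⟨d, B, false, sb, o⟩, ⟨!d, A, false, sa, o'⟩]) ∧
      SameX [110, 111] s' s'' := by
  have hstC := (stored_plug.mp h.stored).1
  have hst := (stored_plug.mp h.stored).2
  simp only [par] at hst
  simp only [StoredC, par] at hstC
  obtain ⟨hB, hBr, hoB, hA, hAr, hoA, -⟩ := hstC
  have hnd := h.nodup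
  have hperm := nodes_plug m [⟨d, B, false, sb, o⟩, ⟨!d, A, false, sa, o'⟩]
  rw [hperm.nodup_iff] at hnd
  simp only [nodesC, List.append_nil] at hnd
  rw [List.nodup_append] at hnd
  obtain ⟨hm1, hm2, hm3⟩ := hnd
  have hBm : B ∉ m.nodes := fun hh => hm3 B hh B (by simp) rfl
  have hAm : A ∉ m.nodes := fun hh => hm3 A hh A (by simp) rfl
  have hom : ∀ y ∈ o.nodes, y ∉ m.nodes := fun y hy hh => hm3 y hh y (by simp [hy]) rfl
  have hom' : ∀ y ∈ o'.nodes, y ∉ m.nodes := fun y hy hh => hm3 y hh y (by simp [hy]) rfl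
  rw [List.nodup_cons] at hm2
  obtain ⟨hB2, hm4⟩ := hm2
  have hAB : A ≠ B := by rintro rfl; exact hB2 (by simp)
  have hoB' : B ∉ o.nodes := fun hh => hB2 (by simp [hh])
  have hoB2 : B ∉ o'.nodes := fun hh => hB2 (by simp [hh])
  rw [List.nodup_append] at hm4
  obtain ⟨hm5, hm6, hm7⟩ := hm4
  rw [List.nodup_cons] at hm6
  obtain ⟨hA2, hm8⟩ := hm6
  have hoA2 : A ∉ o.nodes := fun hh => hm7 A hh A (by simp) rfl
  have hnulm : nul ∉ m.nodes := fun hh => absurd (hst.lt nul hh) (lt_irrefl _)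
  -- sizes
  have hsz := h.size_lt
  rw [size_plug] at hsz
  simp only [nodesC, List.append_nil, List.length_cons, List.length_append, PT.length_nodes] at hsz
  -- flip
  obtain ⟨s1, hd1, hn1, hx1⟩ := flip_run hM inp 112 (Or.inr rfl) s' (by
    intro hne
    rw [h112] at hne ⊢
    cases m with
    | nil => rw [h.hnul] at hne; simp [PT.rt] at hne
    | node l x f s r =>
      simp only [Stored] at hst
      simp only [PT.rt, hst.2.1, mkNd]
      cases f <;> cases s <;> simp [b2n])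
  rw [h.hnul, h112] at hn1
  have e1 : ∀ y, y ∉ m.nodes → nd s1 y = nd s' y := by
    intro y hy
    rw [hn1, rv_flipN hy]
  have hmf : Stored nul key (nd s1) m.flip B := by
    rw [hn1]; exact stored_flip hst hm1
  have ho1 : Stored nul key (nd s1) o B := hoB.congr (fun y hy => e1 y (hom y hy))
  have ho1' : Stored nul key (nd s1) o' A := hoA.congr (fun y hy => e1 y (hom' y hy))
  have h01 : NulOk nul (nd s1) := by
    unfold NulOk
    rw [e1 nul hnulm]
    exact h.nulok
  have hB1 : nd s1 B = nd s' B := e1 B hBm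
  have hA1 : nd s1 A = nd s' A := e1 A hAm
  have r1 : s1.reg 102 = B := by rw [hx1.1 102 (by simp), h102]
  have r1' : s1.reg 103 = A := by rw [hx1.1 103 (by simp), h103]
  have rf := (hmf.root h01).1
  have ro := (ho1.root h01).1
  rw [PT.rt_flip] at rf
  rw [PT.size_flip] at rf
  -- first pull
  obtain ⟨s2, hd2, hn2, hx2⟩ := pull_run hM inp 102 (by norm_num) s1 (by
    rw [r1, hB1, hBr]
    simp only [mkNd]
    cases d
    · simp only [Bool.false_eq_true, if_false]
      rw [rf, ro]; omega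
    · simp only [if_true]
      rw [rf, ro]; omega)
  rw [r1] at hn2
  have hn12 : (Fr.plug ⟨d, B, false, sb, o⟩ m.flip).nodes.Nodup := by
    have hp : (Fr.plug ⟨d, B, false, sb, o⟩ m.flip).nodes.Perm (m.nodes ++ (B :: o.nodes)) := by
      have := nodes_plug m.flip [⟨d, B, false, sb, o⟩]
      simp only [plug, nodesC, List.append_nil] at this
      exact this.trans ((PT.nodes_flip m).append_right _)
    rw [hp.nodup_iff, List.nodup_append]
    refine ⟨hm1, List.nodup_cons.mpr ⟨hoB', hm5⟩, ?_⟩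
    intro x hx y hy
    exact hm3 x hx y (by simp only [List.mem_cons, List.mem_append] at hy ⊢; tauto)
  have hs2 : Stored nul key (nd s2) (Fr.plug ⟨d, B, false, sb, o⟩ m.flip) A := by
    rw [hn2]
    refine rv_pull d hn12 h01 hB hmf ho1 ?_ ?_ ?_ ?_ ?_ ?_
    · rw [hB1, hBr, PT.rt_flip]; rfl
    · rw [hB1, hBr, PT.rt_flip]; rfl
    · rw [hB1, hBr]; rfl
    · rw [hB1, hBr]; rfl
    · rw [hB1, hBr]; rfl
    · rw [hB1, hBr]; rfl
  have e2 : ∀ y, y ≠ B → nd s2 y = nd s1 y := by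
    intro y hy
    rw [hn2, rv_pullN_ne hy]
  have hnulB : nul ≠ B := ne_of_gt hB
  have h02 : NulOk nul (nd s2) := by
    unfold NulOk
    rw [e2 nul hnulB]
    exact h01
  have ho2' : Stored nul key (nd s2) o' A :=
    ho1'.congr (fun y hy => e2 y (fun hh => hoB2 (hh ▸ hy)))
  have hA2r : nd s2 A = nd s' A := by rw [e2 A hAB, hA1]
  have r2' : s2.reg 103 = A := by rw [hx2.1 103 (by simp), r1']
  have rf2 := (hs2.root h02).1
  have ro2 := (ho2'.root h02).1
  have hrtB : (Fr.plug ⟨d, B, false, sb, o⟩ m.flip).rt nul = B := by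
    cases d <;> simp [Fr.plug, PT.rt]
  have hszB : (Fr.plug ⟨d, B, false, sb, o⟩ m.flip).size = m.size + o.size + 1 := by
    cases d <;> simp [Fr.plug, PT.size] ; omega
  rw [hrtB, hszB] at rf2
  -- second pull
  obtain ⟨s3, hd3, hn3, hx3⟩ := pull_run hM inp 103 (by norm_num) s2 (by
    rw [r2', hA2r, hAr]
    simp only [mkNd]
    cases d
    · simp only [Bool.not_false, if_true]
      rw [rf2, ro2]; omega
    · simp only [Bool.not_true, Bool.false_eq_true, if_false]
      rw [rf2, ro2]; omega)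
  rw [r2'] at hn3
  have hn23 : (plug m.flip [⟨d, B, false, sb, o⟩, ⟨!d, A, false, sa, o'⟩]).nodes.Nodup := by
    have hp := nodes_plug m.flip [⟨d, B, false, sb, o⟩, ⟨!d, A, false, sa, o'⟩]
    rw [hp.nodup_iff]
    have h4 := h.nodup
    rw [hperm.nodup_iff] at h4
    exact (((PT.nodes_flip m).append_right _).nodup_iff).mpr h4
  have hs3 : Stored nul key (nd s3)
      (plug m.flip [⟨d, B, false, sb, o⟩, ⟨!d, A, false, sa, o'⟩]) nul := by
    rw [hn3]
    refine rv_pull (!d) hn23 h02 hA hs2 ho2' ?_ ?_ ?_ ?_ ?_ ?_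
    · rw [hA2r, hAr, hrtB]; rfl
    · rw [hA2r, hAr, hrtB]; rfl
    · rw [hA2r, hAr]; rfl
    · rw [hA2r, hAr]; rfl
    · rw [hA2r, hAr]; rfl
    · rw [hA2r, hAr]; rfl
  have hsame : SameX [110, 111] s' s3 :=
    ((hx1.mono (by simp)).trans (hx2.mono (by simp))).trans (hx3.mono (by simp))
  refine ⟨s3, ?_, ⟨hs3, hn23, ?_, ?_, h.lt⟩, hsame⟩
  · exact (Does.seq hd1 (Does.seq hd2 hd3)).mono (by norm_num)
  · unfold NulOk
    rw [hn3, rv_pullN_ne (ne_of_gt hA)]
    exact h02
  · rw [hsame.1 NUL (by simp), h.hnul]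

theorem sim_rev (a b : ℕ) (h : Op.wf XV (.rev a b) = true) : OpSim (.rev a b) := by
  intro M inp lam s q s2 q2 k hM hl ho st T hr
  simp only [Op.wf, Bool.and_eq_true, decide_eq_true_eq] at h
  obtain ⟨ha, hb⟩ := h
  cases ho with
  | rev _ _ _ _ u v l₁ l₂ l₃ hs huv =>
    obtain ⟨s', dd, m, o, o', sa, sb, n, hdo, hinv, hm, htoL, hsame, h102, h103, hroot, h112,
      hphi⟩ := rv_acc2 hM inp hr ha hb hs huv
    obtain ⟨s'', hdo2, hinv2, hsame2⟩ := rv_mid hM inp dd hinv h102 h103 h112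
    set fr : List Fr := [⟨dd, st.reg b, false, sb, o⟩, ⟨!dd, st.reg a, false, sa, o'⟩] with hfr
    obtain ⟨k', hk', hrun⟩ := Does.seq hdo hdo2
    have hrun2 : Run M inp noPrim (trOp (.rev a b)) (st, ()) (s'', ()) k' := hrun
    have hnul : s''.reg NUL = st.reg NUL := hinv2.hnul
    have hPhi : (plug m.flip fr).Phi = (plug m fr).Phi := by
      have := Phi_plug_sub (t := m.flip) (t' := m) (PT.size_flip m) fr
      rw [PT.Phi_flip] at this
      linarith
    refine ⟨s'', plug m.flip fr, k', hrun2, ?_, ?_⟩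
    · refine ⟨?_, ?_, ?_, ?_, ?_, ?_, ?_, ?_⟩
      · intro i hi
        rw [hsame2.1 i (by simp; omega), hsame.1 i (by simp; omega), hr.reg i hi]
      · intro k hk
        rw [hsame2.2.1 k hk, hsame.2.1 k hk, hr.arr k hk]
      · rw [hsame2.2.2, hsame.2.2, hr.out]
      · rw [htoL, PT.toL_flip, hm]
      · rw [hnul]
        exact hinv2
      · rw [hnul, hsame2.1 ROOT (by simp), hroot]
        simp only [hfr, plug, Fr.plug]
        cases dd <;> simp [PT.rt]
      · have h1 : (plug m.flip fr).size = (plug m fr).size := by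
          rw [size_plug, size_plug, PT.size_flip]
        rw [h1, ← PT.length_toL, htoL, hm, ← hs, ← hr.toL, PT.length_toL]
        exact hr.len
      · exact Does.bdd ⟨_, le_refl _, hrun2⟩ hr.bdd
    · have h1 : (1 : ℝ) ≤ lam := by exact_mod_cast hl
      have h2 : ((k' : ℕ) : ℝ) ≤ 2400 * ((n : ℝ) + 2) + 500 := by
        have : ((k' : ℕ) : ℝ) ≤ ((2400 * (n + 2) + 500 : ℕ) : ℝ) := by exact_mod_cast hk'
        push_cast at this ⊢
        linarith
      have h3 : (0 : ℝ) ≤ n := Nat.cast_nonneg n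
      simp only [CC] at *
      push_cast at *
      linarith

end SBR
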