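/-
SBR/SplayRotOp.lean : the program for the rotation of the sequence simulates the operation.
-/
import Pool.Agent.SBR.SplayOpSim
import Pool.Agent.SBR.SplayC
import Pool.Agent.SBR.SplayPull
import Pool.Agent.SBR.SplayRot
import Pool.Agent.SBR.SplayLoop
import Pool.Agent.SBR.SplayKth

namespace SBR

/-! ### single statements -/

private theorem ro_set {M : ℕ} {inp : ℕ → ℕ} {s : St} (i : ℕ) (e : Ex) (h : e.Ok M inp s) :
    Does M inp (.set i e) s (s.setReg i (e.eval inp s)) (e.sz + 1) :=
  ⟨_, le_rfl, Run.set s () i e h⟩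

private theorem ro_sto {M : ℕ} {inp : ℕ → ℕ} {s : St} (k : ℕ) (a e : Ex) (ha : a.Ok M inp s)
    (he : e.Ok M inp s) :
    Does M inp (.sto k a e) s (s.setArr k (a.eval inp s) (e.eval inp s)) (a.sz + e.sz + 1) :=
  ⟨_, le_rfl, Run.sto s () k a e ha he⟩

private theorem ro_nd_reg (s : St) (i v : ℕ) : nd (s.setReg i v) = nd s := rfl

private theorem ro_nd_lc (s : St) (y v : ℕ) :
    nd (s.setArr LC y v) = Function.update (nd s) y { nd s y with lc := v } := by
  funext z
  by_cases h : z = y
  · subst h
    simp [nd]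
  · simp [nd, h]

private theorem ro_nd_rc (s : St) (y v : ℕ) :
    nd (s.setArr RC y v) = Function.update (nd s) y { nd s y with rc := v } := by
  funext z
  by_cases h : z = y
  · subst h
    simp [nd]
  · simp [nd, h]

private theorem ro_nd_pa (s : St) (y v : ℕ) :
    nd (s.setArr PA y v) = Function.update (nd s) y { nd s y with pa := v } := by
  funext z
  by_cases h : z = y
  · subst h
    simp [nd]
  · simp [nd, h]

private theorem ro_sameX_reg {l : List ℕ} (s : St) (i v : ℕ) (hi : i ∈ l) :
    SameX l s (s.setReg i v) := by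
  refine ⟨fun j hj => ?_, fun k _ => rfl, rfl⟩
  rw [reg_setReg, if_neg]
  rintro rfl
  exact hj hi

private theorem ro_sameX_arr {l : List ℕ} (s : St) (k y v : ℕ) (hk : 60 ≤ k) :
    SameX l s (s.setArr k y v) := by
  refine ⟨fun j _ => rfl, fun k' hk' => ?_, rfl⟩
  funext z
  rw [arr_setArr, if_neg]
  rintro ⟨rfl, _⟩
  omega

/-! ### trees -/

/-- change of the parent of the root -/
private theorem ro_pa {nul : ℕ} {key : ℕ → ℕ} {m : ℕ → Nd} {t : PT} {p : ℕ} (p' : ℕ)
    (h : Stored nul key m t p) (hn : t.nodes.Nodup) (ht : t ≠ .nil) :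
    Stored nul key (Function.update m (t.rt nul) { m (t.rt nul) with pa := p' }) t p' := by
  cases t with
  | nil => exact absurd rfl ht
  | node l x f s r =>
    obtain ⟨h1, h2, h3, h4⟩ := h
    simp only [PT.nodes, List.nodup_cons, List.mem_append, not_or] at hn
    refine ⟨h1, ?_, h3.congr fun y hy => ?_, h4.congr fun y hy => ?_⟩
    · simp only [PT.rt, Function.update_self]
      rw [h2]
      rfl
    · exact Function.update_of_ne (by rintro rfl; exact hn.1.1 hy) _ _
    · exact Function.update_of_ne (by rintro rfl; exact hn.1.2 hy) _ _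

private theorem ro_nil_of_size {t : PT} (h : t.size = 0) : t = .nil := by
  cases t with
  | nil => rfl
  | node l x f s r => simp [PT.size] at h

/-- uniqueness of decompositions -/
private theorem ro_unique {l₁ l₂ m₁ m₂ : List (ℕ × Bool)} {x : ℕ} {b b' : Bool}
    (h : l₁ ++ (x, b) :: l₂ = m₁ ++ (x, b') :: m₂)
    (hn : ((l₁ ++ (x, b) :: l₂).map Prod.fst).Nodup) : l₁ = m₁ ∧ b = b' ∧ l₂ = m₂ := by
  induction l₁ generalizing m₁ with
  | nil =>
    cases m₁ with
    | nil =>
      simp only [List.nil_append, List.cons.injEq, Prod.mk.injEq] at h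
      exact ⟨rfl, h.1.2, h.2⟩
    | cons u m₁ =>
      exfalso
      simp only [List.nil_append, List.cons_append, List.cons.injEq] at h
      obtain ⟨h1, h2⟩ := h
      simp only [List.nil_append, List.map_cons, List.nodup_cons] at hn
      apply hn.1
      rw [h2]
      simp
  | cons v l₁ ih =>
    cases m₁ with
    | nil =>
      exfalso
      simp only [List.nil_append, List.cons_append, List.cons.injEq] at h
      obtain ⟨h1, h2⟩ := h
      simp only [List.cons_append, List.map_cons, List.nodup_cons] at hn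
      apply hn.1
      rw [h1]
      simp
    | cons u m₁ =>
      simp only [List.cons_append, List.cons.injEq] at h
      obtain ⟨h1, h2⟩ := h
      simp only [List.cons_append, List.map_cons, List.nodup_cons] at hn
      obtain ⟨h3, h4, h5⟩ := ih h2 hn.2
      exact ⟨by rw [h1, h3], h4, h5⟩

/-! ### the two final parts of the program -/

/-- the last node of the sequence is `x` -/
private theorem ro_case1 {M nul : ℕ} {key : ℕ → ℕ} (hM : 10 ≤ M) (inp : ℕ → ℕ) (s : St) (l : PT)
    (x : ℕ) (b : Bool) (h : TInv M nul key s (.node l x false b .nil)) (hx : s.reg 102 = x) :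
    ∃ s', Does M inp (blk [.sto RC (.r 102) (.ld LC (.r 102)), .sto LC (.r 102) (.r NUL),
        pullM 102]) s s' 300 ∧
      TInv M nul key s' (.node .nil x false b l) ∧ SameX [110] s s' := by
  have hsz := h.size_lt
  simp only [PT.size] at hsz
  obtain ⟨⟨hlt, hrec, hl, -⟩, hnd, h0, hN, hM'⟩ := h
  simp only [PT.nodes, List.append_nil, List.nodup_cons] at hnd
  have hlx : ∀ y ∈ l.nodes, y ≠ x := by
    rintro y hy rfl
    exact hnd.1 hy
  have hNx : nul ≠ x := hlt.ne'
  -- the states
  have e1 : (Ex.r 102).Ok M inp s := trivial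
  have e2 : (Ex.ld LC (.r 102)).Ok M inp s := trivial
  have d1 := ro_sto (M := M) (inp := inp) (s := s) RC (.r 102) (.ld LC (.r 102)) e1 e2
  set s1 := s.setArr RC ((Ex.r 102).eval inp s) ((Ex.ld LC (.r 102)).eval inp s) with hs1
  have d2 := ro_sto (M := M) (inp := inp) (s := s1) LC (.r 102) (.r NUL) trivial trivial
  set s2 := s1.setArr LC ((Ex.r 102).eval inp s1) ((Ex.r NUL).eval inp s1) with hs2
  have hlc : (nd s x).lc = l.rt nul := by rw [hrec]; rfl
  have n1 : nd s1 = Function.update (nd s) x { nd s x with rc := l.rt nul } := by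
    rw [hs1, ro_nd_rc]
    simp only [Ex.eval, hx]
    rw [← hlc]
    rfl
  have r1 : s1.reg = s.reg := rfl
  have r2 : s2.reg = s.reg := rfl
  have n2 : nd s2 = Function.update (nd s) x { nd s x with rc := l.rt nul, lc := nul } := by
    rw [hs2, ro_nd_lc, n1]
    simp only [Ex.eval, r1, hx, hN, Function.update_self, Function.update_idem]
  have hx2 : s2.reg 102 = x := by rw [r2, hx]
  have n2x : nd s2 x = { nd s x with rc := l.rt nul, lc := nul } := by
    rw [n2, Function.update_self]
  have n2o : ∀ y, y ≠ x → nd s2 y = nd s y := fun y hy => by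
    rw [n2, Function.update_of_ne hy]
  have hroot := hl.root h0
  have hlrt : l.rt nul ≠ x := by
    cases l with
    | nil => exact hNx
    | node l' y f s' r' => exact hlx _ (by simp [PT.nodes, PT.rt])
  have hsz2 : (nd s2 (nd s2 (s2.reg 102)).lc).sz + (nd s2 (nd s2 (s2.reg 102)).rc).sz + 1 < M := by
    rw [hx2, n2x]
    simp only
    rw [n2o _ hNx, n2o _ hlrt, h0.1, hroot.1]
    omega
  obtain ⟨s3, d3, n3, x3⟩ := pull_run hM inp 102 (by norm_num) s2 hsz2
  rw [hx2] at n3
  refine ⟨s3, ((d1.seq (d2.seq d3))).mono ?_, ?_, ?_⟩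
  · simp only [Ex.sz]
    norm_num
  · have h0' : NulOk nul (nd s2) := by
      unfold NulOk
      rw [n2o _ hNx]
      exact h0
    have hst : Stored nul key (nd s3) (.node .nil x false b l) nul := by
      rw [n3]
      refine stored_pull ?_ h0' hlt trivial (hl.congr fun y hy => n2o y (hlx y hy)) ?_ ?_ ?_ ?_ ?_ ?_
      · simp only [PT.nodes, List.nil_append, List.nodup_cons]
        exact hnd
      all_goals rw [n2x]
      · rfl
      · simp only [hrec, mkNd]
      · simp only [hrec, mkNd, b2n]
        rfl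
      · simp only [hrec, mkNd]
      · simp only [hrec, mkNd]
    refine ⟨hst, ?_, ?_, ?_, hM'⟩
    · simp only [PT.nodes, List.nil_append, List.nodup_cons]
      exact hnd
    · unfold NulOk
      rw [n3]
      unfold pullN
      rw [Function.update_of_ne hNx]
      exact h0'
    · rw [x3.1 NUL (by simp), r2, hN]
  · exact ((ro_sameX_arr _ _ _ _ (by norm_num)).trans (ro_sameX_arr _ _ _ _ (by norm_num))).trans x3

/-- the general case after the two splay operations -/
private theorem ro_case2 {M nul : ℕ} {key : ℕ → ℕ} (hM : 10 ≤ M) (inp : ℕ → ℕ) (s : St)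
    (A B : PT) (x y : ℕ) (b sy : Bool)
    (h : TInv M nul key s (.node (.node A x false b B) y false sy .nil)) (hx : s.reg 102 = x)
    (hy : s.reg 103 = y) :
    ∃ s', Does M inp (blk [.set 112 (.ld LC (.r 102)), .sto LC (.r 102) (.r NUL), pullM 102,
          .sto RC (.r 103) (.r 112),
          .ite (.eq (.r 112) (.r NUL)) .skip (.sto PA (.r 112) (.r 103)),
          pullM 103]) s s' 600 ∧
      TInv M nul key s' (.node (.node .nil x false b B) y false sy A) ∧
      SameX [110, 112] s s' := by
  have hsz := h.size_lt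
  simp only [PT.size] at hsz
  obtain ⟨⟨hlty, hrecy, ⟨hltx, hrecx, hA, hB⟩, -⟩, hnd, h0, hN, hM'⟩ := h
  simp only [PT.nodes, List.append_nil, List.nodup_cons, List.mem_cons, List.mem_append,
    not_or] at hnd
  obtain ⟨⟨hyx, hyA, hyB⟩, ⟨hxA, hxB⟩, hAB⟩ := hnd
  have hAn := (List.nodup_append.mp hAB).1
  have hBn := (List.nodup_append.mp hAB).2.1
  have hdisj : ∀ z ∈ A.nodes, z ∉ B.nodes := fun z hz hz' =>
    List.disjoint_of_nodup_append hAB hz hz'
  have hNx : nul ≠ x := hltx.ne'
  have hNy : nul ≠ y := hlty.ne'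
  have hAlt := hA.lt
  have hBlt := hB.lt
  -- first part
  have d1 := ro_set (M := M) (inp := inp) (s := s) 112 (.ld LC (.r 102)) trivial
  set s1 := s.setReg 112 ((Ex.ld LC (.r 102)).eval inp s) with hs1
  have d2 := ro_sto (M := M) (inp := inp) (s := s1) LC (.r 102) (.r NUL) trivial trivial
  set s2 := s1.setArr LC ((Ex.r 102).eval inp s1) ((Ex.r NUL).eval inp s1) with hs2
  have hlc : (nd s x).lc = A.rt nul := by rw [hrecx]; rfl
  have r1 : s1.reg 112 = A.rt nul := by
    rw [hs1, reg_setReg, if_pos rfl, ← hlc, ← hx]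
    rfl
  have r1' : ∀ i, i ≠ 112 → s1.reg i = s.reg i := fun i hi => by
    rw [hs1, reg_setReg, if_neg hi]
  have n1 : nd s1 = nd s := rfl
  have r2 : s2.reg = s1.reg := rfl
  have hx1 : s1.reg 102 = x := by rw [r1' _ (by norm_num), hx]
  have hy1 : s1.reg 103 = y := by rw [r1' _ (by norm_num), hy]
  have hN1 : s1.reg NUL = nul := by rw [r1' _ (by norm_num), hN]
  have n2 : nd s2 = Function.update (nd s) x { nd s x with lc := nul } := by
    rw [hs2, ro_nd_lc, n1]
    simp only [Ex.eval, hx1, hN1]
  have n2x : nd s2 x = { nd s x with lc := nul } := by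
    rw [n2, Function.update_self]
  have n2o : ∀ z, z ≠ x → nd s2 z = nd s z := fun z hz => by
    rw [n2, Function.update_of_ne hz]
  have hBrt : B.rt nul ≠ x := by
    cases B with
    | nil => exact hNx
    | node l' z f s' r' =>
      rintro rfl
      exact hxB (by simp [PT.nodes, PT.rt])
  have hBroot := hB.root h0
  have hrc : (nd s x).rc = B.rt nul := by rw [hrecx]; rfl
  have hsz2 : (nd s2 (nd s2 (s2.reg 102)).lc).sz + (nd s2 (nd s2 (s2.reg 102)).rc).sz + 1 < M := by
    rw [r2, hx1, n2x]
    simp only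
    rw [hrc, n2o _ hNx, n2o _ hBrt, h0.1, hBroot.1]
    omega
  obtain ⟨s3, d3, n3, x3⟩ := pull_run hM inp 102 (by norm_num) s2 hsz2
  rw [r2, hx1] at n3
  have h0' : NulOk nul (nd s2) := by
    unfold NulOk
    rw [n2o _ hNx]
    exact h0
  have hst3 : Stored nul key (nd s3) (.node .nil x false b B) y := by
    rw [n3]
    refine stored_pull ?_ h0' hltx trivial
      (hB.congr fun z hz => n2o z (by rintro rfl; exact hxB hz)) ?_ ?_ ?_ ?_ ?_ ?_
    · simp only [PT.nodes, List.nil_append, List.nodup_cons]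
      exact ⟨hxB, hBn⟩
    all_goals rw [n2x]
    · rfl
    · simp only [hrecx, mkNd]
    · simp only [hrecx, mkNd]
    · simp only [hrecx, mkNd, b2n]
      rfl
    · simp only [hrecx, mkNd]
    · simp only [hrecx, mkNd]
  have n3o : ∀ z, z ≠ x → nd s3 z = nd s z := fun z hz => by
    rw [n3]
    unfold pullN
    rw [Function.update_of_ne hz, n2o z hz]
  have hx3 : s3.reg 102 = x := by rw [x3.1 _ (by simp), r2, hx1]
  have hy3 : s3.reg 103 = y := by rw [x3.1 _ (by simp), r2, hy1]
  have hN3 : s3.reg NUL = nul := by rw [x3.1 _ (by simp), r2, hN1]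
  have ha3 : s3.reg 112 = A.rt nul := by rw [x3.1 _ (by simp), r2, r1]
  -- second part
  have d4 := ro_sto (M := M) (inp := inp) (s := s3) RC (.r 103) (.r 112) trivial trivial
  set s4 := s3.setArr RC ((Ex.r 103).eval inp s3) ((Ex.r 112).eval inp s3) with hs4
  have r4 : s4.reg = s3.reg := rfl
  have n4 : nd s4 = Function.update (nd s3) y { nd s3 y with rc := A.rt nul } := by
    rw [hs4, ro_nd_rc]
    simp only [Ex.eval, hy3, ha3]
  have n4y : nd s4 y = { nd s y with rc := A.rt nul } := by
    rw [n4, Function.update_self, n3o y hyx]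
  have n4o : ∀ z, z ≠ y → nd s4 z = nd s3 z := fun z hz => by
    rw [n4, Function.update_of_ne hz]
  have hA4 : Stored nul key (nd s4) A x := hA.congr fun z hz => by
    rw [n4o z (by rintro rfl; exact hyA hz), n3o z (by rintro rfl; exact hxA hz)]
  -- third part
  obtain ⟨s5, d5, r5, a5, o5, n5o, hA5⟩ : ∃ s5, Does M inp
      (.ite (.eq (.r 112) (.r NUL)) .skip (.sto PA (.r 112) (.r 103))) s4 s5 10 ∧
      s5.reg = s4.reg ∧ (∀ k < 60, s5.arr k = s4.arr k) ∧ s5.out = s4.out ∧
      (∀ z, z ∉ A.nodes → nd s5 z = nd s4 z) ∧ Stored nul key (nd s5) A y := by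
    by_cases hAe : A = .nil
    · subst hAe
      refine ⟨s4, ?_, rfl, fun _ _ => rfl, rfl, fun _ _ => rfl, trivial⟩
      refine ⟨_, ?_, Run.ite_t _ _ _ _ _ _ ⟨trivial, trivial⟩ ?_ (Run.skip _)⟩
      · simp [Co.sz, Ex.sz]
      · simp only [Co.Holds, Ex.eval, r4, ha3, hN3, PT.rt]
    · have hmem := PT.rt_mem nul A hAe
      refine ⟨s4.setArr PA (A.rt nul) y, ?_, rfl, ?_, rfl, ?_, ?_⟩
      · have hr : Run M inp noPrim (.sto PA (.r 112) (.r 103)) (s4, ())
            (s4.setArr PA (A.rt nul) y, ()) 3 := by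
          have := Run.sto (M := M) (inp := inp) (ps := noPrim) s4 () PA (.r 112) (.r 103)
            trivial trivial
          simp only [Ex.eval, r4, ha3, hy3, Ex.sz] at this
          exact this
        refine ⟨_, ?_, Run.ite_f _ _ _ _ _ _ ⟨trivial, trivial⟩ ?_ hr⟩
        · simp [Co.sz, Ex.sz]
        · simp only [Co.Holds, Ex.eval, r4, ha3, hN3]
          exact (hAlt _ hmem).ne
      · intro k hk
        funext z
        rw [arr_setArr, if_neg]
        rintro ⟨rfl, _⟩
        exact absurd hk (by norm_num)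
      · intro z hz
        rw [ro_nd_pa, Function.update_of_ne]
        rintro rfl
        exact hz hmem
      · rw [ro_nd_pa]
        exact ro_pa y hA4 hAn hAe
  have n5y : nd s5 y = { nd s y with rc := A.rt nul } := by
    rw [n5o y hyA, n4y]
  have hT5 : Stored nul key (nd s5) (.node .nil x false b B) y := hst3.congr fun z hz => by
    simp only [PT.nodes, List.nil_append, List.mem_cons] at hz
    rcases hz with rfl | hz
    · rw [n5o _ hxA, n4o _ (Ne.symm hyx)]
    · rw [n5o _ fun hz' => hdisj z hz' hz, n4o _ (by rintro rfl; exact hyB hz)]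
  have hnul5 : nd s5 nul = nd s nul := by
    rw [n5o _ fun hz => lt_irrefl _ (hAlt _ hz), n4o _ hNy, n3o _ hNx]
  have h05 : NulOk nul (nd s5) := by
    unfold NulOk
    rw [hnul5]
    exact h0
  have hTroot := hT5.root h05
  have hAroot := hA5.root h05
  have hsz5 : (nd s5 (nd s5 (s5.reg 103)).lc).sz + (nd s5 (nd s5 (s5.reg 103)).rc).sz + 1 < M := by
    have hlcy : (nd s y).lc = x := by rw [hrecy]; rfl
    rw [r5, r4, hy3, n5y]
    simp only
    rw [hlcy, hAroot.1]
    have : (nd s5 x).sz = (PT.node .nil x false b B).size := hTroot.1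
    rw [this]
    simp only [PT.size]
    omega
  obtain ⟨s6, d6, n6, x6⟩ := pull_run hM inp 103 (by norm_num) s5 hsz5
  rw [r5, r4, hy3] at n6
  have hnd' : (PT.node (.node .nil x false b B) y false sy A).nodes.Nodup := by
    simp only [PT.nodes, List.nil_append, List.nodup_cons, List.cons_append, List.mem_cons,
      List.mem_append, not_or]
    exact ⟨⟨hyx, hyB, hyA⟩, ⟨hxB, hxA⟩, (List.perm_append_comm.nodup_iff).mp hAB⟩
  refine ⟨s6, (d1.seq (d2.seq (d3.seq (d4.seq (d5.seq d6))))).mono ?_, ⟨?_, hnd', ?_, ?_, hM'⟩, ?_⟩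
  · simp only [Ex.sz]
    norm_num
  · rw [n6]
    refine stored_pull hnd' h05 hlty hT5 hA5 ?_ ?_ ?_ ?_ ?_ ?_
    all_goals rw [n5y]
    · simp only [hrecy, mkNd, PT.rt]
    · simp only [hrecy, mkNd]
    · simp only [hrecy, mkNd, b2n]
      rfl
    · simp only [hrecy, mkNd]
    · simp only [hrecy, mkNd]
  · unfold NulOk
    rw [n6]
    unfold pullN
    rw [Function.update_of_ne hNy]
    exact h05
  · rw [x6.1 NUL (by simp), r5, r4, hN3]
  · have e12 : SameX [110, 112] s s2 :=
      (ro_sameX_reg _ _ _ (by simp)).trans (ro_sameX_arr _ _ _ _ (by norm_num))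
    have e34 : SameX [110, 112] s3 s4 := ro_sameX_arr _ _ _ _ (by norm_num)
    have e45 : SameX [110, 112] s4 s5 := ⟨fun i _ => by rw [r5], a5, o5⟩
    exact (((e12.trans (x3.mono (by simp))).trans e34).trans e45).trans (x6.mono (by simp))

/-- splitting off the first two statements of a block -/
private theorem ro_blk {M : ℕ} {inp : ℕ → ℕ} {p p' : Prog} {l : List Prog} {s s' s'' : St}
    {n n' : ℕ} (h : Does M inp p s s' n) (h' : Does M inp (blk (p' :: l)) s' s'' n') :
    Does M inp (blk (p :: p' :: l)) s s'' (n + n') :=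
  h.seq h'

theorem sim_rot (x : ℕ) (h : Op.wf XV (.rot x) = true) : OpSim (.rot x) := by
  intro M inp lam s q s2 q2 k hM hlam hop st T hrel
  have hx100 : x < 100 := by simpa [Op.wf] using h
  obtain ⟨hreg, harr, hout, htoL, hinv, hroot, hlen, hbdd⟩ := hrel
  cases hop with
  | rot _ _ _ b l₁ l₂ hseq =>
  generalize hnul : st.reg NUL = nul at hinv hroot
  -- the tree is not empty
  have hlenT : T.size = l₁.length + l₂.length + 1 := by
    rw [← PT.length_toL, htoL, hseq]
    simp only [List.length_append, List.length_cons]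
    omega
  have hTroot := hinv.stored.root hinv.nulok
  have hrk : rk T.size ≤ lam := rk_le_lam hlen
  have hsz0 : (Ex.ld SZ (.r ROOT)).eval inp st = T.size := by
    have : (nd st (T.rt nul)).sz = T.size := hTroot.1
    rw [← this, ← hroot]
    rfl
  have hok : (Ex.sub (.ld SZ (.r ROOT)) (.c 1)).Ok M inp st := by
    refine ⟨trivial, show 1 < M by omega, ?_⟩
    rw [hsz0]
    simp only [Ex.eval]
    omega
  have d0 := ro_set (M := M) (inp := inp) (s := st) 114 _ hok
  set st0 := st.setReg 114 ((Ex.sub (.ld SZ (.r ROOT)) (.c 1)).eval inp st) with hst0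
  have h114 : st0.reg 114 = T.size - 1 := by
    rw [hst0, reg_setReg, if_pos rfl, ← hsz0]
    rfl
  have x0 : SameX [101, 102, 103, 104, 105, 106, 107, 108, 109, 110, 111, 112, 113, 114] st st0 :=
    ro_sameX_reg _ _ _ (by simp)
  have hinv0 : TInv M nul q.key st0 T := hinv.of_nd rfl (by rw [hst0, reg_setReg, if_neg (by norm_num)])
  have hlt : T.size - 1 < T.toL.length := by
    rw [PT.length_toL]
    omega
  obtain ⟨u, hu⟩ : ∃ u, T.toL[T.size - 1]? = some u := ⟨_, List.getElem?_eq_getElem hlt⟩
  obtain ⟨st1, l, r, n1, d1, hinv1, htoL1, hl1, x1, h102, h103, hrt1, hphi1⟩ :=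
    kth_run hM inp st0 T hinv0
      (by rw [hst0, reg_setReg, if_neg (by norm_num)]; exact hroot) u (by rw [h114]; exact hu)
  have hsize1 : (PT.node l u.1 false u.2 r).size = T.size := by
    rw [← PT.length_toL, htoL1, PT.length_toL]
  have hr : r = .nil := by
    apply ro_nil_of_size
    rw [h114] at hl1
    simp only [PT.size] at hsize1
    omega
  subst hr
  obtain ⟨y, sy⟩ := u
  simp only at hinv1 htoL1 h102 hrt1 hphi1 hsize1
  have x01 := x0.trans x1
  have hrx1 : st1.reg x = s.reg x := by
    rw [x01.1 x (by simp; omega), hreg x hx100]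
  have hN1 : st1.reg NUL = nul := by rw [x01.1 NUL (by simp), hnul]
  have hseqn : ((l₁ ++ (s.reg x, b) :: l₂).map Prod.fst).Nodup := by
    rw [← hseq, ← htoL]
    exact (PT.nodes_perm T).nodup_iff.mp hinv.nodup
  have htoL1' : (PT.node l y false sy .nil).toL = l₁ ++ (s.reg x, b) :: l₂ := by
    rw [htoL1, htoL, hseq]
  by_cases hxy : y = s.reg x
  · -- the node is the last one
    obtain ⟨st2, d2, hinv2, x2⟩ := ro_case1 hM inp st1 l y sy hinv1 h102
    have hun : l₁ = l.toL ∧ b = sy ∧ l₂ = [] := by
      apply ro_unique (x := s.reg x) _ hseqn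
      rw [← htoL1', ← hxy]
      simp only [PT.toL, cf_false]
    obtain ⟨hl₁, hb, hl₂⟩ := hun
    have hcond : (Co.eq (.r 102) (.r x)).Holds inp st1 := by
      simp only [Co.Holds, Ex.eval, h102, hrx1]
      exact hxy
    have dite := Does.ite (M := M) (inp := inp) (c := Co.eq (.r 102) (.r x))
      (q := (blk [.set 103 (.r 102), .set 102 (.r x), splayM,
          .set 112 (.ld LC (.r 102)), .sto LC (.r 102) (.r NUL), pullM 102,
          .sto RC (.r 103) (.r 112),
          .ite (.eq (.r 112) (.r NUL)) .skip (.sto PA (.r 112) (.r 103)),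
          pullM 103])) (s := st1) (s' := st2) ⟨trivial, trivial⟩ (fun _ => d2)
      (fun hc => absurd hcond hc)
    obtain ⟨k2, hk2, hrun⟩ : Does M inp (trOp (.rot x)) st st2 _ :=
      ro_blk d0 (ro_blk d1 dite)
    have x012 := x01.trans (x2.mono (by simp))
    refine ⟨st2, .node .nil y false sy l, k2, hrun, ⟨?_, ?_, ?_, ?_, ?_, ?_, ?_, ?_⟩, ?_⟩
    · intro i hi
      rw [x012.1 i (by simp; omega), hreg i hi]
    · intro i hi
      rw [x012.2.1 i hi, harr i hi]
    · rw [x012.2.2, hout]
    · simp only [PT.toL, cf_false, List.nil_append]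
      rw [← hl₁, hb, hl₂, hxy]
      rfl
    · have : st2.reg NUL = nul := by rw [x012.1 NUL (by simp), hnul]
      rw [this]
      exact hinv2
    · rw [x2.1 ROOT (by simp), hrt1]
      rfl
    · simp only [PT.size] at hsize1 ⊢
      omega
    · exact (show Does M inp (trOp (.rot x)) st st2 k2 from ⟨k2, le_rfl, hrun⟩).bdd hbdd
    · have hphi : (PT.node .nil y false sy l).Phi = (PT.node l y false sy .nil).Phi := by
        simp only [PT.Phi, PT.size]
        rw [show 0 + l.size + 1 = l.size + 0 + 1 by omega]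
        ring
      rw [hphi]
      have hk2' : (k2 : ℝ) ≤ 3000 * n1 + 3400 := by
        have : k2 ≤ 3000 * n1 + 3400 := by
          refine hk2.trans ?_
          simp only [Ex.sz, Co.sz]
          omega
        exact_mod_cast this
      have hlam' : (1 : ℝ) ≤ lam := by exact_mod_cast hlam
      have hn1 : (0 : ℝ) ≤ n1 := Nat.cast_nonneg _
      have hCC : ((CC : ℕ) : ℝ) = 10000 := by norm_num [CC]
      rw [hCC]
      nlinarith
  · -- the general case
    have hxl : s.reg x ∈ l.nodes := by
      have h1 : s.reg x ∈ (PT.node l y false sy .nil).nodes := by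
        refine (PT.nodes_perm _).mem_iff.mpr ?_
        rw [htoL1']
        simp
      simp only [PT.nodes, List.append_nil, List.mem_cons] at h1
      exact h1.resolve_left (Ne.symm hxy)
    obtain ⟨t, c, ht, htx, htc⟩ := exists_focus nul l (s.reg x) hxl
    have e1 := ro_set (M := M) (inp := inp) (s := st1) 103 (.r 102) trivial
    set a1 := st1.setReg 103 ((Ex.r 102).eval inp st1) with ha1
    have e2 := ro_set (M := M) (inp := inp) (s := a1) 102 (.r x) trivial
    set a2 := a1.setReg 102 ((Ex.r x).eval inp a1) with ha2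
    have hne : ∀ i, i ≠ 102 → i ≠ 103 → a2.reg i = st1.reg i := fun i hi hi' => by
      rw [ha2, reg_setReg, if_neg hi, ha1, reg_setReg, if_neg hi']
    have hy2 : a2.reg 103 = y := by
      rw [ha2, reg_setReg, if_neg (by norm_num), ha1, reg_setReg, if_pos rfl]
      exact h102
    have hx2 : a2.reg 102 = s.reg x := by
      rw [ha2, reg_setReg, if_pos rfl]
      simp only [Ex.eval]
      rw [ha1, reg_setReg, if_neg (by omega), hrx1]
    have xa : SameX [101, 102, 103, 104, 105, 106, 107, 108, 109, 110, 111, 112, 113, 114] st1 a2 :=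
      (ro_sameX_reg _ _ _ (by simp)).trans (ro_sameX_reg _ _ _ (by simp))
    have hplug : ∀ t' : PT, plug t' [⟨true, y, false, sy, .nil⟩] = .node t' y false sy .nil :=
      fun t' => rfl
    have hinv2 : TInv M nul q.key a2 (plug t (c ++ [⟨true, y, false, sy, .nil⟩])) := by
      rw [plug_append, htc, hplug]
      exact hinv1.of_nd rfl (hne _ (by norm_num) (by norm_num))
    obtain ⟨a3, A, b', B, n2, d3, hinv3, htoL3, x3, hrt3, -, hphi3⟩ :=
      splay_run hM inp a2 t ht c [⟨true, y, false, sy, .nil⟩] hinv2 (by rw [hx2, htx])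
        (by rw [hy2]; rfl)
    rw [htx] at hinv3 htoL3 hphi3
    rw [hplug] at hinv3 hphi3
    rw [plug_append, htc, hplug] at hphi3
    rw [htc] at htoL3
    rw [if_neg (by simp)] at hrt3
    obtain ⟨a4, d4, hinv4, x4⟩ := ro_case2 hM inp a3 A B (s.reg x) y b' sy hinv3
      (by rw [x3.1 102 (by simp), hx2]) (by rw [x3.1 103 (by simp), hy2])
    have hun : l₁ = A.toL ∧ b = b' ∧ l₂ = B.toL ++ [(y, sy)] := by
      apply ro_unique (x := s.reg x) _ hseqn
      rw [← htoL1']
      simp only [PT.toL, cf_false] at htoL3 ⊢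
      rw [← htoL3]
      simp
    obtain ⟨hl₁, hb, hl₂⟩ := hun
    have hcond : ¬ (Co.eq (.r 102) (.r x)).Holds inp st1 := by
      simp only [Co.Holds, Ex.eval, h102, hrx1]
      exact hxy
    have dsp := ro_blk e1 (ro_blk e2 (ro_blk d3 d4))
    have dite := Does.ite (M := M) (inp := inp) (c := Co.eq (.r 102) (.r x))
      (p := (blk [.sto RC (.r 102) (.ld LC (.r 102)), .sto LC (.r 102) (.r NUL), pullM 102]))
      (s := st1) (s' := a4) ⟨trivial, trivial⟩ (fun hc => absurd hc hcond) (fun _ => dsp)
    obtain ⟨k2, hk2, hrun⟩ : Does M inp (trOp (.rot x)) st a4 _ :=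
      ro_blk d0 (ro_blk d1 dite)
    have xall := ((x01.trans xa).trans (x3.mono (by simp))).trans (x4.mono (by simp))
    have hsz3 : A.size + B.size + 1 = l.size := by
      have := congrArg List.length htoL3
      rw [PT.length_toL, PT.length_toL] at this
      simpa only [PT.size] using this
    refine ⟨a4, .node (.node .nil (s.reg x) false b' B) y false sy A, k2, hrun,
      ⟨?_, ?_, ?_, ?_, ?_, ?_, ?_, ?_⟩, ?_⟩
    · intro i hi
      rw [xall.1 i (by simp; omega), hreg i hi]
    · intro i hi
      rw [xall.2.1 i hi, harr i hi]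
    · rw [xall.2.2, hout]
    · simp only [PT.toL, cf_false, List.nil_append]
      rw [← hl₁, hb, hl₂]
      simp
    · have : a4.reg NUL = nul := by rw [xall.1 NUL (by simp), hnul]
      rw [this]
      exact hinv4
    · rw [x4.1 ROOT (by simp), hrt3, hne _ (by norm_num) (by norm_num), hrt1]
      rfl
    · simp only [PT.size] at hsize1 ⊢
      omega
    · exact (show Does M inp (trOp (.rot x)) st a4 k2 from ⟨k2, le_rfl, hrun⟩).bdd hbdd
    · have hphi : (PT.node (.node .nil (s.reg x) false b' B) y false sy A).Phi ≤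
          (PT.node (.node A (s.reg x) false b' B) y false sy .nil).Phi := by
        simp only [PT.Phi, PT.size]
        have h1 : Real.logb 2 ((0 + B.size + 1 : ℕ) : ℝ) ≤
            Real.logb 2 ((A.size + B.size + 1 : ℕ) : ℝ) := by
          apply Real.logb_le_logb_of_le (by norm_num)
          · positivity
          · exact_mod_cast (show 0 + B.size + 1 ≤ A.size + B.size + 1 by omega)
        rw [show 0 + B.size + 1 + A.size + 1 = A.size + B.size + 1 + 0 + 1 by omega]
        linarith
      have hk2' : (k2 : ℝ) ≤ 3000 * n1 + 2200 * n2 + 6400 := by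
        have : k2 ≤ 3000 * n1 + 2200 * n2 + 6400 := by
          refine hk2.trans ?_
          simp only [Ex.sz, Co.sz]
          omega
        exact_mod_cast this
      have hsize1' : rk (PT.node l y false sy .nil).size ≤ lam := by rw [hsize1]; exact hrk
      have hlam' : (1 : ℝ) ≤ lam := by exact_mod_cast hlam
      have hn1 : (0 : ℝ) ≤ n1 := Nat.cast_nonneg _
      have hn2 : (0 : ℝ) ≤ n2 := Nat.cast_nonneg _
      have hCC : ((CC : ℕ) : ℝ) = 10000 := by norm_num [CC]
      rw [hCC]
      nlinarith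

end SBR
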