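/-
SBR/SplaySim.lean : every program with sequence operations can be replaced by a program without
them (splay trees), at the price of a constant factor.
-/
import Pool.Agent.SBR.SplayBasic
import Pool.Agent.SBR.SplayOps
import Pool.Agent.SBR.SplayRev
import Pool.Agent.SBR.SplayRotOp
import Pool.Agent.SBR.SplayInit

namespace SBR

/-! ### all operations -/

theorem splaySim_op (o : Op) (h : Op.wf XV o = true) : OpSim o := by
  cases o with
  | init n z => exact sim_init n z h
  | minneg d => exact sim_minneg d h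
  | side x d e => exact sim_side x d e h
  | btw a b d => exact sim_btw a b d h
  | rev a b => exact sim_rev a b h
  | setk x k => exact sim_setk x k h
  | rank x d e => exact sim_rank x d e h
  | kth k d => exact sim_kth k d h
  | rot x => exact sim_rot x h

/-! ### well-formedness -/

private theorem wf_exMono {V K V' K' : ℕ} (hV : V ≤ V') (hK : K ≤ K') :
    ∀ e : Ex, e.wf V K = true → e.wf V' K' = true := by
  intro e
  induction e with
  | c n => intro _; rfl
  | r i => intro h; simp only [Ex.wf, decide_eq_true_eq] at h ⊢; omega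
  | add a b iha ihb =>
    intro h; simp only [Ex.wf, Bool.and_eq_true] at h ⊢; exact ⟨iha h.1, ihb h.2⟩
  | sub a b iha ihb =>
    intro h; simp only [Ex.wf, Bool.and_eq_true] at h ⊢; exact ⟨iha h.1, ihb h.2⟩
  | half a ih => intro h; exact ih h
  | ld k a ih =>
    intro h; simp only [Ex.wf, Bool.and_eq_true, decide_eq_true_eq] at h ⊢
    exact ⟨by omega, ih h.2⟩
  | inp a ih => intro h; exact ih h

private theorem wf_coMono {V K V' K' : ℕ} (hV : V ≤ V') (hK : K ≤ K') (c : Co)
    (h : c.wf V K = true) : c.wf V' K' = true := by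
  cases c with
  | lt a b =>
    simp only [Co.wf, Bool.and_eq_true] at h ⊢
    exact ⟨wf_exMono hV hK a h.1, wf_exMono hV hK b h.2⟩
  | eq a b =>
    simp only [Co.wf, Bool.and_eq_true] at h ⊢
    exact ⟨wf_exMono hV hK a h.1, wf_exMono hV hK b h.2⟩

private theorem wf_trOp (o : Op) (h : Op.wf XV o = true) :
    (trOp o).wf (fun _ => true) 115 70 = true := by
  cases o <;> simp [Op.wf, XV] at h <;>
    simp [trOp, blk, Stm.wf, Ex.wf, Co.wf, initStepM, pullM, maxM, cmbM, flipM, pushM, rotM,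
      stepM, chkM, splayM, chk2M, descM, kthM, accM, acc2M, NUL, ROOT, LC, RC, PA, FL, SG, SZ,
      KY, MX, MP, MN, aO, aS, aK] <;> omega

private theorem wf_trP (p : XStm) (hp : p.wf (Op.wf XV) XV XK = true) :
    (trP p).wf (fun _ => true) 115 70 = true := by
  induction p with
  | skip => rfl
  | set i e =>
    simp only [trP, Stm.wf, Bool.and_eq_true, decide_eq_true_eq] at hp ⊢
    have hXV : XV = 100 := rfl
    exact ⟨by omega, wf_exMono (by norm_num) (by norm_num) e hp.2⟩
  | sto k a e =>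
    simp only [trP, Stm.wf, Bool.and_eq_true, decide_eq_true_eq] at hp ⊢
    have hXK : XK = 60 := rfl
    exact ⟨⟨by omega, wf_exMono (by norm_num) (by norm_num) a hp.1.2⟩,
      wf_exMono (by norm_num) (by norm_num) e hp.2⟩
  | prt e => exact wf_exMono (V := XV) (K := XK) (by norm_num) (by norm_num) e hp
  | seq p q ihp ihq =>
    simp only [trP, Stm.wf, Bool.and_eq_true] at hp ⊢
    exact ⟨ihp hp.1, ihq hp.2⟩
  | ite c p q ihp ihq =>
    simp only [trP, Stm.wf, Bool.and_eq_true] at hp ⊢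
    exact ⟨⟨wf_coMono (by norm_num) (by norm_num) c hp.1.1, ihp hp.1.2⟩, ihq hp.2⟩
  | whl c p ih =>
    simp only [trP, Stm.wf, Bool.and_eq_true] at hp ⊢
    exact ⟨wf_coMono (by norm_num) (by norm_num) c hp.1, ih hp.2⟩
  | prim o => exact wf_trOp o hp

/-! ### expressions and conditions only see the common part of the states -/

private theorem eval_agree {V K : ℕ} {inp : ℕ → ℕ} {s st : St} (hr : ∀ i < V, st.reg i = s.reg i)
    (ha : ∀ k < K, st.arr k = s.arr k) :
    ∀ e : Ex, e.wf V K = true → e.eval inp st = e.eval inp s := by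
  intro e
  induction e with
  | c n => intro _; rfl
  | r i => intro h; exact hr i (by simpa [Ex.wf] using h)
  | add a b iha ihb =>
    intro h; simp only [Ex.wf, Bool.and_eq_true] at h
    simp only [Ex.eval, iha h.1, ihb h.2]
  | sub a b iha ihb =>
    intro h; simp only [Ex.wf, Bool.and_eq_true] at h
    simp only [Ex.eval, iha h.1, ihb h.2]
  | half a ih => intro h; simp only [Ex.eval, ih h]
  | ld k a ih =>
    intro h; simp only [Ex.wf, Bool.and_eq_true, decide_eq_true_eq] at h
    simp only [Ex.eval, ih h.2, ha k h.1]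
  | inp a ih => intro h; simp only [Ex.eval, ih h]

private theorem ok_agree {V K M : ℕ} {inp : ℕ → ℕ} {s st : St} (hr : ∀ i < V, st.reg i = s.reg i)
    (ha : ∀ k < K, st.arr k = s.arr k) :
    ∀ e : Ex, e.wf V K = true → e.Ok M inp s → e.Ok M inp st := by
  intro e
  induction e with
  | c n => intro _ h; exact h
  | r i => intro _ h; exact h
  | add a b iha ihb =>
    intro h ho; simp only [Ex.wf, Bool.and_eq_true] at h
    refine ⟨iha h.1 ho.1, ihb h.2 ho.2.1, ?_⟩
    rw [eval_agree hr ha a h.1, eval_agree hr ha b h.2]; exact ho.2.2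
  | sub a b iha ihb =>
    intro h ho; simp only [Ex.wf, Bool.and_eq_true] at h
    refine ⟨iha h.1 ho.1, ihb h.2 ho.2.1, ?_⟩
    rw [eval_agree hr ha a h.1, eval_agree hr ha b h.2]; exact ho.2.2
  | half a ih => intro h ho; exact ih h ho
  | ld k a ih =>
    intro h ho; simp only [Ex.wf, Bool.and_eq_true, decide_eq_true_eq] at h
    exact ih h.2 ho
  | inp a ih =>
    intro h ho
    refine ⟨ih h ho.1, ?_, ?_⟩
    · rw [eval_agree hr ha a h]; exact ho.2.1
    · rw [eval_agree hr ha a h]; exact ho.2.2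

private theorem holds_agree {V K : ℕ} {inp : ℕ → ℕ} {s st : St} (hr : ∀ i < V, st.reg i = s.reg i)
    (ha : ∀ k < K, st.arr k = s.arr k) (c : Co) (h : c.wf V K = true) :
    c.Holds inp st ↔ c.Holds inp s := by
  cases c with
  | lt a b =>
    simp only [Co.wf, Bool.and_eq_true] at h
    simp only [Co.Holds, eval_agree hr ha _ h.1, eval_agree hr ha _ h.2]
  | eq a b =>
    simp only [Co.wf, Bool.and_eq_true] at h
    simp only [Co.Holds, eval_agree hr ha _ h.1, eval_agree hr ha _ h.2]

private theorem cok_agree {V K M : ℕ} {inp : ℕ → ℕ} {s st : St} (hr : ∀ i < V, st.reg i = s.reg i)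
    (ha : ∀ k < K, st.arr k = s.arr k) (c : Co) (h : c.wf V K = true) (ho : c.Ok M inp s) :
    c.Ok M inp st := by
  cases c with
  | lt a b =>
    simp only [Co.wf, Bool.and_eq_true] at h
    exact ⟨ok_agree hr ha _ h.1 ho.1, ok_agree hr ha _ h.2 ho.2⟩
  | eq a b =>
    simp only [Co.wf, Bool.and_eq_true] at h
    exact ⟨ok_agree hr ha _ h.1 ho.1, ok_agree hr ha _ h.2 ho.2⟩

/-! ### the simulation -/

private theorem sim_main {M : ℕ} {inp : ℕ → ℕ} {lam : ℕ} (hM : 10 ≤ M) (hlam : 1 ≤ lam)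
    {p : XStm} {s s' : St × AQ} {k : ℕ} (h : XRun M inp lam p s s' k) :
    p.wf (Op.wf XV) XV XK = true → ∀ (st : St) (T : PT), Rel M lam s.1 s.2 st T →
      ∃ (st2 : St) (T2 : PT) (k2 : ℕ), Run M inp noPrim (trP p) (st, ()) (st2, ()) k2 ∧
        Rel M lam s'.1 s'.2 st2 T2 ∧ (k2 : ℝ) + CC * T2.Phi ≤ 20 * CC * k + CC * T.Phi := by
  induction h with
  | skip s =>
    intro _ st T hR
    exact ⟨st, T, 1, .skip _, hR, by norm_num⟩
  | set s q i e hok =>
    intro hwf st T hR
    simp only [Stm.wf, Bool.and_eq_true, decide_eq_true_eq] at hwf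
    have hv := eval_agree (inp := inp) hR.reg hR.arr e hwf.2
    have ho := ok_agree hR.reg hR.arr e hwf.2 hok
    have hi : i < 100 := hwf.1
    refine ⟨st.setReg i (e.eval inp st), T, e.sz + 1, .set st () i e ho, ?_, ?_⟩
    · have hN : (st.setReg i (e.eval inp st)).reg NUL = st.reg NUL := by
        simp only [reg_setReg]; rw [if_neg]; show ¬ (100 = i); omega
      refine ⟨fun j hj => ?_, fun j hj => ?_, hR.out, hR.toL, ?_, ?_, hR.len, ?_⟩
      · simp only [reg_setReg, hv]
        split_ifs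
        · rfl
        · exact hR.reg j hj
      · exact hR.arr j hj
      · rw [hN]; exact hR.inv.of_nd rfl hN
      · rw [hN]
        simp only [reg_setReg]; rw [if_neg]
        · exact hR.root
        · show ¬ (101 = i); omega
      · refine ⟨fun j => ?_, fun k j => hR.bdd.2 k j⟩
        simp only [reg_setReg]
        split_ifs
        · exact Ex.eval_lt hR.bdd e ho
        · exact hR.bdd.1 j
    · push_cast
      have : (0 : ℝ) ≤ e.sz := Nat.cast_nonneg _
      nlinarith
  | sto s q k a e hoa hoe =>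
    intro hwf st T hR
    simp only [Stm.wf, Bool.and_eq_true, decide_eq_true_eq] at hwf
    have hva := eval_agree (inp := inp) hR.reg hR.arr a hwf.1.2
    have hve := eval_agree (inp := inp) hR.reg hR.arr e hwf.2
    have ho1 := ok_agree hR.reg hR.arr a hwf.1.2 hoa
    have ho2 := ok_agree hR.reg hR.arr e hwf.2 hoe
    have hk : k < 60 := hwf.1.1
    refine ⟨st.setArr k (a.eval inp st) (e.eval inp st), T, a.sz + e.sz + 1,
      .sto st () k a e ho1 ho2, ?_, ?_⟩
    · have hnd : nd (st.setArr k (a.eval inp st) (e.eval inp st)) = nd st := by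
        funext y
        have : ∀ j, 60 ≤ j → (st.setArr k (a.eval inp st) (e.eval inp st)).arr j y = st.arr j y := by
          intro j hj
          simp only [arr_setArr]; rw [if_neg]; rintro ⟨h1, _⟩; omega
        simp only [nd, Nd.mk.injEq]
        refine ⟨this _ ?_, this _ ?_, this _ ?_, this _ ?_, this _ ?_, this _ ?_, this _ ?_,
          this _ ?_, this _ ?_, this _ ?_⟩ <;> decide
      refine ⟨fun j hj => hR.reg j hj, fun j hj => ?_, hR.out, hR.toL, ?_, hR.root, hR.len, ?_⟩
      · funext y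
        simp only [arr_setArr, hva, hve]
        split_ifs
        · rfl
        · rw [hR.arr j hj]
      · exact hR.inv.of_nd hnd rfl
      · refine ⟨fun j => hR.bdd.1 j, fun k' j => ?_⟩
        simp only [arr_setArr]
        split_ifs
        · exact Ex.eval_lt hR.bdd e ho2
        · exact hR.bdd.2 k' j
    · push_cast
      have : (0 : ℝ) ≤ e.sz := Nat.cast_nonneg _
      have : (0 : ℝ) ≤ a.sz := Nat.cast_nonneg _
      nlinarith
  | prt s q e hok =>
    intro hwf st T hR
    have hwf' : e.wf XV XK = true := hwf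
    have hv := eval_agree (inp := inp) hR.reg hR.arr e hwf'
    have ho := ok_agree hR.reg hR.arr e hwf' hok
    refine ⟨st.print (e.eval inp st), T, e.sz + 1, .prt st () e ho, ?_, ?_⟩
    · refine ⟨fun j hj => hR.reg j hj, fun j hj => hR.arr j hj, ?_, hR.toL, ?_, hR.root, hR.len, hR.bdd⟩
      · show st.out ++ [e.eval inp st] = s.out ++ [e.eval inp s]
        rw [hv, hR.out]
      · exact hR.inv.of_nd rfl rfl
    · push_cast
      have : (0 : ℝ) ≤ e.sz := Nat.cast_nonneg _
      nlinarith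
  | seq p p' s s' s'' k k' h h' ih ih' =>
    intro hwf st T hR
    simp only [Stm.wf, Bool.and_eq_true] at hwf
    obtain ⟨st1, T1, k1, hr1, hR1, hc1⟩ := ih hwf.1 st T hR
    obtain ⟨st2, T2, k2, hr2, hR2, hc2⟩ := ih' hwf.2 st1 T1 hR1
    refine ⟨st2, T2, k1 + k2, .seq _ _ _ _ _ _ _ hr1 hr2, hR2, ?_⟩
    push_cast; push_cast at hc1 hc2; linarith
  | ite_t c p p' s s' k hc ht h ih =>
    intro hwf st T hR
    simp only [Stm.wf, Bool.and_eq_true] at hwf
    obtain ⟨st1, T1, k1, hr1, hR1, hc1⟩ := ih hwf.1.2 st T hR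
    refine ⟨st1, T1, c.sz + 1 + k1, .ite_t _ _ _ _ _ _ (cok_agree hR.reg hR.arr c hwf.1.1 hc)
      ((holds_agree hR.reg hR.arr c hwf.1.1).2 ht) hr1, hR1, ?_⟩
    push_cast
    have : (0 : ℝ) ≤ c.sz := Nat.cast_nonneg _
    push_cast at hc1; nlinarith
  | ite_f c p p' s s' k hc ht h ih =>
    intro hwf st T hR
    simp only [Stm.wf, Bool.and_eq_true] at hwf
    obtain ⟨st1, T1, k1, hr1, hR1, hc1⟩ := ih hwf.2 st T hR
    refine ⟨st1, T1, c.sz + 1 + k1, .ite_f _ _ _ _ _ _ (cok_agree hR.reg hR.arr c hwf.1.1 hc)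
      (fun h' => ht ((holds_agree hR.reg hR.arr c hwf.1.1).1 h')) hr1, hR1, ?_⟩
    push_cast
    have : (0 : ℝ) ≤ c.sz := Nat.cast_nonneg _
    push_cast at hc1; nlinarith
  | whl_t c p s s' s'' k k' hc ht h h' ih ih' =>
    intro hwf st T hR
    have hwf0 := hwf
    simp only [Stm.wf, Bool.and_eq_true] at hwf
    obtain ⟨st1, T1, k1, hr1, hR1, hc1⟩ := ih hwf.2 st T hR
    obtain ⟨st2, T2, k2, hr2, hR2, hc2⟩ := ih' hwf0 st1 T1 hR1
    refine ⟨st2, T2, c.sz + 1 + k1 + k2, .whl_t _ _ _ _ _ _ _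
      (cok_agree hR.reg hR.arr c hwf.1 hc) ((holds_agree hR.reg hR.arr c hwf.1).2 ht) hr1 hr2,
      hR2, ?_⟩
    push_cast
    have : (0 : ℝ) ≤ c.sz := Nat.cast_nonneg _
    push_cast at hc1 hc2; nlinarith
  | whl_f c p s hc ht =>
    intro hwf st T hR
    simp only [Stm.wf, Bool.and_eq_true] at hwf
    refine ⟨st, T, c.sz + 1, .whl_f _ _ _ (cok_agree hR.reg hR.arr c hwf.1 hc)
      (fun h' => ht ((holds_agree hR.reg hR.arr c hwf.1).1 h')), hR, ?_⟩
    push_cast
    have : (0 : ℝ) ≤ c.sz := Nat.cast_nonneg _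
    nlinarith
  | prim o s s' k h =>
    intro hwf st T hR
    exact splaySim_op o hwf M inp lam s.1 s.2 s'.1 s'.2 k hM hlam h st T hR

theorem splay_sim (p : XStm) (hp : p.wf (Op.wf XV) XV XK = true) :
    ∃ (p' : Stm Empty) (V K C : ℕ), p'.wf (fun _ => true) V K = true ∧
      ∀ (M : ℕ) (inp : ℕ → ℕ) (lam : ℕ) (s' : St) (q' : AQ) (k : ℕ), 10 ≤ M → 1 ≤ lam →
        XRun M inp lam p (St.zero, { seq := [], key := fun _ => 0 }) (s', q') k →
        ∃ (s'' : St) (k' : ℕ), Run M inp noPrim p' (St.zero, ()) (s'', ()) k' ∧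
          s''.out = s'.out ∧ k' ≤ C * (k + 1) := by
  refine ⟨trP p, 115, 70, 200000, wf_trP p hp, fun M inp lam s' q' k hM hlam hrun => ?_⟩
  have h0 : Rel M lam St.zero { seq := [], key := fun _ => 0 } St.zero .nil := by
    refine ⟨fun _ _ => rfl, fun _ _ => rfl, rfl, rfl, ?_, rfl, Nat.zero_le _, ?_⟩
    · exact ⟨trivial, List.nodup_nil, ⟨rfl, rfl, rfl, rfl⟩, rfl, by show 0 < M; omega⟩
    · exact ⟨fun _ => by show 0 < M; omega, fun _ _ => by show 0 < M; omega⟩
  obtain ⟨st2, T2, k2, hr, hR, hc⟩ := sim_main hM hlam hrun hp St.zero .nil h0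
  refine ⟨st2, k2, hr, hR.out, ?_⟩
  have h1 : (0 : ℝ) ≤ T2.Phi := PT.Phi_nonneg T2
  have h2 : (PT.nil).Phi = 0 := rfl
  rw [h2] at hc
  have h3 : (k2 : ℝ) ≤ 200000 * k := by
    push_cast at hc; nlinarith
  have h4 : k2 ≤ 200000 * k := by exact_mod_cast h3
  omega

end SBR
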